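import Pool.Agent.Work.MP_678620_nt.MRDefs

/-! Shifting the argument. -/

set_option autoImplicit false
open Finset Filter MeasureTheory Pool.Agent.Lib.MR

namespace Pool.Agent.Work.MP_678620_nt

lemma shift_cls {N : ℕ} {c : ℤ → ℂ} {r : ℕ} (hr : 1 ≤ r) {T B : ℝ} {U : Set ℝ}
    (hU : MeasurableSet U)
    (hc : ∀ a y : ℕ, y ≤ 20 * N → MS T U (DP (cls r a y) fun n => c n) ≤ B)
    {χ : ℕ → ℂ} (hχ : ∀ n, ‖χ n‖ ≤ 1) {lo y : ℕ} (h1 : lo ≤ y) (h2 : y ≤ 20 * N) :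
    MS T U (DP (Ioc lo y) fun n => c n * χ (n % r)) ≤ 4 * (r : ℝ) ^ 2 * B := by
  have e : (DP (Ioc lo y) fun n => c n * χ (n % r)) = fun u => ∑ a ∈ range r, χ a *
      (DP (cls r a y) (fun n => c n) u + (-1) * DP (cls r a lo) (fun n => c n) u) := by
    funext u
    unfold DP
    rw [← sum_fiberwise_of_maps_to (s := Ioc lo y) (t := range r) (g := fun n => n % r)
      fun n _ => mem_range.2 (Nat.mod_lt _ hr)]
    refine sum_congr rfl fun a ha => ?_
    have ha' : a % r = a := Nat.mod_eq_of_lt (mem_range.1 ha)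
    have e1 : ∀ z, cls r a z = (Ioc 0 z).filter fun n => n % r = a := fun z => by
      ext n
      simp only [cls, mem_filter, mem_Icc, mem_Ioc, Nat.ModEq, ha']
      omega
    rw [e1, e1, sum_filter, sum_filter, sum_filter,
      ← sum_Ioc_consecutive _ (Nat.zero_le lo) h1]
    rw [neg_one_mul, add_neg_cancel_comm, mul_sum]
    refine sum_congr rfl fun n _ => ?_
    split_ifs with h
    · simp only [h]
      ring
    · simp
  have t : ∀ a, Trig fun u =>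
      DP (cls r a y) (fun n => c n) u + (-1) * DP (cls r a lo) (fun n => c n) u := fun a =>
    (Trig.DP _ _).add ((Trig.const _).mul (Trig.DP _ _))
  rw [e]
  refine (MS_sum_le (fun a _ => (Trig.const _).mul (t a)) T U).trans ?_
  have b : ∀ a ∈ range r, MS T U (fun u => χ a *
      (DP (cls r a y) (fun n => c n) u + (-1) * DP (cls r a lo) (fun n => c n) u)) ≤ 4 * B := by
    intro a _
    have b1 := MS_le_of_le ((Trig.const (χ a)).mul (t a)) (t a) T hU (c := 1) fun u _ => by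
      rw [norm_mul]
      exact mul_le_mul_of_nonneg_right (hχ a) (norm_nonneg _)
    have b2 := MS_add_le (Trig.DP (cls r a y) fun n => c n)
      ((Trig.const (-1)).mul (Trig.DP (cls r a lo) fun n => c n)) T U
    have b3 := MS_le_of_le ((Trig.const (-1)).mul (Trig.DP (cls r a lo) fun n => c n))
      (Trig.DP (cls r a lo) fun n => c n) T hU (c := 1) fun u _ => by simp
    linarith [hc a y h2, hc a lo (h1.trans h2)]
  have := sum_le_sum b
  rw [sum_const, card_range, nsmul_eq_mul] at this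
  rw [card_range]
  refine (mul_le_mul_of_nonneg_left this (Nat.cast_nonneg _)).trans (le_of_eq (by ring))

lemma shift_abel (a φ : ℕ → ℂ) {ε : ℝ} {lo hi : ℕ} (h : lo ≤ hi)
    (hφ : ∀ y, lo ≤ y → ‖φ (y + 1) - φ y‖ ≤ ε) :
    ‖∑ n ∈ Ioc lo hi, a n * φ n - (∑ n ∈ Ioc lo hi, a n) * φ hi‖
      ≤ ε * ∑ y ∈ Ico lo hi, ‖∑ n ∈ Ioc lo y, a n‖ := by
  induction hi, h using Nat.le_induction with
  | base => simp
  | succ k hk ih =>
    rw [sum_Ioc_succ_top hk, sum_Ioc_succ_top hk, sum_Ico_succ_top hk, mul_add]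
    have e : ∑ n ∈ Ioc lo k, a n * φ n + a (k + 1) * φ (k + 1) -
        (∑ n ∈ Ioc lo k, a n + a (k + 1)) * φ (k + 1) =
        (∑ n ∈ Ioc lo k, a n * φ n - (∑ n ∈ Ioc lo k, a n) * φ k) -
          (φ (k + 1) - φ k) * ∑ n ∈ Ioc lo k, a n := by ring
    rw [e]
    refine (norm_sub_le _ _).trans (add_le_add ih ?_)
    rw [norm_mul]
    exact mul_le_mul_of_nonneg_right (hφ k hk) (norm_nonneg _)

lemma shift_log {A B m : ℝ} (hm : 0 < m) (hA : m ≤ A) (hB : m ≤ B) :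
    |Real.log A - Real.log B| ≤ |A - B| / m := by
  have key : ∀ {A B : ℝ}, m ≤ A → m ≤ B → Real.log A - Real.log B ≤ |A - B| / m := by
    intro A B hA hB
    have hB0 : 0 < B := hm.trans_le hB
    have hA0 : 0 < A := hm.trans_le hA
    rw [← Real.log_div hA0.ne' hB0.ne']
    refine (Real.log_le_sub_one_of_pos (div_pos hA0 hB0)).trans ?_
    rw [div_sub_one hB0.ne']
    exact (div_le_div_of_nonneg_right (le_abs_self _) hB0.le).trans
      (div_le_div_of_nonneg_left (abs_nonneg _) hm hB)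
  refine abs_le.2 ⟨?_, key hA hB⟩
  have := key hB hA
  rw [abs_sub_comm] at this
  linarith

lemma shift_exp (a b : ℝ) :
    ‖Complex.exp (Complex.I * a) - Complex.exp (Complex.I * b)‖ ≤ |a - b| := by
  have e : Complex.exp (Complex.I * a) - Complex.exp (Complex.I * b) =
      Complex.exp (Complex.I * b) * (Complex.exp (Complex.I * ((a - b : ℝ) : ℂ)) - 1) := by
    rw [mul_sub, ← Complex.exp_add, mul_one]
    congr 2
    push_cast
    ring
  rw [e, norm_mul, mul_comm Complex.I (b : ℂ), Complex.norm_exp_ofReal_mul_I, one_mul]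
  exact Real.norm_exp_I_mul_ofReal_sub_one_le

lemma shift_phase {y h u m : ℝ} (hm : 0 < m) (h1 : m ≤ y) (h2 : m ≤ y - h) :
    |u * (Real.log (y + 1 - h) - Real.log (y + 1)) - u * (Real.log (y - h) - Real.log y)|
      ≤ |u| * (|h| / m ^ 2) := by
  have hy : 0 < y := hm.trans_le h1
  have hy' : 0 < y - h := hm.trans_le h2
  have := shift_log (A := (y + 1 - h) * y) (B := (y + 1) * (y - h)) (m := m ^ 2) (by positivity)
    (by rw [sq]; exact mul_le_mul (by linarith) h1 hm.le (by linarith))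
    (by rw [sq]; exact mul_le_mul (by linarith) h2 hm.le (by linarith))
  rw [Real.log_mul (by linarith) hy.ne', Real.log_mul (by linarith) hy'.ne',
    show (y + 1 - h) * y - (y + 1) * (y - h) = h by ring] at this
  rw [← mul_sub, abs_mul]
  refine mul_le_mul_of_nonneg_left (le_trans (le_of_eq ?_) this) (abs_nonneg u)
  congr 1
  ring

/-- The phase. -/
noncomputable def shiftPh (h : ℤ) (u : ℝ) (n : ℕ) : ℂ :=
  Complex.exp (Complex.I * ((u * (Real.log (n - h) - Real.log n) : ℝ) : ℂ))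

lemma shift_reindex {N : ℕ} {h : ℤ} (hN : 100 * h.natAbs + 100 ≤ N) (c : ℤ → ℂ) {r : ℕ}
    {ψ : ℕ → ℂ} (hψ : ∀ n, ψ (n + r) = ψ n) {lo hi : ℕ} (hlo : (lo : ℤ) = (N / 12 : ℕ) + h)
    (hhi : (hi : ℤ) = (12 * N : ℕ) + h) (u : ℝ) :
    DP (Ioc (N / 12) (12 * N)) (fun n => c (n + h) * ψ n) u =
      ∑ n ∈ Ioc lo hi, c n * ψ ((((n % r : ℕ) : ℤ) - h) % r).toNat * nit n u * shiftPh h u n := by
  unfold DP
  refine sum_bij' (fun n _ => ((n : ℤ) + h).toNat) (fun n _ => ((n : ℤ) - h).toNat)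
    (fun n hn => ?_) (fun n hn => ?_) (fun n hn => ?_) (fun n hn => ?_) fun n hn => ?_
  · rw [mem_Ioc] at hn ⊢
    omega
  · rw [mem_Ioc] at hn ⊢
    omega
  · rw [mem_Ioc] at hn
    omega
  · rw [mem_Ioc] at hn
    omega
  · rw [mem_Ioc] at hn
    obtain ⟨m, hm⟩ : ∃ m : ℕ, (m : ℤ) = n + h := ⟨((n : ℤ) + h).toNat, by omega⟩
    have e1 : ψ n = ψ ((((m % r : ℕ) : ℤ) - h) % r).toNat := by
      have e : (((m % r : ℕ) : ℤ) - h) % r = ((n % r : ℕ) : ℤ) := by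
        push_cast
        rw [Int.emod_sub_emod, hm, add_sub_cancel_right]
      rw [e, Int.toNat_natCast]
      exact (Function.Periodic.map_mod_nat hψ n).symm
    have e2 : (m : ℝ) - h = n := by
      have : ((m : ℤ) : ℝ) = ((n + h : ℤ) : ℝ) := by rw [hm]
      push_cast at this
      linarith
    have e3 : nit n u = nit m u * shiftPh h u m := by
      simp only [nit, shiftPh, e2, ← Complex.exp_add]
      congr 1
      push_cast
      ring
    simp only [← hm, Int.toNat_natCast, ← e1, e3, mul_assoc]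

lemma norm_shiftPh (h : ℤ) (u : ℝ) (n : ℕ) : ‖shiftPh h u n‖ = 1 := by
  rw [shiftPh, mul_comm Complex.I, Complex.norm_exp_ofReal_mul_I]

lemma shiftPh_sub {h : ℤ} {u m : ℝ} {y : ℕ} (hm : 0 < m) (h1 : m ≤ y) (h2 : m ≤ y - h) :
    ‖shiftPh h u (y + 1) - shiftPh h u y‖ ≤ |u| * (|(h : ℝ)| / m ^ 2) := by
  unfold shiftPh
  refine (shift_exp _ _).trans ?_
  push_cast
  exact shift_phase hm h1 h2

lemma shift_int {F : ℝ → ℂ} (hF : Trig F) {S : ℕ → ℝ → ℂ} (hS : ∀ y, Trig (S y)) {T ε K B : ℝ}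
    {U : Set ℝ} (hU : MeasurableSet U) {lo hi : ℕ} (hlh : lo ≤ hi) (hB : 0 ≤ B)
    (hcard : ((Ico lo hi).card : ℝ) ≤ K) (hSb : ∀ y, lo ≤ y → y ≤ hi → MS T U (S y) ≤ B)
    (h : ∀ u ∈ U, ‖F u‖ ≤ ‖S hi u‖ + ε * ∑ y ∈ Ico lo hi, ‖S y u‖) :
    MS T U F ≤ (2 + 2 * (ε * K) ^ 2) * B := by
  have hK : 0 ≤ K := (Nat.cast_nonneg _).trans hcard
  have hpt : ∀ u ∈ U, ‖F u‖ ^ 2 ≤
      2 * ‖S hi u‖ ^ 2 + 2 * ε ^ 2 * K * ∑ y ∈ Ico lo hi, ‖S y u‖ ^ 2 := fun u hu => by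
    have a3 : (∑ y ∈ Ico lo hi, ‖S y u‖) ^ 2 ≤ K * ∑ y ∈ Ico lo hi, ‖S y u‖ ^ 2 :=
      sq_sum_le_card_mul_sum_sq.trans
        (mul_le_mul_of_nonneg_right hcard (sum_nonneg fun _ _ => sq_nonneg _))
    have a4 := pow_le_pow_left₀ (norm_nonneg _) (h u hu) 2
    have a5 := mul_le_mul_of_nonneg_left a3 (sq_nonneg ε)
    nlinarith [sq_nonneg (‖S hi u‖ - ε * ∑ y ∈ Ico lo hi, ‖S y u‖)]
  have hint : ∀ y, Integrable (fun u => ‖S y u‖ ^ 2) ((cm T).restrict U) := fun y =>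
    (hS y).integrable_sq _
  have hI : Integrable (fun u => 2 * ‖S hi u‖ ^ 2 + 2 * ε ^ 2 * K * ∑ y ∈ Ico lo hi, ‖S y u‖ ^ 2)
      ((cm T).restrict U) :=
    ((hint hi).const_mul 2).fun_add ((integrable_finsetSum _ fun y _ => hint y).const_mul _)
  have hsum : ∑ y ∈ Ico lo hi, MS T U (S y) ≤ K * B := by
    refine (sum_le_sum fun y hy => hSb y (mem_Ico.1 hy).1 (mem_Ico.1 hy).2.le).trans ?_
    rw [sum_const, nsmul_eq_mul]
    exact mul_le_mul_of_nonneg_right hcard hB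
  calc _ ≤ ∫ u in U, (2 * ‖S hi u‖ ^ 2 + 2 * ε ^ 2 * K * ∑ y ∈ Ico lo hi, ‖S y u‖ ^ 2)
        ∂(cm T) :=
        setIntegral_mono_on (hF.integrable_sq _) hI hU hpt
    _ = 2 * MS T U (S hi) + 2 * ε ^ 2 * K * ∑ y ∈ Ico lo hi, MS T U (S y) := by
        rw [integral_add ((hint hi).const_mul _)
          ((integrable_finsetSum _ fun y _ => hint y).const_mul _), integral_const_mul,
          integral_const_mul, integral_finsetSum _ fun y _ => hint y]
        rfl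
    _ ≤ 2 * B + 2 * ε ^ 2 * K * (K * B) :=
        add_le_add (mul_le_mul_of_nonneg_left (hSb hi hlh le_rfl) (by norm_num))
          (mul_le_mul_of_nonneg_left hsum (by positivity))
    _ = _ := by ring

theorem shift_MS {N : ℕ} {h : ℤ} (hN : 100 * h.natAbs + 100 ≤ N) {c : ℤ → ℂ} {r : ℕ} (hr : 1 ≤ r)
    {T T' B : ℝ} {U : Set ℝ} (hU : MeasurableSet U) (hT' : ∀ u ∈ U, |u| ≤ T')
    (hc : ∀ a y : ℕ, y ≤ 20 * N → MS T U (DP (cls r a y) fun n => c n) ≤ B)
    {ψ : ℕ → ℂ} (hψ1 : ∀ n, ‖ψ n‖ ≤ 1) (hψ : ∀ n, ψ (n + r) = ψ n) :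
    MS T U (DP (Ioc (N / 12) (12 * N)) fun n => c (n + h) * ψ n)
      ≤ 10 ^ 9 * (r : ℝ) ^ 2 * (1 + T' * |(h : ℝ)| / N) ^ 2 * B := by
  have hB : 0 ≤ B := (MS_nonneg _ _ _).trans (hc 0 0 (Nat.zero_le _))
  rcases U.eq_empty_or_nonempty with rfl | ⟨u0, hu0⟩
  · rw [MS, Measure.restrict_empty, integral_zero_measure]
    positivity
  have hT0 : 0 ≤ T' := (abs_nonneg _).trans (hT' u0 hu0)
  obtain ⟨lo, hlo⟩ : ∃ lo : ℕ, (lo : ℤ) = (N / 12 : ℕ) + h := ⟨((N / 12 : ℕ) + h).toNat, by omega⟩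
  obtain ⟨hi, hhi⟩ : ∃ hi : ℕ, (hi : ℤ) = (12 * N : ℕ) + h := ⟨((12 * N : ℕ) + h).toNat, by omega⟩
  have hlh : lo ≤ hi := by omega
  have hN0 : (0 : ℝ) < N := by exact_mod_cast (by omega : 0 < N)
  have hcard : ((Ico lo hi).card : ℝ) ≤ 12 * N := by
    rw [Nat.card_Ico]
    exact_mod_cast (by omega : hi - lo ≤ 12 * N)
  have hF := shift_reindex hN c hψ hlo hhi
  obtain ⟨χ, hχ⟩ : ∃ χ : ℕ → ℂ, ∀ a : ℕ, ψ (((a : ℤ) - h) % r).toNat = χ a := ⟨_, fun _ => rfl⟩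
  simp only [hχ] at hF
  have key := shift_int (T := T) (Trig.DP (Ioc (N / 12) (12 * N)) fun n => c (n + h) * ψ n)
    (S := fun y => DP (Ioc lo y) fun n => c n * χ (n % r)) (fun y => Trig.DP _ _)
    (ε := T' * (|(h : ℝ)| / (N / 20) ^ 2)) (B := 4 * (r : ℝ) ^ 2 * B) hU hlh (by positivity) hcard
    (fun y h1 h2 => shift_cls hr hU hc (fun a => hχ a ▸ hψ1 _) h1 (by omega)) fun u hu => ?_
  · refine key.trans ?_
    have e : T' * (|(h : ℝ)| / (N / 20) ^ 2) * (12 * N) = 4800 * (T' * |(h : ℝ)| / N) := by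
      field_simp
      ring
    have b1 : 0 ≤ T' * |(h : ℝ)| / N := by positivity
    have b2 : 0 ≤ (r : ℝ) ^ 2 * B := by positivity
    rw [e]
    generalize T' * |(h : ℝ)| / N = x at b1 ⊢
    have b3 : 8 + 8 * 4800 ^ 2 * x ^ 2 ≤ 10 ^ 9 * (1 + x) ^ 2 := by nlinarith
    have := mul_le_mul_of_nonneg_right b3 b2
    linarith
  · have a1 := shift_abel (fun n => c n * χ (n % r) * nit n u) (shiftPh h u)
      (ε := T' * (|(h : ℝ)| / (N / 20) ^ 2)) hlh fun y hy => by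
      have b1 : (N : ℝ) / 20 ≤ y := by
        have : N ≤ 20 * y := by omega
        have : (N : ℝ) ≤ 20 * y := by exact_mod_cast this
        linarith
      have b2 : (N : ℝ) / 20 ≤ y - h := by
        have : (N : ℤ) ≤ 20 * (y - h) := by omega
        have : (N : ℝ) ≤ 20 * (y - h) := by exact_mod_cast this
        linarith
      exact (shiftPh_sub (by positivity) b1 b2).trans
        (mul_le_mul_of_nonneg_right (hT' u hu) (by positivity))
    have b1 : ‖(∑ n ∈ Ioc lo hi, c n * χ (n % r) * nit n u) * shiftPh h u hi‖ =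
        ‖∑ n ∈ Ioc lo hi, c n * χ (n % r) * nit n u‖ := by rw [norm_mul, norm_shiftPh, mul_one]
    have b2 := norm_le_insert' (∑ n ∈ Ioc lo hi, c n * χ (n % r) * nit n u * shiftPh h u n)
      ((∑ n ∈ Ioc lo hi, c n * χ (n % r) * nit n u) * shiftPh h u hi)
    rw [hF]
    simp only [DP]
    linarith

end Pool.Agent.Work.MP_678620_nt
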