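import Pool.Agent.Work.MP_678620_nt.MRDefs

/-! Short sums of an unbounded sequence. -/

set_option autoImplicit false
open Finset Filter MeasureTheory Pool.Agent.Lib.MR

namespace Pool.Agent.Work.MP_678620_nt

/-- Schur test for the smoothed sums. -/
lemma MRShort_sum_smo (a : ℕ → ℂ) {T : ℝ} (hT : 0 < T) (Y : ℕ) :
    ∑ j ∈ Icc 1 Y, ‖smo a T j‖ ^ 2 ≤ (1 + 2 * Y / T) ^ 2 * ∑ n ∈ Icc 1 Y, ‖a n‖ ^ 2 := by
  set k : ℕ → ℕ → ℝ := fun m n => Real.exp (-(T * |Real.log m - Real.log n|)) with hk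
  have hk0 : ∀ m n, 0 ≤ k m n := fun m n => (Real.exp_pos _).le
  have hks : ∀ m n, k m n = k n m := fun m n => by simp only [hk, abs_sub_comm]
  have hB : 0 ≤ 1 + 2 * Y / T := by positivity
  have h1 : ∀ j ∈ Icc 1 Y, ‖smo a T j‖ ^ 2 ≤
      (1 + 2 * Y / T) * ∑ i ∈ Icc 1 Y, ‖a i‖ ^ 2 * k j i := by
    intro j hj
    obtain ⟨hj1, hjY⟩ := mem_Icc.1 hj
    have h2 : ‖smo a T j‖ ≤ ∑ i ∈ Icc 1 Y, ‖a i‖ * k j i := by
      refine (norm_sum_le _ _).trans (le_trans (le_of_eq (sum_congr rfl fun i hi => ?_))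
        (sum_le_sum_of_subset_of_nonneg (Icc_subset_Icc_right hjY) fun i _ _ =>
          mul_nonneg (norm_nonneg _) (hk0 _ _)))
      obtain ⟨hi1, hij⟩ := mem_Icc.1 hi
      have hi' : (0 : ℝ) < i := by exact_mod_cast hi1
      have hij' : (i : ℝ) ≤ j := by exact_mod_cast hij
      have hj' : (0 : ℝ) < j := by linarith only [hi', hij']
      have := Real.log_le_log hi' hij'
      rw [norm_mul, Complex.norm_real, Real.norm_of_nonneg (by positivity),
        Real.rpow_def_of_pos (by positivity), Real.log_div hi'.ne' hj'.ne']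
      simp only [hk]
      rw [abs_of_nonneg (by linarith only [this])]
      congr 2; ring
    refine (pow_le_pow_left₀ (norm_nonneg _) h2 2).trans ?_
    refine (sum_sq_le_sum_mul_sum_of_sq_le_mul (Icc 1 Y) (f := fun i => k j i)
      (g := fun i => ‖a i‖ ^ 2 * k j i) (fun i _ => hk0 _ _)
      (fun i _ => mul_nonneg (sq_nonneg _) (hk0 _ _)) fun i _ => le_of_eq (by ring)).trans ?_
    exact mul_le_mul_of_nonneg_right (sum_kernel_le hj hT)
      (sum_nonneg fun i _ => mul_nonneg (sq_nonneg _) (hk0 _ _))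
  refine (sum_le_sum h1).trans ?_
  rw [← mul_sum, sum_comm, sq (1 + 2 * Y / T), mul_assoc]
  refine mul_le_mul_of_nonneg_left ?_ hB
  rw [mul_sum]
  refine sum_le_sum fun i hi => ?_
  rw [← mul_sum, mul_comm]
  refine mul_le_mul_of_nonneg_right ?_ (sq_nonneg _)
  simp only [hks _ i]
  exact sum_kernel_le hi hT

lemma MRShort_shift {w : ℕ → ℝ} {x₀ y₀ X Y k : ℕ} (h0 : y₀ ≤ x₀) (hk : X + k ≤ Y)
    (hw : ∀ j, y₀ ≤ j → 0 ≤ w j) : ∑ x ∈ Icc x₀ X, w (x + k) ≤ ∑ j ∈ Icc y₀ Y, w j := by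
  rw [← sum_image (s := Icc x₀ X) (g := fun x => x + k) (f := w)
    (fun a _ b _ h => by simpa using h)]
  refine sum_le_sum_of_subset_of_nonneg (fun j hj => ?_) fun j hj _ => hw j (mem_Icc.1 hj).1
  obtain ⟨y, hy, rfl⟩ := mem_image.1 hj
  have := mem_Icc.1 hy
  rw [mem_Icc]; omega

theorem short_le_MS2 (a : ℕ → ℂ) {T : ℝ} (hT : 0 < T) {x₀ : ℕ} (hx : 1 ≤ x₀) (X H : ℕ) :
    ∑ x ∈ Icc x₀ X, ‖∑ j ∈ range H, a (x + 1 + j)‖ ^ 2 ≤
      2 * (H : ℝ) ^ 2 / (Real.pi * x₀) * MS T Set.univ (DP (Icc 1 (X + H)) a)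
        + 8 * (1 + 2 * (X + H) / T) ^ 2 * ∑ n ∈ Icc 1 (X + H), ‖a n‖ ^ 2 := by
  have hπ := Real.pi_pos
  have hx' : (0 : ℝ) < x₀ := by exact_mod_cast hx
  set w : ℕ → ℝ := fun j => ‖smo a T j‖ ^ 2 * (1 - ((j : ℝ) / (j + 1)) ^ (2 * T)) with hw
  have hρ : ∀ j : ℕ, x₀ ≤ j → 0 ≤ w j ∧
      ‖smo a T j * ((1 - ((j : ℝ) / (j + 1)) ^ T : ℝ) : ℂ)‖ ^ 2 ≤ T / x₀ * w j := by
    intro j hj
    obtain ⟨h1, h2, h3⟩ := ratio_bounds hT (hx.trans hj)
    have h4 : ((j : ℝ) / (j + 1)) ^ T ≤ 1 :=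
      le_trans (le_mul_of_one_le_right h1 (le_add_of_nonneg_right (by positivity))) h2
    have h5 : ((j : ℝ) / (j + 1)) ^ (2 * T) = (((j : ℝ) / (j + 1)) ^ T) ^ 2 := by
      rw [mul_comm, Real.rpow_mul (by positivity), Real.rpow_two]
    have h6 : T / j ≤ T / x₀ := by gcongr
    simp only [hw, h5]
    set r := ((j : ℝ) / (j + 1)) ^ T
    have h7 : 1 - r ≤ 1 - r ^ 2 := by nlinarith only [h1, h4]
    refine ⟨mul_nonneg (by positivity) (by nlinarith only [h4, h7]), ?_⟩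
    rw [norm_mul, Complex.norm_real, Real.norm_of_nonneg (by linarith only [h4]), mul_pow, mul_left_comm]
    refine mul_le_mul_of_nonneg_left ?_ (by positivity)
    rw [sq (1 - r)]
    exact mul_le_mul (by linarith only [h6, h3]) h7 (by linarith only [h4]) (by positivity)
  have hW : Real.pi * T * ∑ j ∈ Icc x₀ (X + H), w j ≤ MS T Set.univ (DP (Icc 1 (X + H)) a) := by
    refine le_trans ?_ (sum_sq_le_MS (Icc 1 (X + H)) id (fun i hi => (mem_Icc.1 hi).1) a hT (X + H))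
    refine mul_le_mul_of_nonneg_left ?_ (by positivity)
    have e : ∀ j ∈ Icc 1 (X + H), ‖∑ i ∈ Icc 1 (X + H) with id i ≤ j,
        a i * (((((id i : ℕ) : ℝ) / j) ^ T : ℝ) : ℂ)‖ ^ 2 * (1 - ((j : ℝ) / (j + 1)) ^ (2 * T))
        = w j := fun j hj => by
      have : (Icc 1 (X + H)).filter (fun i => id i ≤ j) = Icc 1 j := by
        ext i; have := mem_Icc.1 hj; simp only [mem_filter, mem_Icc, id]; omega
      rw [this]; rfl
    rw [sum_congr rfl e]
    refine sum_le_sum_of_subset_of_nonneg (Icc_subset_Icc_left hx) fun j hj _ => ?_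
    refine mul_nonneg (by positivity)
      (sub_nonneg.2 (Real.rpow_le_one (by positivity) ?_ (by positivity)))
    exact div_le_one_of_le₀ (by linarith) (by positivity)
  have h1 : ∀ x ∈ Icc x₀ X, ‖∑ j ∈ range H, a (x + 1 + j)‖ ^ 2
      ≤ 2 * H * (T / x₀) * ∑ k ∈ range H, w (x + k) +
        (4 * ‖smo a T (x + H)‖ ^ 2 + 4 * ‖smo a T (x + 0)‖ ^ 2) := by
    intro x hxm
    obtain ⟨hx1, hx2⟩ := mem_Icc.1 hxm
    rw [sum_eq_smo a T, add_zero]
    set Z := ∑ k ∈ range H,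
      smo a T (x + k) * ((1 - (((x + k : ℕ) : ℝ) / ((x + k : ℕ) + 1)) ^ T : ℝ) : ℂ) with hZ
    have b3 : ‖Z‖ ^ 2 ≤ H * (T / x₀ * ∑ k ∈ range H, w (x + k)) := by
      refine (pow_le_pow_left₀ (norm_nonneg _) (norm_sum_le _ _) 2).trans
        (sq_sum_le_card_mul_sum_sq.trans ?_)
      rw [card_range]
      refine mul_le_mul_of_nonneg_left ?_ (by positivity)
      rw [mul_sum]
      exact sum_le_sum fun k _ => (hρ (x + k) (by omega)).2
    have b4 : ‖smo a T (x + H) - smo a T x + Z‖ ≤ ‖smo a T (x + H)‖ + ‖smo a T x‖ + ‖Z‖ :=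
      (norm_add_le _ _).trans (by linarith only [norm_sub_le (smo a T (x + H)) (smo a T x)])
    have b5 := pow_le_pow_left₀ (norm_nonneg _) b4 2
    nlinarith only [b3, b5, sq_nonneg (‖smo a T (x + H)‖ + ‖smo a T x‖ - ‖Z‖),
      sq_nonneg (‖smo a T (x + H)‖ - ‖smo a T x‖)]
  have h2 : ∑ x ∈ Icc x₀ X, ∑ k ∈ range H, w (x + k) ≤ H * ∑ j ∈ Icc x₀ (X + H), w j := by
    rw [sum_comm]
    calc _ ≤ ∑ _k ∈ range H, ∑ j ∈ Icc x₀ (X + H), w j := sum_le_sum fun k hk =>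
          MRShort_shift le_rfl (by have := mem_range.1 hk; omega) fun j hj => (hρ j hj).1
      _ = _ := by simp
  refine (sum_le_sum h1).trans ?_
  rw [sum_add_distrib, ← mul_sum, sum_add_distrib, ← mul_sum, ← mul_sum]
  refine add_le_add ?_ ?_
  · calc _ ≤ 2 * H * (T / x₀) * (H * ∑ j ∈ Icc x₀ (X + H), w j) := by gcongr
      _ = 2 * (H : ℝ) ^ 2 / (Real.pi * x₀) * (Real.pi * T * ∑ j ∈ Icc x₀ (X + H), w j) := by
          field_simp
      _ ≤ _ := by gcongr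
  · have h3 := MRShort_sum_smo a hT (X + H)
    have h4 := MRShort_shift (w := fun j => ‖smo a T j‖ ^ 2) (X := X) (Y := X + H) (k := H) hx
      le_rfl fun _ _ => sq_nonneg _
    have h5 := MRShort_shift (w := fun j => ‖smo a T j‖ ^ 2) (X := X) (Y := X + H) (k := 0) hx
      (by omega) fun _ _ => sq_nonneg _
    push_cast at h3
    linarith only [h4, h5, h3]

/-- The triple convolution. -/
noncomputable def tc (I V S : Finset ℕ) (c : ℕ → ℂ) (m : ℕ) : ℂ :=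
  ∑ p ∈ I, ∑ w ∈ V, ∑ n ∈ S, if p * w * n = m then c n else 0

lemma DP_tc {I V S : Finset ℕ} (c : ℕ → ℂ) {Y : ℕ}
    (h : ∀ p ∈ I, ∀ w ∈ V, ∀ n ∈ S, p * w * n ∈ Icc 1 Y) (u : ℝ) :
    DP (Icc 1 Y) (tc I V S c) u = DP I (fun _ => 1) u * DP V (fun _ => 1) u * DP S c u := by
  have e : DP I (fun _ => 1) u * DP V (fun _ => 1) u * DP S c u =
      ∑ p ∈ I, ∑ w ∈ V, ∑ n ∈ S, nit p u * nit w u * (c n * nit n u) := by
    simp only [DP, one_mul]
    rw [sum_mul_sum, sum_mul]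
    refine sum_congr rfl fun p _ => ?_
    rw [sum_mul_sum]
  rw [e]
  simp only [DP, tc, sum_mul]
  rw [sum_comm]
  refine sum_congr rfl fun p hp => ?_
  rw [sum_comm]
  refine sum_congr rfl fun w hw => ?_
  rw [sum_comm]
  refine sum_congr rfl fun n hn => ?_
  have h1 := h p hp w hw n hn
  have h2 : p * w * n ≠ 0 := by have := (mem_Icc.1 h1).1; omega
  simp only [ite_mul, zero_mul]
  rw [sum_ite_eq, if_pos h1, nit_mul (left_ne_zero_of_mul h2) (right_ne_zero_of_mul h2),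
    nit_mul (left_ne_zero_of_mul (left_ne_zero_of_mul h2))
      (right_ne_zero_of_mul (left_ne_zero_of_mul h2))]
  ring

lemma MRShort_omega {v : ℕ} (hv : 1 ≤ v) {N : ℝ} (hN : (v : ℝ) ≤ N) :
    (v.primeFactors.card : ℝ) ≤ 2 * Real.log N := by
  have h1 : 2 ^ v.primeFactors.card ≤ v :=
    (pow_card_le_prod _ (fun p => p) 2 fun p hp => (Nat.prime_of_mem_primeFactors hp).two_le).trans
      (Nat.le_of_dvd hv (Nat.prod_primeFactors_dvd v))
  have h2 : (2 : ℝ) ^ v.primeFactors.card ≤ N := le_trans (by exact_mod_cast h1) hN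
  have h3 := Real.log_le_log (by positivity) h2
  rw [Real.log_pow] at h3
  have h4 := Real.log_two_gt_d9
  have h5 : (0 : ℝ) ≤ v.primeFactors.card := Nat.cast_nonneg _
  nlinarith only [h3, h4]

/-- The indicator of divisibility. -/
noncomputable def MRShort_dv (a b : ℕ) : ℝ := if a ∣ b then 1 else 0

lemma MRShort_dv_nonneg (a b : ℕ) : 0 ≤ MRShort_dv a b := by
  unfold MRShort_dv; split_ifs <;> norm_num

lemma MRShort_sum_dv (a Y : ℕ) : ∑ m ∈ Icc 1 Y, MRShort_dv a m ≤ (Y : ℝ) / a := by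
  unfold MRShort_dv
  rw [← sum_filter, sum_const, nsmul_eq_mul, mul_one]
  have : Icc 1 Y = Ioc 0 Y := rfl
  rw [this, Nat.Ioc_filter_dvd_card_eq_div]
  exact Nat.cast_div_le

lemma MRShort_norm_tc {I V S : Finset ℕ} {c : ℕ → ℂ} {J : ℕ} {L : ℝ} (hJ : 1 ≤ J) (hL : 0 ≤ L)
    (hI : ∀ p ∈ I, p.Prime) (h : ∀ p ∈ I, ∀ w ∈ V, J ≤ 2 * (p * w) ∧ p * w ≤ 5 * J)
    (hc : ∀ n ∈ S, ‖c n‖ ≤ L) (m : ℕ) :
    ‖tc I V S c m‖ ≤ L * (2 * Real.log (5 * J)) *
      ∑ v ∈ Icc 1 (5 * J) with J ≤ 2 * v, MRShort_dv v m := by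
  have h1 : ∀ p ∈ I, ∀ w ∈ V, ‖∑ n ∈ S, if p * w * n = m then c n else 0‖ ≤
      L * MRShort_dv (p * w) m := by
    intro p hp w hw
    have h0 : 0 < p * w := by have := (h p hp w hw).1; omega
    by_cases hex : ∃ n ∈ S, p * w * n = m
    · obtain ⟨n, hn, e⟩ := hex
      rw [sum_eq_single n (fun n' _ hne => if_neg fun e' =>
        hne (Nat.eq_of_mul_eq_mul_left h0 (e'.trans e.symm))) (fun hh => absurd hn hh), if_pos e,
        MRShort_dv, if_pos ⟨n, e.symm⟩, mul_one]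
      exact hc n hn
    · rw [sum_eq_zero fun n hn => if_neg fun e => hex ⟨n, hn, e⟩, norm_zero]
      exact mul_nonneg hL (MRShort_dv_nonneg _ _)
  have h2 : ‖tc I V S c m‖ ≤ L * ∑ x ∈ I ×ˢ V, MRShort_dv (x.1 * x.2) m := by
    rw [sum_product, mul_sum]
    refine (norm_sum_le _ _).trans (sum_le_sum fun p hp => ?_)
    rw [mul_sum]
    exact (norm_sum_le _ _).trans (sum_le_sum fun w hw => h1 p hp w hw)
  refine h2.trans ?_
  rw [mul_assoc]
  refine mul_le_mul_of_nonneg_left ?_ hL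
  have hmap : ∀ x ∈ I ×ˢ V, x.1 * x.2 ∈ (Icc 1 (5 * J)).filter fun v => J ≤ 2 * v := by
    intro x hx
    obtain ⟨a1, a2⟩ := h _ (mem_product.1 hx).1 _ (mem_product.1 hx).2
    exact mem_filter.2 ⟨mem_Icc.2 ⟨by omega, a2⟩, a1⟩
  rw [← sum_fiberwise_of_maps_to hmap, mul_sum]
  refine sum_le_sum fun v hv => ?_
  obtain ⟨hv1, hv2⟩ := mem_Icc.1 (mem_filter.1 hv).1
  rw [sum_congr rfl (g := fun _ => MRShort_dv v m) fun x hx => by rw [(mem_filter.1 hx).2],
    sum_const, nsmul_eq_mul]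
  refine mul_le_mul_of_nonneg_right (le_trans ?_ (MRShort_omega hv1 (by exact_mod_cast hv2)))
    (MRShort_dv_nonneg _ _)
  refine Nat.cast_le.2 (card_le_card_of_injOn Prod.fst (fun x hx => ?_) fun x hx y hy e => ?_)
  · obtain ⟨a1, a2⟩ := mem_filter.1 (mem_coe.1 hx)
    exact mem_coe.2 (Nat.mem_primeFactors.2 ⟨hI _ (mem_product.1 a1).1, ⟨x.2, a2.symm⟩, by omega⟩)
  · obtain ⟨a1, a2⟩ := mem_filter.1 (mem_coe.1 hx)
    obtain ⟨-, b2⟩ := mem_filter.1 (mem_coe.1 hy)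
    refine Prod.ext e (Nat.eq_of_mul_eq_mul_left (hI _ (mem_product.1 a1).1).pos ?_)
    rw [a2, e, b2]

lemma MRShort_pair {v v' N : ℕ} (hv : v ∈ Icc 1 N) (hv' : 1 ≤ v') (Y : ℕ) :
    ∑ m ∈ Icc 1 Y, MRShort_dv v m * MRShort_dv v' m ≤
      Y * ∑ g ∈ Icc 1 N, g * (MRShort_dv g v / v * (MRShort_dv g v' / v')) := by
  obtain ⟨hv1, hvN⟩ := mem_Icc.1 hv
  have e : ∀ m, MRShort_dv v m * MRShort_dv v' m = MRShort_dv (Nat.lcm v v') m := fun m => by
    unfold MRShort_dv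
    by_cases h1 : v ∣ m <;> by_cases h2 : v' ∣ m <;> simp [h1, h2, Nat.lcm_dvd_iff]
  simp only [e]
  refine (MRShort_sum_dv _ Y).trans ?_
  rw [div_eq_mul_inv]
  refine mul_le_mul_of_nonneg_left ?_ (Nat.cast_nonneg _)
  have hg : Nat.gcd v v' ∈ Icc 1 N :=
    mem_Icc.2 ⟨Nat.gcd_pos_of_pos_left _ hv1, (Nat.gcd_le_left _ hv1).trans hvN⟩
  refine le_trans (le_of_eq ?_) (single_le_sum
    (f := fun g : ℕ => (g : ℝ) * (MRShort_dv g v / v * (MRShort_dv g v' / v')))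
    (fun g _ => by have := MRShort_dv_nonneg g v; have := MRShort_dv_nonneg g v'; positivity) hg)
  have h1 : (Nat.gcd v v' : ℝ) * Nat.lcm v v' = v * v' := by exact_mod_cast Nat.gcd_mul_lcm v v'
  have h2 : (0 : ℝ) < v := by exact_mod_cast hv1
  have h3 : (0 : ℝ) < v' := by exact_mod_cast hv'
  have h4 : (0 : ℝ) < Nat.lcm v v' := by exact_mod_cast Nat.lcm_pos hv1 hv'
  simp only [MRShort_dv, if_pos (Nat.gcd_dvd_left v v'), if_pos (Nat.gcd_dvd_right v v')]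
  field_simp
  linarith only [h1]

lemma MRShort_sum_sq_dv {J : ℕ} (hJ : 1 ≤ J) (Y : ℕ) :
    ∑ m ∈ Icc 1 Y, (∑ v ∈ Icc 1 (5 * J) with J ≤ 2 * v, MRShort_dv v m) ^ 2 ≤
      100 * (1 + Real.log (5 * J)) * Y := by
  set W := (Icc 1 (5 * J)).filter fun v => J ≤ 2 * v with hW
  have hJ' : (0 : ℝ) < J := by exact_mod_cast hJ
  have h1 : ∀ g ∈ Icc 1 (5 * J), ∑ v ∈ W, MRShort_dv g v / v ≤ 10 / g := by
    intro g hg
    have hg' : (0 : ℝ) < g := by exact_mod_cast (mem_Icc.1 hg).1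
    calc _ ≤ ∑ v ∈ W, MRShort_dv g v * (2 / J) := sum_le_sum fun v hv => by
          have a1 : (J : ℝ) ≤ 2 * v := by exact_mod_cast (mem_filter.1 hv).2
          rw [div_eq_mul_inv]
          refine mul_le_mul_of_nonneg_left ?_ (MRShort_dv_nonneg _ _)
          rw [inv_eq_one_div, div_le_div_iff₀ (by linarith) hJ']
          linarith
      _ ≤ ((5 * J : ℕ) : ℝ) / g * (2 / J) := by
          rw [← sum_mul]
          refine mul_le_mul_of_nonneg_right (le_trans ?_ (MRShort_sum_dv g _)) (by positivity)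
          exact sum_le_sum_of_subset_of_nonneg (filter_subset _ _) fun _ _ _ =>
            MRShort_dv_nonneg _ _
      _ = 10 / g := by push_cast; field_simp; norm_num
  calc _ = ∑ v ∈ W, ∑ v' ∈ W, ∑ m ∈ Icc 1 Y, MRShort_dv v m * MRShort_dv v' m := by
        simp only [sq, sum_mul_sum]
        rw [sum_comm]
        exact sum_congr rfl fun v _ => sum_comm
    _ ≤ ∑ v ∈ W, ∑ v' ∈ W,
          Y * ∑ g ∈ Icc 1 (5 * J), g * (MRShort_dv g v / v * (MRShort_dv g v' / v')) :=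
        sum_le_sum fun v hv => sum_le_sum fun v' hv' =>
          MRShort_pair (mem_filter.1 hv).1 (mem_Icc.1 (mem_filter.1 hv').1).1 Y
    _ = Y * ∑ g ∈ Icc 1 (5 * J), g * (∑ v ∈ W, MRShort_dv g v / v) ^ 2 := by
        simp only [← mul_sum]
        congr 1
        rw [sum_congr rfl fun v _ => sum_comm, sum_comm]
        refine sum_congr rfl fun g _ => ?_
        rw [sq, sum_mul_sum]
        simp only [mul_sum]
    _ ≤ Y * ∑ g ∈ Icc 1 (5 * J), 100 * (g : ℝ)⁻¹ := by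
        refine mul_le_mul_of_nonneg_left (sum_le_sum fun g hg => ?_) (Nat.cast_nonneg _)
        have hg' : (0 : ℝ) < g := by exact_mod_cast (mem_Icc.1 hg).1
        have a1 := pow_le_pow_left₀ (sum_nonneg fun v _ =>
          div_nonneg (MRShort_dv_nonneg g v) (Nat.cast_nonneg v)) (h1 g hg) 2
        refine (mul_le_mul_of_nonneg_left a1 hg'.le).trans (le_of_eq ?_)
        field_simp
        norm_num
    _ ≤ _ := by
        have a1 := harmonic_le_one_add_log (5 * J)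
        simp only [harmonic_eq_sum_Icc, Rat.cast_sum, Rat.cast_inv, Rat.cast_natCast] at a1
        rw [← mul_sum, mul_comm]
        push_cast at a1
        gcongr

theorem sum_sq_tc {I V S : Finset ℕ} {c : ℕ → ℂ} {J Y : ℕ} {L : ℝ} (hJ : 1 ≤ J)
    (hI : ∀ p ∈ I, p.Prime) (h : ∀ p ∈ I, ∀ w ∈ V, J ≤ 2 * (p * w) ∧ p * w ≤ 5 * J)
    (hc : ∀ n ∈ S, ‖c n‖ ≤ L) :
    ∑ m ∈ Icc 1 Y, ‖tc I V S c m‖ ^ 2 ≤ 1000 * L ^ 2 * (1 + Real.log (5 * J)) ^ 3 * Y := by
  have h1 := fun m => pow_le_pow_left₀ (norm_nonneg _) (MRShort_norm_tc hJ (abs_nonneg L) hI h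
    (fun n hn => (hc n hn).trans (le_abs_self L)) m) 2
  refine (sum_le_sum fun m _ => h1 m).trans ?_
  simp only [mul_pow, sq_abs]
  rw [← mul_sum]
  refine (mul_le_mul_of_nonneg_left (MRShort_sum_sq_dv hJ Y) (by positivity)).trans ?_
  have hJ' : (1 : ℝ) ≤ J := by exact_mod_cast hJ
  have h2 : 0 ≤ Real.log (5 * J) := Real.log_nonneg (by linarith)
  set l := Real.log (5 * J)
  have h3 : l ^ 2 ≤ (1 + l) ^ 2 := by nlinarith only [h2]
  calc _ = 400 * l ^ 2 * (L ^ 2 * (1 + l) * Y) := by ring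
    _ ≤ 1000 * (1 + l) ^ 2 * (L ^ 2 * (1 + l) * Y) := by gcongr; norm_num
    _ = _ := by ring

lemma MRShort_MS_eq (T : ℝ) {U : Set ℝ} (hU : MeasurableSet U) (F : ℝ → ℂ) :
    MS T U F = ∫ u in U, wt T u * ‖F u‖ ^ 2 := by
  rw [MS, cm, setIntegral_withDensity_eq_setIntegral_toReal_smul (measurable_wt T).ennreal_ofReal
    (Eventually.of_forall fun _ => ENNReal.ofReal_lt_top) _ hU]
  simp only [ENNReal.toReal_ofReal (wt_nonneg T _), smul_eq_mul]

lemma MRShort_int {F : ℝ → ℂ} (hF : Trig F) (T : ℝ) :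
    Integrable fun u => wt T u * ‖F u‖ ^ 2 := by
  obtain ⟨h1, C, hC⟩ := hF
  refine (integrable_wt T).mul_bdd (c := C ^ 2) (h1.norm.pow 2).aestronglyMeasurable
    (Eventually.of_forall fun u => ?_)
  rw [norm_pow, norm_norm]
  exact pow_le_pow_left₀ (norm_nonneg _) (hC u) 2

/-- Far frequencies. -/
lemma MS_tail {S : Finset ℕ} {M : ℕ} (hS : S ⊆ Icc 1 M) (a : ℕ → ℂ) {T T' : ℝ} (hT : 0 < T)
    (hT' : 0 < T') : MS T {u | T' < |u|} (DP S a)
      ≤ 2 * (T / T') ^ 2 * (Real.pi * (T' + 2 * M) * ∑ n ∈ S, ‖a n‖ ^ 2) := by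
  have hU : MeasurableSet {u : ℝ | T' < |u|} :=
    measurableSet_lt measurable_const continuous_abs.measurable
  have hF := Trig.DP S a
  refine le_trans ?_ (mul_le_mul_of_nonneg_left ((MS_mono hF T' (Set.subset_univ {u | T' < |u|})).trans
    (mean_value hS a hT')) (by positivity))
  rw [MRShort_MS_eq T hU, MRShort_MS_eq T' hU, ← integral_const_mul]
  refine setIntegral_mono_on (MRShort_int hF T).integrableOn
    ((MRShort_int hF T').const_mul _).integrableOn hU fun u hu => ?_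
  rw [← mul_assoc]
  refine mul_le_mul_of_nonneg_right ?_ (sq_nonneg _)
  have h1 : T' ^ 2 ≤ u ^ 2 := by
    rw [← sq_abs u]
    exact pow_le_pow_left₀ hT'.le (le_of_lt hu) 2
  have e : 2 * (T / T') ^ 2 * wt T' u = T ^ 2 / ((T' ^ 2 + u ^ 2) / 2) := by
    unfold wt; field_simp
  rw [e, wt]
  refine div_le_div_of_nonneg_left (sq_nonneg _) (by positivity) ?_
  nlinarith only [h1, sq_nonneg T]

/-- Chebyshev's inequality with a high moment. -/
lemma MRShort_cheb {I : Finset ℕ} {P T b : ℝ} (hP : 1 ≤ P) (hT : 0 < T) (hb : 0 < b)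
    (hI : ∀ p ∈ I, p.Prime ∧ P ≤ p ∧ (p : ℝ) ≤ 2 * P) {k : ℕ} (hk : 1 ≤ k) (hTk : T ≤ P ^ k) :
    (cm T).real {u | P / b < ‖DP I (fun _ => 1) u‖} ≤ (80 * (k + 1) * b ^ 2) ^ k := by
  have hF := Trig.DP I fun _ => 1
  have hG : Trig fun u => DP I (fun _ => 1) u ^ k * DP (Icc 1 1) (fun _ => 1) u :=
    (hF.pow k).mul (Trig.DP _ _)
  have hU : MeasurableSet {u | P / b < ‖DP I (fun _ => 1) u‖} :=
    measurableSet_lt measurable_const hF.1.norm.measurable
  have hP0 : 0 < P := by linarith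
  have h1 := MS_le_of_le (Trig.const 1) hG T hU (c := (b / P) ^ k) fun u hu => by
    have h2 : ‖DP (Icc 1 1) (fun _ => 1) u‖ = 1 := by simp [DP]
    rw [norm_mul, h2, mul_one, norm_pow, ← mul_pow, norm_one]
    refine one_le_pow₀ ?_
    have h3 : P / b < ‖DP I (fun _ => 1) u‖ := hu
    rw [div_lt_iff₀ hb] at h3
    rw [div_mul_eq_mul_div, le_div_iff₀ hP0]
    linarith
  rw [MS_one] at h1
  have h2 := (MS_mono hG T (Set.subset_univ {u | P / b < ‖DP I (fun _ => 1) u‖})).trans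
    (moment hP hI (a := fun _ => 1) (b := fun _ => 1) (by simp) (by simp) k 1 hT)
  refine h1.trans ((mul_le_mul_of_nonneg_left h2 (by positivity)).trans ?_)
  have h3 : P ^ k ≤ (2 * P) ^ k := pow_le_pow_left₀ hP0.le (by linarith only [hP]) k
  have h4 : Real.pi * (T + 2 * (2 * P) ^ k * (1 : ℕ)) * (1 : ℕ) ≤ 10 ^ k * (2 * P) ^ k := by
    have a1 : (10 : ℝ) ≤ 10 ^ k := le_self_pow₀ (by norm_num) (by omega)
    have a2 := Real.pi_lt_d2
    have a3 : 0 < (2 * P) ^ k := by positivity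
    push_cast
    calc _ ≤ 3.15 * (3 * (2 * P) ^ k) := by
          rw [mul_one, mul_one]
          exact mul_le_mul a2.le (by linarith only [hTk, h3]) (by positivity) (by norm_num)
      _ ≤ _ := by nlinarith only [hT, hTk, h3, a1]
  calc _ ≤ ((b / P) ^ k) ^ 2 * (10 ^ k * (2 * P) ^ k * ((4 * k + 4) * P) ^ k) := by gcongr
    _ = _ := by
        rw [← pow_mul, mul_comm k 2, pow_mul, ← mul_pow, ← mul_pow, ← mul_pow]
        congr 1
        field_simp
        ring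

/-- The set where a prime polynomial is large is sparse. -/
theorem large_sparse (B : ℕ) {c0 : ℝ} (hc0 : 0 < c0) : ∀ᶠ X : ℕ in atTop, ∀ (P T : ℝ)
    (I : Finset ℕ), Real.exp (Real.log X ^ c0) ≤ P → P ≤ X → 0 < T → T ≤ (X : ℝ) ^ 3 →
    (∀ p ∈ I, p.Prime ∧ P ≤ p ∧ (p : ℝ) ≤ 2 * P) →
    (cm T).real {u | P / Real.log X ^ B < ‖DP I (fun _ => 1) u‖}
      ≤ Real.exp (Real.log X ^ (1 - c0 / 2)) := by
  have hlog : Tendsto (fun X : ℕ => Real.log X) atTop atTop :=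
    Real.tendsto_log_atTop.comp tendsto_natCast_atTop_atTop
  have hε : (0 : ℝ) < 1 / (4 * (2 * B + 2)) := by positivity
  filter_upwards [hlog.eventually ((isLittleO_log_rpow_atTop (half_pos hc0)).bound hε),
    hlog.eventually (eventually_ge_atTop 400), eventually_gt_atTop 0] with X h1 h2 hX
  intro P T I hP hPX hT hTX hI
  have hX' : (0 : ℝ) < X := by exact_mod_cast hX
  have eX : Real.exp (Real.log X) = X := Real.exp_log hX'
  set l := Real.log X with hl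
  have hl0 : 0 < l := by linarith only [h2]
  have hl1 : 1 ≤ l := by linarith
  have hc1 : c0 ≤ 1 := by
    have a1 : l ^ c0 ≤ l := Real.exp_le_exp.1 (by rw [eX]; exact hP.trans hPX)
    by_contra hcon
    have a2 := Real.rpow_lt_rpow_of_exponent_lt (by linarith only [h2] : 1 < l) (not_le.1 hcon)
    rw [Real.rpow_one] at a2
    linarith
  have hm1 : 1 ≤ l ^ (1 - c0) := Real.one_le_rpow hl1 (by linarith only [hc1])
  have hm2 : l ^ (1 - c0) ≤ l := by
    simpa using Real.rpow_le_rpow_of_exponent_le hl1 (by linarith only [hc0] : 1 - c0 ≤ 1)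
  set k := ⌈3 * l ^ (1 - c0)⌉₊ with hk
  have hk1 : 3 * l ^ (1 - c0) ≤ k := Nat.le_ceil _
  have hk2 : (k : ℝ) ≤ 4 * l ^ (1 - c0) := by
    have := Nat.ceil_lt_add_one (by linarith only [hm1] : 0 ≤ 3 * l ^ (1 - c0))
    linarith only [hm1, this]
  have hk3 : 1 ≤ k := by exact_mod_cast (by linarith only [hm1, hk1] : (1 : ℝ) ≤ k)
  have hc : 0 < l ^ c0 := Real.rpow_pos_of_pos hl0 _
  have hP1 : 1 ≤ P := (Real.one_le_exp hc.le).trans hP
  have hTk : T ≤ P ^ k := by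
    refine hTX.trans (le_trans ?_ (pow_le_pow_left₀ (Real.exp_pos _).le hP k))
    rw [← Real.exp_nat_mul, ← eX, ← Real.exp_nat_mul]
    refine Real.exp_le_exp.2 ?_
    have e : l ^ (1 - c0) * l ^ c0 = l := by rw [← Real.rpow_add hl0]; simp
    have := mul_le_mul_of_nonneg_right hk1 hc.le
    push_cast
    linarith only [e, this]
  refine (MRShort_cheb hP1 hT (pow_pos hl0 B) hI hk3 hTk).trans ?_
  have h3 : 80 * ((k : ℝ) + 1) * (l ^ B) ^ 2 ≤ Real.exp ((2 * B + 2) * Real.log l) := by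
    have e : Real.exp ((2 * B + 2) * Real.log l) = l * l * (l ^ B) ^ 2 := by
      rw [show (2 * B + 2 : ℝ) = ((2 * B + 2 : ℕ) : ℝ) by push_cast; ring, Real.exp_nat_mul,
        Real.exp_log hl0]
      ring
    rw [e]
    refine mul_le_mul_of_nonneg_right ?_ (by positivity)
    nlinarith only [h2, hm2, hk2]
  refine (pow_le_pow_left₀ (by positivity) h3 k).trans ?_
  rw [← Real.exp_nat_mul]
  refine Real.exp_le_exp.2 ?_
  have h4 : 0 ≤ Real.log l := Real.log_nonneg hl1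
  have h5 : 0 < l ^ (c0 / 2) := Real.rpow_pos_of_pos hl0 _
  rw [Real.norm_of_nonneg h4, Real.norm_of_nonneg h5.le, one_div_mul_eq_div,
    le_div_iff₀ (by positivity)] at h1
  have e : l ^ (1 - c0 / 2) = l ^ (1 - c0) * l ^ (c0 / 2) := by
    rw [← Real.rpow_add hl0]; congr 1; ring
  calc _ ≤ 4 * l ^ (1 - c0) * ((2 * B + 2) * Real.log l) := by gcongr
    _ = l ^ (1 - c0) * (Real.log l * (4 * (2 * B + 2))) := by ring
    _ ≤ _ := by rw [e]; gcongr

end Pool.Agent.Work.MP_678620_nt
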