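import Pool.Agent.Work.MP_678620_nt.TBDefs

/-! Pairs of linear forms: elementary estimates. -/

set_option autoImplicit false
open Finset Filter

namespace Pool.Agent.Work.MP_678620_nt

lemma TB_ek_ge {E : Finset ℕ} {H0 : ℝ} (h0 : 0 < H0) (hE : ∀ p ∈ E, H0 ≤ p)
    (big : 1 / 2 ≤ ∑ p ∈ E, (p : ℝ)⁻¹) (k : ℕ) (hk : 4 * (k : ℝ) ≤ H0) :
    (1 / 4) ^ k / k.factorial ≤ ek E k := by
  induction k with
  | zero => simp [ek, esym_zero]
  | succ j ih =>
    push_cast at hk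
    have a := le_esym_succ (I := E) (ν := fun p : ℕ => (p : ℝ)⁻¹) (b := H0⁻¹)
      (fun _ _ => by positivity) (fun p hp => inv_anti₀ h0 (hE p hp)) j
    have b : (j : ℝ) * H0⁻¹ ≤ 1 / 4 := by
      rw [← div_eq_mul_inv, div_le_iff₀ h0]; linarith only [hk]
    have c := mul_le_mul (show 1 / 4 ≤ ∑ p ∈ E, (p : ℝ)⁻¹ - j * H0⁻¹ by linarith only [big, b])
      (ih (by linarith only [hk])) (by positivity) (by linarith only [big, b])
    rw [Nat.factorial_succ, Nat.cast_mul, mul_comm, ← div_div, div_le_iff₀ (by positivity), pow_succ]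
    push_cast
    calc _ = 1 / 4 * ((1 / 4 : ℝ) ^ j / j.factorial) := by ring
      _ ≤ _ := c.trans a
      _ = _ := mul_comm _ _

lemma TB_tail {x : ℝ} (hx : 0 ≤ x) (n : ℕ) : x ^ n / n.factorial ≤ Real.exp (3 * x - n) := by
  have a := Real.pow_div_factorial_le_exp (Real.exp 1 * x) (by positivity) n
  have b : Real.exp (Real.exp 1 * x) ≤ Real.exp (3 * x) := Real.exp_le_exp.mpr
    (mul_le_mul_of_nonneg_right (by linarith only [Real.exp_one_lt_d9]) hx)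
  rw [Real.exp_sub, le_div_iff₀ (Real.exp_pos _)]
  refine le_trans (le_of_eq ?_) (a.trans b)
  rw [mul_pow, Real.exp_one_pow]; ring

lemma TB_shift1 (P : ℤ → Prop) [DecidablePred P] (a b c d : ℤ) :
    (((Ioc a b).filter P).card : ℤ) ≤ ((Ioc c d).filter P).card + |a - c| + |b - d| := by
  have h : (Ioc a b).filter P ⊆ (Ioc c d).filter P ∪ Ioc a c ∪ Ioc d b := fun x hx => by
    obtain ⟨h1, h2⟩ := mem_filter.mp hx
    simp only [mem_union, mem_filter, mem_Ioc, h2, and_true] at h1 ⊢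
    omega
  have := (card_le_card h).trans ((card_union_le _ _).trans
    (add_le_add_left (card_union_le _ _) _))
  rw [Int.card_Ioc, Int.card_Ioc] at this
  have e1 := neg_le_abs (a - c)
  have e2 := le_abs_self (b - d)
  have e3 := abs_nonneg (a - c)
  have e4 := abs_nonneg (b - d)
  omega

lemma TB_shift (P : ℤ → Prop) [DecidablePred P] (a b c d : ℤ) :
    |(((Ioc a b).filter P).card : ℝ) - ((Ioc c d).filter P).card|
      ≤ |((a - c : ℤ) : ℝ)| + |((b - d : ℤ) : ℝ)| := by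
  have h1 := TB_shift1 P a b c d
  have h2 := TB_shift1 P c d a b
  rw [abs_sub_comm c, abs_sub_comm d] at h2
  have : |(((Ioc a b).filter P).card : ℤ) - ((Ioc c d).filter P).card| ≤ |a - c| + |b - d| :=
    abs_le.mpr ⟨by linarith, by linarith⟩
  exact_mod_cast this

lemma TB_tend : Tendsto (fun X : ℕ => Real.log X) atTop atTop :=
  Real.tendsto_log_atTop.comp tendsto_natCast_atTop_atTop

lemma TB_ev_exp (C : ℝ) (n : ℕ) {c : ℝ} (hc : 0 < c) :
    ∀ᶠ X : ℕ in atTop, C * Real.log X ^ n ≤ Real.exp (Real.log X ^ c) := by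
  have h := (tendsto_exp_div_rpow_atTop (n / c)).comp ((tendsto_rpow_atTop hc).comp TB_tend)
  filter_upwards [h.eventually_ge_atTop C, TB_tend.eventually_gt_atTop 0] with X h1 h2
  simp only [Function.comp] at h1
  rw [← Real.rpow_mul h2.le, mul_div_cancel₀ _ hc.ne', Real.rpow_natCast,
    le_div_iff₀ (pow_pos h2 n)] at h1
  exact h1

lemma TB_ev_small {C δ : ℝ} (hC : 0 ≤ C) (hδ : 0 < δ) : ∀ᶠ X : ℕ in atTop,
    C * (1 + Real.log (Real.log X) + Real.log X ^ (1 / 4 : ℝ) + Real.log X ^ (24 / 25 : ℝ) +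
      Real.log (Real.log X) * Real.log X ^ (24 / 25 : ℝ)) ≤ δ * Real.log X := by
  filter_upwards [spc_pow_ev (show (49 / 50 : ℝ) < 1 by norm_num) (C * 103 / δ),
    TB_tend.eventually_ge_atTop 1] with X h1 h2
  generalize Real.log X = l at *
  have l0 : 0 < l := by linarith
  rw [Real.rpow_one, div_mul_eq_mul_div, div_le_iff₀ hδ] at h1
  have m : ∀ a : ℝ, a ≤ 49 / 50 → l ^ a ≤ l ^ (49 / 50 : ℝ) := fun a ha =>
    Real.rpow_le_rpow_of_exponent_le h2 ha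
  have a1 := m 0 (by norm_num)
  rw [Real.rpow_zero] at a1
  have a2 := Real.log_le_rpow_div l0.le (show (0 : ℝ) < 1 / 50 by norm_num)
  have a3 := mul_le_mul_of_nonneg_right a2 (Real.rpow_nonneg l0.le (24 / 25 : ℝ))
  rw [div_mul_eq_mul_div, ← Real.rpow_add l0,
    show (1 / 50 + 24 / 25 : ℝ) = 49 / 50 by norm_num] at a3
  have a4 : 1 + Real.log l + l ^ (1 / 4 : ℝ) + l ^ (24 / 25 : ℝ) + Real.log l * l ^ (24 / 25 : ℝ)
      ≤ 103 * l ^ (49 / 50 : ℝ) := by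
    linarith only [a1, a2, a3, m (1 / 50) (by norm_num), m (1 / 4) (by norm_num), m (24 / 25) (by norm_num)]
  linarith only [h1, a4, hC, mul_le_mul_of_nonneg_left a4 hC]

lemma TB_mertens : ∀ᶠ X : ℕ in atTop,
    ∑ p ∈ PZ (zz X), (p : ℝ)⁻¹ ≤ Real.log (Real.log X) + 72 := by
  filter_upwards [zz_big 1, TB_tend.eventually_ge_atTop 2] with X h1 h2
  have a : 2 ≤ ⌊zz X⌋₊ := Nat.le_floor (by push_cast; linarith [h1.1, pow_one (Real.log X)])
  have b := (abs_le.mp (Pool.Agent.Lib.ANT.abs_sum_inv_prime_sub_loglog_le _ a)).2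
  have a' : (2 : ℝ) ≤ ⌊zz X⌋₊ := by exact_mod_cast a
  have c : Real.log ⌊zz X⌋₊ ≤ Real.log X := by
    refine (Real.log_le_log (by linarith only [a']) (Nat.floor_le (a := zz X) (Real.exp_pos _).le)).trans ?_
    rw [zz, Real.log_exp]
    exact (Real.rpow_le_rpow_of_exponent_le (by linarith only [h2]) (by norm_num)).trans_eq (Real.rpow_one _)
  have d := Real.log_le_log (Real.log_pos (by linarith)) c
  have e : PZ (zz X) = (Ioc 0 ⌊zz X⌋₊).filter Nat.Prime := rfl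
  rw [e]; linarith only [b, d]

lemma TB_Sz (a1 a2 : ℕ) (b1 b2 : ℤ) (z : ℝ) : ∏ p ∈ PZ z, locF a1 a2 b1 b2 p =
    (Vz z)⁻¹ ^ 2 * ∏ p ∈ PZ z, (1 - (om a1 a2 b1 b2 p : ℝ) / p) := by
  simp only [locF, one_div]
  rw [prod_div_distrib, prod_pow, div_eq_inv_mul, inv_pow]
  rfl

lemma TB_size {B : ℝ} {a N : ℕ} {b n : ℤ} (h0 : 0 < a) (ha : (a : ℝ) ≤ B) (hb : |(b : ℝ)| ≤ B)
    (hN : 4 * B ≤ N) (h1 : N - B ≤ n) (h2 : (n : ℝ) ≤ 2 * N + B) :
    (N : ℝ) / 2 ≤ (a * n + b : ℤ) ∧ ((a * n + b : ℤ) : ℝ) ≤ 4 * B * N := by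
  have a1 : (1 : ℝ) ≤ a := by exact_mod_cast h0
  obtain ⟨b1, b2⟩ := abs_le.mp hb
  have n0 : (0 : ℝ) ≤ n := by linarith only [ha, hN, h1, a1]
  push_cast
  constructor
  · linarith only [hN, h1, b1, n0, a1, le_mul_of_one_le_left n0 a1]
  · have c1 := mul_le_mul ha (show (n : ℝ) ≤ 3 * N by linarith) n0 (by linarith)
    have c2 := le_mul_of_one_le_right (show 0 ≤ B by linarith) (show (1 : ℝ) ≤ N by linarith)
    linarith

lemma TB_ediv (a : ℕ) (b : ℤ) : |((-b / a : ℤ) : ℝ)| ≤ |(b : ℝ)| := by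
  have := Int.abs_ediv_le_abs (-b) a
  rw [abs_neg] at this
  exact_mod_cast this

lemma TB_arith {a a' r M D δ : ℝ} (δ0 : 0 ≤ δ) (δ1 : δ ≤ 1 / 6) (D0 : 0 ≤ D)
    (h1 : |a' - r| ≤ 3 * δ * a' + 3 * D) (h2 : |r - M| ≤ 3 * D) (h3 : |a - a'| ≤ D)
    (a0 : 0 ≤ a') : |a - M| ≤ 6 * δ * M + 13 * D := by
  rw [abs_le] at *
  have b1 := mul_le_mul_of_nonneg_right δ1 a0
  have b2 : a' ≤ 2 * M + 12 * D := by linarith only [h1, h2, b1]
  have b3 := mul_le_mul_of_nonneg_left b2 δ0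
  have b4 := mul_le_mul_of_nonneg_right δ1 D0
  constructor <;> linarith only [h1, h2, h3, b3, b4]

end Pool.Agent.Work.MP_678620_nt
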