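import Pool.Agent.Work.MP_678620_nt.TBDefs

/-! Pairs of linear forms: the values of the convolutions. -/

set_option autoImplicit false
open Finset Filter

namespace Pool.Agent.Work.MP_678620_nt

lemma TB_dat {z : ℝ} {E : Finset ℕ} {a : ℕ} (ha : 0 < a) (haz : (a : ℝ) ≤ z)
    (hE : ∀ p ∈ E, (p : ℝ) ≤ z) : Dat z 1 (bE a E) w1 := by
  refine ⟨fun n => ?_, fun n hn => ?_, fun n => ?_, fun n => ?_, fun n hn => ?_⟩
  · unfold bE; split_ifs <;> simp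
  · unfold bE at hn
    split_ifs at hn with h
    · obtain ⟨e, rfl, he⟩ := h
      intro p hp hd
      rcases (Nat.Prime.dvd_mul hp).mp hd with k | k
      · exact le_trans (by exact_mod_cast Nat.le_of_dvd ha k) haz
      · exact hE p (he p hp k)
    · exact absurd rfl hn
  · unfold w1; split_ifs <;> norm_num
  · unfold w1; split_ifs <;> norm_num
  · unfold w1 at hn
    split_ifs at hn with h
    · subst h
      exact ⟨fun p hp hd => absurd (Nat.dvd_one.mp hd) hp.ne_one, Nat.modEq_one⟩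
    · exact absurd rfl hn

lemma TB_inv {E : Finset ℕ} {a : ℕ} (ha : 0 < a) (hE : ∀ p ∈ E, p.Prime ∧ a < p) :
    ∀ p ∈ E, ∀ n, bE a E (p * n) = bE a E n := by
  classical
  intro p hp n
  unfold bE
  refine if_congr ⟨?_, ?_⟩ rfl rfl
  · rintro ⟨e, h, he⟩
    have h1 : p ∣ a * e := h ▸ dvd_mul_right p n
    rcases (Nat.Prime.dvd_mul (hE p hp).1).mp h1 with k | ⟨e', rfl⟩
    · exact absurd (Nat.le_of_dvd ha k) (not_le.mpr (hE p hp).2)
    · refine ⟨e', Nat.eq_of_mul_eq_mul_left (hE p hp).1.pos (by rw [h]; ring), fun q hq k => ?_⟩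
      exact he q hq (k.mul_left p)
  · rintro ⟨e, rfl, he⟩
    refine ⟨p * e, by ring, fun q hq k => ?_⟩
    rcases (Nat.Prime.dvd_mul hq).mp k with k | k
    · rwa [(Nat.prime_dvd_prime_iff_eq hq (hE p hp).1).mp k]
    · exact he q hq k

lemma TB_gam {z : ℝ} {t : ℕ} (ht : Rou z t) :
    gam z 1 w1 t = if t.Prime then Real.log t else 0 := by
  unfold gam
  split_ifs with h
  · rw [h.primeFactors, sum_singleton, if_pos ⟨ht t h dvd_rfl, Nat.modEq_one⟩, Nat.div_self h.pos]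
    simp [w1]
  · refine sum_eq_zero fun p hp => ?_
    have h1 : w1 (t / p) = 0 := by
      refine if_neg fun k => h ?_
      have := Nat.div_mul_cancel (Nat.dvd_of_mem_primeFactors hp)
      rw [k, one_mul] at this
      exact this ▸ Nat.prime_of_mem_primeFactors hp
    rw [h1]; simp

lemma TB_flat {z : ℝ} {t : ℕ} (ht : Rou z t) (h0 : t ≠ 0) :
    flat z 1 w1 t = if z < t then (Vz z)⁻¹ else 0 := by
  unfold flat rhoF
  rw [if_pos ⟨ht, Nat.modEq_one⟩]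
  have e : ∀ m : ℕ, w1 m / (m : ℝ) = if m = 1 then 1 else 0 := fun m => by
    unfold w1; split_ifs with h <;> simp [h]
  simp only [e, sum_ite_eq', mem_filter, mem_Icc, le_refl, true_and, Nat.cast_one, one_mul,
    Nat.one_le_iff_ne_zero.mpr h0]
  split_ifs <;> simp

lemma TB_wE {E : Finset ℕ} {a : ℕ} (ha : 0 < a) (hE : ∀ p ∈ E, p.Prime ∧ a < p) (u : ℤ) :
    wE E (a * u) = wE E u := by
  unfold wE
  congr 1
  refine filter_congr fun p hp => ⟨fun h => ?_, fun h => h.mul_left _⟩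
  rcases (Nat.prime_iff_prime_int.mp (hE p hp).1).dvd_or_dvd h with k | k
  · exact absurd (Nat.le_of_dvd ha (Int.natCast_dvd_natCast.mp k)) (not_le.mpr (hE p hp).2)
  · exact k

lemma TB_conv {z : ℝ} {E : Finset ℕ} {a n : ℕ} (ha : 0 < a) (haz : (a : ℝ) ≤ z)
    (hE : ∀ p ∈ E, (p : ℝ) ≤ z) (hn : n ≠ 0) {γ : ℕ → ℝ} (hγ : ∀ m, γ m ≠ 0 → Rou z m) :
    conv (bE a E) γ (a * n) =
      ((if ∀ p ∈ PZ z, (p : ℤ) ∣ n → p ∈ E then γ (rp z n) else 0 : ℝ) : ℂ) := by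
  have hz : 0 ≤ z := le_trans (Nat.cast_nonneg a) haz
  have sa : Smo z a := fun p _ k => le_trans (by exact_mod_cast Nat.le_of_dvd ha k) haz
  have e : a * sp z n * rp z n = a * n := by rw [mul_assoc, sp_mul_rp]
  have h1 := sp_eq (sa.mul (smo_sp z n)) (rou_rp z hn) (e ▸ mul_ne_zero ha.ne' hn)
  rw [e] at h1
  rw [← Nat.cast_mul, conv_eq (TB_dat ha haz hE).β_supp hγ (mul_ne_zero ha.ne' hn), h1.1, h1.2]
  have h2 : (∃ e : ℕ, a * sp z n = a * e ∧ ∀ p : ℕ, p.Prime → p ∣ e → p ∈ E) ↔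
      ∀ p ∈ PZ z, (p : ℤ) ∣ n → p ∈ E := by
    constructor
    · rintro ⟨e, h, he⟩ p hp k
      rw [mem_PZ hz] at hp
      rw [← Nat.eq_of_mul_eq_mul_left ha h] at he
      have k' := Int.natCast_dvd_natCast.mp k
      rw [← sp_mul_rp z n] at k'
      rcases (Nat.Prime.dvd_mul hp.1).mp k' with k | k
      · exact he p hp.1 k
      · exact absurd (rou_rp z hn p hp.1 k) (not_lt.mpr hp.2)
    · intro h
      refine ⟨_, rfl, fun p hp k => h p ((mem_PZ hz).mpr ⟨hp, smo_sp z n p hp k⟩) ?_⟩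
      exact Int.natCast_dvd_natCast.mpr (k.trans (Dvd.intro _ (sp_mul_rp z n)))
  unfold bE
  by_cases c : ∀ p ∈ PZ z, (p : ℤ) ∣ n → p ∈ E
  · rw [if_pos (h2.mpr c), if_pos c, one_mul]
  · rw [if_neg (mt h2.mp c), if_neg c, zero_mul, Complex.ofReal_zero]

lemma TB_log_cof {h1 : ℝ} {E S : Finset ℕ} {k t n : ℕ} (hE : ∀ p ∈ E, p.Prime ∧ Real.log p ≤ h1)
    (hS : S ∈ E.powersetCard k) (hn : n ≠ 0) (e : (∏ q ∈ S, q) * t = n) :
    Real.log n - k * h1 ≤ Real.log t ∧ Real.log t ≤ Real.log n := by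
  obtain ⟨s1, s2⟩ := mem_powersetCard.mp hS
  have t0 : t ≠ 0 := fun h => hn (by rw [← e, h, mul_zero])
  have p0 : ∀ q ∈ S, (q : ℝ) ≠ 0 := fun q hq => by exact_mod_cast (hE q (s1 hq)).1.ne_zero
  have e1 : Real.log n = ∑ q ∈ S, Real.log q + Real.log t := by
    rw [← e, Nat.cast_mul, Nat.cast_prod, Real.log_mul (prod_ne_zero_iff.mpr p0)
      (by exact_mod_cast t0), Real.log_prod p0]
  have a1 : ∑ q ∈ S, Real.log q ≤ k * h1 := by
    have := sum_le_card_nsmul S (fun q : ℕ => Real.log q) h1 fun q hq => (hE q (s1 hq)).2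
    rwa [s2, nsmul_eq_mul] at this
  have a2 : 0 ≤ ∑ q ∈ S, Real.log q := sum_nonneg fun q _ => Real.log_natCast_nonneg q
  constructor <;> linarith

lemma TB_K1 {z : ℝ} {E : Finset ℕ} {k n : ℕ} (hz : 0 ≤ z) (hE : ∀ p ∈ E, p.Prime ∧ (p : ℝ) ≤ z)
    (hn : n ≠ 0) (hR : RE z E k n) (hq : ¬ SqE E n) :
    ∃ S ∈ E.powersetCard k, (∏ q ∈ S, q) * rp z n = n := by
  have hs : ∀ p : ℕ, p.Prime → p ∣ sp z n → p ∈ E := fun p hp k' =>
    hR.2 p ((mem_PZ hz).mpr ⟨hp, smo_sp z n p hp k'⟩)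
      (Int.natCast_dvd_natCast.mpr (k'.trans (Dvd.intro _ (sp_mul_rp z n))))
  have s0 : sp z n ≠ 0 := fun h => hn (by rw [← sp_mul_rp z n, h, zero_mul])
  have h1 : Squarefree (sp z n) := by
    refine Nat.squarefree_iff_prime_squarefree.mpr fun p hp k' => hq ⟨p, hs p hp
      ((dvd_mul_right p p).trans k'), ?_⟩
    rw [sq]
    exact_mod_cast k'.trans (Dvd.intro _ (sp_mul_rp z n))
  have h2 : (sp z n).primeFactors = E.filter fun p : ℕ => (p : ℤ) ∣ n := by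
    ext p
    rw [mem_filter, Nat.mem_primeFactors, Int.natCast_dvd_natCast]
    refine ⟨fun h => ⟨hs p h.1 h.2.1, h.2.1.trans (Dvd.intro _ (sp_mul_rp z n))⟩, fun h => ?_⟩
    have k' := h.2
    rw [← sp_mul_rp z n] at k'
    rcases (Nat.Prime.dvd_mul (hE p h.1).1).mp k' with k | k
    · exact ⟨(hE p h.1).1, k, s0⟩
    · exact absurd (rou_rp z hn p (hE p h.1).1 k) (not_lt.mpr (hE p h.1).2)
  refine ⟨_, mem_powersetCard.mpr ⟨filter_subset _ _, hR.1⟩, ?_⟩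
  rw [← h2, Nat.prod_primeFactors_of_squarefree h1, sp_mul_rp]

lemma TB_K2 {z : ℝ} {E S : Finset ℕ} {k n p : ℕ} (hz : 0 ≤ z)
    (hE : ∀ p ∈ E, p.Prime ∧ (p : ℝ) ≤ z) (hn : n ≠ 0) (hS : S ∈ E.powersetCard k) (hp : p.Prime)
    (hpz : z < p) (e : (∏ q ∈ S, q) * p = n) : RE z E k n ∧ rp z n = p := by
  obtain ⟨s1, s2⟩ := mem_powersetCard.mp hS
  have h1 : ∀ r : ℕ, r.Prime → r ∣ ∏ q ∈ S, q → r ∈ S := fun r hr h => by
    obtain ⟨q, hq, h⟩ := (Prime.dvd_finsetProd_iff hr.prime _).mp h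
    rwa [(Nat.prime_dvd_prime_iff_eq hr (hE q (s1 hq)).1).mp h]
  have h2 : ∀ r : ℕ, r.Prime → (r : ℝ) ≤ z → (r : ℤ) ∣ n → r ∈ S := fun r hr hrz h => by
    rw [Int.natCast_dvd_natCast, ← e] at h
    rcases (Nat.Prime.dvd_mul hr).mp h with h | h
    · exact h1 r hr h
    · rw [(Nat.prime_dvd_prime_iff_eq hr hp).mp h] at hrz
      exact absurd hpz (not_lt.mpr hrz)
  refine ⟨⟨?_, fun r hr h => s1 (h2 r (PZ_prime hr) ((mem_PZ hz).mp hr).2 h)⟩, ?_⟩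
  · rw [← s2, wE]
    congr 1
    ext r
    rw [mem_filter]
    refine ⟨fun h => h2 r (hE r h.1).1 (hE r h.1).2 h.2, fun h => ⟨s1 h, ?_⟩⟩
    rw [Int.natCast_dvd_natCast, ← e]
    exact (dvd_prod_of_mem _ h).mul_right p
  · have := sp_eq (z := z) (b := ∏ q ∈ S, q) (m := p)
      (fun r hr h => (hE r (s1 (h1 r hr h))).2)
      (fun r hr h => by rwa [(Nat.prime_dvd_prime_iff_eq hr hp).mp h]) (e ▸ hn)
    rw [e] at this
    exact this.2

/-- The values of the two convolutions at `a * u`. -/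
lemma TB_single {z l δ h1 : ℝ} {E : Finset ℕ} {a k : ℕ} {u : ℤ} (ha : 0 < a) (haz : (a : ℝ) ≤ z)
    (hE : ∀ p ∈ E, p.Prime ∧ a < p ∧ (p : ℝ) ≤ z ∧ Real.log p ≤ h1) (hu : 0 < u)
    (hlo : (1 - δ) * l + k * h1 ≤ Real.log u) (hhi : Real.log u ≤ (1 + δ) * l)
    (hz : Real.log z < (1 - δ) * l) :
    ∃ G Φ : ℝ, (if wE E (a * u) = k then conv (bE a E) (gam z 1 w1) (a * u) else 0) = G ∧
      (if wE E (a * u) = k then conv (bE a E) (flat z 1 w1) (a * u) else 0) = Φ ∧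
      0 ≤ G ∧ G ≤ (1 + δ) * l ∧ 0 ≤ Φ ∧ Φ ≤ (Vz z)⁻¹ ∧ (¬ SqE E u →
        (PE E k u → |G - l| ≤ δ * l) ∧ (¬ PE E k u → G = 0) ∧
        (RE z E k u → Φ = (Vz z)⁻¹) ∧ (¬ RE z E k u → Φ = 0)) := by
  lift u to ℕ using hu.le with n
  have hn : n ≠ 0 := by rintro rfl; simp at hu
  have z0 : 0 < z := lt_of_lt_of_le (by exact_mod_cast ha) haz
  have hE1 : ∀ p ∈ E, (p : ℝ) ≤ z := fun p hp => (hE p hp).2.2.1
  have hE2 : ∀ p ∈ E, p.Prime ∧ (p : ℝ) ≤ z := fun p hp => ⟨(hE p hp).1, hE1 p hp⟩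
  have hE3 : ∀ p ∈ E, p.Prime ∧ Real.log p ≤ h1 := fun p hp => ⟨(hE p hp).1, (hE p hp).2.2.2⟩
  have t0 : rp z n ≠ 0 := fun h => hn (by rw [← sp_mul_rp z n, h, mul_zero])
  have tr := rou_rp z hn
  rw [Int.cast_natCast] at hlo hhi
  have big : ∀ S ∈ E.powersetCard k, ∀ t : ℕ, (∏ q ∈ S, q) * t = n → z < t ∧
      |Real.log t - l| ≤ δ * l := fun S hS t e => by
    have t1 : t ≠ 0 := fun h => hn (by rw [← e, h, mul_zero])
    obtain ⟨b1, b2⟩ := TB_log_cof hE3 hS hn e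
    refine ⟨(Real.log_lt_log_iff z0 (by exact_mod_cast Nat.pos_of_ne_zero t1)).mp (by linarith),
      abs_le.mpr ⟨by linarith, by linarith⟩⟩
  have V0 := inv_pos.mpr (Vz_pos z)
  have lt : Real.log (rp z n) ≤ Real.log n := Real.log_le_log
    (by exact_mod_cast Nat.pos_of_ne_zero t0)
    (by exact_mod_cast Nat.le_of_dvd (Nat.pos_of_ne_zero hn) (Dvd.intro_left _ (sp_mul_rp z n)))
  have l0 := Real.log_natCast_nonneg n
  refine ⟨if RE z E k n ∧ (rp z n).Prime then Real.log (rp z n) else 0,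
    if RE z E k n ∧ z < rp z n then (Vz z)⁻¹ else 0, ?_, ?_, ?_, ?_, ?_, ?_, fun hq =>
      ⟨?_, fun h => if_neg fun h' => h ?_, fun h => if_pos ⟨h, ?_⟩, fun h => if_neg fun h' => h h'.1⟩⟩
  · rw [TB_wE ha (fun p hp => ⟨(hE p hp).1, (hE p hp).2.1⟩), TB_conv ha haz hE1 hn
      (fun m hm => (gam_supp (TB_dat ha haz hE1) m hm).1), TB_gam tr]
    by_cases c1 : wE E n = k <;> by_cases c2 : ∀ p ∈ PZ z, (p : ℤ) ∣ n → p ∈ E <;>
      by_cases c3 : (rp z n).Prime <;> simp only [RE, c1, c2, c3] <;> simp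
  · rw [TB_wE ha (fun p hp => ⟨(hE p hp).1, (hE p hp).2.1⟩), TB_conv ha haz hE1 hn
      (fun m hm => (flat_supp m hm).1), TB_flat tr t0]
    by_cases c1 : wE E n = k <;> by_cases c2 : ∀ p ∈ PZ z, (p : ℤ) ∣ n → p ∈ E <;>
      by_cases c3 : z < rp z n <;> simp only [RE, c1, c2, c3] <;> simp
  · split_ifs
    · exact Real.log_natCast_nonneg _
    · exact le_rfl
  · split_ifs <;> linarith
  · split_ifs
    · exact V0.le
    · exact le_rfl
  · split_ifs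
    · exact le_rfl
    · exact V0.le
  · rintro ⟨p, hp, S, hS, e⟩
    have e' : (∏ q ∈ S, q) * p = n := by
      refine Int.natCast_inj.mp ?_
      rw [e, mul_comm]; push_cast; rfl
    obtain ⟨b1, b2⟩ := big S hS p e'
    obtain ⟨b3, b4⟩ := TB_K2 z0.le hE2 hn hS hp b1 e'
    rw [b4, if_pos ⟨b3, hp⟩]
    exact b2
  · obtain ⟨S, hS, e⟩ := TB_K1 z0.le hE2 hn h'.1 hq
    refine ⟨_, h'.2, S, hS, ?_⟩
    have := congrArg (Nat.cast : ℕ → ℤ) e
    push_cast at this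
    rw [mul_comm, this]
  · obtain ⟨S, hS, e⟩ := TB_K1 z0.le hE2 hn h hq
    exact (big S hS _ e).1

end Pool.Agent.Work.MP_678620_nt
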