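import Pool.Agent.Work.MP_678620_nt.SPBox

/-! Counting integers in boxes. -/

set_option autoImplicit false
open Finset Pool.Agent.Lib.LargeSieve

namespace Pool.Agent.Work.MP_678620_nt

lemma SPTrans_prog (a : ℤ) (Y : ℕ) {M : ℕ} (hM : 0 < M) (z : ℤ) :
    |(((Ioc a (a + Y)).filter fun y : ℤ => y ≡ z [ZMOD M]).card : ℝ) - Y / M| ≤ 1 := by
  have hM' : (0 : ℤ) < M := by exact_mod_cast hM
  have h := Int.Ioc_filter_modEq_card a (a + Y) hM' z
  have hMq : (0 : ℚ) < M := by exact_mod_cast hM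
  set u : ℚ := ((a : ℚ) - z) / ((M : ℤ) : ℚ) with hu
  have e : (((a + Y : ℤ) : ℚ) - z) / ((M : ℤ) : ℚ) = u + Y / M := by
    rw [hu]; push_cast; ring
  rw [e] at h
  have hY : (0 : ℚ) ≤ Y / M := by positivity
  have hle : ⌊u⌋ ≤ ⌊u + Y / M⌋ := Int.floor_le_floor (by linarith)
  rw [max_eq_left (by linarith)] at h
  have h1 := Int.floor_le u
  have h2 := Int.lt_floor_add_one u
  have h3 := Int.floor_le (u + Y / M)
  have h4 := Int.lt_floor_add_one (u + Y / M)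
  have h5 : ((((Ioc a (a + Y)).filter fun y : ℤ => y ≡ z [ZMOD M]).card : ℤ) : ℚ) =
      (⌊u + Y / M⌋ : ℚ) - ⌊u⌋ := by
    rw [h]; push_cast; ring
  have h6 : |((((Ioc a (a + Y)).filter fun y : ℤ => y ≡ z [ZMOD M]).card : ℕ) : ℚ) - Y / M| ≤ 1 := by
    rw [Int.cast_natCast] at h5
    rw [h5, abs_le]
    constructor <;> linarith
  have h7 := (Rat.cast_le (K := ℝ)).2 h6
  simpa using h7

lemma SPTrans_crt {M m : ℕ} [NeZero m] (h : Nat.Coprime M m) (z : ℤ) (c : ZMod m) :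
    ∃ z' : ℤ, ∀ y : ℤ, (y ≡ z [ZMOD M] ∧ (y : ZMod m) = c) ↔ y ≡ z' [ZMOD ((M * m : ℕ) : ℤ)] := by
  have hc : IsCoprime (M : ℤ) (m : ℤ) := Nat.isCoprime_iff_coprime.2 h
  obtain ⟨u, v, huv⟩ := hc
  refine ⟨z * (v * m) + (c.val : ℤ) * (u * M), fun y => ?_⟩
  have e1 : z * (v * m) + (c.val : ℤ) * (u * M) ≡ z [ZMOD M] := by
    refine Int.ModEq.symm (Int.modEq_iff_dvd.2 ⟨(c.val : ℤ) * u - z * u, ?_⟩)
    linear_combination z * huv
  have e2 : z * (v * m) + (c.val : ℤ) * (u * M) ≡ c.val [ZMOD m] := by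
    refine Int.ModEq.symm (Int.modEq_iff_dvd.2 ⟨z * v - (c.val : ℤ) * v, ?_⟩)
    linear_combination (c.val : ℤ) * huv
  have e3 : (y : ZMod m) = c ↔ y ≡ c.val [ZMOD m] := by
    rw [← ZMod.intCast_eq_intCast_iff]
    simp
  rw [e3, Nat.cast_mul, ← Int.modEq_and_modEq_iff_modEq_mul (by simpa using h)]
  constructor
  · rintro ⟨h1, h2⟩
    exact ⟨h1.trans e1.symm, h2.trans e2.symm⟩
  · rintro ⟨h1, h2⟩
    exact ⟨h1.trans e1, h2.trans e2⟩

lemma SPTrans_count {ι : Type*} [DecidableEq ι] (m : ι → ℕ) [∀ i, NeZero (m i)]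
    (B : ∀ i, Finset (ZMod (m i))) (a : ℤ) (Y : ℕ) (V : Finset ι) :
    (∀ i ∈ V, ∀ j ∈ V, i ≠ j → Nat.Coprime (m i) (m j)) →
    ∀ (M : ℕ), 0 < M → (∀ i ∈ V, Nat.Coprime M (m i)) → ∀ z : ℤ,
    |(((Ioc a (a + Y)).filter fun y : ℤ => y ≡ z [ZMOD M] ∧ ∀ i ∈ V, (y : ZMod (m i)) ∈ B i).card : ℝ)
        - Y / M * ∏ i ∈ V, ((B i).card : ℝ) / m i| ≤ ∏ i ∈ V, ((B i).card : ℝ) := by
  induction V using Finset.induction_on with
  | empty =>
    intro _ M hM _ z
    simpa using SPTrans_prog a Y hM z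
  | insert j V hj ih =>
    intro cop M hM hc z
    have hmj : 0 < m j := Nat.pos_of_ne_zero (NeZero.ne _)
    have hmj' : (0 : ℝ) < m j := by exact_mod_cast hmj
    have hM' : (0 : ℝ) < M := by exact_mod_cast hM
    have e : ((Ioc a (a + Y)).filter fun y : ℤ =>
          y ≡ z [ZMOD M] ∧ ∀ i ∈ insert j V, (y : ZMod (m i)) ∈ B i).card
        = ∑ c ∈ B j, ((Ioc a (a + Y)).filter fun y : ℤ =>
          (y ≡ z [ZMOD M] ∧ (y : ZMod (m j)) = c) ∧ ∀ i ∈ V, (y : ZMod (m i)) ∈ B i).card := by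
      rw [card_eq_sum_card_fiberwise (f := fun y : ℤ => (y : ZMod (m j))) (t := B j)]
      · refine sum_congr rfl fun c hc => ?_
        congr 1
        ext y
        simp only [mem_filter, forall_mem_insert]
        constructor
        · rintro ⟨⟨h1, h2, -, h4⟩, h5⟩
          exact ⟨h1, ⟨h2, h5⟩, h4⟩
        · rintro ⟨h1, ⟨h2, h5⟩, h4⟩
          exact ⟨⟨h1, h2, h5 ▸ hc, h4⟩, h5⟩
      · intro y hy
        exact (mem_filter.1 hy).2.2 j (mem_insert_self _ _)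
    rw [e, prod_insert hj, prod_insert hj]
    push_cast
    have e2 : (Y : ℝ) / M * (((B j).card : ℝ) / m j * ∏ i ∈ V, ((B i).card : ℝ) / m i)
        = ∑ _c ∈ B j, (Y : ℝ) / ((M * m j : ℕ) : ℝ) * ∏ i ∈ V, ((B i).card : ℝ) / m i := by
      rw [sum_const, nsmul_eq_mul]
      push_cast
      field_simp
    rw [e2, ← sum_sub_distrib]
    refine (abs_sum_le_sum_abs _ _).trans ?_
    rw [← nsmul_eq_mul, ← sum_const]
    refine sum_le_sum fun c _ => ?_
    obtain ⟨z', hz'⟩ := SPTrans_crt (hc j (mem_insert_self _ _)) z c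
    simp only [hz']
    refine ih (fun i hi k hk => cop i (mem_insert_of_mem hi) k (mem_insert_of_mem hk)) (M * m j)
      (Nat.mul_pos hM hmj) (fun i hi => ?_) z'
    exact Nat.Coprime.mul_left (hc i (mem_insert_of_mem hi))
      (cop j (mem_insert_self _ _) i (mem_insert_of_mem hi) (fun h => hj (h ▸ hi)))

lemma SPTrans_count' {ι : Type*} [DecidableEq ι] (m : ι → ℕ) [∀ i, NeZero (m i)]
    (A : ∀ i, Finset (ZMod (m i))) (a : ℤ) (Y : ℕ) {U T : Finset ι} (hd : Disjoint U T)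
    (cop : ∀ i ∈ U ∪ T, ∀ j ∈ U ∪ T, i ≠ j → Nat.Coprime (m i) (m j)) :
    |(((Ioc a (a + Y)).filter fun y : ℤ => (∀ i ∈ U, (y : ZMod (m i)) ∈ A i) ∧
          ∀ i ∈ T, (y : ZMod (m i)) ∉ A i).card : ℝ)
        - Y * (∏ i ∈ U, ((A i).card : ℝ) / m i) * ∏ i ∈ T, ((A i)ᶜ.card : ℝ) / m i|
      ≤ (∏ i ∈ U, (m i : ℝ)) * ∏ i ∈ T, ((A i)ᶜ.card : ℝ) := by
  have h := SPTrans_count m (fun i => if i ∈ U then A i else (A i)ᶜ) a Y (U ∪ T) cop 1 one_pos
    (fun i _ => Nat.coprime_one_left _) 0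
  have hT : ∀ i ∈ T, i ∉ U := fun i hi hU => disjoint_left.1 hd hU hi
  rw [prod_union hd, prod_union hd] at h
  have e1 : ∀ f : ∀ i, Finset (ZMod (m i)) → ℝ,
      ∏ i ∈ U, f i (if i ∈ U then A i else (A i)ᶜ) = ∏ i ∈ U, f i (A i) :=
    fun f => prod_congr rfl fun i hi => by rw [if_pos hi]
  have e2 : ∀ f : ∀ i, Finset (ZMod (m i)) → ℝ,
      ∏ i ∈ T, f i (if i ∈ U then A i else (A i)ᶜ) = ∏ i ∈ T, f i (A i)ᶜ :=
    fun f => prod_congr rfl fun i hi => by rw [if_neg (hT i hi)]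
  rw [e1 (fun i s => (s.card : ℝ) / m i), e1 (fun i s => (s.card : ℝ)),
    e2 (fun i s => (s.card : ℝ) / m i), e2 (fun i s => (s.card : ℝ))] at h
  have e3 : ((Ioc a (a + Y)).filter fun y : ℤ => y ≡ 0 [ZMOD ((1 : ℕ) : ℤ)] ∧
        ∀ i ∈ U ∪ T, (y : ZMod (m i)) ∈ (if i ∈ U then A i else (A i)ᶜ))
      = (Ioc a (a + Y)).filter fun y : ℤ => (∀ i ∈ U, (y : ZMod (m i)) ∈ A i) ∧
          ∀ i ∈ T, (y : ZMod (m i)) ∉ A i := by
    refine filter_congr fun y _ => ?_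
    constructor
    · rintro ⟨-, h2⟩
      refine ⟨fun i hi => ?_, fun i hi => ?_⟩
      · have := h2 i (mem_union_left _ hi)
        rwa [if_pos hi] at this
      · have := h2 i (mem_union_right _ hi)
        rwa [if_neg (hT i hi), mem_compl] at this
    · rintro ⟨h1, h2⟩
      refine ⟨by simp [Int.modEq_one], fun i hi => ?_⟩
      by_cases hU : i ∈ U
      · rw [if_pos hU]; exact h1 i hU
      · rw [if_neg hU, mem_compl]
        exact h2 i ((mem_union.1 hi).resolve_left hU)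
  rw [e3] at h
  simp only [Nat.cast_one, div_one] at h
  rw [mul_assoc]
  refine h.trans (mul_le_mul_of_nonneg_right ?_ (prod_nonneg fun i _ => by positivity))
  refine prod_le_prod (fun i _ => by positivity) fun i _ => ?_
  have := card_le_univ (A i)
  rw [ZMod.card] at this
  exact_mod_cast this

lemma SPTrans_esym {ι : Type*} [DecidableEq ι] {W : Finset ι} {r : ι → ℝ} (hr : ∀ i ∈ W, 0 ≤ r i)
    (J : ℕ) : ∑ T ∈ W.powerset.filter (fun T => T.card ≤ J), ∏ i ∈ T, r i + esym W r (J + 1)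
      ≤ (1 + ∑ i ∈ W, r i) ^ (J + 1) := by
  have h := sum_powerset_le_card W (fun i => -r i) J
  have e1 : ∀ T : Finset ι, (-1 : ℝ) ^ T.card * ∏ i ∈ T, -r i = ∏ i ∈ T, r i := by
    intro T
    rw [prod_neg, ← mul_assoc, ← mul_pow]
    simp
  have e2 : ∀ j, (-1 : ℝ) ^ j * esym W (fun i => -r i) j = esym W r j := by
    intro j
    unfold esym
    rw [mul_sum]
    refine sum_congr rfl fun T hT => ?_
    rw [← (mem_powersetCard.1 hT).2, e1]
  simp only [e1, e2] at h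
  rw [h, ← sum_range_succ (fun j => esym W r j), add_comm (1 : ℝ), add_pow]
  refine sum_le_sum fun j hj => ?_
  have hR : 0 ≤ ∑ i ∈ W, r i := sum_nonneg hr
  have h1 := esym_le_pow hr j
  have h2 : (1 : ℝ) ≤ j.factorial := by exact_mod_cast Nat.factorial_pos j
  have h3 : (1 : ℝ) ≤ (J + 1).choose j := by
    exact_mod_cast Nat.choose_pos (Nat.lt_succ_iff.1 (mem_range.1 hj))
  have h4 : 0 ≤ (∑ i ∈ W, r i) ^ j := by positivity
  have h5 : (∑ i ∈ W, r i) ^ j / j.factorial ≤ (∑ i ∈ W, r i) ^ j := div_le_self h4 h2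
  rw [one_pow, mul_one]
  nlinarith

lemma SPTrans_fin {x1 x2 x3 x4 x5 Y α β e1 e2 s q t : ℝ} (b1 : |x1 - x2| ≤ x3)
    (b2 : x3 ≤ Y * α * e1 + β * e2) (b3 : |x2 - x4| ≤ β * s) (b4 : |x4 - x5| ≤ Y * α * e1)
    (b5 : Y * α * e1 ≤ Y * α * q) (b6 : β * (s + e2) ≤ β * t) :
    |x1 - x5| ≤ 2 * Y * α * q + β * t := by
  have c1 := abs_le.1 b1
  have c3 := abs_le.1 b3
  have c4 := abs_le.1 b4
  rw [mul_add] at b6
  rw [abs_le]
  constructor <;> linarith [c1.1, c1.2, c3.1, c3.2, c4.1, c4.2]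

lemma SPTrans_fin2 {Y α β x x' r r' β' : ℝ} (hY : 0 ≤ Y) (J : ℕ) (p1 : 0 ≤ x) (p2 : 0 ≤ r)
    (s1 : x ≤ x') (s2 : r ≤ r') (s3 : α ≤ 1) (s4 : β ≤ β') (s5 : 0 ≤ β') :
    2 * Y * α * (x ^ (J + 1) / (J + 1).factorial) + β * (1 + r) ^ (J + 1)
      ≤ 2 * Y * (x' ^ (J + 1) / (J + 1).factorial) + β' * (1 + r') ^ (J + 1) := by
  refine add_le_add ?_ ?_
  · refine mul_le_mul ?_ ?_ (by positivity) (by positivity)
    · exact mul_le_of_le_one_right (by positivity) s3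
    · gcongr
  · gcongr

/-- Fundamental lemma for product sets with pairwise coprime moduli. -/
theorem box_count {ι : Type*} [DecidableEq ι] (I : Finset ι) (m : ι → ℕ) [∀ i, NeZero (m i)]
    (cop : ∀ i ∈ I, ∀ j ∈ I, i ≠ j → Nat.Coprime (m i) (m j)) (A : ∀ i, Finset (ZMod (m i)))
    {U : Finset ι} (hU : U ⊆ I) (J : ℕ) (a : ℤ) (Y : ℕ) :
    |(((Ioc a (a + Y)).filter fun y : ℤ => ∀ i ∈ I, (y : ZMod (m i)) ∈ A i).card : ℝ)
        - Y * ∏ i ∈ I, ((A i).card : ℝ) / m i|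
      ≤ 2 * Y * (∏ i ∈ U, ((A i).card : ℝ) / m i) *
          ((∑ i ∈ I \ U, ((A i)ᶜ.card : ℝ) / m i) ^ (J + 1) / (J + 1).factorial)
        + (∏ i ∈ U, (m i : ℝ)) * (1 + ∑ i ∈ I \ U, ((A i)ᶜ.card : ℝ)) ^ (J + 1) := by
  classical
  set W := I \ U with hW
  set ν : ι → ℝ := fun i => ((A i)ᶜ.card : ℝ) / m i with hν
  set r : ι → ℝ := fun i => ((A i)ᶜ.card : ℝ) with hr
  set α : ℝ := ∏ i ∈ U, ((A i).card : ℝ) / m i with hα
  set β : ℝ := ∏ i ∈ U, (m i : ℝ) with hβ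
  set X := (Ioc a (a + Y)).filter fun y : ℤ => ∀ i ∈ U, (y : ZMod (m i)) ∈ A i with hX
  set Z : ℤ → Finset ι := fun y => W.filter fun i => (y : ZMod (m i)) ∉ A i with hZ
  set N : Finset ι → ℝ := fun T => ((X.filter fun y => T ⊆ Z y).card : ℝ) with hN
  have hm : ∀ i, (0 : ℝ) < m i := fun i => by
    exact_mod_cast Nat.pos_of_ne_zero (NeZero.ne (m i))
  have hα0 : 0 ≤ α := prod_nonneg fun i _ => by positivity
  have hβ0 : 0 ≤ β := prod_nonneg fun i _ => by positivity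
  have hν0 : ∀ i ∈ W, 0 ≤ ν i := fun i _ => by positivity
  have hr0 : ∀ i ∈ W, 0 ≤ r i := fun i _ => by positivity
  have hcard : ∀ i, ((A i).card : ℝ) + (A i)ᶜ.card = m i := fun i => by
    have := card_add_card_compl (A i)
    rw [ZMod.card] at this
    exact_mod_cast this
  have hν1 : ∀ i ∈ W, ν i ≤ 1 := fun i _ => by
    have := hcard i
    have h0 : (0 : ℝ) ≤ (A i).card := by positivity
    exact (div_le_one (hm i)).2 (by linarith)
  have hNT : ∀ T, T ⊆ W → |N T - Y * α * ∏ i ∈ T, ν i| ≤ β * ∏ i ∈ T, r i := by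
    intro T hT
    have hd : Disjoint U T := disjoint_left.2 fun i hi hi' => (mem_sdiff.1 (hT hi')).2 hi
    have hsub : U ∪ T ⊆ I := union_subset hU (hT.trans sdiff_subset)
    have h := SPTrans_count' m A a Y hd (fun i hi j hj => cop i (hsub hi) j (hsub hj))
    have e : (X.filter fun y => T ⊆ Z y) = (Ioc a (a + Y)).filter fun y : ℤ =>
        (∀ i ∈ U, (y : ZMod (m i)) ∈ A i) ∧ ∀ i ∈ T, (y : ZMod (m i)) ∉ A i := by
      rw [hX, filter_filter]
      refine filter_congr fun y _ => and_congr_right fun _ => ?_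
      exact ⟨fun h i hi => (mem_filter.1 (h hi)).2, fun h i hi => mem_filter.2 ⟨hT hi, h i hi⟩⟩
    simp only [hN]
    rw [e]
    exact h
  have hZW : ∀ y, Z y ⊆ W := fun y => filter_subset _ _
  have e1 : (((Ioc a (a + Y)).filter fun y : ℤ => ∀ i ∈ I, (y : ZMod (m i)) ∈ A i).card : ℝ)
      = ∑ y ∈ X, if Z y = ∅ then (1 : ℝ) else 0 := by
    rw [sum_boole, hX, filter_filter]
    congr 2
    refine filter_congr fun y _ => ?_
    simp only [hZ, filter_eq_empty_iff, not_not]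
    constructor
    · intro h
      exact ⟨fun i hi => h i (hU hi), fun i hi => h i (mem_sdiff.1 hi).1⟩
    · rintro ⟨h1, h2⟩ i hi
      by_cases hiU : i ∈ U
      · exact h1 i hiU
      · exact h2 (mem_sdiff.2 ⟨hi, hiU⟩)
  have e2 : ∑ y ∈ X, ∑ T ∈ (Z y).powerset.filter (fun T => T.card ≤ J), (-1 : ℝ) ^ T.card
      = ∑ T ∈ W.powerset.filter (fun T => T.card ≤ J), (-1 : ℝ) ^ T.card * N T := by
    rw [sum_comm' (t' := W.powerset.filter (fun T => T.card ≤ J))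
      (s' := fun T => X.filter fun y => T ⊆ Z y)]
    · refine sum_congr rfl fun T _ => ?_
      rw [sum_const, nsmul_eq_mul, mul_comm]
    · intro y T
      simp only [mem_filter, mem_powerset]
      constructor
      · rintro ⟨h1, h2, h3⟩
        exact ⟨⟨h1, h2⟩, h2.trans (hZW y), h3⟩
      · rintro ⟨⟨h1, h2⟩, -, h3⟩
        exact ⟨h1, h2, h3⟩
  have e3 : ∑ y ∈ X, (((Z y).powersetCard (J + 1)).card : ℝ)
      = ∑ T ∈ W.powersetCard (J + 1), N T := by
    have : ∀ y, (((Z y).powersetCard (J + 1)).card : ℝ) = ∑ _T ∈ (Z y).powersetCard (J + 1), (1 : ℝ) :=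
      fun y => by simp only [sum_const, nsmul_eq_mul, mul_one]
    simp only [this]
    rw [sum_comm' (t' := W.powersetCard (J + 1)) (s' := fun T => X.filter fun y => T ⊆ Z y)]
    · refine sum_congr rfl fun T _ => ?_
      rw [sum_const, nsmul_eq_mul, mul_one]
    · intro y T
      simp only [mem_filter, mem_powersetCard]
      constructor
      · rintro ⟨h1, h2, h3⟩
        exact ⟨⟨h1, h2⟩, h2.trans (hZW y), h3⟩
      · rintro ⟨⟨h1, h2⟩, -, h3⟩
        exact ⟨h1, h2, h3⟩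
  have e4 : ∏ i ∈ I, ((A i).card : ℝ) / m i = α * ∏ i ∈ W, (1 - ν i) := by
    rw [← prod_sdiff hU, mul_comm]
    congr 1
    refine prod_congr rfl fun i _ => ?_
    have := hcard i
    have := hm i
    simp only [hν]
    field_simp
    linarith
  have b1 : |(∑ y ∈ X, if Z y = ∅ then (1 : ℝ) else 0)
      - ∑ T ∈ W.powerset.filter (fun T => T.card ≤ J), (-1 : ℝ) ^ T.card * N T|
      ≤ ∑ T ∈ W.powersetCard (J + 1), N T := by
    rw [← e2, ← e3, ← sum_sub_distrib]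
    exact (abs_sum_le_sum_abs _ _).trans (sum_le_sum fun y _ => bonf_set (Z y) J)
  have b2 : ∑ T ∈ W.powersetCard (J + 1), N T ≤ Y * α * esym W ν (J + 1) + β * esym W r (J + 1) := by
    unfold esym
    rw [mul_sum, mul_sum, ← sum_add_distrib]
    refine sum_le_sum fun T hT => ?_
    have := (abs_le.1 (hNT T (mem_powersetCard.1 hT).1)).2
    linarith
  have b3 : |∑ T ∈ W.powerset.filter (fun T => T.card ≤ J), (-1 : ℝ) ^ T.card * N T
      - Y * α * ∑ j ∈ range (J + 1), (-1 : ℝ) ^ j * esym W ν j|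
      ≤ β * ∑ T ∈ W.powerset.filter (fun T => T.card ≤ J), ∏ i ∈ T, r i := by
    rw [← sum_powerset_le_card, mul_sum, mul_sum, ← sum_sub_distrib]
    refine (abs_sum_le_sum_abs _ _).trans (sum_le_sum fun T hT => ?_)
    have h := hNT T (mem_powerset.1 (mem_filter.1 hT).1)
    have e : (-1 : ℝ) ^ T.card * N T - Y * α * ((-1) ^ T.card * ∏ i ∈ T, ν i)
        = (-1) ^ T.card * (N T - Y * α * ∏ i ∈ T, ν i) := by ring
    rw [e, abs_mul, abs_neg_one_pow, one_mul]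
    exact h
  have hYα : 0 ≤ (Y : ℝ) * α := mul_nonneg (Nat.cast_nonneg _) hα0
  have b4 : |Y * α * ∑ j ∈ range (J + 1), (-1 : ℝ) ^ j * esym W ν j - Y * (α * ∏ i ∈ W, (1 - ν i))|
      ≤ Y * α * esym W ν (J + 1) := by
    rw [← mul_assoc, ← mul_sub, abs_mul, abs_of_nonneg hYα, abs_sub_comm]
    exact mul_le_mul_of_nonneg_left (bonf_prod W hν0 hν1 J) hYα
  have b5 := mul_le_mul_of_nonneg_left (esym_le_pow hν0 (J + 1)) hYα
  have b6 := mul_le_mul_of_nonneg_left (SPTrans_esym hr0 J) hβ0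
  rw [e1, e4]
  exact SPTrans_fin b1 b2 b3 b4 b5 b6

namespace Sys

variable {ι : Type} [Fintype ι] [DecidableEq ι] (S : Sys ι)

theorem rep_transfer {K1 K2 : ℕ} {B : ℝ} {φ : S.G → ℂ} (h : S.Rep ∅ K1 K2 B φ) (J : ℕ) (a : ℤ)
    (Y : ℕ) :
    ‖∑ y ∈ Ioc a (a + Y), φ (y : S.G) - (Y : ℂ) * ((Fintype.card S.G : ℂ)⁻¹ * ∑ ξ, φ ξ)‖
      ≤ B * (2 * Y * ((K2 * S.L) ^ (J + 1) / (J + 1).factorial)
        + S.H1 ^ K1 * (1 + K2 * S.H1) ^ (J + 1)) := by
  have hH1 : 1 ≤ S.H1 := by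
    have := S.H0_big
    have := S.H01
    have h3 : (1 : ℝ) ≤ 10 ^ 40 := by norm_num
    linarith
  have hL := S.L_nonneg
  have hC : 0 ≤ 2 * Y * ((K2 * S.L) ^ (J + 1) / (J + 1).factorial)
        + S.H1 ^ K1 * (1 + K2 * S.H1) ^ (J + 1) := by positivity
  induction h with
  | box c φ hφ =>
    obtain ⟨A, U, hUE, hUc, hA, hA', hφ⟩ := hφ
    have hb := box_count univ S.m (fun i _ j _ hij => S.cop i j hij) A (subset_univ U) J a Y
    have hm : ∀ i, (0 : ℝ) < S.m i := fun i => by exact_mod_cast S.m_pos i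
    have e1 : ∑ y ∈ Ioc a (a + Y), φ (y : S.G) = ((((Ioc a (a + Y)).filter fun y : ℤ =>
        ∀ i ∈ (univ : Finset ι), (y : ZMod (S.m i)) ∈ A i).card : ℝ) : ℂ) := by
      simp only [hφ]
      rw [sum_boole]
      simp only [mem_univ, forall_const, Complex.ofReal_natCast]
      rfl
    have e2 : (Fintype.card S.G : ℂ)⁻¹ * ∑ ξ, φ ξ = ((∏ i, ((A i).card : ℝ) / S.m i : ℝ) : ℂ) := by
      simp only [hφ]
      rw [sum_boole]
      have : (univ.filter fun ξ : S.G => ∀ i, ξ i ∈ A i) = Fintype.piFinset A := by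
        ext ξ; simp
      rw [this, Fintype.card_piFinset, Fintype.card_pi]
      simp only [ZMod.card]
      push_cast
      rw [prod_div_distrib, div_eq_inv_mul]
    rw [← mul_sum, ← mul_sum, mul_left_comm ((Fintype.card S.G : ℂ)⁻¹), mul_left_comm (Y : ℂ),
      ← mul_sub, norm_mul, e1, e2]
    refine mul_le_mul_of_nonneg_left ?_ (norm_nonneg c)
    rw [← Complex.ofReal_natCast Y, ← Complex.ofReal_mul, ← Complex.ofReal_sub, Complex.norm_real,
      Real.norm_eq_abs]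
    refine le_trans (le_of_eq_of_le (by congr) hb) ?_
    have hz : ∀ i, i ∉ S.E → ((A i)ᶜ.card : ℝ) = 0 := fun i hi => by
      rw [hA' i hi (notMem_empty i)]; simp
    have hsum : ∀ w : ι → ℝ, (∀ i, 0 ≤ w i) →
        ∑ i ∈ univ \ U, ((A i)ᶜ.card : ℝ) * w i ≤ K2 * ∑ i ∈ S.E, w i := by
      intro w hw
      rw [mul_sum, ← sum_subset (s₁ := S.E \ U) (sdiff_subset_sdiff (subset_univ _) le_rfl)]
      · refine le_trans (sum_le_sum fun i hi => ?_)
          (sum_le_sum_of_subset_of_nonneg (sdiff_subset (t := U)) fun i _ _ => by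
            have := hw i; positivity)
        have : ((A i)ᶜ.card : ℝ) ≤ K2 := by
          exact_mod_cast hA i (mem_sdiff.1 hi).1 (mem_sdiff.1 hi).2
        exact mul_le_mul_of_nonneg_right this (hw i)
      · intro i hi hi'
        rw [hz i fun h => hi' (mem_sdiff.2 ⟨h, (mem_sdiff.1 hi).2⟩), zero_mul]
    have s1 : ∑ i ∈ univ \ U, ((A i)ᶜ.card : ℝ) / S.m i ≤ K2 * S.L :=
      hsum S.nu fun i => (S.nu_pos i).le
    have s2 : ∑ i ∈ univ \ U, ((A i)ᶜ.card : ℝ) ≤ K2 * S.H1 := by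
      have := hsum (fun _ => 1) fun _ => zero_le_one
      simp only [mul_one, sum_const, nsmul_eq_mul] at this
      exact this.trans (mul_le_mul_of_nonneg_left S.card_E_le (by positivity))
    have s3 : ∏ i ∈ U, ((A i).card : ℝ) / S.m i ≤ 1 := by
      refine prod_le_one (fun i _ => by positivity) fun i _ => (div_le_one (hm i)).2 ?_
      have := card_le_univ (A i)
      rw [ZMod.card] at this
      exact_mod_cast this
    have s4 : ∏ i ∈ U, (S.m i : ℝ) ≤ S.H1 ^ K1 := by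
      have := S.pr_le_H1_pow hUE
      unfold pr at this
      push_cast at this
      exact this.trans (pow_le_pow_right₀ hH1 hUc)
    have p1 : 0 ≤ ∑ i ∈ univ \ U, ((A i)ᶜ.card : ℝ) / S.m i :=
      sum_nonneg fun i _ => div_nonneg (Nat.cast_nonneg _) (Nat.cast_nonneg _)
    have p2 : 0 ≤ ∑ i ∈ univ \ U, ((A i)ᶜ.card : ℝ) := sum_nonneg fun i _ => Nat.cast_nonneg _
    exact SPTrans_fin2 (Nat.cast_nonneg Y) J p1 p2 s1 s2 s3 s4 (pow_nonneg (by linarith) _)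
  | zero => simp
  | add h1 h2 ih1 ih2 =>
    rw [sum_add_distrib, sum_add_distrib, mul_add, mul_add, add_sub_add_comm, add_mul]
    exact (norm_add_le _ _).trans (add_le_add ih1 ih2)
  | mono h1 hB ih => exact ih.trans (mul_le_mul_of_nonneg_right hB hC)

end Sys

end Pool.Agent.Work.MP_678620_nt
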