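import Pool.Agent.Work.MP_678620_nt.TBDefs
import Pool.Agent.Work.MP_678620_nt.SPTrans

/-! Pairs of linear forms: boxes and local densities. -/

set_option autoImplicit false
open Finset Filter

namespace Pool.Agent.Work.MP_678620_nt

/-- The number of residues satisfying the condition at `p`. -/
def rhoP (P : ℕ → ℤ → Prop) [∀ p, DecidablePred (P p)] (p : ℕ) : ℕ :=
  ((range p).filter fun n : ℕ => P p n).card

theorem box_int (I : Finset ℕ) (hI : ∀ p ∈ I, p.Prime) (P : ℕ → ℤ → Prop)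
    [∀ p, DecidablePred (P p)] (per : ∀ (p : ℕ) (x y : ℤ), x ≡ y [ZMOD p] → P p x → P p y)
    {U : Finset ℕ} (hU : U ⊆ I) (J : ℕ) (a : ℤ) (Y : ℕ) :
    |(((Ioc a (a + Y)).filter fun y : ℤ => ∀ p ∈ I, P p y).card : ℝ)
        - Y * ∏ p ∈ I, (rhoP P p : ℝ) / p|
      ≤ 2 * Y * (∏ p ∈ U, (rhoP P p : ℝ) / p) *
          ((∑ p ∈ I \ U, ((p : ℝ) - rhoP P p) / p) ^ (J + 1) / (J + 1).factorial)
        + (∏ p ∈ U, (p : ℝ)) * (1 + ∑ p ∈ I \ U, ((p : ℝ) - rhoP P p)) ^ (J + 1) := by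
  have hm : ∀ p ∈ I, p - 1 + 1 = p := fun p hp => Nat.sub_add_cancel (hI p hp).one_le
  set A : ∀ i : ℕ, Finset (ZMod (i - 1 + 1)) := fun i =>
    univ.filter fun x : ZMod (i - 1 + 1) => P i (x.val : ℕ) with hA
  have h := box_count I (fun i => i - 1 + 1) (fun i hi j hj hij => by
    rw [hm i hi, hm j hj]; exact (Nat.coprime_primes (hI i hi) (hI j hj)).mpr hij) A hU J a Y
  have c1 : ∀ p ∈ I, (A p).card = rhoP P p := fun p hp => by
    refine card_bij (fun x _ => x.val) (fun x hx => mem_filter.mpr ⟨mem_range.mpr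
      ((ZMod.val_lt x).trans_eq (hm p hp)), (mem_filter.mp hx).2⟩)
      (fun x _ y _ h => ZMod.val_injective _ h) fun n hn => ?_
    have e : ((n : ZMod (p - 1 + 1))).val = n :=
      ZMod.val_cast_of_lt ((mem_range.mp (mem_filter.mp hn).1).trans_eq (hm p hp).symm)
    exact ⟨n, mem_filter.mpr ⟨mem_univ _, by rw [e]; exact (mem_filter.mp hn).2⟩, e⟩
  have c2 : ∀ p ∈ I, (((A p)ᶜ).card : ℝ) = p - rhoP P p := fun p hp => by
    have := card_add_card_compl (A p)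
    rw [ZMod.card, c1 p hp] at this
    rw [eq_sub_iff_add_eq']; exact_mod_cast this.trans (hm p hp)
  have c3 : ∀ y : ℤ, (∀ p ∈ I, (y : ZMod (p - 1 + 1)) ∈ A p) ↔ ∀ p ∈ I, P p y := fun y => by
    refine forall₂_congr fun p hp => ?_
    have e : (((y : ZMod (p - 1 + 1)).val : ℕ) : ℤ) ≡ y [ZMOD p] := by
      have := (ZMod.intCast_eq_intCast_iff _ _ _).mp
        (show ((((y : ZMod (p - 1 + 1)).val : ℕ) : ℤ) : ZMod (p - 1 + 1)) = y by simp)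
      rwa [show ((p - 1 + 1 : ℕ) : ℤ) = p by rw [hm p hp]] at this
    simp only [hA, mem_filter, mem_univ, true_and]
    exact ⟨per _ _ _ e, per _ _ _ e.symm⟩
  have d : ∀ p ∈ I \ U, p ∈ I := fun p hp => (mem_sdiff.mp hp).1
  rw [filter_congr fun y _ => c3 y, prod_congr rfl fun p hp => by rw [c1 p hp, hm p hp],
    prod_congr (s₁ := U) rfl fun p hp => by rw [c1 p (hU hp), hm p (hU hp)],
    sum_congr rfl fun p hp => by rw [c2 p (d p hp), hm p (d p hp)],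
    prod_congr (s₁ := U) (f := fun i => ((i - 1 + 1 : ℕ) : ℝ)) rfl fun p hp => by rw [hm p (hU hp)],
    sum_congr (f := fun i => (((A i)ᶜ).card : ℝ)) rfl fun p hp => c2 p (d p hp)] at h
  exact h

lemma TB_root {p : ℕ} (hp : p.Prime) {a b : ℤ} (h : ¬ (p : ℤ) ∣ a) :
    ((range p).filter fun n : ℕ => (p : ℤ) ∣ a * n + b).card = 1 := by
  have : Fact p.Prime := ⟨hp⟩
  have hr : (a : ZMod p) ≠ 0 := fun k => h ((ZMod.intCast_zmod_eq_zero_iff_dvd a p).mp k)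
  rw [card_eq_one]
  refine ⟨(-(b : ZMod p) / a).val, ?_⟩
  ext n
  rw [mem_filter, mem_range, mem_singleton, ← ZMod.intCast_zmod_eq_zero_iff_dvd]
  push_cast
  constructor
  · rintro ⟨h1, h2⟩
    rw [← ZMod.val_cast_of_lt h1]
    congr 1
    field_simp
    linear_combination h2
  · rintro rfl
    refine ⟨ZMod.val_lt _, ?_⟩
    rw [ZMod.natCast_zmod_val]
    field_simp
    ring

lemma TB_root_le {p : ℕ} (hp : p.Prime) {a b : ℤ} (h : IsCoprime a b) :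
    ((range p).filter fun n : ℕ => (p : ℤ) ∣ a * n + b).card ≤ 1 := by
  by_cases k : (p : ℤ) ∣ a
  · rw [filter_eq_empty_iff.mpr, card_empty]
    · exact zero_le_one
    · intro n _ k'
      have := h.isUnit_of_dvd' k ((dvd_add_right (k.mul_right _)).mp k')
      exact (Nat.prime_iff_prime_int.mp hp).not_isUnit this
  · exact (TB_root hp k).le

lemma om_eq (a1 a2 : ℕ) (b1 b2 : ℤ) {p : ℕ} (hp : p.Prime) : om a1 a2 b1 b2 p =
    (((range p).filter fun n : ℕ => (p : ℤ) ∣ a1 * n + b1) ∪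
      (range p).filter fun n : ℕ => (p : ℤ) ∣ a2 * n + b2).card := by
  rw [om, ← filter_or]
  congr 1
  exact filter_congr fun n _ => (Nat.prime_iff_prime_int.mp hp).dvd_mul

lemma om_le_two {B : ℝ} {a1 a2 : ℕ} {b1 b2 : ℤ} (h : Lin B a1 a2 b1 b2) {p : ℕ} (hp : p.Prime) :
    om a1 a2 b1 b2 p ≤ 2 := by
  rw [om_eq _ _ _ _ hp]
  exact (card_union_le _ _).trans (add_le_add (TB_root_le hp h.cop1) (TB_root_le hp h.cop2))

lemma om_le (a1 a2 : ℕ) (b1 b2 : ℤ) (p : ℕ) : om a1 a2 b1 b2 p ≤ p :=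
  (card_filter_le _ _).trans (card_range p).le

lemma TB_not_both {a1 a2 : ℕ} {b1 b2 : ℤ} {p : ℕ} (h : ¬ (p : ℤ) ∣ a1 * b2 - a2 * b1) (n : ℤ)
    (h1 : (p : ℤ) ∣ a1 * n + b1) : ¬ (p : ℤ) ∣ a2 * n + b2 := fun h2 => h <| by
  have := (h2.mul_left a1).sub (h1.mul_left a2)
  rwa [show (a1 : ℤ) * (a2 * n + b2) - a2 * (a1 * n + b1) = a1 * b2 - a2 * b1 by ring] at this

lemma TB_nd {a p : ℕ} (h0 : 0 < a) (h : a < p) : ¬ (p : ℤ) ∣ a := fun k =>
  absurd (Nat.le_of_dvd h0 (Int.natCast_dvd_natCast.mp k)) (not_le.mpr h)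

lemma om_two {B : ℝ} {a1 a2 : ℕ} {b1 b2 : ℤ} (h : Lin B a1 a2 b1 b2) {p : ℕ} (hp : p.Prime)
    (hB : 2 * B ^ 2 < p) : om a1 a2 b1 b2 p = 2 := by
  obtain ⟨c1, c2, c3⟩ := h.big hB
  rw [om_eq _ _ _ _ hp, card_union_of_disjoint, TB_root hp (TB_nd h.a1_pos c1),
    TB_root hp (TB_nd h.a2_pos c2)]
  exact disjoint_left.mpr fun n k1 k2 => TB_not_both c3 n (mem_filter.mp k1).2 (mem_filter.mp k2).2

/-- The divisibility pattern at `p`. -/
def Bx (a1 a2 : ℕ) (b1 b2 : ℤ) (S1 S2 : Finset ℕ) (p : ℕ) (n : ℤ) : Prop :=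
  ((p : ℤ) ∣ a1 * n + b1 ↔ p ∈ S1) ∧ ((p : ℤ) ∣ a2 * n + b2 ↔ p ∈ S2)

instance (a1 a2 : ℕ) (b1 b2 : ℤ) (S1 S2 : Finset ℕ) (p : ℕ) :
    DecidablePred (Bx a1 a2 b1 b2 S1 S2 p) := fun _ => by unfold Bx; infer_instance

lemma Bx_per (a1 a2 : ℕ) (b1 b2 : ℤ) (S1 S2 : Finset ℕ) (p : ℕ) (x y : ℤ) (h : x ≡ y [ZMOD p])
    (k : Bx a1 a2 b1 b2 S1 S2 p x) : Bx a1 a2 b1 b2 S1 S2 p y := by
  have e : ∀ a b : ℤ, (p : ℤ) ∣ a * y + b ↔ (p : ℤ) ∣ a * x + b := fun a b => by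
    rw [show a * y + b = a * (y - x) + (a * x + b) by ring]
    exact dvd_add_right (h.dvd.mul_left a)
  exact ⟨(e _ _).trans k.1, (e _ _).trans k.2⟩

lemma rho_out (a1 a2 : ℕ) (b1 b2 : ℤ) {S1 S2 : Finset ℕ} {p : ℕ} (hp : p.Prime) (h1 : p ∉ S1)
    (h2 : p ∉ S2) : (rhoP (Bx a1 a2 b1 b2 S1 S2) p : ℝ) = p - om a1 a2 b1 b2 p := by
  have := card_filter_add_card_filter_not (s := range p)
    (fun n : ℕ => (p : ℤ) ∣ (a1 * n + b1) * (a2 * n + b2))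
  rw [card_range] at this
  rw [eq_sub_iff_add_eq', ← Nat.cast_add, Nat.cast_inj, rhoP, om, filter_congr
    (p := fun n : ℕ => Bx a1 a2 b1 b2 S1 S2 p n)
    (q := fun n : ℕ => ¬ (p : ℤ) ∣ (a1 * n + b1) * (a2 * n + b2))]
  · exact this
  · intro n _
    simp only [Bx, h1, h2, iff_false, (Nat.prime_iff_prime_int.mp hp).dvd_mul, not_or]

lemma rho_in {B : ℝ} {a1 a2 : ℕ} {b1 b2 : ℤ} (h : Lin B a1 a2 b1 b2) {S1 S2 : Finset ℕ} {p : ℕ}
    (hp : p.Prime) (hB : 2 * B ^ 2 < p) (hd : Disjoint S1 S2) (h1 : p ∈ S1 ∪ S2) :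
    rhoP (Bx a1 a2 b1 b2 S1 S2) p = 1 := by
  obtain ⟨c1, c2, c3⟩ := h.big hB
  rcases mem_union.mp h1 with k | k
  · rw [← TB_root (b := b1) hp (TB_nd h.a1_pos c1), rhoP]
    congr 1
    refine filter_congr fun n _ => ?_
    simp only [Bx, k, disjoint_left.mp hd k, iff_true, iff_false]
    exact ⟨fun h => h.1, fun h => ⟨h, TB_not_both c3 n h⟩⟩
  · rw [← TB_root (b := b2) hp (TB_nd h.a2_pos c2), rhoP]
    congr 1
    refine filter_congr fun n _ => ?_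
    simp only [Bx, k, disjoint_right.mp hd k, iff_true, iff_false]
    exact ⟨fun h => h.2, fun h => ⟨fun h' => TB_not_both c3 n h' h, h⟩⟩

lemma TB_sq {H0 : ℝ} (h0 : 0 < H0) {E : Finset ℕ} {a : ℕ} (ha : 0 < a) (b : ℤ)
    (hE : ∀ p ∈ E, p.Prime ∧ a < p ∧ H0 ≤ p) (α : ℤ) (Y : ℕ) :
    (((Ioc α (α + Y)).filter fun n => SqE E (a * n + b)).card : ℝ)
      ≤ Y * (∑ p ∈ E, (p : ℝ)⁻¹) / H0 + E.card := by
  have h1 : ((Ioc α (α + Y)).filter fun n => SqE E (a * n + b)) ⊆ E.biUnion fun q =>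
      (Ioc α (α + Y)).filter fun n => (q : ℤ) ^ 2 ∣ a * n + b := fun n hn => by
    obtain ⟨k, q, hq, k'⟩ := mem_filter.mp hn
    exact mem_biUnion.mpr ⟨q, hq, mem_filter.mpr ⟨k, k'⟩⟩
  refine (Nat.cast_le.mpr ((card_le_card h1).trans card_biUnion_le)).trans ?_
  rw [Nat.cast_sum, mul_sum, sum_div, card_eq_sum_ones E, Nat.cast_sum, ← sum_add_distrib]
  refine sum_le_sum fun q hq => ?_
  obtain ⟨q1, q2, q3⟩ := hE q hq
  have q0 : (0 : ℝ) < q := h0.trans_le q3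
  rcases ((Ioc α (α + Y)).filter fun n => (q : ℤ) ^ 2 ∣ a * n + b).eq_empty_or_nonempty with
    e | ⟨n0, hn0⟩
  · rw [e, card_empty, Nat.cast_zero]; positivity
  have h2 : ((Ioc α (α + Y)).filter fun n => (q : ℤ) ^ 2 ∣ a * n + b) ⊆
      (Ioc α (α + Y)).filter fun n => n ≡ n0 [ZMOD (q ^ 2 : ℕ)] := fun n hn => by
    refine mem_filter.mpr ⟨(mem_filter.mp hn).1, Int.modEq_iff_dvd.mpr ?_⟩
    have c := (mem_filter.mp hn0).2.sub (mem_filter.mp hn).2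
    rw [show (a : ℤ) * n0 + b - (a * n + b) = a * (n0 - n) by ring] at c
    have d : IsCoprime ((q : ℤ) ^ 2) a := IsCoprime.pow_left
      (((Nat.prime_iff_prime_int.mp q1).irreducible.coprime_iff_not_dvd).mpr (TB_nd ha q2))
    push_cast
    exact d.dvd_of_dvd_mul_left c
  have h3 := (abs_le.mp (SPTrans_prog α Y (pow_pos q1.pos 2) n0)).2
  have h4 : (Y : ℝ) / (q ^ 2 : ℕ) ≤ Y * (q : ℝ)⁻¹ / H0 := by
    push_cast
    rw [sq, ← div_div, ← div_eq_mul_inv]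
    exact div_le_div_of_nonneg_left (by positivity) h0 q3
  have h5 : _ ≤ ((((Ioc α (α + Y)).filter fun n => n ≡ n0 [ZMOD (q ^ 2 : ℕ)]).card : ℕ) : ℝ) :=
    Nat.cast_le.mpr (card_le_card h2)
  push_cast at h3 h4 h5 ⊢
  linarith

end Pool.Agent.Work.MP_678620_nt
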