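import Mathlib

/-! Bonferroni inequalities and elementary symmetric sums. -/

set_option autoImplicit false
open Finset

namespace Pool.Agent.Work.MP_678620_nt

lemma bonf_nat (n J : ℕ) :
    |(if n = 0 then (1 : ℝ) else 0) - ∑ j ∈ range (J + 1), (-1 : ℝ) ^ j * (n.choose j : ℝ)|
      ≤ n.choose (J + 1) := by
  rcases n with _ | n
  · rw [if_pos rfl, sum_range_succ']
    simp
  · have h : ∑ j ∈ range (J + 1), (-1 : ℝ) ^ j * ((n + 1).choose j : ℝ)
        = (-1) ^ J * (n.choose J : ℝ) := by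
      induction J with
      | zero => simp
      | succ J ih => rw [sum_range_succ, ih, Nat.choose_succ_succ']; push_cast; ring
    rw [if_neg (Nat.succ_ne_zero n), h, zero_sub, abs_neg, abs_mul, abs_pow, abs_neg, abs_one,
      one_pow, one_mul, Nat.abs_cast, Nat.choose_succ_succ']
    push_cast
    linarith [Nat.cast_nonneg (α := ℝ) (n.choose (J + 1))]

/-- Bonferroni for a finite set. -/
lemma bonf_set {α : Type*} [DecidableEq α] (Z : Finset α) (J : ℕ) :
    |(if Z = ∅ then (1 : ℝ) else 0)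
        - ∑ T ∈ Z.powerset.filter (fun T => T.card ≤ J), (-1 : ℝ) ^ T.card|
      ≤ (Z.powersetCard (J + 1)).card := by
  have h := bonf_nat Z.card J
  rw [card_powersetCard]
  have e : ∑ T ∈ Z.powerset.filter (fun T => T.card ≤ J), (-1 : ℝ) ^ T.card
      = ∑ j ∈ range (J + 1), (-1 : ℝ) ^ j * (Z.card.choose j : ℝ) := by
    rw [← sum_fiberwise_of_maps_to (s := Z.powerset.filter fun T => T.card ≤ J)
      (t := range (J + 1)) (g := card) (fun T hT => mem_range.2 (Nat.lt_succ_of_le (mem_filter.1 hT).2))]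
    refine sum_congr rfl fun j hj => ?_
    have : (Z.powerset.filter fun T => T.card ≤ J).filter (fun T => T.card = j)
        = Z.powersetCard j := by
      ext T
      have := mem_range.1 hj
      simp only [mem_filter, mem_powerset, mem_powersetCard]
      constructor
      · exact fun h => ⟨h.1.1, h.2⟩
      · exact fun h => ⟨⟨h.1, by omega⟩, h.2⟩
    rw [this, sum_congr rfl (g := fun _ => (-1 : ℝ) ^ j)
      fun T hT => by rw [(mem_powersetCard.1 hT).2], sum_const, card_powersetCard, nsmul_eq_mul,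
      mul_comm]
  rw [e]
  simpa only [card_eq_zero] using h

/-- The elementary symmetric sum. -/
noncomputable def esym {α : Type*} (I : Finset α) (ν : α → ℝ) (j : ℕ) : ℝ :=
  ∑ T ∈ I.powersetCard j, ∏ i ∈ T, ν i

lemma esym_zero {α : Type*} (I : Finset α) (ν : α → ℝ) : esym I ν 0 = 1 := by simp [esym]

lemma esym_nonneg {α : Type*} {I : Finset α} {ν : α → ℝ} (h : ∀ i ∈ I, 0 ≤ ν i) (j : ℕ) :
    0 ≤ esym I ν j :=
  sum_nonneg fun _ hT => prod_nonneg fun i hi => h i ((mem_powersetCard.1 hT).1 hi)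

lemma esym_insert {α : Type*} [DecidableEq α] {I : Finset α} {a : α} (ha : a ∉ I) (ν : α → ℝ)
    (j : ℕ) : esym (insert a I) ν (j + 1) = esym I ν (j + 1) + ν a * esym I ν j := by
  unfold esym
  rw [powersetCard_succ_insert ha, sum_union, sum_image, mul_sum]
  · congr 1
    refine sum_congr rfl fun T hT => prod_insert fun h => ha ((mem_powersetCard.1 hT).1 h)
  · intro T hT T' hT' h
    have h1 : a ∉ T := fun h => ha ((mem_powersetCard.1 hT).1 h)
    have h2 : a ∉ T' := fun h => ha ((mem_powersetCard.1 hT').1 h)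
    rw [← erase_insert h1, h, erase_insert h2]
  · rw [disjoint_left]
    intro T hT h
    obtain ⟨T', -, rfl⟩ := mem_image.1 h
    exact ha ((mem_powersetCard.1 hT).1 (mem_insert_self _ _))

/-- The recursion for elementary symmetric sums. -/
lemma succ_mul_esym {α : Type*} [DecidableEq α] (I : Finset α) (ν : α → ℝ) (j : ℕ) :
    (j + 1 : ℝ) * esym I ν (j + 1)
      = ∑ T ∈ I.powersetCard j, (∏ i ∈ T, ν i) * ∑ i ∈ I \ T, ν i := by
  have h1 : (j + 1 : ℝ) * esym I ν (j + 1)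
      = ∑ T ∈ I.powersetCard (j + 1), ∑ _i ∈ T, ∏ i ∈ T, ν i := by
    rw [esym, mul_sum]
    refine sum_congr rfl fun T hT => ?_
    rw [sum_const, (mem_powersetCard.1 hT).2, nsmul_eq_mul]; push_cast; ring
  rw [h1]
  simp_rw [mul_sum]
  rw [sum_sigma', sum_sigma']
  refine sum_bij' (fun x _ => ⟨x.1.erase x.2, x.2⟩) (fun x _ => ⟨insert x.2 x.1, x.2⟩)
    ?_ ?_ ?_ ?_ ?_
  · rintro ⟨T, i⟩ h
    obtain ⟨h1, h2⟩ := mem_sigma.1 h
    obtain ⟨h3, h4⟩ := mem_powersetCard.1 h1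
    refine mem_sigma.2 ⟨mem_powersetCard.2 ⟨(erase_subset _ _).trans h3, ?_⟩,
      mem_sdiff.2 ⟨h3 h2, notMem_erase _ _⟩⟩
    rw [card_erase_of_mem h2, h4]; rfl
  · rintro ⟨T, i⟩ h
    obtain ⟨h1, h2⟩ := mem_sigma.1 h
    obtain ⟨h3, h4⟩ := mem_powersetCard.1 h1
    obtain ⟨h5, h6⟩ := mem_sdiff.1 h2
    exact mem_sigma.2 ⟨mem_powersetCard.2 ⟨insert_subset h5 h3,
      by rw [card_insert_of_notMem h6, h4]⟩, mem_insert_self _ _⟩
  · rintro ⟨T, i⟩ h
    simp only [insert_erase (mem_sigma.1 h).2]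
  · rintro ⟨T, i⟩ h
    simp only [erase_insert (mem_sdiff.1 (mem_sigma.1 h).2).2]
  · rintro ⟨T, i⟩ h
    exact (prod_erase_mul T ν (mem_sigma.1 h).2).symm

lemma esym_succ_le {α : Type*} [DecidableEq α] {I : Finset α} {ν : α → ℝ}
    (h : ∀ i ∈ I, 0 ≤ ν i) (j : ℕ) :
    (j + 1 : ℝ) * esym I ν (j + 1) ≤ (∑ i ∈ I, ν i) * esym I ν j := by
  rw [succ_mul_esym, esym, mul_sum]
  refine sum_le_sum fun T hT => ?_
  rw [mul_comm]
  exact mul_le_mul_of_nonneg_right
    (sum_le_sum_of_subset_of_nonneg sdiff_subset fun i hi _ => h i hi)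
    (prod_nonneg fun i hi => h i ((mem_powersetCard.1 hT).1 hi))

lemma le_esym_succ {α : Type*} [DecidableEq α] {I : Finset α} {ν : α → ℝ} {b : ℝ}
    (h : ∀ i ∈ I, 0 ≤ ν i) (hb : ∀ i ∈ I, ν i ≤ b) (j : ℕ) :
    ((∑ i ∈ I, ν i) - j * b) * esym I ν j ≤ (j + 1 : ℝ) * esym I ν (j + 1) := by
  rw [succ_mul_esym, esym, mul_sum]
  refine sum_le_sum fun T hT => ?_
  obtain ⟨h1, h2⟩ := mem_powersetCard.1 hT
  rw [mul_comm]
  refine mul_le_mul_of_nonneg_left ?_ (prod_nonneg fun i hi => h i (h1 hi))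
  rw [← sum_sdiff h1]
  have := sum_le_card_nsmul T ν b fun i hi => hb i (h1 hi)
  rw [h2, nsmul_eq_mul] at this
  linarith

lemma esym_le_pow {α : Type*} [DecidableEq α] {I : Finset α} {ν : α → ℝ}
    (h : ∀ i ∈ I, 0 ≤ ν i) (j : ℕ) : esym I ν j ≤ (∑ i ∈ I, ν i) ^ j / j.factorial := by
  induction j with
  | zero => simp [esym_zero]
  | succ j ih =>
    have h1 := esym_succ_le h j
    have h2 : 0 ≤ ∑ i ∈ I, ν i := sum_nonneg h
    have h3 : (0 : ℝ) < j.factorial := by positivity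
    rw [Nat.factorial_succ, le_div_iff₀ (by positivity)]
    rw [le_div_iff₀ h3] at ih
    push_cast
    calc _ = ((j + 1 : ℝ) * esym I ν (j + 1)) * j.factorial := by ring
      _ ≤ ((∑ i ∈ I, ν i) * esym I ν j) * j.factorial := by gcongr
      _ = (∑ i ∈ I, ν i) * (esym I ν j * j.factorial) := by ring
      _ ≤ (∑ i ∈ I, ν i) * (∑ i ∈ I, ν i) ^ j := by gcongr
      _ = _ := by ring

lemma esym_le_exp {α : Type*} [DecidableEq α] {I : Finset α} {ν : α → ℝ}
    (h : ∀ i ∈ I, 0 ≤ ν i) (j : ℕ) : esym I ν j ≤ Real.exp (∑ i ∈ I, ν i) :=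
  (esym_le_pow h j).trans (Real.pow_div_factorial_le_exp _ (sum_nonneg h) j)

lemma esym_mono {α : Type*} {I I' : Finset α} {ν : α → ℝ} (hI : I ⊆ I') (h : ∀ i ∈ I', 0 ≤ ν i)
    (j : ℕ) : esym I ν j ≤ esym I' ν j :=
  sum_le_sum_of_subset_of_nonneg (powersetCard_mono hI)
    fun _ hT _ => prod_nonneg fun i hi => h i ((mem_powersetCard.1 hT).1 hi)

/-- Bonferroni for a product. -/
lemma bonf_prod {α : Type*} [DecidableEq α] (I : Finset α) {ν : α → ℝ} (h0 : ∀ i ∈ I, 0 ≤ ν i)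
    (h1 : ∀ i ∈ I, ν i ≤ 1) (J : ℕ) :
    |∏ i ∈ I, (1 - ν i) - ∑ j ∈ range (J + 1), (-1 : ℝ) ^ j * esym I ν j| ≤ esym I ν (J + 1) := by
  have key : ∀ (I : Finset α), (∀ i ∈ I, 0 ≤ ν i) → (∀ i ∈ I, ν i ≤ 1) → ∀ J : ℕ,
      0 ≤ (-1 : ℝ) ^ J * (∑ j ∈ range (J + 1), (-1 : ℝ) ^ j * esym I ν j - ∏ i ∈ I, (1 - ν i)) := by
    intro I
    induction I using Finset.induction_on with
    | empty =>
      intro _ _ J
      rw [sum_range_succ', sum_eq_zero fun j _ => by
        rw [esym, powersetCard_eq_empty.2 (by simp), sum_empty, mul_zero]]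
      simp [esym_zero]
    | insert a I ha ih =>
      intro h0 h1 J
      have g0 : ∀ i ∈ I, 0 ≤ ν i := fun i hi => h0 i (mem_insert_of_mem hi)
      have g1 : ∀ i ∈ I, ν i ≤ 1 := fun i hi => h1 i (mem_insert_of_mem hi)
      have a0 := h0 a (mem_insert_self _ _)
      have a1 := h1 a (mem_insert_self _ _)
      have e : ∀ J : ℕ, ∑ j ∈ range (J + 1), (-1 : ℝ) ^ j * esym (insert a I) ν j
          = (1 - ν a) * ∑ j ∈ range (J + 1), (-1 : ℝ) ^ j * esym I ν j
            + ν a * ((-1) ^ J * esym I ν J) := by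
        intro J
        induction J with
        | zero => simp [esym_zero]
        | succ J ih => rw [sum_range_succ, ih, esym_insert ha, sum_range_succ _ (J + 1)]; ring
      rw [e, prod_insert ha]
      have b1 := ih g0 g1 J
      have b2 := esym_nonneg g0 J
      have b3 : (-1 : ℝ) ^ J * (-1) ^ J = 1 := by rw [← mul_pow]; simp
      have : (-1 : ℝ) ^ J * ((1 - ν a) * ∑ j ∈ range (J + 1), (-1 : ℝ) ^ j * esym I ν j
            + ν a * ((-1) ^ J * esym I ν J) - (1 - ν a) * ∏ i ∈ I, (1 - ν i))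
          = (1 - ν a) * ((-1 : ℝ) ^ J * (∑ j ∈ range (J + 1), (-1 : ℝ) ^ j * esym I ν j
            - ∏ i ∈ I, (1 - ν i))) + ν a * ((-1) ^ J * (-1) ^ J) * esym I ν J := by ring
      rw [this, b3]
      have : 0 ≤ 1 - ν a := by linarith
      positivity
  have k1 := key I h0 h1 J
  have k2 := key I h0 h1 (J + 1)
  rw [sum_range_succ _ (J + 1)] at k2
  have b3 : (-1 : ℝ) ^ J * (-1) ^ J = 1 := by rw [← mul_pow]; simp
  set X := ∑ j ∈ range (J + 1), (-1 : ℝ) ^ j * esym I ν j - ∏ i ∈ I, (1 - ν i) with hX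
  have k3 : (-1 : ℝ) ^ J * X ≤ esym I ν (J + 1) := by
    have : (-1 : ℝ) ^ (J + 1) * (∑ j ∈ range (J + 1), (-1 : ℝ) ^ j * esym I ν j
        + (-1) ^ (J + 1) * esym I ν (J + 1) - ∏ i ∈ I, (1 - ν i))
        = -((-1) ^ J * X) + ((-1) ^ J * (-1) ^ J) * esym I ν (J + 1) := by rw [hX]; ring
    rw [this, b3] at k2
    linarith
  rw [abs_sub_comm, ← hX]
  have : |X| = (-1 : ℝ) ^ J * X := by
    rw [← abs_of_nonneg k1, abs_mul, abs_pow, abs_neg, abs_one, one_pow, one_mul]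
  linarith

/-- Sum over the small subsets, grouped by size. -/
lemma sum_powerset_le_card {α : Type*} (I : Finset α) (ν : α → ℝ) (J : ℕ) :
    ∑ T ∈ I.powerset.filter (fun T => T.card ≤ J), (-1 : ℝ) ^ T.card * ∏ i ∈ T, ν i
      = ∑ j ∈ range (J + 1), (-1 : ℝ) ^ j * esym I ν j := by
  rw [← sum_fiberwise_of_maps_to (s := I.powerset.filter fun T => T.card ≤ J)
    (t := range (J + 1)) (g := card) (fun T hT => mem_range.2 (Nat.lt_succ_of_le (mem_filter.1 hT).2))]
  refine sum_congr rfl fun j hj => ?_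
  have : (I.powerset.filter fun T => T.card ≤ J).filter (fun T => T.card = j)
      = I.powersetCard j := by
    ext T
    have := mem_range.1 hj
    simp only [mem_filter, mem_powerset, mem_powersetCard]
    constructor
    · exact fun h => ⟨h.1.1, h.2⟩
    · exact fun h => ⟨⟨h.1, by omega⟩, h.2⟩
  rw [this, esym, mul_sum]
  exact sum_congr rfl fun T hT => by rw [(mem_powersetCard.1 hT).2]

end Pool.Agent.Work.MP_678620_nt
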