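import Pool.Agent.Work.MP_678620_nt.MRDefs
import Pool.Agent.Lib.ANT.Mertens

/-! Divisor moments and the tail of the smooth numbers. -/

set_option autoImplicit false
open Finset Filter MeasureTheory Pool.Agent.Lib.MR

namespace Pool.Agent.Work.MP_678620_nt

lemma sum_div_pow_div (k Y : ℕ) :
    ∑ n ∈ Icc 1 Y, (n.divisors.card : ℝ) ^ k / n ≤ (1 + Real.log Y) ^ 2 ^ k := by
  induction k with
  | zero =>
    have h := harmonic_le_one_add_log Y
    rw [harmonic_eq_sum_Icc] at h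
    simpa using h
  | succ k ih =>
    set g : ℕ → ℝ := fun n => (n.divisors.card : ℝ) ^ k / n with hg
    have g0 : ∀ n, 0 ≤ g n := fun n => by positivity
    have h1 : ∀ n ∈ Icc 1 Y, (n.divisors.card : ℝ) ^ (k + 1) / n ≤
        ∑ x ∈ Icc 1 Y ×ˢ Icc 1 Y with x.1 * x.2 = n, g x.1 * g x.2 := fun n hn => by
      have e : (n.divisors.card : ℝ) ^ (k + 1) / n = ∑ x ∈ n.divisorsAntidiagonal, g n := by
        rw [Nat.sum_divisorsAntidiagonal fun _ _ => g n, sum_const, nsmul_eq_mul, hg]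
        ring
      rw [e]
      refine (sum_le_sum fun x hx => ?_).trans (sum_le_sum_of_subset_of_nonneg (fun x hx => ?_)
        fun x _ _ => mul_nonneg (g0 _) (g0 _))
      · obtain ⟨rfl, -⟩ := Nat.mem_divisorsAntidiagonal.1 hx
        simp only [hg]
        rw [div_mul_div_comm, ← mul_pow, Nat.cast_mul]
        gcongr
        rw [Nat.divisors_mul]
        exact_mod_cast card_mul_le
      · obtain ⟨rfl, h0⟩ := Nat.mem_divisorsAntidiagonal.1 hx
        have hY := (mem_Icc.1 hn).2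
        have a0 := Nat.pos_of_ne_zero (left_ne_zero_of_mul h0)
        have b0 := Nat.pos_of_ne_zero (right_ne_zero_of_mul h0)
        simp only [mem_filter, mem_product, mem_Icc, and_true]
        exact ⟨⟨a0, (Nat.le_mul_of_pos_right _ b0).trans hY⟩, b0,
          (Nat.le_mul_of_pos_left _ a0).trans hY⟩
    refine (sum_le_sum h1).trans ((sum_fiberwise_le_sum_of_sum_fiber_nonneg fun y _ =>
      sum_nonneg fun x _ => mul_nonneg (g0 _) (g0 _)).trans ?_)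
    rw [sum_product' _ _ fun a b => g a * g b, ← sum_mul_sum, pow_succ, pow_mul, sq]
    exact mul_self_le_mul_self (sum_nonneg fun n _ => g0 n) ih

lemma sum_div_pow (k Y : ℕ) :
    ∑ n ∈ Icc 1 Y, (n.divisors.card : ℝ) ^ k ≤ Y * (1 + Real.log Y) ^ 2 ^ k := by
  refine le_trans ?_ (mul_le_mul_of_nonneg_left (sum_div_pow_div k Y) (Nat.cast_nonneg Y))
  rw [mul_sum]
  refine sum_le_sum fun n hn => ?_
  obtain ⟨h1, h2⟩ := mem_Icc.1 hn
  have h0 : (0 : ℝ) < n := by exact_mod_cast h1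
  rw [← mul_div_assoc, le_div_iff₀ h0, mul_comm]
  gcongr

lemma MRDiv_log : Tendsto (fun X : ℕ => Real.log X) atTop atTop :=
  Real.tendsto_log_atTop.comp tendsto_natCast_atTop_atTop

lemma MRDiv_root : Tendsto (fun X : ℕ => Real.log X ^ (1 / 25 : ℝ)) atTop atTop :=
  (tendsto_rpow_atTop (by norm_num)).comp MRDiv_log

lemma MRDiv_exp (C : ℝ) (n : ℕ) {c : ℝ} (hc : 0 < c) : ∀ᶠ X : ℕ in atTop,
    C * Real.log X ^ n ≤ Real.exp (c * Real.log X ^ (1 / 25 : ℝ)) := by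
  have h := ((tendsto_exp_mul_div_rpow_atTop (25 * n) c hc).comp MRDiv_root).eventually_ge_atTop C
  filter_upwards [h, MRDiv_log.eventually_gt_atTop 0] with X h h0
  simp only [Function.comp] at h
  rw [← Real.rpow_mul h0.le, le_div_iff₀ (by positivity),
    show (1 / 25 : ℝ) * (25 * n) = n by ring, Real.rpow_natCast] at h
  exact h

/-- The Euler product bound. -/
lemma MRDiv_euler {z δ : ℝ} (hz : 2 ≤ z) (hδ : 0 < δ) (hd : δ * Real.log z ≤ 1 / 4)
    (S : Finset ℕ) (hS : ∀ b ∈ S, Smo z b) :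
    ∑ b ∈ S, (b : ℝ) ^ (δ - 1) ≤ Real.exp 288 * Real.log z ^ 4 := by
  have hl2 : (0.69 : ℝ) < Real.log 2 := by have := Real.log_two_gt_d9; linarith only [this]
  have hlz : Real.log 2 ≤ Real.log z := Real.log_le_log two_pos hz
  have hδ1 : δ < 1 := by nlinarith only [hδ, hd, hl2, hlz]
  let f : ℕ →* ℝ :=
    { toFun := fun n => (n : ℝ) ^ (δ - 1)
      map_one' := by simp
      map_mul' := fun a b => by
        rw [Nat.cast_mul, Real.mul_rpow (Nat.cast_nonneg _) (Nat.cast_nonneg _)] }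
  have f0 : ∀ n, 0 ≤ f n := fun n => Real.rpow_nonneg (Nat.cast_nonneg n) _
  have hN : 2 ≤ ⌊z⌋₊ := Nat.le_floor (by exact_mod_cast hz)
  have hNz : (⌊z⌋₊ : ℝ) ≤ z := Nat.floor_le (by linarith only [hz, hδ, hδ1])
  have hmem : ∀ b ∈ S, b ∈ Nat.factoredNumbers (Ioc 0 ⌊z⌋₊) := fun b hb =>
    Nat.mem_factoredNumbers'.2 fun p hp hpb => mem_Ioc.2 ⟨hp.pos, Nat.le_floor (hS b hb p hp hpb)⟩
  have H := (EulerProduct.summable_and_hasSum_factoredNumbers_prod_filter_prime_geometric (f := f)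
    (fun {p} hp => by
      rw [Real.norm_of_nonneg (f0 p)]
      exact Real.rpow_lt_one_of_one_lt_of_neg (by exact_mod_cast hp.one_lt) (by linarith))
    (Ioc 0 ⌊z⌋₊)).2
  have h1 := sum_le_hasSum (S.subtype (· ∈ Nat.factoredNumbers (Ioc 0 ⌊z⌋₊)))
    (fun b _ => f0 b) H
  rw [sum_subtype_of_mem (fun b => f b) hmem] at h1
  refine h1.trans ?_
  have h2 : ∀ p ∈ (Ioc 0 ⌊z⌋₊).filter Nat.Prime, f p ≤ 4 / 3 * (p : ℝ)⁻¹ ∧ f p ≤ 2 / 3 := by
    intro p hp
    obtain ⟨hp1, hp⟩ := mem_filter.1 hp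
    have p2 : (2 : ℝ) ≤ p := by exact_mod_cast hp.two_le
    have pz : (p : ℝ) ≤ z := le_trans (by exact_mod_cast (mem_Ioc.1 hp1).2) hNz
    have e : f p = Real.exp (Real.log p * δ) * (p : ℝ)⁻¹ := by
      rw [← Real.rpow_def_of_pos (by linarith only [hδ, hδ1, p2]), ← div_eq_mul_inv,
        ← Real.rpow_sub_one (by linarith only [hδ, hδ1, p2])]
      rfl
    have e1 : Real.exp (Real.log p * δ) ≤ 4 / 3 := by
      have := mul_le_mul_of_nonneg_left (Real.log_le_log (by linarith only [hδ, hδ1, p2]) pz) hδ.le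
      refine (Real.exp_le_exp.2 (show _ ≤ 1 / 4 by linarith only [hd, this])).trans ?_
      have h := Real.add_one_le_exp (-(1 / 4) : ℝ)
      have h' : Real.exp (1 / 4) * Real.exp (-(1 / 4)) = 1 := by rw [← Real.exp_add]; simp
      nlinarith only [h, h', hδ, hδ1, Real.exp_pos (1 / 4 : ℝ)]
    have e2 : f p ≤ 4 / 3 * (p : ℝ)⁻¹ := by rw [e]; gcongr
    have e3 : (p : ℝ)⁻¹ ≤ 2⁻¹ := by gcongr
    exact ⟨e2, by linarith only [e2, e3]⟩
  have h3 : ∏ p ∈ (Ioc 0 ⌊z⌋₊).filter Nat.Prime, (1 - f p)⁻¹ ≤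
      ∏ p ∈ (Ioc 0 ⌊z⌋₊).filter Nat.Prime, Real.exp (4 * (p : ℝ)⁻¹) := by
    refine prod_le_prod (fun p hp => inv_nonneg.2 (by linarith only [hδ, hδ1, (h2 p hp).2])) fun p hp => ?_
    obtain ⟨a, b⟩ := h2 p hp
    refine le_trans ?_ (Real.add_one_le_exp _)
    rw [inv_le_iff_one_le_mul₀ (by linarith only [hδ, hδ1, b])]
    nlinarith only [a, b, hδ, hδ1, f0 p, mul_nonneg (f0 p) (sub_nonneg.2 b)]
  refine h3.trans ?_
  rw [← Real.exp_sum, ← mul_sum]
  have h4 := (abs_le.1 (Pool.Agent.Lib.ANT.abs_sum_inv_prime_sub_loglog_le _ hN)).2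
  have h5 : (2 : ℝ) ≤ ⌊z⌋₊ := by exact_mod_cast hN
  have h6 : Real.log (Real.log ⌊z⌋₊) ≤ Real.log (Real.log z) :=
    Real.log_le_log (Real.log_pos (by linarith only [hδ, hδ1, h5])) (Real.log_le_log (by linarith only [hδ, hδ1, h5]) hNz)
  rw [← Real.exp_log (show 0 < Real.log z ^ 4 by have : 0 < Real.log z := (by linarith only [hδ, hl2, hlz, hδ1]); positivity),
    ← Real.exp_add, Real.log_pow]
  exact Real.exp_le_exp.2 (by push_cast; linarith only [h4, h6])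

theorem rankin (A : ℕ) {θ : ℝ} (hθ : 0 < θ) : ∀ᶠ X : ℕ in atTop, ∀ S : Finset ℕ,
    (∀ b ∈ S, Smo (zz X) b ∧ (X : ℝ) ^ θ ≤ b) → ∑ b ∈ S, (b : ℝ)⁻¹ ≤ 1 / Real.log X ^ A := by
  filter_upwards [MRDiv_exp (Real.exp 288) (4 + A) (show 0 < θ / 4 by positivity),
    MRDiv_log.eventually_ge_atTop 1, eventually_gt_atTop 0] with X h hl hX S hS
  have X0 : (0 : ℝ) < X := by exact_mod_cast hX
  set l := Real.log X with hl'
  have l0 : 0 < l := by linarith only [hl]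
  set L := l ^ (24 / 25 : ℝ) with hL
  have L1 : 1 ≤ L := Real.one_le_rpow hl (by norm_num)
  have Ll : L ≤ l := by
    simpa using Real.rpow_le_rpow_of_exponent_le hl (show (24 / 25 : ℝ) ≤ 1 by norm_num)
  have eL : l = l ^ (1 / 25 : ℝ) * L := by rw [hL, ← Real.rpow_add l0]; norm_num
  have lz : Real.log (zz X) = L := Real.log_exp _
  have hδ : 0 < 1 / (4 * L) := by positivity
  have h1 := MRDiv_euler (z := zz X) (δ := 1 / (4 * L))
    (le_trans (by linarith only [L1]) (Real.add_one_le_exp L)) hδ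
    (by rw [lz]; field_simp; rfl) S fun b hb => (hS b hb).1
  rw [lz] at h1
  set E := Real.exp (θ / 4 * l ^ (1 / 25 : ℝ)) with hE
  have E0 : 0 < E := Real.exp_pos _
  have h2 : ∀ b ∈ S, (b : ℝ)⁻¹ ≤ E⁻¹ * (b : ℝ) ^ (1 / (4 * L) - 1) := fun b hb => by
    have b1 := (hS b hb).2
    have b0 : (0 : ℝ) < b := lt_of_lt_of_le (by positivity) b1
    rw [Real.rpow_sub_one b0.ne', div_eq_mul_inv _ (b : ℝ), ← mul_assoc]
    refine le_mul_of_one_le_left (by positivity) ?_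
    rw [← div_eq_inv_mul, one_le_div E0]
    refine le_trans (le_of_eq ?_) (Real.rpow_le_rpow (by positivity) b1 hδ.le)
    rw [← Real.rpow_mul X0.le, Real.rpow_def_of_pos X0, hE, ← hl']
    congr 1
    nth_rewrite 2 [eL]
    field_simp
  refine (sum_le_sum h2).trans ?_
  rw [← mul_sum, ← div_eq_inv_mul, div_le_div_iff₀ E0 (by positivity), one_mul]
  refine le_trans ?_ h
  rw [pow_add, ← mul_assoc]
  refine mul_le_mul_of_nonneg_right (h1.trans ?_) (by positivity)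
  gcongr

open Classical in
theorem rankin_count (A : ℕ) {θ : ℝ} (hθ : 0 < θ) : ∀ᶠ X : ℕ in atTop, ∀ Y : ℕ,
    (((Icc 1 Y).filter fun n => ∃ b : ℕ, b ∣ n ∧ Smo (zz X) b ∧ (X : ℝ) ^ θ ≤ b).card : ℝ)
      ≤ Y / Real.log X ^ A := by
  filter_upwards [rankin A hθ] with X h Y
  set S := (Icc 1 Y).filter fun b : ℕ => Smo (zz X) b ∧ (X : ℝ) ^ θ ≤ b
  have h1 : ((Icc 1 Y).filter fun n => ∃ b : ℕ, b ∣ n ∧ Smo (zz X) b ∧ (X : ℝ) ^ θ ≤ b) ⊆
      S.biUnion fun b => (Ioc 0 Y).filter (b ∣ ·) := fun n hn => by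
    obtain ⟨hn, b, hb, hb'⟩ := mem_filter.1 hn
    obtain ⟨n1, n2⟩ := mem_Icc.1 hn
    exact mem_biUnion.2 ⟨b, mem_filter.2 ⟨mem_Icc.2 ⟨Nat.pos_of_dvd_of_pos hb n1,
      (Nat.le_of_dvd n1 hb).trans n2⟩, hb'⟩, mem_filter.2 ⟨mem_Ioc.2 ⟨n1, n2⟩, hb⟩⟩
  have h2 := (card_le_card h1).trans card_biUnion_le
  simp only [Nat.Ioc_filter_dvd_card_eq_div] at h2
  refine (Nat.cast_le.2 h2).trans ?_
  rw [div_eq_mul_one_div, Nat.cast_sum]
  refine le_trans ?_ (mul_le_mul_of_nonneg_left (h S fun b hb => (mem_filter.1 hb).2)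
    (Nat.cast_nonneg Y))
  rw [mul_sum]
  exact sum_le_sum fun b _ => Nat.cast_div_le

/-- Mean square of a divisor-bounded sequence carried by the integers with a large smooth
divisor. -/
theorem rankin_sq (A k : ℕ) : ∀ᶠ X : ℕ in atTop, ∀ Y : ℕ, Y ≤ X ^ 3 → ∀ e : ℕ → ℂ,
    (∀ n ∈ Icc 1 Y, ‖e n‖ ≤ (n.divisors.card : ℝ) ^ k * Real.log X ^ k) →
    (∀ n ∈ Icc 1 Y, e n ≠ 0 → ∃ b : ℕ, b ∣ n ∧ Smo (zz X) b ∧ KK X < b) →
    ∑ n ∈ Icc 1 Y, ‖e n‖ ^ 2 ≤ Y / Real.log X ^ A := by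
  classical
  filter_upwards [rankin_count (2 * A + 4 * k + 2 * 2 ^ (4 * k)) (θ := 1 / 40) (by norm_num),
    MRDiv_log.eventually_ge_atTop 4] with X h hl Y hY e he he'
  replace h := h Y
  set B := (Icc 1 Y).filter fun n => ∃ b : ℕ, b ∣ n ∧ Smo (zz X) b ∧ (X : ℝ) ^ (1 / 40 : ℝ) ≤ b
  set l := Real.log X with hl'
  have l0 : 0 < l := by linarith only [hl]
  have hB : B ⊆ Icc 1 Y := filter_subset _ _
  have h1 : ∑ n ∈ Icc 1 Y, ‖e n‖ ^ 2 = ∑ n ∈ B, ‖e n‖ ^ 2 := by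
    refine (sum_subset hB fun n hn hn' => ?_).symm
    by_contra h0
    obtain ⟨b, hb, hs, hK⟩ := he' n hn fun h => h0 (by simp [h])
    refine hn' (mem_filter.2 ⟨hn, b, hb, hs, (Nat.lt_floor_add_one _).le.trans ?_⟩)
    exact_mod_cast hK
  have h2 : ∑ n ∈ B, (‖e n‖ ^ 2) ^ 2 ≤ l ^ (4 * k) * (Y * (l ^ 2) ^ 2 ^ (4 * k)) := by
    have hY' : 1 + Real.log Y ≤ l ^ 2 := by
      have : Real.log Y ≤ 3 * l := by
        rcases Y.eq_zero_or_pos with rfl | Y0
        · simp only [Nat.cast_zero, Real.log_zero]; linarith only [hl]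
        · have := Real.log_le_log (by exact_mod_cast Y0 : (0 : ℝ) < Y) (Nat.cast_le.2 hY)
          rwa [Nat.cast_pow, Real.log_pow] at this
      nlinarith only [hl, this]
    have := Real.log_natCast_nonneg Y
    refine le_trans ?_ (mul_le_mul_of_nonneg_left ((sum_div_pow (4 * k) Y).trans
      (by gcongr)) (by positivity))
    rw [mul_sum]
    refine (sum_le_sum_of_subset_of_nonneg hB fun _ _ _ => by positivity).trans
      (sum_le_sum fun n hn => ?_)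
    calc (‖e n‖ ^ 2) ^ 2 ≤ (((n.divisors.card : ℝ) ^ k * l ^ k) ^ 2) ^ 2 := by
          gcongr; exact he n hn
      _ = _ := by ring
  rw [h1]
  refine le_of_sq_le_sq (sq_sum_le_card_mul_sum_sq.trans ((mul_le_mul h h2
    (sum_nonneg fun _ _ => by positivity) (by positivity)).trans (le_of_eq ?_))) (by positivity)
  field_simp
  ring

lemma KK_spec : ∀ᶠ X : ℕ in atTop, (X : ℝ) ^ (1 / 41 : ℝ) ≤ KK X ∧
    (KK X : ℝ) ≤ (X : ℝ) ^ (1 / 40 : ℝ) ∧ zz X ≤ KK X := by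
  have t : Tendsto (fun X : ℕ => (X : ℝ) ^ (1 / 1640 : ℝ)) atTop atTop :=
    (tendsto_rpow_atTop (by norm_num)).comp tendsto_natCast_atTop_atTop
  filter_upwards [t.eventually_ge_atTop 2, MRDiv_root.eventually_ge_atTop 41,
    MRDiv_log.eventually_gt_atTop 0, eventually_ge_atTop 1] with X h h' l0 hX
  have X1 : (1 : ℝ) ≤ X := by exact_mod_cast hX
  have a : (1 : ℝ) ≤ (X : ℝ) ^ (1 / 41 : ℝ) := Real.one_le_rpow X1 (by norm_num)
  have e : (X : ℝ) ^ (1 / 40 : ℝ) = (X : ℝ) ^ (1 / 41 : ℝ) * (X : ℝ) ^ (1 / 1640 : ℝ) := by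
    rw [← Real.rpow_add (by linarith only [X1])]; norm_num
  have b : (X : ℝ) ^ (1 / 41 : ℝ) ≤ KK X := by
    have := Nat.lt_floor_add_one ((X : ℝ) ^ (1 / 40 : ℝ))
    unfold KK
    nlinarith only [h, a, e, this]
  refine ⟨b, Nat.floor_le (by positivity), le_trans ?_ b⟩
  rw [Real.rpow_def_of_pos (show (0 : ℝ) < X by linarith only [X1])]
  refine Real.exp_le_exp.2 ?_
  have eL : Real.log X = Real.log X ^ (1 / 25 : ℝ) * Real.log X ^ (24 / 25 : ℝ) := by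
    rw [← Real.rpow_add l0]; norm_num
  nlinarith only [eL, h', l0, Real.rpow_pos_of_pos l0 (24 / 25 : ℝ)]

end Pool.Agent.Work.MP_678620_nt
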