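import Pool.Agent.Work.MP_678620_nt.MRSW1
import Pool.Agent.Work.MP_678620_nt.MRDiv

/-! The difference of a function and its model in one residue class. -/

set_option autoImplicit false
open Finset Filter MeasureTheory Pool.Agent.Lib.MR

namespace Pool.Agent.Work.MP_678620_nt

lemma sw2_hyp {M : Type*} [AddCommMonoid M] (Φ : ℕ → ℕ → M) (y : ℕ) :
    ∑ n ∈ Icc 1 y, ∑ x ∈ n.divisorsAntidiagonal, Φ x.1 x.2
      = ∑ b ∈ Icc 1 y, ∑ m ∈ Icc 1 (y / b), Φ b m := by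
  rw [sum_sigma', sum_sigma']
  refine sum_bij' (fun x _ => ⟨x.2.1, x.2.2⟩) (fun x _ => ⟨x.1 * x.2, (x.1, x.2)⟩) ?_ ?_ ?_ ?_ ?_
  · rintro ⟨n, b, m⟩ hx
    simp only [mem_sigma, mem_Icc, Nat.mem_divisorsAntidiagonal] at hx ⊢
    obtain ⟨⟨h1, h2⟩, rfl, h3⟩ := hx
    have hb : 0 < b := Nat.pos_of_mul_pos_right h1
    have hm : 0 < m := Nat.pos_of_mul_pos_left h1
    exact ⟨⟨hb, (Nat.le_mul_of_pos_right b hm).trans h2⟩, hm,
      (Nat.le_div_iff_mul_le hb).2 (by rwa [mul_comm])⟩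
  · rintro ⟨b, m⟩ hx
    simp only [mem_sigma, mem_Icc, Nat.mem_divisorsAntidiagonal] at hx ⊢
    obtain ⟨⟨h1, h2⟩, h3, h4⟩ := hx
    have h5 := Nat.mul_pos h1 h3
    exact ⟨⟨h5, by rw [mul_comm]; exact (Nat.le_div_iff_mul_le h1).1 h4⟩, trivial, h5.ne'⟩
  · rintro ⟨n, b, m⟩ hx
    simp only [mem_sigma, mem_Icc, Nat.mem_divisorsAntidiagonal] at hx
    obtain ⟨-, rfl, -⟩ := hx
    rfl
  · rintro ⟨b, m⟩ _
    rfl
  · rintro ⟨n, b, m⟩ _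
    rfl

lemma sw2_harm (y : ℕ) : ∑ m ∈ Icc 1 y, (m : ℝ)⁻¹ ≤ 1 + Real.log y := by
  have h := sum_div_pow_div 0 y
  simpa using h

/-- Splitting a periodic condition into residue classes. -/
lemma sw2_split {R : ℕ} (hR : 1 ≤ R) (P : ℕ → Prop) [DecidablePred P]
    (hP : ∀ a b, a ≡ b [MOD R] → P a → P b) (F : ℕ → ℝ) (y : ℕ) {B : ℝ}
    (hB : ∀ e, |∑ m ∈ cls R e y, F m| ≤ B) :
    |∑ m ∈ (Icc 1 y).filter P, F m| ≤ R * B := by
  have hB0 : 0 ≤ B := (abs_nonneg _).trans (hB 0)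
  rw [← sum_fiberwise_of_maps_to (s := (Icc 1 y).filter P) (t := range R) (g := fun m => m % R)
    fun m _ => mem_range.2 (Nat.mod_lt _ hR)]
  refine (abs_sum_le_sum_abs _ _).trans ((sum_le_card_nsmul _ _ B fun e he => ?_).trans_eq
    (by rw [card_range, nsmul_eq_mul]))
  have he' : e % R = e := Nat.mod_eq_of_lt (mem_range.1 he)
  by_cases hPe : P e
  · have : ((Icc 1 y).filter P).filter (fun m => m % R = e) = cls R e y := by
      ext m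
      simp only [cls, mem_filter, Nat.ModEq, he']
      exact ⟨fun h => ⟨h.1.1, h.2⟩, fun h => ⟨⟨h.1, hP e m (he'.trans h.2.symm) hPe⟩, h.2⟩⟩
    rw [this]
    exact hB e
  · have : ((Icc 1 y).filter P).filter (fun m => m % R = e) = ∅ := by
      refine filter_eq_empty_iff.2 fun m hm h => hPe ?_
      exact hP m e (h.trans he'.symm) (mem_filter.1 hm).2
    rw [this, sum_empty, abs_zero]
    exact hB0

lemma sw2_gam (z : ℝ) (q0 : ℕ) (w : ℕ → ℝ) (R e y : ℕ) :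
    ∑ m ∈ cls R e y, gam z q0 w m = ∑ m ∈ Icc 1 y, w m * ∑ p ∈ Icc 1 (y / m),
      if p.Prime ∧ z < p ∧ p ≡ 1 [MOD q0] ∧ m * p ≡ e [MOD R] then Real.log p else 0 := by
  simp only [mul_sum]
  rw [← sw2_hyp fun m p => w m *
    if p.Prime ∧ z < p ∧ p ≡ 1 [MOD q0] ∧ m * p ≡ e [MOD R] then Real.log p else 0,
    cls, sum_filter]
  refine sum_congr rfl fun n _ => ?_
  rw [Nat.sum_divisorsAntidiagonal' fun m p => w m *
    if p.Prime ∧ z < p ∧ p ≡ 1 [MOD q0] ∧ m * p ≡ e [MOD R] then Real.log p else 0,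
    gam, Nat.primeFactors_eq_to_filter_divisors_prime, sum_filter]
  by_cases hn : n ≡ e [MOD R]
  · rw [if_pos hn]
    refine sum_congr rfl fun p hp => ?_
    rw [Nat.div_mul_cancel (Nat.dvd_of_mem_divisors hp)]
    by_cases h1 : p.Prime <;> by_cases h2 : z < p ∧ p ≡ 1 [MOD q0] <;> simp [h1, h2, hn]
  · rw [if_neg hn]
    refine (sum_eq_zero fun p hp => ?_).symm
    rw [Nat.div_mul_cancel (Nat.dvd_of_mem_divisors hp), if_neg fun h => hn h.2.2.2, mul_zero]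

lemma sw2_flat {z : ℝ} (hz : 1 ≤ z) {q0 R e : ℕ} (hq : q0 ∣ R) (he : e ≡ 1 [MOD q0]) (w : ℕ → ℝ)
    (y : ℕ) : ∑ m ∈ cls R e y, flat z q0 w m = ∑ m ∈ Icc 1 y, w m * ((m : ℝ)⁻¹ * (Vz z)⁻¹ *
      (((cls R e y).filter (Rou z)).filter fun n : ℕ => (m : ℝ) * z < n).card) := by
  have h1 : ∀ n ∈ cls R e y, flat z q0 w n = ∑ m ∈ Icc 1 y,
      if Rou z n ∧ (m : ℝ) * z < n then w m * ((m : ℝ)⁻¹ * (Vz z)⁻¹) else 0 := by
    intro n hn
    obtain ⟨h1, h2⟩ := mem_filter.1 hn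
    have h3 : n ≡ 1 [MOD q0] := (h2.of_dvd hq).trans he
    by_cases hr : Rou z n
    · rw [flat, if_pos ⟨hr, h3⟩, rhoF, sum_div, ← sum_filter]
      refine sum_congr ?_ fun m _ => by ring
      ext m
      simp only [mem_filter, mem_Icc, hr, true_and]
      refine ⟨fun h => ⟨⟨h.1.1, h.1.2.trans (mem_Icc.1 h1).2⟩, h.2⟩, fun h => ⟨⟨h.1.1, ?_⟩, h.2⟩⟩
      have h4 : (m : ℝ) ≤ m * z := le_mul_of_one_le_right (Nat.cast_nonneg _) hz
      exact_mod_cast (h4.trans h.2.le)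
    · rw [flat, if_neg fun h => hr h.1]
      exact (sum_eq_zero fun m _ => if_neg fun h => hr h.1).symm
  rw [sum_congr rfl h1, sum_comm]
  refine sum_congr rfl fun m _ => ?_
  rw [← sum_filter, sum_const, nsmul_eq_mul, filter_filter]
  ring

lemma sw2_cut (R e : ℕ) {a y : ℕ} (hay : a ≤ y) (P : ℕ → Prop) [DecidablePred P] (F : ℕ → ℝ) :
    ∑ n ∈ ((cls R e y).filter P).filter (fun n => a < n), F n
      = ∑ n ∈ (cls R e y).filter P, F n - ∑ n ∈ (cls R e a).filter P, F n := by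
  rw [← sum_filter_add_sum_filter_not ((cls R e y).filter P) (fun n => a < n) F]
  have : ((cls R e y).filter P).filter (fun n => ¬ a < n) = (cls R e a).filter P := by
    ext n
    simp only [cls, mem_filter, mem_Icc, not_lt]
    exact ⟨fun h => ⟨⟨⟨h.1.1.1.1, h.2⟩, h.1.1.2⟩, h.1.2⟩,
      fun h => ⟨⟨⟨⟨h.1.1.1, h.1.1.2.trans hay⟩, h.1.2⟩, h.2⟩, h.1.1.2⟩⟩
  rw [this]
  ring

lemma sw2_inv {R e m : ℕ} (hR : 1 ≤ R) (hm : Nat.Coprime m R) (he : Nat.Coprime e R) :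
    ∃ c, Nat.Coprime c R ∧ ∀ p, m * p ≡ e [MOD R] ↔ p ≡ c [MOD R] := by
  obtain ⟨c, -, hc⟩ := Nat.exists_mul_mod_eq_of_coprime e hm (by omega)
  have hc' : m * c ≡ e [MOD R] := hc
  refine ⟨c, ?_, fun p => ⟨fun h => ?_, fun h => (h.mul_left m).trans hc'⟩⟩
  · have h1 : Nat.Coprime (m * c) R := by
      rw [Nat.Coprime, hc'.gcd_eq]; exact he
    exact Nat.Coprime.coprime_mul_left h1
  · exact Nat.ModEq.cancel_left_of_coprime hm.symm (h.trans hc'.symm)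

/-- The estimate for one cofactor. -/
lemma sw2_term {z ε η : ℝ} (hz : 1 ≤ z) {q0 R e m y : ℕ} (hR : 1 ≤ R) (hq : q0 ∣ R)
    (he1 : e ≡ 1 [MOD q0]) (he : Nat.Coprime e R) (hm0 : 1 ≤ m) (hm : Nat.Coprime m R)
    (hm1 : m ≡ 1 [MOD q0]) (hε : 0 ≤ ε) (hη : 0 ≤ η)
    (hT : ∀ c x : ℕ, Nat.Coprime c R → ⌊z⌋₊ ≤ x →
      |∑ p ∈ (cls R c x).filter Nat.Prime, Real.log p - (x : ℝ) / R.totient| ≤ x * ε)
    (hG : ∀ x : ℕ, |(((cls R e x).filter (Rou z)).card : ℝ) - x * Vz z / R.totient|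
      ≤ x * ε + η) :
    |(∑ p ∈ Icc 1 (y / m),
        if p.Prime ∧ z < p ∧ p ≡ 1 [MOD q0] ∧ m * p ≡ e [MOD R] then Real.log p else 0)
      - (m : ℝ)⁻¹ * (Vz z)⁻¹ *
        (((cls R e y).filter (Rou z)).filter fun n : ℕ => (m : ℝ) * z < n).card|
      ≤ (2 * y * ε + (2 * y * ε + 2 * η) * (Vz z)⁻¹ + 2 * y / z) * (m : ℝ)⁻¹ := by
  have hV := Vz_pos z
  have hm' : (1 : ℝ) ≤ m := by exact_mod_cast hm0
  have hz0 : 0 ≤ z := by linarith only [hz]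
  by_cases hmz : (m : ℝ) * z ≤ y
  swap
  · push Not at hmz
    rw [sum_eq_zero, filter_eq_empty_iff.2, card_empty, Nat.cast_zero, mul_zero, sub_zero,
      abs_zero]
    · positivity
    · intro n hn h
      have h1 : (n : ℝ) ≤ y := by
        exact_mod_cast (mem_Icc.1 (mem_filter.1 (mem_filter.1 hn).1).1).2
      linarith only [hmz, h, h1]
    · intro p hp
      refine if_neg fun h => ?_
      have h1 : p * m ≤ y := (Nat.le_div_iff_mul_le hm0).1 (mem_Icc.1 hp).2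
      have h2 : (p : ℝ) * m ≤ y := by exact_mod_cast h1
      nlinarith only [hmz, h2, h, h.2.1]
  obtain ⟨c, hc, hc'⟩ := sw2_inv hR hm he
  have h1 : ⌊z⌋₊ ≤ y / m := by
    refine (Nat.le_div_iff_mul_le hm0).2 ?_
    have h1 : (⌊z⌋₊ : ℝ) * m ≤ y := by nlinarith only [hmz, hz0, Nat.floor_le hz0]
    exact_mod_cast h1
  have h2 : ⌊(m : ℝ) * z⌋₊ ≤ y := Nat.floor_le_of_le hmz
  have e1 : (∑ p ∈ Icc 1 (y / m),
      if p.Prime ∧ z < p ∧ p ≡ 1 [MOD q0] ∧ m * p ≡ e [MOD R] then Real.log p else 0)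
      = ∑ p ∈ (cls R c (y / m)).filter Nat.Prime, Real.log p
        - ∑ p ∈ (cls R c ⌊z⌋₊).filter Nat.Prime, Real.log p := by
    rw [← sw2_cut R c h1, ← sum_filter]
    refine sum_congr ?_ fun _ _ => rfl
    ext p
    simp only [cls, mem_filter, Nat.floor_lt hz0, ← hc']
    refine ⟨fun h => ⟨⟨⟨h.1, h.2.2.2.2⟩, h.2.1⟩, h.2.2.1⟩,
      fun h => ⟨h.1.1.1, h.1.2, h.2, ?_, h.1.1.2⟩⟩
    have h3 : 1 * p ≡ m * p [MOD q0] := hm1.symm.mul_right p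
    rw [one_mul] at h3
    exact h3.trans ((h.1.1.2.of_dvd hq).trans he1)
  have e2 : ((((cls R e y).filter (Rou z)).filter fun n : ℕ => (m : ℝ) * z < n).card : ℝ)
      = ((cls R e y).filter (Rou z)).card - ((cls R e ⌊(m : ℝ) * z⌋₊).filter (Rou z)).card := by
    have h3 := sw2_cut R e h2 (Rou z) fun _ => 1
    simp only [sum_const, nsmul_eq_mul, mul_one] at h3
    rw [← h3]
    simp only [Nat.floor_lt (show 0 ≤ (m : ℝ) * z by positivity)]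
  rw [e1, e2]
  have t1 := hT c _ hc h1
  have t2 := hT c _ hc le_rfl
  have t3 := hG y
  have t4 := hG ⌊(m : ℝ) * z⌋₊
  set a1 := ∑ p ∈ (cls R c (y / m)).filter Nat.Prime, Real.log p
  set a2 := ∑ p ∈ (cls R c ⌊z⌋₊).filter Nat.Prime, Real.log p
  set a3 := (((cls R e y).filter (Rou z)).card : ℝ)
  set a4 := (((cls R e ⌊(m : ℝ) * z⌋₊).filter (Rou z)).card : ℝ)
  have hφ : (1 : ℝ) ≤ R.totient := by exact_mod_cast Nat.totient_pos.2 hR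
  have hmi : 0 < (m : ℝ)⁻¹ := by positivity
  have b1 : ((y / m : ℕ) : ℝ) ≤ y * (m : ℝ)⁻¹ := by
    rw [← div_eq_mul_inv]; exact Nat.cast_div_le
  have b2 : y * (m : ℝ)⁻¹ - 1 ≤ ((y / m : ℕ) : ℝ) := by
    rw [← div_eq_mul_inv, ← Nat.floor_div_eq_div (K := ℝ)]
    exact (Nat.sub_one_lt_floor _).le
  have b3 : (⌊z⌋₊ : ℝ) ≤ (y / m : ℕ) := by exact_mod_cast h1
  have b4 : (⌊(m : ℝ) * z⌋₊ : ℝ) ≤ y := by exact_mod_cast h2
  have b5 : (⌊(m : ℝ) * z⌋₊ : ℝ) * (m : ℝ)⁻¹ ≤ z := by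
    rw [← div_eq_mul_inv, div_le_iff₀ (by linarith only [hm']), mul_comm z]
    exact Nat.floor_le (by positivity)
  have b6 : z - 1 ≤ (⌊(m : ℝ) * z⌋₊ : ℝ) * (m : ℝ)⁻¹ := by
    rw [← div_eq_mul_inv, le_div_iff₀ (by linarith only [hm'])]
    nlinarith only [hm', Nat.sub_one_lt_floor ((m : ℝ) * z)]
  have b7 := Nat.floor_le hz0
  have b8 := Nat.sub_one_lt_floor z
  have b9 : 2 ≤ 2 * y / z * (m : ℝ)⁻¹ := by
    rw [← div_eq_mul_inv, div_div, le_div_iff₀ (by positivity)]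
    linarith only [hmz]
  have e3 : a1 - a2 - (m : ℝ)⁻¹ * (Vz z)⁻¹ * (a3 - a4)
      = (a1 - ((y / m : ℕ) : ℝ) / R.totient) - (a2 - (⌊z⌋₊ : ℝ) / R.totient)
        - (m : ℝ)⁻¹ * (Vz z)⁻¹ * ((a3 - y * Vz z / R.totient)
          - (a4 - (⌊(m : ℝ) * z⌋₊ : ℝ) * Vz z / R.totient))
        + (((y / m : ℕ) : ℝ) - y * (m : ℝ)⁻¹ - ⌊z⌋₊
          + (⌊(m : ℝ) * z⌋₊ : ℝ) * (m : ℝ)⁻¹) / R.totient := by
    field_simp
    ring
  have c1 : |(((y / m : ℕ) : ℝ) - y * (m : ℝ)⁻¹ - ⌊z⌋₊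
      + (⌊(m : ℝ) * z⌋₊ : ℝ) * (m : ℝ)⁻¹) / R.totient| ≤ 2 := by
    rw [abs_div, abs_of_pos (show (0 : ℝ) < R.totient by linarith only [hφ])]
    refine (div_le_self (abs_nonneg _) hφ).trans (abs_le.2 ⟨by linarith only [b2, b6, b7], by linarith only [b1, b5, b8]⟩)
  have c2 : |(m : ℝ)⁻¹ * (Vz z)⁻¹ * ((a3 - y * Vz z / R.totient)
      - (a4 - (⌊(m : ℝ) * z⌋₊ : ℝ) * Vz z / R.totient))|
      ≤ (m : ℝ)⁻¹ * (Vz z)⁻¹ * (2 * y * ε + 2 * η) := by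
    rw [abs_mul, abs_of_pos (show 0 < (m : ℝ)⁻¹ * (Vz z)⁻¹ by positivity)]
    refine mul_le_mul_of_nonneg_left ((abs_sub _ _).trans ?_) (by positivity)
    linarith only [t3, t4, b4, hε, mul_le_mul_of_nonneg_right b4 hε]
  have c3 := mul_le_mul_of_nonneg_right b1 hε
  have c4 := mul_le_mul_of_nonneg_right b3 hε
  rw [e3]
  have d1 := abs_le.1 t1
  have d2 := abs_le.1 t2
  have d3 := abs_le.1 c1
  have d4 := abs_le.1 c2
  have e4 : (2 * y * ε + (2 * y * ε + 2 * η) * (Vz z)⁻¹ + 2 * y / z) * (m : ℝ)⁻¹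
      = 2 * (y * (m : ℝ)⁻¹ * ε) + (m : ℝ)⁻¹ * (Vz z)⁻¹ * (2 * y * ε + 2 * η)
        + 2 * y / z * (m : ℝ)⁻¹ := by ring
  rw [e4, abs_le]
  constructor <;> linarith only [b9, c3, c4, d1, d2, d3, d4]

/-- The estimate in one class. -/
lemma sw2_class {z ε η : ℝ} (hz : 1 ≤ z) {q0 R : ℕ} (hR : 1 ≤ R) (hRz : (R : ℝ) ≤ z)
    (hq : q0 ∣ R) {β : ℕ → ℂ} {w : ℕ → ℝ} (hD : Dat z q0 β w) (hε : 0 ≤ ε) (hη : 0 ≤ η)
    (hT : ∀ c x : ℕ, Nat.Coprime c R → ⌊z⌋₊ ≤ x →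
      |∑ p ∈ (cls R c x).filter Nat.Prime, Real.log p - (x : ℝ) / R.totient| ≤ x * ε)
    (hG : ∀ e x : ℕ, Nat.Coprime e R →
      |(((cls R e x).filter (Rou z)).card : ℝ) - x * Vz z / R.totient| ≤ x * ε + η) (e y : ℕ) :
    |∑ m ∈ cls R e y, (gam z q0 w m - flat z q0 w m)|
      ≤ (2 * y * ε + (2 * y * ε + 2 * η) * (Vz z)⁻¹ + 2 * y / z) * (1 + Real.log y) := by
  have hV := Vz_pos z
  have hK : 0 ≤ 2 * y * ε + (2 * y * ε + 2 * η) * (Vz z)⁻¹ + 2 * y / z := by positivity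
  by_cases he : Nat.Coprime e R ∧ e ≡ 1 [MOD q0]
  swap
  · rw [sum_eq_zero, abs_zero]
    · exact mul_nonneg hK (by linarith only [Real.log_natCast_nonneg y])
    · intro m hm
      have h1 := (mem_filter.1 hm).2
      have h2 : ¬ (Rou z m ∧ m ≡ 1 [MOD q0]) := fun h => he
        ⟨by rw [Nat.Coprime, ← h1.gcd_eq]; exact h.1.coprime hR hRz,
          (h1.of_dvd hq).symm.trans h.2⟩
      rw [not_not.1 fun h => h2 (gam_supp hD m h), not_not.1 fun h => h2 (flat_supp m h), sub_zero]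
  rw [sum_sub_distrib, sw2_gam, sw2_flat hz hq he.2, ← sum_sub_distrib]
  refine (abs_sum_le_sum_abs _ _).trans (le_trans (sum_le_sum fun m hm => ?_)
    ((mul_sum _ _ _).symm.trans_le (mul_le_mul_of_nonneg_left (sw2_harm y) hK)))
  by_cases hw : w m = 0
  · rw [hw, zero_mul, zero_mul, sub_zero, abs_zero]
    positivity
  obtain ⟨h1, h2⟩ := hD.w_supp m hw
  rw [← mul_sub, abs_mul, abs_of_nonneg (hD.w_nonneg m)]
  refine (mul_le_of_le_one_left (abs_nonneg _) (hD.w_le m)).trans ?_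
  exact sw2_term hz hR hq he.2 he.1 (mem_Icc.1 hm).1 (h1.coprime hR hRz) h2 hε hη hT
    fun x => hG e x he.1

end Pool.Agent.Work.MP_678620_nt
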