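import Pool.Agent.Work.MP_678620_nt.MRSW1
import Pool.Agent.Work.MP_678620_nt.MRDiv
import Pool.Agent.Work.MP_678620_nt.MRSW2A

/-! The difference of a function and its model in residue classes. -/

set_option autoImplicit false
open Finset Filter MeasureTheory Pool.Agent.Lib.MR

namespace Pool.Agent.Work.MP_678620_nt

lemma sw2_num {l ε η V z L R P y y0 : ℝ} (hl : 32 ≤ l) (hε : 0 ≤ ε) (hη : 0 ≤ η) (hV0 : 0 ≤ V)
    (hV : V ≤ l) (hz : z⁻¹ ≤ ε) (hz0 : 0 ≤ z⁻¹) (hL0 : 0 ≤ L) (hL : L ≤ 4 * l) (hy0 : 0 ≤ y)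
    (hy : y ≤ y0) (hη' : η ≤ y0 * ε) (hR : R ≤ P * l) (hP : 0 < P)
    (he : ε * (P ^ 2 * l ^ 4) = 1) :
    R * ((2 * y * ε + (2 * y * ε + 2 * η) * V + 2 * y / z) * L) ≤ y0 / P := by
  have l0 : 0 < l := by linarith
  have y00 : 0 ≤ y0 := hy0.trans hy
  have h1 : y * ε ≤ y0 * ε := mul_le_mul_of_nonneg_right hy hε
  have h0 : 0 ≤ y0 * ε := mul_nonneg y00 hε
  have h2 : (2 * y * ε + 2 * η) * V ≤ (4 * (y0 * ε)) * l :=
    mul_le_mul (by linarith) hV hV0 (by linarith)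
  have h3 : 2 * y / z ≤ 2 * (y0 * ε) := by
    rw [div_eq_mul_inv, mul_assoc]
    exact mul_le_mul_of_nonneg_left (mul_le_mul hy hz hz0 y00) (by norm_num)
  have h4 : y0 * ε ≤ y0 * ε * l := le_mul_of_one_le_right h0 (by linarith)
  have h5 : 2 * y * ε + (2 * y * ε + 2 * η) * V + 2 * y / z ≤ 8 * (y0 * ε * l) := by
    nlinarith only [h1, h2, h3, h4]
  have h6 : 0 ≤ 2 * y * ε + (2 * y * ε + 2 * η) * V + 2 * y / z := by
    rw [div_eq_mul_inv]
    positivity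
  have h7 : (2 * y * ε + (2 * y * ε + 2 * η) * V + 2 * y / z) * L
      ≤ 8 * (y0 * ε * l) * (4 * l) := mul_le_mul h5 hL hL0 (by positivity)
  refine (mul_le_mul hR h7 (mul_nonneg h6 hL0) (by positivity)).trans ?_
  rw [le_div_iff₀ hP]
  have h8 : P * l * (8 * (y0 * ε * l) * (4 * l)) * P * l = 32 * y0 * (ε * (P ^ 2 * l ^ 4)) := by
    ring
  rw [he, mul_one] at h8
  refine le_of_mul_le_mul_right ?_ l0
  rw [h8]
  nlinarith only [hl, hy0, hy]

theorem dif_class (A q0 : ℕ) (hq0 : 1 ≤ q0) : ∀ᶠ X : ℕ in atTop, ∀ (β : ℕ → ℂ) (w : ℕ → ℝ),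
    Dat (zz X) q0 β w → ∀ r e y y0 : ℕ, 1 ≤ r → (r : ℝ) ≤ Real.log X ^ A → y ≤ y0 →
    (X : ℝ) ^ (1 / 5 : ℝ) ≤ y0 → y0 ≤ X ^ 3 →
    |∑ m ∈ cls r e y, (gam (zz X) q0 w m - flat (zz X) q0 w m)| ≤ y0 / Real.log X ^ A := by
  filter_upwards [theta_class (2 * A + 4), rough_class (2 * A + 4), Vz_inv_le, zz_big (2 * A + 4),
    MRDiv_log.eventually_ge_atTop 32, MRDiv_log.eventually_ge_atTop (q0 : ℝ),
    eventually_ge_atTop 1] with X hT hG hV hz hl hq hX β w hD r e y y0 hr hrA hy hy0 hy3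
  obtain ⟨z1, -, z2⟩ := hz
  obtain ⟨l, hl'⟩ : ∃ l, l = Real.log X := ⟨_, rfl⟩
  have hlog : Real.log y ≤ 3 * Real.log X := spc_log_three (hy.trans hy3)
  rw [← hl'] at hT hG hV z1 hl hq hrA hlog ⊢
  have l0 : 0 < l := by linarith only [hl]
  have l1 : 1 ≤ l := by linarith only [hl]
  have X1 : (1 : ℝ) ≤ X := by exact_mod_cast hX
  have hR1 : 1 ≤ r * q0 := Nat.mul_pos hr hq0
  have hR : ((r * q0 : ℕ) : ℝ) ≤ l ^ A * l := by
    push_cast
    exact mul_le_mul hrA hq (by positivity) (by positivity)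
  have hR' : ((r * q0 : ℕ) : ℝ) ≤ l ^ (2 * A + 4) := by
    rw [← pow_succ] at hR
    exact hR.trans (pow_le_pow_right₀ l1 (by omega))
  have p1 : 1 ≤ l ^ (2 * A + 4) := one_le_pow₀ l1
  have hcl := sw2_class (z := zz X) (ε := (l ^ (2 * A + 4))⁻¹) (η := (X : ℝ) ^ (1 / 10 : ℝ))
    (p1.trans z1) hR1 (hR'.trans z1) (dvd_mul_left q0 r) hD (by positivity) (by positivity)
    (fun c x hc hx => by rw [← div_eq_mul_inv]; exact hT _ c x hR1 hR' hc hx)
    (fun c x hc => by rw [← div_eq_mul_inv]; exact hG _ c x hR1 hR' hc)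
  have hs := sw2_split hR1 (fun n => n ≡ e [MOD r])
    (fun a b hab h => ((hab.of_dvd (dvd_mul_right r q0)).symm).trans h)
    (fun m => gam (zz X) q0 w m - flat (zz X) q0 w m) y fun c => hcl c y
  refine le_trans hs (sw2_num hl (by positivity) (by positivity) (inv_nonneg.2 (Vz_pos _).le) hV
    (inv_anti₀ (by positivity) z1) (inv_nonneg.2 (by linarith only [z1, p1]))
    (by have := Real.log_natCast_nonneg y; linarith only [this]) (by linarith only [hl, hlog]) (by positivity)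
    (by exact_mod_cast hy) ?_ hR (by positivity) ?_)
  · rw [← div_eq_mul_inv, le_div_iff₀ (by positivity)]
    refine le_trans ?_ hy0
    calc _ ≤ (X : ℝ) ^ (1 / 10 : ℝ) * (X : ℝ) ^ (1 / 100 : ℝ) :=
          mul_le_mul_of_nonneg_left (z1.trans z2) (by positivity)
      _ = (X : ℝ) ^ (1 / 10 + 1 / 100 : ℝ) := (Real.rpow_add (by linarith only [X1]) _ _).symm
      _ ≤ _ := Real.rpow_le_rpow_of_exponent_le X1 (by norm_num)
  · rw [← pow_mul, ← pow_add, mul_comm A 2]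
    exact inv_mul_cancel₀ (by positivity)

lemma sw2_conv (β : ℕ → ℂ) (f g : ℕ → ℝ) (q c Y : ℕ) :
    ∑ n ∈ (Icc 1 Y).filter (fun n => n ≡ c [MOD q]), (conv β f n - conv β g n)
      = ∑ b ∈ Icc 1 Y, β b * ((∑ m ∈ (Icc 1 (Y / b)).filter (fun m => b * m ≡ c [MOD q]),
        (f m - g m) : ℝ) : ℂ) := by
  have h := sw2_hyp (fun b m => if b * m ≡ c [MOD q] then β b * ((f m - g m : ℝ) : ℂ) else 0) Y
  rw [sum_filter]
  refine Eq.trans (sum_congr rfl fun n _ => ?_) (h.trans (sum_congr rfl fun b _ => ?_))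
  · by_cases hn : n ≡ c [MOD q]
    · rw [if_pos hn, conv, conv, Int.toNat_natCast, ← sum_sub_distrib]
      refine sum_congr rfl fun x hx => ?_
      rw [(Nat.mem_divisorsAntidiagonal.1 hx).1, if_pos hn, Complex.ofReal_sub, mul_sub]
    · rw [if_neg hn]
      refine (sum_eq_zero fun x hx => ?_).symm
      rw [(Nat.mem_divisorsAntidiagonal.1 hx).1, if_neg hn]
  · rw [Complex.ofReal_sum, mul_sum, sum_filter]

/-- Siegel-Walfisz for the difference (also used for the main terms). -/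
theorem sw_dif (A q0 : ℕ) (hq0 : 1 ≤ q0) : ∀ᶠ X : ℕ in atTop,
    ∀ N : ℕ, X ≤ N ^ 2 → N ≤ X ^ 2 → ∀ (β : ℕ → ℂ) (w : ℕ → ℝ), Dat (zz X) q0 β w →
    ∀ q c Y : ℕ, 1 ≤ q → (q : ℝ) ≤ Real.log X ^ A → Y ≤ 20 * N →
    ‖∑ n ∈ (Icc 1 Y).filter (fun n => n ≡ c [MOD q]),
      (conv β (gam (zz X) q0 w) n - conv β (flat (zz X) q0 w) n)‖ ≤ N / Real.log X ^ A := by
  filter_upwards [dif_class (2 * A + 3) q0 hq0, rankin (A + 4) (θ := 1 / 4) (by norm_num),
    rhoF_bound, MRDiv_log.eventually_ge_atTop 32, eventually_ge_atTop 20]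
    with X hd hrk hρ hl hX N hN1 hN2 β w hD q c Y hq hqA hY
  obtain ⟨l, hl'⟩ : ∃ l, l = Real.log X := ⟨_, rfl⟩
  have h20 : 20 * N ≤ X ^ 3 := by
    calc 20 * N ≤ X * X ^ 2 := Nat.mul_le_mul hX hN2
      _ = X ^ 3 := by ring
  have hlog : ∀ m : ℕ, m ≤ X ^ 3 → Real.log m ≤ 3 * l := fun m hm => hl' ▸ spc_log_three hm
  rw [← hl'] at hd hrk hρ hl hqA ⊢
  have l0 : 0 < l := by linarith only [hl]
  have l1 : 1 ≤ l := by linarith only [hl]
  have X1 : (1 : ℝ) ≤ X := by exact_mod_cast (show 1 ≤ X by omega)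
  obtain ⟨t, ht⟩ : ∃ t : ℝ, t = (X : ℝ) ^ (1 / 4 : ℝ) := ⟨_, rfl⟩
  have t1 : 1 ≤ t := ht ▸ Real.one_le_rpow X1 (by norm_num)
  have t2 : (X : ℝ) ^ (1 / 5 : ℝ) ≤ t := ht ▸ Real.rpow_le_rpow_of_exponent_le X1 (by norm_num)
  have t3 : t ^ 2 ≤ N := by
    have e : (t ^ 2) ^ 2 = X := by
      rw [ht, ← pow_mul, ← Real.rpow_natCast, ← Real.rpow_mul (by linarith only [X1])]
      norm_num
    refine (pow_le_pow_iff_left₀ (by positivity) (by positivity) two_ne_zero).1 ?_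
    rw [e]
    exact_mod_cast hN1
  rw [← ht] at hrk
  have N0 : (0 : ℝ) ≤ N := by positivity
  have hdif : ∀ m : ℕ, m ≤ X ^ 3 → |gam (zz X) q0 w m - flat (zz X) q0 w m| ≤ 4 * l ^ 2 := by
    intro m hm
    have h1 := gam_bound hD m
    have h2 := hρ w hD.w_nonneg hD.w_le m hm
    have h3 := hlog m hm
    have h4 : 0 ≤ flat (zz X) q0 w m ∧ flat (zz X) q0 w m ≤ 4 * l ^ 2 := by
      unfold flat
      split_ifs
      · exact h2
      · exact ⟨le_rfl, by positivity⟩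
    rw [abs_le]
    constructor <;> nlinarith only [h1, h4, hl, h3, h1.1, h1.2, h4.1, h4.2]
  rw [sw2_conv]
  have key : ∀ b ∈ Icc 1 Y, ‖β b * ((∑ m ∈ (Icc 1 (Y / b)).filter (fun m => b * m ≡ c [MOD q]),
      (gam (zz X) q0 w m - flat (zz X) q0 w m) : ℝ) : ℂ)‖ ≤ 20 * N / l ^ (A + 3) * (b : ℝ)⁻¹ +
        if Smo (zz X) b ∧ t ≤ b then 80 * N * l ^ 2 * (b : ℝ)⁻¹ else 0 := by
    intro b hb
    obtain ⟨b1, b2⟩ := mem_Icc.1 hb
    have b0 : (0 : ℝ) < b := by exact_mod_cast b1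
    have a0 : 0 ≤ 20 * N / l ^ (A + 3) * (b : ℝ)⁻¹ := by positivity
    have a1 : (0 : ℝ) ≤ if Smo (zz X) b ∧ t ≤ b then 80 * N * l ^ 2 * (b : ℝ)⁻¹ else 0 := by
      split_ifs <;> positivity
    by_cases hβ : β b = 0
    · rw [hβ, zero_mul, norm_zero]
      exact add_nonneg a0 a1
    rw [norm_mul, Complex.norm_real, Real.norm_eq_abs]
    refine (mul_le_of_le_one_left (abs_nonneg _) (hD.β_le b)).trans ?_
    have d1 : ((20 * N / b : ℕ) : ℝ) ≤ 20 * N * (b : ℝ)⁻¹ := by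
      have := Nat.cast_div_le (α := ℝ) (m := 20 * N) (n := b)
      rwa [Nat.cast_mul, Nat.cast_ofNat, div_eq_mul_inv] at this
    have d2 : Y / b ≤ 20 * N / b := Nat.div_le_div_right hY
    have d3 : 20 * N / b ≤ X ^ 3 := (Nat.div_le_self _ _).trans h20
    by_cases hbt : t ≤ b
    · rw [if_pos ⟨hD.β_supp b hβ, hbt⟩]
      refine le_trans ?_ (le_add_of_nonneg_left a0)
      refine (abs_sum_le_sum_abs _ _).trans ((sum_le_card_nsmul _ _ (4 * l ^ 2) fun m hm =>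
        hdif m ((mem_Icc.1 (mem_filter.1 hm).1).2.trans (d2.trans d3))).trans ?_)
      have c1 : ((Icc 1 (Y / b)).filter (fun m => b * m ≡ c [MOD q])).card ≤ 20 * N / b := by
        refine (card_filter_le _ _).trans ?_
        rw [Nat.card_Icc, Nat.add_sub_cancel]
        exact d2
      have c2 := (Nat.cast_le (α := ℝ)).2 c1
      rw [nsmul_eq_mul]
      calc _ ≤ 20 * N * (b : ℝ)⁻¹ * (4 * l ^ 2) :=
            mul_le_mul_of_nonneg_right (c2.trans d1) (by positivity)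
        _ = _ := by ring
    · refine le_trans ?_ (le_add_of_nonneg_right a1)
      have d4 : (X : ℝ) ^ (1 / 5 : ℝ) ≤ (20 * N / b : ℕ) := by
        have e1 : 20 * N < (20 * N / b + 1) * b := by
          rw [mul_comm _ b]
          exact Nat.lt_mul_div_succ _ b1
        have e2 : (20 : ℝ) * N < (((20 * N / b : ℕ) : ℝ) + 1) * b := by exact_mod_cast e1
        have e3 : (((20 * N / b : ℕ) : ℝ) + 1) * b ≤ (((20 * N / b : ℕ) : ℝ) + 1) * t :=
          mul_le_mul_of_nonneg_left (not_le.1 hbt).le (by positivity)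
        have e4 : 20 * t * t < (((20 * N / b : ℕ) : ℝ) + 1) * t := by nlinarith only [t3, e2, e3]
        have e5 := lt_of_mul_lt_mul_right e4 (by linarith only [b0, hbt])
        linarith only [t1, t2, b0, hbt, e5]
      have hs := sw2_split hq (fun m => b * m ≡ c [MOD q])
        (fun x y hxy h => ((hxy.mul_left b).symm).trans h)
        (fun m => gam (zz X) q0 w m - flat (zz X) q0 w m) (Y / b) fun e =>
          hd β w hD q e (Y / b) (20 * N / b) hq
            (hqA.trans (pow_le_pow_right₀ l1 (by omega))) d2 d4 d3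
      refine hs.trans ?_
      calc _ ≤ l ^ A * (20 * N * (b : ℝ)⁻¹ / l ^ (2 * A + 3)) :=
            mul_le_mul hqA (div_le_div_of_nonneg_right d1 (by positivity)) (by positivity)
              (by positivity)
        _ = _ := by
            rw [show 2 * A + 3 = A + (A + 3) by ring, pow_add l A (A + 3)]
            field_simp
  refine (norm_sum_le _ _).trans ((sum_le_sum key).trans ?_)
  rw [sum_add_distrib, ← mul_sum, ← sum_filter, ← mul_sum]
  have s1 : ∑ b ∈ Icc 1 Y, (b : ℝ)⁻¹ ≤ 4 * l := by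
    have := sw2_harm Y
    have := hlog Y (hY.trans h20)
    linarith
  have s2 := hrk ((Icc 1 Y).filter fun b : ℕ => Smo (zz X) b ∧ t ≤ b) fun b hb => (mem_filter.1 hb).2
  have s3 : 20 * N / l ^ (A + 3) * (4 * l) + 80 * N * l ^ 2 * (1 / l ^ (A + 4))
      = N / l ^ A * (160 / l ^ 2) := by
    rw [pow_add l A 3, pow_add l A 4]
    field_simp
    norm_num
  refine (add_le_add (mul_le_mul_of_nonneg_left s1 (by positivity))
    (mul_le_mul_of_nonneg_left s2 (by positivity))).trans ?_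
  rw [s3]
  refine mul_le_of_le_one_right (by positivity) ?_
  rw [div_le_one (by positivity)]
  nlinarith only [hl]

end Pool.Agent.Work.MP_678620_nt
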