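import Pool.Agent.Work.MP_678620_nt.MRDefs

/-! The large values inequality for arbitrary coefficients. -/

set_option autoImplicit false
open Finset Filter MeasureTheory Pool.Agent.Lib.MR

namespace Pool.Agent.Work.MP_678620_nt

open PrimeHM in
lemma MRHM_dual (ν : Measure ℝ) [IsFiniteMeasure ν] (I : Finset ℕ) (a : ℕ → ℂ) :
    (∫ u, ‖DP I a u‖ ^ 2 ∂ν) ^ 2 ≤ (∑ n ∈ I, ‖a n‖ ^ 2) * ∑ p ∈ I, ‖GG ν (DP I a) p‖ ^ 2 := by
  have hQ := Trig.DP I a
  have e : ((∫ u, ‖DP I a u‖ ^ 2 ∂ν : ℝ) : ℂ) = ∑ p ∈ I, a p * GG ν (DP I a) p := by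
    simp only [GG, ← integral_const_mul]
    rw [← integral_finsetSum _ fun p _ =>
      (((Trig.conj hQ).mul (Trig.nit p)).integrable ν).const_mul (a p), ← integral_complex_ofReal]
    refine integral_congr_ae (Eventually.of_forall fun u => ?_)
    simp only
    rw [← Complex.normSq_eq_norm_sq, ← Complex.mul_conj]
    nth_rewrite 1 [DP]
    rw [sum_mul]
    exact sum_congr rfl fun n _ => by ring
  have h0 : 0 ≤ ∫ u, ‖DP I a u‖ ^ 2 ∂ν := integral_nonneg fun u => by positivity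
  refine le_trans (pow_le_pow_left₀ h0 ?_ 2) (sum_mul_sq_le_sq_mul_sq I _ _)
  rw [← Real.norm_of_nonneg h0, ← Complex.norm_real, e]
  exact (norm_sum_le _ _).trans (sum_le_sum fun p _ => (norm_mul _ _).le)

open PrimeHM in
theorem HM (K : ℕ) : ∃ c : ℝ, 0 < c ∧ ∃ C : ℝ, 1 ≤ C ∧ ∀ M : ℕ, 1 ≤ M → ∀ (T : ℝ) (U : Set ℝ),
    MeasurableSet U → (∀ u ∈ U, |u| ≤ (M : ℝ) ^ K) → (cm T).real U ≤ (M : ℝ) ^ c →
    ∀ S : Finset ℕ, S ⊆ Icc 1 M → ∀ a : ℕ → ℂ,
      MS T U (DP S a) ≤ C * M * ∑ n ∈ S, ‖a n‖ ^ 2 := by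
  obtain ⟨c0, hc0, C0, H⟩ := exp_sum_log (K + 1)
  set c : ℝ := min c0 1 with hc
  have c1 : 0 < c := lt_min hc0 one_pos
  have c2 : c ≤ 1 := min_le_right _ _
  set C1 : ℝ := 2 * max C0 0 + 1 with hC1
  have C11 : 1 ≤ C1 := by have := le_max_right C0 0; linarith
  have hpi := Real.pi_pos
  refine ⟨c, c1, 6 * Real.pi + 7 * C1, by linarith, fun M hM T U hU hUK hUc S hS a => ?_⟩
  obtain ⟨N, hN⟩ : ∃ N, N = 2 * M := ⟨_, rfl⟩
  have N1 : (N : ℝ) = 2 * M := by rw [hN]; push_cast; rfl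
  have hS' : ∀ n ∈ S, (n : ℝ) ≤ M := fun n hn => by exact_mod_cast (mem_Icc.1 (hS hn)).2
  have hSN : S ⊆ Icc 1 N := hS.trans (Icc_subset_Icc_right (by omega))
  have hA : (1 : ℝ) ≤ M := by exact_mod_cast hM
  generalize (M : ℝ) = A at *
  have hA0 : 0 < A := by linarith only [hA]
  have z4 : A ^ (1 - c) * A ^ c = A := by
    rw [← Real.rpow_add hA0]
    norm_num
  have y1 : 1 ≤ A ^ (1 - c) := Real.one_le_rpow hA (by linarith only [c2])
  generalize hy : A ^ (1 - c) = y at z4 y1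
  have hexp : ∀ u ∈ U, ∀ v ∈ U, ∀ j ≤ N,
      ‖∑ m ∈ Icc 1 j, nit m (u - v) - mt j (u - v)‖ ≤ C1 * y - 1 := by
    intro u hu v hv j hj
    have a1 : |u - v| ≤ (2 * A) ^ (K + 1) := by
      have b1 : A ^ K ≤ (2 * A) ^ K := pow_le_pow_left₀ hA0.le (by linarith) K
      have b2 := abs_sub u v
      have b3 := hUK u hu
      have b4 := hUK v hv
      have b5 : 0 ≤ A ^ K := by positivity
      rw [pow_succ]
      nlinarith only [b2, b3, b4, b1, N1, hA, b5]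
    have a2 := H (2 * A) (by linarith) 0 le_rfl zero_le_one _ a1 j
      ((Nat.cast_le.2 hj).trans N1.le)
    simp only [add_zero, Complex.ofReal_natCast] at a2
    have a3 : (2 * A) ^ (1 - c0) ≤ 2 * y := by
      calc (2 * A) ^ (1 - c0) ≤ (2 * A) ^ (1 - c) :=
            Real.rpow_le_rpow_of_exponent_le (by linarith only [hA]) (by linarith only [min_le_left c0 1])
        _ = 2 ^ (1 - c) * y := by rw [Real.mul_rpow (by norm_num) hA0.le, hy]
        _ ≤ 2 * y := by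
            refine mul_le_mul_of_nonneg_right ?_ (by linarith only [y1])
            exact (Real.rpow_le_rpow_of_exponent_le (by norm_num) (by linarith)).trans_eq
              (Real.rpow_one 2)
    have a4 : C0 * (2 * A) ^ (1 - c0) ≤ max C0 0 * (2 * y) :=
      mul_le_mul (le_max_left _ _) a3 (by positivity) (le_max_right _ _)
    refine a2.trans (a4.trans ?_)
    rw [hC1]; nlinarith only [y1]
  have hQ := Trig.DP S a
  have hle := cm_le_volume T
  set W : ℝ := MS T U (DP S a) with hW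
  have M0 : 0 ≤ W := MS_nonneg _ _ _
  have m0 : 0 ≤ (cm T).real U := measureReal_nonneg
  let g : ℕ → ℝ := fun n => ‖GG ((cm T).restrict U) (DP S a) n‖ ^ 2
  have X1 := bil (cm T) hle hU hQ (Icc 1 N) (fun n => (N : ℝ) - n + 1) (α := N * (N + 1))
    (β := (3 * N + 1) * (C1 * y)) (by positivity) (by positivity) fun u hu v hv => by
      have := Kd_one (hexp u hu v hv)
      rwa [Kd, filter_true_of_mem fun n _ => one_dvd n, sub_add_cancel] at this
  have S1 : ∑ p ∈ S, ((N : ℝ) - p + 1) * g p ≤ ∑ p ∈ Icc 1 N, ((N : ℝ) - p + 1) * g p :=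
    sum_le_sum_of_subset_of_nonneg hSN fun n hn _ => by
      have : (n : ℝ) ≤ N := by exact_mod_cast (mem_Icc.1 hn).2
      exact mul_nonneg (by linarith) (by positivity)
  have S2 : A * ∑ p ∈ S, g p ≤ ∑ p ∈ S, ((N : ℝ) - p + 1) * g p := by
    rw [mul_sum]
    exact sum_le_sum fun p hp =>
      mul_le_mul_of_nonneg_right (by linarith [hS' p hp]) (by positivity)
  have X3 : ∑ n ∈ Icc 1 N, ((N : ℝ) - n + 1) * g n ≤ A * ((6 * Real.pi + 7 * C1) * A * W) := by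
    rw [← mul_assoc]
    refine ((le_abs_self _).trans X1).trans (mul_le_mul_of_nonneg_right ?_ M0)
    have a1 : (N : ℝ) * (N + 1) ≤ 2 * A * (3 * A) :=
      mul_le_mul N1.le (by linarith) (by positivity) (by positivity)
    have a2 : (3 * N + 1) * (C1 * y) * (cm T).real U ≤ 7 * A * (C1 * y) * A ^ c :=
      mul_le_mul (mul_le_mul_of_nonneg_right (by linarith) (by positivity)) hUc m0 (by positivity)
    have a3 : 7 * A * (C1 * y) * A ^ c = 7 * A * C1 * A := by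
      rw [← mul_assoc, mul_assoc _ y, z4]
    have a4 := mul_le_mul_of_nonneg_right a1 hpi.le
    nlinarith only [a2, a3, a4]
  have S3 : ∑ p ∈ S, g p ≤ (6 * Real.pi + 7 * C1) * A * W :=
    le_of_mul_le_mul_left (S2.trans (S1.trans X3)) hA0
  have s0 : 0 ≤ ∑ n ∈ S, ‖a n‖ ^ 2 := sum_nonneg fun p _ => by positivity
  have S4 := (MRHM_dual ((cm T).restrict U) S a).trans (mul_le_mul_of_nonneg_left S3 s0)
  change W ^ 2 ≤ _ at S4
  rcases M0.eq_or_lt with h | h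
  · rw [← h]; positivity
  · refine le_of_mul_le_mul_right ?_ h
    rw [← sq]
    refine S4.trans (le_of_eq ?_)
    ring

lemma MRHM_ev (B : ℕ) {δ c D : ℝ} (hδ : 0 < δ) (hc : 0 < c) (hD : 0 < D) : ∀ᶠ X : ℕ in atTop,
    D * Real.log X ^ B * Real.exp (Real.log X ^ (1 - δ)) ≤ (X : ℝ) ^ c := by
  have h1 : ∀ᶠ l : ℝ in atTop, D * l ^ B * Real.exp (l ^ (1 - δ)) ≤ Real.exp (l * c) := by
    filter_upwards [(tendsto_rpow_neg_atTop hδ).eventually (ge_mem_nhds (half_pos hc)),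
      (isLittleO_pow_exp_pos_mul_atTop B (half_pos hc)).bound (inv_pos.2 hD),
      eventually_gt_atTop 0] with l a b l0
    rw [Real.norm_of_nonneg (by positivity), Real.norm_of_nonneg (Real.exp_pos _).le,
      le_inv_mul_iff₀ hD] at b
    have e : l ^ (1 - δ) ≤ c / 2 * l := by
      rw [sub_eq_neg_add, Real.rpow_add l0, Real.rpow_one]
      exact mul_le_mul_of_nonneg_right a l0.le
    refine (mul_le_mul b (Real.exp_le_exp.2 e) (Real.exp_pos _).le (Real.exp_pos _).le).trans_eq ?_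
    rw [← Real.exp_add]
    congr 1
    ring
  filter_upwards [(Real.tendsto_log_atTop.comp tendsto_natCast_atTop_atTop).eventually h1,
    eventually_gt_atTop 0] with X a b
  rw [Real.rpow_def_of_pos (x := X) (by exact_mod_cast b)]
  exact a

theorem Fr.hm {δ : ℝ} (hδ : 0 < δ) : ∃ C : ℝ, 1 ≤ C ∧ ∀ᶠ X : ℕ in atTop, ∀ (T : ℝ) (U : Set ℝ),
    Fr X δ T U → HMok T U (KK X) C := by
  obtain ⟨c, hc, C, hC, H⟩ := HM 240
  refine ⟨C, hC, ?_⟩
  have h2 : ∀ᶠ X : ℕ in atTop, 2 ≤ (X : ℝ) ^ (1 / 80 : ℝ) :=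
    ((tendsto_rpow_atTop (by norm_num)).comp tendsto_natCast_atTop_atTop).eventually_ge_atTop 2
  filter_upwards [h2, MRHM_ev 0 hδ (by positivity : 0 < 1 / 80 * c) one_pos] with X a b T U hF M hM
  have X0 : (0 : ℝ) ≤ X := Nat.cast_nonneg X
  have e1 : (X : ℝ) ^ (1 / 40 : ℝ) = ((X : ℝ) ^ (1 / 80 : ℝ)) ^ 2 := by
    rw [← Real.rpow_natCast, ← Real.rpow_mul X0]; norm_num
  have e2 : (X : ℝ) ^ 3 = ((X : ℝ) ^ (1 / 80 : ℝ)) ^ 240 := by
    rw [← Real.rpow_natCast, ← Real.rpow_natCast, ← Real.rpow_mul X0]; norm_num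
  have h3 : (X : ℝ) ^ (1 / 80 : ℝ) ≤ M := by
    have a1 := Nat.lt_floor_add_one ((X : ℝ) ^ (1 / 40 : ℝ))
    have a2 : ((KK X : ℕ) : ℝ) ≤ M := by exact_mod_cast hM
    change _ < ((KK X : ℕ) : ℝ) + 1 at a1
    rw [e1] at a1
    nlinarith only [a, a2, a1]
  rw [pow_zero, mul_one, one_mul, Real.rpow_mul X0] at b
  refine H M (by exact_mod_cast (by linarith only [a, h3] : (1 : ℝ) ≤ M)) T U hF.meas (fun u hu => ?_) ?_
  · exact (hF.hi u hu).trans (e2.trans_le (pow_le_pow_left₀ (by positivity) h3 _))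
  · exact hF.small.trans (b.trans (Real.rpow_le_rpow (by positivity) h3 hc.le))

lemma MRHM_tail {τ : ℝ} (hτ : 0 < τ) :
    IntegrableOn (fun u : ℝ => (u ^ 2)⁻¹) {u | τ ≤ |u|} ∧
      ∫ u in {u : ℝ | τ ≤ |u|}, (u ^ 2)⁻¹ = 2 / τ := by
  have e : ∀ u ∈ Set.Ioi τ, u ^ (-2 : ℝ) = (u ^ 2)⁻¹ := fun u hu => by
    rw [Real.rpow_neg (hτ.trans hu).le, Real.rpow_two]
  have i1 : IntegrableOn (fun u : ℝ => (u ^ 2)⁻¹) (Set.Ici τ) :=
    (integrableOn_Ici_iff_integrableOn_Ioi (by simp)).2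
      ((integrableOn_Ioi_rpow_of_lt (by norm_num) hτ).congr_fun e measurableSet_Ioi)
  have i2 : IntegrableOn (fun u : ℝ => (u ^ 2)⁻¹) (Set.Iic (-τ)) := by
    have : IntegrableOn (fun u : ℝ => (u ^ 2)⁻¹) (Set.Ici (- -τ)) := by rwa [neg_neg]
    simpa using this.comp_neg_Iic
  have v1 : ∫ u in Set.Ioi τ, (u ^ 2)⁻¹ = 1 / τ := by
    rw [← setIntegral_congr_fun measurableSet_Ioi e, integral_Ioi_rpow_of_lt (by norm_num) hτ]
    norm_num [Real.rpow_neg_one]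
  have v2 : ∫ u in Set.Iic (-τ), (u ^ 2)⁻¹ = 1 / τ := by
    rw [← integral_comp_neg_Ioi, ← v1]
    simp
  have h3 : {u : ℝ | τ ≤ |u|} = Set.Ici τ ∪ Set.Iic (-τ) := by
    ext u; simp [le_abs, le_neg]
  rw [h3]
  refine ⟨i1.union i2, ?_⟩
  rw [setIntegral_union (Set.disjoint_left.2 fun u a b => by
    have a' : τ ≤ u := a
    have b' : u ≤ -τ := b
    linarith) measurableSet_Iic i1 i2, integral_Ici_eq_integral_Ioi, v1, v2]
  ring

lemma MS_of_decay {F : ℝ → ℂ} (hF : Trig F) (T : ℝ) {U : Set ℝ} (hU : MeasurableSet U)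
    {τ α β : ℝ} (hτ : 0 < τ) (hlo : ∀ u ∈ U, τ ≤ |u|) (h : ∀ u ∈ U, ‖F u‖ ≤ α / |u| + β) :
    MS T U F ≤ 4 * α ^ 2 / τ + 2 * β ^ 2 * (cm T).real U := by
  obtain ⟨i1, v1⟩ := MRHM_tail hτ
  have le : (cm T).restrict U ≤ volume.restrict {u : ℝ | τ ≤ |u|} :=
    Measure.restrict_mono hlo (cm_le_volume T)
  have i2 : Integrable (fun u : ℝ => (u ^ 2)⁻¹) ((cm T).restrict U) := Integrable.mono_measure i1 le
  have v2 : ∫ u in U, (u ^ 2)⁻¹ ∂(cm T) ≤ 2 / τ :=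
    (integral_mono_measure le (Eventually.of_forall fun u => by positivity) i1).trans_eq v1
  calc MS T U F ≤ ∫ u in U, (2 * α ^ 2 * (u ^ 2)⁻¹ + 2 * β ^ 2) ∂(cm T) := by
        refine setIntegral_mono_on (hF.integrable_sq _).integrableOn
          ((i2.const_mul _).add (integrable_const _)) hU fun u hu => ?_
        have a1 := pow_le_pow_left₀ (norm_nonneg _) (h u hu) 2
        have a2 : (α / |u|) ^ 2 = α ^ 2 * (u ^ 2)⁻¹ := by rw [div_pow, sq_abs, div_eq_mul_inv]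
        nlinarith only [a1, a2, sq_nonneg (α / |u| - β)]
    _ = 2 * α ^ 2 * ∫ u in U, (u ^ 2)⁻¹ ∂(cm T) + 2 * β ^ 2 * (cm T).real U := by
        rw [integral_add (i2.const_mul _) (integrable_const _), integral_const_mul,
          setIntegral_const, smul_eq_mul, mul_comm ((cm T).real U)]
    _ ≤ _ := by
        have := mul_le_mul_of_nonneg_left v2 (by positivity : 0 ≤ 2 * α ^ 2)
        have e : 2 * α ^ 2 * (2 / τ) = 4 * α ^ 2 / τ := by ring
        linarith only [this, e]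

lemma MRHM_sq {X : ℝ} (hX : 0 < X) (c : ℝ) : (X ^ (-c)) ^ 2 = (X ^ (2 * c))⁻¹ := by
  rw [← Real.rpow_natCast, ← Real.rpow_mul hX.le, ← Real.rpow_neg hX.le]
  congr 1
  push_cast
  ring

theorem decay_MS (A : ℕ) {δ c : ℝ} (hδ : 0 < δ) (hc : 0 < c) : ∀ᶠ X : ℕ in atTop, ∀ N : ℕ,
    ∀ (T : ℝ) (U : Set ℝ), Fr X δ T U → (∀ u ∈ U, Real.log X ^ (3 * A + 1) ≤ |u|) →
    ∀ F : ℝ → ℂ, Trig F →
    (∀ u ∈ U, ‖F u‖ ≤ Real.log X ^ A * (N * (40 / |u| + (X : ℝ) ^ (-c)))) →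
    MS T U F ≤ (N : ℝ) ^ 2 / Real.log X ^ A := by
  filter_upwards [MRHM_ev (3 * A) hδ (by positivity : 0 < 2 * c) four_pos, eventually_gt_atTop 0,
    (Real.tendsto_log_atTop.comp tendsto_natCast_atTop_atTop).eventually_ge_atTop 12800]
    with X a b l1 N T U hF hlo F tF h
  have X0 : (0 : ℝ) < X := by exact_mod_cast b
  change 12800 ≤ Real.log X at l1
  have sm := hF.small
  have m0 : 0 ≤ (cm T).real U := measureReal_nonneg
  generalize Real.exp (Real.log X ^ (1 - δ)) = E at a sm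
  generalize Real.log X = l at *
  have l0 : 0 < l := by linarith
  have := MS_of_decay tF T hF.meas (α := l ^ A * N * 40) (β := l ^ A * N * (X : ℝ) ^ (-c))
    (by positivity) hlo fun u hu => (h u hu).trans_eq (by ring)
  refine this.trans ?_
  have Y0 : 0 < (X : ℝ) ^ (2 * c) := by positivity
  rw [mul_pow _ ((X : ℝ) ^ (-c)), MRHM_sq X0]
  generalize (X : ℝ) ^ (2 * c) = Y at a Y0
  have p0 : 0 < l ^ A := by positivity
  rw [pow_succ l, mul_comm 3 A, pow_mul]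
  rw [mul_comm 3 A, pow_mul] at a
  generalize l ^ A = p at a p0 ⊢
  have b1 : 4 * (p * N * 40) ^ 2 / (p ^ 3 * l) ≤ (N : ℝ) ^ 2 / p / 2 := by
    calc 4 * (p * N * 40) ^ 2 / (p ^ 3 * l) ≤ 4 * (p * N * 40) ^ 2 / (p ^ 3 * 12800) := by gcongr
      _ = _ := by field_simp; ring
  have b2 : 2 * ((p * N) ^ 2 * Y⁻¹) * (cm T).real U ≤ (N : ℝ) ^ 2 / p / 2 := by
    calc 2 * ((p * N) ^ 2 * Y⁻¹) * (cm T).real U ≤ 2 * ((p * N) ^ 2 * Y⁻¹) * E := by gcongr
      _ = (N : ℝ) ^ 2 / p / 2 * (4 * p ^ 3 * E / Y) := by field_simp; ring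
      _ ≤ _ := mul_le_of_le_one_right (by positivity) ((div_le_one Y0).2 a)
  linarith only [b1, b2]

/-- A power saving in the supremum beats the measure of a sparse set. -/
theorem power_MS (A : ℕ) {δ c : ℝ} (hδ : 0 < δ) (hc : 0 < c) : ∀ᶠ X : ℕ in atTop, ∀ N : ℕ,
    ∀ (T : ℝ) (U : Set ℝ), Fr X δ T U → ∀ F : ℝ → ℂ, Trig F →
    (∀ u ∈ U, ‖F u‖ ≤ N * (X : ℝ) ^ (-c)) → MS T U F ≤ (N : ℝ) ^ 2 / Real.log X ^ A := by
  filter_upwards [MRHM_ev A hδ (by positivity : 0 < 2 * c) one_pos, eventually_gt_atTop 0,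
    (Real.tendsto_log_atTop.comp tendsto_natCast_atTop_atTop).eventually_gt_atTop 0]
    with X a b l0 N T U hF F tF h
  have X0 : (0 : ℝ) < X := by exact_mod_cast b
  change 0 < Real.log X at l0
  refine (MS_le_const tF T hF.meas h).trans ?_
  have sm := hF.small
  have Y0 : 0 < (X : ℝ) ^ (2 * c) := by positivity
  have p0 : 0 < Real.log X ^ A := by positivity
  rw [mul_pow, MRHM_sq X0]
  generalize (X : ℝ) ^ (2 * c) = Y at a Y0
  generalize Real.exp (Real.log X ^ (1 - δ)) = E at a sm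
  generalize Real.log X ^ A = p at *
  calc (N : ℝ) ^ 2 * Y⁻¹ * (cm T).real U ≤ (N : ℝ) ^ 2 * Y⁻¹ * E := by gcongr
    _ = (N : ℝ) ^ 2 / p * (1 * p * E / Y) := by field_simp
    _ ≤ _ := mul_le_of_le_one_right (by positivity) ((div_le_one Y0).2 a)

end Pool.Agent.Work.MP_678620_nt
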