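import Pool.Agent.Work.MP_678620_nt.MRTI
import Pool.Agent.Work.MP_678620_nt.MRHM

/-! The model at large frequencies. -/

set_option autoImplicit false
open Finset Filter MeasureTheory Pool.Agent.Lib.MR

namespace Pool.Agent.Work.MP_678620_nt

/-- The Moebius function on the smooth numbers. -/
noncomputable def flatMu (z : ℝ) (d : ℕ) : ℝ :=
  if Smo z d then (ArithmeticFunction.moebius d : ℝ) else 0

/-- The density on the class of `1`. -/
noncomputable def flatPhi (z : ℝ) (q0 : ℕ) (w : ℕ → ℝ) (m : ℕ) : ℝ :=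
  if m ≡ 1 [MOD q0] then rhoF z w m else 0

/-- The part of the convolution in which the product of the two smooth variables is small
(`s = true`) or large (`s = false`). -/
noncomputable def flatC (z : ℝ) (q0 : ℕ) (β : ℕ → ℂ) (w : ℕ → ℝ) (K : ℕ) (s : Bool) (n : ℕ) : ℂ :=
  ∑ x ∈ n.divisorsAntidiagonal, ∑ v ∈ x.2.divisorsAntidiagonal,
    if decide (x.1 * v.1 ≤ K) = s then β x.1 * (flatMu z v.1 : ℂ) * (flatPhi z q0 w (v.1 * v.2) : ℂ)
    else 0

lemma flatMu_abs (z : ℝ) (d : ℕ) : |flatMu z d| ≤ 1 := by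
  unfold flatMu
  split_ifs
  · exact_mod_cast ArithmeticFunction.abs_moebius_le_one
  · simp

lemma flat_sieve (z : ℝ) {m : ℕ} (hm : m ≠ 0) :
    ∑ d ∈ m.divisors, flatMu z d = if Rou z m then 1 else 0 := by
  have e := sp_mul_rp z m
  have s0 : sp z m ≠ 0 := fun h => hm (by rw [← e, h, zero_mul])
  have f : m.divisors.filter (Smo z) = (sp z m).divisors := by
    ext d
    simp only [mem_filter, Nat.mem_divisors]
    constructor
    · rintro ⟨⟨a, -⟩, b⟩
      refine ⟨Nat.Coprime.dvd_of_dvd_mul_right (k := d) (n := rp z m) ?_ (by rwa [e]), s0⟩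
      refine Nat.coprime_of_dvd fun p hp h1 h2 => ?_
      exact absurd (b p hp h1) (not_le.2 (rou_rp z hm p hp h2))
    · rintro ⟨a, -⟩
      exact ⟨⟨a.trans (Dvd.intro _ e), hm⟩, fun p hp h => smo_sp z m p hp (h.trans a)⟩
  have g : Rou z m ↔ sp z m = 1 := by
    constructor
    · intro h
      have := (sp_eq (b := 1) (fun p hp h => absurd (Nat.le_of_dvd one_pos h) hp.one_lt.not_ge) h
        (by simpa using hm)).1
      rwa [one_mul] at this
    · intro h
      have := rou_rp z hm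
      rw [h, one_mul] at e
      rwa [e] at this
  unfold flatMu
  rw [← sum_filter, f]
  have := congrArg (fun F : ArithmeticFunction ℤ => F (sp z m))
    ArithmeticFunction.moebius_mul_coe_zeta
  simp only [ArithmeticFunction.coe_mul_zeta_apply, ArithmeticFunction.one_apply] at this
  rw [← Int.cast_sum, this]
  by_cases h : Rou z m
  · rw [if_pos h, if_pos (g.1 h), Int.cast_one]
  · rw [if_neg h, if_neg fun a => h (g.2 a), Int.cast_zero]

lemma flat_eq (z : ℝ) (q0 : ℕ) (w : ℕ → ℝ) {m : ℕ} (hm : m ≠ 0) :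
    flat z q0 w m = ∑ v ∈ m.divisorsAntidiagonal, flatMu z v.1 * flatPhi z q0 w (v.1 * v.2) := by
  rw [sum_congr rfl fun v hv => by rw [(Nat.mem_divisorsAntidiagonal.1 hv).1], ← sum_mul,
    Nat.sum_divisorsAntidiagonal fun d _ => flatMu z d, flat_sieve z hm, flat, flatPhi]
  by_cases a : Rou z m <;> by_cases b : m ≡ 1 [MOD q0] <;> simp [a, b]

lemma flat_split (z : ℝ) (q0 : ℕ) (β : ℕ → ℂ) (w : ℕ → ℝ) (K n : ℕ) :
    conv β (flat z q0 w) n = flatC z q0 β w K true n + flatC z q0 β w K false n := by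
  unfold conv flatC
  rw [Int.toNat_natCast, ← sum_add_distrib]
  refine sum_congr rfl fun x hx => ?_
  have h := Nat.mem_divisorsAntidiagonal.1 hx
  rw [flat_eq z q0 w (m := x.2) fun a => h.2 (by rw [← h.1, a, mul_zero]), ← sum_add_distrib,
    Complex.ofReal_sum, mul_sum]
  refine sum_congr rfl fun v _ => ?_
  by_cases a : x.1 * v.1 ≤ K <;> simp [a, mul_assoc]

lemma flat_card (n : ℕ) : n.divisorsAntidiagonal.card = n.divisors.card := by
  rw [← Nat.map_div_right_divisors, card_map]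

lemma flatC_le {z : ℝ} {q0 : ℕ} {β : ℕ → ℂ} {w : ℕ → ℝ} (h : Dat z q0 β w) (K : ℕ) (s : Bool)
    {n : ℕ} {R : ℝ} (hR : ∀ m ≤ n, 0 ≤ rhoF z w m ∧ rhoF z w m ≤ R) :
    ‖flatC z q0 β w K s n‖ ≤ (n.divisors.card : ℝ) ^ 2 * R := by
  have R0 : 0 ≤ R := (hR 0 (Nat.zero_le _)).1.trans (hR 0 (Nat.zero_le _)).2
  unfold flatC
  refine (norm_sum_le _ _).trans ?_
  refine (sum_le_card_nsmul _ _ ((n.divisors.card : ℝ) * R) fun x hx => ?_).trans
    (by rw [flat_card, nsmul_eq_mul, sq, mul_assoc])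
  have hx' := Nat.mem_divisorsAntidiagonal.1 hx
  have d : x.2 ∣ n := Dvd.intro_left _ hx'.1
  refine (norm_sum_le _ _).trans ((sum_le_card_nsmul _ _ R fun v hv => ?_).trans ?_)
  · split_ifs
    · rw [(Nat.mem_divisorsAntidiagonal.1 hv).1, norm_mul, norm_mul, Complex.norm_real,
        Complex.norm_real, Real.norm_eq_abs, Real.norm_eq_abs]
      have a := hR x.2 (Nat.le_of_dvd (Nat.pos_of_ne_zero hx'.2) d)
      have b : |flatPhi z q0 w x.2| ≤ R := by
        unfold flatPhi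
        split_ifs
        · rw [abs_of_nonneg a.1]; exact a.2
        · simpa using R0
      calc _ ≤ 1 * 1 * R := mul_le_mul (mul_le_mul (h.β_le _) (flatMu_abs _ _) (abs_nonneg _)
            zero_le_one) b (abs_nonneg _) (by norm_num)
        _ = R := by ring
    · simpa using R0
  · rw [flat_card, nsmul_eq_mul]
    exact mul_le_mul_of_nonneg_right
      (by exact_mod_cast card_le_card (Nat.divisors_subset_of_dvd hx'.2 d)) R0

lemma flatC_supp {z : ℝ} {q0 : ℕ} {β : ℕ → ℂ} {w : ℕ → ℝ} (h : Dat z q0 β w) (K : ℕ) {n : ℕ}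
    (hn : flatC z q0 β w K false n ≠ 0) : ∃ b : ℕ, b ∣ n ∧ Smo z b ∧ K < b := by
  obtain ⟨x, hx, a⟩ := exists_ne_zero_of_sum_ne_zero hn
  obtain ⟨v, hv, b⟩ := exists_ne_zero_of_sum_ne_zero a
  split_ifs at b with c
  · refine ⟨x.1 * v.1, ⟨v.2, ?_⟩, (h.β_supp _ fun e => b (by simp [e])).mul ?_, by simpa using c⟩
    · rw [mul_assoc, (Nat.mem_divisorsAntidiagonal.1 hv).1, (Nat.mem_divisorsAntidiagonal.1 hx).1]
    · by_contra e
      exact b (by simp [flatMu, e])
  · exact absurd rfl b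

lemma flat_hyp (y : ℕ) (g : ℕ → ℕ → ℂ) :
    ∑ n ∈ Icc 1 y, ∑ x ∈ n.divisorsAntidiagonal, g x.1 x.2
      = ∑ b ∈ Icc 1 y, ∑ m ∈ Icc 1 (y / b), g b m := by
  rw [sum_sigma', sum_sigma']
  refine sum_bij' (fun p _ => ⟨p.2.1, p.2.2⟩) (fun p _ => ⟨p.1 * p.2, (p.1, p.2)⟩) ?_ ?_ ?_ ?_ ?_
  · rintro ⟨n, b, m⟩ hp
    simp only [mem_sigma, mem_Icc, Nat.mem_divisorsAntidiagonal] at hp ⊢
    obtain ⟨⟨a, c⟩, rfl, d⟩ := hp
    have b0 : 0 < b := Nat.pos_of_ne_zero (left_ne_zero_of_mul d)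
    have m0 : 0 < m := Nat.pos_of_ne_zero (right_ne_zero_of_mul d)
    exact ⟨⟨b0, (Nat.le_mul_of_pos_right b m0).trans c⟩, m0,
      (Nat.le_div_iff_mul_le b0).2 (by rwa [mul_comm])⟩
  · rintro ⟨b, m⟩ hp
    simp only [mem_sigma, mem_Icc, Nat.mem_divisorsAntidiagonal] at hp ⊢
    obtain ⟨⟨a, c⟩, d, e⟩ := hp
    have := (Nat.le_div_iff_mul_le a).1 e
    exact ⟨⟨Nat.mul_pos a d, by rwa [mul_comm]⟩, trivial, (Nat.mul_pos a d).ne'⟩
  · rintro ⟨n, b, m⟩ hp
    simp only [mem_sigma, Nat.mem_divisorsAntidiagonal] at hp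
    obtain ⟨-, rfl, -⟩ := hp
    rfl
  · rintro ⟨b, m⟩ _
    rfl
  · rintro ⟨n, b, m⟩ _
    rfl

/-- The periodic factor. -/
noncomputable def flatPsi (q a q0 b d e : ℕ) : ℂ :=
  if b * (d * e) ≡ a [MOD q] ∧ d * e ≡ 1 [MOD q0] then 1 else 0

lemma flat_first (z : ℝ) (q0 : ℕ) (β : ℕ → ℂ) (w : ℕ → ℝ) (K q a y : ℕ) (u : ℝ) :
    DP (cls q a y) (flatC z q0 β w K true) u = ∑ b ∈ Icc 1 y, ∑ d ∈ Icc 1 (y / b),
      if b * d ≤ K then β b * (flatMu z d : ℂ) * nit (b * d) u *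
        DP (Icc 1 (y / b / d)) (fun e => flatPsi q a q0 b d e * (rhoF z w (d * e) : ℂ)) u
      else 0 := by
  unfold DP cls flatC
  rw [sum_filter]
  let g : ℕ → ℕ → ℕ → ℂ := fun b d e => if b * (d * e) ≡ a [MOD q] then
    (if decide (b * d ≤ K) = true then β b * (flatMu z d : ℂ) * (flatPhi z q0 w (d * e) : ℂ)
      else 0) * nit (b * (d * e)) u else 0
  calc _ = ∑ n ∈ Icc 1 y, ∑ x ∈ n.divisorsAntidiagonal,
        ∑ v ∈ x.2.divisorsAntidiagonal, g x.1 v.1 v.2 := by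
        refine sum_congr rfl fun n _ => ?_
        have e : ∀ x ∈ n.divisorsAntidiagonal, ∀ v ∈ x.2.divisorsAntidiagonal,
            x.1 * (v.1 * v.2) = n := fun x hx v hv => by
          rw [(Nat.mem_divisorsAntidiagonal.1 hv).1, (Nat.mem_divisorsAntidiagonal.1 hx).1]
        split_ifs with c
        · rw [sum_mul]
          refine sum_congr rfl fun x hx => ?_
          rw [sum_mul]
          refine sum_congr rfl fun v hv => ?_
          simp only [g, e x hx v hv, if_pos c]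
        · refine (sum_eq_zero fun x hx => sum_eq_zero fun v hv => ?_).symm
          simp only [g, e x hx v hv, if_neg c]
    _ = ∑ b ∈ Icc 1 y, ∑ d ∈ Icc 1 (y / b), ∑ e ∈ Icc 1 (y / b / d), g b d e := by
        rw [flat_hyp y fun b m => ∑ v ∈ m.divisorsAntidiagonal, g b v.1 v.2]
        exact sum_congr rfl fun b _ => flat_hyp _ (g b)
    _ = _ := by
        refine sum_congr rfl fun b hb => sum_congr rfl fun d hd => ?_
        have b0 : b ≠ 0 := by have := (mem_Icc.1 hb).1; omega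
        have d0 : d ≠ 0 := by have := (mem_Icc.1 hd).1; omega
        split_ifs with c
        · rw [mul_sum]
          refine sum_congr rfl fun e he => ?_
          have e0 : e ≠ 0 := by have := (mem_Icc.1 he).1; omega
          have : nit (b * (d * e)) u = nit (b * d) u * nit e u := by
            rw [← mul_assoc, nit_mul (mul_ne_zero b0 d0) e0]
          simp only [g, flatPsi, flatPhi, this, c, decide_true, if_true]
          by_cases c₁ : b * (d * e) ≡ a [MOD q] <;> by_cases c₂ : d * e ≡ 1 [MOD q0] <;>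
            simp [c₁, c₂]
          ring
        · exact sum_eq_zero fun e _ => by simp [g, c]

lemma flat_harm (y : ℕ) : ∑ n ∈ Icc 1 y, (n : ℝ)⁻¹ ≤ 1 + Real.log y := by
  simpa using sum_div_pow_div 0 y

lemma flat_inner {z : ℝ} (hz : 1 ≤ z) {w : ℕ → ℝ} (w0 : ∀ n, 0 ≤ w n) (w1 : ∀ n, w n ≤ 1)
    {ψ : ℕ → ℂ} {d y y₁ : ℕ} (hd : 1 ≤ d) (hy : d * y₁ ≤ y) {u D : ℝ}
    (h : ∀ j ≤ y₁, ‖DP (Icc 1 j) ψ u‖ ≤ D) :
    ‖DP (Icc 1 y₁) (fun e => ψ e * (rhoF z w (d * e) : ℂ)) u‖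
      ≤ (Vz z)⁻¹ * ((1 + Real.log y) * (2 * D)) := by
  have D0 : 0 ≤ D := (norm_nonneg _).trans (h 0 (Nat.zero_le _))
  have d0 : (0 : ℝ) < d := by exact_mod_cast hd
  have e₁ : ∀ e ∈ Icc 1 y₁, rhoF z w (d * e) = (Vz z)⁻¹ *
      ∑ m ∈ Icc 1 y, if ⌊(m : ℝ) * z / d⌋₊ < e then w m / m else 0 := by
    intro e he
    rw [rhoF, div_eq_inv_mul, ← sum_filter]
    congr 2
    ext m
    have k : ⌊(m : ℝ) * z / d⌋₊ < e ↔ (m : ℝ) * z < (d * e : ℕ) := by
      rw [Nat.floor_lt (by positivity), div_lt_iff₀ d0, Nat.cast_mul, mul_comm (d : ℝ)]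
    simp only [mem_filter, mem_Icc, k]
    refine and_congr_left fun a => and_congr_right fun _ => ?_
    have : m ≤ d * e := by
      have : (m : ℝ) ≤ (d * e : ℕ) := (le_mul_of_one_le_right (by positivity) hz).trans a.le
      exact_mod_cast this
    exact iff_of_true this (this.trans ((Nat.mul_le_mul_left d (mem_Icc.1 he).2).trans hy))
  have e₂ : ∀ j : ℕ, ∑ e ∈ Icc 1 y₁, (if j < e then ψ e * nit e u else 0)
      = DP (Icc 1 y₁) ψ u - DP (Icc 1 (min y₁ j)) ψ u := by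
    intro j
    have : Icc 1 (min y₁ j) = (Icc 1 y₁).filter fun e => ¬ j < e := by
      ext e
      simp only [mem_Icc, mem_filter]
      omega
    rw [eq_sub_iff_add_eq, this, DP, DP, ← sum_filter, sum_filter_add_sum_filter_not]
  have e₃ : DP (Icc 1 y₁) (fun e => ψ e * (rhoF z w (d * e) : ℂ)) u = (((Vz z)⁻¹ : ℝ) : ℂ) *
      ∑ m ∈ Icc 1 y, ((w m / m : ℝ) : ℂ) *
        (DP (Icc 1 y₁) ψ u - DP (Icc 1 (min y₁ ⌊(m : ℝ) * z / d⌋₊)) ψ u) := by
    simp only [← e₂, mul_sum]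
    rw [sum_comm, DP]
    refine sum_congr rfl fun e he => ?_
    rw [e₁ e he, Complex.ofReal_mul, Complex.ofReal_sum, mul_sum, mul_sum, sum_mul]
    refine sum_congr rfl fun m _ => ?_
    split_ifs
    · ring
    · simp
  have V0 := (inv_pos.2 (Vz_pos z)).le
  rw [e₃, norm_mul, Complex.norm_real, Real.norm_of_nonneg V0]
  refine mul_le_mul_of_nonneg_left ((norm_sum_le _ _).trans ?_) V0
  refine le_trans ?_ (mul_le_mul_of_nonneg_right (flat_harm y) (by positivity))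
  rw [sum_mul]
  refine sum_le_sum fun m _ => ?_
  rw [norm_mul, Complex.norm_real, Real.norm_of_nonneg (div_nonneg (w0 m) (by positivity))]
  refine mul_le_mul ?_ ((norm_sub_le _ _).trans ?_) (norm_nonneg _) (by positivity)
  · rw [← one_div]
    exact div_le_div_of_nonneg_right (w1 m) (by positivity)
  · linarith only [h y₁ le_rfl, h _ (min_le_left y₁ ⌊(m : ℝ) * z / d⌋₊)]

lemma flat_outer {z : ℝ} {q0 : ℕ} {β : ℕ → ℂ} {w : ℕ → ℝ} (h : Dat z q0 β w) (hz : 1 ≤ z)
    {K q a y : ℕ} {u D : ℝ} (D0 : 0 ≤ D)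
    (hI : ∀ b d j : ℕ, 1 ≤ b * d → b * d ≤ K → b * d * j ≤ y →
      ‖DP (Icc 1 j) (flatPsi q a q0 b d) u‖ ≤ D / (b * d : ℕ)) :
    ‖DP (cls q a y) (flatC z q0 β w K true) u‖ ≤ (Vz z)⁻¹ * (1 + Real.log y) ^ 3 * (2 * D) := by
  have V0 := (inv_pos.2 (Vz_pos z)).le
  have L0 : 0 ≤ 1 + Real.log y := add_nonneg zero_le_one (Real.log_natCast_nonneg y)
  have H0 : 0 ≤ ∑ n ∈ Icc 1 y, (n : ℝ)⁻¹ := sum_nonneg fun _ _ => by positivity
  set E := (Vz z)⁻¹ * (1 + Real.log y) * (2 * D) with hE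
  have E0 : 0 ≤ E := by positivity
  rw [flat_first]
  calc _ ≤ ∑ b ∈ Icc 1 y, ∑ d ∈ Icc 1 y, (b : ℝ)⁻¹ * ((d : ℝ)⁻¹ * E) := by
        refine (norm_sum_le _ _).trans (sum_le_sum fun b hb => (norm_sum_le _ _).trans ?_)
        refine le_trans (sum_le_sum fun d hd => ?_) (sum_le_sum_of_subset_of_nonneg
          (Icc_subset_Icc_right (Nat.div_le_self y b)) fun _ _ _ => by positivity)
        have b0 := (mem_Icc.1 hb).1
        have d0 := (mem_Icc.1 hd).1
        split_ifs with c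
        · have k : b * d * (y / b / d) ≤ y := by
            rw [Nat.div_div_eq_div_mul]; exact Nat.mul_div_le _ _
          have := flat_inner hz h.w_nonneg h.w_le (ψ := flatPsi q a q0 b d) (y := y)
            (y₁ := y / b / d) (u := u) d0
            ((Nat.mul_le_mul_right _ (Nat.le_mul_of_pos_left d b0)).trans k) fun j hj =>
              hI b d j (Nat.mul_pos b0 d0) c ((Nat.mul_le_mul_left _ hj).trans k)
          rw [norm_mul, norm_mul, norm_mul, norm_nit, Complex.norm_real, Real.norm_eq_abs]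
          calc _ ≤ 1 * 1 * 1 * ((Vz z)⁻¹ * ((1 + Real.log y) * (2 * (D / (b * d : ℕ))))) :=
                mul_le_mul (mul_le_mul_of_nonneg_right (mul_le_mul (h.β_le _) (flatMu_abs _ _)
                  (abs_nonneg _) zero_le_one) zero_le_one) this (norm_nonneg _) (by norm_num)
            _ = _ := by rw [hE, Nat.cast_mul, div_eq_mul_inv, mul_inv]; ring
        · rw [norm_zero]; positivity
    _ = (∑ n ∈ Icc 1 y, (n : ℝ)⁻¹) * ((∑ n ∈ Icc 1 y, (n : ℝ)⁻¹) * E) := by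
        simp only [← mul_sum, ← sum_mul]
    _ ≤ (1 + Real.log y) * ((1 + Real.log y) * E) :=
        mul_le_mul (flat_harm y) (mul_le_mul_of_nonneg_right (flat_harm y) E0) (by positivity) L0
    _ = _ := by rw [hE]; ring

lemma flatPsi_per (q a q0 b d e : ℕ) : flatPsi q a q0 b d (e + q * q0) = flatPsi q a q0 b d e := by
  have e₁ : b * (d * (e + q * q0)) ≡ b * (d * e) [MOD q] := by
    rw [show b * (d * (e + q * q0)) = b * (d * e) + q * (b * d * q0) by ring]
    exact Nat.add_mul_mod_self_left _ _ _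
  have e₂ : d * (e + q * q0) ≡ d * e [MOD q0] := by
    rw [show d * (e + q * q0) = d * e + q0 * (d * q) by ring]
    exact Nat.add_mul_mod_self_left _ _ _
  unfold flatPsi
  exact if_congr (and_congr ⟨e₁.symm.trans, e₁.trans⟩ ⟨e₂.symm.trans, e₂.trans⟩) rfl rfl

theorem flat_MS (A q0 : ℕ) (hq0 : 1 ≤ q0) {δ : ℝ} (hδ : 0 < δ) : ∃ B : ℕ, ∀ᶠ X : ℕ in atTop,
    ∀ N : ℕ, X ≤ N ^ 2 → N ≤ X ^ 2 → ∀ (β : ℕ → ℂ) (w : ℕ → ℝ), Dat (zz X) q0 β w →
    ∀ q a y : ℕ, 1 ≤ q → (q : ℝ) ≤ Real.log X ^ A → y ≤ 20 * N → ∀ (T : ℝ) (U : Set ℝ),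
    Fr X δ T U → (∀ u ∈ U, Real.log X ^ B ≤ |u|) →
    MS T U (DP (cls q a y) fun n => conv β (flat (zz X) q0 w) n)
      ≤ (N : ℝ) ^ 2 / Real.log X ^ A := by
  obtain ⟨c, hc, hI⟩ := typeI_ev
  obtain ⟨C, hC, hH⟩ := Fr.hm hδ
  refine ⟨3 * (A + 5) + 1, ?_⟩
  have hl : ∀ᶠ X : ℕ in atTop, max 128 (max (q0 : ℝ) (1600 * C)) ≤ Real.log X :=
    (Real.tendsto_log_atTop.comp tendsto_natCast_atTop_atTop).eventually_ge_atTop _
  filter_upwards [hI (A + 1), hH, hl, decay_MS (A + 5) hδ hc, rankin_sq (A + 1) 3, rhoF_bound,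
    Vz_inv_le, zz_big 0, KK_spec, eventually_ge_atTop 20] with X hI hH hl hD hR hρ hV hz hK hX
  intro N hN hN' β w h q a y hq hqA hy T U hU hB
  simp only [max_le_iff] at hl
  obtain ⟨l₁, l₂, l₃⟩ := hl
  set l := Real.log X with hl
  have l0 : 0 < l := by linarith only [hC, l₃]
  have z1 : 1 ≤ zz X := by simpa using hz.1
  have NX : 20 * N ≤ X ^ 3 := by nlinarith only [hN', hX]
  have X1 : (1 : ℝ) ≤ X := by exact_mod_cast (by omega : 1 ≤ X)
  have KN : KK X ≤ 20 * N := by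
    have a₁ : (KK X : ℝ) ^ 2 ≤ X := by
      refine (pow_le_pow_left₀ (by positivity) hK.2.1 2).trans ?_
      rw [← Real.rpow_natCast, ← Real.rpow_mul (by positivity)]
      exact Real.rpow_le_self_of_one_le X1 (by norm_num)
    have a₂ : KK X ^ 2 ≤ N ^ 2 := le_trans (by exact_mod_cast a₁) hN
    have := (Nat.pow_le_pow_iff_left two_ne_zero).1 a₂
    omega
  have e : (DP (cls q a y) fun n => conv β (flat (zz X) q0 w) n) = fun u =>
      DP (cls q a y) (flatC (zz X) q0 β w (KK X) true) u +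
        DP (cls q a y) (flatC (zz X) q0 β w (KK X) false) u := by
    funext u
    simp only [DP, flat_split (zz X) q0 β w (KK X), add_mul, sum_add_distrib]
  have h₁ : MS T U (DP (cls q a y) (flatC (zz X) q0 β w (KK X) true))
      ≤ (N : ℝ) ^ 2 / l ^ (A + 5) := by
    refine hD N T U hU hB _ (Trig.DP _ _) fun u hu => ?_
    have u0 : u ≠ 0 := abs_pos.1 ((pow_pos l0 _).trans_le (hB u hu))
    have D0 : 0 ≤ (N : ℝ) * (40 / |u| + (X : ℝ) ^ (-c)) := by positivity
    refine (flat_outer h z1 D0 fun b d j a₁ a₂ a₃ => ?_).trans ?_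
    · refine (hI N hN hN' (q * q0) (Nat.mul_pos hq hq0) ?_ _ (fun n => ?_)
        (flatPsi_per q a q0 b d) (b * d) j a₁ (a₂.trans (Nat.le_self_pow (by norm_num) _))
        (a₃.trans hy) u u0 (hU.hi u hu)).1
      · rw [Nat.cast_mul, pow_succ]
        exact mul_le_mul hqA l₂ (by positivity) (by positivity)
      · unfold flatPsi
        split_ifs <;> simp
    · have L0 : 0 ≤ 1 + Real.log y := add_nonneg zero_le_one (Real.log_natCast_nonneg y)
      have L1 : 1 + Real.log y ≤ 4 * l := by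
        have : Real.log y ≤ 3 * l := by
          rcases Nat.eq_zero_or_pos y with rfl | y0
          · simp [l0.le]
          · calc Real.log y ≤ Real.log ((X : ℝ) ^ 3) := Real.log_le_log (by exact_mod_cast y0)
                  (by exact_mod_cast hy.trans NX)
              _ = _ := by rw [Real.log_pow]; norm_num [hl]
        linarith only [hC, l₃, this]
      calc _ ≤ l * (4 * l) ^ 3 * (2 * (N * (40 / |u| + (X : ℝ) ^ (-c)))) :=
            mul_le_mul_of_nonneg_right (mul_le_mul hV (pow_le_pow_left₀ L0 L1 3) (by positivity)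
              l0.le) (by positivity)
        _ = 128 * l ^ 4 * (N * (40 / |u| + (X : ℝ) ^ (-c))) := by ring
        _ ≤ _ := by
            refine mul_le_mul_of_nonneg_right ?_ D0
            calc 128 * l ^ 4 ≤ l * l ^ 4 := by gcongr
              _ = l ^ 5 := by ring
              _ ≤ _ := pow_le_pow_right₀ (by linarith only [hC, l₃]) (by omega)
  have h₂ : MS T U (DP (cls q a y) (flatC (zz X) q0 β w (KK X) false))
      ≤ C * (20 * N : ℕ) * ((20 * N : ℕ) / l ^ (A + 1)) := by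
    have s : cls q a y ⊆ Icc 1 (20 * N) := (filter_subset _ _).trans (Icc_subset_Icc_right hy)
    refine (hH T U hU _ KN _ s _).trans (mul_le_mul_of_nonneg_left ?_ (by positivity))
    refine (sum_le_sum_of_subset_of_nonneg s fun _ _ _ => by positivity).trans
      (hR _ NX _ (fun n hn => ?_) fun n _ => flatC_supp h _)
    obtain ⟨n1, n2⟩ := mem_Icc.1 hn
    refine (flatC_le h _ _ fun m hm => hρ w h.w_nonneg h.w_le m (hm.trans (n2.trans NX))).trans ?_
    have : (1 : ℝ) ≤ n.divisors.card := by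
      exact_mod_cast card_pos.2 ⟨1, Nat.one_mem_divisors.2 (by omega)⟩
    refine mul_le_mul (pow_le_pow_right₀ this (by norm_num)) ?_ (by positivity) (by positivity)
    calc 4 * l ^ 2 ≤ l * l ^ 2 := by gcongr; linarith only [hC, l₃]
      _ = _ := by ring
  rw [e]
  refine (MS_add_le (Trig.DP _ _) (Trig.DP _ _) T U).trans ?_
  have P0 : 0 ≤ (N : ℝ) ^ 2 / l ^ A := by positivity
  have k₁ : (N : ℝ) ^ 2 / l ^ (A + 5) ≤ (N : ℝ) ^ 2 / l ^ A / 4 := by
    rw [pow_add, ← div_div]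
    refine div_le_div_of_nonneg_left P0 (by norm_num) ?_
    calc (4 : ℝ) ≤ l ^ 1 := by rw [pow_one]; linarith only [hC, l₃]
      _ ≤ _ := pow_le_pow_right₀ (by linarith only [hC, l₃]) (by norm_num)
  have k₂ : C * (20 * N : ℕ) * ((20 * N : ℕ) / l ^ (A + 1)) ≤ (N : ℝ) ^ 2 / l ^ A / 4 := by
    have : C * (20 * N : ℕ) * ((20 * N : ℕ) / l ^ (A + 1))
        = (N : ℝ) ^ 2 / l ^ A * (400 * C / l) := by
      push_cast
      field_simp
      ring
    rw [this, div_eq_mul_inv _ (4 : ℝ)]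
    refine mul_le_mul_of_nonneg_left ?_ P0
    rw [div_le_iff₀ l0]
    linarith only [l₃]
  linarith only [h₁, h₂, k₁, k₂]

end Pool.Agent.Work.MP_678620_nt
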