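import Pool.Agent.Work.MP_678620_nt.MRGamB

/-! The primes at large frequencies. -/

set_option autoImplicit false
open Finset Filter MeasureTheory Pool.Agent.Lib.MR

namespace Pool.Agent.Work.MP_678620_nt

lemma h24gam_log_ge (c : ℝ) : ∀ᶠ X : ℕ in atTop, c ≤ Real.log X :=
  (Real.tendsto_log_atTop.comp tendsto_natCast_atTop_atTop).eventually_ge_atTop c

lemma h24gam_four {l M a b : ℝ} {A : ℕ} (hl : 4 ≤ l) (hM : 0 ≤ M) (ha : a ≤ M / l ^ (A + 1))
    (hb : b ≤ M / l ^ (A + 1)) : 2 * a + 2 * b ≤ M / l ^ A := by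
  have h0 : 0 < l := by linarith
  have h1 : M / l ^ (A + 1) = M / l ^ A / l := by rw [pow_succ, div_div]
  have h2 : 0 ≤ M / l ^ A := by positivity
  have h3 : M / l ^ A / l ≤ M / l ^ A / 4 := by gcongr
  linarith only [ha, hb, h1, h3]

lemma h24gam_log_small : ∀ᶠ X : ℕ in atTop, 31 * Real.log X ≤ (X : ℝ) ^ (1 / 8 : ℝ) := by
  have h := (isLittleO_log_rpow_atTop (r := 1 / 8) (by norm_num)).bound (c := 1 / 31)
    (by norm_num)
  filter_upwards [tendsto_natCast_atTop_atTop.eventually h] with X hX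
  rw [Real.norm_eq_abs, Real.norm_eq_abs, abs_of_nonneg (Real.log_natCast_nonneg X),
    abs_of_nonneg (by positivity)] at hX
  linarith only [hX]

lemma h24gam_norm_lp_le {r : ℕ} (χ : DirichletCharacter ℂ r) (n : ℕ) : ‖lp χ n‖ ≤ Real.log n := by
  unfold lp
  split_ifs
  · rw [norm_mul, Complex.norm_real, Real.norm_eq_abs, abs_of_nonneg (Real.log_natCast_nonneg n)]
    exact mul_le_of_le_one_left (Real.log_natCast_nonneg n) (χ.norm_le_one _)
  · simpa using Real.log_natCast_nonneg n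

lemma h24gam_DP_diff {r : ℕ} (χ : DirichletCharacter ℂ r) (z0 x : ℕ) (u : ℝ) :
    ‖DP (Icc 1 x) (fun n => (if z0 < n then lp χ n else 0) - lv χ n) u‖
      ≤ 2 * √(x : ℝ) * Real.log x + z0 * Real.log z0 := by
  have e : DP (Icc 1 x) (fun n => (if z0 < n then lp χ n else 0) - lv χ n) u =
      (DP (Icc 1 x) (lp χ) u - DP (Icc 1 x) (lv χ) u)
        - DP (Icc 1 x) (fun n => if z0 < n then 0 else lp χ n) u := by
    simp only [DP, ← sum_sub_distrib]
    refine sum_congr rfl fun n _ => ?_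
    split_ifs <;> ring
  rw [e]
  refine (norm_sub_le _ _).trans (add_le_add (by rw [norm_sub_rev]; exact DP_lv_sub_lp χ x u) ?_)
  refine (norm_DP_le _ _ _).trans ?_
  calc ∑ n ∈ Icc 1 x, ‖if z0 < n then 0 else lp χ n‖
      = ∑ n ∈ (Icc 1 x).filter (fun n => ¬ z0 < n), ‖lp χ n‖ := by
        rw [sum_filter]
        refine sum_congr rfl fun n _ => ?_
        split_ifs <;> simp
    _ ≤ ∑ n ∈ Icc 1 z0, ‖lp χ n‖ := by
        refine sum_le_sum_of_subset_of_nonneg (fun n hn => ?_) fun _ _ _ => norm_nonneg _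
        simp only [mem_filter, mem_Icc] at hn ⊢
        omega
    _ ≤ ∑ _n ∈ Icc 1 z0, Real.log z0 := by
        refine sum_le_sum fun n hn => (h24gam_norm_lp_le χ n).trans ?_
        have := mem_Icc.1 hn
        exact Real.log_le_log (by exact_mod_cast this.1) (by exact_mod_cast this.2)
    _ = z0 * Real.log z0 := by simp

lemma h24gam_num {X N x z0 K : ℕ} (hX : 20 ≤ X) (h1 : X ≤ N ^ 2) (h2 : N ≤ X ^ 2) (hx : x ≤ 20 * N)
    (hz : z0 ≤ K) (hK : (K : ℝ) ≤ (X : ℝ) ^ (1 / 40 : ℝ))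
    (hl : 31 * Real.log X ≤ (X : ℝ) ^ (1 / 8 : ℝ)) :
    K * (2 * √(x : ℝ) * Real.log x + z0 * Real.log z0) ≤ N * (X : ℝ) ^ (-(1 / 10) : ℝ) := by
  have hX0 : (0 : ℝ) < X := by exact_mod_cast (by omega : 0 < X)
  have hX1 : (1 : ℝ) ≤ X := by exact_mod_cast (by omega : 1 ≤ X)
  set t : ℝ := (X : ℝ) ^ (1 / 40 : ℝ) with ht
  have ht1 : 1 ≤ t := Real.one_le_rpow hX1 (by norm_num)
  have hpow : ∀ k : ℕ, t ^ k = (X : ℝ) ^ ((k : ℝ) / 40) := fun k => by
    rw [ht, ← Real.rpow_natCast, ← Real.rpow_mul hX0.le]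
    congr 1
    ring
  have h40 : t ^ 40 = X := by rw [hpow]; norm_num
  have h5 : t ^ 5 = (X : ℝ) ^ (1 / 8 : ℝ) := by rw [hpow]; norm_num
  have h4 : (X : ℝ) ^ (-(1 / 10) : ℝ) = (t ^ 4)⁻¹ := by
    rw [hpow, Real.rpow_neg hX0.le]; norm_num
  set s : ℝ := √(N : ℝ) with hs
  have hs0 : 0 ≤ s := Real.sqrt_nonneg _
  have hs2 : s ^ 2 = N := Real.sq_sqrt (by positivity)
  have hts : t ^ 10 ≤ s := by
    refine le_of_pow_le_pow_left₀ (n := 4) (by norm_num) hs0 ?_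
    have : (X : ℝ) ≤ (N : ℝ) ^ 2 := by exact_mod_cast h1
    calc (t ^ 10) ^ 4 = t ^ 40 := by ring
      _ ≤ (N : ℝ) ^ 2 := h40 ▸ this
      _ = s ^ 4 := by rw [← hs2]; ring
  set l : ℝ := Real.log X with hldef
  have hl0 : 0 ≤ l := Real.log_natCast_nonneg X
  have hsx : √(x : ℝ) ≤ 5 * s := by
    rw [Real.sqrt_le_left (by positivity), mul_pow, hs2]
    have : (x : ℝ) ≤ 20 * N := by exact_mod_cast hx
    have : (0 : ℝ) ≤ N := by positivity
    linarith
  have hlx : Real.log x ≤ 3 * l := by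
    rcases Nat.eq_zero_or_pos x with rfl | hx0
    · simpa using hl0
    · have h3 : x ≤ X ^ 3 := by nlinarith only [h2, hx, hX]
      calc Real.log x ≤ Real.log ((X : ℝ) ^ 3) :=
            Real.log_le_log (by exact_mod_cast hx0) (by exact_mod_cast h3)
        _ = 3 * l := by rw [Real.log_pow]; norm_num [hldef]
  have hzt : (z0 : ℝ) ≤ t := (Nat.cast_le.2 hz).trans hK
  have htX : t ≤ X := h40 ▸ le_self_pow₀ ht1 (by norm_num)
  have hts' : t ≤ s := (le_self_pow₀ ht1 (by norm_num)).trans hts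
  have hlz : Real.log z0 ≤ l := by
    rcases Nat.eq_zero_or_pos z0 with rfl | hz0
    · simpa using hl0
    · exact Real.log_le_log (by exact_mod_cast hz0) (hzt.trans htX)
  have hA : 2 * √(x : ℝ) * Real.log x ≤ 2 * (5 * s) * (3 * l) :=
    mul_le_mul (by linarith only [hsx]) hlx (Real.log_natCast_nonneg x) (by positivity)
  have hB : z0 * Real.log z0 ≤ s * l :=
    mul_le_mul (hzt.trans hts') hlz (Real.log_natCast_nonneg z0) hs0
  have hC : 2 * √(x : ℝ) * Real.log x + z0 * Real.log z0 ≤ s * t ^ 5 := by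
    have : s * (31 * l) ≤ s * t ^ 5 := mul_le_mul_of_nonneg_left (h5 ▸ hl) hs0
    linarith only [hA, hB, this]
  have ht0 : 0 < t := by linarith only [ht1]
  calc K * (2 * √(x : ℝ) * Real.log x + z0 * Real.log z0) ≤ t * (s * t ^ 5) := by
        refine mul_le_mul hK hC ?_ ht0.le
        have := Real.log_natCast_nonneg x
        have := Real.log_natCast_nonneg z0
        positivity
    _ = s * t ^ 10 * (t ^ 4)⁻¹ := by field_simp
    _ ≤ s * s * (t ^ 4)⁻¹ := by gcongr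
    _ = N * (X : ℝ) ^ (-(1 / 10) : ℝ) := by rw [h4, ← hs2]; ring

theorem gamB (A : ℕ) {δ : ℝ} (hδ : 0 < δ) : ∃ B : ℕ, ∀ᶠ X : ℕ in atTop,
    ∀ N : ℕ, X ≤ N ^ 2 → N ≤ X ^ 2 → ∀ (r : ℕ) [NeZero r] (χ : DirichletCharacter ℂ r),
    (r : ℝ) ≤ Real.log X ^ A → ∀ α : ℕ → ℂ, (∀ n, ‖α n‖ ≤ 1) → (∀ n, KK X < n → α n = 0) →
    ∀ y : ℕ, y ≤ 20 * N → ∀ (T : ℝ) (U : Set ℝ), Fr X δ T U →
    (∀ u ∈ U, Real.log X ^ B ≤ |u|) →
      MS T U (Hy (Ioc ⌊zz X⌋₊ y) (lp χ) α y) ≤ (N : ℝ) ^ 2 / Real.log X ^ A := by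
  obtain ⟨B, hB⟩ := gamB_lv (A + 1) hδ
  refine ⟨B, ?_⟩
  filter_upwards [hB, power_MS (A + 1) hδ (c := 1 / 10) (by norm_num), h24gam_log_ge 4,
    h24gam_log_small, KK_spec, eventually_ge_atTop 20]
    with X h1 h2 hl hl' hK hX N hN1 hN2 r _ χ hr α hα hα0 y hy T U hU hlo
  set z0 := ⌊zz X⌋₊ with hz0
  let d : ℕ → ℂ := fun n => (if z0 < n then lp χ n else 0) - lv χ n
  have e : Hy (Ioc z0 y) (lp χ) α y =
      fun u => Hy (Icc 1 y) (lv χ) α y u + Hy (Icc 1 y) d α y u := by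
    funext u
    have : Ioc z0 y = (Icc 1 y).filter fun n => z0 < n := by
      ext n
      simp only [mem_Ioc, mem_filter, mem_Icc]
      omega
    simp only [Hy, this, sum_filter, ← sum_add_distrib, d]
    refine sum_congr rfl fun n _ => ?_
    split_ifs <;> ring
  rw [e]
  refine (MS_add_le (trig_Hy _ _ _ _) (trig_Hy _ _ _ _) T U).trans
    (h24gam_four hl (by positivity) (h1 N hN1 hN2 r χ (hr.trans ?_) α hα hα0 y hy T U hU hlo)
      (h2 N T U hU _ (trig_Hy _ _ _ _) fun u _ => ?_))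
  · exact pow_le_pow_right₀ (by linarith only [hl]) (Nat.le_succ A)
  · have hzK : z0 ≤ KK X := Nat.floor_le_of_le hK.2.2
    rw [Hy_comm]
    refine le_trans ?_ (h24gam_num hX hN1 hN2 hy hzK hK.2.1 hl')
    set E : ℝ := 2 * √(y : ℝ) * Real.log y + z0 * Real.log z0 with hE
    have hE0 : 0 ≤ E := by
      have := Real.log_natCast_nonneg y
      have := Real.log_natCast_nonneg z0
      positivity
    have hb : ∀ k ∈ Icc 1 y, ‖α k * nit k u * DP (Icc 1 (y / k)) d u‖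
        ≤ if k ≤ KK X then E else 0 := fun k _ => by
      split_ifs with hk
      · rw [norm_mul, norm_mul, norm_nit, mul_one]
        refine (mul_le_of_le_one_left (norm_nonneg _) (hα k)).trans
          ((h24gam_DP_diff χ z0 (y / k) u).trans (add_le_add ?_ le_rfl))
        have h3 : ((y / k : ℕ) : ℝ) ≤ y := Nat.cast_le.2 (Nat.div_le_self _ _)
        refine mul_le_mul (by gcongr) ?_ (Real.log_natCast_nonneg _) (by positivity)
        rcases Nat.eq_zero_or_pos (y / k) with h0 | h0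
        · rw [h0]; simpa using Real.log_natCast_nonneg y
        · exact Real.log_le_log (by exact_mod_cast h0) h3
      · simp [hα0 k (not_le.1 hk)]
    refine ((norm_sum_le _ _).trans (sum_le_sum hb)).trans ?_
    rw [← sum_filter, sum_const, nsmul_eq_mul]
    refine mul_le_mul_of_nonneg_right (Nat.cast_le.2 ?_) hE0
    calc _ ≤ (Icc 1 (KK X)).card := by
          refine card_le_card fun k hk => ?_
          simp only [mem_filter, mem_Icc] at hk ⊢
          omega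
      _ = KK X := by simp

theorem gam_chi (A : ℕ) {δ : ℝ} (hδ : 0 < δ) : ∃ B : ℕ, ∀ᶠ X : ℕ in atTop,
    ∀ N : ℕ, X ≤ N ^ 2 → N ≤ X ^ 2 → ∀ (r : ℕ) [NeZero r] (χ : DirichletCharacter ℂ r),
    (r : ℝ) ≤ Real.log X ^ A → ∀ α : ℕ → ℂ, (∀ n, ‖α n‖ ≤ 1) →
    ∀ y : ℕ, y ≤ 20 * N → ∀ (T : ℝ) (U : Set ℝ), Fr X δ T U →
    (∀ u ∈ U, Real.log X ^ B ≤ |u|) →
      MS T U (Hy (Ioc ⌊zz X⌋₊ y) (lp χ) α y) ≤ (N : ℝ) ^ 2 / Real.log X ^ A := by
  obtain ⟨B1, hB1⟩ := gamB (A + 1) hδ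
  obtain ⟨B2, hB2⟩ := gamA (A + 1) 0 hδ
  refine ⟨max B1 B2, ?_⟩
  filter_upwards [hB1, hB2, h24gam_log_ge 4]
    with X h1 h2 hl N hN1 hN2 r _ χ hr α hα y hy T U hU hlo
  have hl1 : 1 ≤ Real.log X := by linarith only [hl]
  have hr' : (r : ℝ) ≤ Real.log X ^ (A + 1) := hr.trans (pow_le_pow_right₀ hl1 (Nat.le_succ A))
  let lo : ℕ → ℂ := fun n => if n ≤ KK X then α n else 0
  let hi : ℕ → ℂ := fun n => if n ≤ KK X then 0 else α n
  have e : Hy (Ioc ⌊zz X⌋₊ y) (lp χ) α y = fun u =>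
      Hy (Ioc ⌊zz X⌋₊ y) (lp χ) lo y u + Hy (Ioc ⌊zz X⌋₊ y) (lp χ) hi y u := by
    funext u
    simp only [Hy, DP, ← sum_add_distrib, ← mul_add, lo, hi]
    refine sum_congr rfl fun n _ => congrArg _ (sum_congr rfl fun k _ => ?_)
    split_ifs <;> ring
  rw [e]
  refine (MS_add_le (trig_Hy _ _ _ _) (trig_Hy _ _ _ _) T U).trans
    (h24gam_four hl (by positivity)
      (h1 N hN1 hN2 r χ hr' lo (fun n => ?_) (fun n hn => if_neg (not_le.2 hn)) y hy T U hU
        fun u hu => (pow_le_pow_right₀ hl1 (le_max_left _ _)).trans (hlo u hu))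
      (h2 N hN1 hN2 r χ hr' hi (fun n => ?_) (fun n hn => if_pos hn) _ y le_rfl hy T U hU
        fun u hu => (pow_le_pow_right₀ hl1 (le_max_right _ _)).trans (hlo u hu)).2)
  · simp only [lo]
    split_ifs
    · exact hα n
    · simp
  · simp only [hi, pow_zero]
    split_ifs
    · simp
    · exact hα n

/-- The cofactor coefficients attached to a residue class of the prime. -/
noncomputable def h24gamAl (β : ℕ → ℂ) (w : ℕ → ℝ) (q a q0 e : ℕ) (k : ℕ) : ℂ :=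
  if e ≡ 1 [MOD q0] ∧ k * e ≡ a [MOD q] then conv β w k else 0

lemma h24gamAl_le {z : ℝ} {q0 : ℕ} {β : ℕ → ℂ} {w : ℕ → ℝ} (h : Dat z q0 β w) (q a e k : ℕ) :
    ‖h24gamAl β w q a q0 e k‖ ≤ 1 := by
  unfold h24gamAl
  split_ifs
  · rcases eq_or_ne k 0 with rfl | hk
    · rw [conv_nonpos β w (by simp)]; simp
    · rw [conv_eq h.β_supp (fun n hn => (h.w_supp n hn).1) hk, norm_mul, Complex.norm_real,
        Real.norm_eq_abs, abs_of_nonneg (h.w_nonneg _)]
      exact mul_le_one₀ (h.β_le _) (h.w_nonneg _) (h.w_le _)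
  · simp

lemma h24gamAl_val (β : ℕ → ℂ) (w : ℕ → ℝ) (q a q0 p : ℕ) :
    h24gamAl β w q a q0 (p % (q * q0)) = h24gamAl β w q a q0 p := by
  funext k
  have h1 : p % (q * q0) ≡ p [MOD q0] := (Nat.mod_modEq p _).of_mul_left q
  have h2 : k * (p % (q * q0)) ≡ k * p [MOD q] := ((Nat.mod_modEq p _).of_mul_right q0).mul_left k
  unfold h24gamAl
  refine if_congr (and_congr ⟨h1.symm.trans, h1.trans⟩ ⟨h2.symm.trans, h2.trans⟩) rfl rfl

lemma h24gam_first {z : ℝ} (hz : 0 ≤ z) (β : ℕ → ℂ) (w : ℕ → ℝ) (q a q0 y : ℕ) (u : ℝ) :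
    DP (cls q a y) (fun n => conv β (gam z q0 w) n) u =
      ∑ p ∈ Ioc ⌊z⌋₊ y, if p.Prime then
        (Real.log p : ℂ) * nit p u * DP (Icc 1 (y / p)) (h24gamAl β w q a q0 p) u else 0 := by
  have h1 := sum_conv_gam (z := z) (q0 := q0) β w y fun n => if n ≡ a [MOD q] then nit n u else 0
  have h2 : Ioc ⌊z⌋₊ y = (Icc 1 y).filter fun p : ℕ => z < p := by
    ext p
    simp only [mem_Ioc, mem_filter, mem_Icc, ← Nat.floor_lt hz]
    omega
  rw [DP, cls, sum_filter]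
  simp only [mul_ite, mul_zero] at h1
  rw [h1, h2, sum_filter, sum_filter]
  refine sum_congr rfl fun p hp => ?_
  have hp0 : p ≠ 0 := by have := mem_Icc.1 hp; omega
  by_cases h3 : z < p
  · by_cases h4 : p.Prime
    · by_cases h5 : p ≡ 1 [MOD q0]
      · simp only [h3, h4, h5, and_self, if_true, DP, h24gamAl, true_and, mul_sum]
        refine sum_congr rfl fun k hk => ?_
        have hk0 : k ≠ 0 := by have := mem_Icc.1 hk; omega
        split_ifs
        · rw [nit_mul hk0 hp0]; ring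
        · simp
      · simp [h5, DP, h24gamAl]
    · simp [h4]
  · simp [h3]

open Classical in
lemma h24gam_second {z0 r : ℕ} [NeZero r] (hr : r ≤ z0) (G : ℕ → ℕ → ℂ) (y : ℕ) (u : ℝ) :
    (∑ p ∈ Ioc z0 y, if p.Prime then
        (Real.log p : ℂ) * nit p u * DP (Icc 1 (y / p)) (G (p % r)) u else 0) =
      ∑ x ∈ (univ.filter fun e : ZMod r => IsUnit e) ×ˢ (univ : Finset (DirichletCharacter ℂ r)),
        (r.totient : ℂ)⁻¹ * x.2 x.1⁻¹ * Hy (Ioc z0 y) (lp x.2) (G x.1.val) y u := by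
  simp only [Hy, mul_sum]
  rw [sum_comm]
  refine sum_congr rfl fun p hp => ?_
  by_cases h : p.Prime
  · have hpr : r < p := hr.trans_lt (mem_Ioc.1 hp).1
    have hu : IsUnit (p : ZMod r) := (ZMod.isUnit_iff_coprime p r).2
      (Nat.coprime_of_lt_prime (NeZero.ne r) hpr h)
    have ht : (r.totient : ℂ) ≠ 0 := Nat.cast_ne_zero.2 (Nat.totient_pos.2 (NeZero.pos r)).ne'
    rw [if_pos h, sum_product, sum_eq_single_of_mem (p : ZMod r) (by simpa using hu)]
    · have h1 := DirichletCharacter.sum_char_inv_mul_char_eq ℂ hu (p : ZMod r)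
      rw [if_pos rfl] at h1
      calc _ = (r.totient : ℂ)⁻¹ * (∑ χ : DirichletCharacter ℂ r, χ (p : ZMod r)⁻¹ * χ p) *
            ((Real.log p : ℂ) * nit p u * DP (Icc 1 (y / p)) (G (p % r)) u) := by
            rw [h1, inv_mul_cancel₀ ht, one_mul]
        _ = _ := by
            rw [mul_sum, sum_mul]
            refine sum_congr rfl fun χ _ => ?_
            simp only [lp, if_pos h, ZMod.val_natCast]
            ring
    · intro e he hne
      have h1 := DirichletCharacter.sum_char_inv_mul_char_eq ℂ (mem_filter.1 he).2 (p : ZMod r)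
      rw [if_neg hne] at h1
      calc _ = (r.totient : ℂ)⁻¹ * (∑ χ : DirichletCharacter ℂ r, χ e⁻¹ * χ p) *
            ((Real.log p : ℂ) * nit p u * DP (Icc 1 (y / p)) (G e.val) u) := by
            rw [mul_sum, sum_mul]
            refine sum_congr rfl fun χ _ => ?_
            simp only [lp, if_pos h]
            ring
        _ = 0 := by rw [h1, mul_zero, zero_mul]
  · simp [h, lp]

theorem gam_MS (A q0 : ℕ) (hq0 : 1 ≤ q0) {δ : ℝ} (hδ : 0 < δ) : ∃ B : ℕ, ∀ᶠ X : ℕ in atTop,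
    ∀ N : ℕ, X ≤ N ^ 2 → N ≤ X ^ 2 → ∀ (β : ℕ → ℂ) (w : ℕ → ℝ), Dat (zz X) q0 β w →
    ∀ q a y : ℕ, 1 ≤ q → (q : ℝ) ≤ Real.log X ^ A → y ≤ 20 * N → ∀ (T : ℝ) (U : Set ℝ),
    Fr X δ T U → (∀ u ∈ U, Real.log X ^ B ≤ |u|) →
    MS T U (DP (cls q a y) fun n => conv β (gam (zz X) q0 w) n)
      ≤ (N : ℝ) ^ 2 / Real.log X ^ A := by
  classical
  obtain ⟨B, hB⟩ := gam_chi (5 * A + 4) hδ
  refine ⟨B, ?_⟩
  filter_upwards [hB, h24gam_log_ge 1, h24gam_log_ge q0, zz_big (A + 1)]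
    with X h1 hl hlq hz N hN1 hN2 β w hD q a y hq hqA hy T U hU hlo
  set l := Real.log X with hldef
  have hl0 : 0 < l := by linarith only [hl]
  have : NeZero (q * q0) := ⟨by positivity⟩
  have hr : ((q * q0 : ℕ) : ℝ) ≤ l ^ (A + 1) := by
    rw [Nat.cast_mul, pow_succ]
    exact mul_le_mul hqA hlq (by positivity) (by positivity)
  have hrz : q * q0 ≤ ⌊zz X⌋₊ := Nat.le_floor (hr.trans hz.1)
  set S := (univ.filter fun e : ZMod (q * q0) => IsUnit e) ×ˢ
    (univ : Finset (DirichletCharacter ℂ (q * q0))) with hS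
  have e : (DP (cls q a y) fun n => conv β (gam (zz X) q0 w) n) = fun u => ∑ x ∈ S,
      ((q * q0).totient : ℂ)⁻¹ * x.2 x.1⁻¹ *
        Hy (Ioc ⌊zz X⌋₊ y) (lp x.2) (h24gamAl β w q a q0 x.1.val) y u := by
    funext u
    rw [h24gam_first (z := zz X) (Real.exp_pos _).le, hS, ← h24gam_second hrz]
    simp only [h24gamAl_val]
  have hcard : (S.card : ℝ) ≤ l ^ (2 * A + 2) := by
    have h2 : (univ.filter fun e : ZMod (q * q0) => IsUnit e).card ≤ q * q0 :=
      (card_le_univ _).trans (ZMod.card _).le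
    have h3 : (univ : Finset (DirichletCharacter ℂ (q * q0))).card ≤ q * q0 := by
      rw [card_univ, ← Nat.card_eq_fintype_card,
        DirichletCharacter.card_eq_totient_of_hasEnoughRootsOfUnity]
      exact Nat.totient_le _
    have h4 : S.card ≤ (q * q0) * (q * q0) := by
      rw [hS, card_product]
      exact Nat.mul_le_mul h2 h3
    calc (S.card : ℝ) ≤ ((q * q0 : ℕ) : ℝ) * ((q * q0 : ℕ) : ℝ) := by exact_mod_cast h4
      _ ≤ l ^ (A + 1) * l ^ (A + 1) := by gcongr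
      _ = l ^ (2 * A + 2) := by ring
  have hone : ∀ x ∈ S, MS T U (fun u => ((q * q0).totient : ℂ)⁻¹ * x.2 x.1⁻¹ *
      Hy (Ioc ⌊zz X⌋₊ y) (lp x.2) (h24gamAl β w q a q0 x.1.val) y u)
        ≤ (N : ℝ) ^ 2 / l ^ (5 * A + 4) := fun x _ => by
    refine (MS_le_of_le ((Trig.const _).mul (trig_Hy _ _ _ _))
      (trig_Hy (Ioc ⌊zz X⌋₊ y) (lp x.2) (h24gamAl β w q a q0 x.1.val) y) T hU.meas (c := 1)
      fun u _ => ?_).trans ?_
    · rw [norm_mul]
      refine mul_le_mul_of_nonneg_right ?_ (norm_nonneg _)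
      rw [norm_mul, norm_inv, Complex.norm_natCast]
      refine mul_le_one₀ (inv_le_one_of_one_le₀ ?_) (norm_nonneg _) (x.2.norm_le_one _)
      exact_mod_cast Nat.totient_pos.2 (NeZero.pos _)
    · rw [one_pow, one_mul]
      exact h1 N hN1 hN2 _ x.2 (hr.trans (pow_le_pow_right₀ hl (by omega))) _
        (h24gamAl_le hD q a _) y hy T U hU hlo
  rw [e]
  refine (MS_sum_le (fun x _ => (Trig.const _).mul (trig_Hy _ _ _ _)) T U).trans ?_
  calc _ ≤ (S.card : ℝ) * ∑ _x ∈ S, (N : ℝ) ^ 2 / l ^ (5 * A + 4) :=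
        mul_le_mul_of_nonneg_left (sum_le_sum hone) (by positivity)
    _ = S.card * (S.card * ((N : ℝ) ^ 2 / l ^ (5 * A + 4))) := by rw [sum_const, nsmul_eq_mul]
    _ ≤ l ^ (2 * A + 2) * (l ^ (2 * A + 2) * ((N : ℝ) ^ 2 / l ^ (5 * A + 4))) := by gcongr
    _ = (N : ℝ) ^ 2 / l ^ A := by field_simp; ring

end Pool.Agent.Work.MP_678620_nt
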