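import Pool.Agent.Work.MP_678620_nt.MRSW2
import Pool.Agent.Work.MP_678620_nt.MRFlat
import Pool.Agent.Work.MP_678620_nt.MRGam

/-! The difference is small on sparse sets of frequencies. -/

set_option autoImplicit false
open Finset Filter MeasureTheory Pool.Agent.Lib.MR

namespace Pool.Agent.Work.MP_678620_nt

lemma MRKey_log_mono (j : ℕ) : Real.log j ≤ Real.log (j + 1 : ℕ) := by
  rcases Nat.eq_zero_or_pos j with rfl | hj
  · simp
  · exact Real.log_le_log (by exact_mod_cast hj) (by exact_mod_cast j.le_succ)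

lemma MRKey_nit_sub (j : ℕ) (u : ℝ) :
    ‖nit j u - nit (j + 1) u‖ ≤ |u| * (Real.log (j + 1 : ℕ) - Real.log j) := by
  have h1 : nit j u - nit (j + 1) u = -(nit j u * (Complex.exp (Complex.I *
      ((u * (Real.log (j + 1 : ℕ) - Real.log j) : ℝ) : ℂ)) - 1)) := by
    rw [mul_sub, nit, nit, ← Complex.exp_add, mul_one, neg_sub]
    congr 2
    push_cast
    ring
  rw [h1, norm_neg, norm_mul, norm_nit, one_mul]
  refine Real.norm_exp_I_mul_ofReal_sub_one_le.trans ?_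
  rw [Real.norm_eq_abs, abs_mul, abs_of_nonneg (sub_nonneg.2 (MRKey_log_mono j))]

lemma MRKey_filter_succ (S : Finset ℕ) (f : ℕ → ℂ) (j : ℕ) :
    ∑ n ∈ S.filter (· ≤ j + 1), f n =
      ∑ n ∈ S.filter (· ≤ j), f n + if j + 1 ∈ S then f (j + 1) else 0 := by
  rw [← sum_ite_eq' S (j + 1) f, sum_filter, sum_filter, ← sum_add_distrib]
  refine sum_congr rfl fun n _ => ?_
  by_cases h1 : n ≤ j
  · rw [if_pos h1, if_pos (by omega), if_neg (by omega), add_zero]
  · by_cases h2 : n = j + 1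
    · rw [if_neg h1, if_pos (by omega), if_pos h2, zero_add]
    · rw [if_neg h1, if_neg (by omega), if_neg h2, zero_add]

lemma DP_le_of_sums {S : Finset ℕ} {a : ℕ → ℂ} {y : ℕ} (hS : S ⊆ Icc 1 y) {B : ℝ}
    (h : ∀ j ≤ y, ‖∑ n ∈ S.filter (· ≤ j), a n‖ ≤ B) (u : ℝ) :
    ‖DP S a u‖ ≤ B * (1 + |u| * (1 + Real.log y)) := by
  have hB : 0 ≤ B := (norm_nonneg _).trans (h 0 (Nat.zero_le _))
  have h1 : ∀ j ≤ y, ‖DP (S.filter (· ≤ j)) a u - (∑ n ∈ S.filter (· ≤ j), a n) * nit j u‖ ≤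
      B * (|u| * Real.log j) := by
    intro j
    induction j with
    | zero =>
      intro _
      have h0 : S.filter (· ≤ 0) = ∅ := filter_eq_empty_iff.2 fun n hn => by
        have := (mem_Icc.1 (hS hn)).1
        omega
      rw [h0]
      simp [DP]
    | succ j ih =>
      intro hj
      have h2 : DP (S.filter (· ≤ j + 1)) a u -
          (∑ n ∈ S.filter (· ≤ j + 1), a n) * nit (j + 1) u =
          (DP (S.filter (· ≤ j)) a u - (∑ n ∈ S.filter (· ≤ j), a n) * nit j u) +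
            (∑ n ∈ S.filter (· ≤ j), a n) * (nit j u - nit (j + 1) u) := by
        rw [DP, DP, MRKey_filter_succ, MRKey_filter_succ]
        split_ifs <;> ring
      rw [h2]
      refine (norm_add_le _ _).trans ?_
      have h3 := ih (by omega)
      have h4 : ‖(∑ n ∈ S.filter (· ≤ j), a n) * (nit j u - nit (j + 1) u)‖ ≤
          B * (|u| * (Real.log (j + 1 : ℕ) - Real.log j)) := by
        rw [norm_mul]
        exact mul_le_mul (h j (by omega)) (MRKey_nit_sub j u) (norm_nonneg _) hB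
      linarith
  have h2 : S.filter (· ≤ y) = S := filter_true_of_mem fun n hn => (mem_Icc.1 (hS hn)).2
  have h3 := h1 y le_rfl
  have h4 := h y le_rfl
  rw [h2] at h3 h4
  have h5 := norm_le_insert' (DP S a u) ((∑ n ∈ S, a n) * nit y u)
  rw [norm_mul, norm_nit, mul_one] at h5
  have h6 : 0 ≤ B * |u| := by positivity
  linarith

lemma MRKey_cls (q a : ℕ) {y j : ℕ} (hj : j ≤ y) :
    (cls q a y).filter (· ≤ j) = (Icc 1 j).filter fun n => n ≡ a [MOD q] := by
  ext n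
  simp only [cls, mem_filter, mem_Icc]
  exact ⟨fun h => ⟨⟨h.1.1.1, h.2⟩, h.1.2⟩, fun h => ⟨⟨⟨h.1.1, h.1.2.trans hj⟩, h.2⟩, h.1.2⟩⟩

lemma MRKey_meas (T : ℝ) {U : Set ℝ} {L : ℝ} (hL : 0 ≤ L) (h : ∀ u ∈ U, |u| ≤ L) :
    (cm T).real U ≤ 2 * L := by
  have h1 : cm T U ≤ ENNReal.ofReal (2 * L) := by
    calc cm T U ≤ volume U := cm_le_volume T U
      _ ≤ volume (Set.Icc (-L) L) := measure_mono fun u hu => abs_le.1 (h u hu)
      _ = ENNReal.ofReal (2 * L) := by rw [Real.volume_Icc]; congr 1; ring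
  exact ENNReal.toReal_le_of_le_ofReal (by linarith) h1

lemma MRKey_small {l N y : ℝ} (A B : ℕ) (hl : 8 ≤ l) (hN : 0 ≤ N) (hy : y ≤ 3 * l) {u : ℝ}
    (hu0 : 0 ≤ u) (hu : u ≤ l ^ B) :
    N / l ^ (A + 2 * B + 3) * (1 + u * (1 + y)) ≤ N / l ^ (A + B + 1) := by
  have h0 : 0 < l := by linarith
  have h1 : 1 ≤ l ^ B := one_le_pow₀ (by linarith)
  have h2 : 1 + u * (1 + y) ≤ l ^ B * l ^ 2 := by
    have h3 : u * (1 + y) ≤ u * (1 + 3 * l) := mul_le_mul_of_nonneg_left (by linarith) hu0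
    have h4 : u * (1 + 3 * l) ≤ l ^ B * (1 + 3 * l) :=
      mul_le_mul_of_nonneg_right hu (by linarith)
    have h5 : l ^ B * (2 + 3 * l) ≤ l ^ B * l ^ 2 :=
      mul_le_mul_of_nonneg_left (by nlinarith only [hl]) (by linarith)
    linarith
  refine (mul_le_mul_of_nonneg_left h2 (by positivity)).trans (le_of_eq ?_)
  field_simp
  ring

lemma MRKey_fin {l N : ℝ} (A B : ℕ) (hl : 8 ≤ l) :
    (N / l ^ (A + B + 1)) ^ 2 * (2 * l ^ B) +
      (2 * (N ^ 2 / l ^ (A + 1)) + 2 * (N ^ 2 / l ^ (A + 1))) ≤ N ^ 2 / l ^ A := by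
  have h0 : 0 < l := by linarith
  have h1 : (N / l ^ (A + B + 1)) ^ 2 * (2 * l ^ B) =
      N ^ 2 / l ^ A * (2 / (l ^ (A + B + 1) * l)) := by
    field_simp
    ring
  have h2 : 2 * (N ^ 2 / l ^ (A + 1)) + 2 * (N ^ 2 / l ^ (A + 1)) = N ^ 2 / l ^ A * (4 / l) := by
    field_simp
    ring
  have h3 : 1 ≤ l ^ (A + B + 1) := one_le_pow₀ (by linarith)
  have h4 : 2 / (l ^ (A + B + 1) * l) ≤ 1 / 2 := by
    rw [div_le_iff₀ (by positivity)]
    nlinarith only [hl, h3]
  have h5 : 4 / l ≤ 1 / 2 := by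
    rw [div_le_iff₀ h0]
    linarith only [hl]
  rw [h1, h2, ← mul_add]
  exact mul_le_of_le_one_right (by positivity) (by linarith only [h4, h5])

theorem key (A q0 : ℕ) (hq0 : 1 ≤ q0) {δ : ℝ} (hδ : 0 < δ) : ∀ᶠ X : ℕ in atTop,
    ∀ N : ℕ, X ≤ N ^ 2 → N ≤ X ^ 2 → ∀ (β : ℕ → ℂ) (w : ℕ → ℝ), Dat (zz X) q0 β w →
    KeyP X N δ A fun n => conv β (gam (zz X) q0 w) n - conv β (flat (zz X) q0 w) n := by
  obtain ⟨B1, h1⟩ := gam_MS (A + 1) q0 hq0 hδ
  obtain ⟨B2, h2⟩ := flat_MS (A + 1) q0 hq0 hδ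
  have h3 := sw_dif (A + 2 * (B1 + B2) + 3) q0 hq0
  have h4 : ∀ᶠ X : ℕ in atTop, 8 ≤ Real.log X :=
    (Real.tendsto_log_atTop.comp tendsto_natCast_atTop_atTop).eventually_ge_atTop 8
  filter_upwards [h1, h2, h3, h4, eventually_ge_atTop 20] with X h1 h2 h3 hl hX
  intro N hN1 hN2 β w hD q a y hq hq' hy T U hU
  have hl1 : 1 ≤ Real.log X := by linarith only [hl]
  have hpow : ∀ {i j : ℕ}, i ≤ j → Real.log X ^ i ≤ Real.log X ^ j := fun h =>
    pow_le_pow_right₀ hl1 h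
  have hlog : Real.log y ≤ 3 * Real.log X := by
    rcases Nat.eq_zero_or_pos y with rfl | hy0
    · simp only [Nat.cast_zero, Real.log_zero]
      linarith only [hl]
    · have h5 : y ≤ X ^ 3 := by nlinarith only [hN2, hy, hX]
      have h6 : Real.log y ≤ Real.log ((X : ℝ) ^ 3) :=
        Real.log_le_log (by exact_mod_cast hy0) (by exact_mod_cast h5)
      rw [Real.log_pow] at h6
      exact_mod_cast h6
  obtain ⟨V, hV⟩ : ∃ V : Set ℝ, V = {u | Real.log X ^ (B1 + B2) ≤ |u|} := ⟨_, rfl⟩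
  have hVm : MeasurableSet V := by
    rw [hV]
    exact (isClosed_le continuous_const continuous_abs).measurableSet
  have hs : MS T (U \ V) (DP (cls q a y) fun n =>
      conv β (gam (zz X) q0 w) n - conv β (flat (zz X) q0 w) n) ≤
      (N / Real.log X ^ (A + (B1 + B2) + 1)) ^ 2 * (2 * Real.log X ^ (B1 + B2)) := by
    have h5 : ∀ u ∈ U \ V, |u| ≤ Real.log X ^ (B1 + B2) := fun u hu => by
      have := hu.2
      rw [hV] at this
      exact (not_le.1 this).le
    refine (MS_le_const (Trig.DP _ _) T (hU.meas.diff hVm)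
      (c := N / Real.log X ^ (A + (B1 + B2) + 1)) fun u hu => ?_).trans
      (mul_le_mul_of_nonneg_left (MRKey_meas T (by positivity) h5) (by positivity))
    refine (DP_le_of_sums (S := cls q a y) (y := y) (filter_subset _ _) (fun j hj => ?_) u).trans
      (MRKey_small A (B1 + B2) hl (Nat.cast_nonneg N) hlog (abs_nonneg u) (h5 u hu))
    rw [MRKey_cls q a hj]
    exact h3 N hN1 hN2 β w hD q a j hq (hq'.trans (hpow (by omega))) (hj.trans hy)
  have hF := hU.mono (hU.meas.inter hVm) Set.inter_subset_left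
  have h5 : ∀ u ∈ U ∩ V, Real.log X ^ (B1 + B2) ≤ |u| := fun u hu => by
    have := hu.2
    rwa [hV] at this
  have h6 := h1 N hN1 hN2 β w hD q a y hq (hq'.trans (hpow (by omega))) hy T _ hF
    fun u hu => (hpow (by omega)).trans (h5 u hu)
  have h7 := h2 N hN1 hN2 β w hD q a y hq (hq'.trans (hpow (by omega))) hy T _ hF
    fun u hu => (hpow (by omega)).trans (h5 u hu)
  have h8 : (DP (cls q a y) fun n => conv β (gam (zz X) q0 w) n - conv β (flat (zz X) q0 w) n) =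
      fun u => DP (cls q a y) (fun n => conv β (gam (zz X) q0 w) n) u +
        (-1) * DP (cls q a y) (fun n => conv β (flat (zz X) q0 w) n) u := by
    funext u
    simp only [DP, sub_mul, sum_sub_distrib]
    ring
  have h9 := MS_add_le (Trig.DP (cls q a y) fun n => conv β (gam (zz X) q0 w) n)
    ((Trig.const (-1)).mul (Trig.DP (cls q a y) fun n => conv β (flat (zz X) q0 w) n)) T (U ∩ V)
  have h10 : MS T (U ∩ V) (fun u =>
      (-1) * DP (cls q a y) (fun n => conv β (flat (zz X) q0 w) n) u) =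
      MS T (U ∩ V) (DP (cls q a y) fun n => conv β (flat (zz X) q0 w) n) := by
    simp [MS]
  rw [← h8, h10] at h9
  have h11 := MS_union_le (Trig.DP (cls q a y) fun n =>
    conv β (gam (zz X) q0 w) n - conv β (flat (zz X) q0 w) n) T (U \ V) (U ∩ V)
  rw [Set.sdiff_union_inter] at h11
  have h12 := MRKey_fin (N := N) A (B1 + B2) hl
  linarith only [hs, h6, h7, h9, h11, h12]

end Pool.Agent.Work.MP_678620_nt
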