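import Pool.Agent.Work.MP_678620_nt.MRRed2
import Pool.Agent.Work.MP_678620_nt.MRKey

/-! Short progressions for the difference of a function and its model. -/

set_option autoImplicit false
open Finset Filter

namespace Pool.Agent.Work.MP_678620_nt

theorem mr_dif (A B q0 : ℕ) (hq0 : 1 ≤ q0) {c0 : ℝ} (hc0 : 0 < c0) : ∀ᶠ X : ℕ in atTop,
    ∀ N : ℕ, X ≤ N ^ 2 → N ≤ X ^ 2 → ∀ (β : ℕ → ℂ) (w : ℕ → ℝ), Dat (zz X) q0 β w →
    ∀ h : ℤ, h ≠ 0 → |(h : ℝ)| ≤ Real.log X ^ A →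
    MRB N (fun n => conv β (gam (zz X) q0 w) n - conv β (flat (zz X) q0 w) n) h
      (Real.exp (Real.log X ^ c0)) (Real.exp (Real.log X ^ (1 / 4 : ℝ))) ⌊Real.log X ^ B⌋₊
      ⌊Real.exp √(Real.log X)⌋₊ (1 / Real.log X ^ (4 * B)) := by
  obtain ⟨A', h1⟩ := MRB_of_key A B hc0
  filter_upwards [h1, key A' q0 hq0 (half_pos hc0), conv_bound, eventually_ge_atTop 20] with
    X h1 h2 h3 h4 N hN1 hN2 β w hd h hh hA
  refine h1 N hN1 hN2 _ (fun n _ hn => (h3 q0 β w hd n (hn.trans ?_)).2.2) (h2 N hN1 hN2 β w hd)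
    h hh hA
  have a1 : (N : ℤ) ≤ (X : ℤ) ^ 2 := by exact_mod_cast hN2
  have a2 : (20 : ℤ) ≤ X := by exact_mod_cast h4
  nlinarith [sq_nonneg (X : ℤ)]

end Pool.Agent.Work.MP_678620_nt
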