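import Pool.Agent.Work.MP_678620_nt.SPFinal
import Pool.Agent.Work.MP_678620_nt.MRFinal

/-! Two-point correlations reduce to the local models. -/

set_option autoImplicit false
open Finset Filter

namespace Pool.Agent.Work.MP_678620_nt

lemma SPTwo_shift (T : ℤ → ℂ) (a b h : ℤ) {B : ℝ} (hB : 0 ≤ B)
    (hT : ∀ m, m ≤ max a b + |h| → ‖T m‖ ≤ B) :
    ‖∑ m ∈ Ioc (a + h) (b + h), T m - ∑ m ∈ Ioc a b, T m‖ ≤ 8 * |(h : ℝ)| * B := by
  have key : ∀ S : Finset ℤ, S ⊆ Ioc (a - |h|) (a + |h|) ∪ Ioc (b - |h|) (b + |h|) →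
      ‖∑ m ∈ S, T m‖ ≤ 4 * |(h : ℝ)| * B := fun S hS => by
    have h1 : ‖∑ m ∈ S, T m‖ ≤ S.card * B := by
      refine (norm_sum_le _ _).trans ?_
      rw [← nsmul_eq_mul]
      refine sum_le_card_nsmul _ _ _ fun m hm => hT m ?_
      have := hS hm
      simp only [mem_union, mem_Ioc] at this
      omega
    have h2 : (S.card : ℤ) ≤ 4 * |h| := by
      have := (card_le_card hS).trans (card_union_le _ _)
      rw [Int.card_Ioc, Int.card_Ioc] at this
      have := abs_nonneg h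
      omega
    have h3 : (S.card : ℝ) ≤ 4 * |(h : ℝ)| := by exact_mod_cast h2
    exact h1.trans (mul_le_mul_of_nonneg_right h3 hB)
  have h1 := le_abs_self h
  have h2 := neg_abs_le h
  rw [← sum_sdiff_sub_sum_sdiff]
  refine (norm_sub_le _ _).trans ((add_le_add (key _ fun m hm => ?_) (key _ fun m hm => ?_)).trans
    (by linarith)) <;> simp only [Finset.mem_sdiff, mem_union, mem_Ioc] at hm ⊢ <;> omega

lemma SPTwo_log : ∀ᶠ X : ℕ in atTop, (3 : ℝ) ≤ Real.log X :=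
  (Real.tendsto_log_atTop.comp tendsto_natCast_atTop_atTop).eventually_ge_atTop 3

lemma SPTwo_pow (m : ℕ) : ∀ᶠ X : ℕ in atTop, 576 * Real.log X ^ m ≤ X := by
  have := (Real.isLittleO_pow_log_id_atTop (n := m)).bound (c := 1 / 576) (by norm_num)
  filter_upwards [tendsto_natCast_atTop_atTop.eventually this] with X h
  simp only [id, Real.norm_eq_abs, Nat.abs_cast] at h
  linarith [le_abs_self (Real.log X ^ m)]

lemma SPTwo_small {X : ℕ} {c0 : ℝ} {E : Finset ℕ} (hE : Eok X c0 E) (hl : 3 ≤ Real.log X) :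
    ∀ p ∈ E, p.Prime ∧ (p : ℝ) ≤ zz X := fun p hp =>
  ⟨hE.prime p hp, (hE.hi p hp).trans (Real.exp_le_exp.2
    (Real.rpow_le_rpow_of_exponent_le (by linarith) (by norm_num)))⟩

lemma SPTwo_half (A q0 : ℕ) (hq0 : 1 ≤ q0) {c0 : ℝ} (hc0 : 0 < c0) : ∃ k0 : ℕ,
    ∀ᶠ X : ℕ in atTop,
    ∀ N : ℕ, X ≤ N ^ 2 → N ≤ X ^ 2 → ∀ E : Finset ℕ, Eok X c0 E → ∀ k k' : ℕ, k0 ≤ k → k0 ≤ k' →
    (k : ℝ) ≤ A * Real.log (Real.log X) → (k' : ℝ) ≤ A * Real.log (Real.log X) →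
    ∀ (h c : ℤ) (M0 : ℕ), h ≠ 0 → |(h : ℝ)| ≤ Real.log X ^ A → 1 ≤ M0 →
    (M0 : ℝ) ≤ Real.log X ^ A → ∀ F : ℤ → ℂ, (∀ n : ℤ, n ≤ (X : ℤ) ^ 3 → ‖F n‖ ≤ Real.log X ^ 3) →
    (∀ p ∈ E, ∀ n : ℤ, F (p * n) = F n) → ∀ (β : ℕ → ℂ) (w : ℕ → ℝ), Dat (zz X) q0 β w →
    (∀ p ∈ E, ∀ n, β (p * n) = β n) →
    ‖∑ n ∈ Ioc (N : ℤ) (2 * N), (if wE E n = k ∧ n ≡ c [ZMOD M0] then F n else 0) *
        (if wE E (n + h) = k' then
          conv β (gam (zz X) q0 w) (n + h) - conv β (flat (zz X) q0 w) (n + h) else 0)‖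
      ≤ N / Real.log X ^ (A + 1) := by
  obtain ⟨k0, B, H⟩ := sparse_core (A + 7) hc0
  refine ⟨k0, ?_⟩
  filter_upwards [H, mr_dif (A + 7) B q0 hq0 hc0, conv_bound, SPTwo_log] with X H1 H2 H3 hl
    N hN1 hN2 E hE k k' hk hk' hkA hkA' h c M0 hh hhA hM hMA F hF hFp β w hd hβ
  have hs := SPTwo_small hE hl
  have l0 : 0 < Real.log X := by linarith only [hl]
  have ll : 0 ≤ Real.log (Real.log X) := Real.log_nonneg (by linarith)
  have pw : Real.log X ^ A ≤ Real.log X ^ (A + 7) := pow_le_pow_right₀ (by linarith) (by omega)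
  have kk : ∀ j : ℕ, (j : ℝ) ≤ A * Real.log (Real.log X) →
      (j : ℝ) ≤ (A + 7 : ℕ) * Real.log (Real.log X) := fun j hj => by
    push_cast
    nlinarith only [ll, hj]
  obtain ⟨t, ht⟩ : ∃ t : ℂ, t = ((Real.log X ^ 3)⁻¹ : ℝ) := ⟨_, rfl⟩
  have tn : ‖t‖ = (Real.log X ^ 3)⁻¹ := by
    rw [ht, Complex.norm_real, Real.norm_of_nonneg (by positivity)]
  have sc : ∀ u : ℂ, ‖u‖ ≤ Real.log X ^ 3 → ‖t * u‖ ≤ 1 := fun u hu => by
    rw [norm_mul, tn, inv_mul_le_iff₀ (by positivity), mul_one]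
    exact hu
  have hd' : Dat (zz X) q0 (fun b => if wE E b = k' then β b else 0) w :=
    ⟨fun n => by
      split_ifs
      · exact hd.β_le n
      · simp, fun n hn => hd.β_supp n fun e => hn (by simp [e]), hd.w_nonneg, hd.w_le, hd.w_supp⟩
  have g1 : ∀ n, gam (zz X) q0 w n ≠ 0 → Rou (zz X) n := fun n hn => (gam_supp hd n hn).1
  have g2 : ∀ n, flat (zz X) q0 w n ≠ 0 → Rou (zz X) n := fun n hn => (flat_supp n hn).1
  have mr := (H2 N hN1 hN2 _ w hd' h hh (hhA.trans pw)).smul (t := t)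
    (by simpa using sc 1 (by simpa using one_le_pow₀ (by linarith only [hl])))
  have main := H1 N hN1 hN2 E hE k k' hk hk' (kk k hkA) (kk k' hkA') h c M0 hh (hhA.trans pw) hM
    (hMA.trans pw) (fun n => t * F n)
    (fun n => t * (conv β (gam (zz X) q0 w) n - conv β (flat (zz X) q0 w) n))
    (fun n _ hn => sc _ (hF n hn)) (fun n _ hn => sc _ (H3 q0 β w hd n hn).2.2)
    (fun p hp n => by simp only [hFp p hp n])
    (fun p hp n => by
      simp only [conv_mul hd.β_supp g1 (hs p hp).1 (hs p hp).2 (hβ p hp) n,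
        conv_mul hd.β_supp g2 (hs p hp).1 (hs p hp).2 (hβ p hp) n])
    (by
      convert mr using 2 with n
      rw [← conv_wE hd.β_supp g1 hs, ← conv_wE hd.β_supp g2 hs]
      split_ifs <;> simp)
  have e : ∀ n : ℤ, (if wE E n = k ∧ n ≡ c [ZMOD M0] then t * F n else 0) *
      (if wE E (n + h) = k' then
        t * (conv β (gam (zz X) q0 w) (n + h) - conv β (flat (zz X) q0 w) (n + h)) else 0) =
      t * t * ((if wE E n = k ∧ n ≡ c [ZMOD M0] then F n else 0) * (if wE E (n + h) = k' then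
        conv β (gam (zz X) q0 w) (n + h) - conv β (flat (zz X) q0 w) (n + h) else 0)) := fun n => by
    split_ifs <;> ring
  simp only [e] at main
  rw [← mul_sum, norm_mul, norm_mul, tn, ← mul_inv, inv_mul_le_iff₀ (by positivity)] at main
  refine main.trans (le_of_eq ?_)
  field_simp
  ring

theorem two_point (A q0 : ℕ) (hq0 : 1 ≤ q0) {c0 : ℝ} (hc0 : 0 < c0) : ∃ k0 : ℕ, ∀ᶠ X : ℕ in atTop,
    ∀ N : ℕ, X ≤ N ^ 2 → N ≤ X ^ 2 → ∀ E : Finset ℕ, Eok X c0 E → ∀ k k' : ℕ, k0 ≤ k → k0 ≤ k' →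
    (k : ℝ) ≤ A * Real.log (Real.log X) → (k' : ℝ) ≤ A * Real.log (Real.log X) →
    ∀ (h c : ℤ) (M0 : ℕ), h ≠ 0 → |(h : ℝ)| ≤ Real.log X ^ A → 1 ≤ M0 →
    (M0 : ℝ) ≤ Real.log X ^ A → ∀ (β β' : ℕ → ℂ) (w w' : ℕ → ℝ), Dat (zz X) q0 β w →
    Dat (zz X) q0 β' w' → (∀ p ∈ E, ∀ n, β (p * n) = β n) → (∀ p ∈ E, ∀ n, β' (p * n) = β' n) →
    ‖∑ n ∈ Ioc (N : ℤ) (2 * N), if wE E n = k ∧ wE E (n + h) = k' ∧ n ≡ c [ZMOD M0] then
        conv β (gam (zz X) q0 w) n * conv β' (gam (zz X) q0 w') (n + h)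
          - conv β (flat (zz X) q0 w) n * conv β' (flat (zz X) q0 w') (n + h) else 0‖
      ≤ N / Real.log X ^ A := by
  obtain ⟨k0, H⟩ := SPTwo_half A q0 hq0 hc0
  refine ⟨k0, ?_⟩
  filter_upwards [H, conv_bound, SPTwo_log, SPTwo_pow (2 * (2 * A + 6)), eventually_ge_atTop 4]
    with X H1 H3 hl hp hX N hN1 hN2 E hE k k' hk hk' hkA hkA' h c M0 hh hhA hM hMA β β' w w' hd hd'
    hβ hβ'
  have hs := SPTwo_small hE hl
  have l0 : 0 < Real.log X := by linarith only [hl]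
  have b1 := H1 N hN1 hN2 E hE k k' hk hk' hkA hkA' h c M0 hh hhA hM hMA (conv β (gam (zz X) q0 w))
    (fun n hn => (H3 q0 β w hd n hn).1) (fun p hp n => conv_mul hd.β_supp
      (fun n hn => (gam_supp hd n hn).1) (hs p hp).1 (hs p hp).2 (hβ p hp) n) β' w' hd' hβ'
  have b2 := H1 N hN1 hN2 E hE k' k hk' hk hkA' hkA (-h) (c + h) M0 (neg_ne_zero.2 hh)
    (by simpa using hhA) hM hMA (conv β' (flat (zz X) q0 w'))
    (fun n hn => (H3 q0 β' w' hd' n hn).2.1) (fun p hp n => conv_mul hd'.β_supp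
      (fun n hn => (flat_supp n hn).1) (hs p hp).1 (hs p hp).2 (hβ' p hp) n) β w hd hβ
  have hN : 24 * Real.log X ^ (2 * A + 6) ≤ N := by
    refine le_of_sq_le_sq ?_ (by positivity)
    have : (X : ℝ) ≤ (N : ℝ) ^ 2 := by exact_mod_cast hN1
    rw [mul_pow, ← pow_mul, mul_comm (2 * A + 6)]
    linarith only [hp, this]
  have hhN : |h| ≤ N := by
    have : Real.log X ^ A ≤ Real.log X ^ (2 * A + 6) := pow_le_pow_right₀ (by linarith only [hl]) (by omega)
    have h0 : 0 ≤ Real.log X ^ A := by positivity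
    have : |(h : ℝ)| ≤ N := by linarith only [hhA, hN, this]
    exact_mod_cast this
  have hX3 : 4 * (N : ℤ) ≤ (X : ℤ) ^ 3 := by
    have a1 : (N : ℤ) ≤ (X : ℤ) ^ 2 := by exact_mod_cast hN2
    have a2 : (4 : ℤ) ≤ X := by exact_mod_cast hX
    nlinarith only [hN2, hX, sq_nonneg (X : ℤ)]
  have b3 := SPTwo_shift (fun m => (if wE E m = k' ∧ m ≡ c + h [ZMOD M0] then
      conv β' (flat (zz X) q0 w') m else 0) * (if wE E (m + -h) = k then
      conv β (gam (zz X) q0 w) (m + -h) - conv β (flat (zz X) q0 w) (m + -h) else 0))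
    N (2 * N) h (B := Real.log X ^ 3 * Real.log X ^ 3) (by positivity) fun m hm => by
      have := neg_abs_le h
      have := abs_nonneg h
      rw [norm_mul]
      refine mul_le_mul ?_ ?_ (norm_nonneg _) (by positivity) <;> split_ifs
      · exact (H3 q0 β' w' hd' m (by omega)).2.1
      · simpa using by positivity
      · exact (H3 q0 β w hd _ (by omega)).2.2
      · simpa using by positivity
  rw [← map_add_right_Ioc, sum_map] at b3
  have md : ∀ n : ℤ, n + h ≡ c + h [ZMOD M0] ↔ n ≡ c [ZMOD M0] := fun n =>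
    ⟨Int.ModEq.add_right_cancel' h, Int.ModEq.add_right h⟩
  simp only [addRightEmbedding_apply, add_neg_cancel_right, md] at b3
  have fin : N / Real.log X ^ (A + 1) + (8 * |(h : ℝ)| * (Real.log X ^ 3 * Real.log X ^ 3) +
      N / Real.log X ^ (A + 1)) ≤ N / Real.log X ^ A := by
    have c1 : N / Real.log X ^ (A + 1) ≤ N / Real.log X ^ A / 3 := by
      rw [pow_succ, ← div_div]
      gcongr
    have c2 : 8 * |(h : ℝ)| * (Real.log X ^ 3 * Real.log X ^ 3) ≤ N / Real.log X ^ A / 3 := by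
      rw [div_div, le_div_iff₀ (by positivity)]
      calc _ ≤ 8 * Real.log X ^ A * (Real.log X ^ 3 * Real.log X ^ 3) * (Real.log X ^ A * 3) := by
            gcongr
        _ = 24 * Real.log X ^ (2 * A + 6) := by ring
        _ ≤ N := hN
    linarith only [c1, c2]
  refine le_trans (le_of_eq (congrArg norm ?_)) (((norm_add_le _ _).trans (add_le_add b1
    ((norm_add_le _ _).trans (add_le_add b3 b2)))).trans fin)
  rw [sub_add_cancel, ← sum_add_distrib]
  refine sum_congr rfl fun n _ => ?_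
  by_cases u : wE E n = k <;> by_cases v : wE E (n + h) = k' <;>
    by_cases r : n ≡ c [ZMOD M0] <;> simp [u, v, r]
  ring

end Pool.Agent.Work.MP_678620_nt
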