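import Pool.Agent.Work.MP_678620_nt.SPConv
import Pool.Agent.Lib.MR.PrimeHM
import Pool.Agent.Lib.MR.Moment

/-! Definitions for the mean square estimates. -/

set_option autoImplicit false
open Finset Filter MeasureTheory Pool.Agent.Lib.MR

namespace Pool.Agent.Work.MP_678620_nt

/-- Sparse sets of frequencies. -/
structure Fr (X : ℕ) (δ T : ℝ) (U : Set ℝ) : Prop where
  meas : MeasurableSet U
  hi : ∀ u ∈ U, |u| ≤ (X : ℝ) ^ 3
  small : (cm T).real U ≤ Real.exp (Real.log X ^ (1 - δ))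

/-- The large values inequality on `U` for all lengths from `K1` on. -/
def HMok (T : ℝ) (U : Set ℝ) (K1 : ℕ) (C : ℝ) : Prop :=
  ∀ M : ℕ, K1 ≤ M → ∀ S : Finset ℕ, S ⊆ Icc 1 M → ∀ a : ℕ → ℂ,
    MS T U (DP S a) ≤ C * M * ∑ n ∈ S, ‖a n‖ ^ 2

/-- A residue class up to `y`. -/
def cls (q a y : ℕ) : Finset ℕ := (Icc 1 y).filter fun n => n ≡ a [MOD q]

/-- The polynomials of `c` are small in mean square on sparse sets. -/
def KeyP (X N : ℕ) (δ : ℝ) (A : ℕ) (c : ℤ → ℂ) : Prop :=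
  ∀ q a y : ℕ, 1 ≤ q → (q : ℝ) ≤ Real.log X ^ A → y ≤ 20 * N → ∀ (T : ℝ) (U : Set ℝ),
    Fr X δ T U → MS T U (DP (cls q a y) fun n => c n) ≤ (N : ℝ) ^ 2 / Real.log X ^ A

/-- The cut-off. -/
noncomputable def KK (X : ℕ) : ℕ := ⌊(X : ℝ) ^ (1 / 40 : ℝ)⌋₊

/-- A sum under the hyperbola. -/
noncomputable def Hy (S : Finset ℕ) (lam a : ℕ → ℂ) (y : ℕ) (u : ℝ) : ℂ :=
  ∑ n ∈ S, lam n * nit n u * DP (Icc 1 (y / n)) a u

lemma trig_Hy (S : Finset ℕ) (lam a : ℕ → ℂ) (y : ℕ) : Trig (Hy S lam a y) :=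
  Trig.sum fun n _ => ((Trig.const _).mul (Trig.nit n)).mul (Trig.DP _ _)

lemma Fr.mono {X : ℕ} {δ T : ℝ} {U V : Set ℝ} (h : Fr X δ T U) (hV : MeasurableSet V)
    (hVU : V ⊆ U) : Fr X δ T V :=
  ⟨hV, fun u hu => h.hi u (hVU hu), (measureReal_mono hVU).trans h.small⟩

end Pool.Agent.Work.MP_678620_nt
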