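import Pool.Agent.Lib.ANT.Perron

/-! Perron's formula with a contour shift for a general Dirichlet series. -/

set_option autoImplicit false

namespace Pool.Agent.Work.MP_678620_nt

open Finset Complex Filter Topology MeasureTheory Pool.Agent.Lib.ANT

namespace VK

/-- Cesàro means of a sequence whose Dirichlet series continues to a rectangle. -/
theorem cesaro_gen (cf : ℕ → ℂ) (FF : ℂ → ℂ) (ha0 : cf 0 = 0)
    (hsum : ∀ s : ℂ, 1 < s.re → LSeriesSummable cf s)
    (hFF : ∀ s : ℂ, 1 < s.re → LSeries cf s = FF s ∧ ContinuousAt FF s)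
    (hcf : ∀ ε : ℝ, 0 < ε → ∀ s : ℂ, s.re = 1 + 2 * ε → ‖LSeries cf s‖ ≤ (1 + 1 / ε) / ε)
    {δ B T : ℝ} (hδ0 : 0 < δ) (hδ4 : δ ≤ 1 / 4) (hT : 1 ≤ T) (hB : 0 ≤ B)
    (hR : ∀ s : ℂ, |s.re - 1| ≤ δ → |s.im| ≤ T → DifferentiableAt ℂ FF s ∧ ‖FF s‖ ≤ B)
    {y : ℝ} (hy : 0 < y) (hyM : 1 / δ ≤ Real.log y) {K : ℕ} (hK : y ≤ K) :
    ‖∑ n ∈ range K, cf n * ((max (1 - n / y) 0 : ℝ) : ℂ)‖
      ≤ y * (T * B * y ^ (-δ) + B / T ^ 2 + 6 * Real.log y ^ 2 / T) := by
  set l := Real.log y with hl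
  have hl1 : 1 ≤ l := by
    have : 4 ≤ 1 / δ := by rw [le_div_iff₀ hδ0]; linarith
    linarith
  set c : ℝ := 1 + 1 / l with hc
  have hlδ : 1 / l ≤ δ := (one_div_le hδ0 (by linarith)).1 hyM
  have hc1 : 1 < c := by
    have : 0 < 1 / l := by positivity
    linarith
  have hy1 : 1 ≤ y := by
    by_contra h; linarith [Real.log_nonpos hy.le (not_le.1 h).le]
  have hyc : y ^ c ≤ 3 * y := by
    rw [hc, Real.rpow_add hy, Real.rpow_one, mul_comm]
    refine mul_le_mul_of_nonneg_right ?_ hy.le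
    rw [Real.rpow_def_of_pos hy, ← hl, mul_one_div_cancel (by linarith)]
    linarith [Real.exp_one_lt_d9]
  have hy' : (y : ℂ) ≠ 0 := by exact_mod_cast hy.ne'
  set G : ℂ → ℂ := fun s => FF s * ((y : ℂ) ^ s * (1 / (s * (s + 1)))) with hG
  have hGe : ∀ t : ℝ, LSeries cf (c + t * I) = FF (c + t * I) := fun t =>
    (hFF _ (by simpa using hc1)).1
  have hP := perron (a := cf) ha0 hc1.le (hsum _ (by simpa using hc1)) hy
  simp_rw [hGe] at hP
  have hP2 := hP.unique (hasSum_sum_of_ne_finset_zero (s := range K) fun n hn => by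
    clear * - K n hn y hy hK cf
    have : (K : ℝ) ≤ n := by exact_mod_cast not_lt.1 (mem_range.not.1 hn)
    have : 1 ≤ n / y := by rw [le_div_iff₀ hy]; linarith
    rw [max_eq_right (by linarith)]; simp)
  rw [← mul_sum] at hP2
  have hS : ∀ t : ℝ, ‖FF (c + t * I)‖ ≤ 6 * l ^ 2 := by
    clear * - FF c l cf hGe hcf hl1 hc
    intro t
    rw [← hGe]
    refine (hcf (1 / (2 * l)) (by positivity) _ ?_).trans ?_
    · simp only [add_re, ofReal_re, mul_re, I_re, mul_zero, ofReal_im, I_im, mul_one, sub_self,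
        add_zero, hc]; field_simp
    · rw [one_div_one_div, div_div_eq_mul_div, div_one]; nlinarith
  have hGc : ∀ t : ℝ, ‖G (c + t * I)‖ ≤ 18 * y * l ^ 2 * (1 + t ^ 2)⁻¹ := fun t => by
    clear * - G c t y l FF hG hy hS hyc hc1 hl1
    rw [hG, norm_mul, norm_mul, norm_cpow_eq_rpow_re_of_pos hy,
      show (c + t * I : ℂ).re = c by simp]
    calc _ ≤ 6 * l ^ 2 * (3 * y * (1 + t ^ 2)⁻¹) := by
          gcongr
          · exact hS t
          · exact norm_kernel_le hc1.le t
      _ = _ := by ring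
  have hGi : Integrable fun t : ℝ => G (c + t * I) := by
    clear * - G c y l FF cf hFF hc1 hy' δ hδ0 hδ4 hGc
    refine (integrable_inv_one_add_sq.const_mul _).mono' (Continuous.aestronglyMeasurable ?_)
      (Eventually.of_forall hGc)
    have h0 : Continuous fun t : ℝ => (c + t * I : ℂ) := by fun_prop
    have hF : Continuous fun t : ℝ => FF (c + t * I) := continuous_iff_continuousAt.2 fun t =>
      (hFF _ (by simpa using hc1)).2.comp
        (f := fun t : ℝ => (c + t * I : ℂ)) h0.continuousAt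
    exact hF.mul ((h0.const_cpow (Or.inl hy')).mul (continuous_const.div (by fun_prop)
        (kernel_ne_zero (by linarith))))
  have h1 := norm_integral_sub_le hGi (C := 18 * y * l ^ 2) (T := T) (by linarith) fun t ht =>
    (hGc t).trans (by
      clear * - t δ T hδ0 hδ4 hT ht y l hy hl1
      have : 0 < |t| := by linarith
      have : 0 < t ^ 2 := by rw [← sq_abs]; positivity
      gcongr; linarith)
  have hR' : ∀ s : ℂ, 1 - δ ≤ s.re → s.re ≤ c → |s.im| ≤ T →
      DifferentiableAt ℂ FF s ∧ ‖FF s‖ ≤ B := fun s a1 a2 a3 =>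
    hR s (by rw [abs_le]; constructor <;> linarith) a3
  have hne : ∀ s : ℂ, 1 - δ ≤ s.re → s * (s + 1) ≠ 0 := fun s hs => by
    clear * - s δ hδ0 hδ4 hs
    refine mul_ne_zero (fun h => ?_) (fun h => ?_) <;> have := congrArg re h <;> simp at this <;>
      linarith
  have hC := integral_boundary_rect_eq_zero_of_differentiableOn G ⟨1 - δ, -T⟩ ⟨c, T⟩ (by
    clear * - δ T c G hδ0 hδ4 hT l hc1 FF y B hR' hy' hne
    intro s hs
    rw [mem_reProdIm, Set.uIcc_of_le (by simp; linarith), Set.uIcc_of_le (by simp; linarith)] at hs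
    obtain ⟨⟨a1, a2⟩, a3⟩ := hs
    refine DifferentiableAt.differentiableWithinAt ?_
    exact (hR' s a1 a2 (abs_le.2 a3)).1.mul
      ((differentiableAt_id.const_cpow (Or.inl hy')).mul
        ((differentiableAt_const _).div (by fun_prop) (hne s a1))))
  simp only at hC
  have hH : ∀ u : ℝ, |u| = T → ‖∫ x : ℝ in (1 - δ)..c, G (x + u * I)‖ ≤ 3 * (y * (B / T ^ 2)) := by
    clear * - T G δ c B y FF hG hy hR' l hδ0 hc1 hy1 hyc hT hB hδ4 hlδ
    intro u hu
    refine (intervalIntegral.norm_integral_le_of_norm_le_const (C := B * (3 * y * (1 / T ^ 2)))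
      fun x hx => ?_).trans ?_
    · rw [Set.uIoc_of_le (by linarith)] at hx
      rw [hG, norm_mul, norm_mul, norm_cpow_eq_rpow_re_of_pos hy,
        show (x + u * I : ℂ).re = x by simp]
      gcongr
      · exact (hR' _ (by simpa using hx.1.le) (by simpa using hx.2) (by simpa using hu.le)).2
      · exact (Real.rpow_le_rpow_of_exponent_le hy1 hx.2).trans hyc
      · rw [norm_div, norm_one, norm_mul]
        have a1 := abs_im_le_norm (x + u * I : ℂ)
        have a2 := abs_im_le_norm (x + u * I + 1 : ℂ)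
        simp only [add_im, ofReal_im, mul_im, ofReal_re, I_im, mul_one, I_re, mul_zero, add_zero,
          zero_add, one_im, hu] at a1 a2
        rw [sq]; gcongr
    · rw [abs_of_nonneg (by linarith)]
      calc _ ≤ B * (3 * y * (1 / T ^ 2)) * 1 := by gcongr; linarith
        _ = _ := by ring
  have hV : ‖∫ t : ℝ in (-T)..T, G ((1 - δ : ℝ) + t * I)‖ ≤ B * (y * y ^ (-δ)) * (2 * T) := by
    clear * - G δ T B y FF hG hy hR' c l hδ0 hc1 hδ4 hT hB
    refine (intervalIntegral.norm_integral_le_of_norm_le_const (C := B * (y * y ^ (-δ) * 1))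
      fun t ht => ?_).trans ?_
    · rw [Set.uIoc_of_le (by linarith)] at ht
      rw [hG, norm_mul, norm_mul, norm_cpow_eq_rpow_re_of_pos hy,
        show ((1 - δ : ℝ) + t * I : ℂ).re = 1 + -δ by simp; ring, Real.rpow_add hy, Real.rpow_one]
      gcongr
      · exact (hR' _ (by simp) (by simp; linarith) (by simpa using abs_le.2 ⟨ht.1.le, ht.2⟩)).2
      · rw [norm_div, norm_one, norm_mul]
        have a1 := re_le_norm ((1 - δ : ℝ) + t * I : ℂ)
        have a2 := re_le_norm ((1 - δ : ℝ) + t * I + 1 : ℂ)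
        simp only [add_re, ofReal_re, mul_re, I_re, mul_zero, ofReal_im, I_im, mul_one, sub_self,
          add_zero, one_re] at a1 a2
        rw [div_le_one (by nlinarith)]
        nlinarith
    · rw [abs_of_nonneg (by linarith)]; apply le_of_eq; ring
  have h2 : ‖∫ t : ℝ in (-T)..T, G (c + t * I)‖
      ≤ B * (y * y ^ (-δ)) * (2 * T) + 2 * (3 * (y * (B / T ^ 2))) := by
    clear * - G c T δ hC y B hH hδ0 hδ4 hT hV
    have e : I • ∫ t : ℝ in (-T)..T, G (c + t * I) = I • (∫ t : ℝ in (-T)..T, G ((1 - δ : ℝ) + t * I))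
        + ((∫ x : ℝ in (1 - δ)..c, G (x + T * I)) - ∫ x : ℝ in (1 - δ)..c, G (x + (-T : ℝ) * I)) := by
      linear_combination hC
    have a1 := hH T (abs_of_nonneg (by linarith))
    have a2 := hH (-T) (by rw [abs_neg, abs_of_nonneg (by linarith)])
    have a3 := congrArg norm e
    rw [norm_smul, norm_I, one_mul] at a3
    rw [a3]
    refine (norm_add_le _ _).trans (add_le_add ?_ ((norm_sub_le _ _).trans (by linarith)))
    rwa [norm_smul, norm_I, one_mul]
  have h3 := congrArg norm hP2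
  rw [norm_mul] at h3
  have h4 : ‖(2 * Real.pi : ℂ)‖ = 2 * Real.pi := by
    rw [norm_mul, norm_real, Real.norm_of_nonneg Real.pi_pos.le]; simp
  have h5 : 6 * ‖∑ n ∈ range K, cf n * ((max (1 - n / y) 0 : ℝ) : ℂ)‖
      ≤ ‖∫ t : ℝ, G (c + t * I)‖ := by
    clear * - K cf y G c FF h3 h4
    rw [h3, h4]; gcongr; linarith [Real.pi_gt_three]
  have h6 : 0 ≤ y * (T * B * y ^ (-δ)) := by positivity
  have e1 : B * (y * y ^ (-δ)) * (2 * T) = 2 * (y * (T * B * y ^ (-δ))) := by ring
  have e3 : 2 * (18 * y * l ^ 2) / T = 6 * (y * (6 * l ^ 2 / T)) := by ring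
  rw [mul_add, mul_add]
  clear * - K cf y T B δ l G c h1 h2 h5 h6 e3
  linarith

end VK

end Pool.Agent.Work.MP_678620_nt
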