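import Pool.Agent.Work.MP_678620_nt.VKLandau
import Pool.Agent.Lib.MR.Lbound

/-! From an upper bound for `L`-functions to a zero-free region. -/

set_option autoImplicit false

namespace Pool.Agent.Work.MP_678620_nt

open Finset Filter Topology Complex Metric ArithmeticFunction Pool.Agent.Lib.MR

namespace VK

lemma list_re (g : ℂ → ℂ) (Z : List ℂ) (h : ∀ ρ ∈ Z, 0 ≤ (g ρ).re) :
    0 ≤ (Z.map g).sum.re ∧ ∀ ρ ∈ Z, (g ρ).re ≤ (Z.map g).sum.re := by
  induction Z with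
  | nil => simp
  | cons a Z ih =>
    obtain ⟨i1, i2⟩ := ih fun ρ hρ => h ρ (List.mem_cons_of_mem _ hρ)
    have h1 := h a List.mem_cons_self
    rw [List.map_cons, List.sum_cons, add_re]
    refine ⟨by linarith, fun ρ hρ => ?_⟩
    rcases List.mem_cons.1 hρ with rfl | hρ
    · linarith
    · linarith [i2 ρ hρ]

lemma list_norm (g : ℂ → ℂ) (Z : List ℂ) {c : ℝ} (h : ∀ ρ ∈ Z, ‖g ρ‖ ≤ c) :
    ‖(Z.map g).sum‖ ≤ Z.length * c := by
  induction Z with
  | nil => simp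
  | cons a Z ih =>
    have i1 := ih fun ρ hρ => h ρ (List.mem_cons_of_mem _ hρ)
    have h1 := h a List.mem_cons_self
    rw [List.map_cons, List.sum_cons, List.length_cons]
    refine (norm_add_le _ _).trans ?_
    push_cast
    linarith

lemma three_four_one {q : ℕ} (χ : DirichletCharacter ℂ q) {σ : ℝ} (hσ : 1 < σ) (t : ℝ) :
    0 ≤ 3 * (LSeries (fun n => (vonMangoldt n : ℂ)) σ).re +
      4 * (LSeries ((fun n : ℕ => χ n) * fun n : ℕ => (vonMangoldt n : ℂ)) (σ + t * I)).re +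
      (LSeries ((fun n : ℕ => (χ ^ 2) n) * fun n : ℕ => (vonMangoldt n : ℂ))
        (σ + (2 * t : ℝ) * I)).re := by
  have h1 := hasSum_re (LSeriesSummable_vonMangoldt (s := σ) (by simpa using hσ)).hasSum
  have h2 := hasSum_re (χ.LSeriesSummable_twist_vonMangoldt (s := σ + t * I)
    (by simpa using hσ)).hasSum
  have h3 := hasSum_re ((χ ^ 2).LSeriesSummable_twist_vonMangoldt (s := σ + (2 * t : ℝ) * I)
    (by simpa using hσ)).hasSum
  refine (((h1.mul_left 3).add (h2.mul_left 4)).add h3).nonneg fun n => ?_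
  rcases eq_or_ne n 0 with rfl | hn
  · simp
  rw [lb_term_eq _ _ hn, lb_term_eq _ _ hn, lb_term_eq _ _ hn]
  set z : ℂ := χ n * nit n (-t) with hz
  have hz1 : ‖z‖ ≤ 1 := by rw [hz, norm_mul, lb_norm_nit, mul_one]; exact χ.norm_le_one _
  set A : ℝ := vonMangoldt n * (n : ℝ) ^ (-σ) with hA
  have hA0 : 0 ≤ A := mul_nonneg vonMangoldt_nonneg (by positivity)
  have e1 : (vonMangoldt n : ℂ) * (((n : ℝ) ^ (-(σ : ℂ).re) : ℝ) : ℂ) * nit n (-(σ : ℂ).im)
      = (A : ℂ) := by simp [hA, nit]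
  have e2 : ((fun n : ℕ => χ n) * fun n : ℕ => (vonMangoldt n : ℂ)) n *
      (((n : ℝ) ^ (-(σ + t * I : ℂ).re) : ℝ) : ℂ) * nit n (-(σ + t * I : ℂ).im) = A * z := by
    rw [show (σ + t * I : ℂ).re = σ by simp, show (σ + t * I : ℂ).im = t by simp, hA, hz]
    simp only [Pi.mul_apply, ofReal_mul]
    ring
  have e3 : ((fun n : ℕ => (χ ^ 2) n) * fun n : ℕ => (vonMangoldt n : ℂ)) n *
      (((n : ℝ) ^ (-(σ + (2 * t : ℝ) * I : ℂ).re) : ℝ) : ℂ) *
        nit n (-(σ + (2 * t : ℝ) * I : ℂ).im) = A * z ^ 2 := by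
    have e4 : nit n (-(2 * t)) = nit n (-t) ^ 2 := by
      rw [nit, nit, ← Complex.exp_nat_mul]; congr 1; push_cast; ring
    rw [show (σ + (2 * t : ℝ) * I : ℂ).re = σ by simp,
      show (σ + (2 * t : ℝ) * I : ℂ).im = 2 * t by simp, hA, hz, e4]
    simp only [Pi.mul_apply, ofReal_mul, χ.pow_apply' two_ne_zero]
    ring
  rw [e1, e2, e3, ofReal_re, re_ofReal_mul, re_ofReal_mul]
  have b1 : z.re ^ 2 + z.im ^ 2 ≤ 1 := by
    have := Complex.sq_norm z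
    rw [normSq_apply] at this
    nlinarith only [hz1, this, norm_nonneg z]
  have b2 : (z ^ 2).re = z.re ^ 2 - z.im ^ 2 := by rw [sq, mul_re]; ring
  have b3 : 0 ≤ 3 + 4 * z.re + (z ^ 2).re := by rw [b2]; nlinarith only [b1, sq_nonneg (1 + z.re)]
  nlinarith only [hA0, b3, mul_nonneg hA0 b3]

lemma lam_le : ∀ᶠ δ : ℝ in 𝓝[>] 0,
    (LSeries (fun n => (vonMangoldt n : ℂ)) ((1 + δ : ℝ) : ℂ)).re ≤ 1 / δ + 1 := by
  have h1 := log_deriv_riemannZeta_add_inv_sub_sub_isLittleO.def zero_lt_one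
  have h2 : Tendsto (fun δ : ℝ => ((1 + δ : ℝ) : ℂ)) (𝓝[>] 0) (𝓝[≠] 1) := by
    refine tendsto_nhdsWithin_iff.2 ⟨?_, ?_⟩
    · have : Continuous fun δ : ℝ => ((1 + δ : ℝ) : ℂ) := by fun_prop
      simpa using (this.tendsto 0).mono_left nhdsWithin_le_nhds
    · filter_upwards [self_mem_nhdsWithin] with δ hδ h
      have := congrArg re (Set.mem_singleton_iff.1 h)
      simp only [ofReal_re, one_re] at this
      linarith [Set.mem_Ioi.1 hδ]
  filter_upwards [h2.eventually h1, self_mem_nhdsWithin] with δ h hδ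
  have hδ0 : 0 < δ := hδ
  rw [LSeries_vonMangoldt_eq_deriv_riemannZeta_div (by simpa using hδ0), neg_div, neg_re]
  rw [norm_one, mul_one] at h
  have h3 := (abs_le.1 ((abs_re_le_norm _).trans h)).1
  have e : (((1 + δ : ℝ) : ℂ) - 1)⁻¹ = ((1 / δ : ℝ) : ℂ) := by push_cast; simp
  rw [e, sub_re, add_re, ofReal_re, ofReal_re] at h3
  linarith only [h3, Real.one_half_lt_eulerMascheroniConstant]

variable {q : ℕ} [NeZero q] {r δ K T : ℝ} {n : ℕ}

lemma landau_L (χ : DirichletCharacter ℂ q)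
    (hL : ∀ s : ℂ, 1 - r ≤ s.re → s.re ≤ 2 → 2 ≤ |s.im| → |s.im| ≤ T → ‖χ.LFunction s‖ ≤ K)
    (hδ : 0 < δ) (hδr : 24 * δ ≤ r) (hr : r ≤ 1 / 2) (hK : K * (2 / δ) ≤ 2 ^ n) {γ : ℝ}
    (h1 : 3 ≤ |γ|) (h2 : |γ| ≤ T - 1) :
    ∃ Z : List ℂ, Z.length ≤ n ∧
      (∀ ρ ∈ Z, χ.LFunction ((1 + δ : ℝ) + γ * I + ρ) = 0 ∧ ‖ρ‖ < r / 3) ∧
      (∀ ρ, ‖ρ‖ < r / 3 → χ.LFunction ((1 + δ : ℝ) + γ * I + ρ) = 0 → ρ ∈ Z) ∧
      ∀ z, ‖z‖ ≤ r / 12 → χ.LFunction ((1 + δ : ℝ) + γ * I + z) ≠ 0 →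
        ‖deriv χ.LFunction ((1 + δ : ℝ) + γ * I + z) / χ.LFunction ((1 + δ : ℝ) + γ * I + z) -
          (Z.map fun ρ => 1 / (z - ρ)).sum‖ ≤ 24 * (n + 1) / r := by
  set s₀ : ℂ := (1 + δ : ℝ) + γ * I with hs₀
  have hre : s₀.re = 1 + δ := by simp [hs₀]
  have him : s₀.im = γ := by simp [hs₀]
  have hre1 : 1 < s₀.re := by linarith only [hδ, hre]
  have hlow : 1 ≤ ‖χ.LFunction s₀‖ * (2 / δ) := by
    have a1 := congrArg norm (DirichletCharacter.LSeries.mul_mu_eq_one χ hre1)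
    rw [norm_mul, norm_one, ← χ.LFunction_eq_LSeries hre1] at a1
    have a2 := lb_trivial (a := (fun n : ℕ => χ n) * fun n : ℕ => ((moebius n : ℤ) : ℂ))
      (fun n => by
        rw [Pi.mul_apply, norm_mul]
        refine mul_le_one₀ (χ.norm_le_one _) (norm_nonneg _) ?_
        rw [Complex.norm_intCast]
        exact_mod_cast abs_moebius_le_one) hre1
    rw [hre, add_sub_cancel_left] at a2
    have a3 : 1 + 1 / δ ≤ 2 / δ := by
      have : 1 ≤ 1 / δ := by rw [le_div_iff₀ hδ]; linarith only [hδ, hδr, hr]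
      have e : 2 / δ = 2 * (1 / δ) := by ring
      linarith only [this, e]
    rw [← a1]
    exact mul_le_mul_of_nonneg_left (a2.trans a3) (norm_nonneg _)
  have hab : ∀ z : ℂ, |γ| - ‖z‖ ≤ |(s₀ + z).im| ∧ |(s₀ + z).im| ≤ |γ| + ‖z‖ := fun z => by
    rw [add_im, him]
    have a1 := abs_im_le_norm z
    have a2 := abs_add_le γ z.im
    have a3 := abs_sub (γ + z.im) z.im
    rw [add_sub_cancel_right] at a3
    constructor <;> linarith only [a1, a3, a2]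
  refine (landau_disc (r := r) (by linarith only [hδ, hδr]) n
    (fun z => χ.LFunction (s₀ + z)) (fun z hz => ?_) ?_ (fun z hz => ?_)).imp ?_
  rotate_right
  · rintro Z ⟨z1, z2, z3, z4⟩
    refine ⟨z1, z2, z3, fun z a1 a2 => ?_⟩
    have := z4 z a1 a2
    rwa [deriv_comp_const_add] at this
  · refine DifferentiableAt.differentiableWithinAt ?_
    refine (χ.differentiableAt_LFunction (s₀ + z) (Or.inl fun h => ?_)).comp z
      (f := fun z => s₀ + z) (by fun_prop)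
    have a1 := (hab z).1
    rw [h] at a1
    simp only [one_im, abs_zero] at a1
    linarith only [hδ, hδr, hr, h1, a1, mem_ball_zero_iff.1 hz]
  · intro h
    simp only [add_zero] at h
    rw [h] at hlow
    norm_num at hlow
  · rw [mem_closedBall_zero_iff] at hz
    have a1 := abs_le.1 (abs_re_le_norm z)
    have a2 := hL (s₀ + z) (by rw [add_re]; linarith only [hδ, hre, hz, a1, a1.1]) (by rw [add_re]; linarith only [hδ, hδr, hr, hre, hz, a1, a1.2])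
      (by linarith only [hδ, hδr, hr, h1, hz, (hab z).1]) (by linarith only [hδ, hδr, hr, h2, hz, (hab z).2])
    simp only [add_zero]
    have hK0 : 0 ≤ K := (norm_nonneg _).trans a2
    calc _ ≤ K * 1 := by linarith
      _ ≤ K * (‖χ.LFunction s₀‖ * (2 / δ)) := by gcongr
      _ = K * (2 / δ) * ‖χ.LFunction s₀‖ := by ring
      _ ≤ _ := by gcongr

lemma re_lt_one (χ : DirichletCharacter ℂ q) {s : ℂ} (h : χ.LFunction s = 0) (h1 : s.im ≠ 0) :
    s.re < 1 := by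
  by_contra hc
  exact χ.LFunction_ne_zero_of_one_le_re (Or.inr fun e => h1 (by simp [e])) (not_lt.1 hc) h

lemma re_bound (χ : DirichletCharacter ℂ q)
    (hL : ∀ s : ℂ, 1 - r ≤ s.re → s.re ≤ 2 → 2 ≤ |s.im| → |s.im| ≤ T → ‖χ.LFunction s‖ ≤ K)
    (hδ : 0 < δ) (hδr : 24 * δ ≤ r) (hr : r ≤ 1 / 2) (hK : K * (2 / δ) ≤ 2 ^ n) {γ : ℝ}
    (h1 : 3 ≤ |γ|) (h2 : |γ| ≤ T - 1) :
    (LSeries ((fun n : ℕ => χ n) * fun n : ℕ => (vonMangoldt n : ℂ)) ((1 + δ : ℝ) + γ * I)).re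
      ≤ 24 * (n + 1) / r ∧ ∀ u : ℝ, 0 < u → u ≤ 2 * δ →
      χ.LFunction ((1 + δ : ℝ) + γ * I + (-u : ℝ)) = 0 →
      (LSeries ((fun n : ℕ => χ n) * fun n : ℕ => (vonMangoldt n : ℂ)) ((1 + δ : ℝ) + γ * I)).re
        ≤ 24 * (n + 1) / r - 1 / u := by
  obtain ⟨Z, -, z2, z3, z4⟩ := landau_L χ hL hδ hδr hr hK h1 h2
  have hs : 1 < ((1 + δ : ℝ) + γ * I : ℂ).re := by simpa using hδ
  have hne : χ.LFunction ((1 + δ : ℝ) + γ * I) ≠ 0 := by
    rw [χ.LFunction_eq_LSeries hs]; exact χ.LSeries_ne_zero_of_one_lt_re hs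
  have a1 := z4 0 (by rw [norm_zero]; linarith only [hδ, hδr]) (by rwa [add_zero])
  rw [add_zero] at a1
  have a2 := (abs_le.1 ((abs_re_le_norm _).trans a1)).1
  rw [sub_re] at a2
  obtain ⟨b1, b2⟩ := list_re (fun ρ => 1 / (0 - ρ)) Z fun ρ hρ => by
    obtain ⟨c1, c2⟩ := z2 ρ hρ
    have c3 := re_lt_one χ c1 (fun h => by
      have c4 := abs_im_le_norm ρ
      have c5 : γ = -ρ.im := by simp at h; linarith only [h]
      rw [c5, abs_neg] at h1
      linarith only [hδ, hδr, hr, h1, c2, c4])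
    simp only [add_re, ofReal_re, mul_re, I_re, mul_zero, ofReal_im, I_im, mul_one, sub_self,
      add_zero] at c3
    rw [zero_sub, one_div, inv_re, neg_re]
    exact div_nonneg (by linarith only [hδ, c3]) (normSq_nonneg _)
  rw [χ.LSeries_twist_vonMangoldt_eq hs, ← χ.deriv_LFunction_eq_deriv_LSeries hs,
    ← χ.LFunction_eq_LSeries hs, neg_div, neg_re]
  refine ⟨by linarith only [a2, b1], fun u u0 u1 u2 => ?_⟩
  have c1 := b2 _ (z3 (-u : ℝ) (by rw [norm_real, Real.norm_eq_abs, abs_neg, abs_of_pos u0]; linarith only [hδ, hδr, u1]) u2)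
  have e : (1 / (0 - ((-u : ℝ) : ℂ))) = ((1 / u : ℝ) : ℂ) := by push_cast; simp
  simp only [e, ofReal_re] at c1
  linarith only [a2, c1]

theorem zero_free
    (hL : ∀ (χ : DirichletCharacter ℂ q) (s : ℂ), 1 - r ≤ s.re → s.re ≤ 2 → 2 ≤ |s.im| →
      |s.im| ≤ T → ‖χ.LFunction s‖ ≤ K)
    (hδ : 0 < δ) (hδr : 24 * δ ≤ r) (hr : r ≤ 1 / 2) (hK : K * (2 / δ) ≤ 2 ^ n)
    (hE : 24 * (n + 1) / r ≤ 1 / (50 * δ))
    (hΛ : (LSeries (fun n => (vonMangoldt n : ℂ)) ((1 + δ : ℝ) : ℂ)).re ≤ 1 / δ + 1)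
    (χ : DirichletCharacter ℂ q) {s : ℂ} (h1 : 3 ≤ |s.im|) (h2 : 2 * |s.im| ≤ T - 1)
    (h0 : χ.LFunction s = 0) : s.re ≤ 1 - δ / 4 := by
  by_contra hc
  push Not at hc
  have a0 := re_lt_one χ h0 (fun h => by rw [h] at h1; norm_num at h1)
  have a1 := (re_bound χ (hL χ) hδ hδr hr hK h1 (by linarith only [hδr, hr, h1, h2, hc, a0])).2 (1 + δ - s.re) (by linarith only [hc, a0])
    (by linarith only [hc, a0]) (by
      rw [← h0]; congr 1
      conv_rhs => rw [← re_add_im s]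
      push_cast; ring)
  have a2 := (re_bound (χ ^ 2) (hL _) hδ hδr hr hK (γ := 2 * s.im)
    (by rw [abs_mul, abs_two]; linarith only [hδr, hr, h1, hc, a0]) (by rw [abs_mul, abs_two]; linarith only [h2])).1
  have a3 := three_four_one χ (σ := 1 + δ) (by linarith only [hc, a0]) s.im
  have a4 : 4 / 5 * (1 / δ) ≤ 1 / (1 + δ - s.re) := by
    rw [show 4 / 5 * (1 / δ) = 1 / (5 / 4 * δ) by field_simp]
    exact one_div_le_one_div_of_le (by linarith only [hc, a0]) (by linarith only [hc])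
  have a5 : 1 / (50 * δ) = 1 / 50 * (1 / δ) := by field_simp
  have a6 : 48 ≤ 1 / δ := by rw [le_div_iff₀ hδ]; linarith only [hδr, hr]
  linarith only [hδr, hr, hE, hΛ, hc, a0, a1, a2, a3, a4, a5, a6]

theorem log_deriv_le
    (hL : ∀ (χ : DirichletCharacter ℂ q) (s : ℂ), 1 - r ≤ s.re → s.re ≤ 2 → 2 ≤ |s.im| →
      |s.im| ≤ T → ‖χ.LFunction s‖ ≤ K)
    (hδ : 0 < δ) (hδr : 24 * δ ≤ r) (hr : r ≤ 1 / 2) (hK : K * (2 / δ) ≤ 2 ^ n)
    (hE : 24 * (n + 1) / r ≤ 1 / (50 * δ))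
    (hΛ : (LSeries (fun n => (vonMangoldt n : ℂ)) ((1 + δ : ℝ) : ℂ)).re ≤ 1 / δ + 1)
    (χ : DirichletCharacter ℂ q) {s : ℂ} (h0 : |s.re - 1| ≤ δ / 8) (h1 : 4 ≤ |s.im|)
    (h2 : 2 * |s.im| ≤ T - 3) :
    χ.LFunction s ≠ 0 ∧ ‖deriv χ.LFunction s / χ.LFunction s‖ ≤ (8 * n + 1) / δ := by
  rw [abs_le] at h0
  have hne : χ.LFunction s ≠ 0 := fun h => by
    linarith only [hδ, h0, hδr, hr, hK, hE, hΛ, h1, h2, h, zero_free hL hδ hδr hr hK hE hΛ χ (by linarith only [hδ, hδr, hr, h1]) (by linarith only [hδ, hδr, hr, h2]) h, h0.1]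
  refine ⟨hne, ?_⟩
  obtain ⟨Z, z1, z2, -, z4⟩ := landau_L χ (hL χ) hδ hδr hr hK (γ := s.im) (by linarith only [hδ, hδr, hr, h1])
    (by linarith only [hδ, hδr, hr, h1, h2])
  set z : ℂ := ((s.re - 1 - δ : ℝ) : ℂ) with hz
  have e : ((1 + δ : ℝ) : ℂ) + s.im * I + z = s := by
    conv_rhs => rw [← re_add_im s]
    rw [hz]; push_cast; ring
  have a1 := z4 z (by
    rw [hz, norm_real, Real.norm_eq_abs, abs_le]; constructor <;> linarith only [hδ, hδr, h0, h0.1, h0.2])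
    (by rwa [e])
  rw [e] at a1
  have a2 := list_norm (fun ρ => 1 / (z - ρ)) Z (c := 8 / δ) fun ρ hρ => by
    obtain ⟨c1, c2⟩ := z2 ρ hρ
    have c4 := abs_im_le_norm ρ
    have c5 : (((1 + δ : ℝ) : ℂ) + s.im * I + ρ).im = s.im + ρ.im := by simp
    have c6 := abs_add_le s.im ρ.im
    have c7 := abs_sub (s.im + ρ.im) ρ.im
    rw [add_sub_cancel_right] at c7
    have c3 := zero_free hL hδ hδr hr hK hE hΛ χ (by rw [c5]; linarith only [hδ, hδr, hr, h1, c2, c4, c7]) (by rw [c5]; linarith only [hδ, hδr, hr, h2, c2, c4, c6]) c1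
    simp only [add_re, ofReal_re, mul_re, I_re, mul_zero, ofReal_im, I_im, mul_one, sub_self,
      add_zero] at c3
    have c8 := re_le_norm (z - ρ)
    rw [sub_re, hz, ofReal_re] at c8
    rw [norm_div, norm_one, show 8 / δ = 1 / (δ / 8) by field_simp]
    exact one_div_le_one_div_of_le (by linarith only [hδ]) (by rw [hz]; linarith only [h0, c3, c8, h0.1])
  have a3 := norm_le_norm_sub_add (deriv χ.LFunction s / χ.LFunction s)
    (Z.map fun ρ => 1 / (z - ρ)).sum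
  have a4 : (Z.length : ℝ) * (8 / δ) ≤ n * (8 / δ) := by
    gcongr
  have a5 : 1 / (50 * δ) ≤ 1 / δ := one_div_le_one_div_of_le hδ (by linarith only [hδ])
  have a6 : (8 * n + 1) / δ = n * (8 / δ) + 1 / δ := by ring
  linarith only [hE, a1, a2, a3, a4, a5, a6]

end VK

end Pool.Agent.Work.MP_678620_nt
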