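import Pool.Agent.Work.MP_678620_nt.VKL
import Pool.Agent.Work.MP_678620_nt.VKZero
import Pool.Agent.Work.MP_678620_nt.VKPerron
import Pool.Agent.Lib.MR.Basic

/-! Twisted sums of the von Mangoldt function in the Vinogradov-Korobov range. -/

set_option autoImplicit false

namespace Pool.Agent.Work.MP_678620_nt

open Finset Complex Filter Topology ArithmeticFunction Pool.Agent.Lib.MR Pool.Agent.Lib.ANT
  Pool.Agent.Work.MP_453366_nt

namespace VK

/-- the zero-free region and the bound for the logarithmic derivative -/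
theorem log_deriv_bound (A : ℕ) : ∀ᶠ w : ℝ in atTop, ∀ (q : ℕ) [NeZero q]
    (χ : DirichletCharacter ℂ q), (q : ℝ) ≤ w ^ A → ∀ s : ℂ, |s.re - 1| ≤ 1 / (8 * w ^ 15) →
    4 ≤ |s.im| → |s.im| ≤ 2 * Real.exp (4 * w ^ 20) →
    χ.LFunction s ≠ 0 ∧ ‖deriv χ.LFunction s / χ.LFunction s‖ ≤ w ^ 16 := by
  have h1 : Tendsto (fun w : ℝ => 1 / w ^ 15) atTop (𝓝[>] 0) := by
    simp only [one_div]
    exact tendsto_inv_atTop_nhdsGT_zero.comp (tendsto_pow_atTop (by norm_num))
  filter_upwards [L_bound, h1.eventually lam_le, eventually_ge_atTop (2400 : ℝ),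
    Vin.eventually_small 4 (1 / 4800) 1 (by norm_num) (by norm_num) (A + 36)]
    with w hL hΛ hw hs q _ χ hq s a1 a2 a3
  have hw0 : 0 < w := by linarith only [hw]
  have hw14 : w ≤ w ^ 14 := le_self_pow₀ (by linarith only [hw]) (by norm_num)
  have hw20 : w ≤ w ^ 20 := le_self_pow₀ (by linarith only [hw]) (by norm_num)
  set n : ℕ := ⌊w / 2400⌋₊ with hn
  have hn1 : (n : ℝ) ≤ w / 2400 := Nat.floor_le (by positivity)
  have hn2 : w / 2400 ≤ n + 1 := (Nat.lt_floor_add_one _).le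
  have H := log_deriv_le (q := q) (r := 1 / w ^ 14) (δ := 1 / w ^ 15) (K := q * w ^ 21)
    (T := Real.exp (5 * w ^ 20)) (n := n) (fun χ s => hL q χ s) (by positivity) ?_
    (one_div_le_one_div_of_le (by norm_num) (by linarith only [hw, hw14])) ?_ ?_ hΛ χ (s := s)
    (a1.trans_eq (by field_simp)) a2 ?_
  · refine ⟨H.1, H.2.trans ?_⟩
    rw [div_div_eq_mul_div, div_one, pow_succ' w 15]
    gcongr
    linarith only [hw, hn1]
  · rw [mul_one_div, div_le_div_iff₀ (by positivity) (by positivity), one_mul, pow_succ' w 14]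
    gcongr
    linarith only [hw]
  · rw [Real.rpow_one] at hs
    have b1 : Real.exp (1 / 4800 * w) ≤ 2 * 2 ^ n := by
      clear * - w n hn2
      have b2 : Real.exp (1 / 2) ≤ 2 := by
        have : Real.exp (1 / 2) ^ 2 ≤ 2 ^ 2 := by
          rw [← Real.exp_nat_mul]; norm_num; linarith only [Real.exp_one_lt_d9]
        exact le_of_sq_le_sq this (by norm_num)
      calc _ ≤ Real.exp (((n + 1 : ℕ) : ℝ) * (1 / 2)) := by
            rw [Real.exp_le_exp]; push_cast; linarith only [hn2]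
        _ = Real.exp (1 / 2) ^ (n + 1) := Real.exp_nat_mul _ _
        _ ≤ 2 ^ (n + 1) := by gcongr
        _ = _ := by rw [pow_succ']
    have b3 : 4 * w ^ (A + 36) ≤ Real.exp (1 / 4800 * w) := by
      rw [Real.exp_neg, ← div_eq_mul_inv, div_le_one (Real.exp_pos _)] at hs
      exact hs
    calc (q : ℝ) * w ^ 21 * (2 / (1 / w ^ 15)) ≤ w ^ A * w ^ 21 * (2 / (1 / w ^ 15)) := by gcongr
      _ = 2 * w ^ (A + 36) := by field_simp; ring
      _ ≤ _ := by linarith only [b1, b3]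
  · rw [div_div_eq_mul_div, div_one, mul_one_div, one_div_div, pow_succ' w 14, le_div_iff₀ (by norm_num)]
    have : 24 * ((n : ℝ) + 1) * 50 ≤ w := by linarith only [hw, hn1]
    clear * - n w hw hn1 hw14 hw0
    nlinarith only [hw, hn1, hw14, pow_pos hw0 14]
  · have b1 : Real.exp (5 * w ^ 20) = Real.exp (4 * w ^ 20) * Real.exp (w ^ 20) := by
      rw [← Real.exp_add]; congr 1; ring
    have b2 : 1 ≤ Real.exp (4 * w ^ 20) := Real.one_le_exp (by positivity)
    have b3 : 7 ≤ Real.exp (w ^ 20) := by linarith only [hw, hw20, Real.add_one_le_exp (w ^ 20)]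
    clear * - s w a2 a3 b1 b3
    nlinarith only [a2, a3, b1, b3]

lemma term_twist (b : ℕ → ℂ) (t : ℝ) (s : ℂ) :
    LSeries.term (fun n => b n * nit n t) s = LSeries.term b (s - t * I) := by
  funext n
  rcases eq_or_ne n 0 with rfl | hn
  · simp
  rw [lb_term_eq _ _ hn, lb_term_eq _ _ hn, show (s - t * I).re = s.re by simp,
    show (s - t * I).im = s.im - t by simp]
  have e : nit n (-(s.im - t)) = nit n t * nit n (-s.im) := by
    rw [nit, nit, nit, ← Complex.exp_add]; congr 1; push_cast; ring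
  rw [e]; ring

lemma cesaro_twist {q : ℕ} [NeZero q] (χ : DirichletCharacter ℂ q) (t : ℝ) {δ B T : ℝ}
    (hδ0 : 0 < δ) (hδ4 : δ ≤ 1 / 4) (hT : 1 ≤ T) (hB : 0 ≤ B) (hTt : T < |t|)
    (hR : ∀ s : ℂ, |s.re - 1| ≤ δ → |t| - T ≤ |s.im| → |s.im| ≤ |t| + T →
      χ.LFunction s ≠ 0 ∧ ‖deriv χ.LFunction s / χ.LFunction s‖ ≤ B)
    {y : ℝ} (hy : 0 < y) (hyM : 1 / δ ≤ Real.log y) {K : ℕ} (hK : y ≤ K) :
    ‖∑ n ∈ range K, χ n * (vonMangoldt n : ℂ) * nit n t * ((max (1 - n / y) 0 : ℝ) : ℂ)‖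
      ≤ y * (T * B * y ^ (-δ) + B / T ^ 2 + 6 * Real.log y ^ 2 / T) := by
  have hLS : ∀ s : ℂ, LSeries (fun n : ℕ => χ n * (vonMangoldt n : ℂ) * nit n t) s =
      LSeries ((fun n : ℕ => χ n) * fun n : ℕ => (vonMangoldt n : ℂ)) (s - t * I) := fun s => by
    rw [LSeries, LSeries, ← term_twist]; rfl
  have hre : ∀ s : ℂ, (s - t * I).re = s.re := fun s => by simp
  have hdiff : ∀ s : ℂ, s - t * I ≠ 1 → χ.LFunction (s - t * I) ≠ 0 → DifferentiableAt ℂ
      (fun s => -deriv χ.LFunction (s - t * I) / χ.LFunction (s - t * I)) s := fun s h1 h2 => by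
    have hon : DifferentiableOn ℂ χ.LFunction {1}ᶜ := fun z hz =>
      (χ.differentiableAt_LFunction z (Or.inl hz)).differentiableWithinAt
    have d1 := χ.differentiableAt_LFunction _ (Or.inl h1)
    have d2 : DifferentiableAt ℂ (deriv χ.LFunction) (s - t * I) :=
      (hon.deriv isOpen_compl_singleton).differentiableAt (isOpen_compl_singleton.mem_nhds h1)
    have d3 : DifferentiableAt ℂ (fun s : ℂ => s - t * I) s := by fun_prop
    exact ((d2.comp s d3).neg).div (d1.comp s d3) h2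
  refine cesaro_gen (fun n : ℕ => χ n * (vonMangoldt n : ℂ) * nit n t)
    (fun s => -deriv χ.LFunction (s - t * I) / χ.LFunction (s - t * I)) (by simp)
    (fun s hs => ?_) (fun s hs => ?_) (fun ε hε s hs => ?_) hδ0 hδ4 hT hB (fun s h1 h2 => ?_)
    hy hyM hK
  · have := χ.LSeriesSummable_twist_vonMangoldt (s := s - t * I) (by rwa [hre])
    rw [LSeriesSummable, ← term_twist] at this
    exact this
  · have hs' : 1 < (s - t * I).re := by rwa [hre]
    have h1 : s - t * I ≠ 1 := fun h => by rw [h] at hs'; simp at hs'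
    refine ⟨?_, (hdiff s h1 (χ.LFunction_ne_zero_of_one_le_re (Or.inr h1) hs'.le)).continuousAt⟩
    rw [hLS, χ.LSeries_twist_vonMangoldt_eq hs', χ.deriv_LFunction_eq_deriv_LSeries hs',
      χ.LFunction_eq_LSeries hs']
  · rw [hLS]; exact norm_LSeries_twist_le χ hε (by rwa [hre])
  · have him : (s - t * I).im = s.im - t := by simp
    have a1 := abs_sub s.im t
    have a2 := abs_sub s.im (s.im - t)
    rw [sub_sub_cancel] at a2
    obtain ⟨b1, b2⟩ := hR (s - t * I) (by rwa [hre]) (by rw [him]; linarith only [h2, a2]) (by rw [him]; linarith)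
    refine ⟨hdiff s (fun h => ?_) b1, by rwa [neg_div, norm_neg]⟩
    rw [h] at him
    rw [← him] at a2
    simp only [one_im, abs_zero] at a2
    linarith

theorem vk_aux (A : ℕ) : ∀ᶠ w : ℝ in atTop, ∀ (q : ℕ) [NeZero q] (χ : DirichletCharacter ℂ q),
    (q : ℝ) ≤ (w ^ 20) ^ A → ∀ t : ℝ, (w ^ 20) ^ (2 * A + 7) ≤ |t| → |t| ≤ Real.exp (4 * w ^ 20) →
    ∀ x : ℕ, Real.exp (w ^ 16) ≤ x → (x : ℝ) ≤ Real.exp (4 * w ^ 20) →
    ‖∑ n ∈ Icc 1 x, χ n * (vonMangoldt n : ℂ) * nit n t‖ ≤ x / (w ^ 20) ^ A := by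
  filter_upwards [log_deriv_bound (20 * A), eventually_ge_atTop (40 : ℝ),
    Vin.eventually_small 1 (1 / 8) 1 (by norm_num) (by norm_num) (20 * (4 * A + 10) + 16)]
    with w hZ hw hs q _ χ hq t ht1 ht2 X hX1 hX2
  have hw0 : 0 < w := by linarith only [hw]
  have hw1 : 1 ≤ w := by linarith only [hw]
  rw [Real.rpow_one, one_mul] at hs
  set l : ℝ := w ^ 20 with hl
  have hl40 : 40 ≤ l := hw.trans (le_self_pow₀ hw1 (by norm_num))
  have hl1 : 1 ≤ l := by linarith only [hl40]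
  have hw15 : w ≤ w ^ 15 := le_self_pow₀ hw1 (by norm_num)
  have hw16 : w ≤ w ^ 16 := le_self_pow₀ hw1 (by norm_num)
  have hw16' : w ^ 16 ≤ l := pow_le_pow_right₀ hw1 (by norm_num)
  have hX0' : (0 : ℝ) < X := (Real.exp_pos _).trans_le hX1
  have hX0 : 0 < X := by exact_mod_cast hX0'
  set T : ℝ := l ^ (2 * A + 6) with hT
  have hT1 : 40 ≤ T := hl40.trans (le_self_pow₀ hl1 (by omega))
  have hTt : 2 * T ≤ |t| := by
    clear * - T l A t w hl40 hw ht1
    refine le_trans ?_ ht1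
    rw [pow_succ' l (2 * A + 6)]
    gcongr; linarith
  have hlog : ∀ y : ℝ, 0 < y → y ≤ 2 * X → Real.log y ≤ 5 * l := fun y h0 h2 => by
    have a1 := Real.log_le_log h0 h2
    rw [Real.log_mul (by norm_num) hX0'.ne'] at a1
    have a2 : Real.log X ≤ 4 * l := (Real.log_le_iff_le_exp hX0').2 hX2
    linarith only [hl40, a1, a2, Real.log_two_lt_d9]
  have hpoly : w ^ (20 * (4 * A + 10) + 16) = l ^ (2 * A + 4) * (T * w ^ 16) := by
    rw [hT, hl]; ring
  have key : ∀ y : ℝ, X ≤ y → y ≤ 2 * X → ∀ K : ℕ, y ≤ K →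
      ‖∑ n ∈ range K, χ n * (vonMangoldt n : ℂ) * nit n t * ((max (1 - n / y) 0 : ℝ) : ℂ)‖
        ≤ y * (152 / l ^ (2 * A + 4)) := by
    intro y h1 h2 K hK
    have hy : 0 < y := by linarith only [hX0', h1]
    have hly : w ^ 16 ≤ Real.log y := (Real.le_log_iff_exp_le hy).2 (hX1.trans h1)
    refine (cesaro_twist χ t (δ := 1 / (8 * w ^ 15)) (B := w ^ 16) (T := T) (by positivity)
      (one_div_le_one_div_of_le (by norm_num) (by linarith only [hw, hw15])) (by linarith only [hT1]) (by positivity)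
      (by linarith only [hT1, hTt]) (fun s a1 a2 a3 => hZ q χ (by rwa [pow_mul]) s a1 (by linarith only [hT1, hTt, a2]) (by linarith only [ht2, hT1, hTt, a3]))
      hy ?_ hK).trans (mul_le_mul_of_nonneg_left ?_ hy.le)
    · rw [one_div_one_div]
      refine le_trans ?_ hly
      rw [pow_succ' w 15]; gcongr; linarith only [hw]
    have a1 : y ^ (-(1 / (8 * w ^ 15))) ≤ Real.exp (-(1 / 8 * w)) := by
      rw [Real.rpow_def_of_pos hy, Real.exp_le_exp, mul_neg, neg_le_neg_iff, mul_one_div,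
        le_div_iff₀ (by positivity)]
      calc _ = w ^ 16 := by ring
        _ ≤ _ := hly
    have a2 : T * w ^ 16 * y ^ (-(1 / (8 * w ^ 15))) ≤ 1 / l ^ (2 * A + 4) := by
      clear * - T w y l A hw a1 hpoly hs
      rw [le_div_iff₀ (by positivity)]
      calc _ ≤ T * w ^ 16 * Real.exp (-(1 / 8 * w)) * l ^ (2 * A + 4) := by gcongr
        _ = _ := by rw [hpoly]; ring
        _ ≤ 1 := hs
    have a3 : w ^ 16 / T ^ 2 ≤ 1 / l ^ (2 * A + 4) := by
      clear * - w T l A hw hw16' hl1 X hT1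
      rw [div_le_div_iff₀ (by positivity) (by positivity), one_mul]
      calc w ^ 16 * l ^ (2 * A + 4) ≤ l * l ^ (2 * A + 4) := by gcongr
        _ = l ^ (2 * A + 5) := by ring
        _ ≤ T := pow_le_pow_right₀ hl1 (by omega)
        _ ≤ T ^ 2 := le_self_pow₀ (by linarith) (by norm_num)
    have a4 : 6 * Real.log y ^ 2 / T ≤ 150 / l ^ (2 * A + 4) := by
      clear * - y w hw hw16 hly T l A hlog hy h2 hT hl40
      have : 0 ≤ Real.log y := by linarith
      calc _ ≤ 6 * (5 * l) ^ 2 / T := by gcongr; exact hlog y hy h2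
        _ = _ := by rw [hT]; field_simp; ring
    have : (152 : ℝ) / l ^ (2 * A + 4) =
        1 / l ^ (2 * A + 4) + 1 / l ^ (2 * A + 4) + 150 / l ^ (2 * A + 4) := by ring
    clear * - T w y l A a2 a3 a4 this
    linarith only [a2, a3, a4, this]
  have hP0 : 0 < l ^ (A + 2) := by positivity
  have hXP : l ^ (A + 2) ≤ X := by
    refine le_trans ?_ hX1
    rw [Real.exp_neg, ← div_eq_mul_inv, div_le_one (Real.exp_pos _)] at hs
    refine le_trans ?_ (hs.trans (Real.exp_le_exp.2 (by linarith only [hw, hw16])))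
    rw [hl, ← pow_mul]
    exact pow_le_pow_right₀ hw1 (by omega)
  set h : ℕ := ⌊(X : ℝ) / l ^ (A + 2)⌋₊ with hh
  have hh0 : 0 < h := Nat.floor_pos.2 ((one_le_div hP0).2 hXP)
  have hh0' : (1 : ℝ) ≤ h := by exact_mod_cast hh0
  have hh1 : (h : ℝ) ≤ X / l ^ (A + 2) := Nat.floor_le (by positivity)
  have hh2 : (X : ℝ) ≤ 2 * h * l ^ (A + 2) := by
    clear * - X h l A hP0 w hh0'
    rw [← div_le_iff₀ hP0]
    linarith only [hh0', Nat.lt_floor_add_one ((X : ℝ) / l ^ (A + 2))]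
  have hh3 : (h : ℝ) ≤ X := hh1.trans (div_le_self hX0'.le (one_le_pow₀ hl1))
  have hD := decesaro (fun n : ℕ => χ n * (vonMangoldt n : ℂ) * nit n t) hX0 hh0 (B := 5 * l)
    fun n hn => by
      clear * - q χ n t l X h w hl40 hn hlog hh3
      rw [norm_mul, norm_mul, lb_norm_nit, mul_one]
      refine (mul_le_of_le_one_left (norm_nonneg _) (χ.norm_le_one _)).trans ?_
      rw [norm_real, Real.norm_of_nonneg vonMangoldt_nonneg]
      refine vonMangoldt_le_log.trans ?_
      rcases Nat.eq_zero_or_pos n with rfl | hn0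
      · simp only [Nat.cast_zero, Real.log_zero]; linarith
      · refine hlog n (by exact_mod_cast hn0) ?_
        have : (n : ℝ) ≤ X + h := by exact_mod_cast hn
        linarith
  have k1 := key ((X + h : ℕ) : ℝ) (by push_cast; linarith only [hh0']) (by push_cast; linarith only [hh3]) (X + 1 + h)
    (by push_cast; linarith only [])
  have k2 := key X le_rfl (by linarith only [hX0']) (X + 1 + h) (by clear * - X h hh0' key; push_cast; linarith)
  have k3 : ((X + h : ℕ) : ℝ) ≤ 2 * X := by clear * - X h hh3; push_cast; linarith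
  have e : ∑ n ∈ Icc 1 X, χ n * (vonMangoldt n : ℂ) * nit n t =
      ∑ n ∈ range (X + 1), χ n * (vonMangoldt n : ℂ) * nit n t := by
    rw [range_eq_Ico, sum_eq_sum_Ico_succ_bot (Nat.succ_pos X)]
    simp only [ArithmeticFunction.map_zero, ofReal_zero, mul_zero, zero_mul, zero_add]
    rfl
  rw [e]
  refine le_of_mul_le_mul_left (hD.trans ?_) (by clear * - h hh0' hD; linarith only [hh0'] : (0 : ℝ) < h)
  calc _ ≤ (2 * X : ℝ) * ((2 * X) * (152 / l ^ (2 * A + 4))) + X * (X * (152 / l ^ (2 * A + 4))) +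
        h * (X / l ^ (A + 2) * (5 * l)) := by
        clear * - X h q χ t l A k3 k1 w hw hX0 k2 hh1 hh0
        gcongr
        exact k1.trans (by gcongr)
    _ = X * (X * (760 / l ^ (2 * A + 4))) + h * (X / l ^ (A + 2) * (5 * l)) := by ring
    _ ≤ (2 * h * l ^ (A + 2)) * (X * (760 / l ^ (2 * A + 4))) +
        h * (X / l ^ (A + 2) * (5 * l)) := by gcongr
    _ = h * (X / l ^ A * (1520 / l ^ 2 + 5 / l)) := by field_simp; ring
    _ ≤ h * (X / l ^ A * 1) := by
        clear * - h X l A w hw hw15 hw16' hl40 hX0 hh0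
        gcongr
        rw [div_add_div _ _ (by positivity) (by positivity), div_le_one (by positivity)]
        nlinarith only [hw, hw15, hw16', hl40, mul_le_mul_of_nonneg_left hl40 (by linarith : 0 ≤ l)]
    _ = _ := by ring

end VK

theorem vk_lambda (A : ℕ) : ∃ B : ℕ, ∀ᶠ N : ℕ in atTop, ∀ (q : ℕ) [NeZero q]
    (χ : DirichletCharacter ℂ q), (q : ℝ) ≤ Real.log N ^ A → ∀ t : ℝ, Real.log N ^ B ≤ |t| →
    |t| ≤ (N : ℝ) ^ 4 → ∀ x : ℕ, Real.exp (Real.log N ^ (4 / 5 : ℝ)) ≤ x → x ≤ N ^ 4 →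
    ‖∑ n ∈ Icc 1 x, χ n * (ArithmeticFunction.vonMangoldt n : ℂ) * nit n t‖
      ≤ x / Real.log N ^ A := by
  refine ⟨2 * A + 7, ?_⟩
  have h1 : Tendsto (fun N : ℕ => Real.log N ^ (1 / 20 : ℝ)) atTop atTop :=
    (tendsto_rpow_atTop (by norm_num)).comp
      (Real.tendsto_log_atTop.comp tendsto_natCast_atTop_atTop)
  filter_upwards [h1.eventually (VK.vk_aux A), eventually_ge_atTop 1] with N h hN
  have hN' : (1 : ℝ) ≤ N := by exact_mod_cast hN
  have hl : 0 ≤ Real.log N := Real.log_nonneg hN'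
  have e1 : (Real.log N ^ (1 / 20 : ℝ)) ^ 20 = Real.log N := by
    rw [← Real.rpow_natCast, ← Real.rpow_mul hl]; norm_num
  have e2 : (Real.log N ^ (1 / 20 : ℝ)) ^ 16 = Real.log N ^ (4 / 5 : ℝ) := by
    rw [← Real.rpow_natCast, ← Real.rpow_mul hl]; norm_num
  have e3 : Real.exp (4 * Real.log N) = (N : ℝ) ^ 4 := by
    rw [← Real.exp_log (x := (N : ℝ) ^ 4) (by positivity), Real.log_pow]; norm_num
  rw [e1, e2, e3] at h
  exact fun q _ χ hq t h1 h2 x h3 h4 => h q χ hq t h1 h2 x h3 (by exact_mod_cast h4)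

end Pool.Agent.Work.MP_678620_nt
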