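import Pool.Agent.Work.MP_678620_nt.MRTri
import Pool.Agent.Work.MP_678620_nt.MRHM
import Pool.Agent.Work.MP_678620_nt.MRDiv
import Pool.Agent.Work.MP_678620_nt.VKMain

/-! Primes against a long cofactor. -/

set_option autoImplicit false
open Finset Filter MeasureTheory Pool.Agent.Lib.MR

namespace Pool.Agent.Work.MP_678620_nt

/-- The twisted logarithm on the primes. -/
noncomputable def lp {r : ℕ} (χ : DirichletCharacter ℂ r) (n : ℕ) : ℂ :=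
  if n.Prime then χ n * (Real.log n : ℂ) else 0

/-- The twisted von Mangoldt function. -/
noncomputable def lv {r : ℕ} (χ : DirichletCharacter ℂ r) (n : ℕ) : ℂ :=
  χ n * (ArithmeticFunction.vonMangoldt n : ℂ)

lemma MRGamA_norm {r : ℕ} (χ : DirichletCharacter ℂ r) (n : ℕ) {a : ℝ} (ha : 0 ≤ a) :
    ‖χ n * (a : ℂ)‖ ≤ a := by
  rw [norm_mul, Complex.norm_real, Real.norm_of_nonneg ha]
  exact mul_le_of_le_one_left ha (χ.norm_le_one _)

lemma MRGamA_log {X n : ℕ} (h : n ≤ X ^ 3) : Real.log n ≤ 3 * Real.log X := by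
  rcases n.eq_zero_or_pos with rfl | hn
  · have := Real.log_natCast_nonneg X
    simp only [Nat.cast_zero, Real.log_zero]
    linarith only [this]
  · have : Real.log n ≤ Real.log ((X : ℝ) ^ 3) :=
      Real.log_le_log (by exact_mod_cast hn) (by exact_mod_cast h)
    rwa [Real.log_pow, Nat.cast_ofNat] at this

lemma MRGamA_lv {r : ℕ} (χ : DirichletCharacter ℂ r) (n : ℕ) : ‖lv χ n‖ ≤ Real.log n :=
  (MRGamA_norm χ n ArithmeticFunction.vonMangoldt_nonneg).trans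
    ArithmeticFunction.vonMangoldt_le_log

lemma MRGamA_lp {r : ℕ} (χ : DirichletCharacter ℂ r) (n : ℕ) : ‖lp χ n‖ ≤ Real.log n := by
  unfold lp
  split_ifs
  · exact MRGamA_norm χ n (Real.log_natCast_nonneg n)
  · rw [norm_zero]
    exact Real.log_natCast_nonneg n

lemma MRGamA_ev (c : ℝ) : ∀ᶠ X : ℕ in atTop, c ≤ Real.log X :=
  (Real.tendsto_log_atTop.comp tendsto_natCast_atTop_atTop).eventually_ge_atTop c

lemma MRGamA_natlog {X y : ℕ} (h : y ≤ X ^ 3) (hl : 8 ≤ Real.log X) :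
    (Nat.log 2 y : ℝ) + 2 ≤ Real.log X ^ 2 := by
  have h1 : (Nat.log 2 y : ℝ) * Real.log 2 ≤ 3 * Real.log X := by
    rcases y.eq_zero_or_pos with rfl | hy
    · simp only [Nat.log_zero_right, Nat.cast_zero, zero_mul]
      linarith
    · have := MRGamA_log ((Nat.pow_log_le_self 2 hy.ne').trans h)
      rwa [Nat.cast_pow, Real.log_pow, Nat.cast_ofNat] at this
  have h2 : (Nat.log 2 y : ℝ) * (1 / 2) ≤ (Nat.log 2 y : ℝ) * Real.log 2 :=
    mul_le_mul_of_nonneg_left (by linarith only [Real.log_two_gt_d9]) (Nat.cast_nonneg _)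
  nlinarith only [hl, h1, h2]

lemma DP_lv_sub_lp {r : ℕ} (χ : DirichletCharacter ℂ r) (x : ℕ) (u : ℝ) :
    ‖DP (Icc 1 x) (lv χ) u - DP (Icc 1 x) (lp χ) u‖ ≤ 2 * √(x : ℝ) * Real.log x := by
  rcases x.eq_zero_or_pos with rfl | hx
  · simp [DP]
  refine le_trans ?_ (Chebyshev.psi_sub_theta_le (x := x) (by exact_mod_cast hx))
  rw [Chebyshev.psi, Chebyshev.theta, Nat.floor_natCast, sum_filter, ← sum_sub_distrib, DP, DP,
    ← sum_sub_distrib, ← Icc_add_one_left_eq_Ioc, zero_add]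
  refine norm_sum_le_of_le _ fun n _ => ?_
  rw [← sub_mul, norm_mul, norm_nit, mul_one, lv, lp]
  split_ifs with h
  · rw [ArithmeticFunction.vonMangoldt_apply_prime h, sub_self, sub_self, norm_zero]
  · rw [sub_zero, sub_zero]
    exact MRGamA_norm χ n ArithmeticFunction.vonMangoldt_nonneg

theorem vk_both (A : ℕ) : ∃ B : ℕ, ∀ᶠ X : ℕ in atTop, ∀ (r : ℕ) [NeZero r]
    (χ : DirichletCharacter ℂ r), (r : ℝ) ≤ Real.log X ^ A → ∀ u : ℝ, Real.log X ^ B ≤ |u| →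
    |u| ≤ (X : ℝ) ^ 3 → ∀ x : ℕ, ⌊zz X⌋₊ ≤ x → x ≤ X ^ 3 →
      ‖DP (Icc 1 x) (lv χ) u‖ ≤ x / Real.log X ^ A ∧
      ‖DP (Icc 1 x) (lp χ) u‖ ≤ x / Real.log X ^ A := by
  obtain ⟨B, hB⟩ := vk_lambda (A + 1)
  refine ⟨B, ?_⟩
  filter_upwards [hB, zz_big (2 * A + 4), MRGamA_ev 13, eventually_ge_atTop 1] with X h1 h2 hl hX
  intro r _ χ hr u hu hu' x hx hx'
  obtain ⟨l, e⟩ : ∃ l, l = Real.log X := ⟨_, rfl⟩
  have hlog := MRGamA_log hx'
  have hX' : (1 : ℝ) ≤ X := by exact_mod_cast hX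
  have hz : zz X ≤ x + 1 := by
    have : (⌊zz X⌋₊ : ℝ) ≤ x := by exact_mod_cast hx
    linarith only [this, Nat.lt_floor_add_one (zz X)]
  have h3 : ‖DP (Icc 1 x) (lv χ) u‖ ≤ x / Real.log X ^ (A + 1) :=
    h1 r χ (hr.trans (pow_le_pow_right₀ (by linarith only [hl]) A.le_succ)) u hu
      (hu'.trans (pow_le_pow_right₀ hX' (by norm_num))) x (by linarith only [h2, hz, h2.2.1])
      (hx'.trans (Nat.pow_le_pow_right hX (by norm_num)))
  have h4 := DP_lv_sub_lp χ x u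
  have h5 := h2.1
  rw [← e] at h3 h5 hl hlog ⊢
  have hp : 1 ≤ l ^ A := one_le_pow₀ (by linarith only [hl])
  have x0 : (0 : ℝ) ≤ x := x.cast_nonneg
  have h6 : x / l ^ (A + 1) ≤ x / l ^ A / 2 := by
    rw [div_div, pow_succ]
    exact div_le_div_of_nonneg_left x0 (by positivity)
      (mul_le_mul_of_nonneg_left (by linarith only [hl]) (by positivity))
  have h7 : 12 * (l ^ A * l) ≤ √(x : ℝ) := by
    refine Real.le_sqrt_of_sq_le ?_
    have e1 : l ^ (2 * A + 4) = (l ^ A * l) ^ 2 * l ^ 2 := by ring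
    have e2 : 1 ≤ (l ^ A * l) ^ 2 :=
      one_le_pow₀ (one_le_mul_of_one_le_of_one_le hp (by linarith only [hl]))
    have e3 : (l ^ A * l) ^ 2 * 169 ≤ (l ^ A * l) ^ 2 * l ^ 2 :=
      mul_le_mul_of_nonneg_left (by nlinarith only [hl]) (by positivity)
    nlinarith only [hz, h5, e1, e2, e3]
  have h8 : 2 * √(x : ℝ) * Real.log x ≤ x / l ^ A / 2 := by
    rw [div_div, le_div_iff₀ (by positivity)]
    have s0 := Real.sqrt_nonneg (x : ℝ)
    calc 2 * √(x : ℝ) * Real.log x * (l ^ A * 2) ≤ 2 * √(x : ℝ) * (3 * l) * (l ^ A * 2) := by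
          gcongr
      _ = √(x : ℝ) * (12 * (l ^ A * l)) := by ring
      _ ≤ √(x : ℝ) * √(x : ℝ) := by gcongr
      _ = x := Real.mul_self_sqrt x0
  have h9 : 0 ≤ x / l ^ A := by positivity
  refine ⟨by linarith only [h3, h6, h9], ?_⟩
  have := norm_sub_norm_le (DP (Icc 1 x) (lp χ) u) (DP (Icc 1 x) (lv χ) u)
  rw [norm_sub_rev] at this
  linarith only [h3, h4, h6, h8, this]

theorem gamA (A k : ℕ) {δ : ℝ} (hδ : 0 < δ) : ∃ B : ℕ, ∀ᶠ X : ℕ in atTop,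
    ∀ N : ℕ, X ≤ N ^ 2 → N ≤ X ^ 2 → ∀ (r : ℕ) [NeZero r] (χ : DirichletCharacter ℂ r),
    (r : ℝ) ≤ Real.log X ^ A → ∀ α : ℕ → ℂ, (∀ n, ‖α n‖ ≤ (n.divisors.card : ℝ) ^ k) →
    (∀ n ≤ KK X, α n = 0) → ∀ x0 y : ℕ, ⌊zz X⌋₊ ≤ x0 → y ≤ 20 * N → ∀ (T : ℝ) (U : Set ℝ),
    Fr X δ T U → (∀ u ∈ U, Real.log X ^ B ≤ |u|) →
      MS T U (Hy (Ioc x0 y) (lv χ) α y) ≤ (N : ℝ) ^ 2 / Real.log X ^ A ∧
      MS T U (Hy (Ioc x0 y) (lp χ) α y) ≤ (N : ℝ) ^ 2 / Real.log X ^ A := by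
  obtain ⟨B, hB⟩ := vk_both (A + (11 + 2 * 2 ^ (2 * k)))
  obtain ⟨C, hC, hH⟩ := Fr.hm hδ
  refine ⟨B, ?_⟩
  filter_upwards [hB, hH, zz_big 0, MRGamA_ev (12 * C), MRGamA_ev 400, eventually_ge_atTop 40]
    with X h1 h2 h3 hlC hl hX
  intro N _ hN r _ χ hr α hα hα0 x0 y hx0 hy T U hF hU
  have hy2 : 2 * y ≤ X ^ 3 := by
    calc 2 * y ≤ 40 * X ^ 2 := by omega
      _ ≤ X * X ^ 2 := Nat.mul_le_mul_right _ hX
      _ = X ^ 3 := by ring
  have hx1 : 1 ≤ x0 := le_trans (Nat.le_floor (by simpa using h3.1)) hx0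
  have hlog := MRGamA_natlog (y := y) (X := X) (by omega) (by linarith only [hl])
  have hW : ∀ x ≤ y, ∑ n ∈ Icc 1 x, ‖α n‖ ^ 2 ≤ (Real.log X ^ 2) ^ 2 ^ (2 * k) * x := by
    intro x hx
    have := MRGamA_log (n := x) (X := X) (by omega)
    have := Real.log_natCast_nonneg x
    calc ∑ n ∈ Icc 1 x, ‖α n‖ ^ 2 ≤ ∑ n ∈ Icc 1 x, (n.divisors.card : ℝ) ^ (2 * k) :=
          sum_le_sum fun n _ => by
            rw [pow_mul']
            exact pow_le_pow_left₀ (norm_nonneg _) (hα n) 2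
      _ ≤ x * (1 + Real.log x) ^ 2 ^ (2 * k) := sum_div_pow _ _
      _ ≤ x * (Real.log X ^ 2) ^ 2 ^ (2 * k) := by
          gcongr
          nlinarith
      _ = _ := mul_comm _ _
  have hr' : (r : ℝ) ≤ Real.log X ^ (A + (11 + 2 * 2 ^ (2 * k))) :=
    hr.trans (pow_le_pow_right₀ (by linarith only [hl]) (Nat.le_add_right _ _))
  have key : ∀ lam : ℕ → ℂ, (∀ n, ‖lam n‖ ≤ Real.log n) → (∀ u ∈ U, ∀ x : ℕ, x0 ≤ x →
      x ≤ 2 * y → ‖DP (Icc 1 x) lam u‖ ≤ x / Real.log X ^ (A + (11 + 2 * 2 ^ (2 * k)))) →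
      MS T U (Hy (Ioc x0 y) lam α y) ≤ (N : ℝ) ^ 2 / Real.log X ^ A := by
    intro lam a1 a2
    obtain ⟨l, e⟩ : ∃ l, l = Real.log X := ⟨_, rfl⟩
    have a3 : ∀ n ≤ 2 * y, ‖lam n‖ ≤ 3 * l := fun n hn =>
      (a1 n).trans (e ▸ MRGamA_log (hn.trans hy2))
    rw [← e] at a2 hlC hl hlog hW ⊢
    have l0 : 0 < l := by linarith only [hl]
    have hy' : (y : ℝ) ^ 2 ≤ l * (N : ℝ) ^ 2 := by
      have : (y : ℝ) ≤ 20 * N := by exact_mod_cast hy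
      calc (y : ℝ) ^ 2 ≤ (20 * N) ^ 2 := by gcongr
        _ = 400 * (N : ℝ) ^ 2 := by ring
        _ ≤ _ := by gcongr
    refine (PH (σ := (l ^ (A + (11 + 2 * 2 ^ (2 * k))))⁻¹) hF.meas (by positivity)
      (by positivity) (by linarith only [hC]) (by positivity) hx1 (h2 T U hF) a3
      (fun u hu x b c => (a2 u hu x b c).trans_eq (div_eq_inv_mul _ _)) hα0 hW).trans ?_
    calc 4 * C * (3 * l) * (l ^ (A + (11 + 2 * 2 ^ (2 * k))))⁻¹ * (l ^ 2) ^ 2 ^ (2 * k) *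
          ((Nat.log 2 y : ℝ) + 2) ^ 4 * (y : ℝ) ^ 2
        = 12 * C * l * (l ^ (A + (11 + 2 * 2 ^ (2 * k))))⁻¹ * (l ^ 2) ^ 2 ^ (2 * k) *
          ((Nat.log 2 y : ℝ) + 2) ^ 4 * (y : ℝ) ^ 2 := by ring
      _ ≤ l * l * (l ^ (A + (11 + 2 * 2 ^ (2 * k))))⁻¹ * (l ^ 2) ^ 2 ^ (2 * k) *
          (l ^ 2) ^ 4 * (l * (N : ℝ) ^ 2) := by gcongr
      _ = (N : ℝ) ^ 2 / l ^ A := by
          rw [← pow_mul l 2 (2 ^ (2 * k)), pow_add, pow_add]
          generalize l ^ (2 * 2 ^ (2 * k)) = w, pow_pos l0 (2 * 2 ^ (2 * k)) = hw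
          field_simp
  exact ⟨key _ (MRGamA_lv χ) fun u hu x b c =>
      (h1 r χ hr' u (hU u hu) (hF.hi u hu) x (hx0.trans b) (c.trans hy2)).1,
    key _ (MRGamA_lp χ) fun u hu x b c =>
      (h1 r χ hr' u (hU u hu) (hF.hi u hu) x (hx0.trans b) (c.trans hy2)).2⟩

end Pool.Agent.Work.MP_678620_nt
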