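import Pool.Agent.Work.MP_678620_nt.MRDiv

/-! Periodic coefficients. -/

set_option autoImplicit false
open Finset Filter MeasureTheory Pool.Agent.Lib.MR

namespace Pool.Agent.Work.MP_678620_nt

lemma MRTI_Icc (f : ℕ → ℂ) (M : ℕ) : ∑ n ∈ Icc 1 M, f n = ∑ n ∈ range M, f (n + 1) := by
  induction M with
  | zero => simp
  | succ M ih => rw [sum_Icc_succ_top (by omega), ih, sum_range_succ]

lemma MRTI_range_mul (f : ℕ → ℂ) (q M : ℕ) :
    ∑ n ∈ range (q * M), f n = ∑ m ∈ range M, ∑ a ∈ range q, f (q * m + a) := by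
  induction M with
  | zero => simp
  | succ M ih => rw [mul_add_one, sum_range_add, ih, sum_range_succ]

lemma MRTI_range_le {f : ℕ → ℂ} (hf : ∀ n, ‖f n‖ ≤ 1) (k : ℕ) : ‖∑ n ∈ range k, f n‖ ≤ k := by
  refine (norm_sum_le _ _).trans ((sum_le_card_nsmul _ _ 1 fun n _ => hf n).trans ?_)
  simp

lemma MRTI_ev (B : ℝ) (A : ℕ) {θ : ℝ} (hθ : 0 < θ) :
    ∀ᶠ X : ℕ in atTop, B * Real.log X ^ A ≤ (X : ℝ) ^ θ := by
  have h := ((isLittleO_log_rpow_rpow_atTop (A : ℝ) hθ).const_mul_left B).eventuallyLE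
  filter_upwards [tendsto_natCast_atTop_atTop.eventually h] with X hX
  rw [Real.rpow_natCast, Real.norm_of_nonneg (Real.rpow_nonneg (Nat.cast_nonneg X) θ)] at hX
  exact (le_abs_self _).trans hX

theorem typeI (K : ℕ) : ∃ c : ℝ, 0 < c ∧ ∃ C : ℝ, 1 ≤ C ∧ ∀ q : ℕ, 1 ≤ q → ∀ ψ : ℕ → ℂ,
    (∀ n, ‖ψ n‖ ≤ 1) → (∀ n, ψ (n + q) = ψ n) → ∀ A : ℝ, (q : ℝ) ^ 2 ≤ A → ∀ τ : ℝ, τ ≠ 0 →
    |τ| ≤ A ^ K → ∀ y : ℕ, (y : ℝ) ≤ A →
      ‖DP (Icc 1 y) ψ τ‖ ≤ 2 * A / |τ| + C * q * A ^ (1 - c) := by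
  obtain ⟨c, hc, C, hC⟩ := exp_sum_log (2 * K)
  refine ⟨min c 1, lt_min hc one_pos, |C| + 3, by linarith only [abs_nonneg C],
    fun q hq ψ hψ per A hA τ hτ hτA y hy => ?_⟩
  have hq1 : (1 : ℝ) ≤ q := by exact_mod_cast hq
  have hq' : (0 : ℝ) < q := by linarith
  have hqA : (q : ℝ) ≤ A := by nlinarith only [hA, hq1]
  have hA1 : 1 ≤ A := hq1.trans hqA
  have hB1 : 1 ≤ A / q := (one_le_div hq').2 hqA
  have hBA : A / q ≤ A := div_le_self (by linarith) hq1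
  have hτ' : 0 < |τ| := abs_pos.2 hτ
  have hτB : |τ| ≤ (A / q) ^ (2 * K) := by
    rw [pow_mul]
    refine hτA.trans (pow_le_pow_left₀ (by linarith) ?_ K)
    rw [div_pow, le_div_iff₀ (by positivity)]
    nlinarith only [hA]
  set f : ℕ → ℂ := fun n => ψ n * nit n τ with hf
  have hf1 : ∀ n, ‖f n‖ ≤ 1 := fun n => by
    rw [hf]; simp only [norm_mul, norm_nit, mul_one]; exact hψ _
  have per' : ∀ m a, ψ (q * m + a) = ψ a := fun m a => by
    induction m with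
    | zero => simp
    | succ m ih => rw [show q * (m + 1) + a = q * m + a + q by ring, per, ih]
  set M := y / q with hM
  have hMy : (M : ℝ) ≤ A / q :=
    Nat.cast_div_le.trans (div_le_div_of_nonneg_right hy hq'.le)
  have h0 : 0 ≤ 1 - min c 1 := by linarith only [min_le_right c 1]
  have hpow1 : (1 : ℝ) ≤ A ^ (1 - min c 1) := Real.one_le_rpow hA1 h0
  have hpow2 : (A / q) ^ (1 - c) ≤ A ^ (1 - min c 1) :=
    (Real.rpow_le_rpow_of_exponent_le hB1 (by linarith only [min_le_left c 1])).trans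
      (Real.rpow_le_rpow (by linarith only [hB1]) hBA h0)
  have hS : ∀ a ∈ range q, ‖∑ m ∈ range M, f (q * (m + 1) + a)‖
      ≤ (A / q + 1) / |τ| + |C| * A ^ (1 - min c 1) := by
    intro a ha
    have haq : (a : ℝ) ≤ q := by exact_mod_cast (mem_range.1 ha).le
    have hβ1 : (a : ℝ) / q ≤ 1 := (div_le_one hq').2 haq
    have h1 := hC (A / q) hB1 (a / q) (by positivity) hβ1 τ hτB M hMy
    have h2 : ∑ m ∈ range M, f (q * (m + 1) + a) = ψ a * nit q τ *
        ∑ m ∈ Icc 1 M, Complex.exp (Complex.I * ((τ * Real.log (m + a / q) : ℝ) : ℂ)) := by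
      rw [MRTI_Icc, mul_sum]
      refine sum_congr rfl fun m _ => ?_
      have e2 : Real.log ((q * (m + 1) + a : ℕ) : ℝ)
          = Real.log q + Real.log (((m + 1 : ℕ) : ℝ) + a / q) := by
        rw [← Real.log_mul hq'.ne' (by positivity)]
        congr 1
        push_cast
        field_simp
      rw [hf]
      simp only [per', nit, e2]
      rw [mul_assoc, ← Complex.exp_add]
      congr 2
      push_cast
      ring
    have h3 : ‖(((M : ℝ) + a / q : ℝ) : ℂ) *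
        Complex.exp (Complex.I * ((τ * Real.log (M + a / q) : ℝ) : ℂ)) / (1 + Complex.I * τ)‖
        ≤ (A / q + 1) / |τ| := by
      have h4 : |τ| ≤ ‖(1 + Complex.I * τ : ℂ)‖ := by
        simpa using Complex.abs_im_le_norm (1 + Complex.I * τ)
      rw [norm_div, norm_mul, mul_comm Complex.I, Complex.norm_exp_ofReal_mul_I, mul_one,
        Complex.norm_real, Real.norm_of_nonneg (by positivity)]
      exact div_le_div₀ (by positivity) (by linarith only [hMy, hβ1]) hτ' h4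
    have h5 : C * (A / q) ^ (1 - c) ≤ |C| * A ^ (1 - min c 1) :=
      mul_le_mul (le_abs_self C) hpow2 (by positivity) (abs_nonneg C)
    rw [h2, norm_mul, norm_mul, norm_nit, mul_one]
    refine (mul_le_of_le_one_left (norm_nonneg _) (hψ _)).trans ?_
    exact (norm_le_insert' _ _).trans (add_le_add h3 (h1.trans h5))
  have hB : ‖∑ m ∈ range M, ∑ a ∈ range q, f (q * (m + 1) + a)‖
      ≤ q * ((A / q + 1) / |τ| + |C| * A ^ (1 - min c 1)) := by
    rw [sum_comm]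
    refine (norm_sum_le _ _).trans ((sum_le_card_nsmul _ _ _ hS).trans ?_)
    rw [card_range, nsmul_eq_mul]
  obtain ⟨k, hk, hkq⟩ : ∃ k, q * (M + 1) = y + 1 + k ∧ k ≤ q := by
    have h1 : q * M + y % q = y := Nat.div_add_mod y q
    have h2 : y % q < q := Nat.mod_lt y hq
    exact ⟨q - 1 - y % q, by rw [mul_add_one]; omega, by omega⟩
  have h1 := MRTI_range_mul f q (M + 1)
  rw [hk, sum_range_add, sum_range_succ', sum_range_succ'] at h1
  have h3 : ∑ n ∈ Icc 1 y, f n = ∑ m ∈ range M, ∑ a ∈ range q, f (q * (m + 1) + a)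
      + ∑ a ∈ range q, f (q * 0 + a) - f 0 - ∑ n ∈ range k, f (y + 1 + n) := by
    rw [MRTI_Icc, ← h1]; ring
  have h4 := MRTI_range_le (f := fun a => f (q * 0 + a)) (fun n => hf1 _) q
  have h5 := MRTI_range_le (f := fun n => f (y + 1 + n)) (fun n => hf1 _) k
  have h6 : (k : ℝ) ≤ q := by exact_mod_cast hkq
  have h7 : ‖∑ n ∈ Icc 1 y, f n‖ ≤ q * ((A / q + 1) / |τ| + |C| * A ^ (1 - min c 1))
      + q + 1 + q := by
    rw [h3]
    refine (norm_sub_le _ _).trans (add_le_add ((norm_sub_le _ _).trans (add_le_add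
      ((norm_add_le _ _).trans (add_le_add hB h4)) (hf1 0))) (h5.trans h6))
  refine h7.trans ?_
  have h8 : (q : ℝ) ≤ q * A ^ (1 - min c 1) := le_mul_of_one_le_right hq'.le hpow1
  have h9 : (q : ℝ) * ((A / q + 1) / |τ|) ≤ 2 * A / |τ| := by
    rw [← mul_div_assoc, mul_add, mul_div_cancel₀ _ hq'.ne']
    exact div_le_div_of_nonneg_right (by linarith only [hqA]) hτ'.le
  linarith only [hq1, h8, h9]

lemma DP_log_le {ψ : ℕ → ℂ} {τ B : ℝ} {y : ℕ} (h : ∀ j ≤ y, ‖DP (Icc 1 j) ψ τ‖ ≤ B) :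
    ‖DP (Icc 1 y) (fun n => ψ n * (Real.log n : ℂ)) τ‖ ≤ 2 * Real.log y * B := by
  have key : ∀ j ≤ y, ‖DP (Icc 1 j) (fun n => ψ n * (Real.log n : ℂ)) τ
      - DP (Icc 1 j) ψ τ * (Real.log j : ℂ)‖ ≤ B * Real.log j := by
    intro j hj
    induction j with
    | zero => simp [DP]
    | succ j ih =>
      have h1 := ih (by omega)
      have h2 : 0 ≤ Real.log (j + 1 : ℕ) - Real.log j := by
        rcases Nat.eq_zero_or_pos j with rfl | h0
        · simp
        · exact sub_nonneg.2 (Real.log_le_log (by exact_mod_cast h0) (by exact_mod_cast j.le_succ))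
      have e : DP (Icc 1 (j + 1)) (fun n => ψ n * (Real.log n : ℂ)) τ
          - DP (Icc 1 (j + 1)) ψ τ * (Real.log (j + 1 : ℕ) : ℂ) =
          DP (Icc 1 j) (fun n => ψ n * (Real.log n : ℂ)) τ - DP (Icc 1 j) ψ τ * (Real.log j : ℂ)
          - DP (Icc 1 j) ψ τ * ((Real.log (j + 1 : ℕ) - Real.log j : ℝ) : ℂ) := by
        simp only [DP, sum_Icc_succ_top (Nat.succ_le_succ j.zero_le), Complex.ofReal_sub]
        ring
      rw [e]
      refine (norm_sub_le _ _).trans ?_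
      rw [norm_mul, Complex.norm_real, Real.norm_of_nonneg h2]
      linarith only [h1, hj, h2, mul_le_mul_of_nonneg_right (h j (by omega)) h2]
  have h1 := (norm_le_insert' _ _).trans (add_le_add le_rfl (key y le_rfl))
  rw [norm_mul, Complex.norm_real, Real.norm_of_nonneg (Real.log_natCast_nonneg y)] at h1
  linarith [mul_le_mul_of_nonneg_right (h y le_rfl) (Real.log_natCast_nonneg y)]

theorem typeI_ev : ∃ c : ℝ, 0 < c ∧ ∀ A : ℕ, ∀ᶠ X : ℕ in atTop, ∀ N : ℕ, X ≤ N ^ 2 → N ≤ X ^ 2 →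
    ∀ q : ℕ, 1 ≤ q → (q : ℝ) ≤ Real.log X ^ A → ∀ ψ : ℕ → ℂ, (∀ n, ‖ψ n‖ ≤ 1) →
    (∀ n, ψ (n + q) = ψ n) → ∀ d y : ℕ, 1 ≤ d → d ≤ KK X ^ 3 → d * y ≤ 20 * N → ∀ τ : ℝ, τ ≠ 0 →
    |τ| ≤ (X : ℝ) ^ 3 →
      ‖DP (Icc 1 y) ψ τ‖ ≤ N * (40 / |τ| + (X : ℝ) ^ (-c)) / d ∧
      ‖DP (Icc 1 y) (fun n => ψ n * (Real.log n : ℂ)) τ‖
        ≤ 6 * Real.log X * (N * (40 / |τ| + (X : ℝ) ^ (-c)) / d) := by
  obtain ⟨c, hc, C, hC1, hC⟩ := typeI 8
  refine ⟨c / 80, by positivity, fun A => ?_⟩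
  filter_upwards [KK_spec, MRTI_ev 1 (A * 2) (θ := 1 / 40) (by norm_num),
    MRTI_ev (20 * C) A (θ := c / 80) (by positivity), eventually_ge_atTop 20]
    with X hK h2 h3 h20 N hN1 hN2 q hq hqA ψ hψ per d y hd hdK hdy τ hτ hτX
  have hX : (20 : ℝ) ≤ X := by exact_mod_cast h20
  have hX0 : (0 : ℝ) < X := by linarith only [hX]
  have hd1 : (1 : ℝ) ≤ d := by exact_mod_cast hd
  have hR : ((X : ℝ) ^ (1 / 40 : ℝ)) ^ 40 = X := by
    rw [← Real.rpow_natCast, ← Real.rpow_mul hX0.le]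
    norm_num
  have hRc : ((X : ℝ) ^ (1 / 40 : ℝ)) ^ (-c) = (X : ℝ) ^ (-(c / 40)) := by
    rw [← Real.rpow_mul hX0.le]
    congr 1
    ring
  have hR1 : 1 ≤ (X : ℝ) ^ (1 / 40 : ℝ) := Real.one_le_rpow (by linarith only [hX]) (by norm_num)
  have hK2 := hK.2.1
  clear hK
  generalize (X : ℝ) ^ (1 / 40 : ℝ) = R at hR hRc hR1 hK2 h2
  have hdR : (d : ℝ) ≤ R ^ 3 :=
    le_trans (by exact_mod_cast hdK) (pow_le_pow_left₀ (Nat.cast_nonneg _) hK2 3)
  have hNR : R ^ 20 ≤ N := by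
    refine le_of_sq_le_sq ?_ (Nat.cast_nonneg N)
    rw [← pow_mul, hR]
    exact_mod_cast hN1
  have hA17 : R ^ 17 ≤ 20 * N / d := by
    rw [le_div_iff₀ (by linarith only [hd1])]
    have h4 : R ^ 17 * d ≤ R ^ 17 * R ^ 3 := mul_le_mul_of_nonneg_left hdR (by positivity)
    rw [← pow_add] at h4
    linarith only [h4, hNR, Nat.cast_nonneg (α := ℝ) N, h4.trans hNR]
  have hA1 : R ≤ 20 * N / d := (le_self_pow₀ hR1 (by norm_num)).trans hA17
  have hq2 : (q : ℝ) ^ 2 ≤ 20 * N / d := by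
    rw [one_mul, pow_mul] at h2
    exact ((pow_le_pow_left₀ (Nat.cast_nonneg q) hqA 2).trans h2).trans hA1
  have hτ2 : |τ| ≤ (20 * N / d : ℝ) ^ 8 := by
    refine hτX.trans (le_trans ?_ (pow_le_pow_left₀ (by positivity) hA17 8))
    rw [← hR, ← pow_mul, ← pow_mul]
    exact pow_le_pow_right₀ hR1 (by norm_num)
  have herr : C * q * (20 * N / d : ℝ) ^ (1 - c) ≤ N / d * (X : ℝ) ^ (-(c / 80)) := by
    have hp : (0 : ℝ) < 20 * N / d := by linarith only [hR1, hA1]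
    have h4 : (20 * N / d : ℝ) ^ (-c) ≤ (X : ℝ) ^ (-(c / 40)) :=
      hRc ▸ Real.rpow_le_rpow_of_nonpos (by linarith only [hR1]) hA1 (by linarith only [hc])
    have h5 : 20 * C * q ≤ (X : ℝ) ^ (c / 80) :=
      (mul_le_mul_of_nonneg_left hqA (by linarith only [hC1])).trans h3
    have h6 : (X : ℝ) ^ (c / 80) * (X : ℝ) ^ (-(c / 40)) = (X : ℝ) ^ (-(c / 80)) := by
      rw [← Real.rpow_add hX0]
      congr 1
      ring
    rw [sub_eq_add_neg, Real.rpow_add hp, Real.rpow_one, ← h6]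
    calc _ = N / d * (20 * C * q * (20 * N / d : ℝ) ^ (-c)) := by ring
      _ ≤ _ := mul_le_mul_of_nonneg_left
          (mul_le_mul h5 h4 (by positivity) (by positivity)) (by positivity)
  have key : ∀ j ≤ y, ‖DP (Icc 1 j) ψ τ‖ ≤ N * (40 / |τ| + (X : ℝ) ^ (-(c / 80))) / d := by
    intro j hj
    have h4 : (j : ℝ) ≤ 20 * N / d := by
      rw [le_div_iff₀ (by linarith only [hd1]), mul_comm]
      exact_mod_cast (Nat.mul_le_mul_left d hj).trans hdy
    refine (hC q hq ψ hψ per _ hq2 τ hτ hτ2 j h4).trans ((add_le_add le_rfl herr).trans_eq ?_)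
    ring
  refine ⟨key y le_rfl, (DP_log_le key).trans (mul_le_mul_of_nonneg_right ?_ (by positivity))⟩
  have h4 : Real.log y ≤ Real.log ((X : ℝ) ^ 3) := by
    rcases Nat.eq_zero_or_pos y with rfl | h0
    · rw [Nat.cast_zero, Real.log_zero]
      exact Real.log_nonneg (one_le_pow₀ (by linarith only [hX]))
    · refine Real.log_le_log (by exact_mod_cast h0) ?_
      have h5 : y ≤ X ^ 3 := by
        calc y ≤ d * y := Nat.le_mul_of_pos_left y hd
          _ ≤ 20 * N := hdy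
          _ ≤ X * X ^ 2 := Nat.mul_le_mul h20 hN2
          _ = X ^ 3 := by ring
      exact_mod_cast h5
  rw [Real.log_pow] at h4
  push_cast at h4
  linarith only [h4]

end Pool.Agent.Work.MP_678620_nt
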