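import Pool.Agent.Work.MP_678620_nt.MRGamA
import Pool.Agent.Work.MP_678620_nt.MRTI
import Pool.Agent.Lib.LargeSieve.Vaughan

/-! Primes against a short cofactor. -/

set_option autoImplicit false
open Finset Filter MeasureTheory Pool.Agent.Lib.MR

namespace Pool.Agent.Work.MP_678620_nt

namespace GamB

open Pool.Agent.Lib.LargeSieve ArithmeticFunction

/-- Twist by a character. -/
noncomputable def tw {r : ℕ} (χ : DirichletCharacter ℂ r) (f : ArithmeticFunction ℝ) :
    ArithmeticFunction ℂ := ⟨fun n => χ n * (f n : ℂ), by simp⟩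

/-- A sequence as an arithmetic function. -/
noncomputable def af (α : ℕ → ℂ) : ArithmeticFunction ℂ :=
  ⟨fun n => if n = 0 then 0 else α n, by simp⟩

variable {r : ℕ} (χ : DirichletCharacter ℂ r)

lemma tw_apply (f : ArithmeticFunction ℝ) (n : ℕ) : tw χ f n = χ n * (f n : ℂ) := rfl

lemma af_apply (α : ℕ → ℂ) (n : ℕ) : af α n = if n = 0 then 0 else α n := rfl

lemma tw_add (f g : ArithmeticFunction ℝ) : tw χ (f + g) = tw χ f + tw χ g := by
  ext n
  simp only [tw_apply, ArithmeticFunction.add_apply]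
  push_cast
  ring

lemma tw_mul (f g : ArithmeticFunction ℝ) : tw χ (f * g) = tw χ f * tw χ g := by
  ext n
  simp only [tw_apply, mul_apply]
  push_cast
  rw [mul_sum]
  refine sum_congr rfl fun x hx => ?_
  rw [← (Nat.mem_divisorsAntidiagonal.1 hx).1, Nat.cast_mul, map_mul]
  ring

lemma norm_tw_le (f : ArithmeticFunction ℝ) (n : ℕ) : ‖tw χ f n‖ ≤ |f n| := by
  rw [tw_apply, norm_mul, Complex.norm_real, Real.norm_eq_abs]
  exact mul_le_of_le_one_left (abs_nonneg _) (χ.norm_le_one _)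

lemma DP_mul (f g : ArithmeticFunction ℂ) (y : ℕ) (u : ℝ) :
    DP (Icc 1 y) ⇑(f * g) u = Hy (Icc 1 y) f g y u := by
  rw [Hy_eq]
  rfl

lemma DP_congr {f g : ℕ → ℂ} (h : ∀ n, n ≠ 0 → f n = g n) (y : ℕ) (u : ℝ) :
    DP (Icc 1 y) f u = DP (Icc 1 y) g u :=
  sum_congr rfl fun n hn => by rw [h n (by have := (mem_Icc.1 hn).1; omega)]

/-- A bound of the expected size for the initial sums. -/
def P (g : ℕ → ℂ) (u : ℝ) (Y K : ℕ) (E : ℝ) : Prop :=
  ∀ d y : ℕ, 1 ≤ d → d ≤ K → d * y ≤ Y → ‖DP (Icc 1 y) g u‖ ≤ E / d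

lemma P.step {g b : ArithmeticFunction ℂ} {u : ℝ} {Y K K1 K2 : ℕ} {E C L : ℝ}
    (h : P g u Y K E) (hE : 0 ≤ E) (hK : K1 * K2 ≤ K) (hC : ∀ n, ‖b n‖ ≤ C)
    (hb : ∀ n, K2 < n → b n = 0) (hL : 1 + Real.log K2 ≤ L) :
    P ⇑(b * g) u Y K1 (C * L * E) := by
  intro d y hd hdK hy
  have hC0 : 0 ≤ C := (norm_nonneg _).trans (hC 0)
  have hd0 : (0 : ℝ) < d := by exact_mod_cast hd
  rw [DP_mul]
  unfold Hy
  calc ‖∑ n ∈ Icc 1 y, b n * nit n u * DP (Icc 1 (y / n)) g u‖
      ≤ ∑ n ∈ Icc 1 y, if n ≤ K2 then C * E / d * (1 / n) else 0 := by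
        refine (norm_sum_le _ _).trans (sum_le_sum fun n hn => ?_)
        have hn1 := (mem_Icc.1 hn).1
        have hn0 : (0 : ℝ) < n := by exact_mod_cast hn1
        split_ifs with h2
        · rw [norm_mul, norm_mul, norm_nit, mul_one]
          have h3 := h (d * n) (y / n) (Nat.mul_pos hd hn1)
            ((Nat.mul_le_mul hdK h2).trans hK)
            (le_trans (by rw [mul_assoc]; exact Nat.mul_le_mul_left _ (Nat.mul_div_le y n)) hy)
          refine (mul_le_mul (hC n) h3 (norm_nonneg _) hC0).trans (le_of_eq ?_)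
          push_cast
          field_simp
        · rw [hb n (by omega)]; simp
    _ ≤ ∑ n ∈ Icc 1 K2, C * E / d * (1 / n) := by
        rw [← sum_filter]
        refine sum_le_sum_of_subset_of_nonneg (fun n hn => ?_) fun n _ _ => by positivity
        simp only [mem_filter, mem_Icc] at hn ⊢
        omega
    _ = C * E / d * HH K2 := by rw [← mul_sum]; rfl
    _ ≤ C * E / d * L := mul_le_mul_of_nonneg_left ((HH_le K2).trans hL) (by positivity)
    _ = C * L * E / d := by ring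

lemma norm_mul_le {f g : ArithmeticFunction ℂ} {k : ℕ} (hf : ∀ n, ‖f n‖ ≤ 1)
    (hg : ∀ n, ‖g n‖ ≤ (n.divisors.card : ℝ) ^ k) (n : ℕ) :
    ‖(f * g) n‖ ≤ (n.divisors.card : ℝ) ^ (k + 1) := by
  rw [mul_apply, Nat.sum_divisorsAntidiagonal' fun a b => f a * g b]
  refine (norm_sum_le _ _).trans ?_
  rw [pow_succ', ← nsmul_eq_mul]
  refine sum_le_card_nsmul _ _ _ fun d hd => ?_
  rw [norm_mul]
  refine (mul_le_of_le_one_left (norm_nonneg _) (hf _)).trans ((hg d).trans ?_)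
  refine pow_le_pow_left₀ (by positivity) ?_ _
  exact_mod_cast card_le_card
    (Nat.divisors_subset_of_dvd (Nat.mem_divisors.1 hd).2 (Nat.mem_divisors.1 hd).1)

lemma mul_zero_of_le {f : ArithmeticFunction ℂ} (g : ArithmeticFunction ℂ) {K : ℕ}
    (hf : ∀ n ≤ K, f n = 0) : ∀ n ≤ K, (f * g) n = 0 := by
  intro n hn
  rw [mul_apply]
  refine sum_eq_zero fun x hx => ?_
  rw [hf x.1 ((Nat.divisor_le (Nat.fst_mem_divisors_of_mem_antidiagonal hx)).trans hn), zero_mul]

/-- The cofactor of the large prime powers. -/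
noncomputable def co (α : ℕ → ℂ) (K : ℕ) : ArithmeticFunction ℂ :=
  af α * (tw χ (highPart muR K) * tw χ zetaR)

/-- The remaining terms of the identity of Vaughan. -/
noncomputable def rest (α : ℕ → ℂ) (K : ℕ) : ArithmeticFunction ℂ :=
  af α * tw χ (lowPart vonMangoldt K) + af α * (tw χ (lowPart muR K) * tw χ log)
    - af α * (tw χ (lowPart muR K) * (tw χ (lowPart vonMangoldt K) * tw χ zetaR))

lemma split (α : ℕ → ℂ) (K y : ℕ) (u : ℝ) : Hy (Icc 1 y) (lv χ) α y u
    = DP (Icc 1 y) (rest χ α K) u + Hy (Ioc K y) (lv χ) (co χ α K) y u := by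
  have h1 : Hy (Icc 1 y) (lv χ) α y u = DP (Icc 1 y) ⇑(tw χ vonMangoldt * af α) u := by
    rw [DP_mul]
    refine sum_congr rfl fun n _ => ?_
    rw [DP_congr (f := af α) (g := α) fun n hn => by rw [af_apply, if_neg hn]]
    rfl
  have h2 : Hy (Ioc K y) (lv χ) (co χ α K) y u
      = DP (Icc 1 y) ⇑(tw χ (highPart vonMangoldt K) * co χ α K) u := by
    rw [DP_mul]
    unfold Hy
    have h3 : Ioc K y = (Icc 1 y).filter fun n => ¬ n ≤ K := by
      ext n
      simp only [mem_filter, mem_Icc, mem_Ioc]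
      omega
    rw [h3, sum_filter]
    refine sum_congr rfl fun n _ => ?_
    rw [tw_apply, highPart_apply]
    by_cases h : n ≤ K
    · simp [h]
    · rw [if_pos h, if_neg h]; rfl
  have h3 := congrArg (tw χ) (vaughan K K)
  simp only [tw_add, tw_mul] at h3
  have h4 : tw χ vonMangoldt * af α = rest χ α K + tw χ (highPart vonMangoldt K) * co χ α K := by
    unfold rest co
    linear_combination af α * h3
  rw [h1, h2, h4]
  unfold DP
  rw [← sum_add_distrib]
  exact sum_congr rfl fun n _ => by rw [ArithmeticFunction.add_apply, add_mul]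

lemma norm_af_le {α : ℕ → ℂ} (h : ∀ n, ‖α n‖ ≤ 1) (n : ℕ) : ‖af α n‖ ≤ 1 := by
  rw [af_apply]
  split_ifs
  · simp
  · exact h n

lemma co_le {α : ℕ → ℂ} (h : ∀ n, ‖α n‖ ≤ 1) (K n : ℕ) :
    ‖co χ α K n‖ ≤ (n.divisors.card : ℝ) ^ 2 := by
  refine norm_mul_le (norm_af_le h) (norm_mul_le (k := 0) (fun m => ?_) fun m => ?_) n
  · refine (norm_tw_le χ _ m).trans ?_
    rw [highPart_apply]
    split_ifs
    · simp
    · exact abs_muR_le m
  · refine (norm_tw_le χ _ m).trans ?_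
    rcases eq_or_ne m 0 with rfl | hm
    · simp
    · rw [zetaR_apply hm]; simp

lemma co_zero (α : ℕ → ℂ) (K : ℕ) : ∀ n ≤ K, co χ α K n = 0 := by
  unfold co
  rw [mul_comm (af α), mul_assoc]
  exact mul_zero_of_le _ fun n hn => by rw [tw_apply, highPart_apply, if_pos hn]; simp

lemma low_zero (f : ArithmeticFunction ℝ) (K n : ℕ) (h : K < n) : tw χ (lowPart f K) n = 0 := by
  rw [tw_apply, lowPart_apply, if_neg (by omega)]; simp

lemma rest_le {α : ℕ → ℂ} (h : ∀ n, ‖α n‖ ≤ 1) {K : ℕ} (hK : 1 ≤ K) (h0 : ∀ n, K < n → α n = 0)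
    {u E l : ℝ} {Y : ℕ} (hE : 0 ≤ E) (hl : 33 ≤ l) (hKl : Real.log K ≤ l)
    (hKE : (K : ℝ) ^ 2 * l ≤ E) (h1 : P (fun n => χ n) u Y (K ^ 3) E)
    (h2 : P (fun n => χ n * (Real.log n : ℂ)) u Y (K ^ 3) (6 * l * E)) {y : ℕ} (hy : y ≤ Y) :
    ‖DP (Icc 1 y) (rest χ α K) u‖ ≤ l ^ 5 * E := by
  have hL : 1 + Real.log K ≤ 2 * l := by linarith only [hl, hKl]
  have ha0 : ∀ n, K < n → af α n = 0 := fun n hn => by
    rw [af_apply, if_neg (by omega), h0 n hn]
  have hμ : ∀ n, ‖tw χ (lowPart muR K) n‖ ≤ 1 := fun n => by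
    refine (norm_tw_le χ _ n).trans ?_
    rw [lowPart_apply]
    split_ifs
    · exact abs_muR_le n
    · simp
  have hΛ : ∀ n, ‖tw χ (lowPart vonMangoldt K) n‖ ≤ l := fun n => by
    refine (norm_tw_le χ _ n).trans ?_
    rw [lowPart_apply]
    split_ifs with hn
    · rw [abs_of_nonneg vonMangoldt_nonneg]
      exact vonMangoldt_le_log.trans ((log_nat_mono hn).trans hKl)
    · simp only [abs_zero]; linarith only [hl]
  have h1' : P (tw χ zetaR) u Y (K ^ 3) E := fun d z hd hdK hz => by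
    rw [DP_congr (g := fun n => χ n) fun n hn => by rw [tw_apply, zetaR_apply hn]; simp]
    exact h1 d z hd hdK hz
  have h2' : P (tw χ log) u Y (K ^ 3) (6 * l * E) := h2
  have h3' : P (tw χ (lowPart vonMangoldt K)) u Y K E := fun d z hd hdK _ => by
    have hd0 : (0 : ℝ) < d := by exact_mod_cast hd
    have hdK' : (d : ℝ) ≤ K := by exact_mod_cast hdK
    refine (norm_DP_le _ _ _).trans ?_
    rw [le_div_iff₀ hd0]
    have h5 : ∑ n ∈ Icc 1 z, ‖tw χ (lowPart vonMangoldt K) n‖ ≤ K * l := by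
      refine (sum_le_sum fun n _ => norm_tw_le χ _ n).trans
        (sum_abs_lowPart_le _ K z l (by linarith only [hl]) fun n hn => ?_)
      rw [abs_of_nonneg vonMangoldt_nonneg]
      exact vonMangoldt_le_log.trans ((log_nat_mono hn).trans hKl)
    calc _ ≤ K * l * K := mul_le_mul h5 hdK' hd0.le (by positivity)
      _ ≤ E := by nlinarith only [hKE]
  have k1 : 1 * K ≤ K := (one_mul K).le
  have k2 : 1 * y ≤ Y := by omega
  have k3 : K * K * K ≤ K ^ 3 := le_of_eq (by ring)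
  have k4 : K * K ≤ K ^ 3 := le_trans (Nat.le_mul_of_pos_right _ hK) k3
  have hl0 : 0 ≤ l := by linarith only [hl]
  have e1 := (h3'.step hE k1 (norm_af_le h) ha0 hL) 1 y le_rfl le_rfl k2
  have e2 := ((h2'.step (by positivity) k4 hμ (low_zero χ _ K) hL).step
    (by positivity) k1 (norm_af_le h) ha0 hL) 1 y le_rfl le_rfl k2
  have e3 := (((h1'.step hE k3 hΛ (low_zero χ _ K) hL).step
    (K1 := K) (K2 := K) (by positivity) le_rfl hμ (low_zero χ _ K) hL).step
    (by positivity) k1 (norm_af_le h) ha0 hL) 1 y le_rfl le_rfl k2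
  have e4 : DP (Icc 1 y) (rest χ α K) u
      = DP (Icc 1 y) ⇑(af α * tw χ (lowPart vonMangoldt K)) u
        + DP (Icc 1 y) ⇑(af α * (tw χ (lowPart muR K) * tw χ log)) u
        - DP (Icc 1 y)
          ⇑(af α * (tw χ (lowPart muR K) * (tw χ (lowPart vonMangoldt K) * tw χ zetaR))) u := by
    unfold DP
    rw [← sum_add_distrib, ← sum_sub_distrib]
    refine sum_congr rfl fun n _ => ?_
    unfold rest
    rw [sub_eq_add_neg, ArithmeticFunction.add_apply, ArithmeticFunction.add_apply,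
      ArithmeticFunction.neg_apply]
    ring
  rw [e4]
  refine (norm_sub_le _ _).trans ((add_le_add ((norm_add_le _ _).trans (add_le_add e1 e2)) e3).trans ?_)
  simp only [Nat.cast_one, div_one, one_mul]
  have h6 : 2 * l + 24 * l ^ 3 + 8 * l ^ 4 ≤ l ^ 5 := by
    have h7 : l ≤ l ^ 4 := le_self_pow₀ (by linarith only [hl]) (by norm_num)
    have h8 : l ^ 3 ≤ l ^ 4 / 33 := by
      rw [le_div_iff₀ (by norm_num), pow_succ l 3]
      exact mul_le_mul_of_nonneg_left hl (by positivity)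
    have h9 : 33 * l ^ 4 ≤ l ^ 5 := by
      rw [pow_succ' l 4]
      exact mul_le_mul_of_nonneg_right hl (by positivity)
    have : 0 ≤ l ^ 4 := by positivity
    linarith only [hl, h7, h8, h9]
  calc _ = (2 * l + 24 * l ^ 3 + 8 * l ^ 4) * E := by ring
    _ ≤ _ := mul_le_mul_of_nonneg_right h6 hE

end GamB

theorem gamB_lv (A : ℕ) {δ : ℝ} (hδ : 0 < δ) : ∃ B : ℕ, ∀ᶠ X : ℕ in atTop,
    ∀ N : ℕ, X ≤ N ^ 2 → N ≤ X ^ 2 → ∀ (r : ℕ) [NeZero r] (χ : DirichletCharacter ℂ r),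
    (r : ℝ) ≤ Real.log X ^ A → ∀ α : ℕ → ℂ, (∀ n, ‖α n‖ ≤ 1) → (∀ n, KK X < n → α n = 0) →
    ∀ y : ℕ, y ≤ 20 * N → ∀ (T : ℝ) (U : Set ℝ), Fr X δ T U →
    (∀ u ∈ U, Real.log X ^ B ≤ |u|) →
      MS T U (Hy (Icc 1 y) (lv χ) α y) ≤ (N : ℝ) ^ 2 / Real.log X ^ A := by
  obtain ⟨B, hB⟩ := gamA (A + 5) 2 hδ
  obtain ⟨c, hc, hI⟩ := typeI_ev
  have hc' : 0 < min c (1 / 4) := lt_min hc (by norm_num)
  refine ⟨B + (3 * (A + 5) + 1), ?_⟩
  have hlog : ∀ᶠ X : ℕ in atTop, (33 : ℝ) ≤ Real.log X :=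
    (Real.tendsto_log_atTop.comp tendsto_natCast_atTop_atTop).eventually_ge_atTop 33
  filter_upwards [hB, hI A, decay_MS (A + 5) hδ hc', KK_spec, hlog, eventually_ge_atTop 1]
    with X hB hI hD hK hl hX1
  intro N hN1 hN2 r _ χ hr α hα hα0 y hy T U hU hu
  have hX : (1 : ℝ) ≤ X := by exact_mod_cast hX1
  have hl1 : (1 : ℝ) ≤ Real.log X := by linarith only [hl]
  have hK1 : 1 ≤ KK X := by
    have : (1 : ℝ) ≤ KK X := (Real.one_le_rpow hX (by norm_num)).trans hK.1
    exact_mod_cast this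
  have hKX : (KK X : ℝ) ≤ X := hK.2.1.trans (Real.rpow_le_self_of_one_le hX (by norm_num))
  have hKl : Real.log (KK X) ≤ Real.log X :=
    Real.log_le_log (by exact_mod_cast hK1) hKX
  have hpow : ∀ a b : ℕ, a ≤ b → Real.log X ^ a ≤ Real.log X ^ b := fun a b h =>
    pow_le_pow_right₀ hl1 h
  have hKE : (KK X : ℝ) ^ 2 * Real.log X ≤ N * (X : ℝ) ^ (-(min c (1 / 4))) := by
    have h1 : (KK X : ℝ) ^ 2 ≤ (X : ℝ) ^ (1 / 20 : ℝ) := by
      refine (pow_le_pow_left₀ (by positivity) hK.2.1 2).trans (le_of_eq ?_)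
      rw [← Real.rpow_natCast, ← Real.rpow_mul (by positivity)]
      norm_num
    have h2 : Real.log X ≤ (X : ℝ) ^ (1 / 5 : ℝ) := by
      have h3 := Real.log_le_rpow_div (x := X) (ε := 1 / 10) (by positivity) (by norm_num)
      have h5 : (X : ℝ) ^ (1 / 5 : ℝ) = (X : ℝ) ^ (1 / 10 : ℝ) * (X : ℝ) ^ (1 / 10 : ℝ) := by
        rw [← Real.rpow_add (by positivity)]; norm_num
      have h6 : Real.log ((X : ℝ) ^ (1 / 10 : ℝ)) = 1 / 10 * Real.log X :=
        Real.log_rpow (by positivity) _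
      have h9 : (10 : ℝ) ≤ (X : ℝ) ^ (1 / 10 : ℝ) := by
        have h10 : Real.exp (33 / 10) ≤ (X : ℝ) ^ (1 / 10 : ℝ) := by
          rw [← Real.exp_log (x := (X : ℝ) ^ (1 / 10 : ℝ)) (by positivity), h6]
          exact Real.exp_le_exp.2 (by linarith only [hl])
        have h11 : Real.exp (33 / 10) = Real.exp (33 / 40) ^ 4 := by
          rw [← Real.exp_nat_mul]; norm_num
        have h12 := Real.add_one_le_exp (33 / 40)
        have h13 : (33 / 40 + 1 : ℝ) ^ 4 ≤ Real.exp (33 / 40) ^ 4 :=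
          pow_le_pow_left₀ (by norm_num) h12 4
        norm_num at h13
        linarith only [h10, h11, h13]
      rw [h5]
      nlinarith only [h3, h9, hl]
    have h3 : (X : ℝ) ^ (1 / 2 : ℝ) ≤ N := by
      have h4 : (X : ℝ) ≤ (N : ℝ) ^ 2 := by exact_mod_cast hN1
      rw [← Real.sqrt_eq_rpow]
      exact Real.sqrt_le_iff.2 ⟨by positivity, h4⟩
    calc (KK X : ℝ) ^ 2 * Real.log X ≤ (X : ℝ) ^ (1 / 20 : ℝ) * (X : ℝ) ^ (1 / 5 : ℝ) :=
          mul_le_mul h1 h2 (by linarith only [hl]) (by positivity)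
      _ = (X : ℝ) ^ (1 / 2 : ℝ) * (X : ℝ) ^ (-(1 / 4) : ℝ) := by
          rw [← Real.rpow_add (by positivity), ← Real.rpow_add (by positivity)]; norm_num
      _ ≤ N * (X : ℝ) ^ (-(min c (1 / 4))) :=
          mul_le_mul h3 (Real.rpow_le_rpow_of_exponent_le hX (neg_le_neg (min_le_right _ _)))
            (by positivity) (by positivity)
  have h1 := (hB N hN1 hN2 r χ (hr.trans (hpow _ _ (by omega))) (GamB.co χ α (KK X))
    (GamB.co_le χ hα _) (GamB.co_zero χ α _) (KK X) y (Nat.floor_le_of_le hK.2.2) hy T U hU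
    fun u h => (hpow _ _ (by omega)).trans (hu u h)).1
  have h2 := hD N T U hU (fun u h => (hpow _ _ (by omega)).trans (hu u h))
    (DP (Icc 1 y) (GamB.rest χ α (KK X))) (Trig.DP _ _) fun u h => by
      have hu0 : u ≠ 0 := by
        have := (one_le_pow₀ hl1).trans (hu u h)
        intro e
        rw [e, abs_zero] at this
        linarith only [this]
      have hE : (N : ℝ) * (40 / |u| + (X : ℝ) ^ (-c))
          ≤ N * (40 / |u| + (X : ℝ) ^ (-(min c (1 / 4)))) :=
        mul_le_mul_of_nonneg_left (add_le_add le_rfl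
          (Real.rpow_le_rpow_of_exponent_le hX (neg_le_neg (min_le_left _ _)))) (by positivity)
      have hT := hI N hN1 hN2 r (Nat.pos_of_ne_zero (NeZero.ne r)) hr (fun n => χ n)
        (fun n => χ.norm_le_one _) fun n => by simp
      refine (GamB.rest_le χ hα hK1 hα0 (Y := 20 * N)
        (E := N * (40 / |u| + (X : ℝ) ^ (-(min c (1 / 4))))) (by positivity) hl hKl
        (hKE.trans (mul_le_mul_of_nonneg_left (le_add_of_nonneg_left (by positivity))
          (by positivity))) (fun d z hd hdK hz => ?_) (fun d z hd hdK hz => ?_) hy).trans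
        (mul_le_mul_of_nonneg_right (hpow _ _ (by omega)) (by positivity))
      · exact (hT d z hd hdK hz u hu0 (hU.hi u h)).1.trans
          (div_le_div_of_nonneg_right hE (by positivity))
      · refine (hT d z hd hdK hz u hu0 (hU.hi u h)).2.trans ?_
        rw [mul_div_assoc (6 * Real.log X)]
        exact mul_le_mul_of_nonneg_left (div_le_div_of_nonneg_right hE (by positivity))
          (by positivity)
  have h3 : Hy (Icc 1 y) (lv χ) α y = fun u => DP (Icc 1 y) (GamB.rest χ α (KK X)) u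
      + Hy (Ioc (KK X) y) (lv χ) (GamB.co χ α (KK X)) y u := funext (GamB.split χ α _ y)
  rw [h3]
  refine (MS_add_le (Trig.DP _ _) (trig_Hy _ _ _ _) T U).trans ?_
  have h4 : (4 : ℝ) ≤ Real.log X ^ 5 :=
    le_trans (by linarith only [hl]) (le_self_pow₀ hl1 (by norm_num))
  have h5 : 4 * ((N : ℝ) ^ 2 / Real.log X ^ (A + 5)) ≤ (N : ℝ) ^ 2 / Real.log X ^ A := by
    rw [pow_add, ← div_div, ← mul_div_assoc, div_le_iff₀ (by positivity), mul_comm]
    exact mul_le_mul_of_nonneg_left h4 (by positivity)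
  linarith only [h1, h2, h5]

end Pool.Agent.Work.MP_678620_nt
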