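import Pool.Agent.Work.MP_678620_nt.MRShort
import Pool.Agent.Work.MP_678620_nt.MRShift

/-! Short sums of the triple convolution. -/

set_option autoImplicit false
open Finset Filter MeasureTheory Pool.Agent.Lib.MR

namespace Pool.Agent.Work.MP_678620_nt

lemma MRRed1_ev (K : ℕ) {c : ℝ} (hc : 0 < c) :
    ∀ᶠ X : ℕ in atTop, Real.log X ^ K ≤ Real.exp (Real.log X ^ c) := by
  have h0 : Tendsto (fun X : ℕ => Real.log X) atTop atTop :=
    Real.tendsto_log_atTop.comp tendsto_natCast_atTop_atTop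
  have h1 := ((tendsto_rpow_atTop hc).comp h0).eventually
    ((isLittleO_rpow_exp_atTop (K / c)).bound one_pos)
  filter_upwards [h1, h0.eventually_ge_atTop 0] with X h hX
  simp only [Function.comp, one_mul, Real.norm_eq_abs, Real.abs_exp] at h
  rw [← Real.rpow_mul hX, mul_div_cancel₀ _ hc.ne', Real.rpow_natCast] at h
  exact (le_abs_self _).trans h

/-- The three ranges of frequencies. -/
lemma MRRed1_MS {F₁ F₂ : ℝ → ℂ} (h₁ : Trig F₁) (h₂ : Trig F₂) {S : Finset ℕ} {N : ℕ} {a : ℕ → ℂ}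
    {l m P J : ℝ} (hl : 10 ^ 6 ≤ l) (hm : 1 ≤ m) (hP : 0 < P) (hJ : 0 < J) (hN : 0 < N)
    (hS : S ⊆ Icc 1 (12 * N)) (ha : ∑ n ∈ S, ‖a n‖ ^ 2 ≤ 12 * N * l ^ 6)
    (b₁ : ∀ u, ‖F₁ u‖ ≤ 2 * P) (b₂ : ∀ u, ‖F₂ u‖ ≤ 5 * J / P)
    (b₃ : MS (N * (m ^ 2 * l ^ 5)) ({u | P / (m ^ 2 * l ^ 6) < ‖F₁ u‖} ∩
      {u | |u| ≤ N * (m ^ 5 * l ^ 17)}) (DP S a) ≤ N ^ 2 / (3000 * m)) :
    MS (N * (m ^ 2 * l ^ 5)) Set.univ (fun u => F₁ u * F₂ u * DP S a u)
      ≤ J ^ 2 * N ^ 2 / (10 * m) := by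
  have l1 : 1 ≤ l := le_trans (by norm_num) hl
  have n0 : (0 : ℝ) < N := by exact_mod_cast hN
  have hG := Trig.DP S a
  have hF := (h₁.mul h₂).mul hG
  have lm : l ≤ m * l := le_mul_of_one_le_left (by positivity) hm
  have big : ∀ i j : ℕ, (24 : ℝ) ≤ m ^ i * l ^ (j + 1) := fun i j => by
    clear * - m i l j hl hm l1
    calc (24 : ℝ) ≤ 1 * (1 * l) := by linarith
      _ ≤ m ^ i * (l ^ j * l) := by gcongr; exacts [one_le_pow₀ hm, one_le_pow₀ l1]
      _ = _ := by ring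
  set T := N * (m ^ 2 * l ^ 5) with hT
  set T' := N * (m ^ 5 * l ^ 17) with hT'
  have T0 : 0 < T := by positivity
  have T0' : 0 < T' := by positivity
  have t1 : T + 2 * ((12 * N : ℕ) : ℝ) ≤ 2 * T := by
    have : N * 24 ≤ T := mul_le_mul_of_nonneg_left (big 2 4) n0.le
    push_cast
    linarith
  have t2 : T' + 2 * ((12 * N : ℕ) : ℝ) ≤ 2 * T' := by
    have : N * 24 ≤ T' := mul_le_mul_of_nonneg_left (big 5 16) n0.le
    push_cast
    linarith
  have m0 : MeasurableSet {u | ‖F₁ u‖ ≤ P / (m ^ 2 * l ^ 6)} :=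
    (isClosed_le h₁.1.norm continuous_const).measurableSet
  have m1 : MeasurableSet {u : ℝ | T' < |u|} :=
    (isOpen_lt continuous_const continuous_abs).measurableSet
  have m2 : MeasurableSet ({u | P / (m ^ 2 * l ^ 6) < ‖F₁ u‖} ∩ {u : ℝ | |u| ≤ T'}) :=
    (isOpen_lt continuous_const h₁.1.norm).measurableSet.inter
      (isClosed_le continuous_abs continuous_const).measurableSet
  have b₄ : ∀ u, ‖F₁ u * F₂ u * DP S a u‖ ≤ 10 * J * ‖DP S a u‖ := fun u => by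
    clear * - F₁ u F₂ S a J P b₁ b₂ hP hJ
    rw [norm_mul, norm_mul]
    calc _ ≤ 2 * P * (5 * J / P) * ‖DP S a u‖ := by gcongr; exacts [b₁ u, b₂ u]
      _ = _ := by field_simp; ring
  have pi4 := Real.pi_le_four
  have e0 : MS T {u | ‖F₁ u‖ ≤ P / (m ^ 2 * l ^ 6)} (fun u => F₁ u * F₂ u * DP S a u)
      ≤ J ^ 2 * N ^ 2 / (30 * m) := by
    clear * - T F₁ P m l F₂ S a J N hF hG m0 b₂ hP hm hl hS T0 pi4 t1 hN ha hJ hT lm
    refine (MS_le_of_le hF hG T m0 (c := P / (m ^ 2 * l ^ 6) * (5 * J / P)) fun u hu => ?_).trans ?_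
    · rw [norm_mul, norm_mul]
      gcongr
      exacts [hu, b₂ u]
    calc _ ≤ (P / (m ^ 2 * l ^ 6) * (5 * J / P)) ^ 2 * (4 * (2 * T) * (12 * N * l ^ 6)) := by
          gcongr
          refine ((MS_mono hG T (Set.subset_univ _)).trans (mean_value hS a T0)).trans ?_
          gcongr
      _ = J ^ 2 * N ^ 2 / (30 * m) * (72000 / (m * l)) := by
          rw [hT]; field_simp; ring
      _ ≤ _ := mul_le_of_le_one_right (by positivity)
          ((div_le_one (by positivity)).2 (by linarith))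
  have e1 : MS T {u : ℝ | T' < |u|} (fun u => F₁ u * F₂ u * DP S a u)
      ≤ J ^ 2 * N ^ 2 / (30 * m) := by
    clear * - T T' F₁ F₂ S a J N m hF hG m1 b₄ l hS T0 T0' pi4 t2 hN hm hl ha hJ hT hT'
    refine (MS_le_of_le hF hG T m1 fun u _ => b₄ u).trans ?_
    calc _ ≤ (10 * J) ^ 2 * (2 * (T / T') ^ 2 * (4 * (2 * T') * (12 * N * l ^ 6))) := by
          gcongr
          refine (MS_tail hS a T0 T0').trans ?_
          gcongr
      _ = J ^ 2 * N ^ 2 / (30 * m) * (576000 / l) := by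
          rw [hT, hT']; field_simp; ring
      _ ≤ _ := mul_le_of_le_one_right (by positivity)
          ((div_le_one (by positivity)).2 (by linarith))
  have e2 := (MS_le_of_le hF hG T m2 fun u _ => b₄ u).trans
    (mul_le_mul_of_nonneg_left b₃ (by positivity))
  have cov : Set.univ ⊆ {u | ‖F₁ u‖ ≤ P / (m ^ 2 * l ^ 6)} ∪ ({u : ℝ | T' < |u|} ∪
      ({u | P / (m ^ 2 * l ^ 6) < ‖F₁ u‖} ∩ {u : ℝ | |u| ≤ T'})) := fun u _ => by
    rcases le_or_gt ‖F₁ u‖ (P / (m ^ 2 * l ^ 6)) with h | h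
    · exact Or.inl h
    rcases le_or_gt |u| T' with h' | h'
    · exact Or.inr (Or.inr ⟨h, h'⟩)
    · exact Or.inr (Or.inl h')
  calc _ ≤ _ := (MS_mono hF T cov).trans ((MS_union_le hF T _ _).trans
        (add_le_add e0 ((MS_union_le hF T _ _).trans (add_le_add e1 e2))))
    _ = _ := by field_simp; ring

lemma MRRed1_card {I V : Finset ℕ} {P : ℝ} {J p : ℕ} (hP : 0 < P) (hJ : 1 ≤ J) (hp : p ∈ I)
    (hI : P ≤ p) (h : ∀ p ∈ I, ∀ w ∈ V, J ≤ 2 * (p * w) ∧ p * w ≤ 5 * J) :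
    (V.card : ℝ) ≤ 5 * J / P := by
  have p0 : 0 < p := by exact_mod_cast hP.trans_le hI
  have : V ⊆ Icc 1 (5 * J / p) := fun w hw => by
    obtain ⟨h1, h2⟩ := h p hp w hw
    refine mem_Icc.2 ⟨Nat.pos_of_ne_zero ?_, (Nat.le_div_iff_mul_le p0).2 (by rwa [mul_comm])⟩
    rintro rfl
    omega
  calc (V.card : ℝ) ≤ ((5 * J / p : ℕ) : ℝ) := by exact_mod_cast (card_le_card this).trans (by simp)
    _ ≤ (5 * J : ℕ) / (p : ℝ) := Nat.cast_div_le
    _ ≤ _ := by push_cast; gcongr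

theorem red1 (A : ℕ) {c0 : ℝ} (hc0 : 0 < c0) : ∃ A' : ℕ, ∀ᶠ X : ℕ in atTop,
    ∀ N : ℕ, X ≤ N ^ 2 → N ≤ X ^ 2 → ∀ c : ℤ → ℂ,
    (∀ n : ℤ, 1 ≤ n → n ≤ 20 * N → ‖c n‖ ≤ Real.log X ^ 3) → KeyP X N (c0 / 2) A' c →
    ∀ h : ℤ, |(h : ℝ)| ≤ Real.log X ^ A → ∀ r : ℕ, 1 ≤ r → (r : ℝ) ≤ Real.log X ^ A →
    ∀ ψ : ℕ → ℂ, (∀ n, ‖ψ n‖ ≤ 1) → (∀ n, ψ (n + r) = ψ n) →
    ∀ (P : ℝ) (I V : Finset ℕ) (J H : ℕ), Real.exp (Real.log X ^ c0) ≤ P → P ≤ J →
    (J : ℝ) ≤ Real.exp √(Real.log X) → (∀ p ∈ I, p.Prime ∧ P ≤ p ∧ (p : ℝ) ≤ 2 * P) →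
    (∀ p ∈ I, ∀ w ∈ V, J ≤ 2 * (p * w) ∧ p * w ≤ 5 * J) →
    (J : ℝ) ≤ Real.log X ^ A * H → (H : ℝ) ≤ Real.log X ^ A * J →
    ∑ x ∈ Icc (J * N / 4) (60 * J * N), ‖∑ j ∈ range H,
        tc I V (Ioc (N / 12) (12 * N)) (fun n => c (n + h) * ψ n) (x + 1 + j)‖ ^ 2
      ≤ (H : ℝ) ^ 2 * J * N / Real.log X ^ A := by
  have h0 : Tendsto (fun X : ℕ => Real.log X) atTop atTop :=
    Real.tendsto_log_atTop.comp tendsto_natCast_atTop_atTop
  refine ⟨15 * A + 35, ?_⟩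
  filter_upwards [h0.eventually_ge_atTop (10 ^ 14), MRRed1_ev (2 * A + 5) hc0,
    MRRed1_ev (5 * A + 17) one_pos, large_sparse (2 * A + 6) hc0, eventually_ge_atTop 1]
    with X hl x1 x2 hsp X1 N hN1 hN2 c hc hK h hh r hr hrl ψ hψ1 hψ P I V J H hP hPJ hJ hI hIV hJH hHJ
  have X1' : (1 : ℝ) ≤ X := by exact_mod_cast X1
  have hX : Real.exp (Real.log X) = X := Real.exp_log (by positivity)
  rw [Real.rpow_one, hX] at x2
  have e1 : ∀ i j : ℕ, Real.log X ^ (i * A + j) = (Real.log X ^ A) ^ i * Real.log X ^ j :=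
    fun i j => by ring
  simp only [KeyP, e1] at x1 x2 hsp hK
  generalize hl' : Real.log X = l at *
  have l1 : 1 ≤ l := le_trans (by norm_num) hl
  have hm : 1 ≤ l ^ A := one_le_pow₀ l1
  generalize l ^ A = m at *
  have lm : l ≤ m * l := le_mul_of_one_le_left (by positivity) hm
  have mon : ∀ {i j i' j' : ℕ}, i ≤ i' → j ≤ j' → m ^ i * l ^ j ≤ m ^ i' * l ^ j' :=
    fun hi hj => by gcongr
  have P1 : 1 ≤ P := (by simpa using mon (Nat.zero_le 2) (Nat.zero_le 5) : (1 : ℝ) ≤ _).trans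
    (x1.trans hP)
  have J1 : (1 : ℝ) ≤ J := P1.trans hPJ
  have J1' : 1 ≤ J := by exact_mod_cast J1
  have nN : m * l ≤ N := by
    have : (X : ℝ) ≤ (N : ℝ) ^ 2 := by exact_mod_cast hN1
    refine (pow_le_pow_iff_left₀ (by positivity) (by positivity) two_ne_zero).1 ?_
    rw [mul_pow]
    exact (mon (by norm_num) (by norm_num)).trans (x2.trans this)
  have N1 : (10 : ℝ) ^ 14 ≤ N := hl.trans (lm.trans nN)
  have n0 : (0 : ℝ) < N := lt_of_lt_of_le (by norm_num) N1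
  have N2 : (N : ℝ) ≤ (X : ℝ) ^ 2 := by exact_mod_cast hN2
  have hhN : 100 * h.natAbs + 100 ≤ N := by
    clear * - h N l m r hl hh lm nN hrl
    have : (100 * h.natAbs + 100 : ℝ) ≤ N := by
      rw [Nat.cast_natAbs, Int.cast_abs]
      nlinarith
    exact_mod_cast this
  have sl : √l ≤ l / 4 := by
    clear * - l hl
    rw [Real.sqrt_le_left (by positivity)]
    nlinarith
  have JX : (J : ℝ) ≤ X := hJ.trans (hX ▸ Real.exp_le_exp.2 (by linarith))
  set S := Ioc (N / 12) (12 * N) with hS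
  have hS1 : S ⊆ Icc 1 (12 * N) := fun n hn => by
    rw [hS, mem_Ioc] at hn
    exact mem_Icc.2 ⟨by omega, hn.2⟩
  have hc' : ∀ n ∈ S, ‖c (n + h) * ψ n‖ ≤ l ^ 3 := fun n hn => by
    rw [hS, mem_Ioc] at hn
    rw [norm_mul]
    exact (mul_le_of_le_one_right (norm_nonneg _) (hψ1 n)).trans (hc _ (by omega) (by omega))
  rcases I.eq_empty_or_nonempty with rfl | ⟨p, hp⟩
  · simp only [tc, sum_empty, sum_const_zero, norm_zero]
    simp only [ne_eq, OfNat.ofNat_ne_zero, not_false_eq_true, zero_pow, sum_const_zero]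
    positivity
  have T0 : (0 : ℝ) < N * (m ^ 2 * l ^ 5) := by positivity
  have T3 : N * (m ^ 5 * l ^ 17) ≤ (X : ℝ) ^ 3 := by
    calc _ ≤ (X : ℝ) ^ 2 * X := by gcongr
      _ = _ := by ring
  have ms := MRRed1_MS (Trig.DP I fun _ => 1) (Trig.DP V fun _ => 1)
    (a := fun n => c (n + h) * ψ n) (P := P) (J := J) (le_trans (by norm_num) hl) hm
    (by positivity) (by positivity) (by exact_mod_cast n0) hS1
    (by
      clear * - S c h ψ l N hc' hS1 hl
      refine (sum_le_card_nsmul _ _ ((l ^ 3) ^ 2) fun n hn => ?_).trans ?_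
      · exact pow_le_pow_left₀ (norm_nonneg _) (hc' n hn) 2
      · rw [nsmul_eq_mul, ← pow_mul]
        gcongr
        exact_mod_cast (card_le_card hS1).trans (by simp))
    (fun u => (norm_DP_le_card _ (by simp) u).trans (Moment_card P1 hI))
    (fun u => (norm_DP_le_card _ (by simp) u).trans
      (MRRed1_card (by positivity) J1' hp (hI p hp).2.1 hIV))
    (by
      clear * - P m l I N X c0 T3 hsp hP J hPJ JX T0 mon n0 hI hl' c h ψ r hhN hr hK hrl hψ1 hψ hh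
        N1 hm hl
      have m2 : MeasurableSet ({u | P / (m ^ 2 * l ^ 6) < ‖DP I (fun _ => 1) u‖} ∩
          {u : ℝ | |u| ≤ N * (m ^ 5 * l ^ 17)}) :=
        (isOpen_lt continuous_const (Trig.DP _ _).1.norm).measurableSet.inter
          (isClosed_le continuous_abs continuous_const).measurableSet
      have fr : Fr X (c0 / 2) (N * (m ^ 2 * l ^ 5)) _ := ⟨m2, fun u hu => le_trans hu.2 T3,
        (measureReal_mono Set.inter_subset_left).trans (hl' ▸ hsp P _ I hP (hPJ.trans JX) T0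
          (le_trans (mul_le_mul_of_nonneg_left (mon (by norm_num) (by norm_num)) n0.le) T3) hI)⟩
      refine (shift_MS hhN hr m2 (fun u hu => hu.2) (fun a y hy => hK r a y hr
        (hrl.trans (by simpa using mon (i := 1) (by norm_num) (Nat.zero_le 35))) hy _ _ fr)
        hψ1 hψ).trans ?_
      have : 1 + N * (m ^ 5 * l ^ 17) * |(h : ℝ)| / N ≤ 2 * (m ^ 6 * l ^ 17) := by
        have a1 : (1 : ℝ) ≤ m ^ 6 * l ^ 17 := by
          simpa using mon (Nat.zero_le 6) (Nat.zero_le 17)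
        have a2 : N * (m ^ 5 * l ^ 17) * |(h : ℝ)| / N ≤ m ^ 6 * l ^ 17 := by
          calc _ ≤ N * (m ^ 5 * l ^ 17) * m / N := by gcongr
            _ = _ := by field_simp
        linarith
      calc _ ≤ 10 ^ 9 * m ^ 2 * (2 * (m ^ 6 * l ^ 17)) ^ 2 * (N ^ 2 / (m ^ 15 * l ^ 35)) := by
            gcongr
        _ = N ^ 2 / (3000 * m) * (12 * 10 ^ 12 / l) := by field_simp; ring
        _ ≤ _ := mul_le_of_le_one_right (by positivity)
            ((div_le_one (by positivity)).2 (by linarith)))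
  have jn : (20 : ℝ) ≤ J * N := by clear * - J N l m P hl lm nN hPJ P1; nlinarith
  have jn' : 20 ≤ J * N := by exact_mod_cast jn
  have x0 : (J * N : ℝ) / 5 ≤ (J * N / 4 : ℕ) := by
    clear * - J N X h r jn'
    have : J * N ≤ 5 * (J * N / 4) := by omega
    have : (J * N : ℝ) ≤ 5 * (J * N / 4 : ℕ) := by exact_mod_cast this
    linarith
  have hH : (H : ℝ) ≤ J * N := by
    clear * - H m J N hHJ l hm l1 nN J1'
    refine hHJ.trans ?_
    rw [mul_comm]
    gcongr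
    exact (le_mul_of_one_le_right (by positivity) l1).trans nN
  have hY : ((60 * J * N : ℕ) : ℝ) + H ≤ 61 * (J * N) := by clear * - J N H hH; push_cast; linarith
  refine (short_le_MS2 _ T0 (by omega) _ H).trans ?_
  rw [funext (DP_tc (fun n => c (n + h) * ψ n) fun p hp w hw n hn => ?_)]
  swap
  · obtain ⟨h1, h2⟩ := hIV p hp w hw
    obtain ⟨h3, h4⟩ := mem_Icc.1 (hS1 hn)
    refine mem_Icc.2 ⟨Nat.mul_pos (by omega) h3, ?_⟩
    calc p * w * n ≤ 5 * J * (12 * N) := Nat.mul_le_mul h2 h4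
      _ = 60 * J * N := by ring
      _ ≤ _ := Nat.le_add_right _ _
  have lg : 1 + Real.log (5 * J) ≤ l := by
    clear * - J l J1' hJ hl sl
    rw [Real.log_mul (by norm_num) (by positivity)]
    have a1 := Real.log_le_sub_one_of_pos (x := 5) (by norm_num)
    have a2 := (Real.log_le_iff_le_exp (by positivity)).2 hJ
    linarith
  have lg0 : 0 ≤ 1 + Real.log (5 * J) := by
    clear * - J P hPJ P1
    have := Real.log_nonneg (x := 5 * J) (by linarith)
    linarith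
  have pi3 := Real.pi_gt_three
  have r1 : 1 + 2 * (((60 * J * N : ℕ) : ℝ) + H) / (N * (m ^ 2 * l ^ 5))
      ≤ 123 * (m * H) / (m ^ 2 * l ^ 5) := by
    clear * - J m l hm hl c0 x1 P hP hPJ N H hY N1 J1' hJH
    have a1 : 1 ≤ J / (m ^ 2 * l ^ 5) := (one_le_div (by positivity)).2 (x1.trans (hP.trans hPJ))
    calc _ ≤ J / (m ^ 2 * l ^ 5) + 2 * (61 * (J * N)) / (N * (m ^ 2 * l ^ 5)) := by gcongr
      _ = 123 * J / (m ^ 2 * l ^ 5) := by field_simp; ring
      _ ≤ _ := by gcongr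
  calc _ ≤ 2 * (H : ℝ) ^ 2 / (3 * (J * N / 5)) * (J ^ 2 * N ^ 2 / (10 * m)) +
        8 * (123 * (m * H) / (m ^ 2 * l ^ 5)) ^ 2 *
          (1000 * (l ^ 3) ^ 2 * l ^ 3 * (61 * (J * N))) := by
        clear * - H J N m l I V S c h ψ J1' N1 pi3 x0 ms hm hl r1 P hI hIV hc' lg0 lg hY hp p
        gcongr
        · exact MS_nonneg _ _ _
        · refine (sum_sq_tc J1' (fun p hp => (hI p hp).1) hIV hc').trans ?_
          rw [Nat.cast_add]
          gcongr
    _ = H ^ 2 * J * N / m * (1 / 3 + 7382952000 / (m * l)) := by clear * - H J N m l hl hm N1 J1'; field_simp; ring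
    _ ≤ _ := by
        clear * - H J N m l J1' N1 hm hl lm
        refine mul_le_of_le_one_right (by positivity) ?_
        have : 7382952000 / (m * l) ≤ 1 / 2 := by
          rw [div_le_iff₀ (by positivity)]
          linarith
        linarith

end Pool.Agent.Work.MP_678620_nt
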