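import Pool.Agent.Work.MP_678620_nt.MRRed1

/-! From sparse frequencies to short progressions. -/

set_option autoImplicit false
open Finset Filter MeasureTheory Pool.Agent.Lib.MR Pool.Agent.Lib.LargeSieve

namespace Pool.Agent.Work.MP_678620_nt

/-- The phase as a function of the point of the progression. -/
noncomputable def red2K (h : ℤ) (θ : ℚ) (x m : ℤ) : ℂ :=
  if h ∣ m - x then ee (θ * ((m - x) / h : ℤ)) else 0

lemma red2K_norm (h : ℤ) (θ : ℚ) (x m : ℤ) : ‖red2K h θ x m‖ ≤ 1 := by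
  unfold red2K
  split_ifs <;> simp

lemma red2K_self {h : ℤ} (hh : h ≠ 0) (θ : ℚ) (x i : ℤ) : red2K h θ x (x + h * i) = ee (θ * i) := by
  unfold red2K
  rw [add_sub_cancel_left, if_pos (dvd_mul_right _ _), Int.mul_ediv_cancel_left _ hh]

lemma red2K_mod {h : ℤ} (hh : h ≠ 0) (θ : ℚ) (x : ℤ) (m : ℕ) :
    red2K h θ x (m % (h.natAbs * θ.den) : ℕ) = red2K h θ x m := by
  obtain ⟨t, ht⟩ : ∃ t : ℤ, (m : ℤ) = (m % (h.natAbs * θ.den) : ℕ) + h * (θ.den * t) := by
    refine ⟨h.sign * (m / (h.natAbs * θ.den) : ℕ), ?_⟩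
    have e1 : (m : ℤ) = (m % (h.natAbs * θ.den) : ℕ) +
        (h.natAbs : ℤ) * θ.den * (m / (h.natAbs * θ.den) : ℕ) := by
      exact_mod_cast (Nat.mod_add_div m (h.natAbs * θ.den)).symm
    have e2 : (h.natAbs : ℤ) = h * h.sign := (Int.mul_sign_self h).symm
    rw [e2] at e1
    linear_combination e1
  generalize ((m % (h.natAbs * θ.den) : ℕ) : ℤ) = a at ht
  rw [ht]
  unfold red2K
  have e : a + h * (θ.den * t) - x = a - x + h * (θ.den * t) := by ring
  simp only [e, dvd_add_left (dvd_mul_right h _), Int.add_mul_ediv_left _ _ hh]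
  split_ifs
  · have e2 : (θ : ℝ) * ((a - x) / h + θ.den * t : ℤ) =
        θ * ((a - x) / h : ℤ) + (θ.num * t : ℤ) := by
      have : (θ : ℝ) * θ.den = θ.num := by exact_mod_cast θ.mul_den_eq_num
      push_cast
      rw [← this]
      ring
    rw [e2, ee_add_int]
  · rfl

/-- From a progression to a window. -/
lemma red2_window {h : ℤ} (hh : h ≠ 0) (θ : ℚ) (x : ℤ) (y H H' : ℕ) (G : ℕ → ℂ)
    (w : ∀ i : ℤ, ((y : ℤ) + 1 ≤ x + h * i ∧ x + h * i < y + 1 + H') ↔ (0 ≤ i ∧ i < H)) :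
    ∑ i ∈ range H, G (x + h * i).toNat * ee (θ * i) =
      ∑ j ∈ range H', red2K h θ x (y + 1 + j : ℕ) * G (y + 1 + j) := by
  have w1 : ∀ i ∈ range H, (y : ℤ) + 1 ≤ x + h * i ∧ x + h * i < y + 1 + H' := fun i hi =>
    (w i).2 ⟨by positivity, by exact_mod_cast mem_range.1 hi⟩
  refine sum_of_injOn (fun i : ℕ => (x + h * i - (y + 1)).toNat) (fun i hi i' hi' e => ?_)
    (fun i hi => ?_) (fun j hj n => ?_) fun i hi => ?_
  · have := w1 i hi
    have := w1 i' hi'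
    have e1 : h * i = h * i' := by
      dsimp only at e
      omega
    exact_mod_cast mul_left_cancel₀ hh e1
  · have := w1 i hi
    simp only [coe_range, Set.mem_Iio]
    omega
  · unfold red2K
    rw [if_neg, zero_mul]
    rintro ⟨i, hi⟩
    have hj' := mem_range.1 hj
    obtain ⟨i0, i1⟩ := (w i).1 (by push_cast at hi; omega)
    lift i to ℕ using i0
    refine n ⟨i, by simpa using i1, ?_⟩
    push_cast at hi
    dsimp only
    omega
  · have := w1 i hi
    have e1 : y + 1 + (x + h * i - (y + 1)).toNat = (x + h * i).toNat := by omega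
    have e2 : (((x + h * i).toNat : ℕ) : ℤ) = x + h * i := by omega
    rw [e1, e2, red2K_self hh, mul_comm, Int.cast_natCast]

/-- The divisor sum as a triple convolution. -/
lemma red2_tc {I V S : Finset ℕ} (c : ℤ → ℂ) (h : ℤ) {m : ℕ} (hm : 0 < m)
    (hS : ∀ p ∈ I, ∀ w ∈ V, ∀ n, p * w * n = m → n ∈ S) :
    (∑ p ∈ I, ∑ w ∈ V, if ((p * w : ℕ) : ℤ) ∣ (m : ℤ) then c (m / (p * w : ℕ) + h) else 0) =
      tc I V S (fun n => c (n + h)) m := by
  refine sum_congr rfl fun p hp => sum_congr rfl fun w hw => ?_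
  split_ifs with hd
  · obtain ⟨n, hn⟩ := Int.natCast_dvd_natCast.1 hd
    have hpw : 0 < p * w := Nat.pos_of_ne_zero fun e => by rw [e] at hn; omega
    rw [sum_eq_single n (fun n' _ e => if_neg fun e' => e ?_)
      (fun e => (e (hS p hp w hw n hn.symm)).elim), if_pos hn.symm, hn, Nat.cast_mul (p * w),
      Int.mul_ediv_cancel_left _ (by exact_mod_cast hpw.ne')]
    exact Nat.eq_of_mul_eq_mul_left hpw (e'.trans hn)
  · exact (sum_eq_zero fun n _ => if_neg fun e =>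
      hd (Int.natCast_dvd_natCast.2 ⟨n, e.symm⟩)).symm

/-- The pieces of the triple convolution in residue classes. -/
noncomputable def red2T (I V S : Finset ℕ) (c : ℕ → ℂ) (r : ℕ) (t : ℕ × ℕ × ℕ) : ℕ → ℂ :=
  tc (I.filter fun p => p % r = t.2.1) (V.filter fun w => w % r = t.2.2) S
    fun n => c n * if t.2.1 * t.2.2 * n % r = t.1 then 1 else 0

lemma red2_split (I V S : Finset ℕ) (c : ℕ → ℂ) {r : ℕ} (hr : 0 < r) (κ : ℕ → ℂ) (m : ℕ) :
    κ (m % r) * tc I V S c m =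
      ∑ t ∈ range r ×ˢ range r ×ˢ range r, κ t.1 * red2T I V S c r t m := by
  have e1 : ∀ t : ℕ × ℕ × ℕ, red2T I V S c r t m = if m % r = t.1 then
      tc (I.filter fun p => p % r = t.2.1) (V.filter fun w => w % r = t.2.2) S c m else 0 := by
    intro t
    have e : ∀ p ∈ I.filter fun p => p % r = t.2.1, ∀ w ∈ V.filter fun w => w % r = t.2.2, ∀ n,
        p * w * n = m → t.2.1 * t.2.2 * n % r = m % r := by
      rintro p hp w hw n rfl
      rw [← (mem_filter.1 hp).2, ← (mem_filter.1 hw).2]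
      exact ((Nat.mod_modEq p r).mul (Nat.mod_modEq w r)).mul_right n
    unfold red2T tc
    split_ifs with ha
    · refine sum_congr rfl fun p hp => sum_congr rfl fun w hw => sum_congr rfl fun n _ => ?_
      by_cases b : p * w * n = m
      · simp only [if_pos b, e p hp w hw n b, if_pos ha, mul_one]
      · simp only [if_neg b]
    · refine sum_eq_zero fun p hp => sum_eq_zero fun w hw => sum_eq_zero fun n _ => ?_
      by_cases b : p * w * n = m
      · simp only [if_pos b, e p hp w hw n b, if_neg ha, mul_zero]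
      · simp only [if_neg b]
  have e2 : ∑ t ∈ range r ×ˢ range r,
      tc (I.filter fun p => p % r = t.1) (V.filter fun w => w % r = t.2) S c m = tc I V S c m := by
    unfold tc
    rw [sum_product, ← sum_fiberwise_of_maps_to (s := I) (t := range r) (g := fun p => p % r)
      fun p _ => mem_range.2 (Nat.mod_lt _ hr)]
    refine sum_congr rfl fun a _ => ?_
    refine Eq.trans (sum_comm (s := range r) (t := I.filter fun p => p % r = a)
      (f := fun y p => ∑ w ∈ V with w % r = y, ∑ n ∈ S, if p * w * n = m then c n else 0)) ?_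
    refine sum_congr rfl fun p _ => ?_
    exact sum_fiberwise_of_maps_to (s := V) (t := range r) (g := fun p => p % r)
      (fun p _ => mem_range.2 (Nat.mod_lt _ hr)) _
  rw [sum_product, sum_eq_single (m % r) (fun a _ ha => sum_eq_zero fun t _ => by
    rw [e1, if_neg ha.symm, mul_zero]) fun n => (n (mem_range.2 (Nat.mod_lt _ hr))).elim,
    ← e2, mul_sum]
  exact sum_congr rfl fun t _ => by rw [e1, if_pos rfl]

lemma red2_cs {α : Type} (T : Finset α) (k u : α → ℂ) (hk : ∀ t, ‖k t‖ ≤ 1) :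
    ‖∑ t ∈ T, k t * u t‖ ^ 2 ≤ T.card * ∑ t ∈ T, ‖u t‖ ^ 2 := by
  refine le_trans (pow_le_pow_left₀ (norm_nonneg _) ((norm_sum_le _ _).trans
    (sum_le_sum fun t _ => ?_)) 2) sq_sum_le_card_mul_sum_sq
  rw [norm_mul]
  exact mul_le_of_le_one_left (norm_nonneg _) (hk t)

/-- The finite form of the reduction. -/
lemma red2_core {N J H : ℕ} {h : ℤ} (hh : h ≠ 0) (θ : ℚ) {I V : Finset ℕ} (c : ℤ → ℂ) {D : ℝ}
    (hJ : 1 ≤ J) (hH : H ≤ J) (hN : 100 * h.natAbs ≤ N)
    (hIV : ∀ p ∈ I, ∀ w ∈ V, J ≤ 2 * (p * w) ∧ p * w ≤ 5 * J)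
    (hD : ∀ t, ∑ y ∈ Icc (J * N / 4) (60 * J * N), ‖∑ j ∈ range (h.natAbs * H),
      red2T I V (Ioc (N / 12) (12 * N)) (fun n => c (n + h)) (h.natAbs * θ.den) t
        (y + 1 + j)‖ ^ 2 ≤ D) :
    ∑ x ∈ Icc ((J * N / 2 : ℕ) : ℤ) (5 * J * N : ℕ),
      ‖∑ i ∈ range H, (∑ p ∈ I, ∑ w ∈ V, if ((p * w : ℕ) : ℤ) ∣ x + h * i then
        c ((x + h * i) / (p * w : ℕ) + h) else 0) * ee (θ * i)‖ ^ 2
      ≤ ((h.natAbs * θ.den : ℕ) : ℝ) ^ 6 * D := by
  set g := h.natAbs with hg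
  set r := g * θ.den with hrd
  have g1 : 1 ≤ g := Int.natAbs_pos.2 hh
  have hr : 0 < r := Nat.mul_pos g1 θ.den_pos
  have u1 : g * H ≤ g * J := Nat.mul_le_mul_left _ hH
  have u2 : 100 * (g * J) ≤ J * N := by
    calc 100 * (g * J) = J * (100 * g) := by ring
      _ ≤ J * N := Nat.mul_le_mul_left _ hN
  have u3 : 1 ≤ g * J := Nat.mul_pos g1 hJ
  have u4 : 5 * J * N = 5 * (J * N) := by ring
  have u5 : 60 * J * N = 60 * (J * N) := by ring
  obtain ⟨s, hs, w⟩ : ∃ s : ℕ, s ≤ g * J ∧ ∀ i : ℤ,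
      (1 - (s : ℤ) ≤ h * i ∧ h * i < 1 - s + (g * H : ℕ)) ↔ (0 ≤ i ∧ i < H) := by
    have g0 : (0 : ℤ) < g := by exact_mod_cast g1
    rcases Int.natAbs_eq h with e | e
    · refine ⟨1, u3, fun i => ?_⟩
      rw [e, ← hg]
      push_cast
      rw [zero_add, mul_nonneg_iff_of_pos_left g0, mul_lt_mul_iff_right₀ g0]
    · refine ⟨g * H, u1, fun i => ?_⟩
      rw [e, ← hg]
      push_cast
      have a1 : (g : ℤ) * i < g * H ↔ i < H := mul_lt_mul_iff_right₀ g0
      have a2 : 0 ≤ (g : ℤ) * i ↔ 0 ≤ i := mul_nonneg_iff_of_pos_left g0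
      rw [← a1, ← a2, neg_mul]
      omega
  set T := range r ×ˢ range r ×ˢ range r with hT
  set U := fun (t : ℕ × ℕ × ℕ) (y : ℕ) => ∑ j ∈ range (g * H),
    red2T I V (Ioc (N / 12) (12 * N)) (fun n => c (n + h)) r t (y + 1 + j) with hU
  have hc : (T.card : ℝ) = (r : ℝ) ^ 3 := by
    simp only [hT, card_product, card_range]
    push_cast
    ring
  have key : ∀ x ∈ Icc ((J * N / 2 : ℕ) : ℤ) (5 * J * N : ℕ),
      ‖∑ i ∈ range H, (∑ p ∈ I, ∑ w ∈ V, if ((p * w : ℕ) : ℤ) ∣ x + h * i then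
        c ((x + h * i) / (p * w : ℕ) + h) else 0) * ee (θ * i)‖ ^ 2 ≤
      (r : ℝ) ^ 3 * ∑ t ∈ T, ‖U t (x - s).toNat‖ ^ 2 := by
    intro x hx
    rw [mem_Icc] at hx
    have w' : ∀ i : ℤ, (((x - s).toNat : ℤ) + 1 ≤ x + h * i ∧
        x + h * i < (x - s).toNat + 1 + (g * H : ℕ)) ↔ (0 ≤ i ∧ i < H) := fun i => by
      rw [← w i]
      omega
    have e1 : ∀ i ∈ range H, (∑ p ∈ I, ∑ w ∈ V, if ((p * w : ℕ) : ℤ) ∣ x + h * i then
        c ((x + h * i) / (p * w : ℕ) + h) else 0) * ee (θ * i) =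
        tc I V (Ioc (N / 12) (12 * N)) (fun n => c (n + h)) (x + h * i).toNat * ee (θ * i) := by
      intro i hi
      have b := (w' i).2 ⟨by positivity, by exact_mod_cast mem_range.1 hi⟩
      have e2 : (((x + h * i).toNat : ℕ) : ℤ) = x + h * i := by omega
      rw [← red2_tc c h (by omega), e2]
      intro p hp w hw n hn
      obtain ⟨b1, b2⟩ := hIV p hp w hw
      have c1 : J * n ≤ 2 * (p * w * n) := by
        calc J * n ≤ 2 * (p * w) * n := Nat.mul_le_mul_right _ b1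
          _ = _ := by ring
      have c2 : p * w * n ≤ 5 * (J * n) := by
        calc p * w * n ≤ 5 * J * n := Nat.mul_le_mul_right _ b2
          _ = _ := by ring
      have c3 : J * n ≤ J * (12 * N) := by
        rw [mul_left_comm]
        omega
      have c4 : J * N < J * (12 * n) := by
        rw [mul_left_comm]
        omega
      have c5 := Nat.le_of_mul_le_mul_left c3 hJ
      have c6 := Nat.lt_of_mul_lt_mul_left c4
      rw [mem_Ioc]
      omega
    rw [sum_congr rfl e1, red2_window hh θ x _ H (g * H) _ w', ← hc]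
    refine le_trans (le_of_eq ?_) (red2_cs T (fun t => red2K h θ x (t.1 : ℕ))
      (fun t => U t (x - s).toNat) fun t => red2K_norm _ _ _ _)
    congr 2
    simp only [hU, mul_sum]
    rw [sum_comm]
    refine sum_congr rfl fun j _ => ?_
    rw [← red2K_mod hh]
    exact red2_split I V _ _ hr (fun a => red2K h θ x (a : ℕ)) _
  refine (sum_le_sum key).trans ?_
  rw [← mul_sum, sum_comm]
  have fin : ∀ t ∈ T, ∑ x ∈ Icc ((J * N / 2 : ℕ) : ℤ) (5 * J * N : ℕ),
      ‖U t (x - s).toNat‖ ^ 2 ≤ D := by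
    intro t _
    refine le_trans ?_ (hD t)
    rw [← sum_image (f := fun y => ‖U t y‖ ^ 2) (g := fun x : ℤ => (x - s).toNat)
      fun x hx x' hx' e => ?_]
    · refine sum_le_sum_of_subset_of_nonneg (fun y hy => ?_) fun _ _ _ => by positivity
      obtain ⟨x, hx, rfl⟩ := mem_image.1 hy
      rw [mem_Icc] at hx ⊢
      omega
    · simp only [coe_Icc, Set.mem_Icc] at hx hx'
      dsimp only at e
      omega
  have := sum_le_card_nsmul T _ D fin
  rw [nsmul_eq_mul, hc] at this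
  calc (r : ℝ) ^ 3 * _ ≤ (r : ℝ) ^ 3 * ((r : ℝ) ^ 3 * D) :=
        mul_le_mul_of_nonneg_left this (by positivity)
    _ = _ := by ring

lemma red2_ev (A : ℕ) : ∀ᶠ X : ℕ in atTop,
    2 ≤ Real.log X ∧ 10000 * (Real.log X ^ A) ^ 2 ≤ X := by
  have h1 := (Real.tendsto_log_atTop.comp tendsto_natCast_atTop_atTop).eventually_ge_atTop 2
  have h2 := tendsto_natCast_atTop_atTop.eventually
    ((Real.isLittleO_pow_log_id_atTop (n := A * 2)).bound (c := 1 / 10000) (by norm_num))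
  filter_upwards [h1, h2] with X a b
  refine ⟨a, ?_⟩
  rw [Real.norm_eq_abs, id, Real.norm_natCast, pow_mul] at b
  linarith [le_abs_self ((Real.log X ^ A) ^ 2)]

theorem MRB_of_key (A B : ℕ) {c0 : ℝ} (hc0 : 0 < c0) : ∃ A' : ℕ, ∀ᶠ X : ℕ in atTop,
    ∀ N : ℕ, X ≤ N ^ 2 → N ≤ X ^ 2 → ∀ c : ℤ → ℂ,
    (∀ n : ℤ, 1 ≤ n → n ≤ 20 * N → ‖c n‖ ≤ Real.log X ^ 3) → KeyP X N (c0 / 2) A' c →
    ∀ h : ℤ, h ≠ 0 → |(h : ℝ)| ≤ Real.log X ^ A →
    MRB N c h (Real.exp (Real.log X ^ c0)) (Real.exp (Real.log X ^ (1 / 4 : ℝ)))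
      ⌊Real.log X ^ B⌋₊ ⌊Real.exp √(Real.log X)⌋₊ (1 / Real.log X ^ (4 * B)) := by
  obtain ⟨A', H1⟩ := red1 (8 * A + 10 * B + 1) hc0
  refine ⟨A', ?_⟩
  filter_upwards [H1, red2_ev A] with X H1 ⟨l2, lX⟩ N hN1 hN2 c hc hK h hh hA
  intro P I V J H θ hP _ hI hIV hPJ hJ hJH hHJ hθ
  set l := Real.log X with hl
  have l1 : 1 ≤ l := by linarith
  have mono : ∀ {a b : ℕ}, a ≤ b → l ^ a ≤ l ^ b := fun h => pow_le_pow_right₀ l1 h
  have hg : (h.natAbs : ℝ) ≤ l ^ A := by rwa [Nat.cast_natAbs, Int.cast_abs]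
  have g1 : 1 ≤ h.natAbs := Int.natAbs_pos.2 hh
  have hQ : (⌊l ^ B⌋₊ : ℝ) ≤ l ^ B := Nat.floor_le (by positivity)
  have hq : (θ.den : ℝ) ≤ l ^ B := le_trans (by exact_mod_cast hθ) hQ
  have hr : ((h.natAbs * θ.den : ℕ) : ℝ) ≤ l ^ (A + B) := by
    rw [Nat.cast_mul, pow_add]
    exact mul_le_mul hg hq (by positivity) (by positivity)
  have hJ1 : 1 ≤ J := by
    have : (0 : ℝ) < J := ((Real.exp_pos _).trans_le hP).trans_le hPJ
    exact_mod_cast this
  have hN : 100 * h.natAbs ≤ N := by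
    have a1 : (X : ℝ) ≤ (N : ℝ) ^ 2 := by exact_mod_cast hN1
    have a2 : (100 * (h.natAbs : ℝ)) ^ 2 ≤ (N : ℝ) ^ 2 := by
      have := pow_le_pow_left₀ (by positivity) hg 2
      linarith
    exact_mod_cast (pow_le_pow_iff_left₀ (by positivity) (by positivity) two_ne_zero).1 a2
  have hJ' : (J : ℝ) ≤ Real.exp √l :=
    le_trans (by exact_mod_cast hJ) (Nat.floor_le (Real.exp_pos _).le)
  have b1 : (J : ℝ) ≤ l ^ (8 * A + 10 * B + 1) * (h.natAbs * H : ℕ) := by
    have a1 : (J : ℝ) ≤ 2 * (⌊l ^ B⌋₊ : ℝ) ^ 2 * H := by exact_mod_cast hJH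
    have a2 : 2 * (⌊l ^ B⌋₊ : ℝ) ^ 2 ≤ l ^ (8 * A + 10 * B + 1) := by
      refine le_trans ?_ (mono (show 1 + B * 2 ≤ _ by omega))
      rw [pow_add, pow_one, pow_mul]
      exact mul_le_mul l2 (pow_le_pow_left₀ (by positivity) hQ 2) (by positivity) (by positivity)
    have a3 : (H : ℝ) ≤ (h.natAbs * H : ℕ) := by exact_mod_cast Nat.le_mul_of_pos_left H g1
    exact a1.trans (mul_le_mul a2 a3 (by positivity) (by positivity))
  have b2 : ((h.natAbs * H : ℕ) : ℝ) ≤ l ^ (8 * A + 10 * B + 1) * J := by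
    rw [Nat.cast_mul]
    exact mul_le_mul (hg.trans (mono (by omega))) (by exact_mod_cast hHJ) (by positivity)
      (by positivity)
  refine (red2_core hh θ c hJ1 hHJ hN hIV fun t => H1 N hN1 hN2 c hc hK h
    (hA.trans (mono (by omega))) (h.natAbs * θ.den) (Nat.mul_pos g1 θ.den_pos)
    (hr.trans (mono (by omega))) _ (fun n => ?_) (fun n => ?_) P _ _ J (h.natAbs * H) hP hPJ hJ'
    (fun p hp => hI p (mem_filter.1 hp).1)
    (fun p hp w hw => hIV p (mem_filter.1 hp).1 w (mem_filter.1 hw).1) b1 b2).trans ?_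
  · split_ifs <;> simp
  · rw [mul_add, Nat.add_mul_mod_self_right]
  · have c1 : ((h.natAbs * θ.den : ℕ) : ℝ) ^ 6 * (h.natAbs : ℝ) ^ 2 * l ^ (4 * B) ≤
        l ^ (8 * A + 10 * B + 1) := by
      refine le_trans ?_ (mono (show (A + B) * 6 + A * 2 + 4 * B ≤ _ by omega))
      rw [pow_add, pow_add, pow_mul l (A + B), pow_mul l A]
      gcongr
    have c2 : 0 ≤ (H : ℝ) ^ 2 * J * N := by positivity
    have c3 := mul_le_mul_of_nonneg_right c1 c2
    have c4 : 1 / l ^ (4 * B) * (H : ℝ) ^ 2 * J * N = (H : ℝ) ^ 2 * J * N / l ^ (4 * B) := by ring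
    rw [c4, ← mul_div_assoc, div_le_div_iff₀ (by positivity) (by positivity), Nat.cast_mul _ H]
    linarith

end Pool.Agent.Work.MP_678620_nt
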