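import Pool.Agent.Work.MP_678620_nt.MRDefs
import Pool.Agent.Work.MP_678620_nt.SPTrans
import Pool.Agent.Lib.ANT.Siegel
import Pool.Agent.Lib.ANT.PNTError

/-! Primes and rough numbers in residue classes. -/

set_option autoImplicit false
open Finset Filter MeasureTheory Pool.Agent.Lib.MR

namespace Pool.Agent.Work.MP_678620_nt

section theta

open ArithmeticFunction Pool.Agent.Lib.ANT

/-- The character sum over the primes. -/
noncomputable def SW1_T {r : ℕ} (χ : DirichletCharacter ℂ r) (x : ℕ) : ℂ :=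
  ∑ p ∈ (Icc 1 x).filter Nat.Prime, χ p * (Real.log p : ℂ)

lemma SW1_np {x : ℕ} (hx : 1 ≤ x) :
    ∑ n ∈ (Icc 1 x).filter (fun n => ¬ n.Prime), vonMangoldt n ≤ 2 * √(x : ℝ) * Real.log x := by
  have h := Chebyshev.psi_sub_theta_le (x := x) (by exact_mod_cast hx)
  rw [Chebyshev.psi_sub_theta_eq_sum_not_prime, Nat.floor_natCast] at h
  exact h

lemma SW1_split {r : ℕ} (χ : DirichletCharacter ℂ r) {x : ℕ} (hx : 1 ≤ x) :
    ‖SW1_T χ x‖ ≤ ‖∑ n ∈ range (x + 1), χ n * vonMangoldt n‖ + 2 * √(x : ℝ) * Real.log x := by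
  have e : ∑ n ∈ range (x + 1), χ n * (vonMangoldt n : ℂ) = SW1_T χ x +
      ∑ n ∈ (Icc 1 x).filter (fun n => ¬ n.Prime), χ n * (vonMangoldt n : ℂ) := by
    have h1 : ∑ n ∈ range (x + 1), χ n * (vonMangoldt n : ℂ)
        = ∑ n ∈ Icc 1 x, χ n * (vonMangoldt n : ℂ) := by
      refine (sum_subset (fun n hn => ?_) fun n hn hn' => ?_).symm
      · rw [mem_Icc] at hn; rw [mem_range]; omega
      · have : n = 0 := by
          rw [mem_Icc] at hn'; rw [mem_range] at hn; omega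
        simp [this]
    rw [h1, ← sum_filter_add_sum_filter_not (Icc 1 x) Nat.Prime, SW1_T]
    congr 1
    exact sum_congr rfl fun p hp => by rw [vonMangoldt_apply_prime (mem_filter.1 hp).2]
  have h2 : ‖∑ n ∈ (Icc 1 x).filter (fun n => ¬ n.Prime), χ n * (vonMangoldt n : ℂ)‖
      ≤ 2 * √(x : ℝ) * Real.log x := by
    refine (norm_sum_le _ _).trans (le_trans (sum_le_sum fun n _ => ?_) (SW1_np hx))
    rw [norm_mul, Complex.norm_real, Real.norm_of_nonneg vonMangoldt_nonneg]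
    exact mul_le_of_le_one_left vonMangoldt_nonneg (χ.norm_le_one _)
  rw [eq_sub_of_add_eq e.symm]
  exact (norm_sub_le _ _).trans (by linarith)

lemma SW1_one {r : ℕ} (hr : 1 ≤ r) {x : ℕ} (hx : 1 ≤ x) :
    ‖SW1_T (1 : DirichletCharacter ℂ r) x - x‖ ≤
      |∑ n ∈ Icc 1 x, vonMangoldt n - (x : ℝ)| + 2 * √(x : ℝ) * Real.log x + r := by
  have e1 : SW1_T (1 : DirichletCharacter ℂ r) x =
      ((∑ p ∈ ((Icc 1 x).filter Nat.Prime).filter (fun p => ¬ p ∣ r), Real.log p : ℝ) : ℂ) := by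
    rw [SW1_T, sum_filter (s := (Icc 1 x).filter Nat.Prime), Complex.ofReal_sum]
    refine sum_congr rfl fun p hp => ?_
    have hp' := (mem_filter.1 hp).2
    by_cases h : p ∣ r
    · rw [if_neg (not_not.2 h), MulChar.map_nonunit _ (by
        rw [ZMod.isUnit_prime_iff_not_dvd hp']; exact not_not.2 h)]
      simp
    · rw [if_pos h, MulChar.one_apply ((ZMod.isUnit_prime_iff_not_dvd hp').2 h), one_mul]
  have e2 : ∑ n ∈ Icc 1 x, vonMangoldt n =
      (∑ p ∈ ((Icc 1 x).filter Nat.Prime).filter (fun p => p ∣ r), Real.log p +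
        ∑ p ∈ ((Icc 1 x).filter Nat.Prime).filter (fun p => ¬ p ∣ r), Real.log p) +
      ∑ n ∈ (Icc 1 x).filter (fun n => ¬ n.Prime), vonMangoldt n := by
    rw [sum_filter_add_sum_filter_not, ← sum_filter_add_sum_filter_not (Icc 1 x) Nat.Prime]
    congr 1
    exact sum_congr rfl fun p hp => vonMangoldt_apply_prime (mem_filter.1 hp).2
  have h1 : ∑ p ∈ ((Icc 1 x).filter Nat.Prime).filter (fun p => p ∣ r), Real.log p ≤ r := by
    calc _ = ∑ p ∈ ((Icc 1 x).filter Nat.Prime).filter (fun p => p ∣ r), vonMangoldt p :=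
          sum_congr rfl fun p hp =>
            (vonMangoldt_apply_prime (mem_filter.1 (mem_filter.1 hp).1).2).symm
      _ ≤ ∑ d ∈ r.divisors, vonMangoldt d :=
          sum_le_sum_of_subset_of_nonneg
            (fun p hp => Nat.mem_divisors.2 ⟨(mem_filter.1 hp).2, by omega⟩)
            fun _ _ _ => vonMangoldt_nonneg
      _ = Real.log r := vonMangoldt_sum
      _ ≤ r := Real.log_le_self (by positivity)
  have h2 : 0 ≤ ∑ p ∈ ((Icc 1 x).filter Nat.Prime).filter (fun p => p ∣ r), Real.log p :=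
    sum_nonneg fun p _ => Real.log_natCast_nonneg p
  have h3 := SW1_np hx
  have h4 : 0 ≤ ∑ n ∈ (Icc 1 x).filter (fun n => ¬ n.Prime), vonMangoldt n :=
    sum_nonneg fun _ _ => vonMangoldt_nonneg
  have h5 := le_abs_self (∑ n ∈ Icc 1 x, vonMangoldt n - (x : ℝ))
  have h6 := neg_abs_le (∑ n ∈ Icc 1 x, vonMangoldt n - (x : ℝ))
  rw [e1, ← Complex.ofReal_natCast, ← Complex.ofReal_sub, Complex.norm_real, Real.norm_eq_abs,
    abs_le]
  constructor <;> linarith only [e2, h1, h3, h6, h2, h4, h5]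

lemma SW1_orth {r e : ℕ} [NeZero r] (h : Nat.Coprime e r) (x : ℕ) {E : ℝ}
    (h1 : ‖SW1_T (1 : DirichletCharacter ℂ r) x - x‖ ≤ E)
    (h2 : ∀ χ : DirichletCharacter ℂ r, χ ≠ 1 → ‖SW1_T χ x‖ ≤ E) :
    |∑ p ∈ (cls r e x).filter Nat.Prime, Real.log p - (x : ℝ) / r.totient| ≤ E := by
  classical
  have hu : IsUnit (e : ZMod r) := (ZMod.isUnit_iff_coprime e r).2 h
  have hu' : IsUnit (e : ZMod r)⁻¹ := IsUnit.of_mul_eq_one _ (ZMod.inv_mul_of_unit _ hu)
  have hφ : (0 : ℝ) < r.totient := by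
    exact_mod_cast Nat.totient_pos.2 (Nat.pos_of_ne_zero (NeZero.ne r))
  have e1 : ∑ χ : DirichletCharacter ℂ r, χ (e : ZMod r)⁻¹ * SW1_T χ x =
      ((r.totient * ∑ p ∈ (cls r e x).filter Nat.Prime, Real.log p : ℝ) : ℂ) := by
    simp only [SW1_T, mul_sum, ← mul_assoc]
    rw [sum_comm, cls, filter_comm, sum_filter (s := (Icc 1 x).filter Nat.Prime),
      Complex.ofReal_sum]
    refine sum_congr rfl fun p _ => ?_
    rw [← sum_mul, DirichletCharacter.sum_char_inv_mul_char_eq ℂ hu]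
    by_cases c : p ≡ e [MOD r]
    · rw [if_pos c, if_pos ((ZMod.natCast_eq_natCast_iff _ _ _).2 c.symm)]
      simp
    · rw [if_neg c, if_neg fun d => c ((ZMod.natCast_eq_natCast_iff _ _ _).1 d).symm]
      simp
  have e2 : ∑ χ : DirichletCharacter ℂ r, χ (e : ZMod r)⁻¹ * (if χ = 1 then (x : ℂ) else 0)
      = x := by
    rw [sum_eq_single 1 (fun χ _ c => by rw [if_neg c, mul_zero]) (by simp), if_pos rfl,
      MulChar.one_apply hu', one_mul]
  have e3 : ‖∑ χ : DirichletCharacter ℂ r,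
      χ (e : ZMod r)⁻¹ * (SW1_T χ x - if χ = 1 then (x : ℂ) else 0)‖ ≤ r.totient * E := by
    refine (norm_sum_le _ _).trans ?_
    refine (sum_le_card_nsmul _ _ E fun χ _ => ?_).trans (le_of_eq ?_)
    · rw [norm_mul]
      refine (mul_le_of_le_one_left (norm_nonneg _) (χ.norm_le_one _)).trans ?_
      by_cases c : χ = 1
      · rw [if_pos c, c]; exact h1
      · rw [if_neg c, sub_zero]; exact h2 χ c
    · rw [card_univ, ← Nat.card_eq_fintype_card,
        DirichletCharacter.card_eq_totient_of_hasEnoughRootsOfUnity, nsmul_eq_mul]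
  simp only [mul_sub] at e3
  rw [sum_sub_distrib, e1, e2, ← Complex.ofReal_natCast, ← Complex.ofReal_sub, Complex.norm_real,
    Real.norm_eq_abs] at e3
  have e4 : ∑ p ∈ (cls r e x).filter Nat.Prime, Real.log p - (x : ℝ) / r.totient =
      (r.totient * ∑ p ∈ (cls r e x).filter Nat.Prime, Real.log p - x) / r.totient := by
    field_simp
  rw [e4, abs_div, abs_of_pos hφ, div_le_iff₀ hφ]
  linarith only [e3]

lemma SW1_theta_at (B : ℕ) : ∀ᶠ x : ℕ in atTop, ∀ r e : ℕ, 1 ≤ r →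
    (r : ℝ) ≤ Real.log x ^ B → Nat.Coprime e r →
    |∑ p ∈ (cls r e x).filter Nat.Prime, Real.log p - (x : ℝ) / r.totient|
      ≤ x / Real.log x ^ B := by
  filter_upwards [siegel_walfisz (B + 1), pnt_error (B + 1),
    PNTError.eventually_pow_log_le 36 (by norm_num) (2 * B + 2),
    PNTError.eventually_pow_log_le 3 (by norm_num) (2 * B),
    PNTError.tendsto_log.eventually_ge_atTop 3, eventually_ge_atTop 1]
    with x h1 h2 h3 h4 h5 hx r e hr hrB hc
  have : NeZero r := ⟨by omega⟩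
  obtain ⟨L, hL⟩ : ∃ L, L = Real.log x := ⟨_, rfl⟩
  have hx0 : (0 : ℝ) ≤ x := by positivity
  have hrB' : (r : ℝ) ≤ Real.log x ^ (B + 1) :=
    hrB.trans (pow_le_pow_right₀ (by linarith only [h5]) (Nat.le_succ B))
  have key : (x : ℝ) / Real.log x ^ (B + 1) + 2 * √(x : ℝ) * Real.log x + r
      ≤ x / Real.log x ^ B := by
    clear * - x B r L hL h5 hx h3 hx0 hrB h4
    rw [← hL] at h3 h4 h5 hrB ⊢
    have hP : 0 < L ^ B := by positivity
    have a1 : (x : ℝ) / L ^ (B + 1) ≤ x / L ^ B / 3 := by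
      rw [pow_succ, ← div_div]
      exact div_le_div_of_nonneg_left (by positivity) (by norm_num) h5
    have a2 : 2 * √(x : ℝ) * L ≤ x / L ^ B / 3 := by
      have b : 6 * L ^ (B + 1) ≤ √(x : ℝ) := by
        refine Real.le_sqrt_of_sq_le (le_trans (le_of_eq ?_) h3)
        ring
      rw [div_div, le_div_iff₀ (by positivity)]
      calc _ = √(x : ℝ) * (6 * L ^ (B + 1)) := by ring
        _ ≤ √(x : ℝ) * √(x : ℝ) := by gcongr
        _ = x := Real.mul_self_sqrt hx0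
    have a3 : (r : ℝ) ≤ x / L ^ B / 3 := by
      refine hrB.trans ?_
      rw [div_div, le_div_iff₀ (by positivity)]
      exact le_trans (le_of_eq (by ring)) h4
    linarith only [a1, a2, a3]
  refine SW1_orth hc x ((SW1_one hr hx).trans ?_) fun χ hχ => (SW1_split χ hx).trans ?_
  · have := h2 x le_rfl
    linarith only [key, this]
  · have := h1 r χ hχ hrB' (x + 1) le_rfl
    have : (0 : ℝ) ≤ r := by positivity
    linarith

end theta

theorem theta_class (A : ℕ) : ∀ᶠ X : ℕ in atTop, ∀ r e x : ℕ, 1 ≤ r →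
    (r : ℝ) ≤ Real.log X ^ A → Nat.Coprime e r → ⌊zz X⌋₊ ≤ x →
    |∑ p ∈ (cls r e x).filter Nat.Prime, Real.log p - (x : ℝ) / r.totient|
      ≤ x / Real.log X ^ A := by
  obtain ⟨x₀, h₀⟩ := eventually_atTop.1 (SW1_theta_at (2 * A))
  filter_upwards [zz_big 1, Pool.Agent.Lib.ANT.PNTError.tendsto_log.eventually_ge_atTop (x₀ : ℝ),
    Pool.Agent.Lib.ANT.PNTError.tendsto_log.eventually_ge_atTop 1]
    with X hz h1 h2 r e x hr hrA hc hx
  obtain ⟨z1, z2, -⟩ := hz
  rw [pow_one] at z1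
  have hx0 : x₀ ≤ x := (Nat.le_floor (h1.trans z1)).trans hx
  have hx1 : Real.exp (Real.log X ^ (4 / 5 : ℝ)) ≤ x := by
    have a := Nat.lt_floor_add_one (zz X)
    have b : (⌊zz X⌋₊ : ℝ) ≤ x := by exact_mod_cast hx
    linarith only [z2, a, b]
  have hx2 : Real.log X ^ (4 / 5 : ℝ) ≤ Real.log x :=
    (Real.le_log_iff_exp_le ((Real.exp_pos _).trans_le hx1)).2 hx1
  have hx3 : Real.log X ≤ Real.log x ^ 2 := by
    calc Real.log X = Real.log X ^ (1 : ℝ) := (Real.rpow_one _).symm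
      _ ≤ Real.log X ^ ((4 / 5 : ℝ) * (2 : ℕ)) :=
          Real.rpow_le_rpow_of_exponent_le h2 (by norm_num)
      _ = (Real.log X ^ (4 / 5 : ℝ)) ^ 2 := by
          rw [Real.rpow_mul (by linarith only [h2]), Real.rpow_natCast]
      _ ≤ _ := by gcongr
  have hx4 : Real.log X ^ A ≤ Real.log x ^ (2 * A) := by
    rw [pow_mul]; gcongr
  refine (h₀ x hx0 r e hr (hrA.trans hx4) hc).trans ?_
  exact div_le_div_of_nonneg_left (by positivity) (by positivity) hx4

lemma SW1_box {r e : ℕ} (hr : 1 ≤ r) (hc : Nat.Coprime e r) {z : ℝ} (hz : (r : ℝ) ≤ z)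
    (y J : ℕ) :
    |(((cls r e y).filter (Rou z)).card : ℝ) - y * Vz z / r.totient|
      ≤ 2 * y * ((∑ p ∈ (Ioc 0 ⌊z⌋₊).filter Nat.Prime, (p : ℝ)⁻¹) ^ (J + 1) / (J + 1).factorial)
        + r * (1 + z) ^ (J + 1) := by
  classical
  have hr0 : (0 : ℝ) < r := by exact_mod_cast hr
  have hz0 : 0 ≤ z := hr0.le.trans hz
  obtain ⟨m, m0, m1⟩ : ∃ m : ℕ → ℕ, m 0 = r ∧ ∀ i, i ≠ 0 → m i = i :=
    ⟨fun i => if i = 0 then r else i, if_pos rfl, fun i h => if_neg h⟩
  have : ∀ i, NeZero (m i) := fun i => ⟨by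
    by_cases h : i = 0
    · rw [h, m0]; omega
    · rw [m1 i h]; exact h⟩
  obtain ⟨P, hP⟩ : ∃ P : Finset ℕ,
      P = ((Icc 1 ⌊z⌋₊).filter Nat.Prime).filter fun p => ¬ p ∣ r := ⟨_, rfl⟩
  have mP : ∀ p, p ∈ P ↔ p.Prime ∧ (p : ℝ) ≤ z ∧ ¬ p ∣ r := fun p => by
    rw [hP, mem_filter, mem_filter, mem_Icc, Nat.le_floor_iff hz0]
    exact ⟨fun h => ⟨h.1.2, h.1.1.2, h.2⟩, fun h => ⟨⟨⟨h.1.one_le, h.2.1⟩, h.1⟩, h.2.2⟩⟩
  have P0 : ∀ p ∈ P, p ≠ 0 := fun p hp => ((mP p).1 hp).1.ne_zero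
  have h0P : 0 ∉ P := fun h => P0 0 h rfl
  obtain ⟨S, S0, S1⟩ : ∃ S : ∀ i, Finset (ZMod (m i)), S 0 = {(e : ZMod (m 0))} ∧
      ∀ i, i ≠ 0 → S i = {0}ᶜ :=
    ⟨fun i => if i = 0 then {(e : ZMod (m i))} else {0}ᶜ, if_pos rfl, fun i h => if_neg h⟩
  have cop : ∀ i ∈ insert 0 P, ∀ j ∈ insert 0 P, i ≠ j → Nat.Coprime (m i) (m j) := by
    intro i hi j hj hij
    rcases mem_insert.1 hi with rfl | hi <;> rcases mem_insert.1 hj with rfl | hj
    · exact (hij rfl).elim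
    · rw [m0, m1 j (P0 j hj)]
      exact ((Nat.Prime.coprime_iff_not_dvd ((mP j).1 hj).1).2 ((mP j).1 hj).2.2).symm
    · rw [m0, m1 i (P0 i hi)]
      exact (Nat.Prime.coprime_iff_not_dvd ((mP i).1 hi).1).2 ((mP i).1 hi).2.2
    · rw [m1 i (P0 i hi), m1 j (P0 j hj)]
      exact (Nat.coprime_primes ((mP i).1 hi).1 ((mP j).1 hj).1).2 hij
  have key := box_count (insert 0 P) m cop S (U := {0}) (by simp) J 0 y
  have hsd : insert 0 P \ {0} = P := by
    rw [← erase_eq, erase_insert h0P]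
  have c1 : ∀ p ∈ P, ((S p)ᶜ.card : ℝ) = 1 := fun p hp => by
    rw [S1 p (P0 p hp), compl_compl, card_singleton, Nat.cast_one]
  have c2 : ∀ p ∈ P, ((S p).card : ℝ) / m p = 1 - (p : ℝ)⁻¹ := fun p hp => by
    have a := card_add_card_compl (S p)
    rw [ZMod.card] at a
    have b : ((S p).card : ℝ) + (S p)ᶜ.card = m p := by exact_mod_cast a
    have d : (p : ℝ) ≠ 0 := by exact_mod_cast P0 p hp
    rw [c1 p hp] at b
    rw [eq_sub_of_add_eq b, m1 p (P0 p hp)]
    field_simp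
  have c3 : ((S 0).card : ℝ) / m 0 = 1 / r := by rw [S0, card_singleton, Nat.cast_one, m0]
  have cnt : ∀ T : Finset ℤ, (∀ n : ℤ, n ∈ T ↔ n ∈ Ioc (0 : ℤ) (0 + y) ∧
      ∀ i ∈ insert 0 P, (n : ZMod (m i)) ∈ S i) →
      T.card = ((cls r e y).filter (Rou z)).card := by
    intro T hT
    have crit : ∀ n : ℕ, (∀ i ∈ insert 0 P, ((n : ℤ) : ZMod (m i)) ∈ S i) ↔
        n ≡ e [MOD r] ∧ Rou z n := by
      intro n
      rw [forall_mem_insert, S0, mem_singleton, Int.cast_natCast, ZMod.natCast_eq_natCast_iff, m0]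
      refine and_congr_right fun hn => ⟨fun h p hp hpn => ?_, fun h p hp => ?_⟩
      · by_contra c
        by_cases d : p ∣ r
        · have a : p ∣ e := ((hn.of_dvd d).dvd_iff dvd_rfl).1 hpn
          exact hp.one_lt.ne' (Nat.eq_one_of_dvd_coprimes hc a d)
        · have hp' := (mP p).2 ⟨hp, not_lt.1 c, d⟩
          have := h p hp'
          rw [S1 p hp.ne_zero, mem_compl, mem_singleton, Int.cast_natCast,
            ZMod.natCast_eq_zero_iff, m1 p hp.ne_zero] at this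
          exact this hpn
      · obtain ⟨a, b, -⟩ := (mP p).1 hp
        rw [S1 p a.ne_zero, mem_compl, mem_singleton, Int.cast_natCast,
          ZMod.natCast_eq_zero_iff, m1 p a.ne_zero]
        exact fun d => not_lt.2 b (h p a d)
    symm
    refine card_bij (fun n _ => (n : ℤ)) (fun n hn => ?_) (fun a _ b _ h => by exact_mod_cast h)
      fun n hn => ?_
    · rw [cls, mem_filter, mem_filter, mem_Icc] at hn
      rw [hT, mem_Ioc]
      exact ⟨by omega, (crit n).2 ⟨hn.1.2, hn.2⟩⟩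
    · rw [hT, mem_Ioc] at hn
      obtain ⟨k, rfl⟩ := Int.eq_ofNat_of_zero_le hn.1.1.le
      refine ⟨k, ?_, rfl⟩
      rw [cls, mem_filter, mem_filter, mem_Icc]
      exact ⟨⟨by omega, ((crit k).1 hn.2).1⟩, ((crit k).1 hn.2).2⟩
  have dens : (1 / r : ℝ) * ∏ p ∈ P, (1 - (p : ℝ)⁻¹) = Vz z / r.totient := by
    clear * - r z hz0 e hr m m0 hz P hP this
    have a : (r.totient : ℝ) = r * ∏ p ∈ r.primeFactors, (1 - (p : ℝ)⁻¹) := by
      have := congrArg (Rat.cast : ℚ → ℝ) (Nat.totient_eq_mul_prod_factors r)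
      push_cast at this
      exact this
    have b : ((Icc 1 ⌊z⌋₊).filter Nat.Prime).filter (fun p => p ∣ r) = r.primeFactors := by
      ext p
      rw [mem_filter, mem_filter, mem_Icc, Nat.mem_primeFactors, Nat.le_floor_iff hz0]
      refine ⟨fun h => ⟨h.1.2, h.2, by omega⟩, fun h => ⟨⟨⟨h.1.one_le, ?_⟩, h.1⟩, h.2.1⟩⟩
      exact le_trans (by exact_mod_cast Nat.le_of_dvd hr h.2.1) hz
    have hφ : (0 : ℝ) < r.totient := by exact_mod_cast Nat.totient_pos.2 hr
    rw [eq_div_iff hφ.ne', a, Vz,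
      ← prod_filter_mul_prod_filter_not ((Icc 1 ⌊z⌋₊).filter Nat.Prime) (fun p => p ∣ r), b, ← hP]
    field_simp
  have aux : ∀ inst : DecidablePred fun n : ℤ => ∀ i ∈ insert 0 P, (n : ZMod (m i)) ∈ S i,
      (@filter _ _ inst (Ioc (0 : ℤ) (0 + y))).card = ((cls r e y).filter (Rou z)).card :=
    fun inst => cnt _ fun n => @mem_filter _ _ inst _ _
  rw [aux, hsd, prod_insert h0P,
    prod_singleton, prod_singleton, c3, prod_congr rfl c2, dens, m0,
    ← mul_div_assoc] at key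
  refine key.trans (add_le_add ?_ ?_)
  · have a : ∑ i ∈ P, ((S i)ᶜ.card : ℝ) / m i ≤ ∑ p ∈ (Ioc 0 ⌊z⌋₊).filter Nat.Prime, (p : ℝ)⁻¹ := by
      calc _ = ∑ p ∈ P, (p : ℝ)⁻¹ :=
            sum_congr rfl fun p hp => by rw [c1 p hp, m1 p (P0 p hp), one_div]
        _ ≤ _ := sum_le_sum_of_subset_of_nonneg (by rw [hP]; exact filter_subset _ _)
            fun _ _ _ => by positivity
    have b : (1 / r : ℝ) ≤ 1 := by
      rw [div_le_one hr0]; exact_mod_cast hr
    have d : 0 ≤ ∑ i ∈ P, ((S i)ᶜ.card : ℝ) / m i := sum_nonneg fun _ _ => by clear * - m this S P; positivity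
    calc _ ≤ 2 * y * 1 * ((∑ p ∈ (Ioc 0 ⌊z⌋₊).filter Nat.Prime, (p : ℝ)⁻¹) ^ (J + 1)
          / (J + 1).factorial) := by clear * - y r P m this S J z b a; gcongr
      _ = _ := by rw [mul_one]
  · have a : ∑ i ∈ P, ((S i)ᶜ.card : ℝ) ≤ z := by
      rw [sum_congr rfl c1, sum_const, nsmul_eq_mul, mul_one]
      refine le_trans ?_ (Nat.floor_le hz0)
      have : P.card ≤ (Icc 1 ⌊z⌋₊).card := by
        rw [hP]; exact (card_filter_le _ _).trans (card_filter_le _ _)
      simpa using this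
    have d : 0 ≤ ∑ i ∈ P, ((S i)ᶜ.card : ℝ) := sum_nonneg fun _ _ => by clear * - m this S P; positivity
    gcongr

lemma SW1_num (A : ℕ) : ∀ᶠ u : ℝ in atTop, 50 ≤ u ∧ (A + 3) * (50 * Real.log u) + 217 ≤ u := by
  have h := Real.isLittleO_log_id_atTop.bound (c := 1 / (100 * (A + 3))) (by positivity)
  filter_upwards [h, eventually_ge_atTop 434] with u h1 h2
  refine ⟨by linarith, ?_⟩
  rw [Real.norm_eq_abs, id, Real.norm_of_nonneg (by linarith)] at h1
  have h3 := (le_abs_self _).trans h1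
  have h4 : ((A : ℝ) + 3) * (50 * Real.log u) ≤ (A + 3) * (50 * (1 / (100 * (A + 3)) * u)) := by
    gcongr
  have h5 : ((A : ℝ) + 3) * (50 * (1 / (100 * (A + 3)) * u)) = u / 2 := by
    field_simp
    ring
  linarith only [h2, h4, h5]

theorem rough_class (A : ℕ) : ∀ᶠ X : ℕ in atTop, ∀ r e y : ℕ, 1 ≤ r →
    (r : ℝ) ≤ Real.log X ^ A → Nat.Coprime e r →
    |(((cls r e y).filter (Rou (zz X))).card : ℝ) - y * Vz (zz X) / r.totient|
      ≤ y / Real.log X ^ A + (X : ℝ) ^ (1 / 10 : ℝ) := by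
  have ht : Tendsto (fun X : ℕ => Real.log X ^ (1 / 50 : ℝ)) atTop atTop :=
    (tendsto_rpow_atTop (by norm_num)).comp Pool.Agent.Lib.ANT.PNTError.tendsto_log
  filter_upwards [zz_big A, zz_big 1, ht.eventually (SW1_num A),
    Pool.Agent.Lib.ANT.PNTError.tendsto_log.eventually_ge_atTop 2, eventually_ge_atTop 1]
    with X hz hz1 hu h2 hX r e y hr hrA hc
  obtain ⟨u, hud⟩ : ∃ u, u = Real.log X ^ (1 / 50 : ℝ) := ⟨_, rfl⟩
  rw [← hud] at hu
  obtain ⟨u1, u2⟩ := hu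
  have hX0 : (0 : ℝ) < X := by exact_mod_cast hX
  have l0 : 0 ≤ Real.log X := by linarith only [h2]
  have e1 : Real.log X = u ^ 50 := by
    rw [hud, ← Real.rpow_natCast, ← Real.rpow_mul l0]; norm_num
  have e2 : zz X = Real.exp (u ^ 48) := by
    rw [zz, hud, ← Real.rpow_natCast, ← Real.rpow_mul l0]; norm_num
  have e3 : Real.log X ^ A = Real.exp (A * (50 * Real.log u)) := by
    rw [e1, Real.exp_nat_mul, show (50 : ℝ) = (50 : ℕ) by norm_num, Real.exp_nat_mul,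
      Real.exp_log (by linarith only [u1])]
  have lu : 0 ≤ Real.log u := Real.log_nonneg (by linarith only [u1])
  have A0 : (0 : ℝ) ≤ A := by positivity
  have hAl : 0 ≤ A * (50 * Real.log u) := by positivity
  obtain ⟨J, J1, J2⟩ : ∃ J : ℕ, u ≤ (J + 1 : ℕ) ∧ ((J + 1 : ℕ) : ℝ) ≤ u + 1 := by
    clear * - u A u2 lu hAl
    refine ⟨⌊u⌋₊, ?_, ?_⟩
    · push_cast; exact (Nat.lt_floor_add_one u).le
    · push_cast; linarith only [u2, lu, hAl, Nat.floor_le (a := u) (by linarith)]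
  refine (SW1_box hr hc (hrA.trans hz.1) y J).trans (add_le_add ?_ ?_)
  · obtain ⟨S, hS⟩ : ∃ S, S = ∑ p ∈ (Ioc 0 ⌊zz X⌋₊).filter Nat.Prime, (p : ℝ)⁻¹ := ⟨_, rfl⟩
    have S0 : 0 ≤ S := hS ▸ sum_nonneg fun _ _ => by positivity
    have z2 : 2 ≤ ⌊zz X⌋₊ := Nat.le_floor (by have := hz1.1; rw [pow_one] at this; push_cast; linarith only [hz1, h2])
    have z3 : (2 : ℝ) ≤ ⌊zz X⌋₊ := by exact_mod_cast z2
    have S1 : S ≤ 50 * Real.log u + 72 := by
      clear * - X z2 u z3 e2 S lu hS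
      have a := (abs_le.1 (Pool.Agent.Lib.ANT.abs_sum_inv_prime_sub_loglog_le _ z2)).2
      have b : Real.log ⌊zz X⌋₊ ≤ u ^ 48 := by
        rw [Real.log_le_iff_le_exp (by linarith only [z3]), ← e2]
        exact Nat.floor_le (by rw [e2]; positivity)
      have c := Real.log_le_log (Real.log_pos (by linarith)) b
      rw [Real.log_pow] at c
      push_cast at c
      rw [← hS] at a
      linarith
    rw [← hS]
    have a := Real.pow_div_factorial_le_exp (3 * S) (by positivity) (J + 1)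
    have b : Real.exp u ≤ 3 ^ (J + 1) := by
      clear * - u J J1
      calc Real.exp u ≤ Real.exp ((J + 1 : ℕ) * 1) := Real.exp_le_exp.2 (by linarith)
        _ = Real.exp 1 ^ (J + 1) := Real.exp_nat_mul _ _
        _ ≤ _ := by gcongr; linarith only [Real.exp_one_lt_d9]
    have c : S ^ (J + 1) / (J + 1).factorial ≤ Real.exp (3 * S - u) := by
      clear * - S J u b S0 a
      rw [Real.exp_sub, le_div_iff₀ (Real.exp_pos u)]
      calc _ ≤ S ^ (J + 1) / (J + 1).factorial * 3 ^ (J + 1) := by gcongr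
        _ = (3 * S) ^ (J + 1) / (J + 1).factorial := by rw [mul_pow]; ring
        _ ≤ _ := a
    have d : 2 * Real.exp (3 * S - u) ≤ Real.exp (-(A * (50 * Real.log u))) := by
      clear * - S u A u2 S1
      calc _ ≤ Real.exp 1 * Real.exp (3 * S - u) := by
            gcongr; linarith only [Real.exp_one_gt_d9]
        _ = Real.exp (1 + (3 * S - u)) := (Real.exp_add _ _).symm
        _ ≤ _ := Real.exp_le_exp.2 (by linarith)
    rw [e3, div_eq_mul_inv (y : ℝ), ← Real.exp_neg]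
    calc _ ≤ 2 * y * Real.exp (3 * S - u) := by gcongr
      _ = y * (2 * Real.exp (3 * S - u)) := by ring
      _ ≤ _ := by gcongr
  · have a : 1 + zz X ≤ Real.exp (1 + u ^ 48) := by
      clear * - u u1 X e2 hz1 h2
      have b : 1 ≤ Real.exp (u ^ 48) := Real.one_le_exp (by positivity)
      rw [e2, Real.exp_add]
      nlinarith only [hz1, h2, e2, Real.exp_one_gt_d9]
    have z0 : 0 ≤ 1 + zz X := by rw [e2]; positivity
    have u48 : 1 ≤ u ^ 48 := one_le_pow₀ (by linarith only [u2, lu, hAl])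
    have b : A * (50 * Real.log u) + (J + 1 : ℕ) * (1 + u ^ 48) ≤ Real.log X * (1 / 10) := by
      clear * - J u A u2 lu hAl J2 u48 u1 X e1
      have c1 : ((J + 1 : ℕ) : ℝ) * (1 + u ^ 48) ≤ (2 * u) * (2 * u ^ 48) := by
        gcongr <;> linarith only [u2, lu, hAl, J2, u48]
      have c2 : u ≤ u * u ^ 48 := le_mul_of_one_le_right (by linarith) u48
      have c3 : 50 * (u * u ^ 48) ≤ u * (u * u ^ 48) := by gcongr
      have c4 : u * (u * u ^ 48) = u ^ 50 := by ring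
      rw [e1]
      nlinarith only [u2, lu, c1, c2, c3]
    calc _ ≤ Real.exp (A * (50 * Real.log u)) * Real.exp (1 + u ^ 48) ^ (J + 1) := by
          clear * - r X J A u e3 hrA z0 a h2
          rw [← e3]; gcongr
      _ = Real.exp (A * (50 * Real.log u) + (J + 1 : ℕ) * (1 + u ^ 48)) := by
          rw [← Real.exp_nat_mul, ← Real.exp_add]
      _ ≤ Real.exp (Real.log X * (1 / 10)) := Real.exp_le_exp.2 b
      _ = _ := (Real.rpow_def_of_pos hX0 _).symm

end Pool.Agent.Work.MP_678620_nt
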