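import Pool.Agent.Work.MP_678620_nt.MRDefs

/-! Sums under the hyperbola. -/

set_option autoImplicit false
open Finset Filter MeasureTheory Pool.Agent.Lib.MR

namespace Pool.Agent.Work.MP_678620_nt

lemma tri_add_t {F G : ℝ → ℂ} (hF : Trig F) (hG : Trig G) (T : ℝ) (U : Set ℝ) {t : ℝ}
    (ht : 0 < t) :
    MS T U (fun u => F u + G u) ≤ (1 + t) * MS T U F + (1 + 1 / t) * MS T U G := by
  unfold MS
  rw [← integral_const_mul, ← integral_const_mul, ← integral_add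
    ((hF.integrable_sq _).const_mul _) ((hG.integrable_sq _).const_mul _)]
  refine integral_mono ((hF.add hG).integrable_sq _)
    (((hF.integrable_sq _).const_mul _).add ((hG.integrable_sq _).const_mul _)) fun u => ?_
  have h := pow_le_pow_left₀ (norm_nonneg _) (norm_add_le (F u) (G u)) 2
  have h2 : 0 ≤ (t * ‖F u‖ - ‖G u‖) ^ 2 / t := by positivity
  have h3 : (t * ‖F u‖ - ‖G u‖) ^ 2 / t
      = t * ‖F u‖ ^ 2 - 2 * ‖F u‖ * ‖G u‖ + 1 / t * ‖G u‖ ^ 2 := by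
    field_simp
    ring
  nlinarith only [h, h2, h3]

lemma sqrt_MS_add {F G : ℝ → ℂ} (hF : Trig F) (hG : Trig G) (T : ℝ) (U : Set ℝ) :
    √(MS T U fun u => F u + G u) ≤ √(MS T U F) + √(MS T U G) := by
  have h1 := Real.sq_sqrt (MS_nonneg T U F)
  have h2 := Real.sq_sqrt (MS_nonneg T U G)
  have h3 := Real.sqrt_nonneg (MS T U F)
  have h4 := Real.sqrt_nonneg (MS T U G)
  set A := √(MS T U F)
  set B := √(MS T U G)
  refine le_of_forall_pos_le_add fun ε hε => Real.sqrt_le_iff.2 ⟨by positivity, ?_⟩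
  have hA : 0 < A + ε / 2 := by positivity
  have hB : 0 < B + ε / 2 := by positivity
  refine (tri_add_t hF hG T U (div_pos hB hA)).trans ?_
  rw [← h1, ← h2]
  calc (1 + (B + ε / 2) / (A + ε / 2)) * A ^ 2 + (1 + 1 / ((B + ε / 2) / (A + ε / 2))) * B ^ 2
      ≤ (1 + (B + ε / 2) / (A + ε / 2)) * (A + ε / 2) ^ 2
        + (1 + 1 / ((B + ε / 2) / (A + ε / 2))) * (B + ε / 2) ^ 2 := by
        gcongr <;> linarith only [hε]
    _ = (A + B + ε) ^ 2 := by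
        field_simp
        ring

lemma tri_cs {a1 a2 b1 b2 : ℝ} (h1 : 0 ≤ a1) (h2 : 0 ≤ a2) (h3 : 0 ≤ b1) (h4 : 0 ≤ b2) :
    √a1 * √b1 + √a2 * √b2 ≤ √(a1 + a2) * √(b1 + b2) := by
  rw [← Real.sqrt_mul (add_nonneg h1 h2)]
  refine Real.le_sqrt_of_sq_le ?_
  nlinarith only [h1, h2, h3, h4, Real.sq_sqrt h1, Real.sq_sqrt h2, Real.sq_sqrt h3, Real.sq_sqrt h4,
    sq_nonneg (√a1 * √b2 - √a2 * √b1)]

/-- The part of the hyperbola sum above `lo`. -/
noncomputable def triR (lam a : ℕ → ℂ) (y i i' lo : ℕ) (u : ℝ) : ℂ :=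
  ∑ n ∈ Ioc i i', lam n * nit n u * DP (Ioc lo (y / n)) a u

lemma trig_triR (lam a : ℕ → ℂ) (y i i' lo : ℕ) : Trig (triR lam a y i i' lo) :=
  Trig.sum fun n _ => ((Trig.const _).mul (Trig.nit n)).mul (Trig.DP _ _)

lemma tri_rect {T : ℝ} {U : Set ℝ} (hU : MeasurableSet U) {S S' : Finset ℕ} {lam a : ℕ → ℂ}
    {s B : ℝ} (hl : ∀ u ∈ U, ‖DP S lam u‖ ^ 2 ≤ s) (ha : MS T U (DP S' a) ≤ B) :
    √(MS T U fun u => DP S lam u * DP S' a u) ≤ √s * √B := by
  have h := MS_le_of_le ((Trig.DP S lam).mul (Trig.DP S' a)) (Trig.DP S' a) T hU (c := √s)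
    fun u hu => by
      rw [norm_mul]
      exact mul_le_mul_of_nonneg_right (Real.le_sqrt_of_sq_le (hl u hu)) (norm_nonneg _)
  refine (Real.sqrt_le_sqrt (h.trans (mul_le_mul_of_nonneg_left ha (sq_nonneg _)))).trans ?_
  rw [Real.sqrt_mul (sq_nonneg _), Real.sqrt_sq (Real.sqrt_nonneg _)]

lemma tri_ind {T : ℝ} {U : Set ℝ} (hU : MeasurableSet U) {lam a : ℕ → ℂ} {σ K : ℝ} (hσ : 0 ≤ σ)
    (hK : 0 ≤ K) {M y : ℕ} (hM : 1 ≤ M)
    (hl : ∀ u ∈ U, ∀ i j : ℕ, M ≤ i → i ≤ j → j ≤ 2 * M →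
      ‖DP (Ioc i j) lam u‖ ^ 2 ≤ σ * ((j : ℝ) - i))
    (ha : ∀ S : Finset ℕ, S ⊆ Icc 1 (y / M) → MS T U (DP S a) ≤ K * ∑ n ∈ S, ‖a n‖ ^ 2)
    (j : ℕ) : ∀ i i' lo hi : ℕ, M ≤ i → i ≤ i' → i' ≤ 2 * M → i' ≤ i + 2 ^ j → hi ≤ y / M →
      (∀ n ∈ Ioc i i', lo ≤ y / n ∧ y / n ≤ hi) →
      √(MS T U (triR lam a y i i' lo)) ≤
        (j + 1) * (√(σ * ((i' : ℝ) - i)) * √(K * ∑ n ∈ Ioc lo hi, ‖a n‖ ^ 2)) := by
  have rect : ∀ i m i' lo mid hi : ℕ, M ≤ i → i ≤ m → m ≤ i' → i' ≤ 2 * M → mid ≤ hi →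
      hi ≤ y / M → √(MS T U fun u => DP (Ioc i m) lam u * DP (Ioc lo mid) a u) ≤
        √(σ * ((i' : ℝ) - i)) * √(K * ∑ n ∈ Ioc lo hi, ‖a n‖ ^ 2) := by
    intro i m i' lo mid hi h1 h2 h3 h4 h5 h6
    refine tri_rect hU (fun u hu => (hl u hu i m h1 h2 (by omega)).trans ?_)
      ((ha _ fun n hn => ?_).trans ?_)
    · have : (m : ℝ) ≤ i' := by exact_mod_cast h3
      gcongr
    · rw [mem_Ioc] at hn
      rw [mem_Icc]
      omega
    · exact mul_le_mul_of_nonneg_left (sum_le_sum_of_subset_of_nonneg (Ioc_subset_Ioc_right h5)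
        fun _ _ _ => by positivity) hK
  induction j with
  | zero =>
    intro i i' lo hi h1 h2 h3 h4 h5 h6
    rcases h2.eq_or_lt with rfl | h7
    · have e : triR lam a y i i lo = fun _ => 0 := by
        funext u
        simp [triR]
      simp [e, MS]
    · obtain rfl : i' = i + 1 := by omega
      have e : triR lam a y i (i + 1) lo
          = fun u => DP (Ioc i (i + 1)) lam u * DP (Ioc lo (y / (i + 1))) a u := by
        funext u
        simp [triR, DP]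
      rw [e]
      simpa using rect i (i + 1) (i + 1) lo _ hi h1 h2 le_rfl h3 (h6 _ (by simp)).2 h5
  | succ j ih =>
    intro i i' lo hi h1 h2 h3 h4 h5 h6
    rcases le_or_gt i' (i + 2 ^ j) with h7 | h7
    · refine (ih i i' lo hi h1 h2 h3 h7 h5 h6).trans ?_
      push_cast
      gcongr
      linarith only []
    have h8 : 0 < 2 ^ j := by positivity
    rw [pow_succ] at h4
    obtain ⟨m, hm⟩ : ∃ m, m = i + 2 ^ j := ⟨_, rfl⟩
    have h9 : i < m := by omega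
    have h10 : m < i' := by omega
    obtain ⟨k1, k2⟩ := h6 m (mem_Ioc.2 ⟨h9, h10.le⟩)
    have k3 : ∀ n ∈ Ioc i m, y / m ≤ y / n := fun n hn =>
      Nat.div_le_div_left (mem_Ioc.1 hn).2 (by have := (mem_Ioc.1 hn).1; omega)
    have e : triR lam a y i i' lo = fun u => DP (Ioc i m) lam u * DP (Ioc lo (y / m)) a u +
        (triR lam a y i m (y / m) u + triR lam a y m i' lo u) := by
      funext u
      rw [triR, ← sum_Ioc_consecutive _ h9.le h10.le, ← add_assoc, triR, triR, DP, sum_mul,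
        ← sum_add_distrib]
      congr 1
      refine sum_congr rfl fun n hn => ?_
      rw [← mul_add, DP, DP, DP, sum_Ioc_consecutive _ k1 (k3 n hn)]
    have b1 := rect i m i' lo (y / m) hi h1 h9.le h10.le h3 k2 h5
    have b2 := ih i m (y / m) hi h1 h9.le (by omega) hm.le h5 fun n hn =>
      ⟨k3 n hn, (h6 n (Ioc_subset_Ioc_right h10.le hn)).2⟩
    have b3 := ih m i' lo (y / m) (by omega) h10.le h3 (by omega) (k2.trans h5) fun n hn =>
      ⟨(h6 n (Ioc_subset_Ioc_left h9.le hn)).1,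
        Nat.div_le_div_left (mem_Ioc.1 hn).1.le (by omega)⟩
    have c1 : (i : ℝ) ≤ m := by exact_mod_cast h9.le
    have c2 : (m : ℝ) ≤ i' := by exact_mod_cast h10.le
    have b4 := tri_cs (a1 := σ * ((m : ℝ) - i)) (a2 := σ * ((i' : ℝ) - m))
      (b1 := K * ∑ n ∈ Ioc (y / m) hi, ‖a n‖ ^ 2) (b2 := K * ∑ n ∈ Ioc lo (y / m), ‖a n‖ ^ 2)
      (mul_nonneg hσ (by linarith only [c1])) (mul_nonneg hσ (by linarith only [c2])) (by positivity) (by positivity)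
    rw [← mul_add, ← mul_add, add_comm (∑ n ∈ Ioc (y / m) hi, _), sum_Ioc_consecutive _ k1 k2,
      sub_add_sub_cancel'] at b4
    have b5 := sqrt_MS_add ((Trig.DP (Ioc i m) lam).mul (Trig.DP (Ioc lo (y / m)) a))
      ((trig_triR lam a y i m (y / m)).add (trig_triR lam a y m i' lo)) T U
    have b6 := sqrt_MS_add (trig_triR lam a y i m (y / m)) (trig_triR lam a y m i' lo) T U
    have b7 := mul_le_mul_of_nonneg_left b4 (by positivity : (0 : ℝ) ≤ j + 1)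
    rw [e]
    push_cast
    linarith only [b1, b2, b3, b5, b6, b7]

lemma tri_Icc (x : ℕ) : Icc 1 x = Ioc 0 x := rfl

theorem tri {T : ℝ} {U : Set ℝ} (hU : MeasurableSet U) {lam a : ℕ → ℂ} {σ K : ℝ} (hσ : 0 ≤ σ)
    (hK : 0 ≤ K) {M M' y : ℕ} (hM : 1 ≤ M) (hM' : M' ≤ 2 * M)
    (hl : ∀ u ∈ U, ∀ i j : ℕ, M ≤ i → i ≤ j → j ≤ 2 * M →
      ‖DP (Ioc i j) lam u‖ ^ 2 ≤ σ * ((j : ℝ) - i))
    (ha : ∀ S : Finset ℕ, S ⊆ Icc 1 (y / M) → MS T U (DP S a) ≤ K * ∑ n ∈ S, ‖a n‖ ^ 2) :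
    MS T U (Hy (Ioc M M') lam a y) ≤ ((Nat.log 2 M : ℝ) + 2) ^ 2 * (σ * M) *
      (K * ∑ n ∈ Icc 1 (y / M), ‖a n‖ ^ 2) := by
  rcases le_or_gt M' M with h | h
  · have e : Hy (Ioc M M') lam a y = fun _ => 0 := by
      funext u
      simp [Hy, Ioc_eq_empty_of_le h]
    have e2 : MS T U (fun _ => 0) = 0 := by simp [MS]
    rw [e, e2]
    positivity
  have h1 := tri_ind hU hσ hK hM hl ha (Nat.log 2 M + 1) M M' 0 (y / M) le_rfl h.le hM'
    (by have := Nat.lt_pow_succ_log_self one_lt_two M; omega) le_rfl fun n hn =>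
      ⟨Nat.zero_le _, Nat.div_le_div_left (mem_Ioc.1 hn).1.le hM⟩
  have c1 : (M : ℝ) ≤ M' := by exact_mod_cast h.le
  have c2 : (M' : ℝ) ≤ 2 * M := by exact_mod_cast hM'
  have h2 := (Real.sqrt_le_iff.1 h1).2
  rw [mul_pow, mul_pow, Real.sq_sqrt (mul_nonneg hσ (by linarith only [c1])),
    Real.sq_sqrt (by positivity)] at h2
  refine h2.trans ?_
  rw [mul_assoc (_ ^ 2), tri_Icc]
  push_cast
  rw [add_assoc, one_add_one_eq_two]
  gcongr
  linarith only [c2]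

lemma tri_blocks (f : ℕ → ℂ) (x0 J : ℕ) : ∑ n ∈ Ioc x0 (x0 * 2 ^ J), f n
    = ∑ i ∈ range J, ∑ n ∈ Ioc (x0 * 2 ^ i) (2 * (x0 * 2 ^ i)), f n := by
  induction J with
  | zero => simp
  | succ J ih =>
    rw [sum_range_succ, ← ih, sum_Ioc_consecutive _ (Nat.le_mul_of_pos_right _ (by positivity))
      (by omega), pow_succ, mul_comm 2, mul_assoc]

lemma tri_zero (lam a : ℕ → ℂ) {y n : ℕ} (h : y < n) (u : ℝ) :
    lam n * nit n u * DP (Icc 1 (y / n)) a u = 0 := by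
  simp [Nat.div_eq_of_lt h, DP]

theorem PH {T : ℝ} {U : Set ℝ} (hU : MeasurableSet U) {lam a : ℕ → ℂ} {σ L C W : ℝ}
    (hσ : 0 ≤ σ) (hL : 0 ≤ L) (hC : 0 ≤ C) (hW : 0 ≤ W) {K1 x0 y : ℕ} (hx0 : 1 ≤ x0)
    (hHM : HMok T U K1 C) (hl1 : ∀ n ≤ 2 * y, ‖lam n‖ ≤ L)
    (hl2 : ∀ u ∈ U, ∀ x : ℕ, x0 ≤ x → x ≤ 2 * y → ‖DP (Icc 1 x) lam u‖ ≤ σ * x)
    (ha0 : ∀ k ≤ K1, a k = 0) (ha : ∀ x ≤ y, ∑ k ∈ Icc 1 x, ‖a k‖ ^ 2 ≤ W * x) :
    MS T U (Hy (Ioc x0 y) lam a y)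
      ≤ 4 * C * L * σ * W * ((Nat.log 2 y : ℝ) + 2) ^ 4 * (y : ℝ) ^ 2 := by
  set J := Nat.log 2 y + 1 with hJ
  have hy : y ≤ x0 * 2 ^ J :=
    (Nat.lt_pow_succ_log_self one_lt_two y).le.trans (Nat.le_mul_of_pos_left _ hx0)
  have e : Hy (Ioc x0 y) lam a y
      = fun u => ∑ i ∈ range J, Hy (Ioc (x0 * 2 ^ i) (2 * (x0 * 2 ^ i))) lam a y u := by
    funext u
    simp only [Hy]
    rw [← tri_blocks]
    refine sum_subset (Ioc_subset_Ioc_right hy) fun n h1 h2 => tri_zero lam a ?_ u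
    rw [mem_Ioc] at h1 h2
    omega
  have blk : ∀ M, x0 ≤ M → MS T U (Hy (Ioc M (2 * M)) lam a y)
      ≤ 4 * C * L * σ * W * ((Nat.log 2 y : ℝ) + 2) ^ 2 * (y : ℝ) ^ 2 := by
    intro M hM
    rcases lt_or_ge y M with h | h
    · have e : Hy (Ioc M (2 * M)) lam a y = fun _ => 0 := by
        funext u
        exact sum_eq_zero fun n hn => tri_zero lam a (h.trans (mem_Ioc.1 hn).1) u
      have e2 : MS T U (fun _ => 0) = 0 := by simp [MS]
      rw [e, e2]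
      positivity
    have h1 := tri (T := T) hU (lam := lam) (a := a) (σ := 4 * M * σ * L)
      (K := C * (y / M : ℕ)) (by positivity) (by positivity) (M := M) (M' := 2 * M) (y := y)
      (hx0.trans hM) le_rfl (fun u hu i j hi hij hj => ?_) fun S hS => ?_
    · refine h1.trans ?_
      have c1 : (M : ℝ) * (y / M : ℕ) ≤ y := by exact_mod_cast Nat.mul_div_le y M
      have c2 : (Nat.log 2 M : ℝ) ≤ Nat.log 2 y := by exact_mod_cast Nat.log_mono_right h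
      have c3 := ha (y / M) (Nat.div_le_self _ _)
      calc _ ≤ ((Nat.log 2 y : ℝ) + 2) ^ 2 * (4 * M * σ * L * M) *
            (C * (y / M : ℕ) * (W * (y / M : ℕ))) := by gcongr
        _ = 4 * C * L * σ * W * ((Nat.log 2 y : ℝ) + 2) ^ 2 * ((M : ℝ) * (y / M : ℕ)) ^ 2 := by
            ring
        _ ≤ _ := by gcongr
    · have c1 : ‖DP (Ioc i j) lam u‖ ≤ L * ((j : ℝ) - i) := by
        refine (norm_DP_le _ _ _).trans ((sum_le_card_nsmul _ _ L fun n hn =>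
          hl1 n (by have := (mem_Ioc.1 hn).2; omega)).trans (le_of_eq ?_))
        rw [Nat.card_Ioc, nsmul_eq_mul, Nat.cast_sub hij, mul_comm]
      have c2 : DP (Ioc i j) lam u = DP (Icc 1 j) lam u - DP (Icc 1 i) lam u := by
        rw [tri_Icc, tri_Icc, DP, DP, DP, ← sum_Ioc_consecutive _ (Nat.zero_le i) hij]
        ring
      have c3 : ‖DP (Ioc i j) lam u‖ ≤ 4 * M * σ := by
        have d1 := hl2 u hu j (by omega) (by omega)
        have d2 := hl2 u hu i (by omega) (by omega)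
        have d3 : (j : ℝ) ≤ 2 * M := by exact_mod_cast hj
        have d4 : (i : ℝ) ≤ 2 * M := by exact_mod_cast hij.trans hj
        rw [c2]
        refine (norm_sub_le _ _).trans ?_
        nlinarith only [d1, d2, hσ, d3, d4]
      rw [sq, mul_assoc (4 * M * σ)]
      exact mul_le_mul c3 c1 (norm_nonneg _) (by positivity)
    · rcases le_or_gt K1 (y / M) with h2 | h2
      · exact hHM _ h2 S hS a
      · have e : DP S a = fun _ => 0 := by
          funext u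
          refine sum_eq_zero fun n hn => ?_
          rw [ha0 n (by have := (mem_Icc.1 (hS hn)).2; omega), zero_mul]
        have e2 : MS T U (fun _ => 0) = 0 := by simp [MS]
        rw [e, e2]
        positivity
  rw [e]
  refine (MS_sum_le (fun i _ => trig_Hy _ _ _ _) T U).trans ?_
  have h1 := sum_le_card_nsmul (range J) _ _ fun i _ =>
    blk (x0 * 2 ^ i) (Nat.le_mul_of_pos_right _ (by positivity))
  rw [card_range, nsmul_eq_mul] at h1
  rw [card_range]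
  have h2 : (J : ℝ) ≤ (Nat.log 2 y : ℝ) + 2 := by
    rw [hJ]
    push_cast
    linarith only []
  calc _ ≤ (J : ℝ) * (J * (4 * C * L * σ * W * ((Nat.log 2 y : ℝ) + 2) ^ 2 * (y : ℝ) ^ 2)) := by
        gcongr
    _ ≤ ((Nat.log 2 y : ℝ) + 2) * (((Nat.log 2 y : ℝ) + 2) *
        (4 * C * L * σ * W * ((Nat.log 2 y : ℝ) + 2) ^ 2 * (y : ℝ) ^ 2)) := by gcongr
    _ = _ := by ring

/-- The hyperbola sum as one Dirichlet polynomial. -/
lemma Hy_eq (lam a : ℕ → ℂ) (y : ℕ) (u : ℝ) : Hy (Icc 1 y) lam a y u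
    = DP (Icc 1 y) (fun n => ∑ x ∈ n.divisorsAntidiagonal, lam x.1 * a x.2) u := by
  have h := ArithmeticFunction.sum_Ioc_mul_eq_sum_sum
    (⟨fun n => if n = 0 then 0 else lam n * nit n u, by simp⟩ : ArithmeticFunction ℂ)
    ⟨fun n => if n = 0 then 0 else a n * nit n u, by simp⟩ y
  simp only [ArithmeticFunction.mul_apply, ArithmeticFunction.coe_mk] at h
  simp only [Hy, DP, tri_Icc]
  refine Eq.trans (sum_congr rfl fun n hn => ?_) (h.symm.trans (sum_congr rfl fun n _ => ?_))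
  · rw [if_neg (mem_Ioc.1 hn).1.ne']
    congr 1
    exact sum_congr rfl fun m hm => (if_neg (mem_Ioc.1 hm).1.ne').symm
  · rw [sum_mul]
    refine sum_congr rfl fun x hx => ?_
    obtain ⟨h1, h2⟩ := Nat.ne_zero_of_mem_divisorsAntidiagonal hx
    rw [if_neg h1, if_neg h2, ← (Nat.mem_divisorsAntidiagonal.1 hx).1, nit_mul h1 h2]
    ring

lemma Hy_comm (lam a : ℕ → ℂ) (y : ℕ) (u : ℝ) :
    Hy (Icc 1 y) lam a y u = Hy (Icc 1 y) a lam y u := by
  rw [Hy_eq, Hy_eq]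
  congr 1
  funext n
  conv_lhs => rw [← Nat.map_swap_divisorsAntidiagonal, sum_map]
  exact sum_congr rfl fun x _ => mul_comm _ _

end Pool.Agent.Work.MP_678620_nt
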