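import Pool.Agent.Work.MP_678620_nt.SPCoord

/-! Averaging over coordinates. -/

set_option autoImplicit false
open Finset Pool.Agent.Lib.LargeSieve

namespace Pool.Agent.Work.MP_678620_nt

namespace Sys

variable {ι : Type} [Fintype ι] [DecidableEq ι] (S : Sys ι)

lemma avx_card_ne : (Fintype.card S.G : ℂ) ≠ 0 := Nat.cast_ne_zero.2 Fintype.card_ne_zero

lemma avx_sum_swap {β : Type*} [AddCommMonoid β] (v : Finset ι) (Φ : S.G → S.G → β) :
    ∑ η : S.G, ∑ ξ : S.G, Φ (v.piecewise ξ η) (v.piecewise η ξ) = ∑ η : S.G, ∑ ξ : S.G, Φ η ξ := by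
  have hinv : Function.Involutive
      (fun x : S.G × S.G => ((v.piecewise x.2 x.1, v.piecewise x.1 x.2) : S.G × S.G)) := by
    rintro ⟨η, ξ⟩
    refine Prod.ext ?_ ?_ <;> funext i <;> by_cases hi : i ∈ v <;> simp [Finset.piecewise, hi]
  have h := Equiv.sum_comp hinv.toPerm fun x : S.G × S.G => Φ x.1 x.2
  rw [← Fintype.sum_prod_type', ← Fintype.sum_prod_type', ← h]
  rfl

lemma avx_sum_upd {β : Type*} [AddCommMonoid β] (p : ι) (Φ : S.G → ZMod (S.m p) → β) :
    ∑ η : S.G, ∑ c : ZMod (S.m p), Φ (Function.update η p c) (η p)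
      = ∑ η : S.G, ∑ c : ZMod (S.m p), Φ η c := by
  have hinv : Function.Involutive (fun x : S.G × ZMod (S.m p) =>
      ((Function.update x.1 p x.2, x.1 p) : S.G × ZMod (S.m p))) := by
    rintro ⟨η, c⟩
    simp
  have h := Equiv.sum_comp hinv.toPerm fun x : S.G × ZMod (S.m p) => Φ x.1 x.2
  rw [← Fintype.sum_prod_type', ← Fintype.sum_prod_type', ← h]
  rfl

lemma avx_sum_nn_pw (v : Finset ι) (f : S.G → ℂ) :
    ∑ c : S.G, S.nn (fun ξ => f (v.piecewise c ξ)) = Fintype.card S.G * S.nn f := by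
  have h := S.avx_sum_swap v (fun _ ξ => ‖f ξ‖ ^ 2)
  unfold nn
  rw [h]
  simp

lemma avx_nn_sub (f g : S.G → ℂ) :
    S.nn (fun ξ => f ξ - g ξ) = S.nn f - 2 * (S.ip g f).re + S.nn g := by
  unfold nn ip
  rw [Complex.re_sum, mul_sum, ← sum_sub_distrib, ← sum_add_distrib]
  refine sum_congr rfl fun ξ _ => ?_
  simp only [Complex.sq_norm, Complex.normSq_apply, Complex.sub_re, Complex.sub_im,
    Complex.mul_re, Complex.conj_re, Complex.conj_im]
  ring

lemma indep_av (v : Finset ι) (f : S.G → ℂ) : S.Indep v (S.av v f) := by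
  intro ξ η h
  unfold av
  congr 1
  refine sum_congr rfl fun θ _ => ?_
  congr 1
  funext i
  by_cases hi : i ∈ v
  · simp [Finset.piecewise, hi]
  · simp [Finset.piecewise, hi, h i hi]

lemma av_of_indep {v : Finset ι} {f : S.G → ℂ} (h : S.Indep v f) : S.av v f = f := by
  funext ξ
  unfold av
  have h1 : ∀ η : S.G, f (v.piecewise η ξ) = f ξ := fun η =>
    h _ _ fun i hi => by simp [Finset.piecewise, hi]
  simp only [h1, sum_const, card_univ, nsmul_eq_mul]
  rw [← mul_assoc, inv_mul_cancel₀ S.avx_card_ne, one_mul]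

variable {S} in
lemma Indep.mono {β : Type*} {a b : Finset ι} {f : S.G → β} (h : S.Indep a f) (hb : b ⊆ a) :
    S.Indep b f := by
  intro ξ η H
  exact h ξ η fun i hi => H i fun hb' => hi (hb hb')

variable {S} in
lemma Indep.union {β : Type*} {a b : Finset ι} {f : S.G → β} (ha : S.Indep a f)
    (hb : S.Indep b f) : S.Indep (a ∪ b) f := by
  intro ξ η H
  have h1 : f ξ = f (a.piecewise η ξ) := ha _ _ fun i hi => by simp [Finset.piecewise, hi]
  rw [h1]
  refine hb _ _ fun i hi => ?_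
  by_cases hia : i ∈ a
  · simp [Finset.piecewise, hia]
  · simp only [Finset.piecewise, hia, if_false]
    exact H i (by simp [hia, hi])

variable {S} in
lemma Indep.tr {β : Type*} {a : Finset ι} {f : S.G → β} (h : S.Indep a f) (c : S.G) :
    S.Indep a fun ξ => f (ξ + c) := by
  intro ξ η H
  refine h _ _ fun i hi => ?_
  simp [H i hi]

variable {S} in
lemma Indep.av {a : Finset ι} {f : S.G → ℂ} (h : S.Indep a f) (v : Finset ι) :
    S.Indep a (S.av v f) := by
  intro ξ η H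
  unfold Sys.av
  congr 1
  refine sum_congr rfl fun θ _ => h _ _ fun i hi => ?_
  by_cases hv : i ∈ v
  · simp [Finset.piecewise, hv]
  · simp [Finset.piecewise, hv, H i hi]

variable {S} in
lemma Indep.rs {β : Type*} {a : Finset ι} {f : S.G → β} (h : S.Indep a f) (ξ : S.G) :
    f (S.rs a ξ) = f ξ := by
  refine h _ _ fun i hi => ?_
  simp [Sys.rs, hi]

lemma av_sub (v : Finset ι) (f g : S.G → ℂ) :
    S.av v (fun ξ => f ξ - g ξ) = fun ξ => S.av v f ξ - S.av v g ξ := by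
  funext ξ
  simp only [av, sum_sub_distrib, mul_sub]

lemma av_sum {α : Type*} (v : Finset ι) (s : Finset α) (c : α → ℂ) (f : α → S.G → ℂ) :
    S.av v (fun ξ => ∑ i ∈ s, c i * f i ξ) = fun ξ => ∑ i ∈ s, c i * S.av v (f i) ξ := by
  funext ξ
  simp only [av, mul_sum]
  rw [sum_comm]
  refine sum_congr rfl fun i _ => sum_congr rfl fun η _ => by ring

lemma av_tr (v : Finset ι) (f : S.G → ℂ) (c : S.G) :
    S.av v (fun ξ => f (ξ + c)) = fun ξ => S.av v f (ξ + c) := by
  funext ξ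
  unfold av
  congr 1
  rw [← S.sum_add_right (fun η => f (v.piecewise η (ξ + c))) c]
  refine sum_congr rfl fun η _ => congrArg f ?_
  funext i
  by_cases hi : i ∈ v <;> simp [Finset.piecewise, hi]

lemma av_av (v w : Finset ι) (f : S.G → ℂ) : S.av v (S.av w f) = S.av (v ∪ w) f := by
  funext ξ
  have h1 := S.avx_sum_swap w (fun η _ => f ((v ∪ w).piecewise η ξ))
  have h2 : ∀ η θ : S.G, (v ∪ w).piecewise (w.piecewise θ η) ξ
      = w.piecewise θ (v.piecewise η ξ) := by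
    intro η θ
    funext i
    by_cases hi : i ∈ v <;> by_cases hw : i ∈ w <;> simp [Finset.piecewise, hi, hw]
  simp only [h2, sum_const, card_univ, nsmul_eq_mul] at h1
  simp only [av]
  congr 1
  rw [← mul_sum, h1, ← mul_sum, ← mul_assoc, inv_mul_cancel₀ S.avx_card_ne, one_mul]

lemma av_piecewise {v w : Finset ι} (h : Disjoint v w) (f : S.G → ℂ) (c : S.G) :
    S.av v (fun ξ => f (w.piecewise c ξ)) = fun ξ => S.av v f (w.piecewise c ξ) := by
  funext ξ
  unfold av
  congr 1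
  refine sum_congr rfl fun η _ => congrArg f ?_
  funext i
  by_cases hi : i ∈ v
  · have hw : i ∉ w := Finset.disjoint_left.1 h hi
    simp [Finset.piecewise, hi, hw]
  · by_cases hw : i ∈ w <;> simp [Finset.piecewise, hi, hw]

lemma av_single (p : ι) (f : S.G → ℂ) (ξ : S.G) :
    S.av {p} f ξ = (S.m p : ℂ)⁻¹ * ∑ c : ZMod (S.m p), f (Function.update ξ p c) := by
  have h1 := S.avx_sum_upd p (fun _ c => f (Function.update ξ p c))
  simp only [sum_const, card_univ, nsmul_eq_mul, ZMod.card] at h1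
  have h2 : ∀ η : S.G, ({p} : Finset ι).piecewise η ξ = Function.update ξ p (η p) := fun η =>
    Finset.piecewise_singleton η ξ p
  have hm : (S.m p : ℂ) ≠ 0 := Nat.cast_ne_zero.2 (S.m_pos p).ne'
  simp only [av, h2]
  rw [← mul_sum] at h1
  have hc := S.avx_card_ne
  field_simp
  rw [← h1, mul_comm]

lemma ip_av (v : Finset ι) (g f : S.G → ℂ) : S.ip (S.av v g) f = S.ip g (S.av v f) := by
  have h1 := S.avx_sum_swap v (fun η ξ => (starRingEnd ℂ) (g ξ) * f (v.piecewise η ξ))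
  have h2 : ∀ η ξ : S.G, v.piecewise (v.piecewise ξ η) (v.piecewise η ξ) = ξ := by
    intro η ξ
    funext i
    by_cases hi : i ∈ v <;> simp [Finset.piecewise, hi]
  simp only [h2] at h1
  simp only [ip, av, map_mul, map_sum, map_inv₀, map_natCast]
  calc ∑ ξ : S.G, ((Fintype.card S.G : ℂ)⁻¹ *
          ∑ η : S.G, (starRingEnd ℂ) (g (v.piecewise η ξ))) * f ξ
      = (Fintype.card S.G : ℂ)⁻¹ *
          ∑ η : S.G, ∑ ξ : S.G, (starRingEnd ℂ) (g (v.piecewise η ξ)) * f ξ := by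
        rw [sum_comm, mul_sum]
        refine sum_congr rfl fun ξ _ => ?_
        rw [mul_assoc, sum_mul]
    _ = _ := by
        rw [h1, sum_comm, mul_sum]
        refine sum_congr rfl fun ξ _ => ?_
        rw [← mul_sum]
        ring

lemma avx_ip_av_self (v : Finset ι) (f : S.G → ℂ) :
    S.ip (S.av v f) f = (S.nn (S.av v f) : ℂ) := by
  rw [← S.ip_self, ← S.ip_av v (S.av v f) f, S.av_of_indep (S.indep_av v f)]

lemma nn_av_le (v : Finset ι) (f : S.G → ℂ) : S.nn (S.av v f) ≤ S.nn f := by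
  have hc : (0 : ℝ) < Fintype.card S.G := Nat.cast_pos.2 Fintype.card_pos
  have h1 := S.avx_sum_nn_pw v f
  have h2 : ∀ ξ, ‖S.av v f ξ‖ ^ 2
      ≤ (Fintype.card S.G : ℝ)⁻¹ * ∑ η : S.G, ‖f (v.piecewise η ξ)‖ ^ 2 := by
    intro ξ
    have h3 := norm_sq_sum_le univ fun η : S.G => f (v.piecewise η ξ)
    rw [card_univ] at h3
    unfold av
    rw [norm_mul, norm_inv, Complex.norm_natCast, mul_pow]
    calc _ ≤ (Fintype.card S.G : ℝ)⁻¹ ^ 2 *
          (Fintype.card S.G * ∑ η : S.G, ‖f (v.piecewise η ξ)‖ ^ 2) := by gcongr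
      _ = _ := by field_simp
  calc S.nn (S.av v f)
      ≤ ∑ ξ, (Fintype.card S.G : ℝ)⁻¹ * ∑ η : S.G, ‖f (v.piecewise η ξ)‖ ^ 2 :=
        sum_le_sum fun ξ _ => h2 ξ
    _ = S.nn f := by
        rw [← mul_sum, sum_comm]
        unfold nn at h1 ⊢
        rw [h1]
        field_simp

lemma nn_sub_av (v : Finset ι) (f : S.G → ℂ) :
    S.nn (fun ξ => f ξ - S.av v f ξ) = S.nn f - S.nn (S.av v f) := by
  rw [S.avx_nn_sub, S.avx_ip_av_self]
  simp only [Complex.ofReal_re]
  ring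

lemma sum_update (p : ι) (f : S.G → ℂ) :
    ∑ c : ZMod (S.m p), S.nn (fun ξ => f (Function.update ξ p c) - S.av {p} f ξ)
      = S.m p * S.nn fun ξ => f ξ - S.av {p} f ξ := by
  have h1 := S.avx_sum_upd p (fun ξ _ => ‖f ξ - S.av {p} f ξ‖ ^ 2)
  have h2 : ∀ (ξ : S.G) (c : ZMod (S.m p)),
      S.av {p} f (Function.update ξ p c) = S.av {p} f ξ := by
    intro ξ c
    refine S.indep_av {p} f _ _ fun i hi => ?_
    rw [Function.update_of_ne (by simpa using hi)]
  simp only [h2, sum_const, card_univ, nsmul_eq_mul, ZMod.card] at h1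
  unfold nn
  rw [sum_comm, h1, mul_sum]

lemma sum_nn_piecewise (v : Finset ι) (f : S.G → ℂ) :
    ∑ c : S.G, S.nn (fun ξ => f (v.piecewise c ξ)) = Fintype.card S.G * S.nn f := by
  exact S.avx_sum_nn_pw v f

lemma sum_nn_piecewise_sub (v : Finset ι) (f : S.G → ℂ) :
    ∑ c : S.G, S.nn (fun ξ => f (v.piecewise c ξ) - f ξ)
      = Fintype.card S.G * (2 * (S.nn f - S.nn (S.av v f))) := by
  simp only [S.avx_nn_sub]
  have h1 : ∑ c : S.G, S.ip f (fun ξ => f (v.piecewise c ξ))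
      = Fintype.card S.G * (S.nn (S.av v f) : ℂ) := by
    rw [← S.avx_ip_av_self, S.ip_av]
    simp only [ip, av]
    rw [sum_comm, mul_sum]
    refine sum_congr rfl fun ξ _ => ?_
    rw [← mul_sum]
    have hc := S.avx_card_ne
    field_simp
  have h2 := congrArg Complex.re h1
  rw [Complex.re_sum] at h2
  simp only [Complex.mul_re, Complex.natCast_re, Complex.ofReal_re, Complex.natCast_im,
    Complex.ofReal_im, mul_zero, sub_zero] at h2
  rw [sum_add_distrib, sum_sub_distrib, S.avx_sum_nn_pw, ← mul_sum, h2]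
  simp only [sum_const, card_univ, nsmul_eq_mul]
  ring

/-- Efron-Stein. -/
lemma efron_stein (v : Finset ι) (f : S.G → ℂ) :
    S.nn f - S.nn (S.av v f) ≤ ∑ p ∈ v, S.nn fun ξ => f ξ - S.av {p} f ξ := by
  induction v using Finset.induction_on with
  | empty =>
    have h : S.av ∅ f = f := S.av_of_indep fun ξ η H => by
      rw [show ξ = η from funext fun i => H i (by simp)]
    simp [h]
  | insert p v hp ih =>
    rw [sum_insert hp]
    have h1 := S.nn_sub_av {p} (S.av v f)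
    have h2 := S.nn_av_le v fun ξ => f ξ - S.av {p} f ξ
    rw [S.av_sub, S.av_av, union_comm] at h2
    rw [S.av_av] at h1
    rw [insert_eq]
    linarith

lemma nn_wsum {α : Type*} (s : Finset α) {w : α → ℝ} (hw : ∀ i ∈ s, 0 ≤ w i) (f : α → S.G → ℂ) :
    S.nn (fun ξ => ∑ i ∈ s, (w i : ℂ) * f i ξ) ≤ (∑ i ∈ s, w i) * ∑ i ∈ s, w i * S.nn (f i) := by
  unfold nn
  calc _ ≤ ∑ ξ : S.G, (∑ i ∈ s, w i) * ∑ i ∈ s, w i * ‖f i ξ‖ ^ 2 :=
        sum_le_sum fun ξ _ => norm_sq_wsum s hw fun i => f i ξ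
    _ = _ := by
        rw [← mul_sum, sum_comm]
        simp only [mul_sum]

lemma inf_wsum {α : Type*} (s : Finset α) {w : α → ℝ} (hw : ∀ i ∈ s, 0 ≤ w i) (f : α → S.G → ℂ) :
    S.inf (fun ξ => ∑ i ∈ s, (w i : ℂ) * f i ξ)
      ≤ (∑ i ∈ s, w i) * ∑ i ∈ s, w i * S.inf (f i) := by
  unfold inf
  have h1 : ∀ p : ι, (S.nn fun ξ => ∑ i ∈ s, (w i : ℂ) * f i ξ -
        S.av {p} (fun ξ => ∑ i ∈ s, (w i : ℂ) * f i ξ) ξ)
      ≤ (∑ i ∈ s, w i) * ∑ i ∈ s, w i * S.nn fun ξ => f i ξ - S.av {p} (f i) ξ := by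
    intro p
    have h2 := S.nn_wsum s hw fun i ξ => f i ξ - S.av {p} (f i) ξ
    rw [S.av_sum]
    refine le_of_eq_of_le ?_ h2
    simp only [mul_sub, sum_sub_distrib]
  refine (sum_le_sum fun p _ => h1 p).trans (le_of_eq ?_)
  rw [← mul_sum, sum_comm]
  simp only [mul_sum]

end Sys

end Pool.Agent.Work.MP_678620_nt
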