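import Pool.Agent.Work.MP_678620_nt.SPBasic

/-! Exceptional pairs. -/

set_option autoImplicit false
open Finset Pool.Agent.Lib.LargeSieve

namespace Pool.Agent.Work.MP_678620_nt

lemma SPBad_inj {α β : Type*} [DecidableEq β] {s : Finset α} {t : Finset β} {g : α → β}
    (hg : Set.InjOn g s) (hm : ∀ a ∈ s, g a ∈ t) {F : β → ℝ} (hF : ∀ b ∈ t, 0 ≤ F b) :
    ∑ a ∈ s, F (g a) ≤ ∑ b ∈ t, F b := by
  rw [← sum_image hg]
  exact sum_le_sum_of_subset_of_nonneg (image_subset_iff.2 hm) fun b hb _ => hF b hb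

lemma SPBad_union {β : Type*} [DecidableEq β] (A B : Finset β) {F : β → ℝ} (hF : ∀ b, 0 ≤ F b) :
    ∑ b ∈ A ∪ B, F b ≤ ∑ b ∈ A, F b + ∑ b ∈ B, F b := by
  rw [← sum_union_inter]
  exact le_add_of_nonneg_right (sum_nonneg fun b _ => hF b)

lemma SPBad_biU {α β : Type*} [DecidableEq β] (s : Finset α) (t : α → Finset β) {F : β → ℝ}
    (hF : ∀ b, 0 ≤ F b) : ∑ b ∈ s.biUnion t, F b ≤ ∑ a ∈ s, ∑ b ∈ t a, F b := by
  classical
  induction s using Finset.induction_on with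
  | empty => simp
  | insert a s ha ih =>
    rw [biUnion_insert, sum_insert ha]
    exact (SPBad_union _ _ hF).trans (by linarith)

lemma SPBad_mult (Y m : ℕ) (hm : 0 < m) :
    (((Icc (1 : ℤ) Y).filter fun n => (m : ℤ) ∣ n).card : ℝ) ≤ Y * (m : ℝ)⁻¹ := by
  have h : ((Icc (1 : ℤ) Y).filter fun n => (m : ℤ) ∣ n).card ≤
      ((Ioc 0 Y).filter fun n => m ∣ n).card := by
    refine card_le_card_of_injOn Int.toNat (fun n hn => ?_) fun n hn n' hn' e => ?_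
    · obtain ⟨h1, h2⟩ := mem_filter.1 (mem_coe.1 hn)
      rw [mem_Icc] at h1
      refine mem_coe.2 (mem_filter.2 ⟨mem_Ioc.2 ⟨by omega, by omega⟩, ?_⟩)
      rw [← Int.natCast_dvd_natCast, Int.toNat_of_nonneg (by omega)]
      exact h2
    · have h1 := mem_Icc.1 (mem_filter.1 (mem_coe.1 hn)).1
      have h2 := mem_Icc.1 (mem_filter.1 (mem_coe.1 hn')).1
      omega
  rw [Nat.Ioc_filter_dvd_card_eq_div] at h
  rw [← div_eq_mul_inv]
  exact (Nat.cast_le.2 h).trans Nat.cast_div_le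

lemma SPBad_three {α : Type*} [DecidableEq α] {d1 d2 d3 : Finset α} (h12 : d1 ≠ d2)
    (hc : d1.card = d2.card) : ∃ q, q ∈ d1 ∧ q ∉ d2 ∧ (q ∈ d3 ∨ q ∉ d3) := by
  have : ¬ d1 ⊆ d2 := fun h => h12 (eq_of_subset_of_card_le h hc.ge)
  obtain ⟨q, h1, h2⟩ := not_subset.1 this
  exact ⟨q, h1, h2, em _⟩

namespace Sys

variable {ι : Type} [Fintype ι] [DecidableEq ι] (S : Sys ι)

/-- The subsets of `Z` with `s` or `s - 1` elements. -/
def badW (Z : Finset ι) : Finset (Finset ι) := Z.powersetCard S.s ∪ Z.powersetCard (S.s - 1)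

/-- The primes dividing a small nonzero difference. -/
def badP (a b : Finset ι) : Finset ι := S.E.filter fun p => S.pr a ≠ S.pr b ∧ S.pr a ≤ 2 * S.T ∧
  S.pr b ≤ 2 * S.T ∧ (S.pr a : ZMod (S.m p)) = S.pr b

/-- A residue class of primes. -/
def badC (p : ι) (a b : Finset ι) : Finset ι :=
  S.E.filter fun q => p ∉ a ∧ (S.m q : ZMod (S.m p)) * S.pr a = S.pr b

/-- The primes completing `Z` to a bad set. -/
def badQ (Z : Finset ι) : Finset ι := (S.badW Z ×ˢ S.badW Z ×ˢ S.badW Z).biUnion fun x =>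
  (S.badP x.1 x.2.1).biUnion fun p => S.badC p x.1 x.2.2 ∪ S.badC p x.2.2 x.1

lemma bad_H0 : 0 < S.H0 := lt_of_lt_of_le (by norm_num) S.H0_big

lemma bad_Λ : 0 < S.Λ := lt_of_lt_of_le (by norm_num) S.big

lemma card_badW {Z : Finset ι} (hZ : Z.card = S.s + S.k' - 1) : (S.badW Z).card ≤ S.D' := by
  have h1 := S.k_ge
  have h2 := S.k_le
  refine (card_union_le _ _).trans (le_of_eq ?_)
  obtain ⟨t, ht⟩ : ∃ t, S.s = t + 1 := ⟨S.s - 1, by omega⟩
  rw [card_powersetCard, card_powersetCard, hZ, D', ← Nat.choose_symm_add, ht]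
  have e : t + 1 + S.k' = t + S.k' + 1 := by ring
  rw [e, Nat.add_sub_cancel, Nat.add_sub_cancel, Nat.choose_succ_succ', add_comm]

lemma card_badP (a b : Finset ι) : ((S.badP a b).card : ℝ) ≤ S.Λ := by
  rcases (S.badP a b).eq_empty_or_nonempty with h | ⟨p0, h0⟩
  · rw [h]; simpa using S.bad_Λ.le
  obtain ⟨-, h1, h2, h3, -⟩ := mem_filter.1 h0
  have hE : S.badP a b ⊆ S.E := filter_subset _ _
  have h4 : S.badP a b ⊆ S.Zi ((S.pr a : ℤ) - S.pr b) := fun p hp => by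
    obtain ⟨h5, -, -, -, h6⟩ := mem_filter.1 hp
    refine S.mem_Zi.2 ⟨h5, (ZMod.intCast_zmod_eq_zero_iff_dvd _ _).1 ?_⟩
    push_cast
    exact sub_eq_zero.2 h6
  have h1' : (S.pr a : ℤ) ≠ S.pr b := by exact_mod_cast h1
  have h5 := Int.le_of_dvd (abs_pos.2 (sub_ne_zero.2 h1'))
    ((dvd_abs _ _).2 ((S.sub_Zi hE).1 h4))
  have h6 : (S.pr (S.badP a b) : ℤ) ≤ 4 * S.T := h5.trans (abs_le.2 ⟨by omega, by omega⟩)
  have h7 : (S.pr (S.badP a b) : ℝ) ≤ 4 * S.T := by exact_mod_cast h6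
  have h8 : Real.exp 1 ≤ S.H0 := by linarith [Real.exp_one_lt_d9, S.H0_big]
  have h9 : Real.exp (S.badP a b).card ≤ 4 * S.T := by
    rw [← Real.exp_one_pow]
    exact (pow_le_pow_left₀ (Real.exp_pos 1).le h8 _).trans ((S.H0_pow_le_pr hE).trans h7)
  have h10 := (Real.le_log_iff_exp_le ((Real.exp_pos _).trans_le h9)).2 h9
  linarith [S.logT]

lemma sum_badC {p : ι} (hp : p ∈ S.E) (a b : Finset ι) :
    ∑ q ∈ S.badC p a b, S.nu q ≤ S.Λ / S.H0 := by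
  have hH := S.bad_H0
  have hP := S.m_pos p
  haveI := Fact.mk (S.prime p hp)
  have h1 : (1 : ℝ) ≤ S.H1 := by linarith [S.H0_big, S.H01]
  set F : ℕ → ℝ := fun j => (if j = 0 then 1 else 1 / (j : ℝ)) / S.H0 with hF
  have a1 : ∑ q ∈ S.badC p a b, S.nu q ≤ ∑ q ∈ S.badC p a b, F (S.m q / S.m p) := by
    refine sum_le_sum fun q hq => ?_
    have hq' := (mem_filter.1 hq).1
    simp only [hF]
    split_ifs with h
    · rw [one_div]; exact S.nu_le hq'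
    · have h2 : (0 : ℝ) < (S.m q / S.m p : ℕ) := by exact_mod_cast Nat.pos_of_ne_zero h
      have h3 : ((S.m q / S.m p : ℕ) : ℝ) * S.m p ≤ S.m q := by
        exact_mod_cast Nat.div_mul_le_self _ _
      rw [div_div, one_div, nu]
      refine inv_anti₀ (by positivity) (le_trans ?_ h3)
      gcongr
      exact S.lo p hp
  have a2 : ∑ q ∈ S.badC p a b, F (S.m q / S.m p) ≤ ∑ j ∈ insert 0 (Icc 1 ⌊S.H1⌋₊), F j := by
    refine SPBad_inj (g := fun q => S.m q / S.m p) (fun q hq q' hq' e => ?_) (fun q hq => ?_)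
      fun j _ => ?_
    · obtain ⟨h2, h3, h4⟩ := mem_filter.1 (mem_coe.1 hq)
      obtain ⟨-, -, h5⟩ := mem_filter.1 (mem_coe.1 hq')
      have h6 : (S.pr a : ZMod (S.m p)) ≠ 0 := fun h =>
        h3 ((S.m_dvd_pr hp).1 ((ZMod.natCast_eq_zero_iff _ _).1 h))
      have h7 := (ZMod.natCast_eq_natCast_iff' _ _ _).1 (mul_right_cancel₀ h6 (h4.trans h5.symm))
      refine S.m_inj h2 ?_
      rw [← Nat.div_add_mod (S.m q) (S.m p), ← Nat.div_add_mod (S.m q') (S.m p), h7]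
      exact congrArg (fun x => S.m p * x + S.m q' % S.m p) e
    · have h2 : S.m q ≤ ⌊S.H1⌋₊ := Nat.le_floor (S.hi q (mem_filter.1 hq).1)
      have h3 := Nat.div_le_self (S.m q) (S.m p)
      rw [mem_insert, mem_Icc]
      generalize S.m q / S.m p = x at h3 ⊢
      omega
    · simp only [hF]
      split_ifs <;> positivity
  have a3 : ∑ j ∈ insert 0 (Icc 1 ⌊S.H1⌋₊), F j = (1 + HH ⌊S.H1⌋₊) / S.H0 := by
    rw [sum_insert (by simp), add_div, HH, sum_div]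
    refine congrArg₂ _ (by simp [hF]) (sum_congr rfl fun j hj => ?_)
    have := (mem_Icc.1 hj).1
    simp only [hF]
    rw [if_neg (by omega)]
  have a4 : Real.log ⌊S.H1⌋₊ ≤ Real.log S.H1 :=
    Real.log_le_log (by exact_mod_cast Nat.floor_pos.2 h1) (Nat.floor_le (by linarith))
  refine a1.trans (a2.trans (a3.le.trans ?_))
  gcongr
  linarith [HH_le ⌊S.H1⌋₊, S.logH]

lemma sum_badQ {Z : Finset ι} (hZ : Z.card = S.s + S.k' - 1) :
    ∑ q ∈ S.badQ Z, S.nu q ≤ 2 * (S.D' : ℝ) ^ 3 * S.Λ ^ 2 / S.H0 := by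
  have hH := S.bad_H0
  have hΛ := S.bad_Λ
  have hν : ∀ q, 0 ≤ S.nu q := fun q => (S.nu_pos q).le
  have a1 : ∀ x : Finset ι × Finset ι × Finset ι, ∑ q ∈ (S.badP x.1 x.2.1).biUnion
      (fun p => S.badC p x.1 x.2.2 ∪ S.badC p x.2.2 x.1), S.nu q ≤ S.Λ * (2 * (S.Λ / S.H0)) := by
    intro x
    refine (SPBad_biU _ _ hν).trans ((sum_le_card_nsmul _ _ (2 * (S.Λ / S.H0)) ?_).trans ?_)
    · intro p hp
      have hp' := (mem_filter.1 hp).1
      linarith [SPBad_union (S.badC p x.1 x.2.2) (S.badC p x.2.2 x.1) hν,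
        S.sum_badC hp' x.1 x.2.2, S.sum_badC hp' x.2.2 x.1]
    · rw [nsmul_eq_mul]
      gcongr
      exact S.card_badP _ _
  refine (SPBad_biU _ _ hν).trans ((sum_le_card_nsmul _ _ _ fun x _ => a1 x).trans ?_)
  have a2 : ((S.badW Z).card : ℝ) ≤ S.D' := by exact_mod_cast S.card_badW hZ
  rw [nsmul_eq_mul, card_product, card_product]
  push_cast
  calc ((S.badW Z).card : ℝ) * ((S.badW Z).card * (S.badW Z).card) * (S.Λ * (2 * (S.Λ / S.H0)))
      ≤ (S.D' : ℝ) * (S.D' * S.D') * (S.Λ * (2 * (S.Λ / S.H0))) := by gcongr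
    _ = _ := by ring

lemma mem_badW {Z d : Finset ι} (q : ι) (hd : d ∈ S.DD) (h : d ⊆ Z) :
    d.erase q ∈ S.badW (Z.erase q) := by
  have h1 := erase_subset_erase q h
  by_cases hq : q ∈ d
  · exact mem_union_right _ (mem_powersetCard.2 ⟨h1, by rw [card_erase_of_mem hq, S.DD_card d hd]⟩)
  · exact mem_union_left _ (mem_powersetCard.2 ⟨h1, by rw [erase_eq_of_notMem hq, S.DD_card d hd]⟩)

lemma bad_pr {d : Finset ι} {q : ι} (hq : q ∈ d) : S.pr d = S.m q * S.pr (d.erase q) := by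
  rw [← S.pr_insert (notMem_erase q d), insert_erase hq]

lemma exists_badQ {Z : Finset ι} (h : ¬ S.good Z) : ∃ q ∈ Z, q ∈ S.badQ (Z.erase q) := by
  unfold good at h
  push Not at h
  obtain ⟨p, hp, c, hc⟩ := h
  obtain ⟨d1, m1, d2, m2, d3, m3, n12, n13, n23⟩ := two_lt_card.1 hc
  obtain ⟨a1, b1, c1⟩ := mem_filter.1 m1
  obtain ⟨a2, b2, c2⟩ := mem_filter.1 m2
  obtain ⟨a3, b3, c3⟩ := mem_filter.1 m3
  have np : ∀ d, d ⊆ Z.erase p → p ∉ d := fun d hd h => notMem_erase p Z (hd h)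
  have sz : ∀ d, d ⊆ Z.erase p → d ⊆ Z := fun d hd => hd.trans (erase_subset _ _)
  obtain ⟨q, q1, q2, q3 | q3⟩ := SPBad_three (d3 := d3) n12
    ((S.DD_card d1 a1).trans (S.DD_card d2 a2).symm)
  · have hq := S.DD_sub d1 a1 q1
    have e1 := S.bad_pr q1
    have e3 := S.bad_pr q3
    have hm := S.m_pos q
    haveI := Fact.mk (S.prime p hp)
    have hqp : (S.m q : ZMod (S.m p)) ≠ 0 := fun h => by
      have h1 := (ZMod.natCast_eq_zero_iff _ _).1 h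
      exact np d1 b1 ((S.m_dvd_pr hp).1 (e1 ▸ h1.mul_right _))
    refine ⟨q, sz d1 b1 q1, mem_biUnion.2 ⟨(d1.erase q, d3.erase q, d2.erase q),
      mem_product.2 ⟨S.mem_badW q a1 (sz _ b1), mem_product.2
        ⟨S.mem_badW q a3 (sz _ b3), S.mem_badW q a2 (sz _ b2)⟩⟩,
      mem_biUnion.2 ⟨p, mem_filter.2 ⟨hp, fun h => ?_, ?_, ?_, ?_⟩, mem_union_left _
        (mem_filter.2 ⟨hq, fun h => np d1 b1 (mem_of_mem_erase h), ?_⟩)⟩⟩⟩
    · exact n13 (S.pr_inj (S.DD_sub _ a1) (S.DD_sub _ a3) (by rw [e1, e3]; exact congrArg _ h))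
    · exact (Nat.le_mul_of_pos_left _ hm).trans (e1 ▸ S.DD_hi d1 a1)
    · exact (Nat.le_mul_of_pos_left _ hm).trans (e3 ▸ S.DD_hi d3 a3)
    · refine mul_left_cancel₀ hqp ?_
      rw [← Nat.cast_mul, ← Nat.cast_mul, ← e1, ← e3, c1, c3]
    · rw [← Nat.cast_mul, ← e1, erase_eq_of_notMem q2, c1, c2]
  · have hq := S.DD_sub d1 a1 q1
    have e1 := S.bad_pr q1
    refine ⟨q, sz d1 b1 q1, mem_biUnion.2 ⟨(d2.erase q, d3.erase q, d1.erase q),
      mem_product.2 ⟨S.mem_badW q a2 (sz _ b2), mem_product.2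
        ⟨S.mem_badW q a3 (sz _ b3), S.mem_badW q a1 (sz _ b1)⟩⟩,
      mem_biUnion.2 ⟨p, mem_filter.2 ⟨hp, ?_⟩, mem_union_right _
        (mem_filter.2 ⟨hq, fun h => np d1 b1 (mem_of_mem_erase h), ?_⟩)⟩⟩⟩
    · simp only [erase_eq_of_notMem q2, erase_eq_of_notMem q3]
      exact ⟨fun h => n23 (S.pr_inj (S.DD_sub _ a2) (S.DD_sub _ a3) h), S.DD_hi d2 a2,
        S.DD_hi d3 a3, c2.trans c3.symm⟩
    · rw [← Nat.cast_mul, ← e1, erase_eq_of_notMem q2, c1, c2]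

/-- The weight of a completion. -/
noncomputable def badF (q : ι) (Z : Finset ι) : ℝ := if q ∈ S.badQ Z then S.nu q * S.iv Z else 0

lemma badF_nonneg (q : ι) (Z : Finset ι) : 0 ≤ S.badF q Z := by
  unfold badF
  split_ifs
  · exact (mul_pos (S.nu_pos q) (S.iv_pos Z)).le
  · exact le_rfl

lemma bad_step1 {Z : Finset ι} (h1 : Z ⊆ S.E) (h2 : ¬ S.good Z) :
    S.iv Z ≤ ∑ q ∈ S.E, if q ∈ Z then S.badF q (Z.erase q) else 0 := by
  obtain ⟨q, h3, h4⟩ := S.exists_badQ h2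
  have h5 : S.iv Z = S.badF q (Z.erase q) := by
    rw [badF, if_pos h4, ← S.iv_insert (notMem_erase q Z), insert_erase h3]
  rw [← sum_filter, h5]
  exact single_le_sum (f := fun q => S.badF q (Z.erase q)) (fun q _ => S.badF_nonneg _ _)
    (mem_filter.2 ⟨h1 h3, h3⟩)

lemma bad_step2 {B : Finset (Finset ι)} {n : ℕ} (hB : B ⊆ S.E.powersetCard n) (q : ι) :
    (∑ Z ∈ B, if q ∈ Z then S.badF q (Z.erase q) else 0) ≤
      ∑ Z ∈ S.E.powersetCard (n - 1), S.badF q Z := by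
  rw [← sum_filter]
  refine SPBad_inj (g := fun Z : Finset ι => Z.erase q) (F := S.badF q)
    (fun Z hZ Z' hZ' e => ?_) (fun Z hZ => ?_) fun Z _ => S.badF_nonneg q Z
  · rw [← insert_erase (mem_filter.1 (mem_coe.1 hZ)).2,
      ← insert_erase (mem_filter.1 (mem_coe.1 hZ')).2]
    exact congrArg _ e
  · obtain ⟨h1, h2⟩ := mem_filter.1 hZ
    obtain ⟨h3, h4⟩ := mem_powersetCard.1 (hB h1)
    exact mem_powersetCard.2 ⟨(erase_subset _ _).trans h3, by rw [card_erase_of_mem h2, h4]⟩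

lemma bad_step3 {Z : Finset ι} (hZ : Z.card = S.s + S.k' - 1) :
    ∑ q ∈ S.E, S.badF q Z ≤ 2 * (S.D' : ℝ) ^ 3 * S.Λ ^ 2 / S.H0 * S.iv Z := by
  unfold badF
  rw [← sum_filter, ← sum_mul]
  refine mul_le_mul_of_nonneg_right (le_trans ?_ (S.sum_badQ hZ)) (S.iv_pos Z).le
  exact sum_le_sum_of_subset_of_nonneg (fun q hq => (mem_filter.1 hq).2)
    fun q _ _ => (S.nu_pos q).le

theorem bad_mass :
    ∑ Z ∈ (S.E.powersetCard (S.s + S.k')).filter (fun Z => ¬ S.good Z), S.iv Z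
      ≤ 2 * (S.D' : ℝ) ^ 3 * S.Λ ^ 2 / S.H0 * S.es (S.s + S.k' - 1) := by
  refine (sum_le_sum fun Z hZ =>
    S.bad_step1 (mem_powersetCard.1 (mem_filter.1 hZ).1).1 (mem_filter.1 hZ).2).trans ?_
  rw [sum_comm]
  refine (sum_le_sum fun q _ => S.bad_step2 (filter_subset _ _) q).trans ?_
  rw [sum_comm, S.es_eq, mul_sum]
  exact sum_le_sum fun Z hZ => S.bad_step3 (mem_powersetCard.1 hZ).2

lemma bad_first (Y : ℕ) {d : Finset ι} (hd : d ∈ S.DD) :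
    (((Icc (1 : ℤ) Y).filter fun n => ∃ p ∈ d, (S.m p : ℤ) ∣ n).card : ℝ) ≤ S.Λ * (Y / S.H0) := by
  have hH := S.bad_H0
  have h1 : ((Icc (1 : ℤ) Y).filter fun n => ∃ p ∈ d, (S.m p : ℤ) ∣ n) ⊆
      d.biUnion fun p => (Icc (1 : ℤ) Y).filter fun n => (S.m p : ℤ) ∣ n := fun n hn => by
    obtain ⟨h2, p, h3, h4⟩ := mem_filter.1 hn
    exact mem_biUnion.2 ⟨p, h3, mem_filter.2 ⟨h2, h4⟩⟩
  have h2 := (card_le_card h1).trans card_biUnion_le
  refine (Nat.cast_le.2 h2).trans ?_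
  push_cast
  refine (sum_le_card_nsmul _ _ (Y / S.H0) fun p hp => ?_).trans ?_
  · refine (SPBad_mult Y _ (S.m_pos p)).trans ?_
    rw [div_eq_mul_inv]
    exact mul_le_mul_of_nonneg_left (S.nu_le (S.DD_sub d hd hp)) (by positivity)
  · rw [nsmul_eq_mul, S.DD_card d hd]
    gcongr
    exact S.s_le

lemma bad_count (Y : ℕ) : (((Icc (1 : ℤ) Y).filter fun y =>
    (S.Zi y).card = S.s + S.k' ∧ ¬ S.good (S.Zi y)).card : ℝ) ≤
      Y * (2 * (S.D' : ℝ) ^ 3 * S.Λ ^ 2 / S.H0 * S.es (S.s + S.k' - 1)) := by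
  have h1 : ((Icc (1 : ℤ) Y).filter fun y => (S.Zi y).card = S.s + S.k' ∧ ¬ S.good (S.Zi y)) ⊆
      ((S.E.powersetCard (S.s + S.k')).filter (fun Z => ¬ S.good Z)).biUnion
        fun Z => (Icc (1 : ℤ) Y).filter fun n => (S.pr Z : ℤ) ∣ n := fun y hy => by
    obtain ⟨h2, h3, h4⟩ := mem_filter.1 hy
    exact mem_biUnion.2 ⟨S.Zi y, mem_filter.2 ⟨mem_powersetCard.2 ⟨S.Zs_sub _, h3⟩, h4⟩,
      mem_filter.2 ⟨h2, (S.sub_Zi (S.Zs_sub _)).1 Subset.rfl⟩⟩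
  have h2 := (card_le_card h1).trans card_biUnion_le
  refine (Nat.cast_le.2 h2).trans ?_
  push_cast
  refine (sum_le_sum fun Z _ => SPBad_mult Y _ (S.pr_pos Z)).trans ?_
  rw [← mul_sum]
  exact mul_le_mul_of_nonneg_left S.bad_mass (by positivity)

theorem Ex_le (N : ℕ) : (S.Ex N : ℝ) ≤ 3 * S.Λ * N * S.DD.card / S.H0
    + 12 * (S.D' : ℝ) ^ 4 * S.Λ ^ 2 / S.H0 * (S.T * N) * S.es (S.s + S.k' - 1) := by
  set B := (Icc (1 : ℤ) (6 * S.T * N : ℕ)).filter fun y =>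
    (S.Zi y).card = S.s + S.k' ∧ ¬ S.good (S.Zi y) with hB
  have h1 : ∀ d ∈ S.DD, ((Icc (1 : ℤ) (3 * N)).filter fun n => (∃ p ∈ d, (S.m p : ℤ) ∣ n) ∨
      ((S.Zi (S.pr d * n)).card = S.s + S.k' ∧ ¬ S.good (S.Zi (S.pr d * n)))).card ≤
      ((Icc (1 : ℤ) (3 * N : ℕ)).filter fun n => ∃ p ∈ d, (S.m p : ℤ) ∣ n).card +
        (B.filter fun y => d ⊆ S.Zi y).card := by
    intro d hd
    rw [filter_or]
    refine (card_union_le _ _).trans (add_le_add (by push_cast; exact le_rfl) ?_)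
    have h0 : (0 : ℤ) < S.pr d := by exact_mod_cast S.pr_pos d
    have h2 : (S.pr d : ℤ) ≤ 2 * S.T := by exact_mod_cast S.DD_hi d hd
    refine card_le_card_of_injOn (fun n => (S.pr d : ℤ) * n) (fun n hn => ?_)
      fun n _ n' _ e => mul_left_cancel₀ h0.ne' e
    obtain ⟨h3, h4⟩ := mem_filter.1 (mem_coe.1 hn)
    rw [mem_Icc] at h3
    refine mem_coe.2 (mem_filter.2 ⟨mem_filter.2 ⟨mem_Icc.2 ⟨by nlinarith, ?_⟩, h4⟩,
      (S.sub_Zi (S.DD_sub d hd)).2 (dvd_mul_right _ _)⟩)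
    push_cast
    nlinarith
  have h2 : ∑ d ∈ S.DD, (B.filter fun y => d ⊆ S.Zi y).card ≤ B.card * S.D' := by
    rw [sum_congr rfl fun d _ => card_filter _ B, sum_comm]
    refine sum_le_card_nsmul _ _ S.D' fun y hy => ?_
    rw [← card_filter]
    exact S.card_DD_sub (mem_filter.1 hy).2.1.le
  have h3 : S.Ex N ≤ ∑ d ∈ S.DD,
      ((Icc (1 : ℤ) (3 * N : ℕ)).filter fun n => ∃ p ∈ d, (S.m p : ℤ) ∣ n).card +
        B.card * S.D' := by
    refine (sum_le_sum h1).trans ?_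
    rw [sum_add_distrib]
    omega
  have h4 := sum_le_card_nsmul _ _ _ fun d hd => S.bad_first (3 * N) hd
  have h5 := mul_le_mul_of_nonneg_right (S.bad_count (6 * S.T * N)) (Nat.cast_nonneg S.D')
  rw [← hB] at h5
  refine (Nat.cast_le.2 h3).trans ?_
  rw [Nat.cast_add, Nat.cast_sum, Nat.cast_mul B.card]
  refine add_le_add (h4.trans (le_of_eq ?_)) (h5.trans (le_of_eq ?_))
  · rw [nsmul_eq_mul]
    push_cast
    ring
  · push_cast
    ring

end Sys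

end Pool.Agent.Work.MP_678620_nt
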