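import Pool.Agent.Work.MP_678620_nt.SPDefs

/-! Basic inequalities and facts about a system. -/

set_option autoImplicit false
open Finset Pool.Agent.Lib.LargeSieve

namespace Pool.Agent.Work.MP_678620_nt

lemma cs_conj {α : Type*} (s : Finset α) (a b : α → ℂ) :
    ‖∑ i ∈ s, (starRingEnd ℂ) (a i) * b i‖ ≤ √(∑ i ∈ s, ‖a i‖ ^ 2) * √(∑ i ∈ s, ‖b i‖ ^ 2) := by
  refine (norm_sum_le _ _).trans ?_
  simp only [norm_mul, RCLike.norm_conj]
  exact Real.sum_mul_le_sqrt_mul_sqrt s _ _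

lemma cs_sqrt {α : Type*} (s : Finset α) {w A B : α → ℝ} (hw : ∀ i ∈ s, 0 ≤ w i)
    (hA : ∀ i ∈ s, 0 ≤ A i) (hB : ∀ i ∈ s, 0 ≤ B i) :
    ∑ i ∈ s, w i * (√(A i) * √(B i)) ≤ √(∑ i ∈ s, w i * A i) * √(∑ i ∈ s, w i * B i) := by
  have h := Real.sum_mul_le_sqrt_mul_sqrt s (fun i => √(w i * A i)) fun i => √(w i * B i)
  have e1 : ∑ i ∈ s, √(w i * A i) ^ 2 = ∑ i ∈ s, w i * A i :=
    sum_congr rfl fun i hi => Real.sq_sqrt (mul_nonneg (hw i hi) (hA i hi))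
  have e2 : ∑ i ∈ s, √(w i * B i) ^ 2 = ∑ i ∈ s, w i * B i :=
    sum_congr rfl fun i hi => Real.sq_sqrt (mul_nonneg (hw i hi) (hB i hi))
  rw [e1, e2] at h
  refine le_of_eq_of_le (sum_congr rfl fun i hi => ?_) h
  rw [Real.sqrt_mul (hw i hi), Real.sqrt_mul (hw i hi), mul_mul_mul_comm,
    Real.mul_self_sqrt (hw i hi)]

lemma norm_sq_wsum {α : Type*} (s : Finset α) {w : α → ℝ} (hw : ∀ i ∈ s, 0 ≤ w i) (z : α → ℂ) :
    ‖∑ i ∈ s, (w i : ℂ) * z i‖ ^ 2 ≤ (∑ i ∈ s, w i) * ∑ i ∈ s, w i * ‖z i‖ ^ 2 := by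
  have h1 : ‖∑ i ∈ s, (w i : ℂ) * z i‖ ≤ ∑ i ∈ s, √(w i) * (√(w i) * ‖z i‖) := by
    refine (norm_sum_le _ _).trans (le_of_eq (sum_congr rfl fun i hi => ?_))
    rw [norm_mul, Complex.norm_real, Real.norm_of_nonneg (hw i hi), ← mul_assoc,
      Real.mul_self_sqrt (hw i hi)]
  have h2 := sum_mul_sq_le_sq_mul_sq s (fun i => √(w i)) fun i => √(w i) * ‖z i‖
  have e1 : ∑ i ∈ s, √(w i) ^ 2 = ∑ i ∈ s, w i :=
    sum_congr rfl fun i hi => Real.sq_sqrt (hw i hi)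
  have e2 : ∑ i ∈ s, (√(w i) * ‖z i‖) ^ 2 = ∑ i ∈ s, w i * ‖z i‖ ^ 2 :=
    sum_congr rfl fun i hi => by rw [mul_pow, Real.sq_sqrt (hw i hi)]
  rw [e1, e2] at h2
  exact (pow_le_pow_left₀ (norm_nonneg _) h1 2).trans h2

lemma norm_sq_sum_le {α : Type*} (s : Finset α) (z : α → ℂ) :
    ‖∑ i ∈ s, z i‖ ^ 2 ≤ s.card * ∑ i ∈ s, ‖z i‖ ^ 2 := by
  simpa using norm_sq_wsum s (w := fun _ => 1) (fun _ _ => zero_le_one) z

lemma norm_add_sq_le (x y : ℂ) : ‖x + y‖ ^ 2 ≤ 2 * ‖x‖ ^ 2 + 2 * ‖y‖ ^ 2 := by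
  have h := pow_le_pow_left₀ (norm_nonneg _) (norm_add_le x y) 2
  nlinarith [sq_nonneg (‖x‖ - ‖y‖)]

/-- Schur test. -/
lemma schur_test {α β : Type*} (s : Finset α) (t : Finset β) {K : α → β → ℝ} {u : α → ℝ}
    {v : β → ℝ} {x : α → ℝ} {y : β → ℝ} {A B : ℝ} (hK : ∀ i ∈ s, ∀ j ∈ t, 0 ≤ K i j)
    (hu : ∀ i ∈ s, 0 ≤ u i) (hv : ∀ j ∈ t, 0 ≤ v j) (hA0 : 0 ≤ A) (hB0 : 0 ≤ B)
    (hA : ∀ i ∈ s, ∑ j ∈ t, K i j ≤ A * u i) (hB : ∀ j ∈ t, ∑ i ∈ s, K i j ≤ B * v j) :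
    ∑ i ∈ s, ∑ j ∈ t, K i j * (x i * y j)
      ≤ √A * √B * (√(∑ i ∈ s, u i * x i ^ 2) * √(∑ j ∈ t, v j * y j ^ 2)) := by
  have h := cs_sqrt (s ×ˢ t) (w := fun q => K q.1 q.2) (A := fun q => x q.1 ^ 2)
    (B := fun q => y q.2 ^ 2) (fun q hq => hK _ (mem_product.1 hq).1 _ (mem_product.1 hq).2)
    (fun q _ => sq_nonneg _) fun q _ => sq_nonneg _
  have h1 : ∑ q ∈ s ×ˢ t, K q.1 q.2 * x q.1 ^ 2 ≤ A * ∑ i ∈ s, u i * x i ^ 2 := by
    rw [sum_product, mul_sum]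
    refine sum_le_sum fun i hi => ?_
    simp only
    rw [← sum_mul, ← mul_assoc]
    exact mul_le_mul_of_nonneg_right (hA i hi) (sq_nonneg _)
  have h2 : ∑ q ∈ s ×ˢ t, K q.1 q.2 * y q.2 ^ 2 ≤ B * ∑ j ∈ t, v j * y j ^ 2 := by
    rw [sum_product_right, mul_sum]
    refine sum_le_sum fun j hj => ?_
    simp only
    rw [← sum_mul, ← mul_assoc]
    exact mul_le_mul_of_nonneg_right (hB j hj) (sq_nonneg _)
  have h3 : ∑ i ∈ s, ∑ j ∈ t, K i j * (x i * y j)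
      ≤ ∑ q ∈ s ×ˢ t, K q.1 q.2 * (√(x q.1 ^ 2) * √(y q.2 ^ 2)) := by
    rw [sum_product]
    refine sum_le_sum fun i hi => sum_le_sum fun j hj => ?_
    refine mul_le_mul_of_nonneg_left ?_ (hK i hi j hj)
    rw [Real.sqrt_sq_eq_abs, Real.sqrt_sq_eq_abs, ← abs_mul]
    exact le_abs_self _
  refine h3.trans (h.trans ?_)
  rw [mul_mul_mul_comm, ← Real.sqrt_mul hA0, ← Real.sqrt_mul hB0]
  exact mul_le_mul (Real.sqrt_le_sqrt h1) (Real.sqrt_le_sqrt h2) (Real.sqrt_nonneg _)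
    (Real.sqrt_nonneg _)

lemma choose_le_choose_add {s r k : ℕ} (h : r ≤ k) : s.choose r ≤ (s + k).choose k := by
  rw [Nat.add_choose_eq]
  have hm : (r, k - r) ∈ HasAntidiagonal.antidiagonal k := by
    rw [HasAntidiagonal.mem_antidiagonal]; omega
  refine le_trans ?_ (single_le_sum (f := fun ij : ℕ × ℕ => s.choose ij.1 * k.choose ij.2)
    (fun _ _ => Nat.zero_le _) hm)
  exact Nat.le_mul_of_pos_right _ (Nat.choose_pos (Nat.sub_le _ _))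

namespace Sys

variable {ι : Type} [Fintype ι] [DecidableEq ι] (S : Sys ι)

lemma pr_pos (d : Finset ι) : 0 < S.pr d := by
  exact prod_pos fun i _ => S.m_pos i

lemma pr_union {a v : Finset ι} (h : Disjoint a v) : S.pr (a ∪ v) = S.pr a * S.pr v := by
  exact prod_union h

lemma pr_insert {p : ι} {e : Finset ι} (h : p ∉ e) : S.pr (insert p e) = S.m p * S.pr e := by
  exact prod_insert h

lemma jp_union {a v : Finset ι} (h : Disjoint a v) : S.jp (a ∪ v) = S.jp a * S.pr v := by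
  simp only [jp, S.pr_union h]
  push_cast
  ring

lemma nu_pos (i : ι) : 0 < S.nu i := by
  exact inv_pos.2 (Nat.cast_pos.2 (S.m_pos i))

lemma iv_pos (d : Finset ι) : 0 < S.iv d := by
  exact inv_pos.2 (Nat.cast_pos.2 (S.pr_pos d))

lemma iv_eq (d : Finset ι) : S.iv d = ∏ i ∈ d, S.nu i := by
  simp only [iv, pr, nu, Nat.cast_prod, prod_inv_distrib]

lemma iv_union {a v : Finset ι} (h : Disjoint a v) : S.iv (a ∪ v) = S.iv a * S.iv v := by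
  rw [iv_eq, iv_eq, iv_eq, prod_union h]

lemma iv_insert {p : ι} {e : Finset ι} (h : p ∉ e) : S.iv (insert p e) = S.nu p * S.iv e := by
  rw [iv_eq, iv_eq, prod_insert h]

lemma one_le_D : 1 ≤ S.D := by
  exact Nat.choose_pos (Nat.le_add_left _ _)

lemma one_le_D' : 1 ≤ S.D' := by
  exact Nat.choose_pos (Nat.le_add_left _ _)

lemma H0_ge' : ((S.D : ℝ) * S.D' * S.Q * S.Λ) ^ 20 ≤ S.H0 := S.H0_ge

/-- Any monomial of degree at most 20 in each variable is below `H0`. -/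
lemma mono_le_H0 {a b c d : ℕ} (ha : a ≤ 20) (hb : b ≤ 20) (hc : c ≤ 20) (hd : d ≤ 20) :
    (S.D : ℝ) ^ a * (S.D' : ℝ) ^ b * (S.Q : ℝ) ^ c * S.Λ ^ d ≤ S.H0 := by
  refine le_trans ?_ S.H0_ge'
  have h1 : (1 : ℝ) ≤ S.D := by exact_mod_cast S.one_le_D
  have h2 : (1 : ℝ) ≤ S.D' := by exact_mod_cast S.one_le_D'
  have h3 : (1 : ℝ) ≤ S.Q := by exact_mod_cast (le_trans one_le_two S.Q_ge)
  have h4 : (1 : ℝ) ≤ S.Λ := le_trans (by norm_num) S.big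
  rw [mul_pow, mul_pow, mul_pow]
  have k1 := pow_le_pow_right₀ h1 ha
  have k2 := pow_le_pow_right₀ h2 hb
  have k3 := pow_le_pow_right₀ h3 hc
  have k4 := pow_le_pow_right₀ h4 hd
  gcongr

lemma Λ_pow_le : S.Λ ^ 20 ≤ S.H0 := by
  simpa using S.mono_le_H0 (a := 0) (b := 0) (c := 0) (d := 20) (by norm_num) (by norm_num)
    (by norm_num) le_rfl

lemma H0_big : (10 : ℝ) ^ 40 ≤ S.H0 := by
  refine le_trans ?_ S.Λ_pow_le
  have := pow_le_pow_left₀ (by norm_num) S.big 20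
  refine le_trans (by norm_num) this

lemma nu_le {p : ι} (hp : p ∈ S.E) : S.nu p ≤ S.H0⁻¹ := by
  exact inv_anti₀ (lt_of_lt_of_le (by norm_num) S.H0_big) (S.lo p hp)

lemma L_nonneg : 0 ≤ S.L := by
  exact sum_nonneg fun i _ => (S.nu_pos i).le

lemma exp_L : Real.exp S.L ≤ S.Λ := S.eL

lemma L_le : S.L ≤ S.Λ := by
  linarith [S.exp_L, Real.add_one_le_exp S.L]

lemma k_le_Λ : (S.k : ℝ) ≤ S.Λ := by
  exact le_trans (by exact_mod_cast S.k_le) S.s_le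

lemma k'_le_Λ : (S.k' : ℝ) ≤ S.Λ := by
  exact le_trans (by exact_mod_cast S.k'_le) S.s_le

lemma choose_le_D {r : ℕ} (h : r ≤ S.k) : S.s.choose r ≤ S.D := choose_le_choose_add h

lemma choose_le_D' {r : ℕ} (h : r ≤ S.k') : S.s.choose r ≤ S.D' := choose_le_choose_add h

lemma SPBasic_nu_half {p : ι} (hp : p ∈ S.E) : S.nu p ≤ 1 / 2 := by
  refine (S.nu_le hp).trans ?_
  rw [one_div]
  exact inv_anti₀ (by norm_num) (le_trans (by norm_num) S.H0_big)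

lemma vp_pos : 0 < S.vp := by
  exact prod_pos fun p hp => by linarith [S.SPBasic_nu_half hp]

lemma vp_le_one : S.vp ≤ 1 := by
  exact prod_le_one (fun p hp => by linarith [S.SPBasic_nu_half hp])
    fun p _ => by linarith [S.nu_pos p]

lemma vp_inv_le : S.vp⁻¹ ≤ S.Λ ^ 2 := by
  have h1 : S.vp⁻¹ ≤ Real.exp S.L ^ 2 := by
    rw [vp, ← prod_inv_distrib, L, Real.exp_sum, ← prod_pow]
    refine prod_le_prod (fun p hp => inv_nonneg.2 (by linarith [S.SPBasic_nu_half hp]))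
      fun p hp => ?_
    have a1 := S.SPBasic_nu_half hp
    have a2 := S.nu_pos p
    have a3 := Real.add_one_le_exp (S.nu p)
    have a4 : (S.nu p + 1) ^ 2 ≤ Real.exp (S.nu p) ^ 2 := pow_le_pow_left₀ (by linarith) a3 2
    refine le_trans ?_ a4
    rw [inv_le_iff_one_le_mul₀ (by linarith)]
    nlinarith [mul_nonneg a2.le (sub_nonneg.2 a1), mul_nonneg a2.le (mul_nonneg a2.le (sub_nonneg.2 a1))]
  exact h1.trans (pow_le_pow_left₀ (Real.exp_pos _).le S.exp_L 2)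

lemma es_nonneg (j : ℕ) : 0 ≤ S.es j := by
  exact esym_nonneg (fun i _ => (S.nu_pos i).le) j

lemma es_eq (j : ℕ) : S.es j = ∑ v ∈ S.E.powersetCard j, S.iv v := by
  simp only [es, esym, iv_eq]

lemma sum_iv_le {B : Finset ι} (hB : B ⊆ S.E) (j : ℕ) :
    ∑ v ∈ B.powersetCard j, S.iv v ≤ S.Λ := by
  have h := (esym_mono hB (fun i _ => (S.nu_pos i).le) j).trans
    (esym_le_exp (fun i _ => (S.nu_pos i).le) j)
  simp only [iv_eq]
  exact h.trans S.exp_L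

lemma sum_iv_mem_le {B : Finset ι} (hB : B ⊆ S.E) (j : ℕ) (p : ι) :
    ∑ v ∈ (B.powersetCard j).filter (fun v => p ∈ v), S.iv v ≤ S.Λ / S.H0 := by
  have hH : 0 < S.H0 := lt_of_lt_of_le (by norm_num) S.H0_big
  have h1 : ∑ v ∈ (B.powersetCard j).filter (fun v => p ∈ v), S.iv v
      ≤ ∑ v ∈ (B.powersetCard j).filter (fun v => p ∈ v), S.H0⁻¹ * S.iv (v.erase p) := by
    refine sum_le_sum fun v hv => ?_
    obtain ⟨h2, h3⟩ := mem_filter.1 hv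
    have := S.iv_insert (notMem_erase p v)
    rw [insert_erase h3] at this
    rw [this]
    exact mul_le_mul_of_nonneg_right (S.nu_le (hB ((mem_powersetCard.1 h2).1 h3))) (S.iv_pos _).le
  refine h1.trans ?_
  rw [← mul_sum, div_eq_inv_mul]
  refine mul_le_mul_of_nonneg_left (le_trans ?_ (S.sum_iv_le hB (j - 1))) (inv_pos.2 hH).le
  rw [← sum_image (s := (B.powersetCard j).filter fun v => p ∈ v) (g := fun v => v.erase p)
    (f := S.iv) fun v hv v' hv' e => by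
      rw [← insert_erase (mem_filter.1 hv).2, ← insert_erase (mem_filter.1 hv').2]
      exact congrArg _ e]
  refine sum_le_sum_of_subset_of_nonneg (fun w hw => ?_) fun w _ _ => (S.iv_pos w).le
  obtain ⟨v, hv, rfl⟩ := mem_image.1 hw
  obtain ⟨h2, h3⟩ := mem_filter.1 hv
  obtain ⟨h4, h5⟩ := mem_powersetCard.1 h2
  exact mem_powersetCard.2 ⟨(erase_subset _ _).trans h4, by rw [card_erase_of_mem h3, h5]⟩

lemma m_inj {p q : ι} (hp : p ∈ S.E) (h : S.m p = S.m q) : p = q := by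
  by_contra hne
  have := S.cop p q hne
  rw [← h, Nat.coprime_self] at this
  exact (S.prime p hp).ne_one this

lemma m_dvd_pr {p : ι} (hp : p ∈ S.E) {d : Finset ι} : S.m p ∣ S.pr d ↔ p ∈ d := by
  refine ⟨fun h => ?_, fun h => dvd_prod_of_mem _ h⟩
  obtain ⟨i, hi, h2⟩ := (Prime.dvd_finsetProd_iff (S.prime p hp).prime _).1 h
  by_cases e : p = i
  · exact e ▸ hi
  · exact absurd ((S.cop p i e).eq_one_of_dvd h2) (S.prime p hp).ne_one

lemma pr_inj {a b : Finset ι} (ha : a ⊆ S.E) (hb : b ⊆ S.E) (h : S.pr a = S.pr b) : a = b := by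
  ext p
  constructor
  · intro hp
    rw [← S.m_dvd_pr (ha hp), ← h, S.m_dvd_pr (ha hp)]
    exact hp
  · intro hp
    rw [← S.m_dvd_pr (hb hp), h, S.m_dvd_pr (hb hp)]
    exact hp

lemma not_dvd_h {p : ι} (hp : p ∈ S.E) : ¬ (S.m p : ℤ) ∣ S.h := by
  intro h
  have h1 : (S.m p : ℤ) ≤ |S.h| := Int.le_of_dvd (abs_pos.2 S.h_ne) ((dvd_abs _ _).2 h)
  have h2 : (S.m p : ℝ) ≤ |(S.h : ℝ)| := by exact_mod_cast h1
  have h3 := S.lo p hp
  have h4 := S.h_le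
  have h5 := S.Λ_pow_le
  have h6 := S.big
  have h7 : S.Λ ^ 2 ≤ S.Λ ^ 20 := pow_le_pow_right₀ (by linarith) (by norm_num)
  nlinarith

lemma coprime_pr_h {v : Finset ι} (hv : v ⊆ S.E) : IsCoprime (S.pr v : ℤ) S.h := by
  rw [pr, Nat.cast_prod]
  refine IsCoprime.prod_left fun p hp => ?_
  exact ((Nat.prime_iff_prime_int.1 (S.prime p (hv hp))).irreducible.coprime_iff_not_dvd).2
    (S.not_dvd_h (hv hp))

lemma coprime_pr {a v : Finset ι} (h : Disjoint a v) : Nat.Coprime (S.pr a) (S.pr v) := by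
  refine Nat.Coprime.prod_left fun p hp => Nat.Coprime.prod_right fun q hq => S.cop p q ?_
  rintro rfl
  exact disjoint_left.1 h hp hq

lemma H0_pow_le_pr {v : Finset ι} (hv : v ⊆ S.E) : S.H0 ^ v.card ≤ S.pr v := by
  have hH : 0 < S.H0 := lt_of_lt_of_le (by norm_num) S.H0_big
  rw [pr, Nat.cast_prod, ← prod_const]
  exact prod_le_prod (fun _ _ => hH.le) fun p hp => S.lo p (hv hp)

lemma pr_le_H1_pow {v : Finset ι} (hv : v ⊆ S.E) : (S.pr v : ℝ) ≤ S.H1 ^ v.card := by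
  rw [pr, Nat.cast_prod, ← prod_const]
  exact prod_le_prod (fun _ _ => Nat.cast_nonneg _) fun p hp => S.hi p (hv hp)

lemma card_E_le : (S.E.card : ℝ) ≤ S.H1 := by
  have hH : 0 ≤ S.H1 := le_trans (le_trans (by norm_num) S.H0_big) S.H01
  have h : S.E.card ≤ (Icc 1 ⌊S.H1⌋₊).card :=
    card_le_card_of_injOn S.m
      (fun p hp => mem_coe.2 (mem_Icc.2 ⟨S.m_pos p, Nat.le_floor (S.hi p (mem_coe.1 hp))⟩))
      fun p hp q _ e => S.m_inj (mem_coe.1 hp) e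
  rw [Nat.card_Icc, Nat.add_sub_cancel] at h
  exact le_trans (by exact_mod_cast h) (Nat.floor_le hH)

lemma card_DD_sub {Z : Finset ι} {j : ℕ} (hZ : Z.card ≤ S.s + j) :
    (S.DD.filter fun d => d ⊆ Z).card ≤ (S.s + j).choose j := by
  have h : (S.DD.filter fun d => d ⊆ Z) ⊆ Z.powersetCard S.s := fun d hd =>
    mem_powersetCard.2 ⟨(mem_filter.1 hd).2, S.DD_card d (mem_filter.1 hd).1⟩
  refine (card_le_card h).trans ?_
  rw [card_powersetCard, ← Nat.choose_symm_add]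
  exact Nat.choose_le_choose _ hZ

lemma mem_VV {r : ℕ} {a v : Finset ι} :
    v ∈ S.VV r a ↔ v ⊆ S.E ∧ Disjoint a v ∧ v.card = r ∧ a ∪ v ∈ S.DD := by
  simp only [VV, mem_filter, mem_powersetCard, subset_sdiff]
  constructor
  · rintro ⟨⟨⟨h1, h2⟩, h3⟩, h4⟩
    exact ⟨h1, h2.symm, h3, h4⟩
  · rintro ⟨h1, h2, h3, h4⟩
    exact ⟨⟨⟨h1, h2.symm⟩, h3⟩, h4⟩

lemma mem_AA {r : ℕ} {a : Finset ι} : a ∈ S.AA r ↔ a ⊆ S.E ∧ a.card = S.s - r := by
  exact mem_powersetCard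

/-- Pairs of `a` and `v` are sets `d` with a chosen subset. -/
lemma sum_AV {β : Type*} [AddCommMonoid β] {r : ℕ} (hr : r ≤ S.s) (Φ : Finset ι → Finset ι → β) :
    ∑ a ∈ S.AA r, ∑ v ∈ S.VV r a, Φ a v
      = ∑ d ∈ S.DD, ∑ a ∈ d.powersetCard (S.s - r), Φ a (d \ a) := by
  rw [sum_sigma', sum_sigma']
  refine sum_bij' (fun x _ => ⟨x.1 ∪ x.2, x.1⟩) (fun x _ => ⟨x.2, x.1 \ x.2⟩) ?_ ?_ ?_ ?_ ?_
  · rintro ⟨a, v⟩ h
    obtain ⟨h1, h2⟩ := mem_sigma.1 h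
    exact mem_sigma.2 ⟨(S.mem_VV.1 h2).2.2.2,
      mem_powersetCard.2 ⟨subset_union_left, (S.mem_AA.1 h1).2⟩⟩
  · rintro ⟨d, a⟩ h
    obtain ⟨h1, h2⟩ := mem_sigma.1 h
    obtain ⟨h3, h4⟩ := mem_powersetCard.1 h2
    refine mem_sigma.2 ⟨S.mem_AA.2 ⟨h3.trans (S.DD_sub d h1), h4⟩,
      S.mem_VV.2 ⟨sdiff_subset.trans (S.DD_sub d h1), disjoint_sdiff, ?_, ?_⟩⟩
    · have h5 := S.DD_card d h1
      simp only at h3 h4 h5 ⊢
      rw [card_sdiff_of_subset h3]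
      omega
    · simp only at h1 h3 ⊢
      rwa [union_sdiff_of_subset h3]
  · rintro ⟨a, v⟩ h
    simp only [union_sdiff_cancel_left (S.mem_VV.1 (mem_sigma.1 h).2).2.1]
  · rintro ⟨d, a⟩ h
    simp only [union_sdiff_of_subset (mem_powersetCard.1 (mem_sigma.1 h).2).1]
  · rintro ⟨a, v⟩ h
    simp only [union_sdiff_cancel_left (S.mem_VV.1 (mem_sigma.1 h).2).2.1]

lemma sum_AV_le {r : ℕ} (hr : r ≤ S.k) {Φ : Finset ι → ℝ} (hΦ : ∀ d ∈ S.DD, 0 ≤ Φ d) :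
    ∑ a ∈ S.AA r, ∑ v ∈ S.VV r a, Φ (a ∪ v) ≤ S.D * ∑ d ∈ S.DD, Φ d := by
  have hr' : r ≤ S.s := hr.trans S.k_le
  rw [S.sum_AV hr' fun a v => Φ (a ∪ v), mul_sum]
  refine sum_le_sum fun d hd => ?_
  rw [sum_congr rfl (g := fun _ => Φ d) fun a ha => by
    rw [union_sdiff_of_subset (mem_powersetCard.1 ha).1], sum_const, card_powersetCard,
    S.DD_card d hd, Nat.choose_symm hr', nsmul_eq_mul]
  exact mul_le_mul_of_nonneg_right (by exact_mod_cast S.choose_le_D hr) (hΦ d hd)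

lemma sum_iv_VV_le (r : ℕ) (a : Finset ι) : ∑ v ∈ S.VV r a, S.iv v ≤ S.Λ := by
  exact (sum_le_sum_of_subset_of_nonneg (filter_subset _ _) fun v _ _ => (S.iv_pos v).le).trans
    (S.sum_iv_le sdiff_subset r)

lemma mem_Zs {ξ : S.G} {p : ι} : p ∈ S.Zs ξ ↔ p ∈ S.E ∧ ξ p = 0 := mem_filter

lemma Zs_sub (ξ : S.G) : S.Zs ξ ⊆ S.E := filter_subset _ _

lemma cast_apply (j : ℤ) (i : ι) : (j : S.G) i = (j : ZMod (S.m i)) := rfl

lemma jp_apply {d : Finset ι} {p : ι} (hp : p ∈ d) (j : ℤ) : ((S.jp d * j : ℤ) : S.G) p = 0 := by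
  rw [cast_apply, ZMod.intCast_zmod_eq_zero_iff_dvd, jp]
  exact ((Int.natCast_dvd_natCast.2 (dvd_prod_of_mem S.m hp)).mul_right _).mul_right _

lemma jp_apply' {d : Finset ι} {p : ι} (hp : p ∈ d) : (S.jp d : S.G) p = 0 := by
  simpa only [mul_one] using S.jp_apply hp 1

lemma sub_Zs_add {d : Finset ι} {c : S.G} (hc : ∀ p ∈ d, c p = 0) (ξ : S.G) :
    d ⊆ S.Zs (ξ + c) ↔ d ⊆ S.Zs ξ := by
  refine forall₂_congr fun p hp => ?_
  rw [mem_Zs, mem_Zs, Pi.add_apply, hc p hp, add_zero]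

lemma mem_Zi {y : ℤ} {p : ι} : p ∈ S.Zi y ↔ p ∈ S.E ∧ (S.m p : ℤ) ∣ y := by
  rw [Zi, mem_Zs, cast_apply, ZMod.intCast_zmod_eq_zero_iff_dvd]

lemma sub_Zi {y : ℤ} {d : Finset ι} (hd : d ⊆ S.E) : d ⊆ S.Zi y ↔ (S.pr d : ℤ) ∣ y := by
  constructor
  · intro h
    rw [pr, Nat.cast_prod]
    exact prod_dvd_of_coprime (fun p _ q _ e => Nat.isCoprime_iff_coprime.2 (S.cop p q e))
      fun p hp => (S.mem_Zi.1 (h hp)).2
  · intro h p hp
    exact S.mem_Zi.2 ⟨hd hp, (Int.natCast_dvd_natCast.2 (dvd_prod_of_mem S.m hp)).trans h⟩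

lemma Zi_mul {d : Finset ι} (hd : d ⊆ S.E) (n : ℤ) : S.Zi (S.pr d * n) = d ∪ S.Zi n := by
  ext p
  rw [mem_union, mem_Zi, mem_Zi]
  constructor
  · rintro ⟨h1, h2⟩
    rcases (Nat.prime_iff_prime_int.1 (S.prime p h1)).dvd_or_dvd h2 with k | k
    · exact Or.inl ((S.m_dvd_pr h1).1 (Int.natCast_dvd_natCast.1 k))
    · exact Or.inr ⟨h1, k⟩
  · rintro (k | k)
    · exact ⟨hd k, (Int.natCast_dvd_natCast.2 ((S.m_dvd_pr (hd k)).2 k)).mul_right _⟩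
    · exact ⟨k.1, k.2.mul_left _⟩

lemma rs_eq (d : Finset ι) (ξ : S.G) : S.rs d ξ = d.piecewise 0 ξ := by
  funext i
  simp only [rs, piecewise, Pi.zero_apply]

lemma nn_nonneg (f : S.G → ℂ) : 0 ≤ S.nn f := by
  exact sum_nonneg fun _ _ => sq_nonneg _

lemma inf_nonneg (f : S.G → ℂ) : 0 ≤ S.inf f := by
  exact sum_nonneg fun _ _ => S.nn_nonneg _

lemma nn_le_tn {M : ℝ} (hM : 0 < M) (f : S.G → ℂ) : S.nn f ≤ S.tn M f := by
  exact le_add_of_nonneg_right (div_nonneg (S.inf_nonneg f) hM.le)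

lemma inf_le_tn {M : ℝ} (hM : 0 < M) (f : S.G → ℂ) : S.inf f ≤ M * S.tn M f := by
  rw [tn, mul_add, mul_div_cancel₀ _ hM.ne']
  exact le_add_of_nonneg_left (mul_nonneg hM.le (S.nn_nonneg f))

lemma norm_ip_le (g f : S.G → ℂ) : ‖S.ip g f‖ ≤ √(S.nn g) * √(S.nn f) := by
  exact cs_conj univ g f

lemma ip_self (f : S.G → ℂ) : S.ip f f = (S.nn f : ℂ) := by
  simp only [ip, nn, Complex.ofReal_sum, Complex.conj_mul', Complex.ofReal_pow]

lemma sum_add_right {β : Type*} [AddCommMonoid β] (Φ : S.G → β) (c : S.G) :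
    ∑ ξ, Φ (ξ + c) = ∑ ξ, Φ ξ := by
  exact Equiv.sum_comp (Equiv.addRight c) Φ

lemma nn_tr (f : S.G → ℂ) (c : S.G) : S.nn (fun ξ => f (ξ + c)) = S.nn f := by
  exact S.sum_add_right (fun ξ => ‖f ξ‖ ^ 2) c

lemma cast_inj {i0 : ι} {y y' : ℤ} (h : |y - y'| < S.m i0) (he : (y : S.G) = y') : y = y' := by
  have h1 : (y : ZMod (S.m i0)) = y' := congrFun he i0
  have h2 := (ZMod.intCast_eq_intCast_iff_dvd_sub y' y _).1 h1.symm
  exact sub_eq_zero.1 (Int.eq_zero_of_abs_lt_dvd h2 h)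

/-- Number of integers up to `Y` with a zero set of given size. -/
lemma card_class_le (Y j : ℕ) :
    (((Icc (1 : ℤ) Y).filter fun y => (S.Zi y).card = j).card : ℝ) ≤ Y * S.es j := by
  have h1 : ((Icc (1 : ℤ) Y).filter fun y => (S.Zi y).card = j) ⊆
      (S.E.powersetCard j).biUnion fun Z => (Icc 1 (Y / S.pr Z)).image
        fun n : ℕ => ((S.pr Z * n : ℕ) : ℤ) := by
    intro y hy
    obtain ⟨h2, h3⟩ := mem_filter.1 hy
    obtain ⟨h4, h5⟩ := mem_Icc.1 h2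
    have h6 : S.Zi y ⊆ S.E := S.Zs_sub _
    refine mem_biUnion.2 ⟨S.Zi y, mem_powersetCard.2 ⟨h6, h3⟩, ?_⟩
    have h7 := (S.sub_Zi h6).1 (Subset.refl (S.Zi y))
    generalize S.Zi y = Z at h7
    obtain ⟨y, rfl⟩ := Int.eq_ofNat_of_zero_le (le_trans zero_le_one h4)
    obtain ⟨n, rfl⟩ := Int.natCast_dvd_natCast.1 h7
    refine mem_image.2 ⟨n, mem_Icc.2 ⟨?_, ?_⟩, rfl⟩
    · rcases Nat.eq_zero_or_pos n with rfl | hn
      · simp at h4
      · exact hn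
    · rw [Nat.le_div_iff_mul_le (S.pr_pos Z), mul_comm]
      exact_mod_cast h5
  have h2 := (card_le_card h1).trans card_biUnion_le
  refine le_trans (Nat.cast_le.2 h2) ?_
  rw [es_eq, mul_sum, Nat.cast_sum]
  refine sum_le_sum fun Z _ => ?_
  refine le_trans (Nat.cast_le.2 card_image_le) ?_
  rw [Nat.card_Icc, Nat.add_sub_cancel, iv, ← div_eq_mul_inv]
  exact Nat.cast_div_le

end Sys

end Pool.Agent.Work.MP_678620_nt
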