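import Pool.Agent.Work.MP_678620_nt.SPAv

/-! Boxes and their combinations. -/

set_option autoImplicit false
open Finset Pool.Agent.Lib.LargeSieve

namespace Pool.Agent.Work.MP_678620_nt

namespace Sys

variable {ι : Type} [Fintype ι] [DecidableEq ι] (S : Sys ι)

variable {S} in
lemma SPBox_isBox_mul {F : Finset ι} {K1 K2 K1' K2' : ℕ} {φ φ' : S.G → ℂ}
    (h : S.IsBox F K1 K2 φ) (h' : S.IsBox F K1' K2' φ') :
    S.IsBox F (K1 + K1') (K2 + K2') fun ξ => φ ξ * φ' ξ := by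
  obtain ⟨A, U, hU, hc, hA, hP, he⟩ := h
  obtain ⟨A', U', hU', hc', hA', hP', he'⟩ := h'
  refine ⟨fun i => A i ∩ A' i, U ∪ U', union_subset hU hU',
    (card_union_le _ _).trans (add_le_add hc hc'), fun i hi hu => ?_, fun i hi hf => ?_,
    fun ξ => ?_⟩
  · rw [compl_inter]
    rw [mem_union, not_or] at hu
    exact (card_union_le _ _).trans (add_le_add (hA i hi hu.1) (hA' i hi hu.2))
  · simp [hP i hi hf, hP' i hi hf]
  · simp only [he, he', mem_inter, forall_and]
    by_cases h1 : ∀ i, ξ i ∈ A i <;> by_cases h2 : ∀ i, ξ i ∈ A' i <;> simp [h1, h2]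

variable {S} in
lemma SPBox_isBox_tr {F : Finset ι} {K1 K2 : ℕ} {φ : S.G → ℂ} (h : S.IsBox F K1 K2 φ) (c : S.G) :
    S.IsBox F K1 K2 fun ξ => φ (ξ + c) := by
  obtain ⟨A, U, hU, hc, hA, hP, he⟩ := h
  refine ⟨fun i => univ.filter fun x => x + c i ∈ A i, U, hU, hc, fun i hi hu => ?_,
    fun i hi hf => ?_, fun ξ => ?_⟩
  · refine le_trans (card_le_card_of_injOn (fun x => x + c i) (fun x hx => ?_)
      fun x _ y _ e => add_right_cancel e) (hA i hi hu)
    simpa using hx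
  · simp [hP i hi hf]
  · simp [he]

variable {S} in
lemma SPBox_rep_one {F : Finset ι} {K1 K2 : ℕ} {φ : S.G → ℂ} (h : S.IsBox F K1 K2 φ) :
    S.Rep F K1 K2 1 φ := by
  have := Rep.box (S := S) 1 φ h
  simpa using this

lemma SPBox_mink {f g : S.G → ℂ} {B B' C : ℝ} (hB : 0 ≤ B) (hB' : 0 ≤ B') (hC : 0 ≤ C)
    (a : S.nn f ≤ B ^ 2 * C) (b : S.nn g ≤ B' ^ 2 * C) :
    S.nn (fun ξ => f ξ + g ξ) ≤ (B + B') ^ 2 * C := by
  have h1 : S.nn (fun ξ => f ξ + g ξ) ≤ S.nn f + 2 * ∑ ξ, ‖f ξ‖ * ‖g ξ‖ + S.nn g := by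
    simp only [nn, mul_sum, ← sum_add_distrib]
    refine sum_le_sum fun ξ _ => ?_
    have := pow_le_pow_left₀ (norm_nonneg _) (norm_add_le (f ξ) (g ξ)) 2
    nlinarith only [this]
  have h2 : ∑ ξ, ‖f ξ‖ * ‖g ξ‖ ≤ √(S.nn f) * √(S.nn g) :=
    Real.sum_mul_le_sqrt_mul_sqrt _ _ _
  have h3 : √(S.nn f) ≤ B * √C := by
    refine (Real.sqrt_le_sqrt a).trans (le_of_eq ?_)
    rw [Real.sqrt_mul (sq_nonneg _), Real.sqrt_sq hB]
  have h4 : √(S.nn g) ≤ B' * √C := by
    refine (Real.sqrt_le_sqrt b).trans (le_of_eq ?_)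
    rw [Real.sqrt_mul (sq_nonneg _), Real.sqrt_sq hB']
  have h5 : √(S.nn f) * √(S.nn g) ≤ B * √C * (B' * √C) :=
    mul_le_mul h3 h4 (Real.sqrt_nonneg _) (by positivity)
  have h6 : B * √C * (B' * √C) = B * B' * C := by
    calc B * √C * (B' * √C) = B * B' * (√C * √C) := by ring
      _ = _ := by rw [Real.mul_self_sqrt hC]
  nlinarith only [a, b, h1, h2, h5, h6]

lemma SPBox_card : (Fintype.card S.G : ℝ) = ∏ i, (S.m i : ℝ) := by
  rw [Fintype.card_pi]
  push_cast
  exact prod_congr rfl fun i _ => by rw [ZMod.card]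

lemma SPBox_sum_prod (g : ∀ i, ZMod (S.m i) → ℝ) :
    ∑ η : S.G, ∏ i, g i (η i) = ∏ i, ∑ x, g i x := by
  rw [prod_univ_sum, Fintype.piFinset_univ]

lemma SPBox_Tn_prod (a : ∀ i, ZMod (S.m i) → ℝ) (ξ : S.G) :
    S.Tn (fun ξ => ((∏ i, a i (ξ i) : ℝ) : ℂ)) ξ =
      ((∏ i, if i ∈ S.E then 2 * a i (ξ i) - S.nu i * ∑ x, a i x else a i (ξ i) : ℝ) : ℂ) := by
  have h1 : ∀ z : Finset ι, S.av z (fun ξ => ((∏ i, a i (ξ i) : ℝ) : ℂ)) ξ =
      ((∏ i, if i ∈ z then S.nu i * ∑ x, a i x else a i (ξ i) : ℝ) : ℂ) := by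
    intro z
    have e1 : ∀ η : S.G, ∏ i, a i (z.piecewise η ξ i)
        = ∏ i, (fun i (x : ZMod (S.m i)) => if i ∈ z then a i x else a i (ξ i)) i (η i) := by
      intro η
      refine prod_congr rfl fun i _ => ?_
      by_cases hi : i ∈ z <;> simp [hi]
    have e2 : (Fintype.card S.G : ℂ) = ((Fintype.card S.G : ℝ) : ℂ) := by norm_cast
    rw [av, e2, ← Complex.ofReal_inv, ← Complex.ofReal_sum, ← Complex.ofReal_mul]
    congr 1
    simp only [e1]
    rw [S.SPBox_sum_prod fun i x => if i ∈ z then a i x else a i (ξ i), S.SPBox_card,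
      ← prod_inv_distrib, ← prod_mul_distrib]
    refine prod_congr rfl fun i _ => ?_
    by_cases hi : i ∈ z
    · simp [hi, nu]
    · have : (S.m i : ℝ) ≠ 0 := Nat.cast_ne_zero.2 (S.m_pos i).ne'
      simp only [hi, if_false, sum_const, card_univ, ZMod.card, nsmul_eq_mul]
      field_simp
  simp only [Tn, h1]
  have h2 : ∀ z ∈ S.E.powerset, (-1 : ℂ) ^ z.card * 2 ^ (S.E \ z).card *
      ((∏ i, if i ∈ z then S.nu i * ∑ x, a i x else a i (ξ i) : ℝ) : ℂ) =
      ((((∏ i ∈ z, -(S.nu i * ∑ x, a i x)) * ∏ i ∈ S.E \ z, 2 * a i (ξ i)) *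
        ∏ i ∈ S.Eᶜ, a i (ξ i) : ℝ) : ℂ) := by
    intro z hz
    have hz' := mem_powerset.1 hz
    have e1 : (∏ i, if i ∈ z then S.nu i * ∑ x, a i x else a i (ξ i)) =
        ((∏ i ∈ z, S.nu i * ∑ x, a i x) * ∏ i ∈ S.E \ z, a i (ξ i)) * ∏ i ∈ S.Eᶜ, a i (ξ i) := by
      rw [← prod_mul_prod_compl S.E, ← prod_sdiff hz', mul_comm (∏ i ∈ S.E \ z, _)]
      congr 1
      · congr 1
        · exact prod_congr rfl fun i hi => if_pos hi
        · exact prod_congr rfl fun i hi => if_neg (mem_sdiff.1 hi).2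
      · exact prod_congr rfl fun i hi => if_neg fun h => (mem_compl.1 hi) (hz' h)
    rw [e1, prod_neg, prod_mul_distrib (s := S.E \ z), prod_const]
    push_cast
    ring
  rw [sum_congr rfl h2, ← Complex.ofReal_sum, ← sum_mul, ← prod_add]
  congr 1
  rw [← prod_mul_prod_compl S.E]
  congr 1
  · exact prod_congr rfl fun i hi => by rw [if_pos hi]; ring
  · exact prod_congr rfl fun i hi => (if_neg (mem_compl.1 hi)).symm

variable {S} in
lemma SPBox_nn_box {F : Finset ι} {K1 K2 : ℕ} {φ : S.G → ℂ} (h : S.IsBox F K1 K2 φ) :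
    S.nn (S.Tn φ) ≤ 4 ^ K1 * Real.exp (4 * K2 * S.L) * Fintype.card S.G := by
  obtain ⟨A, U, hU, hc, hA, -, he⟩ := h
  set a : ∀ i, ZMod (S.m i) → ℝ := fun i x => if x ∈ A i then 1 else 0 with ha
  have e : φ = fun ξ => ((∏ i, a i (ξ i) : ℝ) : ℂ) := by
    funext ξ
    rw [he, ha, Fintype.prod_boole]
    split_ifs <;> simp
  have hs : ∀ i, ∑ x, a i x = (A i).card := fun i => by simp [ha]
  have e2 : S.nn (S.Tn φ) = ∏ i, ∑ x : ZMod (S.m i),
      (if i ∈ S.E then 2 * a i x - S.nu i * (A i).card else a i x) ^ 2 := by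
    rw [← S.SPBox_sum_prod, nn, e]
    refine sum_congr rfl fun ξ _ => ?_
    rw [S.SPBox_Tn_prod, Complex.norm_real, Real.norm_eq_abs, sq_abs, ← prod_pow]
    simp only [hs]
  have hsq : ∀ i x, a i x ^ 2 = a i x := fun i x => by
    simp only [ha]
    split_ifs <;> simp
  have key : ∀ i, ∑ x : ZMod (S.m i),
      (if i ∈ S.E then 2 * a i x - S.nu i * (A i).card else a i x) ^ 2 ≤
      ((if i ∈ U then 4 else 1) * (if i ∈ S.E then Real.exp (4 * K2 * S.nu i) else 1)) *
        S.m i := by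
    intro i
    have hm : (0 : ℝ) < S.m i := Nat.cast_pos.2 (S.m_pos i)
    have hle : ((A i).card : ℝ) + ((A i)ᶜ.card : ℝ) = S.m i := by
      have := card_add_card_compl (A i)
      rw [ZMod.card] at this
      exact_mod_cast this
    have hn0 : (0 : ℝ) ≤ (A i).card := Nat.cast_nonneg _
    have hn1 : (0 : ℝ) ≤ (A i)ᶜ.card := Nat.cast_nonneg _
    by_cases hi : i ∈ S.E
    · simp only [hi, if_true]
      set μ : ℝ := S.nu i * (A i).card with hμ
      have hmu : ((A i).card : ℝ) = μ * S.m i := by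
        rw [hμ, nu]
        field_simp
      have e3 : ∑ x : ZMod (S.m i), (2 * a i x - μ) ^ 2 = (4 * μ - 3 * μ ^ 2) * S.m i := by
        have : ∀ x, (2 * a i x - μ) ^ 2 = (4 - 4 * μ) * a i x + μ ^ 2 := fun x => by
          have := hsq i x
          nlinarith only [this]
        simp only [this, sum_add_distrib, ← mul_sum, hs, sum_const, card_univ, ZMod.card,
          nsmul_eq_mul]
        rw [hmu]
        ring
      rw [e3]
      refine mul_le_mul_of_nonneg_right ?_ hm.le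
      have hx0 : 0 ≤ 4 * K2 * S.nu i := by have := S.nu_pos i; positivity
      have hx := Real.add_one_le_exp (4 * K2 * S.nu i)
      by_cases hu : i ∈ U
      · rw [if_pos hu]
        nlinarith only [hx0, hx, sq_nonneg (μ - 1)]
      · rw [if_neg hu, one_mul]
        have h1 : ((A i)ᶜ.card : ℝ) ≤ K2 := by exact_mod_cast hA i hi hu
        have h2 : 1 - μ ≤ K2 * S.nu i := by
          have : 1 - μ = ((A i)ᶜ.card : ℝ) * S.nu i := by
            rw [hμ, nu]
            field_simp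
            linarith only [hle]
          rw [this]
          exact mul_le_mul_of_nonneg_right h1 (S.nu_pos i).le
        nlinarith only [hx0, hx, h2, sq_nonneg (μ - 1)]
    · have hu : i ∉ U := fun h => hi (hU h)
      simp only [hi, hu, if_false, hsq, hs, one_mul]
      linarith
  rw [e2]
  refine (prod_le_prod (fun i _ => sum_nonneg fun x _ => sq_nonneg _) fun i _ => key i).trans ?_
  rw [prod_mul_distrib, prod_mul_distrib, ← S.SPBox_card, Fintype.prod_ite_mem,
    Fintype.prod_ite_mem, prod_const, ← Real.exp_sum, ← mul_sum]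
  refine mul_le_mul_of_nonneg_right (mul_le_mul_of_nonneg_right
    (pow_le_pow_right₀ (by norm_num) hc) (Real.exp_pos _).le) (Nat.cast_nonneg _)

variable {S} in
lemma Rep.nonneg {F : Finset ι} {K1 K2 : ℕ} {B : ℝ} {φ : S.G → ℂ} (h : S.Rep F K1 K2 B φ) :
    0 ≤ B := by
  induction h with
  | box c φ _ => exact norm_nonneg _
  | zero => exact le_rfl
  | add _ _ a b => exact add_nonneg a b
  | mono _ h a => exact a.trans h

variable {S} in
lemma Rep.weaken {F F' : Finset ι} {K1 K2 K1' K2' : ℕ} {B : ℝ} {φ : S.G → ℂ}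
    (h : S.Rep F K1 K2 B φ) (hF : F ⊆ F') (h1 : K1 ≤ K1') (h2 : K2 ≤ K2') :
    S.Rep F' K1' K2' B φ := by
  induction h with
  | box c φ hb =>
    obtain ⟨A, U, hU, hc, hA, hP, he⟩ := hb
    exact Rep.box c φ ⟨A, U, hU, hc.trans h1, fun i hi hu => (hA i hi hu).trans h2,
      fun i hi hf => hP i hi fun hh => hf (hF hh), he⟩
  | zero => exact Rep.zero
  | add _ _ a b => exact Rep.add a b
  | mono _ h a => exact Rep.mono a h

variable {S} in
lemma Rep.congr {F : Finset ι} {K1 K2 : ℕ} {B : ℝ} {φ φ' : S.G → ℂ} (h : S.Rep F K1 K2 B φ)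
    (he : ∀ ξ, φ ξ = φ' ξ) : S.Rep F K1 K2 B φ' := by
  have : φ = φ' := funext he
  exact this ▸ h

variable {S} in
lemma Rep.smul {F : Finset ι} {K1 K2 : ℕ} {B : ℝ} {φ : S.G → ℂ} (h : S.Rep F K1 K2 B φ) (c : ℂ) :
    S.Rep F K1 K2 (‖c‖ * B) fun ξ => c * φ ξ := by
  induction h with
  | box c' φ hb =>
    have := Rep.box (S := S) (c * c') φ hb
    rw [norm_mul] at this
    exact this.congr fun ξ => mul_assoc _ _ _
  | zero =>
    rw [mul_zero]
    exact Rep.zero.congr fun ξ => (mul_zero _).symm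
  | add _ _ a b =>
    rw [mul_add]
    exact (Rep.add a b).congr fun ξ => (mul_add _ _ _).symm
  | mono _ h a => exact Rep.mono a (mul_le_mul_of_nonneg_left h (norm_nonneg _))

variable {S} in
lemma Rep.conj {F : Finset ι} {K1 K2 : ℕ} {B : ℝ} {φ : S.G → ℂ} (h : S.Rep F K1 K2 B φ) :
    S.Rep F K1 K2 B fun ξ => (starRingEnd ℂ) (φ ξ) := by
  induction h with
  | box c φ hb =>
    have := Rep.box (S := S) ((starRingEnd ℂ) c) φ hb
    rw [RCLike.norm_conj] at this
    refine this.congr fun ξ => ?_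
    obtain ⟨A, U, -, -, -, -, he⟩ := hb
    rw [map_mul, he]
    split_ifs <;> simp
  | zero => exact Rep.zero.congr fun ξ => (map_zero _).symm
  | add _ _ a b => exact (Rep.add a b).congr fun ξ => (map_add _ _ _).symm
  | mono _ h a => exact Rep.mono a h

variable {S} in
lemma Rep.mul {F : Finset ι} {K1 K2 K1' K2' : ℕ} {B B' : ℝ} {φ φ' : S.G → ℂ}
    (h : S.Rep F K1 K2 B φ) (h' : S.Rep F K1' K2' B' φ') :
    S.Rep F (K1 + K1') (K2 + K2') (B * B') fun ξ => φ ξ * φ' ξ := by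
  induction h with
  | box c φ hb =>
    induction h' with
    | box c' φ' hb' =>
      have := Rep.box (S := S) (c * c') _ (SPBox_isBox_mul hb hb')
      rw [norm_mul] at this
      exact this.congr fun ξ => by ring
    | zero =>
      rw [mul_zero]
      exact Rep.zero.congr fun ξ => (mul_zero _).symm
    | add _ _ a b =>
      rw [mul_add]
      exact (Rep.add a b).congr fun ξ => (mul_add _ _ _).symm
    | mono _ h a => exact Rep.mono a (mul_le_mul_of_nonneg_left h (norm_nonneg _))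
  | zero =>
    rw [zero_mul]
    exact Rep.zero.congr fun ξ => (zero_mul _).symm
  | add _ _ a b =>
    rw [add_mul]
    exact (Rep.add a b).congr fun ξ => (add_mul _ _ _).symm
  | mono _ h a => exact Rep.mono a (mul_le_mul_of_nonneg_right h h'.nonneg)

variable {S} in
lemma Rep.tr {F : Finset ι} {K1 K2 : ℕ} {B : ℝ} {φ : S.G → ℂ} (h : S.Rep F K1 K2 B φ) (c : S.G) :
    S.Rep F K1 K2 B fun ξ => φ (ξ + c) := by
  induction h with
  | box c' φ hb => exact Rep.box c' _ (SPBox_isBox_tr hb c)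
  | zero => exact Rep.zero
  | add _ _ a b => exact Rep.add a b
  | mono _ h a => exact Rep.mono a h

lemma Rep.sum {α : Type*} (s : Finset α) {F : Finset ι} {K1 K2 : ℕ} {B : α → ℝ}
    {φ : α → S.G → ℂ} (h : ∀ i ∈ s, S.Rep F K1 K2 (B i) (φ i)) :
    S.Rep F K1 K2 (∑ i ∈ s, B i) fun ξ => ∑ i ∈ s, φ i ξ := by
  classical
  induction s using Finset.induction_on with
  | empty => simpa using Rep.zero
  | insert a s ha ih =>
    rw [sum_insert ha]
    exact (Rep.add (h a (mem_insert_self _ _))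
      (ih fun i hi => h i (mem_insert_of_mem hi))).congr fun ξ => by rw [sum_insert ha]

lemma rep_const (F : Finset ι) (c : ℂ) : S.Rep F 0 0 ‖c‖ fun _ => c := by
  have hb : S.IsBox F 0 0 fun _ => 1 :=
    ⟨fun _ => univ, ∅, empty_subset _, le_rfl, fun i _ _ => by simp, fun _ _ _ => rfl,
      fun ξ => by simp⟩
  exact (Rep.box c _ hb).congr fun _ => mul_one _

lemma rep_sub {d : Finset ι} (hd : d ⊆ S.E) :
    S.Rep ∅ d.card 0 1 fun ξ => if d ⊆ S.Zs ξ then 1 else 0 := by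
  refine SPBox_rep_one ⟨fun i => if i ∈ d then {0} else univ, d, hd, le_rfl, fun i _ hi => by
    simp [hi], fun i hi _ => if_neg fun h => hi (hd h), fun ξ => ?_⟩
  refine if_congr ⟨fun h i => ?_, fun h i hi => ?_⟩ rfl rfl
  · beta_reduce
    split_ifs with hi
    · exact mem_singleton.2 (S.mem_Zs.1 (h hi)).2
    · exact mem_univ _
  · have := h i
    beta_reduce at this
    rw [if_pos hi] at this
    exact S.mem_Zs.2 ⟨hd hi, mem_singleton.1 this⟩

lemma rep_Zs {Z : Finset ι} (hZ : Z ⊆ S.E) :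
    S.Rep ∅ Z.card 1 1 fun ξ => if S.Zs ξ = Z then 1 else 0 := by
  refine SPBox_rep_one ⟨fun i => if i ∈ Z then {0} else if i ∈ S.E then {0}ᶜ else univ, Z, hZ,
    le_rfl, fun i hE hi => by simp [hi, hE], fun i hi _ => by
      beta_reduce
      rw [if_neg fun h => hi (hZ h), if_neg hi], fun ξ => ?_⟩
  refine if_congr ⟨fun h i => ?_, fun h => ?_⟩ rfl rfl
  · beta_reduce
    split_ifs with hi hE
    · exact mem_singleton.2 (S.mem_Zs.1 (h ▸ hi)).2
    · rw [mem_compl, mem_singleton]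
      exact fun h0 => hi (h ▸ S.mem_Zs.2 ⟨hE, h0⟩)
    · exact mem_univ _
  · ext i
    have := h i
    beta_reduce at this
    constructor
    · intro hi
      by_contra hz
      rw [if_neg hz, if_pos (S.mem_Zs.1 hi).1, mem_compl, mem_singleton] at this
      exact this (S.mem_Zs.1 hi).2
    · intro hi
      rw [if_pos hi] at this
      exact S.mem_Zs.2 ⟨hZ hi, mem_singleton.1 this⟩

/-- Any condition on a zero set of size `j`. -/
lemma rep_class (j : ℕ) (P : Finset ι → Prop) [DecidablePred P] :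
    S.Rep ∅ j 1 (S.H1 ^ j) fun ξ => if (S.Zs ξ).card = j ∧ P (S.Zs ξ) then 1 else 0 := by
  have h := Rep.sum S ((S.E.powersetCard j).filter P) (F := ∅) (K1 := j) (K2 := 1)
    (B := fun _ => 1) (φ := fun Z ξ => if S.Zs ξ = Z then 1 else 0) fun Z hZ => by
      have h2 := mem_powersetCard.1 (mem_filter.1 hZ).1
      exact h2.2 ▸ S.rep_Zs h2.1
  refine (Rep.mono h ?_).congr fun ξ => ?_
  · rw [sum_const, nsmul_eq_mul, mul_one]
    have h1 : ((S.E.powersetCard j).filter P).card ≤ S.E.card ^ j :=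
      (card_filter_le _ _).trans (by rw [card_powersetCard]; exact Nat.choose_le_pow _ _)
    calc (((S.E.powersetCard j).filter P).card : ℝ) ≤ (S.E.card : ℝ) ^ j := by exact_mod_cast h1
      _ ≤ _ := pow_le_pow_left₀ (Nat.cast_nonneg _) S.card_E_le j
  · rw [sum_ite_eq]
    refine if_congr ?_ rfl rfl
    rw [mem_filter, mem_powersetCard]
    exact ⟨fun h => ⟨h.1.2, h.2⟩, fun h => ⟨⟨S.Zs_sub ξ, h.1⟩, h.2⟩⟩

lemma rep_passive {i0 : ι} (hi0 : i0 ∉ S.E) (c : ZMod (S.m i0)) :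
    S.Rep {i0} 0 0 1 fun ξ => if ξ i0 = c then 1 else 0 := by
  refine SPBox_rep_one ⟨Function.update (fun _ => univ) i0 {c}, ∅, empty_subset _, le_rfl,
    fun i hE _ => ?_, fun i _ hi => ?_, fun ξ => ?_⟩
  · have : i ≠ i0 := fun h => hi0 (h ▸ hE)
    simp [Function.update_of_ne this]
  · exact Function.update_of_ne (fun h => hi (mem_singleton.2 h)) _ _
  · refine if_congr ⟨fun h i => ?_, fun h => ?_⟩ rfl rfl
    · by_cases e : i = i0
      · subst e
        simpa using h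
      · simp [Function.update_of_ne e]
    · simpa using h i0

theorem nn_Tn_le {F : Finset ι} {K1 K2 : ℕ} {B : ℝ} {φ : S.G → ℂ} (h : S.Rep F K1 K2 B φ) :
    S.nn (S.Tn φ) ≤ B ^ 2 * (4 ^ K1 * Real.exp (4 * K2 * S.L) * Fintype.card S.G) := by
  set C : ℝ := 4 ^ K1 * Real.exp (4 * K2 * S.L) * Fintype.card S.G with hC
  have hC0 : 0 ≤ C := by positivity
  induction h with
  | box c φ hb =>
    have e : S.Tn (fun ξ => c * φ ξ) = fun ξ => c * S.Tn φ ξ := by
      funext ξ
      simp only [Tn, av, mul_sum]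
      exact sum_congr rfl fun z _ => sum_congr rfl fun η _ => by ring
    have e2 : S.nn (fun ξ => c * S.Tn φ ξ) = ‖c‖ ^ 2 * S.nn (S.Tn φ) := by
      simp only [nn, mul_sum, norm_mul, mul_pow]
    rw [e, e2]
    exact mul_le_mul_of_nonneg_left (SPBox_nn_box hb) (sq_nonneg _)
  | zero => simp [nn, Tn, av]
  | @add B B' φ φ' h1 h2 a b =>
    have e : S.Tn (fun ξ => φ ξ + φ' ξ) = fun ξ => S.Tn φ ξ + S.Tn φ' ξ := by
      funext ξ
      simp only [Tn, av, ← sum_add_distrib, ← mul_add]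
    rw [e]
    exact S.SPBox_mink h1.nonneg h2.nonneg hC0 a b
  | mono h1 h a =>
    exact a.trans (mul_le_mul_of_nonneg_right (pow_le_pow_left₀ h1.nonneg h 2) hC0)

end Sys

end Pool.Agent.Work.MP_678620_nt
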