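import Pool.Agent.Work.MP_678620_nt.SPDefs

/-! Construction of the dilation sets. -/

set_option autoImplicit false
open Finset Pool.Agent.Lib.LargeSieve

namespace Pool.Agent.Work.MP_678620_nt

theorem SPCons_lev {κ : ℝ} (hκ : 0 < κ) (hκ1 : κ ≤ 1) {H1 : ℝ} (p : ℕ) :
    ∃ l : ℕ, 1 ≤ p → (p : ℝ) ≤ H1 →
      (1 + κ) ^ l ≤ p ∧ (p : ℝ) ≤ (1 + κ) ^ (l + 1) ∧ (l : ℝ) ≤ 2 * Real.log H1 / κ := by
  refine ⟨⌊Real.log p / Real.log (1 + κ)⌋₊, fun hp hH => ?_⟩
  have hl : 0 < Real.log (1 + κ) := Real.log_pos (by linarith)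
  have hp' : (0 : ℝ) < p := by exact_mod_cast hp
  have h0 : 0 ≤ Real.log p / Real.log (1 + κ) := div_nonneg (Real.log_natCast_nonneg p) hl.le
  have hl2 : κ / 2 ≤ Real.log (1 + κ) := by
    have h := Real.one_sub_inv_le_log_of_pos (x := 1 + κ) (by linarith)
    refine le_trans ?_ h
    have : 1 - (1 + κ)⁻¹ = κ / (1 + κ) := by field_simp; ring
    rw [this]
    gcongr
    linarith
  refine ⟨?_, ?_, (Nat.floor_le h0).trans ?_⟩
  · rw [← Real.log_le_log_iff (by positivity) hp', Real.log_pow, ← le_div_iff₀ hl]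
    exact Nat.floor_le h0
  · rw [← Real.log_le_log_iff hp' (by positivity), Real.log_pow, ← div_le_iff₀ hl]
    push_cast
    exact (Nat.lt_floor_add_one _).le
  · calc Real.log p / Real.log (1 + κ) ≤ Real.log H1 / (κ / 2) :=
          div_le_div₀ ((Real.log_natCast_nonneg p).trans (Real.log_le_log hp' hH))
            (Real.log_le_log hp' hH) (by positivity) hl2
      _ = _ := by field_simp

theorem SPCons_pow {η : ℝ} {s : ℕ} (hs : 1 ≤ s) (hη0 : 0 < η) (hη1 : η ≤ 1) :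
    (1 + η / (2 * s)) ^ s ≤ 1 + η := by
  have hs' : (0 : ℝ) < s := by exact_mod_cast hs
  calc (1 + η / (2 * s)) ^ s ≤ Real.exp (η / (2 * s)) ^ s := by
        gcongr
        rw [add_comm]
        exact Real.add_one_le_exp _
    _ = Real.exp (η / 2) := by
        rw [← Real.exp_nat_mul]
        congr 1
        field_simp
    _ ≤ 1 / (1 - η / 2) := Real.exp_bound_div_one_sub_of_interval (by linarith) (by linarith)
    _ ≤ 1 + η := by
        rw [div_le_iff₀ (by linarith)]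
        nlinarith

theorem SPCons_lab {M a b r t : ℕ} (hM : 1 ≤ M) (h : M * a + r % M = M * b + t % M) :
    a = b ∧ r % M = t % M := by
  have h1 := congrArg (· % M) h
  simp only [Nat.mul_add_mod, Nat.mod_mod] at h1
  rw [h1] at h
  exact ⟨Nat.eq_of_mul_eq_mul_left hM (Nat.add_right_cancel h), h1⟩

theorem exists_DD {ι : Type*} [DecidableEq ι] (m : ι → ℕ) (E : Finset ι) {H1 η : ℝ}
    (hE : ∀ p ∈ E, 2 ≤ m p ∧ (m p : ℝ) ≤ H1) {s M0 : ℕ} (hs : 1 ≤ s) (hsE : s ≤ E.card)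
    (hM0 : 1 ≤ M0) (hη0 : 0 < η) (hη1 : η ≤ 1) :
    ∃ (DD : Finset (Finset ι)) (lab : ι → ℕ) (T d0 : ℕ), DD.Nonempty ∧
      (∀ d ∈ DD, d ⊆ E ∧ d.card = s ∧ T ≤ ∏ i ∈ d, m i ∧
        ((∏ i ∈ d, m i : ℕ) : ℝ) ≤ (1 + η) * T ∧ ∏ i ∈ d, m i ≡ d0 [MOD M0]) ∧
      (∀ (e : Finset ι), ∀ p ∈ E, ∀ p' ∈ E, p ∉ e → p' ∉ e → lab p = lab p' →
        insert p e ∈ DD → insert p' e ∈ DD) ∧
      (∀ p ∈ E, ∀ p' ∈ E, lab p = lab p' → m p ≤ 2 * m p') ∧
      ((E.image lab).card : ℝ) ≤ M0 * (4 * s * Real.log H1 / η + 1) ∧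
      esym E (fun i => (m i : ℝ)⁻¹) s ≤ M0 * (4 * s ^ 2 * Real.log H1 / η + 1) *
        ∑ d ∈ DD, ((∏ i ∈ d, m i : ℕ) : ℝ)⁻¹ := by
  classical
  have hs' : (1 : ℝ) ≤ s := by exact_mod_cast hs
  have hκ : 0 < η / (2 * s) := by positivity
  have hκ1 : η / (2 * s) ≤ 1 := by
    rw [div_le_one (by positivity)]
    linarith
  have hpow := SPCons_pow hs hη0 hη1
  choose lv hlv using SPCons_lev hκ hκ1 (H1 := H1)
  have hl : ∀ p ∈ E, (1 + η / (2 * s)) ^ lv (m p) ≤ m p ∧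
      (m p : ℝ) ≤ (1 + η / (2 * s)) ^ (lv (m p) + 1) ∧
      (lv (m p) : ℝ) ≤ 4 * s * Real.log H1 / η := fun p hp => by
    obtain ⟨h1, h2, h3⟩ := hlv (m p) (by have := (hE p hp).1; omega) (hE p hp).2
    refine ⟨h1, h2, h3.trans_eq ?_⟩
    field_simp
    ring
  generalize η / (2 * s) = κ at hκ hκ1 hpow hl
  clear hlv
  have hB : 0 ≤ 4 * s * Real.log H1 / η := by
    obtain ⟨p, hp⟩ : E.Nonempty := card_pos.1 (by omega)
    exact (Nat.cast_nonneg _).trans (hl p hp).2.2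
  have e2 : 4 * (s : ℝ) ^ 2 * Real.log H1 / η = s * (4 * s * Real.log H1 / η) := by ring
  rw [e2]
  generalize 4 * s * Real.log H1 / η = B at hB hl
  let cl : Finset ι → ℕ × ℕ := fun d => (∑ i ∈ d, lv (m i), (∏ i ∈ d, m i) % M0)
  let W : ℕ × ℕ → ℝ := fun c =>
    ∑ d ∈ (E.powersetCard s).filter fun d => cl d = c, ((∏ i ∈ d, m i : ℕ) : ℝ)⁻¹
  obtain ⟨c, hc, hmax⟩ := ((E.powersetCard s).image cl).exists_max_image W
    ((powersetCard_nonempty.2 hsE).image _)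
  have hne : ((E.powersetCard s).filter fun d => cl d = c).Nonempty := by
    obtain ⟨d, hd, e⟩ := mem_image.1 hc
    exact ⟨d, mem_filter.2 ⟨hd, e⟩⟩
  obtain ⟨d₀, hd₀, hmin⟩ := exists_min_image _ (fun d => ∏ i ∈ d, m i) hne
  refine ⟨_, fun p => M0 * lv (m p) + m p % M0, ∏ i ∈ d₀, m i, c.2, hne, fun d hd => ?_,
    fun e p hp p' hp' hpe hpe' h hd => ?_, fun p hp p' hp' h => ?_, ?_, ?_⟩
  · obtain ⟨h1, h2⟩ := mem_filter.1 hd
    obtain ⟨h3, h4⟩ := mem_powersetCard.1 h1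
    obtain ⟨h5, h6⟩ := mem_filter.1 hd₀
    refine ⟨h3, h4, hmin d hd, ?_, ?_⟩
    · have h7 : ∑ i ∈ d, lv (m i) = ∑ i ∈ d₀, lv (m i) := congrArg Prod.fst (h2.trans h6.symm)
      have h8 : (1 + κ) ^ ∑ i ∈ d₀, lv (m i) ≤ ((∏ i ∈ d₀, m i : ℕ) : ℝ) := by
        rw [← prod_pow_eq_pow_sum, Nat.cast_prod]
        exact prod_le_prod (fun i _ => by positivity)
          fun i hi => (hl i ((mem_powersetCard.1 h5).1 hi)).1
      calc ((∏ i ∈ d, m i : ℕ) : ℝ) ≤ ∏ i ∈ d, (1 + κ) ^ (lv (m i) + 1) := by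
            rw [Nat.cast_prod]
            exact prod_le_prod (fun i _ => by positivity) fun i hi => (hl i (h3 hi)).2.1
        _ = (1 + κ) ^ s * (1 + κ) ^ ∑ i ∈ d₀, lv (m i) := by
            rw [prod_pow_eq_pow_sum, sum_add_distrib, h7, ← card_eq_sum_ones, h4, pow_add,
              mul_comm]
        _ ≤ _ := by gcongr
    · rw [← h2]
      exact (Nat.mod_modEq _ _).symm
  · obtain ⟨h1, h2⟩ := mem_filter.1 hd
    obtain ⟨h3, h4⟩ := mem_powersetCard.1 h1
    obtain ⟨h5, h6⟩ := SPCons_lab hM0 h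
    refine mem_filter.2 ⟨mem_powersetCard.2 ⟨insert_subset hp' ((subset_insert _ _).trans h3), ?_⟩,
      ?_⟩
    · rw [← h4, card_insert_of_notMem hpe, card_insert_of_notMem hpe']
    · rw [← h2]
      simp only [cl, sum_insert hpe, sum_insert hpe', prod_insert hpe, prod_insert hpe', h5]
      rw [Nat.mul_mod, ← h6, ← Nat.mul_mod]
  · have h1 := (hl p hp).2.1
    have h2 := (hl p' hp').1
    rw [(SPCons_lab hM0 h).1, pow_succ] at h1
    have h3 : (m p : ℝ) ≤ 2 * m p' := by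
      have : 0 < (1 + κ) ^ lv (m p') := by positivity
      nlinarith
    exact_mod_cast h3
  · have h1 : E.image (fun p => M0 * lv (m p) + m p % M0) ⊆ range (M0 * (⌊B⌋₊ + 1)) := by
      intro x hx
      obtain ⟨p, hp, rfl⟩ := mem_image.1 hx
      have h2 : lv (m p) ≤ ⌊B⌋₊ := Nat.le_floor (hl p hp).2.2
      have h3 := Nat.mod_lt (m p) hM0
      have h4 := Nat.mul_le_mul_left M0 h2
      rw [mem_range, Nat.mul_add_one]
      omega
    have h2 := card_le_card h1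
    rw [card_range] at h2
    calc ((E.image fun p => M0 * lv (m p) + m p % M0).card : ℝ)
        ≤ ((M0 * (⌊B⌋₊ + 1) : ℕ) : ℝ) := by exact_mod_cast h2
      _ ≤ _ := by
        push_cast
        gcongr
        exact Nat.floor_le hB
  · have h1 : (E.powersetCard s).image cl ⊆ range (⌊s * B⌋₊ + 1) ×ˢ range M0 := by
      intro x hx
      obtain ⟨d, hd, rfl⟩ := mem_image.1 hx
      obtain ⟨h3, h4⟩ := mem_powersetCard.1 hd
      refine mem_product.2 ⟨mem_range.2 (Nat.lt_add_one_of_le (Nat.le_floor ?_)),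
        mem_range.2 (Nat.mod_lt _ hM0)⟩
      simp only [cl, Nat.cast_sum]
      refine (sum_le_card_nsmul _ _ B fun i hi => (hl i (h3 hi)).2.2).trans_eq ?_
      rw [h4, nsmul_eq_mul]
    have h2 := card_le_card h1
    rw [card_product, card_range, card_range] at h2
    have h3 : (((E.powersetCard s).image cl).card : ℝ) ≤ M0 * (s * B + 1) :=
      calc (((E.powersetCard s).image cl).card : ℝ)
          ≤ (((⌊s * B⌋₊ + 1) * M0 : ℕ) : ℝ) := by exact_mod_cast h2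
        _ ≤ _ := by
          push_cast
          rw [mul_comm]
          gcongr
          exact Nat.floor_le (by positivity)
    calc esym E (fun i => (m i : ℝ)⁻¹) s
        = ∑ d ∈ E.powersetCard s, ((∏ i ∈ d, m i : ℕ) : ℝ)⁻¹ :=
          sum_congr rfl fun d _ => by rw [Nat.cast_prod, prod_inv_distrib]
      _ = ∑ x ∈ (E.powersetCard s).image cl, W x :=
          (sum_fiberwise_of_maps_to (fun d hd => mem_image_of_mem cl hd) _).symm
      _ ≤ ((E.powersetCard s).image cl).card • W c := sum_le_card_nsmul _ _ _ hmax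
      _ ≤ _ := by
          rw [nsmul_eq_mul]
          exact mul_le_mul_of_nonneg_right h3 (sum_nonneg fun d _ => by positivity)

end Pool.Agent.Work.MP_678620_nt
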