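import Pool.Agent.Work.MP_678620_nt.SPIface
import Pool.Agent.Lib.ANT.Mertens

/-! Smooth and rough parts, bounds for the arithmetic functions. -/

set_option autoImplicit false
open Finset Filter

namespace Pool.Agent.Work.MP_678620_nt

/-- The smooth part. -/
noncomputable def sp (z : ℝ) (n : ℕ) : ℕ :=
  ∏ p ∈ n.primeFactors.filter (fun p : ℕ => (p : ℝ) ≤ z), p ^ n.factorization p

/-- The rough part. -/
noncomputable def rp (z : ℝ) (n : ℕ) : ℕ := n / sp z n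

lemma spc_mul_rest (z : ℝ) {n : ℕ} (hn : n ≠ 0) : sp z n *
    ∏ p ∈ n.primeFactors.filter (fun p : ℕ => ¬ (p : ℝ) ≤ z), p ^ n.factorization p = n := by
  rw [sp, prod_filter_mul_prod_filter_not]
  exact Nat.prod_factorization_pow_eq_self hn

lemma Smo.spc_cop {z : ℝ} {b m : ℕ} (hb : Smo z b) (hm : Rou z m) : Nat.Coprime b m :=
  Nat.coprime_of_dvd fun p hp h1 h2 => (hm p hp h2).not_ge (hb p hp h1)

lemma spc_pow_ev {a b : ℝ} (hab : a < b) (C : ℝ) :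
    ∀ᶠ X : ℕ in atTop, C * Real.log X ^ a ≤ Real.log X ^ b := by
  have h := Real.tendsto_log_atTop.comp (tendsto_natCast_atTop_atTop (R := ℝ))
  filter_upwards [((tendsto_rpow_atTop (sub_pos.2 hab)).comp h).eventually_ge_atTop C,
    h.eventually_gt_atTop 0] with X h1 h2
  simp only [Function.comp] at h1 h2
  rw [← sub_add_cancel b a, Real.rpow_add h2]
  exact mul_le_mul_of_nonneg_right h1 (Real.rpow_nonneg h2.le a)

lemma spc_log_three {X m : ℕ} (h : m ≤ X ^ 3) : Real.log m ≤ 3 * Real.log X := by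
  rcases Nat.eq_zero_or_pos m with rfl | hm
  · simpa using Real.log_natCast_nonneg X
  · have := Real.log_le_log (show (0 : ℝ) < m by exact_mod_cast hm)
      (show (m : ℝ) ≤ X ^ 3 by exact_mod_cast h)
    simpa using this

lemma sp_mul_rp (z : ℝ) (n : ℕ) : sp z n * rp z n = n := by
  rcases eq_or_ne n 0 with rfl | hn
  · simp [sp, rp]
  · exact Nat.mul_div_cancel' ⟨_, (spc_mul_rest z hn).symm⟩

lemma smo_sp (z : ℝ) (n : ℕ) : Smo z (sp z n) := by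
  intro p hp h
  obtain ⟨q, hq, h⟩ := (Prime.dvd_finsetProd_iff hp.prime _).1 h
  obtain ⟨hq1, hq2⟩ := mem_filter.1 hq
  rwa [(Nat.prime_dvd_prime_iff_eq hp (Nat.prime_of_mem_primeFactors hq1)).1 (hp.dvd_of_dvd_pow h)]

lemma rou_rp (z : ℝ) {n : ℕ} (hn : n ≠ 0) : Rou z (rp z n) := by
  have h1 := (sp_mul_rp z n).trans (spc_mul_rest z hn).symm
  have h2 : sp z n ≠ 0 := fun h => hn (by rw [← sp_mul_rp z n, h, zero_mul])
  rw [mul_left_cancel₀ h2 h1]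
  intro p hp h
  obtain ⟨q, hq, h⟩ := (Prime.dvd_finsetProd_iff hp.prime _).1 h
  obtain ⟨hq1, hq2⟩ := mem_filter.1 hq
  rw [(Nat.prime_dvd_prime_iff_eq hp (Nat.prime_of_mem_primeFactors hq1)).1 (hp.dvd_of_dvd_pow h)]
  exact not_le.1 hq2

lemma sp_eq {z : ℝ} {b m : ℕ} (hb : Smo z b) (hm : Rou z m) (h0 : b * m ≠ 0) :
    sp z (b * m) = b ∧ rp z (b * m) = m := by
  have h1 := sp_mul_rp z (b * m)
  have h2 : sp z (b * m) = b := Nat.dvd_antisymm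
    (((smo_sp z _).spc_cop hm).dvd_of_dvd_mul_right ⟨_, h1.symm⟩)
    ((hb.spc_cop (rou_rp z h0)).dvd_of_dvd_mul_right (h1.symm ▸ dvd_mul_right b m))
  rw [h2] at h1
  exact ⟨h2, mul_left_cancel₀ (left_ne_zero_of_mul h0) h1⟩

lemma Smo.mul {z : ℝ} {a b : ℕ} (ha : Smo z a) (hb : Smo z b) : Smo z (a * b) := by
  exact fun p hp h => (hp.dvd_mul.1 h).elim (ha p hp) (hb p hp)

lemma Rou.mul {z : ℝ} {a b : ℕ} (ha : Rou z a) (hb : Rou z b) : Rou z (a * b) := by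
  exact fun p hp h => (hp.dvd_mul.1 h).elim (ha p hp) (hb p hp)

lemma Rou.coprime {z : ℝ} {m r : ℕ} (hm : Rou z m) (hr : 1 ≤ r) (hrz : (r : ℝ) ≤ z) :
    Nat.Coprime m r := by
  refine (Smo.spc_cop (fun p _ h => le_trans ?_ hrz) hm).symm
  exact_mod_cast Nat.le_of_dvd hr h

lemma conv_eq {z : ℝ} {β : ℕ → ℂ} {γ : ℕ → ℝ} (hβ : ∀ n, β n ≠ 0 → Smo z n)
    (hγ : ∀ n, γ n ≠ 0 → Rou z n) {n : ℕ} (hn : n ≠ 0) :
    conv β γ n = β (sp z n) * γ (rp z n) := by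
  rw [conv, Int.toNat_natCast]
  refine sum_eq_single (sp z n, rp z n) (fun x hx hne => ?_) fun h => ?_
  · by_contra h
    obtain ⟨h1, h2⟩ := mul_ne_zero_iff.1 h
    have h3 := (Nat.mem_divisorsAntidiagonal.1 hx).1
    have := sp_eq (hβ _ h1) (hγ _ (by exact_mod_cast h2)) (h3 ▸ hn)
    rw [h3] at this
    exact hne (Prod.ext this.1.symm this.2.symm)
  · exact absurd (Nat.mem_divisorsAntidiagonal.2 ⟨sp_mul_rp z n, hn⟩) h

lemma conv_nonpos (β : ℕ → ℂ) (γ : ℕ → ℝ) {n : ℤ} (hn : n ≤ 0) : conv β γ n = 0 := by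
  rw [conv, Int.toNat_of_nonpos hn, Nat.divisorsAntidiagonal_zero, sum_empty]

lemma gam_supp {z : ℝ} {q0 : ℕ} {β : ℕ → ℂ} {w : ℕ → ℝ} (h : Dat z q0 β w) (n : ℕ)
    (hn : gam z q0 w n ≠ 0) : Rou z n ∧ n ≡ 1 [MOD q0] := by
  obtain ⟨p, hp, h1⟩ := exists_ne_zero_of_sum_ne_zero hn
  have h2 : z < p ∧ p ≡ 1 [MOD q0] := by
    by_contra h2
    exact h1 (if_neg h2)
  rw [if_pos h2] at h1
  obtain ⟨h3, h4⟩ := h.w_supp _ (left_ne_zero_of_mul h1)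
  rw [← Nat.mul_div_cancel' (Nat.dvd_of_mem_primeFactors hp)]
  refine ⟨Rou.mul (fun q hq hqp => ?_) h3, by simpa using h2.2.mul h4⟩
  rw [(Nat.prime_dvd_prime_iff_eq hq (Nat.prime_of_mem_primeFactors hp)).1 hqp]
  exact h2.1

lemma flat_supp {z : ℝ} {q0 : ℕ} {w : ℕ → ℝ} (n : ℕ) (hn : flat z q0 w n ≠ 0) :
    Rou z n ∧ n ≡ 1 [MOD q0] := by
  by_contra h
  exact hn (if_neg h)

lemma gam_bound {z : ℝ} {q0 : ℕ} {β : ℕ → ℂ} {w : ℕ → ℝ} (h : Dat z q0 β w) (n : ℕ) :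
    0 ≤ gam z q0 w n ∧ gam z q0 w n ≤ Real.log n := by
  refine ⟨sum_nonneg fun p _ => ?_, ?_⟩
  · have := h.w_nonneg (n / p)
    have := Real.log_natCast_nonneg p
    split_ifs <;> positivity
  rcases eq_or_ne n 0 with rfl | hn
  · simp [gam]
  have h0 : ∀ p ∈ n.primeFactors, (0 : ℝ) < p := fun p hp => by
    exact_mod_cast (Nat.prime_of_mem_primeFactors hp).pos
  calc gam z q0 w n ≤ ∑ p ∈ n.primeFactors, Real.log p := sum_le_sum fun p _ => by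
        have := Real.log_natCast_nonneg p
        split_ifs
        exacts [mul_le_of_le_one_left this (h.w_le _), this]
    _ = Real.log (∏ p ∈ n.primeFactors, (p : ℝ)) :=
        (Real.log_prod fun p hp => (h0 p hp).ne').symm
    _ ≤ Real.log n := by
        refine Real.log_le_log (prod_pos h0) ?_
        rw [← Nat.cast_prod, Nat.cast_le]
        exact Nat.le_of_dvd (Nat.pos_of_ne_zero hn) (Nat.prod_primeFactors_dvd n)

lemma Vz_pos (z : ℝ) : 0 < Vz z := by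
  refine prod_pos fun p hp => sub_pos.2 (inv_lt_one_of_one_lt₀ ?_)
  exact_mod_cast (mem_filter.1 hp).2.one_lt

lemma Vz_le_one (z : ℝ) : Vz z ≤ 1 := by
  refine prod_le_one (fun p hp => sub_nonneg.2 (inv_le_one_of_one_le₀ ?_)) fun p _ => by simp
  exact_mod_cast (mem_filter.1 hp).2.one_lt.le

lemma Vz_inv_le : ∀ᶠ X : ℕ in atTop, (Vz (zz X))⁻¹ ≤ Real.log X := by
  filter_upwards [spc_pow_ev (a := 24 / 25) (b := 1) (by norm_num) (Real.exp 73),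
    spc_pow_ev (a := 0) (b := 24 / 25) (by norm_num) 1] with X h1 h2
  rw [Real.rpow_zero, one_mul] at h2
  have h3 : (2 : ℝ) ≤ zz X := by
    have := Real.add_one_le_exp (Real.log X ^ (24 / 25 : ℝ))
    unfold zz
    linarith only [h2, this]
  have h4 : 2 ≤ ⌊zz X⌋₊ := Nat.le_floor (by exact_mod_cast h3)
  have h5 := Pool.Agent.Lib.ANT.prod_one_sub_inv_prime_inv_le _ h4
  have h6 : Real.log (⌊zz X⌋₊ : ℝ) ≤ Real.log X ^ (24 / 25 : ℝ) := by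
    rw [← Real.log_exp (Real.log X ^ (24 / 25 : ℝ))]
    exact Real.log_le_log (by exact_mod_cast (by omega : 0 < ⌊zz X⌋₊))
      (Nat.floor_le (by linarith only [h3]))
  rw [Vz, ← prod_inv_distrib, show Icc 1 ⌊zz X⌋₊ = Ioc 0 ⌊zz X⌋₊ from rfl]
  rw [Real.rpow_one] at h1
  exact h5.trans ((mul_le_mul_of_nonneg_left h6 (Real.exp_pos _).le).trans h1)

lemma zz_big (A : ℕ) : ∀ᶠ X : ℕ in atTop, Real.log X ^ A ≤ zz X ∧
    Real.exp (Real.log X ^ (4 / 5 : ℝ)) + 1 ≤ zz X ∧ zz X ≤ (X : ℝ) ^ (1 / 100 : ℝ) := by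
  filter_upwards [spc_pow_ev (a := 1 / 2) (b := 24 / 25) (by norm_num) (2 * A),
    spc_pow_ev (a := 4 / 5) (b := 24 / 25) (by norm_num) 2,
    spc_pow_ev (a := 0) (b := 4 / 5) (by norm_num) 1,
    spc_pow_ev (a := 24 / 25) (b := 1) (by norm_num) 100,
    spc_pow_ev (a := 0) (b := 1) (by norm_num) 1, eventually_gt_atTop 0] with X h1 h2 h3 h4 h5 h6
  rw [Real.rpow_zero, one_mul] at h3 h5
  rw [Real.rpow_one] at h4 h5
  have h7 : (0 : ℝ) < X := by exact_mod_cast h6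
  refine ⟨?_, ?_, ?_⟩
  · rw [← Real.exp_log (show 0 < Real.log X by linarith only [h2, h3, h4]), ← Real.exp_nat_mul]
    refine Real.exp_le_exp.2 (le_trans ?_ h1)
    have := Real.log_le_rpow_div (x := Real.log X) (ε := 1 / 2) (by linarith only [h2, h3, h4]) (by norm_num)
    have := mul_le_mul_of_nonneg_left this (Nat.cast_nonneg A)
    linarith only [this]
  · have h8 : Real.exp (Real.log X ^ (4 / 5 : ℝ) + 1) ≤ zz X := Real.exp_le_exp.2 (by linarith only [h2, h3])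
    have h9 := Real.add_one_le_exp (Real.log X ^ (4 / 5 : ℝ))
    have h10 := Real.add_one_le_exp 1
    rw [Real.exp_add] at h8
    nlinarith only [h3, h8, h9, h10]
  · rw [Real.rpow_def_of_pos h7]
    exact Real.exp_le_exp.2 (by linarith only [h4])

lemma rhoF_bound : ∀ᶠ X : ℕ in atTop, ∀ w : ℕ → ℝ, (∀ n, 0 ≤ w n) → (∀ n, w n ≤ 1) → ∀ m : ℕ,
    m ≤ X ^ 3 → 0 ≤ rhoF (zz X) w m ∧ rhoF (zz X) w m ≤ 4 * Real.log X ^ 2 := by
  filter_upwards [Vz_inv_le, spc_pow_ev (a := 0) (b := 1) (by norm_num) 1] with X h1 h2 w w0 w1 m hm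
  rw [Real.rpow_zero, one_mul, Real.rpow_one] at h2
  have h3 : ∀ k : ℕ, 0 ≤ w k / k := fun k => div_nonneg (w0 k) (Nat.cast_nonneg k)
  have h4 := Vz_pos (zz X)
  refine ⟨div_nonneg (sum_nonneg fun k _ => h3 k) h4.le, ?_⟩
  have h5 : ∑ k ∈ (Icc 1 m).filter (fun k : ℕ => (k : ℝ) * zz X < m), w k / k ≤ 4 * Real.log X :=
    calc _ ≤ ∑ k ∈ Icc 1 m, w k / k :=
          sum_le_sum_of_subset_of_nonneg (filter_subset _ _) fun k _ _ => h3 k
      _ ≤ ∑ k ∈ Icc 1 m, (k : ℝ)⁻¹ := sum_le_sum fun k _ => by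
          rw [← one_div]
          exact div_le_div_of_nonneg_right (w1 k) (Nat.cast_nonneg k)
      _ ≤ 1 + Real.log m := by
          have := harmonic_le_one_add_log m
          rw [harmonic_eq_sum_Icc] at this
          simpa using this
      _ ≤ _ := by linarith only [h2, hm, spc_log_three hm]
  rw [rhoF, div_eq_mul_inv]
  refine (mul_le_mul h5 h1 (inv_nonneg.2 h4.le) (by linarith only [h2])).trans_eq (by ring)

lemma conv_bound : ∀ᶠ X : ℕ in atTop, ∀ (q0 : ℕ) (β : ℕ → ℂ) (w : ℕ → ℝ), Dat (zz X) q0 β w →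
    ∀ n : ℤ, n ≤ (X : ℤ) ^ 3 → ‖conv β (gam (zz X) q0 w) n‖ ≤ Real.log X ^ 3 ∧
      ‖conv β (flat (zz X) q0 w) n‖ ≤ Real.log X ^ 3 ∧
      ‖conv β (gam (zz X) q0 w) n - conv β (flat (zz X) q0 w) n‖ ≤ Real.log X ^ 3 := by
  filter_upwards [rhoF_bound, spc_pow_ev (a := 0) (b := 1) (by norm_num) 4] with X h1 h2 q0 β w h
    n hn
  rw [Real.rpow_zero, mul_one, Real.rpow_one] at h2
  have h0 : 0 ≤ Real.log X ^ 3 := by positivity
  rcases le_or_gt n 0 with h3 | h3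
  · simp [conv_nonpos _ _ h3, h0]
  lift n to ℕ using h3.le
  have h4 : n ≠ 0 := by omega
  have h5 : rp (zz X) n ≤ X ^ 3 := (Nat.div_le_self _ _).trans (by exact_mod_cast hn)
  obtain ⟨g0, g1⟩ := gam_bound h (rp (zz X) n)
  obtain ⟨f0, f1⟩ := h1 w h.w_nonneg h.w_le _ h5
  have g2 : gam (zz X) q0 w (rp (zz X) n) ≤ Real.log X ^ 3 := by
    nlinarith only [g1, h5, h2, spc_log_three h5, mul_le_mul h2 h2 (by norm_num) (by linarith)]
  have f2 : 0 ≤ flat (zz X) q0 w (rp (zz X) n) ∧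
      flat (zz X) q0 w (rp (zz X) n) ≤ Real.log X ^ 3 := by
    unfold flat
    split_ifs
    · exact ⟨f0, by nlinarith only [f1, h2, sq_nonneg (Real.log X)]⟩
    · exact ⟨le_rfl, h0⟩
  have key : ∀ t : ℝ, |t| ≤ Real.log X ^ 3 → ‖β (sp (zz X) n) * (t : ℂ)‖ ≤ Real.log X ^ 3 :=
    fun t ht => by
      rw [norm_mul, Complex.norm_real, Real.norm_eq_abs]
      exact (mul_le_of_le_one_left (abs_nonneg t) (h.β_le _)).trans ht
  rw [conv_eq h.β_supp (fun k hk => (gam_supp h k hk).1) h4,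
    conv_eq h.β_supp (fun k hk => (flat_supp k hk).1) h4, ← mul_sub, ← Complex.ofReal_sub]
  exact ⟨key _ (abs_le.2 ⟨by linarith only [h0, g0], g2⟩), key _ (abs_le.2 ⟨by linarith [f2.1], f2.2⟩),
    key _ (abs_le.2 ⟨by linarith [f2.2], by linarith [f2.1]⟩)⟩

/-- Invariance under a small prime. -/
lemma conv_mul {z : ℝ} {β : ℕ → ℂ} {γ : ℕ → ℝ} (hβ : ∀ n, β n ≠ 0 → Smo z n)
    (hγ : ∀ n, γ n ≠ 0 → Rou z n) {p : ℕ} (hp : p.Prime) (hpz : (p : ℝ) ≤ z)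
    (h : ∀ n, β (p * n) = β n) (n : ℤ) : conv β γ (p * n) = conv β γ n := by
  rcases le_or_gt n 0 with h3 | h3
  · rw [conv_nonpos _ _ h3, conv_nonpos _ _ (mul_nonpos_of_nonneg_of_nonpos (by positivity) h3)]
  lift n to ℕ using h3.le
  have h4 : n ≠ 0 := by omega
  have h5 : p * sp z n * rp z n = p * n := by rw [mul_assoc, sp_mul_rp]
  have h6 := sp_eq (Smo.mul (a := p) (fun q hq hqp => by
    rwa [(Nat.prime_dvd_prime_iff_eq hq hp).1 hqp]) (smo_sp z n)) (rou_rp z h4)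
    (h5 ▸ mul_ne_zero hp.ne_zero h4)
  rw [h5] at h6
  rw [← Nat.cast_mul, conv_eq hβ hγ h4, conv_eq hβ hγ (mul_ne_zero hp.ne_zero h4), h6.1, h6.2, h]

lemma conv_wE {z : ℝ} {β : ℕ → ℂ} {γ : ℕ → ℝ} (hβ : ∀ n, β n ≠ 0 → Smo z n)
    (hγ : ∀ n, γ n ≠ 0 → Rou z n) {E : Finset ℕ} (hE : ∀ p ∈ E, p.Prime ∧ (p : ℝ) ≤ z) (k : ℕ)
    (n : ℤ) : (if wE E n = k then conv β γ n else 0)
      = conv (fun b => if wE E b = k then β b else 0) γ n := by
  rcases le_or_gt n 0 with h3 | h3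
  · simp [conv_nonpos _ _ h3]
  lift n to ℕ using h3.le
  have h4 : n ≠ 0 := by omega
  have h5 : wE E (sp z n) = wE E n := by
    refine congrArg card (filter_congr fun p hp => ?_)
    rw [Int.natCast_dvd_natCast, Int.natCast_dvd_natCast]
    refine ⟨fun h => h.trans ⟨_, (sp_mul_rp z n).symm⟩, fun h => ?_⟩
    rw [← sp_mul_rp z n] at h
    exact ((hE p hp).1.dvd_mul.1 h).resolve_right fun h' =>
      (rou_rp z h4 p (hE p hp).1 h').not_ge (hE p hp).2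
  rw [conv_eq hβ hγ h4, conv_eq (z := z) (fun b hb => hβ b fun h => hb (by simp [h])) hγ h4, h5]
  split_ifs <;> simp

/-- `conv β gam` as a sum over a cofactor and a large prime. -/
lemma sum_conv_gam {z : ℝ} {q0 : ℕ} (β : ℕ → ℂ) (w : ℕ → ℝ) (y : ℕ) (φ : ℕ → ℂ) :
    ∑ n ∈ Icc 1 y, conv β (gam z q0 w) n * φ n
      = ∑ p ∈ (Icc 1 y).filter (fun p : ℕ => p.Prime ∧ z < p ∧ p ≡ 1 [MOD q0]),
          ∑ k ∈ Icc 1 (y / p), conv β w k * (Real.log p : ℂ) * φ (k * p) := by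
  simp only [conv, Int.toNat_natCast, gam, ← sum_filter, Complex.ofReal_sum, mul_sum, sum_mul,
    sum_sigma']
  refine sum_nbij' (fun x => ⟨x.2.2, x.1 / x.2.2, (x.2.1.1, x.2.1.2 / x.2.2)⟩)
    (fun x => ⟨x.2.1 * x.1, (x.2.2.1, x.2.2.2 * x.1), x.1⟩) ?_ ?_ ?_ ?_ ?_
  · rintro ⟨n, ⟨b, m⟩, p⟩ hx
    simp only [mem_sigma, mem_Icc, mem_filter, Nat.mem_divisorsAntidiagonal,
      Nat.mem_primeFactors] at hx ⊢
    obtain ⟨⟨h1, h2⟩, ⟨rfl, h3⟩, ⟨hp, ⟨c, rfl⟩, h4⟩, h5⟩ := hx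
    have e : b * (p * c) / p = b * c := by
      rw [mul_left_comm, Nat.mul_div_cancel_left _ hp.pos]
    have h6 : b * c ≠ 0 := fun h => h3 (by rw [mul_left_comm, h, mul_zero])
    refine ⟨⟨⟨hp.pos, (Nat.le_of_dvd h1 ⟨b * c, by ring⟩).trans h2⟩, hp, h5⟩,
      ⟨e ▸ Nat.pos_of_ne_zero h6, Nat.div_le_div_right h2⟩, ?_, e ▸ h6⟩
    rw [e, Nat.mul_div_cancel_left _ hp.pos]
  · rintro ⟨p, k, b, m⟩ hx
    simp only [mem_sigma, mem_Icc, mem_filter, Nat.mem_divisorsAntidiagonal,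
      Nat.mem_primeFactors] at hx ⊢
    obtain ⟨⟨_, hp, h5⟩, ⟨h1, h2⟩, rfl, h3⟩ := hx
    exact ⟨⟨Nat.mul_pos h1 hp.pos, (Nat.le_div_iff_mul_le hp.pos).1 h2⟩,
      ⟨(mul_assoc _ _ _).symm, mul_ne_zero h3 hp.ne_zero⟩,
      ⟨hp, dvd_mul_left _ _, mul_ne_zero (right_ne_zero_of_mul h3) hp.ne_zero⟩, h5⟩
  · rintro ⟨n, ⟨b, m⟩, p⟩ hx
    simp only [mem_sigma, mem_Icc, mem_filter, Nat.mem_divisorsAntidiagonal,
      Nat.mem_primeFactors] at hx
    obtain ⟨_, ⟨rfl, _⟩, ⟨_, h, _⟩, _⟩ := hx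
    simp only [Nat.div_mul_cancel h, Nat.div_mul_cancel (h.mul_left b)]
  · rintro ⟨p, k, b, m⟩ hx
    simp only [mem_sigma, mem_Icc, mem_filter] at hx
    simp only [Nat.mul_div_cancel _ hx.1.2.1.pos]
  · rintro ⟨n, ⟨b, m⟩, p⟩ hx
    simp only [mem_sigma, mem_Icc, mem_filter, Nat.mem_divisorsAntidiagonal,
      Nat.mem_primeFactors] at hx
    obtain ⟨_, ⟨rfl, _⟩, ⟨_, h, _⟩, _⟩ := hx
    simp only [Nat.div_mul_cancel (h.mul_left b), Complex.ofReal_mul]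
    ring

lemma MRB.congr {N : ℕ} {c c' : ℤ → ℂ} {h : ℤ} {H0 H1 : ℝ} {Q Jm : ℕ} {ε : ℝ}
    (hN : 100 * h.natAbs + 100 ≤ N) (hc : ∀ n : ℤ, 1 ≤ n → n ≤ 11 * N → c' n = c n)
    (H : MRB N c h H0 H1 Q Jm ε) : MRB N c' h H0 H1 Q Jm ε := by
  intro P I V J H' θ h1 h2 h3 h4 h5 h6 h7 h8 h9
  refine le_of_eq_of_le (sum_congr rfl fun x hx => ?_) (H P I V J H' θ h1 h2 h3 h4 h5 h6 h7 h8 h9)
  congr 2
  refine sum_congr rfl fun i hi => ?_
  congr 1
  refine sum_congr rfl fun p hp => sum_congr rfl fun w hw => ?_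
  split_ifs with hd
  swap
  · rfl
  obtain ⟨a1, a2⟩ := h4 p hp w hw
  generalize p * w = d at a1 a2 hd
  obtain ⟨n, hn⟩ := hd
  obtain ⟨x1, x2⟩ := mem_Icc.1 hx
  have i1 : i < J := (mem_range.1 hi).trans_le h8
  have d0 : (d : ℤ) ≠ 0 := by omega
  rw [hn, Int.mul_ediv_cancel_left _ d0]
  have b0 : ((J : ℤ) * N) ≤ 2 * x + 1 := by
    have : ((J * N : ℕ) : ℤ) ≤ 2 * x + 1 := by omega
    exact_mod_cast this
  have b1 : (J : ℤ) ≤ 2 * d := by exact_mod_cast a1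
  have b2 : (d : ℤ) ≤ 5 * J := by exact_mod_cast a2
  have b3 : 100 * |h| + 100 ≤ N := by
    rw [← Int.natCast_natAbs]
    exact_mod_cast hN
  have b4 : |h * i| ≤ |h| * J := by
    rw [abs_mul, Nat.abs_cast]
    exact mul_le_mul_of_nonneg_left (by exact_mod_cast i1.le) (abs_nonneg h)
  have b5 : (1 : ℤ) ≤ J := by omega
  have b6 := mul_le_mul_of_nonneg_left b3 (show (0 : ℤ) ≤ J by omega)
  obtain ⟨b7, b8⟩ := abs_le.1 b4
  have b9 := abs_nonneg h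
  have b10 := mul_nonneg b9 (show (0 : ℤ) ≤ J by omega)
  push_cast at x2
  have n0 : 0 ≤ n := by
    by_contra hn0
    have := mul_nonpos_of_nonneg_of_nonpos (show (0 : ℤ) ≤ d by omega) (not_le.1 hn0).le
    nlinarith only [hn, i1, b0, b6, b7, b8, this]
  have c1 := mul_le_mul_of_nonneg_right b1 n0
  have c2 := mul_le_mul_of_nonneg_right b2 n0
  have c3 : 9 * |h| + 9 ≤ n := le_of_mul_le_mul_left (a := (J : ℤ)) (by nlinarith only [hn, i1, b0, b6, b7, b8, c2]) b5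
  have c4 : n ≤ 10 * N + 2 * |h| := le_of_mul_le_mul_left (a := (J : ℤ)) (by nlinarith only [hn, b8, x2, c1]) b5
  exact hc _ (by linarith only [b9, c3, neg_abs_le h]) (by linarith only [hN, b9, c4, le_abs_self h])

lemma MRB.smul {N : ℕ} {c : ℤ → ℂ} {h : ℤ} {H0 H1 : ℝ} {Q Jm : ℕ} {ε : ℝ} {t : ℂ}
    (ht : ‖t‖ ≤ 1) (H : MRB N c h H0 H1 Q Jm ε) : MRB N (fun n => t * c n) h H0 H1 Q Jm ε := by
  intro P I V J H' θ h1 h2 h3 h4 h5 h6 h7 h8 h9
  refine le_trans (sum_le_sum fun x _ => ?_) (H P I V J H' θ h1 h2 h3 h4 h5 h6 h7 h8 h9)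
  simp only [← mul_ite_zero, ← mul_sum, mul_assoc, norm_mul]
  exact pow_le_pow_left₀ (by positivity) (mul_le_of_le_one_left (norm_nonneg _) ht) 2

end Pool.Agent.Work.MP_678620_nt
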