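import Pool.Agent.Work.MP_678620_nt.SPBasic

/-! Coordinates: resetting, the coupling and the law of the zero set. -/

set_option autoImplicit false
open Finset Pool.Agent.Lib.LargeSieve

namespace Pool.Agent.Work.MP_678620_nt

namespace Sys

variable {ι : Type} [Fintype ι] [DecidableEq ι] (S : Sys ι)

lemma coord_pw {β : Type*} [AddCommMonoid β] (d : Finset ι) (c : S.G)
    (B : ∀ i, Finset (ZMod (S.m i))) (Φ : S.G → β) :
    ∑ ξ ∈ Fintype.piFinset B, Φ (d.piecewise c ξ) = (∏ i ∈ d, (B i).card) •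
      ∑ x ∈ Fintype.piFinset fun i => if i ∈ d then {c i} else B i, Φ x := by
  rw [← sum_fiberwise_of_maps_to (g := fun ξ => d.piecewise c ξ)
    (t := Fintype.piFinset fun i => if i ∈ d then {c i} else B i), smul_sum]
  · refine sum_congr rfl fun x hx => ?_
    rw [Fintype.mem_piFinset] at hx
    rw [sum_congr rfl (g := fun _ => Φ x) fun ξ hξ => by rw [(mem_filter.1 hξ).2], sum_const]
    congr 1
    have : (Fintype.piFinset B).filter (fun ξ => d.piecewise c ξ = x) =
        Fintype.piFinset fun i => if i ∈ d then B i else {x i} := by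
      ext ξ
      simp only [mem_filter, Fintype.mem_piFinset]
      constructor
      · rintro ⟨h1, rfl⟩ i
        by_cases hi : i ∈ d
        · simp [hi, h1 i]
        · simp [hi]
      · intro h
        refine ⟨fun i => ?_, funext fun i => ?_⟩
        · have h1 := h i
          have h2 := hx i
          by_cases hi : i ∈ d
          · simpa [hi] using h1
          · simp only [hi, if_false, mem_singleton] at h1 h2
            rwa [h1]
        · have h1 := h i
          have h2 := hx i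
          by_cases hi : i ∈ d
          · simp only [hi, if_true, mem_singleton] at h2
            simp [hi, h2]
          · simp only [hi, if_false, mem_singleton] at h1
            simp [hi, h1]
    rw [this, Fintype.card_piFinset, ← prod_ite_mem_eq d]
    refine prod_congr rfl fun i _ => ?_
    split_ifs <;> simp
  · intro ξ hξ
    rw [Fintype.mem_piFinset] at hξ ⊢
    intro i
    by_cases hi : i ∈ d
    · simp [hi]
    · simp [hi, hξ i]

lemma sum_piecewise {β : Type*} [AddCommMonoid β] (d : Finset ι) (c : S.G) (Φ : S.G → β) :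
    ∑ ξ, Φ (d.piecewise c ξ) = S.pr d • ∑ ξ : S.G, if ∀ i ∈ d, ξ i = c i then Φ ξ else 0 := by
  have h := S.coord_pw d c (fun _ => univ) Φ
  rw [Fintype.piFinset_univ] at h
  rw [h, ← sum_filter]
  congr 1
  · simp [pr]
  · refine sum_congr ?_ fun _ _ => rfl
    ext ξ
    simp only [Fintype.mem_piFinset, mem_filter, mem_univ, true_and]
    refine forall_congr' fun i => ?_
    by_cases hi : i ∈ d <;> simp [hi]

lemma sum_rs {β : Type*} [AddCommMonoid β] {d : Finset ι} (hd : d ⊆ S.E) (Φ : S.G → β) :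
    ∑ ξ, Φ (S.rs d ξ) = S.pr d • ∑ ξ : S.G, if d ⊆ S.Zs ξ then Φ ξ else 0 := by
  simp only [rs_eq]
  rw [sum_piecewise]
  congr 1
  refine sum_congr rfl fun ξ _ => if_congr ?_ rfl rfl
  exact ⟨fun h i hi => S.mem_Zs.2 ⟨hd hi, h i hi⟩, fun h i hi => (S.mem_Zs.1 (h hi)).2⟩

lemma Zs_rs {z : Finset ι} (hz : z ⊆ S.E) {ξ : S.G} (hξ : ξ ∈ S.Gx) : S.Zs (S.rs z ξ) = z := by
  ext p
  rw [mem_Zs]
  have h := (mem_filter.1 hξ).2
  by_cases hp : p ∈ z
  · simp [rs, hp, hz hp]
  · simp only [rs, hp, if_false, iff_false]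
    exact fun h' => h p h'.1 h'.2

lemma coord_nu_le (i : ι) : S.nu i ≤ 1 :=
  inv_le_one_of_one_le₀ (by exact_mod_cast S.m_pos i)

/-- The law of the zero set on a subset of the coordinates. -/
noncomputable def coordP (A z : Finset ι) : ℝ := (∏ p ∈ z, S.nu p) * ∏ p ∈ A \ z, (1 - S.nu p)

lemma coordP_nonneg (A z : Finset ι) : 0 ≤ S.coordP A z :=
  mul_nonneg (prod_nonneg fun p _ => (S.nu_pos p).le)
    (prod_nonneg fun p _ => sub_nonneg.2 (S.coord_nu_le p))

lemma sum_coordP (A : Finset ι) : ∑ z ∈ A.powerset, S.coordP A z = 1 := by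
  simp only [coordP]
  rw [← prod_add]
  simp

lemma Pz_nonneg (z : Finset ι) : 0 ≤ S.Pz z := S.coordP_nonneg S.E z

lemma sum_Pz : ∑ z ∈ S.E.powerset, S.Pz z = 1 := S.sum_coordP S.E

lemma piC_nonneg (j : ℕ) : 0 ≤ S.piC j := sum_nonneg fun z _ => S.Pz_nonneg z

lemma piC_le_one (j : ℕ) : S.piC j ≤ 1 := by
  rw [← S.sum_Pz]
  exact sum_le_sum_of_subset_of_nonneg (fun z hz => mem_powerset.2 (mem_powersetCard.1 hz).1)
    fun z _ _ => S.Pz_nonneg z

lemma coord_Gx {β : Type*} [AddCommMonoid β] {z : Finset ι} (hz : z ⊆ S.E) (Φ : S.G → β) :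
    ∑ ξ ∈ S.Gx, Φ (S.rs z ξ) =
      (∏ p ∈ z, (S.m p - 1)) • ∑ x ∈ univ.filter fun x => S.Zs x = z, Φ x := by
  have e : S.Gx = Fintype.piFinset fun i => if i ∈ S.E then univ.erase 0 else univ := by
    ext ξ
    simp only [Gx, mem_filter, mem_univ, true_and, Fintype.mem_piFinset]
    refine forall_congr' fun i => ?_
    by_cases hi : i ∈ S.E <;> simp [hi]
  simp only [rs_eq]
  rw [e, coord_pw]
  congr 1
  · refine prod_congr rfl fun p hp => ?_
    simp [hz hp]
  · refine sum_congr ?_ fun _ _ => rfl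
    ext x
    simp only [Fintype.mem_piFinset, mem_filter, mem_univ, true_and, Finset.ext_iff, mem_Zs]
    refine forall_congr' fun i => ?_
    by_cases hi : i ∈ z
    · simp [hi, hz hi]
    · by_cases hi' : i ∈ S.E <;> simp [hi, hi']

lemma coord_vp {z : Finset ι} (hz : z ⊆ S.E) :
    S.Pz z * ((∏ p ∈ z, (S.m p - 1) : ℕ) : ℝ) = S.vp := by
  rw [Pz, vp, ← prod_sdiff hz, mul_right_comm, mul_comm, Nat.cast_prod, ← prod_mul_distrib]
  congr 1
  refine prod_congr rfl fun p _ => ?_
  have h : (S.m p : ℝ) ≠ 0 := by exact_mod_cast (S.m_pos p).ne'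
  rw [Nat.cast_sub (S.m_pos p), nu]
  field_simp
  simp

/-- The coupling. -/
lemma coupling {β : Type*} [AddCommGroup β] [Module ℝ β] (Φ : S.G → β) :
    ∑ x, Φ x = S.vp⁻¹ • ∑ z ∈ S.E.powerset, S.Pz z • ∑ ξ ∈ S.Gx, Φ (S.rs z ξ) := by
  rw [← sum_fiberwise_of_maps_to (s := univ) (g := S.Zs) (t := S.E.powerset)
    (fun x _ => mem_powerset.2 (S.Zs_sub x)), smul_sum]
  refine sum_congr rfl fun z hz => ?_
  have hz' := mem_powerset.1 hz
  rw [S.coord_Gx hz', ← Nat.cast_smul_eq_nsmul ℝ, smul_smul, smul_smul, mul_assoc, S.coord_vp hz',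
    inv_mul_cancel₀ S.vp_pos.ne', one_smul]

/-- The coupling on one class. -/
lemma coupling_class {β : Type*} [AddCommGroup β] [Module ℝ β] (j : ℕ)
    (Φ : Finset ι → S.G → β) :
    ∑ x, (if (S.Zs x).card = j then Φ (S.Zs x) x else 0)
      = S.vp⁻¹ • ∑ z ∈ S.E.powersetCard j, S.Pz z • ∑ ξ ∈ S.Gx, Φ z (S.rs z ξ) := by
  rw [S.coupling, powersetCard_eq_filter, sum_filter]
  congr 1
  refine sum_congr rfl fun z hz => ?_
  rw [sum_congr rfl fun ξ hξ => by rw [S.Zs_rs (mem_powerset.1 hz) hξ]]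
  split_ifs <;> simp

lemma coord_split {d : Finset ι} (hd : d ⊆ S.E) (f : Finset ι → ℝ) :
    ∑ z ∈ S.E.powerset, S.Pz z * f z = ∑ t ∈ d.powerset, S.coordP d t *
      ∑ w ∈ (S.E \ d).powerset, S.coordP (S.E \ d) w * f (t ∪ w) := by
  simp only [mul_sum]
  rw [← sum_product']
  symm
  refine sum_nbij' (fun q => q.1 ∪ q.2) (fun z => (z ∩ d, z \ d)) ?_ ?_ ?_ ?_ ?_
  · intro q hq
    simp only [mem_product, mem_powerset] at hq ⊢
    exact union_subset (hq.1.trans hd) (hq.2.trans sdiff_subset)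
  · intro z hz
    simp only [mem_product, mem_powerset] at hz ⊢
    exact ⟨inter_subset_right, sdiff_subset_sdiff hz Subset.rfl⟩
  · intro q hq
    simp only [mem_product, mem_powerset] at hq
    refine Prod.ext ?_ ?_
    · ext p
      have h1 := @hq.1 p
      have h2 := @hq.2 p
      simp only [mem_inter, mem_union, mem_sdiff] at h2 ⊢
      tauto
    · ext p
      have h1 := @hq.1 p
      have h2 := @hq.2 p
      simp only [mem_union, mem_sdiff] at h2 ⊢
      tauto
  · intro z _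
    ext p
    simp only [mem_inter, mem_union, mem_sdiff]
    tauto
  · intro q hq
    simp only [mem_product, mem_powerset] at hq
    have h1 : Disjoint q.1 q.2 :=
      disjoint_sdiff.mono hq.1 hq.2
    have h2 : S.E \ (q.1 ∪ q.2) = (d \ q.1) ∪ ((S.E \ d) \ q.2) := by
      ext p
      have h1 := @hq.1 p
      have h2 := @hq.2 p
      have h3 := @hd p
      simp only [mem_union, mem_sdiff] at h2 ⊢
      tauto
    have h3 : Disjoint (d \ q.1) ((S.E \ d) \ q.2) :=
      disjoint_sdiff.mono sdiff_subset sdiff_subset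
    simp only [Pz, coordP]
    rw [h2, prod_union h1, prod_union h3]
    ring

lemma coord_sub {d : Finset ι} (hd : d ⊆ S.E) (Ψ : Finset ι → ℝ) :
    ∑ z ∈ S.E.powerset, S.Pz z * (if d ⊆ z then Ψ z else 0)
      = S.iv d * ∑ w ∈ (S.E \ d).powerset, S.coordP (S.E \ d) w * Ψ (d ∪ w) := by
  rw [S.coord_split hd, sum_eq_single_of_mem d (mem_powerset_self d)]
  · simp [coordP, iv_eq]
  · intro t ht hne
    rw [sum_eq_zero, mul_zero]
    intro w hw
    rw [if_neg, mul_zero]
    intro h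
    refine hne (Subset.antisymm (mem_powerset.1 ht) fun p hp => ?_)
    rcases mem_union.1 (h hp) with h' | h'
    · exact h'
    · exact ((mem_sdiff.1 (mem_powerset.1 hw h')).2 hp).elim

lemma Pz_cond {d : Finset ι} (hd : d ⊆ S.E) (Ψ : Finset ι → ℝ) (hΨ : ∀ z, Ψ (z ∪ d) = Ψ z) :
    ∑ z ∈ S.E.powerset, S.Pz z * (if d ⊆ z then Ψ z else 0)
      = S.iv d * ∑ z ∈ S.E.powerset, S.Pz z * Ψ z := by
  rw [S.coord_sub hd, S.coord_split hd]
  congr 1
  symm
  rw [sum_congr rfl (g := fun t => S.coordP d t *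
    ∑ w ∈ (S.E \ d).powerset, S.coordP (S.E \ d) w * Ψ (d ∪ w)), ← sum_mul, sum_coordP, one_mul]
  intro t ht
  congr 1
  refine sum_congr rfl fun w _ => ?_
  rw [← hΨ (t ∪ w), union_right_comm, union_eq_right.2 (mem_powerset.1 ht)]

lemma coord_prod_ge (U : Finset ι) : 1 - ∑ p ∈ U, S.nu p ≤ ∏ p ∈ U, (1 - S.nu p) := by
  induction U using Finset.induction_on with
  | empty => simp
  | insert p U hp ih =>
    rw [sum_insert hp, prod_insert hp]
    have h1 := (S.nu_pos p).le
    have h2 := S.coord_nu_le p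
    have h3 : 0 ≤ ∑ p ∈ U, S.nu p := sum_nonneg fun p _ => (S.nu_pos p).le
    nlinarith

lemma Pz_class {U : Finset ι} (hU : U ⊆ S.E) (j : ℕ) :
    |∑ z ∈ S.E.powersetCard (U.card + j), (if U ⊆ z then S.Pz z else 0) - S.iv U * S.piC j|
      ≤ S.iv U * (U.card / S.H0) := by
  let q : Finset ι → ℝ := fun t => ∑ w ∈ (S.E \ U).powerset,
    S.coordP (S.E \ U) w * if (t ∪ w).card = j then 1 else 0
  have hq : ∀ t, 0 ≤ q t ∧ q t ≤ 1 := fun t =>
    ⟨sum_nonneg fun w _ => mul_nonneg (S.coordP_nonneg _ _) (by split_ifs <;> norm_num),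
      (sum_le_sum fun w _ => mul_le_of_le_one_right (S.coordP_nonneg _ _)
        (by split_ifs <;> norm_num)).trans (S.sum_coordP _).le⟩
  have e1 : ∑ z ∈ S.E.powersetCard (U.card + j), (if U ⊆ z then S.Pz z else 0) =
      S.iv U * q ∅ := by
    have := S.coord_sub hU fun z => if z.card = U.card + j then 1 else 0
    rw [powersetCard_eq_filter, sum_filter]
    refine Eq.trans (sum_congr rfl fun z _ => ?_) (this.trans ?_)
    · split_ifs <;> simp
    · congr 1
      refine sum_congr rfl fun w hw => ?_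
      have : Disjoint U w := disjoint_sdiff.mono_right (mem_powerset.1 hw)
      simp [card_union_of_disjoint this]
  have e2 : S.piC j = ∑ t ∈ U.powerset, S.coordP U t * q t := by
    rw [← S.coord_split hU fun z => if z.card = j then 1 else 0, piC, powersetCard_eq_filter,
      sum_filter]
    refine sum_congr rfl fun z _ => ?_
    split_ifs <;> simp
  rw [e1, ← mul_sub, abs_mul, abs_of_pos (S.iv_pos U)]
  refine mul_le_mul_of_nonneg_left ?_ (S.iv_pos U).le
  have e3 : q ∅ - S.piC j = ∑ t ∈ U.powerset.erase ∅, S.coordP U t * (q ∅ - q t) := by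
    rw [sum_erase _ (by simp), e2]
    simp only [mul_sub]
    rw [sum_sub_distrib, ← sum_mul, sum_coordP, one_mul]
  have e4 : ∑ t ∈ U.powerset.erase ∅, S.coordP U t = 1 - ∏ p ∈ U, (1 - S.nu p) := by
    have h := S.sum_coordP U
    rw [← add_sum_erase _ _ (empty_mem_powerset U)] at h
    have h' : S.coordP U ∅ = ∏ p ∈ U, (1 - S.nu p) := by simp [coordP]
    linarith
  rw [e3]
  calc _ ≤ ∑ t ∈ U.powerset.erase ∅, S.coordP U t := by
        refine (abs_sum_le_sum_abs _ _).trans (sum_le_sum fun t _ => ?_)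
        rw [abs_mul, abs_of_nonneg (S.coordP_nonneg _ _)]
        refine mul_le_of_le_one_right (S.coordP_nonneg _ _) (abs_le.2 ⟨?_, ?_⟩)
        · linarith [(hq ∅).1, (hq t).2]
        · linarith [(hq ∅).2, (hq t).1]
    _ ≤ ∑ p ∈ U, S.nu p := by rw [e4]; linarith [S.coord_prod_ge U]
    _ ≤ U.card • S.H0⁻¹ := sum_le_card_nsmul _ _ _ fun p hp => S.nu_le (hU hp)
    _ = _ := by rw [nsmul_eq_mul, div_eq_mul_inv]

lemma Pz_class_le {U : Finset ι} (hU : U ⊆ S.E) (n : ℕ) :
    ∑ z ∈ S.E.powersetCard n, (if U ⊆ z then S.Pz z else 0) ≤ S.iv U := by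
  have h := S.Pz_cond hU (fun _ => 1) fun _ => rfl
  simp only [mul_one, sum_Pz, mul_ite, mul_zero] at h
  rw [← h]
  refine sum_le_sum_of_subset_of_nonneg (fun z hz => mem_powerset.2 (mem_powersetCard.1 hz).1)
    fun z _ _ => ?_
  split_ifs
  · exact S.Pz_nonneg z
  · exact le_rfl

end Sys

end Pool.Agent.Work.MP_678620_nt
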