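import Pool.Agent.Work.MP_678620_nt.SPJav

/-! The operator `X`: its form and its symmetry. -/

set_option autoImplicit false
open Finset Pool.Agent.Lib.LargeSieve

namespace Pool.Agent.Work.MP_678620_nt

namespace Sys

variable {ι : Type} [Fintype ι] [DecidableEq ι] (S : Sys ι)

lemma SPForm_one {I : Finset ℤ} {e0 : ℤ} (h : e0 ∈ I) (P : ℤ → Prop) [DecidablePred P]
    (F : ℤ → ℂ) : ∑ e ∈ I, (if e = e0 ∧ P e then F e else 0) = if P e0 then F e0 else 0 := by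
  simp only [ite_and]
  rw [sum_ite_eq' I e0 fun e => if P e then F e else 0, if_pos h]

lemma SPForm_jp_sub {d d' : Finset ι} (hd : d ∈ S.DD) (hd' : d' ∈ S.DD) :
    |S.jp d' - S.jp d| ≤ S.T * |S.h| := by
  have a1 : (S.T : ℤ) ≤ S.pr d := by exact_mod_cast S.DD_lo d hd
  have a2 : (S.pr d : ℤ) ≤ 2 * S.T := by exact_mod_cast S.DD_hi d hd
  have a3 : (S.T : ℤ) ≤ S.pr d' := by exact_mod_cast S.DD_lo d' hd'
  have a4 : (S.pr d' : ℤ) ≤ 2 * S.T := by exact_mod_cast S.DD_hi d' hd'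
  rw [jp, jp, ← sub_mul, abs_mul]
  exact mul_le_mul_of_nonneg_right (abs_le.mpr ⟨by linarith, by linarith⟩) (abs_nonneg _)

lemma SPForm_jp_mul (a : Finset ι) {j : ℤ} (hj : j ∈ S.JJ a) : |S.jp a * j| ≤ S.T * |S.h| := by
  have a1 : (S.pr a : ℤ) * S.Hk a ≤ S.T := by
    have := S.Hk_mul_le a
    have q : 1 ≤ S.Q ^ 2 := Nat.one_le_pow _ _ (by have := S.Q_ge; omega)
    have : S.pr a * S.Hk a ≤ S.T :=
      (Nat.mul_le_mul_right _ (Nat.le_mul_of_pos_right _ q)).trans this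
    exact_mod_cast this
  have a2 : |j| ≤ S.Hk a := by
    rw [JJ, mem_Ioo] at hj
    exact abs_le.mpr ⟨hj.1.le, hj.2.le⟩
  rw [jp, mul_right_comm, abs_mul, abs_mul, Nat.abs_cast]
  exact mul_le_mul_of_nonneg_right
    ((mul_le_mul_of_nonneg_left a2 (Nat.cast_nonneg _)).trans a1) (abs_nonneg _)

lemma SPForm_mem {e : ℤ} (h : |e| ≤ 2 * (S.T * |S.h|)) : e ∈ Icc (-(S.R : ℤ)) S.R := by
  have : (S.R : ℤ) = 2 * (S.T * |S.h|) := by
    rw [R]
    push_cast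
    ring
  rw [mem_Icc, this]
  exact abs_le.mp h

lemma SPForm_T (r : ℕ) (g f : S.G → ℂ) :
    ∑ ξ : S.G, ∑ e ∈ Icc (-(S.R : ℤ)) S.R,
      (starRingEnd ℂ) (g ξ) * (S.KT r ξ e * f (ξ + (e : S.G))) = S.TT r g f := by
  simp only [KT, TT, sum_mul, mul_sum, ite_mul, mul_ite, one_mul, zero_mul, mul_zero]
  rw [sum_congr rfl fun ξ _ => sum_comm, sum_comm]
  conv_rhs => rw [sum_comm]
  refine sum_congr rfl fun d hd => ?_
  rw [sum_congr rfl fun ξ _ => sum_comm, sum_comm]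
  conv_rhs => rw [sum_comm]
  refine sum_congr rfl fun d' hd' => ?_
  have m : S.jp d' - S.jp d ∈ Icc (-(S.R : ℤ)) S.R := by
    refine S.SPForm_mem ((S.SPForm_jp_sub hd hd').trans ?_)
    have : (0 : ℤ) ≤ S.T * |S.h| := by positivity
    linarith
  rw [← S.sum_add_right _ (S.jp d : S.G)]
  refine sum_congr rfl fun x _ => ?_
  rw [SPForm_one m, add_sub_cancel_right]
  refine if_congr (by tauto) ?_ rfl
  congr 2
  push_cast
  ring

lemma SPForm_S (r : ℕ) (g f : S.G → ℂ) :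
    ∑ ξ : S.G, ∑ e ∈ Icc (-(S.R : ℤ)) S.R,
      (starRingEnd ℂ) (g ξ) * (S.KS r ξ e * f (ξ + (e : S.G))) = S.SS r g f := by
  simp only [KS, SS, St, sum_mul, mul_sum, ite_mul, mul_ite, zero_mul, mul_zero]
  rw [sum_congr rfl fun ξ _ => sum_comm, sum_comm]
  refine sum_congr rfl fun a _ => ?_
  rw [sum_congr rfl fun ξ _ => sum_comm, sum_comm]
  refine sum_congr rfl fun v hv => ?_
  rw [sum_congr rfl fun ξ _ => sum_comm, sum_comm]
  refine sum_congr rfl fun v' hv' => ?_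
  by_cases hd : Disjoint v v'
  swap
  · simp [hd]
  simp only [hd, true_and, if_true]
  rw [sum_congr rfl fun ξ _ => sum_comm, sum_comm]
  refine sum_congr rfl fun j hj => ?_
  have m : S.jp a * j + S.jp (a ∪ v') - S.jp (a ∪ v) ∈ Icc (-(S.R : ℤ)) S.R := by
    refine S.SPForm_mem ?_
    have a1 := S.SPForm_jp_sub (S.mem_VV.mp hv).2.2.2 (S.mem_VV.mp hv').2.2.2
    have a2 := S.SPForm_jp_mul a hj
    rw [add_sub_assoc]
    exact (abs_add_le _ _).trans (by linarith)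
  rw [← S.sum_add_right _ (S.jp (a ∪ v) : S.G)]
  refine sum_congr rfl fun x _ => ?_
  have e : x + (S.jp (a ∪ v) : S.G) + ((S.jp a * j + S.jp (a ∪ v') - S.jp (a ∪ v) : ℤ) : S.G) =
      x + ((S.jp a * j : ℤ) : S.G) + (S.jp (a ∪ v') : S.G) := by
    push_cast
    ring
  rw [SPForm_one m, e]
  refine if_congr (and_congr (S.sub_Zs_add (fun p hp => S.jp_apply' hp) _)
    (S.sub_Zs_add (fun p hp => S.jp_apply' hp) _)) (by ring) rfl

lemma SPForm_KT (r : ℕ) (ξ : S.G) (e : ℤ) :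
    S.KT r (ξ + (e : S.G)) (-e) = (starRingEnd ℂ) (S.KT r ξ e) := by
  simp only [KT, map_sum, apply_ite (starRingEnd ℂ), map_one, map_zero]
  rw [sum_comm]
  refine sum_congr rfl fun d hd => sum_congr rfl fun d' hd' => if_congr ?_ rfl rfl
  rw [card_sdiff_comm ((S.DD_card d' hd').trans (S.DD_card d hd).symm)]
  by_cases h : e = S.jp d' - S.jp d
  · have e1 : ξ + (e : S.G) - (S.jp d' : S.G) = ξ - (S.jp d : S.G) := by
      rw [h]
      push_cast
      ring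
    have e2 : -e = S.jp d - S.jp d' := by rw [h, neg_sub]
    rw [e1]
    tauto
  · have e2 : ¬ -e = S.jp d - S.jp d' := fun k => h (by linarith)
    tauto

lemma SPForm_KS (r : ℕ) (ξ : S.G) (e : ℤ) :
    S.KS r (ξ + (e : S.G)) (-e) = (starRingEnd ℂ) (S.KS r ξ e) := by
  simp only [KS, map_sum, apply_ite (starRingEnd ℂ), map_zero, ← kap_neg]
  refine sum_congr rfl fun a _ => ?_
  rw [sum_comm]
  refine sum_congr rfl fun v _ => sum_congr rfl fun v' _ => ?_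
  have sym : ∀ j ∈ S.JJ a, -j ∈ S.JJ a := fun j hj => by
    rw [JJ, mem_Ioo] at hj ⊢
    omega
  refine sum_nbij' (fun j => -j) (fun j => -j) sym sym (fun j _ => neg_neg j)
    (fun j _ => neg_neg j) fun j _ => ?_
  have e1 : ξ + (e : S.G) + ((-e : ℤ) : S.G) = ξ := by
    push_cast
    ring
  have e2 : -e = S.jp a * j + S.jp (a ∪ v) - S.jp (a ∪ v') ↔
      e = S.jp a * -j + S.jp (a ∪ v') - S.jp (a ∪ v) :=
    ⟨fun k => by linarith, fun k => by linarith⟩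
  rw [e1, neg_neg]
  refine if_congr ?_ rfl rfl
  rw [e2, disjoint_comm]
  tauto

theorem form_X {g f : S.G → ℂ} (hg : S.Supp g) (hf : S.Supp f) :
    S.ip g (S.Xop S.Kk f)
      = ∑ r ∈ Icc 2 S.k, (S.TT r g f - (S.piC (S.k - r) : ℂ) * S.SS r g f) := by
  have key : ∀ (ξ : S.G) (e : ℤ), (starRingEnd ℂ) (g ξ) * (S.Kk ξ e * f (ξ + (e : S.G))) =
      ∑ r ∈ Icc 2 S.k, ((starRingEnd ℂ) (g ξ) * (S.KT r ξ e * f (ξ + (e : S.G))) -
        (S.piC (S.k - r) : ℂ) * ((starRingEnd ℂ) (g ξ) * (S.KS r ξ e * f (ξ + (e : S.G))))) := by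
    intro ξ e
    by_cases h1 : g ξ = 0
    · simp [h1]
    by_cases h2 : f (ξ + (e : S.G)) = 0
    · simp [h2]
    rw [Kk, if_pos ⟨hg _ h1, hf _ h2⟩, sum_mul, mul_sum]
    exact sum_congr rfl fun r _ => by ring
  simp only [ip, Xop, mul_sum, key]
  rw [sum_congr rfl fun ξ _ => sum_comm, sum_comm]
  refine sum_congr rfl fun r _ => ?_
  rw [← S.SPForm_T, ← S.SPForm_S]
  simp only [sum_sub_distrib, mul_sum]

theorem Kk_herm (ξ : S.G) (e : ℤ) :
    S.Kk (ξ + (e : S.G)) (-e) = (starRingEnd ℂ) (S.Kk ξ e) := by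
  have e1 : ξ + (e : S.G) + ((-e : ℤ) : S.G) = ξ := by
    push_cast
    ring
  rw [Kk, Kk, e1, apply_ite (starRingEnd ℂ), map_zero, map_sum]
  refine if_congr and_comm (sum_congr rfl fun r _ => ?_) rfl
  rw [S.SPForm_KT, S.SPForm_KS, map_sub, map_mul, Complex.conj_ofReal]

lemma Kk_supp {ξ : S.G} {e : ℤ} (h : S.Kk ξ e ≠ 0) : S.Cg ξ ∧ S.Cg (ξ + (e : S.G)) := by
  by_contra k
  exact h (if_neg k)

end Sys

end Pool.Agent.Work.MP_678620_nt
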