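import Pool.Agent.Work.MP_678620_nt.SPAv

/-! The major arc kernel and averaging over its support. -/

set_option autoImplicit false
open Finset Pool.Agent.Lib.LargeSieve

namespace Pool.Agent.Work.MP_678620_nt

namespace Sys

variable {ι : Type} [Fintype ι] [DecidableEq ι] (S : Sys ι)

lemma card_FF_le : S.FF.card ≤ S.Q ^ 2 := by
  refine card_image_le.trans ((card_filter_le _ _).trans ?_)
  simp [sq]

lemma den_le {θ : ℚ} (hθ : θ ∈ S.FF) : θ.den ≤ S.Q := by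
  obtain ⟨x, hx, rfl⟩ := mem_image.1 hθ
  obtain ⟨hx1, -⟩ := mem_filter.1 hx
  obtain ⟨h1, h2⟩ := mem_Icc.1 (mem_product.1 hx1).1
  have h3 := Rat.den_dvd (x.2 : ℤ) (x.1 : ℤ)
  rw [Rat.divInt_eq_div, Int.cast_natCast, Int.cast_natCast] at h3
  have h4 : ((x.2 : ℚ) / x.1).den ∣ x.1 := Int.natCast_dvd_natCast.1 h3
  exact (Nat.le_of_dvd h1 h4).trans h2

lemma norm_kap_le (a : Finset ι) {j : ℤ} (hj : j ∈ S.JJ a) :
    ‖S.kap a j‖ ≤ (S.Q : ℝ) ^ 2 / S.Hk a := by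
  obtain ⟨h1, h2⟩ := mem_Ioo.1 hj
  have h3 : |j| < S.Hk a := abs_lt.2 ⟨h1, h2⟩
  have h4 : |(j : ℝ)| < S.Hk a := by exact_mod_cast h3
  have h5 : (0 : ℝ) < S.Hk a := (abs_nonneg _).trans_lt h4
  refine (norm_sum_le _ _).trans ((sum_le_card_nsmul _ _ ((S.Hk a : ℝ)⁻¹) fun θ _ => ?_).trans ?_)
  · rw [norm_mul, norm_ee, one_mul, Complex.norm_real, Real.norm_eq_abs,
      abs_of_nonneg (div_nonneg (by linarith) (by positivity)), div_le_iff₀ (by positivity)]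
    have : (S.Hk a : ℝ)⁻¹ * (S.Hk a : ℝ) ^ 2 = S.Hk a := by field_simp
    rw [this]
    linarith [abs_nonneg (j : ℝ)]
  · rw [nsmul_eq_mul, div_eq_mul_inv]
    have : (S.FF.card : ℝ) ≤ (S.Q : ℝ) ^ 2 := by exact_mod_cast S.card_FF_le
    gcongr

lemma sum_norm_kap_le (a : Finset ι) : ∑ j ∈ S.JJ a, ‖S.kap a j‖ ≤ 2 * (S.Q : ℝ) ^ 2 := by
  refine (sum_le_card_nsmul _ _ _ fun j hj => S.norm_kap_le a hj).trans ?_
  have h1 : (S.JJ a).card ≤ 2 * S.Hk a := by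
    rw [JJ, Int.card_Ioo]
    omega
  have h2 : ((S.JJ a).card : ℝ) ≤ 2 * S.Hk a := by exact_mod_cast h1
  rw [nsmul_eq_mul]
  rcases Nat.eq_zero_or_pos (S.Hk a) with h | h
  · simp [h]
  · have h3 : (0 : ℝ) < S.Hk a := by exact_mod_cast h
    calc ((S.JJ a).card : ℝ) * ((S.Q : ℝ) ^ 2 / S.Hk a)
        ≤ (2 * S.Hk a) * ((S.Q : ℝ) ^ 2 / S.Hk a) := by gcongr
      _ = _ := by field_simp

lemma kap_neg (a : Finset ι) (j : ℤ) : S.kap a (-j) = (starRingEnd ℂ) (S.kap a j) := by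
  simp only [kap, map_sum, map_mul, conj_ee, Complex.conj_ofReal, Int.cast_neg, abs_neg, mul_neg]

lemma Jav_T {r : ℕ} {a v : Finset ι} (hv : v ∈ S.VV r a) :
    S.T ≤ S.pr a * S.pr v ∧ S.pr a * S.pr v ≤ 2 * S.T := by
  obtain ⟨-, h2, -, h4⟩ := S.mem_VV.1 hv
  rw [← S.pr_union h2]
  exact ⟨S.DD_lo _ h4, S.DD_hi _ h4⟩

lemma Jav_lt (a : Finset ι) : S.T < S.pr a * S.Q ^ 2 * (S.Hk a + 1) :=
  Nat.lt_mul_div_succ _ (Nat.mul_pos (S.pr_pos a) (pow_pos (by have := S.Q_ge; omega) 2))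

lemma Jav_pr_lt {r : ℕ} {a v : Finset ι} (hv : v ∈ S.VV r a) :
    S.pr v < 2 * S.Q ^ 2 * (S.Hk a + 1) := by
  have h1 := (S.Jav_T hv).2
  have h2 := S.Jav_lt a
  refine Nat.lt_of_mul_lt_mul_left (a := S.pr a) ?_
  calc S.pr a * S.pr v ≤ 2 * S.T := h1
    _ < 2 * (S.pr a * S.Q ^ 2 * (S.Hk a + 1)) := by omega
    _ = _ := by ring

lemma Hk_le {r : ℕ} {a v : Finset ι} (hv : v ∈ S.VV r a) : S.Hk a ≤ S.pr v := by
  obtain ⟨h1, -⟩ := S.Jav_T hv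
  refine Nat.div_le_of_le_mul (h1.trans ?_)
  have : 1 ≤ S.Q ^ 2 := Nat.one_le_pow _ _ (by have := S.Q_ge; omega)
  calc S.pr a * S.pr v = S.pr a * 1 * S.pr v := by ring
    _ ≤ _ := by gcongr

lemma Hk_mul_le (a : Finset ι) : S.pr a * S.Q ^ 2 * S.Hk a ≤ S.T := by
  exact Nat.mul_div_le _ _

lemma H0_le_Hk {r : ℕ} (hr : 2 ≤ r) {a v : Finset ι} (hv : v ∈ S.VV r a) : S.H0 ≤ S.Hk a := by
  obtain ⟨h1, -, h3, -⟩ := S.mem_VV.1 hv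
  have h4 := S.H0_pow_le_pr h1
  have h5 := S.H0_big
  have h6 : S.H0 ^ 2 ≤ S.H0 ^ v.card := pow_le_pow_right₀ (by linarith) (by omega)
  have h7 : (S.pr v : ℝ) < 2 * (S.Q : ℝ) ^ 2 * (S.Hk a + 1) := by exact_mod_cast S.Jav_pr_lt hv
  have h8 := S.mono_le_H0 (a := 0) (b := 0) (c := 2) (d := 1) (by norm_num) (by norm_num)
    (by norm_num) (by norm_num)
  have h9 := S.big
  simp only [pow_zero, one_mul, pow_one] at h8
  have h10 : 100 * (S.Q : ℝ) ^ 2 ≤ S.H0 := by nlinarith [sq_nonneg (S.Q : ℝ)]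
  have h11 : (0 : ℝ) ≤ S.Hk a := Nat.cast_nonneg _
  by_contra h
  push Not at h
  have h12 : 2 * (S.Q : ℝ) ^ 2 * (S.Hk a + 1) ≤ (S.H0 / 50) * (S.H0 + 1) :=
    mul_le_mul (by linarith) (by linarith) (by linarith) (by linarith)
  nlinarith

lemma Jav_one {r : ℕ} (hr : 2 ≤ r) {a v : Finset ι} (hv : v ∈ S.VV r a) : 1 ≤ S.Hk a := by
  have h1 := S.H0_le_Hk hr hv
  have h2 := S.H0_big
  have : (1 : ℝ) ≤ S.Hk a := by linarith
  exact_mod_cast this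

lemma T_le_Hk {r : ℕ} (hr : 2 ≤ r) {a v : Finset ι} (hv : v ∈ S.VV r a) :
    S.T ≤ 2 * (S.pr a * S.Q ^ 2 * S.Hk a) := by
  have h1 := S.Jav_lt a
  have h2 := S.Jav_one hr hv
  calc S.T ≤ S.pr a * S.Q ^ 2 * (S.Hk a + 1) := h1.le
    _ ≤ S.pr a * S.Q ^ 2 * (2 * S.Hk a) := by gcongr; omega
    _ = _ := by ring

lemma pr_le_Hk {r : ℕ} (hr : 2 ≤ r) {a v : Finset ι} (hv : v ∈ S.VV r a) :
    S.pr v ≤ 4 * S.Q ^ 2 * S.Hk a := by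
  have h1 := S.Jav_pr_lt hv
  have h2 := S.Jav_one hr hv
  calc S.pr v ≤ 2 * S.Q ^ 2 * (S.Hk a + 1) := h1.le
    _ ≤ 2 * S.Q ^ 2 * (2 * S.Hk a) := by gcongr; omega
    _ = _ := by ring

lemma card_VV_le {r : ℕ} (hr : 2 ≤ r) (a : Finset ι) : (S.VV r a).card ≤ 4 * S.Q ^ 2 * S.Hk a := by
  have h := card_le_card_of_injOn (s := S.VV r a) (t := Icc 1 (4 * S.Q ^ 2 * S.Hk a)) S.pr
    (fun v hv => mem_coe.2 (mem_Icc.2 ⟨S.pr_pos v, S.pr_le_Hk hr (mem_coe.1 hv)⟩))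
    (fun v hv w hw h => S.pr_inj (S.mem_VV.1 (mem_coe.1 hv)).1 (S.mem_VV.1 (mem_coe.1 hw)).1 h)
  simpa using h

/-- On a range of at most `pr v` consecutive `j`, the coordinates in `v` determine `j`. -/
lemma coord_inj {v : Finset ι} {t : ℤ} (ht : IsCoprime (S.pr v : ℤ) t) {j j' : ℤ}
    (hj : |j - j'| < S.pr v) (h : ∀ p ∈ v, ((t * j : ℤ) : S.G) p = ((t * j' : ℤ) : S.G) p) :
    j = j' := by
  have h1 : (∏ p ∈ v, (S.m p : ℤ)) ∣ t * (j' - j) := by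
    refine Finset.prod_dvd_of_coprime (fun p _ q _ hpq => ?_) fun p hp => ?_
    · exact Nat.isCoprime_iff_coprime.2 (S.cop p q hpq)
    · have h2 := h p hp
      rw [S.cast_apply, S.cast_apply, ZMod.intCast_eq_intCast_iff_dvd_sub] at h2
      rwa [mul_sub]
  have h2 : (S.pr v : ℤ) ∣ t * (j' - j) := by
    rw [pr]
    push_cast
    exact h1
  have h3 := Int.eq_zero_of_abs_lt_dvd (ht.dvd_of_dvd_mul_left h2) (by rwa [abs_sub_comm])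
  omega

lemma coprime_jp {r : ℕ} {a v : Finset ι} (hv : v ∈ S.VV r a) :
    IsCoprime (S.pr v : ℤ) (S.jp a) := by
  obtain ⟨h1, h2, -, -⟩ := S.mem_VV.1 hv
  exact IsCoprime.mul_right (Nat.isCoprime_iff_coprime.2 (S.coprime_pr h2).symm)
    (S.coprime_pr_h h1)

lemma Jav_two {r : ℕ} {a v : Finset ι} (hv : v ∈ S.VV r a) {t : ℤ}
    (ht : IsCoprime (S.pr v : ℤ) t) (c : S.G) :
    ((S.JJ a).filter fun j => ∀ i ∈ v, c i = ((t * j : ℤ) : S.G) i).card ≤ 2 := by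
  have hH : (S.Hk a : ℤ) ≤ S.pr v := by exact_mod_cast S.Hk_le hv
  rw [← card_filter_add_card_filter_not (fun j : ℤ => j < 0)]
  refine add_le_add (b := 1) (d := 1) (card_le_one.2 fun j hj j' hj' => ?_)
    (card_le_one.2 fun j hj j' hj' => ?_)
  all_goals
    simp only [mem_filter, JJ, mem_Ioo] at hj hj'
    refine S.coord_inj ht (abs_lt.2 ⟨by omega, by omega⟩) fun p hp => ?_
    rw [← hj.1.2 p hp, ← hj'.1.2 p hp]

lemma card_JJ_sub {r : ℕ} {a v : Finset ι} (hv : v ∈ S.VV r a) (x : S.G) :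
    ((S.JJ a).filter fun j => v ⊆ S.Zs (x + ((S.jp a * j : ℤ) : S.G))).card ≤ 2 := by
  refine le_trans (card_le_card fun j hj => ?_) (S.Jav_two hv (S.coprime_jp hv) (-x))
  obtain ⟨h1, h2⟩ := mem_filter.1 hj
  refine mem_filter.2 ⟨h1, fun i hi => ?_⟩
  have h3 := (S.mem_Zs.1 (h2 hi)).2
  rw [Pi.add_apply] at h3
  rw [Pi.neg_apply]
  exact neg_eq_of_add_eq_zero_right h3

theorem jav {r : ℕ} (hr : 2 ≤ r) {a v : Finset ι} (hv : v ∈ S.VV r a) {t : ℤ}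
    (ht : IsCoprime (S.pr v : ℤ) t) {Φ : S.G → ℝ} (h0 : ∀ c, 0 ≤ Φ c) (hΦ : S.Indep vᶜ Φ) :
    ∑ j ∈ S.JJ a, ‖S.kap a j‖ * Φ ((t * j : ℤ) : S.G)
      ≤ 8 * (S.Q : ℝ) ^ 4 * ((Fintype.card S.G : ℝ)⁻¹ * ∑ c, Φ c) := by
  have hN : (0 : ℝ) < Fintype.card S.G := by exact_mod_cast Fintype.card_pos
  have hH : (0 : ℝ) < S.Hk a := by exact_mod_cast S.Jav_one hr hv
  have hV : (S.pr v : ℝ) ≤ 4 * (S.Q : ℝ) ^ 2 * S.Hk a := by exact_mod_cast S.pr_le_Hk hr hv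
  have h1 : ∀ j : ℤ, (Fintype.card S.G : ℝ) * Φ ((t * j : ℤ) : S.G) =
      S.pr v * ∑ c : S.G, if ∀ i ∈ v, c i = ((t * j : ℤ) : S.G) i then Φ c else 0 := by
    intro j
    have h2 := S.sum_piecewise v ((t * j : ℤ) : S.G) Φ
    rw [nsmul_eq_mul] at h2
    rw [← h2, sum_congr rfl fun ξ _ => hΦ (v.piecewise ((t * j : ℤ) : S.G) ξ) ((t * j : ℤ) : S.G)
      fun i hi => piecewise_eq_of_mem _ _ _ (by simpa using hi)]
    simp
  have h2 : ∑ j ∈ S.JJ a, ∑ c : S.G,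
      (if ∀ i ∈ v, c i = ((t * j : ℤ) : S.G) i then Φ c else 0) ≤ 2 * ∑ c, Φ c := by
    rw [sum_comm, mul_sum]
    refine sum_le_sum fun c _ => ?_
    rw [← sum_filter, sum_const, nsmul_eq_mul]
    have : (((S.JJ a).filter fun j => ∀ i ∈ v, c i = ((t * j : ℤ) : S.G) i).card : ℝ) ≤ 2 := by
      exact_mod_cast S.Jav_two hv ht c
    exact mul_le_mul_of_nonneg_right this (h0 c)
  have h3 : (Fintype.card S.G : ℝ) * ∑ j ∈ S.JJ a, Φ ((t * j : ℤ) : S.G)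
      ≤ S.pr v * (2 * ∑ c, Φ c) := by
    rw [mul_sum, sum_congr rfl fun j _ => h1 j, ← mul_sum]
    exact mul_le_mul_of_nonneg_left h2 (Nat.cast_nonneg _)
  have h4 : 0 ≤ ∑ c, Φ c := sum_nonneg fun c _ => h0 c
  have h5 : ∑ j ∈ S.JJ a, Φ ((t * j : ℤ) : S.G)
      ≤ (4 * (S.Q : ℝ) ^ 2 * S.Hk a) * (2 * ∑ c, Φ c) / Fintype.card S.G := by
    rw [le_div_iff₀ hN, mul_comm]
    exact h3.trans (mul_le_mul_of_nonneg_right hV (by positivity))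
  calc ∑ j ∈ S.JJ a, ‖S.kap a j‖ * Φ ((t * j : ℤ) : S.G)
      ≤ ∑ j ∈ S.JJ a, ((S.Q : ℝ) ^ 2 / S.Hk a) * Φ ((t * j : ℤ) : S.G) :=
        sum_le_sum fun j hj => mul_le_mul_of_nonneg_right (S.norm_kap_le a hj) (h0 _)
    _ = ((S.Q : ℝ) ^ 2 / S.Hk a) * ∑ j ∈ S.JJ a, Φ ((t * j : ℤ) : S.G) := by rw [mul_sum]
    _ ≤ ((S.Q : ℝ) ^ 2 / S.Hk a) *
        ((4 * (S.Q : ℝ) ^ 2 * S.Hk a) * (2 * ∑ c, Φ c) / Fintype.card S.G) := by gcongr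
    _ = _ := by field_simp; ring

end Sys

end Pool.Agent.Work.MP_678620_nt
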