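import Pool.Agent.Work.MP_678620_nt.SPI2
import Pool.Agent.Work.MP_678620_nt.SPJav

/-! The structured form against its model. -/

set_option autoImplicit false
open Finset Pool.Agent.Lib.LargeSieve

namespace Pool.Agent.Work.MP_678620_nt

namespace Sys

variable {ι : Type} [Fintype ι] [DecidableEq ι] (S : Sys ι)

/-- Variance in one coordinate. -/
noncomputable def IIvar (p : ι) (f : S.G → ℂ) : ℝ := S.nn fun ξ => f ξ - S.av {p} f ξ

/-- One term of the model, without the weights. -/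
noncomputable def IIMt (a : Finset ι) (G F : S.G → ℂ) : ℂ :=
  ∑ j ∈ S.JJ a, S.kap a j * S.ip G fun ξ => F (ξ + ((S.jp a * j : ℤ) : S.G))

lemma II_MK (r : ℕ) (g f : S.G → ℂ) :
    S.MK r g f = ∑ a ∈ S.AA r, ∑ v ∈ S.VV r a, ∑ v' ∈ S.VV r a,
      ((S.iv a * S.iv v * S.iv v' : ℝ) : ℂ) *
        S.IIMt a (S.Fd (a ∪ v) g) (S.Fd (a ∪ v') f) := by
  refine sum_congr rfl fun a _ => ?_
  simp only [ip, Ka, Wa, IIMt, map_sum, map_mul, Complex.conj_ofReal, mul_sum, sum_mul]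
  rw [sum_comm]
  refine Eq.trans (sum_congr rfl fun j _ => sum_comm) ?_
  rw [sum_comm]
  refine Eq.trans (sum_congr rfl fun v' _ =>
    Eq.trans (sum_congr rfl fun j _ => sum_comm) sum_comm) ?_
  rw [sum_comm]
  refine sum_congr rfl fun v _ => sum_congr rfl fun v' _ => sum_congr rfl fun j _ =>
    sum_congr rfl fun ξ _ => ?_
  push_cast
  ring

lemma II_St {r : ℕ} {a v v' : Finset ι} (ha : a ∈ S.AA r) (hv : v ∈ S.VV r a)
    (hv' : v' ∈ S.VV r a) (hd : Disjoint v v') (g f : S.G → ℂ) :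
    S.St a v v' g f = ((S.iv a * S.iv v * S.iv v' : ℝ) : ℂ) * ∑ j ∈ S.JJ a, S.kap a j *
      S.ip (fun ξ => S.Fd (a ∪ v) g (v'.piecewise (-((S.jp a * j : ℤ) : S.G)) ξ))
        fun ξ => S.Fd (a ∪ v') f
          (v.piecewise ((S.jp a * j : ℤ) : S.G) (ξ + ((S.jp a * j : ℤ) : S.G))) := by
  obtain ⟨hvE, hav, -, -⟩ := S.mem_VV.1 hv
  obtain ⟨hvE', hav', -, -⟩ := S.mem_VV.1 hv'
  have haE := (S.mem_AA.1 ha).1
  rw [St, mul_sum]
  refine sum_congr rfl fun j _ => ?_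
  rw [mul_left_comm]
  congr 1
  have hc : ∀ p ∈ a, ((S.jp a * j : ℤ) : S.G) p = 0 := fun p hp => S.jp_apply hp j
  generalize ((S.jp a * j : ℤ) : S.G) = c at hc ⊢
  have n1 : ∀ i ∈ a, i ∉ v := fun i hi => disjoint_left.1 hav hi
  have n2 : ∀ i ∈ a, i ∉ v' := fun i hi => disjoint_left.1 hav' hi
  have n3 : ∀ i ∈ v, i ∉ v' := fun i hi => disjoint_left.1 hd hi
  have key := S.sum_piecewise (a ∪ v ∪ v') (v'.piecewise (-c) 0) fun x =>
    (starRingEnd ℂ) (g (x + (S.jp (a ∪ v) : S.G))) * f (x + c + (S.jp (a ∪ v') : S.G))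
  have e1 : ∀ ξ : S.G, S.rs (a ∪ v) (v'.piecewise (-c) ξ) =
      (a ∪ v ∪ v').piecewise (v'.piecewise (-c) 0) ξ := by
    intro ξ
    funext i
    by_cases h1 : i ∈ a
    · simp [rs, piecewise, h1, n2 i h1]
    · by_cases h2 : i ∈ v
      · simp [rs, piecewise, h2, n3 i h2]
      · by_cases h3 : i ∈ v' <;> simp [rs, piecewise, h1, h2, h3]
  have e2 : ∀ ξ : S.G, S.rs (a ∪ v') (v.piecewise c (ξ + c)) =
      (a ∪ v ∪ v').piecewise (v'.piecewise (-c) 0) ξ + c := by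
    intro ξ
    funext i
    by_cases h1 : i ∈ a
    · simp [rs, piecewise, h1, n2 i h1, hc i h1]
    · by_cases h2 : i ∈ v
      · simp [rs, piecewise, h1, h2, n3 i h2]
      · by_cases h3 : i ∈ v' <;> simp [rs, piecewise, h1, h2, h3]
  have e3 : ∀ x : S.G, (a ∪ v ⊆ S.Zs x ∧ a ∪ v' ⊆ S.Zs (x + c)) ↔
      ∀ i ∈ a ∪ v ∪ v', x i = v'.piecewise (-c) 0 i := by
    intro x
    constructor
    · rintro ⟨h1, h2⟩ i hi
      by_cases h3 : i ∈ v'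
      · have := (S.mem_Zs.1 (h2 (mem_union_right _ h3))).2
        rw [piecewise_eq_of_mem _ _ _ h3]
        exact eq_neg_of_add_eq_zero_left this
      · rw [piecewise_eq_of_notMem _ _ _ h3]
        exact (S.mem_Zs.1 (h1 ((mem_union.1 hi).resolve_right h3))).2
    · intro h
      constructor
      · intro i hi
        have h3 : i ∉ v' := (mem_union.1 hi).elim (n2 i) (n3 i)
        have := h i (mem_union_left _ hi)
        rw [piecewise_eq_of_notMem _ _ _ h3] at this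
        exact S.mem_Zs.2 ⟨union_subset haE hvE hi, this⟩
      · intro i hi
        refine S.mem_Zs.2 ⟨union_subset haE hvE' hi, ?_⟩
        rcases mem_union.1 hi with h1 | h1
        · have := h i (mem_union_left _ (mem_union_left _ h1))
          rw [piecewise_eq_of_notMem _ _ _ (n2 i h1)] at this
          rw [Pi.add_apply, this, hc i h1]
          simp
        · have := h i (mem_union_right _ h1)
          rw [piecewise_eq_of_mem _ _ _ h1] at this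
          rw [Pi.add_apply, this]
          simp
  have e4 : S.iv a * S.iv v * S.iv v' = S.iv (a ∪ v ∪ v') := by
    rw [S.iv_union (disjoint_union_left.2 ⟨hav', hd⟩), S.iv_union hav]
  simp only [ip, Fd, e1, e2, e3]
  rw [key, e4, nsmul_eq_mul, ← mul_assoc, iv]
  have hp : (S.pr (a ∪ v ∪ v') : ℂ) ≠ 0 := by exact_mod_cast (S.pr_pos _).ne'
  push_cast
  rw [inv_mul_cancel₀ hp, one_mul]

lemma II_indep {β : Type*} (v : Finset ι) (Ψ : (S.G → S.G) → β) :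
    S.Indep vᶜ fun c : S.G => Ψ fun ξ => v.piecewise c ξ := by
  intro c c' h
  have : (fun ξ : S.G => v.piecewise c ξ) = fun ξ => v.piecewise c' ξ := by
    funext ξ i
    by_cases hi : i ∈ v
    · rw [piecewise_eq_of_mem _ _ _ hi, piecewise_eq_of_mem _ _ _ hi]
      exact h i (by simpa using hi)
    · rw [piecewise_eq_of_notMem _ _ _ hi, piecewise_eq_of_notMem _ _ _ hi]
  simp only [this]

lemma II_card : (0 : ℝ) < Fintype.card S.G := by exact_mod_cast Fintype.card_pos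

lemma II_jav1 {r : ℕ} (hr : 2 ≤ r) {a v : Finset ι} (hv : v ∈ S.VV r a) {t : ℤ}
    (ht : IsCoprime (S.pr v : ℤ) t) (F : S.G → ℂ) :
    ∑ j ∈ S.JJ a, ‖S.kap a j‖ * S.nn (fun ξ => F (v.piecewise ((t * j : ℤ) : S.G) ξ) - F ξ)
      ≤ 16 * (S.Q : ℝ) ^ 4 * ∑ p ∈ v, S.IIvar p F := by
  refine (S.jav hr hv ht (Φ := fun c => S.nn fun ξ => F (v.piecewise c ξ) - F ξ)
    (fun c => S.nn_nonneg _)
    (S.II_indep v fun φ => S.nn fun ξ => F (φ ξ) - F ξ)).trans ?_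
  rw [S.sum_nn_piecewise_sub, inv_mul_cancel_left₀ S.II_card.ne']
  have h1 : S.nn F - S.nn (S.av v F) ≤ ∑ p ∈ v, S.IIvar p F := S.efron_stein v F
  have h2 : (0 : ℝ) ≤ (S.Q : ℝ) ^ 4 := by positivity
  nlinarith

lemma II_jav2 {r : ℕ} (hr : 2 ≤ r) {a v : Finset ι} (hv : v ∈ S.VV r a) {t : ℤ}
    (ht : IsCoprime (S.pr v : ℤ) t) (F : S.G → ℂ) :
    ∑ j ∈ S.JJ a, ‖S.kap a j‖ * S.nn (fun ξ => F (v.piecewise ((t * j : ℤ) : S.G) ξ))
      ≤ 16 * (S.Q : ℝ) ^ 4 * S.nn F := by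
  refine (S.jav hr hv ht (Φ := fun c => S.nn fun ξ => F (v.piecewise c ξ))
    (fun c => S.nn_nonneg _) (S.II_indep v fun φ => S.nn fun ξ => F (φ ξ))).trans ?_
  rw [S.sum_nn_piecewise, inv_mul_cancel_left₀ S.II_card.ne']
  have h1 := S.nn_nonneg F
  have h2 : (0 : ℝ) ≤ (S.Q : ℝ) ^ 4 := by positivity
  nlinarith

lemma II_jav3 (a : Finset ι) (F : S.G → ℂ) :
    ∑ j ∈ S.JJ a, ‖S.kap a j‖ * S.nn F ≤ 16 * (S.Q : ℝ) ^ 4 * S.nn F := by
  rw [← sum_mul]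
  refine mul_le_mul_of_nonneg_right ((S.sum_norm_kap_le a).trans ?_) (S.nn_nonneg F)
  have h1 : (2 : ℝ) ≤ S.Q := by exact_mod_cast S.Q_ge
  have h2 : (1 : ℝ) ≤ (S.Q : ℝ) ^ 2 := by nlinarith
  nlinarith

lemma II_ip_sub (G G' F F' : S.G → ℂ) :
    ‖S.ip G' F' - S.ip G F‖ ≤ √(S.nn fun ξ => G' ξ - G ξ) * √(S.nn F') +
      √(S.nn G) * √(S.nn fun ξ => F' ξ - F ξ) := by
  have e : S.ip G' F' - S.ip G F =
      S.ip (fun ξ => G' ξ - G ξ) F' + S.ip G fun ξ => F' ξ - F ξ := by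
    simp only [ip, ← sum_sub_distrib, ← sum_add_distrib, map_sub]
    exact sum_congr rfl fun ξ _ => by ring
  rw [e]
  exact (norm_add_le _ _).trans (add_le_add (S.norm_ip_le _ _) (S.norm_ip_le _ _))

lemma II_term {r : ℕ} (hr : 2 ≤ r) {a v v' : Finset ι} (ha : a ∈ S.AA r) (hv : v ∈ S.VV r a)
    (hv' : v' ∈ S.VV r a) (hd : Disjoint v v') (g f : S.G → ℂ) :
    ‖S.St a v v' g f - ((S.iv a * S.iv v * S.iv v' : ℝ) : ℂ) *
        S.IIMt a (S.Fd (a ∪ v) g) (S.Fd (a ∪ v') f)‖ ≤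
      S.iv a * S.iv v * S.iv v' *
          (√(16 * (S.Q : ℝ) ^ 4 * ∑ p ∈ v', S.IIvar p (S.Fd (a ∪ v) g)) *
            √(16 * (S.Q : ℝ) ^ 4 * S.nn (S.Fd (a ∪ v') f))) +
        S.iv a * S.iv v * S.iv v' *
          (√(16 * (S.Q : ℝ) ^ 4 * S.nn (S.Fd (a ∪ v) g)) *
            √(16 * (S.Q : ℝ) ^ 4 * ∑ p ∈ v, S.IIvar p (S.Fd (a ∪ v') f))) := by
  have hw : 0 ≤ S.iv a * S.iv v * S.iv v' :=
    (mul_pos (mul_pos (S.iv_pos a) (S.iv_pos v)) (S.iv_pos v')).le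
  rw [S.II_St ha hv hv' hd, ← mul_sub, norm_mul, Complex.norm_real, Real.norm_of_nonneg hw,
    ← mul_add, IIMt, ← sum_sub_distrib]
  refine mul_le_mul_of_nonneg_left ?_ hw
  generalize S.Fd (a ∪ v) g = G
  generalize S.Fd (a ∪ v') f = F
  have h1 : ∀ j ∈ S.JJ a, ‖S.kap a j *
      (S.ip (fun ξ => G (v'.piecewise (-((S.jp a * j : ℤ) : S.G)) ξ))
        fun ξ => F (v.piecewise ((S.jp a * j : ℤ) : S.G) (ξ + ((S.jp a * j : ℤ) : S.G)))) -
      S.kap a j * S.ip G fun ξ => F (ξ + ((S.jp a * j : ℤ) : S.G))‖ ≤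
      ‖S.kap a j‖ * (√(S.nn fun ξ => G (v'.piecewise ((-S.jp a * j : ℤ) : S.G) ξ) - G ξ) *
        √(S.nn fun ξ => F (v.piecewise ((S.jp a * j : ℤ) : S.G) ξ))) +
      ‖S.kap a j‖ * (√(S.nn G) *
        √(S.nn fun ξ => F (v.piecewise ((S.jp a * j : ℤ) : S.G) ξ) - F ξ)) := by
    intro j _
    rw [← mul_sub, norm_mul, ← mul_add]
    refine mul_le_mul_of_nonneg_left ((S.II_ip_sub _ _ _ _).trans (le_of_eq ?_)) (norm_nonneg _)
    have e : ((-S.jp a * j : ℤ) : S.G) = -((S.jp a * j : ℤ) : S.G) := by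
      rw [neg_mul, Int.cast_neg]
    rw [e, ← S.nn_tr (fun ξ => F (v.piecewise ((S.jp a * j : ℤ) : S.G) ξ))
        ((S.jp a * j : ℤ) : S.G),
      ← S.nn_tr (fun ξ => F (v.piecewise ((S.jp a * j : ℤ) : S.G) ξ) - F ξ)
        ((S.jp a * j : ℤ) : S.G)]
  refine (norm_sum_le _ _).trans ((sum_le_sum h1).trans ?_)
  rw [sum_add_distrib]
  refine add_le_add ?_ ?_
  · refine (cs_sqrt _ (fun j _ => norm_nonneg _) (fun j _ => S.nn_nonneg _)
      fun j _ => S.nn_nonneg _).trans ?_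
    exact mul_le_mul (Real.sqrt_le_sqrt (S.II_jav1 hr hv' (S.coprime_jp hv').neg_right G))
      (Real.sqrt_le_sqrt (S.II_jav2 hr hv (S.coprime_jp hv) F)) (Real.sqrt_nonneg _)
      (Real.sqrt_nonneg _)
  · refine (cs_sqrt _ (fun j _ => norm_nonneg _) (fun j _ => S.nn_nonneg _)
      fun j _ => S.nn_nonneg _).trans ?_
    exact mul_le_mul (Real.sqrt_le_sqrt (S.II_jav3 a G))
      (Real.sqrt_le_sqrt (S.II_jav1 hr hv (S.coprime_jp hv) F)) (Real.sqrt_nonneg _)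
      (Real.sqrt_nonneg _)

lemma II_Mt_le (a : Finset ι) (G F : S.G → ℂ) :
    ‖S.IIMt a G F‖ ≤ 2 * (S.Q : ℝ) ^ 2 * (√(S.nn G) * √(S.nn F)) := by
  refine (norm_sum_le _ _).trans (le_trans (sum_le_sum (g := fun j =>
    ‖S.kap a j‖ * (√(S.nn G) * √(S.nn F))) fun j _ => ?_) ?_)
  · rw [norm_mul]
    refine mul_le_mul_of_nonneg_left ((S.norm_ip_le _ _).trans (le_of_eq ?_)) (norm_nonneg _)
    rw [S.nn_tr]
  · rw [← sum_mul]
    exact mul_le_mul_of_nonneg_right (S.sum_norm_kap_le a) (by positivity)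

lemma II_cs3 (r : ℕ) {A B : Finset ι → Finset ι → Finset ι → ℝ} (hA : ∀ a v v', 0 ≤ A a v v')
    (hB : ∀ a v v', 0 ≤ B a v v') :
    ∑ a ∈ S.AA r, ∑ v ∈ S.VV r a, ∑ v' ∈ S.VV r a,
        S.iv a * S.iv v * S.iv v' * (√(A a v v') * √(B a v v')) ≤
      √(∑ a ∈ S.AA r, ∑ v ∈ S.VV r a, ∑ v' ∈ S.VV r a, S.iv a * S.iv v * S.iv v' * A a v v') *
      √(∑ a ∈ S.AA r, ∑ v ∈ S.VV r a, ∑ v' ∈ S.VV r a,
        S.iv a * S.iv v * S.iv v' * B a v v') := by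
  simp only [sum_sigma']
  exact cs_sqrt _ (fun x _ => (mul_pos (mul_pos (S.iv_pos _) (S.iv_pos _)) (S.iv_pos _)).le)
    (fun x _ => hA _ _ _) fun x _ => hB _ _ _

lemma II_var_nonneg (p : ι) (f : S.G → ℂ) : 0 ≤ S.IIvar p f := S.nn_nonneg _

lemma II_inner (r : ℕ) (a : Finset ι) (G : S.G → ℂ) :
    ∑ v' ∈ S.VV r a, S.iv v' * ∑ p ∈ v', S.IIvar p G ≤ S.Λ / S.H0 * S.inf G := by
  have e : ∀ v' ∈ S.VV r a, S.iv v' * ∑ p ∈ v', S.IIvar p G =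
      ∑ p ∈ S.E, (if p ∈ v' then S.iv v' else 0) * S.IIvar p G := by
    intro v' hv'
    simp only [ite_mul, zero_mul]
    rw [sum_ite_mem, inter_eq_right.2 (S.mem_VV.1 hv').1, mul_sum]
  rw [sum_congr rfl e, sum_comm, inf, mul_sum]
  refine sum_le_sum fun p _ => ?_
  rw [← sum_mul]
  refine mul_le_mul_of_nonneg_right ?_ (S.II_var_nonneg p G)
  rw [← sum_filter]
  refine le_trans (sum_le_sum_of_subset_of_nonneg ?_ fun v _ _ => (S.iv_pos v).le)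
    (S.sum_iv_mem_le (sdiff_subset (s := S.E) (t := a)) r p)
  exact filter_subset_filter _ (filter_subset _ _)

lemma II_sum1 {r : ℕ} (hr : r ≤ S.k) {g : S.G → ℂ} (hg : S.Supp g) {K : ℝ} (hK : 0 ≤ K) :
    ∑ a ∈ S.AA r, ∑ v ∈ S.VV r a, ∑ v' ∈ S.VV r a, S.iv a * S.iv v * S.iv v' *
      (K * ∑ p ∈ v', S.IIvar p (S.Fd (a ∪ v) g)) ≤
      K * S.Λ * S.D * S.D' * (S.inf g / S.H0) := by
  have hΛ : 0 ≤ S.Λ / S.H0 := div_nonneg (by linarith [S.big]) (by linarith [S.H0_big])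
  have h1 : ∀ a ∈ S.AA r, ∀ v ∈ S.VV r a, ∑ v' ∈ S.VV r a, S.iv a * S.iv v * S.iv v' *
      (K * ∑ p ∈ v', S.IIvar p (S.Fd (a ∪ v) g)) ≤
      K * (S.Λ / S.H0) * (S.iv (a ∪ v) * S.inf (S.Fd (a ∪ v) g)) := by
    intro a _ v hv
    have h2 := mul_le_mul_of_nonneg_left (S.II_inner r a (S.Fd (a ∪ v) g))
      (mul_nonneg hK (S.iv_pos (a ∪ v)).le)
    rw [mul_sum] at h2
    refine le_trans (le_of_eq (sum_congr rfl fun v' _ => ?_)) (h2.trans (le_of_eq (by ring)))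
    rw [S.iv_union (S.mem_VV.1 hv).2.1]
    ring
  refine (sum_le_sum fun a ha => sum_le_sum (h1 a ha)).trans ?_
  simp only [← mul_sum]
  have h3 := S.sum_AV_le hr (Φ := fun d => S.iv d * S.inf (S.Fd d g))
    fun d _ => mul_nonneg (S.iv_pos d).le (S.inf_nonneg _)
  have h4 := mul_le_mul_of_nonneg_left (S.sum_inf_Fd hg) (Nat.cast_nonneg S.D)
  refine (mul_le_mul_of_nonneg_left (h3.trans h4) (mul_nonneg hK hΛ)).trans (le_of_eq ?_)
  ring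

lemma II_sum2 {r : ℕ} (hr : r ≤ S.k) {g : S.G → ℂ} (hg : S.Supp g) {K : ℝ} (hK : 0 ≤ K) :
    ∑ a ∈ S.AA r, ∑ v ∈ S.VV r a, ∑ v' ∈ S.VV r a, S.iv a * S.iv v * S.iv v' *
      (K * S.nn (S.Fd (a ∪ v) g)) ≤ K * S.Λ * S.D * S.D' * S.nn g := by
  have hΛ : 0 ≤ S.Λ := by linarith [S.big]
  have h1 : ∀ a ∈ S.AA r, ∀ v ∈ S.VV r a, ∑ v' ∈ S.VV r a, S.iv a * S.iv v * S.iv v' *
      (K * S.nn (S.Fd (a ∪ v) g)) ≤
      K * S.Λ * (S.iv (a ∪ v) * S.nn (S.Fd (a ∪ v) g)) := by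
    intro a _ v hv
    have h2 := mul_le_mul_of_nonneg_left (S.sum_iv_VV_le r a)
      (mul_nonneg hK (mul_nonneg (S.iv_pos (a ∪ v)).le (S.nn_nonneg (S.Fd (a ∪ v) g))))
    rw [mul_sum] at h2
    refine le_trans (le_of_eq (sum_congr rfl fun v' _ => ?_)) (h2.trans (le_of_eq (by ring)))
    rw [S.iv_union (S.mem_VV.1 hv).2.1]
    ring
  refine (sum_le_sum fun a ha => sum_le_sum (h1 a ha)).trans ?_
  simp only [← mul_sum]
  have h3 := S.sum_AV_le hr (Φ := fun d => S.iv d * S.nn (S.Fd d g))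
    fun d _ => mul_nonneg (S.iv_pos d).le (S.nn_nonneg _)
  have h4 := mul_le_mul_of_nonneg_left (S.sum_nn_Fd hg) (Nat.cast_nonneg S.D)
  refine (mul_le_mul_of_nonneg_left (h3.trans h4) (mul_nonneg hK hΛ)).trans (le_of_eq ?_)
  ring

lemma II_swap (r : ℕ) (A : Finset ι → Finset ι → Finset ι → ℝ) :
    ∑ a ∈ S.AA r, ∑ v ∈ S.VV r a, ∑ v' ∈ S.VV r a, S.iv a * S.iv v * S.iv v' * A a v' v =
      ∑ a ∈ S.AA r, ∑ v ∈ S.VV r a, ∑ v' ∈ S.VV r a, S.iv a * S.iv v * S.iv v' * A a v v' := by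
  refine sum_congr rfl fun a _ => ?_
  rw [sum_comm]
  exact sum_congr rfl fun v _ => sum_congr rfl fun v' _ => by ring

lemma II_sqrt {C x y X Y : ℝ} (hC : 0 ≤ C) (hX : X ≤ C * x) (hY : Y ≤ C * y) :
    √X * √Y ≤ C * (√x * √y) := by
  refine (mul_le_mul (Real.sqrt_le_sqrt hX) (Real.sqrt_le_sqrt hY) (Real.sqrt_nonneg _)
    (Real.sqrt_nonneg _)).trans (le_of_eq ?_)
  rw [Real.sqrt_mul hC, Real.sqrt_mul hC, mul_mul_mul_comm, Real.mul_self_sqrt hC]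

theorem SS_sub_MK {r : ℕ} (hr2 : 2 ≤ r) (hr : r ≤ S.k) {g f : S.G → ℂ} (hg : S.Supp g)
    (hf : S.Supp f) :
    ‖S.SS r g f - S.MK r g f‖ ≤ 16 * (S.Q : ℝ) ^ 4 * S.Λ * S.D * S.D' *
        (√(S.inf g / S.H0) * √(S.nn f) + √(S.nn g) * √(S.inf f / S.H0))
      + 2 * (S.Q : ℝ) ^ 2 * (S.Λ ^ 2 / S.H0 * S.D * S.D' * (√(S.nn g) * √(S.nn f))) := by
  have hK : (0 : ℝ) ≤ 16 * (S.Q : ℝ) ^ 4 := by positivity
  have hΛ : 0 ≤ S.Λ := by linarith [S.big]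
  have hC : 0 ≤ 16 * (S.Q : ℝ) ^ 4 * S.Λ * S.D * S.D' := by positivity
  have hvar : ∀ (v : Finset ι) (F : S.G → ℂ), 0 ≤ 16 * (S.Q : ℝ) ^ 4 * ∑ p ∈ v, S.IIvar p F :=
    fun v F => mul_nonneg hK (sum_nonneg fun p _ => S.II_var_nonneg p F)
  have hnn : ∀ F : S.G → ℂ, 0 ≤ 16 * (S.Q : ℝ) ^ 4 * S.nn F :=
    fun F => mul_nonneg hK (S.nn_nonneg F)
  have h1 : ∀ a ∈ S.AA r, ∀ v ∈ S.VV r a, ∀ v' ∈ S.VV r a,
      ‖(if Disjoint v v' then S.St a v v' g f else 0) - ((S.iv a * S.iv v * S.iv v' : ℝ) : ℂ) *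
        S.IIMt a (S.Fd (a ∪ v) g) (S.Fd (a ∪ v') f)‖ ≤
      S.iv a * S.iv v * S.iv v' *
          (√(16 * (S.Q : ℝ) ^ 4 * ∑ p ∈ v', S.IIvar p (S.Fd (a ∪ v) g)) *
            √(16 * (S.Q : ℝ) ^ 4 * S.nn (S.Fd (a ∪ v') f))) +
        S.iv a * S.iv v * S.iv v' *
          (√(16 * (S.Q : ℝ) ^ 4 * S.nn (S.Fd (a ∪ v) g)) *
            √(16 * (S.Q : ℝ) ^ 4 * ∑ p ∈ v, S.IIvar p (S.Fd (a ∪ v') f))) +
        2 * (S.Q : ℝ) ^ 2 * (if Disjoint v v' then 0 else S.iv a * S.iv v * S.iv v' *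
          (√(S.nn (S.Fd (a ∪ v) g)) * √(S.nn (S.Fd (a ∪ v') f)))) := by
    intro a ha v hv v' hv'
    have hw : 0 ≤ S.iv a * S.iv v * S.iv v' :=
      (mul_pos (mul_pos (S.iv_pos a) (S.iv_pos v)) (S.iv_pos v')).le
    by_cases hd : Disjoint v v'
    · rw [if_pos hd, if_pos hd, mul_zero, add_zero]
      exact S.II_term hr2 ha hv hv' hd g f
    · rw [if_neg hd, if_neg hd, zero_sub, norm_neg, norm_mul, Complex.norm_real,
        Real.norm_of_nonneg hw]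
      refine le_trans ?_ (le_add_of_nonneg_left (by positivity))
      rw [mul_left_comm]
      exact mul_le_mul_of_nonneg_left (S.II_Mt_le _ _ _) hw
  rw [S.II_MK, SS]
  simp only [← sum_sub_distrib]
  refine (norm_sum_le _ _).trans ((sum_le_sum fun a ha => (norm_sum_le _ _).trans
    (sum_le_sum fun v hv => (norm_sum_le _ _).trans (sum_le_sum (h1 a ha v hv)))).trans ?_)
  simp only [sum_add_distrib]
  rw [mul_add]
  refine add_le_add (add_le_add ?_ ?_) ?_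
  · refine (S.II_cs3 r (fun a v v' => hvar _ _) fun a v v' => hnn _).trans
      (II_sqrt hC (S.II_sum1 hr hg hK) ?_)
    rw [S.II_swap r fun a v _ => 16 * (S.Q : ℝ) ^ 4 * S.nn (S.Fd (a ∪ v) f)]
    exact S.II_sum2 hr hf hK
  · refine (S.II_cs3 r (fun a v v' => hnn _) fun a v v' => hvar _ _).trans
      (II_sqrt hC (S.II_sum2 hr hg hK) ?_)
    rw [S.II_swap r fun a v v' => 16 * (S.Q : ℝ) ^ 4 * ∑ p ∈ v', S.IIvar p (S.Fd (a ∪ v) f)]
    exact S.II_sum1 hr hf hK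
  · simp only [← mul_sum]
    exact mul_le_mul_of_nonneg_left (S.overlap_le hr hg hf) (by positivity)

end Sys

end Pool.Agent.Work.MP_678620_nt
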