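import Pool.Agent.Work.MP_678620_nt.SPLemB

/-! Decoupling the zero set in the dual function. -/

set_option autoImplicit false
open Finset Pool.Agent.Lib.LargeSieve

namespace Pool.Agent.Work.MP_678620_nt

lemma dec_class_card (N : Finset ℕ) {m : ℕ} (hm : 0 < m) {X : ℝ} (hX : 0 ≤ X)
    (h1 : ∀ n ∈ N, X ≤ n ∧ (n : ℝ) ≤ 2 * X) (h2 : ∀ n ∈ N, ∀ n' ∈ N, n ≡ n' [MOD m]) :
    (N.card : ℝ) ≤ X / m + 1 := by
  have hm' : (0 : ℝ) < m := by exact_mod_cast hm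
  rcases N.eq_empty_or_nonempty with rfl | hne
  · simp only [card_empty, Nat.cast_zero]
    positivity
  set n0 := N.min' hne with hn0
  have h0 : n0 ∈ N := N.min'_mem hne
  have e : ∀ n ∈ N, n = n0 + m * ((n - n0) / m) := by
    intro n hn
    have hle : n0 ≤ n := N.min'_le n hn
    rw [Nat.mul_div_cancel' ((Nat.modEq_iff_dvd' hle).1 (h2 n0 h0 n hn))]
    omega
  have hc : N.card ≤ (range (⌊X / m⌋₊ + 1)).card := by
    refine card_le_card_of_injOn (fun n => (n - n0) / m) (fun n hn => ?_) fun n hn n' hn' h => ?_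
    · have hn' : n ∈ N := hn
      refine mem_coe.2 (mem_range.2 (Nat.lt_succ_of_le (Nat.le_floor ?_)))
      rw [le_div_iff₀ hm']
      have e' : (n : ℝ) = n0 + m * (((n - n0) / m : ℕ) : ℝ) := by exact_mod_cast e n hn'
      linarith only [e', (h1 n hn').2, (h1 n0 h0).1]
    · have h' : (n - n0) / m = (n' - n0) / m := h
      exact (e n hn).trans (h' ▸ (e n' hn').symm)
  rw [card_range] at hc
  have h3 : (N.card : ℝ) ≤ ⌊X / m⌋₊ + 1 := by exact_mod_cast hc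
  linarith only [h3, hX, hm', Nat.floor_le (div_nonneg hX hm'.le)]

namespace Sys

variable {ι : Type} [Fintype ι] [DecidableEq ι] (S : Sys ι)

lemma dec_class {r : ℕ} (hr1 : 1 ≤ r) {a : Finset ι} {p : ι} (hp : p ∈ S.E) (hpa : p ∉ a)
    (c : ZMod (S.m p)) :
    ∑ v ∈ (S.VV r a).filter (fun v => (-(S.jp (a ∪ v) : S.G)) p = c), S.iv v ≤ 3 / S.H0 := by
  set V := (S.VV r a).filter (fun v => (-(S.jp (a ∪ v) : S.G)) p = c) with hV
  have hH : (1 : ℝ) ≤ S.H0 := le_trans (by norm_num) S.H0_big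
  have hH0 : 0 < S.H0 := by linarith
  rcases V.eq_empty_or_nonempty with h0 | ⟨v0, hv0⟩
  · rw [h0, sum_empty]
    positivity
  have hA : (0 : ℝ) < S.pr a := by exact_mod_cast S.pr_pos a
  have hT : (0 : ℝ) < S.T := by exact_mod_cast S.T_pos
  set X : ℝ := S.T / S.pr a with hX
  have hX0 : 0 < X := div_pos hT hA
  have hb : ∀ v ∈ V, X ≤ S.pr v ∧ (S.pr v : ℝ) ≤ 2 * X := by
    intro v hv
    obtain ⟨-, h2, -, h4⟩ := S.mem_VV.1 (mem_filter.1 hv).1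
    have h5 : S.T ≤ S.pr a * S.pr v := S.pr_union h2 ▸ S.DD_lo _ h4
    have h6 : S.pr a * S.pr v ≤ 2 * S.T := S.pr_union h2 ▸ S.DD_hi _ h4
    have h7 : (S.T : ℝ) ≤ S.pr a * S.pr v := by exact_mod_cast h5
    have h8 : (S.pr a : ℝ) * S.pr v ≤ 2 * S.T := by exact_mod_cast h6
    rw [hX, div_le_iff₀ hA, ← mul_div_assoc, le_div_iff₀ hA]
    constructor <;> linarith only [h7, h8]
  have hcard : (V.card : ℝ) ≤ X / S.m p + 1 := by
    rw [← card_image_of_injOn (f := S.pr) fun v hv v' hv' h =>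
      S.pr_inj (S.mem_VV.1 (mem_filter.1 hv).1).1 (S.mem_VV.1 (mem_filter.1 hv').1).1 h]
    refine dec_class_card _ (S.m_pos p) hX0.le (fun n hn => ?_) fun n hn n' hn' => ?_
    · obtain ⟨v, hv, rfl⟩ := mem_image.1 hn
      exact hb v hv
    · obtain ⟨v, hv, rfl⟩ := mem_image.1 hn
      obtain ⟨v', hv', rfl⟩ := mem_image.1 hn'
      obtain ⟨h1, h2⟩ := mem_filter.1 hv
      obtain ⟨h1', h2'⟩ := mem_filter.1 hv'
      have h3 : ((S.jp (a ∪ v) : ℤ) : ZMod (S.m p)) = (S.jp (a ∪ v') : ℤ) :=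
        neg_injective (h2.trans h2'.symm)
      rw [ZMod.intCast_eq_intCast_iff_dvd_sub, S.jp_union (S.mem_VV.1 h1).2.1,
        S.jp_union (S.mem_VV.1 h1').2.1, ← mul_sub] at h3
      have hpr : Prime (S.m p : ℤ) := Nat.prime_iff_prime_int.1 (S.prime p hp)
      rw [Nat.modEq_iff_dvd]
      refine (hpr.dvd_or_dvd h3).resolve_left fun h4 => ?_
      rcases hpr.dvd_or_dvd h4 with h5 | h5
      · exact hpa ((S.m_dvd_pr hp).1 (by exact_mod_cast h5))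
      · exact S.not_dvd_h hp h5
  have h1 : ∑ v ∈ V, S.iv v ≤ V.card * X⁻¹ := by
    rw [← nsmul_eq_mul]
    exact sum_le_card_nsmul _ _ _ fun v hv => inv_anti₀ hX0 (hb v hv).1
  have hm : (0 : ℝ) < S.m p := by exact_mod_cast S.m_pos p
  have h2 : (X / S.m p + 1) * X⁻¹ = S.nu p + X⁻¹ := by
    unfold nu
    field_simp
  have h3 : X⁻¹ ≤ 2 / S.H0 := by
    obtain ⟨h4, -, h5, -⟩ := S.mem_VV.1 (mem_filter.1 hv0).1
    have h6 := S.H0_pow_le_pr h4
    have h7 : S.H0 ≤ S.H0 ^ v0.card := le_self_pow₀ hH (by omega)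
    rw [inv_eq_one_div, div_le_div_iff₀ hX0 hH0]
    linarith only [h6, h7, (hb v0 hv0).2]
  have h4 := S.nu_le hp
  have h5 := mul_le_mul_of_nonneg_right hcard (inv_pos.2 hX0).le
  have h6 : 3 / S.H0 = S.H0⁻¹ + 2 / S.H0 := by ring
  linarith only [h1, h2, h3, h4, h5, h6]

/-- One term of the dual function. -/
noncomputable def decU (u : S.G → ℂ) (a v : Finset ι) (ξ : S.G) : ℂ :=
  S.av v u (ξ - (S.jp (a ∪ v) : S.G))

lemma decU_eq (u : S.G → ℂ) (a v : Finset ι) :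
    S.decU u a v = fun ξ => S.av v u (ξ + -(S.jp (a ∪ v) : S.G)) := by
  funext ξ
  rw [decU, sub_eq_add_neg]

lemma decU_indep {u : S.G → ℂ} {a : Finset ι} (hu : S.Indep a u) (v : Finset ι) :
    S.Indep (a ∪ v) (S.decU u a v) := by
  rw [decU_eq]
  exact ((hu.av v).union (S.indep_av v u)).tr _

lemma dec_one (u : S.G → ℂ) {v : Finset ι} {p : ι} (hp : p ∉ v) (c : S.G) :
    S.nn (fun ξ => S.av v u (S.rs {p} ξ + c) - S.av v u (ξ + c))
      ≤ 2 * S.nn (fun ξ => u (Function.update ξ p (c p)) - S.av {p} u ξ)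
        + 2 * S.nn fun ξ => u ξ - S.av {p} u ξ := by
  have e : ∀ ξ : S.G, S.rs {p} ξ + c = ({p} : Finset ι).piecewise c (ξ + c) := by
    intro ξ
    funext i
    by_cases hi : i ∈ ({p} : Finset ι)
    · simp [rs, hi]
    · simp [rs, hi]
  simp only [e]
  rw [S.nn_tr (fun ξ => S.av v u (({p} : Finset ι).piecewise c ξ) - S.av v u ξ) c]
  have h1 := S.nn_av_le v fun ξ => u (({p} : Finset ι).piecewise c ξ) - S.av {p} u ξ
  have h2 := S.nn_av_le v fun ξ => u ξ - S.av {p} u ξ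
  rw [S.av_sub, S.av_piecewise (disjoint_singleton_right.2 hp)] at h1
  rw [S.av_sub] at h2
  simp only [piecewise_singleton] at h1 ⊢
  refine le_trans ?_ (add_le_add (mul_le_mul_of_nonneg_left h1 zero_le_two)
    (mul_le_mul_of_nonneg_left h2 zero_le_two))
  unfold nn
  rw [mul_sum, mul_sum, ← sum_add_distrib]
  refine sum_le_sum fun ξ _ => ?_
  have h3 := norm_add_sq_le (S.av v u (Function.update ξ p (c p)) - S.av v (S.av {p} u) ξ)
    (-(S.av v u ξ - S.av v (S.av {p} u) ξ))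
  rw [norm_neg] at h3
  refine le_trans (le_of_eq ?_) h3
  congr 2
  ring

lemma dec_devB {r : ℕ} (hr1 : 1 ≤ r) {a : Finset ι} {u : S.G → ℂ} (hu : S.Indep a u) :
    ∑ v ∈ S.VV r a, S.iv v * S.devB (S.decU u a v) ≤ 3 * S.Λ / S.H0 * S.inf u := by
  have hH0 : 0 < S.H0 := lt_of_lt_of_le (by norm_num) S.H0_big
  unfold devB inf
  simp only [mul_sum]
  rw [sum_comm]
  refine sum_le_sum fun p hp => ?_
  set Va : ℝ := S.nn fun ξ => u ξ - S.av {p} u ξ with hVa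
  have hVa0 : 0 ≤ Va := S.nn_nonneg _
  have hΛ := S.big
  have hz : ∀ v, p ∈ a ∪ v →
      (S.nn fun ξ => S.decU u a v (S.rs {p} ξ) - S.decU u a v ξ) = 0 := by
    intro v hv
    have h := (S.decU_indep hu v).mono (singleton_subset_iff.2 hv)
    simp [h.rs, nn]
  by_cases hpa : p ∈ a
  · rw [sum_eq_zero fun v _ => by rw [hz v (mem_union_left _ hpa), mul_zero, mul_zero]]
    positivity
  set W : ZMod (S.m p) → ℝ := fun c => S.nn fun ξ => u (Function.update ξ p c) - S.av {p} u ξ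
    with hW
  have hW0 : ∀ c, 0 ≤ W c := fun c => S.nn_nonneg _
  have h1 : ∑ v ∈ S.VV r a, S.iv v * (S.nu p *
      S.nn fun ξ => S.decU u a v (S.rs {p} ξ) - S.decU u a v ξ) ≤
      ∑ v ∈ S.VV r a, (2 * S.nu p * (S.iv v * W ((-(S.jp (a ∪ v) : S.G)) p)) +
        2 * S.nu p * Va * S.iv v) := by
    refine sum_le_sum fun v _ => ?_
    have hi := S.iv_pos v
    have hn := S.nu_pos p
    by_cases hv : p ∈ v
    · rw [hz v (mem_union_right _ hv), mul_zero, mul_zero]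
      have := hW0 ((-(S.jp (a ∪ v) : S.G)) p)
      positivity
    · have h := S.dec_one u hv (-(S.jp (a ∪ v) : S.G))
      rw [decU_eq]
      refine (mul_le_mul_of_nonneg_left (mul_le_mul_of_nonneg_left h hn.le) hi.le).trans_eq ?_
      ring
  rw [sum_add_distrib, ← mul_sum, ← mul_sum] at h1
  have h2 : ∑ v ∈ S.VV r a, S.iv v * W ((-(S.jp (a ∪ v) : S.G)) p) ≤ 3 / S.H0 * (S.m p * Va) := by
    rw [hVa, ← S.sum_update p u, mul_sum,
      ← sum_fiberwise (S.VV r a) fun v => (-(S.jp (a ∪ v) : S.G)) p]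
    refine sum_le_sum fun c _ => ?_
    rw [sum_congr rfl fun v hv => by rw [(mem_filter.1 hv).2], ← sum_mul]
    exact mul_le_mul_of_nonneg_right (S.dec_class hr1 hp hpa c) (hW0 c)
  have hm : (0 : ℝ) < S.m p := by exact_mod_cast S.m_pos p
  have h3 : 2 * S.nu p * (3 / S.H0 * (S.m p * Va)) = 6 * (S.H0⁻¹ * Va) := by
    unfold nu
    field_simp
    ring
  have h4 := mul_le_mul_of_nonneg_left h2 (mul_pos two_pos (S.nu_pos p)).le
  have h5 : 2 * S.nu p * Va * ∑ v ∈ S.VV r a, S.iv v ≤ 2 * S.H0⁻¹ * Va * S.Λ :=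
    mul_le_mul (mul_le_mul_of_nonneg_right (mul_le_mul_of_nonneg_left (S.nu_le hp) zero_le_two) hVa0)
      (S.sum_iv_VV_le r a) (sum_nonneg fun v _ => (S.iv_pos v).le) (by positivity)
  have h6 : 0 ≤ S.H0⁻¹ * Va := by positivity
  have h7 : 3 * S.Λ / S.H0 * Va = 3 * S.Λ * (S.H0⁻¹ * Va) := by ring
  rw [h7]
  nlinarith only [h1, h3, h4, h5, h6, hΛ]

lemma dec_pairs {r : ℕ} (hr : r ≤ S.k) {z : Finset ι} (hz : z.card = S.s + S.k')
    (x : Finset ι → Finset ι → ℂ) :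
    ‖∑ a ∈ S.AA r, ∑ v ∈ S.VV r a, if a ∪ v ⊆ z then x a v else 0‖ ^ 2
      ≤ S.D * S.D' * ∑ a ∈ S.AA r, ∑ v ∈ S.VV r a, if a ∪ v ⊆ z then ‖x a v‖ ^ 2 else 0 := by
  have h := norm_sq_wsum ((S.AA r).sigma (S.VV r))
    (w := fun q => if q.1 ∪ q.2 ⊆ z then (1 : ℝ) else 0)
    (fun q _ => by positivity) fun q => x q.1 q.2
  simp only [sum_sigma] at h
  have h1 : ∑ a ∈ S.AA r, ∑ v ∈ S.VV r a, (if a ∪ v ⊆ z then (1 : ℝ) else 0) ≤ S.D * S.D' := by
    refine (S.sum_AV_le hr (Φ := fun d => if d ⊆ z then (1 : ℝ) else 0)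
      fun d _ => by positivity).trans (mul_le_mul_of_nonneg_left ?_ (Nat.cast_nonneg _))
    rw [sum_boole]
    exact_mod_cast S.card_DD_sub hz.le
  have e1 : ∀ a v, (((if a ∪ v ⊆ z then (1 : ℝ) else 0 : ℝ) : ℂ)) * x a v =
      if a ∪ v ⊆ z then x a v else 0 := fun a v => by split_ifs <;> simp
  simp only [e1, ite_mul, one_mul, zero_mul] at h
  exact h.trans (mul_le_mul_of_nonneg_right h1
    (sum_nonneg fun a _ => sum_nonneg fun v _ => by positivity))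

theorem dec_YY {r : ℕ} (hr1 : 1 ≤ r) (hr : r ≤ S.k) {u : Finset ι → S.G → ℂ}
    (hu : ∀ a ∈ S.AA r, S.Indep a (u a)) :
    ∑ y, (if (S.Zs y).card = S.s + S.k' then ‖S.YY r u y‖ ^ 2 else 0)
      ≤ 2 * S.Λ ^ 2 * ∑ z ∈ S.E.powersetCard (S.s + S.k'), S.Pz z * S.nn (S.YZ r u z)
        + 12 * S.Λ ^ 4 / S.H0 * S.D * S.D' * ∑ a ∈ S.AA r, S.iv a * S.inf (u a) := by
  set Ψ : Finset ι → Finset ι → Finset ι → ℝ := fun a v z =>
    ∑ ξ ∈ S.Gx, ‖S.decU (u a) a v (S.rs z ξ) - S.decU (u a) a v ξ‖ ^ 2 with hΨ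
  have hΨ0 : ∀ a v z, 0 ≤ Ψ a v z := fun a v z => sum_nonneg fun ξ _ => by positivity
  have hvp : 0 < S.vp⁻¹ := inv_pos.2 S.vp_pos
  have hDD : (0 : ℝ) ≤ S.D * S.D' := by positivity
  have hΛ : 0 < S.Λ := lt_of_lt_of_le (by norm_num) S.big
  have e0 := S.coupling_class (S.s + S.k') fun z x => ‖S.YZ r u z x‖ ^ 2
  simp only [smul_eq_mul] at e0
  have h1 : ∀ z ∈ S.E.powersetCard (S.s + S.k'), ∑ ξ ∈ S.Gx, ‖S.YZ r u z (S.rs z ξ)‖ ^ 2 ≤
      2 * S.nn (S.YZ r u z) + 2 * (S.D * S.D') *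
        ∑ a ∈ S.AA r, ∑ v ∈ S.VV r a, if a ∪ v ⊆ z then Ψ a v z else 0 := by
    intro z hz
    have h2 : ∀ ξ : S.G, ‖S.YZ r u z (S.rs z ξ)‖ ^ 2 ≤ 2 * ‖S.YZ r u z ξ‖ ^ 2 +
        2 * (S.D * S.D') * ∑ a ∈ S.AA r, ∑ v ∈ S.VV r a, if a ∪ v ⊆ z then
          ‖S.decU (u a) a v (S.rs z ξ) - S.decU (u a) a v ξ‖ ^ 2 else 0 := by
      intro ξ
      have h3 := S.dec_pairs hr (mem_powersetCard.1 hz).2
        fun a v => S.decU (u a) a v (S.rs z ξ) - S.decU (u a) a v ξ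
      have h4 := norm_add_sq_le (S.YZ r u z ξ) (∑ a ∈ S.AA r, ∑ v ∈ S.VV r a,
        if a ∪ v ⊆ z then S.decU (u a) a v (S.rs z ξ) - S.decU (u a) a v ξ else 0)
      have e : S.YZ r u z ξ + (∑ a ∈ S.AA r, ∑ v ∈ S.VV r a,
          if a ∪ v ⊆ z then S.decU (u a) a v (S.rs z ξ) - S.decU (u a) a v ξ else 0) =
          S.YZ r u z (S.rs z ξ) := by
        unfold YZ decU
        simp only [← sum_add_distrib]
        refine sum_congr rfl fun a _ => sum_congr rfl fun v _ => ?_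
        split_ifs <;> ring
      rw [e] at h4
      linarith only [h3, h4]
    refine (sum_le_sum fun ξ _ => h2 ξ).trans ?_
    rw [sum_add_distrib, ← mul_sum, ← mul_sum]
    refine add_le_add (mul_le_mul_of_nonneg_left
      (sum_le_sum_of_subset_of_nonneg (subset_univ _) fun ξ _ _ => by positivity) zero_le_two)
      (le_of_eq ?_)
    congr 1
    rw [sum_comm]
    refine sum_congr rfl fun a _ => ?_
    rw [sum_comm]
    refine sum_congr rfl fun v _ => ?_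
    split_ifs
    · rfl
    · simp
  have h2 : S.vp⁻¹ * ∑ z ∈ S.E.powersetCard (S.s + S.k'), S.Pz z *
      ∑ a ∈ S.AA r, ∑ v ∈ S.VV r a, (if a ∪ v ⊆ z then Ψ a v z else 0) ≤
      6 * S.Λ ^ 4 / S.H0 * ∑ a ∈ S.AA r, S.iv a * S.inf (u a) := by
    have h3 : ∑ z ∈ S.E.powersetCard (S.s + S.k'), S.Pz z *
        ∑ a ∈ S.AA r, ∑ v ∈ S.VV r a, (if a ∪ v ⊆ z then Ψ a v z else 0) ≤
        ∑ z ∈ S.E.powerset, S.Pz z *
          ∑ a ∈ S.AA r, ∑ v ∈ S.VV r a, (if a ∪ v ⊆ z then Ψ a v z else 0) :=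
      sum_le_sum_of_subset_of_nonneg (fun z hz => mem_powerset.2 (mem_powersetCard.1 hz).1)
        fun z _ _ => mul_nonneg (S.Pz_nonneg z) (sum_nonneg fun a _ => sum_nonneg fun v _ => by
          have := hΨ0 a v z
          positivity)
    refine (mul_le_mul_of_nonneg_left h3 hvp.le).trans ?_
    simp only [mul_sum (S.AA r)]
    rw [sum_comm, mul_sum]
    refine sum_le_sum fun a ha => ?_
    simp only [mul_sum (S.VV r a)]
    rw [sum_comm, mul_sum]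
    have h4 : ∀ v ∈ S.VV r a, S.vp⁻¹ * ∑ z ∈ S.E.powerset, S.Pz z *
        (if a ∪ v ⊆ z then Ψ a v z else 0) ≤
        2 * S.Λ ^ 3 * S.iv a * (S.iv v * S.devB (S.decU (u a) a v)) := by
      intro v hv
      obtain ⟨-, h5, -, h6⟩ := S.mem_VV.1 hv
      rw [S.Pz_cond (S.DD_sub _ h6) (Ψ a v) fun z => ?_, mul_left_comm, S.iv_union h5]
      · refine (mul_le_mul_of_nonneg_left (S.lemB (S.decU (u a) a v))
          (mul_pos (S.iv_pos a) (S.iv_pos v)).le).trans_eq ?_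
        ring
      · refine sum_congr rfl fun ξ _ => ?_
        rw [S.decU_indep (hu a ha) v (S.rs (z ∪ (a ∪ v)) ξ) (S.rs z ξ) fun i hi => ?_]
        have : i ∈ z ∪ (a ∪ v) ↔ i ∈ z := by rw [mem_union, or_iff_left hi]
        simp only [rs, this]
    refine (sum_le_sum h4).trans ?_
    rw [← mul_sum]
    refine (mul_le_mul_of_nonneg_left (S.dec_devB hr1 (hu a ha))
      (by have := S.iv_pos a; positivity)).trans_eq ?_
    ring
  have h3 : S.vp⁻¹ * ∑ z ∈ S.E.powersetCard (S.s + S.k'), S.Pz z * S.nn (S.YZ r u z) ≤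
      S.Λ ^ 2 * ∑ z ∈ S.E.powersetCard (S.s + S.k'), S.Pz z * S.nn (S.YZ r u z) :=
    mul_le_mul_of_nonneg_right S.vp_inv_le
      (sum_nonneg fun z _ => mul_nonneg (S.Pz_nonneg z) (S.nn_nonneg _))
  have h4 := mul_le_mul_of_nonneg_left (sum_le_sum fun z hz =>
    mul_le_mul_of_nonneg_left (h1 z hz) (S.Pz_nonneg z)) hvp.le
  have h5 := mul_le_mul_of_nonneg_left h2 hDD
  have e1 : ∑ z ∈ S.E.powersetCard (S.s + S.k'), S.Pz z * (2 * S.nn (S.YZ r u z) +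
      2 * (S.D * S.D') * ∑ a ∈ S.AA r, ∑ v ∈ S.VV r a, if a ∪ v ⊆ z then Ψ a v z else 0) =
      2 * (∑ z ∈ S.E.powersetCard (S.s + S.k'), S.Pz z * S.nn (S.YZ r u z)) +
      2 * (S.D * S.D') * ∑ z ∈ S.E.powersetCard (S.s + S.k'), S.Pz z *
        ∑ a ∈ S.AA r, ∑ v ∈ S.VV r a, (if a ∪ v ⊆ z then Ψ a v z else 0) := by
    rw [mul_sum, mul_sum, ← sum_add_distrib]
    exact sum_congr rfl fun z _ => by ring
  rw [e1, ← e0] at h4
  refine le_trans (le_of_eq rfl) (h4.trans ?_)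
  have e2 : 12 * S.Λ ^ 4 / S.H0 * S.D * S.D' * ∑ a ∈ S.AA r, S.iv a * S.inf (u a) =
      2 * (S.D * S.D' * (6 * S.Λ ^ 4 / S.H0 * ∑ a ∈ S.AA r, S.iv a * S.inf (u a))) := by ring
  rw [e2]
  linarith only [h3, h5]

end Sys

end Pool.Agent.Work.MP_678620_nt
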