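import Pool.Agent.Work.MP_678620_nt.SPAv

/-! Sums over the dilation sets, and the use of goodness. -/

set_option autoImplicit false
open Finset Pool.Agent.Lib.LargeSieve

namespace Pool.Agent.Work.MP_678620_nt

namespace Sys

variable {ι : Type} [Fintype ι] [DecidableEq ι] (S : Sys ι)

lemma lemA_key {d : Finset ι} (hd : d ⊆ S.E) (Φ : S.G → ℝ) :
    S.iv d * ∑ ξ, Φ (S.rs d ξ + (S.jp d : S.G)) = ∑ y, if d ⊆ S.Zs y then Φ y else 0 := by
  have h1 := S.sum_rs hd fun ξ => Φ (ξ + (S.jp d : S.G))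
  have h2 := S.sum_add_right (fun y => if d ⊆ S.Zs y then Φ y else 0) (S.jp d : S.G)
  simp only [S.sub_Zs_add fun p hp => S.jp_apply' hp] at h2
  have h0 : (S.pr d : ℝ) ≠ 0 := by exact_mod_cast (S.pr_pos d).ne'
  rw [h1, h2, nsmul_eq_mul, iv, ← mul_assoc, inv_mul_cancel₀ h0, one_mul]

lemma lemA_count {D0 : Finset (Finset ι)} (hD : D0 ⊆ S.DD) {Φ : S.G → ℝ} (h0 : ∀ y, 0 ≤ Φ y)
    {B : ℕ} (hB : ∀ y, Φ y ≠ 0 → (D0.filter fun d => d ⊆ S.Zs y).card ≤ B) :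
    ∑ d ∈ D0, S.iv d * ∑ ξ, Φ (S.rs d ξ + (S.jp d : S.G)) ≤ B * ∑ y, Φ y := by
  rw [sum_congr rfl fun d hd => S.lemA_key (S.DD_sub d (hD hd)) Φ, sum_comm, mul_sum]
  refine sum_le_sum fun y _ => ?_
  rw [← sum_filter, sum_const, nsmul_eq_mul]
  by_cases hy : Φ y = 0
  · rw [hy, mul_zero, mul_zero]
  · exact mul_le_mul_of_nonneg_right (by exact_mod_cast hB y hy) (h0 y)

lemma lemA_erase (y : S.G) (p : ι) (c : ZMod (S.m p)) :
    (S.Zs (Function.update y p c)).erase p = (S.Zs y).erase p := by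
  ext q
  simp only [mem_erase, S.mem_Zs]
  refine and_congr_right fun hq => ?_
  rw [Function.update_of_ne hq]

lemma lemA_cg {f : S.G → ℂ} (hf : S.Supp f) {p : ι} {y : S.G} {c : ZMod (S.m p)}
    (h : ‖f (Function.update y p c) - S.av {p} f y‖ ^ 2 ≠ 0) :
    ∃ c0, S.Cg (Function.update y p c0) := by
  by_contra hc
  have h0 : ∀ c0, f (Function.update y p c0) = 0 := fun c0 => by
    by_contra hne
    exact hc ⟨c0, hf _ hne⟩
  apply h
  rw [S.av_single, h0]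
  simp [h0]

lemma lemA_cg' {f : S.G → ℂ} (hf : S.Supp f) {p : ι} {y : S.G}
    (h : ‖f y - S.av {p} f y‖ ^ 2 ≠ 0) : ∃ c0, S.Cg (Function.update y p c0) :=
  S.lemA_cg hf (c := y p) (by rwa [Function.update_eq_self])

lemma lemA_sub {y : S.G} {p : ι} (c : ZMod (S.m p)) {d : Finset ι} (hp : p ∉ d)
    (hd : d ⊆ S.Zs y) : d ⊆ (S.Zs (Function.update y p c)).erase p := by
  rw [S.lemA_erase]
  exact subset_erase.mpr ⟨hd, hp⟩

lemma indep_Fd (d : Finset ι) (f : S.G → ℂ) : S.Indep d (S.Fd d f) := by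
  intro ξ η h
  have : S.rs d ξ = S.rs d η := by
    funext i
    unfold rs
    split_ifs with hi
    · rfl
    · exact h i hi
  unfold Fd
  rw [this]

lemma indep_Wa (r : ℕ) (a : Finset ι) (f : S.G → ℂ) : S.Indep a (S.Wa r a f) := by
  intro ξ η h
  unfold Wa
  exact sum_congr rfl fun v _ => by
    rw [(S.indep_Fd (a ∪ v) f).mono subset_union_left ξ η h]

lemma lemA_av {d : Finset ι} {p : ι} (hp : p ∉ d) (f : S.G → ℂ) :
    S.av {p} (S.Fd d f) = S.Fd d (S.av {p} f) := by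
  have h1 := S.av_piecewise (v := {p}) (w := d) (disjoint_singleton_left.mpr hp)
    (fun ξ => f (ξ + (S.jp d : S.G))) 0
  rw [S.av_tr] at h1
  unfold Fd
  simp only [S.rs_eq]
  exact h1

lemma sum_nn_Fd {f : S.G → ℂ} (hf : S.Supp f) :
    ∑ d ∈ S.DD, S.iv d * S.nn (S.Fd d f) ≤ S.D' * S.nn f := by
  refine S.lemA_count (Φ := fun y => ‖f y‖ ^ 2) subset_rfl (fun y => by positivity) fun y hy => ?_
  have : f y ≠ 0 := fun h => hy (by simp [h])
  exact S.card_DD_sub (hf y this).1.le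

lemma lemA_split (p : ι) (Ψ : Finset ι → ℝ) (h : ∀ d ∈ S.DD, p ∈ d → Ψ d = 0) :
    ∑ d ∈ S.DD, Ψ d = ∑ d ∈ S.DD.filter fun d => p ∉ d, Ψ d := by
  rw [sum_filter]
  refine sum_congr rfl fun d hd => ?_
  split_ifs with hp
  · exact h d hd hp
  · rfl

lemma sum_inf_Fd {f : S.G → ℂ} (hf : S.Supp f) :
    ∑ d ∈ S.DD, S.iv d * S.inf (S.Fd d f) ≤ S.D' * S.inf f := by
  unfold inf
  simp only [mul_sum]
  rw [sum_comm]
  refine sum_le_sum fun p _ => ?_
  rw [S.lemA_split p]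
  · refine le_trans (le_of_eq (sum_congr rfl fun d hd => ?_))
      (S.lemA_count (Φ := fun y => ‖f y - S.av {p} f y‖ ^ 2) (filter_subset _ _)
        (fun y => by positivity) fun y hy => ?_)
    · rw [S.lemA_av (mem_filter.mp hd).2]; rfl
    · obtain ⟨c0, hc⟩ := S.lemA_cg' hf hy
      refine le_trans (card_le_card fun d hd => ?_) (S.card_DD_sub hc.1.le)
      simp only [mem_filter] at hd ⊢
      exact ⟨hd.1.1, (S.lemA_sub c0 hd.1.2 hd.2).trans (erase_subset _ _)⟩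
  · intro d _ hp
    rw [S.av_of_indep ((S.indep_Fd d f).mono (singleton_subset_iff.mpr hp))]
    simp [nn]

lemma lemA_Wa {r : ℕ} (hr : r ≤ S.k) {N : (S.G → ℂ) → ℝ} (h0 : ∀ g, 0 ≤ N g) {f : S.G → ℂ}
    (hw : ∀ a, N (S.Wa r a f) ≤
      (∑ v ∈ S.VV r a, S.iv v) * ∑ v ∈ S.VV r a, S.iv v * N (S.Fd (a ∪ v) f))
    (hF : ∑ d ∈ S.DD, S.iv d * N (S.Fd d f) ≤ S.D' * N f) :
    ∑ a ∈ S.AA r, S.iv a * N (S.Wa r a f) ≤ S.Λ * S.D * S.D' * N f := by
  have hΛ : 0 ≤ S.Λ := by linarith [S.big]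
  calc ∑ a ∈ S.AA r, S.iv a * N (S.Wa r a f)
      ≤ ∑ a ∈ S.AA r, S.Λ * ∑ v ∈ S.VV r a, S.iv (a ∪ v) * N (S.Fd (a ∪ v) f) := by
        refine sum_le_sum fun a _ => ?_
        have e : ∑ v ∈ S.VV r a, S.iv (a ∪ v) * N (S.Fd (a ∪ v) f)
            = S.iv a * ∑ v ∈ S.VV r a, S.iv v * N (S.Fd (a ∪ v) f) := by
          rw [mul_sum]
          exact sum_congr rfl fun v hv => by rw [S.iv_union (S.mem_VV.mp hv).2.1, mul_assoc]
        rw [e, mul_left_comm]
        refine mul_le_mul_of_nonneg_left ((hw a).trans ?_) (S.iv_pos a).le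
        exact mul_le_mul_of_nonneg_right (S.sum_iv_VV_le r a)
          (sum_nonneg fun v _ => mul_nonneg (S.iv_pos v).le (h0 _))
    _ ≤ S.Λ * (S.D * (S.D' * N f)) := by
        rw [← mul_sum]
        refine mul_le_mul_of_nonneg_left ?_ hΛ
        exact (S.sum_AV_le hr (Φ := fun d => S.iv d * N (S.Fd d f))
          fun d _ => mul_nonneg (S.iv_pos d).le (h0 _)).trans
          (mul_le_mul_of_nonneg_left hF (Nat.cast_nonneg _))
    _ = _ := by ring

lemma sum_nn_Wa {r : ℕ} (hr : r ≤ S.k) {f : S.G → ℂ} (hf : S.Supp f) :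
    ∑ a ∈ S.AA r, S.iv a * S.nn (S.Wa r a f) ≤ S.Λ * S.D * S.D' * S.nn f :=
  S.lemA_Wa hr S.nn_nonneg
    (fun a => S.nn_wsum (S.VV r a) (fun v _ => (S.iv_pos v).le) fun v => S.Fd (a ∪ v) f)
    (S.sum_nn_Fd hf)

lemma sum_inf_Wa {r : ℕ} (hr : r ≤ S.k) {f : S.G → ℂ} (hf : S.Supp f) :
    ∑ a ∈ S.AA r, S.iv a * S.inf (S.Wa r a f) ≤ S.Λ * S.D * S.D' * S.inf f :=
  S.lemA_Wa hr S.inf_nonneg
    (fun a => S.inf_wsum (S.VV r a) (fun v _ => (S.iv_pos v).le) fun v => S.Fd (a ∪ v) f)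
    (S.sum_inf_Fd hf)

lemma lemA_rs {d : Finset ι} {p : ι} (hp : p ∉ d) (ξ : S.G) :
    S.rs d (S.rs {p} ξ) + (S.jp d : S.G)
      = Function.update (S.rs d ξ + (S.jp d : S.G)) p (S.jp d : ZMod (S.m p)) := by
  funext i
  by_cases hi : i = p
  · subst hi
    simp [rs, hp]
  · rw [Function.update_of_ne hi]
    simp [rs, hi]

lemma lemA_one {f : S.G → ℂ} (hf : S.Supp f) {p : ι} (hp : p ∈ S.E) :
    ∑ d ∈ S.DD.filter fun d => p ∉ d, S.iv d * ∑ ξ,
      ‖f (Function.update (S.rs d ξ + (S.jp d : S.G)) p (S.jp d : ZMod (S.m p)))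
        - S.av {p} f (S.rs d ξ + (S.jp d : S.G))‖ ^ 2
      ≤ 2 * (S.m p * S.nn fun ξ => f ξ - S.av {p} f ξ) := by
  rw [← S.sum_update, mul_sum, ← sum_fiberwise (S.DD.filter fun d => p ∉ d)
    fun d => (S.jp d : ZMod (S.m p))]
  refine sum_le_sum fun c _ => ?_
  refine le_trans (le_of_eq (sum_congr rfl fun d hd => ?_))
    (S.lemA_count (Φ := fun y => ‖f (Function.update y p c) - S.av {p} f y‖ ^ 2) (B := 2)
      ((filter_subset _ _).trans (filter_subset _ _)) (fun y => by positivity) fun y hy => ?_)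
  · rw [(mem_filter.mp hd).2]
  · obtain ⟨c0, hc⟩ := S.lemA_cg hf hy
    have : Fact (S.m p).Prime := ⟨S.prime p hp⟩
    have hh : (S.h : ZMod (S.m p)) ≠ 0 := fun h =>
      S.not_dvd_h hp ((ZMod.intCast_zmod_eq_zero_iff_dvd _ _).mp h)
    refine le_trans (card_le_card fun d hd => ?_) (hc.2 p hp (c / (S.h : ZMod (S.m p))))
    simp only [mem_filter] at hd ⊢
    refine ⟨hd.1.1.1, S.lemA_sub c0 hd.1.1.2 hd.2, ?_⟩
    rw [eq_div_iff hh, ← hd.1.2, jp]
    push_cast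
    rfl

lemma lemA_two {f : S.G → ℂ} (hf : S.Supp f) {p : ι} (hp : p ∈ S.E) :
    ∑ d ∈ S.DD.filter fun d => p ∉ d, S.iv d * ∑ ξ,
      ‖f (S.rs d ξ + (S.jp d : S.G)) - S.av {p} f (S.rs d ξ + (S.jp d : S.G))‖ ^ 2
      ≤ 2 * (S.m p * S.nn fun ξ => f ξ - S.av {p} f ξ) := by
  have := S.lemA_count (D0 := S.DD.filter fun d => p ∉ d)
    (Φ := fun y => ‖f y - S.av {p} f y‖ ^ 2) (B := 2 * S.m p) (filter_subset _ _)
    (fun y => by positivity) fun y hy => ?_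
  · rw [Nat.cast_mul, mul_assoc] at this
    exact this
  · obtain ⟨c0, hc⟩ := S.lemA_cg' hf hy
    have h2 := card_le_mul_card_image_of_maps_to
      (s := (S.DD.filter fun d => p ∉ d).filter fun d => d ⊆ S.Zs y)
      (t := (univ : Finset (ZMod (S.m p)))) (f := fun d => (S.pr d : ZMod (S.m p)))
      (fun _ _ => mem_univ _) 2 fun c _ => by
        refine le_trans (card_le_card fun d hd => ?_) (hc.2 p hp c)
        simp only [mem_filter] at hd ⊢
        exact ⟨hd.1.1.1, S.lemA_sub c0 hd.1.1.2 hd.1.2, hd.2⟩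
    rwa [card_univ, ZMod.card] at h2

theorem lemA {f : S.G → ℂ} (hf : S.Supp f) :
    ∑ d ∈ S.DD, S.iv d * S.devB (S.Fd d f) ≤ 8 * S.inf f := by
  unfold devB inf
  simp only [mul_sum]
  rw [sum_comm]
  refine sum_le_sum fun p hp => ?_
  rw [S.lemA_split p]
  · have h1 := S.lemA_one hf hp
    have h2 := S.lemA_two hf hp
    have hm : (S.m p : ℝ) ≠ 0 := by exact_mod_cast (S.m_pos p).ne'
    set V := S.nn fun ξ => f ξ - S.av {p} f ξ with hV
    have e : 8 * V = S.nu p * (2 * (2 * (S.m p * V)) + 2 * (2 * (S.m p * V))) := by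
      unfold nu; field_simp; ring
    rw [e]
    refine le_trans ?_ (mul_le_mul_of_nonneg_left (add_le_add
      (mul_le_mul_of_nonneg_left h1 zero_le_two) (mul_le_mul_of_nonneg_left h2 zero_le_two))
      (S.nu_pos p).le)
    rw [mul_sum, mul_sum, ← sum_add_distrib, mul_sum]
    refine sum_le_sum fun d hd => ?_
    rw [mul_left_comm, mul_left_comm 2, mul_left_comm 2, ← mul_add]
    refine mul_le_mul_of_nonneg_left (mul_le_mul_of_nonneg_left ?_ (S.iv_pos d).le) (S.nu_pos p).le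
    rw [mul_sum, mul_sum, ← sum_add_distrib]
    refine sum_le_sum fun ξ _ => ?_
    simp only [Fd]
    rw [S.lemA_rs (mem_filter.mp hd).2]
    have := norm_add_sq_le
      (f (Function.update (S.rs d ξ + (S.jp d : S.G)) p (S.jp d : ZMod (S.m p)))
        - S.av {p} f (S.rs d ξ + (S.jp d : S.G)))
      (-(f (S.rs d ξ + (S.jp d : S.G)) - S.av {p} f (S.rs d ξ + (S.jp d : S.G))))
    rw [norm_neg, ← sub_eq_add_neg, sub_sub_sub_cancel_right] at this
    exact this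
  · intro d _ hpd
    simp [nn, ((S.indep_Fd d f).mono (singleton_subset_iff.mpr hpd)).rs]

end Sys

end Pool.Agent.Work.MP_678620_nt
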