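import Pool.Agent.Work.MP_678620_nt.SPFour
import Pool.Agent.Work.MP_678620_nt.SPLemA

/-! Duality and Parseval for the minor arc part. -/

set_option autoImplicit false
open Finset Pool.Agent.Lib.LargeSieve

namespace Pool.Agent.Work.MP_678620_nt

namespace Sys

variable {ι : Type} [Fintype ι] [DecidableEq ι] (S : Sys ι)

lemma dual_one {a v : Finset ι} (hE : a ∪ v ⊆ S.E) (hav : Disjoint a v) {w : S.G → ℂ}
    (hw : S.Indep a w) (f : S.G → ℂ) :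
    (S.iv a : ℂ) * ((S.iv v : ℂ) * S.ip w (S.Fd (a ∪ v) f)) = ∑ y, (starRingEnd ℂ)
      (if a ∪ v ⊆ S.Zs y then S.av v w (y - (S.jp (a ∪ v) : S.G)) else 0) * f y := by
  have hU : S.Indep (a ∪ v) (S.av v w) := (hw.av v).union (S.indep_av v w)
  have h1 : S.ip w (S.Fd (a ∪ v) f) = S.ip (S.av v w) (S.Fd (a ∪ v) f) := by
    rw [S.ip_av, S.av_of_indep ((S.indep_Fd (a ∪ v) f).mono subset_union_right)]
  have h2 : S.ip (S.av v w) (S.Fd (a ∪ v) f) = ∑ ξ, (fun η => (starRingEnd ℂ) (S.av v w η) *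
      f (η + (S.jp (a ∪ v) : S.G))) (S.rs (a ∪ v) ξ) :=
    sum_congr rfl fun ξ _ => by simp only [hU.rs, Fd]
  have h3 : (S.iv a : ℂ) * (S.iv v : ℂ) * (S.pr (a ∪ v) : ℂ) = 1 := by
    have h4 : (S.pr (a ∪ v) : ℂ) ≠ 0 := by exact_mod_cast (S.pr_pos _).ne'
    rw [← Complex.ofReal_mul, ← S.iv_union hav, iv]
    push_cast
    exact inv_mul_cancel₀ h4
  rw [h1, h2.trans (S.sum_rs hE fun η => (starRingEnd ℂ) (S.av v w η) *
      f (η + (S.jp (a ∪ v) : S.G))), nsmul_eq_mul, ← mul_assoc, ← mul_assoc, h3, one_mul,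
    ← S.sum_add_right (fun y => (starRingEnd ℂ)
      (if a ∪ v ⊆ S.Zs y then S.av v w (y - (S.jp (a ∪ v) : S.G)) else 0) * f y)
      (S.jp (a ∪ v) : S.G)]
  refine sum_congr rfl fun ξ _ => ?_
  simp only [S.sub_Zs_add (fun p hp => S.jp_apply' hp) ξ, add_sub_cancel_right]
  split_ifs <;> simp

theorem dual {r : ℕ} {u : Finset ι → S.G → ℂ} (hu : ∀ a ∈ S.AA r, S.Indep a (u a))
    (f : S.G → ℂ) :
    ∑ a ∈ S.AA r, (S.iv a : ℂ) * S.ip (u a) (S.Wa r a f) = S.ip (S.YY r u) f := by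
  have h1 : S.ip (S.YY r u) f = ∑ a ∈ S.AA r, ∑ v ∈ S.VV r a, ∑ y, (starRingEnd ℂ)
      (if a ∪ v ⊆ S.Zs y then S.av v (u a) (y - (S.jp (a ∪ v) : S.G)) else 0) * f y := by
    simp only [ip, YY, map_sum, sum_mul]
    rw [sum_comm]
    exact sum_congr rfl fun a _ => sum_comm
  rw [h1]
  refine sum_congr rfl fun a ha => ?_
  have h2 : S.ip (u a) (S.Wa r a f) =
      ∑ v ∈ S.VV r a, (S.iv v : ℂ) * S.ip (u a) (S.Fd (a ∪ v) f) := by
    simp only [ip, Wa, mul_sum]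
    rw [sum_comm]
    exact sum_congr rfl fun v _ => sum_congr rfl fun ξ _ => by ring
  rw [h2, mul_sum]
  refine sum_congr rfl fun v hv => ?_
  obtain ⟨-, h4, -, h5⟩ := S.mem_VV.1 hv
  exact S.dual_one (S.DD_sub _ h5) h4 (hu a ha) f

lemma fh_YZ {r : ℕ} (hr : r ≤ S.s) (u : Finset ι → S.G → ℂ) (z : Finset ι) (ψ : AddChar S.G ℂ) :
    S.fh (S.YZ r u z) ψ = ∑ d ∈ S.DD,
      if d ⊆ z then S.yd r (fun a => S.fh (u a) ψ) (S.supp ψ) (S.al ψ) d else 0 := by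
  have h1 : S.YZ r u z = fun ξ => ∑ a ∈ S.AA r, (1 : ℂ) * (fun ξ => ∑ v ∈ S.VV r a,
      (if a ∪ v ⊆ z then (1 : ℂ) else 0) *
        (fun ξ => S.av v (u a) (ξ + ((-S.jp (a ∪ v) : ℤ) : S.G))) ξ) ξ := by
    funext ξ
    simp only [YZ, one_mul, ite_mul, zero_mul, Int.cast_neg, sub_eq_add_neg]
  rw [h1, S.fh_sum]
  simp only [S.fh_sum, one_mul, S.fh_tr, S.al_spec]
  rw [S.sum_AV hr]
  refine sum_congr rfl fun d hd => ?_
  have h2 : ∀ a ∈ d.powersetCard (S.s - r), a ∪ d \ a = d := fun a ha =>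
    union_sdiff_of_subset (mem_powersetCard.1 ha).1
  have h3 : ∀ a : Finset ι, d \ a ⊆ S.E := fun a => sdiff_subset.trans (S.DD_sub d hd)
  rw [sum_congr rfl fun a ha => by rw [h2 a ha, S.fh_av (h3 a)]]
  split_ifs
  · rw [yd, sum_mul]
    refine sum_congr rfl fun a _ => ?_
    rw [one_mul, mul_comm, Int.cast_neg, mul_neg]
  · simp

theorem pars_YZ {r : ℕ} (hr : r ≤ S.s) (u : Finset ι → S.G → ℂ) :
    (Fintype.card S.G : ℝ) * ∑ z ∈ S.E.powersetCard (S.s + S.k'), S.Pz z * S.nn (S.YZ r u z)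
      = ∑ ψ : AddChar S.G ℂ, S.Qf (S.yd r (fun a => S.fh (u a) ψ) (S.supp ψ) (S.al ψ)) := by
  simp only [Qf]
  rw [sum_comm, mul_sum]
  refine sum_congr rfl fun z _ => ?_
  rw [mul_left_comm, S.parseval, mul_sum]
  exact sum_congr rfl fun ψ _ => by rw [S.fh_YZ hr]

end Sys

end Pool.Agent.Work.MP_678620_nt
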