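import Pool.Agent.Work.MP_678620_nt.SPCoord

/-! The quadratic form at one frequency. -/

set_option autoImplicit false
open Finset Pool.Agent.Lib.LargeSieve

namespace Pool.Agent.Work.MP_678620_nt

namespace Sys

variable {ι : Type} [Fintype ι] [DecidableEq ι] (S : Sys ι)

/-- Mass of the class above `U`. -/
noncomputable def qP (U : Finset ι) : ℝ :=
  ∑ z ∈ S.E.powersetCard (S.s + S.k'), if U ⊆ z then S.Pz z else 0

/-- The kernel `iv (c \ b)` on the shell `|c \ b| = r`. -/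
noncomputable def qG (r : ℕ) (b c : Finset ι) : ℝ := if (c \ b).card = r then S.iv (c \ b) else 0

noncomputable def qB (y : Finset ι → ℂ) (e : Finset ι) : ℂ :=
  ∑ p ∈ S.E \ e, if insert p e ∈ S.DD then (S.nu p : ℂ) * y (insert p e) else 0

noncomputable def qN (y : Finset ι → ℂ) (r : ℕ) (b : Finset ι) : ℝ :=
  ∑ d ∈ S.DD, S.qG r b d * ‖y d‖

noncomputable def qM (y : Finset ι → ℂ) (r : ℕ) (b : Finset ι) : ℝ :=
  ∑ e ∈ S.E.powersetCard (S.s - 1), S.qG r b e * ‖S.qB y e‖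

lemma qG_nonneg (r : ℕ) (b c : Finset ι) : 0 ≤ S.qG r b c := by
  unfold qG
  split_ifs
  · exact (S.iv_pos _).le
  · exact le_rfl

lemma q_Λ_pos : 0 < S.Λ := by
  have := S.big
  linarith

lemma q_H0_pos : 0 < S.H0 := lt_of_lt_of_le (by positivity) S.H0_big

lemma q_s_pos : 1 ≤ S.s := S.k'_ge.trans S.k'_le

lemma q_DD_sub : S.DD ⊆ S.E.powersetCard S.s := fun d hd =>
  mem_powersetCard.2 ⟨S.DD_sub d hd, S.DD_card d hd⟩

/-- Row bound on a shell. -/
lemma q_row (b : Finset ι) (n r : ℕ) {F : Finset (Finset ι)} (hF : F ⊆ S.E.powersetCard n) :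
    ∑ c ∈ F, S.qG r b c ≤ (b.card.choose (n - r) : ℝ) * S.Λ := by
  have h1 : ∑ c ∈ F, S.qG r b c = ∑ c ∈ F.filter (fun c => (c \ b).card = r), S.iv (c \ b) := by
    rw [sum_filter]
    rfl
  have hinj : Set.InjOn (fun c : Finset ι => (c ∩ b, c \ b))
      (F.filter (fun c => (c \ b).card = r) : Finset (Finset ι)) := by
    intro c _ c' _ h
    simp only [Prod.mk.injEq] at h
    rw [← sdiff_union_inter c b, ← sdiff_union_inter c' b, h.1, h.2]
  have h2 : ∑ c ∈ F.filter (fun c => (c \ b).card = r), S.iv (c \ b)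
      = ∑ x ∈ (F.filter (fun c => (c \ b).card = r)).image (fun c => (c ∩ b, c \ b)),
        S.iv x.2 := by
    rw [sum_image hinj]
  have h3 : (F.filter (fun c => (c \ b).card = r)).image (fun c => (c ∩ b, c \ b))
      ⊆ b.powersetCard (n - r) ×ˢ S.E.powersetCard r := by
    intro x hx
    obtain ⟨c, hc, rfl⟩ := mem_image.1 hx
    obtain ⟨hc1, hc2⟩ := mem_filter.1 hc
    obtain ⟨hc3, hc4⟩ := mem_powersetCard.1 (hF hc1)
    refine mem_product.2 ⟨mem_powersetCard.2 ⟨inter_subset_right, ?_⟩,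
      mem_powersetCard.2 ⟨sdiff_subset.trans hc3, hc2⟩⟩
    have := card_sdiff_add_card_inter c b
    simp only
    omega
  rw [h1, h2]
  calc _ ≤ ∑ x ∈ b.powersetCard (n - r) ×ˢ S.E.powersetCard r, S.iv x.2 :=
        sum_le_sum_of_subset_of_nonneg h3 fun x _ _ => (S.iv_pos _).le
    _ = (b.card.choose (n - r) : ℝ) * ∑ v ∈ S.E.powersetCard r, S.iv v := by
        rw [sum_product]
        simp [card_powersetCard]
    _ ≤ _ := mul_le_mul_of_nonneg_left (S.sum_iv_le (Subset.refl _) r) (by positivity)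

lemma q_iv_sym (b c : Finset ι) : S.iv b * S.iv (c \ b) = S.iv c * S.iv (b \ c) := by
  rw [← S.iv_union disjoint_sdiff, ← S.iv_union disjoint_sdiff, union_sdiff_self_eq_union,
    union_sdiff_self_eq_union, union_comm]

lemma q_sym {b c : Finset ι} {r r' : ℕ} (h : b.card + r = c.card + r') :
    S.iv b * S.qG r b c = S.iv c * S.qG r' c b := by
  have h1 := card_sdiff_add_card_inter c b
  have h2 := card_sdiff_add_card_inter b c
  rw [inter_comm] at h2
  unfold qG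
  by_cases hh : (c \ b).card = r
  · rw [if_pos hh, if_pos (by omega), q_iv_sym]
  · rw [if_neg hh, if_neg (by omega), mul_zero, mul_zero]

lemma q_choose {r : ℕ} (hr : r ≤ S.k') : (S.s.choose (S.s - r) : ℝ) ≤ S.D' := by
  rw [Nat.choose_symm (hr.trans S.k'_le)]
  exact_mod_cast S.choose_le_D' hr

lemma q_KB (y : Finset ι → ℂ) {r : ℕ} (hr : r ≤ S.k') :
    ∑ b ∈ S.DD, S.iv b * ‖y b‖ * S.qN y r b ≤ S.D' * S.Λ * S.ny y := by
  have hA : (0 : ℝ) ≤ S.D' * S.Λ := mul_nonneg (by positivity) S.q_Λ_pos.le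
  have hrow : ∀ b ∈ S.DD, ∑ d ∈ S.DD, S.iv b * S.qG r b d ≤ S.D' * S.Λ * S.iv b := by
    intro b hb
    rw [← mul_sum, mul_comm]
    refine mul_le_mul_of_nonneg_right ?_ (S.iv_pos _).le
    refine (S.q_row b S.s r S.q_DD_sub).trans ?_
    rw [S.DD_card b hb]
    exact mul_le_mul_of_nonneg_right (S.q_choose hr) S.q_Λ_pos.le
  have h := schur_test S.DD S.DD (K := fun b d => S.iv b * S.qG r b d) (u := S.iv) (v := S.iv)
    (x := fun b => ‖y b‖) (y := fun d => ‖y d‖)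
    (fun b _ d _ => mul_nonneg (S.iv_pos _).le (S.qG_nonneg _ _ _))
    (fun b _ => (S.iv_pos _).le) (fun b _ => (S.iv_pos _).le) hA hA hrow (by
      intro d hd
      refine le_trans (le_of_eq ?_) (hrow d hd)
      refine sum_congr rfl fun b hb => S.q_sym ?_
      rw [S.DD_card b hb, S.DD_card d hd])
  have hny : 0 ≤ S.ny y := sum_nonneg fun d _ => mul_nonneg (S.iv_pos _).le (by positivity)
  rw [Real.mul_self_sqrt hA] at h
  have e : √(S.ny y) * √(S.ny y) = S.ny y := Real.mul_self_sqrt hny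
  unfold ny at e
  rw [e] at h
  refine le_trans (le_of_eq ?_) h
  refine sum_congr rfl fun b _ => ?_
  unfold qN
  rw [mul_sum]
  exact sum_congr rfl fun d _ => by ring

lemma q_MB (y : Finset ι → ℂ) {r : ℕ} (hr1 : 1 ≤ r) (hr : r ≤ S.k') :
    ∑ b ∈ S.DD, S.iv b * ‖y b‖ * S.qM y (r - 1) b
      ≤ S.D' * S.Λ * (√(S.ny y) * √(S.nB y)) := by
  have hA : (0 : ℝ) ≤ S.D' * S.Λ := mul_nonneg (by positivity) S.q_Λ_pos.le
  have hs := S.q_s_pos
  have hrs := hr.trans S.k'_le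
  have h := schur_test S.DD (S.E.powersetCard (S.s - 1))
    (K := fun b e => S.iv b * S.qG (r - 1) b e) (u := S.iv) (v := S.iv)
    (x := fun b => ‖y b‖) (y := fun e => ‖S.qB y e‖)
    (fun b _ d _ => mul_nonneg (S.iv_pos _).le (S.qG_nonneg _ _ _))
    (fun b _ => (S.iv_pos _).le) (fun b _ => (S.iv_pos _).le) hA hA (by
      intro b hb
      rw [← mul_sum, mul_comm]
      refine mul_le_mul_of_nonneg_right ?_ (S.iv_pos _).le
      refine (S.q_row b (S.s - 1) (r - 1) (Subset.refl _)).trans ?_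
      rw [S.DD_card b hb, show S.s - 1 - (r - 1) = S.s - r by omega]
      exact mul_le_mul_of_nonneg_right (S.q_choose hr) S.q_Λ_pos.le) (by
      intro e he
      have hec := (mem_powersetCard.1 he).2
      have e1 : ∑ b ∈ S.DD, S.iv b * S.qG (r - 1) b e = ∑ b ∈ S.DD, S.iv e * S.qG r e b := by
        refine sum_congr rfl fun b hb => S.q_sym ?_
        rw [S.DD_card b hb, hec]
        omega
      rw [e1, ← mul_sum, mul_comm]
      refine mul_le_mul_of_nonneg_right ?_ (S.iv_pos _).le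
      refine (S.q_row e S.s r S.q_DD_sub).trans ?_
      refine mul_le_mul_of_nonneg_right (le_trans ?_ (S.q_choose hr)) S.q_Λ_pos.le
      rw [hec]
      exact_mod_cast Nat.choose_le_choose _ (Nat.sub_le _ _))
  rw [Real.mul_self_sqrt hA] at h
  refine le_trans (le_of_eq ?_) h
  refine sum_congr rfl fun b _ => ?_
  unfold qM
  rw [mul_sum]
  exact sum_congr rfl fun d _ => by ring

/-- Pairs of `d` and `p ∈ d` are pairs of `e` and `p ∉ e`. -/
lemma q_reidx (F : Finset ι → ι → ℂ) :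
    ∑ d ∈ S.DD, ∑ p ∈ d, F (d.erase p) p
      = ∑ e ∈ S.E.powersetCard (S.s - 1), ∑ p ∈ S.E \ e,
        if insert p e ∈ S.DD then F e p else 0 := by
  have hl : ∑ d ∈ S.DD, ∑ p ∈ d, F (d.erase p) p
      = ∑ p ∈ S.E, ∑ d ∈ S.DD.filter (fun d => p ∈ d), F (d.erase p) p := by
    refine sum_comm' fun d p => ?_
    simp only [mem_filter]
    constructor
    · rintro ⟨h1, h2⟩
      exact ⟨⟨h1, h2⟩, S.DD_sub d h1 h2⟩
    · rintro ⟨⟨h1, h2⟩, _⟩
      exact ⟨h1, h2⟩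
  have hr : (∑ e ∈ S.E.powersetCard (S.s - 1), ∑ p ∈ S.E \ e,
        if insert p e ∈ S.DD then F e p else 0)
      = ∑ p ∈ S.E, ∑ e ∈ (S.E.powersetCard (S.s - 1)).filter
          (fun e => p ∉ e ∧ insert p e ∈ S.DD), F e p := by
    simp_rw [← sum_filter]
    refine sum_comm' fun e p => ?_
    simp only [mem_filter, mem_sdiff]
    tauto
  rw [hl, hr]
  refine sum_congr rfl fun p _ => ?_
  refine sum_nbij' (fun d => d.erase p) (fun e => insert p e) ?_ ?_ ?_ ?_ ?_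
  · intro d hd
    obtain ⟨h1, h2⟩ := mem_filter.1 hd
    refine mem_filter.2 ⟨mem_powersetCard.2 ⟨(erase_subset _ _).trans (S.DD_sub d h1), ?_⟩,
      notMem_erase _ _, ?_⟩
    · rw [card_erase_of_mem h2, S.DD_card d h1]
    · rwa [insert_erase h2]
  · intro e he
    obtain ⟨_, _, h3⟩ := mem_filter.1 he
    exact mem_filter.2 ⟨h3, mem_insert_self _ _⟩
  · intro d hd
    exact insert_erase (mem_filter.1 hd).2
  · intro e he
    exact erase_insert (mem_filter.1 he).2.1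
  · intro d _
    rfl

lemma q_one (r : ℕ) (hr : 1 ≤ r) (b d : Finset ι) :
    ∑ p ∈ d, S.qG (r - 1) b (d.erase p) * S.nu p
      = r * S.qG r b d + S.qG (r - 1) b d * ∑ p ∈ d ∩ b, S.nu p := by
  have h1 : ∑ p ∈ d \ b, S.qG (r - 1) b (d.erase p) * S.nu p = r * S.qG r b d := by
    have : ∀ p ∈ d \ b, S.qG (r - 1) b (d.erase p) * S.nu p = S.qG r b d := by
      intro p hp
      have e1 : d.erase p \ b = (d \ b).erase p := erase_sdiff_comm _ _ _
      have e2 := card_erase_of_mem hp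
      have e3 : 0 < (d \ b).card := card_pos.2 ⟨p, hp⟩
      unfold qG
      rw [e1]
      by_cases hh : (d \ b).card = r
      · rw [if_pos hh, if_pos (by omega), mul_comm, ← S.iv_insert (notMem_erase _ _),
          insert_erase hp]
      · rw [if_neg hh, if_neg (by omega), zero_mul]
    rw [sum_congr rfl this, sum_const, nsmul_eq_mul]
    unfold qG
    split_ifs with hh
    · rw [hh]
    · simp
  have h2 : ∑ p ∈ d ∩ b, S.qG (r - 1) b (d.erase p) * S.nu p
      = S.qG (r - 1) b d * ∑ p ∈ d ∩ b, S.nu p := by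
    rw [mul_sum]
    refine sum_congr rfl fun p hp => ?_
    have e1 : d.erase p \ b = d \ b := by
      rw [erase_sdiff_comm, erase_eq_of_notMem]
      exact fun h => (mem_sdiff.1 h).2 (mem_inter.1 hp).2
    unfold qG
    rw [e1]
  rw [← h1, ← h2, ← sum_union (disjoint_sdiff_inter d b), sdiff_union_inter]

lemma q_shell (y : Finset ι → ℂ) {r : ℕ} (hr : 1 ≤ r) (b : Finset ι) :
    ‖∑ d ∈ S.DD, (S.qG r b d : ℂ) * y d‖
      ≤ S.qM y (r - 1) b + S.s / S.H0 * S.qN y (r - 1) b := by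
  have h := S.q_reidx fun e p => (S.qG (r - 1) b e : ℂ) * ((S.nu p : ℂ) * y (insert p e))
  have hl : ∑ d ∈ S.DD, ∑ p ∈ d,
        (S.qG (r - 1) b (d.erase p) : ℂ) * ((S.nu p : ℂ) * y (insert p (d.erase p)))
      = r * ∑ d ∈ S.DD, (S.qG r b d : ℂ) * y d
        + ∑ d ∈ S.DD, ((S.qG (r - 1) b d * ∑ p ∈ d ∩ b, S.nu p : ℝ) : ℂ) * y d := by
    rw [mul_sum, ← sum_add_distrib]
    refine sum_congr rfl fun d _ => ?_
    have e1 : ∑ p ∈ d,
        (S.qG (r - 1) b (d.erase p) : ℂ) * ((S.nu p : ℂ) * y (insert p (d.erase p)))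
        = ((∑ p ∈ d, S.qG (r - 1) b (d.erase p) * S.nu p : ℝ) : ℂ) * y d := by
      push_cast
      rw [sum_mul]
      refine sum_congr rfl fun p hp => ?_
      rw [insert_erase hp]
      ring
    rw [e1, S.q_one r hr]
    push_cast
    ring
  have hrr : (∑ e ∈ S.E.powersetCard (S.s - 1), ∑ p ∈ S.E \ e,
        if insert p e ∈ S.DD then (S.qG (r - 1) b e : ℂ) * ((S.nu p : ℂ) * y (insert p e)) else 0)
      = ∑ e ∈ S.E.powersetCard (S.s - 1), (S.qG (r - 1) b e : ℂ) * S.qB y e := by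
    refine sum_congr rfl fun e _ => ?_
    unfold qB
    rw [mul_sum]
    refine sum_congr rfl fun p _ => ?_
    split_ifs <;> simp
  rw [hl, hrr] at h
  have n1 : ‖∑ e ∈ S.E.powersetCard (S.s - 1), (S.qG (r - 1) b e : ℂ) * S.qB y e‖
      ≤ S.qM y (r - 1) b := by
    refine (norm_sum_le _ _).trans (le_of_eq ?_)
    refine sum_congr rfl fun e _ => ?_
    rw [norm_mul, Complex.norm_real, Real.norm_of_nonneg (S.qG_nonneg _ _ _)]
  have n2 : ‖∑ d ∈ S.DD, ((S.qG (r - 1) b d * ∑ p ∈ d ∩ b, S.nu p : ℝ) : ℂ) * y d‖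
      ≤ S.s / S.H0 * S.qN y (r - 1) b := by
    refine (norm_sum_le _ _).trans ?_
    unfold qN
    rw [mul_sum]
    refine sum_le_sum fun d hd => ?_
    have h0 : 0 ≤ ∑ p ∈ d ∩ b, S.nu p := sum_nonneg fun p _ => (S.nu_pos p).le
    have h1 : ∑ p ∈ d ∩ b, S.nu p ≤ S.s / S.H0 := by
      calc _ ≤ ∑ p ∈ d, S.nu p :=
            sum_le_sum_of_subset_of_nonneg inter_subset_left fun p _ _ => (S.nu_pos p).le
        _ ≤ ∑ _p ∈ d, S.H0⁻¹ := sum_le_sum fun p hp => S.nu_le (S.DD_sub d hd hp)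
        _ = S.s / S.H0 := by rw [sum_const, S.DD_card d hd, nsmul_eq_mul, div_eq_mul_inv]
    have hG := S.qG_nonneg (r - 1) b d
    rw [norm_mul, Complex.norm_real, Real.norm_of_nonneg (mul_nonneg hG h0)]
    calc _ = (∑ p ∈ d ∩ b, S.nu p) * (S.qG (r - 1) b d * ‖y d‖) := by ring
      _ ≤ _ := mul_le_mul_of_nonneg_right h1 (mul_nonneg hG (norm_nonneg _))
  have e : (r : ℂ) * ∑ d ∈ S.DD, (S.qG r b d : ℂ) * y d
      = ∑ e ∈ S.E.powersetCard (S.s - 1), (S.qG (r - 1) b e : ℂ) * S.qB y e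
        - ∑ d ∈ S.DD, ((S.qG (r - 1) b d * ∑ p ∈ d ∩ b, S.nu p : ℝ) : ℂ) * y d := by
    rw [← h]
    ring
  have n3 := norm_sub_le (∑ e ∈ S.E.powersetCard (S.s - 1), (S.qG (r - 1) b e : ℂ) * S.qB y e)
    (∑ d ∈ S.DD, ((S.qG (r - 1) b d * ∑ p ∈ d ∩ b, S.nu p : ℝ) : ℂ) * y d)
  rw [← e, norm_mul, Complex.norm_natCast] at n3
  have hr' : (1 : ℝ) ≤ r := by exact_mod_cast hr
  have := norm_nonneg (∑ d ∈ S.DD, (S.qG r b d : ℂ) * y d)
  nlinarith

lemma qP_nonneg (U : Finset ι) : 0 ≤ S.qP U :=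
  sum_nonneg fun z _ => by
    split_ifs
    · exact S.Pz_nonneg z
    · exact le_rfl

lemma qP_zero {U : Finset ι} (h : S.s + S.k' < U.card) : S.qP U = 0 := by
  refine sum_eq_zero fun z hz => if_neg fun hU => ?_
  have := card_le_card hU
  rw [(mem_powersetCard.1 hz).2] at this
  omega

lemma qP_shell {b d : Finset ι} (hb : b ∈ S.DD) (hd : d ∈ S.DD) {r : ℕ} (hr : r ≤ S.k') :
    |(if (d \ b).card = r then S.qP (d ∪ b) else 0) - S.iv b * S.piC (S.k' - r) * S.qG r b d|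
      ≤ S.iv b * (2 * S.s / S.H0) * S.qG r b d := by
  unfold qG
  by_cases hh : (d \ b).card = r
  · rw [if_pos hh, if_pos hh]
    have hU : d ∪ b ⊆ S.E := union_subset (S.DD_sub d hd) (S.DD_sub b hb)
    have hc : (d ∪ b).card = S.s + r := by
      rw [← card_sdiff_add_card, hh, S.DD_card b hb, add_comm]
    have h := S.Pz_class hU (S.k' - r)
    have e0 : (d ∪ b).card + (S.k' - r) = S.s + S.k' := by omega
    rw [e0] at h
    have e1 : S.iv (d ∪ b) = S.iv b * S.iv (d \ b) := by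
      rw [← S.iv_union disjoint_sdiff, union_sdiff_self_eq_union, union_comm]
    have e2 : ((d ∪ b).card : ℝ) / S.H0 ≤ 2 * S.s / S.H0 := by
      refine div_le_div_of_nonneg_right ?_ S.q_H0_pos.le
      have : (d ∪ b).card ≤ 2 * S.s := by
        have := S.k'_le
        omega
      exact_mod_cast this
    have e3 : S.iv b * S.piC (S.k' - r) * S.iv (d \ b) = S.iv (d ∪ b) * S.piC (S.k' - r) := by
      rw [e1]
      ring
    rw [e3]
    refine h.trans ?_
    calc _ ≤ S.iv (d ∪ b) * (2 * S.s / S.H0) := mul_le_mul_of_nonneg_left e2 (S.iv_pos _).le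
      _ = _ := by rw [e1]; ring
  · simp [hh]

lemma qP_split {b d : Finset ι} (hb : b ∈ S.DD) (hd : d ∈ S.DD) :
    S.qP (d ∪ b) = (if d = b then S.qP b else 0)
      + ∑ r ∈ Icc 1 S.k', if (d \ b).card = r then S.qP (d ∪ b) else 0 := by
  rw [sum_ite_eq]
  by_cases h : d = b
  · subst h
    simp
  · rw [if_neg h, zero_add]
    have h0 : (d \ b).card ≠ 0 := by
      intro h0
      rw [card_eq_zero, sdiff_eq_empty_iff_subset] at h0
      exact h (eq_of_subset_of_card_le h0 (by rw [S.DD_card d hd, S.DD_card b hb]))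
    split_ifs with h1
    · rfl
    · refine S.qP_zero ?_
      rw [← card_sdiff_add_card, S.DD_card b hb]
      rw [mem_Icc] at h1
      omega

lemma q_inner (y : Finset ι → ℂ) {b : Finset ι} (hb : b ∈ S.DD) :
    ‖∑ d ∈ S.DD, (S.qP (d ∪ b) : ℂ) * y d‖ ≤ S.iv b * ‖y b‖ + ∑ r ∈ Icc 1 S.k',
      S.iv b * (S.qM y (r - 1) b + S.s / S.H0 * S.qN y (r - 1) b
        + 2 * S.s / S.H0 * S.qN y r b) := by
  have e : ∑ d ∈ S.DD, (S.qP (d ∪ b) : ℂ) * y d = (S.qP b : ℂ) * y b + ∑ r ∈ Icc 1 S.k',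
      ∑ d ∈ S.DD, ((if (d \ b).card = r then S.qP (d ∪ b) else 0 : ℝ) : ℂ) * y d := by
    rw [sum_comm]
    have : (S.qP b : ℂ) * y b = ∑ d ∈ S.DD, if d = b then (S.qP b : ℂ) * y d else 0 := by
      rw [sum_ite_eq', if_pos hb]
    rw [this, ← sum_add_distrib]
    refine sum_congr rfl fun d hd => ?_
    rw [← sum_mul, ← Complex.ofReal_sum]
    conv_lhs => rw [S.qP_split hb hd]
    push_cast
    split_ifs <;> simp [add_mul]
  rw [e]
  refine (norm_add_le _ _).trans (add_le_add ?_ ((norm_sum_le _ _).trans (sum_le_sum ?_)))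
  · rw [norm_mul, Complex.norm_real, Real.norm_of_nonneg (S.qP_nonneg _)]
    exact mul_le_mul_of_nonneg_right (S.Pz_class_le (S.DD_sub b hb) _) (norm_nonneg _)
  · intro r hr
    obtain ⟨hr1, hr2⟩ := mem_Icc.1 hr
    have e2 : ∑ d ∈ S.DD, ((if (d \ b).card = r then S.qP (d ∪ b) else 0 : ℝ) : ℂ) * y d
        = ((S.iv b * S.piC (S.k' - r) : ℝ) : ℂ) * ∑ d ∈ S.DD, (S.qG r b d : ℂ) * y d
          + ∑ d ∈ S.DD, (((if (d \ b).card = r then S.qP (d ∪ b) else 0)
            - S.iv b * S.piC (S.k' - r) * S.qG r b d : ℝ) : ℂ) * y d := by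
      rw [mul_sum, ← sum_add_distrib]
      refine sum_congr rfl fun d _ => ?_
      push_cast
      ring
    have hiv := (S.iv_pos b).le
    have n1 : ‖((S.iv b * S.piC (S.k' - r) : ℝ) : ℂ) * ∑ d ∈ S.DD, (S.qG r b d : ℂ) * y d‖
        ≤ S.iv b * (S.qM y (r - 1) b + S.s / S.H0 * S.qN y (r - 1) b) := by
      rw [norm_mul, Complex.norm_real, Real.norm_of_nonneg (mul_nonneg hiv (S.piC_nonneg _))]
      refine mul_le_mul ?_ (S.q_shell y hr1 b) (norm_nonneg _) hiv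
      exact mul_le_of_le_one_right hiv (S.piC_le_one _)
    have n2 : ‖∑ d ∈ S.DD, (((if (d \ b).card = r then S.qP (d ∪ b) else 0)
            - S.iv b * S.piC (S.k' - r) * S.qG r b d : ℝ) : ℂ) * y d‖
        ≤ S.iv b * (2 * S.s / S.H0 * S.qN y r b) := by
      refine (norm_sum_le _ _).trans ?_
      unfold qN
      rw [mul_sum, mul_sum]
      refine sum_le_sum fun d hd => ?_
      rw [norm_mul, Complex.norm_real, Real.norm_eq_abs]
      calc _ ≤ S.iv b * (2 * S.s / S.H0) * S.qG r b d * ‖y d‖ :=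
            mul_le_mul_of_nonneg_right (S.qP_shell hb hd hr2) (norm_nonneg _)
        _ = _ := by ring
    rw [e2]
    refine (norm_add_le _ _).trans ?_
    rw [mul_add _ (_ + _)]
    exact add_le_add n1 n2

lemma q_expand (y : Finset ι → ℂ) :
    (S.Qf y : ℂ) = ∑ b ∈ S.DD, (starRingEnd ℂ) (y b) * ∑ d ∈ S.DD, (S.qP (d ∪ b) : ℂ) * y d := by
  unfold Qf qP
  push_cast
  simp_rw [sum_mul, mul_sum]
  rw [sum_congr rfl fun b _ => sum_comm, sum_comm]
  refine sum_congr rfl fun z _ => ?_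
  rw [← Complex.conj_mul', map_sum, sum_mul_sum, mul_sum]
  refine sum_congr rfl fun b _ => ?_
  rw [mul_sum]
  refine sum_congr rfl fun d _ => ?_
  by_cases h1 : b ⊆ z <;> by_cases h2 : d ⊆ z <;> simp [h1, h2, union_subset_iff]
  ring

theorem Qf_le (y : Finset ι → ℂ) :
    S.Qf y ≤ 2 * S.ny y + S.Λ ^ 2 * S.D' * (√(S.ny y) * √(S.nB y)) := by
  have hny : 0 ≤ S.ny y := sum_nonneg fun d _ => mul_nonneg (S.iv_pos _).le (by positivity)
  have hΛ := S.q_Λ_pos
  have hH := S.q_H0_pos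
  have hD : (0 : ℝ) ≤ S.D' := by positivity
  have h1 : S.Qf y ≤ ∑ b ∈ S.DD, ‖y b‖ * ‖∑ d ∈ S.DD, (S.qP (d ∪ b) : ℂ) * y d‖ := by
    calc S.Qf y ≤ ‖(S.Qf y : ℂ)‖ := by
          rw [Complex.norm_real]
          exact le_abs_self _
      _ ≤ _ := by
          rw [S.q_expand]
          refine (norm_sum_le _ _).trans (le_of_eq ?_)
          exact sum_congr rfl fun b _ => by rw [norm_mul, Complex.norm_conj]
  have h2 : ∑ b ∈ S.DD, ‖y b‖ * ‖∑ d ∈ S.DD, (S.qP (d ∪ b) : ℂ) * y d‖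
      ≤ S.ny y + ∑ r ∈ Icc 1 S.k', (∑ b ∈ S.DD, S.iv b * ‖y b‖ * S.qM y (r - 1) b
        + S.s / S.H0 * ∑ b ∈ S.DD, S.iv b * ‖y b‖ * S.qN y (r - 1) b
        + 2 * S.s / S.H0 * ∑ b ∈ S.DD, S.iv b * ‖y b‖ * S.qN y r b) := by
    simp_rw [mul_sum, ← sum_add_distrib]
    rw [sum_comm]
    unfold ny
    rw [← sum_add_distrib]
    refine sum_le_sum fun b hb => ?_
    refine (mul_le_mul_of_nonneg_left (S.q_inner y hb) (norm_nonneg _)).trans (le_of_eq ?_)
    rw [mul_add, mul_sum]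
    congr 1
    · ring
    · exact sum_congr rfl fun r _ => by ring
  have hX : 0 ≤ √(S.ny y) * √(S.nB y) := by positivity
  have h3 : ∑ r ∈ Icc 1 S.k', (∑ b ∈ S.DD, S.iv b * ‖y b‖ * S.qM y (r - 1) b
        + S.s / S.H0 * ∑ b ∈ S.DD, S.iv b * ‖y b‖ * S.qN y (r - 1) b
        + 2 * S.s / S.H0 * ∑ b ∈ S.DD, S.iv b * ‖y b‖ * S.qN y r b)
      ≤ ∑ _r ∈ Icc 1 S.k', (S.D' * S.Λ * (√(S.ny y) * √(S.nB y))
        + 3 * S.s / S.H0 * (S.D' * S.Λ * S.ny y)) := by
    refine sum_le_sum fun r hr => ?_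
    obtain ⟨hr1, hr2⟩ := mem_Icc.1 hr
    have a1 := S.q_MB y hr1 hr2
    have a2 := mul_le_mul_of_nonneg_left (S.q_KB y (r := r - 1) (by omega))
      (show (0 : ℝ) ≤ S.s / S.H0 by positivity)
    have a3 := mul_le_mul_of_nonneg_left (S.q_KB y hr2)
      (show (0 : ℝ) ≤ 2 * S.s / S.H0 by positivity)
    have : 3 * S.s / S.H0 * (S.D' * S.Λ * S.ny y) = S.s / S.H0 * (S.D' * S.Λ * S.ny y)
      + 2 * S.s / S.H0 * (S.D' * S.Λ * S.ny y) := by ring
    linarith
  rw [sum_const, Nat.card_Icc, add_tsub_cancel_right, nsmul_eq_mul, mul_add] at h3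
  have hk := S.k'_le_Λ
  have hs := S.s_le
  have h4 : (S.k' : ℝ) * (S.D' * S.Λ * (√(S.ny y) * √(S.nB y)))
      ≤ S.Λ ^ 2 * S.D' * (√(S.ny y) * √(S.nB y)) := by
    calc _ ≤ S.Λ * (S.D' * S.Λ * (√(S.ny y) * √(S.nB y))) :=
          mul_le_mul_of_nonneg_right hk (by positivity)
      _ = _ := by ring
  have h5 : (S.k' : ℝ) * (3 * S.s / S.H0 * (S.D' * S.Λ * S.ny y)) ≤ S.ny y := by
    have hm := S.mono_le_H0 (a := 0) (b := 1) (c := 0) (d := 4) (by norm_num) (by norm_num)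
      (by norm_num) (by norm_num)
    have h3Λ : (3 : ℝ) ≤ S.Λ := by
      have := S.big
      linarith
    have : (S.k' : ℝ) * (3 * S.s) * (S.D' * S.Λ) ≤ S.H0 := by
      calc _ ≤ S.Λ * (S.Λ * S.Λ) * (S.D' * S.Λ) := by gcongr
        _ = _ := by ring
        _ ≤ _ := hm
    calc _ = ((S.k' : ℝ) * (3 * S.s) * (S.D' * S.Λ) / S.H0) * S.ny y := by ring
      _ ≤ 1 * S.ny y := mul_le_mul_of_nonneg_right ((div_le_one hH).2 this) hny
      _ = _ := one_mul _
  linarith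

end Sys

end Pool.Agent.Work.MP_678620_nt
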