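import Pool.Agent.Work.MP_678620_nt.SPTII

/-! Norms of the coefficients at one frequency. -/

set_option autoImplicit false
open Finset Pool.Agent.Lib.LargeSieve

namespace Pool.Agent.Work.MP_678620_nt

lemma SPYd_reidx {ι β : Type*} [DecidableEq ι] [AddCommMonoid β] (E : Finset ι) (t j : ℕ)
    (Φ : Finset ι → Finset ι → β) :
    ∑ e ∈ E.powersetCard (t + j), ∑ a ∈ e.powersetCard t, Φ a (e \ a)
      = ∑ a ∈ E.powersetCard t, ∑ v ∈ (E \ a).powersetCard j, Φ a v := by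
  rw [sum_sigma', sum_sigma']
  refine sum_nbij' (fun x => ⟨x.2, x.1 \ x.2⟩) (fun x => ⟨x.1 ∪ x.2, x.1⟩) ?_ ?_ ?_ ?_ ?_
  · rintro ⟨e, a⟩ h
    simp only [mem_sigma, mem_powersetCard] at h ⊢
    obtain ⟨⟨h1, h2⟩, h3, h4⟩ := h
    refine ⟨⟨h3.trans h1, h4⟩, sdiff_subset_sdiff h1 Subset.rfl, ?_⟩
    rw [card_sdiff_of_subset h3]
    omega
  · rintro ⟨a, v⟩ h
    simp only [mem_sigma, mem_powersetCard] at h ⊢
    obtain ⟨⟨h1, h2⟩, h3, h4⟩ := h
    rw [subset_sdiff] at h3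
    refine ⟨⟨union_subset h1 h3.1, ?_⟩, subset_union_left, h2⟩
    rw [card_union_of_disjoint h3.2.symm, h2, h4]
  · rintro ⟨e, a⟩ h
    simp only [mem_sigma, mem_powersetCard] at h
    simp only [union_sdiff_of_subset h.2.1]
  · rintro ⟨a, v⟩ h
    simp only [mem_sigma, mem_powersetCard, subset_sdiff] at h
    simp only [union_sdiff_cancel_left h.2.1.2.symm]
  · rintro ⟨e, a⟩ _
    rfl

lemma SPYd_split {ι : Type*} [DecidableEq ι] {e : Finset ι} {p : ι} (hp : p ∉ e) (t : ℕ)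
    (F : Finset ι → ℂ) :
    ∑ a ∈ (insert p e).powersetCard (t + 1), F a
      = ∑ a ∈ e.powersetCard (t + 1), F a + ∑ c ∈ e.powersetCard t, F (insert p c) := by
  rw [powersetCard_succ_insert hp, sum_union, sum_image]
  · intro a ha b hb h
    have h1 : p ∉ a := fun h => hp ((mem_powersetCard.1 ha).1 h)
    have h2 : p ∉ b := fun h => hp ((mem_powersetCard.1 hb).1 h)
    rw [← erase_insert h1, ← erase_insert h2, h]
  · rw [disjoint_left]
    intro a ha hb
    obtain ⟨c, -, rfl⟩ := mem_image.1 hb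
    exact hp ((mem_powersetCard.1 ha).1 (mem_insert_self _ _))

namespace Sys

variable {ι : Type} [Fintype ι] [DecidableEq ι] (S : Sys ι)

lemma SPYd_iv {a e : Finset ι} (h : a ⊆ e) : S.iv e = S.iv a * S.iv (e \ a) := by
  rw [← S.iv_union disjoint_sdiff, union_sdiff_of_subset h]

theorem ny_yd {r : ℕ} (hr : r ≤ S.k) (w : Finset ι → ℂ) (B : Finset ι) (α : ℝ) :
    S.ny (S.yd r w B α) ≤ S.D * S.Λ * ∑ a ∈ S.AA r, S.iv a * ‖w a‖ ^ 2 := by
  have hrs : r ≤ S.s := hr.trans S.k_le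
  have h1 : S.ny (S.yd r w B α) ≤ S.D * ∑ d ∈ S.DD, ∑ a ∈ d.powersetCard (S.s - r),
      S.iv a * ‖w a‖ ^ 2 * S.iv (d \ a) := by
    rw [ny, mul_sum]
    refine sum_le_sum fun d hd => ?_
    have h2 : ‖S.yd r w B α d‖ ^ 2 ≤ S.D * ∑ a ∈ d.powersetCard (S.s - r), ‖w a‖ ^ 2 := by
      rw [yd, norm_mul, norm_ee, mul_one]
      refine (norm_sq_sum_le _ _).trans (mul_le_mul ?_ (sum_le_sum fun a _ => ?_)
        (sum_nonneg fun _ _ => by positivity) (by positivity))
      · rw [card_powersetCard, S.DD_card d hd, Nat.choose_symm hrs]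
        exact_mod_cast S.choose_le_D hr
      · split_ifs
        · exact le_rfl
        · simp
    refine (mul_le_mul_of_nonneg_left h2 (S.iv_pos d).le).trans (le_of_eq ?_)
    rw [mul_left_comm, mul_sum]
    congr 1
    refine sum_congr rfl fun a ha => ?_
    rw [S.SPYd_iv (mem_powersetCard.1 ha).1]
    ring
  rw [← S.sum_AV hrs fun a v => S.iv a * ‖w a‖ ^ 2 * S.iv v] at h1
  refine h1.trans ?_
  rw [mul_assoc]
  refine mul_le_mul_of_nonneg_left ?_ (by positivity)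
  rw [mul_sum]
  refine sum_le_sum fun a _ => ?_
  rw [← mul_sum, mul_comm S.Λ]
  exact mul_le_mul_of_nonneg_left (S.sum_iv_VV_le r a)
    (mul_nonneg (S.iv_pos a).le (by positivity))

/-- The bilinear sum of the type II estimate. -/
noncomputable def SPYd_G (α : ℝ) (x : ι → ℂ) (e : Finset ι) : ℂ :=
  ∑ p ∈ S.E \ e, if insert p e ∈ S.DD then
    (S.nu p : ℂ) * x p * ee (-(α * S.jp (insert p e))) else 0

lemma SPYd_Λ : 0 ≤ S.Λ ^ 3 / S.Q := by
  have := S.big
  positivity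

lemma SPYd_B1 {t j : ℕ} (hj : 1 ≤ j) (hD : (t + j).choose t ≤ S.D) {w : Finset ι → ℂ}
    (B : Finset ι) {α : ℝ} (hw : ∀ a ∈ S.E.powersetCard t, w a ≠ 0 → S.Minor a α) :
    ∑ e ∈ S.E.powersetCard (t + j), S.iv e * ‖∑ a ∈ e.powersetCard t,
        (if Disjoint (e \ a) B then w a else 0) *
          S.SPYd_G α (fun p => if p ∈ B then 0 else 1) e‖ ^ 2
      ≤ S.D * (S.Λ ^ 3 / S.Q * S.Λ) * ∑ a ∈ S.E.powersetCard t, S.iv a * ‖w a‖ ^ 2 := by
  have h1 : ∑ e ∈ S.E.powersetCard (t + j), S.iv e * ‖∑ a ∈ e.powersetCard t,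
        (if Disjoint (e \ a) B then w a else 0) *
          S.SPYd_G α (fun p => if p ∈ B then 0 else 1) e‖ ^ 2 ≤
      S.D * ∑ e ∈ S.E.powersetCard (t + j), ∑ a ∈ e.powersetCard t, S.iv a * ‖w a‖ ^ 2 *
        (S.iv (e \ a) * ‖S.SPYd_G α (fun p => if p ∈ B then 0 else 1) (a ∪ (e \ a))‖ ^ 2) := by
    rw [mul_sum]
    refine sum_le_sum fun e he => ?_
    have h2 : ‖∑ a ∈ e.powersetCard t, (if Disjoint (e \ a) B then w a else 0) *
          S.SPYd_G α (fun p => if p ∈ B then 0 else 1) e‖ ^ 2 ≤ S.D * ∑ a ∈ e.powersetCard t,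
          ‖w a‖ ^ 2 * ‖S.SPYd_G α (fun p => if p ∈ B then 0 else 1) e‖ ^ 2 := by
      refine (norm_sq_sum_le _ _).trans (mul_le_mul ?_ (sum_le_sum fun a _ => ?_)
        (sum_nonneg fun _ _ => by positivity) (by positivity))
      · rw [card_powersetCard, (mem_powersetCard.1 he).2]
        exact_mod_cast hD
      · split_ifs
        · rw [norm_mul, mul_pow]
        · rw [zero_mul, norm_zero, zero_pow two_ne_zero]
          positivity
    refine (mul_le_mul_of_nonneg_left h2 (S.iv_pos e).le).trans (le_of_eq ?_)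
    rw [mul_left_comm, mul_sum]
    congr 1
    refine sum_congr rfl fun a ha => ?_
    rw [S.SPYd_iv (mem_powersetCard.1 ha).1, union_sdiff_of_subset (mem_powersetCard.1 ha).1]
    ring
  rw [SPYd_reidx S.E t j fun a v => S.iv a * ‖w a‖ ^ 2 *
    (S.iv v * ‖S.SPYd_G α (fun p => if p ∈ B then 0 else 1) (a ∪ v)‖ ^ 2)] at h1
  refine h1.trans ?_
  rw [mul_assoc]
  refine mul_le_mul_of_nonneg_left ?_ (by positivity)
  rw [mul_sum]
  refine sum_le_sum fun a ha => ?_
  rw [← mul_sum, mul_comm (S.Λ ^ 3 / S.Q * S.Λ)]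
  by_cases h0 : w a = 0
  · simp [h0]
  refine mul_le_mul_of_nonneg_left ?_ (mul_nonneg (S.iv_pos a).le (by positivity))
  refine (S.typeII (mem_powersetCard.1 ha).1 (hw a ha h0) hj _).trans
    (mul_le_mul_of_nonneg_left ?_ S.SPYd_Λ)
  refine le_trans ?_ S.L_le
  refine le_trans (sum_le_sum fun p _ => ?_)
    (sum_le_sum_of_subset_of_nonneg sdiff_subset fun p _ _ => (S.nu_pos p).le)
  split_ifs
  · simpa using (S.nu_pos p).le
  · simp

lemma SPYd_B2 {t j : ℕ} (hj : 1 ≤ j) (hD : (t + j).choose t ≤ S.D) (ht : t + 1 ≤ S.s)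
    {w : Finset ι → ℂ} (B : Finset ι) {α : ℝ}
    (hw : ∀ a ∈ S.E.powersetCard (t + 1), w a ≠ 0 → S.Minor a α) :
    ∑ e ∈ S.E.powersetCard (t + j), S.iv e * ‖∑ c ∈ e.powersetCard t,
        (if Disjoint (e \ c) B then 1 else 0) * S.SPYd_G α (fun p => w (insert p c)) e‖ ^ 2
      ≤ S.D * (S.Λ ^ 3 / S.Q * S.Λ) * ∑ a ∈ S.E.powersetCard (t + 1), S.iv a * ‖w a‖ ^ 2 := by
  have h1 : ∑ e ∈ S.E.powersetCard (t + j), S.iv e * ‖∑ c ∈ e.powersetCard t,
        (if Disjoint (e \ c) B then 1 else 0) * S.SPYd_G α (fun p => w (insert p c)) e‖ ^ 2 ≤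
      S.D * ∑ e ∈ S.E.powersetCard (t + j), ∑ c ∈ e.powersetCard t, S.iv c *
        (S.iv (e \ c) * ‖S.SPYd_G α (fun p => w (insert p c)) (c ∪ (e \ c))‖ ^ 2) := by
    rw [mul_sum]
    refine sum_le_sum fun e he => ?_
    have h2 : ‖∑ c ∈ e.powersetCard t, (if Disjoint (e \ c) B then 1 else 0) *
          S.SPYd_G α (fun p => w (insert p c)) e‖ ^ 2 ≤ S.D * ∑ c ∈ e.powersetCard t,
          ‖S.SPYd_G α (fun p => w (insert p c)) e‖ ^ 2 := by
      refine (norm_sq_sum_le _ _).trans (mul_le_mul ?_ (sum_le_sum fun a _ => ?_)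
        (sum_nonneg fun _ _ => by positivity) (by positivity))
      · rw [card_powersetCard, (mem_powersetCard.1 he).2]
        exact_mod_cast hD
      · split_ifs
        · rw [one_mul]
        · rw [zero_mul, norm_zero, zero_pow two_ne_zero]
          positivity
    refine (mul_le_mul_of_nonneg_left h2 (S.iv_pos e).le).trans (le_of_eq ?_)
    rw [mul_left_comm, mul_sum]
    congr 1
    refine sum_congr rfl fun a ha => ?_
    rw [S.SPYd_iv (mem_powersetCard.1 ha).1, union_sdiff_of_subset (mem_powersetCard.1 ha).1]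
    ring
  rw [SPYd_reidx S.E t j fun c v => S.iv c *
    (S.iv v * ‖S.SPYd_G α (fun p => w (insert p c)) (c ∪ v)‖ ^ 2)] at h1
  have h3 : ∑ c ∈ S.E.powersetCard t, ∑ v ∈ (S.E \ c).powersetCard j, S.iv c *
      (S.iv v * ‖S.SPYd_G α (fun p => w (insert p c)) (c ∪ v)‖ ^ 2) ≤
      S.Λ ^ 3 / S.Q * ∑ c ∈ S.E.powersetCard t, ∑ v ∈ (S.E \ c).powersetCard 1,
        S.iv (c ∪ v) * ‖w (c ∪ v)‖ ^ 2 := by
    rw [mul_sum]
    refine sum_le_sum fun c hc => ?_
    obtain ⟨hcE, hct⟩ := mem_powersetCard.1 hc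
    have h4 : ∑ v ∈ (S.E \ c).powersetCard 1, S.iv (c ∪ v) * ‖w (c ∪ v)‖ ^ 2 =
        S.iv c * ∑ p ∈ S.E \ c, S.nu p * ‖w (insert p c)‖ ^ 2 := by
      rw [powersetCard_one, sum_map, mul_sum]
      refine sum_congr rfl fun p hp => ?_
      have h5 : c ∪ {p} = insert p c := by rw [union_comm]; rfl
      change S.iv (c ∪ {p}) * ‖w (c ∪ {p})‖ ^ 2 = _
      rw [h5, S.iv_insert (mem_sdiff.1 hp).2]
      ring
    rw [h4, ← mul_sum, mul_left_comm]
    refine mul_le_mul_of_nonneg_left ?_ (S.iv_pos c).le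
    by_cases h0 : ∀ p ∈ S.E \ c, w (insert p c) = 0
    · refine le_trans (le_of_eq (sum_eq_zero fun v _ => ?_)) (mul_nonneg S.SPYd_Λ
        (sum_nonneg fun p _ => mul_nonneg (S.nu_pos p).le (by positivity)))
      have : S.SPYd_G α (fun p => w (insert p c)) (c ∪ v) = 0 := by
        refine sum_eq_zero fun p hp => ?_
        have := h0 p (sdiff_subset_sdiff Subset.rfl subset_union_left hp)
        simp [this]
      simp [this]
    · push Not at h0
      obtain ⟨p, hp, hp0⟩ := h0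
      obtain ⟨hp1, hp2⟩ := mem_sdiff.1 hp
      have h5 := hw (insert p c) (mem_powersetCard.2
        ⟨insert_subset hp1 hcE, by rw [card_insert_of_notMem hp2, hct]⟩) hp0
      exact S.typeII hcE (h5.mono (subset_insert _ _)) hj _
  rw [← SPYd_reidx S.E t 1 fun c v => S.iv (c ∪ v) * ‖w (c ∪ v)‖ ^ 2] at h3
  refine h1.trans ?_
  rw [mul_assoc]
  refine mul_le_mul_of_nonneg_left (h3.trans ?_) (by positivity)
  rw [mul_assoc]
  refine mul_le_mul_of_nonneg_left ?_ S.SPYd_Λ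
  rw [mul_sum]
  refine sum_le_sum fun a ha => ?_
  rw [sum_congr rfl (g := fun _ => S.iv a * ‖w a‖ ^ 2) fun c hc => by
    rw [union_sdiff_of_subset (mem_powersetCard.1 hc).1], sum_const, card_powersetCard,
    (mem_powersetCard.1 ha).2, Nat.choose_succ_self_right, nsmul_eq_mul]
  refine mul_le_mul_of_nonneg_right (le_trans ?_ S.s_le)
    (mul_nonneg (S.iv_pos a).le (by positivity))
  exact_mod_cast ht

lemma SPYd_one {e : Finset ι} (t : ℕ) (w : Finset ι → ℂ) (B : Finset ι) (α : ℝ) :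
    (∑ p ∈ S.E \ e, if insert p e ∈ S.DD then (S.nu p : ℂ) * ((∑ a ∈ e.powersetCard t,
      if Disjoint (insert p e \ a) B then w a else 0) * ee (-(α * S.jp (insert p e)))) else 0) =
    ∑ a ∈ e.powersetCard t, (if Disjoint (e \ a) B then w a else 0) *
      S.SPYd_G α (fun p => if p ∈ B then 0 else 1) e := by
  simp only [SPYd_G, mul_sum]
  rw [sum_comm]
  refine sum_congr rfl fun p hp => ?_
  by_cases hd : insert p e ∈ S.DD
  · simp only [if_pos hd, sum_mul, mul_sum]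
    refine sum_congr rfl fun a ha => ?_
    have h1 : p ∉ a := fun h => (mem_sdiff.1 hp).2 ((mem_powersetCard.1 ha).1 h)
    rw [insert_sdiff_of_notMem _ h1]
    by_cases h2 : p ∈ B <;> by_cases h3 : Disjoint (e \ a) B <;> simp [h2, h3]
    ring
  · simp [hd]

lemma SPYd_two {e : Finset ι} (t : ℕ) (w : Finset ι → ℂ) (B : Finset ι) (α : ℝ) :
    (∑ p ∈ S.E \ e, if insert p e ∈ S.DD then (S.nu p : ℂ) * ((∑ c ∈ e.powersetCard t,
      if Disjoint (insert p e \ insert p c) B then w (insert p c) else 0) *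
        ee (-(α * S.jp (insert p e)))) else 0) =
    ∑ c ∈ e.powersetCard t, (if Disjoint (e \ c) B then 1 else 0) *
      S.SPYd_G α (fun p => w (insert p c)) e := by
  simp only [SPYd_G, mul_sum]
  rw [sum_comm]
  refine sum_congr rfl fun p hp => ?_
  by_cases hd : insert p e ∈ S.DD
  · simp only [if_pos hd, sum_mul, mul_sum]
    refine sum_congr rfl fun c hc => ?_
    have h1 : insert p e \ insert p c = e \ c := by
      rw [insert_sdiff_insert, sdiff_insert_of_notMem (mem_sdiff.1 hp).2]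
    rw [h1]
    by_cases h3 : Disjoint (e \ c) B <;> simp [h3]
    ring
  · simp [hd]

theorem nB_yd {r : ℕ} (hr2 : 2 ≤ r) (hr : r ≤ S.k) {w : Finset ι → ℂ} (B : Finset ι) {α : ℝ}
    (hw : ∀ a ∈ S.AA r, w a ≠ 0 → S.Minor a α) :
    S.nB (S.yd r w B α) ≤ 4 * S.D * S.Λ ^ 4 / S.Q * ∑ a ∈ S.AA r, S.iv a * ‖w a‖ ^ 2 := by
  have hrs : r ≤ S.s := hr.trans S.k_le
  have hD := S.choose_le_D hr
  have hK : 4 * S.D * S.Λ ^ 4 / S.Q = 4 * (S.D * (S.Λ ^ 3 / S.Q * S.Λ)) := by ring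
  have hK0 : 0 ≤ S.D * (S.Λ ^ 3 / S.Q * S.Λ) := by
    have := S.big
    have := S.SPYd_Λ
    positivity
  have hS : 0 ≤ ∑ a ∈ S.AA r, S.iv a * ‖w a‖ ^ 2 :=
    sum_nonneg fun a _ => mul_nonneg (S.iv_pos a).le (by positivity)
  have hKS := mul_nonneg hK0 hS
  have e1 : S.s - r + (r - 1) = S.s - 1 := by omega
  have b1 := S.SPYd_B1 (t := S.s - r) (j := r - 1) (by omega) (by
    refine le_trans (Nat.choose_le_choose _ (by omega : S.s - r + (r - 1) ≤ S.s)) ?_
    rwa [Nat.choose_symm hrs]) B hw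
  rw [e1] at b1
  rw [hK, nB]
  unfold AA at hw hS hKS ⊢
  simp only [yd]
  rcases Nat.eq_zero_or_pos (S.s - r) with h0 | h0
  · refine le_trans (le_of_eq (sum_congr rfl fun e _ => ?_)) (b1.trans (by linarith))
    rw [← S.SPYd_one]
    simp only [h0, powersetCard_zero]
  · obtain ⟨t, ht⟩ : ∃ t, S.s - r = t + 1 := ⟨S.s - r - 1, by omega⟩
    have e2 : t + r = S.s - 1 := by omega
    rw [ht] at hw b1 hKS ⊢
    have b2 := S.SPYd_B2 (t := t) (j := r) (by omega) (by
      rw [Nat.choose_symm_add]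
      exact le_trans (Nat.choose_le_choose _ (by omega : t + r ≤ S.s)) hD) (by omega) B hw
    rw [e2] at b2
    refine le_trans (sum_le_sum fun e _ => ?_) (le_trans (le_of_eq sum_add_distrib)
      (le_trans (add_le_add (le_of_eq (mul_sum _ _ _).symm) (le_of_eq (mul_sum _ _ _).symm))
        (le_trans (add_le_add (mul_le_mul_of_nonneg_left b1 zero_le_two)
          (mul_le_mul_of_nonneg_left b2 zero_le_two)) (le_of_eq (by ring)))))
    rw [mul_left_comm 2, mul_left_comm 2, ← mul_add]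
    refine mul_le_mul_of_nonneg_left (le_trans (le_of_eq ?_) (norm_add_sq_le _ _))
      (S.iv_pos e).le
    rw [← S.SPYd_one, ← S.SPYd_two, ← sum_add_distrib]
    congr 2
    refine sum_congr rfl fun p hp => ?_
    rw [SPYd_split (mem_sdiff.1 hp).2]
    split_ifs
    · ring
    · simp

end Sys

end Pool.Agent.Work.MP_678620_nt
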