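import Pool.Agent.Work.MP_678620_nt.SPKer
import Pool.Agent.Work.MP_678620_nt.SPDual
import Pool.Agent.Work.MP_678620_nt.SPDec
import Pool.Agent.Work.MP_678620_nt.SPQ
import Pool.Agent.Work.MP_678620_nt.SPYd

/-! The minor arc part is small. -/

set_option autoImplicit false
open Finset Pool.Agent.Lib.LargeSieve

namespace Pool.Agent.Work.MP_678620_nt

/-- Solving a quadratic inequality. -/
lemma le_of_sq_le_lin {N a b t : ℝ} (ha : 0 ≤ a) (hb : 0 ≤ b) (ht : 0 ≤ t)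
    (h : N ^ 2 ≤ (a * N + b ^ 2 * t) * t) : N ≤ (a + b) * t := by
  by_contra hc
  rw [not_le] at hc
  have h1 : 0 ≤ a * t := mul_nonneg ha ht
  have h2 : 0 ≤ b * t := mul_nonneg hb ht
  have hN : 0 < N := by nlinarith only [hc, h1, h2]
  have h3 : b * t ≤ N := by nlinarith only [hc, h1]
  have h4 : (a + b) * t * N < N * N := mul_lt_mul_of_pos_right hc hN
  have h5 : b * t * (b * t) ≤ b * t * N := mul_le_mul_of_nonneg_left h3 h2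
  nlinarith only [h, h4, h5]

namespace Sys

variable {ι : Type} [Fintype ι] [DecidableEq ι] (S : Sys ι)

lemma one_le_Λ3 : 1 ≤ S.Λ := le_trans (by norm_num) S.big

lemma N2_nonneg (r : ℕ) (f : S.G → ℂ) : 0 ≤ S.N2 r f :=
  sum_nonneg fun a _ => mul_nonneg (S.iv_pos a).le (S.nn_nonneg _)

lemma indep_PW {r : ℕ} (f : S.G → ℂ) : ∀ a ∈ S.AA r, S.Indep a (S.Pa a (S.Wa r a f)) :=
  fun a ha => S.indep_proj _ (S.mem_AA.1 ha).1 (S.indep_Wa r a f)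

/-- The minor arc norm as an inner product with the dual function. -/
lemma N2_eq_ip (r : ℕ) (f : S.G → ℂ) :
    (S.N2 r f : ℂ) = S.ip (S.YY r fun a => S.Pa a (S.Wa r a f)) f := by
  rw [← S.dual (S.indep_PW f) f, N2, Complex.ofReal_sum]
  refine sum_congr rfl fun a _ => ?_
  rw [Complex.ofReal_mul]
  congr 1
  exact (S.ip_proj _ _).symm

/-- Only the class of `f` matters in an inner product with `f`. -/
lemma norm_ip_sq_le {f : S.G → ℂ} (hf : S.Supp f) (Y : S.G → ℂ) :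
    ‖S.ip Y f‖ ^ 2 ≤
      (∑ y, if (S.Zs y).card = S.s + S.k' then ‖Y y‖ ^ 2 else 0) * S.nn f := by
  have e1 : S.ip Y f = S.ip (fun y => if (S.Zs y).card = S.s + S.k' then Y y else 0) f := by
    unfold ip
    refine sum_congr rfl fun y _ => ?_
    by_cases hy : (S.Zs y).card = S.s + S.k'
    · simp only [if_pos hy]
    · have h0 : f y = 0 := by
        by_contra h
        exact hy (hf y h).1
      rw [h0, mul_zero, mul_zero]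
  have e2 : S.nn (fun y => if (S.Zs y).card = S.s + S.k' then Y y else 0)
      = ∑ y, if (S.Zs y).card = S.s + S.k' then ‖Y y‖ ^ 2 else 0 := by
    unfold nn
    refine sum_congr rfl fun y _ => ?_
    by_cases hy : (S.Zs y).card = S.s + S.k'
    · simp only [if_pos hy]
    · simp only [if_neg hy, norm_zero, zero_pow two_ne_zero]
  rw [e1, ← e2]
  refine (pow_le_pow_left₀ (norm_nonneg _) (S.norm_ip_le _ f) 2).trans_eq ?_
  rw [mul_pow, Real.sq_sqrt (S.nn_nonneg _), Real.sq_sqrt (S.nn_nonneg _)]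

/-- The quadratic form at a minor frequency. -/
lemma Qf_yd_le {r : ℕ} (hr2 : 2 ≤ r) (hr : r ≤ S.k) {w : Finset ι → ℂ} (B : Finset ι) {α : ℝ}
    (hw : ∀ a ∈ S.AA r, w a ≠ 0 → S.Minor a α) :
    S.Qf (S.yd r w B α) ≤ 2 * S.Λ ^ 5 * (S.D * S.D' * (1 / S.D' + 1 / √S.Q)) *
      ∑ a ∈ S.AA r, S.iv a * ‖w a‖ ^ 2 := by
  have h1 := S.ny_yd hr w B α
  have h2 := S.nB_yd hr2 hr B hw
  have h3 := S.Qf_le (S.yd r w B α)
  have hW : 0 ≤ ∑ a ∈ S.AA r, S.iv a * ‖w a‖ ^ 2 :=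
    sum_nonneg fun a _ => mul_nonneg (S.iv_pos a).le (sq_nonneg _)
  generalize ∑ a ∈ S.AA r, S.iv a * ‖w a‖ ^ 2 = W at h1 h2 hW ⊢
  have hΛ := S.one_le_Λ3
  have hΛ0 : 0 ≤ S.Λ := zero_le_one.trans hΛ
  have hD : (0 : ℝ) ≤ S.D := Nat.cast_nonneg _
  have hD' : (0 : ℝ) < S.D' := by exact_mod_cast S.one_le_D'
  have hQ : (0 : ℝ) < S.Q := by
    have := S.Q_ge
    exact_mod_cast (by omega : 0 < S.Q)
  have hq : 0 < √(S.Q : ℝ) := Real.sqrt_pos.2 hQ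
  have hqq : √(S.Q : ℝ) ^ 2 = S.Q := Real.sq_sqrt hQ.le
  have hA : 0 ≤ (S.D : ℝ) * S.Λ * W := by positivity
  have h4 : √(S.ny (S.yd r w B α)) * √(S.nB (S.yd r w B α))
      ≤ 2 * S.D * S.Λ ^ 3 / √S.Q * W := by
    refine (mul_le_mul (Real.sqrt_le_sqrt h1) (Real.sqrt_le_sqrt h2) (Real.sqrt_nonneg _)
      (Real.sqrt_nonneg _)).trans ?_
    rw [← Real.sqrt_mul hA]
    refine Real.sqrt_le_iff.2 ⟨by positivity, ?_⟩
    have e : (2 * S.D * S.Λ ^ 3 / √S.Q * W) ^ 2 = 4 * (S.D : ℝ) ^ 2 * W ^ 2 / S.Q * S.Λ ^ 6 := by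
      rw [mul_pow, div_pow, hqq]; ring
    have e' : (S.D : ℝ) * S.Λ * W * (4 * S.D * S.Λ ^ 4 / S.Q * W)
        = 4 * (S.D : ℝ) ^ 2 * W ^ 2 / S.Q * S.Λ ^ 5 := by ring
    rw [e, e']
    exact mul_le_mul_of_nonneg_left (pow_le_pow_right₀ hΛ (by norm_num)) (by positivity)
  have h5 : S.Λ ^ 2 * S.D' * (√(S.ny (S.yd r w B α)) * √(S.nB (S.yd r w B α)))
      ≤ S.Λ ^ 2 * S.D' * (2 * S.D * S.Λ ^ 3 / √S.Q * W) :=
    mul_le_mul_of_nonneg_left h4 (by positivity)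
  have h6 : (S.D : ℝ) * S.Λ * W ≤ S.D * S.Λ ^ 5 * W :=
    mul_le_mul_of_nonneg_right
      (mul_le_mul_of_nonneg_left (le_self_pow₀ hΛ (by norm_num)) hD) hW
  have e : 2 * S.Λ ^ 5 * (S.D * S.D' * (1 / S.D' + 1 / √S.Q)) * W
      = 2 * (S.D * S.Λ ^ 5 * W) + S.Λ ^ 2 * S.D' * (2 * S.D * S.Λ ^ 3 / √S.Q * W) := by
    field_simp
  rw [e]
  linarith only [h3, h1, h5, h6]

/-- The dual function with frozen zero set is small on average. -/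
lemma sum_YZ_le {r : ℕ} (hr2 : 2 ≤ r) (hr : r ≤ S.k) (f : S.G → ℂ) :
    ∑ z ∈ S.E.powersetCard (S.s + S.k'),
        S.Pz z * S.nn (S.YZ r (fun a => S.Pa a (S.Wa r a f)) z)
      ≤ 2 * S.Λ ^ 5 * (S.D * S.D' * (1 / S.D' + 1 / √S.Q)) * S.N2 r f := by
  have hc : (0 : ℝ) < Fintype.card S.G := by exact_mod_cast Fintype.card_pos
  refine le_of_mul_le_mul_left ?_ hc
  rw [S.pars_YZ (hr.trans S.k_le)]
  have hb : ∀ ψ : AddChar S.G ℂ,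
      S.Qf (S.yd r (fun a => S.fh (S.Pa a (S.Wa r a f)) ψ) (S.supp ψ) (S.al ψ))
        ≤ 2 * S.Λ ^ 5 * (S.D * S.D' * (1 / S.D' + 1 / √S.Q)) *
          ∑ a ∈ S.AA r, S.iv a * ‖S.fh (S.Pa a (S.Wa r a f)) ψ‖ ^ 2 := by
    intro ψ
    refine S.Qf_yd_le hr2 hr _ fun a _ ha => ?_
    by_contra hm
    apply ha
    unfold Pa
    rw [S.fh_proj, if_neg hm]
  refine (sum_le_sum fun ψ _ => hb ψ).trans_eq ?_
  have e : ∑ ψ : AddChar S.G ℂ, ∑ a ∈ S.AA r, S.iv a * ‖S.fh (S.Pa a (S.Wa r a f)) ψ‖ ^ 2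
      = Fintype.card S.G * S.N2 r f := by
    rw [sum_comm, N2, mul_sum]
    refine sum_congr rfl fun a _ => ?_
    rw [← mul_sum, ← S.parseval, mul_left_comm]
  rw [← mul_sum, e, mul_left_comm]

/-- The influences of the projected averages. -/
lemma sum_inf_PW {r : ℕ} (hr : r ≤ S.k) {M : ℝ} (hM : 1 ≤ M) (hMΛ : M ≤ S.Λ)
    {f : S.G → ℂ} (hf : S.Supp f) :
    ∑ a ∈ S.AA r, S.iv a * S.inf (S.Pa a (S.Wa r a f)) ≤ S.Λ ^ 2 * S.D * S.D' * S.tn M f := by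
  have hM0 : 0 < M := zero_lt_one.trans_le hM
  have hΛ0 : 0 ≤ S.Λ := zero_le_one.trans S.one_le_Λ3
  have ht : 0 ≤ S.tn M f := (S.nn_nonneg f).trans (S.nn_le_tn hM0 f)
  have h1 : ∑ a ∈ S.AA r, S.iv a * S.inf (S.Pa a (S.Wa r a f))
      ≤ ∑ a ∈ S.AA r, S.iv a * S.inf (S.Wa r a f) :=
    sum_le_sum fun a _ => mul_le_mul_of_nonneg_left (S.inf_proj_le _ _) (S.iv_pos a).le
  have h2 : S.inf f ≤ S.Λ * S.tn M f :=
    (S.inf_le_tn hM0 f).trans (mul_le_mul_of_nonneg_right hMΛ ht)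
  refine h1.trans ((S.sum_inf_Wa hr hf).trans ?_)
  refine (mul_le_mul_of_nonneg_left h2 (by positivity)).trans_eq ?_
  ring

theorem N2_le {r : ℕ} (hr2 : 2 ≤ r) (hr : r ≤ S.k) {M : ℝ} (hM : 1 ≤ M) (hMΛ : M ≤ S.Λ)
    {f : S.G → ℂ} (hf : S.Supp f) :
    S.N2 r f ≤ S.Λ ^ 8 * S.D * S.D' * (1 / S.D' + 1 / √S.Q) * S.tn M f := by
  have hM0 : 0 < M := zero_lt_one.trans_le hM
  have hΛ := S.big
  have hΛ0 : 0 < S.Λ := lt_of_lt_of_le (by norm_num) hΛ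
  have hD : (0 : ℝ) ≤ S.D := Nat.cast_nonneg _
  have hD' : (0 : ℝ) < S.D' := by exact_mod_cast S.one_le_D'
  have hH : 0 < S.H0 := lt_of_lt_of_le (by positivity) S.H0_big
  have hN := S.N2_nonneg r f
  have hnn := S.nn_nonneg f
  have hnt := S.nn_le_tn hM0 f
  have ht : 0 ≤ S.tn M f := hnn.trans hnt
  have h1 := S.norm_ip_sq_le hf (S.YY r fun a => S.Pa a (S.Wa r a f))
  rw [← S.N2_eq_ip, Complex.norm_real, Real.norm_of_nonneg hN] at h1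
  have h2 := S.dec_YY (one_le_two.trans hr2) hr (S.indep_PW (r := r) f)
  have h3 := S.sum_YZ_le hr2 hr f
  have h4 := S.sum_inf_PW hr hM hMΛ hf
  have hX : (S.D : ℝ) ≤ S.D * S.D' * (1 / S.D' + 1 / √S.Q) := by
    have e : (S.D : ℝ) * S.D' * (1 / S.D' + 1 / √S.Q) = S.D + S.D * S.D' * (1 / √S.Q) := by
      field_simp
    rw [e]
    exact le_add_of_nonneg_right (by positivity)
  have e0 : S.Λ ^ 8 * S.D * S.D' * (1 / S.D' + 1 / √S.Q)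
      = S.Λ ^ 8 * (S.D * S.D' * (1 / S.D' + 1 / √S.Q)) := by ring
  rw [e0]
  generalize (S.D : ℝ) * S.D' * (1 / S.D' + 1 / √S.Q) = X at h3 hX ⊢
  have hX0 : 0 ≤ X := hD.trans hX
  have h5 : 12 * S.Λ ^ 6 * (S.D' : ℝ) ^ 2 ≤ S.H0 := by
    have h := S.mono_le_H0 (a := 0) (b := 2) (c := 0) (d := 7) (by norm_num) (by norm_num)
      (by norm_num) (by norm_num)
    refine le_trans ?_ h
    have h12 : 12 * (S.Λ ^ 6 * (S.D' : ℝ) ^ 2) ≤ S.Λ * (S.Λ ^ 6 * (S.D' : ℝ) ^ 2) :=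
      mul_le_mul_of_nonneg_right (by linarith only [hΛ]) (by positivity)
    calc 12 * S.Λ ^ 6 * (S.D' : ℝ) ^ 2 = 12 * (S.Λ ^ 6 * (S.D' : ℝ) ^ 2) := by ring
      _ ≤ S.Λ * (S.Λ ^ 6 * (S.D' : ℝ) ^ 2) := h12
      _ = _ := by ring
  have h6 : 12 * S.Λ ^ 4 / S.H0 * S.D * S.D' *
      ∑ a ∈ S.AA r, S.iv a * S.inf (S.Pa a (S.Wa r a f)) ≤ (S.D : ℝ) ^ 2 * S.tn M f := by
    refine (mul_le_mul_of_nonneg_left h4 (by positivity)).trans ?_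
    have e : 12 * S.Λ ^ 4 / S.H0 * S.D * S.D' * (S.Λ ^ 2 * S.D * S.D' * S.tn M f)
        = 12 * S.Λ ^ 6 * (S.D' : ℝ) ^ 2 / S.H0 * ((S.D : ℝ) ^ 2 * S.tn M f) := by ring
    rw [e]
    exact mul_le_of_le_one_left (by positivity) ((div_le_one hH).2 h5)
  have h7 : 2 * S.Λ ^ 2 * ∑ z ∈ S.E.powersetCard (S.s + S.k'),
      S.Pz z * S.nn (S.YZ r (fun a => S.Pa a (S.Wa r a f)) z) ≤ 4 * S.Λ ^ 7 * X * S.N2 r f := by
    refine (mul_le_mul_of_nonneg_left h3 (by positivity)).trans_eq ?_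
    ring
  have h8 : S.N2 r f ^ 2 ≤ (4 * S.Λ ^ 7 * X * S.N2 r f + (S.D : ℝ) ^ 2 * S.tn M f) * S.tn M f :=
    h1.trans (mul_le_mul (h2.trans (add_le_add h7 h6)) hnt hnn (by positivity))
  refine (le_of_sq_le_lin (by positivity) hD ht h8).trans (mul_le_mul_of_nonneg_right ?_ ht)
  have h9 : (1 : ℝ) ≤ S.Λ ^ 7 := one_le_pow₀ (by linarith only [hΛ])
  have h10 : 5 * S.Λ ^ 7 ≤ S.Λ * S.Λ ^ 7 := mul_le_mul_of_nonneg_right (by linarith only [hΛ]) (by positivity)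
  have h11 : (4 * S.Λ ^ 7 + 1) * X ≤ S.Λ ^ 8 * X := by
    refine mul_le_mul_of_nonneg_right ?_ hX0
    calc 4 * S.Λ ^ 7 + 1 ≤ S.Λ * S.Λ ^ 7 := by linarith only [h9, h10]
      _ = S.Λ ^ 8 := by ring
  linarith only [hX, h11]

lemma ip_Wa_sub {r : ℕ} (hr2 : 2 ≤ r) (a : Finset ι) (g w : S.G → ℂ) :
    ‖S.ip (S.Wa r a g) w - S.ip (S.Wa r a g) (S.Ka a w)‖
      ≤ 20 / S.Q * (√(S.nn (S.Wa r a g)) * √(S.nn w))
        + √(S.nn (S.Pa a (S.Wa r a g))) * √(S.nn (S.Pa a w)) := by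
  rcases (S.VV r a).eq_empty_or_nonempty with h | ⟨v, hv⟩
  · have h0 : ∀ u : S.G → ℂ, S.ip (S.Wa r a g) u = 0 := by
      intro u
      unfold ip Wa
      rw [h]
      simp
    rw [h0, h0, sub_zero, norm_zero]
    positivity
  · exact S.ip_sub_Ka hr2 hv _ _

theorem MW_sub_MK {r : ℕ} (hr2 : 2 ≤ r) (hr : r ≤ S.k) {g f : S.G → ℂ} (hg : S.Supp g)
    (hf : S.Supp f) :
    ‖S.MW r g f - S.MK r g f‖ ≤ 20 / S.Q * (S.Λ * S.D * S.D') * (√(S.nn g) * √(S.nn f))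
      + √(S.N2 r g) * √(S.N2 r f) := by
  have hΛ0 : 0 ≤ S.Λ := zero_le_one.trans S.one_le_Λ3
  have hiv : ∀ a ∈ S.AA r, 0 ≤ S.iv a := fun a _ => (S.iv_pos a).le
  have hC : (0 : ℝ) ≤ S.Λ * S.D * S.D' := by positivity
  have h1 : ‖S.MW r g f - S.MK r g f‖ ≤ ∑ a ∈ S.AA r, S.iv a *
      (20 / S.Q * (√(S.nn (S.Wa r a g)) * √(S.nn (S.Wa r a f)))
        + √(S.nn (S.Pa a (S.Wa r a g))) * √(S.nn (S.Pa a (S.Wa r a f)))) := by
    rw [MW, MK, ← sum_sub_distrib]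
    refine (norm_sum_le _ _).trans (sum_le_sum fun a ha => ?_)
    rw [← mul_sub, norm_mul, Complex.norm_real, Real.norm_of_nonneg (hiv a ha)]
    exact mul_le_mul_of_nonneg_left (S.ip_Wa_sub hr2 a g _) (hiv a ha)
  have h2 := cs_sqrt (S.AA r) (A := fun a => S.nn (S.Wa r a g))
    (B := fun a => S.nn (S.Wa r a f)) hiv (fun _ _ => S.nn_nonneg _) fun _ _ => S.nn_nonneg _
  have h3 := cs_sqrt (S.AA r) (A := fun a => S.nn (S.Pa a (S.Wa r a g)))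
    (B := fun a => S.nn (S.Pa a (S.Wa r a f))) hiv (fun _ _ => S.nn_nonneg _)
    fun _ _ => S.nn_nonneg _
  have h4 : √(∑ a ∈ S.AA r, S.iv a * S.nn (S.Wa r a g)) *
      √(∑ a ∈ S.AA r, S.iv a * S.nn (S.Wa r a f))
        ≤ S.Λ * S.D * S.D' * (√(S.nn g) * √(S.nn f)) := by
    refine (mul_le_mul (Real.sqrt_le_sqrt (S.sum_nn_Wa hr hg))
      (Real.sqrt_le_sqrt (S.sum_nn_Wa hr hf)) (Real.sqrt_nonneg _) (Real.sqrt_nonneg _)).trans_eq ?_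
    rw [Real.sqrt_mul hC, Real.sqrt_mul hC, mul_mul_mul_comm, Real.mul_self_sqrt hC]
  have h5 : (0 : ℝ) ≤ 20 / S.Q := by positivity
  refine h1.trans ?_
  have e : ∑ a ∈ S.AA r, S.iv a *
      (20 / S.Q * (√(S.nn (S.Wa r a g)) * √(S.nn (S.Wa r a f)))
        + √(S.nn (S.Pa a (S.Wa r a g))) * √(S.nn (S.Pa a (S.Wa r a f))))
      = 20 / S.Q * ∑ a ∈ S.AA r, S.iv a * (√(S.nn (S.Wa r a g)) * √(S.nn (S.Wa r a f)))
        + ∑ a ∈ S.AA r, S.iv a *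
          (√(S.nn (S.Pa a (S.Wa r a g))) * √(S.nn (S.Pa a (S.Wa r a f)))) := by
    rw [mul_sum, ← sum_add_distrib]
    exact sum_congr rfl fun a _ => by ring
  rw [e, mul_assoc]
  exact add_le_add (mul_le_mul_of_nonneg_left (h2.trans h4) h5) h3

end Sys

end Pool.Agent.Work.MP_678620_nt
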