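import Pool.Agent.Work.MP_678620_nt.SPI1
import Pool.Agent.Work.MP_678620_nt.SPII
import Pool.Agent.Work.MP_678620_nt.SPIII
import Pool.Agent.Work.MP_678620_nt.SPForm

/-! The core lemma. -/

set_option autoImplicit false
open Finset Pool.Agent.Lib.LargeSieve

namespace Pool.Agent.Work.MP_678620_nt

namespace Sys

variable {ι : Type} [Fintype ι] [DecidableEq ι] (S : Sys ι)

lemma core_sq {M : ℝ} (hM : 1 ≤ M) (hMΛ : M ≤ S.Λ) {f : S.G → ℂ} (hf : S.Supp f) :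
    √(S.nn f) ≤ √(S.tn M f) ∧ √(S.Err f) ≤ 4 * S.Λ ^ 2 * √(S.tn M f) ∧
      √(S.inf f / S.H0) ≤ ((S.Q : ℝ) ^ 5 * S.Λ ^ 2)⁻¹ * √(S.tn M f) := by
  have hM0 : 0 < M := by linarith
  have hΛ := S.big
  have hH : 0 < S.H0 := lt_of_lt_of_le (by norm_num) S.H0_big
  have hQ : (2 : ℝ) ≤ S.Q := by exact_mod_cast S.Q_ge
  have ht : 0 ≤ S.tn M f := (S.nn_nonneg f).trans (S.nn_le_tn hM0 f)
  have hi : S.inf f ≤ S.Λ * S.tn M f :=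
    (S.inf_le_tn hM0 f).trans (mul_le_mul_of_nonneg_right hMΛ ht)
  refine ⟨Real.sqrt_le_sqrt (S.nn_le_tn hM0 f), ?_, ?_⟩
  · refine Real.sqrt_le_iff.2 ⟨by positivity, ?_⟩
    rw [mul_pow, Real.sq_sqrt ht]
    calc _ ≤ 16 * S.Λ ^ 3 * S.inf f := S.Err_le hf
      _ ≤ 16 * S.Λ ^ 3 * (S.Λ * S.tn M f) := mul_le_mul_of_nonneg_left hi (by positivity)
      _ = _ := by ring
  · refine Real.sqrt_le_iff.2 ⟨by positivity, ?_⟩
    rw [mul_pow, Real.sq_sqrt ht, div_le_iff₀ hH]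
    have h1 := S.mono_le_H0 (a := 0) (b := 0) (c := 10) (d := 5) (by norm_num) (by norm_num)
      (by norm_num) (by norm_num)
    calc _ ≤ S.Λ * S.tn M f := hi
      _ = ((S.Q : ℝ) ^ 5 * S.Λ ^ 2)⁻¹ ^ 2 * S.tn M f *
          ((S.D : ℝ) ^ 0 * (S.D' : ℝ) ^ 0 * (S.Q : ℝ) ^ 10 * S.Λ ^ 5) := by
          field_simp
      _ ≤ _ := mul_le_mul_of_nonneg_left h1 (by positivity)

lemma core_num {Λ Q H a b c : ℝ} (hΛ : 100 ≤ Λ) (hQ : 2 ≤ Q) (hH : Q ^ 3 * Λ ^ 3 ≤ H)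
    (ha : 0 ≤ a) (hb : 1 / Q ≤ b) (hc : c ≤ a) :
    16 * Λ ^ 3 * a + 3 * Λ ^ 2 / H + (20 / Q * Λ + Λ ^ 8 * (c + b)) +
      (32 * Q ^ 4 * Λ * (Q ^ 5 * Λ ^ 2)⁻¹ + 2 * Q ^ 2 * (Λ ^ 2 / H)) ≤ 2 * Λ ^ 8 * (a + b) := by
  have hΛ0 : 0 < Λ := by linarith
  have hQ0 : 0 < Q := by linarith
  have hb0 : 0 ≤ b := le_trans (by positivity) hb
  have h1 : Q ^ 2 * (Λ ^ 2 / H) ≤ b := by
    refine le_trans ?_ hb
    calc Q ^ 2 * (Λ ^ 2 / H) ≤ Q ^ 2 * (Λ ^ 2 / (Q ^ 3 * Λ ^ 3)) := by gcongr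
      _ = 1 / Q * (1 / Λ) := by field_simp
      _ ≤ 1 / Q := mul_le_of_le_one_right (by positivity) (by rw [div_le_one hΛ0]; linarith)
  have hH0 : 0 < H := lt_of_lt_of_le (by positivity) hH
  have h2 : Λ ^ 2 / H ≤ b :=
    le_trans (le_mul_of_one_le_left (by positivity) (one_le_pow₀ (by linarith))) h1
  have h3 : 20 / Q * Λ ≤ 20 * Λ * b := by
    calc 20 / Q * Λ = 20 * Λ * (1 / Q) := by ring
      _ ≤ _ := by gcongr
  have h4 : 32 * Q ^ 4 * Λ * (Q ^ 5 * Λ ^ 2)⁻¹ ≤ b := by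
    refine le_trans ?_ hb
    calc _ = 1 / Q * (32 / Λ) := by field_simp
      _ ≤ 1 / Q := mul_le_of_le_one_right (by positivity) (by rw [div_le_one hΛ0]; linarith only [hΛ])
  have h5 : 100 * Λ ≤ Λ ^ 3 := by nlinarith
  have h6 : 100 * Λ ^ 3 ≤ Λ ^ 8 := by
    have : (100 : ℝ) ≤ Λ ^ 5 := le_trans hΛ (le_self_pow₀ (by linarith only [hΛ]) (by norm_num))
    calc 100 * Λ ^ 3 ≤ Λ ^ 5 * Λ ^ 3 := by gcongr
      _ = _ := by ring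
  have h7 : 16 * Λ ^ 3 * a ≤ Λ ^ 8 * a := mul_le_mul_of_nonneg_right (by linarith only [hΛ, h5, h6]) ha
  have h8 : (20 * Λ + 6) * b ≤ Λ ^ 8 * b := mul_le_mul_of_nonneg_right (by linarith only [hΛ, h5, h6]) hb0
  have h9 : Λ ^ 8 * c ≤ Λ ^ 8 * a := mul_le_mul_of_nonneg_left hc (by positivity)
  have h10 : 3 * Λ ^ 2 / H = 3 * (Λ ^ 2 / H) := by ring
  have h11 : 2 * Q ^ 2 * (Λ ^ 2 / H) = 2 * (Q ^ 2 * (Λ ^ 2 / H)) := by ring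
  rw [h10, h11]
  linarith only [h1, h2, h3, h4, h7, h8, h9]

lemma core_term {M : ℝ} (hM : 1 ≤ M) (hMΛ : M ≤ S.Λ) {g f : S.G → ℂ} (hg : S.Supp g)
    (hf : S.Supp f) {r : ℕ} (hr2 : 2 ≤ r) (hr : r ≤ S.k) :
    ‖S.TT r g f - (S.piC (S.k - r) : ℂ) * S.SS r g f‖ ≤
      2 * S.Λ ^ 8 * (1 / √S.D' + 1 / √S.Q) * (S.D * S.D' * (√(S.tn M g) * √(S.tn M f))) := by
  have hM0 : 0 < M := by linarith
  have hΛ := S.big
  have hH : 0 < S.H0 := lt_of_lt_of_le (by norm_num) S.H0_big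
  have hQ : (2 : ℝ) ≤ S.Q := by exact_mod_cast S.Q_ge
  have hD : (1 : ℝ) ≤ S.D := by exact_mod_cast S.one_le_D
  have hD' : (1 : ℝ) ≤ S.D' := by exact_mod_cast S.one_le_D'
  have htg : 0 ≤ S.tn M g := (S.nn_nonneg g).trans (S.nn_le_tn hM0 g)
  have htf : 0 ≤ S.tn M f := (S.nn_nonneg f).trans (S.nn_le_tn hM0 f)
  obtain ⟨g1, g2, g3⟩ := S.core_sq hM hMΛ hg
  obtain ⟨f1, f2, f3⟩ := S.core_sq hM hMΛ hf
  have t1 := S.TT_sub_MD r hg hf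
  have t2 := S.MD_sub_MW hr hg hf
  have t3 := S.MW_sub_MK hr2 hr hg hf
  have t4 := S.SS_sub_MK hr2 hr hg hf
  have n1 := S.N2_le hr2 hr hM hMΛ hg
  have n2 := S.N2_le hr2 hr hM hMΛ hf
  have hp0 := S.piC_nonneg (S.k - r)
  have hp1 := S.piC_le_one (S.k - r)
  have hsD : 0 < √(S.D' : ℝ) := Real.sqrt_pos.2 (by linarith only [hD'])
  have hsQ : 0 < √(S.Q : ℝ) := Real.sqrt_pos.2 (by linarith only [hQ])
  have hnum := core_num (Λ := S.Λ) (Q := S.Q) (H := S.H0) (a := 1 / √S.D') (b := 1 / √S.Q)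
    (c := 1 / S.D') hΛ hQ
    (by simpa using S.mono_le_H0 (a := 0) (b := 0) (c := 3) (d := 3) (by norm_num) (by norm_num)
          (by norm_num) (by norm_num))
    (by positivity)
    (one_div_le_one_div_of_le hsQ (Real.sqrt_le_iff.2 ⟨by linarith only [hQ], by nlinarith only [hQ]⟩))
    (one_div_le_one_div_of_le hsD (Real.sqrt_le_iff.2 ⟨by linarith only [hD'], by nlinarith only [hD']⟩))
  have hnn : √(S.nn g) * √(S.nn f) ≤ √(S.tn M g) * √(S.tn M f) := by gcongr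
  have hN : √(S.N2 r g) * √(S.N2 r f) ≤ S.Λ ^ 8 * S.D * S.D' * (1 / S.D' + 1 / √S.Q) *
      (√(S.tn M g) * √(S.tn M f)) := by
    have hc : 0 ≤ S.Λ ^ 8 * S.D * S.D' * (1 / S.D' + 1 / √S.Q) := by positivity
    calc _ ≤ √(S.Λ ^ 8 * S.D * S.D' * (1 / S.D' + 1 / √S.Q) * S.tn M g) *
          √(S.Λ ^ 8 * S.D * S.D' * (1 / S.D' + 1 / √S.Q) * S.tn M f) := by gcongr
      _ = _ := by
          rw [Real.sqrt_mul hc, Real.sqrt_mul hc, mul_mul_mul_comm, Real.mul_self_sqrt hc]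
  set A := √(S.tn M g) with hA
  set B := √(S.tn M f) with hB
  have hA0 : 0 ≤ A := Real.sqrt_nonneg _
  have hB0 : 0 ≤ B := Real.sqrt_nonneg _
  have u1 : ‖S.TT r g f - S.MD r g f‖ ≤ 16 * S.Λ ^ 3 * (1 / √S.D') * (S.D * S.D' * (A * B)) := by
    calc _ ≤ _ := t1
      _ ≤ 2 * S.D * S.Λ * √S.D' * (4 * S.Λ ^ 2 * A * B + A * (4 * S.Λ ^ 2 * B)) := by gcongr
      _ = 16 * S.Λ ^ 3 * (1 / √S.D') * (S.D * (√S.D' * √S.D') * (A * B)) := by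
          field_simp; ring
      _ = _ := by rw [Real.mul_self_sqrt (by linarith only [hD'])]
  have u2 : ‖S.MD r g f - (S.piC (S.k - r) : ℂ) * S.MW r g f‖ ≤
      3 * S.Λ ^ 2 / S.H0 * (S.D * S.D' * (A * B)) := by
    calc _ ≤ _ := t2
      _ ≤ 3 * S.Λ ^ 2 / S.H0 * S.D * S.D' * (A * B) := by gcongr
      _ = _ := by ring
  have u3 : ‖S.MW r g f - S.MK r g f‖ ≤
      (20 / S.Q * S.Λ + S.Λ ^ 8 * (1 / S.D' + 1 / √S.Q)) * (S.D * S.D' * (A * B)) := by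
    calc _ ≤ _ := t3
      _ ≤ 20 / S.Q * (S.Λ * S.D * S.D') * (A * B) +
          S.Λ ^ 8 * S.D * S.D' * (1 / S.D' + 1 / √S.Q) * (A * B) := by gcongr
      _ = _ := by ring
  have u4 : ‖S.SS r g f - S.MK r g f‖ ≤
      (32 * (S.Q : ℝ) ^ 4 * S.Λ * ((S.Q : ℝ) ^ 5 * S.Λ ^ 2)⁻¹ +
        2 * (S.Q : ℝ) ^ 2 * (S.Λ ^ 2 / S.H0)) * (S.D * S.D' * (A * B)) := by
    calc _ ≤ _ := t4
      _ ≤ 16 * (S.Q : ℝ) ^ 4 * S.Λ * S.D * S.D' * (((S.Q : ℝ) ^ 5 * S.Λ ^ 2)⁻¹ * A * B +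
            A * (((S.Q : ℝ) ^ 5 * S.Λ ^ 2)⁻¹ * B)) +
          2 * (S.Q : ℝ) ^ 2 * (S.Λ ^ 2 / S.H0 * S.D * S.D' * (A * B)) := by gcongr
      _ = _ := by ring
  have e : S.TT r g f - (S.piC (S.k - r) : ℂ) * S.SS r g f =
      (S.TT r g f - S.MD r g f) + (S.MD r g f - (S.piC (S.k - r) : ℂ) * S.MW r g f) +
        (S.piC (S.k - r) : ℂ) * (S.MW r g f - S.MK r g f) -
        (S.piC (S.k - r) : ℂ) * (S.SS r g f - S.MK r g f) := by ring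
  have hp : ∀ z : ℂ, ‖(S.piC (S.k - r) : ℂ) * z‖ ≤ ‖z‖ := fun z => by
    rw [norm_mul, Complex.norm_real, Real.norm_of_nonneg hp0]
    exact mul_le_of_le_one_left (norm_nonneg z) hp1
  rw [e]
  refine le_trans ?_ (mul_le_mul_of_nonneg_right hnum (by positivity))
  refine (norm_sub_le _ _).trans ?_
  have := norm_add₃_le (a := S.TT r g f - S.MD r g f)
    (b := S.MD r g f - (S.piC (S.k - r) : ℂ) * S.MW r g f)
    (c := (S.piC (S.k - r) : ℂ) * (S.MW r g f - S.MK r g f))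
  have h3 := hp (S.MW r g f - S.MK r g f)
  have h4 := hp (S.SS r g f - S.MK r g f)
  rw [add_mul, add_mul, add_mul]
  linarith only [u1, u2, u3, u4, this, h3, h4]

theorem core {M : ℝ} (hM : 1 ≤ M) (hMΛ : M ≤ S.Λ) {g f : S.G → ℂ} (hg : S.Supp g)
    (hf : S.Supp f) :
    ‖S.ip g (S.Xop S.Kk f)‖ ≤ S.rho * (√(S.tn M g) * √(S.tn M f)) := by
  have hΛ := S.big
  rw [S.form_X hg hf]
  refine (norm_sum_le _ _).trans ((Finset.sum_le_card_nsmul _ _ _ fun r hr =>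
    S.core_term hM hMΛ hg hf (mem_Icc.1 hr).1 (mem_Icc.1 hr).2).trans ?_)
  have hk : ((Icc 2 S.k).card : ℝ) ≤ S.Λ := by
    refine le_trans ?_ S.k_le_Λ
    rw [Nat.card_Icc]
    exact_mod_cast (by omega : S.k + 1 - 2 ≤ S.k)
  rw [nsmul_eq_mul]
  unfold rho
  calc _ ≤ S.Λ * (S.Λ * S.Λ ^ 8 * (1 / √S.D' + 1 / √S.Q) *
        (S.D * S.D' * (√(S.tn M g) * √(S.tn M f)))) := by gcongr; linarith
    _ = _ := by ring

end Sys

end Pool.Agent.Work.MP_678620_nt
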