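import Pool.Agent.Work.MP_678620_nt.Bonf
import Pool.Agent.Lib.LargeSieve.Additive

/-! Sparse two-point correlations: definitions. -/

set_option autoImplicit false
open Finset Pool.Agent.Lib.LargeSieve

namespace Pool.Agent.Work.MP_678620_nt

noncomputable section

/-- The data of the dilation argument. The coordinates in `E` are primes; the others are
passive. -/
structure Sys (ι : Type) [Fintype ι] [DecidableEq ι] where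
  m : ι → ℕ
  E : Finset ι
  DD : Finset (Finset ι)
  lab : ι → ℕ
  s : ℕ
  k : ℕ
  k' : ℕ
  T : ℕ
  Q : ℕ
  h : ℤ
  H0 : ℝ
  H1 : ℝ
  Λ : ℝ
  m_pos : ∀ i, 0 < m i
  cop : ∀ i j, i ≠ j → Nat.Coprime (m i) (m j)
  prime : ∀ p ∈ E, (m p).Prime
  lo : ∀ p ∈ E, H0 ≤ m p
  hi : ∀ p ∈ E, (m p : ℝ) ≤ H1
  DD_sub : ∀ d ∈ DD, d ⊆ E
  DD_card : ∀ d ∈ DD, d.card = s
  DD_lo : ∀ d ∈ DD, T ≤ ∏ i ∈ d, m i
  DD_hi : ∀ d ∈ DD, ∏ i ∈ d, m i ≤ 2 * T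
  lab_DD : ∀ (e : Finset ι), ∀ p ∈ E, ∀ p' ∈ E, p ∉ e → p' ∉ e → lab p = lab p' →
    insert p e ∈ DD → insert p' e ∈ DD
  lab_close : ∀ p ∈ E, ∀ p' ∈ E, lab p = lab p' → m p ≤ 2 * m p'
  h_ne : h ≠ 0
  T_pos : 1 ≤ T
  Q_ge : 2 ≤ Q
  k_ge : 2 ≤ k
  k_le : k ≤ s
  k'_ge : 1 ≤ k'
  k'_le : k' ≤ s
  big : 100 ≤ Λ
  eL : Real.exp (∑ p ∈ E, (m p : ℝ)⁻¹) ≤ Λ
  s_le : (s : ℝ) ≤ Λ
  lab_le : ((E.image lab).card : ℝ) ≤ Λ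
  logT : 1 + Real.log (4 * T) ≤ Λ
  logH : 2 + Real.log H1 ≤ Λ
  h_le : |(h : ℝ)| ≤ Λ
  H0_ge : (((s + k).choose k : ℝ) * ((s + k').choose k' : ℝ) * Q * Λ) ^ 20 ≤ H0
  H01 : H0 ≤ H1

namespace Sys

variable {ι : Type} [Fintype ι] [DecidableEq ι] (S : Sys ι)

instance (i : ι) : NeZero (S.m i) := ⟨(S.m_pos i).ne'⟩

/-- The model group. -/
abbrev G : Type := ∀ i, ZMod (S.m i)

/-- The product of the moduli in `d`. -/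
def pr (d : Finset ι) : ℕ := ∏ i ∈ d, S.m i

/-- Reciprocal of a modulus. -/
def nu (i : ι) : ℝ := (S.m i : ℝ)⁻¹

/-- Reciprocal of `pr d`. -/
def iv (d : Finset ι) : ℝ := (S.pr d : ℝ)⁻¹

def L : ℝ := ∑ p ∈ S.E, S.nu p

/-- Elementary symmetric sums of the reciprocals. -/
def es (j : ℕ) : ℝ := esym S.E S.nu j

def D : ℕ := (S.s + S.k).choose S.k

def D' : ℕ := (S.s + S.k').choose S.k'

/-- Range of the jumps. -/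
def R : ℕ := 2 * S.T * S.h.natAbs

/-- The zero set. -/
def Zs (ξ : S.G) : Finset ι := S.E.filter fun p => ξ p = 0

/-- Set the coordinates in `d` to zero. -/
def rs (d : Finset ι) (ξ : S.G) : S.G := fun i => if i ∈ d then 0 else ξ i

/-- The points without zero coordinate in `E`. -/
def Gx : Finset S.G := univ.filter fun ξ => ∀ p ∈ S.E, ξ p ≠ 0

def good (Z : Finset ι) : Prop := ∀ p ∈ S.E, ∀ c : ZMod (S.m p),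
  (S.DD.filter fun d => d ⊆ Z.erase p ∧ (S.pr d : ZMod (S.m p)) = c).card ≤ 2

instance (Z : Finset ι) : Decidable (S.good Z) := Classical.propDecidable _

/-- The good vertices. -/
def Cg (ξ : S.G) : Prop := (S.Zs ξ).card = S.s + S.k' ∧ S.good (S.Zs ξ)

instance (ξ : S.G) : Decidable (S.Cg ξ) := Classical.propDecidable _

/-- Supported on the good vertices. -/
def Supp (f : S.G → ℂ) : Prop := ∀ ξ, f ξ ≠ 0 → S.Cg ξ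

/-- Law of the zero set. -/
def Pz (z : Finset ι) : ℝ := (∏ p ∈ z, S.nu p) * ∏ p ∈ S.E \ z, (1 - S.nu p)

def piC (j : ℕ) : ℝ := ∑ z ∈ S.E.powersetCard j, S.Pz z

def vp : ℝ := ∏ p ∈ S.E, (1 - S.nu p)

def nn (f : S.G → ℂ) : ℝ := ∑ ξ, ‖f ξ‖ ^ 2

def ip (g f : S.G → ℂ) : ℂ := ∑ ξ, (starRingEnd ℂ) (g ξ) * f ξ

/-- Average over the coordinates in `v`. -/
def av (v : Finset ι) (f : S.G → ℂ) (ξ : S.G) : ℂ :=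
  (Fintype.card S.G : ℂ)⁻¹ * ∑ η : S.G, f (v.piecewise η ξ)

/-- Total influence. -/
def inf (f : S.G → ℂ) : ℝ := ∑ p ∈ S.E, S.nn fun ξ => f ξ - S.av {p} f ξ

def tn (M : ℝ) (f : S.G → ℂ) : ℝ := S.nn f + S.inf f / M

/-- Independent of the coordinates in `a`. -/
def Indep {β : Type*} (a : Finset ι) (f : S.G → β) : Prop :=
  ∀ ξ η : S.G, (∀ i, i ∉ a → ξ i = η i) → f ξ = f η

/-- The jump attached to `d`. -/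
def jp (d : Finset ι) : ℤ := (S.pr d : ℤ) * S.h

def Fd (d : Finset ι) (f : S.G → ℂ) (ξ : S.G) : ℂ := f (S.rs d ξ + (S.jp d : S.G))

def dev (Φ : S.G → ℂ) : ℝ :=
  S.vp⁻¹ * ∑ z ∈ S.E.powerset, S.Pz z * ∑ ξ ∈ S.Gx, ‖Φ (S.rs z ξ) - Φ ξ‖ ^ 2

def devB (Φ : S.G → ℂ) : ℝ := ∑ p ∈ S.E, S.nu p * S.nn fun ξ => Φ (S.rs {p} ξ) - Φ ξ

def Err (f : S.G → ℂ) : ℝ := ∑ d ∈ S.DD, S.iv d * S.dev (S.Fd d f)

def AA (r : ℕ) : Finset (Finset ι) := S.E.powersetCard (S.s - r)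

def VV (r : ℕ) (a : Finset ι) : Finset (Finset ι) :=
  ((S.E \ a).powersetCard r).filter fun v => a ∪ v ∈ S.DD

def Wa (r : ℕ) (a : Finset ι) (f : S.G → ℂ) (ξ : S.G) : ℂ :=
  ∑ v ∈ S.VV r a, (S.iv v : ℂ) * S.Fd (a ∪ v) f ξ

def Hk (a : Finset ι) : ℕ := S.T / (S.pr a * S.Q ^ 2)

/-- Farey fractions in `[0, 1)`. -/
def FF : Finset ℚ :=
  ((Icc 1 S.Q ×ˢ range S.Q).filter fun x => x.2 < x.1).image fun x => (x.2 : ℚ) / x.1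

def JJ (a : Finset ι) : Finset ℤ := Ioo (-(S.Hk a : ℤ)) (S.Hk a)

def kap (a : Finset ι) (j : ℤ) : ℂ :=
  ∑ θ ∈ S.FF, ee (θ * j) * (((((S.Hk a : ℝ) - |(j : ℝ)|) / (S.Hk a : ℝ) ^ 2 : ℝ)) : ℂ)

def Ka (a : Finset ι) (w : S.G → ℂ) (ξ : S.G) : ℂ :=
  ∑ j ∈ S.JJ a, S.kap a j * w (ξ + ((S.jp a * j : ℤ) : S.G))

/-- The part of the two-step form with `|d \ d'| = r`. -/
def TT (r : ℕ) (g f : S.G → ℂ) : ℂ :=
  ∑ x : S.G, ∑ d ∈ S.DD, ∑ d' ∈ S.DD,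
    if (S.Zs x).card = S.s + S.k ∧ d ⊆ S.Zs x ∧ d' ⊆ S.Zs x ∧ (d \ d').card = r then
      (starRingEnd ℂ) (g (x + (S.jp d : S.G))) * f (x + (S.jp d' : S.G)) else 0

/-- One term of the structured form. -/
def St (a v v' : Finset ι) (g f : S.G → ℂ) : ℂ :=
  ∑ j ∈ S.JJ a, S.kap a j * ∑ x : S.G,
    if a ∪ v ⊆ S.Zs x ∧ a ∪ v' ⊆ S.Zs (x + ((S.jp a * j : ℤ) : S.G)) then
      (starRingEnd ℂ) (g (x + (S.jp (a ∪ v) : S.G))) *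
        f (x + ((S.jp a * j : ℤ) : S.G) + (S.jp (a ∪ v') : S.G)) else 0

/-- The structured form. -/
def SS (r : ℕ) (g f : S.G → ℂ) : ℂ :=
  ∑ a ∈ S.AA r, ∑ v ∈ S.VV r a, ∑ v' ∈ S.VV r a, if Disjoint v v' then S.St a v v' g f else 0

/-- The overlapping terms left out of the structured form. -/
def OV (r : ℕ) (g f : S.G → ℂ) : ℂ :=
  ∑ a ∈ S.AA r, ∑ v ∈ S.VV r a, ∑ v' ∈ S.VV r a, if Disjoint v v' then 0 else S.St a v v' g f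

/-- The decoupled model of `TT`. -/
def MD (r : ℕ) (g f : S.G → ℂ) : ℂ :=
  ∑ z ∈ S.E.powersetCard (S.s + S.k), (S.Pz z : ℂ) * ∑ d ∈ S.DD, ∑ d' ∈ S.DD,
    if d ⊆ z ∧ d' ⊆ z ∧ (d \ d').card = r then S.ip (S.Fd d g) (S.Fd d' f) else 0

def MW (r : ℕ) (g f : S.G → ℂ) : ℂ :=
  ∑ a ∈ S.AA r, (S.iv a : ℂ) * S.ip (S.Wa r a g) (S.Wa r a f)

def MK (r : ℕ) (g f : S.G → ℂ) : ℂ :=
  ∑ a ∈ S.AA r, (S.iv a : ℂ) * S.ip (S.Wa r a g) (S.Ka a (S.Wa r a f))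

def KT (r : ℕ) (ξ : S.G) (e : ℤ) : ℂ :=
  ∑ d ∈ S.DD, ∑ d' ∈ S.DD,
    if e = S.jp d' - S.jp d ∧ (d \ d').card = r ∧ (S.Zs (ξ - (S.jp d : S.G))).card = S.s + S.k ∧
      d ⊆ S.Zs (ξ - (S.jp d : S.G)) ∧ d' ⊆ S.Zs (ξ - (S.jp d : S.G)) then 1 else 0

def KS (r : ℕ) (ξ : S.G) (e : ℤ) : ℂ :=
  ∑ a ∈ S.AA r, ∑ v ∈ S.VV r a, ∑ v' ∈ S.VV r a, ∑ j ∈ S.JJ a,
    if Disjoint v v' ∧ e = S.jp a * j + S.jp (a ∪ v') - S.jp (a ∪ v) ∧ a ∪ v ⊆ S.Zs ξ ∧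
      a ∪ v' ⊆ S.Zs (ξ + (e : S.G)) then S.kap a j else 0

/-- The kernel of the operator `X`. -/
def Kk (ξ : S.G) (e : ℤ) : ℂ :=
  if S.Cg ξ ∧ S.Cg (ξ + (e : S.G)) then
    ∑ r ∈ Icc 2 S.k, (S.KT r ξ e - (S.piC (S.k - r) : ℂ) * S.KS r ξ e) else 0

def Xop (K : S.G → ℤ → ℂ) (f : S.G → ℂ) (ξ : S.G) : ℂ :=
  ∑ e ∈ Icc (-(S.R : ℤ)) S.R, K ξ e * f (ξ + (e : S.G))

def Kpow (K : S.G → ℤ → ℂ) : ℕ → S.G → ℤ → ℂ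
  | 0, _, j => if j = 0 then 1 else 0
  | n + 1, ξ, j => ∑ e ∈ Icc (-(S.R : ℤ)) S.R, K ξ e * Kpow K n (ξ + (e : S.G)) (j - e)

def Psi (K : S.G → ℤ → ℂ) (n : ℕ) (ξ : S.G) : ℝ :=
  ∑ j ∈ Icc (-((n * S.R : ℕ) : ℤ)) (n * S.R : ℕ), ‖S.Kpow K n ξ j‖ ^ 2

/-! Fourier analysis -/

def fh (f : S.G → ℂ) (ψ : AddChar S.G ℂ) : ℂ := ∑ ξ, f ξ * (starRingEnd ℂ) (ψ ξ)

open Classical in
def supp (ψ : AddChar S.G ℂ) : Finset ι :=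
  S.E.filter fun p => ∃ x : ZMod (S.m p), ψ (Pi.single p x) ≠ 1

def al (ψ : AddChar S.G ℂ) : ℝ := Complex.arg (ψ 1) / (2 * Real.pi)

open Classical in
def proj (A : AddChar S.G ℂ → Prop) (f : S.G → ℂ) (ξ : S.G) : ℂ :=
  (Fintype.card S.G : ℂ)⁻¹ * ∑ ψ : AddChar S.G ℂ, if A ψ then S.fh f ψ * ψ ξ else 0

/-- `α` is on a minor arc at the scale of `c`. -/
def Minor (c : Finset ι) (α : ℝ) : Prop :=
  ∀ q : ℕ, 1 ≤ q → q ≤ S.Q → (S.Q : ℝ) * S.pr c / S.T < dZ (α * S.jp c * q)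

def Pa (a : Finset ι) (f : S.G → ℂ) : S.G → ℂ := S.proj (fun ψ => S.Minor a (S.al ψ)) f

def N2 (r : ℕ) (f : S.G → ℂ) : ℝ := ∑ a ∈ S.AA r, S.iv a * S.nn (S.Pa a (S.Wa r a f))

/-- The dual function. -/
def YY (r : ℕ) (u : Finset ι → S.G → ℂ) (y : S.G) : ℂ :=
  ∑ a ∈ S.AA r, ∑ v ∈ S.VV r a,
    if a ∪ v ⊆ S.Zs y then S.av v (u a) (y - (S.jp (a ∪ v) : S.G)) else 0

/-- The dual function with a frozen zero set. -/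
def YZ (r : ℕ) (u : Finset ι → S.G → ℂ) (z : Finset ι) (ξ : S.G) : ℂ :=
  ∑ a ∈ S.AA r, ∑ v ∈ S.VV r a,
    if a ∪ v ⊆ z then S.av v (u a) (ξ - (S.jp (a ∪ v) : S.G)) else 0

def Qf (y : Finset ι → ℂ) : ℝ :=
  ∑ z ∈ S.E.powersetCard (S.s + S.k'), S.Pz z * ‖∑ d ∈ S.DD, if d ⊆ z then y d else 0‖ ^ 2

def ny (y : Finset ι → ℂ) : ℝ := ∑ d ∈ S.DD, S.iv d * ‖y d‖ ^ 2

def nB (y : Finset ι → ℂ) : ℝ :=
  ∑ e ∈ S.E.powersetCard (S.s - 1), S.iv e *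
    ‖∑ p ∈ S.E \ e, if insert p e ∈ S.DD then (S.nu p : ℂ) * y (insert p e) else 0‖ ^ 2

/-- The coefficients at one frequency: `w a` are the Fourier coefficients, `B` the support of the
character. -/
def yd (r : ℕ) (w : Finset ι → ℂ) (B : Finset ι) (α : ℝ) (d : Finset ι) : ℂ :=
  (∑ a ∈ d.powersetCard (S.s - r), if Disjoint (d \ a) B then w a else 0) * ee (-(α * S.jp d))

/-! Boxes -/

/-- Indicator of a product set: free on at most `K1` primes, missing at most `K2` classes at the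
other primes, and unrestricted at the passive coordinates outside `F`. -/
def IsBox (F : Finset ι) (K1 K2 : ℕ) (φ : S.G → ℂ) : Prop :=
  ∃ (A : ∀ i, Finset (ZMod (S.m i))) (U : Finset ι), U ⊆ S.E ∧ U.card ≤ K1 ∧
    (∀ i ∈ S.E, i ∉ U → (A i)ᶜ.card ≤ K2) ∧ (∀ i, i ∉ S.E → i ∉ F → A i = univ) ∧
    ∀ ξ, φ ξ = if ∀ i, ξ i ∈ A i then 1 else 0

/-- Combinations of boxes with total mass at most `B`. -/
inductive Rep (F : Finset ι) (K1 K2 : ℕ) : ℝ → (S.G → ℂ) → Prop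
  | box (c : ℂ) (φ : S.G → ℂ) : S.IsBox F K1 K2 φ → Rep F K1 K2 ‖c‖ fun ξ => c * φ ξ
  | zero : Rep F K1 K2 0 fun _ => 0
  | add {B B' : ℝ} {φ φ' : S.G → ℂ} : Rep F K1 K2 B φ → Rep F K1 K2 B' φ' →
      Rep F K1 K2 (B + B') fun ξ => φ ξ + φ' ξ
  | mono {B B' : ℝ} {φ : S.G → ℂ} : Rep F K1 K2 B φ → B ≤ B' → Rep F K1 K2 B' φ

/-- The operator with multiplier `2 ^ |supp ψ|`. -/
def Tn (f : S.G → ℂ) (ξ : S.G) : ℂ :=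
  ∑ z ∈ S.E.powerset, (-1) ^ z.card * 2 ^ (S.E \ z).card * S.av z f ξ

/-! The integer side -/

def Zi (y : ℤ) : Finset ι := S.Zs (y : S.G)

/-- Extension by zero of a function on the integers of `Ioc lo hi`. -/
def ext (lo hi : ℤ) (u : ℤ → ℂ) (ξ : S.G) : ℂ :=
  ∑ y ∈ Ioc lo hi, if (y : S.G) = ξ then u y else 0

/-- The test function. -/
def Gt (g : ℤ → ℂ) (y : ℤ) : ℂ := if S.Cg (y : S.G) then g y else 0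

def GX (N : ℕ) (g : ℤ → ℂ) : S.G → ℂ :=
  S.ext ((S.T * N : ℕ) - S.R) ((2 * S.T * N : ℕ) + S.R) (S.Gt g)

/-- Number of exceptional pairs of `d` and `n`. -/
def Ex (N : ℕ) : ℕ := ∑ d ∈ S.DD, ((Icc (1 : ℤ) (3 * N)).filter fun n =>
  (∃ p ∈ d, (S.m p : ℤ) ∣ n) ∨
    ((S.Zi (S.pr d * n)).card = S.s + S.k' ∧ ¬ S.good (S.Zi (S.pr d * n)))).card

def Ps (r : ℕ) (a : Finset ι) (g : S.G → ℂ) (x : S.G) : ℂ :=
  ∑ v ∈ S.VV r a, if v ⊆ S.Zs x then g (x + (S.jp (a ∪ v) : S.G)) else 0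

/-- The two-step form on the diagonal. -/
def TA (g : S.G → ℂ) : ℝ :=
  ∑ x : S.G, if (S.Zs x).card = S.s + S.k then
    ‖∑ d ∈ S.DD, if d ⊆ S.Zs x then g (x + (S.jp d : S.G)) else 0‖ ^ 2 else 0

/-- The constant of the core lemma. -/
def rho : ℝ := S.Λ ^ 10 * S.D * S.D' * (1 / √S.D' + 1 / √S.Q)

/-- The correlation to be bounded. -/
def S0 (N : ℕ) (F0 g : ℤ → ℂ) : ℂ :=
  ∑ n ∈ Ioc (N : ℤ) (2 * N), (if (S.Zi n).card = S.k then F0 n else 0) *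
    (if (S.Zi (n + S.h)).card = S.k' then g (n + S.h) else 0)

/-- The positive form. -/
def Pos (r : ℕ) (g : S.G → ℂ) : ℝ :=
  ∑ a ∈ S.AA r, ∑ θ ∈ S.FF, ∑ x : S.G, if a ⊆ S.Zs x then
    ‖((S.Hk a : ℂ))⁻¹ * ∑ i ∈ range (S.Hk a),
      S.Ps r a g (x + ((S.jp a * i : ℤ) : S.G)) * ee (θ * i)‖ ^ 2 else 0

end Sys

/-- Cancellation in short progressions on the major arcs. -/
def MRB (N : ℕ) (c : ℤ → ℂ) (h : ℤ) (H0 H1 : ℝ) (Q Jm : ℕ) (ε : ℝ) : Prop :=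
  ∀ (P : ℝ) (I V : Finset ℕ) (J H : ℕ) (θ : ℚ), H0 ≤ P → P ≤ H1 →
    (∀ p ∈ I, p.Prime ∧ P ≤ p ∧ (p : ℝ) ≤ 2 * P) →
    (∀ p ∈ I, ∀ w ∈ V, J ≤ 2 * (p * w) ∧ p * w ≤ 5 * J) →
    P ≤ J → J ≤ Jm → J ≤ 2 * Q ^ 2 * H → H ≤ J → θ.den ≤ Q →
    ∑ x ∈ Icc ((J * N / 2 : ℕ) : ℤ) (5 * J * N : ℕ),
      ‖∑ i ∈ range H, (∑ p ∈ I, ∑ w ∈ V, if ((p * w : ℕ) : ℤ) ∣ x + h * i then
        c ((x + h * i) / (p * w : ℕ) + h) else 0) * ee (θ * i)‖ ^ 2 ≤ ε * H ^ 2 * J * N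

end

end Pool.Agent.Work.MP_678620_nt
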