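import Pool.Agent.Work.MP_678620_nt.SPFinalA

/-! The choice of the parameters. -/

set_option autoImplicit false
open Finset Filter

namespace Pool.Agent.Work.MP_678620_nt

lemma SPF_inv {ι : Type*} [DecidableEq ι] {E : Finset ℕ} {f : ℤ → ℂ}
    (hf : ∀ p ∈ E, ∀ n : ℤ, f (p * n) = f n) (m : ι → ℕ) (d : Finset ι) (hd : ∀ i ∈ d, m i ∈ E)
    (n : ℤ) : f ((∏ i ∈ d, m i : ℕ) * n) = f n := by
  induction d using Finset.induction_on with
  | empty => simp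
  | insert a d ha ih =>
    rw [prod_insert ha, Nat.cast_mul, mul_assoc, hf _ (hd a (mem_insert_self a d))]
    exact ih fun i hi => hd i (mem_insert_of_mem hi)

lemma SPF_ev (C : ℝ) {c0 : ℝ} (hc0 : 0 < c0) : ∀ᶠ X : ℕ in atTop, ∃ t : ℝ, C ≤ t ∧
    Real.log X = t ^ 20 ∧ C * Real.log (Real.log X) ^ 2 ≤ Real.log X ^ c0 := by
  have hl : Tendsto (fun X : ℕ => Real.log X) atTop atTop :=
    Real.tendsto_log_atTop.comp tendsto_natCast_atTop_atTop
  have h1 := (tendsto_rpow_atTop (y := 1 / 20) (by norm_num)).comp hl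
  have h2 := (isLittleO_log_rpow_rpow_atTop (2 : ℝ) hc0).bound (c := 1 / (|C| + 1)) (by positivity)
  filter_upwards [h1.eventually_ge_atTop C, hl.eventually h2, hl.eventually_ge_atTop 1]
    with X a1 a2 a3
  refine ⟨_, a1, ?_, ?_⟩
  · simp only [Function.comp_apply]
    rw [← Real.rpow_natCast, ← Real.rpow_mul (by linarith only [a3])]
    norm_num
  · rw [Real.rpow_two, Real.norm_of_nonneg (by positivity), Real.norm_of_nonneg (by positivity),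
      one_div, ← div_eq_inv_mul, le_div_iff₀ (by positivity)] at a2
    nlinarith only [a2, le_abs_self C, sq_nonneg (Real.log (Real.log X))]

/-- The numerical parameters. -/
theorem SPF_par {A B k0 X N : ℕ} (hB : B = 68 * A + 130) (hk0 : k0 = 10 * B + 1) {t l H0 : ℝ}
    (ht : 10000 * (B + 1) + k0.factorial + Real.exp 72 ≤ t) (hl : l = t ^ 20)
    (eX : Real.exp l = X)
    (hc : Real.exp (10000 * (B + 1) * Real.log l ^ 2) ≤ H0) (hN1 : X ≤ N ^ 2) (hN2 : N ≤ X ^ 2) :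
    ∃ s n J M W Q : ℕ, 10000 ≤ t ∧ 10000 ≤ l ∧ 1 ≤ s ∧ t ^ 2 ≤ s ∧ (s : ℝ) ≤ 2 * t ^ 2 ∧
      2 * (s * t ^ 5) ≤ n ∧ (n : ℝ) ≤ 3 * (s * t ^ 5) ∧ 100 * (s * t ^ 5) ^ 2 ≤ J ∧
      (J : ℝ) ≤ 101 * (s * t ^ 5) ^ 2 ∧ 4 * t ^ 20 ≤ M ∧ 1 ≤ M ∧ (M : ℝ) ≤ l ^ (2 * A + 4) ∧
      (∃ w, W = 2 ^ w) ∧ 10 * (⌊Real.exp (t ^ 10)⌋₊ * N) < W ∧ (W : ℝ) ≤ Real.exp (3 * t ^ 20) ∧
      Real.exp (t ^ 20 / 2) ≤ N ∧ Q = ⌊l ^ B⌋₊ ∧ 2 ≤ Q ∧ (Q : ℝ) ≤ l ^ B ∧ l ^ B ≤ 2 * Q ∧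
      l ^ (14 * A + 25 + 6 * B) ≤ N ∧ 10 ≤ n ∧ 40 * (n * l ^ A) ≤ N ∧ 10000 ≤ N ∧
      l ^ A < H0 ∧ 4 * s ≤ H0 ∧ (∀ j : ℕ, (j : ℝ) ≤ A * Real.log l → j ≤ s) ∧
      (∀ j : ℕ, k0 ≤ j → l ^ B ≤ (((s + j).choose j : ℕ) : ℝ)) ∧
      (∀ j j' : ℕ, (j : ℝ) ≤ A * Real.log l → (j' : ℝ) ≤ A * Real.log l →
        (((s + j).choose j : ℝ) * ((s + j').choose j' : ℝ) * Q * l ^ (2 * A + 4)) ^ 20 ≤ H0) ∧
      4 * (s : ℝ) ^ 2 * t ^ 5 / (1 / l ^ (A + 1)) + 1 ≤ l ^ (A + 2) ∧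
      72 + Real.log (t ^ 5) ≤ t ^ 2 ∧ Real.exp (72 + Real.log (t ^ 5)) ≤ l ^ (2 * A + 4) ∧
      100 ≤ l ^ (2 * A + 4) ∧ (s : ℝ) ≤ l ^ (2 * A + 4) ∧ 4 + s * t ^ 5 ≤ l ^ (2 * A + 4) ∧
      2 + t ^ 5 ≤ l ^ (2 * A + 4) ∧ s * t ^ 5 ≤ t ^ 10 ∧
      2 * l ^ A ≤ Real.exp (s * t ^ 5 / 2) := by
  have A0 : (0 : ℝ) ≤ A := Nat.cast_nonneg A
  have hB' : (B : ℝ) = 68 * A + 130 := by rw [hB]; push_cast; ring
  have f0 : (0 : ℝ) < k0.factorial := by positivity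
  have x72 := Real.exp_pos 72
  have t4 : 10000 ≤ t := by linarith only [ht, hB', f0, x72]
  have t0 : 0 < t := by linarith only [ht, hB', f0, x72]
  have t1 : 1 ≤ t := by linarith only [ht, hB', f0, x72]
  have tq : ∀ a b : ℕ, a < b → 10000 * t ^ a ≤ t ^ b := fun a b h => by
    refine le_trans ?_ (pow_le_pow_right₀ t1 (Nat.succ_le_of_lt h))
    rw [pow_succ, mul_comm]; gcongr
  have p2 : 10000 * t ≤ t ^ 2 := by simpa using tq 1 2 (by norm_num)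
  have p5 := tq 2 5 (by norm_num)
  have p7 := tq 5 7 (by norm_num)
  have p9 := tq 7 9 (by norm_num)
  have p10 := tq 9 10 (by norm_num)
  have p20 := tq 10 20 (by norm_num)
  have lt : Real.log t ≤ t := (Real.log_le_sub_one_of_pos t0).trans (by linarith only [])
  have lt0 : 0 ≤ Real.log t := Real.log_nonneg t1
  have ll : Real.log l = 20 * Real.log t := by rw [hl, Real.log_pow]; norm_num
  have l4 : 10000 ≤ l := by linarith only [ht, hl, hB', f0, x72, p2, p5, p7, p9, p10, p20]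
  have l0 : 0 < l := by linarith only [ht, hl, hB', f0, x72, p2, p5, p7, p9, p10, p20]
  have lp : ∀ {a b : ℕ}, a ≤ b → l ^ a ≤ l ^ b := fun h => pow_le_pow_right₀ (by linarith only [ht, hl, hB', f0, x72, p2, p5, p7, p9, p10, p20]) h
  have ll1 : 1 ≤ Real.log l := by
    rw [Real.le_log_iff_exp_le l0]; linarith only [ht, hl, hB', f0, x72, p2, p5, p7, p9, p10, p20, Real.exp_one_lt_d9]
  have lexp : ∀ a : ℕ, l ^ a = Real.exp (a * Real.log l) := fun a => by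
    rw [Real.exp_nat_mul, Real.exp_log l0]
  have lH0 : ∀ a : ℕ, (a : ℝ) ≤ 10000 * (B + 1) * Real.log l → l ^ a ≤ H0 := fun a ha => by
    rw [lexp]
    refine le_trans (Real.exp_le_exp.2 ?_) hc
    rw [sq, ← mul_assoc]
    gcongr
  have lB1 : 10000 * ((B : ℝ) + 1) * 1 ≤ 10000 * (B + 1) * Real.log l := by gcongr
  have lt2 : ∀ a : ℕ, (a : ℝ) ≤ 100 * (B + 1) → l ^ a ≤ Real.exp (t ^ 2) := fun a ha => by
    rw [lexp, ll]
    refine Real.exp_le_exp.2 ?_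
    calc (a : ℝ) * (20 * Real.log t) ≤ 100 * (B + 1) * (20 * t) := by gcongr
      _ = 2000 * (B + 1) * t := by ring
      _ ≤ t * t := by gcongr; linarith only [ht, hB', f0, x72]
      _ = _ := by ring
  have eN : Real.exp (t ^ 20 / 2) ≤ N := by
    rw [← pow_le_pow_iff_left₀ (Real.exp_pos _).le (Nat.cast_nonneg N) two_ne_zero,
      ← Real.exp_nat_mul, show ((2 : ℕ) : ℝ) * (t ^ 20 / 2) = l by rw [hl]; push_cast; ring, eX]
    exact_mod_cast hN1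
  have lN : ∀ a : ℕ, (a : ℝ) ≤ 100 * (B + 1) → l ^ a ≤ N := fun a ha =>
    (lt2 a ha).trans (le_trans (Real.exp_le_exp.2 (by linarith only [ht, hB', f0, x72, p2, p5, p7, p9, p10, p20])) eN)
  obtain ⟨s, hs⟩ : ∃ s, s = ⌈t ^ 2⌉₊ := ⟨_, rfl⟩
  have s1 : t ^ 2 ≤ s := hs ▸ Nat.le_ceil _
  have s2 : (s : ℝ) ≤ 2 * t ^ 2 := by
    have := Nat.ceil_lt_add_one (a := t ^ 2) (by positivity)
    rw [hs]; linarith only [ht, hB', f0, x72, p2, this]
  obtain ⟨u, hu⟩ : ∃ u : ℝ, u = s * t ^ 5 := ⟨_, rfl⟩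
  have u1 : 10000 * t ^ 2 ≤ u := by
    rw [hu, mul_comm]; gcongr; linarith only [ht, hB', f0, x72, p2, p5]
  have u2 : u ≤ 2 * t ^ 7 := by
    rw [hu]; calc (s : ℝ) * t ^ 5 ≤ 2 * t ^ 2 * t ^ 5 := by gcongr
      _ = _ := by ring
  have n1 := Nat.le_ceil (2 * u)
  have n2 := Nat.ceil_lt_add_one (a := 2 * u) (by linarith only [ht, hB', f0, x72, p2, u1])
  have J2 := Nat.ceil_lt_add_one (a := 100 * u ^ 2) (by positivity)
  have uu : 1 ≤ u ^ 2 := one_le_pow₀ (by linarith only [ht, hB', f0, x72, p2, u1])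
  have M1 := Nat.le_ceil (4 * t ^ 20)
  have M2 := Nat.ceil_lt_add_one (a := 4 * t ^ 20) (by positivity)
  have L4 : l ^ 2 ≤ l ^ (2 * A + 4) := lp (by omega)
  have l2 : 10000 * l ≤ l ^ 2 := by rw [sq]; gcongr
  have lB : l ≤ l ^ B := le_self_pow₀ (by linarith only [ht, hl, hB', f0, x72, p2, p5, p7, p9, p10, p20]) (by omega)
  have Q2 := Nat.lt_floor_add_one (l ^ B)
  have N1 : l ≤ N := by simpa using lN 1 (by push_cast; linarith only [hB'])
  have N0 : 10000 ≤ N := by exact_mod_cast l4.trans N1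
  have Jm0 : 1 ≤ ⌊Real.exp (t ^ 10)⌋₊ := Nat.le_floor (by simpa using by positivity)
  have lA0 : 1 ≤ l ^ A := one_le_pow₀ (by linarith only [ht, hl, hB', f0, x72, p2, p5, p7, p9, p10, p20])
  have ks : ∀ j : ℕ, (j : ℝ) ≤ A * Real.log l → j ≤ s := fun j hj => by
    have : (j : ℝ) ≤ s := by
      calc (j : ℝ) ≤ A * (20 * t) := hj.trans (by rw [ll]; gcongr)
        _ = 20 * A * t := by ring
        _ ≤ t * t := by gcongr; linarith only [ht, hB', f0, x72]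
        _ ≤ _ := by rw [← sq]; exact s1
    exact_mod_cast this
  have Dle : ∀ j : ℕ, j ≤ s → (((s + j).choose j : ℕ) : ℝ) ≤ l ^ j := fun j hj => by
    calc (((s + j).choose j : ℕ) : ℝ) ≤ ((s + j : ℕ) : ℝ) ^ j := by
          exact_mod_cast Nat.choose_le_pow _ _
      _ ≤ _ := by
          gcongr
          have : (j : ℝ) ≤ s := by exact_mod_cast hj
          push_cast
          linarith only [ht, hl, hB', f0, x72, p2, p5, p7, p9, p10, p20, s2, this]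
  have Q1 : (⌊l ^ B⌋₊ : ℝ) ≤ l ^ B := Nat.floor_le (by positivity)
  refine ⟨s, ⌈2 * u⌉₊, ⌈100 * u ^ 2⌉₊, ⌈4 * t ^ 20⌉₊,
    2 ^ (Nat.log 2 (10 * (⌊Real.exp (t ^ 10)⌋₊ * N)) + 1), _, t4, l4,
    by exact_mod_cast (by linarith only [ht, hB', f0, x72, p2, s1] : (1 : ℝ) ≤ s), s1, s2, hu ▸ n1, hu ▸ (by linarith only [ht, hB', f0, x72, p2, u1, n2]),
    hu ▸ Nat.le_ceil _, hu ▸ (by linarith only [J2, uu]), M1,
    by exact_mod_cast (by linarith only [ht, hB', f0, x72, p2, p5, p7, p9, p10, p20, M1] : (1 : ℝ) ≤ ⌈4 * t ^ 20⌉₊), by linarith only [ht, hl, hB', f0, x72, p2, p5, p7, p9, p10, p20, M2, L4, l2], ⟨_, rfl⟩,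
    Nat.lt_pow_succ_log_self (by norm_num) _, ?_, eN, rfl,
    by exact_mod_cast (by linarith only [ht, hl, hB', f0, x72, p2, p5, p7, p9, p10, p20, lB, Q2] : (2 : ℝ) ≤ ⌊l ^ B⌋₊), Q1, by linarith only [ht, hl, hB', f0, x72, p2, p5, p7, p9, p10, p20, lB, Q2],
    lN _ (by push_cast; linarith only [hB']), by exact_mod_cast (by linarith only [ht, hB', f0, x72, p2, u1, n1] : (10 : ℝ) ≤ ⌈2 * u⌉₊), ?_, N0,
    ?_, ?_, ks, fun j hj => ?_, fun j j' hj hj' => ?_, ?_, ?_, ?_, by linarith only [ht, hl, hB', f0, x72, p2, p5, p7, p9, p10, p20, L4, l2], by linarith only [ht, hl, hB', f0, x72, p2, p5, p7, p9, p10, p20, s2, L4, l2],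
    hu ▸ (by linarith only [ht, hl, hB', f0, x72, p2, p5, p7, p9, p10, p20, u2, L4, l2]), by linarith only [ht, hl, hB', f0, x72, p2, p5, p7, p9, p10, p20, L4, l2], hu ▸ (by linarith only [ht, hB', f0, x72, p2, p5, p7, p9, p10, u2]), ?_⟩
  · have W2 := Nat.pow_log_le_self 2 (x := 10 * (⌊Real.exp (t ^ 10)⌋₊ * N)) (by positivity)
    have a0 : (⌊Real.exp (t ^ 10)⌋₊ : ℝ) ≤ Real.exp (t ^ 10) := Nat.floor_le (Real.exp_pos _).le
    have a1 : (N : ℝ) ≤ Real.exp (2 * t ^ 20) := by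
      rw [two_mul, Real.exp_add, ← hl, eX, ← sq]; exact_mod_cast hN2
    have a2 : (20 : ℝ) ≤ Real.exp (t ^ 10) := by linarith only [ht, hB', f0, x72, p2, p5, p7, p9, p10, Real.add_one_le_exp (t ^ 10)]
    calc _ ≤ ((20 * (⌊Real.exp (t ^ 10)⌋₊ * N) : ℕ) : ℝ) := by
          rw [pow_succ]; exact_mod_cast (by omega)
      _ ≤ Real.exp (t ^ 10) * (Real.exp (t ^ 10) * Real.exp (2 * t ^ 20)) := by
          push_cast; gcongr
      _ ≤ _ := by
          rw [← Real.exp_add, ← Real.exp_add]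
          exact Real.exp_le_exp.2 (by linarith only [ht, hB', f0, x72, p2, p5, p7, p9, p10, p20])
  · calc 40 * (⌈2 * u⌉₊ * l ^ A) = 40 * ⌈2 * u⌉₊ * l ^ A := by ring
      _ ≤ l * l ^ A := by gcongr; linarith only [ht, hl, hB', f0, x72, p2, p5, p7, p9, p10, p20, u2, n2]
      _ ≤ _ := by rw [← pow_succ']; exact lN _ (by push_cast; linarith only [hB'])
  · refine lt_of_lt_of_le ?_ (lH0 (A + 1) (by push_cast; linarith only [hB', lB1]))
    exact pow_lt_pow_right₀ (by linarith only [ht, hl, hB', f0, x72, p2, p5, p7, p9, p10, p20]) (by omega)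
  · have := lH0 1 (by push_cast; linarith only [hB', lB1])
    rw [pow_one] at this
    linarith only [ht, hl, hB', f0, x72, p2, p5, p7, p9, p10, p20, s2, this]
  · refine le_trans ?_ (SPF_choose hj)
    rw [le_div_iff₀ f0]
    calc l ^ B * k0.factorial ≤ l ^ B * t ^ 2 := by gcongr; linarith only [ht, hB', f0, x72, p2]
      _ = (t ^ 2) ^ k0 := by rw [hl, hk0]; ring
      _ ≤ _ := by gcongr
  · calc _ ≤ (l ^ j * l ^ j' * l ^ B * l ^ (2 * A + 4)) ^ 20 := by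
          gcongr
          · exact Dle j (ks j hj)
          · exact Dle j' (ks j' hj')
      _ = l ^ ((j + j' + B + (2 * A + 4)) * 20) := by ring
      _ ≤ H0 := by
          refine lH0 _ ?_
          push_cast
          have a1 : (A : ℝ) * 1 ≤ A * Real.log l := by gcongr
          rw [hB']
          linarith only [ll1, hj, hj', a1]
  · have a2 : 4 * (s : ℝ) ^ 2 * t ^ 5 + 1 ≤ l := by
      have : (s : ℝ) ^ 2 * t ^ 5 ≤ (2 * t ^ 2) ^ 2 * t ^ 5 := by gcongr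
      have e : (2 * t ^ 2) ^ 2 * t ^ 5 = 4 * t ^ 9 := by ring
      linarith only [ht, hl, hB', f0, x72, p2, p5, p7, p9, p10, p20, this]
    have a3 : 1 ≤ l ^ (A + 1) := one_le_pow₀ (by linarith only [ht, hl, hB', f0, x72, p2, p5, p7, p9, p10, p20])
    rw [div_div_eq_mul_div, div_one]
    calc _ ≤ 4 * (s : ℝ) ^ 2 * t ^ 5 * l ^ (A + 1) + 1 * l ^ (A + 1) := by linarith only [a3]
      _ = (4 * (s : ℝ) ^ 2 * t ^ 5 + 1) * l ^ (A + 1) := by ring
      _ ≤ l * l ^ (A + 1) := by gcongr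
      _ = _ := by ring
  · rw [Real.log_pow]; push_cast; linarith only [ht, hB', f0, x72, p2, lt]
  · rw [Real.exp_add, Real.exp_log (by positivity)]
    have : Real.exp 72 * t ^ 5 ≤ t ^ 2 * t ^ 5 := by gcongr; linarith only [ht, hB', f0, x72, p2]
    have e : t ^ 2 * t ^ 5 = t ^ 7 := by ring
    linarith only [ht, hl, hB', f0, x72, p2, p5, p7, p9, p10, p20, L4, l2, this]
  · have a1 := lt2 A (by linarith only [hB'])
    have a2 : (2 : ℝ) ≤ Real.exp (t ^ 2) := by linarith only [ht, hB', f0, x72, p2, Real.add_one_le_exp (t ^ 2)]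
    calc 2 * l ^ A ≤ Real.exp (t ^ 2) * Real.exp (t ^ 2) := by gcongr
      _ ≤ _ := by
          rw [← Real.exp_add, ← hu]
          exact Real.exp_le_exp.2 (by linarith only [ht, hB', f0, x72, p2, u1])

end Pool.Agent.Work.MP_678620_nt
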