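import Pool.Agent.Work.MP_678620_nt.SPDefs

/-! The arithmetic functions and their local models. -/

set_option autoImplicit false
open Finset

namespace Pool.Agent.Work.MP_678620_nt

noncomputable section

/-- Number of primes of `E` dividing `n`. -/
def wE (E : Finset ℕ) (n : ℤ) : ℕ := (E.filter fun p : ℕ => (p : ℤ) ∣ n).card

/-- All prime factors are at most `z`. -/
def Smo (z : ℝ) (n : ℕ) : Prop := ∀ p : ℕ, p.Prime → p ∣ n → (p : ℝ) ≤ z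

/-- All prime factors exceed `z`. -/
def Rou (z : ℝ) (n : ℕ) : Prop := ∀ p : ℕ, p.Prime → p ∣ n → z < p

instance (z : ℝ) (n : ℕ) : Decidable (Rou z n) := Classical.propDecidable _

instance (z : ℝ) (n : ℕ) : Decidable (Smo z n) := Classical.propDecidable _

/-- The sifting limit. -/
def zz (X : ℕ) : ℝ := Real.exp (Real.log X ^ (24 / 25 : ℝ))

def Vz (z : ℝ) : ℝ := ∏ p ∈ (Icc 1 ⌊z⌋₊).filter Nat.Prime, (1 - (p : ℝ)⁻¹)

/-- `w * (log on the primes above z that are 1 mod q0)`. -/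
def gam (z : ℝ) (q0 : ℕ) (w : ℕ → ℝ) (m : ℕ) : ℝ :=
  ∑ p ∈ m.primeFactors, if z < p ∧ p ≡ 1 [MOD q0] then w (m / p) * Real.log p else 0

/-- The local density. -/
def rhoF (z : ℝ) (w : ℕ → ℝ) (m : ℕ) : ℝ :=
  (∑ m' ∈ (Icc 1 m).filter (fun m' : ℕ => (m' : ℝ) * z < m), w m' / m') / Vz z

/-- The model of `gam`. -/
def flat (z : ℝ) (q0 : ℕ) (w : ℕ → ℝ) (m : ℕ) : ℝ :=
  if Rou z m ∧ m ≡ 1 [MOD q0] then rhoF z w m else 0

/-- Dirichlet convolution, extended by zero to the non-positive integers. -/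
def conv (β : ℕ → ℂ) (γ : ℕ → ℝ) (n : ℤ) : ℂ :=
  ∑ x ∈ n.toNat.divisorsAntidiagonal, β x.1 * (γ x.2 : ℂ)

/-- Admissible coefficients: `β` lives on the smooth numbers, `w` on the rough numbers that are
`1 mod q0`. -/
structure Dat (z : ℝ) (q0 : ℕ) (β : ℕ → ℂ) (w : ℕ → ℝ) : Prop where
  β_le : ∀ n, ‖β n‖ ≤ 1
  β_supp : ∀ n, β n ≠ 0 → Smo z n
  w_nonneg : ∀ n, 0 ≤ w n
  w_le : ∀ n, w n ≤ 1
  w_supp : ∀ n, w n ≠ 0 → Rou z n ∧ n ≡ 1 [MOD q0]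

/-- The set of small primes. -/
structure Eok (X : ℕ) (c0 : ℝ) (E : Finset ℕ) : Prop where
  prime : ∀ p ∈ E, p.Prime
  lo : ∀ p ∈ E, Real.exp (Real.log X ^ c0) ≤ p
  hi : ∀ p ∈ E, (p : ℝ) ≤ Real.exp (Real.log X ^ (1 / 4 : ℝ))
  big : 1 / 2 ≤ ∑ p ∈ E, (p : ℝ)⁻¹

end

end Pool.Agent.Work.MP_678620_nt
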