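import Pool.Agent.Work.MP_678620_nt.SPIface
import Pool.Agent.Lib.ANT.Mertens

/-! Numerical inequalities for the choice of the parameters. -/

set_option autoImplicit false
open Finset Filter

namespace Pool.Agent.Work.MP_678620_nt

lemma SPF_sq_le_exp {x : ℝ} (hx : 0 ≤ x) : x ^ 2 / 2 ≤ Real.exp x := by
  simpa using Real.pow_div_factorial_le_exp x hx 2

lemma SPF_pow_le {a b : ℝ} (ha : 0 ≤ a) (h : a ≤ Real.exp b) (n : ℕ) :
    a ^ n ≤ Real.exp (n * b) := by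
  rw [Real.exp_nat_mul]; exact pow_le_pow_left₀ ha h n

theorem SPF_num {t L : ℝ} {s n J M R W N : ℕ} (ht : 10000 ≤ t) (s1 : t ^ 2 ≤ s)
    (s2 : (s : ℝ) ≤ 2 * t ^ 2) (n1 : 2 * (s * t ^ 5) ≤ n) (n2 : (n : ℝ) ≤ 3 * (s * t ^ 5))
    (J1 : 100 * (s * t ^ 5) ^ 2 ≤ J) (J2 : (J : ℝ) ≤ 101 * (s * t ^ 5) ^ 2) (M1 : 4 * t ^ 20 ≤ M)
    (hR : (R : ℝ) ≤ Real.exp (3 * (s * t ^ 5) / 2)) (L0 : 0 ≤ L) (L1 : L ≤ t ^ 2)
    (hW : (W : ℝ) ≤ Real.exp (3 * t ^ 20)) (hN : Real.exp (t ^ 20 / 2) ≤ N) :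
    W * (((2 * R + 1) * Real.exp (t ^ 5) ^ (10 * s)) ^ (n + 1)) ^ 2 *
      (4 ^ ((n + 1) * (8 * s)) * Real.exp (4 * ((n + 1) * 3 : ℕ) * L)) ≤ (4 : ℝ) ^ M ∧
    (2 * (n * R) + 1) * (((2 * R + 1) * Real.exp (t ^ 5) ^ (10 * s)) ^ n) ^ 2 *
      (2 * (((2 * (n * 3) : ℕ) * L) ^ (J + 1) / (J + 1).factorial)) ≤ (1 : ℝ) ∧
    (2 * (n * R) + 1) * (((2 * R + 1) * Real.exp (t ^ 5) ^ (10 * s)) ^ n) ^ 2 *
      (Real.exp (t ^ 5) ^ (2 * (n * (8 * s))) *
        (1 + (2 * (n * 3) : ℕ) * Real.exp (t ^ 5)) ^ (J + 1)) ≤ (N : ℝ) ∧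
    120 * (n * R) * Real.exp (-(2 * n)) ≤ Real.exp (-(2 * (s * t ^ 5))) := by
  obtain ⟨u, hu⟩ : ∃ u : ℝ, u = s * t ^ 5 := ⟨_, rfl⟩
  rw [← hu] at n1 n2 J1 J2 hR ⊢
  have t0 : 0 < t := by linarith only [ht]
  have t1 : 1 ≤ t := by linarith only [ht]
  have t5 : 10000 ≤ t ^ 5 := ht.trans (le_self_pow₀ t1 (by norm_num))
  have t2 : 10000 ≤ t ^ 2 := ht.trans (le_self_pow₀ t1 (by norm_num))
  have s0 : (0 : ℝ) ≤ s := Nat.cast_nonneg s
  have su : 10000 * (s : ℝ) ≤ u := by clear * - s u t hu t5; rw [hu]; nlinarith only [t5]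
  have u1 : 10000 ≤ u := by clear * - u t s s1 t2 su; nlinarith only [s1, t2, su]
  have u2 : u ≤ 2 * t ^ 7 := by
    rw [hu]; calc (s : ℝ) * t ^ 5 ≤ 2 * t ^ 2 * t ^ 5 := by gcongr
      _ = _ := by ring
  have u3 : u ^ 2 ≤ 4 * t ^ 14 := by
    calc u ^ 2 ≤ (2 * t ^ 7) ^ 2 := by gcongr
      _ = _ := by ring
  have Lu : 10000 * L ≤ u := by linarith only [s1, L1, su]
  have n0 : (0 : ℝ) ≤ n := Nat.cast_nonneg n
  have R0 : (0 : ℝ) ≤ R := Nat.cast_nonneg R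
  have eu : 1000 * u ≤ Real.exp (u / 2) := by
    clear * - u t s s1 t2 su n ht n1 n2
    have := SPF_sq_le_exp (x := u / 2) (by linarith only [s1, t2, su])
    nlinarith only [ht, n1, this, s1, t2, su, n2]
  have e1 : 1 ≤ Real.exp (3 * u / 2) := Real.one_le_exp (by linarith only [s1, t2, su])
  have e2 : Real.exp (2 * u) = Real.exp (3 * u / 2) * Real.exp (u / 2) := by
    rw [← Real.exp_add]; congr 1; ring
  have e3 : Real.exp (3 * u / 2) * (1000 * u) ≤ Real.exp (2 * u) := by rw [e2]; gcongr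
  have e5 : Real.exp (3 * u / 2) * 1 ≤ Real.exp (3 * u / 2) * u := by gcongr; linarith only [s1, t2, su]
  have B0 : (2 * R + 1 : ℝ) ≤ Real.exp (2 * u) := by linarith only [hR, e1, e3, e5]
  have H : ∀ m : ℕ, Real.exp (t ^ 5) ^ (m * s) = Real.exp (m * u) := fun m => by
    rw [← Real.exp_nat_mul, hu]; congr 1; push_cast; ring
  have B1 : (2 * R + 1 : ℝ) * Real.exp (t ^ 5) ^ (10 * s) ≤ Real.exp (12 * u) := by
    clear * - R t s u H B0
    rw [H]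
    calc _ ≤ Real.exp (2 * u) * Real.exp ((10 : ℕ) * u) := by gcongr
      _ = _ := by rw [← Real.exp_add]; congr 1; push_cast; ring
  have B2 : ∀ m : ℕ, (m : ℝ) ≤ 4 * u →
      (((2 * R + 1 : ℝ) * Real.exp (t ^ 5) ^ (10 * s)) ^ m) ^ 2 ≤ Real.exp (24 * m * u) :=
    fun m _ => by
      refine (SPF_pow_le (by positivity) (SPF_pow_le (by positivity) B1 m) 2).trans_eq ?_
      congr 1; push_cast; ring
  have A1 : (2 * (n * R) + 1 : ℝ) ≤ Real.exp (2 * u) := by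
    clear * - n R u n2 hR u1 e1 e3 e5
    have : (n : ℝ) * R ≤ 3 * u * Real.exp (3 * u / 2) := by gcongr
    linarith only [e1, e3, e5, this]
  have t14 : 10000 * t ^ 14 ≤ t ^ 19 := by
    rw [show t ^ 19 = t ^ 5 * t ^ 14 by ring]; gcongr
  have t19 : 10000 * t ^ 19 ≤ t ^ 20 := by
    rw [show t ^ 20 = t * t ^ 19 by ring]; gcongr
  have p14 : 0 < t ^ 14 := by positivity
  have nu : (n : ℝ) * u ≤ 3 * u ^ 2 := by clear * - n u n2; nlinarith only [n2]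
  have uu : 10000 * u ≤ u ^ 2 := by clear * - u t n s t2 nu s1 n1 su; nlinarith only [t2, nu, s1, n1, su]
  have e4 : (4 : ℝ) ≤ Real.exp 2 := by
    have := Real.add_one_le_exp (1 : ℝ)
    rw [show (2 : ℝ) = 1 + 1 by norm_num, Real.exp_add]; nlinarith only [this]
  refine ⟨?_, ?_, ?_, ?_⟩
  · have a1 := B2 (n + 1) (by push_cast; linarith only [s1, n2, t2, su])
    have a2 := SPF_pow_le (by norm_num) e4 ((n + 1) * (8 * s))
    have a3 : Real.exp M ≤ (4 : ℝ) ^ M := by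
      rw [← Real.exp_one_pow]
      exact pow_le_pow_left₀ (Real.exp_pos 1).le (by linarith only [Real.exp_one_lt_d9]) M
    refine le_trans ?_ a3
    calc _ ≤ Real.exp (3 * t ^ 20) * Real.exp (24 * (n + 1 : ℕ) * u) *
          (Real.exp (((n + 1) * (8 * s) : ℕ) * 2) * Real.exp (4 * ((n + 1) * 3 : ℕ) * L)) := by
          clear * - W R t s n u L hW a1 a2
          gcongr
      _ ≤ _ := by
          clear * - t n u s L M s1 n2 t2 su u1 L1 L0 M1 u3 t14 t19 nu uu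
          rw [← Real.exp_add, ← Real.exp_add, ← Real.exp_add]
          refine Real.exp_le_exp.2 ?_
          push_cast
          have b1 : ((n : ℝ) + 1) * s ≤ 4 * u * u := by gcongr <;> linarith only [s1, n2, t2, su]
          have b2 : ((n : ℝ) + 1) * L ≤ 4 * u * u := by gcongr <;> linarith only [s1, n2, t2, su, L1]
          linarith only [s1, M1, t2, su, u3, t14, t19, nu, uu, b1, b2]
  · have a1 := B2 n (by linarith only [s1, n2, t2, su])
    have x0 : (0 : ℝ) ≤ (2 * (n * 3) : ℕ) * L := by positivity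
    have a2 : (((2 * (n * 3) : ℕ) * L) ^ (J + 1) / (J + 1).factorial : ℝ)
        ≤ Real.exp (u ^ 2 - (J + 1)) := by
      clear * - n L J L0 u n2 t s s1 L1 su u1 t2 uu
      have b1 := Real.pow_div_factorial_le_exp (Real.exp 1 * ((2 * (n * 3) : ℕ) * L))
        (by positivity) (J + 1)
      rw [mul_pow, Real.exp_one_pow, mul_div_assoc] at b1
      rw [Real.exp_sub, le_div_iff₀ (Real.exp_pos _), mul_comm]
      push_cast at b1 ⊢
      refine b1.trans (Real.exp_le_exp.2 ?_)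
      have b2 : (n : ℝ) * L ≤ 3 * u * (u / 10000) := by gcongr; linarith only [s1, L1, su]
      have b3 : Real.exp 1 * (2 * (n * 3) * L) ≤ 3 * (2 * (n * 3) * L) := by
        gcongr; linarith only [Real.exp_one_lt_d9]
      linarith only [s1, t2, su, uu, b2, b3]
    calc _ ≤ Real.exp (2 * u) * Real.exp (24 * n * u) *
          (Real.exp 2 * Real.exp (u ^ 2 - (J + 1))) := by
          clear * - n R t s u L J A1 a1 e4 a2 L0
          gcongr; linarith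
      _ ≤ Real.exp 0 := by
          rw [← Real.exp_add, ← Real.exp_add, ← Real.exp_add]
          refine Real.exp_le_exp.2 ?_
          linarith only [s1, J1, t2, su, nu, uu]
      _ = 1 := Real.exp_zero
  · have a1 := B2 n (by linarith only [s1, n2, t2, su])
    have a2 : Real.exp (t ^ 5) ^ (2 * (n * (8 * s))) = Real.exp (16 * n * u) := by
      rw [show 2 * (n * (8 * s)) = (16 * n) * s by ring, H]; push_cast; rfl
    have a3 : (1 + (2 * (n * 3) : ℕ) * Real.exp (t ^ 5) : ℝ) ≤ Real.exp (2 * t ^ 5) := by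
      clear * - t ht t1 n u n2 u2
      have b1 := SPF_sq_le_exp (x := t ^ 5) (by positivity)
      have b2 : 1 ≤ Real.exp (t ^ 5) := Real.one_le_exp (by positivity)
      have b3 : 100 * t ^ 7 ≤ (t ^ 5) ^ 2 := by
        rw [show (t ^ 5) ^ 2 = t ^ 3 * t ^ 7 by ring]
        gcongr
        exact le_trans (by linarith) (le_self_pow₀ t1 (by norm_num))
      have b4 : 1 ≤ t ^ 7 := one_le_pow₀ t1
      rw [two_mul (t ^ 5), Real.exp_add]
      push_cast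
      have b5 : (n : ℝ) * Real.exp (t ^ 5) ≤ 6 * t ^ 7 * Real.exp (t ^ 5) := by gcongr; linarith only [n2, u2]
      have b6 : 50 * t ^ 7 * Real.exp (t ^ 5) ≤ Real.exp (t ^ 5) * Real.exp (t ^ 5) := by
        gcongr; linarith only [b1, b3]
      have b7 : 1 ≤ t ^ 7 * Real.exp (t ^ 5) := one_le_mul_of_one_le_of_one_le b4 b2
      linarith
    have a4 := SPF_pow_le (by positivity) a3 (J + 1)
    refine le_trans ?_ hN
    rw [a2]
    calc _ ≤ Real.exp (2 * u) * Real.exp (24 * n * u) *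
          (Real.exp (16 * n * u) * Real.exp ((J + 1 : ℕ) * (2 * t ^ 5))) := by clear * - n R t s u J A1 a1 a4; gcongr
      _ ≤ _ := by
          clear * - u n J t s s1 J2 t2 su u3 uu ht t14 t19 nu
          rw [← Real.exp_add, ← Real.exp_add, ← Real.exp_add]
          refine Real.exp_le_exp.2 ?_
          have b1 : ((J + 1 : ℕ) : ℝ) * (2 * t ^ 5) ≤ 408 * t ^ 14 * (2 * t ^ 5) := by
            gcongr; push_cast; linarith only [s1, J2, t2, su, u3, uu]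
          linarith only [s1, t2, su, u3, t14, t19, nu, uu, b1]
  · have a1 : (n : ℝ) * R ≤ 3 * u * Real.exp (3 * u / 2) := by gcongr
    calc _ ≤ Real.exp (2 * u) * Real.exp (-(4 * u)) :=
          mul_le_mul (by linarith only [e1, e3, e5, a1]) (Real.exp_le_exp.2 (by linarith only [n1])) (Real.exp_pos _).le
            (Real.exp_pos _).le
      _ = _ := by rw [← Real.exp_add]; congr 1; ring

theorem SPF_fin {l γ : ℝ} {A B D D' Q N : ℕ} (hl : 6 ≤ l) (hB : B = 68 * A + 130)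
    (hD : l ^ B ≤ D) (hD' : l ^ B ≤ D') (hQ : l ^ B ≤ 2 * Q) (hQ' : (Q : ℝ) ≤ l ^ B)
    (hγ : 0 < γ) (hγ' : 1 / γ ≤ l ^ (2 * A + 2)) (hN : l ^ (14 * A + 25 + 6 * B) ≤ N) :
    2 * N / γ * √((l ^ (2 * A + 4)) ^ 14 * (1 / D + 1 / √D' + 1 / √Q)
      + (l ^ (2 * A + 4)) ^ 4 * (Q : ℝ) ^ 2 * (1 / l ^ (4 * B))
      + (l ^ (2 * A + 4)) ^ 4 * (Q : ℝ) ^ 6 / N) + 3 * (1 / l ^ (A + 1)) * N + 2 ≤ N / l ^ A := by
  have l0 : 0 < l := by linarith only [hl]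
  have l1 : 1 ≤ l := by linarith
  obtain ⟨Y, hY⟩ : ∃ Y, Y = l ^ (34 * A + 65) := ⟨_, rfl⟩
  have Y1 : 1 ≤ Y := hY ▸ one_le_pow₀ l1
  have Y2 : l ^ B = Y ^ 2 := by rw [hY, hB, ← pow_mul]; congr 1; ring
  have N0 : (0 : ℝ) < N := lt_of_lt_of_le (by positivity) hN
  have a1 : 1 / (D : ℝ) ≤ 1 / Y := one_div_le_one_div_of_le (by linarith) (by clear * - Y D l B hD Y1 Y2; nlinarith only [hD, Y1, Y2])
  have a2 : 1 / √D' ≤ 1 / Y :=
    one_div_le_one_div_of_le (by linarith only [Y1]) (Real.le_sqrt_of_sq_le (by linarith only [hD', Y2]))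
  have a3 : 1 / √Q ≤ 2 * (1 / Y) := by
    clear * - Y Q l B hQ Y2 Y1
    have : Y / 2 ≤ √Q := Real.le_sqrt_of_sq_le (by nlinarith only [hQ, Y2])
    calc 1 / √Q ≤ 1 / (Y / 2) := one_div_le_one_div_of_le (by linarith) this
      _ = _ := by field_simp
  have b1 : (l ^ (2 * A + 4)) ^ 14 * (1 / D + 1 / √D' + 1 / √Q) ≤ 4 * (1 / l ^ (6 * A + 9)) := by
    clear * - l A D D' Q Y a1 a2 a3 hl hY
    calc _ ≤ (l ^ (2 * A + 4)) ^ 14 * (4 * (1 / Y)) := by gcongr; linarith only [a1, a2, a3]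
      _ = _ := by rw [hY]; field_simp; ring
  have b2 : (l ^ (2 * A + 4)) ^ 4 * (Q : ℝ) ^ 2 * (1 / l ^ (4 * B)) ≤ 1 / l ^ (6 * A + 9) := by
    clear * - l A Q B hQ' hl hB l1
    calc _ ≤ (l ^ (2 * A + 4)) ^ 4 * (l ^ B) ^ 2 * (1 / l ^ (4 * B)) := by gcongr
      _ = 1 / l ^ (128 * A + 244) := by rw [hB]; field_simp; ring
      _ ≤ _ := by gcongr <;> omega
  have b3 : (l ^ (2 * A + 4)) ^ 4 * (Q : ℝ) ^ 6 / N ≤ 1 / l ^ (6 * A + 9) := by
    clear * - l A Q N B hl hQ' hN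
    calc _ ≤ (l ^ (2 * A + 4)) ^ 4 * (l ^ B) ^ 6 / l ^ (14 * A + 25 + 6 * B) := by gcongr
      _ = _ := by field_simp; ring
  have c1 : √((l ^ (2 * A + 4)) ^ 14 * (1 / D + 1 / √D' + 1 / √Q)
      + (l ^ (2 * A + 4)) ^ 4 * (Q : ℝ) ^ 2 * (1 / l ^ (4 * B))
      + (l ^ (2 * A + 4)) ^ 4 * (Q : ℝ) ^ 6 / N) ≤ 1 / l ^ (3 * A + 4) := by
    clear * - l A D D' Q B N hl b1 b2 b3
    refine Real.sqrt_le_iff.2 ⟨by positivity, ?_⟩
    calc _ ≤ 6 * (1 / l ^ (6 * A + 9)) := by linarith only [b1, b2, b3]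
      _ ≤ l * (1 / l ^ (6 * A + 9)) := by gcongr
      _ = _ := by field_simp; ring
  have c2 : (2 : ℝ) ≤ N / l ^ (A + 1) := by
    clear * - N l A hl B l1 hB hN
    rw [le_div_iff₀ (by positivity)]
    calc 2 * l ^ (A + 1) ≤ l * l ^ (A + 1) := by gcongr; linarith only [hl]
      _ = l ^ (A + 2) := by ring
      _ ≤ l ^ (14 * A + 25 + 6 * B) := pow_le_pow_right₀ l1 (by omega)
      _ ≤ _ := hN
  have c3 : 2 * N / γ * (1 / l ^ (3 * A + 4)) ≤ 2 * (N / l ^ (A + 1)) := by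
    clear * - N γ l A hγ' N0 hl l1 B
    calc 2 * N / γ * (1 / l ^ (3 * A + 4)) = 2 * N * (1 / γ) * (1 / l ^ (3 * A + 4)) := by ring
      _ ≤ 2 * N * l ^ (2 * A + 2) * (1 / l ^ (3 * A + 3)) := by gcongr; omega
      _ = _ := by field_simp; ring
  calc _ ≤ 2 * N / γ * (1 / l ^ (3 * A + 4)) + 3 * (1 / l ^ (A + 1)) * N + 2 := by gcongr
    _ ≤ 6 * (N / l ^ (A + 1)) := by
        clear * - l A N γ c2 c3
        have : 3 * (1 / l ^ (A + 1)) * N = 3 * (N / l ^ (A + 1)) := by ring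
        linarith only [c2, c3, this]
    _ ≤ l * (N / l ^ (A + 1)) := by gcongr
    _ = _ := by field_simp; ring

/-- The property only involves the values on `[1, 20 N]`. -/
lemma MRB_congr {N : ℕ} {c c' : ℤ → ℂ} {h : ℤ} {H0 H1 ε : ℝ} {Q Jm : ℕ} (hH : 1 ≤ H0)
    (hN : 100 * |h| + 100 ≤ N) (hc : ∀ n : ℤ, 1 ≤ n → n ≤ 20 * N → c' n = c n)
    (H : MRB N c h H0 H1 Q Jm ε) : MRB N c' h H0 H1 Q Jm ε := by
  intro P I V J K θ h1 h2 h3 h4 h5 h6 h7 h8 h9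
  refine le_trans (le_of_eq ?_) (H P I V J K θ h1 h2 h3 h4 h5 h6 h7 h8 h9)
  refine sum_congr rfl fun x hx => ?_
  congr 2
  refine sum_congr rfl fun i hi => ?_
  congr 1
  refine sum_congr rfl fun p hp => sum_congr rfl fun w hw => ?_
  split_ifs with hd
  swap
  · rfl
  obtain ⟨n, hn⟩ := hd
  obtain ⟨v1, v2⟩ := h4 p hp w hw
  have J1 : 1 ≤ J := by exact_mod_cast hH.trans (h1.trans h5)
  obtain ⟨v, hv⟩ : ∃ v : ℕ, v = p * w := ⟨_, rfl⟩
  rw [← hv] at hn v1 v2 ⊢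
  have v0 : (0 : ℤ) < v := by exact_mod_cast (by omega : 0 < v)
  rw [hn, Int.mul_ediv_cancel_left _ v0.ne']
  obtain ⟨x1, x2⟩ := mem_Icc.1 hx
  have i1 : (i : ℤ) ≤ J := by exact_mod_cast ((mem_range.1 hi).le.trans h8)
  have i0 : (0 : ℤ) ≤ i := Int.natCast_nonneg i
  have x3 : (J : ℤ) * N ≤ 2 * x + 1 := by
    clear * - J N h Q Jm K θ x i p w n v x1
    have : J * N ≤ 2 * (J * N / 2) + 1 := by omega
    have : ((J * N : ℕ) : ℤ) ≤ 2 * ((J * N / 2 : ℕ) : ℤ) + 1 := by exact_mod_cast this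
    push_cast at this x1
    linarith
  push_cast at x2
  have v1' : (J : ℤ) ≤ 2 * v := by exact_mod_cast v1
  have v2' : (v : ℤ) ≤ 5 * J := by exact_mod_cast v2
  have J1' : (1 : ℤ) ≤ J := by exact_mod_cast J1
  have a0 := abs_nonneg h
  have a1 := le_abs_self h
  have a2 := neg_abs_le h
  have hi1 : h * i ≤ |h| * J := by clear * - h i J a1 i1 a0; nlinarith only [a1, i1, a0]
  have hi2 : -(|h| * J) ≤ h * i := by clear * - h J i a2 i1 a0; nlinarith only [a2, i1, a0]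
  have n1 : |h| + 1 ≤ n := by
    clear * - h n v N Q Jm J K θ x i p w v0 J1 hn x3 hi1 hi2 v2 hN
    by_contra hc'
    have : v * n ≤ v * |h| := mul_le_mul_of_nonneg_left (by omega) v0.le
    nlinarith only [J1, hn, v0, x3, hi1, hi2, this, v2, hN]
  have n2 : n ≤ 11 * N := by
    clear * - n N J v v1' h Q Jm K θ x i p w hv v0 J1 hn x1 x2 hi1 hN
    by_contra hc'
    have : (J : ℤ) * (11 * N) ≤ 2 * v * n :=
      mul_le_mul v1' (by omega) (by omega) (by omega)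
    nlinarith only [J1, hn, x1, x2, hi1, this, hN]
  exact hc _ (by omega) (by omega)

lemma SPF_L {E : Finset ℕ} {y : ℝ} (hy : 1 ≤ y) (hE : ∀ p ∈ E, p.Prime ∧ (p : ℝ) ≤ Real.exp y) :
    ∑ p ∈ E, (p : ℝ)⁻¹ ≤ 72 + Real.log y := by
  have h2 : 2 ≤ ⌊Real.exp y⌋₊ := Nat.le_floor (by
    have := Real.add_one_le_exp y
    push_cast; linarith)
  have h := (abs_le.1 (Pool.Agent.Lib.ANT.abs_sum_inv_prime_sub_loglog_le _ h2)).2
  have h3 : (2 : ℝ) ≤ ⌊Real.exp y⌋₊ := by exact_mod_cast h2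
  have h4 : Real.log (Real.log ⌊Real.exp y⌋₊) ≤ Real.log y := by
    refine Real.log_le_log (Real.log_pos (by linarith)) ?_
    rw [Real.log_le_iff_le_exp (by linarith)]
    exact Nat.floor_le (Real.exp_pos y).le
  have h5 : ∑ p ∈ E, (p : ℝ)⁻¹ ≤ ∑ p ∈ (Ioc 0 ⌊Real.exp y⌋₊).filter Nat.Prime, (p : ℝ)⁻¹ :=
    sum_le_sum_of_subset_of_nonneg (fun p hp => mem_filter.2
      ⟨mem_Ioc.2 ⟨(hE p hp).1.pos, Nat.le_floor (hE p hp).2⟩, (hE p hp).1⟩) fun _ _ _ => by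
        positivity
  linarith

lemma SPF_esym {α : Type*} [DecidableEq α] {I : Finset α} {ν : α → ℝ} {b : ℝ} (hb : 0 ≤ b)
    (h : ∀ i ∈ I, b ≤ ν i) {j : ℕ} (hj : j ≤ I.card) : b ^ j ≤ esym I ν j := by
  obtain ⟨Z, hZ, hc⟩ := exists_subset_card_eq hj
  have h0 : ∀ i ∈ I, 0 ≤ ν i := fun i hi => hb.trans (h i hi)
  refine le_trans ?_ (single_le_sum (f := fun T => ∏ i ∈ T, ν i)
    (fun T hT => prod_nonneg fun i hi => h0 i ((mem_powersetCard.1 hT).1 hi))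
    (mem_powersetCard.2 ⟨hZ, hc⟩))
  rw [← hc, ← prod_const]
  exact prod_le_prod (fun _ _ => hb) fun i hi => h i (hZ hi)

lemma SPF_choose {s k k0 : ℕ} (h : k0 ≤ k) :
    (s : ℝ) ^ k0 / k0.factorial ≤ ((s + k).choose k : ℝ) := by
  have h1 : ((s + k0 + 1 - k0 : ℕ) : ℝ) ^ k0 / k0.factorial ≤ ((s + k0).choose k0 : ℝ) :=
    Nat.pow_le_choose k0 (s + k0)
  have h2 : (s + k0).choose k0 ≤ (s + k).choose k := by
    rw [← Nat.choose_symm_add, ← Nat.choose_symm_add]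
    exact Nat.choose_le_choose s (by omega)
  refine le_trans ?_ (h1.trans (by exact_mod_cast h2))
  gcongr
  omega

end Pool.Agent.Work.MP_678620_nt
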