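import Pool.Agent.Work.MP_678620_nt.SPAv

/-! Fourier analysis on the model group. -/

set_option autoImplicit false
open Finset Pool.Agent.Lib.LargeSieve

namespace Pool.Agent.Work.MP_678620_nt

namespace Sys

variable {ι : Type} [Fintype ι] [DecidableEq ι] (S : Sys ι)

lemma four_orth1 (a b : S.G) : ∑ ψ : AddChar S.G ℂ, ψ a * (starRingEnd ℂ) (ψ b)
    = if a = b then (Fintype.card S.G : ℂ) else 0 := by
  have h := AddChar.sum_apply_eq_ite (a - b)
  simp only [sub_eq_zero] at h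
  rw [← h]
  refine sum_congr rfl fun ψ _ => ?_
  rw [sub_eq_add_neg, AddChar.map_add_eq_mul, AddChar.map_neg_eq_conj]

open Classical in
lemma four_orth2 (ψ φ : AddChar S.G ℂ) : ∑ ξ, ψ ξ * (starRingEnd ℂ) (φ ξ)
    = if ψ = φ then (Fintype.card S.G : ℂ) else 0 := by
  have h := AddChar.sum_eq_ite (ψ - φ)
  simp only [sub_eq_zero] at h
  rw [← h]
  refine sum_congr rfl fun ξ _ => ?_
  rw [AddChar.sub_apply, AddChar.map_neg_eq_conj]

lemma four_card_ne : (Fintype.card S.G : ℂ) ≠ 0 := Nat.cast_ne_zero.2 Fintype.card_ne_zero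

lemma four_card_pos : (0 : ℝ) < Fintype.card S.G := Nat.cast_pos.2 Fintype.card_pos

lemma four_ip_self (f : S.G → ℂ) : S.ip f f = (S.nn f : ℂ) := by
  simp only [ip, nn]
  push_cast
  exact sum_congr rfl fun ξ _ => Complex.conj_mul' _

lemma parseval_ip (g f : S.G → ℂ) : (Fintype.card S.G : ℂ) * S.ip g f
    = ∑ ψ : AddChar S.G ℂ, (starRingEnd ℂ) (S.fh g ψ) * S.fh f ψ := by
  have e : ∀ ψ : AddChar S.G ℂ, (starRingEnd ℂ) (S.fh g ψ) * S.fh f ψ
      = ∑ ξ, ∑ η, (starRingEnd ℂ) (g ξ) * f η * (ψ ξ * (starRingEnd ℂ) (ψ η)) := by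
    intro ψ
    simp only [fh, map_sum, map_mul, Complex.conj_conj]
    rw [sum_mul_sum]
    exact sum_congr rfl fun ξ _ => sum_congr rfl fun η _ => by ring
  simp only [e]
  rw [sum_comm, ip, mul_sum]
  refine sum_congr rfl fun ξ _ => ?_
  rw [sum_comm]
  simp only [← mul_sum, four_orth1, mul_ite, mul_zero, sum_ite_eq, mem_univ, if_true]
  ring

lemma parseval (f : S.G → ℂ) :
    (Fintype.card S.G : ℝ) * S.nn f = ∑ ψ : AddChar S.G ℂ, ‖S.fh f ψ‖ ^ 2 := by
  have h := S.parseval_ip f f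
  simp only [four_ip_self, Complex.conj_mul'] at h
  exact_mod_cast h

lemma fh_sum {α : Type*} (s : Finset α) (c : α → ℂ) (f : α → S.G → ℂ) (ψ : AddChar S.G ℂ) :
    S.fh (fun ξ => ∑ i ∈ s, c i * f i ξ) ψ = ∑ i ∈ s, c i * S.fh (f i) ψ := by
  simp only [fh, sum_mul, mul_sum, mul_assoc]
  exact sum_comm

lemma fh_sub (f g : S.G → ℂ) (ψ : AddChar S.G ℂ) :
    S.fh (fun ξ => f ξ - g ξ) ψ = S.fh f ψ - S.fh g ψ := by
  simp only [fh, sub_mul, sum_sub_distrib]

lemma fh_tr (f : S.G → ℂ) (c : S.G) (ψ : AddChar S.G ℂ) :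
    S.fh (fun ξ => f (ξ + c)) ψ = ψ c * S.fh f ψ := by
  simp only [fh, mul_sum]
  refine Fintype.sum_equiv (Equiv.addRight c) _ _ fun ξ => ?_
  have h : ψ c * (starRingEnd ℂ) (ψ c) = 1 := by
    rw [← AddChar.map_neg_eq_conj, ← AddChar.map_add_eq_mul, add_neg_cancel,
      AddChar.map_zero_eq_one]
  simp only [Equiv.coe_addRight, AddChar.map_add_eq_mul, map_mul]
  linear_combination (-(f (ξ + c) * (starRingEnd ℂ) (ψ ξ))) * h

lemma al_spec (ψ : AddChar S.G ℂ) (j : ℤ) : ψ (j : S.G) = ee (S.al ψ * j) := by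
  have h1 : ψ 1 = Complex.exp (Complex.arg (ψ 1) * Complex.I) := by
    have h := Complex.norm_mul_exp_arg_mul_I (ψ 1)
    rw [AddChar.norm_apply] at h
    simpa using h.symm
  have h2 : (j : S.G) = j • (1 : S.G) := by simp
  rw [h2, AddChar.map_zsmul_eq_zpow, h1, ← Complex.exp_int_mul, ee, al]
  congr 1
  have : (Real.pi : ℂ) ≠ 0 := by exact_mod_cast Real.pi_ne_zero
  push_cast
  field_simp

lemma supp_sub (ψ : AddChar S.G ℂ) : S.supp ψ ⊆ S.E := by
  classical
  exact filter_subset _ _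

lemma fh_av {v : Finset ι} (hv : v ⊆ S.E) (f : S.G → ℂ) (ψ : AddChar S.G ℂ) :
    S.fh (S.av v f) ψ = if Disjoint v (S.supp ψ) then S.fh f ψ else 0 := by
  classical
  let P : S.G →+ S.G := AddMonoidHom.mk' (fun η => v.piecewise η 0) fun a b => by
    funext i
    by_cases h : i ∈ v <;> simp [piecewise, h]
  have hP : ∀ η i, P η i = if i ∈ v then η i else 0 := fun η i => by
    by_cases h : i ∈ v <;> simp [P, piecewise, h]
  have e : S.av v f = fun ξ => ∑ η, (Fintype.card S.G : ℂ)⁻¹ * f (ξ + P η) := by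
    funext ξ
    rw [av, ← mul_sum]
    congr 1
    refine (Fintype.sum_equiv (Equiv.addRight ξ) _ _ fun η => ?_).symm
    congr 1
    funext i
    by_cases h : i ∈ v <;> simp [hP, piecewise, h, add_comm]
  have h := AddChar.sum_eq_ite (ψ.compAddMonoidHom P)
  simp only [AddChar.compAddMonoidHom_apply] at h
  have hiff : ψ.compAddMonoidHom P = 0 ↔ Disjoint v (S.supp ψ) := by
    constructor
    · intro h0
      rw [disjoint_left]
      intro p hp hs
      obtain ⟨-, x, hx⟩ := mem_filter.1 hs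
      have h1 : ψ (P (Pi.single p x)) = 1 := by
        rw [← AddChar.compAddMonoidHom_apply, h0, AddChar.zero_apply]
      have h2 : P (Pi.single p x) = Pi.single p x := by
        funext i
        rw [hP]
        split_ifs with hi
        · rfl
        · rw [Pi.single_eq_of_ne]
          rintro rfl
          exact hi hp
      exact hx (h2 ▸ h1)
    · intro hd
      ext η
      rw [AddChar.compAddMonoidHom_apply, AddChar.zero_apply, ← univ_sum_single (P η)]
      refine sum_induction _ (fun x : S.G => ψ x = 1) (fun a b ha hb => ?_)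
        (AddChar.map_zero_eq_one ψ) fun i _ => ?_
      · rw [AddChar.map_add_eq_mul, ha, hb, one_mul]
      · rw [hP]
        split_ifs with hi
        · by_contra hne
          exact disjoint_left.1 hd hi (mem_filter.2 ⟨hv hi, _, hne⟩)
        · rw [Pi.single_zero, AddChar.map_zero_eq_one]
  rw [e, S.fh_sum univ (fun _ => (Fintype.card S.G : ℂ)⁻¹) fun η ξ => f (ξ + P η)]
  simp only [fh_tr]
  rw [← mul_sum, ← sum_mul, h]
  simp only [hiff]
  split_ifs
  · rw [← mul_assoc, inv_mul_cancel₀ S.four_card_ne, one_mul]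
  · simp

open Classical in
lemma fh_proj (A : AddChar S.G ℂ → Prop) (f : S.G → ℂ) (ψ : AddChar S.G ℂ) :
    S.fh (S.proj A f) ψ = if A ψ then S.fh f ψ else 0 := by
  have e : S.proj A f = fun ξ => ∑ φ : AddChar S.G ℂ,
      ((Fintype.card S.G : ℂ)⁻¹ * if A φ then S.fh f φ else 0) * φ ξ := by
    funext ξ
    rw [proj, mul_sum]
    refine sum_congr rfl fun φ _ => ?_
    split_ifs <;> simp [mul_assoc]
  rw [e, S.fh_sum univ _ fun (φ : AddChar S.G ℂ) ξ => φ ξ]
  have e2 : ∀ φ : AddChar S.G ℂ, S.fh (fun ξ => φ ξ) ψ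
      = if φ = ψ then (Fintype.card S.G : ℂ) else 0 := fun φ => S.four_orth2 φ ψ
  simp only [e2, mul_ite, mul_zero, sum_ite_eq', mem_univ, if_true]
  split_ifs
  · have := S.four_card_ne
    field_simp
  · simp

lemma inf_eq (f : S.G → ℂ) : (Fintype.card S.G : ℝ) * S.inf f
    = ∑ ψ : AddChar S.G ℂ, (S.supp ψ).card * ‖S.fh f ψ‖ ^ 2 := by
  have e : ∀ p ∈ S.E, (Fintype.card S.G : ℝ) * S.nn (fun ξ => f ξ - S.av {p} f ξ)
      = ∑ ψ : AddChar S.G ℂ, if p ∈ S.supp ψ then ‖S.fh f ψ‖ ^ 2 else 0 := by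
    intro p hp
    rw [parseval]
    refine sum_congr rfl fun ψ _ => ?_
    rw [fh_sub, S.fh_av (singleton_subset_iff.2 hp)]
    by_cases h : p ∈ S.supp ψ <;> simp [h]
  rw [inf, mul_sum, sum_congr rfl e, sum_comm]
  refine sum_congr rfl fun ψ _ => ?_
  rw [sum_ite_mem, inter_eq_right.2 (S.supp_sub ψ), sum_const, nsmul_eq_mul]

lemma inf_proj_le (A : AddChar S.G ℂ → Prop) (f : S.G → ℂ) : S.inf (S.proj A f) ≤ S.inf f := by
  refine le_of_mul_le_mul_left ?_ S.four_card_pos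
  rw [inf_eq, inf_eq]
  refine sum_le_sum fun ψ _ => ?_
  rw [fh_proj]
  split_ifs
  · exact le_rfl
  · rw [norm_zero, zero_pow two_ne_zero, mul_zero]
    positivity

lemma ip_proj (A : AddChar S.G ℂ → Prop) (f : S.G → ℂ) :
    S.ip (S.proj A f) f = (S.nn (S.proj A f) : ℂ) := by
  refine mul_left_cancel₀ S.four_card_ne ?_
  rw [← four_ip_self, parseval_ip, parseval_ip]
  refine sum_congr rfl fun ψ _ => ?_
  rw [fh_proj]
  split_ifs <;> simp

lemma four_ext {f g : S.G → ℂ} (h : ∀ ψ, S.fh f ψ = S.fh g ψ) : f = g := by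
  have h1 := S.parseval fun ξ => f ξ - g ξ
  simp only [fh_sub, h, sub_self, norm_zero, zero_pow two_ne_zero, sum_const_zero] at h1
  have h2 := (mul_eq_zero.1 h1).resolve_left S.four_card_pos.ne'
  rw [nn, sum_eq_zero_iff_of_nonneg fun _ _ => by positivity] at h2
  funext ξ
  have h3 := h2 ξ (mem_univ _)
  rwa [sq_eq_zero_iff, norm_eq_zero, sub_eq_zero] at h3

lemma indep_proj (A : AddChar S.G ℂ → Prop) {a : Finset ι} (ha : a ⊆ S.E) {f : S.G → ℂ}
    (hf : S.Indep a f) : S.Indep a (S.proj A f) := by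
  have e : S.av a (S.proj A f) = S.proj A f := by
    refine S.four_ext fun ψ => ?_
    have h := S.fh_av ha f ψ
    rw [S.av_of_indep hf] at h
    rw [S.fh_av ha, fh_proj]
    split_ifs with h1 h2 h2
    · rfl
    · rfl
    · rw [h, if_neg h1]
    · rfl
  rw [← e]
  exact S.indep_av a _

lemma fh_Tn (f : S.G → ℂ) (ψ : AddChar S.G ℂ) :
    S.fh (S.Tn f) ψ = 2 ^ (S.supp ψ).card * S.fh f ψ := by
  have e : S.Tn f = fun ξ => ∑ z ∈ S.E.powerset,
      ((-1) ^ z.card * 2 ^ (S.E \ z).card : ℂ) * S.av z f ξ := rfl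
  have e2 : ∀ z ∈ S.E.powerset, ((-1) ^ z.card * 2 ^ (S.E \ z).card : ℂ) * S.fh (S.av z f) ψ
      = ((∏ p ∈ z, if p ∈ S.supp ψ then (0 : ℂ) else -1) * ∏ _p ∈ S.E \ z, (2 : ℂ))
        * S.fh f ψ := by
    intro z hz
    rw [S.fh_av (mem_powerset.1 hz), prod_const]
    split_ifs with h
    · rw [prod_congr rfl fun p hp => if_neg (disjoint_left.1 h hp), prod_const]
    · obtain ⟨p, hp, hp'⟩ := not_disjoint_iff.1 h
      rw [prod_eq_zero (f := fun p => if p ∈ S.supp ψ then (0 : ℂ) else -1) hp (if_pos hp')]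
      simp
  rw [e, S.fh_sum, sum_congr rfl e2, ← sum_mul, ← prod_add]
  congr 1
  have e3 : ∀ p ∈ S.E, ((if p ∈ S.supp ψ then (0 : ℂ) else -1) + 2)
      = if p ∈ S.supp ψ then 2 else 1 := fun p _ => by split_ifs <;> norm_num
  rw [prod_congr rfl e3, prod_ite_mem, inter_eq_right.2 (S.supp_sub ψ), prod_const]

theorem inf_le_Tn (M : ℕ) (f : S.G → ℂ) :
    S.inf f ≤ M * S.nn f + S.nn (S.Tn f) / 4 ^ M := by
  refine le_of_mul_le_mul_left ?_ S.four_card_pos
  rw [inf_eq, mul_add, mul_left_comm, ← mul_div_assoc, parseval, parseval, mul_sum, sum_div,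
    ← sum_add_distrib]
  refine sum_le_sum fun ψ _ => ?_
  rw [fh_Tn, norm_mul, norm_pow, Complex.norm_ofNat, mul_pow, ← pow_mul, mul_comm _ 2, pow_mul]
  have key : ∀ n : ℕ, (n : ℝ) ≤ M + (2 ^ 2) ^ n / 4 ^ M := by
    intro n
    rcases le_or_gt n M with h | h
    · have : (n : ℝ) ≤ M := by exact_mod_cast h
      have : (0 : ℝ) ≤ (2 ^ 2) ^ n / 4 ^ M := by positivity
      linarith
    · obtain ⟨t, rfl⟩ := Nat.exists_eq_add_of_le h.le
      have h1 : (t : ℝ) ≤ 4 ^ t := by exact_mod_cast (Nat.lt_pow_self (by norm_num)).le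
      have h2 : ((2 : ℝ) ^ 2) ^ (M + t) / 4 ^ M = 4 ^ t := by
        rw [pow_add]
        norm_num
      rw [h2]
      push_cast
      linarith
  have h := mul_le_mul_of_nonneg_right (key (S.supp ψ).card) (sq_nonneg ‖S.fh f ψ‖)
  refine h.trans (le_of_eq ?_)
  ring

end Sys

end Pool.Agent.Work.MP_678620_nt
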