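import Pool.Agent.Work.MP_678620_nt.SPLemB

/-! Decoupling the zero set in the two-step form. -/

set_option autoImplicit false
open Finset Pool.Agent.Lib.LargeSieve

namespace Pool.Agent.Work.MP_678620_nt

namespace Sys

variable {ι : Type} [Fintype ι] [DecidableEq ι] (S : Sys ι)

/-- The form at a frozen zero set. -/
noncomputable def I1B (r : ℕ) (z : Finset ι) (a b : Finset ι → ℂ) : ℂ :=
  ∑ d ∈ S.DD, ∑ d' ∈ S.DD,
    if d ⊆ z ∧ d' ⊆ z ∧ (d \ d').card = r then (starRingEnd ℂ) (a d) * b d' else 0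

/-- The sum over the divisors inside `z`. -/
noncomputable def I1N (z : Finset ι) (φ : Finset ι → ℝ) : ℝ :=
  ∑ d ∈ S.DD, if d ⊆ z then φ d else 0

/-- The averaged sum. -/
noncomputable def I1E (Φ : Finset ι → Finset ι → S.G → ℝ) : ℝ :=
  ∑ d ∈ S.DD, S.iv d * (S.vp⁻¹ * ∑ z ∈ S.E.powerset, S.Pz z * ∑ ξ ∈ S.Gx, Φ d z ξ)

lemma I1N_nonneg (z : Finset ι) (a : Finset ι → ℂ) : 0 ≤ S.I1N z fun d => ‖a d‖ ^ 2 :=
  sum_nonneg fun _ _ => by split_ifs <;> positivity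

lemma I1_l1 {z : Finset ι} (hz : z.card ≤ S.s + S.k) (a : Finset ι → ℂ) :
    S.I1N z (fun d => ‖a d‖) ≤ √S.D * √(S.I1N z fun d => ‖a d‖ ^ 2) := by
  rw [← Real.sqrt_mul (Nat.cast_nonneg _)]
  refine Real.le_sqrt_of_sq_le ?_
  simp only [I1N, ← sum_filter]
  refine sq_sum_le_card_mul_sum_sq.trans (mul_le_mul_of_nonneg_right ?_ (by positivity))
  exact_mod_cast S.card_DD_sub hz

lemma I1B_le (r : ℕ) {z : Finset ι} (hz : z.card ≤ S.s + S.k) (a b : Finset ι → ℂ) :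
    ‖S.I1B r z a b‖ ≤
      S.D * (√(S.I1N z fun d => ‖a d‖ ^ 2) * √(S.I1N z fun d => ‖b d‖ ^ 2)) := by
  have h1 : ‖S.I1B r z a b‖ ≤ S.I1N z (fun d => ‖a d‖) * S.I1N z fun d => ‖b d‖ := by
    rw [I1N, I1N, sum_mul_sum]
    refine norm_sum_le_of_le _ fun d _ => norm_sum_le_of_le _ fun d' _ => ?_
    by_cases h : d ⊆ z ∧ d' ⊆ z ∧ (d \ d').card = r
    · rw [if_pos h, if_pos h.1, if_pos h.2.1, norm_mul, Complex.norm_conj]
    · rw [if_neg h, norm_zero]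
      split_ifs <;> positivity
  refine h1.trans ((mul_le_mul (S.I1_l1 hz a) (S.I1_l1 hz b) (sum_nonneg fun _ _ => by
    split_ifs <;> positivity) (by positivity)).trans_eq ?_)
  rw [mul_mul_mul_comm, Real.mul_self_sqrt (Nat.cast_nonneg _)]

lemma I1B_sub (r : ℕ) (z : Finset ι) (a b a' b' : Finset ι → ℂ) :
    S.I1B r z a b - S.I1B r z a' b' =
      S.I1B r z (fun d => a d - a' d) b + S.I1B r z a' fun d => b d - b' d := by
  simp only [I1B, ← sum_sub_distrib, ← sum_add_distrib]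
  refine sum_congr rfl fun d _ => sum_congr rfl fun d' _ => ?_
  split_ifs
  · rw [map_sub]
    ring
  · simp

lemma I1_rs {f : S.G → ℂ} (d z : Finset ι) (ξ : S.G) :
    S.Fd d f (S.rs (z ∪ d) ξ) = S.Fd d f (S.rs z ξ) :=
  S.indep_Fd d f _ _ fun i hi => by simp [rs, hi]

lemma I1E_rs {f : S.G → ℂ} (hf : S.Supp f) :
    S.I1E (fun d z ξ => ‖S.Fd d f (S.rs z ξ)‖ ^ 2) ≤ S.D' * S.nn f := by
  refine le_of_eq_of_le (sum_congr rfl fun d _ => ?_) (S.sum_nn_Fd hf)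
  rw [nn, S.coupling]
  rfl

lemma I1E_id {f : S.G → ℂ} (hf : S.Supp f) :
    S.I1E (fun d _ ξ => ‖S.Fd d f ξ‖ ^ 2) ≤ S.Λ ^ 2 * (S.D' * S.nn f) := by
  refine le_trans ?_ (mul_le_mul_of_nonneg_left (S.sum_nn_Fd hf) (sq_nonneg _))
  rw [mul_sum]
  refine sum_le_sum fun d _ => ?_
  rw [← sum_mul, S.sum_Pz, one_mul, mul_left_comm (S.Λ ^ 2)]
  exact mul_le_mul_of_nonneg_left (mul_le_mul S.vp_inv_le (sum_le_univ_sum_of_nonneg
    fun _ => by positivity) (by positivity) (sq_nonneg _)) (S.iv_pos d).le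

lemma I1_step (r : ℕ) {g f : S.G → ℂ} (hg : S.Supp g) (hf : S.Supp f) {α : Type} (I : Finset α)
    (w : α → ℝ) (z y : α → Finset ι) (ξ : α → S.G) (hw : ∀ i ∈ I, 0 ≤ w i)
    (hz : ∀ i ∈ I, (z i).card ≤ S.s + S.k)
    (hX : ∀ Φ : Finset ι → Finset ι → S.G → ℝ, (∀ d z ξ, 0 ≤ Φ d z ξ) →
      (∀ d z ξ, Φ d (z ∪ d) ξ = Φ d z ξ) →
      ∑ i ∈ I, w i * S.I1N (z i) (fun d => Φ d (y i) (ξ i)) ≤ S.I1E Φ) :
    ‖∑ i ∈ I, w i • S.I1B r (z i) (fun d => S.Fd d g (S.rs (y i) (ξ i)))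
        (fun d => S.Fd d f (S.rs (y i) (ξ i))) -
      ∑ i ∈ I, w i • S.I1B r (z i) (fun d => S.Fd d g (ξ i)) (fun d => S.Fd d f (ξ i))‖ ≤
      S.D * S.Λ * √S.D' * (√(S.Err g) * √(S.nn f) + √(S.nn g) * √(S.Err f)) := by
  have hΛ : 1 ≤ S.Λ := by linarith [S.big]
  have e : ∀ u : S.G → ℂ, ∑ i ∈ I, w i * S.I1N (z i)
      (fun d => ‖S.Fd d u (S.rs (y i) (ξ i)) - S.Fd d u (ξ i)‖ ^ 2) ≤ S.Err u := fun u =>
    hX (fun d z ξ => ‖S.Fd d u (S.rs z ξ) - S.Fd d u ξ‖ ^ 2) (fun _ _ _ => by positivity)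
      fun d z ξ => by rw [S.I1_rs]
  have h2 := (hX (fun d z ξ => ‖S.Fd d f (S.rs z ξ)‖ ^ 2) (fun _ _ _ => by positivity)
    fun d z ξ => by rw [S.I1_rs]).trans (S.I1E_rs hf)
  have h3 := (hX (fun d _ ξ => ‖S.Fd d g ξ‖ ^ 2) (fun _ _ _ => by positivity)
    fun _ _ _ => rfl).trans (S.I1E_id hg)
  have c1 := (cs_sqrt I hw (fun i _ => S.I1N_nonneg (z i) _) fun i _ => S.I1N_nonneg (z i) _).trans
    (mul_le_mul (Real.sqrt_le_sqrt (e g)) (Real.sqrt_le_sqrt h2) (by positivity) (by positivity))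
  have c2 := (cs_sqrt I hw (fun i _ => S.I1N_nonneg (z i) _) fun i _ => S.I1N_nonneg (z i) _).trans
    (mul_le_mul (Real.sqrt_le_sqrt h3) (Real.sqrt_le_sqrt (e f)) (by positivity) (by positivity))
  rw [Real.sqrt_mul (Nat.cast_nonneg _)] at c1
  rw [Real.sqrt_mul (sq_nonneg _), Real.sqrt_sq (by linarith),
    Real.sqrt_mul (Nat.cast_nonneg _)] at c2
  have c3 := mul_le_mul_of_nonneg_left (add_le_add c1 c2) (Nat.cast_nonneg (α := ℝ) S.D)
  rw [← sum_add_distrib, mul_sum] at c3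
  rw [← sum_sub_distrib]
  refine (norm_sum_le_of_le _ fun i hi => ?_).trans (c3.trans ?_)
  · rw [← smul_sub, norm_smul, Real.norm_of_nonneg (hw i hi), I1B_sub, ← mul_add, mul_left_comm,
      mul_add (S.D : ℝ)]
    exact mul_le_mul_of_nonneg_left ((norm_add_le _ _).trans (add_le_add
      (S.I1B_le r (hz i hi) _ _) (S.I1B_le r (hz i hi) _ _))) (hw i hi)
  · have c4 : 0 ≤ S.D * √S.D' * (√(S.Err g) * √(S.nn f)) := by positivity
    nlinarith [mul_le_mul_of_nonneg_left hΛ c4]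

lemma I1_X1 (Φ : Finset ι → Finset ι → S.G → ℝ) (h0 : ∀ d z ξ, 0 ≤ Φ d z ξ)
    (h1 : ∀ d z ξ, Φ d (z ∪ d) ξ = Φ d z ξ) (n : ℕ) :
    ∑ i ∈ S.E.powersetCard n ×ˢ S.Gx, S.vp⁻¹ * S.Pz i.1 * S.I1N i.1 (fun d => Φ d i.1 i.2) ≤
      S.I1E Φ := by
  have hv := (inv_pos.2 S.vp_pos).le
  simp only [I1N, mul_sum]
  rw [sum_comm]
  refine sum_le_sum fun d hd => ?_
  rw [mul_left_comm, ← S.Pz_cond (S.DD_sub d hd) (fun z => ∑ ξ ∈ S.Gx, Φ d z ξ)
    (fun z => by simp only [h1]), sum_product, mul_sum]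
  refine (sum_le_sum fun z _ => le_of_eq ?_).trans (sum_le_sum_of_subset_of_nonneg
    (fun z hz => mem_powerset.2 (mem_powersetCard.1 hz).1) fun z _ _ => ?_)
  · split_ifs
    · rw [← mul_assoc, mul_sum]
    · simp
  · refine mul_nonneg hv (mul_nonneg (S.Pz_nonneg z) ?_)
    split_ifs
    · exact sum_nonneg fun ξ _ => h0 _ _ _
    · exact le_rfl

lemma I1_X2 (Φ : Finset ι → Finset ι → S.G → ℝ) (h0 : ∀ d z ξ, 0 ≤ Φ d z ξ) (n : ℕ) :
    ∑ i ∈ S.E.powersetCard n ×ˢ S.E.powerset ×ˢ S.Gx,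
      S.Pz i.1 * (S.vp⁻¹ * S.Pz i.2.1) * S.I1N i.1 (fun d => Φ d i.2.1 i.2.2) ≤ S.I1E Φ := by
  have hv := (inv_pos.2 S.vp_pos).le
  simp only [I1N, mul_sum]
  rw [sum_comm]
  refine sum_le_sum fun d hd => le_of_eq_of_le ?_ (mul_le_mul_of_nonneg_right
    (S.Pz_class_le (S.DD_sub d hd) n) (mul_nonneg hv (sum_nonneg fun z _ =>
      mul_nonneg (S.Pz_nonneg z) (sum_nonneg fun ξ _ => h0 _ _ _))))
  rw [sum_product, sum_mul]
  refine sum_congr rfl fun z _ => ?_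
  rw [sum_product]
  split_ifs
  · simp only [mul_sum, mul_assoc]
  · simp

theorem TT_sub_MD (r : ℕ) {g f : S.G → ℂ} (hg : S.Supp g) (hf : S.Supp f) :
    ‖S.TT r g f - S.MD r g f‖ ≤ 2 * S.D * S.Λ * √S.D' *
      (√(S.Err g) * √(S.nn f) + √(S.nn g) * √(S.Err f)) := by
  have hv := (inv_pos.2 S.vp_pos).le
  have s1 := S.I1_step r hg hf (S.E.powersetCard (S.s + S.k) ×ˢ S.Gx)
    (fun i => S.vp⁻¹ * S.Pz i.1) Prod.fst Prod.fst Prod.snd
    (fun i _ => mul_nonneg hv (S.Pz_nonneg _))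
    (fun i hi => (mem_powersetCard.1 (mem_product.1 hi).1).2.le) fun Φ h0 h1 => S.I1_X1 Φ h0 h1 _
  have s2 := S.I1_step r hg hf (S.E.powersetCard (S.s + S.k) ×ˢ S.E.powerset ×ˢ S.Gx)
    (fun i => S.Pz i.1 * (S.vp⁻¹ * S.Pz i.2.1)) Prod.fst (fun i => i.2.1) (fun i => i.2.2)
    (fun i _ => mul_nonneg (S.Pz_nonneg _) (mul_nonneg hv (S.Pz_nonneg _)))
    (fun i hi => (mem_powersetCard.1 (mem_product.1 hi).1).2.le) fun Φ h0 _ => S.I1_X2 Φ h0 _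
  have hrs : ∀ (u : S.G → ℂ) (x : S.G) (d : Finset ι), d ⊆ S.Zs x →
      S.Fd d u x = u (x + (S.jp d : S.G)) := fun u x d h => by
    have : S.rs d x = x := funext fun i => by
      by_cases hi : i ∈ d
      · rw [rs, if_pos hi, (S.mem_Zs.1 (h hi)).2]
      · rw [rs, if_neg hi]
    rw [Fd, this]
  have e1 : S.TT r g f = ∑ i ∈ S.E.powersetCard (S.s + S.k) ×ˢ S.Gx, (S.vp⁻¹ * S.Pz i.1) •
      S.I1B r i.1 (fun d => S.Fd d g (S.rs i.1 i.2)) fun d => S.Fd d f (S.rs i.1 i.2) := by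
    have := S.coupling_class (S.s + S.k)
      fun z x => S.I1B r z (fun d => S.Fd d g x) fun d => S.Fd d f x
    simp only [smul_sum, smul_smul] at this
    rw [sum_product, ← this]
    refine sum_congr rfl fun x _ => ?_
    by_cases h : (S.Zs x).card = S.s + S.k
    · rw [if_pos h]
      refine sum_congr rfl fun d _ => sum_congr rfl fun d' _ => ?_
      simp only [h, true_and]
      split_ifs with h'
      · rw [hrs g x d h'.1, hrs f x d' h'.2.1]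
      · rfl
    · simp [h]
  have e2 : S.MD r g f = ∑ i ∈ S.E.powersetCard (S.s + S.k) ×ˢ S.E.powerset ×ˢ S.Gx,
      (S.Pz i.1 * (S.vp⁻¹ * S.Pz i.2.1)) • S.I1B r i.1 (fun d => S.Fd d g (S.rs i.2.1 i.2.2))
        fun d => S.Fd d f (S.rs i.2.1 i.2.2) := by
    rw [sum_product]
    refine sum_congr rfl fun z _ => ?_
    have := S.coupling fun x => S.I1B r z (fun d => S.Fd d g x) fun d => S.Fd d f x
    simp only [smul_sum, smul_smul] at this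
    simp only [← smul_smul (S.Pz z), ← smul_sum]
    rw [sum_product, ← this, Complex.real_smul]
    congr 1
    simp only [I1B]
    refine Eq.trans (sum_congr rfl fun d _ => ?_) sum_comm
    refine Eq.trans (sum_congr rfl fun d' _ => ?_) sum_comm
    split_ifs
    · rfl
    · simp
  have e3 : ∑ i ∈ S.E.powersetCard (S.s + S.k) ×ˢ S.E.powerset ×ˢ S.Gx,
      (S.Pz i.1 * (S.vp⁻¹ * S.Pz i.2.1)) • S.I1B r i.1 (fun d => S.Fd d g i.2.2)
        (fun d => S.Fd d f i.2.2) = ∑ i ∈ S.E.powersetCard (S.s + S.k) ×ˢ S.Gx,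
      (S.vp⁻¹ * S.Pz i.1) • S.I1B r i.1 (fun d => S.Fd d g i.2) fun d => S.Fd d f i.2 := by
    rw [sum_product, sum_product]
    refine sum_congr rfl fun z _ => ?_
    rw [sum_product_right]
    refine sum_congr rfl fun ξ _ => ?_
    simp only [← sum_smul, ← mul_sum]
    rw [S.sum_Pz, mul_one, mul_comm]
  rw [← e1] at s1
  rw [← e2, e3, norm_sub_rev] at s2
  linarith [norm_sub_le_norm_sub_add_norm_sub (S.TT r g f) _ (S.MD r g f) |>.trans
    (add_le_add s1 s2)]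

end Sys

end Pool.Agent.Work.MP_678620_nt
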