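import Pool.Agent.Work.MP_678620_nt.SPLemA

/-! The decoupled form as a sum of squares. -/

set_option autoImplicit false
open Finset Pool.Agent.Lib.LargeSieve

namespace Pool.Agent.Work.MP_678620_nt

namespace Sys

variable {ι : Type} [Fintype ι] [DecidableEq ι] (S : Sys ι)

lemma I2_Λ_pos : 0 < S.Λ := by linarith [S.big]

lemma I2_H0_pos : 0 < S.H0 := lt_of_lt_of_le (by positivity) S.H0_big

lemma I2_sum {r : ℕ} (hr : r ≤ S.k) {g : S.G → ℂ} (hg : S.Supp g) :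
    ∑ a ∈ S.AA r, ∑ v ∈ S.VV r a, S.iv (a ∪ v) * √(S.nn (S.Fd (a ∪ v) g)) ^ 2
      ≤ S.D * S.D' * S.nn g := by
  have h1 := S.sum_AV_le hr (Φ := fun d => S.iv d * S.nn (S.Fd d g))
    fun d _ => mul_nonneg (S.iv_pos d).le (S.nn_nonneg _)
  have h2 := mul_le_mul_of_nonneg_left (S.sum_nn_Fd hg) (Nat.cast_nonneg (α := ℝ) S.D)
  simp only [Real.sq_sqrt (S.nn_nonneg _)]
  linarith

/-- Schur test over triples. -/
lemma I2_triple {r : ℕ} (hr : r ≤ S.k) {g f : S.G → ℂ} (hg : S.Supp g) (hf : S.Supp f)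
    (K : Finset ι → Finset ι → Finset ι → ℝ) {c : ℝ} (hc : 0 ≤ c) (hK : ∀ a v v', 0 ≤ K a v v')
    (h1 : ∀ a, ∀ v ∈ S.VV r a, ∑ v' ∈ S.VV r a, K a v v' ≤ c * S.iv (a ∪ v))
    (h2 : ∀ a, ∀ v' ∈ S.VV r a, ∑ v ∈ S.VV r a, K a v v' ≤ c * S.iv (a ∪ v')) :
    ∑ a ∈ S.AA r, ∑ v ∈ S.VV r a, ∑ v' ∈ S.VV r a,
      K a v v' * (√(S.nn (S.Fd (a ∪ v) g)) * √(S.nn (S.Fd (a ∪ v') f)))
      ≤ c * S.D * S.D' * (√(S.nn g) * √(S.nn f)) := by
  set A : Finset ι → ℝ := fun a =>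
    ∑ v ∈ S.VV r a, S.iv (a ∪ v) * √(S.nn (S.Fd (a ∪ v) g)) ^ 2 with hA
  set B : Finset ι → ℝ := fun a =>
    ∑ v ∈ S.VV r a, S.iv (a ∪ v) * √(S.nn (S.Fd (a ∪ v) f)) ^ 2 with hB
  have hA0 : ∀ a, 0 ≤ A a := fun a =>
    sum_nonneg fun v _ => mul_nonneg (S.iv_pos _).le (sq_nonneg _)
  have hB0 : ∀ a, 0 ≤ B a := fun a =>
    sum_nonneg fun v _ => mul_nonneg (S.iv_pos _).le (sq_nonneg _)
  have hDD : (0 : ℝ) ≤ S.D * S.D' := by positivity
  calc _ ≤ ∑ a ∈ S.AA r, c * (√(A a) * √(B a)) := by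
        refine sum_le_sum fun a _ => ?_
        have := schur_test (S.VV r a) (S.VV r a) (K := K a) (u := fun v => S.iv (a ∪ v))
          (v := fun v => S.iv (a ∪ v)) (x := fun v => √(S.nn (S.Fd (a ∪ v) g)))
          (y := fun v => √(S.nn (S.Fd (a ∪ v) f))) (fun v _ v' _ => hK a v v')
          (fun v _ => (S.iv_pos _).le) (fun v _ => (S.iv_pos _).le) hc hc (h1 a) (h2 a)
        rwa [Real.mul_self_sqrt hc] at this
    _ = c * ∑ a ∈ S.AA r, 1 * (√(A a) * √(B a)) := by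
        rw [mul_sum]
        exact sum_congr rfl fun a _ => by ring
    _ ≤ c * (√(∑ a ∈ S.AA r, 1 * A a) * √(∑ a ∈ S.AA r, 1 * B a)) :=
        mul_le_mul_of_nonneg_left (cs_sqrt _ (fun _ _ => zero_le_one) (fun a _ => hA0 a)
          fun a _ => hB0 a) hc
    _ ≤ c * (√(S.D * S.D' * S.nn g) * √(S.D * S.D' * S.nn f)) := by
        simp only [one_mul]
        refine mul_le_mul_of_nonneg_left (mul_le_mul (Real.sqrt_le_sqrt (S.I2_sum hr hg))
          (Real.sqrt_le_sqrt (S.I2_sum hr hf)) (Real.sqrt_nonneg _) (Real.sqrt_nonneg _)) hc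
    _ = _ := by
        rw [Real.sqrt_mul hDD, Real.sqrt_mul hDD]
        have := Real.mul_self_sqrt hDD
        linear_combination c * (√(S.nn g) * √(S.nn f)) * this

lemma I2_meet {r : ℕ} (hr : r ≤ S.k) (a : Finset ι) {v : Finset ι} (hv : v.card = r) :
    ∑ v' ∈ S.VV r a, (if Disjoint v v' then 0 else S.iv v') ≤ S.Λ ^ 2 / S.H0 := by
  have hΛ := S.I2_Λ_pos
  have hH := S.I2_H0_pos
  calc _ ≤ ∑ v' ∈ S.E.powersetCard r, ∑ p ∈ v, (if p ∈ v' then S.iv v' else 0) := by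
        refine (sum_le_sum fun v' _ => ?_).trans (sum_le_sum_of_subset_of_nonneg
          (fun v' hv' => ?_) fun v' _ _ => sum_nonneg fun p _ => ?_)
        · have hnn : ∀ p ∈ v, 0 ≤ if p ∈ v' then S.iv v' else 0 := fun p _ => by
            split_ifs
            · exact (S.iv_pos _).le
            · exact le_rfl
          split_ifs with h
          · exact sum_nonneg hnn
          · obtain ⟨p, hp, hp'⟩ := not_disjoint_iff.1 h
            refine le_trans ?_ (single_le_sum hnn hp)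
            rw [if_pos hp']
        · obtain ⟨h1, -, h3, -⟩ := S.mem_VV.1 hv'
          exact mem_powersetCard.2 ⟨h1, h3⟩
        · split_ifs
          · exact (S.iv_pos _).le
          · exact le_rfl
    _ = ∑ p ∈ v, ∑ v' ∈ (S.E.powersetCard r).filter (fun v' => p ∈ v'), S.iv v' := by
        rw [sum_comm]
        exact sum_congr rfl fun p _ => (sum_filter _ _).symm
    _ ≤ ∑ p ∈ v, S.Λ / S.H0 := sum_le_sum fun p _ => S.sum_iv_mem_le (Subset.refl _) r p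
    _ ≤ _ := by
        rw [sum_const, nsmul_eq_mul, hv, sq, mul_div_assoc]
        refine mul_le_mul_of_nonneg_right (le_trans ?_ S.k_le_Λ) (by positivity)
        exact_mod_cast hr

/-- Pairs with a difference of size `r` are triples. -/
lemma I2_pairs {r : ℕ} (hr : r ≤ S.s) (Φ : Finset ι → Finset ι → ℂ) :
    ∑ d ∈ S.DD, ∑ d' ∈ S.DD, (if (d \ d').card = r then Φ d d' else 0)
      = ∑ a ∈ S.AA r, ∑ v ∈ S.VV r a, ∑ v' ∈ S.VV r a,
        if Disjoint v v' then Φ (a ∪ v) (a ∪ v') else 0 := by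
  rw [S.sum_AV hr fun a v => ∑ v' ∈ S.VV r a, if Disjoint v v' then Φ (a ∪ v) (a ∪ v') else 0]
  refine sum_congr rfl fun d hd => ?_
  have hdc := S.DD_card d hd
  rw [sum_sigma', ← sum_filter, ← sum_filter]
  refine sum_bij' (fun d' _ => ⟨d ∩ d', d' \ d⟩) (fun p _ => p.1 ∪ p.2) ?_ ?_ ?_ ?_ ?_
  · intro d' hd'
    obtain ⟨hd1, hd2⟩ := mem_filter.1 hd'
    have hc' := S.DD_card d' hd1
    have e1 := card_sdiff_add_card_inter d d'
    have e2 := card_sdiff_add_card_inter d' d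
    rw [inter_comm d' d] at e2
    have e3 : d ∩ d' ∪ d' \ d = d' := by
      ext x
      simp only [mem_union, mem_inter, mem_sdiff]
      tauto
    refine mem_filter.2 ⟨mem_sigma.2 ⟨mem_powersetCard.2 ⟨inter_subset_left, by simp only; omega⟩,
      S.mem_VV.2 ⟨sdiff_subset.trans (S.DD_sub d' hd1), ?_, by simp only; omega, ?_⟩⟩, ?_⟩
    · exact disjoint_left.2 fun x hx hx' => (mem_sdiff.1 hx').2 (mem_inter.1 hx).1
    · simp only [e3]
      exact hd1
    · exact disjoint_left.2 fun x hx hx' => (mem_sdiff.1 hx').2 (mem_sdiff.1 hx).1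
  · rintro ⟨a, v⟩ hp
    obtain ⟨hp1, hp2⟩ := mem_filter.1 hp
    obtain ⟨ha, hv⟩ := mem_sigma.1 hp1
    obtain ⟨ha1, ha2⟩ := mem_powersetCard.1 ha
    obtain ⟨-, -, -, hv4⟩ := S.mem_VV.1 hv
    simp only at ha1 ha2 hv4 hp2 ⊢
    refine mem_filter.2 ⟨hv4, ?_⟩
    have e : d \ (a ∪ v) = d \ a := by
      ext x
      simp only [mem_union, mem_sdiff]
      have := fun h => disjoint_left.1 hp2 (mem_sdiff.2 (h : x ∈ d ∧ x ∉ a))
      tauto
    rw [e, card_sdiff_of_subset ha1]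
    omega
  · intro d' _
    ext x
    simp only [mem_union, mem_inter, mem_sdiff]
    tauto
  · rintro ⟨a, v⟩ hp
    obtain ⟨hp1, hp2⟩ := mem_filter.1 hp
    obtain ⟨ha, hv⟩ := mem_sigma.1 hp1
    obtain ⟨ha1, -⟩ := mem_powersetCard.1 ha
    obtain ⟨-, hv2, -, -⟩ := S.mem_VV.1 hv
    simp only at ha1 hv2 hp2 ⊢
    have e1 : d ∩ (a ∪ v) = a := by
      ext x
      simp only [mem_union, mem_inter]
      have := fun h => disjoint_left.1 hp2 (mem_sdiff.2 (h : x ∈ d ∧ x ∉ a))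
      have := @ha1 x
      tauto
    have e2 : (a ∪ v) \ d = v := by
      ext x
      simp only [mem_union, mem_sdiff]
      have := fun h => disjoint_left.1 hp2 (mem_sdiff.2 (h : x ∈ d ∧ x ∉ a))
      have := @ha1 x
      have := fun h : x ∈ a => disjoint_left.1 hv2 h
      tauto
    rw [e1, e2]
  · intro d' _
    have e1 : d ∩ d' ∪ d \ (d ∩ d') = d := union_sdiff_of_subset inter_subset_left
    have e3 : d ∩ d' ∪ d' \ d = d' := by
      ext x
      simp only [mem_union, mem_inter, mem_sdiff]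
      tauto
    simp only [e1, e3]

lemma I2_MD {r : ℕ} (hr : r ≤ S.s) (g f : S.G → ℂ) :
    S.MD r g f = ∑ a ∈ S.AA r, ∑ v ∈ S.VV r a, ∑ v' ∈ S.VV r a,
      if Disjoint v v' then ((∑ z ∈ S.E.powersetCard (S.s + S.k),
        (if a ∪ v ∪ (a ∪ v') ⊆ z then S.Pz z else 0) : ℝ) : ℂ) *
        S.ip (S.Fd (a ∪ v) g) (S.Fd (a ∪ v') f) else 0 := by
  rw [← S.I2_pairs hr fun d d' => ((∑ z ∈ S.E.powersetCard (S.s + S.k),
    (if d ∪ d' ⊆ z then S.Pz z else 0) : ℝ) : ℂ) * S.ip (S.Fd d g) (S.Fd d' f)]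
  unfold MD
  simp only [mul_sum]
  rw [sum_comm]
  refine sum_congr rfl fun d _ => ?_
  rw [sum_comm]
  refine sum_congr rfl fun d' _ => ?_
  by_cases h : (d \ d').card = r
  · rw [if_pos h, Complex.ofReal_sum, sum_mul]
    refine sum_congr rfl fun z _ => ?_
    by_cases h1 : d ∪ d' ⊆ z
    · rw [if_pos h1, if_pos ⟨subset_union_left.trans h1, subset_union_right.trans h1, h⟩]
    · rw [if_neg h1, if_neg fun h2 => h1 (union_subset h2.1 h2.2.1)]
      simp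
  · rw [if_neg h]
    refine sum_eq_zero fun z _ => ?_
    rw [if_neg fun h2 => h h2.2.2, mul_zero]

lemma I2_MW (r : ℕ) (g f : S.G → ℂ) :
    S.MW r g f = ∑ a ∈ S.AA r, ∑ v ∈ S.VV r a, ∑ v' ∈ S.VV r a,
      ((S.iv a * S.iv v * S.iv v' : ℝ) : ℂ) * S.ip (S.Fd (a ∪ v) g) (S.Fd (a ∪ v') f) := by
  unfold MW
  refine sum_congr rfl fun a _ => ?_
  have e : S.ip (S.Wa r a g) (S.Wa r a f) = ∑ ξ, ∑ v ∈ S.VV r a, ∑ v' ∈ S.VV r a,
      ((S.iv v * S.iv v' : ℝ) : ℂ) *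
        ((starRingEnd ℂ) (S.Fd (a ∪ v) g ξ) * S.Fd (a ∪ v') f ξ) := by
    refine sum_congr rfl fun ξ _ => ?_
    unfold Wa
    rw [map_sum, sum_mul_sum]
    refine sum_congr rfl fun v _ => sum_congr rfl fun v' _ => ?_
    rw [map_mul, Complex.conj_ofReal]
    push_cast
    ring
  rw [e, sum_comm, mul_sum]
  refine sum_congr rfl fun v _ => ?_
  rw [sum_comm, mul_sum]
  refine sum_congr rfl fun v' _ => ?_
  rw [← mul_sum]
  unfold ip
  push_cast
  ring

lemma I2_coef {r : ℕ} (hr : r ≤ S.k) {a v v' : Finset ι} (hv : v ∈ S.VV r a)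
    (hv' : v' ∈ S.VV r a) (h : Disjoint v v') :
    |∑ z ∈ S.E.powersetCard (S.s + S.k), (if a ∪ v ∪ (a ∪ v') ⊆ z then S.Pz z else 0)
      - S.piC (S.k - r) * (S.iv a * S.iv v * S.iv v')|
      ≤ 2 * S.Λ / S.H0 * (S.iv a * S.iv v * S.iv v') := by
  obtain ⟨-, h2, -, h4⟩ := S.mem_VV.1 hv
  obtain ⟨h1', h2', h3', -⟩ := S.mem_VV.1 hv'
  have e : a ∪ v ∪ (a ∪ v') = a ∪ v ∪ v' := by
    ext x
    simp only [mem_union]
    tauto
  have hd : Disjoint (a ∪ v) v' := disjoint_union_left.2 ⟨h2', h⟩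
  have hc : (a ∪ v ∪ v').card = S.s + r := by
    rw [card_union_of_disjoint hd, S.DD_card _ h4, h3']
  have hU := S.Pz_class (U := a ∪ v ∪ v') (union_subset (S.DD_sub _ h4) h1') (S.k - r)
  rw [hc, S.iv_union hd, S.iv_union h2, show S.s + r + (S.k - r) = S.s + S.k by omega] at hU
  rw [e, mul_comm (S.piC _), mul_comm (2 * S.Λ / S.H0)]
  refine hU.trans (mul_le_mul_of_nonneg_left (div_le_div_of_nonneg_right ?_ S.I2_H0_pos.le) ?_)
  · have h5 : (r : ℝ) ≤ S.k := by exact_mod_cast hr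
    push_cast
    linarith [S.s_le, S.k_le_Λ]
  · exact (mul_pos (mul_pos (S.iv_pos _) (S.iv_pos _)) (S.iv_pos _)).le

/-- Overlapping pairs are negligible. -/
lemma overlap_le {r : ℕ} (hr : r ≤ S.k) {g f : S.G → ℂ} (hg : S.Supp g) (hf : S.Supp f) :
    ∑ a ∈ S.AA r, ∑ v ∈ S.VV r a, ∑ v' ∈ S.VV r a, (if Disjoint v v' then 0 else
      S.iv a * S.iv v * S.iv v' * (√(S.nn (S.Fd (a ∪ v) g)) * √(S.nn (S.Fd (a ∪ v') f))))
      ≤ S.Λ ^ 2 / S.H0 * S.D * S.D' * (√(S.nn g) * √(S.nn f)) := by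
  have hΛ := S.I2_Λ_pos
  have hH := S.I2_H0_pos
  have key := S.I2_triple hr hg hf
    (fun a v v' => if Disjoint v v' then 0 else S.iv a * S.iv v * S.iv v')
    (c := S.Λ ^ 2 / S.H0) (by positivity) (fun a v v' => ?_) (fun a v hv => ?_) (fun a v hv => ?_)
  · simpa only [ite_mul, zero_mul] using key
  · split_ifs
    · exact le_rfl
    · exact (mul_pos (mul_pos (S.iv_pos _) (S.iv_pos _)) (S.iv_pos _)).le
  · obtain ⟨-, h2, h3, -⟩ := S.mem_VV.1 hv
    rw [S.iv_union h2, mul_comm (S.Λ ^ 2 / S.H0)]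
    refine le_trans (le_of_eq ?_) (mul_le_mul_of_nonneg_left (S.I2_meet hr a h3)
      (mul_pos (S.iv_pos a) (S.iv_pos v)).le)
    rw [mul_sum]
    refine sum_congr rfl fun v' _ => ?_
    split_ifs <;> ring
  · obtain ⟨-, h2, h3, -⟩ := S.mem_VV.1 hv
    rw [S.iv_union h2, mul_comm (S.Λ ^ 2 / S.H0)]
    refine le_trans (le_of_eq ?_) (mul_le_mul_of_nonneg_left (S.I2_meet hr a h3)
      (mul_pos (S.iv_pos a) (S.iv_pos v)).le)
    rw [mul_sum]
    refine sum_congr rfl fun v' _ => ?_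
    by_cases h : Disjoint v v'
    · rw [if_pos h, if_pos h.symm, mul_zero]
    · rw [if_neg h, if_neg fun h' => h h'.symm]
      ring

theorem MD_sub_MW {r : ℕ} (hr : r ≤ S.k) {g f : S.G → ℂ} (hg : S.Supp g) (hf : S.Supp f) :
    ‖S.MD r g f - (S.piC (S.k - r) : ℂ) * S.MW r g f‖
      ≤ 3 * S.Λ ^ 2 / S.H0 * S.D * S.D' * (√(S.nn g) * √(S.nn f)) := by
  have hΛ := S.I2_Λ_pos
  have hH := S.I2_H0_pos
  have hiv : ∀ a v v' : Finset ι, 0 ≤ S.iv a * S.iv v * S.iv v' := fun a v v' =>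
    (mul_pos (mul_pos (S.iv_pos _) (S.iv_pos _)) (S.iv_pos _)).le
  have h1 := S.overlap_le hr hg hf
  have h2 := S.I2_triple hr hg hf
    (fun a v v' => 2 * S.Λ / S.H0 * (S.iv a * S.iv v * S.iv v'))
    (c := 2 * S.Λ ^ 2 / S.H0) (by positivity)
    (fun a v v' => mul_nonneg (by positivity) (hiv a v v')) (fun a v hv => ?_) (fun a v hv => ?_)
  · rw [S.I2_MD (hr.trans S.k_le), S.I2_MW]
    simp only [mul_sum, ← sum_sub_distrib]
    refine le_trans ?_ ((add_le_add h1 h2).trans (le_of_eq (by ring)))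
    simp only [← sum_add_distrib]
    refine (norm_sum_le _ _).trans (sum_le_sum fun a _ => ?_)
    refine (norm_sum_le _ _).trans (sum_le_sum fun v hv => ?_)
    refine (norm_sum_le _ _).trans (sum_le_sum fun v' hv' => ?_)
    have hip := S.norm_ip_le (S.Fd (a ∪ v) g) (S.Fd (a ∪ v') f)
    by_cases h : Disjoint v v'
    · rw [if_pos h, if_pos h, zero_add, ← mul_assoc, ← sub_mul, ← Complex.ofReal_mul,
        ← Complex.ofReal_sub, norm_mul, Complex.norm_real, Real.norm_eq_abs]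
      exact mul_le_mul (S.I2_coef hr hv hv' h) hip (norm_nonneg _)
        (mul_nonneg (by positivity) (hiv a v v'))
    · rw [if_neg h, if_neg h, zero_sub, norm_neg, ← mul_assoc, ← Complex.ofReal_mul, norm_mul,
        Complex.norm_real, Real.norm_eq_abs, abs_of_nonneg
          (mul_nonneg (S.piC_nonneg _) (hiv a v v'))]
      refine le_trans (mul_le_mul (mul_le_of_le_one_left (hiv a v v') (S.piC_le_one _)) hip
        (norm_nonneg _) (hiv a v v')) (le_add_of_nonneg_right ?_)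
      exact mul_nonneg (mul_nonneg (by positivity) (hiv a v v')) (by positivity)
  · obtain ⟨-, h2, -, -⟩ := S.mem_VV.1 hv
    rw [S.iv_union h2, ← mul_sum, ← mul_sum]
    have := mul_le_mul_of_nonneg_left (S.sum_iv_VV_le r a)
      (mul_nonneg (by positivity : 0 ≤ 2 * S.Λ / S.H0) (mul_pos (S.iv_pos a) (S.iv_pos v)).le)
    refine le_trans (le_of_eq (by ring)) (this.trans (le_of_eq (by ring)))
  · obtain ⟨-, h2, -, -⟩ := S.mem_VV.1 hv
    rw [S.iv_union h2, ← mul_sum, ← sum_mul, ← mul_sum]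
    have := mul_le_mul_of_nonneg_left (S.sum_iv_VV_le r a)
      (mul_nonneg (by positivity : 0 ≤ 2 * S.Λ / S.H0) (mul_pos (S.iv_pos a) (S.iv_pos v)).le)
    refine le_trans (le_of_eq (by ring)) (this.trans (le_of_eq (by ring)))

end Sys

end Pool.Agent.Work.MP_678620_nt
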