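import Pool.Agent.Work.MP_678620_nt.SPWin

/-! The dilation identity. -/

set_option autoImplicit false
open Finset Pool.Agent.Lib.LargeSieve

namespace Pool.Agent.Work.MP_678620_nt

lemma card_le_of_window (s : Finset ℤ) (b : ℤ) {c : ℝ} (hc : 0 ≤ c)
    (h : ∀ n ∈ s, (b : ℝ) - c < n ∧ n ≤ b) : (s.card : ℝ) ≤ c + 1 := by
  have hsub : s ⊆ Ioc ⌊(b : ℝ) - c⌋ b := by
    intro n hn
    obtain ⟨h1, h2⟩ := h n hn
    exact mem_Ioc.2 ⟨Int.floor_lt.2 h1, h2⟩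
  have h1 : s.card ≤ (b - ⌊(b : ℝ) - c⌋).toNat := by
    simpa [Int.card_Ioc] using card_le_card hsub
  have h2 : ⌊(b : ℝ) - c⌋ ≤ b := by
    have : ((⌊(b : ℝ) - c⌋ : ℤ) : ℝ) ≤ (b : ℝ) := (Int.floor_le _).trans (by linarith)
    exact_mod_cast this
  have h3 : (s.card : ℤ) ≤ b - ⌊(b : ℝ) - c⌋ := by
    have : ((b - ⌊(b : ℝ) - c⌋).toNat : ℤ) = b - ⌊(b : ℝ) - c⌋ := Int.toNat_of_nonneg (by omega)
    omega
  have h4 : (s.card : ℝ) ≤ (b : ℝ) - (⌊(b : ℝ) - c⌋ : ℤ) := by exact_mod_cast h3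
  have h5 := Int.lt_floor_add_one ((b : ℝ) - c)
  linarith

lemma norm_sum_le_card {α : Type*} (s : Finset α) {f : α → ℂ} (h : ∀ n ∈ s, ‖f n‖ ≤ 1) :
    ‖∑ n ∈ s, f n‖ ≤ s.card := by
  calc ‖∑ n ∈ s, f n‖ ≤ ∑ n ∈ s, ‖f n‖ := norm_sum_le _ _
    _ ≤ ∑ _n ∈ s, (1 : ℝ) := sum_le_sum h
    _ = s.card := by simp

namespace Sys

variable {ι : Type} [Fintype ι] [DecidableEq ι] (S : Sys ι)

lemma supp_GX (N : ℕ) (g : ℤ → ℂ) : S.Supp (S.GX N g) := by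
  intro ξ hξ
  obtain ⟨y, _, hy, hu⟩ := S.ext_ne_zero hξ
  subst hy
  by_contra hc
  exact hu (by simp [Gt, hc])

lemma norm_Gt_le {g : ℤ → ℂ} (hg : ∀ y, ‖g y‖ ≤ 1) (y : ℤ) : ‖S.Gt g y‖ ≤ 1 := by
  unfold Gt
  split_ifs
  · exact hg y
  · simp

lemma R_le_TN {N : ℕ} (hN : 2 * S.h.natAbs ≤ N) : S.R ≤ S.T * N := by
  unfold R
  calc 2 * S.T * S.h.natAbs = S.T * (2 * S.h.natAbs) := by ring
    _ ≤ S.T * N := Nat.mul_le_mul_left _ hN

lemma nn_GX_le {N : ℕ} (hN : 2 * S.h.natAbs ≤ N) {i0 : ι} (hW : 10 * (S.T * N) < S.m i0)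
    {g : ℤ → ℂ} (hg : ∀ y, ‖g y‖ ≤ 1) : S.nn (S.GX N g) ≤ 3 * (S.T * N) * S.es (S.s + S.k') := by
  have hR := S.R_le_TN hN
  have h2 : 2 * S.T * N = 2 * (S.T * N) := by ring
  unfold GX
  rw [S.nn_ext (i0 := i0) (by rw [h2]; omega)]
  have hc := S.card_class_le (3 * (S.T * N)) (S.s + S.k')
  refine le_trans ?_ (hc.trans (le_of_eq (by push_cast; ring)))
  calc ∑ y ∈ Ioc (((S.T * N : ℕ) : ℤ) - S.R) (((2 * S.T * N : ℕ) : ℤ) + S.R), ‖S.Gt g y‖ ^ 2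
      ≤ ∑ y ∈ Ioc (((S.T * N : ℕ) : ℤ) - S.R) (((2 * S.T * N : ℕ) : ℤ) + S.R),
          (if (S.Zi y).card = S.s + S.k' then (1 : ℝ) else 0) := by
        refine sum_le_sum fun y _ => ?_
        split_ifs with hy
        · exact pow_le_one₀ (norm_nonneg _) (S.norm_Gt_le hg y)
        · have : ¬ S.Cg (y : S.G) := fun hc => hy hc.1
          simp [Gt, this]
    _ ≤ ∑ y ∈ Icc (1 : ℤ) ((3 * (S.T * N) : ℕ) : ℤ),
          (if (S.Zi y).card = S.s + S.k' then (1 : ℝ) else 0) := by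
        refine sum_le_sum_of_subset_of_nonneg ?_ fun y _ _ => by positivity
        intro y hy
        rw [mem_Ioc, h2] at hy
        rw [mem_Icc]
        omega
    _ = _ := by rw [sum_boole]

lemma abs_jp_le {d : Finset ι} (hd : d ∈ S.DD) : |S.jp d| ≤ S.R := by
  unfold jp R
  rw [abs_mul, abs_of_nonneg (by positivity : (0 : ℤ) ≤ (S.pr d : ℤ)), ← Int.natCast_natAbs]
  have : S.pr d ≤ 2 * S.T := S.DD_hi d hd
  exact_mod_cast Nat.mul_le_mul_right _ this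

lemma GX_cast {N : ℕ} (hN : 2 * S.h.natAbs ≤ N) {i0 : ι} (hW : 10 * (S.T * N) < S.m i0)
    (g : ℤ → ℂ) {x : ℤ} (hx : x ∈ Ioc ((S.T * N : ℕ) : ℤ) ((2 * (S.T * N) : ℕ) : ℤ))
    {d : Finset ι} (hd : d ∈ S.DD) :
    S.GX N g ((x : S.G) + (S.jp d : S.G)) = S.Gt g (x + S.jp d) := by
  have hR := S.R_le_TN hN
  have h2 : 2 * S.T * N = 2 * (S.T * N) := by ring
  have hj := abs_le.1 (S.abs_jp_le hd)
  rw [mem_Ioc] at hx
  unfold GX
  rw [← Int.cast_add, h2, S.ext_cast (i0 := i0), if_pos]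
  · rw [mem_Ioc]; omega
  · rw [abs_lt]; omega
  · rw [abs_lt]; omega

/-- The dilated term. -/
noncomputable def Bt (F g : ℤ → ℂ) (d : Finset ι) (x : ℤ) : ℂ :=
  (if (S.Zi x).card = S.s + S.k then F x else 0) * S.Gt g (x + S.jp d)

/-- The dilated range. -/
noncomputable def Rg (N : ℕ) (d : Finset ι) : Finset ℤ :=
  (Icc (1 : ℤ) (2 * N)).filter fun n =>
    (S.pr d : ℤ) * n ∈ Ioc ((S.T * N : ℕ) : ℤ) ((2 * (S.T * N) : ℕ) : ℤ)

lemma norm_Bt_le {F g : ℤ → ℂ} (hF1 : ∀ y, ‖F y‖ ≤ 1) (hg1 : ∀ y, ‖g y‖ ≤ 1) (d : Finset ι)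
    (x : ℤ) : ‖S.Bt F g d x‖ ≤ 1 := by
  unfold Bt
  rw [norm_mul]
  refine mul_le_one₀ ?_ (norm_nonneg _) (S.norm_Gt_le hg1 _)
  split_ifs
  · exact hF1 x
  · simp

lemma card_Zi_mul {d : Finset ι} (hd : d ∈ S.DD) {n : ℤ} (hn : ¬ ∃ p ∈ d, (S.m p : ℤ) ∣ n) :
    (S.Zi (S.pr d * n)).card = S.s + (S.Zi n).card := by
  rw [S.Zi_mul (S.DD_sub d hd), card_union_of_disjoint, S.DD_card d hd]
  rw [disjoint_left]
  intro p hp hp'
  exact hn ⟨p, hp, (S.mem_Zi.1 hp').2⟩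

/-- The exceptional set at `d`. -/
noncomputable def ExS (N : ℕ) (d : Finset ι) : Finset ℤ :=
  (Icc (1 : ℤ) (3 * N)).filter fun n =>
    (∃ p ∈ d, (S.m p : ℤ) ∣ n) ∨
      ((S.Zi (S.pr d * n)).card = S.s + S.k' ∧ ¬ S.good (S.Zi (S.pr d * n)))

lemma Ex_eq (N : ℕ) : S.Ex N = ∑ d ∈ S.DD, (S.ExS N d).card := rfl

lemma term_diff {N : ℕ} (hN : 2 * S.h.natAbs ≤ N) {F0 F g : ℤ → ℂ}
    (hF1 : ∀ y, ‖F y‖ ≤ 1) (hg1 : ∀ y, ‖g y‖ ≤ 1) {d : Finset ι} (hd : d ∈ S.DD)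
    (hF : ∀ n : ℤ, F (S.pr d * n) = F0 n) (hg : ∀ n : ℤ, g (S.pr d * n) = g n) {n : ℤ}
    (hn : n ∈ Ioc (N : ℤ) (2 * N)) :
    ‖(if (S.Zi n).card = S.k then F0 n else 0) *
        (if (S.Zi (n + S.h)).card = S.k' then g (n + S.h) else 0) - S.Bt F g d (S.pr d * n)‖
      ≤ (if n ∈ S.ExS N d then (1 : ℝ) else 0) + (if n + S.h ∈ S.ExS N d then (1 : ℝ) else 0) := by
  have e1 : (S.pr d : ℤ) * n + S.jp d = S.pr d * (n + S.h) := by unfold jp; ring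
  have hb : ‖F0 n * g (n + S.h)‖ ≤ 1 := by
    rw [norm_mul, ← hF n]
    exact mul_le_one₀ (hF1 _) (norm_nonneg _) (hg1 _)
  have hle : ‖(if (S.Zi n).card = S.k then F0 n else 0) *
        (if (S.Zi (n + S.h)).card = S.k' then g (n + S.h) else 0) - S.Bt F g d (S.pr d * n)‖
      ≤ 1 := by
    unfold Bt Gt
    rw [e1, hF, hg]
    split_ifs <;> simp only [mul_zero, zero_mul, sub_self, sub_zero, zero_sub, norm_neg,
      norm_zero, zero_le_one, hb]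
  rw [mem_Ioc] at hn
  by_cases h1 : n ∈ S.ExS N d
  · refine hle.trans ?_
    rw [if_pos h1]
    split_ifs <;> norm_num
  by_cases h2 : n + S.h ∈ S.ExS N d
  · refine hle.trans ?_
    rw [if_neg h1, if_pos h2]
    norm_num
  rw [if_neg h1, if_neg h2]
  have m1 : n ∈ Icc (1 : ℤ) (3 * N) := by rw [mem_Icc]; omega
  have m2 : n + S.h ∈ Icc (1 : ℤ) (3 * N) := by rw [mem_Icc]; omega
  simp only [ExS, mem_filter, m1, m2, true_and, not_or] at h1 h2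
  have c1 := S.card_Zi_mul hd h1.1
  have c2 := S.card_Zi_mul hd h2.1
  have i1 : (S.Zi (S.pr d * n)).card = S.s + S.k ↔ (S.Zi n).card = S.k := by omega
  have i2 : S.Cg ((S.pr d * (n + S.h) : ℤ) : S.G) ↔ (S.Zi (n + S.h)).card = S.k' := by
    constructor
    · intro hc
      have : (S.Zi (S.pr d * (n + S.h))).card = S.s + S.k' := hc.1
      omega
    · intro hc
      have h3 : (S.Zi (S.pr d * (n + S.h))).card = S.s + S.k' := by omega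
      refine ⟨h3, ?_⟩
      by_contra hng
      exact h2.2 ⟨h3, hng⟩
  unfold Bt Gt
  rw [e1, hF, hg]
  simp only [i1, i2, sub_self, norm_zero, add_zero, le_refl]

lemma step1 {N : ℕ} (hN : 2 * S.h.natAbs ≤ N) {η : ℝ} (hη0 : 0 ≤ η) {F0 F g : ℤ → ℂ}
    (hF1 : ∀ y, ‖F y‖ ≤ 1) (hg1 : ∀ y, ‖g y‖ ≤ 1) {d : Finset ι} (hd : d ∈ S.DD)
    (hη : (S.pr d : ℝ) ≤ (1 + η) * S.T)
    (hF : ∀ n : ℤ, F (S.pr d * n) = F0 n) (hg : ∀ n : ℤ, g (S.pr d * n) = g n) :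
    ‖S.S0 N F0 g - ∑ n ∈ S.Rg N d, S.Bt F g d (S.pr d * n)‖
      ≤ 2 * (S.ExS N d).card + (3 * η * N + 2) := by
  set I : Finset ℤ := Ioc (N : ℤ) (2 * N) with hI
  set B : ℤ → ℂ := fun n => S.Bt F g d (S.pr d * n) with hB
  have hB1 : ∀ n, ‖B n‖ ≤ 1 := fun n => S.norm_Bt_le hF1 hg1 _ _
  have hTd : S.T ≤ S.pr d := S.DD_lo d hd
  have hT : 1 ≤ S.T := S.T_pos
  have hTr : (0 : ℝ) < S.T := by exact_mod_cast hT
  have hNr : (0 : ℝ) ≤ N := by positivity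
  have a1 : ‖S.S0 N F0 g - ∑ n ∈ I, B n‖ ≤ 2 * (S.ExS N d).card := by
    unfold S0
    rw [← sum_sub_distrib]
    refine (norm_sum_le _ _).trans ?_
    refine (sum_le_sum fun n hn => S.term_diff hN hF1 hg1 hd hF hg hn).trans ?_
    rw [sum_add_distrib, sum_boole, sum_boole, two_mul ((S.ExS N d).card : ℝ)]
    refine add_le_add ?_ ?_
    · exact_mod_cast card_le_card fun n hn => (mem_filter.1 hn).2
    · have : (filter (fun n => n + S.h ∈ S.ExS N d) (Ioc (N : ℤ) (2 * N))).card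
          ≤ (S.ExS N d).card := by
        refine card_le_card_of_injOn (fun n => n + S.h) (fun n hn => ?_) ?_
        · exact (mem_filter.1 (mem_coe.1 hn)).2
        · intro x _ y _ hxy
          exact add_right_cancel hxy
      exact_mod_cast this
  have a2 : ((I \ S.Rg N d).card : ℝ) ≤ 2 * η * N + 1 := by
    refine card_le_of_window _ (2 * N) (by positivity) fun n hn => ?_
    rw [mem_sdiff, hI, mem_Ioc] at hn
    obtain ⟨⟨h1, h2⟩, h3⟩ := hn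
    refine ⟨?_, h2⟩
    have m1 : n ∈ Icc (1 : ℤ) (2 * N) := by rw [mem_Icc]; omega
    simp only [Rg, mem_filter, m1, true_and, mem_Ioc, not_and, not_le] at h3
    have hlo : ((S.T * N : ℕ) : ℤ) < S.pr d * n := by
      push_cast
      have : (S.T : ℤ) ≤ S.pr d := by exact_mod_cast hTd
      have hT' : (1 : ℤ) ≤ S.T := by exact_mod_cast hT
      nlinarith only [hTd, hT, h1]
    have h4 : ((2 * (S.T * N) : ℕ) : ℝ) < (S.pr d : ℝ) * n := by exact_mod_cast h3 hlo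
    push_cast at h4
    have hn0 : (0 : ℝ) ≤ n := by exact_mod_cast (by omega : (0 : ℤ) ≤ n)
    have hn2 : (n : ℝ) ≤ 2 * N := by exact_mod_cast h2
    have h5 : (S.T : ℝ) * (2 * N) < S.T * ((1 + η) * n) := by nlinarith only [h4, hη, hn0]
    have h6 := lt_of_mul_lt_mul_left h5 hTr.le
    push_cast
    nlinarith only [h6, hη0, hn2]
  have a3 : ((S.Rg N d \ I).card : ℝ) ≤ η * N + 1 := by
    refine card_le_of_window _ N (by positivity) fun n hn => ?_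
    rw [mem_sdiff, hI, mem_Ioc] at hn
    obtain ⟨h1, h3⟩ := hn
    simp only [Rg, mem_filter, mem_Icc, mem_Ioc] at h1
    obtain ⟨⟨h1, h2⟩, h4, _⟩ := h1
    have hnN : n ≤ N := by omega
    refine ⟨?_, hnN⟩
    have h5 : ((S.T * N : ℕ) : ℝ) < (S.pr d : ℝ) * n := by exact_mod_cast h4
    push_cast at h5
    have hn0 : (0 : ℝ) ≤ n := by exact_mod_cast (by omega : (0 : ℤ) ≤ n)
    have hn2 : (n : ℝ) ≤ N := by exact_mod_cast hnN
    have h6 : (S.T : ℝ) * N < S.T * ((1 + η) * n) := by nlinarith only [h5, hη, hn0]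
    have h7 := lt_of_mul_lt_mul_left h6 hTr.le
    push_cast
    nlinarith only [h7, hη0, hn2]
  have a4 : ‖∑ n ∈ I, B n - ∑ n ∈ S.Rg N d, B n‖ ≤ 3 * η * N + 2 := by
    rw [← sum_sdiff_sub_sum_sdiff]
    refine (norm_sub_le _ _).trans ?_
    have b1 := norm_sum_le_card (I \ S.Rg N d) (f := B) fun n _ => hB1 n
    have b2 := norm_sum_le_card (S.Rg N d \ I) (f := B) fun n _ => hB1 n
    linarith only [a2, a3, b1, b2]
  calc _ = ‖(S.S0 N F0 g - ∑ n ∈ I, B n) + (∑ n ∈ I, B n - ∑ n ∈ S.Rg N d, B n)‖ := by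
        congr 1; ring
    _ ≤ _ := (norm_add_le _ _).trans (add_le_add a1 a4)

lemma step2 (N : ℕ) {d : Finset ι} (hd : d ∈ S.DD) (Φ : ℤ → ℂ) :
    ∑ n ∈ S.Rg N d, Φ (S.pr d * n)
      = ∑ x ∈ Ioc ((S.T * N : ℕ) : ℤ) ((2 * (S.T * N) : ℕ) : ℤ),
          if d ⊆ S.Zi x then Φ x else 0 := by
  rw [← sum_filter]
  have hTd : (S.T : ℤ) ≤ S.pr d := by exact_mod_cast S.DD_lo d hd
  have hT : (1 : ℤ) ≤ S.T := by exact_mod_cast S.T_pos
  refine sum_nbij (fun n => (S.pr d : ℤ) * n) ?_ ?_ ?_ fun _ _ => rfl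
  · intro n hn
    rw [mem_filter]
    exact ⟨(mem_filter.1 hn).2, (S.sub_Zi (S.DD_sub d hd)).2 (dvd_mul_right _ _)⟩
  · intro x _ y _ hxy
    exact mul_left_cancel₀ (by omega : (S.pr d : ℤ) ≠ 0) hxy
  · intro x hx
    obtain ⟨hx1, hx2⟩ := mem_filter.1 (mem_coe.1 hx)
    obtain ⟨n, rfl⟩ := (S.sub_Zi (S.DD_sub d hd)).1 hx2
    refine ⟨n, mem_coe.2 (mem_filter.2 ⟨?_, hx1⟩), rfl⟩
    rw [mem_Ioc] at hx1
    obtain ⟨h1, h2⟩ := hx1
    push_cast at h1 h2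
    have hN0 : (0 : ℤ) ≤ N := by positivity
    have hn : 0 < n := by
      by_contra hc
      have : (S.pr d : ℤ) * n ≤ 0 := mul_nonpos_of_nonneg_of_nonpos (by omega) (by omega)
      nlinarith only [h1, h2, this]
    rw [mem_Icc]
    refine ⟨hn, ?_⟩
    by_contra hc
    have : 2 * (N : ℤ) + 1 ≤ n := by omega
    nlinarith only [hTd, hT, h2, hc]

lemma step3 {N : ℕ} (hN : 2 * S.h.natAbs ≤ N) {i0 : ι} (hW : 10 * (S.T * N) < S.m i0)
    {F g : ℤ → ℂ} (hF1 : ∀ y, ‖F y‖ ≤ 1) :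
    ‖∑ d ∈ S.DD, ∑ n ∈ S.Rg N d, S.Bt F g d (S.pr d * n)‖
      ≤ √(2 * (S.T * N) * S.es (S.s + S.k)) * √(S.TA (S.GX N g)) := by
  set J : Finset ℤ := Ioc ((S.T * N : ℕ) : ℤ) ((2 * (S.T * N) : ℕ) : ℤ) with hJ
  set a : ℤ → ℂ := fun x => (starRingEnd ℂ) (if (S.Zi x).card = S.s + S.k then F x else 0)
    with ha
  set b : ℤ → ℂ := fun x => if (S.Zi x).card = S.s + S.k then
    ∑ d ∈ S.DD, if d ⊆ S.Zi x then S.GX N g ((x : S.G) + (S.jp d : S.G)) else 0 else 0 with hb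
  have e1 : ∑ d ∈ S.DD, ∑ n ∈ S.Rg N d, S.Bt F g d (S.pr d * n)
      = ∑ x ∈ J, (starRingEnd ℂ) (a x) * b x := by
    rw [sum_congr rfl fun d hd => S.step2 N hd (S.Bt F g d), sum_comm]
    refine sum_congr rfl fun x hx => ?_
    simp only [ha, hb, Complex.conj_conj, Bt]
    by_cases hc : (S.Zi x).card = S.s + S.k
    · simp only [hc, if_true, mul_sum]
      refine sum_congr rfl fun d hd => ?_
      rw [S.GX_cast hN hW g hx hd]
      split_ifs <;> simp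
    · simp [hc]
  rw [e1]
  refine (cs_conj J a b).trans (mul_le_mul (Real.sqrt_le_sqrt ?_) (Real.sqrt_le_sqrt ?_)
    (Real.sqrt_nonneg _) (Real.sqrt_nonneg _))
  · have hc := S.card_class_le (2 * (S.T * N)) (S.s + S.k)
    refine le_trans ?_ (hc.trans (le_of_eq (by push_cast; ring)))
    calc ∑ x ∈ J, ‖a x‖ ^ 2 ≤ ∑ x ∈ J, (if (S.Zi x).card = S.s + S.k then (1 : ℝ) else 0) := by
          refine sum_le_sum fun x _ => ?_
          simp only [ha, Complex.norm_conj]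
          split_ifs
          · exact pow_le_one₀ (norm_nonneg _) (hF1 x)
          · simp
      _ ≤ ∑ x ∈ Icc (1 : ℤ) ((2 * (S.T * N) : ℕ) : ℤ),
            (if (S.Zi x).card = S.s + S.k then (1 : ℝ) else 0) := by
          refine sum_le_sum_of_subset_of_nonneg ?_ fun y _ _ => by positivity
          intro y hy
          rw [hJ, mem_Ioc] at hy
          rw [mem_Icc]
          omega
      _ = _ := by rw [sum_boole]
  · unfold TA
    refine le_trans (le_of_eq ?_) (S.sum_int_le (i0 := i0) (lo := ((S.T * N : ℕ) : ℤ))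
      (hi := ((2 * (S.T * N) : ℕ) : ℤ)) (by omega) fun ξ => by positivity)
    refine sum_congr rfl fun x _ => ?_
    by_cases hc : (S.Zi x).card = S.s + S.k
    · have hc' : (S.Zs (x : S.G)).card = S.s + S.k := hc
      simp only [hb]
      rw [if_pos hc, if_pos hc']
      rfl
    · have hc' : ¬ (S.Zs (x : S.G)).card = S.s + S.k := hc
      simp only [hb]
      rw [if_neg hc, if_neg hc']
      simp

theorem int1 {N : ℕ} (hN : 2 * S.h.natAbs ≤ N) {i0 : ι} (hW : 10 * (S.T * N) < S.m i0) {η : ℝ}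
    (hη0 : 0 ≤ η) (hη : ∀ d ∈ S.DD, (S.pr d : ℝ) ≤ (1 + η) * S.T) {F0 F g : ℤ → ℂ}
    (hF1 : ∀ y, ‖F y‖ ≤ 1) (hg1 : ∀ y, ‖g y‖ ≤ 1)
    (hF : ∀ d ∈ S.DD, ∀ n : ℤ, F (S.pr d * n) = F0 n)
    (hg : ∀ d ∈ S.DD, ∀ n : ℤ, g (S.pr d * n) = g n) :
    S.DD.card * ‖S.S0 N F0 g‖ ≤ √(2 * (S.T * N) * S.es (S.s + S.k)) * √(S.TA (S.GX N g))
      + 2 * S.Ex N + S.DD.card * (3 * η * N + 2) := by
  have h3 := S.step3 hN hW (g := g) hF1
  have h1 : ‖∑ d ∈ S.DD, (S.S0 N F0 g - ∑ n ∈ S.Rg N d, S.Bt F g d (S.pr d * n))‖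
      ≤ 2 * S.Ex N + S.DD.card * (3 * η * N + 2) := by
    refine (norm_sum_le _ _).trans ?_
    refine (sum_le_sum fun d hd =>
      S.step1 hN hη0 hF1 hg1 hd (hη d hd) (hF d hd) (hg d hd)).trans (le_of_eq ?_)
    rw [sum_add_distrib, ← mul_sum, S.Ex_eq, sum_const, nsmul_eq_mul]
    push_cast
    rfl
  have e : (S.DD.card : ℝ) * ‖S.S0 N F0 g‖
      = ‖∑ d ∈ S.DD, ∑ n ∈ S.Rg N d, S.Bt F g d (S.pr d * n)
        + ∑ d ∈ S.DD, (S.S0 N F0 g - ∑ n ∈ S.Rg N d, S.Bt F g d (S.pr d * n))‖ := by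
    rw [sum_sub_distrib, add_sub_cancel, sum_const, nsmul_eq_mul, norm_mul, Complex.norm_natCast]
  rw [e]
  refine (norm_add_le _ _).trans ?_
  linarith only [h3, h1]

end Sys

end Pool.Agent.Work.MP_678620_nt
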