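import Pool.Agent.Work.MP_678620_nt.SPJav

/-! Short sums of divisor-type functions, and the splitting by labels. -/

set_option autoImplicit false
open Finset Pool.Agent.Lib.LargeSieve

namespace Pool.Agent.Work.MP_678620_nt

namespace Int4

/-- A short exponential sum along a progression. -/
noncomputable def sh (h : ℤ) (H : ℕ) (θ : ℚ) (Ψ : ℤ → ℂ) (m : ℤ) : ℂ :=
  ∑ i ∈ range H, Ψ (m + h * i) * ee (θ * i)

/-- A sum over divisors from a given family. -/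
noncomputable def dv {α : Type*} (h : ℤ) (s : Finset α) (u : α → ℕ) (c : α → ℤ → ℂ) (M : ℤ) : ℂ :=
  ∑ v ∈ s, if (u v : ℤ) ∣ M then c v (M / u v + h) else 0

lemma hit_once {u H : ℕ} {h : ℤ} (hc : IsCoprime (u : ℤ) h) (hH : H ≤ u) (m : ℤ) :
    ((range H).filter fun i : ℕ => (u : ℤ) ∣ m + h * i).card ≤ 1 := by
  rw [Finset.card_le_one]
  intro i hi j hj
  simp only [mem_filter, mem_range] at hi hj
  have h1 : (u : ℤ) ∣ h * ((i : ℤ) - j) := by
    have := dvd_sub hi.2 hj.2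
    rwa [show m + h * (i : ℤ) - (m + h * j) = h * ((i : ℤ) - j) by ring] at this
  have h2 : (u : ℤ) ∣ (i : ℤ) - j := hc.dvd_of_dvd_mul_left h1
  have h3 := Int.eq_zero_of_abs_lt_dvd h2 (by rw [abs_lt]; constructor <;> omega)
  omega

lemma norm_sh_le (h : ℤ) (H : ℕ) (θ : ℚ) (Ψ : ℤ → ℂ) (m : ℤ) :
    ‖sh h H θ Ψ m‖ ≤ ∑ i ∈ range H, ‖Ψ (m + h * i)‖ := by
  refine (norm_sum_le _ _).trans (le_of_eq ?_)
  refine sum_congr rfl fun i _ => ?_
  rw [norm_mul, norm_ee, mul_one]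

lemma norm_dv_le {α : Type*} (h : ℤ) (s : Finset α) (u : α → ℕ) (c : α → ℤ → ℂ) (M : ℤ) :
    ‖dv h s u c M‖ ≤ ∑ v ∈ s, if (u v : ℤ) ∣ M then ‖c v (M / u v + h)‖ else 0 := by
  refine (norm_sum_le _ _).trans (le_of_eq ?_)
  refine sum_congr rfl fun v _ => ?_
  split_ifs <;> simp

lemma sh_congr {h : ℤ} {H : ℕ} (θ : ℚ) {Ψ Ψ' : ℤ → ℂ} {m : ℤ}
    (he : ∀ i ∈ range H, Ψ (m + h * i) = Ψ' (m + h * i)) : sh h H θ Ψ m = sh h H θ Ψ' m :=
  sum_congr rfl fun i hi => by rw [he i hi]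

lemma norm_sh_dv_le {α : Type*} {h : ℤ} {H : ℕ} (θ : ℚ) {s : Finset α} {u : α → ℕ}
    {c : α → ℤ → ℂ} (hu : ∀ v ∈ s, IsCoprime (u v : ℤ) h ∧ H ≤ u v)
    (hc : ∀ v ∈ s, ∀ n, ‖c v n‖ ≤ 1) (m : ℤ) : ‖sh h H θ (dv h s u c) m‖ ≤ s.card := by
  refine (norm_sh_le _ _ _ _ _).trans ?_
  calc ∑ i ∈ range H, ‖dv h s u c (m + h * i)‖
      ≤ ∑ i ∈ range H, ∑ v ∈ s, if (u v : ℤ) ∣ m + h * (i : ℕ) then (1 : ℝ) else 0 := by
        refine sum_le_sum fun i _ => (norm_dv_le _ _ _ _ _).trans (sum_le_sum fun v hv => ?_)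
        split_ifs
        · exact hc v hv _
        · exact le_rfl
    _ = ∑ v ∈ s, (((range H).filter fun i : ℕ => (u v : ℤ) ∣ m + h * i).card : ℝ) := by
        rw [sum_comm]
        refine sum_congr rfl fun v _ => ?_
        rw [sum_boole]
    _ ≤ ∑ _v ∈ s, (1 : ℝ) := by
        refine sum_le_sum fun v hv => ?_
        exact_mod_cast hit_once (hu v hv).1 (hu v hv).2 m
    _ = s.card := by simp

lemma sum_norm_sh_dv_le {α : Type*} {h : ℤ} {H : ℕ} (θ : ℚ) {s : Finset α} {u : α → ℕ}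
    {c : α → ℤ → ℂ} (M : Finset ℤ) (B : α → Finset ℤ)
    (hc : ∀ v ∈ s, ∀ m ∈ M, ∀ i ∈ range H, (u v : ℤ) ∣ m + h * i →
      ‖c v ((m + h * i) / u v + h)‖ ≤ if (m + h * i) / u v + h ∈ B v then 1 else 0) :
    ∑ m ∈ M, ‖sh h H θ (dv h s u c) m‖ ≤ H * ∑ v ∈ s, ((B v).card : ℝ) := by
  calc ∑ m ∈ M, ‖sh h H θ (dv h s u c) m‖
      ≤ ∑ m ∈ M, ∑ i ∈ range H, ∑ v ∈ s,
          if (u v : ℤ) ∣ m + h * (i : ℕ) ∧ (m + h * (i : ℕ)) / u v + h ∈ B v then (1 : ℝ) else 0 := by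
        refine sum_le_sum fun m hm => (norm_sh_le _ _ _ _ _).trans (sum_le_sum fun i hi => ?_)
        refine (norm_dv_le _ _ _ _ _).trans (sum_le_sum fun v hv => ?_)
        by_cases hd : (u v : ℤ) ∣ m + h * i
        · simp only [hd, if_true, true_and]
          exact hc v hv m hm i hi hd
        · simp [hd]
    _ = ∑ i ∈ range H, ∑ v ∈ s, ((M.filter fun m =>
          (u v : ℤ) ∣ m + h * (i : ℕ) ∧ (m + h * (i : ℕ)) / u v + h ∈ B v).card : ℝ) := by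
        rw [sum_comm]
        refine sum_congr rfl fun i _ => ?_
        rw [sum_comm]
        refine sum_congr rfl fun v _ => ?_
        rw [sum_boole]
    _ ≤ ∑ _i ∈ range H, ∑ v ∈ s, ((B v).card : ℝ) := by
        refine sum_le_sum fun i _ => sum_le_sum fun v _ => ?_
        have : (M.filter fun m =>
            (u v : ℤ) ∣ m + h * (i : ℕ) ∧ (m + h * (i : ℕ)) / u v + h ∈ B v).card ≤ (B v).card := by
          refine card_le_card_of_injOn (fun m => (m + h * (i : ℕ)) / u v + h) ?_ ?_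
          · intro m hm
            exact (mem_filter.1 (mem_coe.1 hm)).2.2
          · intro m hm m' hm' he
            have h1 := (mem_filter.1 (mem_coe.1 hm)).2.1
            have h2 := (mem_filter.1 (mem_coe.1 hm')).2.1
            have he' : (m + h * (i : ℕ)) / u v = (m' + h * (i : ℕ)) / u v := by
              simpa using he
            have e1 := Int.mul_ediv_cancel' h1
            have e2 := Int.mul_ediv_cancel' h2
            rw [he', e2] at e1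
            linarith only [e1]
        exact_mod_cast this
    _ = H * ∑ v ∈ s, ((B v).card : ℝ) := by simp

/-- The integers `m` with `A * m` in `Ioc lo hi`. -/
noncomputable def Iv (A : ℕ) (lo hi : ℤ) : Finset ℤ := Ioc (lo / A) (hi / A)

lemma mem_Iv {A : ℕ} (hA : 0 < A) {lo hi m : ℤ} : m ∈ Iv A lo hi ↔ lo < A * m ∧ A * m ≤ hi := by
  have hA' : (0 : ℤ) < A := by exact_mod_cast hA
  rw [Iv, mem_Ioc, Int.ediv_lt_iff_lt_mul hA', Int.le_ediv_iff_mul_le hA', mul_comm m]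

lemma card_Iv_le {A : ℕ} (hA : 0 < A) {lo hi : ℤ} (h : lo ≤ hi) :
    ((Iv A lo hi).card : ℝ) ≤ ((hi - lo : ℤ) : ℝ) / A + 1 := by
  have hA' : (0 : ℤ) < A := by exact_mod_cast hA
  have hAr : (0 : ℝ) < A := by exact_mod_cast hA
  have h1 : lo / A ≤ hi / A := Int.ediv_le_ediv hA' h
  have h2 : ((Iv A lo hi).card : ℤ) = hi / A - lo / A := by
    rw [Iv, Int.card_Ioc, Int.toNat_of_nonneg (by omega)]
  have h3 : hi / A * A ≤ hi := Int.ediv_mul_le hi hA'.ne'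
  have h4 : lo < (lo / A + 1) * A := Int.lt_ediv_add_one_mul_self lo hA'
  have h5 : ((Iv A lo hi).card : ℤ) * A ≤ hi - lo + A := by
    rw [h2]; nlinarith only [h3, h4]
  have h6 : ((Iv A lo hi).card : ℝ) * A ≤ ((hi - lo : ℤ) : ℝ) + A := by exact_mod_cast h5
  rw [div_add_one hAr.ne', le_div_iff₀ hAr]
  exact h6

lemma sum_dvd_eq {A : ℕ} (hA : 0 < A) (lo hi : ℤ) (f : ℤ → ℝ) :
    ∑ x ∈ Ioc lo hi, (if (A : ℤ) ∣ x then f x else 0) = ∑ m ∈ Iv A lo hi, f (A * m) := by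
  have hA' : (A : ℤ) ≠ 0 := by exact_mod_cast hA.ne'
  rw [← sum_filter]
  symm
  refine sum_bij (fun m _ => (A : ℤ) * m) ?_ ?_ ?_ ?_
  · intro m hm
    rw [mem_Iv hA] at hm
    exact mem_filter.2 ⟨mem_Ioc.2 hm, dvd_mul_right _ _⟩
  · intro m _ m' _ he
    exact mul_left_cancel₀ hA' he
  · intro x hx
    obtain ⟨hx1, m, rfl⟩ := mem_filter.1 hx
    exact ⟨m, (mem_Iv hA).2 (mem_Ioc.1 hx1), rfl⟩
  · intro m _
    rfl

variable {ι : Type} [Fintype ι] [DecidableEq ι] (S : Sys ι)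

/-- The primes outside `a` with label `l`. -/
def Il (a : Finset ι) (l : ℕ) : Finset ι := (S.E \ a).filter fun p => S.lab p = l

/-- The cofactors for the label `l`. -/
def Wl (r : ℕ) (a : Finset ι) (l : ℕ) : Finset (Finset ι) :=
  ((S.E \ a).powersetCard (r - 1)).filter fun w =>
    ∃ p0 ∈ Il S a l, p0 ∉ w ∧ insert p0 (a ∪ w) ∈ S.DD

/-- The pairs in which the prime divides the cofactor. -/
def PW (r : ℕ) (a : Finset ι) : Finset (Σ _ : ι, Finset ι) :=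
  (S.E \ a).sigma fun p => (Wl S r a (S.lab p)).filter fun w => p ∈ w

lemma mem_Il {a : Finset ι} {l : ℕ} {p : ι} : p ∈ Il S a l ↔ p ∈ S.E ∧ p ∉ a ∧ S.lab p = l := by
  simp [Il, and_assoc]

lemma mem_Wl {r : ℕ} {a : Finset ι} {l : ℕ} {w : Finset ι} :
    w ∈ Wl S r a l ↔ w ⊆ S.E ∧ Disjoint a w ∧ w.card = r - 1 ∧
      ∃ p0 ∈ Il S a l, p0 ∉ w ∧ insert p0 (a ∪ w) ∈ S.DD := by
  rw [Wl, mem_filter, mem_powersetCard, subset_sdiff, disjoint_comm]
  tauto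

lemma sum_mem_VV {r : ℕ} (a : Finset ι) {p : ι} (hp : p ∈ S.E \ a) (hr : 1 ≤ r) (f : ℕ → ℂ) :
    ∑ v ∈ (S.VV r a).filter (fun v => p ∈ v), f (S.pr v)
      = ∑ w ∈ (Wl S r a (S.lab p)).filter (fun w => p ∉ w), f (S.m p * S.pr w) := by
  obtain ⟨hpE, hpa⟩ := mem_sdiff.1 hp
  symm
  refine sum_bij (fun w _ => insert p w) ?_ ?_ ?_ ?_
  · intro w hw
    obtain ⟨hw, hpw⟩ := mem_filter.1 hw
    obtain ⟨h1, h2, h3, p0, hp0, h4, h5⟩ := (mem_Wl S).1 hw
    obtain ⟨h6, h7, h8⟩ := (mem_Il S).1 hp0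
    refine mem_filter.2 ⟨S.mem_VV.2 ⟨insert_subset hpE h1, ?_, ?_, ?_⟩, mem_insert_self _ _⟩
    · exact disjoint_insert_right.2 ⟨hpa, h2⟩
    · rw [card_insert_of_notMem hpw, h3]; omega
    · rw [union_insert]
      exact S.lab_DD (a ∪ w) p0 h6 p hpE (by simp [h7, h4]) (by simp [hpa, hpw]) h8 h5
  · intro w hw w' hw' he
    have h1 := (mem_filter.1 hw).2
    have h2 := (mem_filter.1 hw').2
    rw [← erase_insert h1, ← erase_insert h2]
    exact congrArg (fun v => erase v p) he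
  · intro v hv
    obtain ⟨hv, hpv⟩ := mem_filter.1 hv
    obtain ⟨h1, h2, h3, h4⟩ := S.mem_VV.1 hv
    refine ⟨v.erase p, mem_filter.2 ⟨(mem_Wl S).2 ⟨(erase_subset _ _).trans h1,
      h2.mono_right (erase_subset _ _), by rw [card_erase_of_mem hpv, h3], p,
      (mem_Il S).2 ⟨hpE, hpa, rfl⟩, notMem_erase _ _, ?_⟩, notMem_erase _ _⟩, insert_erase hpv⟩
    rw [← union_insert, insert_erase hpv]
    exact h4
  · intro w hw
    rw [S.pr_insert (mem_filter.1 hw).2]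

/-- Splitting off one prime and grouping by labels. -/
lemma label_split {r : ℕ} (a : Finset ι) (hr : 1 ≤ r) (f : ℕ → ℂ) :
    (r : ℂ) * ∑ v ∈ S.VV r a, f (S.pr v)
      = ∑ l ∈ S.E.image S.lab, ∑ p ∈ Il S a l, ∑ w ∈ Wl S r a l, f (S.m p * S.pr w)
        - ∑ x ∈ PW S r a, f (S.m x.1 * S.pr x.2) := by
  have h1 : (r : ℂ) * ∑ v ∈ S.VV r a, f (S.pr v)
      = ∑ p ∈ S.E \ a, ∑ v ∈ (S.VV r a).filter (fun v => p ∈ v), f (S.pr v) := by
    simp only [sum_filter]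
    rw [sum_comm, mul_sum]
    refine sum_congr rfl fun v hv => ?_
    obtain ⟨h1, h2, h3, -⟩ := S.mem_VV.1 hv
    rw [← sum_filter, sum_const, nsmul_eq_mul]
    have : (S.E \ a).filter (fun p => p ∈ v) = v := by
      ext p
      simp only [mem_filter, mem_sdiff]
      exact ⟨fun h => h.2, fun h => ⟨⟨h1 h, fun ha => disjoint_left.1 h2 ha h⟩, h⟩⟩
    rw [this, h3]
  have h2 : ∑ l ∈ S.E.image S.lab, ∑ p ∈ Il S a l, ∑ w ∈ Wl S r a l, f (S.m p * S.pr w)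
      = ∑ p ∈ S.E \ a, ∑ w ∈ Wl S r a (S.lab p), f (S.m p * S.pr w) := by
    rw [← sum_fiberwise_of_maps_to (s := S.E \ a) (t := S.E.image S.lab) (g := S.lab)
      (fun p hp => mem_image_of_mem _ (mem_sdiff.1 hp).1)]
    refine sum_congr rfl fun l _ => sum_congr rfl fun p hp => ?_
    rw [((mem_Il S).1 hp).2.2]
  rw [h1, h2, PW, sum_sigma, ← sum_sub_distrib]
  refine sum_congr rfl fun p hp => ?_
  rw [sum_mem_VV S a hp hr f, eq_sub_iff_add_eq, add_comm]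
  exact sum_filter_add_sum_filter_not _ _ _

lemma size_pw {r : ℕ} {a : Finset ι} {l : ℕ} {p : ι} (hp : p ∈ Il S a l) {w : Finset ι}
    (hw : w ∈ Wl S r a l) :
    S.T ≤ S.pr a * (2 * (S.m p * S.pr w)) ∧ S.pr a * (S.m p * S.pr w) ≤ 4 * S.T := by
  obtain ⟨h1, h2, h3, p0, hp0, h4, h5⟩ := (mem_Wl S).1 hw
  obtain ⟨h6, h7, h8⟩ := (mem_Il S).1 hp0
  obtain ⟨h9, -, h10⟩ := (mem_Il S).1 hp
  have e : S.pr (insert p0 (a ∪ w)) = S.m p0 * (S.pr a * S.pr w) := by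
    rw [S.pr_insert (by simp [h7, h4]), S.pr_union h2]
  have lo : S.T ≤ S.m p0 * (S.pr a * S.pr w) := e ▸ S.DD_lo _ h5
  have hi : S.m p0 * (S.pr a * S.pr w) ≤ 2 * S.T := e ▸ S.DD_hi _ h5
  have c1 := S.lab_close p h9 p0 h6 (h10.trans h8.symm)
  have c2 := S.lab_close p0 h6 p h9 (h8.trans h10.symm)
  constructor
  · calc S.T ≤ S.m p0 * (S.pr a * S.pr w) := lo
      _ ≤ 2 * S.m p * (S.pr a * S.pr w) := Nat.mul_le_mul_right _ c2
      _ = _ := by ring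
  · calc S.pr a * (S.m p * S.pr w) = S.m p * (S.pr a * S.pr w) := by ring
      _ ≤ 2 * S.m p0 * (S.pr a * S.pr w) := Nat.mul_le_mul_right _ c1
      _ = 2 * (S.m p0 * (S.pr a * S.pr w)) := by ring
      _ ≤ 4 * S.T := by omega

lemma QH_le_J (a : Finset ι) : S.Q ^ 2 * S.Hk a ≤ S.T / S.pr a := by
  rw [Nat.le_div_iff_mul_le (S.pr_pos a)]
  have := S.Hk_mul_le a
  nlinarith only [this]

lemma four_H_le_J (a : Finset ι) : 4 * S.Hk a ≤ S.T / S.pr a := by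
  refine le_trans (Nat.mul_le_mul_right _ ?_) (QH_le_J S a)
  have := S.Q_ge
  nlinarith only [this]

lemma size_J {r : ℕ} {a : Finset ι} (hH : 1 ≤ S.Hk a) {l : ℕ} {p : ι} (hp : p ∈ Il S a l)
    {w : Finset ι} (hw : w ∈ Wl S r a l) :
    S.T / S.pr a ≤ 2 * (S.m p * S.pr w) ∧ S.m p * S.pr w ≤ 5 * (S.T / S.pr a) := by
  obtain ⟨h1, h2⟩ := size_pw S hp hw
  refine ⟨Nat.div_le_of_le_mul h1, ?_⟩
  have h3 := four_H_le_J S a
  have h4 : S.T < S.pr a * (S.T / S.pr a + 1) := Nat.lt_mul_div_succ _ (S.pr_pos a)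
  have h5 : S.pr a * (S.m p * S.pr w) < S.pr a * (4 * (S.T / S.pr a + 1)) := by nlinarith only [h2, h4]
  have h6 := lt_of_mul_lt_mul_left h5 (Nat.zero_le _)
  omega

lemma card_PW_le {r : ℕ} {a : Finset ι} (hH : 1 ≤ S.Hk a) :
    ((PW S r a).card : ℝ) ≤ 5 * (S.T / S.pr a : ℕ) * S.Λ / S.H0 := by
  have hH0 : 0 < S.H0 := lt_of_lt_of_le (by norm_num) S.H0_big
  set J : ℕ := S.T / S.pr a with hJ
  rw [PW, card_sigma]
  push_cast
  calc ∑ p ∈ S.E \ a, (((Wl S r a (S.lab p)).filter fun w => p ∈ w).card : ℝ)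
      ≤ ∑ p ∈ S.E \ a, 5 * J * S.H0⁻¹ * S.nu p := by
        refine sum_le_sum fun p hp => ?_
        obtain ⟨hpE, hpa⟩ := mem_sdiff.1 hp
        have hm := S.m_pos p
        have h1 : ((Wl S r a (S.lab p)).filter fun w => p ∈ w).card
            ≤ (Icc 1 (5 * J / (S.m p * S.m p))).card := by
          refine card_le_card_of_injOn (fun w => S.pr w / S.m p) ?_ ?_
          · intro w hw
            obtain ⟨hw, hpw⟩ := mem_filter.1 (mem_coe.1 hw)
            obtain ⟨t, ht⟩ := (S.m_dvd_pr hpE).2 hpw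
            have h2 := (size_J S hH ((mem_Il S).2 ⟨hpE, hpa, rfl⟩) hw).2
            have h3 := S.pr_pos w
            simp only [coe_Icc, Set.mem_Icc]
            rw [ht, Nat.mul_div_cancel_left _ hm, Nat.le_div_iff_mul_le (Nat.mul_pos hm hm)]
            rw [ht] at h2 h3
            refine ⟨Nat.pos_of_mul_pos_left h3, ?_⟩
            calc t * (S.m p * S.m p) = S.m p * (S.m p * t) := by ring
              _ ≤ _ := h2
          · intro w hw w' hw' he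
            obtain ⟨hw, hpw⟩ := mem_filter.1 (mem_coe.1 hw)
            obtain ⟨hw', hpw'⟩ := mem_filter.1 (mem_coe.1 hw')
            refine S.pr_inj ((mem_Wl S).1 hw).1 ((mem_Wl S).1 hw').1 ?_
            rw [← Nat.mul_div_cancel' ((S.m_dvd_pr hpE).2 hpw),
              ← Nat.mul_div_cancel' ((S.m_dvd_pr hpE).2 hpw')]
            exact congrArg (fun t => S.m p * t) he
        rw [Nat.card_Icc, Nat.add_sub_cancel] at h1
        have h2 : ((5 * J / (S.m p * S.m p) : ℕ) : ℝ) ≤ 5 * J * S.nu p * S.nu p := by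
          refine Nat.cast_div_le.trans (le_of_eq ?_)
          simp only [Sys.nu]
          push_cast
          rw [div_eq_mul_inv, mul_inv, mul_assoc, mul_assoc, mul_assoc]
        have h3 := S.nu_le hpE
        have h4 := S.nu_pos p
        calc _ ≤ ((5 * J / (S.m p * S.m p) : ℕ) : ℝ) := by exact_mod_cast h1
          _ ≤ 5 * J * S.nu p * S.nu p := h2
          _ ≤ 5 * J * S.H0⁻¹ * S.nu p := by gcongr
    _ ≤ ∑ p ∈ S.E, 5 * J * S.H0⁻¹ * S.nu p := by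
        refine sum_le_sum_of_subset_of_nonneg sdiff_subset fun p _ _ => ?_
        have := S.nu_pos p
        positivity
    _ = 5 * J * S.H0⁻¹ * S.L := by rw [← mul_sum]; rfl
    _ ≤ 5 * J * S.H0⁻¹ * S.Λ := by
        have := S.L_le
        gcongr
    _ = 5 * J * S.Λ / S.H0 := by rw [div_eq_mul_inv]; ring

lemma PW_ok {r : ℕ} {a : Finset ι} (hH : 1 ≤ S.Hk a) {x : Σ _ : ι, Finset ι} (hx : x ∈ PW S r a) :
    IsCoprime ((S.m x.1 * S.pr x.2 : ℕ) : ℤ) S.h ∧ S.Hk a ≤ S.m x.1 * S.pr x.2 := by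
  obtain ⟨hp, hw⟩ := mem_sigma.1 hx
  obtain ⟨hpE, hpa⟩ := mem_sdiff.1 hp
  obtain ⟨hw, -⟩ := mem_filter.1 hw
  have h1 := (size_J S hH ((mem_Il S).2 ⟨hpE, hpa, rfl⟩) hw).1
  have h2 := four_H_le_J S a
  refine ⟨?_, by omega⟩
  have h3 := S.coprime_pr_h (singleton_subset_iff.2 hpE)
  have h4 := S.coprime_pr_h ((mem_Wl S).1 hw).1
  rw [Sys.pr, prod_singleton] at h3
  push_cast
  exact h3.mul_left h4

/-- The bound for one label. -/
lemma label_le {r : ℕ} (hr2 : 2 ≤ r) {a v : Finset ι} (hv : v ∈ S.VV r a) {N : ℕ} {c : ℤ → ℂ}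
    {ε : ℝ} (hε : 0 ≤ ε) {Jm : ℕ} (hJ : S.T ≤ Jm) (hMR : MRB N c S.h S.H0 S.H1 S.Q Jm ε) {θ : ℚ}
    (hθ : θ ∈ S.FF) (l : ℕ) {M : Finset ℤ}
    (hM : M ⊆ Icc ((S.T / S.pr a * N / 2 : ℕ) : ℤ) (5 * (S.T / S.pr a) * N : ℕ)) :
    ∑ m ∈ M, ‖sh S.h (S.Hk a) θ (fun y => ∑ p ∈ Il S a l, ∑ w ∈ Wl S r a l,
        if ((S.m p * S.pr w : ℕ) : ℤ) ∣ y then c (y / (S.m p * S.pr w : ℕ) + S.h) else 0) m‖ ^ 2
      ≤ ε * (S.Hk a : ℝ) ^ 2 * (S.T / S.pr a : ℕ) * N := by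
  have hH0 : (5 : ℝ) ≤ S.H0 := le_trans (by norm_num) S.H0_big
  have hH : 1 ≤ S.Hk a := by
    have := S.H0_le_Hk hr2 hv
    have : (1 : ℝ) ≤ S.Hk a := by linarith
    exact_mod_cast this
  rcases (Wl S r a l).eq_empty_or_nonempty with h0 | ⟨w0, hw0⟩
  · simp only [h0, sh, sum_empty, sum_const_zero, zero_mul, norm_zero]
    simp only [ne_eq, OfNat.ofNat_ne_zero, not_false_eq_true, zero_pow, sum_const_zero]
    positivity
  obtain ⟨hw1, -, hw3, p0, hp0, -, -⟩ := (mem_Wl S).1 hw0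
  obtain ⟨q, hq, hmin⟩ := exists_min_image (Il S a l) S.m ⟨p0, hp0⟩
  obtain ⟨hqE, -, hql⟩ := (mem_Il S).1 hq
  have hqJ : (S.m q : ℝ) ≤ (S.T / S.pr a : ℕ) := by
    have h1 := (size_J S hH hq hw0).2
    have h2 := S.H0_pow_le_pr hw1
    have h3 : S.H0 ≤ S.H0 ^ w0.card := le_self_pow₀ (by linarith only [hH0]) (by omega)
    have h4 : 5 ≤ S.pr w0 := by
      have : (5 : ℝ) ≤ S.pr w0 := by linarith only [hH0, h2, h3]
      exact_mod_cast this
    have h5 : S.m q ≤ S.T / S.pr a := by nlinarith only [h1, h4]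
    exact_mod_cast h5
  have key := hMR (S.m q) ((Il S a l).image S.m) ((Wl S r a l).image S.pr) (S.T / S.pr a) (S.Hk a) θ
    (S.lo q hqE) (S.hi q hqE) ?_ ?_ hqJ ((Nat.div_le_self _ _).trans hJ) ?_ ?_ (S.den_le hθ)
  · refine le_trans ?_ key
    refine le_trans (le_of_eq ?_) (sum_le_sum_of_subset_of_nonneg hM fun _ _ _ => by positivity)
    refine sum_congr rfl fun m _ => ?_
    congr 2
    refine sum_congr rfl fun i _ => ?_
    congr 1
    rw [sum_image fun p hp p' _ he => S.m_inj ((mem_Il S).1 hp).1 he]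
    refine sum_congr rfl fun p _ => ?_
    rw [sum_image fun w hw w' hw' he => S.pr_inj ((mem_Wl S).1 hw).1 ((mem_Wl S).1 hw').1 he]
  · intro n hn
    obtain ⟨p, hp, rfl⟩ := mem_image.1 hn
    obtain ⟨hpE, -, hpl⟩ := (mem_Il S).1 hp
    refine ⟨S.prime p hpE, by exact_mod_cast hmin p hp, ?_⟩
    exact_mod_cast S.lab_close p hpE q hqE (hpl.trans hql.symm)
  · intro n hn n' hn'
    obtain ⟨p, hp, rfl⟩ := mem_image.1 hn
    obtain ⟨w, hw, rfl⟩ := mem_image.1 hn'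
    exact size_J S hH hp hw
  · refine Nat.div_le_of_le_mul ?_
    calc S.T ≤ 2 * (S.pr a * S.Q ^ 2 * S.Hk a) := S.T_le_Hk hr2 hv
      _ = _ := by ring
  · have := four_H_le_J S a
    omega

end Int4

end Pool.Agent.Work.MP_678620_nt
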