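import Pool.Agent.Work.MP_678620_nt.SPInt1
import Pool.Agent.Work.MP_678620_nt.SPJav
import Pool.Agent.Work.MP_678620_nt.SPInt4A

/-! The positive form on the integers. -/

set_option autoImplicit false
open Finset Pool.Agent.Lib.LargeSieve

namespace Pool.Agent.Work.MP_678620_nt

namespace Int4

variable {ι : Type} [Fintype ι] [DecidableEq ι] (S : Sys ι)

/-- The test function with its cut-off. -/
noncomputable def GI (N : ℕ) (g : ℤ → ℂ) (y : ℤ) : ℂ :=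
  if y ∈ Ioc (((S.T * N : ℕ) : ℤ) - S.R) (((2 * S.T * N : ℕ) : ℤ) + S.R) then S.Gt g y else 0

open Classical in
/-- The exceptional set of `d`. -/
noncomputable def Bx (N : ℕ) (d : Finset ι) : Finset ℤ :=
  (Icc (1 : ℤ) (3 * N)).filter fun n => (∃ p ∈ d, (S.m p : ℤ) ∣ n) ∨
    ((S.Zi (S.pr d * n)).card = S.s + S.k' ∧ ¬ S.good (S.Zi (S.pr d * n)))

lemma Ex_eq (N : ℕ) : S.Ex N = ∑ d ∈ S.DD, (Bx S N d).card := by
  unfold Sys.Ex Bx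
  refine sum_congr rfl fun d _ => ?_
  congr

lemma R_cast : (S.R : ℤ) = 2 * S.T * |S.h| := by
  rw [Sys.R]
  push_cast
  rfl

lemma jp_i_le {a : Finset ι} {i : ℕ} (hi : i ∈ range (S.Hk a)) : |S.jp a * i| ≤ S.R := by
  have h1 := S.Hk_mul_le a
  have h2 := mem_range.1 hi
  have h3 : 1 ≤ S.Q ^ 2 := Nat.one_le_pow _ _ (by have := S.Q_ge; omega)
  have h4 : S.pr a * i ≤ 2 * S.T := by
    calc S.pr a * i ≤ S.pr a * S.Hk a := Nat.mul_le_mul_left _ h2.le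
      _ = S.pr a * 1 * S.Hk a := by ring
      _ ≤ S.pr a * S.Q ^ 2 * S.Hk a := by gcongr
      _ ≤ 2 * S.T := by omega
  have h5 : (S.pr a : ℤ) * i ≤ 2 * S.T := by exact_mod_cast h4
  rw [R_cast, Sys.jp, show (S.pr a : ℤ) * S.h * i = (S.pr a * i) * S.h by ring, abs_mul,
    abs_of_nonneg (by positivity : (0 : ℤ) ≤ S.pr a * i)]
  exact mul_le_mul_of_nonneg_right h5 (abs_nonneg _)

lemma jp_DD_le {d : Finset ι} (hd : d ∈ S.DD) : |S.jp d| ≤ S.R := by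
  have h4 : S.pr d ≤ 2 * S.T := S.DD_hi d hd
  have h5 : (S.pr d : ℤ) ≤ 2 * S.T := by exact_mod_cast h4
  rw [R_cast, Sys.jp, abs_mul, abs_of_nonneg (by positivity : (0 : ℤ) ≤ S.pr d)]
  exact mul_le_mul_of_nonneg_right h5 (abs_nonneg _)

lemma five_R_le {N : ℕ} (hN : 10 * S.h.natAbs ≤ N) : 5 * (S.R : ℤ) ≤ (S.T * N : ℕ) := by
  have : 5 * S.R ≤ S.T * N := by
    calc 5 * S.R = S.T * (10 * S.h.natAbs) := by rw [Sys.R]; ring
      _ ≤ S.T * N := Nat.mul_le_mul_left _ hN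
  exact_mod_cast this

lemma two_TN (N : ℕ) : ((2 * S.T * N : ℕ) : ℤ) = 2 * ((S.T * N : ℕ) : ℤ) := by
  push_cast
  ring

/-- The point at which the test function is evaluated. -/
lemma point_eq {r : ℕ} {a v : Finset ι} (hv : v ∈ S.VV r a) {m : ℤ} {i : ℕ}
    (hd : (S.pr v : ℤ) ∣ m + S.h * i) :
    (S.pr (a ∪ v) : ℤ) * ((m + S.h * i) / S.pr v + S.h)
      = S.pr a * m + S.jp a * i + S.jp (a ∪ v) := by
  obtain ⟨-, h2, -, -⟩ := S.mem_VV.1 hv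
  obtain ⟨t, ht⟩ := hd
  have h0 : (S.pr v : ℤ) ≠ 0 := by exact_mod_cast (S.pr_pos v).ne'
  rw [ht, Int.mul_ediv_cancel_left _ h0, Sys.jp, Sys.jp, S.pr_union h2]
  push_cast
  linear_combination (-(S.pr a : ℤ)) * ht

/-- Reduction to the integers. -/
lemma red_int {r : ℕ} {a : Finset ι} (ha : a ∈ S.AA r) {N : ℕ} (hN : 10 * S.h.natAbs ≤ N) {i0 : ι}
    (hW : 10 * (S.T * N) < S.m i0) (g : ℤ → ℂ) (θ : ℚ) :
    (∑ x : S.G, if a ⊆ S.Zs x then ‖((S.Hk a : ℂ))⁻¹ * ∑ i ∈ range (S.Hk a),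
        S.Ps r a (S.GX N g) (x + ((S.jp a * i : ℤ) : S.G)) * ee (θ * i)‖ ^ 2 else 0)
      = ∑ m ∈ Iv (S.pr a) ((S.T * N : ℕ) - 3 * S.R) (2 * (S.T * N : ℕ) + 3 * S.R),
        ‖((S.Hk a : ℂ))⁻¹ * sh S.h (S.Hk a) θ
          (dv S.h (S.VV r a) S.pr fun v n => GI S N g (S.pr (a ∪ v) * n)) m‖ ^ 2 := by
  have haE := (S.mem_AA.1 ha).1
  have h5 := five_R_le S hN
  have h2 := two_TN S N
  have hW' : 10 * ((S.T * N : ℕ) : ℤ) < S.m i0 := by exact_mod_cast hW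
  have hR0 : (0 : ℤ) ≤ S.R := by positivity
  rw [S.sum_eq_sum_int (i0 := i0) (lo := (S.T * N : ℕ) - 3 * S.R)
    (hi := 2 * (S.T * N : ℕ) + 3 * S.R) (by omega)]
  · refine (sum_congr rfl fun y _ => if_congr (S.sub_Zi haE) rfl rfl).trans ?_
    rw [sum_dvd_eq (S.pr_pos a)]
    refine sum_congr rfl fun m hm => ?_
    rw [mem_Iv (S.pr_pos a)] at hm
    congr 3
    refine sum_congr rfl fun i hi => ?_
    congr 1
    refine sum_congr rfl fun v hv => ?_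
    obtain ⟨h6, h7, -, h8⟩ := S.mem_VV.1 hv
    have hc : v ⊆ S.Zs (((S.pr a * m : ℤ) : S.G) + ((S.jp a * i : ℤ) : S.G))
        ↔ (S.pr v : ℤ) ∣ m + S.h * i := by
      rw [← Int.cast_add]
      refine (S.sub_Zi h6).trans ?_
      rw [Sys.jp, show (S.pr a : ℤ) * m + S.pr a * S.h * i = S.pr a * (m + S.h * i) by ring]
      exact ⟨fun h => (Nat.isCoprime_iff_coprime.2 (S.coprime_pr h7).symm).dvd_of_dvd_mul_left h,
        fun h => h.mul_left _⟩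
    refine if_ctx_congr hc (fun hd => ?_) fun _ => rfl
    beta_reduce
    rw [point_eq S hv hd, ← Int.cast_add, ← Int.cast_add]
    have j1 := abs_le.1 (jp_i_le S hi)
    have j2 := abs_le.1 (jp_DD_le S h8)
    exact S.ext_cast (i0 := i0) _ (by rw [abs_lt]; constructor <;> omega)
      (by rw [abs_lt]; constructor <;> omega)
  · intro ξ hξ
    have h6 : ∑ i ∈ range (S.Hk a),
        S.Ps r a (S.GX N g) (ξ + ((S.jp a * i : ℤ) : S.G)) * ee (θ * i) ≠ 0 := by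
      intro h0
      apply hξ
      rw [h0]
      simp
    obtain ⟨i, hi, h7⟩ := exists_ne_zero_of_sum_ne_zero h6
    obtain ⟨v, hv, h8⟩ := exists_ne_zero_of_sum_ne_zero (left_ne_zero_of_mul h7)
    have h9 : S.GX N g (ξ + ((S.jp a * i : ℤ) : S.G) + (S.jp (a ∪ v) : S.G)) ≠ 0 := by
      intro h0
      apply h8
      rw [h0]
      simp
    obtain ⟨y, hy, he, -⟩ := S.ext_ne_zero h9
    have j1 := abs_le.1 (jp_i_le S hi)
    have j2 := abs_le.1 (jp_DD_le S (S.mem_VV.1 hv).2.2.2)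
    rw [mem_Ioc] at hy
    refine ⟨y - S.jp a * i - S.jp (a ∪ v), mem_Ioc.2 ⟨by omega, by omega⟩, ?_⟩
    rw [Int.cast_sub, Int.cast_sub, he]
    abel

lemma norm_Gt_le {g : ℤ → ℂ} (hg1 : ∀ y, ‖g y‖ ≤ 1) (y : ℤ) : ‖S.Gt g y‖ ≤ 1 := by
  unfold Sys.Gt
  split_ifs
  · exact hg1 y
  · simp

lemma norm_GI_le (N : ℕ) {g : ℤ → ℂ} (hg1 : ∀ y, ‖g y‖ ≤ 1) (y : ℤ) : ‖GI S N g y‖ ≤ 1 := by
  unfold GI
  split_ifs
  · exact norm_Gt_le S hg1 y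
  · simp

lemma delta_le {g : ℤ → ℂ} (hg1 : ∀ y, ‖g y‖ ≤ 1) {d : Finset ι} {n : ℤ}
    (hg : g (S.pr d * n) = g n) :
    ‖S.Gt g (S.pr d * n) - (if (S.Zi n).card = S.k' then g n else 0)‖ ≤ 1 := by
  unfold Sys.Gt
  rw [hg]
  split_ifs <;> simp [hg1]

lemma delta_le' {g : ℤ → ℂ} (hg1 : ∀ y, ‖g y‖ ≤ 1) {d : Finset ι} (hd : d ∈ S.DD) {n : ℤ}
    (hg : g (S.pr d * n) = g n) {N : ℕ} (hn : n ∈ Icc (1 : ℤ) (3 * N)) :
    ‖S.Gt g (S.pr d * n) - (if (S.Zi n).card = S.k' then g n else 0)‖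
      ≤ if n ∈ Bx S N d then 1 else 0 := by
  by_cases hB : n ∈ Bx S N d
  · rw [if_pos hB]
    exact delta_le S hg1 hg
  rw [if_neg hB]
  simp only [Bx, mem_filter, hn, true_and, not_or, not_exists, not_and, not_not] at hB
  obtain ⟨h1, h2⟩ := hB
  have h3 : Disjoint d (S.Zi n) := disjoint_left.2 fun p hp hp' => h1 p hp (S.mem_Zi.1 hp').2
  have h4 : (S.Zi (S.pr d * n)).card = S.s + (S.Zi n).card := by
    rw [S.Zi_mul (S.DD_sub d hd), card_union_of_disjoint h3, S.DD_card d hd]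
  have h5 : S.Cg ((S.pr d * n : ℤ) : S.G) ↔ (S.Zi n).card = S.k' := by
    constructor
    · intro h
      have : (S.Zi (S.pr d * n)).card = S.s + S.k' := h.1
      omega
    · intro h
      have : (S.Zi (S.pr d * n)).card = S.s + S.k' := by omega
      exact ⟨this, h2 this⟩
  unfold Sys.Gt
  rw [hg, if_congr h5 rfl rfl, sub_self, norm_zero]

lemma sh_add (h : ℤ) (H : ℕ) (θ : ℚ) (Ψ Ψ' : ℤ → ℂ) (m : ℤ) :
    sh h H θ (fun y => Ψ y + Ψ' y) m = sh h H θ Ψ m + sh h H θ Ψ' m := by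
  simp only [sh, add_mul, sum_add_distrib]

lemma sq_three {x a b c : ℝ} (hx : 0 ≤ x) (h : x ≤ a + b + c) :
    x ^ 2 ≤ 3 * (a ^ 2 + b ^ 2 + c ^ 2) := by
  have h1 : x ^ 2 ≤ (a + b + c) ^ 2 := pow_le_pow_left₀ hx h 2
  nlinarith [sq_nonneg (a - b), sq_nonneg (b - c), sq_nonneg (a - c)]

/-- The main term is bounded by the pieces with one label and the overlapping pairs. -/
lemma main_split {r : ℕ} (hr : 1 ≤ r) (a : Finset ι) (c : ℤ → ℂ) (θ : ℚ) (m : ℤ) :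
    ‖sh S.h (S.Hk a) θ (dv S.h (S.VV r a) S.pr fun _ => c) m‖
      ≤ ‖∑ l ∈ S.E.image S.lab, sh S.h (S.Hk a) θ (fun y => ∑ p ∈ Il S a l, ∑ w ∈ Wl S r a l,
          if ((S.m p * S.pr w : ℕ) : ℤ) ∣ y then c (y / (S.m p * S.pr w : ℕ) + S.h) else 0) m‖
        + ‖sh S.h (S.Hk a) θ (dv S.h (PW S r a) (fun x => S.m x.1 * S.pr x.2) fun _ => c) m‖ := by
  have h1 : (r : ℂ) * sh S.h (S.Hk a) θ (dv S.h (S.VV r a) S.pr fun _ => c) m
      = ∑ l ∈ S.E.image S.lab, sh S.h (S.Hk a) θ (fun y => ∑ p ∈ Il S a l, ∑ w ∈ Wl S r a l,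
          if ((S.m p * S.pr w : ℕ) : ℤ) ∣ y then c (y / (S.m p * S.pr w : ℕ) + S.h) else 0) m
        - sh S.h (S.Hk a) θ (dv S.h (PW S r a) (fun x => S.m x.1 * S.pr x.2) fun _ => c) m := by
    unfold sh
    rw [sum_comm, ← sum_sub_distrib, mul_sum]
    refine sum_congr rfl fun i _ => ?_
    rw [← sum_mul, ← sub_mul, ← mul_assoc]
    congr 1
    exact label_split S a hr fun u => if (u : ℤ) ∣ m + S.h * i then c ((m + S.h * i) / u + S.h)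
      else 0
  refine le_trans ?_ (norm_sub_le _ _)
  rw [← h1, norm_mul, Complex.norm_natCast]
  have : (1 : ℝ) ≤ r := by exact_mod_cast hr
  exact le_mul_of_one_le_left (norm_nonneg _) this

/-- The inner range. -/
lemma inner_le {r : ℕ} (hr2 : 2 ≤ r) {a v0 : Finset ι} (hv0 : v0 ∈ S.VV r a) {N : ℕ}
    (hN : 10 * S.h.natAbs ≤ N) {g : ℤ → ℂ} (hg1 : ∀ y, ‖g y‖ ≤ 1)
    (hg : ∀ d ∈ S.DD, ∀ n : ℤ, g (S.pr d * n) = g n) {ε : ℝ} (hε : 0 ≤ ε) {Jm : ℕ} (hJ : S.T ≤ Jm)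
    (hMR : MRB N (fun n => if (S.Zi n).card = S.k' then g n else 0) S.h S.H0 S.H1 S.Q Jm ε)
    {θ : ℚ} (hθ : θ ∈ S.FF) :
    ∑ m ∈ Iv (S.pr a) ((S.T * N : ℕ) + S.R) (2 * (S.T * N : ℕ) - S.R),
        ‖sh S.h (S.Hk a) θ
          (dv S.h (S.VV r a) S.pr fun v n => GI S N g (S.pr (a ∪ v) * n)) m‖ ^ 2
      ≤ (S.Hk a : ℝ) ^ 2 * (S.T * S.iv a * (3 * S.Λ ^ 2 * ε * N + N / S.H0)
        + 12 * (S.Q : ℝ) ^ 2 * ∑ v ∈ S.VV r a, ((Bx S N (a ∪ v)).card : ℝ)) := by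
  set c : ℤ → ℂ := fun n => if (S.Zi n).card = S.k' then g n else 0 with hc
  set M := Iv (S.pr a) ((S.T * N : ℕ) + S.R) (2 * (S.T * N : ℕ) - S.R) with hM
  set J : ℕ := S.T / S.pr a with hJd
  have hH0 : (5 : ℝ) ≤ S.H0 := le_trans (by norm_num) S.H0_big
  have hHr : (1 : ℝ) ≤ S.Hk a := by
    have := S.H0_le_Hk hr2 hv0
    linarith
  have hH : 1 ≤ S.Hk a := by exact_mod_cast hHr
  have hA := S.pr_pos a
  have hAr : (0 : ℝ) < S.pr a := by exact_mod_cast hA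
  have h5 := five_R_le S hN
  have h2 := two_TN S N
  have hR0 : (0 : ℤ) ≤ S.R := by positivity
  have hN1 : 1 ≤ N := by
    have := Int.natAbs_pos.2 S.h_ne
    omega
  have hJ4 : 4 ≤ J := by
    have := four_H_le_J S a
    omega
  have hJt : (J : ℝ) ≤ S.T * S.iv a := by
    rw [Sys.iv, ← div_eq_mul_inv]
    exact Nat.cast_div_le
  have hΛ := S.big
  have hc1 : ∀ n, ‖c n‖ ≤ 1 := fun n => by
    simp only [hc]
    split_ifs
    · exact hg1 n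
    · simp
  have hMsub : M ⊆ Icc ((J * N / 2 : ℕ) : ℤ) (5 * J * N : ℕ) := by
    clear * - M ι S a J hA N r Jm hJ4 hM
    intro m hm
    rw [hM, mem_Iv hA] at hm
    have e1 : S.pr a * J ≤ S.T := Nat.mul_div_le _ _
    have e2 : S.T < S.pr a * (J + 1) := Nat.lt_mul_div_succ _ hA
    have e3 : S.pr a * (J * N / 2) ≤ S.T * N := by
      calc S.pr a * (J * N / 2) ≤ S.pr a * (J * N) := Nat.mul_le_mul_left _ (Nat.div_le_self _ _)
        _ = S.pr a * J * N := by ring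
        _ ≤ S.T * N := Nat.mul_le_mul_right _ e1
    have e4 : 2 * (S.T * N) ≤ S.pr a * (5 * J * N) := by
      calc 2 * (S.T * N) ≤ 2 * (S.pr a * (J + 1) * N) := by gcongr
        _ = S.pr a * (2 * (J + 1) * N) := by ring
        _ ≤ S.pr a * (5 * J * N) := by
          refine Nat.mul_le_mul_left _ (Nat.mul_le_mul_right _ ?_)
          omega
    have e5 : (S.pr a : ℤ) * ((J * N / 2 : ℕ) : ℤ) ≤ (S.T * N : ℕ) := by exact_mod_cast e3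
    have e6 : 2 * ((S.T * N : ℕ) : ℤ) ≤ (S.pr a : ℤ) * ((5 * J * N : ℕ) : ℤ) := by
      exact_mod_cast e4
    have hAz : (0 : ℤ) < S.pr a := by exact_mod_cast hA
    exact mem_Icc.2 ⟨le_of_mul_le_mul_left (by omega) hAz, le_of_mul_le_mul_left (by omega) hAz⟩
  have hcard : (M.card : ℝ) ≤ 2 * (S.T * S.iv a) * N := by
    clear * - ι S a N hA r Jm h5 J hJ4 hN1 hJt
    refine (card_Iv_le hA (by omega)).trans ?_
    have e1 : ((2 * ((S.T * N : ℕ) : ℤ) - S.R - ((S.T * N : ℕ) + S.R) : ℤ) : ℝ) ≤ S.T * N := by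
      have : 2 * ((S.T * N : ℕ) : ℤ) - S.R - ((S.T * N : ℕ) + S.R) ≤ (S.T * N : ℕ) := by omega
      exact_mod_cast this
    have e2 : (4 : ℝ) ≤ J := by exact_mod_cast hJ4
    have e3 : (1 : ℝ) ≤ N := by exact_mod_cast hN1
    have e4 : ((2 * ((S.T * N : ℕ) : ℤ) - S.R - ((S.T * N : ℕ) + S.R) : ℤ) : ℝ) / S.pr a
        ≤ S.T * S.iv a * N := by
      rw [Sys.iv, div_eq_mul_inv]
      calc _ ≤ (S.T * N) * (S.pr a : ℝ)⁻¹ := by gcongr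
        _ = _ := by ring
    clear * - ι S N a J e3 e4 hJt e2
    nlinarith
  -- the three pieces
  set X : ℤ → ℝ := fun m => ‖∑ l ∈ S.E.image S.lab, sh S.h (S.Hk a) θ
    (fun y => ∑ p ∈ Il S a l, ∑ w ∈ Wl S r a l,
      if ((S.m p * S.pr w : ℕ) : ℤ) ∣ y then c (y / (S.m p * S.pr w : ℕ) + S.h) else 0) m‖ with hX
  set Y : ℤ → ℝ := fun m =>
    ‖sh S.h (S.Hk a) θ (dv S.h (PW S r a) (fun x => S.m x.1 * S.pr x.2) fun _ => c) m‖ with hY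
  set Z : ℤ → ℝ := fun m => ‖sh S.h (S.Hk a) θ
    (dv S.h (S.VV r a) S.pr fun v n => S.Gt g (S.pr (a ∪ v) * n) - c n) m‖ with hZ
  have hpt : ∀ m ∈ M, ∀ i ∈ range (S.Hk a), ∀ v ∈ S.VV r a, (S.pr v : ℤ) ∣ m + S.h * i →
      (S.pr (a ∪ v) : ℤ) * ((m + S.h * i) / S.pr v + S.h)
        ∈ Ioc (((S.T * N : ℕ) : ℤ) - S.R) (((2 * S.T * N : ℕ) : ℤ) + S.R) := by
    intro m hm i hi v hv hd
    rw [hM, mem_Iv hA] at hm
    have j1 := abs_le.1 (jp_i_le S hi)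
    have j2 := abs_le.1 (jp_DD_le S (S.mem_VV.1 hv).2.2.2)
    rw [point_eq S hv hd]
    exact mem_Ioc.2 ⟨by omega, by omega⟩
  have hsplit : ∀ m ∈ M, ‖sh S.h (S.Hk a) θ
      (dv S.h (S.VV r a) S.pr fun v n => GI S N g (S.pr (a ∪ v) * n)) m‖ ≤ X m + Y m + Z m := by
    intro m hm
    have e : sh S.h (S.Hk a) θ (dv S.h (S.VV r a) S.pr fun v n => GI S N g (S.pr (a ∪ v) * n)) m
        = sh S.h (S.Hk a) θ (dv S.h (S.VV r a) S.pr fun _ => c) m + sh S.h (S.Hk a) θ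
          (dv S.h (S.VV r a) S.pr fun v n => S.Gt g (S.pr (a ∪ v) * n) - c n) m := by
      rw [← sh_add]
      refine sh_congr θ fun i hi => ?_
      unfold dv
      rw [← sum_add_distrib]
      refine sum_congr rfl fun v hv => ?_
      split_ifs with hd
      · unfold GI
        beta_reduce
        rw [if_pos (hpt m hm i hi v hv hd)]
        ring
      · simp
    rw [e]
    refine (norm_add_le _ _).trans ?_
    exact add_le_add (main_split S (by omega) a c θ m) le_rfl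
  have hXs : ∑ m ∈ M, X m ^ 2 ≤ (S.Hk a : ℝ) ^ 2 * (S.T * S.iv a * (S.Λ ^ 2 * ε * N)) := by
    clear * - ι S M X ε a N J θ r c hr2 v0 hv0 hε Jm hJ hMR hθ hMsub hJt hH hN1 hJ4 hΛ
    have hL := S.lab_le
    calc ∑ m ∈ M, X m ^ 2 ≤ ∑ m ∈ M, ((S.E.image S.lab).card : ℝ) * ∑ l ∈ S.E.image S.lab,
          ‖sh S.h (S.Hk a) θ (fun y => ∑ p ∈ Il S a l, ∑ w ∈ Wl S r a l,
            if ((S.m p * S.pr w : ℕ) : ℤ) ∣ y then c (y / (S.m p * S.pr w : ℕ) + S.h) else 0)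
            m‖ ^ 2 := sum_le_sum fun m _ => norm_sq_sum_le _ _
      _ ≤ ((S.E.image S.lab).card : ℝ) * ∑ _l ∈ S.E.image S.lab,
          ε * (S.Hk a : ℝ) ^ 2 * J * N := by
        rw [← mul_sum, sum_comm]
        exact mul_le_mul_of_nonneg_left
          (sum_le_sum fun l _ => label_le S hr2 hv0 hε hJ hMR hθ l hMsub) (by positivity)
      _ = ((S.E.image S.lab).card : ℝ) ^ 2 * (ε * (S.Hk a : ℝ) ^ 2 * J * N) := by
        rw [sum_const, nsmul_eq_mul]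
        ring
      _ ≤ S.Λ ^ 2 * (ε * (S.Hk a : ℝ) ^ 2 * (S.T * S.iv a) * N) := by clear * - ι S ε a J N hL hJt hε hH hN1 hJ4 hΛ; gcongr
      _ = _ := by ring
  have hYs : ∑ m ∈ M, Y m ^ 2 ≤ (S.Hk a : ℝ) ^ 2 * (S.T * S.iv a * (N / S.H0 / 3)) := by
    clear * - J ι S a r hr2 v0 hv0 Y θ c hH hc1 hΛ hH0 M N hcard hN1
    have e1 : (J : ℝ) ≤ 2 * (S.Q : ℝ) ^ 2 * S.Hk a := by
      have : J ≤ 2 * S.Q ^ 2 * S.Hk a := by
        refine Nat.div_le_of_le_mul ?_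
        calc S.T ≤ 2 * (S.pr a * S.Q ^ 2 * S.Hk a) := S.T_le_Hk hr2 hv0
          _ = _ := by ring
      exact_mod_cast this
    have e2 : ∀ m, Y m ≤ 10 * (S.Q : ℝ) ^ 2 * S.Hk a * S.Λ / S.H0 := fun m => by
      refine (norm_sh_dv_le θ (fun x hx => PW_ok S hH hx) (fun _ _ => hc1) m).trans ?_
      refine (card_PW_le S hH).trans ?_
      calc 5 * (J : ℝ) * S.Λ / S.H0 ≤ 5 * (2 * (S.Q : ℝ) ^ 2 * S.Hk a) * S.Λ / S.H0 := by gcongr
        _ = _ := by ring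
    have e3 : 600 * ((S.Q : ℝ) ^ 4 * S.Λ ^ 2) ≤ S.H0 := by
      clear * - ι S hΛ a c
      have e4 := S.mono_le_H0 (a := 0) (b := 0) (c := 4) (d := 4) (by norm_num) (by norm_num)
        (by norm_num) (by norm_num)
      have e5 : (600 : ℝ) ≤ S.Λ ^ 2 := by nlinarith
      calc 600 * ((S.Q : ℝ) ^ 4 * S.Λ ^ 2) ≤ S.Λ ^ 2 * ((S.Q : ℝ) ^ 4 * S.Λ ^ 2) := by gcongr
        _ = _ := by ring
        _ ≤ S.H0 := e4
    have hiv := (S.iv_pos a).le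
    have hH0' : 0 < S.H0 := by linarith
    calc ∑ m ∈ M, Y m ^ 2 ≤ ∑ _m ∈ M, (10 * (S.Q : ℝ) ^ 2 * S.Hk a * S.Λ / S.H0) ^ 2 :=
          sum_le_sum fun m _ => pow_le_pow_left₀ (norm_nonneg _) (e2 m) 2
      _ = M.card * (10 * (S.Q : ℝ) ^ 2 * S.Hk a * S.Λ / S.H0) ^ 2 := by
        rw [sum_const, nsmul_eq_mul]
      _ ≤ 2 * (S.T * S.iv a) * N * (10 * (S.Q : ℝ) ^ 2 * S.Hk a * S.Λ / S.H0) ^ 2 := by gcongr
      _ = (S.Hk a : ℝ) ^ 2 * (S.T * S.iv a * (N / S.H0 / 3))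
          * (600 * ((S.Q : ℝ) ^ 4 * S.Λ ^ 2) / S.H0) := by
        clear * - ι S a N hH0 hΛ hH hN1
        field_simp
        ring
      _ ≤ _ := mul_le_of_le_one_right (by positivity) ((div_le_one hH0').2 e3)
  have hZs : ∑ m ∈ M, Z m ^ 2 ≤ (S.Hk a : ℝ) ^ 2 *
      (4 * (S.Q : ℝ) ^ 2 * ∑ v ∈ S.VV r a, ((Bx S N (a ∪ v)).card : ℝ)) := by
    clear * - Z ι S a θ r g hg1 hg hr2 M N c hpt Jm h5 h2 hH
    have e1 : ∀ m, Z m ≤ 4 * (S.Q : ℝ) ^ 2 * S.Hk a := fun m => by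
      refine (norm_sh_dv_le θ (fun v hv => ⟨S.coprime_pr_h (S.mem_VV.1 hv).1, S.Hk_le hv⟩)
        (fun v hv n => delta_le S hg1 (hg _ (S.mem_VV.1 hv).2.2.2 n)) m).trans ?_
      exact_mod_cast S.card_VV_le hr2 a
    have e2 : ∑ m ∈ M, Z m ≤ S.Hk a * ∑ v ∈ S.VV r a, ((Bx S N (a ∪ v)).card : ℝ) := by
      clear * - ι S a θ r g c M N hg1 hg hpt h5 h2
      refine sum_norm_sh_dv_le θ M (fun v => Bx S N (a ∪ v)) fun v hv m hm i hi hd => ?_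
      have hd' := (S.mem_VV.1 hv).2.2.2
      refine delta_le' S hg1 hd' (hg _ hd' _) ?_
      have e3 := mem_Ioc.1 (hpt m hm i hi v hv hd)
      generalize (m + S.h * i) / S.pr v + S.h = n at e3
      have e4 : S.T ≤ S.pr (a ∪ v) := S.DD_lo _ hd'
      have e5 : (S.T : ℤ) ≤ S.pr (a ∪ v) := by exact_mod_cast e4
      have e6 : (1 : ℤ) ≤ S.T := by exact_mod_cast S.T_pos
      have e7 : 0 < n := by
        by_contra hn
        have : (S.pr (a ∪ v) : ℤ) * n ≤ 0 :=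
          mul_nonpos_of_nonneg_of_nonpos (by positivity) (not_lt.1 hn)
        omega
      have e8 : (S.T : ℤ) * n ≤ S.T * (3 * N) := by
        have e9 : (S.T : ℤ) * n ≤ S.pr (a ∪ v) * n := mul_le_mul_of_nonneg_right e5 e7.le
        have e10 : (S.T : ℤ) * (3 * N) = 3 * ((S.T * N : ℕ) : ℤ) := by
          push_cast
          ring
        omega
      exact mem_Icc.2 ⟨e7, le_of_mul_le_mul_left e8 (by omega)⟩
    calc ∑ m ∈ M, Z m ^ 2 ≤ ∑ m ∈ M, 4 * (S.Q : ℝ) ^ 2 * S.Hk a * Z m := by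
          refine sum_le_sum fun m _ => ?_
          rw [sq]
          exact mul_le_mul_of_nonneg_right (e1 m) (norm_nonneg _)
      _ ≤ 4 * (S.Q : ℝ) ^ 2 * S.Hk a * (S.Hk a * ∑ v ∈ S.VV r a, ((Bx S N (a ∪ v)).card : ℝ)) := by
          rw [← mul_sum]
          gcongr
      _ = _ := by ring
  calc _ ≤ ∑ m ∈ M, 3 * (X m ^ 2 + Y m ^ 2 + Z m ^ 2) :=
        sum_le_sum fun m hm => sq_three (norm_nonneg _) (hsplit m hm)
    _ = 3 * (∑ m ∈ M, X m ^ 2 + ∑ m ∈ M, Y m ^ 2 + ∑ m ∈ M, Z m ^ 2) := by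
        rw [← mul_sum, sum_add_distrib, sum_add_distrib]
    _ ≤ _ := by clear * - M X Y Z ι S a ε N r hXs hYs hZs; nlinarith

lemma sum_Ioc_int (f : ℤ → ℝ) {a b c : ℤ} (h1 : a ≤ b) (h2 : b ≤ c) :
    ∑ m ∈ Ioc a b, f m + ∑ m ∈ Ioc b c, f m = ∑ m ∈ Ioc a c, f m := by
  rw [← sum_union (Ioc_disjoint_Ioc_of_le le_rfl), Ioc_union_Ioc_eq_Ioc h1 h2]

/-- The bound for fixed `a` and `θ`. -/
lemma one_le {r : ℕ} (hr2 : 2 ≤ r) {a : Finset ι} {N : ℕ}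
    (hN : 10 * S.h.natAbs ≤ N) {g : ℤ → ℂ} (hg1 : ∀ y, ‖g y‖ ≤ 1)
    (hg : ∀ d ∈ S.DD, ∀ n : ℤ, g (S.pr d * n) = g n) {ε : ℝ} (hε : 0 ≤ ε) {Jm : ℕ} (hJ : S.T ≤ Jm)
    (hMR : MRB N (fun n => if (S.Zi n).card = S.k' then g n else 0) S.h S.H0 S.H1 S.Q Jm ε)
    {θ : ℚ} (hθ : θ ∈ S.FF) :
    ∑ m ∈ Iv (S.pr a) ((S.T * N : ℕ) - 3 * S.R) (2 * (S.T * N : ℕ) + 3 * S.R),
        ‖((S.Hk a : ℂ))⁻¹ * sh S.h (S.Hk a) θ
          (dv S.h (S.VV r a) S.pr fun v n => GI S N g (S.pr (a ∪ v) * n)) m‖ ^ 2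
      ≤ S.T * S.iv a * (3 * S.Λ ^ 2 * ε * N + N / S.H0 + 400 * S.Λ * (S.Q : ℝ) ^ 4)
        + 12 * (S.Q : ℝ) ^ 2 * ∑ v ∈ S.VV r a, ((Bx S N (a ∪ v)).card : ℝ) := by
  have hH0 : (5 : ℝ) ≤ S.H0 := le_trans (by norm_num) S.H0_big
  have hΛ := S.big
  have hiv := (S.iv_pos a).le
  rcases (S.VV r a).eq_empty_or_nonempty with h0 | ⟨v0, hv0⟩
  · simp only [h0, sh, dv, sum_empty, zero_mul, sum_const_zero, mul_zero, norm_zero]
    simp only [ne_eq, OfNat.ofNat_ne_zero, not_false_eq_true, zero_pow, sum_const_zero]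
    positivity
  set Ψ := dv S.h (S.VV r a) S.pr fun v n => GI S N g (S.pr (a ∪ v) * n) with hΨ
  have hHr : (1 : ℝ) ≤ S.Hk a := by
    have := S.H0_le_Hk hr2 hv0
    linarith
  have hH : 1 ≤ S.Hk a := by exact_mod_cast hHr
  have hA := S.pr_pos a
  have h5 := five_R_le S hN
  have hR0 : (0 : ℤ) ≤ S.R := by positivity
  have ht : (4 : ℝ) ≤ S.T * S.iv a := by
    have e1 : 4 ≤ S.T / S.pr a := by
      have := four_H_le_J S a
      omega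
    have e2 : (4 : ℝ) ≤ (S.T / S.pr a : ℕ) := by exact_mod_cast e1
    rw [Sys.iv, ← div_eq_mul_inv]
    exact e2.trans Nat.cast_div_le
  have hsq : ∀ m, ‖((S.Hk a : ℂ))⁻¹ * sh S.h (S.Hk a) θ Ψ m‖ ^ 2
      = ((S.Hk a : ℝ) ^ 2)⁻¹ * ‖sh S.h (S.Hk a) θ Ψ m‖ ^ 2 := fun m => by
    rw [norm_mul, norm_inv, Complex.norm_natCast, mul_pow, inv_pow]
  have htriv : ∀ m, ‖sh S.h (S.Hk a) θ Ψ m‖ ^ 2 ≤ (4 * (S.Q : ℝ) ^ 2 * S.Hk a) ^ 2 := fun m => by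
    refine pow_le_pow_left₀ (norm_nonneg _) ?_ 2
    refine (norm_sh_dv_le θ (fun v hv => ⟨S.coprime_pr_h (S.mem_VV.1 hv).1, S.Hk_le hv⟩)
      (fun v _ n => norm_GI_le S N hg1 _) m).trans ?_
    exact_mod_cast S.card_VV_le hr2 a
  have hedge : ∀ lo : ℤ, ∑ m ∈ Iv (S.pr a) lo (lo + 4 * S.R), ‖sh S.h (S.Hk a) θ Ψ m‖ ^ 2
      ≤ (S.Hk a : ℝ) ^ 2 * (S.T * S.iv a * (200 * S.Λ * (S.Q : ℝ) ^ 4)) := fun lo => by
    clear * - ι S a lo hA r N Jm hΛ ht θ Ψ htriv hH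
    have e1 := card_Iv_le hA (lo := lo) (hi := lo + 4 * S.R) (by omega)
    have e2 : ((lo + 4 * S.R - lo : ℤ) : ℝ) / S.pr a ≤ 8 * S.Λ * (S.T * S.iv a) := by
      clear * - lo ι S a hA
      rw [add_sub_cancel_left, R_cast, Sys.iv, div_eq_mul_inv]
      push_cast
      have := S.h_le
      calc 4 * (2 * (S.T : ℝ) * |(S.h : ℝ)|) * (S.pr a : ℝ)⁻¹
          ≤ 4 * (2 * (S.T : ℝ) * S.Λ) * (S.pr a : ℝ)⁻¹ := by gcongr
        _ = _ := by ring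
    have e3 : ((Iv (S.pr a) lo (lo + 4 * S.R)).card : ℝ) ≤ 9 * S.Λ * (S.T * S.iv a) := by
      clear * - ι S a lo hΛ ht e1 e2
      nlinarith
    calc _ ≤ ∑ _m ∈ Iv (S.pr a) lo (lo + 4 * S.R), (4 * (S.Q : ℝ) ^ 2 * S.Hk a) ^ 2 :=
          sum_le_sum fun m _ => htriv m
      _ = (Iv (S.pr a) lo (lo + 4 * S.R)).card * (4 * (S.Q : ℝ) ^ 2 * S.Hk a) ^ 2 := by
          rw [sum_const, nsmul_eq_mul]
      _ ≤ 9 * S.Λ * (S.T * S.iv a) * (4 * (S.Q : ℝ) ^ 2 * S.Hk a) ^ 2 := by gcongr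
      _ = (S.Hk a : ℝ) ^ 2 * (S.T * S.iv a * (144 * S.Λ * (S.Q : ℝ) ^ 4)) := by ring
      _ ≤ _ := by clear * - ι S a hΛ ht hH; gcongr; norm_num
  have hin := inner_le S hr2 hv0 hN hg1 hg hε hJ hMR hθ
  have hA' : (0 : ℤ) < S.pr a := by exact_mod_cast hA
  have hsum : ∑ m ∈ Iv (S.pr a) ((S.T * N : ℕ) - 3 * S.R) (2 * (S.T * N : ℕ) + 3 * S.R),
        ‖sh S.h (S.Hk a) θ Ψ m‖ ^ 2
      = ∑ m ∈ Iv (S.pr a) ((S.T * N : ℕ) - 3 * S.R) ((S.T * N : ℕ) - 3 * S.R + 4 * S.R),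
          ‖sh S.h (S.Hk a) θ Ψ m‖ ^ 2
        + ∑ m ∈ Iv (S.pr a) ((S.T * N : ℕ) + S.R) (2 * (S.T * N : ℕ) - S.R),
          ‖sh S.h (S.Hk a) θ Ψ m‖ ^ 2
        + ∑ m ∈ Iv (S.pr a) (2 * (S.T * N : ℕ) - S.R) (2 * (S.T * N : ℕ) - S.R + 4 * S.R),
          ‖sh S.h (S.Hk a) θ Ψ m‖ ^ 2 := by
    clear * - ι S a N θ Ψ hA' r Jm h5
    rw [show ((S.T * N : ℕ) : ℤ) - 3 * S.R + 4 * S.R = (S.T * N : ℕ) + S.R by ring,
      show 2 * ((S.T * N : ℕ) : ℤ) - S.R + 4 * S.R = 2 * (S.T * N : ℕ) + 3 * S.R by ring]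
    unfold Iv
    rw [sum_Ioc_int, sum_Ioc_int] <;> exact Int.ediv_le_ediv hA' (by omega)
  simp only [hsq]
  rw [← mul_sum, hsum, inv_mul_le_iff₀ (by positivity)]
  have e1 := hedge ((S.T * N : ℕ) - 3 * S.R)
  have e2 := hedge (2 * (S.T * N : ℕ) - S.R)
  clear * - ι S a N θ Ψ ε r g hin e1 e2
  nlinarith

end Int4

namespace Sys

variable {ι : Type} [Fintype ι] [DecidableEq ι] (S : Sys ι)

theorem Pos_GX_le {r : ℕ} (hr2 : 2 ≤ r) (hr : r ≤ S.k) {N : ℕ} (hN : 10 * S.h.natAbs ≤ N) {i0 : ι}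
    (hW : 10 * (S.T * N) < S.m i0) {g : ℤ → ℂ} (hg1 : ∀ y, ‖g y‖ ≤ 1)
    (hg : ∀ d ∈ S.DD, ∀ n : ℤ, g (S.pr d * n) = g n) {ε : ℝ} (hε : 0 ≤ ε) {Jm : ℕ} (hJ : S.T ≤ Jm)
    (hMR : MRB N (fun n => if (S.Zi n).card = S.k' then g n else 0) S.h S.H0 S.H1 S.Q Jm ε) :
    S.Pos r (S.GX N g) ≤ (S.Q : ℝ) ^ 2 * S.T * S.es (S.s - r) *
        (3 * S.Λ ^ 2 * ε * N + N / S.H0 + 400 * S.Λ * (S.Q : ℝ) ^ 4)
      + 12 * (S.Q : ℝ) ^ 4 * S.D * S.Ex N := by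
  have hH0 : (5 : ℝ) ≤ S.H0 := le_trans (by norm_num) S.H0_big
  have hΛ := S.big
  set B : ℝ := 3 * S.Λ ^ 2 * ε * N + N / S.H0 + 400 * S.Λ * (S.Q : ℝ) ^ 4 with hB
  have hB0 : 0 ≤ B := by positivity
  have hF : (S.FF.card : ℝ) ≤ (S.Q : ℝ) ^ 2 := by exact_mod_cast S.card_FF_le
  have hEx : ∑ a ∈ S.AA r, ∑ v ∈ S.VV r a, ((Int4.Bx S N (a ∪ v)).card : ℝ) ≤ S.D * S.Ex N := by
    rw [Int4.Ex_eq]
    push_cast
    exact S.sum_AV_le hr (Φ := fun d => ((Int4.Bx S N d).card : ℝ)) fun _ _ => Nat.cast_nonneg _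
  calc S.Pos r (S.GX N g) ≤ ∑ a ∈ S.AA r, (S.Q : ℝ) ^ 2 * (S.T * S.iv a * B
        + 12 * (S.Q : ℝ) ^ 2 * ∑ v ∈ S.VV r a, ((Int4.Bx S N (a ∪ v)).card : ℝ)) := by
        refine sum_le_sum fun a ha => ?_
        have hiv := (S.iv_pos a).le
        calc _ ≤ ∑ _θ ∈ S.FF, (S.T * S.iv a * B
            + 12 * (S.Q : ℝ) ^ 2 * ∑ v ∈ S.VV r a, ((Int4.Bx S N (a ∪ v)).card : ℝ)) := by
              refine sum_le_sum fun θ hθ => ?_
              rw [Int4.red_int S ha hN hW]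
              exact Int4.one_le S hr2 hN hg1 hg hε hJ hMR hθ
          _ ≤ _ := by
              clear * - ι S a B r N hF hiv ε hΛ hε hH0
              rw [sum_const, nsmul_eq_mul]
              refine mul_le_mul_of_nonneg_right hF (add_nonneg (by positivity) ?_)
              exact mul_nonneg (by positivity) (sum_nonneg fun _ _ => Nat.cast_nonneg _)
    _ = (S.Q : ℝ) ^ 2 * S.T * S.es (S.s - r) * B + 12 * (S.Q : ℝ) ^ 4 *
          ∑ a ∈ S.AA r, ∑ v ∈ S.VV r a, ((Int4.Bx S N (a ∪ v)).card : ℝ) := by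
        rw [show S.es (S.s - r) = ∑ a ∈ S.AA r, S.iv a from S.es_eq _, mul_sum, mul_sum, sum_mul,
          ← sum_add_distrib]
        refine sum_congr rfl fun a _ => ?_
        ring
    _ ≤ _ := by
        rw [mul_assoc (12 * (S.Q : ℝ) ^ 4)]
        exact add_le_add le_rfl (mul_le_mul_of_nonneg_left hEx (by positivity))

end Sys

end Pool.Agent.Work.MP_678620_nt
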