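import Pool.Agent.Work.MP_678620_nt.SPFour
import Pool.Agent.Work.MP_678620_nt.SPTrans

/-! Iterating the core lemma. -/

set_option autoImplicit false
open Finset Pool.Agent.Lib.LargeSieve

namespace Pool.Agent.Work.MP_678620_nt

lemma iter_sum_inj {α β : Type*} [Fintype β] [DecidableEq β] (s : Finset α) (φ : α → β)
    (hφ : ∀ a ∈ s, ∀ b ∈ s, φ a = φ b → a = b) (z : α → ℂ) :
    ∑ c, ‖∑ j ∈ s, z j * (if φ j = c then 1 else 0)‖ ^ 2 = ∑ j ∈ s, ‖z j‖ ^ 2 := by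
  have h1 : ∀ c, ‖∑ j ∈ s, z j * (if φ j = c then 1 else 0)‖ ^ 2
      = ∑ j ∈ s, if φ j = c then ‖z j‖ ^ 2 else 0 := by
    intro c
    by_cases h : ∃ j0 ∈ s, φ j0 = c
    · obtain ⟨j0, hj0, hc⟩ := h
      have hne : ∀ b ∈ s, b ≠ j0 → ¬ φ b = c := fun b hb hne hbc =>
        hne (hφ b hb j0 hj0 (hbc.trans hc.symm))
      rw [sum_eq_single_of_mem j0 hj0 (fun b hb hb' => by rw [if_neg (hne b hb hb'), mul_zero]),
        sum_eq_single_of_mem j0 hj0 (fun b hb hb' => by rw [if_neg (hne b hb hb')]),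
        if_pos hc, if_pos hc, mul_one]
    · have hne : ∀ b ∈ s, ¬ φ b = c := fun b hb hbc => h ⟨b, hb, hbc⟩
      rw [sum_eq_zero (fun b hb => by rw [if_neg (hne b hb), mul_zero]),
        sum_eq_zero (fun b hb => by rw [if_neg (hne b hb)])]
      simp
  rw [sum_congr rfl fun c _ => h1 c, sum_comm]
  refine sum_congr rfl fun j _ => ?_
  simp

lemma iter_step {x y v ρ t t' : ℝ} (hρ : 0 ≤ ρ) (hx : 0 ≤ x) (hy : 0 ≤ y) (hv : 0 < v)
    (ht : t ≤ 2 * (x + v)) (ht' : t' ≤ 2 * (y + v)) (h : y ≤ ρ * (√t' * √t)) :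
    y + v ≤ (2 * ρ + 1) ^ 2 * (x + v) := by
  have ha : 0 < √(x + v) := Real.sqrt_pos.2 (by linarith)
  have hb : 0 < √(y + v) := Real.sqrt_pos.2 (by linarith)
  have ha2 : √(x + v) ^ 2 = x + v := Real.sq_sqrt (by linarith)
  have hb2 : √(y + v) ^ 2 = y + v := Real.sq_sqrt (by linarith)
  have h2 : √2 * √2 = 2 := Real.mul_self_sqrt (by norm_num)
  have e1 : √t ≤ √2 * √(x + v) := by
    rw [← Real.sqrt_mul (by norm_num)]; exact Real.sqrt_le_sqrt ht
  have e2 : √t' ≤ √2 * √(y + v) := by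
    rw [← Real.sqrt_mul (by norm_num)]; exact Real.sqrt_le_sqrt ht'
  have e3 : √t' * √t ≤ 2 * (√(y + v) * √(x + v)) := by
    calc √t' * √t ≤ (√2 * √(y + v)) * (√2 * √(x + v)) :=
          mul_le_mul e2 e1 (Real.sqrt_nonneg _) (by positivity)
      _ = (√2 * √2) * (√(y + v) * √(x + v)) := by ring
      _ = _ := by rw [h2]
  have e4 : v ≤ √(y + v) * √(x + v) := by
    have h3 : √v * √v = v := Real.mul_self_sqrt hv.le
    rw [← h3]
    refine mul_le_mul (Real.sqrt_le_sqrt ?_) (Real.sqrt_le_sqrt ?_) (Real.sqrt_nonneg _) ?_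
    · rw [h3]; linarith
    · rw [h3]; linarith
    · exact Real.sqrt_nonneg _
  have e5 : √(y + v) * √(y + v) ≤ √(y + v) * ((2 * ρ + 1) * √(x + v)) := by
    have := mul_le_mul_of_nonneg_left e3 hρ
    nlinarith only [h, hb2, e4, this]
  have e6 : √(y + v) ≤ (2 * ρ + 1) * √(x + v) := le_of_mul_le_mul_left e5 hb
  calc y + v = √(y + v) ^ 2 := hb2.symm
    _ ≤ ((2 * ρ + 1) * √(x + v)) ^ 2 := pow_le_pow_left₀ hb.le e6 2
    _ = _ := by rw [mul_pow, ha2]

namespace Sys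

variable {ι : Type} [Fintype ι] [DecidableEq ι] (S : Sys ι)

lemma Kpow_eq_zero (K : S.G → ℤ → ℂ) (n : ℕ) (ξ : S.G) {j : ℤ} (hj : ((n * S.R : ℕ) : ℤ) < |j|) :
    S.Kpow K n ξ j = 0 := by
  induction n generalizing ξ j with
  | zero =>
    have : j ≠ 0 := by
      rintro rfl
      simp at hj
    simp [Kpow, this]
  | succ n ih =>
    rw [Kpow]
    refine sum_eq_zero fun e he => ?_
    rw [ih, mul_zero]
    rw [mem_Icc] at he
    push_cast at hj ⊢
    rcases abs_cases j with h | h <;> rcases abs_cases (j - e) with h' | h' <;> nlinarith only [he, hj, h, h']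

lemma iterate_Xop (K : S.G → ℤ → ℂ) (n : ℕ) (f : S.G → ℂ) (ξ : S.G) :
    (S.Xop K)^[n] f ξ = ∑ j ∈ Icc (-((n * S.R : ℕ) : ℤ)) (n * S.R : ℕ),
      S.Kpow K n ξ j * f (ξ + (j : S.G)) := by
  induction n generalizing ξ with
  | zero => simp [Kpow]
  | succ n ih =>
    rw [Function.iterate_succ_apply', Xop]
    simp only [Kpow, sum_mul]
    rw [sum_comm]
    refine sum_congr rfl fun e he => ?_
    rw [ih, mul_sum]
    rw [mem_Icc] at he
    symm
    refine sum_bij_ne_zero (fun j _ _ => j - e) ?_ ?_ ?_ ?_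
    · intro j _ hne
      by_contra hcon
      apply hne
      rw [S.Kpow_eq_zero K n _ (j := j - e), mul_zero, zero_mul]
      rw [mem_Icc, ← abs_le] at hcon
      exact not_le.1 hcon
    · intro a _ _ b _ _ h
      linarith
    · intro j hj hne
      refine ⟨j + e, ?_, ?_, by ring⟩
      · rw [mem_Icc] at hj ⊢
        push_cast at hj ⊢
        constructor <;> nlinarith only [he, hj]
      · rw [add_sub_cancel_right, Int.cast_add, add_comm (j : S.G), ← add_assoc, mul_assoc]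
        exact hne
    · intro j _ _
      rw [Int.cast_sub, add_assoc, add_sub_cancel, mul_assoc]

lemma card_Icc_R (r : ℕ) : ((Icc (-(r : ℤ)) r).card : ℝ) = 2 * r + 1 := by
  have h : (Icc (-(r : ℤ)) r).card = 2 * r + 1 := by
    rw [Int.card_Icc]; omega
  rw [h]; push_cast; ring

lemma rep_Xop {F : Finset ι} {K : S.G → ℤ → ℂ} {K1 K2 K1' K2' : ℕ} {B B' : ℝ}
    (hK : ∀ e, S.Rep ∅ K1 K2 B fun ξ => K ξ e) {φ : ℤ → S.G → ℂ}
    (hφ : ∀ e, S.Rep F K1' K2' B' (φ e)) :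
    S.Rep F (K1 + K1') (K2 + K2') ((2 * S.R + 1) * B * B') fun ξ =>
      ∑ e ∈ Icc (-(S.R : ℤ)) S.R, K ξ e * φ e (ξ + (e : S.G)) := by
  have h := Rep.sum S (Icc (-(S.R : ℤ)) S.R) (B := fun _ => B * B')
    (φ := fun e ξ => K ξ e * φ e (ξ + (e : S.G))) (F := F) (K1 := K1 + K1') (K2 := K2 + K2')
    (fun e _ => ((hK e).weaken (empty_subset F) le_rfl le_rfl).mul ((hφ e).tr (e : S.G)))
  rw [sum_const, nsmul_eq_mul, card_Icc_R, ← mul_assoc] at h
  exact h

lemma rep_Kpow {K : S.G → ℤ → ℂ} {K1 K2 : ℕ} {B : ℝ} (hK : ∀ e, S.Rep ∅ K1 K2 B fun ξ => K ξ e)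
    (n : ℕ) (j : ℤ) :
    S.Rep ∅ (n * K1) (n * K2) (((2 * S.R + 1) * B) ^ n) fun ξ => S.Kpow K n ξ j := by
  induction n generalizing j with
  | zero =>
    have h := S.rep_const ∅ (if j = 0 then (1 : ℂ) else 0)
    have h' := Rep.mono h (B' := 1) (by split_ifs <;> simp)
    simpa [Kpow] using h'
  | succ n ih =>
    have h := S.rep_Xop hK (φ := fun e ξ => S.Kpow K n ξ (j - e)) (fun e => ih (j - e))
    rw [pow_succ']
    exact h.weaken subset_rfl (by rw [Nat.succ_mul]; omega) (by rw [Nat.succ_mul]; omega)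

lemma card_fiber (i0 : ι) (c : ZMod (S.m i0)) :
    (S.m i0 : ℝ) * ∑ ξ : S.G, (if ξ i0 = c then (1 : ℝ) else 0) = Fintype.card S.G := by
  have h := S.sum_piecewise {i0} (Pi.single i0 c) (fun _ => (1 : ℝ))
  simp only [sum_const, card_univ, nsmul_eq_mul, mul_one, pr, prod_singleton, mem_singleton,
    forall_eq, Pi.single_eq_same] at h
  exact h.symm

theorem iter {K : S.G → ℤ → ℂ} {C : S.G → Prop} [DecidablePred C] {K1 K2 : ℕ} {B ρ : ℝ}
    (hB : 1 ≤ B) (hρ : 0 ≤ ρ) (hK : ∀ e, S.Rep ∅ K1 K2 B fun ξ => K ξ e)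
    (hC : S.Rep ∅ K1 K2 B fun ξ => if C ξ then 1 else 0)
    (hs : ∀ ξ e, K ξ e ≠ 0 → C ξ ∧ C (ξ + (e : S.G))) {M : ℕ} (hM : 1 ≤ M)
    (hcore : ∀ g f : S.G → ℂ, (∀ ξ, g ξ ≠ 0 → C ξ) → (∀ ξ, f ξ ≠ 0 → C ξ) →
      ‖S.ip g (S.Xop K f)‖ ≤ ρ * (√(S.tn M g) * √(S.tn M f)))
    {i0 : ι} (hi0 : i0 ∉ S.E) {n : ℕ} (hn : 1 ≤ n) (hW : 2 * (n * S.R) < S.m i0)
    (hMM : S.m i0 * (((2 * S.R + 1) * B) ^ (n + 1)) ^ 2 *
      (4 ^ ((n + 1) * K1) * Real.exp (4 * ((n + 1) * K2 : ℕ) * S.L)) ≤ 4 ^ M) :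
    ∑ ξ, S.Psi K n ξ ≤ 2 * (2 * ρ + 1) ^ (2 * n) * Fintype.card S.G := by
  have hW0 : (0 : ℝ) < S.m i0 := by exact_mod_cast S.m_pos i0
  have hN0 : (0 : ℝ) < Fintype.card S.G := by exact_mod_cast Fintype.card_pos
  have hM1 : (1 : ℝ) ≤ M := by exact_mod_cast hM
  have hR0 : (0 : ℝ) ≤ S.R := Nat.cast_nonneg _
  have hX1 : (1 : ℝ) ≤ (2 * S.R + 1) * B := by nlinarith only [hB]
  set v : ℝ := Fintype.card S.G / S.m i0 with hv
  have hv0 : 0 < v := div_pos hN0 hW0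
  have key : ∀ c : ZMod (S.m i0),
      S.nn ((S.Xop K)^[n] fun ξ => if ξ i0 = c then 1 else 0) ≤ (2 * ρ + 1) ^ (2 * n) * (2 * v) := by
    intro c
    set u0 : S.G → ℂ := fun ξ => (if C ξ then 1 else 0) * (if ξ i0 = c then 1 else 0) with hu0
    have hsupp : ∀ i ξ, (S.Xop K)^[i] u0 ξ ≠ 0 → C ξ := by
      intro i ξ h
      cases i with
      | zero =>
        by_contra hc
        apply h
        simp [hu0, hc]
      | succ i =>
        rw [Function.iterate_succ_apply', Xop] at h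
        obtain ⟨e, -, he⟩ := exists_ne_zero_of_sum_ne_zero h
        exact (hs ξ e (left_ne_zero_of_mul he)).1
    have hrep : ∀ i, S.Rep {i0} ((i + 1) * K1) ((i + 1) * K2) (((2 * S.R + 1) * B) ^ (i + 1))
        ((S.Xop K)^[i] u0) := by
      intro i
      induction i with
      | zero =>
        have h := (hC.weaken (empty_subset {i0}) le_rfl le_rfl).mul (S.rep_passive hi0 c)
        have h' := Rep.mono h (B' := ((2 * S.R + 1) * B) ^ (0 + 1)) (by rw [pow_one]; nlinarith only [hB])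
        exact h'.weaken subset_rfl (by omega) (by omega)
      | succ i ih =>
        have h := S.rep_Xop hK (φ := fun _ => (S.Xop K)^[i] u0) (fun _ => ih)
        rw [pow_succ', Function.iterate_succ_apply']
        exact h.weaken subset_rfl (by rw [Nat.succ_mul (i + 1)]; omega)
          (by rw [Nat.succ_mul (i + 1)]; omega)
    have htn : ∀ i ≤ n, S.tn M ((S.Xop K)^[i] u0) ≤ 2 * (S.nn ((S.Xop K)^[i] u0) + v) := by
      intro i hi
      have h := (hrep i).weaken (K1' := (n + 1) * K1) (K2' := (n + 1) * K2) subset_rfl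
        (Nat.mul_le_mul_right _ (by omega)) (Nat.mul_le_mul_right _ (by omega))
      have h' := Rep.mono h (B' := ((2 * S.R + 1) * B) ^ (n + 1))
        (pow_le_pow_right₀ hX1 (by omega))
      have h1 := S.nn_Tn_le h'
      have h2 := S.inf_le_Tn M ((S.Xop K)^[i] u0)
      have h4 : (0 : ℝ) < 4 ^ M := by positivity
      have h3 : S.nn (S.Tn ((S.Xop K)^[i] u0)) / 4 ^ M ≤ v := by
        rw [hv, div_le_div_iff₀ h4 hW0]
        have h5 := mul_le_mul_of_nonneg_right hMM hN0.le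
        have h6 := mul_le_mul_of_nonneg_right h1 hW0.le
        nlinarith only [h5, h6]
      have h7 := S.nn_nonneg ((S.Xop K)^[i] u0)
      have h8 : S.inf ((S.Xop K)^[i] u0) / M ≤ S.nn ((S.Xop K)^[i] u0) + v := by
        rw [div_le_iff₀ (by linarith only [hM1])]
        nlinarith only [h2, h3, hM1, hv0]
      rw [tn]
      linarith only [hv0, h8]
    have hb : ∀ i ≤ n, S.nn ((S.Xop K)^[i] u0) + v ≤ (2 * ρ + 1) ^ (2 * i) * (2 * v) := by
      intro i
      induction i with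
      | zero =>
        intro _
        have h1 : S.nn u0 ≤ ∑ ξ : S.G, (if ξ i0 = c then (1 : ℝ) else 0) := by
          refine sum_le_sum fun ξ _ => ?_
          simp only [hu0]
          split_ifs <;> simp
        have h2 : ∑ ξ : S.G, (if ξ i0 = c then (1 : ℝ) else 0) = v := by
          rw [hv, eq_div_iff hW0.ne', mul_comm]
          exact S.card_fiber i0 c
        simp only [Function.iterate_zero, id, mul_zero, pow_zero, one_mul]
        linarith only [h1, h2]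
      | succ i ih =>
        intro hi
        have h1 := hcore ((S.Xop K)^[i + 1] u0) ((S.Xop K)^[i] u0) (hsupp _) (hsupp _)
        rw [← Function.iterate_succ_apply' (S.Xop K) i u0, S.ip_self, Complex.norm_real,
          Real.norm_of_nonneg (S.nn_nonneg _)] at h1
        have h2 := iter_step hρ (S.nn_nonneg _) (S.nn_nonneg _) hv0 (htn i (by omega))
          (htn (i + 1) hi) h1
        have h3 := mul_le_mul_of_nonneg_left (ih (by omega)) (sq_nonneg (2 * ρ + 1))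
        calc _ ≤ _ := h2
          _ ≤ _ := h3
          _ = _ := by ring
    have he : S.Xop K (fun ξ => if ξ i0 = c then 1 else 0) = S.Xop K u0 := by
      funext ξ
      refine sum_congr rfl fun e _ => ?_
      by_cases h : K ξ e = 0
      · rw [h, zero_mul, zero_mul]
      · simp only [hu0, if_pos (hs ξ e h).2, one_mul]
    obtain ⟨n', rfl⟩ : ∃ n', n = n' + 1 := ⟨n - 1, by omega⟩
    have h := hb (n' + 1) le_rfl
    rw [Function.iterate_succ_apply] at h ⊢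
    rw [he]
    linarith only [hv0, h]
  have hPsi : ∀ ξ, S.Psi K n ξ = ∑ c : ZMod (S.m i0),
      ‖(S.Xop K)^[n] (fun ξ => if ξ i0 = c then 1 else 0) ξ‖ ^ 2 := by
    intro ξ
    simp only [iterate_Xop]
    rw [Psi]
    refine (iter_sum_inj _ (fun j : ℤ => (ξ + (j : S.G)) i0) ?_ _).symm
    intro a ha b hb hab
    rw [mem_Icc] at ha hb
    have h1 : (a : ZMod (S.m i0)) = (b : ZMod (S.m i0)) := add_left_cancel (a := ξ i0) hab
    rw [ZMod.intCast_eq_intCast_iff_dvd_sub] at h1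
    have h2 : (2 * ((n * S.R : ℕ) : ℤ)) < (S.m i0 : ℤ) := by exact_mod_cast hW
    have h3 := Int.eq_zero_of_abs_lt_dvd h1 (by rw [abs_lt]; constructor <;> linarith only [ha, hb, h2])
    linarith only [h3]
  rw [sum_congr rfl fun ξ _ => hPsi ξ, sum_comm]
  calc _ ≤ ∑ _c : ZMod (S.m i0), (2 * ρ + 1) ^ (2 * n) * (2 * v) := sum_le_sum fun c _ => key c
    _ = _ := by
      rw [sum_const, card_univ, ZMod.card, nsmul_eq_mul, hv]
      field_simp

theorem Psi_transfer {K : S.G → ℤ → ℂ} {K1 K2 : ℕ} {B : ℝ}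
    (hK : ∀ e, S.Rep ∅ K1 K2 B fun ξ => K ξ e) (n J : ℕ) (a : ℤ) (Y : ℕ) :
    ∑ y ∈ Ioc a (a + Y), S.Psi K n (y : S.G)
      ≤ Y * ((Fintype.card S.G : ℝ)⁻¹ * ∑ ξ, S.Psi K n ξ)
        + (2 * (n * S.R) + 1) * (((2 * S.R + 1) * B) ^ n) ^ 2 *
          (2 * Y * (((2 * (n * K2) : ℕ) * S.L) ^ (J + 1) / (J + 1).factorial)
            + S.H1 ^ (2 * (n * K1)) * (1 + (2 * (n * K2) : ℕ) * S.H1) ^ (J + 1)) := by
  have key : ∀ j : ℤ, ∑ y ∈ Ioc a (a + Y), ‖S.Kpow K n (y : S.G) j‖ ^ 2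
      ≤ Y * ((Fintype.card S.G : ℝ)⁻¹ * ∑ ξ, ‖S.Kpow K n ξ j‖ ^ 2)
        + (((2 * S.R + 1) * B) ^ n) ^ 2 *
          (2 * Y * (((2 * (n * K2) : ℕ) * S.L) ^ (J + 1) / (J + 1).factorial)
            + S.H1 ^ (2 * (n * K1)) * (1 + (2 * (n * K2) : ℕ) * S.H1) ^ (J + 1)) := by
    intro j
    have h := (S.rep_Kpow hK n j).conj.mul (S.rep_Kpow hK n j)
    have h' := (h.weaken (K1' := 2 * (n * K1)) (K2' := 2 * (n * K2)) subset_rfl (by omega)
      (by omega)).congr (φ' := fun ξ => ((‖S.Kpow K n ξ j‖ ^ 2 : ℝ) : ℂ))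
      (fun ξ => by rw [Complex.conj_mul']; push_cast; rfl)
    have h1 := S.rep_transfer h' J a Y
    rw [← sq] at h1
    have h2 : (∑ y ∈ Ioc a (a + Y), ((‖S.Kpow K n (y : S.G) j‖ ^ 2 : ℝ) : ℂ)
        - (Y : ℂ) * ((Fintype.card S.G : ℂ)⁻¹ * ∑ ξ, ((‖S.Kpow K n ξ j‖ ^ 2 : ℝ) : ℂ)))
        = ((∑ y ∈ Ioc a (a + Y), ‖S.Kpow K n (y : S.G) j‖ ^ 2
          - Y * ((Fintype.card S.G : ℝ)⁻¹ * ∑ ξ, ‖S.Kpow K n ξ j‖ ^ 2) : ℝ) : ℂ) := by
      push_cast; rfl
    rw [h2, Complex.norm_real, Real.norm_eq_abs] at h1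
    have h3 := (abs_le.1 h1).2
    linarith only [h3]
  simp only [Psi]
  rw [sum_comm, sum_comm (s := univ)]
  refine (sum_le_sum fun j _ => key j).trans (le_of_eq ?_)
  rw [sum_add_distrib, sum_const, nsmul_eq_mul, card_Icc_R, ← mul_sum, ← mul_sum]
  push_cast
  ring

end Sys

end Pool.Agent.Work.MP_678620_nt
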