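import Pool.Agent.Work.MP_678620_nt.SPFour
import Pool.Agent.Work.MP_678620_nt.SPJav

/-! The multiplier of the major arc kernel. -/

set_option autoImplicit false
open Finset Pool.Agent.Lib.LargeSieve

namespace Pool.Agent.Work.MP_678620_nt

/-- The Fejer kernel. -/
noncomputable def kerFej (H : ℕ) (x : ℝ) : ℝ := ‖(H : ℂ)⁻¹ * ∑ i ∈ range H, ee (i * x)‖ ^ 2

lemma ker_fiber_card (H : ℕ) {j : ℤ} (hj : j ∈ Ioo (-(H : ℤ)) H) :
    (((range H ×ˢ range H).filter fun p : ℕ × ℕ => (p.1 : ℤ) - p.2 = j).card : ℝ)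
      = H - |(j : ℝ)| := by
  rw [mem_Ioo] at hj
  have h1 : ((range H ×ˢ range H).filter fun p : ℕ × ℕ => (p.1 : ℤ) - p.2 = j).card
      = (range (H - j.natAbs)).card := by
    symm
    refine card_nbij' (fun k => (k + j.toNat, k + (-j).toNat)) (fun p => min p.1 p.2) ?_ ?_ ?_ ?_
    · intro k hk
      simp only [coe_range, Set.mem_Iio] at hk
      simp only [coe_filter, mem_product, mem_range, Set.mem_ofPred_eq]
      omega
    · intro p hp
      simp only [coe_filter, mem_product, mem_range, Set.mem_ofPred_eq] at hp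
      simp only [coe_range, Set.mem_Iio]
      omega
    · intro k hk
      simp only
      omega
    · intro p hp
      simp only [coe_filter, mem_product, mem_range, Set.mem_ofPred_eq] at hp
      ext <;> simp only <;> omega
  rw [h1, card_range, Nat.cast_sub (by omega)]
  congr 1
  rw [← Int.cast_abs, ← Int.natCast_natAbs, Int.cast_natCast]

lemma ker_fejer (H : ℕ) (x : ℝ) :
    ∑ j ∈ Ioo (-(H : ℤ)) H, ee (x * j) * (((((H : ℝ) - |(j : ℝ)|) / (H : ℝ) ^ 2 : ℝ)) : ℂ)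
      = (kerFej H x : ℂ) := by
  have h1 : (kerFej H x : ℂ) = ((H : ℂ) ^ 2)⁻¹ *
      ∑ p ∈ range H ×ˢ range H, ee (x * (((p.1 : ℤ) - p.2 : ℤ) : ℝ)) := by
    unfold kerFej
    rw [norm_mul, mul_pow, norm_inv, Complex.norm_natCast]
    push_cast
    rw [inv_pow]
    congr 1
    rw [← Complex.ofReal_pow, ← Complex.normSq_eq_norm_sq, ← Complex.mul_conj, map_sum,
      sum_mul_sum, sum_product]
    refine sum_congr rfl fun i _ => sum_congr rfl fun i' _ => ?_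
    rw [conj_ee, ← ee_add]
    congr 1
    ring
  rw [h1, ← sum_fiberwise_of_maps_to (t := Ioo (-(H : ℤ)) H)
    (g := fun p : ℕ × ℕ => (p.1 : ℤ) - p.2), mul_sum]
  · refine sum_congr rfl fun j hj => ?_
    rw [sum_congr rfl (g := fun _ => ee (x * j)), sum_const, nsmul_eq_mul]
    · rw [← ker_fiber_card H hj]
      push_cast
      ring
    · intro p hp
      rw [(mem_filter.mp hp).2]
  · intro p hp
    simp only [mem_product, mem_range] at hp
    rw [mem_Ioo]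
    omega

lemma kerFej_nonneg (H : ℕ) (x : ℝ) : 0 ≤ kerFej H x := sq_nonneg _

lemma kerFej_le_one (H : ℕ) (x : ℝ) : kerFej H x ≤ 1 := by
  unfold kerFej
  have h1 : ‖(H : ℂ)⁻¹ * ∑ i ∈ range H, ee (i * x)‖ ≤ 1 := by
    rw [norm_mul, norm_inv, Complex.norm_natCast]
    have := norm_sum_ee_le_card H x
    rcases Nat.eq_zero_or_pos H with rfl | hH
    · simp
    · have hH' : (0 : ℝ) < H := by exact_mod_cast hH
      rw [inv_mul_le_iff₀ hH']
      linarith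
  exact pow_le_one₀ (norm_nonneg _) h1

lemma kerFej_le_far (H : ℕ) {x c : ℝ} (hc : 0 < c) (hx : 1 / (2 * c) ≤ dZ x) :
    kerFej H x ≤ (c / H) ^ 2 := by
  unfold kerFej
  have h0 : 0 < dZ x := lt_of_lt_of_le (by positivity) hx
  have h1 := norm_sum_ee_le H x h0
  have h2 : 1 / (2 * dZ x) ≤ c := by
    rw [div_le_iff₀ (by positivity)] at hx ⊢
    linarith
  refine pow_le_pow_left₀ (norm_nonneg _) ?_ 2
  rw [norm_mul, norm_inv, Complex.norm_natCast, div_eq_inv_mul]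
  exact mul_le_mul_of_nonneg_left (h1.trans h2) (by positivity)

lemma ker_norm_ee_sub_one (x : ℝ) : ‖ee x - 1‖ ≤ 2 * Real.pi * |x| := by
  unfold ee
  refine (Real.norm_exp_I_mul_ofReal_sub_one_le (x := 2 * Real.pi * x)).trans (le_of_eq ?_)
  rw [Real.norm_eq_abs, abs_mul, abs_of_pos (by positivity : (0 : ℝ) < 2 * Real.pi)]

lemma kerFej_ge_near {H : ℕ} (hH : 0 < H) {x c : ℝ} (t : ℤ) (hx : |x - t| * H ≤ c) :
    1 - 13 * c ≤ kerFej H x := by
  have hH' : (0 : ℝ) < H := by exact_mod_cast hH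
  have hc : 0 ≤ c := le_trans (by positivity) hx
  have h1 : ‖(H : ℂ)⁻¹ * ∑ i ∈ range H, ee (i * x) - 1‖ ≤ 2 * Real.pi * c := by
    have e : (H : ℂ)⁻¹ * ∑ i ∈ range H, ee (i * x) - 1
        = (H : ℂ)⁻¹ * ∑ i ∈ range H, (ee (i * x) - 1) := by
      have : (H : ℂ) ≠ 0 := by exact_mod_cast hH.ne'
      rw [sum_sub_distrib, sum_const, card_range, nsmul_eq_mul, mul_one, mul_sub,
        inv_mul_cancel₀ this]
    rw [e, norm_mul, norm_inv, Complex.norm_natCast, inv_mul_le_iff₀ hH']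
    refine (norm_sum_le _ _).trans ?_
    have h2 : ∀ i ∈ range H, ‖ee (i * x) - 1‖ ≤ 2 * Real.pi * c := by
      intro i hi
      have hi' : (i : ℝ) ≤ H := by exact_mod_cast (mem_range.mp hi).le
      have e2 : ee (i * x) = ee (i * (x - t)) := by
        rw [← ee_add_int (i * (x - t)) (i * t)]
        congr 1
        push_cast
        ring
      rw [e2]
      refine (ker_norm_ee_sub_one _).trans ?_
      refine mul_le_mul_of_nonneg_left ?_ (by positivity)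
      rw [abs_mul, Nat.abs_cast]
      calc (i : ℝ) * |x - t| ≤ H * |x - t| := by gcongr
        _ ≤ c := by linarith only [hx]
    refine (sum_le_sum h2).trans (le_of_eq ?_)
    rw [sum_const, card_range, nsmul_eq_mul]
  unfold kerFej
  set z := (H : ℂ)⁻¹ * ∑ i ∈ range H, ee (i * x)
  have h3 : 1 - 2 * Real.pi * c ≤ ‖z‖ := by
    have := norm_sub_norm_le (1 : ℂ) z
    rw [norm_one, norm_sub_rev] at this
    linarith
  have h4 : Real.pi * c ≤ 3.15 * c := mul_le_mul_of_nonneg_right Real.pi_lt_d2.le hc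
  nlinarith only [hc, h3, h4, sq_nonneg (‖z‖ - 1)]

lemma ker_dZ_sub_le (x y : ℝ) : dZ (x - y) ≤ dZ x + dZ y := by
  refine (dZ_le _ (round x - round y)).trans ?_
  have e : x - y - ((round x - round y : ℤ) : ℝ) = (x - round x) - (y - round y) := by
    push_cast; ring
  rw [e]
  exact abs_sub _ _

namespace Sys

variable {ι : Type} [Fintype ι] [DecidableEq ι] (S : Sys ι)

lemma ker_mem_FF {θ : ℚ} (hθ : θ ∈ S.FF) : 0 ≤ θ ∧ θ < 1 := by
  unfold FF at hθ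
  simp only [mem_image, mem_filter, mem_product, mem_Icc, mem_range] at hθ
  obtain ⟨x, ⟨⟨⟨h1, _⟩, _⟩, h2⟩, rfl⟩ := hθ
  have h3 : (0 : ℚ) < x.1 := by exact_mod_cast h1
  refine ⟨by positivity, ?_⟩
  rw [div_lt_one h3]
  exact_mod_cast h2

lemma ker_FF_spaced {θ θ' : ℚ} (hθ : θ ∈ S.FF) (hθ' : θ' ∈ S.FF) (hne : θ ≠ θ') :
    1 / (S.Q : ℝ) ^ 2 ≤ dZ ((θ : ℝ) - θ') := by
  have key : ∀ φ ∈ S.FF, φ.den ∈ Icc 1 S.Q ∧ φ.num.toNat < φ.den ∧
      Nat.Coprime φ.num.toNat φ.den ∧ φ = (φ.num.toNat : ℚ) / φ.den := by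
    intro φ hφ
    obtain ⟨h0, h1⟩ := S.ker_mem_FF hφ
    have hn : 0 ≤ φ.num := Rat.num_nonneg.mpr h0
    have hlt : φ.num < φ.den := Rat.num_lt_denom_iff.mpr h1
    have e : φ.num.toNat = φ.num.natAbs := by omega
    refine ⟨mem_Icc.mpr ⟨φ.pos, S.den_le hφ⟩, by omega, by rw [e]; exact φ.reduced, ?_⟩
    have : ((φ.num.toNat : ℕ) : ℚ) = (φ.num : ℚ) := by
      rw [← Int.cast_natCast, Int.toNat_of_nonneg hn]
    rw [this, Rat.num_div_den]
  obtain ⟨a1, a2, a3, a4⟩ := key θ hθ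
  obtain ⟨b1, b2, b3, b4⟩ := key θ' hθ'
  have hne' : (θ.den, θ.num.toNat) ≠ (θ'.den, θ'.num.toNat) := by
    intro h
    apply hne
    rw [a4, b4, (Prod.mk.inj h).1, (Prod.mk.inj h).2]
  have h := farey_spaced a1 b1 a2 b2 a3 b3 hne'
  have e1 : (θ : ℝ) = (θ.num.toNat : ℝ) / θ.den := by
    have := congrArg (Rat.cast : ℚ → ℝ) a4
    rwa [Rat.cast_div, Rat.cast_natCast, Rat.cast_natCast] at this
  have e2 : (θ' : ℝ) = (θ'.num.toNat : ℝ) / θ'.den := by
    have := congrArg (Rat.cast : ℚ → ℝ) b4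
    rwa [Rat.cast_div, Rat.cast_natCast, Rat.cast_natCast] at this
  rw [e1, e2]
  exact_mod_cast h

lemma ker_upper {H : ℕ} (hH : S.H0 ≤ H) (b : ℝ) :
    ∑ θ ∈ S.FF, kerFej H (θ + b) ≤ 1 + 1 / S.Q := by
  classical
  have hQ : (2 : ℝ) ≤ S.Q := by exact_mod_cast S.Q_ge
  have hQ4 : (S.Q : ℝ) ^ 4 ≤ H := by
    have := S.mono_le_H0 (a := 0) (b := 0) (c := 4) (d := 0) (by norm_num) (by norm_num)
      (by norm_num) (by norm_num)
    simp only [pow_zero, one_mul, mul_one] at this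
    exact this.trans hH
  have hH0 : (0 : ℝ) < H := lt_of_lt_of_le (by positivity) hQ4
  rw [← sum_filter_add_sum_filter_not S.FF fun θ => dZ (θ + b) < 1 / (2 * (S.Q : ℝ) ^ 2)]
  refine add_le_add ?_ ?_
  · have hc : (S.FF.filter fun θ : ℚ => dZ (θ + b) < 1 / (2 * (S.Q : ℝ) ^ 2)).card ≤ 1 := by
      rw [card_le_one]
      intro θ hθ θ' hθ'
      by_contra hne
      obtain ⟨a1, a2⟩ := mem_filter.mp hθ
      obtain ⟨b1, b2⟩ := mem_filter.mp hθ'
      have h1 := S.ker_FF_spaced a1 b1 hne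
      have h2 := ker_dZ_sub_le (θ + b) (θ' + b)
      have e : (θ : ℝ) + b - (θ' + b) = θ - θ' := by ring
      rw [e] at h2
      have e2 : 1 / (S.Q : ℝ) ^ 2 = 1 / (2 * (S.Q : ℝ) ^ 2) + 1 / (2 * (S.Q : ℝ) ^ 2) := by
        field_simp; norm_num
      linarith only [a2, b2, h1, h2, e2]
    refine (sum_le_card_nsmul _ _ 1 fun θ _ => kerFej_le_one _ _).trans ?_
    rw [nsmul_eq_mul, mul_one]
    exact_mod_cast hc
  · have h1 : ∀ θ ∈ S.FF.filter fun θ : ℚ => ¬ dZ (θ + b) < 1 / (2 * (S.Q : ℝ) ^ 2),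
        kerFej H (θ + b) ≤ ((S.Q : ℝ) ^ 2 / H) ^ 2 := fun θ hθ =>
      kerFej_le_far H (by positivity) (not_lt.mp (mem_filter.mp hθ).2)
    refine (sum_le_card_nsmul _ _ _ h1).trans ?_
    rw [nsmul_eq_mul]
    have h2 : ((S.FF.filter fun θ : ℚ => ¬ dZ (θ + b) < 1 / (2 * (S.Q : ℝ) ^ 2)).card : ℝ)
        ≤ (S.Q : ℝ) ^ 2 := by
      exact_mod_cast (card_filter_le _ _).trans S.card_FF_le
    have h3 : (S.Q : ℝ) ^ 2 / H ≤ 1 / (S.Q : ℝ) ^ 2 := by
      rw [div_le_div_iff₀ hH0 (by positivity)]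
      nlinarith only [hQ4]
    calc _ ≤ (S.Q : ℝ) ^ 2 * (1 / (S.Q : ℝ) ^ 2) ^ 2 := by gcongr
      _ = 1 / (S.Q : ℝ) ^ 2 := by field_simp
      _ ≤ 1 / S.Q := by
        refine one_div_le_one_div_of_le (by positivity) ?_
        nlinarith only [hQ]

lemma ker_lower {a : Finset ι} (hH : 0 < S.Hk a) {α : ℝ} (hα : ¬ S.Minor a α) :
    1 - 13 / S.Q ≤ ∑ θ ∈ S.FF, kerFej (S.Hk a) (θ + α * S.jp a) := by
  unfold Minor at hα
  push Not at hα
  obtain ⟨q, hq1, hqQ, hq⟩ := hα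
  set b := α * S.jp a with hb
  set n : ℤ := -round (b * q) with hn
  have hq0 : (0 : ℤ) < q := by exact_mod_cast hq1
  have hm0 : 0 ≤ n % q := Int.emod_nonneg _ hq0.ne'
  have hm1 : n % q < q := Int.emod_lt_of_pos _ hq0
  have hmem : (((n % q).toNat : ℚ) / q) ∈ S.FF := by
    unfold FF
    refine mem_image.mpr ⟨(q, (n % q).toNat), ?_, rfl⟩
    simp only [mem_filter, mem_product, mem_Icc, mem_range]
    omega
  refine le_trans ?_ (single_le_sum (f := fun θ : ℚ => kerFej (S.Hk a) (θ + b))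
    (fun θ _ => kerFej_nonneg _ _) hmem)
  have hQ : (2 : ℝ) ≤ S.Q := by exact_mod_cast S.Q_ge
  have hqr : (1 : ℝ) ≤ q := by exact_mod_cast hq1
  have hT : (0 : ℝ) < S.T := by exact_mod_cast S.T_pos
  have hmul : (S.pr a : ℝ) * (S.Q : ℝ) ^ 2 * S.Hk a ≤ S.T := by exact_mod_cast S.Hk_mul_le a
  have h := kerFej_ge_near hH (x := ((((n % q).toNat : ℚ) / q : ℚ) : ℝ) + b) (c := 1 / S.Q)
    (-(n / q)) ?_
  · simpa [div_eq_mul_inv] using h
  · have e0 : (((n % q).toNat : ℕ) : ℝ) = n - q * ((n / q : ℤ) : ℝ) := by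
      rw [← Int.cast_natCast, Int.toNat_of_nonneg hm0, Int.emod_def]
      push_cast
      ring
    have e : ((((n % q).toNat : ℚ) / q : ℚ) : ℝ) + b - ((-(n / q) : ℤ) : ℝ)
        = (b * q - round (b * q)) / q := by
      have : (n : ℝ) = -(round (b * q) : ℝ) := by rw [hn]; push_cast; ring
      rw [Rat.cast_div, Rat.cast_natCast, Rat.cast_natCast, e0, Int.cast_neg (n / q), this]
      field_simp
      ring
    rw [e, abs_div, Nat.abs_cast]
    have h1 : |b * q - round (b * q)| / q ≤ S.Q * S.pr a / S.T :=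
      (div_le_self (abs_nonneg _) hqr).trans hq
    calc _ ≤ (S.Q : ℝ) * S.pr a / S.T * S.Hk a := by gcongr
      _ ≤ 1 / S.Q := by
        rw [div_mul_eq_mul_div, div_le_div_iff₀ hT (by positivity)]
        nlinarith only [hmul]

lemma ker_fh_Ka (a : Finset ι) (w : S.G → ℂ) (ψ : AddChar S.G ℂ) :
    S.fh (S.Ka a w) ψ
      = ((∑ θ ∈ S.FF, kerFej (S.Hk a) (θ + S.al ψ * S.jp a) : ℝ) : ℂ) * S.fh w ψ := by
  have h := S.fh_sum (S.JJ a) (S.kap a) (fun j ξ => w (ξ + ((S.jp a * j : ℤ) : S.G))) ψ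
  have e : S.Ka a w = fun ξ => ∑ j ∈ S.JJ a, S.kap a j * w (ξ + ((S.jp a * j : ℤ) : S.G)) := rfl
  rw [e, h]
  simp_rw [S.fh_tr, S.al_spec, ← mul_assoc]
  rw [← sum_mul]
  congr 1
  unfold kap
  simp_rw [sum_mul]
  rw [sum_comm, Complex.ofReal_sum]
  refine sum_congr rfl fun θ _ => ?_
  rw [← ker_fejer]
  refine sum_congr rfl fun j _ => ?_
  rw [mul_right_comm, ← ee_add]
  congr 2
  push_cast
  ring

theorem ip_sub_Ka {r : ℕ} (hr : 2 ≤ r) {a v : Finset ι} (hv : v ∈ S.VV r a) (u w : S.G → ℂ) :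
    ‖S.ip u w - S.ip u (S.Ka a w)‖ ≤ 20 / S.Q * (√(S.nn u) * √(S.nn w))
      + √(S.nn (S.Pa a u)) * √(S.nn (S.Pa a w)) := by
  classical
  have hH := S.H0_le_Hk hr hv
  have hH0 : 0 < S.Hk a := by
    have h1 := S.H0_big
    have h2 : (0 : ℝ) < S.Hk a := lt_of_lt_of_le (by positivity) (h1.trans hH)
    exact_mod_cast h2
  have hQ : (2 : ℝ) ≤ S.Q := by exact_mod_cast S.Q_ge
  have hc : (0 : ℝ) < Fintype.card S.G := by exact_mod_cast Fintype.card_pos
  have hpt : ∀ ψ : AddChar S.G ℂ,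
      ‖(starRingEnd ℂ) (S.fh u ψ) * S.fh w ψ - (starRingEnd ℂ) (S.fh u ψ) * S.fh (S.Ka a w) ψ‖
        ≤ 20 / S.Q * (‖S.fh u ψ‖ * ‖S.fh w ψ‖)
          + ‖S.fh (S.Pa a u) ψ‖ * ‖S.fh (S.Pa a w) ψ‖ := by
    intro ψ
    rw [S.ker_fh_Ka]
    set μ := ∑ θ ∈ S.FF, kerFej (S.Hk a) (θ + S.al ψ * S.jp a) with hμ
    have e : (starRingEnd ℂ) (S.fh u ψ) * S.fh w ψ - (starRingEnd ℂ) (S.fh u ψ) * (μ * S.fh w ψ)
        = ((1 - μ : ℝ) : ℂ) * ((starRingEnd ℂ) (S.fh u ψ) * S.fh w ψ) := by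
      push_cast; ring
    rw [e, norm_mul, norm_mul, Complex.norm_conj, Complex.norm_real, Real.norm_eq_abs]
    have hup : μ ≤ 1 + 1 / S.Q := S.ker_upper hH _
    have h0 : 0 ≤ μ := sum_nonneg fun θ _ => kerFej_nonneg _ _
    have hq : (0 : ℝ) < 1 / S.Q := by positivity
    have e20 : (20 : ℝ) / S.Q = 20 * (1 / S.Q) := by ring
    have hp : 0 ≤ ‖S.fh u ψ‖ * ‖S.fh w ψ‖ := by positivity
    unfold Pa
    rw [S.fh_proj, S.fh_proj]
    by_cases hm : S.Minor a (S.al ψ)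
    · rw [if_pos hm, if_pos hm]
      have : |1 - μ| ≤ 20 / S.Q + 1 := by
        rw [abs_le]; constructor <;> linarith only [hup, hq, e20, h0]
      nlinarith only [hp, this]
    · rw [if_neg hm, if_neg hm, norm_zero, mul_zero, add_zero]
      have hlo : 1 - 13 / S.Q ≤ μ := S.ker_lower hH0 hm
      have e13 : (13 : ℝ) / S.Q = 13 * (1 / S.Q) := by ring
      have : |1 - μ| ≤ 20 / S.Q := by
        rw [abs_le]; constructor <;> linarith only [hup, hq, e20, hlo, e13]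
      exact mul_le_mul_of_nonneg_right this hp
  have hcs : ∀ f g : S.G → ℂ, ∑ ψ : AddChar S.G ℂ, ‖S.fh f ψ‖ * ‖S.fh g ψ‖
      ≤ Fintype.card S.G * (√(S.nn f) * √(S.nn g)) := by
    intro f g
    refine (Real.sum_mul_le_sqrt_mul_sqrt _ _ _).trans (le_of_eq ?_)
    rw [← S.parseval, ← S.parseval, Real.sqrt_mul hc.le, Real.sqrt_mul hc.le]
    have := Real.mul_self_sqrt hc.le
    calc _ = (√(Fintype.card S.G : ℝ) * √(Fintype.card S.G : ℝ)) * (√(S.nn f) * √(S.nn g)) := by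
          ring
      _ = _ := by rw [this]
  refine le_of_mul_le_mul_left ?_ hc
  have e : (Fintype.card S.G : ℝ) * ‖S.ip u w - S.ip u (S.Ka a w)‖
      = ‖(Fintype.card S.G : ℂ) * S.ip u w - (Fintype.card S.G : ℂ) * S.ip u (S.Ka a w)‖ := by
    rw [← mul_sub, norm_mul, Complex.norm_natCast]
  rw [e, S.parseval_ip, S.parseval_ip, ← sum_sub_distrib]
  refine (norm_sum_le _ _).trans ((sum_le_sum fun ψ _ => hpt ψ).trans ?_)
  rw [sum_add_distrib, ← mul_sum, mul_add]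
  refine add_le_add ?_ (hcs _ _)
  rw [mul_left_comm]
  exact mul_le_mul_of_nonneg_left (hcs _ _) (by positivity)

end Sys

end Pool.Agent.Work.MP_678620_nt
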