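import Pool.Agent.Work.MP_678620_nt.SPLemA

/-! The decoupling inequality. -/

set_option autoImplicit false
open Finset Pool.Agent.Lib.LargeSieve

namespace Pool.Agent.Work.MP_678620_nt

namespace Sys

variable {ι : Type} [Fintype ι] [DecidableEq ι] (S : Sys ι)

/-- The law of the zero set inside `A`. -/
noncomputable def LemB_W (A z : Finset ι) : ℝ := (∏ p ∈ z, S.nu p) * ∏ p ∈ A \ z, (1 - S.nu p)

lemma LemB_nonneg (A z : Finset ι) : 0 ≤ S.LemB_W A z :=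
  mul_nonneg (prod_nonneg fun p _ => (S.nu_pos p).le) (prod_nonneg fun p _ =>
    sub_nonneg.2 (inv_le_one_of_one_le₀ (Nat.one_le_cast.2 (S.m_pos p))))

lemma LemB_rec {p : ι} {A : Finset ι} (hp : p ∉ A) (F : Finset ι → ℝ) :
    ∑ z ∈ (insert p A).powerset, S.LemB_W (insert p A) z * F z =
      ∑ z ∈ A.powerset, S.LemB_W A z * ((1 - S.nu p) * F z + S.nu p * F (insert p z)) := by
  rw [sum_powerset_insert hp, ← sum_add_distrib]
  refine sum_congr rfl fun z hz => ?_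
  have h1 : p ∉ z := fun h => hp (mem_powerset.1 hz h)
  simp only [LemB_W]
  rw [insert_sdiff_of_notMem _ h1, prod_insert fun h => hp (mem_sdiff.1 h).1, prod_insert h1,
    insert_sdiff_insert, sdiff_insert_of_notMem hp]
  ring

lemma LemB_rs (p : ι) (z : Finset ι) (ξ : S.G) :
    S.rs (insert p z) ξ = S.rs {p} (S.rs z ξ) := by
  funext i
  by_cases h : i = p <;> simp [rs, h]

lemma LemB_sum {A : Finset ι} (hA : A ⊆ S.E) : ∀ Ψ : S.G → ℝ, (∀ ξ, 0 ≤ Ψ ξ) →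
    ∑ z ∈ A.powerset, S.LemB_W A z *
      ∑ ξ : S.G, (if ∀ q ∈ A, ξ q ≠ 0 then Ψ (S.rs z ξ) else 0) ≤ ∑ ξ, Ψ ξ := by
  induction A using Finset.induction_on with
  | empty =>
    intro Ψ _
    have h : ∀ ξ, S.rs ∅ ξ = ξ := fun ξ => funext fun i => by simp [rs]
    simp [LemB_W, h]
  | insert p A hp ih =>
    intro Ψ hΨ
    have hE := hA (mem_insert_self p A)
    have h0 := (S.nu_pos p).le
    have h1 : S.nu p ≤ 1 := inv_le_one_of_one_le₀ (Nat.one_le_cast.2 (S.m_pos p))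
    rw [S.LemB_rec hp]
    refine le_trans (le_of_eq (sum_congr rfl fun z hz => ?_)) ((ih ((subset_insert p A).trans hA)
      (fun η => if η p ≠ 0 then (1 - S.nu p) * Ψ η + S.nu p * Ψ (S.rs {p} η) else 0)
      fun η => ?_).trans ?_)
    · have h2 : p ∉ z := fun h => hp (mem_powerset.1 hz h)
      rw [mul_sum, mul_sum, ← sum_add_distrib]
      refine congrArg _ (sum_congr rfl fun ξ _ => ?_)
      have h3 : S.rs z ξ p = ξ p := if_neg h2
      simp only [forall_mem_insert, LemB_rs, h3]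
      by_cases h5 : ∀ q ∈ A, ξ q ≠ 0
      · by_cases h4 : ξ p ≠ 0
        · rw [if_pos ⟨h4, h5⟩, if_pos ⟨h4, h5⟩, if_pos h5, if_pos h4]
        · simp [h4]
      · simp [h5]
    · split_ifs
      exacts [add_nonneg (mul_nonneg (sub_nonneg.2 h1) (hΨ _)) (mul_nonneg h0 (hΨ _)), le_rfl]
    · have h2 : ∑ η, S.nu p * Ψ (S.rs {p} η) = ∑ η : S.G, if η p = 0 then Ψ η else 0 := by
        rw [← mul_sum, S.sum_rs (singleton_subset_iff.2 hE), nsmul_eq_mul, pr, prod_singleton, nu,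
          inv_mul_cancel_left₀ (Nat.cast_ne_zero.2 (S.m_pos p).ne')]
        simp [mem_Zs, hE]
      calc _ ≤ ∑ η : S.G, ((if η p = 0 then 0 else Ψ η) + S.nu p * Ψ (S.rs {p} η)) := by
            refine sum_le_sum fun η _ => ?_
            have h3 := mul_nonneg h0 (hΨ η)
            have h4 := mul_nonneg h0 (hΨ (S.rs {p} η))
            by_cases h : η p = 0 <;> simp only [h, ne_eq, not_true, not_false_iff, if_true,
              if_false] <;> linarith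
        _ = _ := by
            rw [sum_add_distrib, h2, ← sum_add_distrib]
            exact sum_congr rfl fun η _ => by split_ifs <;> simp

lemma LemB_sum' {A : Finset ι} (hA : A ⊆ S.E) {Ψ : S.G → ℝ} (hΨ : ∀ ξ, 0 ≤ Ψ ξ) :
    ∑ z ∈ A.powerset, S.LemB_W A z * ∑ ξ ∈ S.Gx, Ψ (S.rs z ξ) ≤ ∑ ξ, Ψ ξ := by
  refine le_trans (sum_le_sum fun z _ => mul_le_mul_of_nonneg_left ?_ (S.LemB_nonneg A z))
    (S.LemB_sum hA Ψ hΨ)
  rw [← sum_filter]
  exact sum_le_sum_of_subset_of_nonneg (monotone_filter_right _ fun ξ _ h q hq => h q (hA hq))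
    fun ξ _ _ => hΨ _

lemma LemB_ind (Φ : S.G → ℂ) {A : Finset ι} (hA : A ⊆ S.E) :
    ∑ z ∈ A.powerset, S.LemB_W A z * ∑ ξ ∈ S.Gx, ‖Φ (S.rs z ξ) - Φ ξ‖ ^ 2 ≤
      2 * Real.exp (∑ p ∈ A, S.nu p) *
        ∑ p ∈ A, S.nu p * S.nn fun ξ => Φ (S.rs {p} ξ) - Φ ξ := by
  induction A using Finset.induction_on with
  | empty =>
    have h : ∀ ξ, S.rs ∅ ξ = ξ := fun ξ => funext fun i => by simp [rs]
    simp [h]
  | insert p A hp ih =>
    have hA' := (subset_insert p A).trans hA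
    have h0 := (S.nu_pos p).le
    have h1 := S.LemB_sum' hA' (Ψ := fun ξ => ‖Φ (S.rs {p} ξ) - Φ ξ‖ ^ 2) fun _ => sq_nonneg _
    have h2 := ih hA'
    rw [S.LemB_rec hp, sum_insert hp, sum_insert hp, Real.exp_add]
    have h3 : ∀ z ∈ A.powerset, S.LemB_W A z *
        ((1 - S.nu p) * ∑ ξ ∈ S.Gx, ‖Φ (S.rs z ξ) - Φ ξ‖ ^ 2 +
          S.nu p * ∑ ξ ∈ S.Gx, ‖Φ (S.rs (insert p z) ξ) - Φ ξ‖ ^ 2) ≤
        (1 + S.nu p) * (S.LemB_W A z * ∑ ξ ∈ S.Gx, ‖Φ (S.rs z ξ) - Φ ξ‖ ^ 2) + 2 * S.nu p *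
          (S.LemB_W A z * ∑ ξ ∈ S.Gx, ‖Φ (S.rs {p} (S.rs z ξ)) - Φ (S.rs z ξ)‖ ^ 2) := by
      intro z _
      have h4 : ∑ ξ ∈ S.Gx, ‖Φ (S.rs (insert p z) ξ) - Φ ξ‖ ^ 2 ≤
          2 * ∑ ξ ∈ S.Gx, ‖Φ (S.rs {p} (S.rs z ξ)) - Φ (S.rs z ξ)‖ ^ 2 +
            2 * ∑ ξ ∈ S.Gx, ‖Φ (S.rs z ξ) - Φ ξ‖ ^ 2 := by
        rw [mul_sum, mul_sum, ← sum_add_distrib]
        refine sum_le_sum fun ξ _ => le_trans (le_of_eq ?_) (norm_add_sq_le _ _)
        rw [LemB_rs, sub_add_sub_cancel]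
      linarith [mul_le_mul_of_nonneg_left h4 (mul_nonneg (S.LemB_nonneg A z) h0)]
    refine (sum_le_sum h3).trans ?_
    rw [sum_add_distrib, ← mul_sum, ← mul_sum]
    have h5 : 1 + S.nu p ≤ Real.exp (S.nu p) := by linarith [Real.add_one_le_exp (S.nu p)]
    have h6 : 1 ≤ Real.exp (S.nu p) * Real.exp (∑ q ∈ A, S.nu q) :=
      one_le_mul_of_one_le_of_one_le (Real.one_le_exp h0)
        (Real.one_le_exp (sum_nonneg fun q _ => (S.nu_pos q).le))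
    have h7 := mul_le_mul h5 h2 (sum_nonneg fun z _ => mul_nonneg (S.LemB_nonneg A z)
      (sum_nonneg fun _ _ => sq_nonneg _)) (Real.exp_pos _).le
    have h8 := mul_le_mul_of_nonneg_left h1 h0
    have h9 := mul_le_mul_of_nonneg_right h6
      (mul_nonneg h0 (S.nn_nonneg fun ξ => Φ (S.rs {p} ξ) - Φ ξ))
    simp only [nn] at h7 h9 ⊢
    linarith

theorem lemB (Φ : S.G → ℂ) : S.dev Φ ≤ 2 * S.Λ ^ 3 * S.devB Φ := by
  have h0 : 0 ≤ S.devB Φ := sum_nonneg fun p _ => mul_nonneg (S.nu_pos p).le (S.nn_nonneg _)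
  have h1 := (S.LemB_ind Φ subset_rfl).trans
    (mul_le_mul_of_nonneg_right (mul_le_mul_of_nonneg_left S.exp_L zero_le_two) h0)
  refine (mul_le_mul S.vp_inv_le h1 (sum_nonneg fun z _ => mul_nonneg (S.Pz_nonneg z)
    (sum_nonneg fun _ _ => sq_nonneg _)) (sq_nonneg _)).trans_eq ?_
  unfold devB
  ring

lemma dev_nonneg (Φ : S.G → ℂ) : 0 ≤ S.dev Φ :=
  mul_nonneg (inv_nonneg.2 S.vp_pos.le) (sum_nonneg fun z _ => mul_nonneg (S.Pz_nonneg z)
    (sum_nonneg fun _ _ => sq_nonneg _))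

lemma Err_nonneg (f : S.G → ℂ) : 0 ≤ S.Err f :=
  sum_nonneg fun d _ => mul_nonneg (S.iv_pos d).le (S.dev_nonneg _)

theorem Err_le {f : S.G → ℂ} (hf : S.Supp f) : S.Err f ≤ 16 * S.Λ ^ 3 * S.inf f := by
  have h0 : 0 ≤ 2 * S.Λ ^ 3 := by have := S.big; positivity
  calc S.Err f ≤ ∑ d ∈ S.DD, 2 * S.Λ ^ 3 * (S.iv d * S.devB (S.Fd d f)) :=
        sum_le_sum fun d _ => by
          linarith [mul_le_mul_of_nonneg_left (S.lemB (S.Fd d f)) (S.iv_pos d).le]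
    _ ≤ 2 * S.Λ ^ 3 * (8 * S.inf f) := by
        rw [← mul_sum]
        exact mul_le_mul_of_nonneg_left (S.lemA hf) h0
    _ = _ := by ring

end Sys

end Pool.Agent.Work.MP_678620_nt
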