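import Pool.Agent.Work.MP_678620_nt.SPForm

/-! The positive form. -/

set_option autoImplicit false
open Finset Pool.Agent.Lib.LargeSieve

namespace Pool.Agent.Work.MP_678620_nt

namespace SPPosAux

/-- Grouping a double sum by the difference of the indices. -/
lemma fejer (H : ℕ) (Φ : ℤ → ℂ) :
    ∑ i ∈ range H, ∑ i' ∈ range H, Φ ((i' : ℤ) - i)
      = ∑ j ∈ Ioo (-(H : ℤ)) H, ((((H : ℝ) - |(j : ℝ)| : ℝ)) : ℂ) * Φ j := by
  have h1 : ∀ i ∈ range H, ∑ i' ∈ range H, Φ ((i' : ℤ) - i)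
      = ∑ j ∈ Ioo (-(H : ℤ)) H, if 0 ≤ (i : ℤ) + j ∧ (i : ℤ) + j < H then Φ j else 0 := by
    intro i hi
    rw [← sum_filter]
    have hi' := mem_range.1 hi
    refine sum_bij (fun i' _ => (i' : ℤ) - i) ?_ ?_ ?_ ?_
    · intro a ha
      have := mem_range.1 ha
      simp only [mem_filter, mem_Ioo]
      omega
    · intro a _ b _ h
      have h' : (a : ℤ) - i = (b : ℤ) - i := h
      omega
    · intro j hj
      simp only [mem_filter, mem_Ioo] at hj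
      refine ⟨((i : ℤ) + j).toNat, mem_range.2 (by omega), ?_⟩
      show ((((i : ℤ) + j).toNat : ℕ) : ℤ) - i = j
      omega
    · intro a _; rfl
  rw [sum_congr rfl h1, sum_comm]
  refine sum_congr rfl fun j hj => ?_
  rw [← sum_filter, sum_const, nsmul_eq_mul]
  congr 1
  have hj' := mem_Ioo.1 hj
  have h2 : ((range H).filter fun i : ℕ => 0 ≤ (i : ℤ) + j ∧ (i : ℤ) + j < H)
      = Ico (-j).toNat (H - j.toNat) := by
    ext i
    simp only [mem_filter, mem_range, mem_Ico]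
    omega
  rw [h2, Nat.card_Ico]
  have h3 : ((H - j.toNat - (-j).toNat : ℕ) : ℤ) = (H : ℤ) - |j| := by
    rcases abs_cases j with h | h <;> omega
  have h4 : ((H - j.toNat - (-j).toNat : ℕ) : ℝ) = (H : ℝ) - |(j : ℝ)| := by
    have := congrArg (fun z : ℤ => (z : ℝ)) h3
    simpa using this
  rw [← h4]
  simp

lemma conj_ee (x : ℝ) : (starRingEnd ℂ) (ee x) = ee (-x) := by
  unfold ee
  rw [← Complex.exp_conj]
  congr 1
  simp only [map_mul, Complex.conj_I, Complex.conj_ofReal]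
  push_cast
  ring

lemma normsq (z : ℂ) : ((‖z‖ ^ 2 : ℝ) : ℂ) = (starRingEnd ℂ) z * z := by
  rw [← Complex.normSq_eq_norm_sq, Complex.normSq_eq_conj_mul_self]

end SPPosAux

namespace Sys

variable {ι : Type} [Fintype ι] [DecidableEq ι] (S : Sys ι)

/-- The autocorrelation of `Ps`. -/
noncomputable def posA (r : ℕ) (a : Finset ι) (g : S.G → ℂ) (j : ℤ) : ℂ :=
  ∑ x : S.G, if a ⊆ S.Zs x then
    (starRingEnd ℂ) (S.Ps r a g x) * S.Ps r a g (x + ((S.jp a * j : ℤ) : S.G)) else 0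

lemma pos_sub_Zs (a : Finset ι) (j : ℤ) (x : S.G) :
    a ⊆ S.Zs (x + ((S.jp a * j : ℤ) : S.G)) ↔ a ⊆ S.Zs x :=
  S.sub_Zs_add (fun _ hp => S.jp_apply hp j) x

lemma pos_sum_St (r : ℕ) (a : Finset ι) (g : S.G → ℂ) :
    ∑ v ∈ S.VV r a, ∑ v' ∈ S.VV r a, S.St a v v' g g
      = ∑ j ∈ S.JJ a, S.kap a j * S.posA r a g j := by
  unfold St
  rw [sum_congr rfl fun v _ => sum_comm, sum_comm]
  refine sum_congr rfl fun j _ => ?_
  simp only [← mul_sum]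
  congr 1
  unfold posA
  rw [sum_congr rfl fun v _ => sum_comm, sum_comm]
  refine sum_congr rfl fun x _ => ?_
  by_cases ha : a ⊆ S.Zs x
  · rw [if_pos ha]
    unfold Ps
    rw [map_sum, sum_mul_sum]
    refine sum_congr rfl fun v _ => sum_congr rfl fun v' _ => ?_
    have ha' := (S.pos_sub_Zs a j x).2 ha
    simp only [union_subset_iff, ha, ha', true_and]
    by_cases h1 : v ⊆ S.Zs x <;> by_cases h2 : v' ⊆ S.Zs (x + ((S.jp a * j : ℤ) : S.G)) <;>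
      simp only [h1, h2, if_true, if_false, and_self, and_true, and_false, map_zero, zero_mul,
        mul_zero, false_and]
  · rw [if_neg ha]
    refine sum_eq_zero fun v _ => sum_eq_zero fun v' _ => if_neg fun h => ha ?_
    exact (union_subset_iff.1 h.1).1

lemma pos_shift (r : ℕ) (a : Finset ι) (g : S.G → ℂ) (i i' : ℤ) :
    (∑ x : S.G, if a ⊆ S.Zs x then
      (starRingEnd ℂ) (S.Ps r a g (x + ((S.jp a * i : ℤ) : S.G))) *
        S.Ps r a g (x + ((S.jp a * i' : ℤ) : S.G)) else 0) = S.posA r a g (i' - i) := by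
  unfold posA
  rw [← S.sum_add_right (fun x : S.G => if a ⊆ S.Zs x then
    (starRingEnd ℂ) (S.Ps r a g x) * S.Ps r a g (x + ((S.jp a * (i' - i) : ℤ) : S.G)) else 0)
    ((S.jp a * i : ℤ) : S.G)]
  refine sum_congr rfl fun x _ => ?_
  have e : x + ((S.jp a * i : ℤ) : S.G) + ((S.jp a * (i' - i) : ℤ) : S.G)
      = x + ((S.jp a * i' : ℤ) : S.G) := by
    push_cast; ring
  simp only [S.pos_sub_Zs, e]

lemma pos_one (r : ℕ) (a : Finset ι) (g : S.G → ℂ) (θ : ℝ) :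
    (((∑ x : S.G, if a ⊆ S.Zs x then
      ‖((S.Hk a : ℂ))⁻¹ * ∑ i ∈ range (S.Hk a),
        S.Ps r a g (x + ((S.jp a * i : ℤ) : S.G)) * ee (θ * i)‖ ^ 2 else 0 : ℝ)) : ℂ)
      = ∑ j ∈ S.JJ a, ee (θ * j) * (((((S.Hk a : ℝ) - |(j : ℝ)|) / (S.Hk a : ℝ) ^ 2 : ℝ)) : ℂ)
          * S.posA r a g j := by
  have h1 : ∀ x : S.G, (((if a ⊆ S.Zs x then
      ‖((S.Hk a : ℂ))⁻¹ * ∑ i ∈ range (S.Hk a),
        S.Ps r a g (x + ((S.jp a * i : ℤ) : S.G)) * ee (θ * i)‖ ^ 2 else 0 : ℝ)) : ℂ)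
      = ∑ i ∈ range (S.Hk a), ∑ i' ∈ range (S.Hk a),
          ((S.Hk a : ℂ) ^ 2)⁻¹ * ee (θ * (((i' : ℤ) - i : ℤ) : ℝ)) * if a ⊆ S.Zs x then
            (starRingEnd ℂ) (S.Ps r a g (x + ((S.jp a * i : ℤ) : S.G))) *
              S.Ps r a g (x + ((S.jp a * i' : ℤ) : S.G)) else 0 := by
    intro x
    by_cases ha : a ⊆ S.Zs x
    · simp only [if_pos ha]
      rw [SPPosAux.normsq, map_mul, map_sum, mul_mul_mul_comm, sum_mul_sum, mul_sum]
      refine sum_congr rfl fun i _ => ?_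
      rw [mul_sum]
      refine sum_congr rfl fun i' _ => ?_
      have e : θ * (((i' : ℤ) - i : ℤ) : ℝ) = -(θ * i) + θ * i' := by push_cast; ring
      rw [map_mul, SPPosAux.conj_ee, e, ee_add, map_inv₀, Complex.conj_natCast]
      ring
    · simp only [if_neg ha]
      simp
  rw [Complex.ofReal_sum, sum_congr rfl fun x _ => h1 x, sum_comm,
    sum_congr rfl fun i _ => sum_comm]
  simp only [← mul_sum, S.pos_shift]
  rw [SPPosAux.fejer (S.Hk a) fun j : ℤ =>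
    ((S.Hk a : ℂ) ^ 2)⁻¹ * ee (θ * (j : ℝ)) * S.posA r a g j]
  refine sum_congr rfl fun j _ => ?_
  push_cast
  ring

theorem SS_add_OV (r : ℕ) (g : S.G → ℂ) : S.SS r g g + S.OV r g g = (S.Pos r g : ℂ) := by
  unfold SS OV Pos
  rw [← sum_add_distrib, Complex.ofReal_sum]
  refine sum_congr rfl fun a _ => ?_
  have h1 : (∑ v ∈ S.VV r a, ∑ v' ∈ S.VV r a, if Disjoint v v' then S.St a v v' g g else 0)
      + (∑ v ∈ S.VV r a, ∑ v' ∈ S.VV r a, if Disjoint v v' then 0 else S.St a v v' g g)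
      = ∑ v ∈ S.VV r a, ∑ v' ∈ S.VV r a, S.St a v v' g g := by
    rw [← sum_add_distrib]
    refine sum_congr rfl fun v _ => ?_
    rw [← sum_add_distrib]
    refine sum_congr rfl fun v' _ => ?_
    split_ifs <;> simp
  rw [h1, S.pos_sum_St, Complex.ofReal_sum, sum_congr rfl fun (θ : ℚ) _ => S.pos_one r a g (θ : ℝ),
    sum_comm]
  refine sum_congr rfl fun j _ => ?_
  unfold kap
  rw [sum_mul]

/-- One half of the bound for `St`. -/
noncomputable def posU (a v v' : Finset ι) (g : S.G → ℂ) : ℝ :=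
  ∑ j ∈ S.JJ a, ‖S.kap a j‖ * ∑ x : S.G,
    if a ∪ v ⊆ S.Zs x ∧ a ∪ v' ⊆ S.Zs (x + ((S.jp a * j : ℤ) : S.G)) then
      ‖g (x + (S.jp (a ∪ v) : S.G))‖ ^ 2 else 0

lemma posU_symm (a v v' : Finset ι) (g : S.G → ℂ) :
    (∑ j ∈ S.JJ a, ‖S.kap a j‖ * ∑ x : S.G,
      if a ∪ v ⊆ S.Zs x ∧ a ∪ v' ⊆ S.Zs (x + ((S.jp a * j : ℤ) : S.G)) then
        ‖g (x + ((S.jp a * j : ℤ) : S.G) + (S.jp (a ∪ v') : S.G))‖ ^ 2 else 0)
      = S.posU a v' v g := by
  unfold posU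
  refine sum_bij' (fun j _ => -j) (fun j _ => -j) ?_ ?_ ?_ ?_ ?_
  · intro j hj
    simp only [JJ, mem_Ioo] at hj ⊢
    omega
  · intro j hj
    simp only [JJ, mem_Ioo] at hj ⊢
    omega
  · intro j _; simp
  · intro j _; simp
  · intro j _
    rw [S.kap_neg, Complex.norm_conj]
    congr 1
    rw [← S.sum_add_right (fun x : S.G =>
      if a ∪ v' ⊆ S.Zs x ∧ a ∪ v ⊆ S.Zs (x + ((S.jp a * -j : ℤ) : S.G)) then
        ‖g (x + (S.jp (a ∪ v') : S.G))‖ ^ 2 else 0) ((S.jp a * j : ℤ) : S.G)]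
    refine sum_congr rfl fun x _ => ?_
    have e : x + ((S.jp a * j : ℤ) : S.G) + ((S.jp a * -j : ℤ) : S.G) = x := by
      push_cast; ring
    simp only [e, and_comm]

lemma norm_St_le (a v v' : Finset ι) (g : S.G → ℂ) :
    ‖S.St a v v' g g‖ ≤ (S.posU a v v' g + S.posU a v' v g) / 2 := by
  rw [← S.posU_symm a v v' g]
  unfold St posU
  rw [← sum_add_distrib, sum_div]
  refine (norm_sum_le _ _).trans (sum_le_sum fun j _ => ?_)
  rw [norm_mul, ← mul_add, mul_div_assoc]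
  refine mul_le_mul_of_nonneg_left ?_ (norm_nonneg _)
  rw [← sum_add_distrib, sum_div]
  refine (norm_sum_le _ _).trans (sum_le_sum fun x _ => ?_)
  split_ifs
  · rw [norm_mul, Complex.norm_conj]
    nlinarith [sq_nonneg (‖g (x + (S.jp (a ∪ v) : S.G))‖
      - ‖g (x + ((S.jp a * j : ℤ) : S.G) + (S.jp (a ∪ v') : S.G))‖)]
  · simp

lemma pos_card_mem {r : ℕ} (hr2 : 2 ≤ r) (a : Finset ι) {p : ι} (hp : p ∈ S.E) :
    ((((S.VV r a).filter fun v' => p ∈ v').card : ℕ) : ℝ)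
      ≤ 4 * (S.Q : ℝ) ^ 2 * S.Hk a / S.H0 := by
  have hH : (0 : ℝ) < S.H0 := lt_of_lt_of_le (by positivity) S.H0_big
  have hm := S.m_pos p
  have h1 : ((S.VV r a).filter fun v' => p ∈ v').card
      ≤ (Icc 1 (4 * S.Q ^ 2 * S.Hk a / S.m p)).card := by
    refine card_le_card_of_injOn (fun v' => S.pr v' / S.m p) ?_ ?_
    · intro v' hv'
      have hv'' := mem_filter.1 (mem_coe.1 hv')
      have hd := (S.m_dvd_pr hp).2 hv''.2
      have hle := S.pr_le_Hk hr2 hv''.1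
      refine mem_coe.2 (mem_Icc.2 ⟨?_, Nat.div_le_div_right hle⟩)
      exact Nat.div_pos (Nat.le_of_dvd (S.pr_pos _) hd) hm
    · intro v hv v' hv' h
      have h1 := mem_filter.1 (mem_coe.1 hv)
      have h2 := mem_filter.1 (mem_coe.1 hv')
      have hd1 := (S.m_dvd_pr hp).2 h1.2
      have hd2 := (S.m_dvd_pr hp).2 h2.2
      refine S.pr_inj (S.mem_VV.1 h1.1).1 (S.mem_VV.1 h2.1).1 ?_
      have h' : S.pr v / S.m p = S.pr v' / S.m p := h
      rw [← Nat.div_mul_cancel hd1, ← Nat.div_mul_cancel hd2, h']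
  rw [Nat.card_Icc, Nat.add_sub_cancel] at h1
  calc ((((S.VV r a).filter fun v' => p ∈ v').card : ℕ) : ℝ)
      ≤ ((4 * S.Q ^ 2 * S.Hk a / S.m p : ℕ) : ℝ) := by exact_mod_cast h1
    _ ≤ ((4 * S.Q ^ 2 * S.Hk a : ℕ) : ℝ) / S.m p := Nat.cast_div_le
    _ ≤ 4 * (S.Q : ℝ) ^ 2 * S.Hk a / S.H0 := by
      push_cast
      exact div_le_div_of_nonneg_left (by positivity) hH (S.lo p hp)

lemma pos_card_overlap {r : ℕ} (hr2 : 2 ≤ r) (hr : r ≤ S.k) {a v : Finset ι}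
    (hv : v ∈ S.VV r a) :
    ((((S.VV r a).filter fun v' => ¬ Disjoint v v').card : ℕ) : ℝ)
      ≤ S.Λ * (4 * (S.Q : ℝ) ^ 2 * S.Hk a / S.H0) := by
  have hH : (0 : ℝ) < S.H0 := lt_of_lt_of_le (by positivity) S.H0_big
  have hv' := S.mem_VV.1 hv
  have h1 : ((S.VV r a).filter fun v' => ¬ Disjoint v v')
      ⊆ v.biUnion fun p => (S.VV r a).filter fun v' => p ∈ v' := by
    intro v' h
    obtain ⟨h1, h2⟩ := mem_filter.1 h
    obtain ⟨p, hp, hp'⟩ := not_disjoint_iff.1 h2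
    exact mem_biUnion.2 ⟨p, hp, mem_filter.2 ⟨h1, hp'⟩⟩
  have h2 := (card_le_card h1).trans card_biUnion_le
  calc ((((S.VV r a).filter fun v' => ¬ Disjoint v v').card : ℕ) : ℝ)
      ≤ ∑ p ∈ v, ((((S.VV r a).filter fun v' => p ∈ v').card : ℕ) : ℝ) := by exact_mod_cast h2
    _ ≤ ∑ _p ∈ v, 4 * (S.Q : ℝ) ^ 2 * S.Hk a / S.H0 :=
      sum_le_sum fun p hp => S.pos_card_mem hr2 a (hv'.1 hp)
    _ = r * (4 * (S.Q : ℝ) ^ 2 * S.Hk a / S.H0) := by rw [sum_const, nsmul_eq_mul, hv'.2.2.1]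
    _ ≤ S.Λ * (4 * (S.Q : ℝ) ^ 2 * S.Hk a / S.H0) := by
      refine mul_le_mul_of_nonneg_right ?_ (by positivity)
      exact le_trans (by exact_mod_cast hr) S.k_le_Λ

lemma posU_le {r : ℕ} {a v v' : Finset ι} (hv' : v' ∈ S.VV r a) (g : S.G → ℂ) :
    S.posU a v v' g ≤ 2 * ((S.Q : ℝ) ^ 2 / S.Hk a) *
      ∑ y : S.G, if a ∪ v ⊆ S.Zs y then ‖g y‖ ^ 2 else 0 := by
  unfold posU
  rw [← S.sum_add_right (fun y : S.G => if a ∪ v ⊆ S.Zs y then ‖g y‖ ^ 2 else 0)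
    (S.jp (a ∪ v) : S.G), mul_sum]
  simp only [mul_sum]
  rw [sum_comm]
  refine sum_le_sum fun x _ => ?_
  have hz : a ∪ v ⊆ S.Zs (x + (S.jp (a ∪ v) : S.G)) ↔ a ∪ v ⊆ S.Zs x :=
    S.sub_Zs_add (fun _ hp => S.jp_apply' hp) x
  by_cases h : a ∪ v ⊆ S.Zs x
  · rw [if_pos (hz.2 h)]
    have hc : ((((S.JJ a).filter fun j => v' ⊆ S.Zs (x + ((S.jp a * j : ℤ) : S.G))).card : ℕ) : ℝ)
        ≤ 2 := by exact_mod_cast S.card_JJ_sub hv' x
    calc ∑ j ∈ S.JJ a, ‖S.kap a j‖ *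
          (if a ∪ v ⊆ S.Zs x ∧ a ∪ v' ⊆ S.Zs (x + ((S.jp a * j : ℤ) : S.G)) then
            ‖g (x + (S.jp (a ∪ v) : S.G))‖ ^ 2 else 0)
        ≤ ∑ j ∈ S.JJ a, if v' ⊆ S.Zs (x + ((S.jp a * j : ℤ) : S.G)) then
            (S.Q : ℝ) ^ 2 / S.Hk a * ‖g (x + (S.jp (a ∪ v) : S.G))‖ ^ 2 else 0 := by
          refine sum_le_sum fun j hj => ?_
          by_cases h2 : a ∪ v' ⊆ S.Zs (x + ((S.jp a * j : ℤ) : S.G))
          · rw [if_pos ⟨h, h2⟩, if_pos (union_subset_iff.1 h2).2]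
            exact mul_le_mul_of_nonneg_right (S.norm_kap_le a hj) (by positivity)
          · rw [if_neg fun h' => h2 h'.2, mul_zero]
            split_ifs <;> positivity
      _ = ((((S.JJ a).filter fun j => v' ⊆ S.Zs (x + ((S.jp a * j : ℤ) : S.G))).card : ℕ) : ℝ) *
            ((S.Q : ℝ) ^ 2 / S.Hk a * ‖g (x + (S.jp (a ∪ v) : S.G))‖ ^ 2) := by
          rw [← sum_filter, sum_const, nsmul_eq_mul]
      _ ≤ 2 * ((S.Q : ℝ) ^ 2 / S.Hk a) * ‖g (x + (S.jp (a ∪ v) : S.G))‖ ^ 2 := by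
          rw [mul_assoc]
          exact mul_le_mul_of_nonneg_right hc (by positivity)
  · rw [if_neg fun h' => h (hz.1 h'), mul_zero]
    refine le_of_eq (sum_eq_zero fun j _ => ?_)
    rw [if_neg fun h' => h h'.1, mul_zero]

lemma pos_sumU {r : ℕ} (hr2 : 2 ≤ r) (hr : r ≤ S.k) {a v : Finset ι} (hv : v ∈ S.VV r a)
    (g : S.G → ℂ) :
    (∑ v' ∈ S.VV r a, if Disjoint v v' then 0 else S.posU a v v' g)
      ≤ 8 * (S.Q : ℝ) ^ 4 * S.Λ / S.H0 *
        ∑ y : S.G, if a ∪ v ⊆ S.Zs y then ‖g y‖ ^ 2 else 0 := by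
  have hH : (0 : ℝ) < S.H0 := lt_of_lt_of_le (by positivity) S.H0_big
  have hK : (0 : ℝ) < S.Hk a := lt_of_lt_of_le hH (S.H0_le_Hk hr2 hv)
  set W : ℝ := ∑ y : S.G, if a ∪ v ⊆ S.Zs y then ‖g y‖ ^ 2 else 0 with hW
  have hW0 : 0 ≤ W := sum_nonneg fun y _ => by split_ifs <;> positivity
  calc (∑ v' ∈ S.VV r a, if Disjoint v v' then 0 else S.posU a v v' g)
      ≤ ∑ v' ∈ S.VV r a, if ¬ Disjoint v v' then 2 * ((S.Q : ℝ) ^ 2 / S.Hk a) * W else 0 := by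
        refine sum_le_sum fun v' hv' => ?_
        by_cases h : Disjoint v v'
        · simp [h]
        · rw [if_neg h, if_pos h]
          exact S.posU_le hv' g
    _ = ((((S.VV r a).filter fun v' => ¬ Disjoint v v').card : ℕ) : ℝ) *
          (2 * ((S.Q : ℝ) ^ 2 / S.Hk a) * W) := by
        rw [← sum_filter, sum_const, nsmul_eq_mul]
    _ ≤ S.Λ * (4 * (S.Q : ℝ) ^ 2 * S.Hk a / S.H0) * (2 * ((S.Q : ℝ) ^ 2 / S.Hk a) * W) :=
        mul_le_mul_of_nonneg_right (S.pos_card_overlap hr2 hr hv) (by positivity)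
    _ = 8 * (S.Q : ℝ) ^ 4 * S.Λ / S.H0 * W := by
        field_simp
        ring

lemma pos_sumD {g : S.G → ℂ} (hg : S.Supp g) :
    (∑ d ∈ S.DD, ∑ y : S.G, if d ⊆ S.Zs y then ‖g y‖ ^ 2 else 0) ≤ S.D' * S.nn g := by
  unfold nn
  rw [sum_comm, mul_sum]
  refine sum_le_sum fun y _ => ?_
  rw [← sum_filter, sum_const, nsmul_eq_mul]
  by_cases h : g y = 0
  · simp [h]
  · refine mul_le_mul_of_nonneg_right ?_ (by positivity)
    exact_mod_cast S.card_DD_sub (hg y h).1.le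

theorem OV_le {r : ℕ} (hr2 : 2 ≤ r) (hr : r ≤ S.k) {g : S.G → ℂ} (hg : S.Supp g) :
    ‖S.OV r g g‖ ≤ 8 * (S.Q : ℝ) ^ 4 * S.Λ / S.H0 * S.D * S.D' * S.nn g := by
  have hH : (0 : ℝ) < S.H0 := lt_of_lt_of_le (by positivity) S.H0_big
  have hΛ : (0 : ℝ) < S.Λ := lt_of_lt_of_le (by norm_num) S.big
  have h1 : ∀ a ∈ S.AA r,
      ‖∑ v ∈ S.VV r a, ∑ v' ∈ S.VV r a, if Disjoint v v' then 0 else S.St a v v' g g‖
        ≤ ∑ v ∈ S.VV r a, ∑ v' ∈ S.VV r a, if Disjoint v v' then 0 else S.posU a v v' g := by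
    intro a _
    have hs : (∑ v ∈ S.VV r a, ∑ v' ∈ S.VV r a, if Disjoint v v' then 0 else S.posU a v' v g)
        = ∑ v ∈ S.VV r a, ∑ v' ∈ S.VV r a, if Disjoint v v' then 0 else S.posU a v v' g := by
      rw [sum_comm]
      refine sum_congr rfl fun v _ => sum_congr rfl fun v' _ => ?_
      simp only [disjoint_comm (a := v')]
    calc ‖∑ v ∈ S.VV r a, ∑ v' ∈ S.VV r a, if Disjoint v v' then 0 else S.St a v v' g g‖
        ≤ ∑ v ∈ S.VV r a, ∑ v' ∈ S.VV r a, ((if Disjoint v v' then 0 else S.posU a v v' g)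
            + if Disjoint v v' then 0 else S.posU a v' v g) / 2 := by
          refine (norm_sum_le _ _).trans (sum_le_sum fun v _ => ?_)
          refine (norm_sum_le _ _).trans (sum_le_sum fun v' _ => ?_)
          split_ifs
          · simp
          · exact S.norm_St_le a v v' g
      _ = _ := by
          simp only [← sum_div, sum_add_distrib]
          rw [hs]; ring
  unfold OV
  calc ‖∑ a ∈ S.AA r, ∑ v ∈ S.VV r a, ∑ v' ∈ S.VV r a,
          if Disjoint v v' then 0 else S.St a v v' g g‖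
      ≤ ∑ a ∈ S.AA r, ∑ v ∈ S.VV r a, 8 * (S.Q : ℝ) ^ 4 * S.Λ / S.H0 *
          ∑ y : S.G, if a ∪ v ⊆ S.Zs y then ‖g y‖ ^ 2 else 0 := by
        refine (norm_sum_le _ _).trans (sum_le_sum fun a ha => (h1 a ha).trans ?_)
        exact sum_le_sum fun v hv => S.pos_sumU hr2 hr hv g
    _ = 8 * (S.Q : ℝ) ^ 4 * S.Λ / S.H0 * ∑ a ∈ S.AA r, ∑ v ∈ S.VV r a,
          ∑ y : S.G, if a ∪ v ⊆ S.Zs y then ‖g y‖ ^ 2 else 0 := by
        simp only [← mul_sum]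
    _ ≤ 8 * (S.Q : ℝ) ^ 4 * S.Λ / S.H0 * (S.D * (S.D' * S.nn g)) := by
        refine mul_le_mul_of_nonneg_left ?_ (by positivity)
        refine (S.sum_AV_le hr (Φ := fun d => ∑ y : S.G, if d ⊆ S.Zs y then ‖g y‖ ^ 2 else 0)
          fun d _ => sum_nonneg fun y _ => by split_ifs <;> positivity).trans ?_
        exact mul_le_mul_of_nonneg_left (S.pos_sumD hg) (by positivity)
    _ = _ := by ring

end Sys

end Pool.Agent.Work.MP_678620_nt
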