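import Pool.Agent.Work.MP_678620_nt.SPBox
import Pool.Agent.Work.MP_678620_nt.SPJav

/-! The kernel is a combination of boxes. -/

set_option autoImplicit false
open Finset Pool.Agent.Lib.LargeSieve

namespace Pool.Agent.Work.MP_678620_nt

namespace Sys

variable {ι : Type} [Fintype ι] [DecidableEq ι] (S : Sys ι)

lemma repK_two_le : (2 : ℝ) ≤ S.H1 := by
  have h1 := S.H0_big
  have h2 := S.H01
  have h3 : (2 : ℝ) ≤ 10 ^ 40 := by norm_num
  linarith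

lemma repK_one_le : (1 : ℝ) ≤ S.H1 := by
  have := S.repK_two_le
  linarith

lemma repK_pow_le {a b : ℕ} (h : a ≤ b) : S.H1 ^ a ≤ S.H1 ^ b :=
  pow_le_pow_right₀ S.repK_one_le h

lemma repK_card_pc {B : Finset ι} (hB : B ⊆ S.E) (j : ℕ) :
    ((B.powersetCard j).card : ℝ) ≤ S.H1 ^ j := by
  rw [card_powersetCard]
  have h1 : (B.card.choose j : ℝ) ≤ (B.card : ℝ) ^ j := by
    exact_mod_cast Nat.choose_le_pow B.card j
  have h2 : (B.card : ℝ) ≤ S.H1 :=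
    le_trans (by exact_mod_cast card_le_card hB) S.card_E_le
  exact h1.trans (pow_le_pow_left₀ (Nat.cast_nonneg _) h2 j)

lemma repK_card_DD : (S.DD.card : ℝ) ≤ S.H1 ^ S.s := by
  refine le_trans ?_ (S.repK_card_pc (subset_refl S.E) S.s)
  have : S.DD ⊆ S.E.powersetCard S.s := fun d hd =>
    mem_powersetCard.2 ⟨S.DD_sub d hd, S.DD_card d hd⟩
  exact_mod_cast card_le_card this

lemma repK_card_VV (r : ℕ) (a : Finset ι) : ((S.VV r a).card : ℝ) ≤ S.H1 ^ r := by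
  refine le_trans ?_ (S.repK_card_pc (B := S.E \ a) sdiff_subset r)
  have : S.VV r a ⊆ (S.E \ a).powersetCard r := filter_subset _ _
  exact_mod_cast card_le_card this

lemma repK_Q_le : (S.Q : ℝ) ≤ S.H1 := by
  have h := S.mono_le_H0 (a := 0) (b := 0) (c := 1) (d := 0) (by norm_num) (by norm_num)
    (by norm_num) (by norm_num)
  simp only [pow_zero, pow_one, one_mul, mul_one] at h
  exact h.trans S.H01

lemma repK_Λ_le : S.Λ ≤ S.H1 := by
  have h := S.mono_le_H0 (a := 0) (b := 0) (c := 0) (d := 1) (by norm_num) (by norm_num)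
    (by norm_num) (by norm_num)
  simp only [pow_zero, pow_one, one_mul] at h
  exact h.trans S.H01

/-- A sum with a uniform bound on the masses. -/
lemma repK_sum {α : Type*} (s : Finset α) {F : Finset ι} {K1 K2 : ℕ} {B C : ℝ}
    {φ : α → S.G → ℂ} (hB : 0 ≤ B) (hC : (s.card : ℝ) ≤ C)
    (h : ∀ i ∈ s, S.Rep F K1 K2 B (φ i)) :
    S.Rep F K1 K2 (C * B) fun ξ => ∑ i ∈ s, φ i ξ := by
  refine Rep.mono (Rep.sum S s (B := fun _ => B) h) ?_
  rw [sum_const, nsmul_eq_mul]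
  exact mul_le_mul_of_nonneg_right hC hB

theorem rep_Cg : S.Rep ∅ (2 * S.s) 1 (S.H1 ^ (2 * S.s)) fun ξ => if S.Cg ξ then 1 else 0 := by
  have hk := S.k'_le
  have h := ((S.rep_class (S.s + S.k') S.good).weaken (subset_refl _)
    (show S.s + S.k' ≤ 2 * S.s by omega) (le_refl 1)).mono
    (S.repK_pow_le (show S.s + S.k' ≤ 2 * S.s by omega))
  refine h.congr fun ξ => ?_
  by_cases hc : S.Cg ξ
  · rw [if_pos hc, if_pos (show _ ∧ _ from hc)]
  · rw [if_neg hc, if_neg (show ¬ (_ ∧ _) from hc)]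

lemma repK_KT (r : ℕ) (e : ℤ) :
    S.Rep ∅ (4 * S.s) 1 (S.H1 ^ (4 * S.s)) fun ξ => S.KT r ξ e := by
  classical
  have hk := S.k_le
  have h0 : (0 : ℝ) ≤ S.H1 := le_trans zero_le_one S.repK_one_le
  have key : ∀ d ∈ S.DD, ∀ d' ∈ S.DD, S.Rep ∅ (4 * S.s) 1 (S.H1 ^ (2 * S.s)) fun ξ =>
      if e = S.jp d' - S.jp d ∧ (d \ d').card = r ∧
        (S.Zs (ξ - (S.jp d : S.G))).card = S.s + S.k ∧
        d ⊆ S.Zs (ξ - (S.jp d : S.G)) ∧ d' ⊆ S.Zs (ξ - (S.jp d : S.G)) then (1 : ℂ) else 0 := by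
    intro d _ d' _
    have h := (((S.rep_class (S.s + S.k)
      (fun Z => (e = S.jp d' - S.jp d ∧ (d \ d').card = r) ∧ d ⊆ Z ∧ d' ⊆ Z)).tr
      (-(S.jp d : S.G))).weaken (subset_refl _)
      (show S.s + S.k ≤ 4 * S.s by omega) (le_refl 1)).mono
      (S.repK_pow_le (show S.s + S.k ≤ 2 * S.s by omega))
    refine h.congr fun ξ => ?_
    simp only [← sub_eq_add_neg]
    refine if_congr ?_ rfl rfl
    tauto
  have h := S.repK_sum S.DD (by positivity) S.repK_card_DD fun d hd =>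
    S.repK_sum S.DD (by positivity) S.repK_card_DD fun d' hd' => key d hd d' hd'
  refine (h.mono (le_of_eq ?_)).congr fun ξ => rfl
  ring

lemma repK_KS {r : ℕ} (hr : r ≤ S.s) (e : ℤ) :
    S.Rep ∅ (4 * S.s) 1 (S.H1 ^ (4 * S.s)) fun ξ => S.KS r ξ e := by
  classical
  have hs : 2 ≤ S.s := S.k_ge.trans S.k_le
  have h0 : (0 : ℝ) ≤ S.H1 := le_trans zero_le_one S.repK_one_le
  have key : ∀ a ∈ S.AA r, ∀ v ∈ S.VV r a, ∀ v' ∈ S.VV r a, ∀ j ∈ S.JJ a,
      S.Rep ∅ (4 * S.s) 1 ‖S.kap a j‖ fun ξ =>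
      if Disjoint v v' ∧ e = S.jp a * j + S.jp (a ∪ v') - S.jp (a ∪ v) ∧ a ∪ v ⊆ S.Zs ξ ∧
        a ∪ v' ⊆ S.Zs (ξ + (e : S.G)) then S.kap a j else 0 := by
    intro a _ v hv v' hv' j _
    have hd := (S.mem_VV.1 hv).2.2.2
    have hd' := (S.mem_VV.1 hv').2.2.2
    by_cases hc : Disjoint v v' ∧ e = S.jp a * j + S.jp (a ∪ v') - S.jp (a ∪ v)
    · have h1 := S.rep_sub (S.DD_sub _ hd)
      have h2 := (S.rep_sub (S.DD_sub _ hd')).tr (e : S.G)
      rw [S.DD_card _ hd] at h1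
      rw [S.DD_card _ hd'] at h2
      have h := (((h1.mul h2).smul (S.kap a j)).weaken (subset_refl _)
        (show S.s + S.s ≤ 4 * S.s by omega) (show 0 + 0 ≤ 1 by omega)).mono
        (show ‖S.kap a j‖ * (1 * 1) ≤ ‖S.kap a j‖ by simp)
      refine h.congr fun ξ => ?_
      by_cases ha : a ∪ v ⊆ S.Zs ξ
      · by_cases hb : a ∪ v' ⊆ S.Zs (ξ + (e : S.G))
        · rw [if_pos ha, if_pos hb, if_pos ⟨hc.1, hc.2, ha, hb⟩]; ring
        · rw [if_neg hb, mul_zero, mul_zero, if_neg (fun h => hb h.2.2.2)]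
      · rw [if_neg ha, zero_mul, mul_zero, if_neg (fun h => ha h.2.2.1)]
    · refine (Rep.mono Rep.zero (norm_nonneg _)).congr fun ξ => ?_
      rw [if_neg (fun h => hc ⟨h.1, h.2.1⟩)]
  have key2 : ∀ a ∈ S.AA r, ∀ v ∈ S.VV r a, ∀ v' ∈ S.VV r a,
      S.Rep ∅ (4 * S.s) 1 (S.H1 ^ 3) fun ξ => ∑ j ∈ S.JJ a,
      if Disjoint v v' ∧ e = S.jp a * j + S.jp (a ∪ v') - S.jp (a ∪ v) ∧ a ∪ v ⊆ S.Zs ξ ∧
        a ∪ v' ⊆ S.Zs (ξ + (e : S.G)) then S.kap a j else 0 := by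
    intro a ha v hv v' hv'
    refine (Rep.sum S (S.JJ a) (key a ha v hv v' hv')).mono ((S.sum_norm_kap_le a).trans ?_)
    have h1 : (S.Q : ℝ) ^ 2 ≤ S.H1 ^ 2 := pow_le_pow_left₀ (Nat.cast_nonneg _) S.repK_Q_le 2
    have h2 := S.repK_two_le
    calc 2 * (S.Q : ℝ) ^ 2 ≤ S.H1 * S.H1 ^ 2 := mul_le_mul h2 h1 (by positivity) h0
      _ = S.H1 ^ 3 := by ring
  have h := S.repK_sum (S.AA r) (by positivity) (S.repK_card_pc (subset_refl S.E) (S.s - r))
    fun a ha => S.repK_sum (S.VV r a) (by positivity) (S.repK_card_VV r a) fun v hv =>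
      S.repK_sum (S.VV r a) (by positivity) (S.repK_card_VV r a) fun v' hv' =>
        key2 a ha v hv v' hv'
  refine (h.mono ?_).congr fun ξ => rfl
  rw [← pow_add, ← pow_add, ← pow_add]
  exact S.repK_pow_le (by omega)

theorem rep_Kk (e : ℤ) : S.Rep ∅ (8 * S.s) 3 (S.H1 ^ (10 * S.s)) fun ξ => S.Kk ξ e := by
  have hs : 2 ≤ S.s := S.k_ge.trans S.k_le
  have h0 : (0 : ℝ) ≤ S.H1 := le_trans zero_le_one S.repK_one_le
  have key : ∀ r ∈ Icc 2 S.k, S.Rep ∅ (4 * S.s) 1 (S.H1 ^ (4 * S.s + 1)) fun ξ =>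
      S.KT r ξ e - (S.piC (S.k - r) : ℂ) * S.KS r ξ e := by
    intro r hr
    have hrs : r ≤ S.s := (mem_Icc.1 hr).2.trans S.k_le
    have h := (S.repK_KT r e).add ((S.repK_KS hrs e).smul (-(S.piC (S.k - r) : ℂ)))
    refine (h.mono ?_).congr fun ξ => by ring
    have h1 : ‖-(S.piC (S.k - r) : ℂ)‖ ≤ 1 := by
      rw [norm_neg, Complex.norm_real, Real.norm_of_nonneg (S.piC_nonneg _)]
      exact S.piC_le_one _
    have h2 := S.repK_two_le
    have h3 : (0 : ℝ) ≤ S.H1 ^ (4 * S.s) := by positivity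
    rw [pow_succ]
    nlinarith [mul_le_mul_of_nonneg_right h1 h3, mul_le_mul_of_nonneg_left h2 h3]
  have hc : ((Icc 2 S.k).card : ℝ) ≤ S.H1 := by
    refine le_trans ?_ (S.k_le_Λ.trans S.repK_Λ_le)
    rw [Nat.card_Icc]
    exact_mod_cast (show S.k + 1 - 2 ≤ S.k by omega)
  have h1 := S.repK_sum (Icc 2 S.k) (by positivity) hc key
  have h := ((S.rep_Cg.mul (S.rep_Cg.tr (e : S.G))).mul h1).weaken (subset_refl _)
    (show 2 * S.s + 2 * S.s + 4 * S.s ≤ 8 * S.s by omega) (show 1 + 1 + 1 ≤ 3 by omega)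
  refine (h.mono ?_).congr fun ξ => ?_
  · rw [← pow_succ', ← pow_add, ← pow_add]
    exact S.repK_pow_le (by omega)
  · unfold Kk
    by_cases ha : S.Cg ξ
    · by_cases hb : S.Cg (ξ + (e : S.G))
      · rw [if_pos ha, if_pos hb, if_pos ⟨ha, hb⟩]; ring
      · rw [if_neg hb, mul_zero, zero_mul, if_neg (fun h => hb h.2)]
    · rw [if_neg ha, zero_mul, zero_mul, if_neg (fun h => ha h.1)]

end Sys

end Pool.Agent.Work.MP_678620_nt
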