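import Pool.Agent.Work.MP_678620_nt.SPPos
import Pool.Agent.Work.MP_678620_nt.SPCoord

/-! Splitting the two-step form. -/

set_option autoImplicit false
open Finset Pool.Agent.Lib.LargeSieve

namespace Pool.Agent.Work.MP_678620_nt

lemma SPTA_schur {α : Type*} (s : Finset α) (K : α → α → Prop) [DecidableRel K] (a : α → ℝ)
    (C : ℝ) (hs : ∀ i ∈ s, ∀ j ∈ s, K i j → K j i)
    (hC : ∀ i ∈ s, ((s.filter (K i)).card : ℝ) ≤ C) :
    ∑ i ∈ s, ∑ j ∈ s, (if K i j then a i * a j else 0) ≤ C * ∑ i ∈ s, a i ^ 2 := by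
  have h1 : ∑ i ∈ s, ∑ j ∈ s, (if K i j then a i ^ 2 else 0) ≤ C * ∑ i ∈ s, a i ^ 2 := by
    rw [mul_sum]
    refine sum_le_sum fun i hi => ?_
    rw [← sum_filter, sum_const, nsmul_eq_mul]
    exact mul_le_mul_of_nonneg_right (hC i hi) (sq_nonneg _)
  have h2 : ∑ i ∈ s, ∑ j ∈ s, (if K i j then a j ^ 2 else 0) ≤ C * ∑ i ∈ s, a i ^ 2 := by
    rw [sum_comm]
    refine le_trans (le_of_eq (sum_congr rfl fun i hi => sum_congr rfl fun j hj => ?_)) h1
    exact if_congr ⟨hs j hj i hi, hs i hi j hj⟩ rfl rfl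
  have h3 : ∑ i ∈ s, ∑ j ∈ s, (if K i j then a i * a j else 0) ≤
      (∑ i ∈ s, ∑ j ∈ s, (if K i j then a i ^ 2 else 0) +
        ∑ i ∈ s, ∑ j ∈ s, (if K i j then a j ^ 2 else 0)) / 2 := by
    rw [← sum_add_distrib, sum_div]
    refine sum_le_sum fun i _ => ?_
    rw [← sum_add_distrib, sum_div]
    refine sum_le_sum fun j _ => ?_
    split_ifs
    · nlinarith only [sq_nonneg (a i - a j)]
    · simp
  linarith only [h1, h2, h3]

namespace Sys

variable {ι : Type} [Fintype ι] [DecidableEq ι] (S : Sys ι)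

lemma SPTA_count {Z d : Finset ι} (hZ : Z.card = S.s + S.k) (hd : d ∈ S.DD) (hdZ : d ⊆ Z) :
    ((S.DD.filter fun d' => d' ⊆ Z ∧ (d \ d').card ≤ 1).card : ℝ) ≤ 2 * S.Λ ^ 2 := by
  have hk : (Z \ d).card = S.k := by
    rw [card_sdiff_of_subset hdZ, hZ, S.DD_card d hd]; omega
  have hsub : (S.DD.filter fun d' => d' ⊆ Z ∧ (d \ d').card ≤ 1) ⊆
      (Z \ d).biUnion fun q => S.DD.filter fun d' => d' ⊆ insert q d := by
    intro d' h
    obtain ⟨h1, h2, h3⟩ := mem_filter.1 h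
    rw [card_sdiff_comm ((S.DD_card d hd).trans (S.DD_card d' h1).symm)] at h3
    have hne : (Z \ d).Nonempty := card_pos.1 (by have := S.k_ge; omega)
    obtain ⟨q, hq, hq'⟩ : ∃ q ∈ Z \ d, d' \ d ⊆ {q} := by
      rcases (d' \ d).eq_empty_or_nonempty with e | ⟨q, hq⟩
      · exact ⟨_, hne.choose_spec, by rw [e]; exact empty_subset _⟩
      · exact ⟨q, sdiff_subset_sdiff h2 Subset.rfl hq, fun y hy =>
          mem_singleton.2 (card_le_one.1 h3 y hy q hq)⟩
    refine mem_biUnion.2 ⟨q, hq, mem_filter.2 ⟨h1, fun y hy => ?_⟩⟩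
    by_cases e : y ∈ d
    · exact mem_insert_of_mem e
    · rw [mem_singleton.1 (hq' (mem_sdiff.2 ⟨hy, e⟩))]
      exact mem_insert_self _ _
  have h1 : (S.DD.filter fun d' => d' ⊆ Z ∧ (d \ d').card ≤ 1).card ≤ S.k * (S.s + 1) := by
    refine (card_le_card hsub).trans ((card_biUnion_le_card_mul _ _ (S.s + 1) fun q _ => ?_).trans
      (le_of_eq (by rw [hk])))
    have := S.card_DD_sub (Z := insert q d) (j := 1)
      ((card_insert_le _ _).trans (by rw [S.DD_card d hd]))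
    rwa [Nat.choose_one_right] at this
  have h2 : ((S.DD.filter fun d' => d' ⊆ Z ∧ (d \ d').card ≤ 1).card : ℝ) ≤
      S.k * (S.s + 1) := by exact_mod_cast h1
  have h3 := S.k_le_Λ
  have h4 := S.s_le
  have h5 := S.big
  have h6 : (S.k : ℝ) * (S.s + 1) ≤ S.Λ * (2 * S.Λ) :=
    mul_le_mul h3 (by linarith only [h4, h5]) (by positivity) (by linarith only [h5])
  nlinarith only [h2, h6]

lemma SPTA_diag {g : S.G → ℂ} (hg : S.Supp g) :
    ∑ x : S.G, ∑ d ∈ S.DD, (if d ⊆ S.Zs x then ‖g (x + (S.jp d : S.G))‖ else 0) ^ 2 ≤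
      S.D' * S.nn g := by
  rw [sum_comm]
  have h1 : ∀ d ∈ S.DD, ∑ x : S.G, (if d ⊆ S.Zs x then ‖g (x + (S.jp d : S.G))‖ else 0) ^ 2 =
      ∑ y : S.G, if d ⊆ S.Zs y then ‖g y‖ ^ 2 else 0 := by
    intro d _
    rw [← S.sum_add_right (fun y => if d ⊆ S.Zs y then ‖g y‖ ^ 2 else 0) (S.jp d : S.G)]
    refine sum_congr rfl fun x _ => ?_
    simp only [S.sub_Zs_add (fun p hp => S.jp_apply' hp) x]
    split_ifs <;> simp
  rw [sum_congr rfl h1, sum_comm, nn, mul_sum]
  refine sum_le_sum fun y _ => ?_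
  rw [← sum_filter, sum_const, nsmul_eq_mul]
  by_cases h : g y = 0
  · simp [h]
  · refine mul_le_mul_of_nonneg_right ?_ (sq_nonneg _)
    exact_mod_cast S.card_DD_sub (hg y h).1.le

lemma SPTA_Pos_nonneg (r : ℕ) (g : S.G → ℂ) : 0 ≤ S.Pos r g :=
  sum_nonneg fun _ _ => sum_nonneg fun _ _ => sum_nonneg fun _ _ => by
    split_ifs <;> positivity

lemma TA_eq (g : S.G → ℂ) : (S.TA g : ℂ) = ∑ r ∈ range (S.k + 1), S.TT r g g := by
  unfold TA TT
  rw [sum_comm]
  push_cast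
  refine sum_congr rfl fun x _ => ?_
  rw [sum_comm]
  by_cases hx : (S.Zs x).card = S.s + S.k
  · rw [if_pos hx]
    push_cast
    rw [← Complex.conj_mul', map_sum, sum_mul_sum]
    refine sum_congr rfl fun d hd => ?_
    rw [sum_comm]
    refine sum_congr rfl fun d' hd' => ?_
    by_cases h1 : d ⊆ S.Zs x
    · by_cases h2 : d' ⊆ S.Zs x
      · have h3 : (d \ d').card ≤ S.k := by
          have := card_le_card (sdiff_subset_sdiff h1 (Subset.rfl : d' ⊆ d'))
          rw [card_sdiff_of_subset h2, hx, S.DD_card d' hd'] at this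
          omega
        simp only [hx, h1, h2, true_and, if_true]
        rw [sum_ite_eq, if_pos (mem_range.2 (by omega))]
      · simp [h2]
    · simp [h1]
  · simp [hx]

lemma TT_small {g : S.G → ℂ} (hg : S.Supp g) :
    ‖S.TT 0 g g + S.TT 1 g g‖ ≤ 2 * S.Λ ^ 2 * S.D' * S.nn g := by
  unfold TT
  rw [← sum_add_distrib]
  refine (norm_sum_le _ _).trans ?_
  have h0 : 0 ≤ 2 * S.Λ ^ 2 := by positivity
  refine le_trans ?_ ((mul_le_mul_of_nonneg_left (S.SPTA_diag hg) h0).trans_eq (by ring))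
  rw [mul_sum]
  refine sum_le_sum fun x _ => ?_
  by_cases hx : (S.Zs x).card = S.s + S.k
  · refine le_trans ?_ (SPTA_schur S.DD
      (fun d d' => d ⊆ S.Zs x ∧ d' ⊆ S.Zs x ∧ (d \ d').card ≤ 1) _ _ ?_ ?_)
    · rw [← sum_add_distrib]
      refine (norm_sum_le _ _).trans (sum_le_sum fun d _ => ?_)
      rw [← sum_add_distrib]
      refine (norm_sum_le _ _).trans (sum_le_sum fun d' _ => ?_)
      by_cases h1 : d ⊆ S.Zs x
      · by_cases h2 : d' ⊆ S.Zs x
        · simp only [hx, h1, h2, true_and, if_true]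
          rcases Nat.lt_trichotomy (d \ d').card 1 with h | h | h
          · rw [if_pos (by omega), if_neg (by omega), if_pos (by omega)]; simp
          · rw [if_neg (by omega), if_pos (by omega), if_pos (by omega)]; simp
          · rw [if_neg (by omega), if_neg (by omega), if_neg (by omega)]; simp
        · simp [h2]
      · simp [h1]
    · rintro d hd d' hd' ⟨h1, h2, h3⟩
      exact ⟨h2, h1, by rwa [card_sdiff_comm ((S.DD_card d' hd').trans (S.DD_card d hd).symm)]⟩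
    · intro d hd
      by_cases h1 : d ⊆ S.Zs x
      · simpa only [h1, true_and] using S.SPTA_count hx hd h1
      · simpa [h1] using h0
  · simp only [hx, false_and, if_false, sum_const_zero, add_zero, norm_zero]
    exact mul_nonneg h0 (sum_nonneg fun _ _ => sq_nonneg _)

theorem TA_le {g : S.G → ℂ} (hg : S.Supp g) :
    S.TA g ≤ 3 * S.Λ ^ 2 * S.D' * S.nn g + ‖S.ip g (S.Xop S.Kk g)‖
      + ∑ r ∈ Icc 2 S.k, S.Pos r g := by
  have hk := S.k_ge
  have e1 : ∑ r ∈ range (S.k + 1), S.TT r g g =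
      S.TT 0 g g + S.TT 1 g g + ∑ r ∈ Icc 2 S.k, S.TT r g g := by
    have : range (S.k + 1) = insert 0 (insert 1 (Icc 2 S.k)) := by
      ext r; simp only [mem_range, mem_insert, mem_Icc]; omega
    rw [this, sum_insert (by simp), sum_insert (by simp), add_assoc]
  have e2 : (S.TA g : ℂ) = S.TT 0 g g + S.TT 1 g g + S.ip g (S.Xop S.Kk g) +
      ∑ r ∈ Icc 2 S.k, (S.piC (S.k - r) : ℂ) * (S.Pos r g - S.OV r g g) := by
    rw [S.TA_eq, e1, S.form_X hg hg, add_assoc _ (∑ r ∈ Icc 2 S.k, _), ← sum_add_distrib]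
    congr 1
    refine sum_congr rfl fun r _ => ?_
    rw [← S.SS_add_OV]
    ring
  have hnn := S.nn_nonneg g
  have hΛ := S.big
  have hH : (0 : ℝ) < S.H0 := lt_of_lt_of_le (by positivity) S.H0_big
  have e3 : ∀ r ∈ Icc 2 S.k, ‖(S.piC (S.k - r) : ℂ) * (S.Pos r g - S.OV r g g)‖ ≤
      S.Pos r g + S.Λ * S.D' * S.nn g := by
    intro r hr
    obtain ⟨h1, h2⟩ := mem_Icc.1 hr
    have h3 := S.OV_le h1 h2 hg
    have h4 : 8 * (S.Q : ℝ) ^ 4 * S.D / S.H0 ≤ 1 := by
      rw [div_le_one hH]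
      have := S.mono_le_H0 (a := 1) (b := 0) (c := 4) (d := 1) (by omega) (by omega) (by omega)
        (by omega)
      have h5 : (0 : ℝ) ≤ S.D * (S.Q : ℝ) ^ 4 := by positivity
      nlinarith only [hH, this, hΛ, h5]
    have h5 : 8 * (S.Q : ℝ) ^ 4 * S.Λ / S.H0 * S.D * S.D' * S.nn g ≤ S.Λ * S.D' * S.nn g := by
      have : 8 * (S.Q : ℝ) ^ 4 * S.Λ / S.H0 * S.D * S.D' * S.nn g =
          8 * (S.Q : ℝ) ^ 4 * S.D / S.H0 * (S.Λ * S.D' * S.nn g) := by ring
      rw [this]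
      exact mul_le_of_le_one_left (by positivity) h4
    rw [norm_mul, Complex.norm_real, Real.norm_of_nonneg (S.piC_nonneg _)]
    refine (mul_le_of_le_one_left (norm_nonneg _) (S.piC_le_one _)).trans
      ((norm_sub_le _ _).trans ?_)
    rw [Complex.norm_real, Real.norm_of_nonneg (S.SPTA_Pos_nonneg r g)]
    linarith only [h3, h5]
  have e4 := (norm_sum_le _ _).trans (sum_le_sum e3)
  rw [sum_add_distrib, sum_const, nsmul_eq_mul] at e4
  have e5 : ((Icc 2 S.k).card : ℝ) ≤ S.Λ :=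
    le_trans (by rw [Nat.card_Icc]; exact_mod_cast (by omega)) S.k_le_Λ
  have e6 : ((Icc 2 S.k).card : ℝ) * (S.Λ * S.D' * S.nn g) ≤ S.Λ * (S.Λ * S.D' * S.nn g) :=
    mul_le_mul_of_nonneg_right e5 (by positivity)
  have e7 : S.TA g ≤ ‖(S.TA g : ℂ)‖ := by
    rw [Complex.norm_real]; exact Real.le_norm_self _
  rw [e2] at e7
  have e8 := e7.trans ((norm_add_le _ _).trans (add_le_add (norm_add_le _ _) e4))
  have e9 := S.TT_small hg
  nlinarith only [e6, e8, e9]

end Sys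

end Pool.Agent.Work.MP_678620_nt
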