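import Pool.Agent.Work.MP_678620_nt.SPCore
import Pool.Agent.Work.MP_678620_nt.SPRepK
import Pool.Agent.Work.MP_678620_nt.SPBad
import Pool.Agent.Work.MP_678620_nt.SPTA
import Pool.Agent.Work.MP_678620_nt.SPInt4

/-! The bound for one system: symmetric sums and the operator bound. -/

set_option autoImplicit false
open Finset Pool.Agent.Lib.LargeSieve

namespace Pool.Agent.Work.MP_678620_nt

namespace Sys

variable {ι : Type} [Fintype ι] [DecidableEq ι] (S : Sys ι)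

lemma es_add_le (i j : ℕ) : ((i + j).choose j : ℝ) * S.es (i + j) ≤ S.es i * S.es j := by
  have h1 : ((i + j).choose j : ℝ) * S.es (i + j) =
      ∑ x ∈ (S.E.powersetCard (i + j)).sigma fun Z => Z.powersetCard j,
        S.iv (x.1 \ x.2) * S.iv x.2 := by
    rw [es_eq, mul_sum, sum_sigma]
    refine sum_congr rfl fun Z hZ => ?_
    rw [sum_congr rfl (g := fun _ => S.iv Z) fun T hT => by
      rw [← S.iv_union sdiff_disjoint, sdiff_union_of_subset (mem_powersetCard.1 hT).1],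
      sum_const, card_powersetCard, (mem_powersetCard.1 hZ).2, nsmul_eq_mul]
  have h2 : Set.InjOn (fun x : (_ : Finset ι) × Finset ι => (x.1 \ x.2, x.2))
      ((S.E.powersetCard (i + j)).sigma fun Z => Z.powersetCard j : Finset _) := by
    rintro ⟨Z, T⟩ hx ⟨Z', T'⟩ hy e
    obtain ⟨e1, rfl⟩ := Prod.mk.inj e
    have a := sdiff_union_of_subset (mem_powersetCard.1 (mem_sigma.1 hx).2).1
    have b := sdiff_union_of_subset (mem_powersetCard.1 (mem_sigma.1 hy).2).1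
    simp only at a b e1
    rw [← a, ← b, e1]
  rw [h1, es_eq, es_eq, sum_mul_sum, ← sum_product',
    ← sum_image (f := fun x : Finset ι × Finset ι => S.iv x.1 * S.iv x.2) h2]
  refine sum_le_sum_of_subset_of_nonneg (fun x hx => ?_) fun x _ _ =>
    (mul_pos (S.iv_pos _) (S.iv_pos _)).le
  obtain ⟨⟨Z, T⟩, hy, rfl⟩ := mem_image.1 hx
  obtain ⟨hZ, hT⟩ := mem_sigma.1 hy
  obtain ⟨a1, a2⟩ := mem_powersetCard.1 hZ
  obtain ⟨b1, b2⟩ := mem_powersetCard.1 hT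
  simp only at a1 a2 b1 b2
  refine mem_product.2 ⟨mem_powersetCard.2 ⟨sdiff_subset.trans a1, ?_⟩,
    mem_powersetCard.2 ⟨b1.trans a1, b2⟩⟩
  rw [card_sdiff_of_subset b1, a2, b2, Nat.add_sub_cancel]

lemma SPSysA_down {x : ℝ} (hx0 : 0 ≤ x) (hx : x ≤ S.L - S.s * S.H0⁻¹) {r : ℕ} (hr : r ≤ S.s) :
    x ^ r * S.es (S.s - r) ≤ (S.s : ℝ) ^ r * S.es S.s := by
  induction r with
  | zero => simp
  | succ r ih =>
    have hH : 0 < S.H0 := lt_of_lt_of_le (by norm_num) S.H0_big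
    have h1 := le_esym_succ (I := S.E) (ν := S.nu) (fun i _ => (S.nu_pos i).le)
      (fun i hi => S.nu_le hi) (S.s - (r + 1))
    have h2 : ((S.s - (r + 1) : ℕ) : ℝ) + 1 ≤ S.s := by
      exact_mod_cast (by omega : S.s - (r + 1) + 1 ≤ S.s)
    rw [show S.s - (r + 1) + 1 = S.s - r by omega] at h1
    have h3 : x * S.es (S.s - (r + 1)) ≤ S.s * S.es (S.s - r) := by
      clear * - x ι S r hx h2 hH h1
      refine le_trans (mul_le_mul_of_nonneg_right (hx.trans ?_) (S.es_nonneg _))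
        (h1.trans (mul_le_mul_of_nonneg_right h2 (S.es_nonneg _)))
      have := mul_le_mul_of_nonneg_right (by linarith : ((S.s - (r + 1) : ℕ) : ℝ) ≤ S.s)
        (inv_pos.2 hH).le
      unfold L
      linarith
    calc x ^ (r + 1) * S.es (S.s - (r + 1)) = x ^ r * (x * S.es (S.s - (r + 1))) := by ring
      _ ≤ x ^ r * (S.s * S.es (S.s - r)) := by gcongr
      _ = S.s * (x ^ r * S.es (S.s - r)) := by ring
      _ ≤ S.s * ((S.s : ℝ) ^ r * S.es S.s) :=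
        mul_le_mul_of_nonneg_left (ih (by omega)) (Nat.cast_nonneg _)
      _ = _ := by ring

lemma SPSysA_up (k : ℕ) : (S.s : ℝ) ^ k * S.es (S.s + k) ≤ S.L ^ k * S.es S.s := by
  induction k with
  | zero => simp
  | succ k ih =>
    have h1 := esym_succ_le (I := S.E) (ν := S.nu) (fun i _ => (S.nu_pos i).le) (S.s + k)
    have h2 : (S.s : ℝ) ≤ ((S.s + k : ℕ) : ℝ) + 1 := by exact_mod_cast (by omega)
    have h3 : S.s * S.es (S.s + k + 1) ≤ S.L * S.es (S.s + k) :=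
      (mul_le_mul_of_nonneg_right h2 (S.es_nonneg _)).trans h1
    have := S.L_nonneg
    calc (S.s : ℝ) ^ (k + 1) * S.es (S.s + (k + 1))
        = (S.s : ℝ) ^ k * (S.s * S.es (S.s + k + 1)) := by rw [← add_assoc]; ring
      _ ≤ (S.s : ℝ) ^ k * (S.L * S.es (S.s + k)) := by gcongr
      _ = S.L * ((S.s : ℝ) ^ k * S.es (S.s + k)) := by ring
      _ ≤ S.L * (S.L ^ k * S.es S.s) := by gcongr
      _ = _ := by ring

lemma es_mul_le (hL : 1 / 2 ≤ S.L) (hLs : S.L ≤ S.s) {r : ℕ} (hr : r ≤ S.k) :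
    S.es (S.s - r) * S.es (S.s + S.k) ≤ 2 * S.es S.s ^ 2 := by
  have hH : 0 < S.H0 := lt_of_lt_of_le (by norm_num) S.H0_big
  have hΛ := S.big
  have hL0 : 0 < S.L := by linarith
  have hs0 : (0 : ℝ) < S.s := by linarith
  have hrs : r ≤ S.s := hr.trans S.k_le
  have hrs' : (r : ℝ) ≤ S.s := by exact_mod_cast hrs
  have hs1 : (1 : ℝ) ≤ S.s := by exact_mod_cast (by have := S.k_ge; have := S.k_le; omega)
  have hb : (S.s : ℝ) * (2 * S.s * S.H0⁻¹) ≤ 1 / 2 := by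
    clear * - ι S hΛ hs0 hH
    have h1 : S.Λ ^ 3 ≤ S.H0 := (pow_le_pow_right₀ (by linarith) (by norm_num)).trans S.Λ_pow_le
    have h2 : (S.s : ℝ) ^ 2 ≤ S.Λ ^ 2 := pow_le_pow_left₀ hs0.le S.s_le 2
    have h3 : 4 * S.Λ ^ 2 ≤ S.Λ ^ 3 := by nlinarith [sq_nonneg S.Λ]
    rw [← mul_assoc, ← div_eq_mul_inv, div_le_iff₀ hH]
    nlinarith
  set y : ℝ := 2 * S.s * S.H0⁻¹ with hy
  have hy0 : 0 ≤ y := by positivity
  have hy1 : y ≤ 1 / 2 := by clear * - y ι S hs1 hb hL hLs; nlinarith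
  have h1 := S.SPSysA_down (x := S.L * (1 - y)) (mul_nonneg hL0.le (by linarith))
    (by clear * - ι S y hL hy0 hH hrs hs0; nlinarith [mul_nonneg hs0.le (inv_pos.2 hH).le]) hrs
  have h2 : 1 / 2 ≤ (1 - y) ^ r := by
    clear * - r y ι S hy1 hrs' hb hL hLs
    have := one_add_mul_le_pow (a := -y) (by linarith) r
    rw [← sub_eq_add_neg] at this
    nlinarith
  have h3 : (S.s : ℝ) ^ r * S.es (S.s + S.k) ≤ S.L ^ r * S.es S.s := by
    clear * - ι S r hr hL0 hLs hs0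
    obtain ⟨t, ht⟩ := Nat.exists_eq_add_of_le hr
    have h4 := S.SPSysA_up S.k
    have h5 : S.L ^ t ≤ (S.s : ℝ) ^ t := pow_le_pow_left₀ hL0.le hLs t
    refine le_of_mul_le_mul_left ?_ (pow_pos hs0 t)
    have h6 := mul_le_mul_of_nonneg_right h5 (mul_nonneg (pow_pos hL0 r).le (S.es_nonneg S.s))
    have e1 : (S.s : ℝ) ^ S.k = (S.s : ℝ) ^ r * (S.s : ℝ) ^ t := by rw [← pow_add, ← ht]
    have e2 : S.L ^ S.k = S.L ^ r * S.L ^ t := by rw [← pow_add, ← ht]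
    rw [e1, e2] at h4
    linarith
  have a1 := S.es_nonneg (S.s - r)
  have a2 := S.es_nonneg (S.s + S.k)
  have a3 := S.es_nonneg S.s
  have h4 : S.L ^ r * S.es (S.s - r) ≤ 2 * ((S.s : ℝ) ^ r * S.es S.s) := by
    clear * - ι S r y h1 h2 hL0 a1
    rw [mul_pow] at h1
    nlinarith [mul_le_mul_of_nonneg_left h2 (mul_nonneg (pow_pos hL0 r).le a1)]
  refine le_of_mul_le_mul_left ?_ (pow_pos hL0 r)
  calc S.L ^ r * (S.es (S.s - r) * S.es (S.s + S.k))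
      = S.L ^ r * S.es (S.s - r) * S.es (S.s + S.k) := by ring
    _ ≤ 2 * ((S.s : ℝ) ^ r * S.es S.s) * S.es (S.s + S.k) := by gcongr
    _ = 2 * S.es S.s * ((S.s : ℝ) ^ r * S.es (S.s + S.k)) := by ring
    _ ≤ 2 * S.es S.s * (S.L ^ r * S.es S.s) := by gcongr
    _ = _ := by ring

lemma SPSysA_rho : 1 ≤ S.rho := by
  have hΛ := S.big
  have hD : (1 : ℝ) ≤ S.D := by exact_mod_cast S.one_le_D
  have hD' : (1 : ℝ) ≤ S.D' := by exact_mod_cast S.one_le_D'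
  have h1 : (1 : ℝ) ≤ S.Λ ^ 10 := one_le_pow₀ (by linarith)
  have h2 : (1 : ℝ) ≤ S.D' * (1 / √S.D' + 1 / √S.Q) := by
    have h3 : (1 : ℝ) ≤ S.D' * (1 / √S.D') := by
      rw [mul_one_div, Real.div_sqrt]
      exact Real.one_le_sqrt.2 hD'
    have h4 : 0 ≤ (S.D' : ℝ) * (1 / √S.Q) := by positivity
    rw [mul_add]
    linarith
  rw [rho, mul_assoc]
  exact one_le_mul_of_one_le_of_one_le (one_le_mul_of_one_le_of_one_le h1 hD) h2

theorem ip_GX_le {N n M J : ℕ} {i0 : ι} (hi0 : i0 ∉ S.E) (hn : 1 ≤ n)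
    (hN : 40 * (n * S.h.natAbs) ≤ N) (hW : 10 * (S.T * N) < S.m i0) (hM : 1 ≤ M)
    (hMΛ : (M : ℝ) ≤ S.Λ)
    (hMM : S.m i0 * (((2 * S.R + 1) * S.H1 ^ (10 * S.s)) ^ (n + 1)) ^ 2 *
      (4 ^ ((n + 1) * (8 * S.s)) * Real.exp (4 * ((n + 1) * 3 : ℕ) * S.L)) ≤ 4 ^ M)
    (hJ1 : (2 * (n * S.R) + 1) * (((2 * S.R + 1) * S.H1 ^ (10 * S.s)) ^ n) ^ 2 *
      (2 * (((2 * (n * 3) : ℕ) * S.L) ^ (J + 1) / (J + 1).factorial)) ≤ 1)
    (hJ2 : (2 * (n * S.R) + 1) * (((2 * S.R + 1) * S.H1 ^ (10 * S.s)) ^ n) ^ 2 *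
      (S.H1 ^ (2 * (n * (8 * S.s))) * (1 + (2 * (n * 3) : ℕ) * S.H1) ^ (J + 1)) ≤ N)
    (hn2 : 120 * (n * S.R) * Real.exp (-(2 * n)) ≤ S.es (S.s + S.k'))
    {g : ℤ → ℂ} (hg1 : ∀ y, ‖g y‖ ≤ 1) :
    ‖S.ip (S.GX N g) (S.Xop S.Kk (S.GX N g))‖ ≤ 90 * S.rho * (S.T * N) * S.es (S.s + S.k') := by
  have hρ := S.SPSysA_rho
  have hR : 20 * (n * S.R) ≤ S.T * N := by
    clear * - ι S n N hN
    have := Nat.mul_le_mul_left S.T hN
    rw [R]
    nlinarith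
  have hR1 : S.R ≤ n * S.R := Nat.le_mul_of_pos_left _ hn
  have hNT : N ≤ S.T * N := Nat.le_mul_of_pos_left _ S.T_pos
  have h2 : 2 * S.T * N = 2 * (S.T * N) := by ring
  have hnn := S.nn_GX_le (N := N)
    (by have := Nat.le_mul_of_pos_left S.h.natAbs hn; omega) hW hg1
  set Θ : ℝ := Real.exp 1 * (2 * S.rho + 1) with hΘ
  have hΘ0 : 0 < Θ := by positivity
  have hw := S.win S.Kk_herm hn (i0 := i0) (lo := (S.T * N : ℕ) - S.R)
    (hi := (2 * S.T * N : ℕ) + S.R) (by rw [h2]; omega) (S.norm_Gt_le hg1) hΘ0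
  have hit := S.iter (C := S.Cg) (one_le_pow₀ S.repK_one_le) (by clear * - ι S hρ hM hMM hMΛ hi0 hn; linarith : 0 ≤ S.rho) S.rep_Kk
    ((S.rep_Cg.weaken subset_rfl (by omega) (by norm_num)).mono (S.repK_pow_le (by omega)))
    (fun _ _ h => S.Kk_supp h) hM
    (fun _ _ hg hf => S.core (by exact_mod_cast hM) hMΛ hg hf) hi0 hn (by omega) hMM
  have htr := S.Psi_transfer S.rep_Kk n J ((S.T * N : ℕ) - S.R - 4 * (n * S.R : ℕ))
    (S.T * N + 2 * S.R + 8 * (n * S.R))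
  rw [show ((S.T * N : ℕ) : ℤ) - S.R - 4 * (n * S.R : ℕ) +
      (S.T * N + 2 * S.R + 8 * (n * S.R) : ℕ) =
      (2 * S.T * N : ℕ) + S.R + 4 * (n * S.R : ℕ) by rw [h2]; omega] at htr
  have hY : ((S.T * N + 2 * S.R + 8 * (n * S.R) : ℕ) : ℝ) ≤ 3 / 2 * (S.T * N) := by
    clear * - ι S N n M i0 hR hR1
    have : ((2 * (S.T * N + 2 * S.R + 8 * (n * S.R)) : ℕ) : ℝ) ≤ (3 * (S.T * N) : ℕ) :=
      Nat.cast_le.2 (by omega)
    push_cast at this ⊢
    linarith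
  have hY0 : (0 : ℝ) ≤ ((S.T * N + 2 * S.R + 8 * (n * S.R) : ℕ) : ℝ) := Nat.cast_nonneg _
  generalize ((S.T * N + 2 * S.R + 8 * (n * S.R) : ℕ) : ℝ) = Y at htr hY hY0
  have hNT' : (N : ℝ) ≤ S.T * N := by exact_mod_cast hNT
  have hTN : (0 : ℝ) ≤ S.T * N := by positivity
  have hP : 1 ≤ (2 * S.rho + 1) ^ (2 * n) := one_le_pow₀ (by clear * - ι S hρ n; linarith)
  have hG : (0 : ℝ) < Fintype.card S.G := by exact_mod_cast Fintype.card_pos
  have h3 : (Fintype.card S.G : ℝ)⁻¹ * ∑ ξ, S.Psi S.Kk n ξ ≤ 2 * (2 * S.rho + 1) ^ (2 * n) := by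
    clear * - ι S n hG hit
    rw [inv_mul_le_iff₀ hG]
    linarith
  have h4 := htr.trans (show _ ≤ 11 / 2 * (S.T * N) * (2 * S.rho + 1) ^ (2 * n) by
    clear * - Y ι S n h3 hY0 J hJ1 N hP hTN hY hJ2 hNT'
    have a1 := mul_le_mul_of_nonneg_left h3 hY0
    have a2 := mul_le_mul_of_nonneg_left hJ1 hY0
    have a3 := mul_le_mul_of_nonneg_left hP hTN
    have a4 := mul_le_mul_of_nonneg_right hY (zero_le_one.trans hP)
    linarith)
  have h5 : (2 * S.rho + 1) ^ (2 * n) = Θ ^ (2 * n - 1) * (Θ * Real.exp (-(2 * n))) := by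
    rw [← mul_assoc, ← pow_succ, show 2 * n - 1 + 1 = 2 * n by omega, hΘ, mul_pow,
      ← Real.exp_nat_mul, mul_right_comm, ← Real.exp_add]
    simp
  have h6 : 15 * (n * S.R) / Θ ^ (2 * n - 1) *
      (11 / 2 * (S.T * N) * (2 * S.rho + 1) ^ (2 * n)) =
      11 / 16 * (Θ * (S.T * N)) * (120 * (n * S.R) * Real.exp (-(2 * n))) := by
    clear * - n ι S Θ N h5 hΘ0 hn
    rw [h5]
    field_simp
    ring
  have h7 := mul_le_mul_of_nonneg_left h4
    (show (0 : ℝ) ≤ 15 * (n * S.R) / Θ ^ (2 * n - 1) by positivity)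
  have h8 := mul_le_mul_of_nonneg_left hn2 (show 0 ≤ 11 / 16 * (Θ * (S.T * N)) by positivity)
  have h9 := mul_le_mul_of_nonneg_left hnn hΘ0.le
  have h10 : Θ ≤ 9 * S.rho := by
    clear * - Θ ι S hΘ hρ
    have := Real.exp_one_lt_d9
    rw [hΘ]
    nlinarith
  have h11 := mul_le_mul_of_nonneg_right h10 (mul_nonneg hTN (S.es_nonneg (S.s + S.k')))
  have h12 := mul_nonneg (by clear * - ι S hρ hTN; linarith : 0 ≤ S.rho) (mul_nonneg hTN (S.es_nonneg (S.s + S.k')))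
  rw [h6] at h7
  unfold GX at h9 ⊢
  clear * - ι S N g Θ n hw h7 h8 h9 h11 h12
  linarith

end Sys

end Pool.Agent.Work.MP_678620_nt
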