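import Pool.Agent.Work.MP_678620_nt.SPBasic

/-! The type II estimate. -/

set_option autoImplicit false
open Finset Pool.Agent.Lib.LargeSieve

namespace Pool.Agent.Work.MP_678620_nt

lemma TII_dZ_nat_mul (n : ℕ) (x : ℝ) : dZ (n * x) ≤ n * dZ x := by
  refine (dZ_le _ (n * round x)).trans (le_of_eq ?_)
  unfold dZ
  push_cast
  rw [← mul_sub, abs_mul, Nat.abs_cast]

lemma TII_spaced {β : ℝ} {r : ℚ} (hr : |β - r| ≤ 1 / (r.den : ℝ) ^ 2) {k : ℤ} (hk0 : k ≠ 0)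
    (hk : 2 * |k| ≤ r.den) : 1 / ((2 * r.den : ℕ) : ℝ) ≤ dZ (β * k) := by
  have hq : (0 : ℝ) < r.den := by exact_mod_cast r.den_pos
  have hne : k * r.num - round (β * k) * r.den ≠ 0 := by
    intro h
    have h1 : (r.den : ℤ) ∣ k * r.num := ⟨round (β * k), by linarith⟩
    have h2 : IsCoprime (r.den : ℤ) r.num := by
      rw [Int.isCoprime_iff_gcd_eq_one, Int.gcd_comm]
      exact r.reduced
    have h3 := Int.le_of_dvd (abs_pos.2 hk0) ((dvd_abs _ _).2 (h2.dvd_of_dvd_mul_right h1))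
    have h4 := abs_pos.2 hk0
    omega
  have h1 : (1 : ℝ) ≤ |((k * r.num - round (β * k) * r.den : ℤ) : ℝ)| := by
    exact_mod_cast Int.one_le_abs hne
  have h2 : (k : ℝ) * r - round (β * k) = ((k * r.num - round (β * k) * r.den : ℤ) : ℝ) / r.den := by
    rw [Rat.cast_def]
    push_cast
    field_simp
  have h3 : 1 / (r.den : ℝ) ≤ |(k : ℝ) * r - round (β * k)| := by
    rw [h2, abs_div, abs_of_pos hq]
    gcongr
  have hk' : 2 * |(k : ℝ)| ≤ r.den := by exact_mod_cast hk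
  have h4 : |(k : ℝ) * (β - r)| ≤ 1 / (2 * r.den) := by
    clear * - k β r hk' hr
    rw [abs_mul]
    calc |(k : ℝ)| * |β - r| ≤ (r.den / 2) * (1 / (r.den : ℝ) ^ 2) := by
          gcongr
          linarith
      _ = 1 / (2 * r.den) := by field_simp
  have h5 : (k : ℝ) * r - round (β * k) = (β * k - round (β * k)) - k * (β - r) := by ring
  have h6 := abs_sub (β * k - round (β * k)) ((k : ℝ) * (β - r))
  rw [← h5] at h6
  have h7 : 1 / (r.den : ℝ) = 1 / (2 * r.den) + 1 / (2 * r.den) := by field_simp; ring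
  unfold dZ
  push_cast
  linarith

theorem typeII_int {β Jc P : ℝ} {Q : ℕ} (hQ : 1 ≤ Q) (hJ : (Q : ℝ) ≤ Jc) (hP : 0 ≤ P)
    (hβ : ∀ q : ℕ, 1 ≤ q → q ≤ Q → Q / Jc < dZ (β * q)) {α : Type*} (I : Finset α) (n : α → ℕ)
    (hn : Set.InjOn n I) (hI : ∀ p ∈ I, P ≤ n p ∧ (n p : ℝ) ≤ 2 * P) (x : α → ℂ) (N2 : ℕ) :
    ∑ w ∈ range N2, ‖∑ p ∈ I, x p * ee (w * (β * n p))‖ ^ 2
      ≤ (2 * P * N2 / Q + N2 + (4 * P + 2 * Jc / Q) * (1 + Real.log (2 * Jc)))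
        * ∑ p ∈ I, ‖x p‖ ^ 2 := by
  classical
  have hQ' : (0 : ℝ) < Q := by exact_mod_cast hQ
  have hQ1 : (1 : ℝ) ≤ Q := by exact_mod_cast hQ
  have hJ0 : 0 < Jc := by linarith
  have hn0 : 0 < ⌊Jc / Q⌋₊ := Nat.floor_pos.2 (by rw [le_div_iff₀ hQ']; linarith)
  obtain ⟨r, hr1, hr2⟩ := Real.exists_rat_abs_sub_le_and_den_le β hn0
  have hq : (0 : ℝ) < r.den := by exact_mod_cast r.den_pos
  have hr2' : (r.den : ℝ) ≤ ⌊Jc / Q⌋₊ := by exact_mod_cast hr2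
  have hqJ : (r.den : ℝ) ≤ Jc / Q := hr2'.trans (Nat.floor_le (by positivity))
  have hQq : (Q : ℝ) ≤ r.den := by
    clear * - Q r Jc β hβ hr1 hn0 hJ0 hQ' hq
    by_contra hc
    push Not at hc
    have h1 := hβ r.den r.den_pos (by exact_mod_cast hc.le)
    have h2 := dZ_le (β * r.den) r.num
    have h3 : β * r.den - r.num = (β - r) * r.den := by
      rw [Rat.cast_def]
      field_simp
    rw [h3, abs_mul, abs_of_pos hq] at h2
    have h4 : |β - r| * r.den ≤ 1 / (⌊Jc / Q⌋₊ + 1) := by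
      calc |β - r| * r.den ≤ 1 / ((⌊Jc / Q⌋₊ + 1) * r.den) * r.den := by gcongr
        _ = 1 / (⌊Jc / Q⌋₊ + 1) := by field_simp
    have h5 : 1 / ((⌊Jc / Q⌋₊ : ℝ) + 1) ≤ Q / Jc := by
      rw [← one_div_div Jc Q]
      exact one_div_le_one_div_of_le (div_pos hJ0 hQ') (Nat.lt_floor_add_one _).le
    linarith
  have hr3 : |β - r| ≤ 1 / (r.den : ℝ) ^ 2 := by
    clear * - β r Jc Q hr1 hr2'
    refine hr1.trans (one_div_le_one_div_of_le (by positivity) ?_)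
    rw [sq]
    gcongr
    linarith
  set b : α → ℕ := fun p => (n p - ⌈P⌉₊) / (r.den / 2 + 1) with hb
  set B : ℕ := ⌊2 * P / r.den⌋₊ + 1 with hB
  have hmaps : ∀ p ∈ I, b p ∈ range B := by
    clear * - α I B b P r hB n hI Jc Q hq hP
    intro p hp
    rw [mem_range, hB, Nat.lt_succ_iff]
    refine Nat.le_floor ?_
    have h1 : ⌈P⌉₊ ≤ n p := Nat.ceil_le.2 (hI p hp).1
    have h2 : ((n p - ⌈P⌉₊ : ℕ) : ℝ) ≤ P := by
      rw [Nat.cast_sub h1]
      linarith [Nat.le_ceil P, (hI p hp).2]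
    have h3 : (r.den : ℝ) ≤ 2 * ((r.den / 2 + 1 : ℕ) : ℝ) := by
      have : r.den ≤ 2 * (r.den / 2 + 1) := by omega
      exact_mod_cast this
    refine Nat.cast_div_le.trans ?_
    rw [div_le_div_iff₀ (by positivity) hq]
    calc ((n p - ⌈P⌉₊ : ℕ) : ℝ) * r.den ≤ P * (2 * ((r.den / 2 + 1 : ℕ) : ℝ)) := by gcongr
      _ = _ := by ring
  have hblock : ∀ t, ∑ w ∈ range N2, ‖∑ p ∈ I.filter (fun p => b p = t),
      x p * ee (w * (β * n p))‖ ^ 2 ≤ (N2 + (2 * r.den : ℕ) * HH (2 * r.den)) *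
        ∑ p ∈ I.filter (fun p => b p = t), ‖x p‖ ^ 2 := by
    clear * - α b I β n r Jc P Q hI hn hr3 N2 x
    intro t
    refine largeSieve_dual _ (fun p => β * n p) (2 * r.den) (by have := r.den_pos; omega) ?_ N2 x
    intro p hp p' hp' hne
    rw [mem_filter] at hp hp'
    have h1 : ⌈P⌉₊ ≤ n p := Nat.ceil_le.2 (hI p hp.1).1
    have h2 : ⌈P⌉₊ ≤ n p' := Nat.ceil_le.2 (hI p' hp'.1).1
    have h3 : n p ≠ n p' := fun h => hne (hn hp.1 hp'.1 h)
    have h4 : (n p - ⌈P⌉₊) / (r.den / 2 + 1) = (n p' - ⌈P⌉₊) / (r.den / 2 + 1) :=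
      hp.2.trans hp'.2.symm
    have h5 := Nat.div_add_mod (n p - ⌈P⌉₊) (r.den / 2 + 1)
    have h6 := Nat.div_add_mod (n p' - ⌈P⌉₊) (r.den / 2 + 1)
    have h7 := Nat.mod_lt (n p - ⌈P⌉₊) (show 0 < r.den / 2 + 1 by omega)
    have h8 := Nat.mod_lt (n p' - ⌈P⌉₊) (show 0 < r.den / 2 + 1 by omega)
    rw [h4] at h5
    have h9 := TII_spaced hr3 (k := (n p : ℤ) - n p') (by omega) (by
      generalize (r.den / 2 + 1) * ((n p' - ⌈P⌉₊) / (r.den / 2 + 1)) = u at h5 h6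
      rcases abs_cases ((n p : ℤ) - n p') with h | h <;> omega)
    refine h9.trans (le_of_eq ?_)
    congr 1
    push_cast
    ring
  have hH : HH (2 * r.den) ≤ 1 + Real.log (2 * Jc) := by
    clear * - r Jc Q hJ0 hQ1 hqJ
    refine (HH_le _).trans ?_
    have h1 : Jc / Q ≤ Jc := div_le_self hJ0.le hQ1
    push_cast
    gcongr
    linarith
  have hH0 := HH_nonneg (2 * r.den)
  have hX : 0 ≤ ∑ p ∈ I, ‖x p‖ ^ 2 := sum_nonneg fun _ _ => by positivity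
  calc ∑ w ∈ range N2, ‖∑ p ∈ I, x p * ee (w * (β * n p))‖ ^ 2
      ≤ ∑ w ∈ range N2, (B : ℝ) * ∑ t ∈ range B, ‖∑ p ∈ I.filter (fun p => b p = t),
          x p * ee (w * (β * n p))‖ ^ 2 := by
        refine sum_le_sum fun w _ => ?_
        rw [← sum_fiberwise_of_maps_to hmaps]
        simpa using norm_sq_sum_le (range B) fun t => ∑ p ∈ I.filter (fun p => b p = t),
          x p * ee (w * (β * n p))
    _ = (B : ℝ) * ∑ t ∈ range B, ∑ w ∈ range N2, ‖∑ p ∈ I.filter (fun p => b p = t),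
          x p * ee (w * (β * n p))‖ ^ 2 := by rw [← mul_sum, sum_comm]
    _ ≤ (B : ℝ) * ∑ t ∈ range B, (N2 + (2 * r.den : ℕ) * HH (2 * r.den)) *
        ∑ p ∈ I.filter (fun p => b p = t), ‖x p‖ ^ 2 := by
        gcongr with t _
        exact hblock t
    _ = (B * (N2 + (2 * r.den : ℕ) * HH (2 * r.den))) * ∑ p ∈ I, ‖x p‖ ^ 2 := by
        rw [← mul_sum, sum_fiberwise_of_maps_to hmaps, mul_assoc]
    _ ≤ _ := by
        clear * - α I x B N2 r P Q Jc hB hP hH0 hQ hQq hqJ hH hJ0 hX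
        refine mul_le_mul_of_nonneg_right ?_ hX
        have h1 : (B : ℝ) ≤ 2 * P / r.den + 1 := by
          rw [hB]
          push_cast
          linarith [Nat.floor_le (show 0 ≤ 2 * P / r.den by positivity)]
        calc (B : ℝ) * (N2 + (2 * r.den : ℕ) * HH (2 * r.den))
            ≤ (2 * P / r.den + 1) * (N2 + (2 * r.den : ℕ) * HH (2 * r.den)) := by gcongr
          _ = 2 * P * N2 / r.den + N2 + (4 * P + 2 * r.den) * HH (2 * r.den) := by
              push_cast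
              field_simp
              ring
          _ ≤ 2 * P * N2 / Q + N2 + (4 * P + 2 * (Jc / Q)) * (1 + Real.log (2 * Jc)) := by gcongr
          _ = _ := by ring

namespace Sys

variable {ι : Type} [Fintype ι] [DecidableEq ι] (S : Sys ι)

variable {S} in
lemma Minor.mono {a c : Finset ι} {α : ℝ} (h : S.Minor a α) (hc : c ⊆ a) : S.Minor c α := by
  intro q hq1 hq2
  have h1 := h q hq1 hq2
  have hd : Disjoint c (a \ c) := disjoint_sdiff
  have hu : c ∪ (a \ c) = a := union_sdiff_of_subset hc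
  have h2 := S.jp_union hd
  have h3 := S.pr_union hd
  rw [hu] at h2 h3
  have h4 := TII_dZ_nat_mul (S.pr (a \ c)) (α * S.jp c * q)
  have h5 : α * S.jp a * q = S.pr (a \ c) * (α * S.jp c * q) := by
    rw [h2]
    push_cast
    ring
  have h6 : (S.Q : ℝ) * S.pr a / S.T = S.pr (a \ c) * ((S.Q : ℝ) * S.pr c / S.T) := by
    rw [h3]
    push_cast
    ring
  rw [h5, h6] at h1
  exact lt_of_mul_lt_mul_left (h1.trans_le h4) (Nat.cast_nonneg _)

lemma TII_QL : (S.Q : ℝ) * S.Λ ≤ S.H0 := by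
  simpa using S.mono_le_H0 (a := 0) (b := 0) (c := 1) (d := 1) (by norm_num) (by norm_num)
    (by norm_num) (by norm_num)

/-- The main part for one label. -/
lemma TII_main {c : Finset ι} {α : ℝ} (hα : S.Minor c α) {I : Finset ι} (hI : I ⊆ S.E) {P : ℝ}
    (hP0 : S.H0 ≤ P) (hP : ∀ p ∈ I, P ≤ S.m p ∧ (S.m p : ℝ) ≤ 2 * P) {M : Finset (Finset ι)}
    (hM : ∀ w ∈ M, w ⊆ S.E ∧ S.H0 ≤ S.pr w ∧ (S.T : ℝ) / S.pr c ≤ 2 * P * S.pr w ∧
      P * S.pr w ≤ 2 * ((S.T : ℝ) / S.pr c)) (x : ι → ℂ) :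
    ∑ w ∈ M, S.iv w * ‖∑ p ∈ I, (S.nu p : ℂ) * x p * ee (S.pr w * (-(α * S.jp c) * S.m p))‖ ^ 2
      ≤ 5 * S.Λ / S.Q * ∑ p ∈ I, S.nu p * ‖x p‖ ^ 2 := by
  have hΛ := S.big
  have hH := S.H0_big
  have hQL := S.TII_QL
  have hQ1 : (2 : ℝ) ≤ S.Q := by exact_mod_cast S.Q_ge
  have hX : 0 ≤ ∑ p ∈ I, S.nu p * ‖x p‖ ^ 2 :=
    sum_nonneg fun p _ => mul_nonneg (S.nu_pos p).le (by positivity)
  rcases M.eq_empty_or_nonempty with rfl | ⟨w0, hw0⟩
  · rw [sum_empty]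
    positivity
  obtain ⟨Jc, hJc⟩ : ∃ Jc : ℝ, Jc = (S.T : ℝ) / S.pr c := ⟨_, rfl⟩
  have hT : (1 : ℝ) ≤ S.T := by exact_mod_cast S.T_pos
  have hc1 : (1 : ℝ) ≤ S.pr c := by exact_mod_cast S.pr_pos c
  have hJT : Jc ≤ S.T := by rw [hJc]; exact div_le_self (by linarith) hc1
  rw [← hJc] at hM
  have hH0 : 0 < S.H0 := lt_of_lt_of_le (by positivity) hH
  have hPp : 0 < P := by linarith
  have hPJ : P * S.H0 ≤ 2 * Jc := le_trans (by gcongr; exact (hM w0 hw0).2.1) (hM w0 hw0).2.2.2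
  have hQH : (S.Q : ℝ) ≤ S.H0 := by clear * - ι S hH hQL hΛ; nlinarith
  have hH2 : (2 : ℝ) ≤ S.H0 := le_trans (by norm_num) hH
  have hPJ' : P ≤ Jc := by clear * - P Jc ι S hP0 hH hPJ; nlinarith
  have hJ0 : 0 < Jc := by linarith
  have hint := typeII_int (β := -(α * S.jp c)) (Jc := Jc) (P := P) (Q := S.Q)
    (by have := S.Q_ge; omega) (by linarith) hPp.le (fun q hq1 hq2 => by
      have h1 := hα q hq1 hq2
      rw [neg_mul, dZ_neg, hJc, div_div_eq_mul_div]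
      exact h1) I S.m (fun p hp p' _ h => S.m_inj (hI hp) h) hP (fun p => (S.nu p : ℂ) * x p)
    (⌊2 * Jc / P⌋₊ + 1)
  have hN2 : ((⌊2 * Jc / P⌋₊ + 1 : ℕ) : ℝ) ≤ 3 * Jc / P := by
    clear * - Jc P hJ0 hPp hPJ'
    push_cast
    have h1 := Nat.floor_le (show 0 ≤ 2 * Jc / P by positivity)
    have h2 : 1 ≤ Jc / P := by rw [le_div_iff₀ hPp]; linarith
    have h3 : 3 * Jc / P = 2 * Jc / P + Jc / P := by ring
    linarith
  set N2 := ⌊2 * Jc / P⌋₊ + 1 with hN2d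
  have hy : ∑ p ∈ I, ‖(S.nu p : ℂ) * x p‖ ^ 2 ≤ P⁻¹ * ∑ p ∈ I, S.nu p * ‖x p‖ ^ 2 := by
    rw [mul_sum]
    refine sum_le_sum fun p hp => ?_
    have h1 : S.nu p ≤ P⁻¹ := inv_anti₀ hPp (hP p hp).1
    have h2 := S.nu_pos p
    rw [norm_mul, Complex.norm_real, Real.norm_of_nonneg h2.le, mul_pow, sq, mul_assoc]
    gcongr
  have hlog : 1 + Real.log (2 * Jc) ≤ S.Λ := by
    clear * - Jc ι S hJ0 hJT
    refine le_trans ?_ S.logT
    gcongr
    linarith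
  have hlog0 : 0 ≤ 1 + Real.log (2 * Jc) := by
    clear * - Jc ι S P hP0 hH hPJ'
    have := Real.log_nonneg (show 1 ≤ 2 * Jc by linarith)
    linarith
  calc _ ≤ ∑ w ∈ M, 2 * P / Jc *
        ‖∑ p ∈ I, (S.nu p : ℂ) * x p * ee (S.pr w * (-(α * S.jp c) * S.m p))‖ ^ 2 := by
        clear * - ι S I x α c P Jc M hJ0 hM
        refine sum_le_sum fun w hw => mul_le_mul_of_nonneg_right ?_ (by positivity)
        have h1 : (0 : ℝ) < S.pr w := by exact_mod_cast S.pr_pos w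
        rw [iv, inv_eq_one_div, div_le_div_iff₀ h1 hJ0]
        linarith [(hM w hw).2.2.1]
    _ ≤ 2 * P / Jc * ∑ t ∈ range N2,
        ‖∑ p ∈ I, (S.nu p : ℂ) * x p * ee (t * (-(α * S.jp c) * S.m p))‖ ^ 2 := by
        clear * - ι M P Jc I S x α c N2 hM hN2d hPp hJ0
        rw [← mul_sum]
        refine mul_le_mul_of_nonneg_left ?_ (by positivity)
        rw [← sum_image (s := M) (g := S.pr) (f := fun t : ℕ =>
          ‖∑ p ∈ I, (S.nu p : ℂ) * x p * ee (t * (-(α * S.jp c) * S.m p))‖ ^ 2)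
          fun w hw w' hw' h => S.pr_inj (hM w hw).1 (hM w' hw').1 h]
        refine sum_le_sum_of_subset_of_nonneg (fun t ht => ?_) fun _ _ _ => by positivity
        obtain ⟨w, hw, rfl⟩ := mem_image.1 ht
        rw [mem_range, hN2d, Nat.lt_succ_iff]
        refine Nat.le_floor ?_
        rw [le_div_iff₀ hPp]
        linarith [(hM w hw).2.2.2]
    _ ≤ 2 * P / Jc * ((2 * P * (3 * Jc / P) / S.Q + 3 * Jc / P + (4 * P + 2 * Jc / S.Q) * S.Λ) *
        (P⁻¹ * ∑ p ∈ I, S.nu p * ‖x p‖ ^ 2)) := by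
        clear * - P Jc N2 ι I S x α c hint hN2 hPp hQ1 hlog hJ0 hy hΛ
        refine mul_le_mul_of_nonneg_left (hint.trans ?_) (by positivity)
        gcongr
    _ = (12 / S.Q + 6 / P + 8 * (P * S.Λ / Jc) + 4 * S.Λ / S.Q) *
        ∑ p ∈ I, S.nu p * ‖x p‖ ^ 2 := by
        clear * - P Jc ι S I x hQ1 hPp hJ0
        field_simp
        ring
    _ ≤ _ := by
        clear * - ι I S x P Jc hQ1 hP0 hQH hJ0 hQL hPJ hH hΛ hX
        refine mul_le_mul_of_nonneg_right ?_ hX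
        have h1 : 6 / P ≤ 6 / S.Q := by gcongr; linarith
        have h2 : P * S.Λ / Jc ≤ 2 / S.Q := by
          rw [div_le_div_iff₀ hJ0 (by linarith)]
          nlinarith
        have h3 : 34 / (S.Q : ℝ) ≤ S.Λ / S.Q := by gcongr; linarith
        have h4 : 34 / (S.Q : ℝ) = 12 / S.Q + 6 / S.Q + 8 * (2 / S.Q) := by ring
        have h5 : 5 * S.Λ / S.Q = S.Λ / S.Q + 4 * S.Λ / S.Q := by ring
        linarith

/-- One label. -/
lemma TII_label {c : Finset ι} {α : ℝ} (hα : S.Minor c α) {j : ℕ} (hj : 1 ≤ j) (x : ι → ℂ)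
    (l : ℕ) :
    ∑ w ∈ (S.E \ c).powersetCard j, S.iv w * ‖∑ p ∈ (S.E \ (c ∪ w)).filter (fun p => S.lab p = l),
        if insert p (c ∪ w) ∈ S.DD then
          (S.nu p : ℂ) * x p * ee (-(α * S.jp (insert p (c ∪ w)))) else 0‖ ^ 2
      ≤ 12 * S.Λ / S.Q * ∑ p ∈ (S.E \ c).filter (fun p => S.lab p = l), S.nu p * ‖x p‖ ^ 2 := by
  have hΛ := S.big
  have hH := S.H0_big
  have hQL := S.TII_QL
  have hQ1 : (2 : ℝ) ≤ S.Q := by exact_mod_cast S.Q_ge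
  have hH0 : 0 < S.H0 := lt_of_lt_of_le (by positivity) hH
  set I := (S.E \ c).filter (fun p => S.lab p = l) with hId
  have hIE : I ⊆ S.E := (filter_subset _ _).trans sdiff_subset
  have hmemI : ∀ p, p ∈ I ↔ (p ∈ S.E ∧ p ∉ c) ∧ S.lab p = l := fun p => by
    rw [hId, mem_filter, mem_sdiff]
  have hX : 0 ≤ ∑ p ∈ I, S.nu p * ‖x p‖ ^ 2 :=
    sum_nonneg fun p _ => mul_nonneg (S.nu_pos p).le (by positivity)
  have hset : ∀ w, (S.E \ (c ∪ w)).filter (fun p => S.lab p = l) = I \ w := by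
    intro w
    ext p
    simp only [mem_filter, mem_sdiff, mem_union, hmemI]
    tauto
  simp_rw [hset]
  set M := ((S.E \ c).powersetCard j).filter
    (fun w => ∃ p0 ∈ I, p0 ∉ w ∧ insert p0 (c ∪ w) ∈ S.DD) with hMd
  have hzero : ∑ w ∈ (S.E \ c).powersetCard j, S.iv w * ‖∑ p ∈ I \ w,
      if insert p (c ∪ w) ∈ S.DD then
        (S.nu p : ℂ) * x p * ee (-(α * S.jp (insert p (c ∪ w)))) else 0‖ ^ 2 =
      ∑ w ∈ M, S.iv w * ‖∑ p ∈ I \ w, if insert p (c ∪ w) ∈ S.DD then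
        (S.nu p : ℂ) * x p * ee (-(α * S.jp (insert p (c ∪ w)))) else 0‖ ^ 2 := by
    refine (sum_subset (filter_subset _ _) fun w hw hw' => ?_).symm
    rw [sum_eq_zero, norm_zero, zero_pow two_ne_zero, mul_zero]
    intro p hp
    rw [mem_sdiff] at hp
    exact if_neg fun h => hw' (mem_filter.2 ⟨hw, p, hp.1, hp.2, h⟩)
  rw [hzero]
  rcases M.eq_empty_or_nonempty with hM0 | ⟨w0, hw0⟩
  · rw [hM0, sum_empty]
    positivity
  obtain ⟨p1, hp1, hmin⟩ := exists_min_image I S.m (by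
    obtain ⟨p0, hp0, -⟩ := (mem_filter.1 hw0).2
    exact ⟨p0, hp0⟩)
  have hP : ∀ p ∈ I, (S.m p1 : ℝ) ≤ S.m p ∧ (S.m p : ℝ) ≤ 2 * S.m p1 := fun p hp =>
    ⟨by exact_mod_cast hmin p hp, by
      exact_mod_cast S.lab_close p (hIE hp) p1 (hIE hp1)
        (((hmemI p).1 hp).2.trans ((hmemI p1).1 hp1).2.symm)⟩
  have hMw : ∀ w ∈ M, w ⊆ S.E ∧ Disjoint c w ∧ w.card = j := fun w hw => by
    have h1 := mem_powersetCard.1 (mem_filter.1 hw).1
    exact ⟨h1.1.trans sdiff_subset, disjoint_sdiff.mono_right h1.1, h1.2⟩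
  have hpr : ∀ w ∈ M, ∀ p ∈ I, p ∉ w → S.pr (insert p (c ∪ w)) = S.m p * (S.pr c * S.pr w) := by
    intro w hw p hp hpw
    rw [S.pr_insert (by simp [hpw, ((hmemI p).1 hp).1.2]), S.pr_union (hMw w hw).2.1]
  have hjs : (j : ℝ) ≤ S.Λ := by
    obtain ⟨p0, -, -, h0⟩ := (mem_filter.1 hw0).2
    have h1 := card_le_card (subset_union_right.trans (subset_insert p0 (c ∪ w0)))
    rw [S.DD_card _ h0, (hMw w0 hw0).2.2] at h1
    exact le_trans (by exact_mod_cast h1) S.s_le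
  have hmain := S.TII_main hα hIE (S.lo p1 (hIE hp1)) hP (M := M) (fun w hw => by
    clear * - ι I w S c p1 j hw hpr hP hMw hH hj hw0 x
    obtain ⟨p0, hp0, hp0w, h0⟩ := (mem_filter.1 hw).2
    have h1 : S.T ≤ S.pr (insert p0 (c ∪ w)) := S.DD_lo _ h0
    have h2 : S.pr (insert p0 (c ∪ w)) ≤ 2 * S.T := S.DD_hi _ h0
    rw [hpr w hw p0 hp0 hp0w] at h1 h2
    have h1' : (S.T : ℝ) ≤ S.m p0 * (S.pr c * S.pr w) := by exact_mod_cast h1
    have h2' : (S.m p0 : ℝ) * (S.pr c * S.pr w) ≤ 2 * S.T := by exact_mod_cast h2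
    have hc0 : (0 : ℝ) < S.pr c := by exact_mod_cast S.pr_pos c
    have hw0 : (0 : ℝ) < S.pr w := by exact_mod_cast S.pr_pos w
    have h3 := hP p0 hp0
    refine ⟨(hMw w hw).1, ?_, ?_, ?_⟩
    · refine le_trans ?_ (S.H0_pow_le_pr (hMw w hw).1)
      rw [(hMw w hw).2.2]
      exact le_self_pow₀ (le_trans (by norm_num) hH) (by omega)
    · rw [div_le_iff₀ hc0]
      calc (S.T : ℝ) ≤ S.m p0 * (S.pr c * S.pr w) := h1'
        _ ≤ 2 * S.m p1 * (S.pr c * S.pr w) := by gcongr; exact h3.2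
        _ = _ := by ring
    · rw [← mul_div_assoc, le_div_iff₀ hc0]
      calc (S.m p1 : ℝ) * S.pr w * S.pr c = S.m p1 * (S.pr c * S.pr w) := by ring
        _ ≤ S.m p0 * (S.pr c * S.pr w) := mul_le_mul_of_nonneg_right h3.1 (by positivity)
        _ ≤ _ := h2') x
  have hterm : ∀ w ∈ M, ‖∑ p ∈ I \ w, if insert p (c ∪ w) ∈ S.DD then
        (S.nu p : ℂ) * x p * ee (-(α * S.jp (insert p (c ∪ w)))) else 0‖ ^ 2 ≤
      2 * ‖∑ p ∈ I, (S.nu p : ℂ) * x p * ee (S.pr w * (-(α * S.jp c) * S.m p))‖ ^ 2 +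
        2 * (S.Λ / S.H0 * ∑ p ∈ I, S.nu p * ‖x p‖ ^ 2) := by
    clear * - ι M I S c x α j hIE l hmemI hpr hMw hjs hH hΛ
    intro w hw
    obtain ⟨p0, hp0, hp0w, h0⟩ := (mem_filter.1 hw).2
    have h1 : (∑ p ∈ I \ w, if insert p (c ∪ w) ∈ S.DD then
        (S.nu p : ℂ) * x p * ee (-(α * S.jp (insert p (c ∪ w)))) else 0) =
        ∑ p ∈ I \ w, (S.nu p : ℂ) * x p * ee (S.pr w * (-(α * S.jp c) * S.m p)) := by
      refine sum_congr rfl fun p hp => ?_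
      rw [mem_sdiff] at hp
      rw [if_pos (S.lab_DD _ p0 (hIE hp0) p (hIE hp.1) (by simp [hp0w, ((hmemI p0).1 hp0).1.2])
        (by simp [hp.2, ((hmemI p).1 hp.1).1.2])
        (((hmemI p0).1 hp0).2.trans ((hmemI p).1 hp.1).2.symm) h0)]
      congr 2
      rw [jp, jp, hpr w hw p hp.1 hp.2]
      push_cast
      ring
    have h2 := sum_inter_add_sum_sdiff I w
      fun p => (S.nu p : ℂ) * x p * ee (S.pr w * (-(α * S.jp c) * S.m p))
    have h3 := norm_sq_wsum (I ∩ w) (w := S.nu) (fun p _ => (S.nu_pos p).le)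
      fun p => x p * ee (S.pr w * (-(α * S.jp c) * S.m p))
    simp only [norm_mul, norm_ee, mul_one, ← mul_assoc] at h3
    have h4 : ∑ p ∈ I ∩ w, S.nu p ≤ S.Λ / S.H0 := by
      calc ∑ p ∈ I ∩ w, S.nu p ≤ ∑ _p ∈ I ∩ w, S.H0⁻¹ :=
            sum_le_sum fun p hp => S.nu_le (hIE (mem_inter.1 hp).1)
        _ = (I ∩ w).card * S.H0⁻¹ := by rw [sum_const, nsmul_eq_mul]
        _ ≤ S.Λ * S.H0⁻¹ := by
            gcongr
            refine le_trans ?_ hjs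
            rw [← (hMw w hw).2.2]
            exact_mod_cast card_le_card inter_subset_right
        _ = _ := by rw [div_eq_mul_inv]
    have h5 : ∑ p ∈ I ∩ w, S.nu p * ‖x p‖ ^ 2 ≤ ∑ p ∈ I, S.nu p * ‖x p‖ ^ 2 :=
      sum_le_sum_of_subset_of_nonneg inter_subset_left
        fun p _ _ => mul_nonneg (S.nu_pos p).le (by positivity)
    have h6 : 0 ≤ ∑ p ∈ I ∩ w, S.nu p * ‖x p‖ ^ 2 :=
      sum_nonneg fun p _ => mul_nonneg (S.nu_pos p).le (by positivity)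
    have h7 := h3.trans (mul_le_mul h4 h5 h6 (by positivity))
    rw [h1, eq_sub_of_add_eq' h2, sub_eq_add_neg]
    refine (norm_add_sq_le _ _).trans ?_
    rw [norm_neg]
    simp only [← mul_assoc] at h7 ⊢
    linarith
  have hiv : ∑ w ∈ M, S.iv w ≤ S.Λ :=
    le_trans (sum_le_sum_of_subset_of_nonneg (filter_subset _ _) fun w _ _ => (S.iv_pos w).le)
      (S.sum_iv_le sdiff_subset j)
  calc _ ≤ ∑ w ∈ M, S.iv w *
        (2 * ‖∑ p ∈ I, (S.nu p : ℂ) * x p * ee (S.pr w * (-(α * S.jp c) * S.m p))‖ ^ 2 +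
          2 * (S.Λ / S.H0 * ∑ p ∈ I, S.nu p * ‖x p‖ ^ 2)) :=
        sum_le_sum fun w hw => mul_le_mul_of_nonneg_left (hterm w hw) (S.iv_pos w).le
    _ = 2 * ∑ w ∈ M, S.iv w *
          ‖∑ p ∈ I, (S.nu p : ℂ) * x p * ee (S.pr w * (-(α * S.jp c) * S.m p))‖ ^ 2 +
        (∑ w ∈ M, S.iv w) * (2 * (S.Λ / S.H0 * ∑ p ∈ I, S.nu p * ‖x p‖ ^ 2)) := by
        rw [mul_sum M, sum_mul M, ← sum_add_distrib]
        exact sum_congr rfl fun w _ => by ring
    _ ≤ 2 * (5 * S.Λ / S.Q * ∑ p ∈ I, S.nu p * ‖x p‖ ^ 2) +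
        S.Λ * (2 * (1 / S.Q * ∑ p ∈ I, S.nu p * ‖x p‖ ^ 2)) := by
        clear * - ι S hH0 hQ1 hQL M I x α c hmain hiv hX hΛ hH
        have h1 : S.Λ / S.H0 ≤ 1 / S.Q := by
          rw [div_le_div_iff₀ hH0 (by linarith)]
          linarith
        gcongr
    _ = _ := by ring

theorem typeII {c : Finset ι} (hc : c ⊆ S.E) {α : ℝ} (hα : S.Minor c α) {j : ℕ} (hj : 1 ≤ j)
    (x : ι → ℂ) :
    ∑ w ∈ (S.E \ c).powersetCard j, S.iv w * ‖∑ p ∈ S.E \ (c ∪ w),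
        if insert p (c ∪ w) ∈ S.DD then
          (S.nu p : ℂ) * x p * ee (-(α * S.jp (insert p (c ∪ w)))) else 0‖ ^ 2
      ≤ S.Λ ^ 3 / S.Q * ∑ p ∈ S.E \ c, S.nu p * ‖x p‖ ^ 2 := by
  have hΛ := S.big
  have hQ1 : (2 : ℝ) ≤ S.Q := by exact_mod_cast S.Q_ge
  have hX : 0 ≤ ∑ p ∈ S.E \ c, S.nu p * ‖x p‖ ^ 2 :=
    sum_nonneg fun p _ => mul_nonneg (S.nu_pos p).le (by positivity)
  calc _ ≤ ∑ w ∈ (S.E \ c).powersetCard j, S.iv w * (S.Λ * ∑ l ∈ S.E.image S.lab,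
        ‖∑ p ∈ (S.E \ (c ∪ w)).filter (fun p => S.lab p = l), if insert p (c ∪ w) ∈ S.DD then
          (S.nu p : ℂ) * x p * ee (-(α * S.jp (insert p (c ∪ w)))) else 0‖ ^ 2) := by
        refine sum_le_sum fun w _ => mul_le_mul_of_nonneg_left ?_ (S.iv_pos w).le
        rw [← sum_fiberwise_of_maps_to (t := S.E.image S.lab) (g := S.lab)
          fun p hp => mem_image_of_mem _ (mem_sdiff.1 hp).1]
        exact (norm_sq_sum_le _ _).trans
          (mul_le_mul_of_nonneg_right S.lab_le (sum_nonneg fun _ _ => by positivity))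
    _ = S.Λ * ∑ l ∈ S.E.image S.lab, ∑ w ∈ (S.E \ c).powersetCard j, S.iv w *
        ‖∑ p ∈ (S.E \ (c ∪ w)).filter (fun p => S.lab p = l), if insert p (c ∪ w) ∈ S.DD then
          (S.nu p : ℂ) * x p * ee (-(α * S.jp (insert p (c ∪ w)))) else 0‖ ^ 2 := by
        rw [sum_comm, mul_sum]
        refine sum_congr rfl fun w _ => ?_
        rw [← mul_sum]
        ring
    _ ≤ S.Λ * ∑ l ∈ S.E.image S.lab, 12 * S.Λ / S.Q *
        ∑ p ∈ (S.E \ c).filter (fun p => S.lab p = l), S.nu p * ‖x p‖ ^ 2 :=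
        mul_le_mul_of_nonneg_left (sum_le_sum fun l _ => S.TII_label hα hj x l) (by linarith)
    _ = 12 * S.Λ ^ 2 / S.Q * ∑ p ∈ S.E \ c, S.nu p * ‖x p‖ ^ 2 := by
        rw [← mul_sum, sum_fiberwise_of_maps_to (t := S.E.image S.lab) (g := S.lab)
          fun p hp => mem_image_of_mem _ (mem_sdiff.1 hp).1]
        ring
    _ ≤ _ := by
        clear * - ι S hΛ c x hQ1 hX
        have h1 : 12 * S.Λ ^ 2 ≤ S.Λ ^ 3 := by nlinarith [sq_nonneg S.Λ]
        gcongr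

end Sys

end Pool.Agent.Work.MP_678620_nt
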