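import Pool.Agent.Work.MP_678620_nt.SPIter

/-! Windows. -/

set_option autoImplicit false
open Finset Pool.Agent.Lib.LargeSieve

namespace Pool.Agent.Work.MP_678620_nt

namespace Sys

variable {ι : Type} [Fintype ι] [DecidableEq ι] (S : Sys ι)

lemma ext_cast {i0 : ι} {lo hi : ℤ} (u : ℤ → ℂ) {y : ℤ} (h1 : |y - lo| < S.m i0)
    (h2 : |y - hi| < S.m i0) : S.ext lo hi u (y : S.G) = if y ∈ Ioc lo hi then u y else 0 := by
  rw [ext, ← Finset.sum_ite_eq' (Ioc lo hi) y u]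
  refine sum_congr rfl fun y' hy' => if_congr ⟨fun e => S.cast_inj (i0 := i0) ?_ e, ?_⟩ rfl rfl
  · rw [mem_Ioc] at hy'
    rw [abs_lt] at h1 h2 ⊢
    omega
  · rintro rfl
    rfl

lemma ext_ne_zero {lo hi : ℤ} {u : ℤ → ℂ} {ξ : S.G} (h : S.ext lo hi u ξ ≠ 0) :
    ∃ y ∈ Ioc lo hi, (y : S.G) = ξ ∧ u y ≠ 0 := by
  obtain ⟨y, hy, h1⟩ := exists_ne_zero_of_sum_ne_zero h
  by_cases e : (y : S.G) = ξ
  · exact ⟨y, hy, e, by rwa [if_pos e] at h1⟩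
  · exact (h1 (if_neg e)).elim

lemma Win_inj {i0 : ι} {lo hi : ℤ} (hW : hi - lo < S.m i0) :
    Set.InjOn (fun y : ℤ => (y : S.G)) (Ioc lo hi : Finset ℤ) := fun y hy y' hy' e => by
  refine S.cast_inj (i0 := i0) ?_ e
  rw [mem_coe, mem_Ioc] at hy hy'
  rw [abs_lt]
  omega

lemma Win_ext {i0 : ι} {lo hi : ℤ} (hW : hi - lo < S.m i0) (u : ℤ → ℂ) {y : ℤ}
    (hy : y ∈ Ioc lo hi) : S.ext lo hi u (y : S.G) = u y := by
  have h := mem_Ioc.1 hy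
  rw [S.ext_cast (i0 := i0) u (by rw [abs_lt]; omega) (by rw [abs_lt]; omega), if_pos hy]

/-- A sum over the group of a function carried by the image of an interval. -/
lemma sum_eq_sum_int {β : Type*} [AddCommMonoid β] {i0 : ι} {lo hi : ℤ} (hW : hi - lo < S.m i0)
    (Φ : S.G → β) (h : ∀ ξ, Φ ξ ≠ 0 → ∃ y ∈ Ioc lo hi, (y : S.G) = ξ) :
    ∑ ξ, Φ ξ = ∑ y ∈ Ioc lo hi, Φ (y : S.G) := by
  rw [← sum_image (S.Win_inj hW)]
  refine (sum_subset (subset_univ _) fun ξ _ hξ => by_contra fun h' => hξ ?_).symm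
  exact mem_image.2 (h ξ h')

lemma sum_int_le {i0 : ι} {lo hi : ℤ} (hW : hi - lo < S.m i0) {Φ : S.G → ℝ} (h : ∀ ξ, 0 ≤ Φ ξ) :
    ∑ y ∈ Ioc lo hi, Φ (y : S.G) ≤ ∑ ξ, Φ ξ := by
  rw [← sum_image (S.Win_inj hW)]
  exact sum_le_sum_of_subset_of_nonneg (subset_univ _) fun ξ _ _ => h ξ

lemma nn_ext {i0 : ι} {lo hi : ℤ} (hW : hi - lo < S.m i0) (u : ℤ → ℂ) :
    S.nn (S.ext lo hi u) = ∑ y ∈ Ioc lo hi, ‖u y‖ ^ 2 := by
  rw [nn, S.sum_eq_sum_int (lo := lo) (hi := hi) hW]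
  · exact sum_congr rfl fun y hy => by rw [S.Win_ext hW u hy]
  · intro ξ hξ
    obtain ⟨y, h1, h2, -⟩ := S.ext_ne_zero (lo := lo) (hi := hi) (u := u) (ξ := ξ) fun e => hξ (by
      rw [e, norm_zero, zero_pow two_ne_zero])
    exact ⟨y, h1, h2⟩

lemma Win_herm {K : S.G → ℤ → ℂ}
    (herm : ∀ (ξ : S.G) (e : ℤ), K (ξ + (e : S.G)) (-e) = (starRingEnd ℂ) (K ξ e))
    (g f : S.G → ℂ) : S.ip (S.Xop K g) f = S.ip g (S.Xop K f) := by
  simp only [ip, Xop, map_sum, map_mul, sum_mul, mul_sum]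
  rw [sum_comm, sum_comm (s := univ)]
  refine sum_nbij' (fun e => -e) (fun e => -e) ?_ ?_ (fun e _ => neg_neg e) (fun e _ => neg_neg e)
    fun e _ => ?_
  · intro e he
    rw [mem_Icc] at he ⊢
    omega
  · intro e he
    rw [mem_Icc] at he ⊢
    omega
  · rw [← S.sum_add_right (fun ξ => (starRingEnd ℂ) (g ξ) * (K ξ (-e) * f (ξ + ((-e : ℤ) : S.G))))
      (e : S.G)]
    refine sum_congr rfl fun ξ _ => ?_
    rw [herm, Int.cast_neg, add_neg_cancel_right]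
    ring

omit [Fintype ι] [DecidableEq ι] in
lemma Win_conv {a : ℕ → ℝ} (h0 : ∀ i, 0 ≤ a i) (h : ∀ i, a (i + 1) ^ 2 ≤ a i * a (i + 2)) (k : ℕ) :
    a 1 ^ (k + 1) ≤ a 0 ^ k * a (k + 1) := by
  have h1 : ∀ i, a 1 * a i ≤ a 0 * a (i + 1) := fun i => by
    induction i with
    | zero => rw [mul_comm]
    | succ i ih =>
      rcases (h0 (i + 1)).eq_or_lt with e | e
      · rw [← e, mul_zero]
        exact mul_nonneg (h0 _) (h0 _)
      · refine le_of_mul_le_mul_right ?_ e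
        have h2 := mul_le_mul_of_nonneg_left (h i) (h0 1)
        have h3 := mul_le_mul_of_nonneg_right ih (h0 (i + 2))
        nlinarith
  induction k with
  | zero => simp
  | succ k ih =>
    calc a 1 ^ (k + 1 + 1) = a 1 * a 1 ^ (k + 1) := by ring
      _ ≤ a 1 * (a 0 ^ k * a (k + 1)) := mul_le_mul_of_nonneg_left ih (h0 1)
      _ = a 0 ^ k * (a 1 * a (k + 1)) := by ring
      _ ≤ a 0 ^ k * (a 0 * a (k + 1 + 1)) :=
        mul_le_mul_of_nonneg_left (h1 _) (pow_nonneg (h0 0) k)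
      _ = _ := by ring

/-- Log-convexity of the norms of the iterates of a Hermitian operator. -/
lemma nn_Xop_pow_le {K : S.G → ℤ → ℂ}
    (herm : ∀ (ξ : S.G) (e : ℤ), K (ξ + (e : S.G)) (-e) = (starRingEnd ℂ) (K ξ e)) {n : ℕ} (hn : 1 ≤ n)
    (u : S.G → ℂ) : S.nn (S.Xop K u) ^ n ≤ S.nn u ^ (n - 1) * S.nn ((S.Xop K)^[n] u) := by
  obtain ⟨k, rfl⟩ : ∃ k, n = k + 1 := ⟨n - 1, by omega⟩
  refine Win_conv (a := fun i => S.nn ((S.Xop K)^[i] u)) (fun i => S.nn_nonneg _) (fun i => ?_) k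
  simp only [Function.iterate_succ_apply']
  generalize (S.Xop K)^[i] u = x
  have h1 := S.norm_ip_le x (S.Xop K (S.Xop K x))
  rw [← S.Win_herm herm, S.ip_self, Complex.norm_real, Real.norm_of_nonneg (S.nn_nonneg _),
    ← Real.sqrt_mul (S.nn_nonneg _)] at h1
  exact (pow_le_pow_left₀ (S.nn_nonneg _) h1 2).trans_eq
    (Real.sq_sqrt (mul_nonneg (S.nn_nonneg _) (S.nn_nonneg _)))

omit [Fintype ι] [DecidableEq ι] in
lemma Win_real {a A b θ Θ : ℝ} {n : ℕ} (hn : 1 ≤ n) (hA : 0 ≤ A) (hb : 0 ≤ b) (hθ : 0 ≤ θ)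
    (hΘ : 0 < Θ) (ha : a ≤ A) (h : b ^ n ≤ A ^ (n - 1) * (A * θ)) :
    √a * √b ≤ Θ * A + A / Θ ^ (2 * n - 1) * θ := by
  obtain ⟨k, rfl⟩ : ∃ k, n = k + 1 := ⟨n - 1, by omega⟩
  refine (mul_le_mul_of_nonneg_right (Real.sqrt_le_sqrt ha) (Real.sqrt_nonneg b)).trans ?_
  obtain ⟨p, p0, rfl⟩ : ∃ p, 0 ≤ p ∧ A = p ^ 2 := ⟨√A, Real.sqrt_nonneg _, (Real.sq_sqrt hA).symm⟩
  obtain ⟨q, q0, rfl⟩ : ∃ q, 0 ≤ q ∧ b = q ^ 2 := ⟨√b, Real.sqrt_nonneg _, (Real.sq_sqrt hb).symm⟩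
  rw [Real.sqrt_sq p0, Real.sqrt_sq q0, show 2 * (k + 1) - 1 = 2 * k + 1 by omega]
  rw [Nat.add_sub_cancel] at h
  have h1 : 0 ≤ p ^ 2 / Θ ^ (2 * k + 1) * θ := by positivity
  have h2 : 0 ≤ Θ * p ^ 2 := by positivity
  rcases le_total q (Θ * p) with h3 | h3
  · nlinarith [mul_le_mul_of_nonneg_left h3 p0]
  rcases p0.eq_or_lt with rfl | p1
  · rw [zero_mul]
    linarith
  have h4 : p * q ≤ p ^ 2 / Θ ^ (2 * k + 1) * θ := by
    rw [div_mul_eq_mul_div, le_div_iff₀ (pow_pos hΘ _)]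
    refine le_of_mul_le_mul_right ?_ (pow_pos p1 (2 * k + 1))
    calc p * q * Θ ^ (2 * k + 1) * p ^ (2 * k + 1) = p * q * (Θ * p) ^ (2 * k + 1) := by ring
      _ ≤ p * q * q ^ (2 * k + 1) :=
        mul_le_mul_of_nonneg_left (pow_le_pow_left₀ (by positivity) h3 _) (by positivity)
      _ = p * (q ^ 2) ^ (k + 1) := by ring
      _ ≤ p * ((p ^ 2) ^ k * (p ^ 2 * θ)) := mul_le_mul_of_nonneg_left h p0
      _ = _ := by ring
  linarith

omit [Fintype ι] [DecidableEq ι] in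
lemma Win_cnt (s I : Finset ℤ) (a : ℤ) (N : ℕ) {Φ : ℤ → ℝ} (h : ∀ y, 0 ≤ Φ y) :
    ∑ t ∈ s, ∑ y ∈ I, (if y ∈ Ioc (t + a) (t + a + N) then Φ y else 0) ≤ N * ∑ y ∈ I, Φ y := by
  rw [sum_comm, mul_sum]
  refine sum_le_sum fun y _ => ?_
  rw [← sum_filter, sum_const, nsmul_eq_mul]
  refine mul_le_mul_of_nonneg_right (Nat.cast_le.2 ?_) (h y)
  refine (card_le_card (t := Ico (y - a - N) (y - a)) fun t ht => ?_).trans (by simp)
  have := mem_Ioc.1 (mem_filter.1 ht).2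
  rw [mem_Ico]
  omega

lemma Win_Psi (K : S.G → ℤ → ℂ) (n : ℕ) (ξ : S.G) : 0 ≤ S.Psi K n ξ :=
  sum_nonneg fun _ _ => sq_nonneg _

lemma Win_iter (K : S.G → ℤ → ℂ) (n : ℕ) {i0 : ι} {a b : ℤ} (hab : a ≤ b)
    (hW : b - a + 2 * (n * S.R : ℕ) + 1 < S.m i0) {f : S.G → ℂ}
    (hf : ∀ ξ, f ξ ≠ 0 → ∃ y ∈ Ioc a b, (y : S.G) = ξ) :
    S.nn ((S.Xop K)^[n] f) ≤
      S.nn f * ∑ y ∈ Ioc (a - (n * S.R : ℕ)) (b + (n * S.R : ℕ)), S.Psi K n (y : S.G) := by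
  rw [nn, S.sum_eq_sum_int (i0 := i0) (lo := a - (n * S.R : ℕ)) (hi := b + (n * S.R : ℕ))
    (by omega), mul_sum]
  · refine sum_le_sum fun y _ => ?_
    generalize (y : S.G) = ξ
    have h1 := cs_conj (Icc (-((n * S.R : ℕ) : ℤ)) (n * S.R : ℕ))
      (fun j => (starRingEnd ℂ) (S.Kpow K n ξ j)) fun j => f (ξ + (j : S.G))
    simp only [starRingEnd_self_apply, Complex.norm_conj] at h1
    rw [← S.iterate_Xop, ← Real.sqrt_mul (sum_nonneg fun _ _ => sq_nonneg _)] at h1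
    refine (pow_le_pow_left₀ (norm_nonneg _) h1 2).trans ?_
    rw [Real.sq_sqrt (mul_nonneg (sum_nonneg fun _ _ => sq_nonneg _)
      (sum_nonneg fun _ _ => sq_nonneg _)), mul_comm]
    refine mul_le_mul_of_nonneg_right ?_ (S.Win_Psi K n ξ)
    have h2 := S.sum_int_le (i0 := i0) (lo := -((n * S.R : ℕ) : ℤ) - 1) (hi := (n * S.R : ℕ))
      (by omega) (Φ := fun η => ‖f (η + ξ)‖ ^ 2) fun _ => sq_nonneg _
    rw [S.sum_add_right (fun η => ‖f η‖ ^ 2) ξ] at h2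
    refine le_trans (le_of_eq (sum_congr ?_ fun j _ => by rw [add_comm])) h2
    ext j
    rw [mem_Icc, mem_Ioc]
    omega
  · intro ξ hξ
    have h1 : (S.Xop K)^[n] f ξ ≠ 0 := fun e => hξ (by rw [e, norm_zero, zero_pow two_ne_zero])
    rw [S.iterate_Xop] at h1
    obtain ⟨j, hj, h2⟩ := exists_ne_zero_of_sum_ne_zero h1
    obtain ⟨y, hy, e⟩ := hf _ (right_ne_zero_of_mul h2)
    rw [mem_Icc] at hj
    rw [mem_Ioc] at hy
    exact ⟨y - j, mem_Ioc.2 ⟨by omega, by omega⟩, by rw [Int.cast_sub, e, add_sub_cancel_right]⟩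

lemma Win_ip {i0 : ι} {lo hi : ℤ} (hW : hi - lo < S.m i0) (u : ℤ → ℂ) (f : S.G → ℂ) :
    S.ip (S.ext lo hi u) f = ∑ y ∈ Ioc lo hi, (starRingEnd ℂ) (u y) * f (y : S.G) := by
  rw [ip, S.sum_eq_sum_int (lo := lo) (hi := hi) hW]
  · exact sum_congr rfl fun y hy => by rw [S.Win_ext hW u hy]
  · intro ξ hξ
    obtain ⟨y, h1, h2, -⟩ := S.ext_ne_zero (lo := lo) (hi := hi) (u := u) (ξ := ξ) fun e => hξ (by
      rw [e, map_zero, zero_mul])
    exact ⟨y, h1, h2⟩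

/-- Cutting a function to a window. -/
noncomputable def Win_cut (u : ℤ → ℂ) (a : ℤ) (N : ℕ) (y : ℤ) : ℂ :=
  if y ∈ Ioc a (a + N) then u y else 0

omit [Fintype ι] [DecidableEq ι] in
lemma Win_cut_sq (u : ℤ → ℂ) (a : ℤ) (N : ℕ) (y : ℤ) :
    ‖Win_cut u a N y‖ ^ 2 = if y ∈ Ioc a (a + N) then ‖u y‖ ^ 2 else 0 := by
  unfold Win_cut
  split_ifs
  · rfl
  · rw [norm_zero, zero_pow two_ne_zero]

lemma Win_split (K : S.G → ℤ → ℂ) {N : ℕ} (hN : S.R ≤ N) {i0 : ι} {lo hi : ℤ}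
    (hW : hi - lo + N < S.m i0) (u : ℤ → ℂ) :
    N * S.ip (S.ext lo hi u) (S.Xop K (S.ext lo hi u)) = ∑ t ∈ Ico (lo - N) hi,
      S.ip (S.ext lo hi (Win_cut u t N)) (S.Xop K (S.ext lo hi (Win_cut u (t + -N) (3 * N)))) := by
  have hW' : hi - lo < S.m i0 := by omega
  simp only [S.Win_ip hW']
  rw [sum_comm, mul_sum]
  refine sum_congr rfl fun y hy => ?_
  have hy' := mem_Ioc.1 hy
  have h1 : ∀ t ∈ Ico (lo - N) hi, (starRingEnd ℂ) (Win_cut u t N y) *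
      S.Xop K (S.ext lo hi (Win_cut u (t + -N) (3 * N))) (y : S.G) =
      if t ∈ Ico (y - N) y then (starRingEnd ℂ) (u y) * S.Xop K (S.ext lo hi u) (y : S.G)
        else 0 := fun t _ => by
    by_cases ht : t ∈ Ico (y - N) y
    · have ht' := mem_Ico.1 ht
      rw [if_pos ht, Win_cut, if_pos (mem_Ioc.2 ⟨by omega, by omega⟩)]
      congr 1
      refine sum_congr rfl fun e he => ?_
      have he' := mem_Icc.1 he
      have a1 : |y + e - lo| < S.m i0 := by rw [abs_lt]; omega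
      have a2 : |y + e - hi| < S.m i0 := by rw [abs_lt]; omega
      rw [← Int.cast_add, S.ext_cast _ a1 a2, S.ext_cast _ a1 a2, Win_cut,
        if_pos (c := y + e ∈ Ioc (t + -N) (t + -N + (3 * N : ℕ)))
          (mem_Ioc.2 ⟨by omega, by omega⟩)]
    · rw [if_neg ht, Win_cut, if_neg, map_zero, zero_mul]
      rw [mem_Ico] at ht
      rw [mem_Ioc]
      omega
  rw [sum_congr rfl h1, sum_ite_mem, inter_eq_right.2 (Ico_subset_Ico (by omega) (by omega)),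
    sum_const, nsmul_eq_mul]
  simp

theorem win {K : S.G → ℤ → ℂ}
    (herm : ∀ (ξ : S.G) (e : ℤ), K (ξ + (e : S.G)) (-e) = (starRingEnd ℂ) (K ξ e)) {n : ℕ} (hn : 1 ≤ n)
    {i0 : ι} {lo hi : ℤ} (hW : hi - lo + 20 * (n * S.R : ℕ) < S.m i0) {u : ℤ → ℂ}
    (hu : ∀ y, ‖u y‖ ≤ 1) {Θ : ℝ} (hΘ : 0 < Θ) :
    ‖S.ip (S.ext lo hi u) (S.Xop K (S.ext lo hi u))‖
      ≤ 3 * Θ * S.nn (S.ext lo hi u) + 15 * (n * S.R) / Θ ^ (2 * n - 1) *
        ∑ y ∈ Ioc (lo - 4 * (n * S.R : ℕ)) (hi + 4 * (n * S.R : ℕ)), S.Psi K n (y : S.G) := by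
  have hR : 1 ≤ S.R := Nat.mul_pos (Nat.mul_pos two_pos S.T_pos) (Int.natAbs_pos.2 S.h_ne)
  have hN : S.R ≤ n * S.R := Nat.le_mul_of_pos_left _ hn
  have hP := S.Win_Psi K n
  have hs : 0 ≤ ∑ y ∈ Ioc (lo - 4 * (n * S.R : ℕ)) (hi + 4 * (n * S.R : ℕ)), S.Psi K n (y : S.G) :=
    sum_nonneg fun _ _ => hP _
  rcases le_or_gt hi lo with hlo | hlo
  · have h0 : S.ext lo hi u = fun _ => 0 := funext fun ξ => by
      rw [ext, Ioc_eq_empty hlo.not_gt, sum_empty]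
    have h1 := S.nn_nonneg (S.ext lo hi u)
    have h2 : S.ip (S.ext lo hi u) (S.Xop K (S.ext lo hi u)) = 0 := by
      rw [h0]
      simp [ip]
    rw [h2, norm_zero]
    positivity
  have hI := fun (a b : ℤ) => S.Win_iter K n (i0 := i0) (a := a) (b := b)
  rw [← Nat.cast_mul]
  generalize n * S.R = N at hW hN hs hI ⊢
  have hW' : hi - lo < S.m i0 := by omega
  have N0 : (0 : ℝ) < N := Nat.cast_pos.2 (by omega)
  have hc : 0 ≤ 3 * (N : ℝ) / Θ ^ (2 * n - 1) := by positivity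
  have key : ∀ t ∈ Ico (lo - N) hi, ‖S.ip (S.ext lo hi (Win_cut u t N))
      (S.Xop K (S.ext lo hi (Win_cut u (t + -N) (3 * N))))‖ ≤
      Θ * (∑ y ∈ Ioc lo hi, if y ∈ Ioc (t + -N) (t + -N + (3 * N : ℕ)) then ‖u y‖ ^ 2 else 0) +
      3 * N / Θ ^ (2 * n - 1) * ∑ y ∈ Ioc (lo - 4 * N) (hi + 4 * N),
        if y ∈ Ioc (t + -(2 * N)) (t + -(2 * N) + (5 * N : ℕ)) then S.Psi K n (y : S.G) else 0 := by
    intro t ht
    have ht' := mem_Ico.1 ht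
    have e1 : S.nn (S.ext lo hi (Win_cut u (t + -N) (3 * N))) = ∑ y ∈ Ioc lo hi,
        if y ∈ Ioc (t + -N) (t + -N + (3 * N : ℕ)) then ‖u y‖ ^ 2 else 0 := by
      simp only [S.nn_ext hW', Win_cut_sq]
    have e2 : Ioc (t + -(2 * N : ℤ)) (t + -(2 * N) + (5 * N : ℕ)) =
        Ioc (t + -N - N) (t + -N + (3 * N : ℕ) + N) := by
      congr 1 <;> omega
    rw [sum_ite_mem (Ioc (lo - 4 * (N : ℤ)) (hi + 4 * N)),
      inter_eq_right.2 (Ioc_subset_Ioc (by omega) (by omega)), e2, ← e1]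
    have h1 := hI (t + -N) (t + -N + (3 * N : ℕ)) (by omega) (by omega)
      (f := S.ext lo hi (Win_cut u (t + -N) (3 * N))) fun ξ hξ => by
        obtain ⟨y, -, h2, h3⟩ := S.ext_ne_zero hξ
        exact ⟨y, by_contra fun h => h3 (if_neg h), h2⟩
    have h2 := (S.nn_Xop_pow_le herm hn _).trans
      (mul_le_mul_of_nonneg_left h1 (pow_nonneg (S.nn_nonneg _) _))
    have h3 : S.nn (S.ext lo hi (Win_cut u t N)) ≤
        S.nn (S.ext lo hi (Win_cut u (t + -N) (3 * N))) := by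
      simp only [S.nn_ext hW', Win_cut_sq]
      refine sum_le_sum fun y _ => ?_
      by_cases hy : y ∈ Ioc t (t + N)
      · have := mem_Ioc.1 hy
        rw [if_pos hy, if_pos (mem_Ioc.2 ⟨by omega, by omega⟩)]
      · rw [if_neg hy]
        positivity
    have h4 : S.nn (S.ext lo hi (Win_cut u (t + -N) (3 * N))) ≤ 3 * N := by
      rw [e1, sum_ite_mem]
      refine (sum_le_card_nsmul _ _ 1 fun y _ => pow_le_one₀ (norm_nonneg _) (hu y)).trans ?_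
      have h5 := card_le_card (inter_subset_right (s₁ := Ioc lo hi)
        (s₂ := Ioc (t + -N) (t + -N + (3 * N : ℕ))))
      rw [Int.card_Ioc, add_sub_cancel_left, Int.toNat_natCast] at h5
      rw [nsmul_eq_mul, mul_one]
      exact_mod_cast h5
    have h6 := sum_nonneg (s := Ioc (t + -N - N) (t + -N + (3 * N : ℕ) + N))
      fun (y : ℤ) _ => hP (y : S.G)
    refine (S.norm_ip_le _ _).trans ((Win_real hn (S.nn_nonneg _) (S.nn_nonneg _) h6 hΘ h3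
      h2).trans (add_le_add_right (mul_le_mul_of_nonneg_right
        (div_le_div_of_nonneg_right h4 (pow_pos hΘ _).le) h6) _))
  have h1 := congrArg norm (S.Win_split K hN (i0 := i0) (lo := lo) (hi := hi) (by omega) u)
  rw [norm_mul, Complex.norm_natCast] at h1
  have h2 := h1.le.trans ((norm_sum_le _ _).trans (sum_le_sum key))
  rw [sum_add_distrib, ← mul_sum, ← mul_sum] at h2
  have h3 := mul_le_mul_of_nonneg_left (Win_cnt (Ico (lo - N) hi) (Ioc lo hi) (-N) (3 * N)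
    (Φ := fun y => ‖u y‖ ^ 2) fun _ => sq_nonneg _) hΘ.le
  have h4 := mul_le_mul_of_nonneg_left (Win_cnt (Ico (lo - N) hi)
    (Ioc (lo - 4 * N) (hi + 4 * N)) (-(2 * N)) (5 * N)
    (Φ := fun y => S.Psi K n (y : S.G)) fun _ => hP _) hc
  refine le_of_mul_le_mul_left ((h2.trans (add_le_add h3 h4)).trans_eq ?_) N0
  rw [S.nn_ext hW']
  push_cast
  ring

end Sys

end Pool.Agent.Work.MP_678620_nt
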