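import Pool.Agent.Work.MP_678620_nt.TASand
import Pool.Agent.Work.MP_678620_nt.SPTwo

-- merged part: Pool.Agent.Work.MP_678620_nt.TATrans
section
/-! Passing from the weights to their local models. -/

set_option autoImplicit false
open Finset Filter Topology Real

namespace Pool.Agent.Work.MP_678620_nt.TA

open Classical

lemma sum_int_nat (f : ℤ → ℂ) (a b : ℕ) :
    ∑ n ∈ Ioc (a : ℤ) b, f n = ∑ n ∈ Ioc a b, f n := by
  refine (sum_nbij' (fun n : ℕ => (n : ℤ)) Int.toNat (fun x hx => ?_) (fun x hx => ?_)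
    (fun x _ => Int.toNat_natCast x) (fun x hx => ?_) fun _ _ => rfl).symm <;>
  simp only [mem_Ioc] at hx ⊢ <;> omega

theorem one_trans : Tendsto (fun X : ℕ => dist
    ((∑ n ∈ Ioc (X : ℤ) (2 * X), FF (zz X) n) / (X * √(log X)))
    ((∑ n ∈ Ioc (X : ℤ) (2 * X), Fb (zz X) n) / (X * √(log X)))) atTop (𝓝 0) := by
  refine t0 2 ?_
  filter_upwards [sw_dif 1 4 (by norm_num), tl.eventually_ge_atTop 1, eventually_gt_atTop 0]
    with X h l1 h5
  have X0 : (0 : ℝ) < X := by exact_mod_cast h5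
  have k := fun Y => h X (Nat.le_self_pow two_ne_zero X) (Nat.le_self_pow two_ne_zero X) _ _
    (dat (zz X)) 1 0 Y le_rfl (by simpa using l1)
  simp only [Nat.modEq_one, filter_true, pow_one] at k
  set f : ℤ → ℂ := fun n => conv (be (zz X)) (gam (zz X) 4 (ww (zz X))) n -
    conv (be (zz X)) (flat (zz X) 4 (ww (zz X))) n with hf
  have e : ((∑ n ∈ Ioc (X : ℤ) (2 * X), FF (zz X) n - ∑ n ∈ Ioc (X : ℤ) (2 * X), Fb (zz X) n : ℝ)
      : ℂ) = ∑ n ∈ Icc 1 (2 * X), f n - ∑ n ∈ Icc 1 X, f n := by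
    have := sum_Ioc_consecutive (fun n : ℕ => f n) (Nat.zero_le X) (by omega : X ≤ 2 * X)
    change ∑ n ∈ Icc 1 X, f n + _ = ∑ n ∈ Icc 1 (2 * X), f n at this
    rw [← this, add_sub_cancel_left, ← sum_int_nat f, ← sum_sub_distrib]
    push_cast
    refine sum_congr rfl fun n hn => ?_
    have : 1 ≤ n := by have := (mem_Ioc.1 hn).1; omega
    simp only [hf, FF_cast _ this, Fb_cast _ this]
  have b := (norm_sub_le _ _).trans (add_le_add (k (2 * X) (by omega)) (k X (by omega)))
  rw [← e, Complex.norm_real, norm_eq_abs] at b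
  have s := one_le_sqrt.2 l1
  rw [abs_dist, Real.dist_eq, ← sub_div, abs_div, abs_of_pos (by positivity : 0 < X * √(log X)),
    div_le_iff₀ (by positivity)]
  refine b.trans ?_
  calc _ = 2 * (log X)⁻¹ * (X * 1) := by ring
    _ ≤ _ := by gcongr

lemma split_sum (s : Finset ℤ) (f : ℤ → ℂ) (a b : ℤ → ℕ) (T : Finset ℕ) :
    ∑ n ∈ s, f n = ∑ k ∈ T, ∑ k' ∈ T, ∑ n ∈ s, (if a n = k ∧ b n = k' then f n else 0)
      + ∑ n ∈ s, if a n ∈ T ∧ b n ∈ T then 0 else f n := by
  simp only [sum_comm (s := T) (t := s)]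
  rw [← sum_add_distrib]
  refine sum_congr rfl fun n _ => ?_
  simp only [ite_and, sum_ite_irrel, sum_const_zero, sum_ite_eq]
  split_ifs <;> simp

theorem two_bd {h : ℤ} (hh : h ≠ 0) : ∃ k : ℕ, ∀ᶠ X : ℕ in atTop,
    |∑ n ∈ Ioc (X : ℤ) (2 * X), FF (zz X) n * FF (zz X) (n + h) -
      ∑ n ∈ Ioc (X : ℤ) (2 * X), Fb (zz X) n * Fb (zz X) (n + h)| ≤
    X + (4 * log X ^ 2 + r0 X ^ 2) * (2 * (10 ^ k * (X * PH {0, h} (zz X) (al X) *
      exp (-(9 / 10 * LL X)) + X / log X ^ 5)) + 2 * (X / log X ^ 5)) := by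
  obtain ⟨k₀, hk⟩ := two_point 10 4 (by norm_num) (c0 := 1 / 100) (by norm_num)
  refine ⟨k₀, ?_⟩
  filter_upwards [hk, eok, EE_mem, small_count {0, h} k₀, big_count, ev_H {h},
    tl.eventually_ge_atTop (max 2 |(h : ℝ)|), tll.eventually_ge_atTop 1, eventually_gt_atTop 0,
    ev_le 121 2 (show (0 : ℝ) < 1 by norm_num)] with X h1 h2 h3 h4 h5 h6 h7 h8 h9 h10
  have l2 := (le_max_left _ _).trans h7
  have X0 : (0 : ℝ) < X := by exact_mod_cast h9
  have z0 : 0 ≤ zz X := (exp_pos _).le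
  have hX := h6 h (mem_singleton_self _)
  have l10 : log X ≤ log X ^ 10 := le_self_pow₀ (by linarith) (by norm_num)
  have k := fun k k' a b c d => h1 X (Nat.le_self_pow two_ne_zero X) (Nat.le_self_pow two_ne_zero X)
    _ h2 k k' a b c d h 0 1 hh ((le_max_right _ _).trans (h7.trans l10)) le_rfl
    (by push_cast; linarith) _ _ _ _ (dat (zz X)) (dat (zz X))
    (fun p hp => be_mul (h3 p hp).1 (h3 p hp).2.1 (h3 p hp).2.2)
    (fun p hp => be_mul (h3 p hp).1 (h3 p hp).2.1 (h3 p hp).2.2)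
  simp only [Nat.cast_one, Int.modEq_one, and_true] at k
  have r : ∀ n ∈ Ioc (X : ℤ) (2 * X), (1 ≤ n ∧ n ≤ 3 * X) ∧ 1 ≤ n + h ∧ n + h ≤ 3 * X := by
    intro n hn
    have := le_abs_self h
    have := neg_abs_le h
    rw [mem_Ioc] at hn
    omega
  let f : ℤ → ℝ := fun n => FF (zz X) n * FF (zz X) (n + h) - Fb (zz X) n * Fb (zz X) (n + h)
  let T := Icc k₀ ⌊10 * log (log X)⌋₊
  have hT : ∀ j ∈ T, k₀ ≤ j ∧ (j : ℝ) ≤ (10 : ℕ) * log (log X) := fun j hj =>
    ⟨(mem_Icc.1 hj).1, (Nat.le_floor_iff (by positivity)).1 (mem_Icc.1 hj).2⟩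
  rw [← sum_sub_distrib, ← norm_eq_abs, ← Complex.norm_real, Complex.ofReal_sum,
    split_sum _ _ (wE (EE X)) (fun n => wE (EE X) (n + h)) T]
  refine (norm_add_le _ _).trans (add_le_add ?_ ?_)
  · have c : (T.card : ℝ) ≤ 11 * log (log X) := by
      have := Nat.floor_le (show 0 ≤ 10 * log (log X) by positivity)
      have : (T.card : ℝ) ≤ ⌊10 * log (log X)⌋₊ + 1 := by
        rw [Nat.card_Icc]; exact_mod_cast Nat.sub_le _ _
      linarith
    refine (norm_sum_le_of_le _ (n := fun _ => T.card • (X / log X ^ 10)) fun j hj =>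
      (norm_sum_le _ _).trans (sum_le_card_nsmul _ _ _ fun j' hj' => ?_)).trans ?_
    · refine le_trans (le_of_eq ?_) (k j j' (hT j hj).1 (hT j' hj').1 (hT j hj).2 (hT j' hj').2)
      congr 1
      refine sum_congr rfl fun n hn => ?_
      obtain ⟨a, b⟩ := r n hn
      rw [FF_cast _ a.1, FF_cast _ b.1, Fb_cast _ a.1, Fb_cast _ b.1]
      push_cast
      congr
    · rw [sum_const, nsmul_eq_mul, nsmul_eq_mul]
      rw [rpow_zero, rpow_one] at h10
      calc _ ≤ 11 * log (log X) * (11 * log (log X) * (X / log X)) := by gcongr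
        _ = X * ((121 * 1 * log (log X) ^ 2) / log X) := by ring
        _ ≤ X := mul_le_of_le_one_right X0.le ((div_le_one (by linarith)).2 h10)
  · let A : ℤ → Prop := fun n => ∀ h' ∈ ({0, h} : Finset ℤ), AA (zz X) (al X) (n + h')
    have M0 : 0 ≤ 4 * log X ^ 2 + r0 X ^ 2 := by positivity
    refine (norm_sum_le_of_le _ (n := fun n => (4 * log X ^ 2 + r0 X ^ 2) *
      (ind (A n ∧ wE (EE X) (n + 0) < k₀) + ind (A n ∧ wE (EE X) (n + h) < k₀) +
      (ind (10 * log (log X) < wE (EE X) (n + 0)) + ind (10 * log (log X) < wE (EE X) (n + h)))))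
      fun n hn => ?_).trans ?_
    · have i1 := ind_nonneg (A n ∧ wE (EE X) (n + 0) < k₀)
      have i2 := ind_nonneg (A n ∧ wE (EE X) (n + h) < k₀)
      have i3 := ind_nonneg (10 * log (log X) < wE (EE X) (n + 0))
      have i4 := ind_nonneg (10 * log (log X) < wE (EE X) (n + h))
      split_ifs with c
      · rw [norm_zero]; positivity
      obtain ⟨a, b⟩ := r n hn
      have F : ∀ n : ℤ, 1 ≤ n → n ≤ 3 * X → 0 ≤ FF (zz X) n ∧ FF (zz X) n ≤ 2 * log X ∧
          (¬ AA (zz X) (al X) n → FF (zz X) n = 0) := fun n c d => by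
        obtain ⟨e1, e2, e3⟩ := FF_bd (zz X) c
        refine ⟨e1, e2.trans ?_, fun e => e3 fun s => e (s.aa _ _)⟩
        have := log_le_log (show (0 : ℝ) < n by exact_mod_cast c)
          (show (n : ℝ) ≤ 3 * X by exact_mod_cast d)
        rw [log_mul three_ne_zero X0.ne'] at this
        linarith [log_le_sub_one_of_pos three_pos]
      obtain ⟨a1, a2, a3⟩ := F n a.1 a.2
      obtain ⟨b1, b2, b3⟩ := F _ b.1 b.2
      obtain ⟨c1, c2, c3⟩ := Fb_bd z0 (al X) a.1 (M := 3 * X) (by exact_mod_cast a.2)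
      obtain ⟨d1, d2, d3⟩ := Fb_bd z0 (al X) b.1 (M := 3 * X) (by exact_mod_cast b.2)
      rw [Complex.norm_real, norm_eq_abs]
      by_cases e : A n
      · refine le_trans (b := 4 * log X ^ 2 + r0 X ^ 2) ?_ (le_mul_of_one_le_right M0 ?_)
        · have := mul_le_mul a2 b2 b1 (by linarith)
          have := mul_le_mul c2 d2 d1 (rho_nonneg _ _)
          have := mul_nonneg a1 b1
          have := mul_nonneg c1 d1
          rw [r0, abs_le]
          constructor <;> nlinarith
        · simp only [T, mem_Icc, Nat.le_floor_iff (show 0 ≤ 10 * log (log X) by positivity),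
            not_and_or, not_le] at c
          rw [add_zero] at *
          rcases c with (c | c) | c | c
          · linarith [ind_pos (And.intro e c)]
          · linarith [ind_pos c]
          · linarith [ind_pos (And.intro e c)]
          · linarith [ind_pos c]
      · simp only [A, mem_insert, mem_singleton, forall_eq_or_imp, forall_eq, add_zero,
          not_and_or] at e
        rcases e with e | e
        · rw [a3 e, c3 e, zero_mul, zero_mul, sub_zero, abs_zero]; positivity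
        · rw [b3 e, d3 e, mul_zero, mul_zero, sub_zero, abs_zero]; positivity
    · rw [← mul_sum, sum_add_distrib, sum_add_distrib, sum_add_distrib, two_mul (10 ^ k₀ * _ : ℝ),
        two_mul (X / log X ^ 5 : ℝ)]
      have := abs_nonneg h
      exact mul_le_mul_of_nonneg_left (add_le_add (add_le_add (h4 0) (h4 h)) (add_le_add
        ((ct_le_cu (c := 0) (by simp) _).trans h5) ((ct_le_cu (by omega) _).trans h5))) M0

theorem two_trans {h : ℤ} (hh : h ≠ 0) {x : ℝ}
    (t : Tendsto (fun X : ℕ => r0 X ^ 2 * PH {0, h} (zz X) (al X) / √(log X) ^ 2) atTop (𝓝 x)) :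
    Tendsto (fun X : ℕ => dist
    ((∑ n ∈ Ioc (X : ℤ) (2 * X), Fb (zz X) n * Fb (zz X) (n + h)) / (X * √(log X) ^ 2))
    ((∑ n ∈ Ioc (X : ℤ) (2 * X), FF (zz X) n * FF (zz X) (n + h)) / (X * √(log X) ^ 2)))
    atTop (𝓝 0) := by
  obtain ⟨k, hk⟩ := two_bd hh
  have := ((tinv.const_mul (1 + 5 * (2 * 10 ^ k + 2))).add (t.mul
    (((tendsto_rpow_neg_atTop (y := 19 / 1000) (by norm_num)).comp tl).const_mul
      (2 * 10 ^ k * 17))))
  simp only [mul_zero, add_zero] at this
  refine squeeze_zero' (.of_forall fun _ => dist_nonneg) ?_ this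
  filter_upwards [hk, r0_bd, LL_ge, tl.eventually_ge_atTop 1, eventually_gt_atTop 0]
    with X h1 h2 h3 l1 h5
  have X0 : (0 : ℝ) < X := by exact_mod_cast h5
  have l0 : 0 < log X := by linarith
  have P0 := PH_nonneg {0, h} (zz X) (al X)
  have r : 0 < r0 X := lt_of_lt_of_le (by positivity) h2.1
  rw [dist_comm, Real.dist_eq, ← sub_div, abs_div, sq_sqrt l0.le,
    abs_of_pos (by positivity : 0 < X * log X), div_le_iff₀ (by positivity)]
  refine h1.trans ?_
  have e1 : (4 * log X ^ 2 + r0 X ^ 2) * exp (-(9 / 10 * LL X)) ≤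
      17 * (r0 X ^ 2 * log X ^ (-(19 / 1000 : ℝ))) := by
    have a : exp (-(9 / 10 * LL X)) ≤ log X ^ (-(99 / 1000 : ℝ)) := by
      rw [rpow_def_of_pos l0, exp_le_exp]; linarith
    have b : 1 ≤ log X ^ (2 / 25 : ℝ) := one_le_rpow l1 (by norm_num)
    have c : log X ^ 2 = (log X ^ (24 / 25 : ℝ)) ^ 2 * log X ^ (2 / 25 : ℝ) := by
      rw [← rpow_natCast, ← rpow_natCast, ← rpow_mul l0.le, ← rpow_add l0]; norm_num
    have d : (log X ^ (24 / 25 : ℝ)) ^ 2 ≤ (2 * r0 X) ^ 2 := by gcongr; linarith [h2.1]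
    have e : 4 * log X ^ 2 + r0 X ^ 2 ≤ 17 * r0 X ^ 2 * log X ^ (2 / 25 : ℝ) := by
      rw [c]; nlinarith [sq_nonneg (r0 X)]
    calc _ ≤ 17 * r0 X ^ 2 * log X ^ (2 / 25 : ℝ) * log X ^ (-(99 / 1000 : ℝ)) := by gcongr
      _ = _ := by rw [mul_assoc, mul_assoc, ← rpow_add l0]; norm_num
  have e2 : (4 * log X ^ 2 + r0 X ^ 2) / log X ^ 5 ≤ 5 := by
    rw [div_le_iff₀ (by positivity)]
    have := pow_le_pow_left₀ r.le h2.2 2
    have := pow_le_pow_right₀ l1 (show 2 ≤ 5 by norm_num)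
    have := pow_le_pow_right₀ l1 (show 4 ≤ 5 by norm_num)
    nlinarith
  calc _ = X + 2 * 10 ^ k * X * PH {0, h} (zz X) (al X) * ((4 * log X ^ 2 + r0 X ^ 2) *
        exp (-(9 / 10 * LL X))) + (2 * 10 ^ k + 2) * X * ((4 * log X ^ 2 + r0 X ^ 2) / log X ^ 5) := by
        ring
    _ ≤ X + 2 * 10 ^ k * X * PH {0, h} (zz X) (al X) *
        (17 * (r0 X ^ 2 * log X ^ (-(19 / 1000 : ℝ)))) + (2 * 10 ^ k + 2) * X * 5 := by gcongr
    _ = _ := by simp only [Function.comp]; field_simp; ring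

end Pool.Agent.Work.MP_678620_nt.TA
end

-- merged part: Pool.Agent.Work.MP_678620_nt.TAFin
section
/-! The pair correlation on dyadic intervals, and the passage to initial intervals. -/

set_option autoImplicit false
open Finset Filter Topology Real Asymptotics

namespace Pool.Agent.Work.MP_678620_nt.TA

open Classical

theorem dyadic_pair {h : ℤ} (hh : h ≠ 0) {K S : ℝ}
    (hK : Tendsto (fun X : ℕ => ct X S2 * √(log X) / X) atTop (𝓝 K))
    (hS : Tendsto (fun X => PH {0, h} (zz X) (al X) / PH {0} (zz X) (al X) ^ 2) atTop (𝓝 S)) :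
    Tendsto (fun X : ℕ => ct X (fun n => S2 n ∧ S2 (n + h)) * log X / X) atTop
      (𝓝 (K ^ 2 * S)) := by
  have a1 := @FF_iff {0} (by simp) K
  have a2 := @Fb_iff {0} (by simp) K
  have b1 := @FF_iff {0, h} card_le_two (K ^ 2 * S)
  have b2 := @Fb_iff {0, h} card_le_two (K ^ 2 * S)
  simp only [card_singleton, pow_one, prod_singleton, add_zero, mem_singleton, forall_eq] at a1 a2
  simp only [card_pair hh.symm, prod_pair hh.symm, add_zero, mem_insert, mem_singleton,
    forall_eq_or_imp, forall_eq] at b1 b2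
  have t := (((a2.1 ((a1.2 hK).congr_dist one_trans)).pow 2).mul hS).congr
    (f₂ := fun X => r0 X ^ 2 * PH {0, h} (zz X) (al X) / √(log X) ^ 2) fun X => by
      have := (PH_zero_pos (zz X) (α := al X) (Nat.le_add_left 2 _)).ne'
      field_simp
  refine (b1.1 ((b2.2 t).congr_dist (two_trans hh t))).congr fun X => ?_
  rw [sq_sqrt (log_natCast_nonneg X)]

lemma log_ratio {α : Type} {l : Filter α} {u v : α → ℝ} {a : ℝ} (hu : Tendsto u l atTop)
    (h : Tendsto (fun x => v x / u x) l (𝓝 a)) (ha : 0 < a) :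
    Tendsto (fun x => log (u x) / log (v x)) l (𝓝 1) := by
  have := (((h.log ha.ne').div_atTop (tendsto_log_atTop.comp hu)).const_add 1).inv₀ (by simp)
  simp only [add_zero, inv_one] at this
  refine this.congr' ?_
  filter_upwards [hu.eventually_gt_atTop 1, h.eventually (lt_mem_nhds ha)] with x a b
  have := (log_pos a).ne'
  rw [log_div (left_ne_zero_of_mul b.ne') (by positivity), Function.comp, ← inv_div (log (v x))]
  congr 1
  field_simp
  ring

lemma halving {D g : ℕ → ℝ} (g0 : ∀ N, 0 ≤ g N) (hg : ∀ᶠ N in atTop, g (N / 2) ≤ 2 / 3 * g N)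
    (gt : Tendsto g atTop atTop)
    (h : Tendsto (fun N => (D N - D (N / 2)) / g N) atTop (𝓝 0)) :
    Tendsto (fun N => D N / g N) atTop (𝓝 0) := by
  refine Metric.tendsto_nhds.2 fun ε hε => ?_
  obtain ⟨N₀, hN⟩ := eventually_atTop.1 ((hg.and (gt.eventually_gt_atTop 0)).and
    ((Metric.tendsto_nhds.1 h (ε / 4) (by positivity)).and (eventually_gt_atTop 0)))
  have key : ∀ N, |D N| ≤ 3 * (ε / 4) * g N + ∑ n ∈ range N₀, |D n| := by
    intro N
    induction N using Nat.strong_induction_on with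
    | _ N ih =>
      rcases lt_or_ge N N₀ with a | a
      · exact le_add_of_nonneg_of_le (mul_nonneg (by positivity) (g0 N))
          (single_le_sum (f := fun n => |D n|) (fun _ _ => abs_nonneg _) (mem_range.2 a))
      obtain ⟨⟨b, c⟩, d, e⟩ := hN N a
      rw [dist_zero_right, norm_eq_abs, abs_div, abs_of_pos c, div_lt_iff₀ c] at d
      have := ih (N / 2) (by omega)
      have := abs_sub_abs_le_abs_sub (D N) (D (N / 2))
      nlinarith
  filter_upwards [gt.eventually_gt_atTop ((∑ n ∈ range N₀, |D n|) / (ε / 4)),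
    gt.eventually_gt_atTop 0] with N a c
  rw [dist_zero_right, norm_eq_abs, abs_div, abs_of_pos c, div_lt_iff₀ c]
  rw [div_lt_iff₀ (by positivity)] at a
  linarith [key N]

lemma tnat : Tendsto (fun N : ℕ => (N : ℝ)) atTop atTop := tendsto_natCast_atTop_atTop

lemma dyadic {T : ℕ → ℝ} (hT : ∀ n, |T (n + 1) - T n| ≤ 1) {c : ℝ}
    (t : Tendsto (fun N : ℕ => (T (2 * N) - T N) * log N / N) atTop (𝓝 c)) :
    Tendsto (fun N : ℕ => T N * log N / N) atTop (𝓝 c) := by
  have r1 : Tendsto (fun N : ℕ => ((N / 2 : ℕ) : ℝ) / N) atTop (𝓝 (1 / 2)) := by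
    have := ((tendsto_nat_floor_div_atTop (R := ℝ)).comp (tnat.atTop_div_const two_pos)).div_const 2
    refine this.congr fun N => ?_
    rw [Function.comp, show (2 : ℝ) = (2 : ℕ) from rfl, Nat.floor_div_eq_div, div_div,
      div_mul_cancel₀ _ (by norm_num)]
  have r2 := r1.mul (log_ratio tnat r1 one_half_pos)
  have r3 : Tendsto (fun N : ℕ => log N / N) atTop (𝓝 0) :=
    isLittleO_log_id_atTop.tendsto_div_nhds_zero.comp tnat
  have pos : ∀ᶠ N : ℕ in atTop, 0 < log N ∧ (0 : ℝ) < N :=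
    (tl.eventually_gt_atTop 0).and (tnat.eventually_gt_atTop 0)
  have hf := Nat.tendsto_div_const_atTop (show 2 ≠ 0 by norm_num)
  have key := halving (D := fun N => T N - c * (N / log N)) (g := fun N => N / log N)
    (fun N => div_nonneg N.cast_nonneg (log_natCast_nonneg N))
    (by
      filter_upwards [pos, hf.eventually pos, r2.eventually (eventually_le_nhds
        (show (1 / 2 * 1 : ℝ) < 2 / 3 by norm_num))] with N a b d
      have := a.1
      have := a.2
      have := b.1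
      refine le_trans (le_of_eq ?_) (mul_le_mul_of_nonneg_right d (by positivity))
      field_simp)
    (by
      refine (tendsto_inv_nhdsGT_zero.comp (tendsto_nhdsWithin_iff.2 ⟨r3, pos.mono fun N a =>
        div_pos a.1 a.2⟩)).congr fun N => ?_
      rw [Function.comp, inv_div])
    (by
      have u : Tendsto (fun N : ℕ => (T N - T (2 * (N / 2))) * (log N / N)) atTop (𝓝 0) := by
        refine squeeze_zero_norm (fun N => ?_) r3
        have l := div_nonneg (log_natCast_nonneg N) N.cast_nonneg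
        rw [norm_eq_abs, abs_mul, abs_of_nonneg l]
        refine mul_le_of_le_one_left l ?_
        obtain ⟨k, rfl | rfl⟩ := N.even_or_odd'
        · rw [Nat.mul_div_cancel_left _ two_pos]; simp
        · rw [show (2 * k + 1) / 2 = k by omega]; exact hT _
      have := (u.add (((t.comp hf).add_const c).mul r2)).sub_const c
      rw [show 0 + (c + c) * (1 / 2 * 1) - c = 0 by ring] at this
      refine this.congr' ?_
      filter_upwards [pos, hf.eventually pos] with N a b
      have := a.1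
      have := a.2
      have := b.1
      have := b.2
      simp only [Function.comp]
      field_simp
      ring)
  have := key.add_const c
  rw [zero_add] at this
  refine this.congr' (pos.mono fun N a => ?_)
  have := a.1
  have := a.2
  field_simp
  ring

/-- the counting function -/
noncomputable def TT (P : ℤ → Prop) (N : ℕ) : ℝ := ∑ n ∈ Ioc 0 N, ind (P n)

lemma TT_step (P : ℤ → Prop) (n : ℕ) : |TT P (n + 1) - TT P n| ≤ 1 := by
  rw [TT, TT, sum_Ioc_succ_top (Nat.zero_le n), add_sub_cancel_left, abs_of_nonneg (ind_nonneg _)]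
  exact ind_le _

lemma TT_ct (P : ℤ → Prop) (X : ℕ) : TT P (2 * X) - TT P X = ct X P := by
  rw [TT, TT, ← sum_Ioc_consecutive _ (Nat.zero_le X) (by omega : X ≤ 2 * X), add_sub_cancel_left]
  have := sum_int_nat (fun n => ind (P n)) X (2 * X)
  rw [ct]
  exact_mod_cast this.symm

lemma TT_eq (P : ℤ → Prop) {x : ℝ} (hx : 0 ≤ x) :
    (({n : ℕ | 1 ≤ n ∧ (n : ℝ) ≤ x ∧ P n}.ncard : ℕ) : ℝ) = TT P ⌊x⌋₊ := by
  rw [TT, sum_ind, ← Set.ncard_coe_finset]
  congr 2
  ext n
  simp [Nat.le_floor_iff hx, and_assoc, Nat.one_le_iff_ne_zero, Nat.pos_iff_ne_zero]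

lemma ct_shift (X : ℕ) (P : ℤ → Prop) (a : ℤ) :
    ct X (fun n => P (n + a)) ≤ ct X P + 2 * |(a : ℝ)| := by
  rw [ct, ← sum_image (s := Ioc (X : ℤ) (2 * X)) (g := (· + a)) (f := fun n => ind (P n))
    fun _ _ _ _ => add_right_cancel]
  refine (sum_le_sum_of_subset_of_nonneg (t := Ioc (X : ℤ) (2 * X) ∪ (Ioc (X - |a|) X ∪
    Ioc (2 * X) (2 * X + |a|))) (fun m hm => ?_) fun _ _ _ => ind_nonneg _).trans ?_
  · obtain ⟨n, hn, rfl⟩ := mem_image.1 hm
    have := le_abs_self a
    have := neg_abs_le a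
    simp only [mem_union, mem_Ioc] at hn ⊢
    omega
  · rw [← union_sdiff_self_eq_union, sum_union disjoint_sdiff]
    refine add_le_add le_rfl ((sum_le_card_nsmul _ _ 1 fun _ _ => ind_le _).trans ?_)
    have := (card_le_card (sdiff_subset (t := Ioc (X : ℤ) (2 * X)))).trans
      (card_union_le (Ioc ((X : ℤ) - |a|) X) (Ioc (2 * X) (2 * X + |a|)))
    rw [Int.card_Ioc, Int.card_Ioc, sub_sub_cancel, add_sub_cancel_left, ← Nat.cast_le (α := ℤ),
      Nat.cast_add, Int.toNat_of_nonneg (abs_nonneg a), ← two_mul, ← Int.cast_le (R := ℝ)] at this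
    rw [nsmul_one]
    exact_mod_cast this

lemma den_eq (H : Finset ℤ) (p α : ℕ) : den H (p ^ α) =
    (({a : ℕ | a < p ^ α ∧ ∀ h ∈ H, ∃ u v : ℤ,
      ((p : ℤ) ^ α) ∣ ((a : ℤ) + h - (u ^ 2 + v ^ 2))}.ncard : ℕ) : ℝ) / (p : ℝ) ^ α := by
  rw [den, dn, sum_ind, ← Set.ncard_coe_finset, Nat.cast_pow]
  congr 3
  ext n
  simp [Loc]

theorem pair_tendsto {a b : ℤ} (hab : a ≠ b) {K S : ℝ}
    (hK : Tendsto (fun X : ℕ => TT S2 X / X * √(log X)) atTop (𝓝 K))
    (hS : Tendsto (fun X => PH {0, b - a} (zz X) (al X) / PH {0} (zz X) (al X) ^ 2) atTop (𝓝 S)) :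
    Tendsto (fun x : ℝ => TT (fun n => S2 (n + a) ∧ S2 (n + b)) ⌊x⌋₊ / x * log x) atTop
      (𝓝 (K ^ 2 * S)) := by
  have pos : ∀ᶠ N : ℕ in atTop, 0 < log N ∧ (0 : ℝ) < N :=
    (tl.eventually_gt_atTop 0).and (tnat.eventually_gt_atTop 0)
  have d2 : Tendsto (fun N : ℕ => 2 * N) atTop atTop := tendsto_id.const_mul_atTop' two_pos
  have r := (log_ratio (v := fun N : ℕ => ((2 * N : ℕ) : ℝ)) tnat (tendsto_const_nhds.congr'
    (pos.mono fun N a => by have := a.2; push_cast; field_simp)) two_pos).sqrt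
  have k1 := (((hK.comp d2).mul r).const_mul 2).sub hK
  rw [sqrt_one, show 2 * (K * 1) - K = K by ring] at k1
  have k2 := dyadic_pair (sub_ne_zero.2 hab.symm) (k1.congr' (by
    filter_upwards [pos, d2.eventually pos] with N c d
    have := c.2
    have := sqrt_pos.2 d.1
    rw [← TT_ct, sqrt_div c.1.le]
    simp only [Function.comp]
    push_cast at *
    field_simp)) hS
  have k3 := dyadic (TT_step fun n => S2 (n + a) ∧ S2 (n + b)) (k2.congr_dist (by
    refine squeeze_zero (fun _ => dist_nonneg) (fun N => ?_) (by simpa using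
      (isLittleO_log_id_atTop.tendsto_div_nhds_zero.comp tnat).const_mul (2 * |(a : ℝ)|))
    have l := div_nonneg (log_natCast_nonneg N) N.cast_nonneg
    have e1 := ct_shift N (fun n => S2 n ∧ S2 (n + (b - a))) a
    have e2 := ct_shift N (fun n => S2 (n + a) ∧ S2 (n + b)) (-a)
    simp only [add_assoc, add_sub_cancel, neg_add_cancel, add_zero, neg_add_eq_sub, Int.cast_neg,
      abs_neg] at e1 e2
    rw [TT_ct, Real.dist_eq, mul_div_assoc, mul_div_assoc, ← sub_mul, abs_mul, abs_of_nonneg l]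
    exact mul_le_mul_of_nonneg_right (abs_le.2 ⟨by linarith, by linarith⟩) l))
  have k4 := ((k3.comp tendsto_nat_floor_atTop).mul (tendsto_nat_floor_div_atTop (R := ℝ))).mul
    (log_ratio tendsto_id (tendsto_nat_floor_div_atTop (R := ℝ)) one_pos)
  rw [mul_one, mul_one] at k4
  refine k4.congr' ((tendsto_nat_floor_atTop.eventually pos).mono fun x c => ?_)
  have := c.1
  have := c.2
  simp only [Function.comp, id]
  field_simp

end Pool.Agent.Work.MP_678620_nt.TA
end
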