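import Pool.Agent.Work.MP_678620_nt.SPIface
import Pool.Agent.Work.MP_678620_nt.SPTrans
import Pool.Agent.Lib.ANT.Mertens
import Pool.Agent.Lib.ANT.PNT

-- merged part: Pool.Agent.Work.MP_678620_nt.TADefs
section
/-! Sums of two squares: definitions for the pair correlation. -/

set_option autoImplicit false
open Finset

namespace Pool.Agent.Work.MP_678620_nt.TA

noncomputable section

open Classical

/-- sums of two squares -/
def S2 (n : ℤ) : Prop := ∃ a b : ℤ, n = a ^ 2 + b ^ 2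

/-- sums of two squares modulo `M` -/
def Loc (M : ℕ) (n : ℤ) : Prop := ∃ u v : ℤ, (M : ℤ) ∣ n - (u ^ 2 + v ^ 2)

def be (z : ℝ) (n : ℕ) : ℂ := if Smo z n ∧ S2 n then 1 else 0

def Wp (z : ℝ) (n : ℕ) : Prop := ∀ p : ℕ, p.Prime → p ∣ n → z < p ∧ p % 4 = 1

def ww (z : ℝ) (n : ℕ) : ℝ := if Wp z n then 1 else 0

def FF (z : ℝ) (n : ℤ) : ℝ := (conv (be z) (gam z 4 (ww z)) n).re

def Fb (z : ℝ) (n : ℤ) : ℝ := (conv (be z) (flat z 4 (ww z)) n).re

def rho (z : ℝ) (m : ℕ) : ℝ := rhoF z (ww z) m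

/-- the sifting primes -/
def PP (z : ℝ) : Finset ℕ := (Icc 1 ⌊z⌋₊).filter fun p => p.Prime ∧ p % 4 ≠ 1

def AA (z : ℝ) (α : ℕ) (n : ℤ) : Prop := ∀ p ∈ PP z, Loc (p ^ α) n

/-- the exceptional integers -/
def Bad (z Y : ℝ) (α : ℕ) (n : ℤ) : Prop :=
  (∃ s : ℕ, (s : ℤ) ∣ n ∧ Smo z s ∧ Y < s) ∨ (∃ d : ℕ, z < d ∧ (d : ℤ) ^ 2 ∣ n) ∨
    ∃ d : ℕ, 2 ≤ d ∧ (d : ℤ) ^ (α - 1) ∣ n

/-- indicator of a proposition -/
def ind (p : Prop) : ℝ := if p then 1 else 0

/-- the density of a periodic set -/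
def dn (M : ℕ) (P : ℤ → Prop) : ℝ := (∑ a ∈ range M, ind (P a)) / M

def den (H : Finset ℤ) (M : ℕ) : ℝ := dn M fun a => ∀ h ∈ H, Loc M (a + h)

def PH (H : Finset ℤ) (z : ℝ) (α : ℕ) : ℝ := ∏ p ∈ PP z, den H (p ^ α)

/-- the number of `n` in `(X, 2X]` with property `P` -/
def ct (X : ℕ) (P : ℤ → Prop) : ℝ := ∑ n ∈ Ioc (X : ℤ) (2 * X), ind (P n)

/-- the number of `n` in `[1, 3X]` with property `P` -/
def cu (X : ℕ) (P : ℤ → Prop) : ℝ := ∑ n ∈ Icc (1 : ℤ) (3 * X), ind (P n)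

def YY (X : ℕ) : ℝ := Real.exp (Real.log X ^ (49 / 50 : ℝ))

def al (X : ℕ) : ℕ := ⌈10 * Real.log (Real.log X)⌉₊ + 3

def EE (X : ℕ) : Finset ℕ := (Icc ⌈Real.exp (Real.log X ^ (1 / 100 : ℝ))⌉₊
  ⌊Real.exp (Real.log X ^ (1 / 4 : ℝ))⌋₊).filter fun p => p.Prime ∧ p % 4 = 1

def LL (X : ℕ) : ℝ := ∑ p ∈ EE X, (p : ℝ)⁻¹

lemma ind_pos {p : Prop} (h : p) : ind p = 1 := if_pos h

lemma ind_neg {p : Prop} (h : ¬ p) : ind p = 0 := if_neg h

lemma ind_nonneg (p : Prop) : 0 ≤ ind p := by unfold ind; split_ifs <;> norm_num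

lemma ind_le (p : Prop) : ind p ≤ 1 := by unfold ind; split_ifs <;> norm_num

lemma ind_mono {p q : Prop} (h : p → q) : ind p ≤ ind q := by
  by_cases a : p
  · rw [ind_pos a, ind_pos (h a)]
  · rw [ind_neg a]; exact ind_nonneg q

lemma ind_or (p q : Prop) : ind (p ∨ q) + ind (p ∧ q) = ind p + ind q := by
  by_cases a : p <;> by_cases b : q <;> simp [ind, a, b]

lemma ind_or_le (p q : Prop) : ind (p ∨ q) ≤ ind p + ind q := by
  have := ind_or p q
  have := ind_nonneg (p ∧ q)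
  linarith

lemma ind_ex {ι : Type*} (s : Finset ι) (P : ι → Prop) :
    ind (∃ i ∈ s, P i) ≤ ∑ i ∈ s, ind (P i) := by
  by_cases h : ∃ i ∈ s, P i
  · obtain ⟨i, hi, a⟩ := id h
    rw [ind_pos h, ← ind_pos a]
    exact single_le_sum (f := fun i => ind (P i)) (fun _ _ => ind_nonneg _) hi
  · rw [ind_neg h]; exact sum_nonneg fun _ _ => ind_nonneg _

lemma sum_ind {ι : Type*} (s : Finset ι) (P : ι → Prop) [DecidablePred P] :
    ∑ i ∈ s, ind (P i) = (s.filter P).card := by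
  rw [card_filter]
  push_cast
  exact sum_congr rfl fun i _ => by unfold ind; congr

end

end Pool.Agent.Work.MP_678620_nt.TA
end

-- merged part: Pool.Agent.Work.MP_678620_nt.TAPt
section
/-! Pointwise comparison of the weights with the indicator functions. -/

set_option autoImplicit false
open Finset

namespace Pool.Agent.Work.MP_678620_nt.TA

open Classical

variable {z : ℝ} {s m n : ℕ}

lemma smo_mul {a b : ℕ} : Smo z (a * b) ↔ Smo z a ∧ Smo z b :=
  ⟨fun h => ⟨fun p hp d => h p hp (d.mul_right _), fun p hp d => h p hp (d.mul_left _)⟩,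
    fun h p hp d => ((Nat.Prime.dvd_mul hp).1 d).elim (h.1 p hp) (h.2 p hp)⟩

lemma ex_fac (z : ℝ) (hn : n ≠ 0) : ∃ s m, n = s * m ∧ Smo z s ∧ Rou z m := by
  induction n using induction_on_primes with
  | zero => exact (hn rfl).elim
  | one => exact ⟨1, 1, rfl, fun p hp d => (hp.not_dvd_one d).elim,
      fun p hp d => (hp.not_dvd_one d).elim⟩
  | prime_mul p a hp ih =>
    obtain ⟨s, m, rfl, hs, hm⟩ := ih (right_ne_zero_of_mul hn)
    rcases le_or_gt (p : ℝ) z with h | h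
    · refine ⟨p * s, m, by ring, smo_mul.2 ⟨fun q hq d => ?_, hs⟩, hm⟩
      rwa [(Nat.prime_dvd_prime_iff_eq hq hp).1 d]
    · refine ⟨s, p * m, by ring, hs, fun q hq d => ((Nat.Prime.dvd_mul hq).1 d).elim
        (fun d => ?_) (hm q hq)⟩
      rwa [(Nat.prime_dvd_prime_iff_eq hq hp).1 d]

lemma cop (hs : Smo z s) (hm : Rou z m) : s.Coprime m :=
  Nat.coprime_of_dvd fun p hp a b => (hm p hp b).not_ge (hs p hp a)

lemma conv_eq {β : ℕ → ℂ} {γ : ℕ → ℝ} (hβ : ∀ n, β n ≠ 0 → Smo z n) (hγ : ∀ n, γ n ≠ 0 → Rou z n)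
    (hs : Smo z s) (hm : Rou z m) (h0 : s * m ≠ 0) :
    conv β γ ((s * m : ℕ) : ℤ) = β s * γ m := by
  rw [conv, Int.toNat_natCast, sum_eq_single (s, m)]
  · rintro ⟨a, b⟩ hab ne
    by_contra h
    have h1 := hβ a (left_ne_zero_of_mul h)
    have h2 := hγ b (by exact_mod_cast right_ne_zero_of_mul h)
    have e := (Nat.mem_divisorsAntidiagonal.1 hab).1
    dsimp only at e
    have : a = s := Nat.dvd_antisymm ((cop h1 hm).dvd_of_dvd_mul_right (e ▸ dvd_mul_right a b))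
      ((cop hs h2).dvd_of_dvd_mul_right (e ▸ dvd_mul_right s m))
    subst this
    exact ne (by rw [Nat.eq_of_mul_eq_mul_left (Nat.pos_of_ne_zero (left_ne_zero_of_mul h0)) e])
  · exact fun h => (h (Nat.mem_divisorsAntidiagonal.2 ⟨rfl, h0⟩)).elim

lemma s2_iff : S2 n ↔ ∀ q : ℕ, q.Prime → q % 4 = 3 → Even (n.factorization q) := by
  have : S2 n ↔ ∃ x y : ℕ, n = x ^ 2 + y ^ 2 := by
    constructor
    · rintro ⟨a, b, h⟩
      refine ⟨a.natAbs, b.natAbs, ?_⟩
      zify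
      rw [h, sq_abs, sq_abs]
    · rintro ⟨a, b, h⟩
      exact ⟨a, b, by exact_mod_cast h⟩
  rw [this, Nat.eq_sq_add_sq_iff]
  constructor
  · intro h q hq h4
    by_cases d : q ∈ n.primeFactors
    · rw [Nat.factorization_def _ hq]; exact h q d h4
    · rw [← Nat.support_factorization, Finsupp.notMem_support_iff] at d
      rw [d]; exact Even.zero
  · intro h q hq h4
    have := Nat.prime_of_mem_primeFactors hq
    rw [← Nat.factorization_def _ this]; exact h q this h4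

lemma S2.mul {a b : ℤ} (h : S2 a) (h' : S2 b) : S2 (a * b) := by
  obtain ⟨x, y, rfl⟩ := h
  obtain ⟨u, v, rfl⟩ := h'
  exact ⟨x * u - y * v, x * v + y * u, by ring⟩

lemma S2.loc {a : ℤ} (h : S2 a) (M : ℕ) : Loc M a := by
  obtain ⟨x, y, rfl⟩ := h
  exact ⟨x, y, by simp⟩

lemma S2.mul_loc {a b : ℤ} {M : ℕ} (h : S2 a) (h' : Loc M b) : Loc M (a * b) := by
  obtain ⟨u, v, d⟩ := h'
  obtain ⟨x, y, e⟩ := h.mul ⟨u, v, rfl⟩
  exact ⟨x, y, by rw [← e, ← mul_sub]; exact d.mul_left _⟩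

lemma s2_prime {p : ℕ} (hp : p.Prime) (h : p % 4 = 1) : S2 p := by
  have := Fact.mk hp
  obtain ⟨a, b, e⟩ := Nat.Prime.sq_add_sq (p := p) (by omega)
  exact ⟨a, b, by exact_mod_cast e.symm⟩

lemma loc_of {M : ℕ} (hM : M ≠ 0) {a : ℤ} (h : IsCoprime a M) (h4 : a % 4 = 1) : Loc M a := by
  obtain ⟨p, -, hp, e⟩ := Nat.forall_exists_prime_gt_and_zmodEq 0 (q := 4 * M) (a := a)
    (by omega) (by
      push_cast
      exact IsCoprime.mul_right ⟨1, -(a / 4), by omega⟩ h)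
  have e4 : (p : ℤ) ≡ a [ZMOD 4] := e.of_dvd (by push_cast; exact dvd_mul_right _ _)
  obtain ⟨u, v, f⟩ := s2_prime hp (by unfold Int.ModEq at e4; omega)
  exact ⟨u, v, f ▸ (e.of_dvd (by push_cast; exact dvd_mul_left _ _)).dvd⟩

lemma S2.half {a : ℤ} (j : ℕ) (h : S2 (2 ^ j * a)) : S2 a := by
  induction j with
  | zero => simpa using h
  | succ j ih =>
    obtain ⟨u, v, e⟩ := h
    obtain ⟨c, hc⟩ : (2 : ℤ) ∣ u + v := by
      refine Int.prime_two.dvd_of_dvd_pow (n := 2) ⟨2 ^ j * a + u * v, ?_⟩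
      linear_combination -e
    refine ih ⟨c, c - v, ?_⟩
    have : u = 2 * c - v := by linarith
    subst this
    refine mul_left_cancel₀ two_ne_zero ?_
    linear_combination e

lemma S2.mod {a : ℤ} (h : S2 a) (o : a % 2 = 1) : a % 4 = 1 := by
  obtain ⟨u, v, rfl⟩ := h
  have h : ∀ x : ℤ, x ^ 2 % 4 = 0 ∨ x ^ 2 % 4 = 1 := fun x => by
    obtain ⟨k, rfl | rfl⟩ := x.even_or_odd'
    · left; rw [show (2 * k) ^ 2 = 4 * k ^ 2 by ring]; omega
    · right; rw [show (2 * k + 1) ^ 2 = 4 * (k ^ 2 + k) + 1 by ring]; omega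
  have := h u
  have := h v
  omega

lemma s2_left (h : S2 (s * m : ℕ)) (c : s.Coprime m) (h0 : s * m ≠ 0) : S2 s := by
  refine s2_iff.2 fun q hq h4 => ?_
  have := s2_iff.1 h q hq h4
  rw [Nat.factorization_mul (left_ne_zero_of_mul h0) (right_ne_zero_of_mul h0),
    Finsupp.add_apply] at this
  by_cases d : q ∣ s
  · rwa [Nat.factorization_eq_zero_of_not_dvd (n := m) fun d' =>
      hq.not_dvd_one (c ▸ Nat.dvd_gcd d d'), add_zero] at this
  · rw [Nat.factorization_eq_zero_of_not_dvd d]; exact Even.zero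

lemma Wp.s2 (h : Wp z m) : S2 m := s2_iff.2 fun q hq h4 => by
  rw [Nat.factorization_eq_zero_of_not_dvd fun d => by have := (h q hq d).2; omega]
  exact Even.zero

lemma Wp.dvd (h : Wp z m) (d : n ∣ m) : Wp z n := fun p hp e => h p hp (e.trans d)

lemma Wp.mod (h : Wp z m) : m % 4 = 1 := by
  induction m using induction_on_primes with
  | zero => have := (h 2 Nat.prime_two (dvd_zero _)).2; omega
  | one => rfl
  | prime_mul p a hp ih =>
    rw [Nat.mul_mod, (h p hp (dvd_mul_right _ _)).2, ih (h.dvd (dvd_mul_left _ _))]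

lemma ww_nonneg (z : ℝ) (n : ℕ) : 0 ≤ ww z n := by unfold ww; split_ifs <;> norm_num

lemma ww_le (z : ℝ) (n : ℕ) : ww z n ≤ 1 := by unfold ww; split_ifs <;> norm_num

lemma be_supp (n : ℕ) (h : be z n ≠ 0) : Smo z n ∧ S2 n := by
  by_contra e
  exact h (if_neg e)

lemma dat (z : ℝ) : Dat z 4 (be z) (ww z) where
  β_le n := by unfold be; split_ifs <;> simp
  β_supp n h := (be_supp n h).1
  w_nonneg := ww_nonneg z
  w_le := ww_le z
  w_supp n h := by
    have : Wp z n := by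
      by_contra e
      exact h (if_neg e)
    exact ⟨fun p hp d => (this p hp d).1, this.mod⟩

lemma be_mul {p : ℕ} (hp : p.Prime) (h4 : p % 4 = 1) (hz : (p : ℝ) ≤ z) (n : ℕ) :
    be z (p * n) = be z n := by
  unfold be
  congr 1
  refine propext ⟨fun ⟨a, b⟩ => ⟨(smo_mul.1 a).2, ?_⟩, fun ⟨a, b⟩ => ⟨smo_mul.2 ⟨fun q hq d => ?_, a⟩,
    by push_cast; exact (s2_prime hp h4).mul b⟩⟩
  · rcases n.eq_zero_or_pos with rfl | hn
    · exact ⟨0, 0, by simp⟩
    refine s2_iff.2 fun q hq h => ?_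
    have := s2_iff.1 b q hq h
    rwa [Nat.factorization_mul hp.ne_zero hn.ne', Finsupp.add_apply,
      Nat.factorization_eq_zero_of_not_dvd (n := p) fun d => by
        have := (Nat.prime_dvd_prime_iff_eq hq hp).1 d
        omega, zero_add] at this
  · rwa [(Nat.prime_dvd_prime_iff_eq hq hp).1 d]

lemma gam_eq (z : ℝ) (m : ℕ) :
    gam z 4 (ww z) m = ww z m * ∑ p ∈ m.primeFactors, Real.log p := by
  rw [gam, mul_sum]
  refine sum_congr rfl fun p hp => ?_
  have h1 := Nat.prime_of_mem_primeFactors hp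
  have h2 := Nat.dvd_of_mem_primeFactors hp
  by_cases h : Wp z m
  · rw [if_pos ⟨(h p h1 h2).1, (h p h1 h2).2⟩, ww, ww, if_pos h,
      if_pos (h.dvd (Nat.div_dvd_of_dvd h2))]
  · rw [ww, ww, if_neg h, zero_mul]
    split_ifs with a b
    · refine (h fun q hq d => ?_).elim
      rw [← Nat.mul_div_cancel' h2] at d
      refine ((Nat.Prime.dvd_mul hq).1 d).elim (fun d => ?_) (b q hq)
      rw [(Nat.prime_dvd_prime_iff_eq hq h1).1 d]
      exact a
    · exact zero_mul _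
    · rfl

lemma gam_rou (m : ℕ) (h : gam z 4 (ww z) m ≠ 0) : Rou z m :=
  ((dat z).w_supp m (left_ne_zero_of_mul (gam_eq z m ▸ h))).1

lemma flat_rou (m : ℕ) (h : flat z 4 (ww z) m ≠ 0) : Rou z m := by
  by_contra e
  exact h (if_neg fun a => e a.1)

lemma conv_FF (hs : Smo z s) (hm : Rou z m) (h0 : s * m ≠ 0) :
    conv (be z) (gam z 4 (ww z)) ((s * m : ℕ) : ℤ) =
      ((if S2 s ∧ Wp z m then ∑ p ∈ m.primeFactors, Real.log p else 0 : ℝ) : ℂ) := by
  rw [conv_eq (fun n h => (be_supp n h).1) gam_rou hs hm h0, gam_eq, be, ww]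
  by_cases a : S2 s <;> by_cases b : Wp z m <;> simp [a, b, hs]

lemma conv_Fb (hs : Smo z s) (hm : Rou z m) (h0 : s * m ≠ 0) :
    conv (be z) (flat z 4 (ww z)) ((s * m : ℕ) : ℤ) =
      ((if S2 s ∧ m % 4 = 1 then rho z m else 0 : ℝ) : ℂ) := by
  rw [conv_eq (fun n h => (be_supp n h).1) flat_rou hs hm h0, flat, be, rho]
  by_cases a : S2 s <;> by_cases b : m % 4 = 1 <;> simp [a, b, hs, hm, Nat.ModEq]

lemma fac_int (z : ℝ) {n : ℤ} (hn : 1 ≤ n) :
    ∃ s m : ℕ, n = (s * m : ℕ) ∧ Smo z s ∧ Rou z m ∧ s * m ≠ 0 := by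
  lift n to ℕ using by omega
  obtain ⟨s, m, rfl, a, b⟩ := ex_fac z (n := n) (by omega)
  exact ⟨s, m, rfl, a, b, by omega⟩

lemma FF_cast (z : ℝ) {n : ℤ} (hn : 1 ≤ n) : conv (be z) (gam z 4 (ww z)) n = FF z n := by
  obtain ⟨s, m, rfl, a, b, c⟩ := fac_int z hn
  rw [FF, conv_FF a b c, Complex.ofReal_re]

lemma Fb_cast (z : ℝ) {n : ℤ} (hn : 1 ≤ n) : conv (be z) (flat z 4 (ww z)) n = Fb z n := by
  obtain ⟨s, m, rfl, a, b, c⟩ := fac_int z hn
  rw [Fb, conv_Fb a b c, Complex.ofReal_re]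

lemma sum_log_eq (m : ℕ) :
    ∑ p ∈ m.primeFactors, Real.log p = Real.log ((∏ p ∈ m.primeFactors, p : ℕ) : ℝ) := by
  rw [Nat.cast_prod, Real.log_prod fun p hp => by
    exact_mod_cast (Nat.prime_of_mem_primeFactors hp).ne_zero]

lemma FF_bd (z : ℝ) {n : ℤ} (hn : 1 ≤ n) :
    0 ≤ FF z n ∧ FF z n ≤ Real.log n ∧ (¬ S2 n → FF z n = 0) := by
  obtain ⟨s, m, rfl, a, b, c⟩ := fac_int z hn
  rw [FF, conv_FF a b c, Complex.ofReal_re]
  split_ifs with h
  · refine ⟨sum_nonneg fun p _ => Real.log_natCast_nonneg p, ?_, fun e => (e ?_).elim⟩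
    · rw [sum_log_eq, Int.cast_natCast]
      refine Real.log_le_log (by exact_mod_cast prod_pos fun p hp =>
        (Nat.prime_of_mem_primeFactors hp).pos) ?_
      exact_mod_cast Nat.le_of_dvd (Nat.pos_of_ne_zero c)
        ((Nat.prod_primeFactors_dvd m).mul_left s)
    · push_cast
      exact h.1.mul h.2.s2
  · exact ⟨le_rfl, Real.log_intCast_nonneg _, fun _ => rfl⟩

lemma FF_lo {Y : ℝ} {α : ℕ} (hz : 2 ≤ z) {n : ℤ} (hn : 1 ≤ n) (h : S2 n)
    (hb : ¬ Bad z Y α n) : Real.log n - Real.log Y ≤ FF z n := by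
  obtain ⟨s, m, rfl, a, b, c⟩ := fac_int z hn
  have hs : (s : ℝ) ≤ Y := not_lt.1 fun e =>
    hb (.inl ⟨s, by exact_mod_cast dvd_mul_right s m, a, e⟩)
  have hq : ∀ p : ℕ, p.Prime → ¬ p * p ∣ m := fun p hp d =>
    hb (.inr (.inl ⟨p, b p hp ((dvd_mul_right p p).trans d), by
      rw [sq]; exact_mod_cast d.mul_left s⟩))
  have hm : S2 m := s2_left (mul_comm s m ▸ h) (cop a b).symm (mul_comm s m ▸ c)
  have m0 := right_ne_zero_of_mul c
  have hW : Wp z m := fun p hp d => ⟨b p hp d, by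
    have h2 : 2 < p := by exact_mod_cast hz.trans_lt (b p hp d)
    have h3 := hp.eq_two_or_odd
    by_contra e
    obtain ⟨k, hk⟩ := s2_iff.1 hm p hp (by omega)
    have := (hp.dvd_iff_one_le_factorization m0).1 d
    exact hq p hp (by rw [← sq, hp.pow_dvd_iff_le_factorization m0]; omega)⟩
  rw [FF, conv_FF a b c, Complex.ofReal_re, if_pos ⟨s2_left h (cop a b) c, hW⟩, sum_log_eq,
    Nat.prod_primeFactors_of_squarefree (Nat.squarefree_iff_prime_squarefree.2 hq),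
    Int.cast_natCast, Nat.cast_mul, Real.log_mul (by exact_mod_cast left_ne_zero_of_mul c)
      (by exact_mod_cast m0)]
  have := Real.log_le_log (by exact_mod_cast Nat.pos_of_ne_zero (left_ne_zero_of_mul c)) hs
  linarith

lemma Vz_pos (z : ℝ) : 0 < Vz z := prod_pos fun p hp => by
  have : (1 : ℝ) < p := by exact_mod_cast (mem_filter.1 hp).2.one_lt
  exact sub_pos.2 (inv_lt_one_of_one_lt₀ this)

lemma rho_nonneg (z : ℝ) (m : ℕ) : 0 ≤ rho z m :=
  div_nonneg (sum_nonneg fun n _ => div_nonneg (ww_nonneg z n) n.cast_nonneg) (Vz_pos z).le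

lemma rho_mono (z : ℝ) (h : m ≤ n) : rho z m ≤ rho z n := by
  refine div_le_div_of_nonneg_right (sum_le_sum_of_subset_of_nonneg (fun a ha => ?_)
    fun n _ _ => div_nonneg (ww_nonneg z n) n.cast_nonneg) (Vz_pos z).le
  rw [mem_filter, mem_Icc] at ha ⊢
  exact ⟨⟨ha.1.1, ha.1.2.trans h⟩, ha.2.trans_le (by exact_mod_cast h)⟩

lemma mem_PP {p : ℕ} (hz : 0 ≤ z) : p ∈ PP z ↔ p.Prime ∧ p % 4 ≠ 1 ∧ (p : ℝ) ≤ z := by
  rw [PP, mem_filter, mem_Icc, Nat.le_floor_iff hz]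
  exact ⟨fun h => ⟨h.2.1, h.2.2, h.1.2⟩, fun h => ⟨⟨h.1.pos, h.2.2⟩, h.1, h.2.1⟩⟩

lemma S2.aa {n : ℤ} (h : S2 n) (z : ℝ) (α : ℕ) : AA z α n := fun _ _ => h.loc _

lemma Fb_bd (hz : 0 ≤ z) (α : ℕ) {n : ℤ} (hn : 1 ≤ n) {M : ℕ} (hM : n ≤ M) :
    0 ≤ Fb z n ∧ Fb z n ≤ rho z M ∧ (¬ AA z α n → Fb z n = 0) := by
  obtain ⟨s, m, rfl, a, b, c⟩ := fac_int z hn
  rw [Fb, conv_Fb a b c, Complex.ofReal_re]
  split_ifs with h
  · refine ⟨rho_nonneg z m, rho_mono z ((Nat.le_of_dvd (Nat.pos_of_ne_zero c)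
      (dvd_mul_left m s)).trans (by exact_mod_cast hM)), fun e => (e fun p hp => ?_).elim⟩
    obtain ⟨h1, -, h3⟩ := (mem_PP hz).1 hp
    push_cast
    refine h.1.mul_loc (loc_of (pow_ne_zero _ h1.ne_zero) ?_ (by omega))
    rw [Nat.isCoprime_iff_coprime]
    exact (((Nat.Prime.coprime_iff_not_dvd h1).2 fun d => (b p h1 d).not_ge h3).symm).pow_right _
  · exact ⟨le_rfl, rho_nonneg z M, fun _ => rfl⟩

lemma Fb_lo {Y : ℝ} {α : ℕ} (hz : 2 ≤ z) {n : ℤ} (hn : 1 ≤ n) (h : AA z α n)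
    (hb : ¬ Bad z Y α n) {m' : ℕ} (hm' : m' * Y ≤ n) : rho z m' ≤ Fb z n := by
  obtain ⟨s, m, rfl, a, b, c⟩ := fac_int z hn
  have s0 := left_ne_zero_of_mul c
  have m0 := right_ne_zero_of_mul c
  have hs : (s : ℝ) ≤ Y := not_lt.1 fun e =>
    hb (.inl ⟨s, by exact_mod_cast dvd_mul_right s m, a, e⟩)
  have hv : ∀ q : ℕ, q.Prime → s.factorization q + 2 ≤ α := fun q hq => by
    by_contra e
    refine hb (.inr (.inr ⟨q, hq.two_le, ?_⟩))
    exact_mod_cast ((hq.pow_dvd_iff_le_factorization s0).2 (by omega)).mul_right m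
  have h2 : S2 s := s2_iff.2 fun q hq h4 => by
    by_cases d : q ∣ s
    swap
    · rw [Nat.factorization_eq_zero_of_not_dvd d]; exact Even.zero
    obtain ⟨u, v, e⟩ := h q ((mem_PP (by linarith)).2 ⟨hq, by omega, a q hq d⟩)
    obtain ⟨t, ht⟩ := Int.eq_ofNat_of_zero_le (show 0 ≤ u ^ 2 + v ^ 2 by positivity)
    have f : ∀ i ≤ α, q ^ i ∣ s ↔ q ^ i ∣ t := fun i hi => by
      have e' : ((q ^ i : ℕ) : ℤ) ∣ (s * m : ℕ) - t :=
        ht ▸ (Int.natCast_dvd_natCast.2 (pow_dvd_pow q hi)).trans e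
      have cq : (q ^ i).Coprime m := Nat.Coprime.pow_left _ ((cop a b).coprime_dvd_left d)
      rw [← cq.dvd_mul_right (m := s), ← Int.natCast_dvd_natCast, ← Int.natCast_dvd_natCast,
        dvd_iff_dvd_of_dvd_sub e']
    have hj := hv q hq
    have f1 := (f _ (by omega)).1 ((hq.pow_dvd_iff_le_factorization s0).2 le_rfl)
    have f2 : ¬ q ^ (s.factorization q + 1) ∣ t := fun g => by
      have := (hq.pow_dvd_iff_le_factorization s0).1 ((f _ (by omega)).2 g)
      omega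
    have t0 : t ≠ 0 := by rintro rfl; exact f2 (dvd_zero _)
    rw [hq.pow_dvd_iff_le_factorization t0] at f1 f2
    rw [show s.factorization q = t.factorization q by omega]
    exact s2_iff.1 ⟨u, v, ht.symm⟩ q hq h4
  have h4 : m % 4 = 1 := by
    obtain ⟨u, v, c', e⟩ := h 2 ((mem_PP (by linarith)).2 ⟨Nat.prime_two, by omega,
      by exact_mod_cast hz⟩)
    obtain ⟨i, hi⟩ := Nat.exists_eq_add_of_le (hv 2 Nat.prime_two)
    have e1 := Nat.ordProj_mul_ordCompl_eq_self s 2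
    have e2 := Nat.not_dvd_ordCompl Nat.prime_two s0
    have e3 : ¬ 2 ∣ m := fun d => (b 2 Nat.prime_two d).not_ge (by exact_mod_cast hz)
    generalize s / 2 ^ s.factorization 2 = s' at e1 e2
    generalize s.factorization 2 = j at e1 hi
    subst e1 hi
    have g1 : (s' : ℤ) % 4 = 1 := (S2.half j (by exact_mod_cast h2)).mod (by omega)
    have g0 : ((s' : ℤ) * m) % 2 = 1 := by
      rw [Int.mul_emod, show (s' : ℤ) % 2 = 1 by omega, show (m : ℤ) % 2 = 1 by omega]; rfl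
    have g2 : ((s' : ℤ) * m - 4 * (2 ^ i * c')) % 4 = 1 :=
      (S2.half j ⟨u, v, by push_cast at e; linear_combination e⟩).mod (by omega)
    obtain ⟨k, hk⟩ : ∃ k : ℤ, (s' : ℤ) = 4 * k + 1 := ⟨s' / 4, by omega⟩
    rw [hk, show (4 * k + 1) * (m : ℤ) = 4 * (k * m) + m by ring] at g2
    omega
  rw [Fb, conv_Fb a b c, Complex.ofReal_re, if_pos ⟨h2, h4⟩]
  refine rho_mono z ?_
  have s1 : (0 : ℝ) < s := by exact_mod_cast Nat.pos_of_ne_zero s0
  have : (m' : ℝ) * s ≤ m * s := by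
    push_cast at hm'
    nlinarith [m'.cast_nonneg (α := ℝ)]
  exact_mod_cast le_of_mul_le_mul_right this s1

end Pool.Agent.Work.MP_678620_nt.TA
end

-- merged part: Pool.Agent.Work.MP_678620_nt.TALoc
section
/-! Local densities and the singular series. -/

set_option autoImplicit false
open Finset Filter Topology

namespace Pool.Agent.Work.MP_678620_nt.TA

open Classical

/-- periodic predicates -/
def Per (M : ℕ) (P : ℤ → Prop) : Prop := ∀ a b : ℤ, (M : ℤ) ∣ b - a → P a → P b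

variable {M : ℕ} {P Q : ℤ → Prop}

lemma dn_zmod [NeZero M] (P : ℤ → Prop) : dn M P = (∑ x : ZMod M, ind (P x.val)) / M := by
  rw [dn]
  congr 1
  refine sum_nbij' (fun a => (a : ZMod M)) ZMod.val (fun a _ => mem_univ _)
    (fun x _ => mem_range.2 (ZMod.val_lt x)) (fun a ha => ZMod.val_cast_of_lt (mem_range.1 ha))
    (fun x _ => ZMod.natCast_zmod_val x) fun a ha => by rw [ZMod.val_cast_of_lt (mem_range.1 ha)]

lemma Per.val [NeZero M] (h : Per M P) (y : ℤ) : P (y : ZMod M).val ↔ P y := by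
  have : (M : ℤ) ∣ y - (y : ZMod M).val := by
    rw [← ZMod.intCast_zmod_eq_zero_iff_dvd]; simp
  exact ⟨h _ _ this, h _ _ (by rw [← neg_sub]; exact this.neg_right)⟩

lemma Per.shift (h : Per M P) (c : ℤ) : Per M fun a => P (a + c) := fun a b d =>
  h _ _ (by rwa [add_sub_add_right_eq_sub])

lemma dn_shift (hM : M ≠ 0) (h : Per M P) (c : ℤ) : dn M (fun a => P (a + c)) = dn M P := by
  have := NeZero.mk hM
  rw [dn_zmod, dn_zmod]
  congr 1
  refine Fintype.sum_equiv (Equiv.addRight (c : ZMod M)) _ _ fun x => ?_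
  rw [Equiv.coe_addRight, ← propext (h.val _)]
  simp

lemma dn_nonneg (M : ℕ) (P : ℤ → Prop) : 0 ≤ dn M P :=
  div_nonneg (sum_nonneg fun _ _ => ind_nonneg _) M.cast_nonneg

lemma dn_mono (h : ∀ a, P a → Q a) : dn M P ≤ dn M Q :=
  div_le_div_of_nonneg_right (sum_le_sum fun _ _ => ind_mono (h _)) M.cast_nonneg

lemma dn_congr (h : ∀ a, P a ↔ Q a) : dn M P = dn M Q := by rw [funext fun a => propext (h a)]

lemma dn_true (hM : M ≠ 0) (h : ∀ a, P a) : dn M P = 1 := by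
  rw [dn, sum_congr rfl fun a _ => ind_pos (h _), sum_const, card_range, nsmul_one,
    div_self (by exact_mod_cast hM)]

lemma dn_le (hM : M ≠ 0) (P : ℤ → Prop) : dn M P ≤ 1 :=
  (dn_mono fun _ _ => trivial).trans (dn_true hM fun _ => trivial).le

lemma dn_or (M : ℕ) (P Q : ℤ → Prop) :
    dn M (fun a => P a ∨ Q a) + dn M (fun a => P a ∧ Q a) = dn M P + dn M Q := by
  unfold dn
  rw [← add_div, ← add_div, ← sum_add_distrib, ← sum_add_distrib]
  simp only [ind_or]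

lemma dn_not (hM : M ≠ 0) (P : ℤ → Prop) : dn M (fun a => ¬ P a) = 1 - dn M P := by
  have := dn_or M P fun a => ¬ P a
  rw [dn_true hM fun a => _root_.em _,
    show dn M (fun a => P a ∧ ¬ P a) = 0 by simp [dn, ind]] at this
  linarith

lemma per_dvd {d : ℕ} (h : d ∣ M) : Per M fun a => (d : ℤ) ∣ a := fun a b e f => by
  simpa using ((Int.natCast_dvd_natCast.2 h).trans e).add f

lemma dn_dvd (hM : M ≠ 0) {d : ℕ} (h : d ∣ M) (c : ℤ) :
    dn M (fun a => (d : ℤ) ∣ a + c) = (d : ℝ)⁻¹ := by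
  rw [dn_shift hM (per_dvd h), ← dn_shift hM (per_dvd h) 1, dn, sum_ind]
  have := Nat.card_multiples M d
  obtain ⟨k, rfl⟩ := h
  have d0 : d ≠ 0 := left_ne_zero_of_mul hM
  have k0 : (k : ℝ) ≠ 0 := by exact_mod_cast right_ne_zero_of_mul hM
  rw [Nat.mul_div_cancel_left _ (Nat.pos_of_ne_zero d0)] at this
  rw [filter_congr (q := fun e => d ∣ e + 1) fun a _ => by exact_mod_cast Iff.rfl, this]
  push_cast
  field_simp

lemma per_loc (M : ℕ) : Per M (Loc M) := fun a b d ⟨u, v, e⟩ => ⟨u, v, by simpa using d.add e⟩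

lemma per_den (H : Finset ℤ) (M : ℕ) : Per M fun a => ∀ h ∈ H, Loc M (a + h) :=
  fun a b d e h hh => (per_loc M).shift h a b d (e h hh)

lemma loc_odd {p α : ℕ} (hp : p.Prime) (h2 : p ≠ 2) {a : ℤ} (h : ¬ (p : ℤ) ∣ a) :
    Loc (p ^ α) a := by
  obtain ⟨k, hk⟩ : Odd ((p : ℤ) ^ α) := ((Int.odd_coe_nat p).2 (hp.odd_of_ne_two h2)).pow
  have c : IsCoprime a ((p ^ α : ℕ) : ℤ) := by
    push_cast
    exact ((Nat.prime_iff_prime_int.1 hp).coprime_iff_not_dvd.2 h).symm.pow_right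
  refine per_loc _ (a + ((p ^ α : ℕ) : ℤ) * ((1 - a) * p ^ α)) _ (by simp) (loc_of
    (pow_ne_zero _ hp.ne_zero) (c.add_mul_left_left _) ?_)
  push_cast
  rw [hk, show a + (2 * k + 1) * ((1 - a) * (2 * k + 1)) = 1 + 4 * ((1 - a) * (k ^ 2 + k)) by ring]
  omega

lemma one_sub_den (H : Finset ℤ) {p α : ℕ} (hp : p.Prime) (h2 : p ≠ 2) (hα : α ≠ 0) :
    1 - den H (p ^ α) ≤ H.card / p := by
  have hM := pow_ne_zero α hp.ne_zero
  induction H using Finset.induction_on with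
  | empty => rw [den, dn_true hM (by simp)]; simp
  | insert h H hh ih =>
    have e1 := dn_or (p ^ α) (fun a => (p : ℤ) ∣ a + h) fun a => ¬ ∀ h ∈ H, Loc (p ^ α) (a + h)
    have e2 := dn_nonneg (p ^ α) fun a => (p : ℤ) ∣ a + h ∧ ¬ ∀ h ∈ H, Loc (p ^ α) (a + h)
    have e3 := dn_mono (M := p ^ α) (P := fun a => ¬ ∀ h' ∈ insert h H, Loc (p ^ α) (a + h'))
      (Q := fun a => (p : ℤ) ∣ a + h ∨ ¬ ∀ h ∈ H, Loc (p ^ α) (a + h)) fun a ha => by
        by_contra e
        push Not at e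
        exact ha (forall_mem_insert .. |>.2 ⟨loc_odd hp h2 e.1, e.2⟩)
    rw [dn_dvd hM (dvd_pow_self p hα), dn_not hM] at e1
    rw [dn_not hM] at e3
    rw [card_insert_of_notMem hh, Nat.cast_succ, add_div, one_div]
    unfold den at ih ⊢
    linarith

lemma one_sub_den' (H : Finset ℤ) {p α : ℕ} (hp : p.Prime) (hα : α ≠ 0) :
    1 - den H (p ^ α) ≤ (H.card + 2) * (p : ℝ)⁻¹ := by
  by_cases h2 : p = 2
  · subst h2
    have := dn_nonneg (2 ^ α) fun a => ∀ h ∈ H, Loc (2 ^ α) (a + h)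
    have := H.card.cast_nonneg (α := ℝ)
    unfold den
    push_cast
    linarith
  · refine (one_sub_den H hp h2 hα).trans ?_
    rw [div_eq_mul_inv]
    gcongr
    linarith

lemma den_zero {p α : ℕ} (hp : p.Prime) (hα : 2 ≤ α) : 1 / 4 ≤ den {0} (p ^ α) := by
  by_cases h2 : p = 2
  · subst h2
    have := dn_dvd (pow_ne_zero α two_ne_zero) (pow_dvd_pow 2 hα) 3
    norm_num at this
    rw [← this]
    refine dn_mono fun a ha h hh => loc_of (pow_ne_zero α two_ne_zero) ?_ ?_ <;>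
      rw [mem_singleton.1 hh, add_zero]
    · push_cast
      exact IsCoprime.pow_right ⟨1, -(a / 2), by omega⟩
    · omega
  · have := one_sub_den {0} hp h2 (α := α) (by omega)
    have h3 : (2 : ℝ) ≤ p := by exact_mod_cast hp.two_le
    have : ((card ({0} : Finset ℤ) : ℕ) : ℝ) / p ≤ 1 / 2 := by
      rw [card_singleton, Nat.cast_one]; gcongr
    linarith

lemma den_pair {p α : ℕ} (hp : p.Prime) (h2 : p ≠ 2) {h : ℤ} (hh : ¬ (p : ℤ) ∣ h) :
    den {0, h} (p ^ α) = 2 * den {0} (p ^ α) - 1 := by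
  have hM := pow_ne_zero α hp.ne_zero
  have e := dn_or (p ^ α) (Loc (p ^ α)) fun a => Loc (p ^ α) (a + h)
  rw [dn_shift hM (per_loc _), dn_true hM fun a => by
    by_contra e
    push Not at e
    exact hh ((dvd_add_right (not_not.1 (mt (loc_odd hp h2) e.1))).1
      (not_not.1 (mt (loc_odd hp h2) e.2)))] at e
  rw [den, den, dn_congr (Q := fun a => Loc (p ^ α) a ∧ Loc (p ^ α) (a + h)) (by simp),
    dn_congr (P := fun a => ∀ h ∈ ({0} : Finset ℤ), _) (Q := Loc (p ^ α)) (by simp)]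
  linarith

lemma den_shift (hM : M ≠ 0) (a b : ℤ) : den {a, b} M = den {0, b - a} M := by
  rw [den, den, ← dn_shift hM (per_den {0, b - a} M) a]
  exact dn_congr fun x => by simp [add_assoc]

lemma ratio_le {p α : ℕ} (hp : p.Prime) (hα : 2 ≤ α) {h : ℤ} (hh : h ≠ 0) :
    |den {0, h} (p ^ α) / den {0} (p ^ α) ^ 2 - 1| ≤ 64 * (h : ℝ) ^ 2 * ((p : ℝ) ^ 2)⁻¹ := by
  have h0 := den_zero hp hα
  have h1 : (1 : ℝ) ≤ (h : ℝ) ^ 2 := by exact_mod_cast (one_le_sq_iff_one_le_abs h).2 (Int.one_le_abs hh)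
  have p0 : (0 : ℝ) < p := by exact_mod_cast hp.pos
  by_cases c : (p : ℤ) ∣ 2 * h
  · have c1 : (p : ℝ) ^ 2 ≤ (2 * h) ^ 2 := by
      exact_mod_cast Int.le_of_dvd (by positivity) (pow_dvd_pow_of_dvd c 2)
    have c2 : den {0, h} (p ^ α) / den {0} (p ^ α) ^ 2 ≤ 16 := by
      rw [div_le_iff₀ (by positivity)]
      have := dn_le (pow_ne_zero α hp.ne_zero) fun a => ∀ h' ∈ ({0, h} : Finset ℤ),
        Loc (p ^ α) (a + h')
      unfold den at h0 ⊢
      nlinarith
    have c3 : 0 ≤ den {0, h} (p ^ α) / den {0} (p ^ α) ^ 2 :=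
      div_nonneg (dn_nonneg _ _) (by positivity)
    rw [← div_eq_mul_inv, le_div_iff₀ (by positivity)]
    have : |den {0, h} (p ^ α) / den {0} (p ^ α) ^ 2 - 1| ≤ 16 := abs_le.2 ⟨by linarith, by linarith⟩
    nlinarith [abs_nonneg (den {0, h} (p ^ α) / den {0} (p ^ α) ^ 2 - 1)]
  · have h2 : p ≠ 2 := by rintro rfl; exact c (dvd_mul_right _ _)
    have e := one_sub_den {0} hp h2 (α := α) (by omega)
    have e' := dn_le (pow_ne_zero α hp.ne_zero) fun a => ∀ h' ∈ ({0} : Finset ℤ),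
      Loc (p ^ α) (a + h')
    rw [card_singleton, Nat.cast_one, one_div] at e
    rw [den_pair hp h2 fun d => c (d.mul_left 2)]
    change den {0} (p ^ α) ≤ 1 at e'
    generalize den {0} (p ^ α) = d at h0 e e'
    have d0 : 0 < d := by linarith
    rw [show (2 * d - 1) / d ^ 2 - 1 = -((1 - d) ^ 2 / d ^ 2) by field_simp; ring, abs_neg,
      abs_of_nonneg (by positivity), div_le_iff₀ (by positivity), ← inv_pow]
    have e1 : (1 - d) ^ 2 ≤ (p : ℝ)⁻¹ ^ 2 := pow_le_pow_left₀ (by linarith) e 2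
    have e2 : 1 ≤ 64 * (h : ℝ) ^ 2 * d ^ 2 := by nlinarith
    nlinarith [sq_nonneg (p : ℝ)⁻¹]

lemma PH_zero_pos (z : ℝ) {α : ℕ} (hα : 2 ≤ α) : 0 < PH {0} z α :=
  prod_pos fun p hp => lt_of_lt_of_le (by norm_num) (den_zero (mem_filter.1 hp).2.1 hα)

lemma PH_nonneg (H : Finset ℤ) (z : ℝ) (α : ℕ) : 0 ≤ PH H z α :=
  prod_nonneg fun _ _ => dn_nonneg _ _

/-- the truncated singular series converges -/
theorem sing_tendsto {h : ℤ} (hh : h ≠ 0) {δ₀ δ : ℕ → ℝ}
    (h₀ : ∀ p : ℕ, p.Prime → Tendsto (fun α => den {0} (p ^ α)) atTop (𝓝 (δ₀ p)))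
    (h₁ : ∀ p : ℕ, p.Prime → Tendsto (fun α => den {0, h} (p ^ α)) atTop (𝓝 (δ p)))
    {z : ℕ → ℝ} {α : ℕ → ℕ} (hz : Tendsto z atTop atTop) (hα : Tendsto α atTop atTop) :
    Tendsto (fun X => PH {0, h} (z X) (α X) / PH {0} (z X) (α X) ^ 2) atTop
      (𝓝 (∏' q : {p : ℕ // p.Prime ∧ p % 4 ≠ 1}, δ q.1 / δ₀ q.1 ^ 2)) := by
  have key := tendsto_tprod_one_add_of_dominated_convergence (𝓕 := atTop)
    (f := fun (X : ℕ) (q : {p : ℕ // p.Prime ∧ p % 4 ≠ 1}) => if (q.1 : ℝ) ≤ z X then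
      den {0, h} (q.1 ^ α X) / den {0} (q.1 ^ α X) ^ 2 - 1 else 0)
    (g := fun q => δ q.1 / δ₀ q.1 ^ 2 - 1)
    (bound := fun q => 64 * (h : ℝ) ^ 2 * ((q.1 : ℝ) ^ 2)⁻¹)
    (((Real.summable_nat_pow_inv.2 one_lt_two).comp_injective Subtype.val_injective).mul_left _)
    (fun q => by
      have d0 : 1 / 4 ≤ δ₀ q.1 := ge_of_tendsto (h₀ _ q.2.1)
        ((eventually_ge_atTop 2).mono fun _ => den_zero q.2.1)
      refine (((((h₁ _ q.2.1).div ((h₀ _ q.2.1).pow 2) (by positivity)).sub_const 1).comp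
        hα).congr' ?_)
      filter_upwards [hz.eventually_ge_atTop q.1] with X hX
      rw [if_pos hX]; rfl)
    ((hα.eventually_ge_atTop 2).mono fun X hX q => by
      split_ifs
      · exact ratio_le q.2.1 hX hh
      · rw [norm_zero]; positivity)
  simp only [add_sub_cancel] at key
  refine key.congr' ?_
  filter_upwards [hz.eventually_ge_atTop 0] with X hX
  rw [tprod_eq_prod (s := (PP (z X)).subtype _) fun q hq => by
    rw [if_neg fun e => hq (mem_subtype.2 ((mem_PP hX).2 ⟨q.2.1, q.2.2, e⟩)), add_zero],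
    PH, PH, ← prod_pow, ← prod_div_distrib, ← prod_subtype_of_mem (s := PP (z X)) (p := fun p =>
      p.Prime ∧ p % 4 ≠ 1) _ fun p hp => (mem_filter.1 hp).2]
  refine prod_congr rfl fun q hq => ?_
  rw [if_pos ((mem_PP hX).1 (mem_subtype.1 hq)).2.2, add_sub_cancel]

end Pool.Agent.Work.MP_678620_nt.TA
end

-- merged part: Pool.Agent.Work.MP_678620_nt.TABox
section
/-! Counting the integers that are locally sums of two squares. -/

set_option autoImplicit false
open Finset Filter Topology Real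

namespace Pool.Agent.Work.MP_678620_nt.TA

open Classical

lemma box0 (I : Finset ℕ) (m : ℕ → ℕ) (hm : ∀ i, m i ≠ 0)
    (cop : ∀ i ∈ I, ∀ j ∈ I, i ≠ j → (m i).Coprime (m j)) (P : ℕ → ℤ → Prop)
    (per : ∀ i ∈ I, Per (m i) (P i)) (J X : ℕ) {Λ Mx : ℝ}
    (hΛ : ∑ i ∈ I, (1 - dn (m i) (P i)) ≤ Λ) (hM : ∑ i ∈ I, (m i : ℝ) ≤ Mx) :
    |ct X (fun y => ∀ i ∈ I, P i y) - X * ∏ i ∈ I, dn (m i) (P i)|
      ≤ 2 * X * (Λ ^ (J + 1) / (J + 1).factorial) + (1 + Mx) ^ (J + 1) := by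
  have : ∀ i, NeZero (m i) := fun i => ⟨hm i⟩
  have h := box_count I m cop (fun i => univ.filter fun x : ZMod (m i) => P i x.val)
    (empty_subset I) J X X
  have e1 : ∀ i, ((univ.filter fun x : ZMod (m i) => P i x.val).card : ℝ) / m i
      = dn (m i) (P i) := fun i => by rw [dn_zmod, sum_ind]
  have e2 : ∀ i, ((univ.filter fun x : ZMod (m i) => P i x.val)ᶜ.card : ℝ) / m i
      = 1 - dn (m i) (P i) := fun i => by
    rw [compl_filter, ← dn_not (hm i), dn_zmod, sum_ind]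
  have e3 : ∀ i, ((univ.filter fun x : ZMod (m i) => P i x.val)ᶜ.card : ℝ) ≤ m i := fun i => by
    exact_mod_cast (card_le_univ _).trans (ZMod.card _).le
  simp only [e1, e2, prod_empty, sdiff_empty, mul_one, one_mul] at h
  rw [ct, sum_ind, two_mul (X : ℤ), filter_congr (q := fun y : ℤ => ∀ i ∈ I,
    (y : ZMod (m i)) ∈ univ.filter fun x : ZMod (m i) => P i x.val) fun y _ =>
      forall₂_congr fun i hi => by rw [mem_filter, (per i hi).val]; simp]
  refine h.trans ?_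
  have := sum_nonneg fun i (_ : i ∈ I) => sub_nonneg.2 (dn_le (hm i) (P i))
  have := (sum_le_sum fun i (_ : i ∈ I) => e3 i).trans hM
  gcongr

lemma tl : Tendsto (fun X : ℕ => log X) atTop atTop :=
  tendsto_log_atTop.comp tendsto_natCast_atTop_atTop

lemma tll : Tendsto (fun X : ℕ => log (log X)) atTop atTop := tendsto_log_atTop.comp tl

lemma trp {a : ℝ} (ha : 0 < a) : Tendsto (fun X : ℕ => log X ^ a) atTop atTop :=
  (tendsto_rpow_atTop ha).comp tl

lemma tz : Tendsto zz atTop atTop := tendsto_exp_atTop.comp (trp (by norm_num))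

lemma tal : Tendsto al atTop atTop :=
  (tendsto_add_atTop_nat 3).comp
    (tendsto_nat_ceil_atTop.comp (tll.const_mul_atTop (by norm_num)))

lemma ev_le (C : ℝ) (k : ℕ) {a b : ℝ} (h : a < b) :
    ∀ᶠ X : ℕ in atTop, C * log X ^ a * log (log X) ^ k ≤ log X ^ b := by
  have := (isLittleO_log_rpow_rpow_atTop (k : ℝ) (sub_pos.2 h)).const_mul_left C
  filter_upwards [tl.eventually (this.bound one_pos), tl.eventually_gt_atTop 0] with X a1 a2
  rw [one_mul, rpow_natCast, Real.norm_of_nonneg (by positivity : 0 ≤ log X ^ (b - a))] at a1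
  calc _ = (C * log (log X) ^ k) * log X ^ a := by ring
    _ ≤ log X ^ (b - a) * log X ^ a := by gcongr; exact (le_abs_self _).trans a1
    _ = _ := by rw [← rpow_add a2, sub_add_cancel]

lemma pow_fact_le {Λ : ℝ} (h : 0 ≤ Λ) (j : ℕ) : Λ ^ j / j.factorial ≤ exp (3 * Λ - j) := by
  have h1 := pow_div_factorial_le_exp _ (by positivity : 0 ≤ exp 1 * Λ) j
  have h2 : exp (exp 1 * Λ) ≤ exp (3 * Λ) := by
    gcongr
    linarith [exp_one_lt_d9]
  rw [mul_pow, ← exp_nat_mul, mul_one, mul_div_assoc] at h1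
  rw [exp_sub, le_div_iff₀ (exp_pos _)]
  linarith

/-- the sum of the reciprocals of primes up to `exp (log X ^ a)` -/
lemma sum_inv_le {a : ℝ} (ha : 0 < a) : ∀ᶠ X : ℕ in atTop, ∀ I : Finset ℕ,
    (∀ p ∈ I, p.Prime ∧ (p : ℝ) ≤ exp (log X ^ a)) →
      ∑ p ∈ I, (p : ℝ)⁻¹ ≤ a * log (log X) + 72 := by
  filter_upwards [(tendsto_exp_atTop.comp (trp ha)).eventually_ge_atTop 2,
    tl.eventually_gt_atTop 0] with X h1 h2 I hI
  have h3 : 2 ≤ ⌊exp (log X ^ a)⌋₊ := Nat.le_floor (by exact_mod_cast h1)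
  have h4 := (abs_le.1 (Lib.ANT.abs_sum_inv_prime_sub_loglog_le _ h3)).2
  have h5 : log (log ⌊exp (log X ^ a)⌋₊) ≤ a * log (log X) := by
    rw [← log_rpow h2]
    refine log_le_log (log_pos (by exact_mod_cast h3)) ?_
    rw [log_le_iff_le_exp (by exact_mod_cast (by omega : 0 < ⌊exp (log X ^ a)⌋₊))]
    exact Nat.floor_le (exp_pos _).le
  refine (sum_le_sum_of_subset_of_nonneg (t := (Ioc 0 ⌊exp (log X ^ a)⌋₊).filter Nat.Prime)
    (fun p hp => mem_filter.2 ⟨mem_Ioc.2 ⟨(hI p hp).1.pos, Nat.le_floor (hI p hp).2⟩, (hI p hp).1⟩)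
    fun _ _ _ => by positivity).trans (by linarith)

lemma exp_neg_ll {X : ℕ} (h : 0 < log X) (k : ℕ) : exp (-(k * log (log X))) = 1 / log X ^ k := by
  rw [exp_neg, exp_nat_mul, exp_log h, one_div]

theorem box_asym (H : Finset ℤ) : ∀ᶠ X : ℕ in atTop, ∀ (B : Finset ℕ) (c : ℤ),
    (∀ p ∈ B, p.Prime ∧ p % 4 = 1 ∧ (p : ℝ) ≤ zz X) →
    |ct X (fun n => (∀ h ∈ H, AA (zz X) (al X) (n + h)) ∧ ∀ p ∈ B, ¬ (p : ℤ) ∣ n + c)
      - X * (PH H (zz X) (al X) * ∏ p ∈ B, (1 - (p : ℝ)⁻¹))| ≤ X / log X ^ 5 := by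
  filter_upwards [sum_inv_le (a := 24 / 25) (by norm_num), tll.eventually_ge_atTop 72,
    tl.eventually_ge_atTop 4, tz.eventually_ge_atTop 2, eventually_gt_atTop 0,
    ev_le (32 * (6 * (H.card + 2) + 8)) 2 (show (24 / 25 : ℝ) < 1 by norm_num),
    ev_le 12 1 (show (0 : ℝ) < 1 by norm_num)] with X h1 h2 h3 h4 h5 h6 h7 B c hB
  set z := zz X with hz
  set α := al X with hα
  set l := log (log X) with hl
  have α0 : α ≠ 0 := Nat.succ_ne_zero _
  have hP : ∀ p ∈ PP z ∪ B, p.Prime ∧ (p : ℝ) ≤ z := fun p hp => (mem_union.1 hp).elim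
    (fun h => let a := (mem_PP (by linarith)).1 h; ⟨a.1, a.2.2⟩) fun h => ⟨(hB p h).1, (hB p h).2.2⟩
  have hm : ∀ p ∈ PP z ∪ B, max p 1 = p := fun p hp => max_eq_left (hP p hp).1.pos
  have dj : Disjoint (PP z) B := disjoint_left.2 fun p a b => (mem_filter.1 a).2.2 (hB p b).2.1
  let P : ℕ → ℤ → Prop := fun p a =>
    if p % 4 = 1 then ¬ (p : ℤ) ∣ a + c else ∀ h ∈ H, Loc (p ^ α) (a + h)
  have d1 : ∀ p ∈ PP z, dn (max p 1 ^ α) (P p) = den H (p ^ α) := fun p hp => by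
    rw [hm p (mem_union_left _ hp)]
    exact dn_congr fun a => by simp only [P, if_neg (mem_filter.1 hp).2.2]
  have d2 : ∀ p ∈ B, dn (max p 1 ^ α) (P p) = 1 - (p : ℝ)⁻¹ := fun p hp => by
    have := pow_ne_zero α (hB p hp).1.ne_zero
    rw [hm p (mem_union_right _ hp), ← dn_dvd this (dvd_pow_self p α0) c, ← dn_not this]
    exact dn_congr fun a => by simp only [P, if_pos (hB p hp).2.1]
  have c0 := H.card.cast_nonneg (α := ℝ)
  have key := box0 (PP z ∪ B) (fun p => max p 1 ^ α) (fun p => by positivity)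
    (fun p hp q hq e => by
      rw [hm p hp, hm q hq]
      exact Nat.coprime_pow_primes _ _ (hP p hp).1 (hP q hq).1 e) P
    (fun p hp => by
      rw [hm p hp]
      by_cases e : p % 4 = 1
      · simp only [P, if_pos e]
        exact fun a b d f g => f ((per_dvd (dvd_pow_self p α0)).shift c b a (dvd_sub_comm.1 d) g)
      · simp only [P, if_neg e]
        exact per_den H _)
    ⌈(6 * (H.card + 2) + 6) * l⌉₊ X (Λ := (H.card + 2) * (2 * l)) (Mx := z ^ (α + 1))
    (by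
      refine le_trans (sum_le_sum (g := fun p : ℕ => (H.card + 2) * (p : ℝ)⁻¹) fun p hp => ?_) ?_
      · rcases mem_union.1 hp with h | h
        · rw [d1 p h]; exact one_sub_den' H (hP p hp).1 α0
        · rw [d2 p h, sub_sub_cancel]
          exact le_mul_of_one_le_left (by positivity) (by linarith)
      · rw [← mul_sum]
        have := h1 _ hP
        gcongr
        linarith)
    (by
      refine (sum_le_card_nsmul _ _ (z ^ α) fun p hp => ?_).trans ?_
      · rw [hm p hp, Nat.cast_pow]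
        exact pow_le_pow_left₀ p.cast_nonneg (hP p hp).2 _
      · rw [nsmul_eq_mul, pow_succ']
        gcongr
        refine le_trans ?_ (Nat.floor_le (by linarith : 0 ≤ z))
        exact_mod_cast (card_le_card (t := Icc 1 ⌊z⌋₊) fun p hp => mem_Icc.2
          ⟨(hP p hp).1.pos, Nat.le_floor (hP p hp).2⟩).trans (by simp))
  rw [prod_union dj, prod_congr rfl d1, prod_congr rfl d2] at key
  have e : (fun y => ∀ i ∈ PP z ∪ B, P i y) = fun n => (∀ h ∈ H, AA z α (n + h)) ∧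
      ∀ p ∈ B, ¬ (p : ℤ) ∣ n + c := by
    ext n
    rw [forall_mem_union]
    refine and_congr ⟨fun a h hh p hp => ?_, fun a p hp => ?_⟩ (forall₂_congr fun p hp => ?_)
    · have := a p hp
      simp only [P, if_neg (mem_filter.1 hp).2.2] at this
      exact this h hh
    · simp only [P, if_neg (mem_filter.1 hp).2.2]
      exact fun h hh => a h hh p hp
    · simp only [P, if_pos (hB p hp).2.1]
  rw [e] at key
  refine key.trans ?_
  set j := ⌈(6 * (H.card + 2) + 6) * l⌉₊ + 1 with hj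
  have j1 : (6 * (H.card + 2) + 6) * l ≤ j := by
    rw [hj]; push_cast; linarith [Nat.le_ceil ((6 * (H.card + 2) + 6) * l)]
  have j2 : (j : ℝ) ≤ (6 * (H.card + 2) + 8) * l := by
    have := Nat.ceil_lt_add_one (show 0 ≤ (6 * ((H.card : ℝ) + 2) + 6) * l by positivity)
    rw [hj]; push_cast; linarith
  have a2 : ((α + 2 : ℕ) : ℝ) ≤ 16 * l := by
    have := Nat.ceil_lt_add_one (show 0 ≤ 10 * l by positivity)
    rw [hα, al]; push_cast; linarith
  have l0 : 0 < log X := lt_of_lt_of_le (by norm_num) h3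
  have X0 : (0 : ℝ) < X := by exact_mod_cast h5
  have b1 : ((H.card + 2) * (2 * l)) ^ j / j.factorial ≤ 1 / log X ^ 6 := by
    refine (pow_fact_le (by positivity) j).trans ?_
    rw [← exp_neg_ll l0]
    gcongr
    push_cast
    linarith
  have b2 : (1 + z ^ (α + 1)) ^ j ≤ X / log X ^ 5 / 2 := by
    have : 1 + z ^ (α + 1) ≤ z ^ (α + 2) := by
      rw [pow_succ z (α + 1)]
      nlinarith [one_le_pow₀ (n := α + 1) (by linarith : 1 ≤ z)]
    refine (pow_le_pow_left₀ (by positivity) this j).trans ?_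
    rw [div_div, le_div_iff₀ (by positivity), ← log_le_log_iff (by positivity) X0,
      log_mul (by positivity) (by positivity), log_mul (by positivity) (by positivity),
      log_pow, log_pow, log_pow, hz, zz, log_exp]
    rw [rpow_one] at h6 h7
    rw [rpow_zero] at h7
    have := log_two_lt_d9
    have : (j : ℝ) * (((α + 2 : ℕ) : ℝ) * log X ^ (24 / 25 : ℝ)) ≤
      ((6 * (H.card + 2) + 8) * l) * (16 * l * log X ^ (24 / 25 : ℝ)) := by gcongr
    push_cast at this ⊢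
    nlinarith
  have b3 : 2 * X * (1 / log X ^ 6) ≤ X / log X ^ 5 / 2 := by
    rw [div_div, mul_one_div, div_le_div_iff₀ (by positivity) (by positivity), pow_succ _ 5]
    nlinarith [mul_pos X0 (pow_pos l0 5)]
  have : 2 * X * (((H.card + 2) * (2 * l)) ^ j / j.factorial) ≤ 2 * X * (1 / log X ^ 6) := by
    gcongr
  linarith

lemma EE_mem : ∀ᶠ X : ℕ in atTop, ∀ p ∈ EE X, p.Prime ∧ p % 4 = 1 ∧ (p : ℝ) ≤ zz X := by
  filter_upwards [tl.eventually_ge_atTop 1] with X h p hp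
  obtain ⟨a, b⟩ := mem_filter.1 hp
  refine ⟨b.1, b.2, ((Nat.le_floor_iff (exp_pos _).le).1 (mem_Icc.1 a).2).trans ?_⟩
  exact exp_le_exp.2 (rpow_le_rpow_of_exponent_le h (by norm_num))

theorem small_count (H : Finset ℤ) (k : ℕ) : ∀ᶠ X : ℕ in atTop, ∀ c : ℤ,
    ct X (fun n => (∀ h ∈ H, AA (zz X) (al X) (n + h)) ∧ wE (EE X) (n + c) < k) ≤
      10 ^ k * (X * PH H (zz X) (al X) * exp (-(9 / 10 * LL X)) + X / log X ^ 5) := by
  filter_upwards [box_asym H, EE_mem] with X h hE c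
  let w : Finset ℕ → ℝ := fun B => (9 / 10) ^ B.card * ∏ _p ∈ EE X \ B, (1 / 10 : ℝ)
  have w0 : ∀ B, 0 ≤ w B := fun B => by positivity
  have e : ∀ f : ℕ → ℝ, ∑ B ∈ (EE X).powerset, w B * ∏ p ∈ B, f p
      = ∏ p ∈ EE X, (9 / 10 * f p + 1 / 10) := fun f => by
    rw [prod_add]
    refine sum_congr rfl fun B _ => ?_
    rw [prod_mul_distrib, prod_const]
    ring
  have pt : ∀ (A : Prop) (n : ℤ), ind (A ∧ wE (EE X) n < k) ≤
      10 ^ k * ∑ B ∈ (EE X).powerset, w B * ind (A ∧ ∀ p ∈ B, ¬ (p : ℤ) ∣ n) := by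
    intro A n
    by_cases a : A ∧ wE (EE X) n < k
    swap
    · rw [ind_neg a]
      exact mul_nonneg (by positivity) (sum_nonneg fun _ _ => mul_nonneg (w0 _) (ind_nonneg _))
    have : ∀ B : Finset ℕ, ind (A ∧ ∀ p ∈ B, ¬ (p : ℤ) ∣ n) = ∏ p ∈ B, ind (¬ (p : ℤ) ∣ n) := by
      intro B
      by_cases b : ∀ p ∈ B, ¬ (p : ℤ) ∣ n
      · rw [ind_pos ⟨a.1, b⟩, prod_eq_one fun p hp => ind_pos (b p hp)]
      · rw [ind_neg fun c => b c.2]
        push Not at b
        obtain ⟨p, hp, b⟩ := b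
        rw [prod_eq_zero hp (ind_neg (not_not.2 b))]
    simp only [this]
    rw [e, ind_pos a, prod_congr rfl (g := fun p : ℕ => if (p : ℤ) ∣ n then (1 / 10 : ℝ) else 1)
      fun p _ => by split_ifs with b <;> norm_num [ind, b], prod_ite, prod_const_one, mul_one,
      prod_const, one_div, inv_pow, ← div_eq_mul_inv, one_le_div (by positivity)]
    exact pow_le_pow_right₀ (by norm_num) a.2.le
  refine (sum_le_sum fun n _ => pt _ _).trans ?_
  rw [← mul_sum, sum_comm]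
  gcongr
  simp only [← mul_sum]
  refine (sum_le_sum fun B hB => mul_le_mul_of_nonneg_left (sub_le_iff_le_add'.1 (abs_le.1
    (h B c fun p hp => hE p (mem_powerset.1 hB hp))).2) (w0 B)).trans ?_
  have e1 := e fun _ => 1
  have e2 := e fun p => 1 - (p : ℝ)⁻¹
  simp only [prod_const_one, mul_one] at e1
  norm_num at e1
  simp only [mul_add, sum_add_distrib]
  rw [← sum_mul, e1, one_mul, sum_congr rfl (g := fun B => X * PH H (zz X) (al X) *
    (w B * ∏ p ∈ B, (1 - (p : ℝ)⁻¹))) fun B _ => by ring, ← mul_sum, e2, LL, mul_sum,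
    ← sum_neg_distrib, exp_sum]
  have := PH_nonneg H (zz X) (al X)
  gcongr with p hp
  · intro p hp
    have : (p : ℝ)⁻¹ ≤ 1 := inv_le_one_of_one_le₀ (by exact_mod_cast (hE p hp).1.pos)
    linarith
  · linarith [add_one_le_exp (-(9 / 10 * (p : ℝ)⁻¹))]

end Pool.Agent.Work.MP_678620_nt.TA
end

-- merged part: Pool.Agent.Work.MP_678620_nt.TABad
section
/-! The exceptional sets are small. -/

set_option autoImplicit false
open Finset Filter Topology Real

namespace Pool.Agent.Work.MP_678620_nt.TA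

open Classical

lemma cu_dvd (X d : ℕ) : cu X (fun n => (d : ℤ) ∣ n) ≤ 3 * X * (d : ℝ)⁻¹ := by
  have : cu X (fun n => (d : ℤ) ∣ n) = ∑ n ∈ Ioc 0 (3 * X), ind (d ∣ n) := by
    refine (sum_nbij' (fun n : ℕ => (n : ℤ)) Int.toNat (fun a ha => ?_) (fun a ha => ?_)
      (fun a _ => Int.toNat_natCast a) (fun a ha => ?_) fun a _ => ?_).symm
    · simp only [mem_Ioc, mem_Icc] at ha ⊢; omega
    · simp only [mem_Ioc, mem_Icc] at ha ⊢; omega
    · simp only [mem_Icc] at ha; omega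
    · simp only [Int.natCast_dvd_natCast]
  rw [this, sum_ind, Nat.Ioc_filter_dvd_card_eq_div, ← div_eq_mul_inv]
  exact_mod_cast Nat.cast_div_le (α := ℝ) (m := 3 * X) (n := d)

lemma cu_ex {ι : Type} (X : ℕ) (s : Finset ι) (g : ι → ℕ) {P : ℤ → Prop}
    (h : ∀ n : ℤ, 1 ≤ n → n ≤ 3 * X → P n → ∃ i ∈ s, (g i : ℤ) ∣ n) :
    cu X P ≤ 3 * X * ∑ i ∈ s, (g i : ℝ)⁻¹ := by
  refine (sum_le_sum fun n hn => (ind_mono (h n (mem_Icc.1 hn).1 (mem_Icc.1 hn).2)).trans
    (ind_ex _ _)).trans ?_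
  rw [sum_comm, mul_sum]
  exact sum_le_sum fun i _ => cu_dvd X (g i)

lemma rankin {z Y : ℝ} (hz : 1 ≤ log z) (z0 : 0 < z) (hY : 0 < Y) (T : Finset ℕ)
    (hT : ∀ s ∈ T, Smo z s ∧ Y < s) : ∑ s ∈ T, (s : ℝ)⁻¹ ≤
      exp (4 * ∑ p ∈ (⌊z⌋₊ + 1).primesBelow, (p : ℝ)⁻¹ - log Y / (4 * log z)) := by
  set δ := 1 / (4 * log z) with hδ
  have δ0 : 0 < δ := by positivity
  have δ1 : δ ≤ 1 / 4 := by rw [hδ]; gcongr; linarith
  let f : ℕ →* ℝ :=
    { toFun := fun n => (n : ℝ) ^ (δ - 1), map_one' := by simp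
      map_mul' := fun a b => by push_cast; exact mul_rpow a.cast_nonneg b.cast_nonneg }
  have hs := (EulerProduct.summable_and_hasSum_smoothNumbers_prod_primesBelow_geometric (f := f)
    (fun {p} hp => by
      change ‖(p : ℝ) ^ (δ - 1)‖ < 1
      rw [norm_of_nonneg (by positivity)]
      exact rpow_lt_one_of_one_lt_of_neg (by exact_mod_cast hp.one_lt) (by linarith))
    (⌊z⌋₊ + 1)).2
  have h1 := sum_le_hasSum (T.subtype _) (fun m _ => show 0 ≤ ((m : ℕ) : ℝ) ^ (δ - 1) by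
    positivity) hs
  rw [sum_subtype_of_mem (p := fun m => m ∈ (⌊z⌋₊ + 1).smoothNumbers) (fun m => f m) fun s hs =>
    Nat.mem_smoothNumbers'.2 fun p hp d => Nat.lt_succ_of_le (Nat.le_floor ((hT s hs).1 p hp d))]
    at h1
  have h2 : ∏ p ∈ (⌊z⌋₊ + 1).primesBelow, (1 - f p)⁻¹ ≤
      exp (4 * ∑ p ∈ (⌊z⌋₊ + 1).primesBelow, (p : ℝ)⁻¹) := by
    have key : ∀ p ∈ (⌊z⌋₊ + 1).primesBelow, 0 ≤ f p ∧ f p ≤ 4 / 3 * (p : ℝ)⁻¹ ∧ f p ≤ 2 / 3 := by
      intro p hp
      obtain ⟨a, b⟩ := Nat.mem_primesBelow.1 hp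
      have p2 : (2 : ℝ) ≤ p := by exact_mod_cast b.two_le
      have pz : (p : ℝ) ≤ z := (Nat.le_floor_iff z0.le).1 (Nat.le_of_lt_succ a)
      have e : f p = (p : ℝ) ^ δ * (p : ℝ)⁻¹ := by
        change (p : ℝ) ^ (δ - 1) = _
        rw [rpow_sub_one (by positivity), div_eq_mul_inv]
      have : (p : ℝ) ^ δ ≤ 4 / 3 := by
        refine (rpow_le_rpow (by positivity) pz δ0.le).trans ?_
        rw [rpow_def_of_pos z0, show log z * δ = 1 / 4 by rw [hδ]; field_simp]
        have := one_sub_le_exp_neg (1 / 4 : ℝ)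
        rw [exp_neg, le_inv_comm₀ (by norm_num) (exp_pos _)] at this
        linarith
      have i2 : (p : ℝ)⁻¹ ≤ 1 / 2 := by rw [← one_div]; gcongr
      have : f p ≤ 4 / 3 * (p : ℝ)⁻¹ := by rw [e]; gcongr
      exact ⟨by rw [e]; positivity, this, by linarith⟩
    rw [mul_sum, exp_sum]
    refine prod_le_prod (fun p hp => inv_nonneg.2 (by linarith [(key p hp).2.2])) fun p hp => ?_
    obtain ⟨a, b, c⟩ := key p hp
    refine le_trans ?_ (add_one_le_exp _)
    rw [inv_le_iff_one_le_mul₀ (by linarith)]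
    nlinarith
  rw [exp_sub, le_div_iff₀ (exp_pos _), sum_mul]
  refine le_trans (sum_le_sum fun s hs => ?_) (h1.trans h2)
  have s0 : (0 : ℝ) < s := hY.trans (hT s hs).2
  change _ ≤ (s : ℝ) ^ (δ - 1)
  rw [rpow_sub_one s0.ne', div_eq_mul_inv _ (s : ℝ), mul_comm, div_eq_mul_one_div, ← hδ,
    ← rpow_def_of_pos hY]
  gcongr
  exact (hT s hs).2.le

theorem bad_count : ∀ᶠ X : ℕ in atTop, cu X (Bad (zz X) (YY X) (al X)) ≤ X / log X ^ 5 := by
  filter_upwards [sum_inv_le (a := 24 / 25) (by norm_num), tll.eventually_ge_atTop 72,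
    tl.eventually_ge_atTop 12, (trp (a := 24 / 25) (by norm_num)).eventually_ge_atTop 1,
    ev_le 56 1 (show (0 : ℝ) < 1 / 50 by norm_num),
    ev_le 6 1 (show (0 : ℝ) < 24 / 25 by norm_num)] with X h1 h2 h3 h4 h5 h6
  have l0 : 0 < log X := lt_of_lt_of_le (by norm_num) h3
  rw [rpow_zero, pow_one, mul_one] at h5 h6
  have z0 : 0 < zz X := exp_pos _
  have e6 := exp_neg_ll l0 6
  have X0 : (0 : ℝ) ≤ 3 * X := by positivity
  have b1 : cu X (fun n => ∃ s : ℕ, (s : ℤ) ∣ n ∧ Smo (zz X) s ∧ YY X < s) ≤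
      3 * X * (1 / log X ^ 6) := by
    refine (cu_ex X ((Icc 1 (3 * X)).filter fun s => Smo (zz X) s ∧ YY X < s) id ?_).trans
      (mul_le_mul_of_nonneg_left ((rankin (by rwa [zz, log_exp]) z0 (exp_pos _) _
        fun s hs => (mem_filter.1 hs).2).trans ?_) X0)
    · rintro n a b ⟨s, c, d⟩
      refine ⟨s, mem_filter.2 ⟨mem_Icc.2 ⟨?_, ?_⟩, d⟩, c⟩
      · exact Nat.pos_of_ne_zero (by rintro rfl; simp at c; omega)
      · have := Int.le_of_dvd a c
        omega
    · have := h1 (⌊zz X⌋₊ + 1).primesBelow fun p hp => ⟨(Nat.mem_primesBelow.1 hp).2,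
        (Nat.le_floor_iff z0.le).1 (Nat.le_of_lt_succ (Nat.mem_primesBelow.1 hp).1)⟩
      have e : log X ^ (49 / 50 : ℝ) / (4 * log X ^ (24 / 25 : ℝ)) = log X ^ (1 / 50 : ℝ) / 4 := by
        rw [show (49 / 50 : ℝ) = 1 / 50 + 24 / 25 by norm_num, rpow_add l0]
        field_simp
      rw [← e6, log_exp, zz, log_exp, e]
      gcongr
      push_cast
      rw [zz] at this
      linarith
  have b2 : cu X (fun n => ∃ d : ℕ, zz X < d ∧ (d : ℤ) ^ 2 ∣ n) ≤ 3 * X * (2 / log X ^ 6) := by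
    refine (cu_ex X (Ioo ⌊zz X⌋₊ (3 * X + 1)) (· ^ 2) ?_).trans
      (mul_le_mul_of_nonneg_left ?_ X0)
    · rintro n a b ⟨d, c, e⟩
      refine ⟨d, mem_Ioo.2 ⟨(Nat.floor_lt z0.le).2 c, ?_⟩, by exact_mod_cast e⟩
      have := Int.le_of_dvd a ((dvd_pow_self _ two_ne_zero).trans e)
      omega
    · push_cast
      refine (sum_Ioo_inv_sq_le _ _).trans ?_
      gcongr
      refine le_trans ?_ (Nat.lt_floor_add_one _).le
      rw [← exp_log (pow_pos l0 6), log_pow, zz]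
      gcongr
      exact_mod_cast h6
  have b3 : cu X (fun n => ∃ d : ℕ, 2 ≤ d ∧ (d : ℤ) ^ (al X - 1) ∣ n) ≤
      3 * X * (1 / log X ^ 6) := by
    refine (cu_ex X (Ioo 1 (3 * X + 1)) (· ^ (al X - 1)) ?_).trans
      (mul_le_mul_of_nonneg_left ?_ X0)
    · rintro n a b ⟨d, c, e⟩
      refine ⟨d, mem_Ioo.2 ⟨c, ?_⟩, by exact_mod_cast e⟩
      have := Int.le_of_dvd a ((dvd_pow_self _ (Nat.succ_ne_zero _)).trans e)
      omega
    · refine (sum_le_sum (g := fun d : ℕ => 1 / log X ^ 6 * ((d : ℝ) ^ 2)⁻¹) fun d hd => ?_).trans ?_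
      · have d2 : (2 : ℝ) ≤ d := by exact_mod_cast (mem_Ioo.1 hd).1
        rw [show al X - 1 = ⌈10 * log (log X)⌉₊ + 2 from rfl, Nat.cast_pow, pow_add, mul_inv,
          one_div]
        gcongr
        refine le_trans ?_ (pow_le_pow_left₀ (by norm_num) d2 _)
        rw [← exp_log (pow_pos l0 6), log_pow, ← exp_log (pow_pos two_pos _), log_pow, exp_le_exp]
        have := Nat.le_ceil (10 * log (log X))
        push_cast
        nlinarith [log_two_gt_d9]
      · rw [← mul_sum]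
        exact mul_le_of_le_one_right (by positivity) ((sum_Ioo_inv_sq_le _ _).trans (by norm_num))
  refine (sum_le_sum fun n _ => (ind_or_le _ _).trans (add_le_add_right (ind_or_le _ _) _)).trans ?_
  rw [sum_add_distrib, sum_add_distrib]
  refine (add_le_add b1 (add_le_add b2 b3)).trans ?_
  rw [show 3 * X * (1 / log X ^ 6) + (3 * X * (2 / log X ^ 6) + 3 * X * (1 / log X ^ 6))
    = X / log X ^ 5 * (12 / log X) by field_simp; ring]
  exact mul_le_of_le_one_right (by positivity) ((div_le_one l0).2 h3)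

theorem big_count : ∀ᶠ X : ℕ in atTop,
    cu X (fun n => 10 * log (log X) < wE (EE X) n) ≤ X / log X ^ 5 := by
  filter_upwards [sum_inv_le (a := 1 / 4) (by norm_num), tll.eventually_ge_atTop 72,
    tl.eventually_ge_atTop 3] with X h1 h2 h3
  have l0 : 0 < log X := lt_of_lt_of_le (by norm_num) h3
  have hE : ∀ p ∈ EE X, p.Prime ∧ (p : ℝ) ≤ exp (log X ^ (1 / 4 : ℝ)) := fun p hp =>
    ⟨(mem_filter.1 hp).2.1, (Nat.le_floor_iff (exp_pos _).le).1 (mem_Icc.1 (mem_filter.1 hp).1).2⟩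
  refine (cu_ex X ((EE X).powersetCard (⌊10 * log (log X)⌋₊ + 1)) (fun S => ∏ p ∈ S, p)
    fun n _ _ c => ?_).trans ?_
  · obtain ⟨S, a, b⟩ := exists_subset_card_eq ((Nat.floor_lt (by linarith)).2 c)
    refine ⟨S, mem_powersetCard.2 ⟨a.trans (filter_subset _ _), b⟩, ?_⟩
    push_cast
    refine prod_dvd_of_coprime (fun p hp q hq e => Nat.isCoprime_iff_coprime.2
      ((Nat.coprime_primes (hE p (mem_filter.1 (a hp)).1).1 (hE q (mem_filter.1 (a hq)).1).1).2 e))
      fun p hp => (mem_filter.1 (a hp)).2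
  · have := (esym_le_pow (I := EE X) (ν := fun p : ℕ => (p : ℝ)⁻¹) (fun _ _ => by positivity)
      (⌊10 * log (log X)⌋₊ + 1)).trans (pow_fact_le (sum_nonneg fun _ _ => by positivity) _)
    simp only [Nat.cast_prod, ← prod_inv_distrib]
    refine (mul_le_mul_of_nonneg_left (this.trans (?_ : _ ≤ 1 / log X ^ 6)) (by positivity)).trans ?_
    · rw [← exp_neg_ll l0]
      have := h1 _ hE
      have := Nat.lt_floor_add_one (10 * log (log X))
      gcongr
      push_cast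
      linarith
    · rw [show 3 * X * (1 / log X ^ 6) = X / log X ^ 5 * (3 / log X) by field_simp]
      exact mul_le_of_le_one_right (by positivity) ((div_le_one l0).2 h3)

end Pool.Agent.Work.MP_678620_nt.TA
end

-- merged part: Pool.Agent.Work.MP_678620_nt.TARho
section
/-! The local density is slowly varying; primes that are one modulo four. -/

set_option autoImplicit false
open Finset Filter Topology Real ArithmeticFunction

namespace Pool.Agent.Work.MP_678620_nt.TA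

open Classical

lemma mert_win {u v : ℝ} (hu : 0 < u) (huv : u ≤ v) (D : Finset ℕ)
    (hD : ∀ d ∈ D, u ≤ d ∧ (d : ℝ) ≤ v) : ∑ d ∈ D, Λ d / d ≤ Real.log (v / u) + 13 := by
  have h0 : 0 ≤ Real.log (v / u) := log_nonneg ((one_le_div hu).2 huv)
  have c0 : 0 < ⌈u⌉₊ := Nat.ceil_pos.2 hu
  have hs : D ⊆ Ioc (⌈u⌉₊ - 1) ⌊v⌋₊ := fun d hd => mem_Ioc.2
    ⟨by have := Nat.ceil_le.2 (hD d hd).1; omega, Nat.le_floor (hD d hd).2⟩
  refine (sum_le_sum_of_subset_of_nonneg hs fun d _ _ =>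
    div_nonneg vonMangoldt_nonneg d.cast_nonneg).trans ?_
  rcases le_or_gt ⌊v⌋₊ (⌈u⌉₊ - 1) with h | h
  · rw [Ioc_eq_empty h.not_gt, sum_empty]; linarith
  have h1 := sum_Ioc_consecutive (fun d : ℕ => Λ d / d) (Nat.zero_le _) h.le
  have h2 := (abs_le.1 (Lib.ANT.abs_sum_vonMangoldt_div_sub_log_le ⌊v⌋₊ (by omega))).2
  have h3 : Real.log ⌊v⌋₊ ≤ Real.log v :=
    log_le_log (by exact_mod_cast (by omega : 0 < ⌊v⌋₊)) (Nat.floor_le (by linarith))
  have h4 : Real.log u - 7 ≤ ∑ d ∈ Ioc 0 (⌈u⌉₊ - 1), Λ d / d := by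
    have h5 := Nat.le_ceil u
    obtain ⟨a, ha⟩ : ∃ a, ⌈u⌉₊ = a + 1 := ⟨⌈u⌉₊ - 1, by omega⟩
    rw [ha] at h5 ⊢
    push_cast at h5
    rcases a.eq_zero_or_pos with rfl | a0
    · have := log_nonpos hu.le (by simpa using h5)
      simp only [zero_add, tsub_self, Ioc_self, sum_empty]
      linarith
    · have h6 := (abs_le.1 (Lib.ANT.abs_sum_vonMangoldt_div_sub_log_le a a0)).1
      have a1 : (1 : ℝ) ≤ a := by exact_mod_cast a0
      have := log_le_log hu (show u ≤ 2 * a by linarith)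
      rw [log_mul two_ne_zero (by positivity)] at this
      rw [Nat.add_sub_cancel]
      linarith [log_two_lt_d9]
  rw [log_div (by linarith) hu.ne']
  linarith

lemma rho_slow {z : ℝ} (hz : 1 ≤ z) {m₁ m₂ : ℕ} (h : m₁ ≤ m₂) (h1 : z < m₁) :
    (rho z m₂ - rho z m₁) * Real.log (m₁ / z) ≤ rho z m₂ * (Real.log (m₂ / m₁) + 13) := by
  let F : ℕ → Finset ℕ := fun m => (Icc 1 m).filter fun j : ℕ => (j : ℝ) * z < m
  have hh : (m₁ : ℝ) ≤ m₂ := by exact_mod_cast h
  have sub : F m₁ ⊆ F m₂ := fun a ha => by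
    rw [mem_filter, mem_Icc] at ha ⊢
    exact ⟨⟨ha.1.1, ha.1.2.trans h⟩, ha.2.trans_le hh⟩
  have z0 : 0 < z := by linarith
  have hJ : ∀ j ∈ F m₂ \ F m₁, j ≠ 0 ∧ j ≤ m₂ ∧ (j : ℝ) * z < m₂ ∧ m₁ ≤ (j : ℝ) * z := by
    intro j hj
    obtain ⟨j1, j2⟩ := Finset.mem_sdiff.1 hj
    obtain ⟨j3, j4⟩ := mem_filter.1 j1
    obtain ⟨j5, j6⟩ := mem_Icc.1 j3
    refine ⟨by omega, j6, j4, ?_⟩
    rcases le_total j m₁ with a | a
    · exact not_lt.1 fun b => j2 (mem_filter.2 ⟨mem_Icc.2 ⟨j5, a⟩, b⟩)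
    · exact le_trans (by exact_mod_cast a) (le_mul_of_one_le_right j.cast_nonneg hz)
  let g : ℕ × ℕ → ℝ := fun x => ww z x.2 / x.2 * (Λ x.1 / x.1)
  have g0 : ∀ x, 0 ≤ g x := fun x => mul_nonneg (div_nonneg (ww_nonneg _ _) x.2.cast_nonneg)
    (div_nonneg vonMangoldt_nonneg x.1.cast_nonneg)
  have key : ∀ j ∈ F m₂ \ F m₁, ww z j / j * Real.log (m₁ / z) ≤
      ∑ x ∈ (Icc 1 m₂ ×ˢ F m₂).filter fun x => x.1 * x.2 = j, g x := by
    intro j hj
    obtain ⟨a, b, c, d⟩ := hJ j hj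
    by_cases w : Wp z j
    swap
    · rw [ww, if_neg w, zero_div, zero_mul]; exact sum_nonneg fun x _ => g0 x
    refine le_trans ?_ (sum_le_sum_of_subset_of_nonneg (s := j.divisorsAntidiagonal)
      (fun x hx => ?_) fun x _ _ => g0 x)
    · rw [sum_congr rfl (g := fun x => (j : ℝ)⁻¹ * Λ x.1) fun x hx => by
        have e := (Nat.mem_divisorsAntidiagonal.1 hx).1
        simp only [g, ww, if_pos (w.dvd (e ▸ dvd_mul_left _ _))]
        rw [← e]; push_cast; ring, ← mul_sum, Nat.sum_divisorsAntidiagonal fun a _ => Λ a,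
        vonMangoldt_sum, ww, if_pos w, one_div]
      exact mul_le_mul_of_nonneg_left (log_le_log (div_pos (by linarith) z0)
        ((div_le_iff₀ z0).2 d)) (by positivity)
    · have e := (Nat.mem_divisorsAntidiagonal.1 hx).1
      have e1 := Nat.le_of_dvd (Nat.pos_of_ne_zero a) (e ▸ dvd_mul_right x.1 x.2)
      have e2 := Nat.le_of_dvd (Nat.pos_of_ne_zero a) (e ▸ dvd_mul_left x.2 x.1)
      have e3 := Nat.pos_of_ne_zero (left_ne_zero_of_mul (e ▸ a))
      have e4 := Nat.pos_of_ne_zero (right_ne_zero_of_mul (e ▸ a))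
      simp only [F, mem_filter, mem_product, mem_Icc]
      exact ⟨⟨⟨e3, by omega⟩, ⟨e4, by omega⟩,
        (mul_le_mul_of_nonneg_right (by exact_mod_cast e2) z0.le).trans_lt c⟩, e⟩
  have := sum_le_sum key
  rw [sum_fiberwise_eq_sum_filter, sum_filter, sum_product_right, ← sum_mul,
    sum_sdiff_eq_sub sub] at this
  rw [rho, rho, rhoF, rhoF, ← sub_div, div_mul_eq_mul_div, div_mul_eq_mul_div, sum_mul]
  refine div_le_div_of_nonneg_right (this.trans (sum_le_sum fun j hj => ?_)) (Vz_pos z).le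
  have j0 : (0 : ℝ) < j := by exact_mod_cast (mem_Icc.1 (mem_filter.1 hj).1).1
  have m0 : (0 : ℝ) < m₁ := by linarith
  rw [← sum_filter]
  simp only [g]
  rw [← mul_sum]
  refine mul_le_mul_of_nonneg_left ((mert_win (u := m₁ / (j * z)) (v := m₂ / (j * z))
    (by positivity) (by gcongr) _ fun d hd => ?_).trans (le_of_eq ?_))
    (div_nonneg (ww_nonneg _ _) j0.le)
  · obtain ⟨-, -, a, b⟩ := hJ _ (mem_filter.1 hd).2
    push_cast at a b
    rw [div_le_iff₀ (by positivity), le_div_iff₀ (by positivity), ← mul_assoc]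
    exact ⟨b, a.le⟩
  · congr 2
    field_simp

/-- the upper value of the density -/
noncomputable def r0 (X : ℕ) : ℝ := rho (zz X) (3 * X)

noncomputable def m1 (X : ℕ) : ℕ := ⌊X / (2 * YY X)⌋₊

theorem r0_bd : ∀ᶠ X : ℕ in atTop,
    Real.log X ^ (24 / 25 : ℝ) / 2 ≤ r0 X ∧ r0 X ≤ Real.log X ^ 2 := by
  filter_upwards [(trp (a := 24 / 25) (by norm_num)).eventually_ge_atTop 2, eventually_gt_atTop 0,
    tl.eventually_ge_atTop 3, ev_le 1 0 (show (24 / 25 : ℝ) < 1 by norm_num),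
    ev_le (2 * exp 73) 0 (show (24 / 25 : ℝ) < 1 by norm_num)] with X h1 h2 h3 h4 h5
  simp only [rpow_one, pow_zero, mul_one, one_mul] at h4 h5
  have X0 : (0 : ℝ) < X := by exact_mod_cast h2
  have z2 : 2 ≤ zz X := by linarith [add_one_le_exp (Real.log X ^ (24 / 25 : ℝ)), zz.eq_1 X]
  have zX : zz X ≤ X := by rw [zz, ← le_log_iff_exp_le X0]; exact h4
  have f2 : 2 ≤ ⌊zz X⌋₊ := Nat.le_floor (by exact_mod_cast z2)
  have v1 := Lib.ANT.log_le_prod_one_sub_inv_prime_inv ⌊zz X⌋₊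
  have v2 := Lib.ANT.prod_one_sub_inv_prime_inv_le _ f2
  rw [prod_inv_distrib] at v1 v2
  change _ ≤ (Vz (zz X))⁻¹ at v1
  change (Vz (zz X))⁻¹ ≤ _ at v2
  have f3 : Real.log ⌊zz X⌋₊ ≤ Real.log X ^ (24 / 25 : ℝ) := by
    rw [log_le_iff_le_exp (by exact_mod_cast (by omega : 0 < ⌊zz X⌋₊))]
    exact Nat.floor_le (by linarith)
  have f4 : Real.log X ^ (24 / 25 : ℝ) / 2 ≤ Real.log ⌊zz X⌋₊ := by
    have := log_le_log (by linarith) (show zz X / 2 ≤ ⌊zz X⌋₊ by
      linarith [Nat.lt_floor_add_one (zz X)])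
    rw [log_div (by linarith) two_ne_zero, zz, log_exp] at this
    rw [zz]
    linarith [log_two_lt_d9]
  have V0 := inv_pos.2 (Vz_pos (zz X))
  rw [r0, rho, rhoF, div_eq_mul_inv _ (Vz _)]
  constructor
  · refine (f4.trans v1).trans (le_mul_of_one_le_left V0.le (le_trans (le_of_eq ?_)
      (single_le_sum (f := fun m : ℕ => ww (zz X) m / m) (a := 1) (fun m _ =>
        div_nonneg (ww_nonneg _ _) m.cast_nonneg) (mem_filter.2 ⟨mem_Icc.2 ⟨le_rfl, by omega⟩, ?_⟩))))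
    · rw [ww, if_pos (show Wp _ 1 from fun p hp d => (hp.not_dvd_one d).elim)]; simp
    · push_cast; linarith
  · have : ∑ m ∈ (Icc 1 (3 * X)).filter (fun m : ℕ => (m : ℝ) * zz X < (3 * X : ℕ)),
        ww (zz X) m / m ≤ 2 * Real.log X := by
      refine (sum_le_sum_of_subset_of_nonneg (filter_subset _ _) fun m _ _ =>
        div_nonneg (ww_nonneg _ _) m.cast_nonneg).trans
        ((sum_le_sum (g := fun m : ℕ => (m : ℝ)⁻¹) fun m _ => ?_).trans ?_)
      · rw [← one_div]; gcongr; exact ww_le _ _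
      · have := harmonic_le_one_add_log (3 * X)
        rw [harmonic_eq_sum_Icc] at this
        push_cast at this
        rw [log_mul three_ne_zero X0.ne'] at this
        linarith [log_le_sub_one_of_pos three_pos]
    calc _ ≤ 2 * Real.log X * (exp 73 * Real.log X ^ (24 / 25 : ℝ)) := by
          gcongr
          exact v2.trans (by gcongr)
      _ ≤ _ := by nlinarith

theorem rho_tendsto : Tendsto (fun X => rho (zz X) (m1 X) / r0 X) atTop (𝓝 1) := by
  have t : Tendsto (fun X : ℕ => 1 - 4 * Real.log X ^ (-(1 / 50 : ℝ))) atTop (𝓝 1) := by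
    simpa using (((tendsto_rpow_neg_atTop (y := 1 / 50) (by norm_num)).comp tl).const_mul 4).const_sub 1
  have key : ∀ᶠ X : ℕ in atTop, 1 - 4 * Real.log X ^ (-(1 / 50 : ℝ)) ≤ rho (zz X) (m1 X) / r0 X ∧
      rho (zz X) (m1 X) / r0 X ≤ 1 := by
    filter_upwards [r0_bd, (trp (a := 49 / 50) (by norm_num)).eventually_ge_atTop 24,
      eventually_gt_atTop 0, tl.eventually_ge_atTop 24,
      ev_le 6 0 (show (24 / 25 : ℝ) < 1 by norm_num),
      ev_le 6 0 (show (49 / 50 : ℝ) < 1 by norm_num)] with X h0 h1 h2 h3 h4 h5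
    simp only [rpow_one, pow_zero, mul_one] at h4 h5
    have l0 : 0 < Real.log X := lt_of_lt_of_le (by norm_num) h3
    have X0 : (0 : ℝ) < X := by exact_mod_cast h2
    have r : 0 < r0 X := lt_of_lt_of_le (by positivity) h0.1
    have Y1 : 1 ≤ YY X := one_le_exp (by positivity)
    have z1 : 1 ≤ zz X := one_le_exp (by positivity)
    have lY : Real.log (YY X) = Real.log X ^ (49 / 50 : ℝ) := log_exp _
    have lz : Real.log (zz X) = Real.log X ^ (24 / 25 : ℝ) := log_exp _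
    have l2 := log_two_lt_d9
    have a1 : 1 ≤ X / (2 * YY X) := by
      rw [← log_nonneg_iff (by positivity), log_div X0.ne' (by positivity),
        log_mul two_ne_zero (by positivity)]
      linarith
    have a2 : X / (2 * YY X) / 2 ≤ m1 X := by
      have := Nat.lt_floor_add_one (X / (2 * YY X))
      have : (1 : ℝ) ≤ ⌊X / (2 * YY X)⌋₊ := by exact_mod_cast Nat.le_floor (by simpa using a1)
      rw [m1]; linarith
    have m0 : (0 : ℝ) < m1 X := by linarith
    have a3 := log_le_log (by positivity) a2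
    rw [log_div (by positivity) two_ne_zero, log_div X0.ne' (by positivity),
      log_mul two_ne_zero (by positivity)] at a3
    have a4 : m1 X ≤ 3 * X := by
      have : (m1 X : ℝ) ≤ 3 * X := (Nat.floor_le (by positivity)).trans
        ((div_le_self X0.le (by linarith)).trans (by linarith))
      exact_mod_cast this
    have a5 := rho_slow z1 a4 (by rw [← log_lt_log_iff (by positivity) m0]; linarith)
    rw [log_div m0.ne' (by positivity), log_div (by positivity) m0.ne', Nat.cast_mul,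
      log_mul (by positivity) X0.ne', ← r0, Nat.cast_ofNat] at a5
    have a6 := rho_mono (zz X) a4
    rw [← r0] at a6
    refine ⟨?_, (div_le_one r).2 a6⟩
    have l3 : Real.log 3 ≤ 2 := by linarith [log_le_sub_one_of_pos three_pos]
    have a7 : (r0 X - rho (zz X) (m1 X)) * (Real.log X / 2) ≤
        r0 X * (2 * Real.log X ^ (49 / 50 : ℝ)) :=
      le_trans (mul_le_mul_of_nonneg_left (by linarith) (by linarith))
        (a5.trans (mul_le_mul_of_nonneg_left (by linarith) r.le))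
    rw [show (49 / 50 : ℝ) = -(1 / 50) + 1 by norm_num, rpow_add_one l0.ne'] at a7
    rw [le_div_iff₀ r]
    refine le_of_mul_le_mul_right ?_ l0
    linarith
  exact tendsto_of_tendsto_of_tendsto_of_le_of_le' t tendsto_const_nhds (key.mono fun _ h => h.1)
    (key.mono fun _ h => h.2)

lemma abel_lo {a : ℕ → ℝ} {c : ℝ} (hc : 0 ≤ c) {y : ℕ} (hy : 2 ≤ y)
    (h : ∀ n, y ≤ n → c * n ≤ ∑ k ∈ Icc 1 n, a k) {n : ℕ} (hn : y ≤ n) :
    c * (Real.log (Real.log (n + 1)) - Real.log (Real.log (y + 1)))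
      + (∑ k ∈ Icc 1 n, a k - c * n) / (n * Real.log n)
      - (∑ k ∈ Icc 1 y, a k - c * y) / (y * Real.log y)
      ≤ ∑ k ∈ Ioc y n, a k / (k * Real.log k) := by
  induction n, hn using Nat.le_induction with
  | base => simp
  | succ n hn ih =>
    have n2 : (2 : ℝ) ≤ n := by exact_mod_cast hy.trans hn
    have l0 : 0 < Real.log n := log_pos (by linarith)
    have l1 : Real.log n ≤ Real.log (n + 1) := log_le_log (by linarith) (by linarith)
    have l2 : 0 < Real.log (n + 1) := by linarith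
    have e1 : Real.log (Real.log (n + 1 + 1)) - Real.log (Real.log (n + 1)) ≤
        1 / ((n + 1) * Real.log (n + 1)) := by
      have a := log_le_sub_one_of_pos (show (0 : ℝ) < (n + 1 + 1) / (n + 1) by positivity)
      have b := log_le_sub_one_of_pos (div_pos (log_pos (show (1 : ℝ) < n + 1 + 1 by linarith)) l2)
      rw [log_div (by positivity) (by positivity)] at a
      rw [log_div (log_pos (by linarith)).ne' l2.ne', div_sub_one l2.ne'] at b
      refine b.trans ?_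
      rw [← div_div]
      gcongr
      exact a.trans (le_of_eq (by field_simp; ring))
    have e2 : (∑ k ∈ Icc 1 n, a k - c * n) / ((n + 1) * Real.log (n + 1)) ≤
        (∑ k ∈ Icc 1 n, a k - c * n) / (n * Real.log n) := by
      have := sub_nonneg.2 (h n hn)
      gcongr
      linarith
    rw [sum_Ioc_succ_top hn, sum_Icc_succ_top (by omega)]
    push_cast
    have e3 : (∑ k ∈ Icc 1 n, a k + a (n + 1) - c * (n + 1)) / ((n + 1) * Real.log (n + 1)) =
      (∑ k ∈ Icc 1 n, a k - c * n) / ((n + 1) * Real.log (n + 1)) + a (n + 1) / ((n + 1) *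
        Real.log (n + 1)) - c * (1 / ((n + 1) * Real.log (n + 1))) := by ring
    have := mul_le_mul_of_nonneg_left e1 hc
    linarith

theorem LL_ge : ∀ᶠ X : ℕ in atTop, 11 / 100 * Real.log (Real.log X) ≤ LL X := by
  have t := (Lib.ANT.tendsto_theta_AP_div (q := 4) (a := 1) (by norm_num) (by norm_num)).comp
    tendsto_natCast_atTop_atTop
  rw [show Nat.totient 4 = 2 by decide] at t
  obtain ⟨y₀, hy⟩ := eventually_atTop.1 ((t.eventually (Icc_mem_nhds (a := 49 / 100) (b := 1)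
    (by norm_num) (by norm_num))).and (eventually_ge_atTop 3))
  let a : ℕ → ℝ := fun k => if k.Prime ∧ k ≡ 1 [MOD 4] then Real.log k else 0
  have ha : ∀ n, y₀ ≤ n → 49 / 100 * (n : ℝ) ≤ ∑ k ∈ Icc 1 n, a k ∧ ∑ k ∈ Icc 1 n, a k ≤ n := by
    intro n hn
    obtain ⟨⟨h1, h2⟩, h3⟩ := hy n hn
    have : (0 : ℝ) < n := by exact_mod_cast (by omega : 0 < n)
    simp only [Function.comp, Nat.floor_natCast, sum_filter] at h1 h2
    exact ⟨(le_div_iff₀ this).1 h1, (div_le_one this).1 h2⟩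
  filter_upwards [(trp (a := 1 / 100) (by norm_num)).eventually_ge_atTop (y₀ + 1),
    tll.eventually_ge_atTop 200, tl.eventually_gt_atTop 0,
    ev_le 2 0 (show (1 / 100 : ℝ) < 1 / 4 by norm_num)] with X h1 h2 l0 h3
  rw [pow_zero, mul_one] at h3
  set u := Real.log X ^ (1 / 100 : ℝ) with hu
  set v := Real.log X ^ (1 / 4 : ℝ) with hv
  have y0 := y₀.cast_nonneg (α := ℝ)
  have u1 := add_one_le_exp u
  have u2 := Nat.ceil_lt_add_one (exp_pos u).le
  have u3 := Nat.le_ceil (exp u)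
  have u4 : exp u + 2 ≤ exp (2 * u) := by rw [two_mul, exp_add]; nlinarith
  have u5 : exp (2 * u) ≤ exp v := exp_le_exp.2 h3
  have y1 : y₀ ≤ ⌈exp u⌉₊ := by exact_mod_cast (show (y₀ : ℝ) ≤ ⌈exp u⌉₊ by linarith)
  have y2 : ⌈exp u⌉₊ ≤ ⌊exp v⌋₊ := Nat.le_floor (by linarith)
  have y3 : (3 : ℝ) ≤ ⌈exp u⌉₊ := by exact_mod_cast (hy _ y1).2
  have key := abel_lo (a := a) (c := 49 / 100) (by norm_num) (le_trans (by norm_num) (hy _ y1).2)
    (fun n hn => (ha n (y1.trans hn)).1) y2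
  have b1 : 1 / 4 * Real.log (Real.log X) ≤ Real.log (Real.log (⌊exp v⌋₊ + 1)) := by
    rw [← log_rpow l0]
    refine log_le_log (by positivity) ?_
    rw [le_log_iff_exp_le (by positivity)]
    exact (Nat.lt_floor_add_one _).le
  have b2 : Real.log (Real.log (⌈exp u⌉₊ + 1)) ≤ 1 + 1 / 100 * Real.log (Real.log X) := by
    have := log_le_log (log_pos (by linarith))
      ((log_le_iff_le_exp (x := ⌈exp u⌉₊ + 1) (y := 2 * u) (by positivity)).2 (by linarith))
    rw [log_mul two_ne_zero (by positivity), hu, log_rpow l0] at this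
    linarith [log_two_lt_d9]
  have b3 : 0 ≤ (∑ k ∈ Icc 1 ⌊exp v⌋₊, a k - 49 / 100 * ⌊exp v⌋₊) / (⌊exp v⌋₊ * Real.log ⌊exp v⌋₊) :=
    div_nonneg (sub_nonneg.2 (ha _ (y1.trans y2)).1)
      (mul_nonneg (Nat.cast_nonneg _) (log_natCast_nonneg _))
  have b4 : (∑ k ∈ Icc 1 ⌈exp u⌉₊, a k - 49 / 100 * ⌈exp u⌉₊) / (⌈exp u⌉₊ * Real.log ⌈exp u⌉₊)
      ≤ 1 := by
    have : 1 ≤ Real.log ⌈exp u⌉₊ := by rw [le_log_iff_exp_le (by linarith)]; linarith [exp_one_lt_d9]
    rw [div_le_one (by positivity)]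
    nlinarith [(ha _ y1).2]
  refine le_trans (by linarith) (key.trans ?_)
  rw [LL, EE, sum_filter]
  refine (sum_le_sum fun k hk => ?_).trans (sum_le_sum_of_subset_of_nonneg Ioc_subset_Icc_self
    fun k _ _ => by positivity)
  simp only [a, Nat.ModEq]
  split_ifs with c
  · have := log_pos (show (1 : ℝ) < k by exact_mod_cast c.1.one_lt)
    exact le_of_eq (by field_simp)
  · rw [zero_div]

theorem eok : ∀ᶠ X : ℕ in atTop, Eok X (1 / 100) (EE X) := by
  filter_upwards [LL_ge, tll.eventually_ge_atTop 5] with X h1 h2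
  exact ⟨fun p hp => (mem_filter.1 hp).2.1, fun p hp => Nat.ceil_le.1 (mem_Icc.1
    (mem_filter.1 hp).1).1, fun p hp => (Nat.le_floor_iff (exp_pos _).le).1 (mem_Icc.1
    (mem_filter.1 hp).1).2, le_trans (by linarith) h1⟩

end Pool.Agent.Work.MP_678620_nt.TA
end

-- merged part: Pool.Agent.Work.MP_678620_nt.TASand
section
/-! Comparison of weighted and unweighted sums. -/

set_option autoImplicit false
open Finset Filter Topology Real

namespace Pool.Agent.Work.MP_678620_nt.TA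

open Classical

lemma sand {F G e θ θ' : ℕ → ℝ}
    (h : ∀ᶠ X in atTop, θ X * (G X - e X) ≤ F X ∧ F X ≤ θ' X * G X) (hθ : Tendsto θ atTop (𝓝 1))
    (hθ' : Tendsto θ' atTop (𝓝 1)) (he : Tendsto e atTop (𝓝 0)) {x : ℝ} :
    Tendsto F atTop (𝓝 x) ↔ Tendsto G atTop (𝓝 x) := by
  constructor
  · intro t
    refine tendsto_of_tendsto_of_tendsto_of_le_of_le' (g := fun X => F X / θ' X)
      (h := fun X => F X / θ X + e X) (div_one x ▸ t.div hθ' one_ne_zero)
      (by simpa using (t.div hθ one_ne_zero).add he) ?_ ?_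
    · filter_upwards [h, hθ'.eventually (lt_mem_nhds one_pos)] with X a b
      exact (div_le_iff₀' b).2 a.2
    · filter_upwards [h, hθ.eventually (lt_mem_nhds one_pos)] with X a b
      exact sub_le_iff_le_add.1 ((le_div_iff₀' b).2 a.1)
  · intro t
    exact tendsto_of_tendsto_of_tendsto_of_le_of_le' (by simpa using hθ.mul (t.sub he))
      (by simpa using hθ'.mul t) (h.mono fun _ a => a.1) (h.mono fun _ a => a.2)

lemma ct_nonneg (X : ℕ) (P : ℤ → Prop) : 0 ≤ ct X P := sum_nonneg fun _ _ => ind_nonneg _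

lemma ct_le_cu {X : ℕ} {c : ℤ} (hc : |c| ≤ X) (P : ℤ → Prop) :
    ct X (fun n => P (n + c)) ≤ cu X P := by
  rw [ct, ← sum_image (s := Ioc (X : ℤ) (2 * X)) (g := (· + c)) (f := fun n => ind (P n))
    fun _ _ _ _ => add_right_cancel]
  refine sum_le_sum_of_subset_of_nonneg (fun m hm => ?_) fun _ _ _ => ind_nonneg _
  obtain ⟨n, hn, rfl⟩ := mem_image.1 hm
  rw [mem_Ioc] at hn
  rw [abs_le] at hc
  rw [mem_Icc]
  omega

lemma sand_sum (X : ℕ) (H : Finset ℤ) {f : ℤ → ℝ} {P B : ℤ → Prop} {lo hi b : ℝ} (h0 : 0 ≤ lo)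
    (h1 : 0 ≤ hi) (hH : ∀ h ∈ H, 2 * |h| ≤ X) (hb : cu X B ≤ b)
    (up : ∀ n : ℤ, X < 2 * n → n ≤ 3 * X → 0 ≤ f n ∧ f n ≤ hi ∧ (¬ P n → f n = 0))
    (dn : ∀ n : ℤ, X < 2 * n → P n → ¬ B n → lo ≤ f n) :
    lo ^ H.card * (ct X (fun n => ∀ h ∈ H, P (n + h)) - H.card * b) ≤
      ∑ n ∈ Ioc (X : ℤ) (2 * X), ∏ h ∈ H, f (n + h) ∧
    ∑ n ∈ Ioc (X : ℤ) (2 * X), ∏ h ∈ H, f (n + h) ≤
      hi ^ H.card * ct X (fun n => ∀ h ∈ H, P (n + h)) := by
  have r : ∀ n ∈ Ioc (X : ℤ) (2 * X), ∀ h ∈ H, X < 2 * (n + h) ∧ n + h ≤ 3 * X := fun n hn h hh => by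
    have := hH h hh
    have := le_abs_self h
    have := neg_abs_le h
    rw [mem_Ioc] at hn
    omega
  have u := fun n hn h hh => up _ (r n hn h hh).1 (r n hn h hh).2
  constructor
  · have : ct X (fun n => ∃ h ∈ H, B (n + h)) ≤ H.card * b := by
      refine (sum_le_sum fun n _ => ind_ex _ _).trans ?_
      rw [sum_comm, ← nsmul_eq_mul]
      refine sum_le_card_nsmul _ _ _ fun h hh => (ct_le_cu ?_ B).trans hb
      have := hH h hh
      have := abs_nonneg h
      omega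
    refine (mul_le_mul_of_nonneg_left (sub_le_sub_left this _) (pow_nonneg h0 _)).trans ?_
    rw [ct, ct, ← sum_sub_distrib, mul_sum]
    refine sum_le_sum fun n hn => ?_
    by_cases a : (∀ h ∈ H, P (n + h)) ∧ ¬ ∃ h ∈ H, B (n + h)
    · rw [ind_pos a.1, ind_neg a.2, sub_zero, mul_one, ← prod_const]
      exact prod_le_prod (fun _ _ => h0) fun h hh => dn _ (r n hn h hh).1 (a.1 h hh)
        fun c => a.2 ⟨h, hh, c⟩
    · exact le_trans (mul_nonpos_of_nonneg_of_nonpos (pow_nonneg h0 _) (sub_nonpos.2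
        (ind_mono fun c => not_not.1 fun d => a ⟨c, d⟩))) (prod_nonneg fun h hh => (u n hn h hh).1)
  · rw [ct, mul_sum]
    refine sum_le_sum fun n hn => ?_
    by_cases a : ∀ h ∈ H, P (n + h)
    · rw [ind_pos a, mul_one, ← prod_const]
      exact prod_le_prod (fun h hh => (u n hn h hh).1) fun h hh => (u n hn h hh).2.1
    · rw [ind_neg a, mul_zero]
      push Not at a
      obtain ⟨h, hh, a⟩ := a
      exact (prod_eq_zero hh ((u n hn h hh).2.2 a)).le

lemma ev_H (H : Finset ℤ) : ∀ᶠ X : ℕ in atTop, ∀ h ∈ H, 2 * |h| ≤ X :=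
  (eventually_all_finset H).2 fun h _ =>
    (tendsto_natCast_atTop_atTop (R := ℤ)).eventually_ge_atTop _

lemma tinv : Tendsto (fun X : ℕ => (log X)⁻¹) atTop (𝓝 0) := tl.inv_tendsto_atTop

/-- a sequence bounded by `c / log X` tends to zero -/
lemma t0 {e : ℕ → ℝ} (c : ℝ) (h : ∀ᶠ X : ℕ in atTop, |e X| ≤ c * (log X)⁻¹) :
    Tendsto e atTop (𝓝 0) :=
  squeeze_zero_norm' h (by simpa using tinv.const_mul c)

lemma sq_bd {X k : ℕ} (h : 1 ≤ log X) (hk : k ≤ 2) :
    1 ≤ √(log X) ^ k ∧ √(log X) ^ k ≤ log X := by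
  have : 1 ≤ √(log X) := one_le_sqrt.2 h
  exact ⟨one_le_pow₀ this, (pow_le_pow_right₀ this hk).trans (sq_sqrt (by linarith)).le⟩

theorem FF_iff (H : Finset ℤ) (hk : H.card ≤ 2) {x : ℝ} :
    Tendsto (fun X : ℕ => (∑ n ∈ Ioc (X : ℤ) (2 * X), ∏ h ∈ H, FF (zz X) (n + h)) /
      (X * √(log X) ^ H.card)) atTop (𝓝 x) ↔
    Tendsto (fun X : ℕ => ct X (fun n => ∀ h ∈ H, S2 (n + h)) * √(log X) ^ H.card / X)
      atTop (𝓝 x) := by
  refine sand (θ := fun X => (1 - (1 + log (YY X)) * (log X)⁻¹) ^ H.card)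
    (θ' := fun X => (1 + 2 * (log X)⁻¹) ^ H.card)
    (e := fun X => H.card * (1 / log X ^ 5) * √(log X) ^ H.card) ?_ ?_ ?_ (t0 2 ?_)
  · filter_upwards [bad_count, ev_H H, tl.eventually_ge_atTop 2, tz.eventually_ge_atTop 2,
      eventually_gt_atTop 0, ev_le 2 0 (show (49 / 50 : ℝ) < 1 by norm_num)] with X h1 h2 h3 h4 h5 h6
    rw [pow_zero, mul_one, rpow_one] at h6
    have X0 : (0 : ℝ) < X := by exact_mod_cast h5
    have l0 : 0 < log X := by linarith
    have lY : log (YY X) = log X ^ (49 / 50 : ℝ) := log_exp _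
    obtain ⟨a, b⟩ := sand_sum X H (f := FF (zz X)) (P := S2) (lo := log X - (1 + log (YY X)))
      (hi := log X + 2) (by linarith) (by linarith) h2 h1
      (fun n c d => by
        obtain ⟨e1, e2, e3⟩ := FF_bd (zz X) (n := n) (by omega)
        refine ⟨e1, e2.trans ?_, e3⟩
        have := log_le_log (show (0 : ℝ) < n by exact_mod_cast (by omega : 0 < n))
          (show (n : ℝ) ≤ 3 * X by exact_mod_cast d)
        rw [log_mul three_ne_zero X0.ne'] at this
        linarith [log_le_sub_one_of_pos three_pos])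
      fun n c d e => by
        refine le_trans ?_ (FF_lo h4 (by omega) d e)
        have := log_le_log X0 (show (X : ℝ) ≤ 2 * n by exact_mod_cast c.le)
        rw [log_mul two_ne_zero (by exact_mod_cast (by omega : n ≠ 0))] at this
        linarith [log_two_lt_d9]
    have s : √(log X) ^ H.card * √(log X) ^ H.card = log X ^ H.card := by
      rw [← mul_pow, mul_self_sqrt l0.le]
    have s0 : 0 < √(log X) ^ H.card := by positivity
    rw [show log X - (1 + log (YY X)) = (1 - (1 + log (YY X)) * (log X)⁻¹) * log X by field_simp,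
      mul_pow, ← s] at a
    rw [show log X + 2 = (1 + 2 * (log X)⁻¹) * log X by field_simp, mul_pow, ← s] at b
    rw [le_div_iff₀ (by positivity), div_le_iff₀ (by positivity)]
    exact ⟨le_trans (le_of_eq (by field_simp)) a, b.trans (le_of_eq (by field_simp))⟩
  · have : Tendsto (fun X : ℕ => (1 + log (YY X)) * (log X)⁻¹) atTop (𝓝 0) := by
      refine (by simpa using tinv.add ((tendsto_rpow_neg_atTop (y := 1 / 50)
        (by norm_num)).comp tl) : Tendsto (fun X : ℕ => (log X)⁻¹ + log X ^ (-(1 / 50 : ℝ)))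
          atTop (𝓝 0)).congr' ?_
      filter_upwards [tl.eventually_gt_atTop 0] with X h
      rw [YY, log_exp, show (49 / 50 : ℝ) = -(1 / 50) + 1 by norm_num, rpow_add_one h.ne']
      field_simp
    simpa using (this.const_sub 1).pow H.card
  · simpa using ((tinv.const_mul 2).const_add 1).pow H.card
  · filter_upwards [tl.eventually_ge_atTop 1] with X h
    have := (sq_bd h hk).2
    have c : (H.card : ℝ) ≤ 2 := by exact_mod_cast hk
    rw [abs_of_nonneg (by positivity)]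
    calc _ ≤ 2 * (1 / log X ^ 2) * log X := by gcongr; norm_num
      _ = _ := by field_simp

theorem Fb_iff (H : Finset ℤ) (hk : H.card ≤ 2) {x : ℝ} :
    Tendsto (fun X : ℕ => (∑ n ∈ Ioc (X : ℤ) (2 * X), ∏ h ∈ H, Fb (zz X) (n + h)) /
      (X * √(log X) ^ H.card)) atTop (𝓝 x) ↔
    Tendsto (fun X : ℕ => r0 X ^ H.card * PH H (zz X) (al X) / √(log X) ^ H.card)
      atTop (𝓝 x) := by
  have c : (H.card : ℝ) ≤ 2 := by exact_mod_cast hk
  have bd : ∀ᶠ X : ℕ in atTop, 0 < r0 X ∧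
      r0 X ^ H.card * (1 / log X ^ 5) / √(log X) ^ H.card ≤ (log X)⁻¹ := by
    filter_upwards [r0_bd, tl.eventually_ge_atTop 1] with X h1 h2
    have r : 0 < r0 X := lt_of_lt_of_le (by positivity) h1.1
    refine ⟨r, (div_le_self (by positivity) (sq_bd h2 hk).1).trans ?_⟩
    have : r0 X ^ H.card ≤ (log X ^ 2) ^ 2 := (pow_le_pow_left₀ r.le h1.2 _).trans
      (pow_le_pow_right₀ (one_le_pow₀ h2) hk)
    calc _ ≤ (log X ^ 2) ^ 2 * (1 / log X ^ 5) := by gcongr
      _ = _ := by field_simp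
  refine (sand (θ := fun X => (rho (zz X) (m1 X) / r0 X) ^ H.card) (θ' := fun _ => 1)
    (G := fun X => r0 X ^ H.card * ct X (fun n => ∀ h ∈ H, AA (zz X) (al X) (n + h)) /
      (X * √(log X) ^ H.card))
    (e := fun X => H.card * (r0 X ^ H.card * (1 / log X ^ 5) / √(log X) ^ H.card)) ?_
    (by simpa using rho_tendsto.pow H.card) tendsto_const_nhds (t0 2 ?_)).trans
    (tendsto_iff_of_dist ?_)
  · filter_upwards [bad_count, ev_H H, tl.eventually_gt_atTop 0, tz.eventually_ge_atTop 2,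
      eventually_gt_atTop 0, bd] with X h1 h2 l0 h4 h5 h6
    have X0 : (0 : ℝ) < X := by exact_mod_cast h5
    have Y0 : 0 < YY X := exp_pos _
    obtain ⟨a, b⟩ := sand_sum X H (f := Fb (zz X)) (P := AA (zz X) (al X))
      (lo := rho (zz X) (m1 X)) (hi := r0 X) (rho_nonneg _ _) h6.1.le h2 h1
      (fun n c d => Fb_bd (by linarith) _ (by omega) (by exact_mod_cast d))
      fun n c d e => Fb_lo h4 (by omega) d e (by
        have := (le_div_iff₀ (by positivity)).1 (Nat.floor_le (show 0 ≤ X / (2 * YY X) by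
          positivity))
        have : (X : ℝ) < 2 * n := by exact_mod_cast c
        rw [m1]
        linarith)
    have := h6.1
    rw [one_mul, le_div_iff₀ (by positivity), div_le_div_iff_of_pos_right (by positivity)]
    exact ⟨le_trans (le_of_eq (by rw [div_pow]; field_simp)) a, b⟩
  · filter_upwards [bd] with X h
    have := h.1
    rw [abs_of_nonneg (by positivity)]
    exact mul_le_mul c h.2 (by positivity) two_pos.le
  · refine t0 1 ?_
    filter_upwards [bd, box_asym H, eventually_gt_atTop 0, tl.eventually_gt_atTop 0]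
      with X h1 h2 h5 l0
    have X0 : (0 : ℝ) < X := by exact_mod_cast h5
    have := h2 ∅ 0 (by simp)
    simp only [notMem_empty, false_imp_iff, implies_true, and_true, prod_empty, mul_one] at this
    have r := h1.1
    rw [abs_dist, Real.dist_eq, one_mul]
    refine le_trans ?_ h1.2
    rw [show r0 X ^ H.card * ct X (fun n => ∀ h ∈ H, AA (zz X) (al X) (n + h)) /
      (X * √(log X) ^ H.card) - r0 X ^ H.card * PH H (zz X) (al X) / √(log X) ^ H.card =
      r0 X ^ H.card / (X * √(log X) ^ H.card) * (ct X (fun n => ∀ h ∈ H, AA (zz X) (al X) (n + h))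
        - X * PH H (zz X) (al X)) by field_simp, abs_mul, abs_of_nonneg (by positivity)]
    exact (mul_le_mul_of_nonneg_left this (by positivity)).trans (le_of_eq (by field_simp))

end Pool.Agent.Work.MP_678620_nt.TA
end
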