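import Pool.Agent.Work.MP_678620_nt.TBBox

/-! Pairs of linear forms: the count in the model. -/

set_option autoImplicit false
open Finset Filter

namespace Pool.Agent.Work.MP_678620_nt

lemma TB_fac (a1 a2 : ℕ) (b1 b2 : ℤ) (p : ℕ) :
    0 ≤ 1 - (om a1 a2 b1 b2 p : ℝ) / p ∧ 1 - (om a1 a2 b1 b2 p : ℝ) / p ≤ 1 :=
  ⟨sub_nonneg.mpr (div_le_one_of_le₀ (Nat.cast_le.mpr (om_le _ _ _ _ _)) (Nat.cast_nonneg _)),
    sub_le_self _ (by positivity)⟩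

lemma TB_W (a1 a2 : ℕ) (b1 b2 : ℤ) (T : Finset ℕ) :
    0 ≤ ∏ p ∈ T, (1 - (om a1 a2 b1 b2 p : ℝ) / p) ∧
      ∏ p ∈ T, (1 - (om a1 a2 b1 b2 p : ℝ) / p) ≤ 1 :=
  ⟨prod_nonneg fun p _ => (TB_fac _ _ _ _ p).1,
    prod_le_one (fun p _ => (TB_fac _ _ _ _ p).1) fun p _ => (TB_fac _ _ _ _ p).2⟩

lemma TB_box {B z H0 H1 x : ℝ} {E S1 S2 : Finset ℕ} {a1 a2 k1 k2 : ℕ} {b1 b2 : ℤ}
    (h : Lin B a1 a2 b1 b2) (hz : 0 ≤ z) (h0 : 0 < H0) (h1 : 1 ≤ H1)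
    (hE : ∀ p ∈ E, p ∈ PZ z ∧ 2 * B ^ 2 < p ∧ H0 ≤ p ∧ (p : ℝ) ≤ H1)
    (hS1 : S1 ∈ E.powersetCard k1) (hS2 : S2 ∈ E.powersetCard k2)
    (hx : 2 * ∑ p ∈ PZ z, (p : ℝ)⁻¹ ≤ x) (J : ℕ) (α : ℤ) (Y : ℕ) :
    |(((Ioc α (α + Y)).filter fun n => ∀ p ∈ PZ z, Bx a1 a2 b1 b2 S1 S2 p n).card : ℝ)
        - Y * ((∏ p ∈ S1, (p : ℝ)⁻¹) * ∏ p ∈ S2, (p : ℝ)⁻¹) *
          ∏ p ∈ PZ z, (1 - (om a1 a2 b1 b2 p : ℝ) / p)|
      ≤ Y * ((∏ p ∈ S1, (p : ℝ)⁻¹) * ∏ p ∈ S2, (p : ℝ)⁻¹) * (2 * (k1 + k2) / H0 +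
          2 * (x ^ (J + 1) / (J + 1).factorial) + if Disjoint S1 S2 then 0 else 1)
        + H1 ^ (k1 + k2) * (1 + 2 * z) ^ (J + 1) := by
  obtain ⟨s1, c1⟩ := mem_powersetCard.mp hS1
  obtain ⟨s2, c2⟩ := mem_powersetCard.mp hS2
  have x0 : 0 ≤ x := le_trans (by positivity) hx
  set ν := (∏ p ∈ S1, (p : ℝ)⁻¹) * ∏ p ∈ S2, (p : ℝ)⁻¹ with hν
  have ν0 : 0 ≤ Y * ν := by positivity
  have t0 : 0 ≤ H1 ^ (k1 + k2) * (1 + 2 * z) ^ (J + 1) := by positivity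
  have t1 : 0 ≤ 2 * ((k1 : ℝ) + k2) / H0 := by positivity
  have t2 : 0 ≤ 2 * (x ^ (J + 1) / (J + 1).factorial) := by positivity
  split_ifs with hd
  swap
  · obtain ⟨p, p1, p2⟩ := not_disjoint_iff.mp hd
    rw [filter_eq_empty_iff.mpr, card_empty, Nat.cast_zero, zero_sub, abs_neg,
      abs_of_nonneg (mul_nonneg ν0 (TB_W _ _ _ _ _).1)]
    · refine le_trans (mul_le_mul_of_nonneg_left ?_ ν0) (le_add_of_nonneg_right t0)
      linarith only [t1, t2, (TB_W a1 a2 b1 b2 (PZ z)).2]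
    · intro n _ k
      have := k p (hE p (s1 p1)).1
      exact TB_not_both (h.big (hE p (s1 p1)).2.1).2.2 n (this.1.mpr p1) (this.2.mpr p2)
  have uE : S1 ∪ S2 ⊆ E := union_subset s1 s2
  have hU : S1 ∪ S2 ⊆ PZ z := fun p hp => (hE p (uE hp)).1
  have cU : (S1 ∪ S2).card = k1 + k2 := by rw [card_union_of_disjoint hd, c1, c2]
  have H := box_int (PZ z) (fun p hp => PZ_prime hp) (Bx a1 a2 b1 b2 S1 S2)
    (Bx_per a1 a2 b1 b2 S1 S2) hU J α Y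
  have e1 : ∏ p ∈ S1 ∪ S2, (rhoP (Bx a1 a2 b1 b2 S1 S2) p : ℝ) / p = ν := by
    rw [hν, ← prod_union hd]
    refine prod_congr rfl fun p hp => ?_
    rw [rho_in h (PZ_prime (hU hp)) (hE p (uE hp)).2.1 hd hp, Nat.cast_one, one_div]
  have e2 : ∀ p ∈ PZ z \ (S1 ∪ S2), (rhoP (Bx a1 a2 b1 b2 S1 S2) p : ℝ) = p - om a1 a2 b1 b2 p :=
    fun p hp => rho_out a1 a2 b1 b2 (PZ_prime (mem_sdiff.mp hp).1)
      (fun k => (mem_sdiff.mp hp).2 (mem_union_left _ k))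
      fun k => (mem_sdiff.mp hp).2 (mem_union_right _ k)
  have o2 : ∀ p ∈ PZ z, (om a1 a2 b1 b2 p : ℝ) ≤ 2 := fun p hp => by
    exact_mod_cast om_le_two h (PZ_prime hp)
  have e3 : ∏ p ∈ PZ z \ (S1 ∪ S2), (rhoP (Bx a1 a2 b1 b2 S1 S2) p : ℝ) / p
      = ∏ p ∈ PZ z \ (S1 ∪ S2), (1 - (om a1 a2 b1 b2 p : ℝ) / p) := prod_congr rfl fun p hp => by
    have : (p : ℝ) ≠ 0 := by exact_mod_cast (PZ_prime (mem_sdiff.mp hp).1).ne_zero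
    rw [e2 p hp, sub_div, div_self this]
  have e4 : ∀ p ∈ PZ z \ (S1 ∪ S2), (p : ℝ) - rhoP (Bx a1 a2 b1 b2 S1 S2) p = om a1 a2 b1 b2 p :=
    fun p hp => by rw [e2 p hp]; ring
  rw [← prod_sdiff hU, e1, e3, sum_congr rfl e4, sum_congr rfl fun p hp => by rw [e4 p hp]] at H
  rw [← prod_sdiff hU]
  have b1' : ∑ p ∈ PZ z \ (S1 ∪ S2), (om a1 a2 b1 b2 p : ℝ) / p ≤ x := by
    refine le_trans ?_ hx
    rw [mul_sum]
    exact (sum_le_sum fun p hp => mul_le_mul_of_nonneg_right (o2 p (mem_sdiff.mp hp).1)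
      (by positivity)).trans (sum_le_sum_of_subset_of_nonneg sdiff_subset fun _ _ _ => by positivity)
  have b2' : ∑ p ∈ PZ z \ (S1 ∪ S2), (om a1 a2 b1 b2 p : ℝ) ≤ 2 * z := by
    refine (sum_le_sum_of_subset_of_nonneg sdiff_subset fun _ _ _ => Nat.cast_nonneg _).trans
      ((sum_le_card_nsmul _ _ 2 o2).trans ?_)
    rw [nsmul_eq_mul]; linarith only [hz, PZ_card hz]
  have b3 : ∏ p ∈ S1 ∪ S2, (p : ℝ) ≤ H1 ^ (k1 + k2) := by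
    rw [← cU, ← prod_const]
    exact prod_le_prod (fun _ _ => Nat.cast_nonneg _) fun p hp => (hE p (uE hp)).2.2.2
  have b4 : 1 - 2 * ((k1 : ℝ) + k2) / H0 ≤ ∏ p ∈ S1 ∪ S2, (1 - (om a1 a2 b1 b2 p : ℝ) / p) := by
    refine le_trans ?_ (TB_one_sub_sum _ _ (fun _ _ => by positivity) fun p _ =>
      sub_nonneg.mp (TB_fac a1 a2 b1 b2 p).1)
    have := sum_le_card_nsmul (S1 ∪ S2) (fun p => (om a1 a2 b1 b2 p : ℝ) / p) (2 / H0) fun p hp =>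
      div_le_div₀ zero_le_two (o2 p (hU hp)) h0 (hE p (uE hp)).2.2.1
    rw [cU, nsmul_eq_mul] at this
    push_cast at this
    linarith only [this, show ((k1 : ℝ) + k2) * (2 / H0) = 2 * ((k1 : ℝ) + k2) / H0 by ring]
  obtain ⟨w1, w2⟩ := TB_W a1 a2 b1 b2 (PZ z \ (S1 ∪ S2))
  have w3 := (TB_W a1 a2 b1 b2 (S1 ∪ S2)).2
  generalize ∏ p ∈ PZ z \ (S1 ∪ S2), (1 - (om a1 a2 b1 b2 p : ℝ) / p) = W' at *
  generalize ∏ p ∈ S1 ∪ S2, (1 - (om a1 a2 b1 b2 p : ℝ) / p) = W'' at *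
  have d1 := mul_le_mul_of_nonneg_left (div_le_div_of_nonneg_right (pow_le_pow_left₀
    (sum_nonneg fun _ _ => by positivity) b1' (J + 1)) (Nat.cast_nonneg (J + 1).factorial)) ν0
  have d2 := mul_le_mul b3 (pow_le_pow_left₀ (add_nonneg zero_le_one
    (sum_nonneg fun _ _ => Nat.cast_nonneg _)) (add_le_add_right b2' 1) (J + 1))
    (pow_nonneg (add_nonneg zero_le_one (sum_nonneg fun _ _ => Nat.cast_nonneg _)) _) (by positivity)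
  have d3 : W' * (1 - W'') ≤ 2 * ((k1 : ℝ) + k2) / H0 :=
    (mul_le_of_le_one_left (by linarith only [w3]) w2).trans (by linarith only [b4])
  have d4 := mul_le_mul_of_nonneg_left d3 ν0
  have d5 := mul_nonneg ν0 (mul_nonneg w1 (sub_nonneg.mpr w3))
  rw [abs_le] at H ⊢
  constructor <;> linarith only [H, d1, d2, d4, d5, H.1, H.2]

lemma TB_mem_sum {E : Finset ℕ} {H0 : ℝ} (h0 : 0 < H0) (hE : ∀ p ∈ E, H0 ≤ p) {p : ℕ}
    (hp : p ∈ E) (k : ℕ) : ∑ S ∈ E.powersetCard k, (if p ∈ S then ∏ q ∈ S, (q : ℝ)⁻¹ else 0)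
      ≤ Real.exp (∑ q ∈ E, (q : ℝ)⁻¹) / H0 := by
  rw [← sum_filter]
  have e : ∀ S ∈ (E.powersetCard k).filter (p ∈ ·), ∏ q ∈ S, (q : ℝ)⁻¹ =
      (p : ℝ)⁻¹ * ∏ q ∈ S.erase p, (q : ℝ)⁻¹ := fun S hS =>
    (mul_prod_erase S (fun q : ℕ => (q : ℝ)⁻¹) (mem_filter.mp hS).2).symm
  rw [sum_congr rfl e, ← mul_sum, div_eq_inv_mul]
  refine mul_le_mul (inv_anti₀ h0 (hE p hp)) ?_ (by positivity) (by positivity)
  rw [← sum_image (g := fun S : Finset ℕ => S.erase p) (f := fun T : Finset ℕ => ∏ q ∈ T, (q : ℝ)⁻¹)]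
  · refine le_trans (sum_le_sum_of_subset_of_nonneg (t := E.powerset) (fun T hT => ?_)
      fun _ _ _ => by positivity) ?_
    · obtain ⟨S, hS, rfl⟩ := mem_image.mp hT
      exact mem_powerset.mpr ((erase_subset _ _).trans (mem_powersetCard.mp (mem_filter.mp hS).1).1)
    · rw [← prod_one_add, Real.exp_sum]
      exact prod_le_prod (fun _ _ => by positivity) fun q _ => by
        linarith [Real.add_one_le_exp (q : ℝ)⁻¹]
  · intro S hS S' hS' h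
    have a := (mem_filter.mp (mem_coe.mp hS)).2
    have b := (mem_filter.mp (mem_coe.mp hS')).2
    rw [← insert_erase a, ← insert_erase b]
    exact congrArg _ h

lemma TB_overlap {E : Finset ℕ} {H0 : ℝ} (h0 : 0 < H0) (hE : ∀ p ∈ E, H0 ≤ p) (k1 k2 : ℕ) :
    ∑ S1 ∈ E.powersetCard k1, ∑ S2 ∈ E.powersetCard k2,
      (∏ p ∈ S1, (p : ℝ)⁻¹) * (∏ p ∈ S2, (p : ℝ)⁻¹) * (if Disjoint S1 S2 then 0 else 1)
      ≤ Real.exp (∑ q ∈ E, (q : ℝ)⁻¹) ^ 2 * (k1 / H0) := by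
  have a : ∀ S1 ∈ E.powersetCard k1, ∑ S2 ∈ E.powersetCard k2,
      (∏ p ∈ S1, (p : ℝ)⁻¹) * (∏ p ∈ S2, (p : ℝ)⁻¹) * (if Disjoint S1 S2 then 0 else 1)
      ≤ (∏ p ∈ S1, (p : ℝ)⁻¹) * (k1 * (Real.exp (∑ q ∈ E, (q : ℝ)⁻¹) / H0)) := fun S1 hS => by
    obtain ⟨s1, c1⟩ := mem_powersetCard.mp hS
    simp only [mul_assoc]
    rw [← mul_sum]
    refine mul_le_mul_of_nonneg_left ?_ (by positivity)
    have b := sum_le_card_nsmul S1 _ _ fun p hp => TB_mem_sum h0 hE (s1 hp) k2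
    rw [c1, nsmul_eq_mul, sum_comm] at b
    refine le_trans (sum_le_sum fun S2 _ => ?_) b
    split_ifs with hd
    · rw [mul_zero]; exact sum_nonneg fun _ _ => by split_ifs <;> positivity
    · obtain ⟨p, p1, p2⟩ := not_disjoint_iff.mp hd
      refine le_trans (le_of_eq ?_) (single_le_sum (f := fun p => if p ∈ S2 then
        ∏ q ∈ S2, (q : ℝ)⁻¹ else 0) (fun _ _ => by split_ifs <;> positivity) p1)
      rw [mul_one, if_pos p2]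
  refine (sum_le_sum a).trans ?_
  rw [← sum_mul]
  refine (mul_le_mul_of_nonneg_right (esym_le_exp (I := E) (ν := fun p : ℕ => (p : ℝ)⁻¹)
    (fun _ _ => by positivity) k1) (by positivity)).trans (le_of_eq (by ring))

lemma TB_card_E {E : Finset ℕ} {H1 : ℝ} (h1 : 0 ≤ H1) (hE : ∀ p ∈ E, p.Prime ∧ (p : ℝ) ≤ H1) :
    (E.card : ℝ) ≤ H1 :=
  le_trans (Nat.cast_le.mpr (card_le_card fun p hp => (mem_PZ h1).mpr (hE p hp))) (PZ_card h1)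

theorem TB_count {B z H0 H1 x : ℝ} {E : Finset ℕ} {a1 a2 : ℕ} (k1 k2 : ℕ) {b1 b2 : ℤ}
    (h : Lin B a1 a2 b1 b2) (hz : 0 ≤ z) (h0 : 0 < H0) (h1 : 1 ≤ H1)
    (hE : ∀ p ∈ E, p ∈ PZ z ∧ 2 * B ^ 2 < p ∧ H0 ≤ p ∧ (p : ℝ) ≤ H1)
    (hx : 2 * ∑ p ∈ PZ z, (p : ℝ)⁻¹ ≤ x) (J : ℕ) (α : ℤ) (Y : ℕ) :
    |(((Ioc α (α + Y)).filter fun n => RE z E k1 (a1 * n + b1) ∧ RE z E k2 (a2 * n + b2)).card : ℝ)
        - Y * (ek E k1 * ek E k2) * ∏ p ∈ PZ z, (1 - (om a1 a2 b1 b2 p : ℝ) / p)|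
      ≤ Y * Real.exp (∑ q ∈ E, (q : ℝ)⁻¹) ^ 2 *
          (3 * (k1 + k2) / H0 + 2 * (x ^ (J + 1) / (J + 1).factorial))
        + H1 ^ (2 * (k1 + k2)) * (1 + 2 * z) ^ (J + 1) := by
  have x0 : 0 ≤ x := le_trans (by positivity) hx
  have e : ((Ioc α (α + Y)).filter fun n => RE z E k1 (a1 * n + b1) ∧ RE z E k2 (a2 * n + b2)).card
      = ∑ S1 ∈ E.powersetCard k1, ∑ S2 ∈ E.powersetCard k2,
        ((Ioc α (α + Y)).filter fun n => ∀ p ∈ PZ z, Bx a1 a2 b1 b2 S1 S2 p n).card := by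
    rw [← sum_product', card_eq_sum_card_fiberwise (t := E.powersetCard k1 ×ˢ E.powersetCard k2)
      (f := fun n : ℤ => (E.filter fun p : ℕ => (p : ℤ) ∣ a1 * n + b1,
        E.filter fun p : ℕ => (p : ℤ) ∣ a2 * n + b2))]
    · refine sum_congr rfl fun S hS => ?_
      obtain ⟨u1, u2⟩ := mem_product.mp hS
      obtain ⟨s1, c1⟩ := mem_powersetCard.mp u1
      obtain ⟨s2, c2⟩ := mem_powersetCard.mp u2
      rw [filter_filter]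
      congr 1
      refine filter_congr fun n _ => ?_
      have key : ∀ (u : ℤ) (T : Finset ℕ) (k : ℕ), T ⊆ E → T.card = k → ((RE z E k u ∧
          (E.filter fun p : ℕ => (p : ℤ) ∣ u) = T) ↔ ∀ p ∈ PZ z, ((p : ℤ) ∣ u ↔ p ∈ T)) := by
        intro u T k t1 t2
        constructor
        · rintro ⟨r, rfl⟩ p hp
          exact ⟨fun d => mem_filter.mpr ⟨r.2 p hp d, d⟩, fun d => (mem_filter.mp d).2⟩
        · intro r
          have : (E.filter fun p : ℕ => (p : ℤ) ∣ u) = T := by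
            ext p
            rw [mem_filter]
            exact ⟨fun d => (r p (hE p d.1).1).mp d.2,
              fun d => ⟨t1 d, (r p (hE p (t1 d)).1).mpr d⟩⟩
          exact ⟨⟨by rw [wE, this, t2], fun p hp d => t1 ((r p hp).mp d)⟩, this⟩
      rw [Prod.ext_iff, and_and_and_comm, key _ _ _ s1 c1, key _ _ _ s2 c2]
      simp only [Bx, forall_and]
    · intro n hn
      obtain ⟨-, r1, r2⟩ := mem_filter.mp (mem_coe.mp hn)
      exact mem_coe.mpr (mem_product.mpr ⟨mem_powersetCard.mpr ⟨filter_subset _ _, r1.1⟩,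
        mem_powersetCard.mpr ⟨filter_subset _ _, r2.1⟩⟩)
  have cE := TB_card_E (zero_le_one.trans h1) fun p hp => ⟨PZ_prime (hE p hp).1, (hE p hp).2.2.2⟩
  have cP : ∀ k, ((E.powersetCard k).card : ℝ) ≤ H1 ^ k := fun k => by
    rw [card_powersetCard]
    refine le_trans ?_ (pow_le_pow_left₀ (Nat.cast_nonneg _) cE k)
    exact_mod_cast Nat.choose_le_pow _ _
  have m : ek E k1 * ek E k2 = ∑ S1 ∈ E.powersetCard k1, ∑ S2 ∈ E.powersetCard k2,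
      (∏ p ∈ S1, (p : ℝ)⁻¹) * ∏ p ∈ S2, (p : ℝ)⁻¹ := by rw [ek, ek, esym, esym, sum_mul_sum]
  have m1 : ek E k1 * ek E k2 ≤ Real.exp (∑ q ∈ E, (q : ℝ)⁻¹) ^ 2 := by
    rw [sq]
    exact mul_le_mul (esym_le_exp (fun _ _ => by positivity) k1)
      (esym_le_exp (fun _ _ => by positivity) k2) (ek_nonneg _ _) (Real.exp_pos _).le
  have m2 := TB_overlap h0 (fun p hp => (hE p hp).2.2.1) k1 k2
  rw [e, m, mul_sum, sum_mul, Nat.cast_sum, ← sum_sub_distrib]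
  refine (abs_sum_le_sum_abs _ _).trans ((sum_le_sum fun S1 u1 => ?_ : _ ≤
    ∑ S1 ∈ E.powersetCard k1, ∑ S2 ∈ E.powersetCard k2,
      (Y * ((∏ p ∈ S1, (p : ℝ)⁻¹) * ∏ p ∈ S2, (p : ℝ)⁻¹) * (2 * (k1 + k2) / H0 +
          2 * (x ^ (J + 1) / (J + 1).factorial) + if Disjoint S1 S2 then 0 else 1)
        + H1 ^ (k1 + k2) * (1 + 2 * z) ^ (J + 1))).trans ?_)
  · rw [mul_sum, sum_mul, Nat.cast_sum, ← sum_sub_distrib]
    exact (abs_sum_le_sum_abs _ _).trans (sum_le_sum fun S2 u2 =>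
      TB_box h hz h0 h1 hE u1 u2 hx J α Y)
  set t := x ^ (J + 1) / ((J + 1).factorial : ℝ) with ht
  have t0 : 0 ≤ t := by positivity
  have f : ∀ (ν i : ℝ), Y * ν * (2 * (k1 + k2) / H0 + 2 * t + i) =
      Y * (2 * (k1 + k2) / H0 + 2 * t) * ν + Y * (ν * i) := fun ν i => by ring
  simp only [f, sum_add_distrib, ← mul_sum, sum_const, nsmul_eq_mul]
  simp only [mul_sum (E.powersetCard k2), ← m]
  have g1 := mul_le_mul_of_nonneg_left m1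
    (show 0 ≤ Y * (2 * ((k1 : ℝ) + k2) / H0 + 2 * t) by positivity)
  have g2 := mul_le_mul_of_nonneg_left m2 (Nat.cast_nonneg Y)
  have g3 := mul_le_mul (cP k1) (mul_le_mul_of_nonneg_right (cP k2)
    (show 0 ≤ H1 ^ (k1 + k2) * (1 + 2 * z) ^ (J + 1) by positivity)) (by positivity) (by positivity)
  have g4 : 0 ≤ Y * Real.exp (∑ q ∈ E, (q : ℝ)⁻¹) ^ 2 * (k2 / H0) := by positivity
  have g5 : H1 ^ k1 * (H1 ^ k2 * (H1 ^ (k1 + k2) * (1 + 2 * z) ^ (J + 1))) =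
      H1 ^ (2 * (k1 + k2)) * (1 + 2 * z) ^ (J + 1) := by ring
  have g6 : Y * Real.exp (∑ q ∈ E, (q : ℝ)⁻¹) ^ 2 * (3 * (k1 + k2) / H0 + 2 * t) =
      Y * (2 * ((k1 : ℝ) + k2) / H0 + 2 * t) * Real.exp (∑ q ∈ E, (q : ℝ)⁻¹) ^ 2 +
      Y * (Real.exp (∑ q ∈ E, (q : ℝ)⁻¹) ^ 2 * (k1 / H0)) +
      Y * Real.exp (∑ q ∈ E, (q : ℝ)⁻¹) ^ 2 * (k2 / H0) := by ring
  linarith only [g1, g2, g3, g4, g5, g6]

end Pool.Agent.Work.MP_678620_nt
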