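import Pool.Agent.Work.MP_678620_nt.TBSum
import Pool.Agent.Work.MP_678620_nt.TBCount
import Pool.Agent.Work.MP_678620_nt.TBAsy
import Pool.Agent.Work.MP_678620_nt.SPTwo

/-! Pairs of linear forms: the uniform asymptotic on a dyadic interval. -/

set_option autoImplicit false
open Finset Filter

namespace Pool.Agent.Work.MP_678620_nt

lemma TB_e5 {q s t Y : ℝ} {K n : ℕ} (hs : 0 ≤ s) (hn : (n : ℝ) ≤ 12 * t)
    (h : 2 * K * q + 24 * t + 12 * (t * s) ≤ Y) :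
    Real.exp q ^ (2 * K) * (1 + 2 * Real.exp s) ^ n ≤ Real.exp Y := by
  have a : 1 + 2 * Real.exp s ≤ Real.exp (2 + s) := by
    have b := Real.one_le_exp hs
    have c := mul_le_mul_of_nonneg_right (Real.add_one_le_exp 2) (Real.exp_pos s).le
    rw [Real.exp_add]; linarith
  refine (mul_le_mul_of_nonneg_left (pow_le_pow_left₀ (by positivity) a n) (by positivity)).trans ?_
  rw [← Real.exp_nat_mul, ← Real.exp_nat_mul, ← Real.exp_add, Real.exp_le_exp]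
  have := mul_le_mul_of_nonneg_right hn (show 0 ≤ 2 + s by linarith)
  push_cast; linarith

lemma TB_e4 {l : ℝ} {n : ℕ} (hl : 1 ≤ l) (hn : 11 * Real.log l ≤ n) :
    l ^ 5 * ((2 * (Real.log l + 72)) ^ n / n.factorial) ≤ Real.exp 432 := by
  have a := TB_tail (show 0 ≤ 2 * (Real.log l + 72) by linarith [Real.log_nonneg hl]) n
  refine (mul_le_mul_of_nonneg_left a (by positivity)).trans ?_
  rw [← Real.exp_log (show 0 < l ^ 5 by positivity), ← Real.exp_add, Real.exp_le_exp, Real.log_pow]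
  push_cast; linarith

lemma TB_logs {l δ q : ℝ} {A k K N : ℕ} {u : ℤ} (hl : 1 ≤ l) (q0 : 0 ≤ q) (hk : k ≤ K)
    (h1 : Real.exp l ≤ N * l ^ 3) (h2 : N ≤ Real.exp l) (hu : (N : ℝ) / 2 ≤ u ∧ (u : ℝ) ≤ 4 * l ^ A * N)
    (s1 : K * q + 3 * Real.log l + 1 ≤ δ * l) (s2 : A * Real.log l + 3 ≤ δ * l) :
    0 < u ∧ (1 - δ) * l + k * q ≤ Real.log u ∧ Real.log u ≤ (1 + δ) * l := by
  have l0 : 0 < l := by linarith
  have N0 : (0 : ℝ) < N :=
    (mul_pos_iff_of_pos_right (pow_pos l0 3)).mp ((Real.exp_pos l).trans_le h1)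
  have u0 : (0 : ℝ) < u := by linarith [hu.1]
  refine ⟨by exact_mod_cast u0, ?_, ?_⟩
  · have a := Real.log_le_log (Real.exp_pos l) (h1.trans
      (mul_le_mul_of_nonneg_right (show (N : ℝ) ≤ 2 * u by linarith [hu.1]) (by positivity)))
    rw [Real.log_exp, Real.log_mul (by positivity) (by positivity), Real.log_mul two_ne_zero u0.ne',
      Real.log_pow] at a
    have b := Real.log_le_sub_one_of_pos two_pos
    have c := mul_le_mul_of_nonneg_right (show (k : ℝ) ≤ K by exact_mod_cast hk) q0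
    push_cast at a; linarith
  · have a := Real.log_le_log u0 (hu.2.trans (mul_le_mul_of_nonneg_left h2 (by positivity)))
    rw [Real.log_mul (by positivity) (by positivity), Real.log_exp,
      Real.log_mul four_ne_zero (by positivity), Real.log_pow] at a
    have b := Real.log_le_sub_one_of_pos four_pos
    linarith

lemma TB_e1 {l ι N L H0 H1 Y Q B c : ℝ} (hl : 1 ≤ l) (hι : 0 < ι) (hN : 0 ≤ N) (h0 : 0 < H0)
    (hL : L ≤ Real.exp 72 * l) (hQ : Q ≤ N * L / H0 + c) (hc : c ≤ H1) (hY : H1 ≤ Y) (Y0 : 0 ≤ Y)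
    (hB : 1 ≤ B) (a : 10 * Real.exp 72 / ι * l ^ 3 ≤ H0) (b : 10 * (l ^ 2 * B * Y) ≤ ι * N) :
    5 * l ^ 2 * Q ≤ ι * N := by
  have l2 : 0 ≤ l ^ 2 := sq_nonneg l
  have c1 : 10 * (l ^ 2 * (N * L / H0)) ≤ ι * N := by
    rw [div_mul_eq_mul_div, div_le_iff₀ hι] at a
    rw [← mul_div_assoc, ← mul_div_assoc, div_le_iff₀ h0]
    have d1 := mul_le_mul_of_nonneg_left hL (show 0 ≤ 10 * l ^ 2 * N by positivity)
    have d2 := mul_le_mul_of_nonneg_left a hN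
    linarith
  have c2 := mul_le_mul_of_nonneg_left (hQ.trans (add_le_add_right
    (hc.trans (hY.trans (le_mul_of_one_le_left Y0 hB))) _)) l2
  linarith

lemma TB_e3 {l ι N Λ H0 K t T B Y v x : ℝ} (hl : 1 ≤ l) (hι : 0 < ι) (hN : 0 ≤ N) (h0 : 0 < H0)
    (K0 : 0 ≤ K) (t0 : 0 ≤ t) (Λ0 : 0 ≤ Λ) (hΛ : Λ ≤ Real.exp 72 * l) (v0 : 0 ≤ v) (hv : v ≤ l)
    (x0 : 0 ≤ x) (hx : x ≤ N * Λ ^ 2 * (3 * K / H0 + 2 * t) + T) (hT : T ≤ Y) (Y0 : 0 ≤ Y)
    (hB : 1 ≤ B) (a : 3 * K * Real.exp 144 / ι * l ^ 4 ≤ H0) (b : 10 * (l ^ 2 * B * Y) ≤ ι * N)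
    (c : l ^ 5 * t ≤ Real.exp 432) (d : (1 + 2 * Real.exp 576) / ι ≤ l) :
    v ^ 2 * x ≤ 3 * (ι * N) := by
  have l0 : 0 < l := by linarith
  have e1 : Λ ^ 2 ≤ Real.exp 144 * l ^ 2 := by
    refine (pow_le_pow_left₀ Λ0 hΛ 2).trans (le_of_eq ?_)
    rw [mul_pow, ← Real.exp_nat_mul]; norm_num
  have e2 : Real.exp 144 * l ^ 4 * (3 * K / H0) ≤ ι := by
    rw [div_mul_eq_mul_div, div_le_iff₀ hι] at a
    rw [← mul_div_assoc, div_le_iff₀ h0]; linarith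
  have e3 : Real.exp 144 * l ^ 4 * (2 * t) ≤ ι := by
    rw [div_le_iff₀ hι] at d
    refine le_of_mul_le_mul_left ?_ l0
    have f := mul_le_mul_of_nonneg_left c (Real.exp_pos 144).le
    rw [← Real.exp_add, show (144 + 432 : ℝ) = 576 by norm_num] at f
    linarith
  have e4 := mul_le_mul_of_nonneg_right (mul_le_mul_of_nonneg_left e1 hN)
    (show 0 ≤ 3 * K / H0 + 2 * t by positivity)
  have e5 := mul_le_mul (pow_le_pow_left₀ v0 hv 2) (hx.trans (add_le_add e4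
    (hT.trans (le_mul_of_one_le_left Y0 hB)))) x0 (sq_nonneg l)
  have e6 := mul_le_mul_of_nonneg_left (add_le_add e2 e3) hN
  have e7 : 0 ≤ l ^ 2 * B * Y := by positivity
  linarith

theorem TB_core (A : ℕ) {c : ℝ} (hc : 0 < c) : ∃ k0 : ℕ, ∀ k1 k2 : ℕ, k0 ≤ k1 → k0 ≤ k2 →
    ∀ ε : ℝ, 0 < ε → ∀ᶠ X : ℕ in atTop, ∀ N : ℕ, (X : ℝ) ≤ N * Real.log X ^ 3 → N ≤ X →
    ∀ E : Finset ℕ, Eok X c E → ∀ (a1 a2 : ℕ) (b1 b2 : ℤ), Lin (Real.log X ^ A) a1 a2 b1 b2 →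
    |(((Ioc (N : ℤ) (2 * N)).filter fun n =>
          PE E k1 (a1 * n + b1) ∧ PE E k2 (a2 * n + b2)).card : ℝ) * Real.log X ^ 2
        - N * (ek E k1 * ek E k2) * ∏ p ∈ PZ (zz X), locF a1 a2 b1 b2 p|
      ≤ ε * (N * (ek E k1 * ek E k2)) * (∏ p ∈ PZ (zz X), locF a1 a2 b1 b2 p + 1) := by
  obtain ⟨k0, H⟩ := two_point (2 * A + 1) 1 le_rfl hc
  refine ⟨k0, fun k1 k2 hk1 hk2 ε hε => ?_⟩
  obtain ⟨δ, δ0, δ1, δ2⟩ : ∃ δ : ℝ, 0 < δ ∧ δ ≤ 1 / 6 ∧ 13 * δ ≤ ε :=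
    ⟨min (ε / 13) (1 / 6), by positivity, min_le_right _ _, by linarith [min_le_left (ε / 13) (1 / 6)]⟩
  obtain ⟨ι, hι⟩ : ∃ ι : ℝ, ι = δ * ((1 / 4) ^ k1 / k1.factorial * ((1 / 4) ^ k2 / k2.factorial)) :=
    ⟨_, rfl⟩
  have ι0 : 0 < ι := by rw [hι]; positivity
  obtain ⟨K, hK⟩ : ∃ K, K = k1 + k2 := ⟨_, rfl⟩
  filter_upwards [H, Vz_inv_le, zz_big A, TB_mertens, TB_tend.eventually_ge_atTop 3,
    (Real.tendsto_log_atTop.comp TB_tend).eventually_ge_atTop K,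
    TB_ev_small (show (0 : ℝ) ≤ 40 * (K + A + 1) by positivity) δ0, TB_ev_exp 3 (2 * A) hc,
    TB_ev_exp (4 * K) 0 hc, TB_ev_exp (10 * Real.exp 72 / ι) 3 hc,
    TB_ev_exp (3 * K * Real.exp 144 / ι) 4 hc,
    TB_ev_exp (10 / ι + 4) (A + 5) (show (0 : ℝ) < 1 / 4 by norm_num),
    TB_tend.eventually_ge_atTop ((1 + 2 * Real.exp 576) / ι), eventually_gt_atTop 0]
    with X H hV hz hM hl hKl hs g1 g2 g3 g4 g5 g6 X0 N hN1 hN2 E hE a1 a2 b1 b2 hL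
  have eX : Real.exp (Real.log X) = X := Real.exp_log (by exact_mod_cast X0)
  have ez : zz X = Real.exp (Real.log X ^ (24 / 25 : ℝ)) := rfl
  obtain ⟨E1, E2, E3, E4⟩ := id hE
  simp only [Function.comp] at hKl
  generalize Real.log X = l at *
  generalize zz X = z at *
  have l1 : 1 ≤ l := by clear * - l δ δ0 δ1 hl; linarith
  have l0 : 0 < l := by clear * - l δ δ0 δ1 hl; linarith
  have t1 : 1 ≤ Real.log l := by
    clear * - l l0 δ δ0 δ1 hl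
    rw [Real.le_log_iff_exp_le l0]; linarith [Real.exp_one_lt_d9]
  have q0 := Real.rpow_nonneg l0.le (1 / 4 : ℝ)
  have s0 := Real.rpow_nonneg l0.le (24 / 25 : ℝ)
  have hq : Real.exp (l ^ (1 / 4 : ℝ)) ≤ z := by
    clear * - l z δ δ0 δ1 X A hz l1
    linarith [Real.exp_le_exp.mpr (Real.rpow_le_rpow_of_exponent_le l1
      (show (1 / 4 : ℝ) ≤ 4 / 5 by norm_num)), hz.2.1]
  have H0 := Real.exp_pos (l ^ c)
  generalize l ^ (1 / 4 : ℝ) = q at *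
  generalize l ^ (24 / 25 : ℝ) = s at *
  generalize Real.exp (l ^ c) = H0' at *
  have z0 : 0 < z := ez ▸ Real.exp_pos s
  have K0 : (0 : ℝ) ≤ K := Nat.cast_nonneg K
  have A0 : (0 : ℝ) ≤ A := Nat.cast_nonneg A
  have ts := mul_nonneg (zero_le_one.trans t1) s0
  have m1 := mul_nonneg K0 q0
  have m2 := mul_nonneg A0 (zero_le_one.trans t1)
  have hs' : K * q + A * Real.log l + 40 * (1 + Real.log l + q + s + Real.log l * s) + 39 * (K * q)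
      ≤ δ * l := by
    clear * - K l s K0 δ δ0 δ1 t1 s0 ts A q A0 q0 hs m2
    have u1 := mul_nonneg K0 (show 0 ≤ 1 + Real.log l + s + Real.log l * s by linarith)
    have u2 := mul_nonneg A0 (show 0 ≤ 1 + q + s + Real.log l * s by linarith)
    linarith
  have δl : δ * l ≤ l / 6 := by clear * - δ l δ1 l0; linarith [mul_le_mul_of_nonneg_right δ1 l0.le]
  have hY : Real.exp q ≤ Real.exp (l / 2) := Real.exp_le_exp.mpr (by clear * - q l δ s K A δ0 δ1 t1 q0 s0 ts m1 m2 hs' δl; linarith)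
  have eY : Real.exp (l / 2) * Real.exp (l / 2) = X := by rw [← Real.exp_add, add_halves, eX]
  have Y1 : 1 ≤ Real.exp (l / 2) := Real.one_le_exp (by clear * - l δ q s K A δ0 δ1 t1 q0 s0 ts m1 m2 hs' δl; linarith)
  have B1 : 1 ≤ l ^ A := hL.B_ge
  have N0 : (0 : ℝ) ≤ N := Nat.cast_nonneg N
  have i0 : 0 < 10 / ι := by positivity
  have hNY : (10 / ι + 4) * (l ^ 2 * l ^ A * Real.exp (l / 2)) ≤ N := by
    refine le_of_mul_le_mul_right (le_trans ?_ hN1) (pow_pos l0 3)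
    have := mul_le_mul_of_nonneg_right (g5.trans hY) (zero_le_one.trans Y1)
    rw [eY] at this
    exact le_trans (le_of_eq (by ring)) this
  have w1' : 1 ≤ l ^ 2 := one_le_pow₀ l1
  have w2 : l ^ A ≤ l ^ 2 * l ^ A := le_mul_of_one_le_left (by clear * - l A δ δ0 δ1 B1 w1'; linarith) w1'
  have w3 : l ^ 2 * l ^ A ≤ l ^ 2 * l ^ A * Real.exp (l / 2) :=
    le_mul_of_one_le_right (by clear * - l A δ δ0 δ1 B1 w2 Y1; linarith) Y1
  have w4 : Real.exp (l / 2) ≤ l ^ 2 * l ^ A * Real.exp (l / 2) :=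
    le_mul_of_one_le_left (by clear * - l δ δ0 δ1 Y1; linarith) (by clear * - l A B1 w2; linarith)
  have w5 := mul_nonneg i0.le (show 0 ≤ l ^ 2 * l ^ A * Real.exp (l / 2) by clear * - l A δ δ0 δ1 B1 w2 w3 i0; linarith)
  have hN4 : 4 * l ^ A ≤ N := by clear * - l A N ι hNY w2 w3 w5; linarith
  have hNι : 10 * (l ^ 2 * l ^ A * Real.exp (l / 2)) ≤ ι * N := by
    clear * - ι l A N δ δ0 δ1 B1 hNY w2 w3 ι0
    have : 10 / ι * (l ^ 2 * l ^ A * Real.exp (l / 2)) ≤ N := by linarith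
    rw [div_mul_eq_mul_div, div_le_iff₀ ι0] at this
    linarith
  have hBY : l ^ A ≤ Real.exp (l / 2) := by
    clear * - l A ι l1 hl δ δ0 δ1 i0 q g5 hY
    refine le_trans ?_ (g5.trans hY)
    exact (pow_le_pow_right₀ l1 (Nat.le_add_right A 5)).trans
      (le_mul_of_one_le_left (by positivity) (by linarith))
  have B2 : l ^ (2 * A) = (l ^ A) ^ 2 := by rw [mul_comm, pow_mul]
  have B3 : l ^ (2 * A + 1) = (l ^ A) ^ 2 * l := by rw [pow_succ, B2]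
  have B4 : 0 < (l ^ A) ^ 2 := by positivity
  have big : ∀ p ∈ E, 2 * (l ^ A) ^ 2 < p := fun p hp => by clear * - l A p H0' g1 H0 B2 E2 hp E; linarith [E2 p hp]
  have aa : ((a1 * a2 : ℕ) : ℝ) ≤ (l ^ A) ^ 2 := by
    clear * - a1 a2 l A b1 b2 hL δ δ0 δ1 B1
    rw [Nat.cast_mul, sq]; exact mul_le_mul hL.a1_le hL.a2_le (Nat.cast_nonneg _) (by linarith)
  have pa : 0 < a1 * a2 := mul_pos hL.a1_pos hL.a2_pos
  have NX : (N : ℝ) ≤ X := by exact_mod_cast hN2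
  have kk : ∀ k : ℕ, k ≤ K → (k : ℝ) ≤ (2 * A + 1 : ℕ) * Real.log l := fun k hk => by
    clear * - k K hk A l hKl m2
    have : (k : ℝ) ≤ K := by exact_mod_cast hk
    push_cast; linarith
  have Ez : ∀ p ∈ E, (p : ℝ) ≤ z := fun p hp => (E3 p hp).trans hq
  have z1 := hL.a1_le.trans hz.1
  have z2 := hL.a2_le.trans hz.1
  have T := H (a1 * a2 * N) ?_ ?_ E hE k1 k2 hk1 hk2 (kk k1 (by omega)) (kk k2 (by omega))
    (a1 * b2 - a2 * b1) (a2 * b1) (a1 * a2) (sub_ne_zero.mpr hL.det)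
    (hL.det_le.trans (by clear * - l A B3 B4 hl hL pa; rw [B3]; linarith [mul_le_mul_of_nonneg_left hl B4.le])) pa
    (aa.trans (by rw [B3]; exact le_mul_of_one_le_right B4.le l1)) _ _ _ _
    (TB_dat hL.a2_pos z2 Ez) (TB_dat hL.a1_pos z1 Ez)
    (TB_inv hL.a2_pos fun p hp => ⟨E1 p hp, (hL.big (big p hp)).2.1⟩)
    (TB_inv hL.a1_pos fun p hp => ⟨E1 p hp, (hL.big (big p hp)).1⟩)
  rotate_left
  · refine le_trans ?_ (Nat.pow_le_pow_left (Nat.le_mul_of_pos_left N pa) 2)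
    have : (X : ℝ) ≤ (N : ℝ) ^ 2 := by
      clear * - X N l eY δ δ0 δ1 Y1 A ι B1 hNY w2 w3 w4 w5
      rw [← eY, sq]; exact mul_self_le_mul_self (by linarith) (by linarith)
    exact_mod_cast this
  · rw [sq]
    refine Nat.mul_le_mul ?_ hN2
    have : ((a1 * a2 : ℕ) : ℝ) ≤ X := by
      clear * - a1 a2 X l eY A aa δ δ0 δ1 B1 hBY
      rw [← eY]; exact aa.trans (by rw [sq]; exact mul_self_le_mul_self (by linarith) hBY)
    exact_mod_cast this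
  have T2 : ((a1 * a2 * N : ℕ) : ℝ) / l ^ (2 * A + 1) ≤ ι * N := by
    clear * - a1 a2 N l A ι B3 hl ι0 g6 aa B4 N0
    rw [B3, Nat.cast_mul, div_le_iff₀ (by positivity)]
    rw [div_le_iff₀ ι0] at g6
    have u1 : 1 ≤ l * ι := by linarith [Real.exp_pos 576]
    have u2 := mul_le_mul_of_nonneg_right (aa.trans (le_mul_of_one_le_right B4.le u1)) N0
    linarith
  have ed := (TB_ediv a1 b1).trans hL.b1_le
  have S := TB_sum (δ := δ) (l := l) (h1 := q) δ0.le (by clear * - δ δ0 δ1 E1 E3 Ez T T2 big ez hL hV l q z1 z2; linarith) hV hL.a1_pos hL.a2_pos z1 z2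
    (fun p hp => ⟨E1 p hp, (hL.big (big p hp)).1, (hL.big (big p hp)).2.1, Ez p hp,
      (Real.log_le_iff_le_exp (by exact_mod_cast (E1 p hp).pos)).mpr (E3 p hp)⟩)
    (by clear * - z δ l s ez q K A δ0 δ1 t1 q0 s0 ts m1 m2 hs' δl T T2; rw [ez, Real.log_exp]; linarith) ?_ (T.trans T2)
  swap
  · intro n hn
    obtain ⟨n1, n2⟩ := mem_Ioc.mp hn
    have n3 : ((N + -b1 / a1 : ℤ) : ℝ) ≤ n := by exact_mod_cast n1.le
    have n4 : (n : ℝ) ≤ (N + -b1 / a1 + N : ℤ) := by exact_mod_cast n2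
    rw [Int.cast_add] at n3 n4
    rw [Int.cast_add] at n4
    rw [Int.cast_natCast] at n3 n4
    obtain ⟨n5, n6⟩ := abs_le.mp ed
    exact ⟨TB_logs (K := K) l1 q0 (by omega) (eX ▸ hN1) (eX ▸ NX) (TB_size hL.a1_pos hL.a1_le
      hL.b1_le hN4 (by clear * - N l A n b1 a1 n3 n5 hL hN4; linarith) (by clear * - n N l A b1 a1 n4 n6 hL hN4; linarith)) (by clear * - K q l δ s A δ0 δ1 t1 q0 s0 ts m1 m2 hs' hL hN4; linarith) (by clear * - A l δ q s K δ0 δ1 t1 q0 s0 ts m1 hs' hL hN4; linarith),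
      TB_logs (K := K) l1 q0 (by omega) (eX ▸ hN1) (eX ▸ NX) (TB_size hL.a2_pos hL.a2_le
      hL.b2_le hN4 (by clear * - N l A n b1 a1 n3 n5 hL hN4; linarith) (by clear * - n N l A b1 a1 n4 n6 hL hN4; linarith)) (by clear * - K q l δ s A δ0 δ1 t1 q0 s0 ts m1 m2 hs' hL hN4; linarith) (by clear * - A l δ q s K δ0 δ1 t1 q0 s0 ts m1 hs' hL hN4; linarith)⟩
  obtain ⟨J, J1, J2⟩ : ∃ J : ℕ, 11 * Real.log l ≤ (J + 1 : ℕ) ∧ ((J + 1 : ℕ) : ℝ) ≤ 12 * Real.log l :=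
    ⟨⌊11 * Real.log l⌋₊, by push_cast; exact (Nat.lt_floor_add_one _).le, by
      clear * - l t1 δ δ0 δ1
      push_cast; linarith [Nat.floor_le (show 0 ≤ 11 * Real.log l by linarith)]⟩
  have EP : ∀ p ∈ E, p ∈ PZ z := fun p hp => (mem_PZ z0.le).mpr ⟨E1 p hp, Ez p hp⟩
  have C := TB_count (x := 2 * (Real.log l + 72)) k1 k2 hL z0.le H0 (Real.one_le_exp q0)
    (fun p hp => ⟨EP p hp, big p hp, E2 p hp, E3 p hp⟩) (by clear * - z l hM E2 E3 EP J N a1 b1 big; linarith) J (N + -b1 / a1) N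
  have hΛ : Real.exp (∑ p ∈ E, (p : ℝ)⁻¹) ≤ Real.exp 72 * l := by
    clear * - E l l0 z EP hM
    rw [← Real.exp_log l0, ← Real.exp_add, Real.exp_le_exp, add_comm]
    exact (sum_le_sum_of_subset_of_nonneg EP fun _ _ _ => by positivity).trans hM
  have hLs : ∑ p ∈ E, (p : ℝ)⁻¹ ≤ Real.exp 72 * l := by
    clear * - E l δ δ0 δ1 hΛ
    linarith [Real.add_one_le_exp (∑ p ∈ E, (p : ℝ)⁻¹)]
  have cE := TB_card_E (Real.exp_pos q).le fun p hp => ⟨E1 p hp, E3 p hp⟩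
  have Q1 := TB_e1 l1 ι0 N0 H0 hLs (TB_sq H0 hL.a1_pos b1 (fun p hp =>
    ⟨E1 p hp, (hL.big (big p hp)).1, E2 p hp⟩) (N + -b1 / a1) N) cE hY (by clear * - l δ δ0 δ1 Y1 B1 E1 E2 N a1 b1 big cE g3 hL hNι hY; linarith) B1 g3 hNι
  have Q2 := TB_e1 l1 ι0 N0 H0 hLs (TB_sq H0 hL.a2_pos b2 (fun p hp =>
    ⟨E1 p hp, (hL.big (big p hp)).2.1, E2 p hp⟩) (N + -b1 / a1) N) cE hY (by clear * - l δ δ0 δ1 Y1 B1 E1 E2 N a1 b1 big cE g3 hL hNι hY; linarith) B1 g3 hNι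
  rw [← Nat.cast_add, ← hK] at C
  have V0 := (inv_pos.mpr (Vz_pos z)).le
  have R := TB_e3 l1 ι0 N0 H0 K0 (by positivity) (Real.exp_pos _).le hΛ V0 hV (abs_nonneg _) C
    (by clear * - q K z J l s ez s0 J2 δ A δ0 δ1 t1 q0 ts m1 m2 hs' δl B1 g4 hNι; rw [ez]; exact TB_e5 s0 J2 (Y := l / 2) (by clear * - K q l s δ A δ0 δ1 t1 q0 s0 ts m1 m2 hs' δl B1 J2 ez g4 hNι; linarith)) (by clear * - l δ δ0 δ1 Y1 B1 J2 ez g4 hNι s0; linarith) B1 g4 hNι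
    (TB_e4 l1 J1) g6
  rw [← abs_of_nonneg (sq_nonneg (Vz z)⁻¹), ← abs_mul, mul_sub, mul_left_comm, ← TB_Sz] at R
  have Sh := TB_shift (fun n => PE E k1 (a1 * n + b1) ∧ PE E k2 (a2 * n + b2)) N (2 * N)
    (N + -b1 / a1) (N + -b1 / a1 + N)
  rw [show (N : ℤ) - (N + -b1 / a1) = -(-b1 / a1) by ring,
    show (2 * N : ℤ) - (N + -b1 / a1 + N) = -(-b1 / a1) by ring, Int.cast_neg, abs_neg] at Sh
  have Sh2 := mul_le_mul_of_nonneg_left (Sh.trans (add_le_add ed ed)) (sq_nonneg l)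
  rw [← abs_of_nonneg (sq_nonneg l), ← abs_mul, mul_sub, abs_of_nonneg (sq_nonneg l)] at Sh2
  have e0 := mul_nonneg (ek_nonneg E k1) (ek_nonneg E k2)
  have hD : ι * N ≤ δ * (N * (ek E k1 * ek E k2)) := by
    clear * - K E H0' H0 E2 E4 l g2 δ N k1 k2 k0 hK X a1 a2 δ0 N0 ι hι
    have u : ∀ k : ℕ, k ≤ K → (1 / 4) ^ k / k.factorial ≤ ek E k := fun k hk =>
      TB_ek_ge H0 E2 E4 k (by
        have : (k : ℝ) ≤ K := by exact_mod_cast hk
        linarith [pow_zero l])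
    have := mul_le_mul_of_nonneg_left (mul_le_mul (u k1 (by omega)) (u k2 (by omega))
      (by positivity) (ek_nonneg _ _)) (mul_nonneg δ0.le N0)
    rw [hι]; linarith
  have S0 : 0 ≤ ∏ p ∈ PZ z, locF a1 a2 b1 b2 p := by
    rw [TB_Sz]; exact mul_nonneg (sq_nonneg _) (TB_W _ _ _ _ _).1
  have F := TB_arith (D := ι * N) δ0.le δ1 (by positivity) (S.trans (by clear * - δ l E k1 a1 b1 k2 a2 b2 N ι Q1 Q2 R S Sh2 δ0 δ1; linarith)) R
    (Sh2.trans (by clear * - l A ι N δ δ0 δ1 B1 w2 w3 hNι Sh2; linarith)) (by clear * - l E k1 a1 b1 k2 a2 b2 N hl Sh2; positivity)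
  rw [mul_comm _ (l ^ 2)]
  refine F.trans ?_
  have Ne := mul_nonneg N0 e0
  have f1 := mul_le_mul_of_nonneg_right δ2 Ne
  have f2 := mul_le_mul_of_nonneg_right (show 6 * δ ≤ ε by clear * - δ ε δ0 δ2 Ne S0; linarith) (mul_nonneg Ne S0)
  clear * - δ N E k1 k2 z a1 a2 b1 b2 ι ε hD f1 f2
  linarith

end Pool.Agent.Work.MP_678620_nt
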