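import Pool.Agent.Work.MP_678620_nt.SPConv
import Pool.Agent.Work.MP_678620_nt.Bonf

/-! Pairs of linear forms: definitions. -/

set_option autoImplicit false
open Finset Filter

namespace Pool.Agent.Work.MP_678620_nt

noncomputable section

/-- `u` is a prime times `k` distinct primes of `E`. -/
def PE (E : Finset ℕ) (k : ℕ) (u : ℤ) : Prop :=
  ∃ p : ℕ, p.Prime ∧ ∃ S ∈ E.powersetCard k, u = p * ∏ q ∈ S, (q : ℤ)

/-- The elementary symmetric sum of the reciprocals. -/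
def ek (E : Finset ℕ) (k : ℕ) : ℝ := esym E (fun p => (p : ℝ)⁻¹) k

/-- The primes up to `z`. -/
def PZ (z : ℝ) : Finset ℕ := (Icc 1 ⌊z⌋₊).filter Nat.Prime

/-- Exactly `k` primes of `E` divide `u`, and no other prime up to `z`. -/
def RE (z : ℝ) (E : Finset ℕ) (k : ℕ) (u : ℤ) : Prop :=
  wE E u = k ∧ ∀ p ∈ PZ z, (p : ℤ) ∣ u → p ∈ E

/-- The square of an element of `E` divides `u`. -/
def SqE (E : Finset ℕ) (u : ℤ) : Prop := ∃ q ∈ E, (q : ℤ) ^ 2 ∣ u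

instance (E : Finset ℕ) (k : ℕ) (u : ℤ) : Decidable (PE E k u) := Classical.propDecidable _

instance (z : ℝ) (E : Finset ℕ) (k : ℕ) (u : ℤ) : Decidable (RE z E k u) :=
  Classical.propDecidable _

instance (E : Finset ℕ) (u : ℤ) : Decidable (SqE E u) := Classical.propDecidable _

/-- The number of roots of the product of two linear forms. -/
def om (a1 a2 : ℕ) (b1 b2 : ℤ) (p : ℕ) : ℕ :=
  ((range p).filter fun n : ℕ => (p : ℤ) ∣ (a1 * n + b1) * (a2 * n + b2)).card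

/-- The local factor of the singular product. -/
def locF (a1 a2 : ℕ) (b1 b2 : ℤ) (p : ℕ) : ℝ :=
  (1 - (om a1 a2 b1 b2 p : ℝ) / p) / (1 - 1 / (p : ℝ)) ^ 2

open Classical in
/-- The indicator of `a` times the semigroup generated by `E`. -/
def bE (a : ℕ) (E : Finset ℕ) (b : ℕ) : ℂ :=
  if ∃ e : ℕ, b = a * e ∧ ∀ p : ℕ, p.Prime → p ∣ e → p ∈ E then 1 else 0

/-- The indicator of `1`. -/
def w1 (n : ℕ) : ℝ := if n = 1 then 1 else 0

/-- Two primitive independent linear forms with coefficients at most `B`. -/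
structure Lin (B : ℝ) (a1 a2 : ℕ) (b1 b2 : ℤ) : Prop where
  a1_pos : 0 < a1
  a2_pos : 0 < a2
  a1_le : (a1 : ℝ) ≤ B
  a2_le : (a2 : ℝ) ≤ B
  b1_le : |(b1 : ℝ)| ≤ B
  b2_le : |(b2 : ℝ)| ≤ B
  cop1 : IsCoprime (a1 : ℤ) b1
  cop2 : IsCoprime (a2 : ℤ) b2
  det : (a1 : ℤ) * b2 ≠ a2 * b1

end

lemma mem_PZ {z : ℝ} (hz : 0 ≤ z) {p : ℕ} : p ∈ PZ z ↔ p.Prime ∧ (p : ℝ) ≤ z := by
  rw [PZ, mem_filter, mem_Icc, Nat.le_floor_iff hz]
  exact ⟨fun h => ⟨h.2, h.1.2⟩, fun h => ⟨⟨h.1.one_le, h.2⟩, h.1⟩⟩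

lemma PZ_prime {z : ℝ} {p : ℕ} (h : p ∈ PZ z) : p.Prime := (mem_filter.mp h).2

lemma PZ_eq (z : ℝ) : PZ z = (range (⌊z⌋₊ + 1)).filter Nat.Prime := by
  ext p
  simp only [PZ, mem_filter, mem_Icc, mem_range, Nat.lt_succ_iff]
  exact ⟨fun h => ⟨h.1.2, h.2⟩, fun h => ⟨⟨h.2.one_le, h.1⟩, h.2⟩⟩

lemma PZ_card {z : ℝ} (hz : 0 ≤ z) : ((PZ z).card : ℝ) ≤ z := by
  refine le_trans ?_ (Nat.floor_le hz)
  exact_mod_cast (card_filter_le _ _).trans (by simp)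

lemma ek_nonneg (E : Finset ℕ) (k : ℕ) : 0 ≤ ek E k :=
  esym_nonneg (fun _ _ => by positivity) k

lemma Lin.B_ge {B : ℝ} {a1 a2 : ℕ} {b1 b2 : ℤ} (h : Lin B a1 a2 b1 b2) : 1 ≤ B :=
  le_trans (by exact_mod_cast h.a1_pos) h.a1_le

lemma Lin.det_le {B : ℝ} {a1 a2 : ℕ} {b1 b2 : ℤ} (h : Lin B a1 a2 b1 b2) :
    |((a1 * b2 - a2 * b1 : ℤ) : ℝ)| ≤ 2 * B ^ 2 := by
  push_cast
  have h0 := h.B_ge
  refine (abs_sub _ _).trans ?_
  rw [abs_mul, abs_mul, Nat.abs_cast, Nat.abs_cast]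
  have a := mul_le_mul h.a1_le h.b2_le (abs_nonneg _) (by linarith)
  have b := mul_le_mul h.a2_le h.b1_le (abs_nonneg _) (by linarith)
  linarith [sq B]

lemma Lin.mono {B B' : ℝ} {a1 a2 : ℕ} {b1 b2 : ℤ} (h : Lin B a1 a2 b1 b2) (hB : B ≤ B') :
    Lin B' a1 a2 b1 b2 :=
  ⟨h.1, h.2, h.3.trans hB, h.4.trans hB, h.5.trans hB, h.6.trans hB, h.7, h.8, h.9⟩

/-- A large prime divides neither a leading coefficient nor the determinant. -/
lemma Lin.big {B : ℝ} {a1 a2 : ℕ} {b1 b2 : ℤ} (h : Lin B a1 a2 b1 b2) {p : ℕ}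
    (hp : 2 * B ^ 2 < p) : a1 < p ∧ a2 < p ∧ ¬ (p : ℤ) ∣ a1 * b2 - a2 * b1 := by
  have h0 := h.B_ge
  have h1 : B < p := by nlinarith
  refine ⟨by exact_mod_cast h.a1_le.trans_lt h1, by exact_mod_cast h.a2_le.trans_lt h1, fun k => ?_⟩
  have a := Int.le_of_dvd (abs_pos.mpr (sub_ne_zero.mpr h.det)) ((dvd_abs _ _).mpr k)
  have b : (p : ℝ) ≤ |((a1 * b2 - a2 * b1 : ℤ) : ℝ)| := by exact_mod_cast a
  linarith [h.det_le]

lemma TB_one_sub_sum {ι : Type*} (s : Finset ι) (x : ι → ℝ) (h0 : ∀ i ∈ s, 0 ≤ x i)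
    (h1 : ∀ i ∈ s, x i ≤ 1) : 1 - ∑ i ∈ s, x i ≤ ∏ i ∈ s, (1 - x i) := by
  classical
  induction s using Finset.induction_on with
  | empty => simp
  | insert a s ha ih =>
    rw [sum_insert ha, prod_insert ha]
    have a1 := ih (fun i hi => h0 i (mem_insert_of_mem hi)) fun i hi => h1 i (mem_insert_of_mem hi)
    have a2 := h0 a (mem_insert_self _ _)
    have a3 := h1 a (mem_insert_self _ _)
    have a4 : 0 ≤ ∑ i ∈ s, x i := sum_nonneg fun i hi => h0 i (mem_insert_of_mem hi)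
    nlinarith [mul_le_mul_of_nonneg_left a1 (sub_nonneg.mpr a3), mul_nonneg a2 a4]

end Pool.Agent.Work.MP_678620_nt
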