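import Pool.Agent.Work.MP_678620_nt.TBCount
import Pool.Agent.Work.MP_678620_nt.TBAsy

/-! Pairs of linear forms: the singular product and the dyadic decomposition. -/

set_option autoImplicit false
open Finset Filter Topology

namespace Pool.Agent.Work.MP_678620_nt

lemma TB_inv_sq (Ps : Finset ℕ) {w : ℕ} (hw : 0 < w) (h : ∀ p ∈ Ps, w < p) :
    ∑ p ∈ Ps, ((p : ℝ) ^ 2)⁻¹ ≤ (w : ℝ)⁻¹ := by
  have h1 : Ps ⊆ Ioc w (max w (Ps.sup id)) := fun p hp =>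
    mem_Ioc.mpr ⟨h p hp, le_max_of_le_right (le_sup (f := id) hp)⟩
  refine (sum_le_sum_of_subset_of_nonneg h1 fun _ _ _ => by positivity).trans
    ((sum_Ioc_inv_sq_le_sub hw.ne' (le_max_left _ _)).trans ?_)
  exact sub_le_self _ (by positivity)

lemma TB_tail_prod (u : ℕ → ℝ) (Ps : Finset ℕ) {w : ℕ} (hw : 4 ≤ w)
    (h : ∀ p ∈ Ps, w < p ∧ 1 - 4 * ((p : ℝ) ^ 2)⁻¹ ≤ u p) : 1 - 4 / (w : ℝ) ≤ ∏ p ∈ Ps, u p := by
  have h3 : ∀ p ∈ Ps, 4 * ((p : ℝ) ^ 2)⁻¹ ≤ 1 := fun p hp => by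
    have a1 : (2 : ℝ) ≤ p := by exact_mod_cast (by have := (h p hp).1; omega : 2 ≤ p)
    rw [← div_eq_mul_inv]
    exact div_le_one_of_le₀ (by linarith [mul_self_le_mul_self zero_le_two a1, sq (p : ℝ)])
      (by positivity)
  refine le_trans ?_ ((TB_one_sub_sum _ _ (fun p _ => by positivity) h3).trans
    (prod_le_prod (fun p hp => sub_nonneg.mpr (h3 p hp)) fun p hp => (h p hp).2))
  rw [← mul_sum, div_eq_mul_inv]
  linarith [TB_inv_sq Ps (by omega : 0 < w) fun p hp => (h p hp).1]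

lemma TB_tprod (u : ℕ → ℝ) {w : ℕ} (hw : 4 ≤ w) (h0 : ∀ p, 0 ≤ u p)
    (h : ∀ p : ℕ, p.Prime → w < p → 1 - 4 * ((p : ℝ) ^ 2)⁻¹ ≤ u p ∧ u p ≤ 1) :
    (∏ p ∈ (range (w + 1)).filter Nat.Prime, u p) * (1 - 4 / (w : ℝ)) ≤ ∏' p : Nat.Primes, u p ∧
      ∏' p : Nat.Primes, u p ≤ ∏ p ∈ (range (w + 1)).filter Nat.Prime, u p := by
  set T := (range (w + 1)).filter Nat.Prime with hT
  have hw' : ∀ p : ℕ, p.Prime → p ∉ T → w < p := fun p hp k => lt_of_not_ge fun k' =>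
    k (mem_filter.mpr ⟨mem_range.mpr (Nat.lt_succ_of_le k'), hp⟩)
  have hs : Summable fun p : Nat.Primes => u p - 1 := by
    have s1 : Summable fun p : Nat.Primes => 4 * (((p : ℕ) : ℝ) ^ 2)⁻¹ :=
      ((Real.summable_nat_pow_inv.mpr one_lt_two).mul_left 4).subtype _
    refine s1.of_norm_bounded_eventually ?_
    filter_upwards [(T.subtype Nat.Prime).eventually_cofinite_notMem] with p hp
    have := h p p.2 (hw' p p.2 fun k => hp (mem_subtype.mpr k))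
    rw [Real.norm_eq_abs, abs_sub_comm, abs_of_nonneg (by linarith)]
    linarith
  have hm := (Real.multipliable_one_add_of_summable hs).hasProd
  simp only [add_sub_cancel] at hm
  have P0 : 0 ≤ ∏ p ∈ T, u p := prod_nonneg fun p _ => h0 p
  have key : ∀ᶠ s : Finset Nat.Primes in atTop, (∏ p ∈ T, u p) * (1 - 4 / (w : ℝ)) ≤ ∏ p ∈ s, u p ∧
      ∏ p ∈ s, u p ≤ ∏ p ∈ T, u p := by
    filter_upwards [eventually_ge_atTop (T.subtype Nat.Prime)] with s hs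
    have e : ∏ p ∈ s, u p = ∏ p ∈ s.map (Function.Embedding.subtype Nat.Prime), u p :=
      (prod_map s (Function.Embedding.subtype Nat.Prime) u).symm
    set S := s.map (Function.Embedding.subtype Nat.Prime)
    have h1 : T ⊆ S := fun p hp =>
      mem_map.mpr ⟨⟨p, (mem_filter.mp hp).2⟩, hs (mem_subtype.mpr hp), rfl⟩
    have h2 : ∀ p ∈ S \ T, w < p ∧ 1 - 4 * ((p : ℝ) ^ 2)⁻¹ ≤ u p ∧ u p ≤ 1 := fun p hp => by
      obtain ⟨q, _, rfl⟩ := mem_map.mp (mem_sdiff.mp hp).1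
      exact ⟨hw' _ q.2 (mem_sdiff.mp hp).2, h _ q.2 (hw' _ q.2 (mem_sdiff.mp hp).2)⟩
    rw [e, ← prod_sdiff h1, mul_comm]
    exact ⟨mul_le_mul_of_nonneg_right (TB_tail_prod u _ hw fun p hp => ⟨(h2 p hp).1, (h2 p hp).2.1⟩)
      P0, mul_le_of_le_one_left P0 (prod_le_one (fun p _ => h0 p) fun p hp => (h2 p hp).2.2)⟩
  exact ⟨ge_of_tendsto hm (key.mono fun _ h => h.1), le_of_tendsto hm (key.mono fun _ h => h.2)⟩

lemma locF_nonneg (a1 a2 : ℕ) (b1 b2 : ℤ) (p : ℕ) : 0 ≤ locF a1 a2 b1 b2 p :=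
  div_nonneg (TB_fac _ _ _ _ _).1 (sq_nonneg _)

lemma locF_ge {B : ℝ} {a1 a2 : ℕ} {b1 b2 : ℤ} (h : Lin B a1 a2 b1 b2) {p : ℕ} (hp : p.Prime) :
    1 - 4 * ((p : ℝ) ^ 2)⁻¹ ≤ locF a1 a2 b1 b2 p := by
  have p2 : (2 : ℝ) ≤ p := by exact_mod_cast hp.two_le
  have o : (om a1 a2 b1 b2 p : ℝ) ≤ 2 := by exact_mod_cast om_le_two h hp
  have y0 : (0 : ℝ) ≤ (p : ℝ)⁻¹ := by positivity
  have y1 : (p : ℝ)⁻¹ ≤ 2⁻¹ := inv_anti₀ two_pos p2
  have o' := mul_le_mul_of_nonneg_right o y0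
  rw [locF, one_div, ← inv_pow, div_eq_mul_inv (om a1 a2 b1 b2 p : ℝ),
    le_div_iff₀ (pow_pos (by linarith) 2)]
  generalize (p : ℝ)⁻¹ = y at *
  have a : 1 / 4 ≤ (1 - y) ^ 2 := by
    linarith [mul_self_le_mul_self (by norm_num) (show 2⁻¹ ≤ 1 - y by linarith), sq (1 - y)]
  linarith [mul_le_mul_of_nonneg_left a (sq_nonneg y)]

lemma locF_le {B : ℝ} {a1 a2 : ℕ} {b1 b2 : ℤ} (h : Lin B a1 a2 b1 b2) {p : ℕ} (hp : p.Prime)
    (hB : 2 * B ^ 2 < p) : locF a1 a2 b1 b2 p ≤ 1 := by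
  rw [locF, om_two h hp hB]
  refine div_le_one_of_le₀ ?_ (sq_nonneg _)
  rw [one_div, div_eq_mul_inv]
  push_cast
  linarith [sq_nonneg (p : ℝ)⁻¹]

lemma TB_sing {B : ℝ} {a1 a2 : ℕ} {b1 b2 : ℤ} (h : Lin B a1 a2 b1 b2) {w : ℕ} (hw : 4 ≤ w)
    (hB : 2 * B ^ 2 ≤ w) :
    (∏ p ∈ (range (w + 1)).filter Nat.Prime, locF a1 a2 b1 b2 p) * (1 - 4 / (w : ℝ))
        ≤ ∏' p : Nat.Primes, locF a1 a2 b1 b2 p ∧
      ∏' p : Nat.Primes, locF a1 a2 b1 b2 p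
        ≤ ∏ p ∈ (range (w + 1)).filter Nat.Prime, locF a1 a2 b1 b2 p :=
  TB_tprod _ hw (locF_nonneg _ _ _ _) fun _ hp k =>
    ⟨locF_ge h hp, locF_le h hp (hB.trans_lt (by exact_mod_cast k))⟩

lemma TB_lim {B : ℝ} {a1 a2 : ℕ} {b1 b2 : ℤ} (h : Lin B a1 a2 b1 b2) :
    Tendsto (fun w : ℕ => ∏ p ∈ (range (w + 1)).filter Nat.Prime, locF a1 a2 b1 b2 p) atTop
      (𝓝 (∏' p : Nat.Primes, locF a1 a2 b1 b2 p)) := by
  set C := ∏' p : Nat.Primes, locF a1 a2 b1 b2 p with hC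
  have t : Tendsto (fun w : ℕ => C + 8 * C / (w : ℝ)) atTop (𝓝 C) := by
    simpa using (tendsto_const_div_atTop_nhds_zero_nat (8 * C)).const_add C
  have ev := (eventually_ge_atTop 8).and
    ((tendsto_natCast_atTop_atTop (R := ℝ)).eventually_ge_atTop (2 * B ^ 2))
  refine tendsto_of_tendsto_of_tendsto_of_le_of_le' tendsto_const_nhds t
    (ev.mono fun w hw => (TB_sing h (by omega) hw.2).2) (ev.mono fun w hw => ?_)
  have a := (TB_sing h (w := w) (by omega) hw.2).1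
  have P0 : 0 ≤ ∏ p ∈ (range (w + 1)).filter Nat.Prime, locF a1 a2 b1 b2 p :=
    prod_nonneg fun p _ => locF_nonneg _ _ _ _ p
  have w8 : (8 : ℝ) ≤ w := by exact_mod_cast hw.1
  have y0 : (0 : ℝ) ≤ (w : ℝ)⁻¹ := by positivity
  have y1 : (w : ℝ)⁻¹ ≤ 8⁻¹ := inv_anti₀ (by norm_num) w8
  rw [← hC, div_eq_mul_inv] at a
  rw [div_eq_mul_inv]
  have b := mul_le_mul_of_nonneg_left y1 P0
  have c := mul_le_mul_of_nonneg_right (show ∏ p ∈ (range (w + 1)).filter Nat.Prime,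
    locF a1 a2 b1 b2 p ≤ 2 * C by linarith) y0
  linarith

/-- A lower bound when `0` is never a root. -/
lemma TB_Sz_ge {B : ℝ} {a1 a2 : ℕ} (h : Lin B a1 a2 1 1) (T : Finset ℕ) (hT : ∀ p ∈ T, p.Prime) :
    (1 / 8) ^ 9 / 2 ≤ ∏ p ∈ T, locF a1 a2 1 1 p := by
  rw [← prod_filter_mul_prod_filter_not T (· ≤ 8), div_eq_mul_one_div]
  refine mul_le_mul ?_ ?_ (by norm_num) (prod_nonneg fun p _ => locF_nonneg _ _ _ _ p)
  · have c : (T.filter (· ≤ 8)).card ≤ 9 := (card_le_card (t := range 9) fun p hp =>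
      mem_range.mpr (Nat.lt_succ_of_le (mem_filter.mp hp).2)).trans (card_range 9).le
    refine (pow_le_pow_of_le_one (by norm_num) (by norm_num) c).trans ?_
    rw [← prod_const]
    refine prod_le_prod (fun _ _ => by norm_num) fun p hp => ?_
    obtain ⟨p1, p2⟩ := mem_filter.mp hp
    have q2 : (2 : ℝ) ≤ p := by exact_mod_cast (hT p p1).two_le
    have q8 : (p : ℝ) ≤ 8 := by exact_mod_cast p2
    have o : om a1 a2 1 1 p < p := by
      refine (card_lt_card (filter_ssubset.mpr ⟨0, mem_range.mpr (hT p p1).pos, ?_⟩)).trans_eq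
        (card_range p)
      simpa using (Nat.prime_iff_prime_int.mp (hT p p1)).not_dvd_one
    have o' : (om a1 a2 1 1 p : ℝ) + 1 ≤ p := by exact_mod_cast o
    have a3 : 1 / 8 ≤ 1 - (om a1 a2 1 1 p : ℝ) / p := by
      rw [one_sub_div (by linarith), le_div_iff₀ (by linarith)]; linarith
    have a4 : 1 / (p : ℝ) ≤ 1 / 2 := one_div_le_one_div_of_le two_pos q2
    exact a3.trans (le_div_self (by linarith) (pow_pos (by linarith) 2)
      (pow_le_one₀ (by linarith) (sub_le_self _ (by positivity))))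
  · have := TB_tail_prod (locF a1 a2 1 1) (T.filter fun p => ¬ p ≤ 8) (w := 8) (by norm_num)
      fun p hp => ⟨not_le.mp (mem_filter.mp hp).2, locF_ge h (hT p (mem_filter.mp hp).1)⟩
    exact le_trans (by norm_num) this

lemma TB_dyadic (P : ℤ → Prop) [DecidablePred P] {κ δ T : ℝ} (X : ℕ) (κ0 : 0 ≤ κ) (δ0 : 0 ≤ δ)
    (T0 : 0 < T) (hT : 1 + κ ≤ δ * T) (h : ∀ M : ℕ, T ≤ M → M ≤ X →
      |(((Ioc (M : ℤ) (2 * M)).filter P).card : ℝ) - κ * M| ≤ δ * M) (N : ℕ) : N ≤ X →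
    |(((Ioc (0 : ℤ) N).filter P).card : ℝ) - κ * N| ≤ 2 * δ * N + 2 * (T + 1) * (1 + κ) := by
  induction N using Nat.strong_induction_on with
  | _ N ih =>
  intro hN
  obtain ⟨M, m1, m2⟩ : ∃ M, 2 * M ≤ N ∧ N ≤ 2 * M + 1 := ⟨N / 2, by omega, by omega⟩
  have m1' : 2 * (M : ℝ) ≤ N := by exact_mod_cast m1
  have m2' : (N : ℝ) ≤ 2 * M + 1 := by exact_mod_cast m2
  rcases lt_or_ge (M : ℝ) T with c | c
  · have a : (((Ioc (0 : ℤ) N).filter P).card : ℝ) ≤ N := by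
      exact_mod_cast (card_filter_le _ _).trans (by simp)
    have a0 : (0 : ℝ) ≤ ((Ioc (0 : ℤ) N).filter P).card := Nat.cast_nonneg _
    have n0 : (0 : ℝ) ≤ N := Nat.cast_nonneg _
    have b1 := mul_nonneg κ0 n0
    have b2 := mul_nonneg δ0 n0
    have b3 := mul_le_mul_of_nonneg_right (show (N : ℝ) ≤ 2 * (T + 1) by linarith)
      (show 0 ≤ 1 + κ by linarith)
    rw [abs_le]; constructor <;> linarith
  · have M0 : 0 < M := by exact_mod_cast T0.trans_le c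
    have a1 := ih M (by omega) (by omega)
    have a2 := h M c (by omega)
    have a3 := TB_shift P 0 N 0 (2 * M)
    have a4 : ((Ioc (0 : ℤ) (2 * M)).filter P).card =
        ((Ioc (0 : ℤ) M).filter P).card + ((Ioc (M : ℤ) (2 * M)).filter P).card := by
      rw [← card_union_of_disjoint (disjoint_filter_filter (Ioc_disjoint_Ioc_of_le le_rfl)),
        ← filter_union, Ioc_union_Ioc_eq_Ioc (by omega) (by omega)]
    rw [a4] at a3
    push_cast at a3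
    rw [abs_zero, zero_add, abs_of_nonneg (show 0 ≤ (N : ℝ) - 2 * M by linarith)] at a3
    have b1 := mul_le_mul_of_nonneg_left m1' κ0
    have b2 := mul_le_mul_of_nonneg_left m2' κ0
    have b3 := mul_le_mul_of_nonneg_left m1' δ0
    have b4 := mul_le_mul_of_nonneg_left c δ0
    rw [abs_le] at *
    constructor <;> linarith [a1.1, a1.2, a2.1, a2.2, a3.1, a3.2]

lemma TB_card_nat (s : Finset ℕ) (t : Finset ℤ) (h1 : ∀ n : ℕ, n ∈ s ↔ (n : ℤ) ∈ t)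
    (h2 : ∀ m ∈ t, 0 ≤ m) : s.card = t.card :=
  card_bij (fun n _ => (n : ℤ)) (fun n hn => (h1 n).mp hn) (fun _ _ _ _ h => Int.natCast_inj.mp h)
    fun m hm => by
      lift m to ℕ using h2 m hm
      exact ⟨m, (h1 m).mpr hm, rfl⟩

end Pool.Agent.Work.MP_678620_nt
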