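import Pool.Agent.Work.MP_678620_nt.TBConv

/-! Pairs of linear forms: from the correlation to the counts. -/

set_option autoImplicit false
open Finset Filter

namespace Pool.Agent.Work.MP_678620_nt

lemma TB_pair {l δ v G1 G2 F1 F2 : ℝ} {P1 P2 R1 R2 Q1 Q2 : Prop} [Decidable P1] [Decidable P2]
    [Decidable R1] [Decidable R2] [Decidable Q1] [Decidable Q2] (δ0 : 0 ≤ δ) (δ1 : δ ≤ 1)
    (v0 : 0 ≤ v) (vl : v ≤ l)
    (h1 : 0 ≤ G1 ∧ G1 ≤ (1 + δ) * l ∧ 0 ≤ F1 ∧ F1 ≤ v ∧ (¬ Q1 → (P1 → |G1 - l| ≤ δ * l) ∧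
      (¬ P1 → G1 = 0) ∧ (R1 → F1 = v) ∧ (¬ R1 → F1 = 0)))
    (h2 : 0 ≤ G2 ∧ G2 ≤ (1 + δ) * l ∧ 0 ≤ F2 ∧ F2 ≤ v ∧ (¬ Q2 → (P2 → |G2 - l| ≤ δ * l) ∧
      (¬ P2 → G2 = 0) ∧ (R2 → F2 = v) ∧ (¬ R2 → F2 = 0))) :
    |l ^ 2 * (if P1 ∧ P2 then 1 else 0) - v ^ 2 * (if R1 ∧ R2 then 1 else 0) - (G1 * G2 - F1 * F2)|
      ≤ 3 * δ * l ^ 2 * (if P1 ∧ P2 then 1 else 0) +
        5 * l ^ 2 * ((if Q1 then 1 else 0) + (if Q2 then 1 else 0)) := by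
  obtain ⟨a1, a2, a3, a4, a5⟩ := h1
  obtain ⟨b1, b2, b3, b4, b5⟩ := h2
  have l0 : 0 ≤ l := v0.trans vl
  have l2 := sq_nonneg l
  by_cases q : Q1 ∨ Q2
  · have c1 : (1 : ℝ) ≤ (if Q1 then 1 else 0) + (if Q2 then 1 else 0) := by
      rcases q with q | q <;> rw [if_pos q] <;> split_ifs <;> norm_num
    have c2 : 0 ≤ 3 * δ * l ^ 2 * (if P1 ∧ P2 then 1 else 0) := by
      split_ifs <;> positivity
    have c3 : G1 * G2 ≤ 4 * l ^ 2 := by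
      have := mul_le_mul (a2.trans (mul_le_mul_of_nonneg_right (show 1 + δ ≤ 2 by linarith) l0))
        (b2.trans (mul_le_mul_of_nonneg_right (show 1 + δ ≤ 2 by linarith) l0)) b1 (by linarith)
      linarith
    have c4 : F1 * F2 ≤ l ^ 2 := by
      rw [sq]; exact mul_le_mul (a4.trans vl) (b4.trans vl) b3 l0
    have c5 : v ^ 2 ≤ l ^ 2 := pow_le_pow_left₀ v0 vl 2
    have c6 := mul_nonneg a1 b1
    have c7 := mul_nonneg a3 b3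
    have c8 := mul_le_mul_of_nonneg_left c1 (show 0 ≤ 5 * l ^ 2 by positivity)
    have c9 := sq_nonneg v
    refine le_trans ?_ (add_le_add c2 c8)
    split_ifs <;> rw [abs_le] <;> constructor <;> linarith
  · obtain ⟨q1, q2⟩ := not_or.mp q
    obtain ⟨c1, c2, c3, c4⟩ := a5 q1
    obtain ⟨d1, d2, d3, d4⟩ := b5 q2
    have e : v ^ 2 * (if R1 ∧ R2 then 1 else 0) = F1 * F2 := by
      split_ifs with h
      · rw [c3 h.1, d3 h.2]; ring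
      · rcases not_and_or.mp h with h | h
        · rw [c4 h]; ring
        · rw [d4 h]; ring
    rw [e, if_neg q1, if_neg q2]
    split_ifs with h
    · have e1 : l ^ 2 * 1 - F1 * F2 - (G1 * G2 - F1 * F2) =
        -(l * (G1 - l) + l * (G2 - l) + (G1 - l) * (G2 - l)) := by ring
      rw [e1, abs_neg]
      refine (abs_add_three _ _ _).trans ?_
      rw [abs_mul, abs_mul, abs_mul, abs_of_nonneg l0]
      have x1 := mul_le_mul_of_nonneg_left (c1 h.1) l0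
      have x2 := mul_le_mul_of_nonneg_left (d1 h.2) l0
      have x3 := mul_le_mul (c1 h.1) ((d1 h.2).trans (mul_le_of_le_one_left l0 δ1)) (abs_nonneg _)
        (mul_nonneg δ0 l0)
      linarith
    · have : G1 * G2 = 0 := by
        rcases not_and_or.mp h with h | h
        · rw [c2 h]; ring
        · rw [d2 h]; ring
      rw [this]; simp

lemma TB_reindex {a1 a2 : ℕ} (N : ℕ) (b1 : ℤ) (h1 : 0 < a1) (h2 : 0 < a2) (F : ℤ → ℂ) :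
    ∑ m ∈ Ioc ((a1 * a2 * N : ℕ) : ℤ) (2 * (a1 * a2 * N : ℕ)),
        (if m ≡ a2 * b1 [ZMOD (a1 * a2 : ℕ)] then F m else 0)
      = ∑ n ∈ Ioc (N + -b1 / a1 : ℤ) (N + -b1 / a1 + N), F (a2 * (a1 * n + b1)) := by
  have p1 : (0 : ℤ) < a1 := by exact_mod_cast h1
  have p2 : (0 : ℤ) < a2 := by exact_mod_cast h2
  rw [← sum_filter, eq_comm]
  have key : ∀ n : ℤ, n ∈ Ioc (N + -b1 / a1 : ℤ) (N + -b1 / a1 + N) ↔
      (a2 * (a1 * n + b1) : ℤ) ∈ Ioc ((a1 * a2 * N : ℕ) : ℤ) (2 * (a1 * a2 * N : ℕ)) := fun n => by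
    rw [mem_Ioc, mem_Ioc, ← lt_sub_iff_add_lt', Int.ediv_lt_iff_lt_mul p1,
      show (N + -b1 / a1 + N : ℤ) = 2 * N + -b1 / a1 by ring, ← sub_le_iff_le_add',
      Int.le_ediv_iff_mul_le p1]
    push_cast
    rw [show (a1 * a2 * N : ℤ) = a2 * (a1 * N) by ring, show 2 * (a2 * (a1 * N) : ℤ) =
      a2 * (2 * (a1 * N)) by ring, mul_lt_mul_iff_right₀ p2, mul_le_mul_iff_right₀ p2]
    constructor <;> rintro ⟨x, y⟩ <;> constructor <;> linarith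
  refine sum_bij (fun n _ => a2 * (a1 * n + b1)) (fun n hn => ?_) (fun n _ n' _ h => ?_)
    (fun m hm => ?_) fun _ _ => rfl
  · refine mem_filter.mpr ⟨(key n).mp hn, (Int.modEq_iff_dvd.mpr ⟨n, ?_⟩).symm⟩
    push_cast; ring
  · have := mul_left_cancel₀ p2.ne' h
    exact mul_left_cancel₀ p1.ne' (add_right_cancel this)
  · obtain ⟨m1, m2⟩ := mem_filter.mp hm
    obtain ⟨n, hn⟩ := m2.symm.dvd
    have e : (a2 * (a1 * n + b1) : ℤ) = m := by push_cast at hn; linarith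
    exact ⟨n, (key n).mpr (e ▸ m1), e⟩

lemma TB_sum {z l δ h1 η : ℝ} {E : Finset ℕ} {k1 k2 N a1 a2 : ℕ} {b1 b2 : ℤ} (δ0 : 0 ≤ δ)
    (δ1 : δ ≤ 1) (vl : (Vz z)⁻¹ ≤ l) (p1 : 0 < a1) (p2 : 0 < a2) (z1 : (a1 : ℝ) ≤ z)
    (z2 : (a2 : ℝ) ≤ z)
    (hE : ∀ p ∈ E, p.Prime ∧ a1 < p ∧ a2 < p ∧ (p : ℝ) ≤ z ∧ Real.log p ≤ h1)
    (hz : Real.log z < (1 - δ) * l)
    (hu : ∀ n ∈ Ioc (N + -b1 / a1 : ℤ) (N + -b1 / a1 + N),
      (0 < a1 * n + b1 ∧ (1 - δ) * l + k1 * h1 ≤ Real.log (a1 * n + b1 : ℤ) ∧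
        Real.log (a1 * n + b1 : ℤ) ≤ (1 + δ) * l) ∧
      0 < a2 * n + b2 ∧ (1 - δ) * l + k2 * h1 ≤ Real.log (a2 * n + b2 : ℤ) ∧
        Real.log (a2 * n + b2 : ℤ) ≤ (1 + δ) * l)
    (H : ‖∑ m ∈ Ioc ((a1 * a2 * N : ℕ) : ℤ) (2 * (a1 * a2 * N : ℕ)),
      if wE E m = k1 ∧ wE E (m + (a1 * b2 - a2 * b1)) = k2 ∧ m ≡ a2 * b1 [ZMOD (a1 * a2 : ℕ)] then
        conv (bE a2 E) (gam z 1 w1) m * conv (bE a1 E) (gam z 1 w1) (m + (a1 * b2 - a2 * b1))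
          - conv (bE a2 E) (flat z 1 w1) m * conv (bE a1 E) (flat z 1 w1) (m + (a1 * b2 - a2 * b1))
        else 0‖ ≤ η) :
    |l ^ 2 * (((Ioc (N + -b1 / a1 : ℤ) (N + -b1 / a1 + N)).filter fun n =>
          PE E k1 (a1 * n + b1) ∧ PE E k2 (a2 * n + b2)).card : ℝ)
        - (Vz z)⁻¹ ^ 2 * ((Ioc (N + -b1 / a1 : ℤ) (N + -b1 / a1 + N)).filter fun n =>
          RE z E k1 (a1 * n + b1) ∧ RE z E k2 (a2 * n + b2)).card|
      ≤ 3 * δ * l ^ 2 * ((Ioc (N + -b1 / a1 : ℤ) (N + -b1 / a1 + N)).filter fun n =>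
          PE E k1 (a1 * n + b1) ∧ PE E k2 (a2 * n + b2)).card
        + 5 * l ^ 2 * (((Ioc (N + -b1 / a1 : ℤ) (N + -b1 / a1 + N)).filter fun n =>
            SqE E (a1 * n + b1)).card + ((Ioc (N + -b1 / a1 : ℤ) (N + -b1 / a1 + N)).filter fun n =>
            SqE E (a2 * n + b2)).card) + η := by
  set I := Ioc (N + -b1 / a1 : ℤ) (N + -b1 / a1 + N) with hI
  have A1 := fun n (hn : n ∈ I) => TB_single (k := k1) p2 z2
    (fun p hp => ⟨(hE p hp).1, (hE p hp).2.2.1, (hE p hp).2.2.2⟩) (hu n hn).1.1 (hu n hn).1.2.1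
    (hu n hn).1.2.2 hz
  have A2 := fun n (hn : n ∈ I) => TB_single (k := k2) p1 z1
    (fun p hp => ⟨(hE p hp).1, (hE p hp).2.1, (hE p hp).2.2.2⟩) (hu n hn).2.1 (hu n hn).2.2.1
    (hu n hn).2.2.2 hz
  choose! G1 F1 e1 e2 e3 using A1
  choose! G2 F2 f1 f2 f3 using A2
  have e : ∀ m : ℤ, ∀ (x y w : Prop) [Decidable x] [Decidable y] [Decidable w] (t : ℂ),
      (if x ∧ y ∧ w then t else 0) = if w then (if x ∧ y then t else 0) else 0 := by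
    intro _ x y w _ _ _ t
    by_cases c1 : x <;> by_cases c2 : y <;> by_cases c3 : w <;> simp [c1, c2, c3]
  rw [sum_congr rfl fun m _ => e m _ _ _ _, TB_reindex N b1 p1 p2, ← hI,
    sum_congr rfl (g := fun n => ((G1 n * G2 n - F1 n * F2 n : ℝ) : ℂ)), ← Complex.ofReal_sum,
    Complex.norm_real, Real.norm_eq_abs] at H
  swap
  · intro n hn
    have t : (a2 * (a1 * n + b1) + (a1 * b2 - a2 * b1) : ℤ) = a1 * (a2 * n + b2) := by ring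
    push_cast
    rw [t, ← e1 n hn, ← e2 n hn, ← f1 n hn, ← f2 n hn]
    by_cases c1 : wE E (a2 * (a1 * n + b1)) = k1 <;> by_cases c2 : wE E (a1 * (a2 * n + b2)) = k2 <;>
      simp [c1, c2]
  have B := (abs_sum_le_sum_abs _ I).trans (sum_le_sum fun n hn =>
    TB_pair δ0 δ1 (inv_pos.mpr (Vz_pos z)).le vl (e3 n hn) (f3 n hn))
  simp only [sum_sub_distrib, sum_add_distrib, ← mul_sum, sum_boole] at B H
  have := abs_sub_abs_le_abs_sub (l ^ 2 * ((I.filter fun n =>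
      PE E k1 (a1 * n + b1) ∧ PE E k2 (a2 * n + b2)).card : ℝ) - (Vz z)⁻¹ ^ 2 * (I.filter fun n =>
      RE z E k1 (a1 * n + b1) ∧ RE z E k2 (a2 * n + b2)).card)
    (∑ n ∈ I, G1 n * G2 n - ∑ n ∈ I, F1 n * F2 n)
  linarith

end Pool.Agent.Work.MP_678620_nt
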