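import Pool.Agent.Work.MP_678620_nt.VKPart
import Pool.Agent.Lib.MR.Lbound
import Pool.Agent.Lib.ANT.PNTError

/-! An upper bound for Dirichlet `L`-functions in the Vinogradov-Korobov region. -/

set_option autoImplicit false

namespace Pool.Agent.Work.MP_678620_nt

open Finset Filter Complex Pool.Agent.Lib.MR Pool.Agent.Lib.ANT

namespace VK

lemma abel_le (b : ℕ → ℂ) {η σ β : ℝ} (hσ : 1 - η ≤ σ) (hσ0 : 0 ≤ σ) (hσ2 : σ ≤ 2) (hβ : 0 ≤ β)
    (M : ℕ) (h : ∀ m ≤ M, ‖∑ k ∈ Ioc 0 m, b k‖ ≤ 3 * (m : ℝ) ^ (1 - η)) :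
    ‖∑ n ∈ range M, b (n + 1) * (((((n + 1 : ℕ) : ℝ) + β) ^ (-σ) : ℝ) : ℂ)‖
      ≤ 9 + 6 * Real.log M := by
  have H := lb_abel b (fun n => ((((n : ℝ) + β) ^ (-σ) : ℝ) : ℂ)) 0 M
  simp only [add_zero, zero_add] at H
  have hI : ∀ m : ℕ, Icc 1 m = Ioc 0 m := fun m => rfl
  rw [H]
  simp only [hI, Ioc_self, sum_empty, zero_mul, sub_zero]
  have h1 : ‖(∑ n ∈ Ioc 0 M, b n) * (((((M + 1 : ℕ) : ℝ) + β) ^ (-σ) : ℝ) : ℂ)‖ ≤ 3 := by
    rw [norm_mul, norm_real, Real.norm_of_nonneg (by positivity)]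
    rcases Nat.eq_zero_or_pos M with rfl | hM
    · simp
    have hM' : (1 : ℝ) ≤ M := by exact_mod_cast hM
    have a1 : (((M + 1 : ℕ) : ℝ) + β) ^ (-σ) ≤ (M : ℝ) ^ (-σ) :=
      Real.rpow_le_rpow_of_nonpos (by linarith) (by push_cast; linarith) (by linarith)
    calc _ ≤ 3 * (M : ℝ) ^ (1 - η) * (M : ℝ) ^ (-σ) := by gcongr; exact h M le_rfl
      _ = 3 * (M : ℝ) ^ (1 - η + -σ) := by rw [Real.rpow_add (by linarith)]; ring
      _ ≤ 3 * 1 := by
          gcongr; exact Real.rpow_le_one_of_one_le_of_nonpos hM' (by linarith)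
      _ = 3 := by ring
  have h2 : ∀ n ∈ range M, ‖(∑ k ∈ Ioc 0 (n + 1), b k) *
      ((((((n + 1 : ℕ) : ℝ) + β) ^ (-σ) : ℝ) : ℂ) - (((((n + 2 : ℕ) : ℝ) + β) ^ (-σ) : ℝ) : ℂ))‖
      ≤ 6 * (((n + 1 : ℕ) : ℝ))⁻¹ := fun n hn => by
    have hn1 : (1 : ℝ) ≤ ((n + 1 : ℕ) : ℝ) := by exact_mod_cast Nat.succ_pos n
    rw [norm_mul, ← ofReal_sub, norm_real, Real.norm_eq_abs]
    have a0 := lb_rpow_diff (σ := σ) (n := ((n + 1 : ℕ) : ℝ) + β) hσ0 (by linarith)
    have e : ((n + 2 : ℕ) : ℝ) + β = ((n + 1 : ℕ) : ℝ) + β + 1 := by push_cast; ring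
    have a1 : (((n + 1 : ℕ) : ℝ) + β) ^ (-σ - 1) ≤ ((n + 1 : ℕ) : ℝ) ^ (-σ - 1) :=
      Real.rpow_le_rpow_of_nonpos (by linarith) (by linarith) (by linarith)
    rw [e]
    calc _ ≤ 3 * ((n + 1 : ℕ) : ℝ) ^ (1 - η) * (2 * ((n + 1 : ℕ) : ℝ) ^ (-σ - 1)) := by
          refine mul_le_mul (h _ (mem_range.1 hn)) (a0.trans ?_) (abs_nonneg _) (by positivity)
          gcongr
      _ = 6 * ((n + 1 : ℕ) : ℝ) ^ (1 - η + (-σ - 1)) := by
          rw [Real.rpow_add (by linarith)]; ring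
      _ ≤ 6 * ((n + 1 : ℕ) : ℝ) ^ (-1 : ℝ) := by
          gcongr; linarith
      _ = _ := by rw [Real.rpow_neg_one]
  refine (norm_add_le _ _).trans ?_
  have h3 := (norm_sum_le _ _).trans (sum_le_sum h2)
  rw [← mul_sum] at h3
  linarith only [h1, h3, sum_range_inv_le M]

lemma cpow_split {x : ℝ} (hx : 0 < x) (s : ℂ) :
    (x : ℂ) ^ (-s) = ce (-s.im * Real.log x) * ((x ^ (-s.re) : ℝ) : ℂ) := by
  rw [Real.rpow_def_of_pos hx, cpow_def_of_ne_zero (by exact_mod_cast hx.ne'), ← ofReal_log hx.le,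
    ce, ofReal_exp, ← Complex.exp_add]
  congr 1
  conv_lhs => rw [← re_add_im s]
  push_cast
  ring

/-- Dirichlet polynomials with periodic coefficients -/
lemma poly_le {q : ℕ} (hq : 0 < q) (a : ℕ → ℂ) (ha : ∀ n, ‖a n‖ ≤ 1)
    (hp : ∀ m c, a (q * m + c) = a c) {η : ℝ} {s : ℂ} (hσ : 1 - η ≤ s.re) (hσ0 : 0 ≤ s.re)
    (hσ2 : s.re ≤ 2) (M : ℕ)
    (h : ∀ β : ℝ, 0 ≤ β → β ≤ 1 → ∀ m ≤ M,
      ‖∑ k ∈ Ioc 0 m, ce (-s.im * Real.log (k + β))‖ ≤ 3 * (m : ℝ) ^ (1 - η)) :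
    ‖∑ n ∈ range (q * (M + 1)), a (n + 1) * ((n + 1 : ℕ) : ℂ) ^ (-s)‖
      ≤ q * (10 + 6 * Real.log M) := by
  have hq' : (0 : ℝ) < q := by exact_mod_cast hq
  rw [lb_sum_range_mul, Finset.sum_comm]
  refine (norm_sum_le _ _).trans ?_
  refine le_trans (sum_le_sum (g := fun _ => 10 + 6 * Real.log M) fun c hc => ?_)
    (by rw [sum_const, card_range, nsmul_eq_mul])
  have hc' : ((c + 1 : ℕ) : ℝ) ≤ q := by exact_mod_cast mem_range.1 hc
  rw [sum_range_succ']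
  refine (norm_add_le _ _).trans ?_
  have h1 : ‖a (q * 0 + c + 1) * ((q * 0 + c + 1 : ℕ) : ℂ) ^ (-s)‖ ≤ 1 := by
    rw [norm_mul, norm_natCast_cpow_of_pos (Nat.succ_pos _)]
    refine mul_le_one₀ (ha _) (by positivity) ?_
    exact Real.rpow_le_one_of_one_le_of_nonpos (by exact_mod_cast Nat.succ_pos _) (by simpa)
  set β : ℝ := ((c + 1 : ℕ) : ℝ) / q with hβ
  have hβ0 : 0 ≤ β := by positivity
  have hβ1 : β ≤ 1 := (div_le_one hq').2 hc'
  have h2 := abel_le (fun k : ℕ => ce (-s.im * Real.log (k + β))) hσ hσ0 hσ2 hβ0 M (h β hβ0 hβ1)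
  have e : ∑ k ∈ range M, a (q * (k + 1) + c + 1) * ((q * (k + 1) + c + 1 : ℕ) : ℂ) ^ (-s) =
      a (c + 1) * (q : ℂ) ^ (-s) * ∑ n ∈ range M, ce (-s.im * Real.log ((n + 1 : ℕ) + β)) *
        (((((n + 1 : ℕ) : ℝ) + β) ^ (-s.re) : ℝ) : ℂ) := by
    rw [mul_sum]
    refine sum_congr rfl fun k _ => ?_
    have hk : (0 : ℝ) < ((k + 1 : ℕ) : ℝ) + β := by positivity
    have e1 : ((q * (k + 1) + c + 1 : ℕ) : ℂ) = ((q : ℝ) : ℂ) * ((((k + 1 : ℕ) : ℝ) + β : ℝ) : ℂ) := by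
      rw [← ofReal_mul, ← ofReal_natCast]
      congr 1
      rw [hβ]; push_cast; field_simp; ring
    rw [add_assoc, hp, ← cpow_split hk, ← add_assoc, e1, mul_cpow_ofReal_nonneg hq'.le hk.le,
      ofReal_natCast]
    ring
  have h3 : ‖a (c + 1) * (q : ℂ) ^ (-s)‖ ≤ 1 := by
    rw [norm_mul, norm_natCast_cpow_of_pos hq]
    refine mul_le_one₀ (ha _) (by positivity) ?_
    exact Real.rpow_le_one_of_one_le_of_nonpos (by exact_mod_cast hq) (by simpa)
  rw [e, norm_mul]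
  have h4 := mul_le_mul h3 h2 (norm_nonneg _) zero_le_one
  linarith only [h1, h4]

lemma zeta_approx {s : ℂ} (hs : 0 < s.re) (hs1 : s ≠ 1) {N : ℕ} (hN : 0 < N) :
    ‖riemannZeta s‖ ≤ ‖∑ n ∈ range N, ((n + 1 : ℕ) : ℂ) ^ (-s)‖ +
      ((N + 1 : ℕ) : ℝ) ^ (1 - s.re) / ‖s - 1‖ + ‖s‖ * ((N : ℝ) ^ (-s.re) / s.re) := by
  have r0 : 0 < ‖s - 1‖ := norm_pos_iff.2 (sub_ne_zero.2 hs1)
  have hsub : s - 1 ≠ 0 := sub_ne_zero.2 hs1
  have e : (s - 1) * riemannZeta s = 1 + ∑' n, PNTError.tm n s := by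
    rw [← PNTError.tsum_tm hs, riemannZeta_eq_inv_sub_mul hs1, riemannZeta₁]
    field_simp
  have h1 := (PNTError.summable_tm hs).sum_add_tsum_nat_add N
  have h2 : ‖∑' n, PNTError.tm (n + N) s‖ ≤ ‖s - 1‖ * (‖s‖ * ((N : ℝ) ^ (-s.re) / s.re)) := by
    refine le_of_tendsto' ((summable_nat_add_iff N).2
      (PNTError.summable_tm hs)).hasSum.tendsto_sum_nat.norm fun M => ?_
    refine (norm_sum_le _ _).trans ((sum_le_sum fun n _ => PNTError.tm_le_one hs.le _).trans ?_)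
    rw [← mul_sum, ← mul_sum]
    gcongr
    exact sum_rpow_tail_le hs hN M
  refine le_of_mul_le_mul_left ?_ r0
  rw [← norm_mul, e, ← h1, PNTError.sum_tm]
  have e2 : 1 + ((s - 1) * ∑ n ∈ range N, ((n + 1 : ℕ) : ℂ) ^ (-s) - 1 + ((N + 1 : ℕ) : ℂ) ^ (1 - s) +
      ∑' n, PNTError.tm (n + N) s) = (s - 1) * ∑ n ∈ range N, ((n + 1 : ℕ) : ℂ) ^ (-s) +
      ((N + 1 : ℕ) : ℂ) ^ (1 - s) + ∑' n, PNTError.tm (n + N) s := by ring
  rw [e2]
  refine (norm_add₃_le).trans ?_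
  rw [norm_mul, norm_natCast_cpow_of_pos (Nat.succ_pos _), sub_re, one_re, mul_add, mul_add,
    mul_div_cancel₀ _ r0.ne']
  linarith only [h2]

theorem L_bound : ∀ᶠ w : ℝ in atTop, ∀ (q : ℕ) [NeZero q] (χ : DirichletCharacter ℂ q) (s : ℂ),
    1 - 1 / w ^ 14 ≤ s.re → s.re ≤ 2 → 2 ≤ |s.im| → |s.im| ≤ Real.exp (5 * w ^ 20) →
    ‖χ.LFunction s‖ ≤ q * w ^ 21 := by
  filter_upwards [part_bound, eventually_ge_atTop (200 : ℝ)] with w hw hw1 q _ χ s h1 h2 h3 h4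
  have hq0 : 0 < q := NeZero.pos q
  have hq1 : (1 : ℝ) ≤ q := by exact_mod_cast hq0
  have hw14 : w ≤ w ^ 14 := le_self_pow₀ (by linarith only [hw1]) (by norm_num)
  have hw20 : w ≤ w ^ 20 := le_self_pow₀ (by linarith) (by norm_num)
  have hη : 1 / w ^ 14 ≤ 1 / 4 := one_div_le_one_div_of_le (by norm_num) (by linarith)
  set t := |s.im| with ht
  set M : ℕ := ⌊t ^ 3⌋₊ with hM
  have hM1 : (M : ℝ) ≤ t ^ 3 := Nat.floor_le (by positivity)
  have hM2 : t ^ 3 ≤ ((M + 1 : ℕ) : ℝ) := by push_cast; exact (Nat.lt_floor_add_one _).le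
  have ht2 : t ^ 2 ≤ t ^ 3 := pow_le_pow_right₀ (by linarith only [h3]) (by norm_num)
  have hpart : ∀ β : ℝ, 0 ≤ β → β ≤ 1 → ∀ m ≤ M,
      ‖∑ k ∈ Ioc 0 m, ce (-s.im * Real.log (k + β))‖ ≤ 3 * (m : ℝ) ^ (1 - 1 / w ^ 14) :=
    fun β b0 b1 m hm => hw (-s.im) β m b0 b1 (by rwa [abs_neg])
      (by rw [abs_neg]; exact le_trans (by exact_mod_cast hm) hM1)
  have hlog : Real.log M ≤ 15 * w ^ 20 := by
    rcases Nat.eq_zero_or_pos M with h0 | h0
    · rw [h0]; simp; positivity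
    · rw [Real.log_le_iff_le_exp (by exact_mod_cast h0)]
      calc (M : ℝ) ≤ Real.exp (5 * w ^ 20) ^ 3 := hM1.trans (by gcongr)
        _ = _ := by rw [← Real.exp_nat_mul]; congr 1; push_cast; ring
  have hns : ‖s‖ ≤ 2 * t := by
    refine (norm_le_abs_re_add_abs_im s).trans ?_
    rw [abs_of_nonneg (by linarith only [h1, hη])]; linarith only [h2, h3]
  have htail : ∀ N : ℕ, M + 1 ≤ N → (N : ℝ) ^ (-s.re) ≤ 1 / t := fun N hN => by
    have hN' : t ^ 2 ≤ N := ht2.trans (hM2.trans (by exact_mod_cast hN))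
    calc (N : ℝ) ^ (-s.re) ≤ (N : ℝ) ^ (-(1 / 2) : ℝ) :=
          Real.rpow_le_rpow_of_exponent_le (by nlinarith only [h3, hN']) (by linarith only [h1, hη])
      _ ≤ (t ^ 2) ^ (-(1 / 2) : ℝ) :=
          Real.rpow_le_rpow_of_nonpos (by positivity) hN' (by norm_num)
      _ = 1 / t := by
          rw [← Real.rpow_natCast, ← Real.rpow_mul (by linarith only [h3]), one_div t, ← Real.rpow_neg_one]
          norm_num
  have hfin : 15 + 6 * Real.log M ≤ w ^ 21 := by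
    have : 200 * w ^ 20 ≤ w ^ 21 := by rw [pow_succ' w 20]; gcongr
    linarith only [hw1, hw20, hlog, this]
  have hs1 : s ≠ 1 := fun h => by rw [ht, h] at h3; norm_num at h3
  have hdiv : ‖s‖ / s.re ≤ 4 * t := by
    rw [div_le_iff₀ (by linarith only [h1, hη])]; nlinarith only [h1, hη, h3, hns]
  by_cases hχ : χ = 1
  · have h := DirichletCharacter.LFunctionTrivChar_eq_mul_riemannZeta (N := q) hs1
    rw [DirichletCharacter.LFunctionTrivChar] at h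
    rw [hχ, h, norm_mul]
    refine mul_le_mul ?_ ?_ (norm_nonneg _) (by linarith only [hq1])
    · rw [norm_prod]
      calc _ ≤ ∏ p ∈ q.primeFactors, (p : ℝ) := by
            refine prod_le_prod (fun _ _ => norm_nonneg _) fun p hp' => ?_
            have hpp := Nat.prime_of_mem_primeFactors hp'
            have h2' : (2 : ℝ) ≤ p := by exact_mod_cast hpp.two_le
            refine (norm_sub_le _ _).trans ?_
            rw [norm_one, norm_natCast_cpow_of_pos hpp.pos]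
            have := Real.rpow_le_one_of_one_le_of_nonpos (x := p) (z := (-s).re) (by linarith only [h2'])
              (by simp; linarith only [h1, hη])
            linarith only [h2', this]
        _ ≤ q := by
            rw [← Nat.cast_prod]
            exact_mod_cast Nat.le_of_dvd hq0 (Nat.prod_primeFactors_dvd q)
    · have z1 := zeta_approx (s := s) (by linarith only [h1, hη]) hs1 (Nat.succ_pos M)
      have z2 := poly_le one_pos (fun _ => 1) (fun _ => by simp) (fun _ _ => rfl) h1 (by linarith only [h1, hη])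
        h2 M hpart
      simp only [one_mul, Nat.cast_one] at z2
      have z3 : ((M + 1 + 1 : ℕ) : ℝ) ^ (1 - s.re) / ‖s - 1‖ ≤ 1 := by
        have a1 : t ≤ ‖s - 1‖ := by simpa using abs_im_le_norm (s - 1)
        rw [div_le_one (by linarith only [h3, a1])]
        refine le_trans ?_ a1
        calc ((M + 1 + 1 : ℕ) : ℝ) ^ (1 - s.re) ≤ ((M + 1 + 1 : ℕ) : ℝ) ^ (1 / 4 : ℝ) :=
              Real.rpow_le_rpow_of_exponent_le (by exact_mod_cast Nat.succ_pos _) (by linarith only [h1, hη])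
          _ ≤ (t ^ 4) ^ (1 / 4 : ℝ) := by
              refine Real.rpow_le_rpow (by positivity) ?_ (by norm_num)
              have : 2 * t ^ 3 ≤ t ^ 4 := by rw [pow_succ' t 3]; gcongr
              have : (2 : ℝ) ^ 3 ≤ t ^ 3 := by gcongr
              push_cast; linarith
          _ = t := by rw [← Real.rpow_natCast, ← Real.rpow_mul (by linarith only [h3])]; norm_num
      have z4 : ‖s‖ * (((M + 1 : ℕ) : ℝ) ^ (-s.re) / s.re) ≤ 4 := by
        calc _ = ‖s‖ / s.re * ((M + 1 : ℕ) : ℝ) ^ (-s.re) := by ring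
          _ ≤ 4 * t * (1 / t) := by gcongr; exact htail _ le_rfl
          _ = 4 := by field_simp
      simp only [Nat.succ_eq_add_one] at z1
      linarith only [hfin, z1, z2, z3, z4]
  · rw [LFunction_eq_abel hχ (by linarith only [h1, hη])]
    have hK : ∀ n, ‖psum (fun n : ℕ => χ n) n‖ ≤ q := fun n => by
      have := norm_psum_char_le hχ 1 n
      simpa [psum, add_comm] using this
    have z1 := abel_approx hK (s := s) (by linarith only [h1, hη]) (N := q * (M + 1)) (by positivity)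
    have z2 := poly_le hq0 (fun n : ℕ => χ n) (fun n => χ.norm_le_one _)
      (fun m c => by simp) h1 (by linarith only [h1, hη]) h2 M hpart
    have z3 : (q : ℝ) * (1 + ‖s‖ / s.re) * ((q * (M + 1) : ℕ) : ℝ) ^ (-s.re) ≤ q * 5 := by
      calc _ ≤ (q : ℝ) * (5 * t) * (1 / t) := by
            gcongr
            · linarith only [h3, hdiv]
            · exact htail _ (Nat.le_mul_of_pos_left _ hq0)
        _ = _ := by field_simp
    have z4 := norm_le_norm_sub_add (∑' n, abelTerm (fun n : ℕ => χ n) n s)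
      (∑ n ∈ range (q * (M + 1)), χ ((n + 1 : ℕ) : ZMod q) * ((n + 1 : ℕ) : ℂ) ^ (-s))
    have z5 := mul_le_mul_of_nonneg_left hfin (by linarith only [hq1] : (0 : ℝ) ≤ q)
    linarith only [z1, z2, z3, z4, z5]

end VK

end Pool.Agent.Work.MP_678620_nt
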