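import Mathlib

/-! Landau's lemma on the logarithmic derivative of a holomorphic function in a disc. -/

set_option autoImplicit false

namespace Pool.Agent.Work.MP_678620_nt

open Complex Metric

namespace VK

lemma nozero {f : ℂ → ℂ} {R M : ℝ} (hR : 0 < R) (hM : 0 < M)
    (hf : DifferentiableOn ℂ f (ball 0 R)) (h0 : ∀ z ∈ ball (0 : ℂ) R, f z ≠ 0)
    (hb : ∀ z ∈ ball (0 : ℂ) R, ‖f z‖ ≤ Real.exp M * ‖f 0‖) {z : ℂ} (hz : ‖z‖ ≤ R / 4) :
    ‖deriv f z / f z‖ ≤ 8 * M / R := by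
  have hd : DifferentiableOn ℂ (fun z => deriv f z / f z) (ball 0 R) :=
    (hf.deriv isOpen_ball).div hf h0
  obtain ⟨h, hh0, hh⟩ := hd.isExactOn_ball.with_val_at 0 0
  have hmem0 : (0 : ℂ) ∈ ball (0 : ℂ) R := mem_ball_self hR
  have hder : ∀ x ∈ ball (0 : ℂ) R, HasDerivAt (fun z => f z * Complex.exp (-h z)) 0 x := by
    intro x hx
    have a1 := (hf.differentiableAt (isOpen_ball.mem_nhds hx)).hasDerivAt
    have a2 := a1.mul (hh x hx).neg.cexp
    refine a2.congr_deriv ?_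
    have := h0 x hx
    simp only [Pi.neg_apply]
    field_simp
    ring
  have hconst : ∀ x ∈ ball (0 : ℂ) R, f x * Complex.exp (-h x) = f 0 := by
    intro x hx
    have := isOpen_ball.is_const_of_deriv_eq_zero (𝕜 := ℂ) (convex_ball (0 : ℂ) R).isPreconnected
      (f := fun z => f z * Complex.exp (-h z))
      (fun y hy => (hder y hy).differentiableAt.differentiableWithinAt)
      (fun y hy => (hder y hy).deriv) hx hmem0
    simpa [hh0] using this
  have hre : Set.MapsTo h (ball 0 R) {z | z.re ≤ M} := by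
    intro x hx
    have a1 := congrArg norm (hconst x hx)
    rw [norm_mul, Complex.norm_exp, neg_re] at a1
    have a2 := hb x hx
    have a3 : 0 < ‖f x‖ := norm_pos_iff.2 (h0 x hx)
    rw [← a1, mul_left_comm, ← Real.exp_add] at a2
    have a4 : 1 ≤ Real.exp (M + -(h x).re) := by
      by_contra hc
      nlinarith [not_le.1 hc]
    have := Real.one_le_exp_iff.1 a4
    simp only [Set.mem_ofPred_eq]
    linarith
  have hhd : DifferentiableOn ℂ h (ball 0 R) :=
    fun x hx => (hh x hx).differentiableAt.differentiableWithinAt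
  have hzb : z ∈ ball (0 : ℂ) R := mem_ball_zero_iff.2 (by linarith)
  have hsub : closedBall z (R / 4) ⊆ ball 0 R := fun x hx => by
    rw [mem_closedBall, dist_eq_norm] at hx
    rw [mem_ball_zero_iff]
    linarith [norm_le_norm_add_norm_sub' x z]
  have H := norm_deriv_le_of_forall_mem_sphere_norm_le (c := z) (R := R / 4) (C := 2 * M) (f := h)
    (by positivity) (hhd.diffContOnCl_ball hsub) fun x hx => by
      have hx' := hsub (sphere_subset_closedBall hx)
      rw [mem_sphere_iff_norm] at hx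
      have a1 : ‖x‖ ≤ R / 2 := by linarith [norm_le_norm_add_norm_sub' x z]
      refine (borelCaratheodory_zero hM hhd hre hR hx' hh0).trans ?_
      rw [div_le_iff₀ (by linarith)]
      nlinarith
  rw [(hh z hzb).deriv] at H
  refine H.trans_eq ?_
  field_simp
  norm_num

lemma halve {f : ℂ → ℂ} {r K : ℝ} (hr : 0 < r) (hK : 0 ≤ K)
    (hf : DifferentiableOn ℂ f (ball 0 (2 * r))) {ρ : ℂ} (hρ : ‖ρ‖ < r / 3) (h0 : f ρ = 0)
    (hb : ∀ z ∈ closedBall (0 : ℂ) r, ‖f z‖ ≤ K * ‖f 0‖) :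
    ∀ z ∈ closedBall (0 : ℂ) r, ‖dslope f ρ z‖ ≤ K / 2 * ‖dslope f ρ 0‖ := by
  have hd : DifferentiableOn ℂ (dslope f ρ) (ball 0 (2 * r)) :=
    (differentiableOn_dslope (isOpen_ball.mem_nhds (mem_ball_zero_iff.2 (by linarith)))).2 hf
  have e : ∀ z, ‖f z‖ = ‖z - ρ‖ * ‖dslope f ρ z‖ := fun z => by
    have := sub_smul_dslope f ρ z
    rw [h0, sub_zero, smul_eq_mul] at this
    rw [← this, norm_mul]
  intro z hz
  refine norm_le_of_forall_mem_frontier_norm_le (U := ball 0 r) isBounded_ball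
    (hd.diffContOnCl_ball (closedBall_subset_ball (by linarith))) (fun x hx => ?_)
    (by rwa [closure_ball _ hr.ne'])
  rw [frontier_ball _ hr.ne'] at hx
  have a1 := hb x (sphere_subset_closedBall hx)
  rw [mem_sphere_zero_iff_norm] at hx
  rw [e x, e 0, zero_sub, norm_neg] at a1
  have a2 : 2 * r / 3 ≤ ‖x - ρ‖ := by linarith [norm_sub_norm_le x ρ]
  have a3 : K * (‖ρ‖ * ‖dslope f ρ 0‖) ≤ K * (r / 3 * ‖dslope f ρ 0‖) := by gcongr
  have a4 : 2 * r / 3 * ‖dslope f ρ x‖ ≤ ‖x - ρ‖ * ‖dslope f ρ x‖ := by gcongr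
  refine le_of_mul_le_mul_left ((a4.trans (a1.trans a3)).trans_eq (by ring)) (by positivity)

theorem landau_disc {r : ℝ} (hr : 0 < r) (n : ℕ) : ∀ f : ℂ → ℂ,
    DifferentiableOn ℂ f (ball 0 (2 * r)) → f 0 ≠ 0 →
    (∀ z ∈ closedBall (0 : ℂ) r, ‖f z‖ ≤ 2 ^ n * ‖f 0‖) →
    ∃ Z : List ℂ, Z.length ≤ n ∧ (∀ ρ ∈ Z, f ρ = 0 ∧ ‖ρ‖ < r / 3) ∧
      (∀ ρ, ‖ρ‖ < r / 3 → f ρ = 0 → ρ ∈ Z) ∧ ∀ z, ‖z‖ ≤ r / 12 → f z ≠ 0 →
        ‖deriv f z / f z - (Z.map fun ρ => 1 / (z - ρ)).sum‖ ≤ 24 * (n + 1) / r := by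
  have base : ∀ (n : ℕ) (f : ℂ → ℂ), DifferentiableOn ℂ f (ball 0 (2 * r)) →
      (∀ z ∈ closedBall (0 : ℂ) r, ‖f z‖ ≤ 2 ^ n * ‖f 0‖) → (∀ ρ, ‖ρ‖ < r / 3 → f ρ ≠ 0) →
      ∃ Z : List ℂ, Z.length ≤ n ∧ (∀ ρ ∈ Z, f ρ = 0 ∧ ‖ρ‖ < r / 3) ∧
      (∀ ρ, ‖ρ‖ < r / 3 → f ρ = 0 → ρ ∈ Z) ∧ ∀ z, ‖z‖ ≤ r / 12 → f z ≠ 0 →
        ‖deriv f z / f z - (Z.map fun ρ => 1 / (z - ρ)).sum‖ ≤ 24 * (n + 1) / r := by
    intro n f hf hb hz
    refine ⟨[], by simp, by simp, fun ρ h1 h2 => absurd h2 (hz ρ h1), fun z h1 _ => ?_⟩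
    have H := nozero (f := f) (R := r / 3) (M := n + 1) (by positivity) (by positivity)
      (hf.mono (ball_subset_ball (by linarith))) (fun x hx => hz x (mem_ball_zero_iff.1 hx))
      (fun x hx => (hb x (mem_closedBall_zero_iff.2
        (by linarith [mem_ball_zero_iff.1 hx]))).trans (by
          refine mul_le_mul_of_nonneg_right ?_ (norm_nonneg _)
          calc (2 : ℝ) ^ n ≤ Real.exp 1 ^ n := by
                gcongr; linarith [Real.add_one_le_exp 1]
            _ = Real.exp n := by rw [← Real.exp_nat_mul, mul_one]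
            _ ≤ _ := Real.exp_le_exp.2 (by linarith))) (z := z) (by linarith)
    simp only [List.map_nil, List.sum_nil, sub_zero]
    refine H.trans_eq ?_
    field_simp
    norm_num
  have fac : ∀ (f : ℂ → ℂ) (ρ : ℂ), f ρ = 0 → ∀ z, f z = (z - ρ) * dslope f ρ z := by
    intro f ρ h0 z
    have := sub_smul_dslope f ρ z
    rw [h0, sub_zero, smul_eq_mul] at this
    exact this.symm
  induction n with
  | zero =>
    intro f hf h0 hb
    refine base 0 f hf hb fun ρ h1 h2 => ?_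
    have a1 := halve hr (by positivity) hf h1 h2 hb 0 (mem_closedBall_self hr.le)
    have a2 : dslope f ρ 0 ≠ 0 := fun h => h0 (by rw [fac f ρ h2 0, h, mul_zero])
    have a3 := norm_pos_iff.2 a2
    norm_num at a1
    linarith
  | succ n ih =>
    intro f hf h0 hb
    by_cases hz : ∀ ρ, ‖ρ‖ < r / 3 → f ρ ≠ 0
    · exact base _ f hf hb hz
    push Not at hz
    obtain ⟨ρ, h1, h2⟩ := hz
    have hd : DifferentiableOn ℂ (dslope f ρ) (ball 0 (2 * r)) :=
      (differentiableOn_dslope (isOpen_ball.mem_nhds (mem_ball_zero_iff.2 (by linarith)))).2 hf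
    obtain ⟨Z, z1, z2, z3, z4⟩ := ih (dslope f ρ) hd
      (fun h => h0 (by rw [fac f ρ h2 0, h, mul_zero])) fun z hz =>
        (halve hr (by positivity) hf h1 h2 hb z hz).trans_eq (by rw [pow_succ]; ring)
    refine ⟨ρ :: Z, by simpa using z1, fun x hx => ?_, fun x a1 a2 => ?_, fun z a1 a2 => ?_⟩
    · rcases List.mem_cons.1 hx with rfl | hx
      · exact ⟨h2, h1⟩
      · exact ⟨by rw [fac f ρ h2 x, (z2 x hx).1, mul_zero], (z2 x hx).2⟩
    · rw [fac f ρ h2 x] at a2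
      rcases mul_eq_zero.1 a2 with a3 | a3
      · rw [sub_eq_zero.1 a3]; exact List.mem_cons_self
      · exact List.mem_cons_of_mem _ (z3 x a1 a3)
    · have a3 := a2
      rw [fac f ρ h2 z] at a3
      have a4 := left_ne_zero_of_mul a3
      have a5 := right_ne_zero_of_mul a3
      have a6 : HasDerivAt (fun x => (x - ρ) * dslope f ρ x)
          (1 * dslope f ρ z + (z - ρ) * deriv (dslope f ρ) z) z :=
        ((hasDerivAt_id z).sub_const ρ).mul (hd.differentiableAt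
          (isOpen_ball.mem_nhds (mem_ball_zero_iff.2 (by linarith)))).hasDerivAt
      rw [← funext (fac f ρ h2)] at a6
      have e : deriv f z / f z - ((ρ :: Z).map fun ρ => 1 / (z - ρ)).sum =
          deriv (dslope f ρ) z / dslope f ρ z - (Z.map fun ρ => 1 / (z - ρ)).sum := by
        rw [a6.deriv, List.map_cons, List.sum_cons, fac f ρ h2 z]
        field_simp
        ring
      rw [e]
      refine (z4 z a1 a5).trans ?_
      gcongr
      linarith

end VK

end Pool.Agent.Work.MP_678620_nt
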