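import Pool.Agent.Work.MP_678620_nt.VKSum
import Pool.Agent.Lib.MR.Vdc

/-! Partial sums of `(m + β) ^ (i τ)` with a Vinogradov-Korobov saving. -/

set_option autoImplicit false

namespace Pool.Agent.Work.MP_678620_nt

open Finset Filter Pool.Agent.Lib.LargeSieve Pool.Agent.Work.MP_453366_nt Pool.Agent.Lib.MR

namespace VK

lemma norm_Ioc_le (f : ℕ → ℂ) (hf : ∀ n, ‖f n‖ ≤ 1) (m : ℕ) : ‖∑ n ∈ Ioc 0 m, f n‖ ≤ m :=
  (norm_sum_le _ _).trans ((Finset.sum_le_sum fun n _ => hf n).trans (by simp))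

lemma blocks (f : ℕ → ℂ) (hf : ∀ n, ‖f n‖ ≤ 1) (A₀ y : ℕ) {ε : ℝ} (hε : 0 ≤ ε)
    (h : ∀ A B : ℕ, A₀ ≤ A → A ≤ y → 3 * (B + 1) ≤ 4 * A → ‖∑ n ∈ Ioc A B, f n‖ ≤ ε * A) :
    ∀ m ≤ y, ‖∑ n ∈ Ioc 0 m, f n‖ ≤ 2 * A₀ + 20 + 6 * ε * m := by
  intro m
  induction m using Nat.strong_induction_on with
  | _ m ih =>
  intro hm
  rcases le_or_gt m (2 * A₀ + 20) with hc | hc
  · have h1 : (m : ℝ) ≤ 2 * A₀ + 20 := by exact_mod_cast hc
    have h2 : 0 ≤ 6 * ε * m := by positivity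
    linarith only [h1, h2, norm_Ioc_le f hf m]
  · obtain ⟨A, hA⟩ : ∃ A, A = (3 * (m + 1) + 3) / 4 := ⟨_, rfl⟩
    have i1 := ih A (by omega) (by omega)
    have i2 := h A m (by omega) (by omega) (by omega)
    rw [← Finset.sum_Ioc_consecutive f (Nat.zero_le A) (by omega : A ≤ m)]
    have i3 : (7 : ℝ) * A ≤ 6 * m := by exact_mod_cast (by omega : 7 * A ≤ 6 * m)
    have i4 := mul_le_mul_of_nonneg_left i3 hε
    refine (norm_add_le _ _).trans ?_
    linarith only [i1, i2, i4]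

lemma ce_eq_ee (τ x : ℝ) : ce (τ * x) = ee (τ / (2 * Real.pi) * x) := by
  unfold ce ee
  congr 3
  field_simp

/-- the range in which the frequency is large -/
lemma part_large {w τ β : ℝ} {m : ℕ} (hw : 12 * 10 ^ 9 ≤ w ^ 2) (hw1 : 1 ≤ w)
    (hs : 12 * 100400 ^ 41 * w ^ 492 * Real.exp (-(1 / (12 * 10 ^ 9) * w ^ 2)) ≤ 1)
    (h0 : 0 ≤ β) (h1 : β ≤ 1) (hτ : |τ| ≤ Real.exp (5 * w ^ 20)) (hm : w ^ 14 ≤ Real.log m)
    (hτm : (m : ℝ) ^ 2 ≤ |τ|) :
    ‖∑ k ∈ Ioc 0 m, ce (τ * Real.log (k + β))‖ ≤ 3 * (m : ℝ) ^ (1 - 1 / w ^ 14) := by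
  have hw0 : 0 < w := by linarith only [hw1]
  have hw14 : 12 * 10 ^ 9 ≤ w ^ 14 := hw.trans (pow_le_pow_right₀ hw1 (by norm_num))
  set L := Real.log m with hL
  have hL0 : 0 < L := by linarith only [hw14, hm]
  have hm1 : (1 : ℝ) < m := by
    by_contra hc
    linarith only [hw14, hm, hc, Real.log_nonpos (Nat.cast_nonneg m) (not_lt.1 hc)]
  have hm0 : (0 : ℝ) < m := by linarith only [hm1]
  have hpow : ∀ s : ℝ, (m : ℝ) ^ s = Real.exp (L * s) := fun s => Real.rpow_def_of_pos hm0 s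
  have hq : (64 : ℝ) ≤ (m : ℝ) ^ (1 / 4 : ℝ) := by
    rw [hpow]; linarith only [hw14, hm, Real.add_one_le_exp (L * (1 / 4))]
  have hhalf : (m : ℝ) ^ (1 / 4 : ℝ) ≤ (m : ℝ) ^ (1 / 2 : ℝ) :=
    Real.rpow_le_rpow_of_exponent_le hm1.le (by norm_num)
  have hm7 : (7 : ℝ) ≤ m := by
    have : (m : ℝ) ^ (1 / 2 : ℝ) ≤ (m : ℝ) ^ (1 : ℝ) :=
      Real.rpow_le_rpow_of_exponent_le hm1.le (by norm_num)
    rw [Real.rpow_one] at this; linarith only [hq, hhalf, this]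
  set Y := τ / (2 * Real.pi) with hY
  have hpi := Real.pi_gt_three
  have hpi' := Real.pi_lt_d2
  have hYabs : |Y| = |τ| / (2 * Real.pi) := by
    rw [hY, abs_div, abs_of_pos (by positivity : 0 < 2 * Real.pi)]
  have hY1 : (m : ℝ) ≤ |Y| := by
    clear * - m Y τ hYabs hτm hm7 hpi hpi'
    rw [hYabs, le_div_iff₀ (by positivity)]; nlinarith only [hτm, hm7, hpi, hpi']
  have hY0 : 0 < |Y| := by linarith only [hm7, hpi, hpi', hY1]
  have hY2 : Real.log |Y| ≤ 5 * w ^ 20 := by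
    clear * - Y w hY0 τ hYabs hpi hpi' hτ
    rw [Real.log_le_iff_le_exp hY0, hYabs]
    exact (div_le_self (abs_nonneg _) (by linarith)).trans hτ
  set ε : ℝ := 2 * (100400 * w ^ 12) ^ 41 * Real.exp (-(L / (6 * 10 ^ 9 * w ^ 12))) with hε
  have hε0 : 0 ≤ ε := by positivity
  have H := blocks (fun k : ℕ => ee (Y * Real.log (k + β))) (fun n => (norm_ee _).le)
    ⌈(m : ℝ) ^ (1 / 2 : ℝ)⌉₊ m hε0 (fun A B hA1 hA2 hB => ?_) m le_rfl
  · simp only [ce_eq_ee]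
    refine H.trans ?_
    have a1 : (⌈(m : ℝ) ^ (1 / 2 : ℝ)⌉₊ : ℝ) ≤ (m : ℝ) ^ (1 / 2 : ℝ) + 1 :=
      (Nat.ceil_lt_add_one (by positivity)).le
    have hη : 1 / w ^ 14 ≤ 1 / 4 := one_div_le_one_div_of_le (by norm_num) (by clear * - w hw14 hpi hpi'; linarith only [hw14, hpi, hpi'])
    have a2 : (m : ℝ) ^ (1 / 2 : ℝ) * (m : ℝ) ^ (1 / 4 : ℝ) ≤ (m : ℝ) ^ (1 - 1 / w ^ 14) := by
      clear * - m w hm0 hm1 hη
      rw [← Real.rpow_add hm0]
      exact Real.rpow_le_rpow_of_exponent_le hm1.le (by linarith only [hη])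
    have a3 : 6 * ε * m ≤ (m : ℝ) ^ (1 - 1 / w ^ 14) := by
      clear * - ε m w hm0 L hpow hw1 hm hL0 hw hε hs
      rw [sub_eq_add_neg, Real.rpow_add hm0, Real.rpow_one, mul_comm (m : ℝ), hpow]
      refine mul_le_mul_of_nonneg_right ?_ hm0.le
      have b1 : 1 / (12 * 10 ^ 9) * w ^ 2 + L * (1 / w ^ 14) ≤ L / (6 * 10 ^ 9 * w ^ 12) := by
        have c1 : 1 / (12 * 10 ^ 9) * w ^ 2 ≤ L / (12 * 10 ^ 9 * w ^ 12) := by
          rw [le_div_iff₀ (by positivity)]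
          calc _ = w ^ 14 := by ring
            _ ≤ L := hm
        have c2 : L * (1 / w ^ 14) ≤ L / (12 * 10 ^ 9 * w ^ 12) := by
          rw [mul_one_div]
          refine div_le_div_of_nonneg_left hL0.le (by positivity) ?_
          calc _ ≤ w ^ 2 * w ^ 12 := by gcongr
            _ = _ := by ring
        have c3 : L / (6 * 10 ^ 9 * w ^ 12) = 2 * (L / (12 * 10 ^ 9 * w ^ 12)) := by
          field_simp; norm_num
        linarith only [c1, c2, c3]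
      calc 6 * ε ≤ 6 * (2 * (100400 * w ^ 12) ^ 41 *
            Real.exp (-(1 / (12 * 10 ^ 9) * w ^ 2 + L * (1 / w ^ 14)))) := by
            rw [hε]; gcongr
        _ = (12 * 100400 ^ 41 * w ^ 492 * Real.exp (-(1 / (12 * 10 ^ 9) * w ^ 2))) *
            Real.exp (L * -(1 / w ^ 14)) := by
            rw [neg_add, Real.exp_add, mul_neg]; ring
        _ ≤ 1 * Real.exp (L * -(1 / w ^ 14)) := by gcongr
        _ = _ := one_mul _
    clear * - m ε w L hq hhalf hpi hpi' a1 a2 a3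
    nlinarith only [hq, hhalf, hpi, hpi', a1, a2, a3]
  · have hA1' : (m : ℝ) ^ (1 / 2 : ℝ) ≤ A := Nat.ceil_le.1 hA1
    have hA2' : (A : ℝ) ≤ m := by exact_mod_cast hA2
    have hA8 : (8 : ℝ) ≤ A := by clear * - A m hq hhalf hpi hpi' hA1'; linarith only [hq, hhalf, hpi, hpi', hA1']
    have hA0 : (0 : ℝ) < A := by clear * - A m hq hhalf hpi hpi' hA1'; linarith only [hq, hhalf, hpi, hpi', hA1']
    have hlA : L / 2 ≤ Real.log A := by
      rw [Real.le_log_iff_exp_le hA0]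
      rw [hpow] at hA1'
      convert hA1' using 2; ring
    have hlA0 : 0 < Real.log A := by clear * - A w L hw14 hm hpi hpi' hlA; linarith only [hw14, hm, hpi, hpi', hlA]
    set a := Real.log |Y| / Real.log A with ha
    have ha1 : 1 ≤ a := by
      clear * - a Y A ha hlA0 hA0 m hY1 hA2'
      rw [ha, le_div_iff₀ hlA0, one_mul]
      exact Real.log_le_log hA0 (by linarith)
    have ha2 : a ≤ 10 * w ^ 6 := by
      clear * - a w Y A ha hlA0 hY2 L hm hlA hw1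
      rw [ha, div_le_iff₀ hlA0]
      calc _ ≤ 5 * w ^ 20 := hY2
        _ = 10 * w ^ 6 * (w ^ 14 / 2) := by ring
        _ ≤ _ := by gcongr; linarith only [hm, hlA]
    have ha3 : a ^ 2 ≤ 100 * w ^ 12 := by
      clear * - a w ha1 ha2
      calc a ^ 2 ≤ (10 * w ^ 6) ^ 2 := by gcongr
        _ = _ := by ring
    have hYe : |Y| = (A : ℝ) ^ a := by
      rw [Real.rpow_def_of_pos hA0, ha, mul_div_cancel₀ _ hlA0.ne', Real.exp_log hY0]
    have hB' : (B : ℝ) + β ≤ 4 / 3 * A := by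
      clear * - B A hB β h1
      have : (3 : ℝ) * (B + 1) ≤ 4 * A := by exact_mod_cast hB
      linarith only [h1, this]
    refine (vin_log A a Y β A B hA8 (by clear * - a Y A hpi hpi' ha1 B h0 hA8 hB' hYe β; linarith only [hpi, hpi', ha1]) hYe h0 le_rfl hB').trans ?_
    rw [sub_eq_add_neg, Real.rpow_add hA0, Real.rpow_one, Real.rpow_def_of_pos hA0, hε]
    have b1 : L / (6 * 10 ^ 9 * w ^ 12) ≤ Real.log A * (1 / (3 * 10 ^ 7 * a ^ 2)) := by
      clear * - L w A a hw1 hL0 hlA ha1 ha3 hlA0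
      calc _ = L / 2 * (1 / (3 * 10 ^ 7 * (100 * w ^ 12))) := by field_simp; norm_num
        _ ≤ _ := by gcongr
    calc 2 * (1004 * a ^ 2) ^ 41 * (A * Real.exp (Real.log A * -(1 / (3 * 10 ^ 7 * a ^ 2))))
        ≤ 2 * (1004 * (100 * w ^ 12)) ^ 41 * (A * Real.exp (-(L / (6 * 10 ^ 9 * w ^ 12)))) := by
          clear * - a w A L ha1 ha3 Y b1 hA8 hw1
          gcongr; linarith only [b1]
      _ = _ := by ring

theorem part_bound : ∀ᶠ w : ℝ in atTop, ∀ (τ β : ℝ) (m : ℕ), 0 ≤ β → β ≤ 1 →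
    |τ| ≤ Real.exp (5 * w ^ 20) → (m : ℝ) ≤ |τ| ^ 3 →
    ‖∑ k ∈ Ioc 0 m, ce (τ * Real.log (k + β))‖ ≤ 3 * (m : ℝ) ^ (1 - 1 / w ^ 14) := by
  obtain ⟨c, hc, C, hC⟩ := exp_sum_log 2
  have E1 := Vin.eventually_small (12 * 100400 ^ 41) (1 / (12 * 10 ^ 9)) 2 (by norm_num)
    (by norm_num) 492
  filter_upwards [E1, eventually_ge_atTop (12 * 10 ^ 9 : ℝ), eventually_ge_atTop (2 / c),
    eventually_ge_atTop (2 / c * C)] with w hs hw hwc hwC τ β m h0 h1 hτ hm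
  have hw1 : 1 ≤ w := by linarith only [hw]
  have hw0 : 0 < w := by linarith only [hw]
  have hw2 : w ≤ w ^ 2 := le_self_pow₀ hw1 (by norm_num)
  have hw14 : w ≤ w ^ 14 := le_self_pow₀ hw1 (by norm_num)
  rw [Real.rpow_two] at hs
  rcases Nat.eq_zero_or_pos m with rfl | hm0
  · simp only [Ioc_self, sum_empty, norm_zero]; positivity
  have hm0' : (0 : ℝ) < m := by exact_mod_cast hm0
  have hm1 : (1 : ℝ) ≤ m := by exact_mod_cast hm0
  have hpow : ∀ s : ℝ, (m : ℝ) ^ s = Real.exp (Real.log m * s) :=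
    fun s => Real.rpow_def_of_pos hm0' s
  rcases le_or_gt (Real.log m) (w ^ 14) with hL | hL
  · refine (norm_Ioc_le _ (fun n => (norm_ce _).le) m).trans ?_
    rw [sub_eq_add_neg, Real.rpow_add hm0', Real.rpow_one, mul_left_comm, hpow]
    refine le_mul_of_one_le_right hm0'.le ?_
    have a1 : Real.exp (-1) ≤ Real.exp (Real.log m * -(1 / w ^ 14)) := by
      rw [Real.exp_le_exp, mul_neg, neg_le_neg_iff, mul_one_div, div_le_one (by positivity)]
      exact hL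
    have a2 : Real.exp (-1) * Real.exp 1 = 1 := by rw [← Real.exp_add]; simp
    clear * - m w a1 a2
    nlinarith only [a1, a2, Real.exp_one_lt_d9, Real.exp_pos (-1)]
  rcases le_or_gt ((m : ℝ) ^ 2) |τ| with hτm | hτm
  · exact part_large (by linarith only [hw, hw2]) hw1 hs h0 h1 hτ hL.le hτm
  have H := hC m hm1 β h0 h1 τ hτm.le m le_rfl
  have H2 := (norm_main (m + β) τ (by positivity)).2
  have hη : 1 / w ^ 14 ≤ 1 / 3 := one_div_le_one_div_of_le (by norm_num) (by linarith only [hw, hw14])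
  have hηc : 1 / w ^ 14 ≤ c / 2 := by
    clear * - w c hw hc hwc hw14
    rw [div_le_iff₀ (by positivity)]
    rw [div_le_iff₀ hc] at hwc
    nlinarith
  have b1 : C * (m : ℝ) ^ (1 - c) ≤ (m : ℝ) ^ (1 - 1 / w ^ 14) := by
    clear * - C m c hpow hc w hwC hw14 hL hm0 hm0' hm1 hηc
    have c1 : C ≤ (m : ℝ) ^ (c / 2) := by
      rw [hpow]
      have : C ≤ Real.log m * (c / 2) := by
        have e : C = 2 / c * C * (c / 2) := by field_simp
        rw [e]; gcongr; linarith only [hwC, hw14, hL]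
      linarith only [this, Real.add_one_le_exp (Real.log m * (c / 2))]
    calc _ ≤ (m : ℝ) ^ (c / 2) * (m : ℝ) ^ (1 - c) := by gcongr
      _ = (m : ℝ) ^ (c / 2 + (1 - c)) := (Real.rpow_add hm0' _ _).symm
      _ ≤ _ := Real.rpow_le_rpow_of_exponent_le hm1 (by linarith only [hηc])
  have b2 : (m : ℝ) ^ (1 / 3 : ℝ) ≤ |τ| := by
    calc (m : ℝ) ^ (1 / 3 : ℝ) ≤ (|τ| ^ 3) ^ (1 / 3 : ℝ) :=
          Real.rpow_le_rpow hm0'.le hm (by norm_num)
      _ = |τ| := by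
          rw [← Real.rpow_natCast, ← Real.rpow_mul (abs_nonneg _)]; norm_num
  have b3 : (m : ℝ) ≤ (m : ℝ) ^ (1 - 1 / w ^ 14) * (m : ℝ) ^ (1 / 3 : ℝ) := by
    clear * - m w hm0' hm1 hη
    rw [← Real.rpow_add hm0']
    conv_lhs => rw [← Real.rpow_one m]
    exact Real.rpow_le_rpow_of_exponent_le hm1 (by linarith only [hη])
  have hτ0 : 0 < |τ| := lt_of_lt_of_le (by positivity) b2
  set X : ℂ := ((m + β : ℝ) : ℂ) * ce (τ * Real.log (m + β)) / (1 + Complex.I * τ) with hX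
  have b4 : ‖X‖ ≤ 2 * (m : ℝ) ^ (1 - 1 / w ^ 14) := by
    clear * - τ X m w β H2 h1 hm1 b3 b2 hm0 hτ0
    refine le_of_mul_le_mul_right (H2.trans ?_) hτ0
    calc (m : ℝ) + β ≤ 2 * m := by linarith only [h1, hm1]
      _ ≤ 2 * ((m : ℝ) ^ (1 - 1 / w ^ 14) * |τ|) := by
          gcongr; exact b3.trans (by gcongr)
      _ = _ := by ring
  have e : ∑ k ∈ Ioc 0 m, ce (τ * Real.log (k + β)) = (∑ k ∈ Icc 1 m,
      Complex.exp (Complex.I * ((τ * Real.log (k + β) : ℝ) : ℂ)) - X) + X := by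
    rw [sub_add_cancel]; rfl
  rw [e]
  refine (norm_add_le _ _).trans ?_
  have H' : ‖∑ k ∈ Icc 1 m, Complex.exp (Complex.I * ((τ * Real.log (k + β) : ℝ) : ℂ)) - X‖
      ≤ C * (m : ℝ) ^ (1 - c) := H
  clear * - m τ β X w C c b1 b4 H'
  linarith only [b1, b4, H']

end VK

end Pool.Agent.Work.MP_678620_nt
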