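import Pool.Agent.Work.MP_453366_nt.Vin

/-! Vinogradov's estimate for the sums of `e(Y log (u + β))`. -/

set_option autoImplicit false

namespace Pool.Agent.Work.MP_678620_nt

open Finset Filter Pool.Agent.Lib.LargeSieve Pool.Agent.Work.MP_45c923_nt
  Pool.Agent.Work.MP_453366_nt

namespace VK

open VinInner in
/-- the bilinear sum with general coefficients -/
theorem vin_gen (U a : ℝ) (r Z : ℕ) (α : Fin r → ℝ) (hU : 1 ≤ U) (ha : 4 / 5 ≤ a)
    (hr : r = ⌈3 * a⌉₊ + 2) (hZ : Z = ⌊U ^ (1 / 3 : ℝ)⌋₊)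
    (h1 : ∀ j : Fin r, |α j| ≤ U ^ (a - ((j.val + 1 : ℕ) : ℝ)))
    (h2 : ∀ j : Fin r, U ^ (a - ((j.val + 1 : ℕ) : ℝ)) / 2 ^ (j.val + 1 + 1) ≤ |α j|) :
    ‖∑ x ∈ range Z, ∑ y ∈ range Z, ee (∑ j : Fin r, α j * ((x : ℝ) * y) ^ (j.val + 1))‖
      ≤ (Z : ℝ) ^ 2 * ((1004 * a ^ 2) ^ 41 * U ^ (-(1 / (3 * 10 ^ 7 * a ^ 2)))) := by
  have hU0 : 0 < U := by linarith only [hU]
  obtain ⟨hZ1, hZ2, hZ3⟩ := Z_bounds U Z hU hZ
  have hr2 : 2 ≤ r := by omega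
  obtain ⟨s, hs⟩ : ∃ s, s = r * (10 * r + 1) := ⟨_, rfl⟩
  have hs1 : 1 ≤ s := by clear * - s r hs a hr; rw [hs]; nlinarith only [hr]
  have hZ1' : (1 : ℝ) ≤ Z := by exact_mod_cast hZ1
  have hrr : (r : ℝ) ≤ 27 / 4 * a := by
    clear * - a ha r hr
    have : (⌈3 * a⌉₊ : ℝ) < 3 * a + 1 := Nat.ceil_lt_add_one (by linarith only [ha])
    rw [hr]; push_cast; linarith only [ha, this]
  have hr0 : (0 : ℝ) ≤ r := by positivity
  have hsa : (s : ℝ) ≤ 502 * a ^ 2 := by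
    clear * - s a r hs ha hrr hr2 h1 h2
    rw [hs]; push_cast
    have h1 : 10 * (r : ℝ) + 1 ≤ 275 / 4 * a := by linarith only [ha, hrr]
    have h2 : (r : ℝ) * (10 * r + 1) ≤ 27 / 4 * a * (275 / 4 * a) :=
      mul_le_mul hrr h1 (by positivity) (by linarith only [ha])
    nlinarith only [h2]
  have hs0 : (0 : ℝ) ≤ s := by positivity
  have hb := bil_bound r s Z hs1 α
  have hv := vmvt_ten r s Z hr2 hs hZ1
  have hp := prod_le U a r s Z α hU ha hs1 hZ1 hZ3 hr h1 h2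
  have hc := const_le r s hr2 hs
  have hZU : (Z : ℝ) ^ ((r * (r + 1) / 1024 : ℝ)) ≤ U ^ (a ^ 2 / 40) := by
    clear * - Z r U a hZ1 hZ2 hr2 hU0 hU ha hrr h1 h2
    calc (Z : ℝ) ^ ((r * (r + 1) / 1024 : ℝ)) ≤ (U ^ (1 / 3 : ℝ)) ^ ((r * (r + 1) / 1024 : ℝ)) :=
          Real.rpow_le_rpow (by positivity) hZ2 (by positivity)
      _ = U ^ (1 / 3 * (r * (r + 1) / 1024 : ℝ)) := (Real.rpow_mul hU0.le _ _).symm
      _ ≤ _ := by
          apply Real.rpow_le_rpow_of_exponent_le hU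
          have h1 : (r : ℝ) + 1 ≤ 8 * a := by linarith only [ha, hrr]
          have h2 : (r : ℝ) * (r + 1) ≤ 27 / 4 * a * (8 * a) :=
            mul_le_mul hrr h1 (by positivity) (by linarith only [ha])
          nlinarith only [h2]
  have ha0 : 0 < a := by clear * - a ha; linarith
  apply le_of_pow_le_pow_left₀ (n := 2 * s ^ 2) (by positivity) (by positivity)
  refine hb.trans ?_
  have e1 : (Z : ℝ) ^ (4 * s * (s - 1)) * (Z : ℝ) ^ (4 * s) = ((Z : ℝ) ^ 2) ^ (2 * s ^ 2) := by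
    rw [← pow_add, ← pow_mul]
    congr 1
    obtain ⟨t, rfl⟩ : ∃ t, s = t + 1 := ⟨s - 1, by omega⟩
    simp only [Nat.add_sub_cancel]
    ring
  have e2 : (2 * s : ℝ) ^ (80 * s ^ 2) * (2 * s : ℝ) ^ (2 * s ^ 2) ≤
      ((1004 * a ^ 2) ^ 41) ^ (2 * s ^ 2) := by
    clear * - s a hs1 hsa
    rw [← pow_add, ← pow_mul]
    have : 80 * s ^ 2 + 2 * s ^ 2 = 41 * (2 * s ^ 2) := by ring
    rw [this]
    exact pow_le_pow_left₀ (by positivity) (by linarith only [hsa]) _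
  have e3 : U ^ (a ^ 2 / 40) * U ^ (-(a ^ 2 / 20)) ≤
      (U ^ (-(1 / (3 * 10 ^ 7 * a ^ 2)))) ^ (2 * s ^ 2) := by
    clear * - U a s hU0 hU hs0 hsa ha h1 h2
    rw [← Real.rpow_add hU0, ← Real.rpow_natCast _ (2 * s ^ 2), ← Real.rpow_mul hU0.le]
    apply Real.rpow_le_rpow_of_exponent_le hU
    push_cast
    have h1 : (s : ℝ) ^ 2 ≤ (502 * a ^ 2) ^ 2 := pow_le_pow_left₀ hs0 hsa _
    have h2 : 1 / (3 * 10 ^ 7 * a ^ 2) * (2 * (s : ℝ) ^ 2) ≤ a ^ 2 / 40 := by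
      rw [one_div, inv_mul_le_iff₀ (by positivity)]
      have : 0 ≤ a ^ 4 := by positivity
      nlinarith only [h1]
    linarith only [h2]
  calc (Z : ℝ) ^ (4 * s * (s - 1)) * (JJ r s Z : ℝ) ^ 2 *
        ∏ j : Fin r, DD (α j) (s * Z ^ (j.val + 1))
      ≤ (Z : ℝ) ^ (4 * s * (s - 1)) * (JJ r s Z : ℝ) ^ 2 *
        ((32 * (s : ℝ) ^ 2) ^ r * (Z : ℝ) ^ (r * (r + 1)) *
          (4 ^ (r * r) * U ^ (-(a ^ 2 / 20)))) :=
        mul_le_mul_of_nonneg_left hp (by positivity)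
    _ = (Z : ℝ) ^ (4 * s * (s - 1)) * ((JJ r s Z : ℝ) ^ 2 * (Z : ℝ) ^ (r * (r + 1))) *
        ((32 * (s : ℝ) ^ 2) ^ r * 4 ^ (r * r)) * U ^ (-(a ^ 2 / 20)) := by ring
    _ ≤ (Z : ℝ) ^ (4 * s * (s - 1)) *
        ((2 * s : ℝ) ^ (80 * s ^ 2) * (Z : ℝ) ^ (4 * s) * U ^ (a ^ 2 / 40)) *
        (2 * s : ℝ) ^ (2 * s ^ 2) * U ^ (-(a ^ 2 / 20)) := by
        apply mul_le_mul_of_nonneg_right _ (by positivity)
        apply mul_le_mul _ hc (by positivity) (by positivity)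
        apply mul_le_mul_of_nonneg_left _ (by positivity)
        exact hv.trans (mul_le_mul_of_nonneg_left hZU (by positivity))
    _ = ((Z : ℝ) ^ (4 * s * (s - 1)) * (Z : ℝ) ^ (4 * s)) *
        (((2 * s : ℝ) ^ (80 * s ^ 2) * (2 * s : ℝ) ^ (2 * s ^ 2)) *
          (U ^ (a ^ 2 / 40) * U ^ (-(a ^ 2 / 20)))) := by ring
    _ ≤ _ := by
        rw [e1, mul_pow ((Z : ℝ) ^ 2), mul_pow ((1004 * a ^ 2) ^ 41)]
        apply mul_le_mul_of_nonneg_left _ (by positivity)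
        exact mul_le_mul e2 e3 (by positivity) (by positivity)

lemma alpha_bounds (U a Y u : ℝ) (i : ℕ) (hi : 1 ≤ i) (hU : 1 ≤ U) (hY : |Y| = U ^ a)
    (hu1 : U ≤ u) (hu2 : u ≤ 4 / 3 * U) :
    |(-1) ^ (i + 1) * Y / (i * u ^ i)| ≤ U ^ (a - i) ∧
      U ^ (a - i) / 2 ^ (i + 1) ≤ |(-1) ^ (i + 1) * Y / (i * u ^ i)| := by
  have hU0 : 0 < U := by linarith only [hU]
  have hu0 : 0 < u := by linarith only [hU, hu1]
  have hi' : (1 : ℝ) ≤ i := by exact_mod_cast hi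
  have e1 : |(-1) ^ (i + 1) * Y / (i * u ^ i)| = U ^ a / (i * u ^ i) := by
    rw [abs_div, abs_mul, abs_pow, abs_neg, abs_one, one_pow, one_mul, hY,
      abs_of_pos (by positivity : (0 : ℝ) < i * u ^ i)]
  have e2 : U ^ (a - i) = U ^ a / U ^ i := by
    rw [← Real.rpow_natCast U i, ← Real.rpow_sub hU0]
  have hp : 0 < U ^ a := Real.rpow_pos_of_pos hU0 _
  rw [e1, e2]
  constructor
  · refine div_le_div_of_nonneg_left hp.le (pow_pos hU0 _) ?_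
    exact (pow_le_pow_left₀ hU0.le hu1 _).trans (le_mul_of_one_le_left (by positivity) hi')
  · rw [div_div]
    refine div_le_div_of_nonneg_left hp.le (by positivity) ?_
    have h3 : u ^ i ≤ (4 / 3) ^ i * U ^ i := by
      rw [← mul_pow]; exact pow_le_pow_left₀ hu0.le hu2 _
    have h4 : (i : ℝ) ≤ 2 * (3 / 2) ^ i := by
      clear * - i a
      have := one_add_mul_le_pow (a := (1 / 2 : ℝ)) (by norm_num) i
      norm_num at this ⊢
      linarith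
    have h5 : (2 : ℝ) ^ (i + 1) = 2 * (3 / 2) ^ i * (4 / 3) ^ i := by
      rw [mul_assoc, ← mul_pow, pow_succ']; norm_num
    calc (i : ℝ) * u ^ i ≤ (2 * (3 / 2) ^ i) * ((4 / 3) ^ i * U ^ i) := by gcongr
      _ = _ := by rw [h5]; ring

/-- the expansion of the logarithm -/
lemma log_expand {U a Y u h : ℝ} {r : ℕ} (hU : 8 ≤ U) (hY : |Y| = U ^ a) (hu : U ≤ u)
    (hr : 3 * a + 2 ≤ r) (h0 : 0 ≤ h) (h1 : h ≤ U ^ (2 / 3 : ℝ)) :
    |Y * Real.log (u + h) - (Y * Real.log u + ∑ j : Fin r,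
      ((-1) ^ (j.val + 1 + 1) * Y / (((j.val + 1 : ℕ) : ℝ) * u ^ (j.val + 1))) * h ^ (j.val + 1))|
      ≤ 2 / U := by
  have hU0 : 0 < U := by linarith
  have hu0 : 0 < u := by linarith
  have hx0 : 0 ≤ h / u := by positivity
  have hx1 : h / u ≤ U ^ (-(1 / 3) : ℝ) := by
    calc h / u ≤ U ^ (2 / 3 : ℝ) / U := by gcongr
      _ = U ^ (-(1 / 3) : ℝ) := by
          rw [← Real.rpow_sub_one hU0.ne']; norm_num
  have hx2 : U ^ (-(1 / 3) : ℝ) ≤ 1 / 2 := by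
    calc U ^ (-(1 / 3) : ℝ) ≤ (8 : ℝ) ^ (-(1 / 3) : ℝ) :=
          Real.rpow_le_rpow_of_nonpos (by norm_num) hU (by norm_num)
      _ = 1 / 2 := by
          rw [show (8 : ℝ) = 2 ^ (3 : ℝ) by norm_num, ← Real.rpow_mul (by norm_num)]
          norm_num
  have habs : |-(h / u)| = h / u := by rw [abs_neg, abs_of_nonneg hx0]
  have H := Real.abs_log_sub_add_sum_range_le (x := -(h / u)) (by rw [habs]; linarith only [hx1, hx2]) r
  rw [habs, sub_neg_eq_add] at H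
  have e1 : Real.log (u + h) = Real.log u + Real.log (1 + h / u) := by
    rw [← Real.log_mul hu0.ne' (by positivity)]; congr 1; field_simp
  have e2 : ∑ j : Fin r, ((-1) ^ (j.val + 1 + 1) * Y / (((j.val + 1 : ℕ) : ℝ) * u ^ (j.val + 1))) *
      h ^ (j.val + 1) = -(Y * ∑ i ∈ range r, (-(h / u)) ^ (i + 1) / (i + 1)) := by
    clear * - r Y u h hu0
    rw [Finset.mul_sum, ← Finset.sum_neg_distrib, Finset.sum_range]
    refine Finset.sum_congr rfl fun j _ => ?_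
    rw [neg_pow (h / u), div_pow, pow_succ (-1 : ℝ) (j.val + 1)]
    push_cast
    field_simp
  rw [e1, e2]
  have e3 : Y * (Real.log u + Real.log (1 + h / u)) - (Y * Real.log u +
      -(Y * ∑ i ∈ range r, (-(h / u)) ^ (i + 1) / (i + 1))) =
      Y * (∑ i ∈ range r, (-(h / u)) ^ (i + 1) / (i + 1) + Real.log (1 + h / u)) := by ring
  rw [e3, abs_mul, hY]
  have h3 : (h / u) ^ (r + 1) / (1 - h / u) ≤ 2 * (U ^ (-(1 / 3) : ℝ)) ^ (r + 1) := by
    clear * - h u r U hx1 hx2 h0 hu0 hU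
    rw [div_le_iff₀ (by linarith only [hx1, hx2])]
    have : (h / u) ^ (r + 1) ≤ (U ^ (-(1 / 3) : ℝ)) ^ (r + 1) := by gcongr
    have h4 : 0 ≤ (U ^ (-(1 / 3) : ℝ)) ^ (r + 1) := by positivity
    nlinarith only [this, hx1, h4, hx2]
  calc U ^ a * _ ≤ U ^ a * (2 * (U ^ (-(1 / 3) : ℝ)) ^ (r + 1)) :=
        mul_le_mul_of_nonneg_left (H.trans h3) (by positivity)
    _ = 2 * U ^ (a + -(1 / 3) * (r + 1 : ℝ)) := by
        rw [Real.rpow_add hU0, ← Real.rpow_natCast, ← Real.rpow_mul hU0.le]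
        push_cast; ring
    _ ≤ 2 * U ^ (-1 : ℝ) := by
        clear * - U a r hU hr
        gcongr
        · linarith
        · linarith
    _ = 2 / U := by rw [Real.rpow_neg_one]; ring

/-- the double sum at a point of the range -/
lemma double_le {U a Y u : ℝ} {Z : ℕ} (hU : 8 ≤ U) (ha : 4 / 5 ≤ a) (hY : |Y| = U ^ a)
    (hu1 : U ≤ u) (hu2 : u ≤ 4 / 3 * U) (hZ : Z = ⌊U ^ (1 / 3 : ℝ)⌋₊) :
    ‖∑ x ∈ range Z, ∑ y ∈ range Z, ee (Y * Real.log (u + (x : ℝ) * y))‖ ≤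
      (Z : ℝ) ^ 2 * (14 / U + (1004 * a ^ 2) ^ 41 * U ^ (-(1 / (3 * 10 ^ 7 * a ^ 2)))) := by
  have hU0 : 0 < U := by linarith only [hU]
  have hu0 : 0 < u := by linarith only [hU, hu1]
  set r : ℕ := ⌈3 * a⌉₊ + 2 with hr
  have hr' : 3 * a + 2 ≤ r := by
    rw [hr]; push_cast; linarith only [Nat.le_ceil (3 * a)]
  have hZU : (Z : ℝ) ≤ U ^ (1 / 3 : ℝ) := by
    rw [hZ]; exact Nat.floor_le (by positivity)
  have hin := vin_gen U a r Z
    (fun j => (-1) ^ (j.val + 1 + 1) * Y / (((j.val + 1 : ℕ) : ℝ) * u ^ (j.val + 1)))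
    (by linarith only [hU]) ha hr hZ
    (fun j => (alpha_bounds U a Y u (j.val + 1) (by omega) (by linarith only [hU]) hY hu1 hu2).1)
    (fun j => (alpha_bounds U a Y u (j.val + 1) (by omega) (by linarith only [hU]) hY hu1 hu2).2)
  set P : ℕ → ℕ → ℝ := fun x y => ∑ j : Fin r,
    ((-1) ^ (j.val + 1 + 1) * Y / (((j.val + 1 : ℕ) : ℝ) * u ^ (j.val + 1))) *
      ((x : ℝ) * y) ^ (j.val + 1) with hP
  have key : ∀ x ∈ range Z, ∀ y ∈ range Z,
      ‖ee (Y * Real.log (u + (x : ℝ) * y)) - ee (Y * Real.log u) * ee (P x y)‖ ≤ 14 / U := by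
    clear * - Z U hZU hU hU0 Y u P r a hY hu1 hr'
    intro x hx y hy
    have hx' : (x : ℝ) ≤ U ^ (1 / 3 : ℝ) :=
      le_trans (by exact_mod_cast (Finset.mem_range.mp hx).le) hZU
    have hy' : (y : ℝ) ≤ U ^ (1 / 3 : ℝ) :=
      le_trans (by exact_mod_cast (Finset.mem_range.mp hy).le) hZU
    have h0 : (0 : ℝ) ≤ (x : ℝ) * y := by positivity
    have h1 : (x : ℝ) * y ≤ U ^ (2 / 3 : ℝ) := by
      calc (x : ℝ) * y ≤ U ^ (1 / 3 : ℝ) * U ^ (1 / 3 : ℝ) := by gcongr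
        _ = U ^ (2 / 3 : ℝ) := by rw [← Real.rpow_add hU0]; norm_num
    rw [← ee_add]
    refine (norm_ee_sub_ee _ _).trans ?_
    have := log_expand hU hY hu1 hr' h0 h1
    calc _ ≤ 7 * (2 / U) := by gcongr
      _ = 14 / U := by ring
  have e : ∑ x ∈ range Z, ∑ y ∈ range Z, ee (Y * Real.log (u + (x : ℝ) * y)) =
      ∑ x ∈ range Z, ∑ y ∈ range Z,
        (ee (Y * Real.log (u + (x : ℝ) * y)) - ee (Y * Real.log u) * ee (P x y)) +
        ee (Y * Real.log u) * ∑ x ∈ range Z, ∑ y ∈ range Z, ee (P x y) := by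
    simp only [Finset.sum_sub_distrib, Finset.mul_sum]; ring
  rw [e, mul_add]
  refine (norm_add_le _ _).trans (add_le_add ?_ ?_)
  · refine (norm_sum_le _ _).trans ?_
    calc _ ≤ ∑ x ∈ range Z, ∑ y ∈ range Z, 14 / U := Finset.sum_le_sum fun x hx =>
          (norm_sum_le _ _).trans (Finset.sum_le_sum fun y hy => key x hx y hy)
      _ = _ := by simp only [Finset.sum_const, Finset.card_range, nsmul_eq_mul]; ring
  · rw [norm_mul, norm_ee, one_mul]; exact hin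

theorem vin_log (U a Y β : ℝ) (A B : ℕ) (hU : 8 ≤ U) (ha : 4 / 5 ≤ a) (hY : |Y| = U ^ a)
    (hβ : 0 ≤ β) (hA : U ≤ A) (hB : B + β ≤ 4 / 3 * U) :
    ‖∑ u ∈ Ioc A B, ee (Y * Real.log (u + β))‖
      ≤ 2 * (1004 * a ^ 2) ^ 41 * U ^ (1 - 1 / (3 * 10 ^ 7 * a ^ 2)) := by
  have hU0 : 0 < U := by linarith only [hU]
  have hU1 : 1 ≤ U := by linarith
  have ha0 : 0 < a := by linarith
  rcases lt_or_ge B A with hBA | hAB
  · rw [Finset.Ioc_eq_empty (by omega), Finset.sum_empty, norm_zero]; positivity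
  set Z : ℕ := ⌊U ^ (1 / 3 : ℝ)⌋₊ with hZ
  set M : ℝ := (1004 * a ^ 2) ^ 41 with hM
  set c : ℝ := 1 / (3 * 10 ^ 7 * a ^ 2) with hc
  set S : ℂ := ∑ u ∈ Ioc A B, ee (Y * Real.log (u + β)) with hS
  have hZ1 : 1 ≤ Z := Nat.le_floor (by simpa using Real.one_le_rpow hU1 (by norm_num))
  have hZ0 : (0 : ℝ) < Z := by exact_mod_cast hZ1
  have hZU : (Z : ℝ) ≤ U ^ (1 / 3 : ℝ) := Nat.floor_le (by positivity)
  have hZ2 : (Z : ℝ) ^ 2 ≤ U ^ (2 / 3 : ℝ) := by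
    calc (Z : ℝ) ^ 2 ≤ (U ^ (1 / 3 : ℝ)) ^ 2 := by gcongr
      _ = U ^ (2 / 3 : ℝ) := by rw [sq, ← Real.rpow_add hU0]; norm_num
  have hM0 : 0 ≤ M := by positivity
  have e : ((Z : ℂ) ^ 2) * S = ∑ x ∈ range Z, ∑ y ∈ range Z,
      (S - ∑ u ∈ Ioc A B, ee (Y * Real.log (((u + x * y : ℕ) : ℝ) + β))) +
      ∑ u ∈ Ioc A B, ∑ x ∈ range Z, ∑ y ∈ range Z,
        ee (Y * Real.log ((u + β) + (x : ℝ) * y)) := by
    rw [Finset.sum_comm (s := Ioc A B)]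
    simp only [Finset.sum_sub_distrib, Finset.sum_const, Finset.card_range, nsmul_eq_mul]
    have : ∀ x ∈ range Z, ∑ u ∈ Ioc A B, ∑ y ∈ range Z, ee (Y * Real.log ((u + β) + (x : ℝ) * y)) =
        ∑ y ∈ range Z, ∑ u ∈ Ioc A B, ee (Y * Real.log (((u + x * y : ℕ) : ℝ) + β)) :=
      fun x _ => by
        rw [Finset.sum_comm]
        refine Finset.sum_congr rfl fun y _ => Finset.sum_congr rfl fun u _ => ?_
        push_cast
        congr 3
        ring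
    rw [Finset.sum_congr rfl this]
    ring
  have b1 : ‖∑ x ∈ range Z, ∑ y ∈ range Z,
      (S - ∑ u ∈ Ioc A B, ee (Y * Real.log (((u + x * y : ℕ) : ℝ) + β)))‖
        ≤ (Z : ℝ) ^ 2 * (2 * (Z : ℝ) ^ 2) := by
    clear * - Z S A B Y β hAB hZ1
    refine (norm_sum_le _ _).trans ?_
    calc _ ≤ ∑ x ∈ range Z, ∑ y ∈ range Z, 2 * (Z : ℝ) ^ 2 := Finset.sum_le_sum fun x hx =>
          (norm_sum_le _ _).trans (Finset.sum_le_sum fun y hy => by
            have hx' : (x : ℝ) ≤ Z := by exact_mod_cast (Finset.mem_range.mp hx).le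
            have hy' : (y : ℝ) ≤ Z := by exact_mod_cast (Finset.mem_range.mp hy).le
            refine (Vin.norm_sum_sub_shift (fun n : ℕ => ee (Y * Real.log (n + β)))
              (fun n => (norm_ee _).le) hAB (x * y)).trans ?_
            push_cast
            rw [sq]
            gcongr)
      _ = _ := by simp only [Finset.sum_const, Finset.card_range, nsmul_eq_mul]; ring
  have hcard : ((B - A : ℕ) : ℝ) ≤ U := by
    clear * - B A U hAB β hU hβ hA hB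
    rw [Nat.cast_sub hAB]; linarith only [hU, hβ, hA, hB]
  have b2 : ‖∑ u ∈ Ioc A B, ∑ x ∈ range Z, ∑ y ∈ range Z,
      ee (Y * Real.log ((u + β) + (x : ℝ) * y))‖ ≤
      U * ((Z : ℝ) ^ 2 * (14 / U + M * U ^ (-c))) := by
    clear * - A B Z Y β U M c a hU ha hY hβ hA hB hZ hcard hZ1
    refine (norm_sum_le _ _).trans ?_
    calc _ ≤ ∑ u ∈ Ioc A B, (Z : ℝ) ^ 2 * (14 / U + M * U ^ (-c)) :=
          Finset.sum_le_sum fun u hu => by
            have h1 : (A : ℝ) ≤ u := by exact_mod_cast (Finset.mem_Ioc.mp hu).1.le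
            have h2 : (u : ℝ) ≤ B := by exact_mod_cast (Finset.mem_Ioc.mp hu).2
            exact double_le hU ha hY (by linarith only [hβ, hA, h1]) (by linarith only [hB, h2]) hZ
      _ = ((B - A : ℕ) : ℝ) * ((Z : ℝ) ^ 2 * (14 / U + M * U ^ (-c))) := by
          rw [Finset.sum_const, Nat.card_Ioc, nsmul_eq_mul]
      _ ≤ _ := by gcongr
  have b3 : (Z : ℝ) ^ 2 * ‖S‖ ≤ (Z : ℝ) ^ 2 * (2 * (Z : ℝ) ^ 2 + 14 + M * U ^ (1 - c)) := by
    have h1 : (Z : ℝ) ^ 2 * ‖S‖ = ‖((Z : ℂ) ^ 2) * S‖ := by simp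
    have h2 : U ^ (1 - c) = U * U ^ (-c) := by
      rw [sub_eq_add_neg, Real.rpow_add hU0, Real.rpow_one]
    rw [h1, e, h2]
    refine (norm_add_le _ _).trans ((add_le_add b1 b2).trans (le_of_eq ?_))
    field_simp
    ring
  have b4 := le_of_mul_le_mul_left b3 (by positivity)
  have hc1 : c ≤ 1 / 3 := by
    clear * - c a hc ha ha0
    rw [hc]
    exact one_div_le_one_div_of_le (by norm_num) (by nlinarith only [ha, ha0])
  have h1 : U ^ (2 / 3 : ℝ) ≤ U ^ (1 - c) := Real.rpow_le_rpow_of_exponent_le hU1 (by clear * - c a hc1 U hU1; linarith)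
  have h2 : 1 ≤ U ^ (1 - c) := Real.one_le_rpow hU1 (by clear * - c a hc1 U hU1; linarith)
  have h3 : 16 ≤ M := by
    clear * - a ha ha0 M
    have h4 : (16 : ℝ) ≤ 1004 * a ^ 2 := by nlinarith only [ha, ha0]
    calc (16 : ℝ) ≤ 1004 * a ^ 2 := h4
      _ = (1004 * a ^ 2) ^ 1 := (pow_one _).symm
      _ ≤ M := pow_le_pow_right₀ (by linarith) (by norm_num)
  have h5 : 16 * U ^ (1 - c) ≤ M * U ^ (1 - c) := by gcongr
  clear * - S M U c Z a hZ2 b4 h1 h2 h5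
  linarith only [hZ2, b4, h1, h2, h5]

end VK

end Pool.Agent.Work.MP_678620_nt
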